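import Pool.Agent.LKT.TwA
import Pool.Agent.ACB.Main

/-!
# MMV/Defs: torus moves, definitions

* `Sl`: integer matrices `(a, b; c, d)`, slopes of the fillings.
* `FT J κ M κ' X`: `X` is the union of `P - tori` (map `A`), of tubes `S¹ × S¹ × D²` (maps `F i`, for the thick tori `κ i`) and of twins (maps `Q j`, for the thick tori `κ' j`).
  `F i (l, s, r ex φ) = A (κ i (l, r ex (a φ + b s), c φ + d s))`; the twins are glued as in `LKT.TwMF`.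
* `Sys J κ κ'`: all the tori are thick, with disjoint tubes.
* `Strip`: a box which contains a straight strand of each of the thick tori `κ₁` (at `z = -1`) and `κ₂` (at `z = 1`).
* `κγ b`: the thick torus `|z| = 5/2`, `s = 0` in the box `b` (first coordinate: the time of the box, last coordinate: the angle of `z`).
* `sY`: stereographic parametrisation of `S³` by `ℝ³`; `Inv`: the inversion.
* `κS₁`, `κS₂`: the two standard thick tori of `S³ × S¹` (at `|Y| = 1/32` and at `|Y| = 32`).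
-/

open scoped ContDiff Manifold Topology unitInterval
open Set Filter
open Pool.Agent.RSG (E3 E4 S2 S3 S4 ex cj c1 c2 ht fh pS3 pS4)
open Pool.Agent.RBM (ThickT OnT Box)
open Pool.Agent.LKF (OnF)
open Pool.Agent.PTH (SP ISP)
open Pool.Agent.KNH (circ)
open Pool.Agent.LKT (s1 s2)

namespace Pool.Agent.MMV

/-- integer matrices `(a, b; c, d)` -/
@[ext] structure Sl where
  a : ℤ
  b : ℤ
  c : ℤ
  d : ℤ

/-- determinant `±1` -/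
def Sl.Uni (M : Sl) : Prop := M.a * M.d - M.b * M.c = 1 ∨ M.a * M.d - M.b * M.c = -1

section defs
variable {E : Type*} [NormedAddCommGroup E] [NormedSpace ℝ E] {H : Type*} [TopologicalSpace H]
  (J : ModelWithCorners ℝ E H)
  {P : Type*} [TopologicalSpace P] [ChartedSpace H P] {ι ι' : Type*}

/-- `X` is the union of `P - tori`, of tubes `F i` and of twins `Q j`. -/
structure FT (κ : ι → ℝ × ℂ × ℝ → P) (M : ι → Sl) (κ' : ι' → ℝ × ℂ × ℝ → P) (X : Type*) [TopologicalSpace X]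
    [ChartedSpace E4 X] where
  A : P → X
  F : ι → ℝ × ℝ × ℂ → X
  Q : ι' → S4 → X
  A_loc : ∀ p, ¬ OnF κ p → ¬ OnF κ' p → IsLocalDiffeomorphAt J (𝓡 4) ∞ A p
  A_inj : ∀ p p', ¬ OnF κ p → ¬ OnF κ' p → ¬ OnF κ p' → ¬ OnF κ' p' → A p = A p' → p = p'
  F_per1 : ∀ (i : ι) (l s : ℝ) (ξ : ℂ), ‖ξ‖ < 1 → F i (l + 1, s, ξ) = F i (l, s, ξ)
  F_per2 : ∀ (i : ι) (l s : ℝ) (ξ : ℂ), ‖ξ‖ < 1 → F i (l, s + 1, ξ) = F i (l, s, ξ)
  F_loc : ∀ (i : ι) (l s : ℝ) (ξ : ℂ), ‖ξ‖ < 1 →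
    IsLocalDiffeomorphAt 𝓘(ℝ, ℝ × ℝ × ℂ) (𝓡 4) ∞ (F i) (l, s, ξ)
  F_inj : ∀ (i : ι) (l s : ℝ) (ξ : ℂ) (i' : ι) (l' s' : ℝ) (ξ' : ℂ), ‖ξ‖ < 1 → ‖ξ'‖ < 1 →
    F i (l, s, ξ) = F i' (l', s', ξ') → i = i' ∧ ξ = ξ' ∧ (∃ m : ℤ, l' = l + m) ∧ ∃ m : ℤ, s' = s + m
  glueF : ∀ (i : ι) (l s r φ : ℝ), 0 < r → r < 1 →
    F i (l, s, r * ex φ) = A (κ i (l, r * ex ((M i).a * φ + (M i).b * s), (M i).c * φ + (M i).d * s))
  Q_loc : ∀ i z, fh z ≠ 0 → IsLocalDiffeomorphAt (𝓡 4) (𝓡 4) ∞ (Q i) z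
  Q_inj : ∀ i z i' z', fh z ≠ 0 → fh z' ≠ 0 → Q i z = Q i' z' → i = i' ∧ z = z'
  glueQ : ∀ (i : ι') (z : S4) (l m u : ℝ), fh z ≠ 0 → c1 z ≠ 0 → c2 z ≠ 0 →
    c1 z = ‖c1 z‖ * ex u → c2 z = ‖c2 z‖ * ex m → fh z = ‖fh z‖ * ex l →
    Q i z = A (κ' i (l, (2 * ‖c1 z‖ * ‖c2 z‖ : ℝ) * ex m, u))
  disjF : ∀ (i : ι) (l s : ℝ) (p : P), ¬ OnF κ p → ¬ OnF κ' p → F i (l, s, 0) ≠ A p
  disjQ : ∀ (i : ι') (z : S4) (p : P), fh z ≠ 0 → c1 z = 0 ∨ c2 z = 0 → ¬ OnF κ p → ¬ OnF κ' p → Q i z ≠ A p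
  disjFQ : ∀ (i : ι) (l s : ℝ) (i' : ι') (z : S4), fh z ≠ 0 → F i (l, s, 0) ≠ Q i' z
  cover : ∀ q, (∃ p, ¬ OnF κ p ∧ ¬ OnF κ' p ∧ q = A p) ∨ (∃ i l s, q = F i (l, s, 0)) ∨
    ∃ i z, fh z ≠ 0 ∧ (c1 z = 0 ∨ c2 z = 0) ∧ q = Q i z

/-- all the tori are thick, with disjoint tubes -/
def Sys (κ : ι → ℝ × ℂ × ℝ → P) (κ' : ι' → ℝ × ℂ × ℝ → P) : Prop := Pool.Agent.LKF.LinkT J (Sum.elim κ κ')

/-- A box which contains a straight strand of each of two thick tori. -/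
structure Strip (κ₁ κ₂ : ℝ × ℂ × ℝ → P) (b : ℂ × ℝ × ℝ → P) (l₁ l₂ η : ℝ) : Prop where
  thick₁ : ThickT J κ₁
  thick₂ : ThickT J κ₂
  disj : ∀ (l : ℝ) (v : ℂ) (t l' : ℝ) (v' : ℂ) (t' : ℝ), ‖v‖ < 1 → ‖v'‖ < 1 → κ₁ (l, v, t) ≠ κ₂ (l', v', t')
  box : Box J b 4
  pos : 0 < η
  strand₁ : ∀ (l : ℝ) (v : ℂ) (t : ℝ), |l| < η → ‖v‖ < 1 → κ₁ (l₁ + l, v, t) = b (-1 + v / 2, l / η, t)
  strand₂ : ∀ (l : ℝ) (v : ℂ) (t : ℝ), |l| < η → ‖v‖ < 1 → κ₂ (l₂ + l, v, t) = b (1 + v / 2, l / η, t)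
  rest₁ : ∀ (l : ℝ) (v : ℂ) (t : ℝ), ‖v‖ < 1 → (∀ k : ℤ, η ≤ |l - l₁ - k|) →
    ∀ (z : ℂ) (s t' : ℝ), ‖z‖ < 4 → |s| < 1 → κ₁ (l, v, t) ≠ b (z, s, t')
  rest₂ : ∀ (l : ℝ) (v : ℂ) (t : ℝ), ‖v‖ < 1 → (∀ k : ℤ, η ≤ |l - l₂ - k|) →
    ∀ (z : ℂ) (s t' : ℝ), ‖z‖ < 4 → |s| < 1 → κ₂ (l, v, t) ≠ b (z, s, t')

end defs

/-- the thick torus `|z| = 5/2`, `s = 0` of the box `b` -/
noncomputable def κγ {P : Type*} (b : ℂ × ℝ × ℝ → P) (q : ℝ × ℂ × ℝ) : P :=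
  b (((5 / 2 + q.2.1.re / 2 : ℝ) : ℂ) * ex q.2.2, q.2.1.im / 2, q.1)

/-! ## the standard tori of `S³ × S¹` -/

/-- stereographic parametrisation: `s1 = 2 (Y₀ + i Y₁) / (1 + |Y|²)`, `s2 = (|Y|² - 1 + 2 i Y₂) / (1 + |Y|²)` -/
noncomputable def sY (Y : E3) : S3 :=
  pS3 (2 * (⟨Y 0, Y 1⟩ : ℂ)) ⟨‖Y‖ ^ 2 - 1, 2 * Y 2⟩

/-- inversion: `Y ↦ Y / |Y|²` -/
noncomputable def Inv (x : S3) : S3 := pS3 (s1 x) (-(starRingEnd ℂ) (s2 x))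

/-- the point of the thick circle of radius `ρ₀ = 1/32`: `(r ex l, h)`, `r = ρ₀ √(1 - |v|²/4) / (1 - Re v / 2)`, `h = ρ₀ (Im v / 2) / (1 - Re v / 2)` -/
noncomputable def YK (l : ℝ) (v : ℂ) : E3 :=
  !₂[(1 / 32) * (Real.sqrt (1 - ‖v‖ ^ 2 / 4) / (1 - v.re / 2)) * Real.cos (2 * Real.pi * l),
    (1 / 32) * (Real.sqrt (1 - ‖v‖ ^ 2 / 4) / (1 - v.re / 2)) * Real.sin (2 * Real.pi * l),
    (1 / 32) * ((v.im / 2) / (1 - v.re / 2))]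

/-- the thick circle at `|Y| = 1/32` times `S¹` -/
noncomputable def κS₁ (q : ℝ × ℂ × ℝ) : SP := (sY (YK q.1 q.2.1), circ q.2.2)

/-- the thick circle at `|Y| = 32` times `S¹` -/
noncomputable def κS₂ (q : ℝ × ℂ × ℝ) : SP := (Inv (sY (YK q.1 (-(starRingEnd ℂ) q.2.1))), circ q.2.2)

/-- the base point of `S³ × S¹`: `Y = (1, 0, 0)`, time `1/2` -/
noncomputable def p₀ : SP := (pS3 1 0, circ (1 / 2))

/-- the point `Y = (w.re, 0, w.im)` of the half plane `Y₁ = 0`, at the time `1/2` -/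
noncomputable def hp (w : ℂ) : SP := (sY (!₂[w.re, 0, w.im] : E3), circ (1 / 2))

/-- the loop around the first torus: circle with the diameter `[1/64, 1]` of the half plane -/
noncomputable def zl₁ (τ : ℝ) : SP := hp ((65 / 128 : ℝ) + (63 / 128 : ℝ) * ex τ)

/-- the loop around the second torus: circle with the diameter `[1, 64]` of the half plane -/
noncomputable def zl₂ (τ : ℝ) : SP := hp ((65 / 2 : ℝ) - (63 / 2 : ℝ) * ex τ)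

/-! ## based classes, generators of the double -/

/-- `g` is the class of the loop `c` with base point `q` -/
def BCls {M : Type*} [TopologicalSpace M] (q : M) (c : ℝ → M) (g : FundamentalGroup M q) : Prop :=
  ∃ γ : Path q q, (∀ t : I, γ t = c t) ∧ FundamentalGroup.fromPath ⟦γ⟧ = g

/-- the point `(u, √(1 - |u|²) e₁)` of `S⁴ ⊆ ℂ × ℝ³` -/
noncomputable def sd (u : ℂ) : ACB.E5 := !₂[u.re, u.im, Real.sqrt (1 - ‖u‖ ^ 2), 0, 0]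

/-- the two standard loops of the double: in `S⁴`, the circle of radius `1/2` around `-1/2` and around `1/2`, based at `u = 0` -/
structure Gens {M : Type} [TopologicalSpace M] [ChartedSpace E4 M] {k₁ k₂ : ℝ × E3 → M} {ε : ℝ}
    (D : ACB.Dbl (-1 / 2) (1 / 2) k₁ k₂ ε) (q : M) (lam₁ lam₂ : ℝ → M) : Prop where
  off₁ : ∀ t, ACB.Off ![k₁, k₂] (lam₁ t)
  off₂ : ∀ t, ACB.Off ![k₁, k₂] (lam₂ t)
  eq₁ : ∀ t, (D.S.A (lam₁ t)).1 = sd (-1 / 2 + 1 / 2 * ex t)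
  eq₂ : ∀ t, (D.S.A (lam₂ t)).1 = sd (1 / 2 - 1 / 2 * ex t)
  base₁ : lam₁ 0 = q
  base₂ : lam₂ 0 = q

end Pool.Agent.MMV
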