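import Pool.Agent.MMV.SCl

/-!
# MMV/StG: the strip of a word (top theorem of block III)
-/

open scoped ContDiff Manifold Topology unitInterval
open Set Filter
open Pool.Agent.RSG (E3 E4 S2 S3 S4 ex cj c1 c2 ht fh pS3 pS4)
open Pool.Agent.RBM (ThickT OnT Box)
open Pool.Agent.LKF (OnF)
open Pool.Agent.PTH (SP ISP)
open Pool.Agent.KNH (circ)
open Pool.Agent.LKT (s1 s2)

namespace Pool.Agent.MMV

theorem stg_p0 : p₀ = (Rc 0 1, circ (1 / 2)) := by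
  have h := Rc_s (w := 1) (by simp) 0
  have h' := LKT.s_mk (a := 1) (b := 0) (by simp)
  refine Prod.ext ?_ rfl
  show pS3 1 0 = Rc 0 1
  apply LKT.s_ext
  · rw [h.1, h'.1, RSG.ex_zero]
    norm_num
  · rw [h.2, h'.2]
    unfold Cy
    apply Complex.ext <;> simp

theorem stg_kg (p : ℝ → ℂ) (u : ℝ) : κγ (bX p) (1 / 2, 0, u) =
    (Rc (fi (5 / 2 * ex u).re) (Wm (5 / 2 * ex u) + p (2 * fi (5 / 2 * ex u).re)), circ (1 / 2)) := by
  have h : ((((5 / 2 + (0 : ℂ).re / 2 : ℝ)) : ℂ) * ex u) = 5 / 2 * ex u := by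
    simp
  show bX p (_, _, _) = _
  rw [h]
  show (Rc (fi (5 / 2 * ex u).re + (0 : ℂ).im / 2 / 16) (Wm (5 / 2 * ex u) + p (2 * (fi (5 / 2 * ex u).re + (0 : ℂ).im / 2 / 16))),
    circ (1 / 2)) = _
  rw [Complex.zero_im, zero_div, zero_div, add_zero]

/-- the strip of a word `G`, the class of its boundary circle -/
theorem strip_word (G : FreeGroup (Fin 2)) :
    ∃ (b : ℂ × ℝ × ℝ → SP) (l₁ l₂ η : ℝ), Strip ISP κS₁ κS₂ b l₁ l₂ η ∧
      -- the box respects the time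
      (∀ (z : ℂ) (s t : ℝ), ‖z‖ < 4 → |s| < 1 → (b (z, s, t)).2 = circ t) ∧
      ∀ (N : Type) [TopologicalSpace N] (j : SP → N) (q : N),
        (∀ w : S3, ¬ OnF ![κS₁, κS₂] (w, circ (1 / 2)) → ContinuousAt j (w, circ (1 / 2))) → j p₀ = q →
        ∀ g₁ g₂ : FundamentalGroup N q, BCls q (fun τ => j (zl₁ τ)) g₁ → BCls q (fun τ => j (zl₂ τ)) g₂ →
          ACB.Cls q (fun u => j (κγ b (1 / 2, 0, u)))
            (g₁ * FreeGroup.lift ![g₁, g₂] G * g₂ * (FreeGroup.lift ![g₁, g₂] G)⁻¹) := by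
  obtain ⟨p, hp, hG⟩ := exists_word G⁻¹
  refine ⟨bX p, 0, 1 / 2, 1 / 16, strip_p hp, fun z s t _ _ => rfl, ?_⟩
  intro N _ j q hj hq g₁ g₂ h₁ h₂
  have hJ : ∀ (θ : ℝ) (w : ℂ), 0 < w.re → w ≠ 1 / 32 → w ≠ 32 →
      ContinuousAt (fun a : ℝ × ℂ => j (Rc a.1 a.2, circ (1 / 2))) (θ, w) := by
    intro θ w hw w1 w2
    have h1 : ContinuousAt (fun a : ℝ × ℂ => ((Rc a.1 a.2, circ (1 / 2)) : SP)) (θ, w) :=
      (CSG.ld_continuousAt (Rc_loc hw θ)).prodMk continuousAt_const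
    refine ContinuousAt.comp (f := fun a : ℝ × ℂ => ((Rc a.1 a.2, circ (1 / 2)) : SP)) (hj (Rc θ w) ?_) h1
    rw [onS hw]
    rintro (h | h)
    · exact w1 h
    · exact w2 h
  have hq' : j (Rc 0 1, circ (1 / 2)) = q := by rw [← hq, stg_p0]
  have e₁ : (fun τ => j (zl₁ τ)) = fun τ => j (Rc 0 (ze₁ τ), circ (1 / 2)) := by
    funext τ
    rw [← hp_eq]
    rfl
  have e₂ : (fun τ => j (zl₂ τ)) = fun τ => j (Rc 0 (ze₂ τ), circ (1 / 2)) := by
    funext τ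
    rw [← hp_eq]
    rfl
  rw [e₁] at h₁
  rw [e₂] at h₂
  have hc := hG N (fun w => j (Rc 0 w, circ (1 / 2))) q ?_ hq' g₁ g₂ h₁ h₂
  · have h := circ_class hp (N := N) (Jt := fun a : ℝ × ℂ => j (Rc a.1 a.2, circ (1 / 2))) hJ hq' h₁ h₂ hc
    rw [map_inv, inv_inv] at h
    have e : (fun u => j (κγ (bX p) (1 / 2, 0, u))) = fun u => j
        (Rc (fi (5 / 2 * ex u).re) (Wm (5 / 2 * ex u) + p (2 * fi (5 / 2 * ex u).re)), circ (1 / 2)) := by
      funext u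
      rw [stg_kg]
    rw [e]
    exact h
  · intro w hw w1 w2
    have h := hJ 0 w hw w1 w2
    exact ContinuousAt.comp (f := fun w : ℂ => ((0, w) : ℝ × ℂ)) h (continuous_const.prodMk continuous_id).continuousAt

end Pool.Agent.MMV
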