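import Pool.Agent.MMV.TDef

/-!
# MMV/TDu
: the dual column is arbitrary   (difficulty 3)

`M i = (a, b; c, d)`, `M' i = (a, b'; c, d')`, determinants `±1`: with `ε = det M' / det M = ±1` the vector `(b', d') - ε (b, d)` has zero determinant with `(a, c)`, and `(a, c)` is primitive, so it is `k (a, c)`: `k = det M ((b' - ε b) d - (d' - ε d) b)`: check `k a = b' - ε b`, `k c = d' - ε d` (use `a d' - b' c = ε (a d - b c)`).
`F' i (l, s, ξ) = D.F i (l, ε s, ξ ex (k s))` (`ε`, `k` depend on `i`).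
* `glueF`: `F' (l, s, r ex φ) = D.F (l, ε s, r ex (φ + k s)) = D.A (κ (l, r ex (a (φ + k s) + b ε s), c (φ + k s) + d ε s))`.
* `F_per2`: `ex (k (s + 1)) = ex (k s)`, `ε (s + 1) = ε s ± 1`.  `F_loc`: composition with the diffeomorphism `(l, s, ξ) ↦ (l, ε s, ξ ex (k s))` (smooth, inverse `(l, ε s, ξ ex (-k ε s))`).  `F_inj`: `D.F_inj`: `l' = l + m`, `ε s' = ε s + m'`, `ξ ex (k s) = ξ' ex (k s')`, and `ex (k s) = ex (k s')`.  `disjF`, `disjFQ`, `cover`: `ξ = 0`.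
-/

open scoped ContDiff Manifold Topology
open Set Filter
open Complex (I)
open Pool.Agent.RSG (E3 E4 S2 S3 S4 ex cj c1 c2 ht fh pS3 pS4)
open Pool.Agent.RBM (ThickT OnT Box)
open Pool.Agent.LKF (OnF)
open Pool.Agent.PTH (SP ISP)
open Pool.Agent.KNH (circ)
open Pool.Agent.LKT (s1 s2)

namespace Pool.Agent.MMV

theorem tdu_one {ε : ℤ} (h : ε * ε = 1) : (ε : ℝ) * ε = 1 := by exact_mod_cast h

/-- the change of the parameters of the tube -/
noncomputable def tdu_e (ε k : ℤ) (h : ε * ε = 1) : (ℝ × ℝ × ℂ) ≃ (ℝ × ℝ × ℂ) where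
  toFun q := (q.1, ε * q.2.1, q.2.2 * ex (k * q.2.1))
  invFun q := (q.1, ε * q.2.1, q.2.2 * ex (-(k * (ε * q.2.1))))
  left_inv q := by
    obtain ⟨l, s, ξ⟩ := q
    have h1 : (ε : ℝ) * (ε * s) = s := by rw [← mul_assoc, tdu_one h, one_mul]
    show (l, (ε : ℝ) * (ε * s), ξ * ex (k * s) * ex (-(k * (ε * (ε * s))))) = (l, s, ξ)
    rw [h1, mul_assoc, ← RSG.ex_add, add_neg_cancel, RSG.ex_zero, mul_one]
  right_inv q := by
    obtain ⟨l, s, ξ⟩ := q
    have h1 : (ε : ℝ) * (ε * s) = s := by rw [← mul_assoc, tdu_one h, one_mul]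
    show (l, (ε : ℝ) * (ε * s), ξ * ex (-(k * (ε * s))) * ex (k * (ε * s))) = (l, s, ξ)
    rw [h1, mul_assoc, ← RSG.ex_add, neg_add_cancel, RSG.ex_zero, mul_one]

theorem tdu_e_apply {ε k : ℤ} (h : ε * ε = 1) (l s : ℝ) (ξ : ℂ) :
    tdu_e ε k h (l, s, ξ) = (l, ε * s, ξ * ex (k * s)) := rfl

theorem tdu_ld {ε k : ℤ} (h : ε * ε = 1) (q : ℝ × ℝ × ℂ) :
    IsLocalDiffeomorphAt 𝓘(ℝ, ℝ × ℝ × ℂ) 𝓘(ℝ, ℝ × ℝ × ℂ) ∞ (tdu_e ε k h) q := by
  apply CSG.ld_of_perm
  · show ContDiff ℝ ∞ fun q : ℝ × ℝ × ℂ => (q.1, (ε : ℝ) * q.2.1, q.2.2 * ex (k * q.2.1))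
    refine contDiff_fst.prodMk ((contDiff_const.mul contDiff_snd.fst).prodMk (contDiff_snd.snd.mul ?_))
    exact RSG.ex_smooth.comp (contDiff_const.mul contDiff_snd.fst)
  · show ContDiff ℝ ∞ fun q : ℝ × ℝ × ℂ => (q.1, (ε : ℝ) * q.2.1, q.2.2 * ex (-(k * (ε * q.2.1))))
    refine contDiff_fst.prodMk ((contDiff_const.mul contDiff_snd.fst).prodMk (contDiff_snd.snd.mul ?_))
    exact RSG.ex_smooth.comp (contDiff_const.mul (contDiff_const.mul contDiff_snd.fst)).neg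

theorem tdu_num {M M' : Sl} (h : M.Uni) (h' : M'.Uni) (ha : M'.a = M.a) (hc : M'.c = M.c) :
    ∃ ε k : ℤ, ε * ε = 1 ∧ M'.b = ε * M.b + k * M.a ∧ M'.d = ε * M.d + k * M.c := by
  unfold Sl.Uni at h h'
  rw [ha, hc] at h'
  obtain ⟨δ, hδ⟩ : ∃ δ : ℤ, δ = M.a * M.d - M.b * M.c := ⟨_, rfl⟩
  obtain ⟨δ', hδ'⟩ : ∃ δ' : ℤ, δ' = M.a * M'.d - M'.b * M.c := ⟨_, rfl⟩
  have h1 : δ * δ = 1 := by
    rw [← hδ] at h
    rcases h with h | h <;> rw [h] <;> norm_num
  have h2 : δ' * δ' = 1 := by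
    rw [← hδ'] at h'
    rcases h' with h' | h' <;> rw [h'] <;> norm_num
  refine ⟨δ' * δ, δ * ((M'.b - δ' * δ * M.b) * M.d - (M'.d - δ' * δ * M.d) * M.b), ?_, ?_, ?_⟩
  · calc δ' * δ * (δ' * δ) = (δ' * δ') * (δ * δ) := by ring
      _ = 1 := by rw [h1, h2, mul_one]
  · have h3 : M.a * (M'.d - δ' * δ * M.d) = M.c * (M'.b - δ' * δ * M.b) := by
      have : M.a * (M'.d - δ' * δ * M.d) - M.c * (M'.b - δ' * δ * M.b) = δ' - δ' * (δ * δ) := by
        rw [hδ', hδ]; ring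
      rw [h1, mul_one, sub_self] at this
      linarith
    have h4 : δ * ((M'.b - δ' * δ * M.b) * M.d - (M'.d - δ' * δ * M.d) * M.b) * M.a =
        δ * δ * (M'.b - δ' * δ * M.b) := by
      have : δ * ((M'.b - δ' * δ * M.b) * M.d - (M'.d - δ' * δ * M.d) * M.b) * M.a =
        δ * ((M'.b - δ' * δ * M.b) * (M.a * M.d) - (M.a * (M'.d - δ' * δ * M.d)) * M.b) := by ring
      rw [this, h3]
      have : δ * ((M'.b - δ' * δ * M.b) * (M.a * M.d) - M.c * (M'.b - δ' * δ * M.b) * M.b) =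
        δ * (M.a * M.d - M.b * M.c) * (M'.b - δ' * δ * M.b) := by ring
      rw [this, ← hδ]
    rw [h4, h1]
    ring
  · have h3 : M.c * (M'.b - δ' * δ * M.b) = M.a * (M'.d - δ' * δ * M.d) := by
      have : M.a * (M'.d - δ' * δ * M.d) - M.c * (M'.b - δ' * δ * M.b) = δ' - δ' * (δ * δ) := by
        rw [hδ', hδ]; ring
      rw [h1, mul_one, sub_self] at this
      linarith
    have h4 : δ * ((M'.b - δ' * δ * M.b) * M.d - (M'.d - δ' * δ * M.d) * M.b) * M.c =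
        δ * δ * (M'.d - δ' * δ * M.d) := by
      have : δ * ((M'.b - δ' * δ * M.b) * M.d - (M'.d - δ' * δ * M.d) * M.b) * M.c =
        δ * ((M.c * (M'.b - δ' * δ * M.b)) * M.d - (M'.d - δ' * δ * M.d) * (M.b * M.c)) := by ring
      rw [this, h3]
      have : δ * (M.a * (M'.d - δ' * δ * M.d) * M.d - (M'.d - δ' * δ * M.d) * (M.b * M.c)) =
        δ * (M.a * M.d - M.b * M.c) * (M'.d - δ' * δ * M.d) := by ring
      rw [this, ← hδ]
    rw [h4, h1]
    ring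

theorem tdu_ex_add (k m : ℤ) (s : ℝ) : ex (k * (s + m)) = ex (k * s) := by
  have : (k : ℝ) * (s + m) = k * s + ((k * m : ℤ) : ℝ) := by push_cast; ring
  rw [this, RSG.ex_add_int]

section
variable {E : Type*} [NormedAddCommGroup E] [NormedSpace ℝ E] {H : Type*} [TopologicalSpace H]
  {J : ModelWithCorners ℝ E H} {P : Type*} [TopologicalSpace P] [ChartedSpace H P]
  {X : Type*} [TopologicalSpace X] [ChartedSpace E4 X] {κ₁ κ₂ : ℝ × ℂ × ℝ → P} {b : ℂ × ℝ × ℝ → P} {l₁ l₂ η : ℝ}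
  {a₁ c₁' a₂ c₂' : ℤ}

theorem ft_dual' {ι ι' : Type*} {κ : ι → ℝ × ℂ × ℝ → P} {M M' : ι → Sl} {κ' : ι' → ℝ × ℂ × ℝ → P} (D : FT J κ M κ' X)
    (h : ∀ i, (M i).Uni) (h' : ∀ i, (M' i).Uni) (ha : ∀ i, (M' i).a = (M i).a) (hc : ∀ i, (M' i).c = (M i).c) :
    Nonempty (FT J κ M' κ' X) := by
  choose ε k hε hb hd using fun i => tdu_num (h i) (h' i) (ha i) (hc i)
  have hn : ∀ (i : ι) (s : ℝ) (ξ : ℂ), ‖ξ‖ < 1 → ‖ξ * ex (k i * s)‖ < 1 := by
    intro i s ξ hξ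
    rw [norm_mul, RSG.ex_norm, mul_one]
    exact hξ
  have hε2 : ∀ i, ε i = 1 ∨ ε i = -1 := by
    intro i
    have h1 : (ε i - 1) * (ε i + 1) = 0 := by linarith [hε i]
    rcases mul_eq_zero.mp h1 with h2 | h2
    · left; omega
    · right; omega
  exact ⟨{
    A := D.A
    F := fun i q => D.F i (tdu_e (ε i) (k i) (hε i) q)
    Q := D.Q
    A_loc := D.A_loc
    A_inj := D.A_inj
    F_per1 := by
      intro i l s ξ hξ
      simp only [tdu_e_apply]
      exact D.F_per1 i l _ _ (hn i s ξ hξ)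
    F_per2 := by
      intro i l s ξ hξ
      simp only [tdu_e_apply]
      have h1 : ex (k i * (s + 1)) = ex (k i * s) := by
        have := tdu_ex_add (k i) 1 s
        simpa using this
      rw [h1]
      rcases hε2 i with h2 | h2
      · have h3 : ((ε i : ℤ) : ℝ) * (s + 1) = ε i * s + 1 := by rw [h2]; push_cast; ring
        rw [h3]
        exact D.F_per2 i l _ _ (hn i s ξ hξ)
      · have h3 : ((ε i : ℤ) : ℝ) * s = ε i * (s + 1) + 1 := by rw [h2]; push_cast; ring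
        rw [h3]
        exact (D.F_per2 i l _ _ (hn i s ξ hξ)).symm
    F_loc := by
      intro i l s ξ hξ
      have h1 := D.F_loc i l (ε i * s) (ξ * ex (k i * s)) (hn i s ξ hξ)
      have h2 : IsLocalDiffeomorphAt 𝓘(ℝ, ℝ × ℝ × ℂ) (𝓡 4) ∞ (D.F i ∘ (tdu_e (ε i) (k i) (hε i))) (l, s, ξ) :=
        IsLocalDiffeomorphAt.comp (hf := tdu_ld (hε i) (l, s, ξ)) (hg := h1) ..
      exact h2
    F_inj := by
      intro i l s ξ i' l' s' ξ' hξ hξ' he
      simp only [tdu_e_apply] at he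
      obtain ⟨h1, h2, h3, m, hm⟩ := D.F_inj i l _ _ i' l' _ _ (hn i s ξ hξ) (hn i' s' ξ' hξ') he
      subst h1
      have h4 : s' = s + ((ε i * m : ℤ) : ℝ) := by
        have h5 : (ε i : ℝ) * (ε i * s') = ε i * (ε i * s + m) := by rw [hm]
        rw [← mul_assoc, tdu_one (hε i), one_mul, mul_add, ← mul_assoc, tdu_one (hε i), one_mul] at h5
        rw [h5]
        push_cast
        ring
      refine ⟨rfl, ?_, h3, ε i * m, h4⟩
      rw [h4, tdu_ex_add] at h2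
      exact mul_right_cancel₀ (RSG.ex_ne _) h2
    glueF := by
      intro i l s r φ hr hr1
      simp only [tdu_e_apply]
      have h1 : (r : ℂ) * ex φ * ex (k i * s) = r * ex (φ + k i * s) := by rw [mul_assoc, ← RSG.ex_add]
      rw [h1, D.glueF i l _ r _ hr hr1, ha, hc, hb, hd]
      have h2 : ((M i).a : ℝ) * (φ + k i * s) + (M i).b * (ε i * s) =
          (M i).a * φ + ((ε i * (M i).b + k i * (M i).a : ℤ) : ℝ) * s := by
        push_cast; ring
      have h3 : ((M i).c : ℝ) * (φ + k i * s) + (M i).d * (ε i * s) =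
          (M i).c * φ + ((ε i * (M i).d + k i * (M i).c : ℤ) : ℝ) * s := by
        push_cast; ring
      rw [h2, h3]
    Q_loc := D.Q_loc
    Q_inj := D.Q_inj
    glueQ := D.glueQ
    disjF := by
      intro i l s p hp hp'
      simp only [tdu_e_apply, zero_mul]
      exact D.disjF i l _ p hp hp'
    disjQ := D.disjQ
    disjFQ := by
      intro i l s i' z hz
      simp only [tdu_e_apply, zero_mul]
      exact D.disjFQ i l _ i' z hz
    cover := by
      intro q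
      rcases D.cover q with h1 | ⟨i, l, s, h1⟩ | h1
      · exact Or.inl h1
      · refine Or.inr (Or.inl ⟨i, l, ε i * s, ?_⟩)
        simp only [tdu_e_apply, zero_mul]
        rw [← mul_assoc, tdu_one (hε i), one_mul]
        exact h1
      · exact Or.inr (Or.inr h1) }⟩

end

end Pool.Agent.MMV
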