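import Pool.Agent.MMV.TNf
import Pool.Agent.MMV.TDu

/-!
# MMV/TMn
: the torus move, all integers   (difficulty 3)

Induction on `k` (`Int.induction_on`): statement for all `M₁`: for `k = 0` take `M₁' = M₁`.  Step with `e = ±1`: given `FT` with `M₁` (Uni), `M₂` (Uni) and `δ = M₁.a M₂.c + M₁.c M₂.a = ±1`: replace the dual columns: `ft_dual'` to `![⟨a₁, -a₂, c₁, c₂⟩, ⟨a₂, -a₁, c₂, c₁⟩]` (determinants `a₁ c₂ + a₂ c₁`, `a₂ c₁ + a₁ c₂`), `nf_of_ft`,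
`nf_step`, and `ft_dual'` back to `M₂` in the second place (keep the first).  The new first matrix `⟨a₁ - 2 e a₂, -a₂, c₁ + 2 e c₂, c₂⟩` has determinant `(a₁ - 2 e a₂) c₂ + a₂ (c₁ + 2 e c₂) = δ`; the new `δ' = (a₁ - 2 e a₂) c₂ + (c₁ + 2 e c₂) a₂ = δ`.
-/

open scoped ContDiff Manifold Topology
open Set Filter
open Complex (I)
open Pool.Agent.RSG (E3 E4 S2 S3 S4 ex cj c1 c2 ht fh pS3 pS4)
open Pool.Agent.RBM (ThickT OnT Box)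
open Pool.Agent.LKF (OnF)
open Pool.Agent.PTH (SP ISP)
open Pool.Agent.KNH (circ)
open Pool.Agent.LKT (s1 s2)

namespace Pool.Agent.MMV

section
variable {E : Type*} [NormedAddCommGroup E] [NormedSpace ℝ E] {H : Type*} [TopologicalSpace H]
  {J : ModelWithCorners ℝ E H} {P : Type*} [TopologicalSpace P] [ChartedSpace H P]
  {X : Type*} [TopologicalSpace X] [ChartedSpace E4 X] {κ₁ κ₂ : ℝ × ℂ × ℝ → P} {b : ℂ × ℝ × ℝ → P} {l₁ l₂ η : ℝ}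
  {a₁ c₁' a₂ c₂' : ℤ}

private theorem tmn_step [T2Space X] (hS : Strip J κ₁ κ₂ b l₁ l₂ η) {M₁ M₂ : Sl} (D : FT J ![κ₁, κ₂] ![M₁, M₂] ![κγ b] X)
    (h₁ : M₁.Uni) (h₂ : M₂.Uni) (hd : M₁.a * M₂.c + M₁.c * M₂.a = 1 ∨ M₁.a * M₂.c + M₁.c * M₂.a = -1)
    {e : ℤ} (he : e = 1 ∨ e = -1) :
    ∃ M₁' : Sl, M₁'.Uni ∧ M₁'.a = M₁.a - 2 * e * M₂.a ∧ M₁'.c = M₁.c + 2 * e * M₂.c ∧
      Nonempty (FT J ![κ₁, κ₂] ![M₁', M₂] ![κγ b] X) := by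
  have hU : ∀ i, ((![M₁, M₂] : Fin 2 → Sl) i).Uni := by
    rw [Fin.forall_fin_two]
    exact ⟨h₁, h₂⟩
  have hV : ∀ i, ((![⟨M₁.a, -M₂.a, M₁.c, M₂.c⟩, ⟨M₂.a, -M₁.a, M₂.c, M₁.c⟩] : Fin 2 → Sl) i).Uni := by
    rw [Fin.forall_fin_two]
    refine ⟨?_, ?_⟩
    · show M₁.a * M₂.c - -M₂.a * M₁.c = 1 ∨ M₁.a * M₂.c - -M₂.a * M₁.c = -1
      rcases hd with h | h
      · left
        linarith
      · right
        linarith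
    · show M₂.a * M₁.c - -M₁.a * M₂.c = 1 ∨ M₂.a * M₁.c - -M₁.a * M₂.c = -1
      rcases hd with h | h
      · left
        linarith
      · right
        linarith
  obtain ⟨D1⟩ := ft_dual' (M' := ![⟨M₁.a, -M₂.a, M₁.c, M₂.c⟩, ⟨M₂.a, -M₁.a, M₂.c, M₁.c⟩]) D hU hV
    (by
      rw [Fin.forall_fin_two]
      exact ⟨rfl, rfl⟩)
    (by
      rw [Fin.forall_fin_two]
      exact ⟨rfl, rfl⟩)
  obtain ⟨D2⟩ := nf_of_ft D1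
  obtain ⟨D3⟩ := nf_step hS D2 hd he
  have hW0 : (⟨M₁.a - 2 * e * M₂.a, -M₂.a, M₁.c + 2 * e * M₂.c, M₂.c⟩ : Sl).Uni := by
    show (M₁.a - 2 * e * M₂.a) * M₂.c - -M₂.a * (M₁.c + 2 * e * M₂.c) = 1 ∨
      (M₁.a - 2 * e * M₂.a) * M₂.c - -M₂.a * (M₁.c + 2 * e * M₂.c) = -1
    have : (M₁.a - 2 * e * M₂.a) * M₂.c - -M₂.a * (M₁.c + 2 * e * M₂.c) =
        M₁.a * M₂.c + M₁.c * M₂.a := by
      ring
    rw [this]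
    exact hd
  have hW : ∀ i, ((![⟨M₁.a - 2 * e * M₂.a, -M₂.a, M₁.c + 2 * e * M₂.c, M₂.c⟩,
      ⟨M₂.a, -M₁.a, M₂.c, M₁.c⟩] : Fin 2 → Sl) i).Uni := by
    rw [Fin.forall_fin_two]
    refine ⟨hW0, ?_⟩
    have := hV 1
    exact this
  have hX : ∀ i, ((![⟨M₁.a - 2 * e * M₂.a, -M₂.a, M₁.c + 2 * e * M₂.c, M₂.c⟩, M₂] :
      Fin 2 → Sl) i).Uni := by
    rw [Fin.forall_fin_two]
    exact ⟨hW0, h₂⟩
  obtain ⟨D4⟩ := ft_dual' (M' := ![⟨M₁.a - 2 * e * M₂.a, -M₂.a, M₁.c + 2 * e * M₂.c, M₂.c⟩, M₂])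
    D3 hW hX
    (by
      rw [Fin.forall_fin_two]
      exact ⟨rfl, rfl⟩)
    (by
      rw [Fin.forall_fin_two]
      exact ⟨rfl, rfl⟩)
  exact ⟨_, hW0, rfl, rfl, ⟨D4⟩⟩

theorem tm₁' [T2Space X] (hS : Strip J κ₁ κ₂ b l₁ l₂ η) {M₁ M₂ : Sl} (D : FT J ![κ₁, κ₂] ![M₁, M₂] ![κγ b] X)
    (h₁ : M₁.Uni) (h₂ : M₂.Uni) (hd : M₁.a * M₂.c + M₁.c * M₂.a = 1 ∨ M₁.a * M₂.c + M₁.c * M₂.a = -1) (k : ℤ) :
    ∃ M₁' : Sl, M₁'.Uni ∧ M₁'.a = M₁.a - 2 * k * M₂.a ∧ M₁'.c = M₁.c + 2 * k * M₂.c ∧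
      Nonempty (FT J ![κ₁, κ₂] ![M₁', M₂] ![κγ b] X) := by
  have key : ∀ (k e : ℤ), (e = 1 ∨ e = -1) →
      (∃ M₁' : Sl, M₁'.Uni ∧ M₁'.a = M₁.a - 2 * k * M₂.a ∧ M₁'.c = M₁.c + 2 * k * M₂.c ∧
        Nonempty (FT J ![κ₁, κ₂] ![M₁', M₂] ![κγ b] X)) →
      ∃ M₁' : Sl, M₁'.Uni ∧ M₁'.a = M₁.a - 2 * (k + e) * M₂.a ∧ M₁'.c = M₁.c + 2 * (k + e) * M₂.c ∧
        Nonempty (FT J ![κ₁, κ₂] ![M₁', M₂] ![κγ b] X) := by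
    rintro k e he ⟨N, hN, ha, hc, ⟨D'⟩⟩
    have hd' : N.a * M₂.c + N.c * M₂.a = 1 ∨ N.a * M₂.c + N.c * M₂.a = -1 := by
      have : N.a * M₂.c + N.c * M₂.a = M₁.a * M₂.c + M₁.c * M₂.a := by
        rw [ha, hc]
        ring
      rw [this]
      exact hd
    obtain ⟨N', hN', ha', hc', hD'⟩ := tmn_step hS D' hN h₂ hd' he
    refine ⟨N', hN', ?_, ?_, hD'⟩
    · rw [ha', ha]
      ring
    · rw [hc', hc]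
      ring
  induction k with
  | zero => exact ⟨M₁, h₁, by ring, by ring, ⟨D⟩⟩
  | succ k ih => exact key _ 1 (Or.inl rfl) ih
  | pred k ih =>
    have := key _ (-1) (Or.inr rfl) ih
    exact this

end

end Pool.Agent.MMV
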