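import Pool.Agent.MMV.TSa
import Pool.Agent.MMV.TMn

/-!
# MMV/TSb
: rotating the box by half a turn, 2: the strip and the second torus move   (difficulty 2)

* `strip_swap`: `strand₁` for `ngκ κ₂`: `κ₂ (l₂ + l, -v, t) = b (1 - v/2, l/η, t) = ngb b (-1 + v/2, l/η, t)`; `box`: composition with `z ↦ -z`; the rest is immediate (`‖-v‖ = ‖v‖`, `‖-z‖ = ‖z‖`).
* `tm₂'`: from `D`: `ft_swap`, `ft_neg`, `ft_rot`: `FT J ![ngκ κ₂, ngκ κ₁] ![M₂, M₁] ![κγ (ngb b)] X`; `tm₁'` with `strip_swap hS` (`hd` is symmetric); back: `ft_rot` (`ngb (ngb b) = b`), `ft_neg` (`ngκ (ngκ κ) = κ`, funext, `neg_neg`), `ft_swap`.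
-/

open scoped ContDiff Manifold Topology
open Set Filter
open Complex (I)
open Pool.Agent.RSG (E3 E4 S2 S3 S4 ex cj c1 c2 ht fh pS3 pS4)
open Pool.Agent.RBM (ThickT OnT Box)
open Pool.Agent.LKF (OnF)
open Pool.Agent.PTH (SP ISP)
open Pool.Agent.KNH (circ)
open Pool.Agent.LKT (s1 s2)

namespace Pool.Agent.MMV

section
variable {E : Type*} [NormedAddCommGroup E] [NormedSpace ℝ E] {H : Type*} [TopologicalSpace H]
  {J : ModelWithCorners ℝ E H} {P : Type*} [TopologicalSpace P] [ChartedSpace H P]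
  {X : Type*} [TopologicalSpace X] [ChartedSpace E4 X] {κ₁ κ₂ : ℝ × ℂ × ℝ → P} {b : ℂ × ℝ × ℝ → P} {l₁ l₂ η : ℝ}
  {a₁ c₁' a₂ c₂' : ℤ}

private def tsb_e1 : (ℝ × ℂ × ℝ) ≃ (ℝ × ℂ × ℝ) where
  toFun q := (q.1, -q.2.1, q.2.2)
  invFun q := (q.1, -q.2.1, q.2.2)
  left_inv q := by simp
  right_inv q := by simp

private def tsb_e2 : (ℂ × ℝ × ℝ) ≃ (ℂ × ℝ × ℝ) where
  toFun q := (-q.1, q.2.1, q.2.2)
  invFun q := (-q.1, q.2.1, q.2.2)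
  left_inv q := by simp
  right_inv q := by simp

private theorem tsb_ld1 (x : ℝ × ℂ × ℝ) :
    IsLocalDiffeomorphAt 𝓘(ℝ, ℝ × ℂ × ℝ) 𝓘(ℝ, ℝ × ℂ × ℝ) ∞ (fun q : ℝ × ℂ × ℝ => (q.1, -q.2.1, q.2.2)) x := by
  have h : ContDiff ℝ ∞ (fun q : ℝ × ℂ × ℝ => (q.1, -q.2.1, q.2.2)) := by fun_prop
  exact CSG.ld_of_perm (f := tsb_e1) h h x

private theorem tsb_ld2 (x : ℂ × ℝ × ℝ) :
    IsLocalDiffeomorphAt 𝓘(ℝ, ℂ × ℝ × ℝ) 𝓘(ℝ, ℂ × ℝ × ℝ) ∞ (fun q : ℂ × ℝ × ℝ => (-q.1, q.2.1, q.2.2)) x := by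
  have h : ContDiff ℝ ∞ (fun q : ℂ × ℝ × ℝ => (-q.1, q.2.1, q.2.2)) := by fun_prop
  exact CSG.ld_of_perm (f := tsb_e2) h h x

private theorem tsb_thick {κ : ℝ × ℂ × ℝ → P} (h : ThickT J κ) : ThickT J (ngκ κ) where
  perl l v t := h.perl l (-v) t
  pert l v t := h.pert l (-v) t
  loc l v t hv := by
    have h1 := h.loc l (-v) t (by rwa [norm_neg])
    exact IsLocalDiffeomorphAt.comp (hf := tsb_ld1 (l, v, t)) (hg := h1) ..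
  inj l v t l' v' t' hv hv' he := by
    obtain ⟨h1, h2, h3⟩ := h.inj l (-v) t l' (-v') t' (by rwa [norm_neg]) (by rwa [norm_neg]) he
    exact ⟨neg_injective h1, h2, h3⟩

private theorem tsb_box {b : ℂ × ℝ × ℝ → P} {r : ℝ} (h : Box J b r) : Box J (ngb b) r where
  per z s t := h.per (-z) s t
  loc z s t hz hs := by
    have h1 := h.loc (-z) s t (by rwa [norm_neg]) hs
    exact IsLocalDiffeomorphAt.comp (hf := tsb_ld2 (z, s, t)) (hg := h1) ..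
  inj z s t z' s' t' hz hs hz' hs' he := by
    obtain ⟨h1, h2, h3⟩ := h.inj (-z) s t (-z') s' t' (by rwa [norm_neg]) hs (by rwa [norm_neg]) hs' he
    exact ⟨neg_injective h1, h2, h3⟩

theorem strip_swap (hS : Strip J κ₁ κ₂ b l₁ l₂ η) : Strip J (ngκ κ₂) (ngκ κ₁) (ngb b) l₂ l₁ η where
  thick₁ := tsb_thick hS.thick₂
  thick₂ := tsb_thick hS.thick₁
  disj l v t l' v' t' hv hv' := by
    intro he
    exact hS.disj l' (-v') t' l (-v) t (by rwa [norm_neg]) (by rwa [norm_neg]) he.symm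
  box := tsb_box hS.box
  pos := hS.pos
  strand₁ l v t hl hv := by
    have h := hS.strand₂ l (-v) t hl (by rwa [norm_neg])
    change κ₂ (l₂ + l, -v, t) = b (-(-1 + v / 2), l / η, t)
    rw [h]
    congr 2
    ring
  strand₂ l v t hl hv := by
    have h := hS.strand₁ l (-v) t hl (by rwa [norm_neg])
    change κ₁ (l₁ + l, -v, t) = b (-(1 + v / 2), l / η, t)
    rw [h]
    congr 2
    ring
  rest₁ l v t hv hk z s t' hz hs := hS.rest₂ l (-v) t (by rwa [norm_neg]) hk (-z) s t' (by rwa [norm_neg]) hs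
  rest₂ l v t hv hk z s t' hz hs := hS.rest₁ l (-v) t (by rwa [norm_neg]) hk (-z) s t' (by rwa [norm_neg]) hs

omit [TopologicalSpace P] in
private theorem tsb_ngκ (κ : ℝ × ℂ × ℝ → P) : ngκ (ngκ κ) = κ := by
  funext q
  simp [ngκ]

omit [TopologicalSpace P] in
private theorem tsb_ngb (b : ℂ × ℝ × ℝ → P) : ngb (ngb b) = b := by
  funext q
  simp [ngb]

theorem tm₂' [T2Space X] (hS : Strip J κ₁ κ₂ b l₁ l₂ η) {M₁ M₂ : Sl} (D : FT J ![κ₁, κ₂] ![M₁, M₂] ![κγ b] X)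
    (h₁ : M₁.Uni) (h₂ : M₂.Uni) (hd : M₁.a * M₂.c + M₁.c * M₂.a = 1 ∨ M₁.a * M₂.c + M₁.c * M₂.a = -1) (k : ℤ) :
    ∃ M₂' : Sl, M₂'.Uni ∧ M₂'.a = M₂.a - 2 * k * M₁.a ∧ M₂'.c = M₂.c + 2 * k * M₁.c ∧
      Nonempty (FT J ![κ₁, κ₂] ![M₁, M₂'] ![κγ b] X) := by
  obtain ⟨D1⟩ := ft_swap D
  obtain ⟨D2⟩ := ft_neg h₂ h₁ D1
  obtain ⟨D3⟩ := ft_rot D2
  have hd' : M₂.a * M₁.c + M₂.c * M₁.a = 1 ∨ M₂.a * M₁.c + M₂.c * M₁.a = -1 := by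
    rcases hd with h | h
    · left; linarith
    · right; linarith
  obtain ⟨M₂', hU, ha, hc, ⟨D4⟩⟩ := tm₁' (strip_swap hS) D3 h₂ h₁ hd' k
  obtain ⟨D5⟩ := ft_rot D4
  obtain ⟨D6⟩ := ft_neg hU h₁ D5
  obtain ⟨D7⟩ := ft_swap D6
  rw [tsb_ngκ, tsb_ngκ, tsb_ngb] at D7
  exact ⟨M₂', hU, ha, hc, ⟨D7⟩⟩

end

end Pool.Agent.MMV
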