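import Pool.Agent.MMV.TOf

/-!
# MMV/TSy
: the tori of a strip   (difficulty 3)

`Sys J κ κ' = LinkT J (Sum.elim κ κ')`.  `thick` for `κγ b`: `κγ b = b ∘ g`, `g (l, v, u) = ((5/2 + Re v/2) ex u, Im v/2, l)`, period `1` in `l` (`box.per`) and in `u`; `g` is a local diffeomorphism for `‖v‖ < 1` (polar coordinates, `5/2 + Re v/2 > 0`: local inverse `(z, s, t) ↦ (t, ⟨2 (‖z‖ - 5/2), 2 s⟩, u₀ + arg (z/ex u₀)/2π)`), `‖z‖ < 3`, `|s| < 1/2`;
injectivity: `box.inj`, `RSG.ex_polar`.  Disjointness: `hS.disj`; `κ₁ (l, v, t) = κγ b (..)`, all `‖v‖ < 1`: `hit₁`: `‖-1 + v/2‖ < 3/2 < 2 < ‖z‖`; same `hit₂`.  `Sum` and `Fin 2`, `Fin 1` casework.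
-/

open scoped ContDiff Manifold Topology
open Set Filter
open Complex (I)
open Pool.Agent.RSG (E3 E4 S2 S3 S4 ex cj c1 c2 ht fh pS3 pS4)
open Pool.Agent.RBM (ThickT OnT Box)
open Pool.Agent.LKF (OnF)
open Pool.Agent.PTH (SP ISP)
open Pool.Agent.KNH (circ)
open Pool.Agent.LKT (s1 s2)

namespace Pool.Agent.MMV

section
variable {E : Type*} [NormedAddCommGroup E] [NormedSpace ℝ E] {H : Type*} [TopologicalSpace H]
  {J : ModelWithCorners ℝ E H} {P : Type*} [TopologicalSpace P] [ChartedSpace H P]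
  {X : Type*} [TopologicalSpace X] [ChartedSpace E4 X] {κ₁ κ₂ : ℝ × ℂ × ℝ → P} {b : ℂ × ℝ × ℝ → P} {l₁ l₂ η : ℝ}
  {a₁ c₁' a₂ c₂' : ℤ}

theorem tsy_ex_deriv (x : ℝ) : HasDerivAt ex (2 * Real.pi * I * ex x) x := by
  have h1 : HasDerivAt (fun y : ℝ => ((2 * Real.pi * y : ℝ) : ℂ) * I) (2 * Real.pi * I) x := by
    have h2 : HasDerivAt (fun y : ℝ => (2 * Real.pi * y : ℝ)) (2 * Real.pi) x := by
      simpa using (hasDerivAt_id x).const_mul (2 * Real.pi)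
    have h3 := h2.ofReal_comp.mul_const I
    simpa using h3
  have h4 := h1.cexp
  have h5 : (fun y : ℝ => Complex.exp (((2 * Real.pi * y : ℝ) : ℂ) * I)) = ex := by
    funext y
    rfl
  rw [h5] at h4
  refine h4.congr_deriv ?_
  unfold ex
  ring

theorem tsy_polar_ld (x : ℂ) (ρ t : ℝ) (hρ : 0 < ρ) :
    IsLocalDiffeomorphAt 𝓘(ℝ, ℂ × ℝ × ℝ) 𝓘(ℝ, ℂ × ℝ × ℝ) ∞
      (fun q : ℂ × ℝ × ℝ => ((q.2.1 : ℂ) * ex q.1.re, q.1.im, q.2.2)) (x, ρ, t) := by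
  set f : ℂ × ℝ × ℝ → ℂ × ℝ × ℝ := fun q => ((q.2.1 : ℂ) * ex q.1.re, q.1.im, q.2.2) with hf
  have hfs : ContDiff ℝ ∞ f := by
    have e1 : ContDiff ℝ ∞ fun q : ℂ × ℝ × ℝ => ((q.2.1 : ℝ) : ℂ) :=
      Complex.ofRealCLM.contDiff.comp (contDiff_fst.comp contDiff_snd)
    have e2 : ContDiff ℝ ∞ fun q : ℂ × ℝ × ℝ => ex q.1.re :=
      RSG.ex_smooth.comp (Complex.reCLM.contDiff.comp contDiff_fst)
    have e3 : ContDiff ℝ ∞ fun q : ℂ × ℝ × ℝ => q.1.im := Complex.imCLM.contDiff.comp contDiff_fst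
    have e4 : ContDiff ℝ ∞ fun q : ℂ × ℝ × ℝ => q.2.2 := contDiff_snd.comp contDiff_snd
    exact (e1.mul e2).prodMk (e3.prodMk e4)
  refine CSG.ld_of_fderiv (Filter.Eventually.of_forall fun y => hfs.contDiffAt) rfl ?_
  rintro ⟨v, r, s⟩ hv
  have hd : HasFDerivAt f (fderiv ℝ f (x, ρ, t)) ((x, ρ, t) + (0 : ℝ) • (v, r, s)) := by
    rw [zero_smul, add_zero]
    exact (hfs.differentiable (by simp) _).hasFDerivAt
  have hl : HasDerivAt (fun τ : ℝ => ((x, ρ, t) : ℂ × ℝ × ℝ) + τ • (v, r, s)) (v, r, s) 0 := by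
    have := ((hasDerivAt_id (0 : ℝ)).smul_const ((v, r, s) : ℂ × ℝ × ℝ)).const_add ((x, ρ, t) : ℂ × ℝ × ℝ)
    simpa using this
  have h1 : HasDerivAt (fun τ : ℝ => f (((x, ρ, t) : ℂ × ℝ × ℝ) + τ • (v, r, s))) (fderiv ℝ f (x, ρ, t) (v, r, s)) 0 :=
    hd.comp_hasDerivAt 0 hl
  rw [hv] at h1
  have h2 : HasDerivAt (fun τ : ℝ => (((ρ + τ * r : ℝ) : ℂ) * ex (x.re + τ * v.re), x.im + τ * v.im, t + τ * s))
      ((r : ℂ) * ex x.re + ρ * (2 * Real.pi * I * ex x.re * v.re), v.im, s) 0 := by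
    have a1 : HasDerivAt (fun τ : ℝ => ((ρ + τ * r : ℝ) : ℂ)) (r : ℂ) 0 := by
      have : HasDerivAt (fun τ : ℝ => ρ + τ * r) r 0 := by
        simpa using ((hasDerivAt_id (0 : ℝ)).mul_const r).const_add ρ
      exact this.ofReal_comp
    have a2 : HasDerivAt (fun τ : ℝ => x.re + τ * v.re) v.re 0 := by
      simpa using ((hasDerivAt_id (0 : ℝ)).mul_const v.re).const_add x.re
    have a3 : HasDerivAt (fun τ : ℝ => ex (x.re + τ * v.re)) (2 * Real.pi * I * ex x.re * v.re) 0 := by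
      have b1 : HasDerivAt ex (2 * Real.pi * I * ex x.re) (x.re + 0 * v.re) := by
        rw [zero_mul, add_zero]; exact tsy_ex_deriv x.re
      have b2 := b1.scomp (0 : ℝ) a2
      refine b2.congr_deriv ?_
      rw [Complex.real_smul]
      ring
    have a4 : HasDerivAt (fun τ : ℝ => x.im + τ * v.im) v.im 0 := by
      simpa using ((hasDerivAt_id (0 : ℝ)).mul_const v.im).const_add x.im
    have a5 : HasDerivAt (fun τ : ℝ => t + τ * s) s 0 := by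
      simpa using ((hasDerivAt_id (0 : ℝ)).mul_const s).const_add t
    have a6 := a1.mul a3
    have a7 := a6.prodMk (a4.prodMk a5)
    refine a7.congr_deriv ?_
    simp
  have h3 : (fun τ : ℝ => f (((x, ρ, t) : ℂ × ℝ × ℝ) + τ • (v, r, s))) =
      fun τ : ℝ => (((ρ + τ * r : ℝ) : ℂ) * ex (x.re + τ * v.re), x.im + τ * v.im, t + τ * s) := by
    funext τ
    simp [hf]
  rw [h3] at h1
  have h4 := h1.unique h2
  have h5 : (r : ℂ) * ex x.re + ρ * (2 * Real.pi * I * ex x.re * v.re) = 0 := (congrArg Prod.fst h4).symm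
  have h6 : (0 : ℝ) = v.im := congrArg (fun q : ℂ × ℝ × ℝ => q.2.1) h4
  have h7 : (0 : ℝ) = s := congrArg (fun q : ℂ × ℝ × ℝ => q.2.2) h4
  have h8 : ex x.re * ((r : ℂ) + ρ * (2 * Real.pi * I * v.re)) = 0 := by
    rw [← h5]; ring
  have h9 : (r : ℂ) + ρ * (2 * Real.pi * I * v.re) = 0 := (mul_eq_zero.1 h8).resolve_left (RSG.ex_ne _)
  have h10 : r = 0 := by
    have := congrArg Complex.re h9
    simpa using this
  have h11 : v.re = 0 := by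
    have := congrArg Complex.im h9
    simp at this
    rcases this with h | h
    · exact absurd h hρ.ne'
    · exact h
  refine Prod.ext ?_ (Prod.ext h10 h7.symm)
  exact Complex.ext h11 h6.symm

/-- linear change of coordinates -/
noncomputable def tsy_perm : (ℝ × ℂ × ℝ) ≃ (ℂ × ℝ × ℝ) where
  toFun q := ((q.2.2 : ℂ) + ((q.2.1.im / 2 : ℝ) : ℂ) * I, 5 / 2 + q.2.1.re / 2, q.1)
  invFun q := (q.2.2, ((2 * (q.2.1 - 5 / 2) : ℝ) : ℂ) + ((2 * q.1.im : ℝ) : ℂ) * I, q.1.re)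
  left_inv := by
    rintro ⟨l, v, u⟩
    refine Prod.ext rfl (Prod.ext (Complex.ext ?_ ?_) ?_)
    · simp
      try ring
    · simp
      try ring
    · simp
  right_inv := by
    rintro ⟨x, ρ, t⟩
    refine Prod.ext (Complex.ext ?_ ?_) (Prod.ext ?_ rfl)
    · simp
    · simp
    · simp
      try ring

theorem tsy_perm_ld (q : ℝ × ℂ × ℝ) :
    IsLocalDiffeomorphAt 𝓘(ℝ, ℝ × ℂ × ℝ) 𝓘(ℝ, ℂ × ℝ × ℝ) ∞ tsy_perm q := by
  apply CSG.ld_of_perm
  · have e1 : ContDiff ℝ ∞ fun q : ℝ × ℂ × ℝ => ((q.2.2 : ℝ) : ℂ) :=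
      Complex.ofRealCLM.contDiff.comp (contDiff_snd.comp contDiff_snd)
    have e2 : ContDiff ℝ ∞ fun q : ℝ × ℂ × ℝ => q.2.1.im :=
      Complex.imCLM.contDiff.comp (contDiff_fst.comp contDiff_snd)
    have e3 : ContDiff ℝ ∞ fun q : ℝ × ℂ × ℝ => q.2.1.re :=
      Complex.reCLM.contDiff.comp (contDiff_fst.comp contDiff_snd)
    have e4 : ContDiff ℝ ∞ fun q : ℝ × ℂ × ℝ => (((q.2.1.im / 2 : ℝ)) : ℂ) :=
      Complex.ofRealCLM.contDiff.comp (e2.div_const 2)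
    exact (e1.add (e4.mul contDiff_const)).prodMk ((contDiff_const.add (e3.div_const 2)).prodMk contDiff_fst)
  · have e1 : ContDiff ℝ ∞ fun q : ℂ × ℝ × ℝ => q.2.1 := contDiff_fst.comp contDiff_snd
    have e2 : ContDiff ℝ ∞ fun q : ℂ × ℝ × ℝ => ((2 * (q.2.1 - 5 / 2) : ℝ) : ℂ) :=
      Complex.ofRealCLM.contDiff.comp (contDiff_const.mul (e1.sub contDiff_const))
    have e3 : ContDiff ℝ ∞ fun q : ℂ × ℝ × ℝ => q.1.im := Complex.imCLM.contDiff.comp contDiff_fst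
    have e4 : ContDiff ℝ ∞ fun q : ℂ × ℝ × ℝ => ((2 * q.1.im : ℝ) : ℂ) :=
      Complex.ofRealCLM.contDiff.comp (contDiff_const.mul e3)
    have e5 : ContDiff ℝ ∞ fun q : ℂ × ℝ × ℝ => q.1.re := Complex.reCLM.contDiff.comp contDiff_fst
    exact (contDiff_snd.comp contDiff_snd).prodMk ((e2.add (e4.mul contDiff_const)).prodMk e5)

theorem tsy_re {v : ℂ} (hv : ‖v‖ < 1) : -1 < v.re ∧ v.re < 1 ∧ |v.im / 2| < 1 := by
  have h1 := abs_le.1 ((Complex.abs_re_le_norm v))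
  have h2 := abs_le.1 ((Complex.abs_im_le_norm v))
  refine ⟨by linarith [h1.1], by linarith [h1.2], ?_⟩
  rw [abs_lt]
  constructor <;> linarith [h2.1, h2.2]

theorem tsy_norm {v : ℂ} (hv : ‖v‖ < 1) (u : ℝ) :
    ‖((5 / 2 + v.re / 2 : ℝ) : ℂ) * ex u‖ = 5 / 2 + v.re / 2 := by
  have h1 := tsy_re hv
  rw [norm_mul, RSG.ex_norm, mul_one, Complex.norm_of_nonneg (by linarith [h1.1])]

theorem tsy_half {v : ℂ} (hv : ‖v‖ < 1) : ‖v / 2‖ < 1 / 2 := by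
  rw [norm_div, Complex.norm_ofNat]
  linarith

theorem tsy_k1 (hS : Strip J κ₁ κ₂ b l₁ l₂ η) {l t l' t' : ℝ} {v v' : ℂ} (hv : ‖v‖ < 1) (hv' : ‖v'‖ < 1) :
    κ₁ (l, v, t) ≠ κγ b (l', v', t') := by
  intro he
  have h1 := tsy_re hv'
  have h2 := tsy_norm hv' t'
  have h3 := hit₁ hS (s := v'.im / 2) (z := ((5 / 2 + v'.re / 2 : ℝ) : ℂ) * ex t') hv
    (by rw [h2]; linarith [h1.2.1]) h1.2.2 he
  rw [h3.1] at h2
  have h4 : ‖(-1 : ℂ) + v / 2‖ ≤ ‖(-1 : ℂ)‖ + ‖v / 2‖ := norm_add_le _ _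
  have h5 := tsy_half hv
  rw [norm_neg, norm_one] at h4
  linarith [h1.1]

theorem tsy_k2 (hS : Strip J κ₁ κ₂ b l₁ l₂ η) {l t l' t' : ℝ} {v v' : ℂ} (hv : ‖v‖ < 1) (hv' : ‖v'‖ < 1) :
    κ₂ (l, v, t) ≠ κγ b (l', v', t') := by
  intro he
  have h1 := tsy_re hv'
  have h2 := tsy_norm hv' t'
  have h3 := hit₂ hS (s := v'.im / 2) (z := ((5 / 2 + v'.re / 2 : ℝ) : ℂ) * ex t') hv
    (by rw [h2]; linarith [h1.2.1]) h1.2.2 he
  rw [h3.1] at h2
  have h4 : ‖(1 : ℂ) + v / 2‖ ≤ ‖(1 : ℂ)‖ + ‖v / 2‖ := norm_add_le _ _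
  have h5 := tsy_half hv
  rw [norm_one] at h4
  linarith [h1.1]

theorem tsy_thick (hS : Strip J κ₁ κ₂ b l₁ l₂ η) : ThickT J (κγ b) := by
  constructor
  · intro l v t
    exact hS.box.per _ _ _
  · intro l v t
    unfold κγ
    have h : ex (t + 1) = ex t := by
      have := RSG.ex_add_int t 1
      push_cast at this
      exact this
    change b (_ * ex (t + 1), _, _) = b (_ * ex t, _, _)
    rw [h]
  · intro l v t hv
    have h1 := tsy_re hv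
    have h2 := tsy_norm hv t
    have hb := hS.box.loc (((5 / 2 + v.re / 2 : ℝ) : ℂ) * ex t) (v.im / 2) l
      (by rw [h2]; linarith [h1.2.1]) h1.2.2
    have hp := tsy_polar_ld ((t : ℂ) + ((v.im / 2 : ℝ) : ℂ) * I) (5 / 2 + v.re / 2) l (by linarith [h1.1])
    have hq := tsy_perm_ld (l, v, t)
    have hre : ((t : ℂ) + ((v.im / 2 : ℝ) : ℂ) * I).re = t := by simp
    have him : ((t : ℂ) + ((v.im / 2 : ℝ) : ℂ) * I).im = v.im / 2 := by simp
    have hb' : IsLocalDiffeomorphAt 𝓘(ℝ, ℂ × ℝ × ℝ) J ∞ b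
        ((fun q : ℂ × ℝ × ℝ => ((q.2.1 : ℂ) * ex q.1.re, q.1.im, q.2.2))
          ((t : ℂ) + ((v.im / 2 : ℝ) : ℂ) * I, 5 / 2 + v.re / 2, l)) := by
      change IsLocalDiffeomorphAt 𝓘(ℝ, ℂ × ℝ × ℝ) J ∞ b
        (((5 / 2 + v.re / 2 : ℝ) : ℂ) * ex ((t : ℂ) + ((v.im / 2 : ℝ) : ℂ) * I).re,
          ((t : ℂ) + ((v.im / 2 : ℝ) : ℂ) * I).im, l)
      rw [hre, him]
      exact hb
    have h3 := IsLocalDiffeomorphAt.comp J P hp hb'
    have h4 := IsLocalDiffeomorphAt.comp J P (f := tsy_perm) (x := (l, v, t)) hq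
      (g := b ∘ (fun q : ℂ × ℝ × ℝ => ((q.2.1 : ℂ) * ex q.1.re, q.1.im, q.2.2))) h3
    refine CSG.ld_congr h4 (Filter.Eventually.of_forall fun q => ?_)
    obtain ⟨l', v', t'⟩ := q
    have hre' : ((t' : ℂ) + ((v'.im / 2 : ℝ) : ℂ) * I).re = t' := by simp
    have him' : ((t' : ℂ) + ((v'.im / 2 : ℝ) : ℂ) * I).im = v'.im / 2 := by simp
    change b (((5 / 2 + v'.re / 2 : ℝ) : ℂ) * ex t', v'.im / 2, l') =
      b (((5 / 2 + v'.re / 2 : ℝ) : ℂ) * ex ((t' : ℂ) + ((v'.im / 2 : ℝ) : ℂ) * I).re,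
        ((t' : ℂ) + ((v'.im / 2 : ℝ) : ℂ) * I).im, l')
    rw [hre', him']
  · intro l v t l' v' t' hv hv' he
    have h1 := tsy_re hv
    have h1' := tsy_re hv'
    have h2 := tsy_norm hv t
    have h2' := tsy_norm hv' t'
    have h3 := hS.box.inj (((5 / 2 + v.re / 2 : ℝ) : ℂ) * ex t) (v.im / 2) l
      (((5 / 2 + v'.re / 2 : ℝ) : ℂ) * ex t') (v'.im / 2) l'
      (by rw [h2]; linarith [h1.2.1]) h1.2.2 (by rw [h2']; linarith [h1'.2.1]) h1'.2.2 he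
    obtain ⟨e1, e2, m, e3⟩ := h3
    obtain ⟨e4, m', e5⟩ := RSG.ex_polar (by linarith [h1.1]) (by linarith [h1'.1]) e1
    exact ⟨Complex.ext (by linarith) (by linarith), ⟨m, e3⟩, ⟨m', e5⟩⟩

theorem strip_sys' (hS : Strip J κ₁ κ₂ b l₁ l₂ η) : Sys J ![κ₁, κ₂] ![κγ b] := by
  have hT := tsy_thick hS
  refine ⟨?_, ?_⟩
  · rintro (i | i)
    · rcases (show i = 0 ∨ i = 1 by fin_cases i; exacts [Or.inl rfl, Or.inr rfl]) with rfl | rfl
      · exact hS.thick₁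
      · exact hS.thick₂
    · rcases (show i = 0 from Subsingleton.elim _ _) with rfl
      exact hT
  · rintro (i | i) (i' | i') l v t l' v' t' hv hv' he
    · rcases (show i = 0 ∨ i = 1 by fin_cases i; exacts [Or.inl rfl, Or.inr rfl]) with rfl | rfl
      · rcases (show i' = 0 ∨ i' = 1 by fin_cases i'; exacts [Or.inl rfl, Or.inr rfl]) with rfl | rfl
        · rfl
        · exact absurd he (hS.disj l v t l' v' t' hv hv')
      · rcases (show i' = 0 ∨ i' = 1 by fin_cases i'; exacts [Or.inl rfl, Or.inr rfl]) with rfl | rfl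
        · exact absurd he.symm (hS.disj l' v' t' l v t hv' hv)
        · rfl
    · rcases (show i' = 0 from Subsingleton.elim _ _) with rfl
      rcases (show i = 0 ∨ i = 1 by fin_cases i; exacts [Or.inl rfl, Or.inr rfl]) with rfl | rfl
      · exact absurd he (tsy_k1 hS hv hv')
      · exact absurd he (tsy_k2 hS hv hv')
    · rcases (show i = 0 from Subsingleton.elim _ _) with rfl
      rcases (show i' = 0 ∨ i' = 1 by fin_cases i'; exacts [Or.inl rfl, Or.inr rfl]) with rfl | rfl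
      · exact absurd he.symm (tsy_k1 hS hv' hv)
      · exact absurd he.symm (tsy_k2 hS hv' hv)
    · rw [Subsingleton.elim i i']

end

end Pool.Agent.MMV
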