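import Pool.Agent.MMV.TDef
import Pool.Agent.RSG.LDc

/-!
# MMV/TUq
: the manifold with the structure `FT` is unique   (difficulty 4)

Let `hκ : Sys J κ κ'` (`ι`, `ι'` finite, `P` Hausdorff), `D` on `X`, `D'` on `X'`.
* the tori are closed (`LKF.torF_closed`), so the set `O = {p | ¬ OnF κ p ∧ ¬ OnF κ' p}` is open.
* `tuq_AF`, `tuq_AQ`, `tuq_FF`, `tuq_FQ`: an equality between points of `X` given by the maps `A`, `F i`, `Q j` of `D`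
  gives the same equality for the maps of `D'`.
* `tuq_R D D' q q'`: `q`, `q'` are given by the same formula in `X` and in `X'`; this is a one-to-one relation.
-/

open scoped ContDiff Manifold Topology
open Set Filter
open Complex (I)
open Pool.Agent.RSG (E3 E4 S2 S3 S4 ex cj c1 c2 ht fh pS3 pS4)
open Pool.Agent.RBM (ThickT OnT Box)
open Pool.Agent.LKF (OnF)
open Pool.Agent.PTH (SP ISP)
open Pool.Agent.KNH (circ)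
open Pool.Agent.LKT (s1 s2)

namespace Pool.Agent.MMV

section
variable {E : Type*} [NormedAddCommGroup E] [NormedSpace ℝ E] {H : Type*} [TopologicalSpace H]
  {J : ModelWithCorners ℝ E H} {P : Type*} [TopologicalSpace P] [ChartedSpace H P]
  {X : Type*} [TopologicalSpace X] [ChartedSpace E4 X] {κ₁ κ₂ : ℝ × ℂ × ℝ → P} {b : ℂ × ℝ × ℝ → P} {l₁ l₂ η : ℝ}
  {a₁ c₁' a₂ c₂' : ℤ}

omit [TopologicalSpace P] in
/-- a point is off all the tori iff it is off the tori of both families -/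
theorem tuq_onF {ι ι' : Type*} {κ : ι → ℝ × ℂ × ℝ → P} {κ' : ι' → ℝ × ℂ × ℝ → P} (p : P) :
    ¬ OnF (Sum.elim κ κ') p ↔ ¬ OnF κ p ∧ ¬ OnF κ' p := by
  constructor
  · intro h
    refine ⟨?_, ?_⟩
    · rintro ⟨i, hi⟩
      exact h ⟨Sum.inl i, hi⟩
    · rintro ⟨i, hi⟩
      exact h ⟨Sum.inr i, hi⟩
  · rintro ⟨h1, h2⟩ ⟨i | i, hi⟩
    · exact h1 ⟨i, hi⟩
    · exact h2 ⟨i, hi⟩

/-- the set of the points off all the tori is open -/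
theorem tuq_open [T2Space P] {ι ι' : Type*} [Finite ι] [Finite ι'] {κ : ι → ℝ × ℂ × ℝ → P}
    {κ' : ι' → ℝ × ℂ × ℝ → P} (hκ : Sys J κ κ') : IsOpen {p : P | ¬ OnF κ p ∧ ¬ OnF κ' p} := by
  have h1 : IsClosed {p : P | OnF (Sum.elim κ κ') p} := LKF.torF_closed hκ.thick
  have h2 : {p : P | ¬ OnF κ p ∧ ¬ OnF κ' p} = {p : P | OnF (Sum.elim κ κ') p}ᶜ := by
    ext p
    exact (tuq_onF p).symm
  rw [h2]
  exact h1.isOpen_compl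

/-- the points of the tube `i` which are not on the core are off all the tori -/
theorem tuq_off1 {ι ι' : Type*} {κ : ι → ℝ × ℂ × ℝ → P} {κ' : ι' → ℝ × ℂ × ℝ → P} (hκ : Sys J κ κ')
    (i : ι) (l : ℝ) {v : ℂ} (t : ℝ) (h0 : v ≠ 0) (h1 : ‖v‖ < 1) :
    ¬ OnF κ (κ i (l, v, t)) ∧ ¬ OnF κ' (κ i (l, v, t)) :=
  (tuq_onF _).1 (LKF.kap_notF (i := Sum.inl i) (l := l) hκ t h0 h1)

theorem tuq_off2 {ι ι' : Type*} {κ : ι → ℝ × ℂ × ℝ → P} {κ' : ι' → ℝ × ℂ × ℝ → P} (hκ : Sys J κ κ')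
    (i : ι') (l : ℝ) {v : ℂ} (t : ℝ) (h0 : v ≠ 0) (h1 : ‖v‖ < 1) :
    ¬ OnF κ (κ' i (l, v, t)) ∧ ¬ OnF κ' (κ' i (l, v, t)) :=
  (tuq_onF _).1 (LKF.kap_notF (i := Sum.inr i) (l := l) hκ t h0 h1)

/-- polar form -/
theorem tuq_polar (v : ℂ) : ∃ u : ℝ, v = (‖v‖ : ℂ) * ex u := ⟨_, RSG.ex_arg.symm⟩

/-- the points of the tubes `F i` off the core are given by the map `A`, for both structures -/
theorem tuq_FA {ι ι' : Type*} {κ : ι → ℝ × ℂ × ℝ → P} {M : ι → Sl}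
    {κ' : ι' → ℝ × ℂ × ℝ → P} {X' : Type*} [TopologicalSpace X'] [ChartedSpace E4 X'] (hκ : Sys J κ κ')
    (D : FT J κ M κ' X) (D' : FT J κ M κ' X') (i : ι) (l s : ℝ) {ξ : ℂ} (h0 : ξ ≠ 0) (h1 : ‖ξ‖ < 1) :
    ∃ p : P, ¬ OnF κ p ∧ ¬ OnF κ' p ∧ D.F i (l, s, ξ) = D.A p ∧ D'.F i (l, s, ξ) = D'.A p := by
  obtain ⟨φ, hφ⟩ := tuq_polar ξ
  have hn : 0 < ‖ξ‖ := norm_pos_iff.2 h0
  have g := D.glueF i l s ‖ξ‖ φ hn h1
  have g' := D'.glueF i l s ‖ξ‖ φ hn h1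
  rw [← hφ] at g g'
  have hv : ‖(‖ξ‖ : ℂ) * ex ((M i).a * φ + (M i).b * s)‖ = ‖ξ‖ := by
    rw [norm_mul, RSG.ex_norm, mul_one, Complex.norm_real, norm_norm]
  have hoff := tuq_off1 hκ i l (v := (‖ξ‖ : ℂ) * ex ((M i).a * φ + (M i).b * s)) ((M i).c * φ + (M i).d * s)
    (by rw [← norm_ne_zero_iff, hv]; exact hn.ne') (by rw [hv]; exact h1)
  exact ⟨_, hoff.1, hoff.2, g, g'⟩

/-- the points of the twins off the two spheres are given by the map `A`, for both structures -/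
theorem tuq_QA {ι ι' : Type*} {κ : ι → ℝ × ℂ × ℝ → P} {M : ι → Sl}
    {κ' : ι' → ℝ × ℂ × ℝ → P} {X' : Type*} [TopologicalSpace X'] [ChartedSpace E4 X'] (hκ : Sys J κ κ')
    (D : FT J κ M κ' X) (D' : FT J κ M κ' X') (i : ι') {z : S4} (hz : fh z ≠ 0) (h1 : c1 z ≠ 0) (h2 : c2 z ≠ 0) :
    ∃ p : P, ¬ OnF κ p ∧ ¬ OnF κ' p ∧ D.Q i z = D.A p ∧ D'.Q i z = D'.A p := by
  obtain ⟨u, hu⟩ := tuq_polar (c1 z)
  obtain ⟨m, hm⟩ := tuq_polar (c2 z)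
  obtain ⟨l, hl⟩ := tuq_polar (fh z)
  have hn1 : 0 < ‖c1 z‖ := norm_pos_iff.2 h1
  have hn2 : 0 < ‖c2 z‖ := norm_pos_iff.2 h2
  have hv : ‖((2 * ‖c1 z‖ * ‖c2 z‖ : ℝ) : ℂ) * ex m‖ = 2 * ‖c1 z‖ * ‖c2 z‖ := by
    rw [norm_mul, RSG.ex_norm, mul_one, Complex.norm_real, Real.norm_of_nonneg (by positivity)]
  have hoff := tuq_off2 hκ i l (v := ((2 * ‖c1 z‖ * ‖c2 z‖ : ℝ) : ℂ) * ex m) u
    (by rw [← norm_ne_zero_iff, hv]; positivity) (by rw [hv]; exact (RSG.fh_ne_iff z).1 hz)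
  exact ⟨_, hoff.1, hoff.2, D.glueQ i z l m u hz h1 h2 hu hm hl, D'.glueQ i z l m u hz h1 h2 hu hm hl⟩

theorem tuq_AF {ι ι' : Type*} {κ : ι → ℝ × ℂ × ℝ → P} {M : ι → Sl}
    {κ' : ι' → ℝ × ℂ × ℝ → P} {X' : Type*} [TopologicalSpace X'] [ChartedSpace E4 X'] (hκ : Sys J κ κ')
    (D : FT J κ M κ' X) (D' : FT J κ M κ' X') {p : P} (hp : ¬ OnF κ p) (hp' : ¬ OnF κ' p) {i : ι} {l s : ℝ} {ξ : ℂ}
    (h1 : ‖ξ‖ < 1) (he : D.F i (l, s, ξ) = D.A p) : D'.F i (l, s, ξ) = D'.A p := by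
  by_cases h0 : ξ = 0
  · subst h0
    exact absurd he (D.disjF i l s p hp hp')
  · obtain ⟨p₁, hp₁, hp₁', e, e'⟩ := tuq_FA hκ D D' i l s h0 h1
    rw [e', D.A_inj p₁ p hp₁ hp₁' hp hp' (e.symm.trans he)]

theorem tuq_AQ {ι ι' : Type*} {κ : ι → ℝ × ℂ × ℝ → P} {M : ι → Sl}
    {κ' : ι' → ℝ × ℂ × ℝ → P} {X' : Type*} [TopologicalSpace X'] [ChartedSpace E4 X'] (hκ : Sys J κ κ')
    (D : FT J κ M κ' X) (D' : FT J κ M κ' X') {p : P} (hp : ¬ OnF κ p) (hp' : ¬ OnF κ' p) {i : ι'} {z : S4}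
    (hz : fh z ≠ 0) (he : D.Q i z = D.A p) : D'.Q i z = D'.A p := by
  by_cases h1 : c1 z = 0
  · exact absurd he (D.disjQ i z p hz (Or.inl h1) hp hp')
  by_cases h2 : c2 z = 0
  · exact absurd he (D.disjQ i z p hz (Or.inr h2) hp hp')
  obtain ⟨p₁, hp₁, hp₁', e, e'⟩ := tuq_QA hκ D D' i hz h1 h2
  rw [e', D.A_inj p₁ p hp₁ hp₁' hp hp' (e.symm.trans he)]

/-- integer periods of the tubes -/
theorem tuq_per {ι ι' : Type*} {κ : ι → ℝ × ℂ × ℝ → P} {M : ι → Sl}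
    {κ' : ι' → ℝ × ℂ × ℝ → P} (D : FT J κ M κ' X) (i : ι) (l s : ℝ) {ξ : ℂ} (h1 : ‖ξ‖ < 1) (m n : ℤ) :
    D.F i (l + m, s + n, ξ) = D.F i (l, s, ξ) := by
  have e1 : Function.Periodic (fun x : ℝ => D.F i (x, s + n, ξ)) 1 := fun x => D.F_per1 i x (s + n) ξ h1
  have e2 : Function.Periodic (fun x : ℝ => D.F i (l, x, ξ)) 1 := fun x => D.F_per2 i l x ξ h1
  have e3 := e1.int_mul m l
  have e4 := e2.int_mul n s
  rw [mul_one] at e3 e4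
  exact e3.trans e4

theorem tuq_FF {ι ι' : Type*} {κ : ι → ℝ × ℂ × ℝ → P} {M : ι → Sl}
    {κ' : ι' → ℝ × ℂ × ℝ → P} {X' : Type*} [TopologicalSpace X'] [ChartedSpace E4 X']
    (D : FT J κ M κ' X) (D' : FT J κ M κ' X') {i i' : ι} {l s l' s' : ℝ} {ξ ξ' : ℂ}
    (h1 : ‖ξ‖ < 1) (h1' : ‖ξ'‖ < 1) (he : D.F i (l, s, ξ) = D.F i' (l', s', ξ')) :
    D'.F i (l, s, ξ) = D'.F i' (l', s', ξ') := by
  obtain ⟨rfl, rfl, ⟨m, rfl⟩, ⟨n, rfl⟩⟩ := D.F_inj i l s ξ i' l' s' ξ' h1 h1' he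
  exact (tuq_per D' i l s h1 m n).symm

theorem tuq_FQ {ι ι' : Type*} {κ : ι → ℝ × ℂ × ℝ → P} {M : ι → Sl}
    {κ' : ι' → ℝ × ℂ × ℝ → P} {X' : Type*} [TopologicalSpace X'] [ChartedSpace E4 X'] (hκ : Sys J κ κ')
    (D : FT J κ M κ' X) (D' : FT J κ M κ' X') {i : ι} {l s : ℝ} {ξ : ℂ} {j : ι'} {z : S4}
    (h1 : ‖ξ‖ < 1) (hz : fh z ≠ 0) (he : D.F i (l, s, ξ) = D.Q j z) : D'.F i (l, s, ξ) = D'.Q j z := by
  by_cases h0 : ξ = 0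
  · subst h0
    exact absurd he (D.disjFQ i l s j z hz)
  · obtain ⟨p, hp, hp', e, e'⟩ := tuq_FA hκ D D' i l s h0 h1
    rw [e', tuq_AQ hκ D D' hp hp' hz (he.symm.trans e)]

/-- `q` and `q'` are given by the same formula, in `X` and in `X'` -/
def tuq_R {ι ι' : Type*} {κ : ι → ℝ × ℂ × ℝ → P} {M : ι → Sl}
    {κ' : ι' → ℝ × ℂ × ℝ → P} {X' : Type*} [TopologicalSpace X'] [ChartedSpace E4 X']
    (D : FT J κ M κ' X) (D' : FT J κ M κ' X') (q : X) (q' : X') : Prop :=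
  (∃ p, ¬ OnF κ p ∧ ¬ OnF κ' p ∧ q = D.A p ∧ q' = D'.A p) ∨
    (∃ (i : ι) (l s : ℝ) (ξ : ℂ), ‖ξ‖ < 1 ∧ q = D.F i (l, s, ξ) ∧ q' = D'.F i (l, s, ξ)) ∨
    ∃ (i : ι') (z : S4), fh z ≠ 0 ∧ q = D.Q i z ∧ q' = D'.Q i z

theorem tuq_R_symm {ι ι' : Type*} {κ : ι → ℝ × ℂ × ℝ → P} {M : ι → Sl}
    {κ' : ι' → ℝ × ℂ × ℝ → P} {X' : Type*} [TopologicalSpace X'] [ChartedSpace E4 X']
    {D : FT J κ M κ' X} {D' : FT J κ M κ' X'} {q : X} {q' : X'} (h : tuq_R D D' q q') : tuq_R D' D q' q := by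
  rcases h with ⟨p, h1, h2, h3, h4⟩ | ⟨i, l, s, ξ, h1, h2, h3⟩ | ⟨i, z, h1, h2, h3⟩
  · exact Or.inl ⟨p, h1, h2, h4, h3⟩
  · exact Or.inr (Or.inl ⟨i, l, s, ξ, h1, h3, h2⟩)
  · exact Or.inr (Or.inr ⟨i, z, h1, h3, h2⟩)

theorem tuq_R_ex {ι ι' : Type*} {κ : ι → ℝ × ℂ × ℝ → P} {M : ι → Sl}
    {κ' : ι' → ℝ × ℂ × ℝ → P} {X' : Type*} [TopologicalSpace X'] [ChartedSpace E4 X']
    (D : FT J κ M κ' X) (D' : FT J κ M κ' X') (q : X) : ∃ q' : X', tuq_R D D' q q' := by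
  rcases D.cover q with ⟨p, h1, h2, h3⟩ | ⟨i, l, s, h1⟩ | ⟨i, z, h1, _, h2⟩
  · exact ⟨D'.A p, Or.inl ⟨p, h1, h2, h3, rfl⟩⟩
  · exact ⟨D'.F i (l, s, 0), Or.inr (Or.inl ⟨i, l, s, 0, by rw [norm_zero]; exact one_pos, h1, rfl⟩)⟩
  · exact ⟨D'.Q i z, Or.inr (Or.inr ⟨i, z, h1, h2, rfl⟩)⟩

theorem tuq_R_uniq {ι ι' : Type*} {κ : ι → ℝ × ℂ × ℝ → P} {M : ι → Sl}
    {κ' : ι' → ℝ × ℂ × ℝ → P} {X' : Type*} [TopologicalSpace X'] [ChartedSpace E4 X'] (hκ : Sys J κ κ')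
    {D : FT J κ M κ' X} {D' : FT J κ M κ' X'} {q : X} {y y' : X'} (h : tuq_R D D' q y)
    (h' : tuq_R D D' q y') : y = y' := by
  rcases h with ⟨p, hp, hp', e1, rfl⟩ | ⟨i, l, s, ξ, hξ, e1, rfl⟩ | ⟨i, z, hz, e1, rfl⟩ <;>
    rcases h' with ⟨p₁, hp₁, hp₁', e2, rfl⟩ | ⟨i₁, l₁, s₁, ξ₁, hξ₁, e2, rfl⟩ | ⟨i₁, z₁, hz₁, e2, rfl⟩
  · rw [D.A_inj p p₁ hp hp' hp₁ hp₁' (e1.symm.trans e2)]
  · exact (tuq_AF hκ D D' hp hp' hξ₁ (e2.symm.trans e1)).symm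
  · exact (tuq_AQ hκ D D' hp hp' hz₁ (e2.symm.trans e1)).symm
  · exact tuq_AF hκ D D' hp₁ hp₁' hξ (e1.symm.trans e2)
  · exact tuq_FF D D' hξ hξ₁ (e1.symm.trans e2)
  · exact tuq_FQ hκ D D' hξ hz₁ (e1.symm.trans e2)
  · exact tuq_AQ hκ D D' hp₁ hp₁' hz (e1.symm.trans e2)
  · exact (tuq_FQ hκ D D' hξ₁ hz (e2.symm.trans e1)).symm
  · obtain ⟨h1, h2⟩ := D.Q_inj i z i₁ z₁ hz hz₁ (e1.symm.trans e2)
    rw [h1, h2]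

theorem ft_uniq' [T2Space P] {ι ι' : Type*} [Finite ι] [Finite ι'] {κ : ι → ℝ × ℂ × ℝ → P} {M : ι → Sl}
    {κ' : ι' → ℝ × ℂ × ℝ → P} {X' : Type*} [TopologicalSpace X'] [ChartedSpace E4 X'] (hκ : Sys J κ κ')
    (D : FT J κ M κ' X) (D' : FT J κ M κ' X') : Nonempty (X ≃ₘ⟮𝓡 4, 𝓡 4⟯ X') := by
  classical
  choose T hT using tuq_R_ex D D'
  refine RSG.exists_diffeo (Φ := T) ?_ ⟨?_, ?_⟩
  · intro q
    rcases D.cover q with ⟨p, h1, h2, rfl⟩ | ⟨i, l, s, rfl⟩ | ⟨i, z, h1, _, rfl⟩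
    · refine CSG.ld_of_comp_left (f := D.A) ?_ (D.A_loc p h1 h2)
      refine CSG.ld_congr (D'.A_loc p h1 h2) ?_
      filter_upwards [(tuq_open hκ).mem_nhds (show p ∈ {p : P | ¬ OnF κ p ∧ ¬ OnF κ' p} from ⟨h1, h2⟩)] with y hy
      exact tuq_R_uniq hκ (hT (D.A y)) (Or.inl ⟨y, hy.1, hy.2, rfl, rfl⟩)
    · have h0 : ‖(0 : ℂ)‖ < 1 := by rw [norm_zero]; exact one_pos
      refine CSG.ld_of_comp_left (f := D.F i) ?_ (D.F_loc i l s 0 h0)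
      refine CSG.ld_congr (D'.F_loc i l s 0 h0) ?_
      have h3 : ContinuousAt (fun q : ℝ × ℝ × ℂ => ‖q.2.2‖) (l, s, 0) := by fun_prop
      filter_upwards [h3.eventually_lt continuousAt_const h0] with y hy
      exact tuq_R_uniq hκ (hT (D.F i y)) (Or.inr (Or.inl ⟨i, y.1, y.2.1, y.2.2, hy, rfl, rfl⟩))
    · refine CSG.ld_of_comp_left (f := D.Q i) ?_ (D.Q_loc i z h1)
      refine CSG.ld_congr (D'.Q_loc i z h1) ?_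
      have h3 : ContinuousAt fh z := RSG.fh_smooth.continuous.continuousAt
      filter_upwards [h3.eventually_ne h1] with y hy
      exact tuq_R_uniq hκ (hT (D.Q i y)) (Or.inr (Or.inr ⟨i, y, hy, rfl, rfl⟩))
  · intro q q' h
    have h1 := tuq_R_symm (hT q)
    rw [h] at h1
    exact tuq_R_uniq hκ h1 (tuq_R_symm (hT q'))
  · intro y
    obtain ⟨q, hq⟩ := tuq_R_ex D' D y
    exact ⟨q, tuq_R_uniq hκ (hT q) (tuq_R_symm hq)⟩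

end

end Pool.Agent.MMV
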