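import Pool.Agent.MMV.TMn
import Pool.Agent.MMV.TSb
import Pool.Agent.MMV.TSy
import Pool.Agent.MMV.TUq

/-!
# MMV/TM: the torus move (top theorem of block I)
-/

open scoped ContDiff Manifold Topology unitInterval
open Set Filter
open Pool.Agent.RSG (E3 E4 S2 S3 S4 ex cj c1 c2 ht fh pS3 pS4)
open Pool.Agent.RBM (ThickT OnT Box)
open Pool.Agent.LKF (OnF)
open Pool.Agent.PTH (SP ISP)
open Pool.Agent.KNH (circ)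
open Pool.Agent.LKT (s1 s2)

namespace Pool.Agent.MMV

section
variable {E : Type*} [NormedAddCommGroup E] [NormedSpace ℝ E] {H : Type*} [TopologicalSpace H]
  {J : ModelWithCorners ℝ E H}
  {P : Type*} [TopologicalSpace P] [ChartedSpace H P]
  {X : Type*} [TopologicalSpace X] [ChartedSpace E4 X]

/-- the torus move along the first torus -/
theorem tm₁ [T2Space X] {κ₁ κ₂ : ℝ × ℂ × ℝ → P} {b : ℂ × ℝ × ℝ → P} {l₁ l₂ η : ℝ}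
    (hS : Strip J κ₁ κ₂ b l₁ l₂ η) {M₁ M₂ : Sl} (D : FT J ![κ₁, κ₂] ![M₁, M₂] ![κγ b] X)
    (h₁ : M₁.Uni) (h₂ : M₂.Uni) (hd : M₁.a * M₂.c + M₁.c * M₂.a = 1 ∨ M₁.a * M₂.c + M₁.c * M₂.a = -1) (k : ℤ) :
    ∃ M₁' : Sl, M₁'.Uni ∧ M₁'.a = M₁.a - 2 * k * M₂.a ∧ M₁'.c = M₁.c + 2 * k * M₂.c ∧
      Nonempty (FT J ![κ₁, κ₂] ![M₁', M₂] ![κγ b] X) :=
  tm₁' hS D h₁ h₂ hd k

/-- the torus move along the second torus -/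
theorem tm₂ [T2Space X] {κ₁ κ₂ : ℝ × ℂ × ℝ → P} {b : ℂ × ℝ × ℝ → P} {l₁ l₂ η : ℝ}
    (hS : Strip J κ₁ κ₂ b l₁ l₂ η) {M₁ M₂ : Sl} (D : FT J ![κ₁, κ₂] ![M₁, M₂] ![κγ b] X)
    (h₁ : M₁.Uni) (h₂ : M₂.Uni) (hd : M₁.a * M₂.c + M₁.c * M₂.a = 1 ∨ M₁.a * M₂.c + M₁.c * M₂.a = -1) (k : ℤ) :
    ∃ M₂' : Sl, M₂'.Uni ∧ M₂'.a = M₂.a - 2 * k * M₁.a ∧ M₂'.c = M₂.c + 2 * k * M₁.c ∧
      Nonempty (FT J ![κ₁, κ₂] ![M₁, M₂'] ![κγ b] X) :=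
  tm₂' hS D h₁ h₂ hd k

/-- the dual column is arbitrary -/
theorem ft_dual {ι ι' : Type*} {κ : ι → ℝ × ℂ × ℝ → P} {M M' : ι → Sl} {κ' : ι' → ℝ × ℂ × ℝ → P} (D : FT J κ M κ' X)
    (h : ∀ i, (M i).Uni) (h' : ∀ i, (M' i).Uni) (ha : ∀ i, (M' i).a = (M i).a) (hc : ∀ i, (M' i).c = (M i).c) :
    Nonempty (FT J κ M' κ' X) :=
  ft_dual' D h h' ha hc

/-- the tori of a strip -/
theorem strip_sys {κ₁ κ₂ : ℝ × ℂ × ℝ → P} {b : ℂ × ℝ × ℝ → P} {l₁ l₂ η : ℝ} (hS : Strip J κ₁ κ₂ b l₁ l₂ η) :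
    Sys J ![κ₁, κ₂] ![κγ b] :=
  strip_sys' hS

/-- the manifold is unique -/
theorem ft_uniq [T2Space P] {ι ι' : Type*} [Finite ι] [Finite ι'] {κ : ι → ℝ × ℂ × ℝ → P} {M : ι → Sl} {κ' : ι' → ℝ × ℂ × ℝ → P} {X' : Type*}
    [TopologicalSpace X'] [ChartedSpace E4 X'] (hκ : Sys J κ κ') (D : FT J κ M κ' X) (D' : FT J κ M κ' X') :
    Nonempty (X ≃ₘ⟮𝓡 4, 𝓡 4⟯ X') :=
  ft_uniq' hκ D D'

end

end Pool.Agent.MMV
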