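import Pool.Agent.MMV.Defs
import Pool.Agent.LKT.TwS

/-!
# MMV/XFt: adding a twin   (difficulty 2)

`Φ : FT J κ M ![] V` (no twins), `κ'` a further thick torus of `P`, disjoint from the others (`Sys J κ ![κ']`).
* `ft_notOn`: `κ' (l, v, u)`, `‖v‖ < 1`, is on no torus `κ i` (`LinkT.disj` for `Sum.elim κ ![κ']`, `ThickT`).
* `linkA`: `Φ.A ∘ κ'` is thick in `V`: periods clear; `loc`: composition (`Φ.A_loc`, the second hypothesis `¬ OnF ![] p` is trivial); `inj`: `Φ.A_inj`; `disj`: `Unit`.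
* `ft_add`: `A = D.A ∘ Φ.A`, `F i = D.A ∘ Φ.F i`, `Q 0 = D.Q ()`.  Put `T = {Φ.A (κ' (l, 0, u))}` (the torus `OnF (fun _ : Unit => Φ.A ∘ κ')`).
  - `p` off all tori: `Φ.A p ∉ T` (`Φ.A_inj`, `ft_notOn`).  `Φ.F i (l, s, ξ) ∉ T` for `‖ξ‖ < 1`: `ξ = 0`: `Φ.disjF`; `ξ = r ex φ`, `0 < r < 1` (`RSG.ex_arg`): `Φ.glueF`, `Φ.A_inj` and disjointness of the tubes `κ i`, `κ'`.
  - `glueQ`: `D.glue`.  `disjF`: `D.A_inj`, `Φ.disjF`.  `disjQ`: `D.disj`.  `disjFQ`: `c1 z = 0` or `c2 z = 0`: `D.disj`; otherwise `D.glue` (with `u, m, l` from `RSG.ex_arg`): `D.Q () z = D.A (Φ.A (κ' (l, v, u)))`, `0 < ‖v‖ < 1` (`2|c1||c2| < 1`: `RSG`/`LKT.vQ_lt`), `D.A_inj` and `Φ.disjF`.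
  - `cover`: `D.cover`, `Φ.cover` (`Fin 0` is empty), and `D.glue` for the points `z` of the twin with `c1, c2 ≠ 0`.
-/

open scoped ContDiff Manifold Topology unitInterval
open Set Filter
open Pool.Agent.RSG (E3 E4 S2 S3 S4 ex cj c1 c2 ht fh pS3 pS4)
open Pool.Agent.RBM (ThickT OnT Box)
open Pool.Agent.LKF (OnF LinkT)
open Pool.Agent.LKT (TwMF)

namespace Pool.Agent.MMV

section
variable {E : Type*} [NormedAddCommGroup E] [NormedSpace ℝ E] {H : Type*} [TopologicalSpace H]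
  {J : ModelWithCorners ℝ E H}
  {P : Type*} [TopologicalSpace P] [ChartedSpace H P] {ι : Type*}
  {V : Type*} [TopologicalSpace V] [ChartedSpace E4 V]

theorem xft_thick {κ : ι → ℝ × ℂ × ℝ → P} {κ' : ℝ × ℂ × ℝ → P} (hκ : Sys J κ ![κ']) : ThickT J κ' :=
  LinkT.thick (J := J) (κ := Sum.elim κ ![κ']) hκ (Sum.inr 0)

theorem xft_thick' {κ : ι → ℝ × ℂ × ℝ → P} {κ' : ℝ × ℂ × ℝ → P} (hκ : Sys J κ ![κ']) (i : ι) : ThickT J (κ i) :=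
  LinkT.thick (J := J) (κ := Sum.elim κ ![κ']) hκ (Sum.inl i)

theorem xft_disj {κ : ι → ℝ × ℂ × ℝ → P} {κ' : ℝ × ℂ × ℝ → P} (hκ : Sys J κ ![κ']) (i : ι) (l : ℝ) {v : ℂ} (t l' : ℝ)
    {v' : ℂ} (t' : ℝ) (hv : ‖v‖ < 1) (hv' : ‖v'‖ < 1) : κ i (l, v, t) ≠ κ' (l', v', t') := by
  intro h
  have := LinkT.disj (J := J) (κ := Sum.elim κ ![κ']) hκ (Sum.inl i) (Sum.inr 0) l v t l' v' t' hv hv' h
  exact Sum.inl_ne_inr this

theorem xft_self {κ : ι → ℝ × ℂ × ℝ → P} {κ' : ℝ × ℂ × ℝ → P} (hκ : Sys J κ ![κ']) (i : ι) (l : ℝ) {v : ℂ} (t : ℝ)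
    (hv : ‖v‖ < 1) (h0 : v ≠ 0) : ¬ OnF κ (κ i (l, v, t)) := by
  rintro ⟨j, l', t', h⟩
  have h1 := LinkT.disj (J := J) (κ := Sum.elim κ ![κ']) hκ (Sum.inl i) (Sum.inl j) l v t l' 0 t' hv
    (by rw [norm_zero]; exact one_pos) h
  have h2 : i = j := Sum.inl_injective h1
  subst h2
  exact h0 ((xft_thick' hκ i).inj l v t l' 0 t' hv (by rw [norm_zero]; exact one_pos) h).1

theorem xft_self' {κ : ι → ℝ × ℂ × ℝ → P} {κ' : ℝ × ℂ × ℝ → P} (hκ : Sys J κ ![κ']) (l : ℝ) {v : ℂ} (t : ℝ)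
    (hv : ‖v‖ < 1) (h0 : v ≠ 0) : ¬ OnF ![κ'] (κ' (l, v, t)) := by
  rintro ⟨j, l', t', h⟩
  obtain rfl : j = 0 := Subsingleton.elim _ _
  exact h0 ((xft_thick hκ).inj l v t l' 0 t' hv (by rw [norm_zero]; exact one_pos) h).1

omit [TopologicalSpace P] in
theorem xft_nil (p : P) : ¬ OnF (![] : Fin 0 → ℝ × ℂ × ℝ → P) p := by
  rintro ⟨i, -⟩
  exact i.elim0

theorem ft_notOn {κ : ι → ℝ × ℂ × ℝ → P} {κ' : ℝ × ℂ × ℝ → P} (hκ : Sys J κ ![κ']) (l : ℝ) {v : ℂ} (u : ℝ)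
    (hv : ‖v‖ < 1) : ¬ OnF κ (κ' (l, v, u)) := by
  rintro ⟨i, l', t', h⟩
  exact xft_disj hκ i l' t' l u (by rw [norm_zero]; exact one_pos) hv h.symm

theorem linkA {κ : ι → ℝ × ℂ × ℝ → P} {M : ι → Sl} {κ' : ℝ × ℂ × ℝ → P} (hκ : Sys J κ ![κ'])
    (Φ : FT J κ M (![] : Fin 0 → ℝ × ℂ × ℝ → P) V) :
    LinkT (𝓡 4) (fun _ : Unit => fun q => Φ.A (κ' q)) := by
  have ht := xft_thick hκ
  refine ⟨fun _ => ⟨?_, ?_, ?_, ?_⟩, fun _ _ _ _ _ _ _ _ _ _ _ => Subsingleton.elim _ _⟩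
  · intro l v t
    exact congrArg Φ.A (ht.perl l v t)
  · intro l v t
    exact congrArg Φ.A (ht.pert l v t)
  · intro l v t hv
    exact IsLocalDiffeomorphAt.comp (hf := ht.loc l v t hv) (g := Φ.A)
      (hg := Φ.A_loc _ (ft_notOn hκ l t hv) (xft_nil _)) ..
  · intro l v t l' v' t' hv hv' h
    exact ht.inj l v t l' v' t' hv hv'
      (Φ.A_inj _ _ (ft_notOn hκ l t hv) (xft_nil _) (ft_notOn hκ l' t' hv') (xft_nil _) h)

/-- points off all the tori are mapped off the new torus -/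
theorem xft_offA {κ : ι → ℝ × ℂ × ℝ → P} {M : ι → Sl} {κ' : ℝ × ℂ × ℝ → P} (hκ : Sys J κ ![κ'])
    (Φ : FT J κ M (![] : Fin 0 → ℝ × ℂ × ℝ → P) V) {p : P} (hp : ¬ OnF κ p) (hp' : ¬ OnF ![κ'] p) :
    ¬ OnF (fun _ : Unit => fun q => Φ.A (κ' q)) (Φ.A p) := by
  rintro ⟨_, l, t, h⟩
  have h1 := Φ.A_inj _ _ hp (xft_nil _)
    (ft_notOn hκ l t (by rw [norm_zero]; exact one_pos : ‖(0 : ℂ)‖ < 1)) (xft_nil _) h
  exact hp' ⟨0, l, t, h1⟩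

/-- the tubes are off the new torus -/
theorem xft_offF {κ : ι → ℝ × ℂ × ℝ → P} {M : ι → Sl} {κ' : ℝ × ℂ × ℝ → P} (hκ : Sys J κ ![κ'])
    (Φ : FT J κ M (![] : Fin 0 → ℝ × ℂ × ℝ → P) V) (i : ι) (l s : ℝ) {ξ : ℂ} (hξ : ‖ξ‖ < 1) :
    ¬ OnF (fun _ : Unit => fun q => Φ.A (κ' q)) (Φ.F i (l, s, ξ)) := by
  rintro ⟨_, l', t', h⟩
  have h0 : ‖(0 : ℂ)‖ < 1 := by rw [norm_zero]; exact one_pos
  by_cases hz : ξ = 0
  · subst hz
    exact Φ.disjF i l s _ (ft_notOn hκ l' t' h0) (xft_nil _) h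
  · have hr : 0 < ‖ξ‖ := norm_pos_iff.2 hz
    have h1 := Φ.glueF i l s ‖ξ‖ (Complex.arg ξ / (2 * Real.pi)) hr hξ
    rw [RSG.ex_arg (p := ξ)] at h1
    rw [h1] at h
    have hn : ‖(‖ξ‖ : ℂ) * ex ((M i).a * (Complex.arg ξ / (2 * Real.pi)) + (M i).b * s)‖ < 1 := by
      rw [norm_mul, RSG.ex_norm, mul_one, Complex.norm_real, norm_norm]
      exact hξ
    have hne : (‖ξ‖ : ℂ) * ex ((M i).a * (Complex.arg ξ / (2 * Real.pi)) + (M i).b * s) ≠ 0 := by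
      refine mul_ne_zero ?_ (RSG.ex_ne _)
      exact_mod_cast hr.ne'
    have h2 := Φ.A_inj _ _ (xft_self hκ i l _ hn hne) (xft_nil _) (ft_notOn hκ l' t' h0) (xft_nil _) h
    exact xft_disj hκ i l _ l' t' hn h0 h2

/-- the points of the twin off its two spheres -/
theorem xft_glue {κ : ι → ℝ × ℂ × ℝ → P} {M : ι → Sl} {κ' : ℝ × ℂ × ℝ → P} (hκ : Sys J κ ![κ'])
    (Φ : FT J κ M (![] : Fin 0 → ℝ × ℂ × ℝ → P) V) {X : Type*} [TopologicalSpace X] [ChartedSpace E4 X]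
    (D : TwMF (𝓡 4) (fun _ : Unit => fun q => Φ.A (κ' q)) X) {z : S4} (hz : fh z ≠ 0) (h1 : c1 z ≠ 0)
    (h2 : c2 z ≠ 0) : ∃ p, ¬ OnF κ p ∧ ¬ OnF ![κ'] p ∧ D.Q () z = D.A (Φ.A p) := by
  have h3 := D.glue () z (Complex.arg (fh z) / (2 * Real.pi)) (Complex.arg (c2 z) / (2 * Real.pi))
    (Complex.arg (c1 z) / (2 * Real.pi)) hz h1 h2 RSG.ex_arg.symm RSG.ex_arg.symm RSG.ex_arg.symm
  have hlt := LKT.vQ_lt hz
  have hpos : 0 < 2 * ‖c1 z‖ * ‖c2 z‖ := by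
    have := norm_pos_iff.2 h1
    have := norm_pos_iff.2 h2
    positivity
  have hn : ‖((2 * ‖c1 z‖ * ‖c2 z‖ : ℝ) : ℂ) * ex (Complex.arg (c2 z) / (2 * Real.pi))‖ < 1 := by
    rw [norm_mul, RSG.ex_norm, mul_one, Complex.norm_real, Real.norm_eq_abs, abs_of_pos hpos]
    unfold LKT.vQ at hlt
    simpa [norm_mul] using hlt
  have hne : ((2 * ‖c1 z‖ * ‖c2 z‖ : ℝ) : ℂ) * ex (Complex.arg (c2 z) / (2 * Real.pi)) ≠ 0 := by
    refine mul_ne_zero ?_ (RSG.ex_ne _)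
    exact Complex.ofReal_ne_zero.2 hpos.ne'
  exact ⟨_, ft_notOn hκ _ _ hn, xft_self' hκ _ _ hn hne, h3⟩

theorem ft_add {κ : ι → ℝ × ℂ × ℝ → P} {M : ι → Sl} {κ' : ℝ × ℂ × ℝ → P} (hκ : Sys J κ ![κ'])
    (Φ : FT J κ M (![] : Fin 0 → ℝ × ℂ × ℝ → P) V) {X : Type*} [TopologicalSpace X] [ChartedSpace E4 X]
    (D : TwMF (𝓡 4) (fun _ : Unit => fun q => Φ.A (κ' q)) X) : Nonempty (FT J κ M ![κ'] X) := by
  have h0 : ‖(0 : ℂ)‖ < 1 := by rw [norm_zero]; exact one_pos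
  refine ⟨{
    A := fun p => D.A (Φ.A p)
    F := fun i q => D.A (Φ.F i q)
    Q := fun _ => D.Q ()
    A_loc := ?_
    A_inj := ?_
    F_per1 := ?_
    F_per2 := ?_
    F_loc := ?_
    F_inj := ?_
    glueF := ?_
    Q_loc := ?_
    Q_inj := ?_
    glueQ := ?_
    disjF := ?_
    disjQ := ?_
    disjFQ := ?_
    cover := ?_ }⟩
  · intro p hp hp'
    exact IsLocalDiffeomorphAt.comp (hf := Φ.A_loc p hp (xft_nil _)) (g := D.A)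
      (hg := D.A_loc _ (xft_offA hκ Φ hp hp')) ..
  · intro p p' hp hp' hq hq' h
    exact Φ.A_inj p p' hp (xft_nil _) hq (xft_nil _)
      (D.A_inj _ _ (xft_offA hκ Φ hp hp') (xft_offA hκ Φ hq hq') h)
  · intro i l s ξ hξ
    exact congrArg D.A (Φ.F_per1 i l s ξ hξ)
  · intro i l s ξ hξ
    exact congrArg D.A (Φ.F_per2 i l s ξ hξ)
  · intro i l s ξ hξ
    exact IsLocalDiffeomorphAt.comp (hf := Φ.F_loc i l s ξ hξ) (g := D.A)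
      (hg := D.A_loc _ (xft_offF hκ Φ i l s hξ)) ..
  · intro i l s ξ i' l' s' ξ' hξ hξ' h
    exact Φ.F_inj i l s ξ i' l' s' ξ' hξ hξ'
      (D.A_inj _ _ (xft_offF hκ Φ i l s hξ) (xft_offF hκ Φ i' l' s' hξ') h)
  · intro i l s r φ hr hr1
    exact congrArg D.A (Φ.glueF i l s r φ hr hr1)
  · intro i z hz
    exact D.Q_loc () z hz
  · intro i z i' z' hz hz' h
    exact ⟨Subsingleton.elim _ _, (D.Q_inj () z () z' hz hz' h).2⟩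
  · intro i z l m u hz h1 h2 e1 e2 e3
    obtain rfl : i = 0 := Subsingleton.elim _ _
    exact D.glue () z l m u hz h1 h2 e1 e2 e3
  · intro i l s p hp hp' h
    exact Φ.disjF i l s p hp (xft_nil _)
      (D.A_inj _ _ (xft_offF hκ Φ i l s h0) (xft_offA hκ Φ hp hp') h)
  · intro i z p hz h1 hp hp'
    exact D.disj () z (Φ.A p) hz h1 (xft_offA hκ Φ hp hp')
  · intro i l s i' z hz h
    by_cases h1 : c1 z = 0
    · exact D.disj () z _ hz (Or.inl h1) (xft_offF hκ Φ i l s h0) h.symm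
    · by_cases h2 : c2 z = 0
      · exact D.disj () z _ hz (Or.inr h2) (xft_offF hκ Φ i l s h0) h.symm
      · obtain ⟨p, hp, hp', h3⟩ := xft_glue hκ Φ D hz h1 h2
        exact Φ.disjF i l s p hp (xft_nil _)
          (D.A_inj _ _ (xft_offF hκ Φ i l s h0) (xft_offA hκ Φ hp hp') (h.trans h3))
  · intro q
    rcases D.cover q with ⟨x, hx, rfl⟩ | ⟨⟨⟩, z, hz, rfl⟩
    · rcases Φ.cover x with ⟨p, hp, -, rfl⟩ | ⟨i, l, s, rfl⟩ | ⟨i, -⟩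
      · refine Or.inl ⟨p, hp, ?_, rfl⟩
        rintro ⟨j, l, t, hj⟩
        obtain rfl : j = 0 := Subsingleton.elim _ _
        exact hx ⟨(), l, t, congrArg Φ.A hj⟩
      · exact Or.inr (Or.inl ⟨i, l, s, rfl⟩)
      · exact i.elim0
    · by_cases h1 : c1 z = 0
      · exact Or.inr (Or.inr ⟨0, z, hz, Or.inl h1, rfl⟩)
      · by_cases h2 : c2 z = 0
        · exact Or.inr (Or.inr ⟨0, z, hz, Or.inr h2, rfl⟩)
        · obtain ⟨p, hp, hp', h3⟩ := xft_glue hκ Φ D hz h1 h2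
          exact Or.inl ⟨p, hp, hp', h3⟩

end

end Pool.Agent.MMV
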