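import Pool.Agent.MMV.Defs
import Pool.Agent.LKT.TwS
import Pool.Agent.KNH.CirM

/-!
# MMV/XTm: the times of the thick circle   (difficulty 2)

`LKT/TwA`: `gam κ' (u, y) = κ' (an e, vyp y, u)`, `e = gV (Rm 0) (zyp y / ‖zyp y‖)`, `an e = arg e / 2π`, `‖e‖ = 1`, `ex (an e) = e` (`LKT.ex_an1`).
* `gV_neg`: `gV R e' = GI (R e') / R`, `re (GI z) = re z + im z ² / (2 (1 + re z))`, `R = Rm 0 = √(1 - 25/64) = √39/8 < 63/80` (`μr 0 = 5/8`), `re zyp = 2‖y‖² - 1 ≤ -7/8`, `|im zyp| ≤ 1/2`, `‖zyp y‖² = 1 - ‖vyp y‖²`, so `e' = zyp/‖zyp‖` has `re e' ≤ -13/15` (`re ≤ -7/8`, `‖zyp‖ ≤ 1`... : `re e' ≤ -7/8`).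
  `z = R e'`: `re z ≤ -7R/8`, `im z² ≤ R² - 49 R²/64 = 15 R²/64`, `1 + re z ≥ 1 - R > 0`; `re (GI z) ≤ re z + im z²/(2 (1 + re z))`; with `x = re z`, `im z² = R² - x²`: `2 x (1 + x) + R² - x² = x² + 2 x + R² < 0` for `-R ≤ x ≤ -7R/8` (`R² = 39/64`: at `x = -R`: `2 R² - 2 R < 0`; at `x = -7R/8`: `(49/64) R² - (7/4) R + R² < 0`; convex in `x`).
* `gam_time`: `re e < 0` gives `|an e| > 1/4` (`Complex.arg`: `Real.cos (arg) = re e < 0`); `t = an e` or `t = an e + 1` is in `(1/4, 3/4)` (`an e ∈ (-1/2, 1/2]`), `circ (t + 1) = circ t`; `‖vyp y‖ < 1` (`≤ 2‖y‖`, see `LKT/TwY`).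
-/

open scoped ContDiff Manifold Topology unitInterval
open Set Filter
open Pool.Agent.RSG (E3 E4 S2 S3 S4 ex cj c1 c2 ht fh pS3 pS4)
open Pool.Agent.PTH (SP ISP)
open Pool.Agent.KNH (circ)

namespace Pool.Agent.MMV

theorem xtm_num {R a b : ℝ} (hR : R ^ 2 = 39 / 64) (hR0 : 0 < R) (hn : a ^ 2 + b ^ 2 = 1) (ha : a ≤ -7 / 8) :
    R * a + (R * b) ^ 2 / (2 * (1 + R * a)) < 0 := by
  have hR1 : R < 63 / 80 := by nlinarith
  have ha1 : -1 ≤ a := by nlinarith [sq_nonneg b]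
  have hpos : 0 < 2 * (1 + R * a) := by nlinarith
  have hb : b ^ 2 = 1 - a ^ 2 := by linarith
  have e : R * a + (R * b) ^ 2 / (2 * (1 + R * a)) = (R * (2 * a + R * (a ^ 2 + 1))) / (2 * (1 + R * a)) := by
    have hne : 1 + R * a ≠ 0 := by nlinarith
    rw [mul_pow, hb]
    field_simp
    ring
  rw [e]
  apply div_neg_of_neg_of_pos _ hpos
  apply mul_neg_of_pos_of_neg hR0
  nlinarith

theorem gV_neg {y : E3} (hy : ‖y‖ < 1 / 4) : (LKT.gV (LKT.Rm 0) (LKT.zyp y / ‖LKT.zyp y‖)).re < 0 := by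
  have hR := LKT.TwY_R
  have hR2 : LKT.Rm 0 ^ 2 = 39 / 64 := by
    have h1 : LKT.Rm 0 = Real.sqrt (1 - LKT.μr 0 ^ 2) := rfl
    rw [h1, LKT.μ_small (by norm_num), Real.sq_sqrt (by norm_num)]
    norm_num
  have hun := LKT.TwY_un hy
  set e : ℂ := LKT.zyp y / ‖LKT.zyp y‖ with he
  have hsq : e.re ^ 2 + e.im ^ 2 = 1 := by
    have h1 : Complex.normSq e = 1 := by
      rw [Complex.normSq_eq_norm_sq, hun, one_pow]
    rw [Complex.normSq_apply] at h1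
    linarith
  have hre : e.re ≤ -7 / 8 := by
    have h1 : e.re = (LKT.zyp y).re / ‖LKT.zyp y‖ := by
      rw [he]
      exact Complex.div_ofReal_re _ _
    have h2 : 0 < ‖LKT.zyp y‖ := norm_pos_iff.mpr (LKT.TwY_ne hy)
    have h3 : ‖LKT.zyp y‖ ≤ 1 := by
      have h4 := LKT.TwY_zy hy
      nlinarith [sq_nonneg ‖LKT.vyp y‖]
    have h5 : (LKT.zyp y).re = 2 * ‖y‖ ^ 2 - 1 := rfl
    have h6 := LKT.TwY_lt hy
    rw [h1, div_le_iff₀ h2, h5]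
    nlinarith
  have h7 : (LKT.gV (LKT.Rm 0) e).re = (LKT.Rm 0 * e.re + (LKT.Rm 0 * e.im) ^ 2 / (2 * (1 + LKT.Rm 0 * e.re))) / LKT.Rm 0 := by
    unfold LKT.gV LKT.GI
    rw [Complex.div_ofReal_re]
    simp
  rw [h7]
  exact div_neg_of_neg_of_pos (xtm_num hR2 hR.1 hsq hre) hR.1

theorem gam_time {κ' : ℝ × ℂ × ℝ → SP} (ht : ∀ (l : ℝ) (v : ℂ) (u : ℝ), ‖v‖ < 1 → (κ' (l, v, u)).2 = circ l)
    {y : E3} (hy : ‖y‖ < 1 / 4) (u : ℝ) :
    ∃ (w : S3) (t : ℝ), 1 / 4 < t ∧ t < 3 / 4 ∧ LKT.gam κ' (u, y) = (w, circ t) := by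
  have hneg := gV_neg hy
  set e : ℂ := LKT.gV (LKT.Rm 0) (LKT.zyp y / ‖LKT.zyp y‖) with he
  have hv : ‖LKT.vyp y‖ < 1 := lt_trans (LKT.vy_norm hy) (by norm_num)
  have h1 : LKT.gam κ' (u, y) = κ' (LKT.an e, LKT.vyp y, u) := rfl
  have h2 : (κ' (LKT.an e, LKT.vyp y, u)).2 = circ (LKT.an e) := ht _ _ _ hv
  have hpi := Real.pi_pos
  have h3 : Real.pi / 2 < |Complex.arg e| := by
    by_contra hc
    push Not at hc
    have h4 := (Complex.abs_arg_le_pi_div_two_iff (z := e)).mp hc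
    linarith
  have h5 := Complex.arg_le_pi e
  have h6 := Complex.neg_pi_lt_arg e
  have han : LKT.an e = Complex.arg e / (2 * Real.pi) := rfl
  rcases lt_or_ge 0 (Complex.arg e) with h7 | h7
  · rw [abs_of_pos h7] at h3
    refine ⟨(κ' (LKT.an e, LKT.vyp y, u)).1, LKT.an e, ?_, ?_, ?_⟩
    · rw [han, lt_div_iff₀ (by positivity)]
      linarith
    · rw [han, div_lt_iff₀ (by positivity)]
      linarith
    · rw [h1, ← h2]
  · rw [abs_of_nonpos h7] at h3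
    refine ⟨(κ' (LKT.an e, LKT.vyp y, u)).1, LKT.an e + 1, ?_, ?_, ?_⟩
    · have : -(1 / 2) < LKT.an e := by
        rw [han, lt_div_iff₀ (by positivity)]
        linarith
      linarith
    · have : LKT.an e < -(1 / 4) := by
        rw [han, div_lt_iff₀ (by positivity)]
        linarith
      linarith
    · have h8 : circ (LKT.an e + 1) = circ (LKT.an e) := by
        rw [KNH.circ_eq]
        exact ⟨1, by norm_num⟩
      rw [h1, h8, ← h2]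

end Pool.Agent.MMV
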