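import Pool.Agent.MMV.LB
import Pool.Agent.MMV.TM
import Pool.Agent.MMV.StG
import Pool.Agent.MMV.XFt
import Pool.Agent.MMV.XTm
import Pool.Agent.LKT.ExJ

/-!
# MMV/ExF: existence of the torus filling structure on surgered doubles (top theorem of block IV)
-/

open scoped ContDiff Manifold Topology unitInterval
open Set Filter
open Pool.Agent.RSG (E3 E4 S2 S3 S4 ex cj c1 c2 ht fh pS3 pS4)
open Pool.Agent.RBM (ThickT OnT Box)
open Pool.Agent.LKF (OnF LinkT)
open Pool.Agent.PTH (SP ISP)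
open Pool.Agent.KNH (circ)
open Pool.Agent.LKT (s1 s2)

namespace Pool.Agent.MMV

section conv
variable {V : Type*} [TopologicalSpace V] [ChartedSpace E4 V]

theorem exf_thick {γ : ℝ × E3 → V} {ε : ℝ} (h : LKT.ThickC (𝓡 4) γ ε) : ACB.Thick γ ε :=
  ⟨h.pos, h.per, h.loc, h.inj⟩

def exf_toJ {κ : Unit → ℝ × E3 → V} {ε : ℝ} {X : Type*} [TopologicalSpace X] [ChartedSpace E4 X]
    (S : ACB.Surg κ ε X) : LKT.SurgJ (𝓡 4) κ ε X where
  A := S.A
  Q := S.Q
  A_loc := S.A_loc
  A_inj := S.A_inj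
  Q_loc := S.Q_loc
  glue := S.glue
  Q_inj := S.Q_inj
  disj := S.disj
  cover := S.cover

/-- congruence on the tube -/
theorem exf_congr {κ κ' : Unit → ℝ × E3 → V} {ε : ℝ} (h0 : 0 < ε) {X : Type*} [TopologicalSpace X] [ChartedSpace E4 X]
    (S : ACB.Surg κ ε X) (he : ∀ i (l : ℝ) (v : E3), ‖v‖ < ε → κ' i (l, v) = κ i (l, v)) :
    Nonempty (ACB.Surg κ' ε X) := by
  have key0 : ∀ i (l : ℝ), κ' i (l, 0) = κ i (l, 0) := fun i l => he i l 0 (by rw [norm_zero]; exact h0)
  have hoff : ∀ p, ACB.Off κ' p ↔ ACB.Off κ p := by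
    intro p
    constructor
    · intro hp i l
      rw [← key0]
      exact hp i l
    · intro hp i l
      rw [key0]
      exact hp i l
  exact ⟨{ A := S.A
           Q := S.Q
           A_loc := fun p hp => S.A_loc p ((hoff p).mp hp)
           A_inj := fun p p' hp hp' => S.A_inj p p' ((hoff p).mp hp) ((hoff p').mp hp')
           Q_loc := S.Q_loc
           glue := by
             intro i l r v hr hr'
             rw [S.glue i l r v hr hr']
             congr 1
             refine (he i l _ ?_).symm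
             rw [norm_smul, Real.norm_of_nonneg hr.le, norm_eq_of_mem_sphere v, mul_one]
             exact hr'
           Q_inj := S.Q_inj
           disj := fun i v p hp => S.disj i v p ((hoff p).mp hp)
           cover := by
             intro q
             rcases S.cover q with ⟨p, hp, h⟩ | h3
             · exact Or.inl ⟨p, (hoff p).mpr hp, h⟩
             · exact Or.inr h3 }⟩

/-- the pair `![ρ, γ]` from `Option Unit` -/
theorem exf_pair {ρ γ : ℝ × E3 → V} {ε : ℝ} {X : Type*} [TopologicalSpace X] [ChartedSpace E4 X]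
    (S : ACB.Surg (fun o : Option Unit => o.elim γ fun _ => ρ) ε X) : Nonempty (ACB.Surg ![ρ, γ] ε X) := by
  have hoff : ∀ p, ACB.Off ![ρ, γ] p ↔ ACB.Off (fun o : Option Unit => o.elim γ fun _ => ρ) p := by
    intro p
    constructor
    · intro hp o l
      cases o with
      | none => exact hp 1 l
      | some _ => exact hp 0 l
    · intro hp i l
      fin_cases i
      · exact hp (some ()) l
      · exact hp none l
  exact ⟨{ A := S.A
           Q := ![S.Q (some ()), S.Q none]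
           A_loc := fun p hp => S.A_loc p ((hoff p).mp hp)
           A_inj := fun p p' hp hp' => S.A_inj p p' ((hoff p).mp hp) ((hoff p').mp hp')
           Q_loc := by
             intro i
             fin_cases i
             · exact S.Q_loc (some ())
             · exact S.Q_loc none
           glue := by
             intro i
             fin_cases i
             · exact S.glue (some ())
             · exact S.glue none
           Q_inj := by
             intro i i' v v' h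
             fin_cases i <;> fin_cases i'
             · exact ⟨rfl, (S.Q_inj (some ()) (some ()) v v' h).2⟩
             · exact absurd (S.Q_inj (some ()) none v v' h).1 (by simp)
             · exact absurd (S.Q_inj none (some ()) v v' h).1 (by simp)
             · exact ⟨rfl, (S.Q_inj none none v v' h).2⟩
           disj := by
             intro i v p hp
             fin_cases i
             · exact S.disj (some ()) v p ((hoff p).mp hp)
             · exact S.disj none v p ((hoff p).mp hp)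
           cover := by
             intro q
             rcases S.cover q with ⟨p, hp, h⟩ | ⟨o, v, h⟩
             · exact Or.inl ⟨p, (hoff p).mpr hp, h⟩
             · cases o with
               | none => exact Or.inr ⟨1, v, h⟩
               | some _ => exact Or.inr ⟨0, v, h⟩ }⟩

end conv

/-- a manifold obtained from the double by surgery on two circles in the classes `x^b y^(-d)`, `x^a G y^c G⁻¹` -/
theorem ex_ft {M : Type} [TopologicalSpace M] [ChartedSpace E4 M] [T2Space M] [IsManifold (𝓡 4) ∞ M]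
    {k₁ k₂ : ℝ × E3 → M} {ε : ℝ} (D : ACB.Dbl (-1 / 2) (1 / 2) k₁ k₂ ε) {q : M} {lam₁ lam₂ : ℝ → M}
    (hG : Gens D q lam₁ lam₂) {x y : FundamentalGroup M q} (hx : BCls q lam₁ x) (hy : BCls q lam₂ y)
    {M₁ M₂ : Sl} (h₁ : M₁.a * M₁.d - M₁.b * M₁.c = 1) (h₂ : M₂.a * M₂.d - M₂.b * M₂.c = 1)
    {G : FreeGroup (Fin 2)} {b : ℂ × ℝ × ℝ → SP} {l₁ l₂ η : ℝ} (hS : Strip ISP κS₁ κS₂ b l₁ l₂ η)
    (ht : ∀ (z : ℂ) (s t : ℝ), ‖z‖ < 4 → |s| < 1 → (b (z, s, t)).2 = circ t)
    (hj : ∀ (N : Type) [TopologicalSpace N] (j : SP → N) (q : N),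
        (∀ w : S3, ¬ OnF ![κS₁, κS₂] (w, circ (1 / 2)) → ContinuousAt j (w, circ (1 / 2))) → j p₀ = q →
        ∀ g₁ g₂ : FundamentalGroup N q, BCls q (fun τ => j (zl₁ τ)) g₁ → BCls q (fun τ => j (zl₂ τ)) g₂ →
          ACB.Cls q (fun u => j (κγ b (1 / 2, 0, u)))
            (g₁ * FreeGroup.lift ![g₁, g₂] G * g₂ * (FreeGroup.lift ![g₁, g₂] G)⁻¹)) :
    ∃ (X : Type) (_ : TopologicalSpace X) (_ : ChartedSpace E4 X) (_ : T2Space X),
      Nonempty (FT ISP ![κS₁, κS₂] ![M₁, M₂] ![κγ b] X) ∧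
      ACB.Two q (x ^ M₁.a * y ^ (-M₂.a)) (x ^ (-M₁.c) * FreeGroup.lift ![x ^ (-M₁.c), y ^ (-M₂.c)] G * y ^ (-M₂.c) *
        (FreeGroup.lift ![x ^ (-M₁.c), y ^ (-M₂.c)] G)⁻¹) X := by
  obtain ⟨ρ, ε₀, j, hρ, hcl, jloc, jinj, jdisj, jp, jz1, jz2, hV⟩ := l1 D hG hx hy h₁ h₂
  obtain ⟨V, iV1, iV2, iV3, iV4, ⟨S⟩⟩ := ACB.exists_surg hρ
  obtain ⟨Φ, hΦ⟩ := hV V S
  have hsys : Sys ISP ![κS₁, κS₂] ![κγ b] := strip_sys hS
  have hL := linkA hsys Φ
  have hLP : LinkT ISP (fun _ : Unit => κγ b) := by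
    refine ⟨fun _ => hsys.thick (Sum.inr 0), ?_⟩
    intros
    rfl
  obtain ⟨tT, -, tcore, tX⟩ := LKT.twm_gam hL
  obtain ⟨tTP, tin, tcoreP, -⟩ := LKT.twm_gam hLP
  have hγV : ACB.Thick (LKT.gam fun q => Φ.A (κγ b q)) (1 / 4) := exf_thick (tT.thick ())
  obtain ⟨X, iX1, iX2, iX3, iX4, ⟨S'⟩⟩ := ACB.exists_surg hγV
  obtain ⟨DX, -⟩ := tX X (exf_toJ S')
  refine ⟨X, iX1, iX2, iX4, ft_add hsys Φ DX, ?_⟩
  -- the circle in `M`
  have hbt : ∀ (l : ℝ) (v : ℂ) (u : ℝ), ‖v‖ < 1 → (κγ b (l, v, u)).2 = circ l := by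
    intro l v u hv
    refine ht _ _ _ ?_ ?_
    · rw [norm_mul, RSG.ex_norm, mul_one, Complex.norm_real, Real.norm_eq_abs, abs_lt]
      have h1 := Complex.abs_re_le_norm v
      have h2 := abs_le.1 (h1.trans hv.le)
      constructor <;> linarith [h2.1, h2.2]
    · have h1 := Complex.abs_im_le_norm v
      have h2 := abs_le.1 (h1.trans hv.le)
      rw [abs_lt]
      constructor <;> linarith [h2.1, h2.2]
  have htime : ∀ (u : ℝ) (y : E3), ‖y‖ < 1 / 4 → ∃ (w : S3) (t : ℝ), 1 / 4 < t ∧ t < 3 / 4 ∧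
      LKT.gam (κγ b) (u, y) = (w, circ t) := fun u y hy => gam_time hbt hy u
  have hoffg : ∀ (u : ℝ) (y : E3), ‖y‖ < 1 / 4 → ¬ OnF ![κS₁, κS₂] (LKT.gam (κγ b) (u, y)) := by
    intro u y hy
    obtain ⟨l, v, hv, he⟩ := tin () u y hy
    have he' : LKT.gam (κγ b) (u, y) = κγ b (l, v, u) := he
    rw [he']
    exact ft_notOn hsys l u (by linarith)
  have hAj : ∀ (u : ℝ) (y : E3), ‖y‖ < 1 / 4 → Φ.A (LKT.gam (κγ b) (u, y)) = S.A (j (LKT.gam (κγ b) (u, y))) := by
    intro u y hy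
    obtain ⟨w, t, t1, t2, he⟩ := htime u y hy
    have ho := hoffg u y hy
    rw [he] at ho ⊢
    exact hΦ w t t1 t2 ho
  have hjl : ∀ (u : ℝ) (y : E3), ‖y‖ < 1 / 4 → IsLocalDiffeomorphAt ISP (𝓡 4) ∞ j (LKT.gam (κγ b) (u, y)) := by
    intro u y hy
    obtain ⟨w, t, t1, t2, he⟩ := htime u y hy
    have ho := hoffg u y hy
    rw [he] at ho ⊢
    exact jloc w t t1 t2 ho
  have hji : ∀ (u : ℝ) (y : E3) (u' : ℝ) (y' : E3), ‖y‖ < 1 / 4 → ‖y'‖ < 1 / 4 →
      j (LKT.gam (κγ b) (u, y)) = j (LKT.gam (κγ b) (u', y')) → LKT.gam (κγ b) (u, y) = LKT.gam (κγ b) (u', y') := by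
    intro u y u' y' hy hy' h
    obtain ⟨w, t, t1, t2, he⟩ := htime u y hy
    obtain ⟨w', t', t1', t2', he'⟩ := htime u' y' hy'
    have ho := hoffg u y hy
    have ho' := hoffg u' y' hy'
    rw [he] at ho h ⊢
    rw [he'] at ho' h ⊢
    obtain ⟨e1, e2⟩ := jinj w w' t t' t1 t2 t1' t2' ho ho' h
    rw [e1, e2]
  have hTP := tTP.thick ()
  have hγM : ACB.Thick (fun a => j (LKT.gam (κγ b) a)) (1 / 4) := by
    refine ⟨by norm_num, ?_, ?_, ?_⟩
    · intro l v hv
      exact congrArg j (hTP.per l v hv)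
    · intro l v hv
      exact IsLocalDiffeomorphAt.comp (hf := hTP.loc l v hv) (hg := hjl l v hv) ..
    · intro l v l' v' hv hv' h
      exact hTP.inj l v l' v' hv hv' (hji l v l' v' hv hv' h)
  have hd : ∀ (l : ℝ) (v : E3) (l' : ℝ) (v' : E3), ‖v‖ < 1 / 4 → ‖v'‖ < ε₀ →
      j (LKT.gam (κγ b) (l, v)) ≠ ρ (l', v') := by
    intro l v l' v' hv hv'
    obtain ⟨w, t, t1, t2, he⟩ := htime l v hv
    have ho := hoffg l v hv
    rw [he] at ho ⊢
    exact jdisj w t t1 t2 ho l' v' hv'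
  -- common radius
  obtain ⟨ε₁, e0, e1, e2⟩ : ∃ ε₁ : ℝ, 0 < ε₁ ∧ ε₁ ≤ ε₀ ∧ ε₁ ≤ 1 / 4 :=
    ⟨min ε₀ (1 / 4), lt_min hρ.pos (by norm_num), min_le_left _ _, min_le_right _ _⟩
  have hTub : ACB.Tubes (fun o : Option Unit => o.elim (fun a => j (LKT.gam (κγ b) a)) fun _ => ρ) ε₁ := by
    refine ⟨?_, ?_⟩
    · intro o
      cases o with
      | none => exact hγM.mono e0 e2
      | some _ => exact hρ.mono e0 e1
    · intro o o' ho l v l' v' hv hv'
      cases o with
      | none =>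
        cases o' with
        | none => exact absurd rfl ho
        | some _ => exact hd l v l' v' (lt_of_lt_of_le hv e2) (lt_of_lt_of_le hv' e1)
      | some _ =>
        cases o' with
        | none => exact (hd l' v' l v (lt_of_lt_of_le hv' e2) (lt_of_lt_of_le hv e1)).symm
        | some _ => exact absurd rfl ho
  obtain ⟨S''⟩ := exf_congr (κ' := fun _ : Unit => fun x => (S.mono e1).A (j (LKT.gam (κγ b) x))) e0 (S'.mono e2) (by
    intro i l v hv
    exact (hAj l v (lt_of_lt_of_le hv e2)).symm)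
  obtain ⟨SO⟩ := LKT.surg_opt hTub (S.mono e1) S''
  obtain ⟨SP2⟩ := exf_pair SO
  refine ⟨ρ, fun a => j (LKT.gam (κγ b) a), ⟨ε₁, ?_, ⟨SP2⟩⟩, hcl, ?_⟩
  · refine ⟨?_, ?_⟩
    · intro i
      fin_cases i
      · exact hρ.mono e0 e1
      · exact hγM.mono e0 e2
    · intro i i' hi l v l' v' hv hv'
      fin_cases i <;> fin_cases i'
      · exact absurd rfl hi
      · exact (hd l' v' l v (lt_of_lt_of_le hv' e2) (lt_of_lt_of_le hv e1)).symm
      · exact hd l v l' v' (lt_of_lt_of_le hv e2) (lt_of_lt_of_le hv' e1)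
      · exact absurd rfl hi
  · have h := hj M j q ?_ jp _ _ jz1 jz2
    · have e : ACB.core (fun a => j (LKT.gam (κγ b) a)) = fun u => j (κγ b (1 / 2, 0, u)) := by
        funext u
        exact congrArg j (tcoreP () u)
      rw [e]
      exact h
    · intro w hw
      exact CSG.ld_continuousAt (jloc w (1 / 2) (by norm_num) (by norm_num) hw)

end Pool.Agent.MMV
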