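import Pool.Agent.MMV.LSd
import Pool.Agent.LKT.UnA

/-!
# MMV/LAd
: a sheared path is admissible   (difficulty 3)

`c τ² < 1/16` at the ends: `cz² = 768/37249 < 1/16`, so `F.near` gives `f (cz², 0, 1/2) = (0, 1/2)`, and `f (cz², m, 1/2 + n) = (0, 1/2) + L (m, n)` (`F.equi` with `z = 0`, `t = 1/2`).  Continuity: `F.f_smooth.continuous`.
Off the shadow: let `(z', t') = F.f (c², z, t)` and `Shd c z' t'`.  Then `√(1 - c²) ≥ 1023/1025`, so `c² < 1/16`, and `cos (2πz') ≥ 1023/1025`: there is `i : ℤ` with `|z' - i| < 1/8` (`i = round z'`, `|z' - i| ≤ 1/2`, and `cos (2πx) < 9/10` for `1/8 ≤ |x| ≤ 1/2`); `circ t' = -1`: `t' = 1/2 + j`, `j : ℤ` (`KNH.circ_eq`, `LKT.coe_circ`, `ex (1/2) = -1`).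
With `(i', j') = (L.d i - L.b j, -L.c i + L.a j)` (so `L (i', j') = (i, j)`, `det = 1`): `F.f (c², z' - i + i', 1/2 + j') = F.f (c², z' - i, 1/2) + (i, j) = (z', t')` (`F.near`), so `z = z' - i + i'`, `t = 1/2 + j'` (`F.gf`), and `Shd c z t` (`cos` and `circ` are periodic): contradiction.
-/

open scoped ContDiff Manifold Topology unitInterval
open Set Filter
open Pool.Agent.CSG (stp)
open Pool.Agent.RSG (E3 E4 S2 S3 S4 ex cj c1 c2 ht fh pS2 pS3 pS4)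
open Pool.Agent.RBM (ThickT OnT Box)
open Pool.Agent.LKF (OnF)
open Pool.Agent.PTH (SP ISP)
open Pool.Agent.KNH (circ)
open Pool.Agent.LKT (s1 s2 dir)

namespace Pool.Agent.MMV

theorem lad_cz : cz ^ 2 < 1 / 16 := by
  unfold cz
  rw [div_pow, mul_pow, Real.sq_sqrt (by norm_num)]
  norm_num

theorem lad_cos_int (x : ℝ) (i : ℤ) : Real.cos (2 * Real.pi * (x + i)) = Real.cos (2 * Real.pi * x) := by
  rw [show 2 * Real.pi * (x + i) = 2 * Real.pi * x + i * (2 * Real.pi) by ring]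
  exact Real.cos_add_int_mul_two_pi _ _

theorem lad_near {x : ℝ} (h : |x| ≤ 1 / 2) (hc : 1023 / 1025 ≤ Real.cos (2 * Real.pi * x)) : |x| < 1 / 8 := by
  by_contra hlt
  have hlt' : 1 / 8 ≤ |x| := not_lt.mp hlt
  have hpi := Real.pi_pos
  have h1 : Real.cos (2 * Real.pi * x) = Real.cos (2 * Real.pi * |x|) := by
    rcases abs_cases x with ⟨h2, _⟩ | ⟨h2, _⟩
    · rw [h2]
    · rw [h2, mul_neg, Real.cos_neg]
  have h2 : Real.cos (2 * Real.pi * |x|) ≤ Real.cos (Real.pi / 4) := by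
    apply Real.cos_le_cos_of_nonneg_of_le_pi (by positivity)
    · nlinarith
    · nlinarith
  rw [Real.cos_pi_div_four] at h2
  have h3 : Real.sqrt 2 < 1.5 := by
    rw [Real.sqrt_lt' (by norm_num)]
    norm_num
  rw [h1] at hc
  linarith

theorem lad_circ {t : ℝ} : ((circ t : Circle) : ℂ) = -1 ↔ ∃ j : ℤ, t = 1 / 2 + j := by
  rw [LKT.coe_circ, ← RSG.ex_half, eq_comm, RSG.ex_eq_iff]

theorem adm_shear {L : Sl} (h : L.a * L.d - L.b * L.c = 1) (F : TFam L) {c z t : ℝ → ℝ} {m n : ℤ} (hA : Adm c z t m n) :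
    Adm c (fun τ => (F.f (c τ ^ 2, z τ, t τ)).1) (fun τ => (F.f (c τ ^ 2, z τ, t τ)).2) (L.a * m + L.b * n) (L.c * m + L.d * n) := by
  have hcont : ContinuousOn (fun τ => F.f (c τ ^ 2, z τ, t τ)) (Icc 0 1) :=
    F.f_smooth.continuous.comp_continuousOn
      ((hA.c_cont.pow 2).prodMk (hA.z_cont.prodMk hA.t_cont))
  have h0 : F.f (c 0 ^ 2, z 0, t 0) = (0, 1 / 2) := by
    rw [hA.c0, hA.z0, hA.t0]
    exact F.near _ _ _ lad_cz (by norm_num) (by norm_num)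
  have h1 : F.f (c 1 ^ 2, z 1, t 1) = (0, 1 / 2) + ((L.a * m + L.b * n : ℝ), (L.c * m + L.d * n : ℝ)) := by
    rw [hA.c1, hA.z1, hA.t1]
    have h2 := F.equi (cz ^ 2) 0 (1 / 2) m n
    rw [zero_add, F.near _ 0 (1 / 2) lad_cz (by norm_num) (by norm_num)] at h2
    exact h2
  refine ⟨hA.c_cont, hcont.fst, hcont.snd, hA.c0, hA.c1, ?_, ?_, ?_, ?_, hA.bd, ?_⟩
  · show (F.f (c 0 ^ 2, z 0, t 0)).1 = 0
    rw [h0]
  · show (F.f (c 1 ^ 2, z 1, t 1)).1 = _
    rw [h1]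
    push_cast
    simp
  · show (F.f (c 0 ^ 2, z 0, t 0)).2 = 1 / 2
    rw [h0]
  · show (F.f (c 1 ^ 2, z 1, t 1)).2 = _
    rw [h1]
    push_cast
    simp
  · intro τ hτ hS
    obtain ⟨hS1, hS2⟩ := hS
    obtain ⟨hc0, hc1⟩ := hA.bd τ hτ
    apply hA.off τ hτ
    set C := c τ with hC
    set z' := (F.f (C ^ 2, z τ, t τ)).1 with hz'
    set t' := (F.f (C ^ 2, z τ, t τ)).2 with ht'
    obtain ⟨j, hj⟩ := lad_circ.mp hS1
    have hs0 : 0 ≤ Real.sqrt (1 - C ^ 2) := Real.sqrt_nonneg _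
    have hs1 : Real.sqrt (1 - C ^ 2) ≤ 1 := by
      rw [Real.sqrt_le_left zero_le_one]
      nlinarith
    have hcos1 : Real.cos (2 * Real.pi * z') ≤ 1 := Real.cos_le_one _
    have hsq : 1023 / 1025 ≤ Real.sqrt (1 - C ^ 2) := by nlinarith
    have hcpos : 0 < Real.cos (2 * Real.pi * z') := by
      by_contra hle
      have h2 := mul_nonpos_of_nonneg_of_nonpos hs0 (not_lt.mp hle)
      linarith
    have hcos : 1023 / 1025 ≤ Real.cos (2 * Real.pi * z') := by nlinarith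
    have hC2 : C ^ 2 < 1 / 16 := by
      have h2 : (1023 / 1025 : ℝ) ^ 2 ≤ 1 - C ^ 2 := by
        have h3 : Real.sqrt (1 - C ^ 2) ^ 2 = 1 - C ^ 2 := Real.sq_sqrt (by nlinarith)
        rw [← h3]
        exact pow_le_pow_left₀ (by norm_num) hsq 2
      have h4 : (1 : ℝ) - (1023 / 1025) ^ 2 < 1 / 16 := by norm_num
      linarith
    set i := round z' with hi
    have hx : |z' - i| ≤ 1 / 2 := abs_sub_round z'
    have hxc : Real.cos (2 * Real.pi * (z' - i)) = Real.cos (2 * Real.pi * z') := by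
      have h2 := lad_cos_int (z' - i) i
      rw [sub_add_cancel] at h2
      exact h2.symm
    have hx8 : |z' - i| < 1 / 8 := lad_near hx (by rw [hxc]; exact hcos)
    have hdet : (L.a : ℝ) * L.d - L.b * L.c = 1 := by exact_mod_cast h
    have h2 := F.equi (C ^ 2) (z' - i) (1 / 2) (L.d * i - L.b * j) (-L.c * i + L.a * j)
    rw [F.near _ _ _ hC2 hx8 (by norm_num)] at h2
    have h3 : ((z' - i : ℝ), (1 / 2 : ℝ)) + ((L.a * ((L.d * i - L.b * j : ℤ) : ℝ) + L.b * ((-L.c * i + L.a * j : ℤ) : ℝ) : ℝ),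
        (L.c * ((L.d * i - L.b * j : ℤ) : ℝ) + L.d * ((-L.c * i + L.a * j : ℤ) : ℝ) : ℝ)) = (z', t') := by
      rw [hj]
      push_cast
      ext
      · simp only [Prod.mk_add_mk]
        linear_combination (i : ℝ) * hdet
      · simp only [Prod.mk_add_mk]
        linear_combination (j : ℝ) * hdet
    rw [h3] at h2
    have h4 := F.gf (C ^ 2) (z' - i + ((L.d * i - L.b * j : ℤ) : ℝ)) (1 / 2 + ((-L.c * i + L.a * j : ℤ) : ℝ))
    rw [h2] at h4
    have h5 : ((z', t') : ℝ × ℝ) = F.f (C ^ 2, z τ, t τ) := rfl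
    rw [h5, F.gf, Prod.mk.injEq] at h4
    refine ⟨lad_circ.mpr ⟨_, h4.2⟩, ?_⟩
    rw [h4.1, lad_cos_int, hxc]
    exact hS2

end Pool.Agent.MMV
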