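import Pool.Agent.MMV.LSd
import Pool.Agent.LKT.TwK

/-!
# MMV/LAr
: lifting a loop of `ℂ - 0` which crosses the real axis three times   (difficulty 2)

`sg = 1`: on `[0, 1/2]` the imaginary part of `P` is `≥ 0` and `P ≠ 0`: `z τ = LKT.an (P τ)` (`an = arg/2π`); it is continuous there: `Complex.continuousAt_arg` in the slit plane, and `Complex.continuousWithinAt_arg_of_re_neg_of_im_zero` (within `{0 ≤ im}`) at `τ = 1/2`; `z 0 = 0`, `z (1/2) = 1/2`.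
On `[1/2, 1]`: the imaginary part is `≤ 0`: `z τ = 1 - LKT.an (conj (P τ))`, continuous for the same reason, `z (1/2) = 1/2`, `z 1 = 1`.  Glue: `ContinuousOn.if` / `ContinuousOn.union_of_isClosed`.  `P τ = ‖P τ‖ ex (z τ)`: `LKT.ex_an`, `ex (1 - a) = conj (ex a)`.
`sg = -1`: apply the case `sg = 1` to `conj P` and take `-z`.
-/

open scoped ContDiff Manifold Topology unitInterval
open Set Filter
open Pool.Agent.CSG (stp)
open Pool.Agent.RSG (E3 E4 S2 S3 S4 ex cj c1 c2 ht fh pS2 pS3 pS4)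
open Pool.Agent.RBM (ThickT OnT Box)
open Pool.Agent.LKF (OnF)
open Pool.Agent.PTH (SP ISP)
open Pool.Agent.KNH (circ)
open Pool.Agent.LKT (s1 s2 dir)

namespace Pool.Agent.MMV

theorem lar_arg_cont : ContinuousOn Complex.arg {z : ℂ | 0 ≤ z.im ∧ z ≠ 0} := by
  intro z hz
  by_cases h : z ∈ Complex.slitPlane
  · exact (Complex.continuousAt_arg h).continuousWithinAt
  · rw [Complex.mem_slitPlane_iff] at h
    push Not at h
    have h1 : z.re < 0 := by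
      rcases lt_or_eq_of_le h.1 with h2 | h2
      · exact h2
      · exact absurd (Complex.ext h2 h.2) hz.2
    exact (Complex.continuousWithinAt_arg_of_re_neg_of_im_zero h1 h.2).mono (fun w hw => hw.1)

theorem lar_pos {P : ℝ → ℂ} (hP : ContinuousOn P (Icc 0 1))
    (h0 : (P 0).im = 0 ∧ 0 < (P 0).re) (h1 : (P 1).im = 0 ∧ 0 < (P 1).re) (hm : (P (1 / 2)).im = 0 ∧ (P (1 / 2)).re < 0)
    (hl : ∀ τ ∈ Ioo (0 : ℝ) (1 / 2), 0 < (P τ).im) (hr : ∀ τ ∈ Ioo (1 / 2 : ℝ) 1, (P τ).im < 0) :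
    ∃ z : ℝ → ℝ, ContinuousOn z (Icc 0 1) ∧ z 0 = 0 ∧ z 1 = 1 ∧ ∀ τ ∈ Icc (0 : ℝ) 1, P τ = (‖P τ‖ : ℂ) * ex (z τ) := by
  have hpi : Real.pi ≠ 0 := Real.pi_ne_zero
  have hL : ∀ τ ∈ Icc (0 : ℝ) (1 / 2), P τ ∈ {z : ℂ | 0 ≤ z.im ∧ z ≠ 0} := by
    intro τ hτ
    rcases eq_or_lt_of_le hτ.1 with h2 | h2
    · rw [← h2]
      refine ⟨h0.1.ge, fun h => ?_⟩
      rw [h] at h0
      exact lt_irrefl _ h0.2
    · rcases eq_or_lt_of_le hτ.2 with h3 | h3
      · rw [h3]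
        refine ⟨hm.1.ge, fun h => ?_⟩
        rw [h] at hm
        exact lt_irrefl _ hm.2
      · have h4 := hl τ ⟨h2, h3⟩
        refine ⟨h4.le, fun h => ?_⟩
        rw [h] at h4
        exact lt_irrefl _ h4
  have hR : ∀ τ ∈ Icc (1 / 2 : ℝ) 1, (starRingEnd ℂ) (P τ) ∈ {z : ℂ | 0 ≤ z.im ∧ z ≠ 0} := by
    intro τ hτ
    have key : (P τ).im ≤ 0 ∧ P τ ≠ 0 → (starRingEnd ℂ) (P τ) ∈ {z : ℂ | 0 ≤ z.im ∧ z ≠ 0} := by
      rintro ⟨h5, h6⟩
      refine ⟨?_, ?_⟩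
      · rw [Complex.conj_im]
        linarith
      · exact (map_ne_zero _).2 h6
    apply key
    rcases eq_or_lt_of_le hτ.1 with h2 | h2
    · rw [← h2]
      refine ⟨hm.1.le, fun h => ?_⟩
      rw [h] at hm
      exact lt_irrefl _ hm.2
    · rcases eq_or_lt_of_le hτ.2 with h3 | h3
      · rw [h3]
        refine ⟨h1.1.le, fun h => ?_⟩
        rw [h] at h1
        exact lt_irrefl _ h1.2
      · have h4 := hr τ ⟨h2, h3⟩
        refine ⟨h4.le, fun h => ?_⟩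
        rw [h] at h4
        exact lt_irrefl _ h4
  have hs1 : Icc (0 : ℝ) (1 / 2) ⊆ Icc 0 1 := Icc_subset_Icc le_rfl (by norm_num)
  have hs2 : Icc (1 / 2 : ℝ) 1 ⊆ Icc 0 1 := Icc_subset_Icc (by norm_num) le_rfl
  have c1 : ContinuousOn (fun τ => Complex.arg (P τ) / (2 * Real.pi)) (Icc 0 (1 / 2)) :=
    (lar_arg_cont.comp (hP.mono hs1) hL).div_const _
  have c2 : ContinuousOn (fun τ => 1 - Complex.arg ((starRingEnd ℂ) (P τ)) / (2 * Real.pi)) (Icc (1 / 2) 1) :=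
    continuousOn_const.sub ((lar_arg_cont.comp (Complex.continuous_conj.comp_continuousOn (hP.mono hs2)) hR).div_const _)
  have hmid : Complex.arg (P (1 / 2)) / (2 * Real.pi) = 1 / 2 := by
    rw [Complex.arg_eq_pi_iff.2 ⟨hm.2, hm.1⟩]
    field_simp
  have hmid' : 1 - Complex.arg ((starRingEnd ℂ) (P (1 / 2))) / (2 * Real.pi) = 1 / 2 := by
    rw [Complex.arg_eq_pi_iff.2 ⟨by rw [Complex.conj_re]; exact hm.2, by rw [Complex.conj_im, hm.1, neg_zero]⟩]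
    field_simp
    norm_num
  refine ⟨fun τ => if τ ≤ 1 / 2 then Complex.arg (P τ) / (2 * Real.pi)
    else 1 - Complex.arg ((starRingEnd ℂ) (P τ)) / (2 * Real.pi), ?_, ?_, ?_, ?_⟩
  · have hU : Icc (0 : ℝ) 1 = Icc 0 (1 / 2) ∪ Icc (1 / 2) 1 :=
      (Icc_union_Icc_eq_Icc (by norm_num) (by norm_num)).symm
    rw [hU]
    refine ContinuousOn.union_of_isClosed (c1.congr ?_) (c2.congr ?_) isClosed_Icc isClosed_Icc
    · intro τ hτ
      exact if_pos hτ.2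
    · intro τ hτ
      rcases eq_or_lt_of_le hτ.1 with h2 | h2
      · rw [← h2]
        show (if (1 / 2 : ℝ) ≤ 1 / 2 then Complex.arg (P (1 / 2)) / (2 * Real.pi)
          else 1 - Complex.arg ((starRingEnd ℂ) (P (1 / 2))) / (2 * Real.pi)) = _
        rw [if_pos le_rfl, hmid]
        exact hmid'.symm
      · exact if_neg (not_le.2 h2)
  · show (if (0 : ℝ) ≤ 1 / 2 then Complex.arg (P 0) / (2 * Real.pi)
      else 1 - Complex.arg ((starRingEnd ℂ) (P 0)) / (2 * Real.pi)) = 0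
    rw [if_pos (by norm_num), Complex.arg_eq_zero_iff.2 ⟨h0.2.le, h0.1⟩, zero_div]
  · show (if (1 : ℝ) ≤ 1 / 2 then Complex.arg (P 1) / (2 * Real.pi)
      else 1 - Complex.arg ((starRingEnd ℂ) (P 1)) / (2 * Real.pi)) = 1
    rw [if_neg (by norm_num), Complex.arg_eq_zero_iff.2 ⟨by rw [Complex.conj_re]; exact h1.2.le,
      by rw [Complex.conj_im, h1.1, neg_zero]⟩, zero_div, sub_zero]
  · intro τ hτ
    show P τ = (‖P τ‖ : ℂ) * ex (if τ ≤ 1 / 2 then Complex.arg (P τ) / (2 * Real.pi)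
      else 1 - Complex.arg ((starRingEnd ℂ) (P τ)) / (2 * Real.pi))
    split_ifs with h2
    · exact RSG.ex_arg.symm
    · have h3 : ex (1 - Complex.arg ((starRingEnd ℂ) (P τ)) / (2 * Real.pi)) =
          (starRingEnd ℂ) (ex (Complex.arg ((starRingEnd ℂ) (P τ)) / (2 * Real.pi))) := by
        rw [← RSG.ex_neg]
        have h4 := RSG.ex_add_int (-(Complex.arg ((starRingEnd ℂ) (P τ)) / (2 * Real.pi))) 1
        rw [← h4]
        congr 1
        push_cast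
        ring
      rw [h3]
      have h5 := congrArg (starRingEnd ℂ) (RSG.ex_arg (p := (starRingEnd ℂ) (P τ)))
      rw [map_mul, Complex.conj_conj, Complex.conj_ofReal, RCLike.norm_conj] at h5
      exact h5.symm

theorem lift_arc {P : ℝ → ℂ} (hP : ContinuousOn P (Icc 0 1)) {sg : ℤ} (hsg : sg = 1 ∨ sg = -1)
    (h0 : (P 0).im = 0 ∧ 0 < (P 0).re) (h1 : (P 1).im = 0 ∧ 0 < (P 1).re) (hm : (P (1 / 2)).im = 0 ∧ (P (1 / 2)).re < 0)
    (hl : ∀ τ ∈ Ioo (0 : ℝ) (1 / 2), 0 < sg * (P τ).im) (hr : ∀ τ ∈ Ioo (1 / 2 : ℝ) 1, sg * (P τ).im < 0) :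
    ∃ z : ℝ → ℝ, ContinuousOn z (Icc 0 1) ∧ z 0 = 0 ∧ z 1 = sg ∧ ∀ τ ∈ Icc (0 : ℝ) 1, P τ = (‖P τ‖ : ℂ) * ex (z τ) := by
  rcases hsg with rfl | rfl
  · obtain ⟨z, hz, hz0, hz1, hz2⟩ := lar_pos hP h0 h1 hm (by simpa using hl) (by simpa using hr)
    exact ⟨z, hz, hz0, by rw [hz1]; simp, hz2⟩
  · obtain ⟨z, hz, hz0, hz1, hz2⟩ := lar_pos (P := fun τ => (starRingEnd ℂ) (P τ))
      (Complex.continuous_conj.comp_continuousOn hP) (by simpa using h0) (by simpa using h1) (by simpa using hm)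
      (by simpa using hl) (by simpa using hr)
    refine ⟨fun τ => -z τ, hz.neg, by simp [hz0], by simp [hz1], ?_⟩
    intro τ hτ
    have h2 := congrArg (starRingEnd ℂ) (hz2 τ hτ)
    rw [map_mul, Complex.conj_conj, Complex.conj_ofReal, RCLike.norm_conj] at h2
    rw [RSG.ex_neg]
    exact h2

end Pool.Agent.MMV
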