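import Pool.Agent.MMV.LKw

/-!
# MMV/LLa
: the loop `lam₁` and the loop through the left arc of the edge circle   (difficulty 2)

* `lam_path`: `disc_path` for `u τ = -1/2 + 1/2 ex τ`: `Re u = -‖u‖²` (`‖u + 1/2‖ = 1/2`), so `4 Re u + 5 ‖u‖² = ‖u‖² ≥ 0`; `‖u‖ ≤ 1`; `Im u = sin (2πτ)/2`; `u (1/2) = -1`.
* `edge_path`: `u = edU τ`: continuous (`ex (1/4) = i`, `ex (3/4) = -i`; `Continuous.if_le` or the like), `u (1/2) = ex (1/2) = -1`.  On the segments `Re u = 0`; on the arc `‖u‖ = 1`, `Re u ≥ -1`.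
  Imaginary part: `3 τ > 0` on `(0, 1/3]`; `sin (2π (1/4 + (3τ-1)/2))`, the angle is in `(1/4, 1/2)` for `τ ∈ (1/3, 1/2)`: positive; in `(1/2, 3/4]` for `τ ∈ (1/2, 2/3]`: negative; `-3(1 - τ) < 0` on `(2/3, 1)`.
-/

open scoped ContDiff Manifold Topology unitInterval
open Set Filter
open Pool.Agent.CSG (stp)
open Pool.Agent.RSG (E3 E4 S2 S3 S4 ex cj c1 c2 ht fh pS2 pS3 pS4)
open Pool.Agent.RBM (ThickT OnT Box)
open Pool.Agent.LKF (OnF)
open Pool.Agent.PTH (SP ISP)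
open Pool.Agent.KNH (circ)
open Pool.Agent.LKT (s1 s2 dir)

namespace Pool.Agent.MMV

theorem lla_pos {x : ℝ} (h0 : 0 < x) (h1 : x < 1 / 2) : 0 < (ex x).im := by
  rw [RSG.ex_im]
  have hpi := Real.pi_pos
  exact Real.sin_pos_of_pos_of_lt_pi (by positivity) (by nlinarith)

theorem lla_neg {x : ℝ} (h0 : 1 / 2 < x) (h1 : x < 1) : (ex x).im < 0 := by
  rw [RSG.ex_im]
  have hpi := Real.pi_pos
  have h2 : Real.sin (2 * Real.pi * x) = Real.sin (2 * Real.pi * x - 2 * Real.pi) := (Real.sin_sub_two_pi _).symm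
  rw [h2]
  exact Real.sin_neg_of_neg_of_neg_pi_lt (by nlinarith) (by nlinarith)

theorem lla_one : ex 1 = 1 := by
  have h := RSG.ex_int 1
  rwa [Int.cast_one] at h

theorem lla_sq (x : ℝ) : (ex x).re ^ 2 + (ex x).im ^ 2 = 1 := by
  have h := RSG.ex_norm x
  have h2 := Complex.normSq_eq_norm_sq (ex x)
  rw [h, Complex.normSq_apply] at h2
  linarith

theorem lam_path {M : Type*} {K : SP → M} {mp : ℂ × S2 → M} {ρ₀ : ℝ × E3 → M} (h : KVal K mp ρ₀) :
    ∃ c t : ℝ → ℝ, Adm c (fun _ => 0) t 0 1 ∧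
      ∀ τ ∈ Icc (0 : ℝ) 1, ptM mp ρ₀ (-1 / 2 + 1 / 2 * ex τ) = K (bp ((c τ : ℝ) : ℂ) 0 (t τ)) := by
  refine disc_path h (u := fun τ => -1 / 2 + 1 / 2 * ex τ) ?_ ?_ ?_ ?_ ?_ ?_ ?_
  · have := RSG.ex_smooth.continuous
    apply Continuous.continuousOn
    fun_prop
  · simp only [RSG.ex_zero]
    norm_num
  · simp only [lla_one]
    norm_num
  · simp only [RSG.ex_half]
    norm_num
  · intro τ _
    have h1 := lla_sq τ
    have hre : (-1 / 2 + 1 / 2 * ex τ).re = -1 / 2 + 1 / 2 * (ex τ).re := by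
      norm_num
    have him : (-1 / 2 + 1 / 2 * ex τ).im = 1 / 2 * (ex τ).im := by
      norm_num
    have hn : ‖-1 / 2 + 1 / 2 * ex τ‖ ^ 2 = 1 / 2 - 1 / 2 * (ex τ).re := by
      rw [← Complex.normSq_eq_norm_sq, Complex.normSq_apply, hre, him]
      nlinarith
    have hr1 : -1 ≤ (ex τ).re := by nlinarith [sq_nonneg (ex τ).im]
    have hr2 : (ex τ).re ≤ 1 := by nlinarith [sq_nonneg (ex τ).im]
    change ‖-1 / 2 + 1 / 2 * ex τ‖ ≤ 1 ∧ 0 ≤ 4 * (-1 / 2 + 1 / 2 * ex τ).re + 5 * ‖-1 / 2 + 1 / 2 * ex τ‖ ^ 2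
    constructor
    · have h2 : ‖-1 / 2 + 1 / 2 * ex τ‖ ^ 2 ≤ 1 := by rw [hn]; linarith
      nlinarith [norm_nonneg (-1 / 2 + 1 / 2 * ex τ)]
    · rw [hn, hre]
      linarith
  · intro τ hτ
    have him : (-1 / 2 + 1 / 2 * ex τ).im = 1 / 2 * (ex τ).im := by
      norm_num
    change 0 < (-1 / 2 + 1 / 2 * ex τ).im
    rw [him]
    linarith [lla_pos hτ.1 hτ.2]
  · intro τ hτ
    have him : (-1 / 2 + 1 / 2 * ex τ).im = 1 / 2 * (ex τ).im := by
      norm_num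
    change (-1 / 2 + 1 / 2 * ex τ).im < 0
    rw [him]
    linarith [lla_neg hτ.1 hτ.2]

theorem edge_path {M : Type*} {K : SP → M} {mp : ℂ × S2 → M} {ρ₀ : ℝ × E3 → M} (h : KVal K mp ρ₀) :
    ∃ c t : ℝ → ℝ, Adm c (fun _ => 0) t 0 1 ∧
      ∀ τ ∈ Icc (0 : ℝ) 1, ptM mp ρ₀ (edU τ) = K (bp ((c τ : ℝ) : ℂ) 0 (t τ)) := by
  have e34 : ex (3 / 4) = -Complex.I := by
    have h1 := RSG.ex_add (1 / 4) (1 / 2)
    rw [RSG.ex_quarter, RSG.ex_half] at h1
    norm_num at h1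
    exact h1
  have hc : Continuous edU := by
    have hex := RSG.ex_smooth.continuous
    unfold edU
    refine Continuous.if_le (by fun_prop) (Continuous.if_le (by fun_prop) (by fun_prop) continuous_id continuous_const ?_)
      continuous_id continuous_const ?_
    · intro τ hτ
      have h1 : (1 / 4 + (3 * τ - 1) / 2 : ℝ) = 3 / 4 := by
        have : τ = 2 / 3 := hτ
        rw [this]; norm_num
      have h2 : (3 * (1 - τ) : ℝ) = 1 := by
        have : τ = 2 / 3 := hτ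
        rw [this]; norm_num
      rw [h1, e34, h2]
      simp
    · intro τ hτ
      have h0 : τ = 1 / 3 := hτ
      have h1 : (1 / 4 + (3 * τ - 1) / 2 : ℝ) = 1 / 4 := by
        rw [h0]; norm_num
      have h2 : (3 * τ : ℝ) = 1 := by
        rw [h0]; norm_num
      rw [if_pos (by rw [h0]; norm_num), h1, RSG.ex_quarter, h2]
      simp
  have hA : ∀ τ : ℝ, τ ≤ 1 / 3 → edU τ = ((3 * τ : ℝ) : ℂ) * Complex.I := by
    intro τ h1
    unfold edU
    rw [if_pos h1]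
  have hB : ∀ τ : ℝ, 1 / 3 < τ → τ ≤ 2 / 3 → edU τ = ex (1 / 4 + (3 * τ - 1) / 2) := by
    intro τ h1 h2
    unfold edU
    rw [if_neg (not_le.2 h1), if_pos h2]
  have hC : ∀ τ : ℝ, 2 / 3 < τ → edU τ = -((3 * (1 - τ) : ℝ) : ℂ) * Complex.I := by
    intro τ h1
    unfold edU
    rw [if_neg (by linarith), if_neg (by linarith)]
  have hAr : ∀ r : ℝ, ((r : ℂ) * Complex.I).re = 0 ∧ ((r : ℂ) * Complex.I).im = r ∧ ‖(r : ℂ) * Complex.I‖ = |r| := by
    intro r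
    refine ⟨by simp, by simp, ?_⟩
    rw [norm_mul, Complex.norm_I, mul_one, Complex.norm_real, Real.norm_eq_abs]
  have hneg : ∀ r : ℝ, -(r : ℂ) * Complex.I = ((-r : ℝ) : ℂ) * Complex.I := by
    intro r
    push_cast
    ring
  refine disc_path h (u := edU) hc.continuousOn ?_ ?_ ?_ ?_ ?_ ?_
  · rw [hA 0 (by norm_num)]
    simp
  · rw [hC 1 (by norm_num)]
    simp
  · rw [hB (1 / 2) (by norm_num) (by norm_num)]
    have h1 : (1 / 4 + (3 * (1 / 2) - 1) / 2 : ℝ) = 1 / 2 := by norm_num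
    rw [h1, RSG.ex_half]
  · intro τ hτ
    rcases le_or_gt τ (1 / 3) with h1 | h1
    · rw [hA τ h1]
      obtain ⟨e1, -, e3⟩ := hAr (3 * τ)
      rw [e1, e3]
      refine ⟨abs_le.2 ⟨by linarith [hτ.1], by linarith⟩, by positivity⟩
    · rcases le_or_gt τ (2 / 3) with h2 | h2
      · rw [hB τ h1 h2, RSG.ex_norm]
        refine ⟨le_rfl, ?_⟩
        have h3 := lla_sq (1 / 4 + (3 * τ - 1) / 2)
        nlinarith [sq_nonneg (ex (1 / 4 + (3 * τ - 1) / 2)).im]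
      · rw [hC τ h2, hneg]
        obtain ⟨e1, -, e3⟩ := hAr (-(3 * (1 - τ)))
        rw [e1, e3]
        refine ⟨abs_le.2 ⟨by linarith [hτ.2], by linarith [hτ.2]⟩, by positivity⟩
  · intro τ hτ
    rcases le_or_gt τ (1 / 3) with h1 | h1
    · rw [hA τ h1, (hAr _).2.1]
      linarith [hτ.1]
    · rw [hB τ h1 (by linarith [hτ.2])]
      exact lla_pos (by linarith) (by linarith [hτ.2])
  · intro τ hτ
    rcases le_or_gt τ (2 / 3) with h2 | h2
    · rw [hB τ (by linarith [hτ.1]) h2]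
      exact lla_neg (by linarith [hτ.1]) (by linarith)
    · rw [hC τ h2, hneg, (hAr _).2.1]
      linarith [hτ.2]

end Pool.Agent.MMV
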