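import Pool.Agent.MMV.LZl

/-!
# MMV/LZa
: the loops `zl₁`, `zl₂`   (difficulty 2)

`zl₁_path`: `w τ = 65/128 + (63/128) ex τ`, `sg = 1` (`Im w = (63/128) sin (2πτ)`, `Re w ≥ 1/64`, `‖w‖ ≤ 1`).
`sym_hp`: `hp w = (sY Y, circ (1/2))`, `Y = (Re w, 0, Im w)`; `Inv (sY Y) = pS3 (s1) (-conj s2)`: `sY Y = pS3 (2 Re w) ⟨‖w‖² - 1, 2 Im w⟩`, `Inv` of it `= pS3 (2 Re w) ⟨1 - ‖w‖², 2 Im w⟩ = sY (Y/‖w‖²)` (factor `‖w‖²`; `pS3` normalises, `LKT.s_mk`); `(circ (1/2))⁻¹ = circ (1/2)`.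
`zl₂_path`: `zl₂ τ = hp om`, `om = 65/2 - (63/2) ex τ`, `Re om ≥ 1`, `‖om‖ ≥ 1`; `w = om/‖om‖²`, `sg = -1`: `Im w = -(63/2) sin (2πτ)/‖om‖²`; `w (1/2) = 64/64² = 1/64`.
-/

open scoped ContDiff Manifold Topology unitInterval
open Set Filter
open Pool.Agent.CSG (stp)
open Pool.Agent.RSG (E3 E4 S2 S3 S4 ex cj c1 c2 ht fh pS2 pS3 pS4)
open Pool.Agent.RBM (ThickT OnT Box)
open Pool.Agent.LKF (OnF)
open Pool.Agent.PTH (SP ISP)
open Pool.Agent.KNH (circ)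
open Pool.Agent.LKT (s1 s2 dir)

namespace Pool.Agent.MMV

theorem lza_pos {x : ℝ} (h0 : 0 < x) (h1 : x < 1 / 2) : 0 < (ex x).im := by
  rw [RSG.ex_im]
  have hpi := Real.pi_pos
  exact Real.sin_pos_of_pos_of_lt_pi (by positivity) (by nlinarith)

theorem lza_neg {x : ℝ} (h0 : 1 / 2 < x) (h1 : x < 1) : (ex x).im < 0 := by
  rw [RSG.ex_im]
  have hpi := Real.pi_pos
  have h2 : Real.sin (2 * Real.pi * x) = Real.sin (2 * Real.pi * x - 2 * Real.pi) := (Real.sin_sub_two_pi _).symm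
  rw [h2]
  exact Real.sin_neg_of_neg_of_neg_pi_lt (by nlinarith) (by nlinarith)

theorem lza_one : ex 1 = 1 := by
  have h := RSG.ex_int 1
  rwa [Int.cast_one] at h

theorem lza_re (x : ℝ) : -1 ≤ (ex x).re ∧ (ex x).re ≤ 1 := by
  have h := Complex.abs_re_le_norm (ex x)
  rw [RSG.ex_norm] at h
  exact abs_le.1 h

theorem lza_scale {r : ℝ} (hr : 0 < r) (a b : ℂ) : pS3 (r * a) (r * b) = pS3 a b := by
  have h1 : (WithLp.toLp 2 ![((r : ℂ) * a).re, ((r : ℂ) * a).im, ((r : ℂ) * b).re, ((r : ℂ) * b).im] : E4) =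
      r • (WithLp.toLp 2 ![a.re, a.im, b.re, b.im] : E4) := by
    ext i
    fin_cases i <;> simp
  unfold pS3
  rw [h1]
  generalize (WithLp.toLp 2 ![a.re, a.im, b.re, b.im] : E4) = v
  unfold RSG.toSph
  by_cases hv : v = 0
  · rw [dif_pos hv, dif_pos (by rw [hv, smul_zero])]
  · have hrv : r • v ≠ 0 := smul_ne_zero hr.ne' hv
    rw [dif_neg hv, dif_neg hrv]
    apply Subtype.ext
    change ‖r • v‖⁻¹ • (r • v) = ‖v‖⁻¹ • v
    rw [norm_smul, Real.norm_eq_abs, abs_of_pos hr, smul_smul, mul_inv]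
    congr 1
    field_simp

theorem lza_inv {a b : ℂ} (h : 0 < ‖a‖ ^ 2 + ‖b‖ ^ 2) : Inv (pS3 a b) = pS3 a (-(starRingEnd ℂ) b) := by
  have hq : 0 < (Real.sqrt (‖a‖ ^ 2 + ‖b‖ ^ 2))⁻¹ := inv_pos.2 (Real.sqrt_pos.2 h)
  set r : ℝ := (Real.sqrt (‖a‖ ^ 2 + ‖b‖ ^ 2))⁻¹ with hr
  have h1 : ‖(r : ℂ) * a‖ ^ 2 + ‖(r : ℂ) * b‖ ^ 2 = 1 := by
    rw [norm_mul, norm_mul, Complex.norm_real, Real.norm_eq_abs, abs_of_pos hq, mul_pow, mul_pow, ← mul_add, hr, inv_pow,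
      Real.sq_sqrt h.le, inv_mul_cancel₀ h.ne']
  rw [← lza_scale hq a b]
  unfold Inv
  rw [(LKT.s_mk h1).1, (LKT.s_mk h1).2]
  have h2 : -(starRingEnd ℂ) ((r : ℂ) * b) = (r : ℂ) * -(starRingEnd ℂ) b := by
    rw [map_mul, Complex.conj_ofReal]
    ring
  rw [h2, lza_scale hq]

theorem lza_norm (w : ℂ) : ‖(!₂[w.re, 0, w.im] : E3)‖ ^ 2 = ‖w‖ ^ 2 := by
  rw [EuclideanSpace.real_norm_sq_eq, Fin.sum_univ_three, ← Complex.normSq_eq_norm_sq, Complex.normSq_apply]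
  simp
  ring

theorem lza_circ : (circ (1 / 2))⁻¹ = circ (1 / 2) := by
  have h1 : circ (1 / 2) * circ (1 / 2) = 1 := by
    rw [← KNH.circ_add]
    have h2 := KNH.circ_int 1
    rw [Int.cast_one] at h2
    have h3 : (1 / 2 + 1 / 2 : ℝ) = 1 := by norm_num
    rw [h3, h2]
  exact inv_eq_of_mul_eq_one_left h1

theorem zl₁_path {M : Type*} {K J : SP → M} {mp : ℂ × S2 → M} {ρ₀ : ℝ × E3 → M} (h : KVal K mp ρ₀)
    (hJ : ∀ (W : ℂ) (v : S2), W ≠ 0 → W ≠ 1 → J (pol (W, v)) = mp (V0 W, v)) :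
    ∃ c z : ℝ → ℝ, Adm c z (fun _ => 1 / 2) 1 0 ∧
      ∀ τ ∈ Icc (0 : ℝ) 1, J (zl₁ τ) = K (bp ((c τ : ℝ) : ℂ) (z τ) (1 / 2)) := by
  refine zl_path h hJ (w := fun τ => ((65 / 128 : ℝ) : ℂ) + ((63 / 128 : ℝ) : ℂ) * ex τ) ?_ (Or.inl rfl) ?_ ?_ ?_ ?_ ?_ ?_
  · have := RSG.ex_smooth.continuous
    apply Continuous.continuousOn
    fun_prop
  · simp only [RSG.ex_zero]
    norm_num
  · simp only [lza_one]
    norm_num
  · simp only [RSG.ex_half]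
    norm_num
  · intro τ _
    have h1 := lza_re τ
    change 0 < (((65 / 128 : ℝ) : ℂ) + ((63 / 128 : ℝ) : ℂ) * ex τ).re ∧ ‖((65 / 128 : ℝ) : ℂ) + ((63 / 128 : ℝ) : ℂ) * ex τ‖ ≤ 1
    constructor
    · rw [Complex.add_re, Complex.re_ofReal_mul, Complex.ofReal_re]
      linarith [h1.1]
    · refine (norm_add_le _ _).trans ?_
      rw [norm_mul, RSG.ex_norm, Complex.norm_real, Complex.norm_real]
      norm_num
  · intro τ hτ
    rw [Complex.add_im, Complex.im_ofReal_mul, Complex.ofReal_im]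
    push_cast
    linarith [lza_pos hτ.1 hτ.2]
  · intro τ hτ
    rw [Complex.add_im, Complex.im_ofReal_mul, Complex.ofReal_im]
    push_cast
    linarith [lza_neg hτ.1 hτ.2]

theorem sym_hp {w : ℂ} (h : 0 < w.re) : Sym (hp w) = hp (w / ((‖w‖ ^ 2 : ℝ) : ℂ)) := by
  have hw : w ≠ 0 := by
    rintro rfl
    simp at h
  have hn : 0 < ‖w‖ ^ 2 := by positivity
  have key : ∀ z : ℂ, sY (!₂[z.re, 0, z.im] : E3) = pS3 ((2 * z.re : ℝ) : ℂ) ⟨‖z‖ ^ 2 - 1, 2 * z.im⟩ := by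
    intro z
    unfold sY
    rw [lza_norm]
    congr 1
    · apply Complex.ext
      · simp
      · simp
  unfold Sym hp
  refine Prod.ext ?_ lza_circ
  change Inv (sY _) = sY _
  rw [key, key, lza_inv]
  · have e1 : ((2 * (w / ((‖w‖ ^ 2 : ℝ) : ℂ)).re : ℝ) : ℂ) = (((‖w‖ ^ 2)⁻¹ : ℝ) : ℂ) * ((2 * w.re : ℝ) : ℂ) := by
      rw [Complex.div_ofReal_re]
      push_cast
      field_simp
    have e2 : (⟨‖w / ((‖w‖ ^ 2 : ℝ) : ℂ)‖ ^ 2 - 1, 2 * (w / ((‖w‖ ^ 2 : ℝ) : ℂ)).im⟩ : ℂ) =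
        (((‖w‖ ^ 2)⁻¹ : ℝ) : ℂ) * -(starRingEnd ℂ) (⟨‖w‖ ^ 2 - 1, 2 * w.im⟩ : ℂ) := by
      have hne : ‖w‖ ≠ 0 := norm_ne_zero_iff.2 hw
      rw [norm_div, Complex.norm_real, Real.norm_eq_abs, abs_of_pos hn]
      apply Complex.ext
      · rw [Complex.re_ofReal_mul]
        simp only [Complex.neg_re, Complex.conj_re]
        field_simp
        ring
      · rw [Complex.im_ofReal_mul, Complex.div_ofReal_im]
        simp only [Complex.neg_im, Complex.conj_im]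
        field_simp
    rw [e1, e2, lza_scale (inv_pos.2 hn)]
  · have h1 : 0 < ‖((2 * w.re : ℝ) : ℂ)‖ ^ 2 := by
      have : ((2 * w.re : ℝ) : ℂ) ≠ 0 := by
        exact_mod_cast (by linarith : (2 * w.re : ℝ) ≠ 0)
      positivity
    positivity

theorem zl₂_path {M : Type*} {K J : SP → M} {mp : ℂ × S2 → M} {ρ₀ : ℝ × E3 → M} (h : KVal K mp ρ₀)
    (hJ : ∀ (W : ℂ) (v : S2), W ≠ 0 → W ≠ 1 → J (pol (W, v)) = mp (V0 W, v)) :
    ∃ c z : ℝ → ℝ, Adm c z (fun _ => 1 / 2) (-1) 0 ∧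
      ∀ τ ∈ Icc (0 : ℝ) 1, J (Sym (zl₂ τ)) = K (bp ((c τ : ℝ) : ℂ) (z τ) (1 / 2)) := by
  have hom : ∀ τ : ℝ, (((65 / 2 : ℝ) : ℂ) - ((63 / 2 : ℝ) : ℂ) * ex τ).re = 65 / 2 - 63 / 2 * (ex τ).re ∧
      (((65 / 2 : ℝ) : ℂ) - ((63 / 2 : ℝ) : ℂ) * ex τ).im = -(63 / 2 * (ex τ).im) := by
    intro τ
    constructor
    · rw [Complex.sub_re, Complex.re_ofReal_mul, Complex.ofReal_re]
    · rw [Complex.sub_im, Complex.im_ofReal_mul, Complex.ofReal_im]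
      ring
  have hre : ∀ τ : ℝ, 1 ≤ (((65 / 2 : ℝ) : ℂ) - ((63 / 2 : ℝ) : ℂ) * ex τ).re := by
    intro τ
    rw [(hom τ).1]
    linarith [(lza_re τ).2]
  have hno : ∀ τ : ℝ, 1 ≤ ‖((65 / 2 : ℝ) : ℂ) - ((63 / 2 : ℝ) : ℂ) * ex τ‖ := by
    intro τ
    exact (hre τ).trans (Complex.re_le_norm _)
  have key : ∃ c z : ℝ → ℝ, Adm c z (fun _ => 1 / 2) (-1) 0 ∧
      ∀ τ ∈ Icc (0 : ℝ) 1, J (hp ((((65 / 2 : ℝ) : ℂ) - ((63 / 2 : ℝ) : ℂ) * ex τ) /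
        ((‖((65 / 2 : ℝ) : ℂ) - ((63 / 2 : ℝ) : ℂ) * ex τ‖ ^ 2 : ℝ) : ℂ))) = K (bp ((c τ : ℝ) : ℂ) (z τ) (1 / 2)) := by
    refine zl_path h hJ (w := fun τ => (((65 / 2 : ℝ) : ℂ) - ((63 / 2 : ℝ) : ℂ) * ex τ) /
      ((‖((65 / 2 : ℝ) : ℂ) - ((63 / 2 : ℝ) : ℂ) * ex τ‖ ^ 2 : ℝ) : ℂ)) (sg := -1) ?_ (Or.inr rfl) ?_ ?_ ?_ ?_ ?_ ?_
    · have hc := RSG.ex_smooth.continuous
      apply Continuous.continuousOn
      refine Continuous.div (by fun_prop) (by fun_prop) ?_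
      intro τ
      have := hno τ
      have h0 : (‖((65 / 2 : ℝ) : ℂ) - ((63 / 2 : ℝ) : ℂ) * ex τ‖ ^ 2 : ℝ) ≠ 0 := by positivity
      exact_mod_cast h0
    · simp only [RSG.ex_zero]
      norm_num
    · simp only [lza_one]
      norm_num
    · simp only [RSG.ex_half]
      norm_num
    · intro τ _
      have hn := hno τ
      have hr := hre τ
      generalize ((65 / 2 : ℝ) : ℂ) - ((63 / 2 : ℝ) : ℂ) * ex τ = om at hn hr
      constructor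
      · rw [Complex.div_ofReal_re]
        positivity
      · rw [norm_div, Complex.norm_real, Real.norm_eq_abs, abs_of_nonneg (by positivity), div_le_one (by positivity)]
        nlinarith
    · intro τ hτ
      have hn := hno τ
      have hi := (hom τ).2
      have hs := lza_pos hτ.1 hτ.2
      generalize ((65 / 2 : ℝ) : ℂ) - ((63 / 2 : ℝ) : ℂ) * ex τ = om at hn hi
      rw [Complex.div_ofReal_im, hi]
      push_cast
      have h3 : (-1 : ℝ) * (-(63 / 2 * (ex τ).im) / ‖om‖ ^ 2) = 63 / 2 * (ex τ).im / ‖om‖ ^ 2 := by ring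
      rw [h3]
      positivity
    · intro τ hτ
      have hn := hno τ
      have hi := (hom τ).2
      have hs := lza_neg hτ.1 hτ.2
      generalize ((65 / 2 : ℝ) : ℂ) - ((63 / 2 : ℝ) : ℂ) * ex τ = om at hn hi
      rw [Complex.div_ofReal_im, hi]
      push_cast
      have h3 : (-1 : ℝ) * (-(63 / 2 * (ex τ).im) / ‖om‖ ^ 2) = 63 / 2 * (ex τ).im / ‖om‖ ^ 2 := by ring
      rw [h3]
      exact div_neg_of_neg_of_pos (by linarith) (by positivity)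
  obtain ⟨c, z, h1, h2⟩ := key
  refine ⟨c, z, h1, ?_⟩
  intro τ hτ
  rw [← h2 τ hτ]
  congr 1
  unfold zl₂
  rw [sym_hp (by linarith [hre τ])]

end Pool.Agent.MMV
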