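import Pool.Agent.MMV.LRa
import Pool.Agent.MMV.LAd
import Pool.Agent.MMV.LLa
import Pool.Agent.MMV.LZa

/-!
# MMV/LCs
: the classes of the sheared loops   (difficulty 2; the proof is short)

`exists_cls` (with `kv_base`) gives `X`; `lam_path` (and `bcls_congr`, `bcls_unique`, `zpow_one`) gives `x = X`.
`sheared_cls`: `adm_shear` and `exists_cls`.  `left_cls`: apply it to `zl₁_path` (`m = 1`, `n = 0`), `zl₂_path` (`m = -1`, `n = 0`), `edge_path` (`m = 0`, `n = 1`), with `hg` (`bd`, `off` of `Adm`) and `bcls_congr`.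
-/

open scoped ContDiff Manifold Topology unitInterval
open Set Filter
open Pool.Agent.CSG (stp)
open Pool.Agent.RSG (E3 E4 S2 S3 S4 ex cj c1 c2 ht fh pS2 pS3 pS4)
open Pool.Agent.RBM (ThickT OnT Box)
open Pool.Agent.LKF (OnF)
open Pool.Agent.PTH (SP ISP)
open Pool.Agent.KNH (circ)
open Pool.Agent.LKT (s1 s2 dir)

namespace Pool.Agent.MMV

theorem sheared_cls {M : Type*} [TopologicalSpace M] {K : SP → M} {mp : ℂ × S2 → M} {ρ₀ : ℝ × E3 → M} (hK : ContK K)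
    (hV : KVal K mp ρ₀) {x : FundamentalGroup M (mp (0, e₁))}
    (hx : BCls (mp (0, e₁)) (fun τ => ptM mp ρ₀ (-1 / 2 + 1 / 2 * ex τ)) x) {L : Sl} (hL : L.a * L.d - L.b * L.c = 1) (F : TFam L)
    {c z t : ℝ → ℝ} {m n : ℤ} (hA : Adm c z t m n) :
    BCls (mp (0, e₁)) (fun τ => K (bp ((c τ : ℝ) : ℂ) (F.f (c τ ^ 2, z τ, t τ)).1 (F.f (c τ ^ 2, z τ, t τ)).2))
      (x ^ (L.c * m + L.d * n)) := by
  obtain ⟨X, hX⟩ := exists_cls hK (kv_base hV)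
  obtain ⟨c', t', hA', he⟩ := lam_path hV
  have h1 := hX c' (fun _ => 0) t' 0 1 hA'
  have h2 : BCls (mp (0, e₁)) (fun τ => ptM mp ρ₀ (-1 / 2 + 1 / 2 * ex τ)) (X ^ (1 : ℤ)) :=
    bcls_congr h1 fun τ hτ => he τ hτ
  have h3 : x = X := by
    rw [bcls_unique hx h2, zpow_one]
  rw [h3]
  exact hX c _ _ _ _ (adm_shear hL F hA)

theorem lcs_move {M : Type*} [TopologicalSpace M] {K : SP → M} {mp : ℂ × S2 → M} {ρ₀ : ℝ × E3 → M} (hK : ContK K)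
    (hV : KVal K mp ρ₀) {x : FundamentalGroup M (mp (0, e₁))}
    (hx : BCls (mp (0, e₁)) (fun τ => ptM mp ρ₀ (-1 / 2 + 1 / 2 * ex τ)) x) {L : Sl} (hL : L.a * L.d - L.b * L.c = 1) (F : TFam L)
    {H : M → M} (hH : ∀ c z t : ℝ, 0 ≤ c → c < 1 → ¬ Shd c z t →
      H (K (bp (c : ℂ) z t)) = K (bp (c : ℂ) (F.f (c ^ 2, z, t)).1 (F.f (c ^ 2, z, t)).2))
    {c z t : ℝ → ℝ} {m n : ℤ} (hA : Adm c z t m n) {f : ℝ → M}
    (hf : ∀ τ ∈ Icc (0 : ℝ) 1, f τ = K (bp ((c τ : ℝ) : ℂ) (z τ) (t τ))) {k : ℤ} (hk : L.c * m + L.d * n = k) :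
    BCls (mp (0, e₁)) (fun τ => H (f τ)) (x ^ k) := by
  rw [← hk]
  refine bcls_congr (sheared_cls hK hV hx hL F hA) ?_
  intro τ hτ
  show H (f τ) = _
  rw [hf τ hτ]
  exact hH (c τ) (z τ) (t τ) (hA.bd τ hτ).1 (hA.bd τ hτ).2 (hA.off τ hτ)

/-- the fields `z₁`, `z₂`, `edge` of `HPk` -/
theorem left_cls {M : Type*} [TopologicalSpace M] {K J : SP → M} {mp : ℂ × S2 → M} {ρ₀ : ℝ × E3 → M} (hK : ContK K)
    (hV : KVal K mp ρ₀) (hJ : ∀ (W : ℂ) (v : S2), W ≠ 0 → W ≠ 1 → J (pol (W, v)) = mp (V0 W, v))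
    {x : FundamentalGroup M (mp (0, e₁))} (hx : BCls (mp (0, e₁)) (fun τ => ptM mp ρ₀ (-1 / 2 + 1 / 2 * ex τ)) x)
    {L : Sl} (hL : L.a * L.d - L.b * L.c = 1) (F : TFam L)
    {H : M → M} (hH : ∀ c z t : ℝ, 0 ≤ c → c < 1 → ¬ Shd c z t →
      H (K (bp (c : ℂ) z t)) = K (bp (c : ℂ) (F.f (c ^ 2, z, t)).1 (F.f (c ^ 2, z, t)).2)) :
    BCls (mp (0, e₁)) (fun τ => H (J (zl₁ τ))) (x ^ L.c) ∧ BCls (mp (0, e₁)) (fun τ => H (J (Sym (zl₂ τ)))) (x ^ (-L.c)) ∧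
      BCls (mp (0, e₁)) (fun τ => H (ptM mp ρ₀ (edU τ))) (x ^ L.d) := by
  obtain ⟨c₁, z₁, hA₁, h₁⟩ := zl₁_path hV hJ
  obtain ⟨c₂, z₂, hA₂, h₂⟩ := zl₂_path hV hJ
  obtain ⟨c₃, t₃, hA₃, h₃⟩ := edge_path hV
  refine ⟨?_, ?_, ?_⟩
  · exact lcs_move hK hV hx hL F hH hA₁ (f := fun τ => J (zl₁ τ)) h₁ (by ring)
  · exact lcs_move hK hV hx hL F hH hA₂ (f := fun τ => J (Sym (zl₂ τ))) h₂ (by ring)
  · exact lcs_move hK hV hx hL F hH hA₃ (f := fun τ => ptM mp ρ₀ (edU τ)) h₃ (by ring)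

end Pool.Agent.MMV
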