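import Pool.Agent.MMV.LFe

/-!
# MMV/LFm
: families for all the matrices of determinant 1   (difficulty 3)

Strong induction on `|L.c|` (`Int.natAbs`), with `fam_mul` (products of matrices).  `J = (0, 1; -1, 0) = U(1) V(-1) U(1)` and `J⁻¹ = (0, -1; 1, 0) = V(1) U(-1) V(1)`, where `U(k) = (1, k; 0, 1)` (`fam_upper`), `V(k) = (1, 0; k, 1)` (`fam_lower`).
* `L.c = 0`: `L.a L.d = 1`, so `L.a = L.d = 1` (`U(b)`) or `L.a = L.d = -1` (`L = J J U(-b)`).
* `L.c ≠ 0`: `k = L.a / L.c`, `r = L.a % L.c`, `0 ≤ r < |L.c|`: `L = U(k) L₁`, `L₁ = (r, b - k d; c, d)`, and `L₁ = J⁻¹ L₂`, `L₂ = J L₁ = (c, d; -r, -(b - k d))`, of determinant 1, `|-r| < |c|`.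
-/

open scoped ContDiff Manifold Topology unitInterval
open Set Filter
open Pool.Agent.CSG (stp)
open Pool.Agent.RSG (E3 E4 S2 S3 S4 ex cj c1 c2 ht fh pS2 pS3 pS4)
open Pool.Agent.RBM (ThickT OnT Box)
open Pool.Agent.LKF (OnF)
open Pool.Agent.PTH (SP ISP)
open Pool.Agent.KNH (circ)
open Pool.Agent.LKT (s1 s2 dir)

namespace Pool.Agent.MMV

private theorem lfm_congr {L L' : Sl} (h : Nonempty (TFam L)) (ha : L.a = L'.a) (hb : L.b = L'.b) (hc : L.c = L'.c)
    (hd : L.d = L'.d) : Nonempty (TFam L') := by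
  have : L = L' := Sl.ext ha hb hc hd
  rw [← this]
  exact h

private theorem lfm_J : Nonempty (TFam ⟨0, 1, -1, 0⟩) :=
  lfm_congr (fam_mul (fam_mul (fam_upper 1) (fam_lower (-1))) (fam_upper 1)) (by norm_num) (by norm_num) (by norm_num)
    (by norm_num)

private theorem lfm_J' : Nonempty (TFam ⟨0, -1, 1, 0⟩) :=
  lfm_congr (fam_mul (fam_mul (fam_lower 1) (fam_upper (-1))) (fam_lower 1)) (by norm_num) (by norm_num) (by norm_num)
    (by norm_num)

private theorem lfm_ind (n : ℕ) : ∀ L : Sl, L.c.natAbs = n → L.a * L.d - L.b * L.c = 1 → Nonempty (TFam L) := by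
  induction n using Nat.strong_induction_on with
  | _ n ih =>
    intro L hn h
    by_cases hc : L.c = 0
    · have h1 : L.a * L.d = 1 := by
        rw [hc] at h
        linarith
      rcases Int.eq_one_or_neg_one_of_mul_eq_one h1 with ha | ha
      · have hd : L.d = 1 := by
          rw [ha, one_mul] at h1
          exact h1
        exact lfm_congr (fam_upper L.b) ha.symm rfl hc.symm hd.symm
      · have hd : L.d = -1 := by
          rw [ha] at h1
          linarith
        refine lfm_congr (fam_mul (fam_mul lfm_J lfm_J) (fam_upper (-L.b))) ?_ ?_ ?_ ?_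
        · simp [ha]
        · simp
        · simp [hc]
        · simp [hd]
    · have hr0 : 0 ≤ L.a % L.c := Int.emod_nonneg _ hc
      have hr1 : L.a % L.c < |L.c| := Int.emod_lt_abs _ hc
      have hra : L.c * (L.a / L.c) + L.a % L.c = L.a := Int.mul_ediv_add_emod _ _
      set k := L.a / L.c with hk
      set r := L.a % L.c with hr
      have hlt : (-r).natAbs < n := by
        rw [← hn]
        rcases abs_cases L.c with ⟨h3, h4⟩ | ⟨h3, h4⟩ <;> rw [h3] at hr1 <;> omega
      have h2 : Nonempty (TFam ⟨L.c, L.d, -r, -(L.b - k * L.d)⟩) := by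
        refine ih _ hlt _ rfl ?_
        show L.c * -(L.b - k * L.d) - L.d * -r = 1
        rw [← h, ← hra]
        ring
      refine lfm_congr (fam_mul (fam_upper k) (fam_mul lfm_J' h2)) ?_ ?_ ?_ ?_
      · simp only
        linear_combination hra
      · simp only
        ring
      · simp only
        ring
      · simp only
        ring

theorem exists_fam (L : Sl) (h : L.a * L.d - L.b * L.c = 1) : Nonempty (TFam L) :=
  lfm_ind _ L rfl h

end Pool.Agent.MMV
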