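import Pool.Agent.MMV.LBp

/-!
# MMV/LSh
: the shear of `S³ × S¹`   (difficulty 4)

For `p` with `s2 p.1 ≠ 0` choose `(c, z, t)`, `‖c‖ < 1`, `bp c z t = p` (`bp_surj`) and let `S p = bp c (F.f (‖c‖², z, t)).1 (F.f (‖c‖², z, t)).2`; `S p = p` if `s2 p.1 = 0`.
* formula (last clause): by `bp_inj` the chosen `(c', z', t')` has `c' = c`, `z' = z + m`, `t' = t + n`; `F.equi` and `bp_per` (with the integers `L.a m + L.b n`, `L.c m + L.d n`).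
* inverse: `T p = bp c (F.g (‖c‖², z, t)).1 (F.g ..).2`.  `F.g (q, z + i, t + j) = F.g (q, z, t) + (i', j')` with `(i', j') = (L.d i - L.b j, -L.c i + L.a j)`: apply `F.f` (injective, `F.gf`, `F.fg`) and `F.equi` with `(i', j')`, using `det = 1`.  So the formula for `T` holds as well and `S`, `T` are inverse (`F.gf`, `F.fg`; `s2 (bp c z t) ≠ 0` for `‖c‖ < 1`: `bp_s`).
* local diffeomorphism at `p = bp c z t`, `‖c‖ < 1`: `S ∘ bp = bp ∘ Θ` near `(c, z, t)`, `Θ (c, z, t) = (c, F.f (‖c‖², z, t))`, a diffeomorphism of `ℂ × ℝ × ℝ` (smooth with the smooth inverse `(c, F.g (‖c‖², z, t))`; `‖c‖²` is smooth), and `bp` is a local diffeomorphism (`bp_loc`) at `(c, z, t)` and at `Θ (c, z, t)`: `S = bp ∘ Θ ∘ (bp)⁻¹` near `p`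
  (`IsLocalDiffeomorphAt` composition; search for `ld_of_comp`, `ld_comp`, `ld_descend` in RSG/LDc, LKF, PTH).
* `p ∈ Zn`: `bp_zone` and `F.near` (`‖c‖² < 1/16`).
-/

open scoped ContDiff Manifold Topology unitInterval
open Set Filter
open Pool.Agent.CSG (stp)
open Pool.Agent.RSG (E3 E4 S2 S3 S4 ex cj c1 c2 ht fh pS2 pS3 pS4)
open Pool.Agent.RBM (ThickT OnT Box)
open Pool.Agent.LKF (OnF)
open Pool.Agent.PTH (SP ISP)
open Pool.Agent.KNH (circ)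
open Pool.Agent.LKT (s1 s2 dir)

namespace Pool.Agent.MMV

/-- a map given in the coordinates `bp` -/
theorem lsh_ex (Φ : ℝ × ℝ × ℝ → ℝ × ℝ) (a b e d : ℤ)
    (hequi : ∀ (q z t : ℝ) (m n : ℤ), Φ (q, z + m, t + n) = Φ (q, z, t) + ((a * m + b * n : ℝ), (e * m + d * n : ℝ))) :
    ∃ S : SP → SP, (∀ p : SP, s2 p.1 = 0 → S p = p) ∧
      ∀ (c : ℂ) (z t : ℝ), ‖c‖ < 1 → S (bp c z t) = bp c (Φ (‖c‖ ^ 2, z, t)).1 (Φ (‖c‖ ^ 2, z, t)).2 := by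
  have key : ∀ p : SP, ∃ p' : SP, (s2 p.1 = 0 → p' = p) ∧
      ∀ (c : ℂ) (z t : ℝ), ‖c‖ < 1 → p = bp c z t → p' = bp c (Φ (‖c‖ ^ 2, z, t)).1 (Φ (‖c‖ ^ 2, z, t)).2 := by
    intro p
    by_cases hp : s2 p.1 = 0
    · refine ⟨p, fun _ => rfl, ?_⟩
      rintro c z t hc rfl
      exfalso
      rw [(bp_s hc.le z t).2] at hp
      have h1 : 0 < Real.sqrt (1 - ‖c‖ ^ 2) := Real.sqrt_pos.2 (by nlinarith [norm_nonneg c])
      rcases mul_eq_zero.1 hp with h2 | h2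
      · rw [Complex.ofReal_eq_zero] at h2
        exact h1.ne' h2
      · exact RSG.ex_ne z h2
    · obtain ⟨c, z, t, hc, rfl⟩ := bp_surj hp
      refine ⟨bp c (Φ (‖c‖ ^ 2, z, t)).1 (Φ (‖c‖ ^ 2, z, t)).2, fun h => absurd h hp, ?_⟩
      intro c' z' t' hc' he
      obtain ⟨h1, ⟨m, hm⟩, ⟨n, hn⟩⟩ := bp_inj hc hc' he
      rw [← h1, hm, hn, hequi]
      have h2 := bp_per c (Φ (‖c‖ ^ 2, z, t)).1 (Φ (‖c‖ ^ 2, z, t)).2 (a * m + b * n) (e * m + d * n)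
      rw [← h2]
      push_cast
      rfl
  choose S hS0 hS using key
  exact ⟨S, hS0, fun c z t hc => hS _ c z t hc rfl⟩

theorem lsh_g {L : Sl} (h : L.a * L.d - L.b * L.c = 1) (F : TFam L) (q z t : ℝ) (i j : ℤ) :
    F.g (q, z + i, t + j) = F.g (q, z, t) +
      (((L.d : ℤ) * i + (-L.b : ℤ) * j : ℝ), ((-L.c : ℤ) * i + (L.a : ℤ) * j : ℝ)) := by
  have h' : (L.a : ℝ) * L.d - L.b * L.c = 1 := by exact_mod_cast h
  have h1 := F.equi q (F.g (q, z, t)).1 (F.g (q, z, t)).2 (L.d * i - L.b * j) (-L.c * i + L.a * j)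
  have h2 : F.f (q, (F.g (q, z, t)).1, (F.g (q, z, t)).2) = (z, t) := F.fg q z t
  rw [h2] at h1
  have h3 : ((z, t) : ℝ × ℝ) + ((L.a * ((L.d * i - L.b * j : ℤ) : ℝ) + L.b * ((-L.c * i + L.a * j : ℤ) : ℝ) : ℝ),
      (L.c * ((L.d * i - L.b * j : ℤ) : ℝ) + L.d * ((-L.c * i + L.a * j : ℤ) : ℝ) : ℝ)) = (z + i, t + j) := by
    ext
    · simp only [Prod.mk_add_mk]
      push_cast
      linear_combination (i : ℝ) * h'
    · simp only [Prod.mk_add_mk]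
      push_cast
      linear_combination (j : ℝ) * h'
  rw [h3] at h1
  have h4 := F.gf q ((F.g (q, z, t)).1 + ((L.d * i - L.b * j : ℤ) : ℝ))
    ((F.g (q, z, t)).2 + ((-L.c * i + L.a * j : ℤ) : ℝ))
  rw [h1] at h4
  rw [h4]
  ext
  · simp only [Prod.fst_add]
    push_cast
    ring
  · simp only [Prod.snd_add]
    push_cast
    ring

theorem lsh_bp_ne {c : ℂ} (hc : ‖c‖ < 1) (z t : ℝ) : s2 (bp c z t).1 ≠ 0 := by
  rw [(bp_s hc.le z t).2]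
  have h1 : 0 < Real.sqrt (1 - ‖c‖ ^ 2) := Real.sqrt_pos.2 (by nlinarith [norm_nonneg c])
  exact mul_ne_zero (Complex.ofReal_ne_zero.2 h1.ne') (RSG.ex_ne z)

theorem exists_sh {L : Sl} (h : L.a * L.d - L.b * L.c = 1) (F : TFam L) :
    ∃ S : Equiv.Perm SP, (∀ p : SP, s2 p.1 ≠ 0 → IsLocalDiffeomorphAt ISP ISP ∞ S p) ∧
      (∀ p : SP, s2 p.1 = 0 → S p = p) ∧ (∀ p ∈ Zn, S p = p) ∧
      ∀ (c : ℂ) (z t : ℝ), ‖c‖ < 1 → S (bp c z t) = bp c (F.f (‖c‖ ^ 2, z, t)).1 (F.f (‖c‖ ^ 2, z, t)).2 := by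
  obtain ⟨S, hS0, hS⟩ := lsh_ex F.f L.a L.b L.c L.d F.equi
  obtain ⟨T, hT0, hT⟩ := lsh_ex F.g L.d (-L.b) (-L.c) L.a (fun q z t m n => lsh_g h F q z t m n)
  have hTS : ∀ p, T (S p) = p := by
    intro p
    by_cases hp : s2 p.1 = 0
    · rw [hS0 p hp, hT0 p hp]
    · obtain ⟨c, z, t, hc, rfl⟩ := bp_surj hp
      rw [hS c z t hc, hT _ _ _ hc]
      have h1 : F.g (‖c‖ ^ 2, (F.f (‖c‖ ^ 2, z, t)).1, (F.f (‖c‖ ^ 2, z, t)).2) = (z, t) := F.gf _ z t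
      rw [h1]
  have hST : ∀ p, S (T p) = p := by
    intro p
    by_cases hp : s2 p.1 = 0
    · rw [hT0 p hp, hS0 p hp]
    · obtain ⟨c, z, t, hc, rfl⟩ := bp_surj hp
      rw [hT c z t hc, hS _ _ _ hc]
      have h1 : F.f (‖c‖ ^ 2, (F.g (‖c‖ ^ 2, z, t)).1, (F.g (‖c‖ ^ 2, z, t)).2) = (z, t) := F.fg _ z t
      rw [h1]
  refine ⟨⟨S, T, hTS, hST⟩, ?_, hS0, ?_, hS⟩
  · intro p hp
    obtain ⟨c, z, t, hc, rfl⟩ := bp_surj hp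
    have hn : ContDiff ℝ ∞ fun q : ℂ × ℝ × ℝ => ((‖q.1‖ ^ 2, q.2.1, q.2.2) : ℝ × ℝ × ℝ) :=
      ((contDiff_norm_sq ℝ).comp contDiff_fst).prodMk (contDiff_snd.fst.prodMk contDiff_snd.snd)
    let Θ : (ℂ × ℝ × ℝ) ≃ (ℂ × ℝ × ℝ) :=
      ⟨fun q => (q.1, F.f (‖q.1‖ ^ 2, q.2.1, q.2.2)), fun q => (q.1, F.g (‖q.1‖ ^ 2, q.2.1, q.2.2)),
        fun q => by
          have h1 : F.g (‖q.1‖ ^ 2, (F.f (‖q.1‖ ^ 2, q.2.1, q.2.2)).1, (F.f (‖q.1‖ ^ 2, q.2.1, q.2.2)).2) =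
            (q.2.1, q.2.2) := F.gf _ _ _
          exact Prod.ext rfl h1,
        fun q => by
          have h1 : F.f (‖q.1‖ ^ 2, (F.g (‖q.1‖ ^ 2, q.2.1, q.2.2)).1, (F.g (‖q.1‖ ^ 2, q.2.1, q.2.2)).2) =
            (q.2.1, q.2.2) := F.fg _ _ _
          exact Prod.ext rfl h1⟩
    have hΘ : IsLocalDiffeomorphAt 𝓘(ℝ, ℂ × ℝ × ℝ) 𝓘(ℝ, ℂ × ℝ × ℝ) ∞ Θ (c, z, t) :=
      CSG.ld_of_perm (f := Θ) (contDiff_fst.prodMk (F.f_smooth.comp hn)) (contDiff_fst.prodMk (F.g_smooth.comp hn)) _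
    have hb2 := bp_loc (c := c) hc (F.f (‖c‖ ^ 2, z, t)).1 (F.f (‖c‖ ^ 2, z, t)).2
    have h1 : IsLocalDiffeomorphAt 𝓘(ℝ, ℂ × ℝ × ℝ) ISP ∞
        ((fun q : ℂ × ℝ × ℝ => bp q.1 q.2.1 q.2.2) ∘ Θ) (c, z, t) :=
      IsLocalDiffeomorphAt.comp (hf := hΘ) (hg := hb2)
    refine ACB.cmt_quot (g := fun q : ℂ × ℝ × ℝ => bp q.1 q.2.1 q.2.2) (x := (c, z, t)) (bp_loc hc z t) h1 ?_
    have hop : IsOpen {q : ℂ × ℝ × ℝ | ‖q.1‖ < 1} := isOpen_lt continuous_fst.norm continuous_const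
    filter_upwards [hop.mem_nhds (show (c, z, t) ∈ {q : ℂ × ℝ × ℝ | ‖q.1‖ < 1} from hc)] with q hq
    exact hS q.1 q.2.1 q.2.2 hq
  · intro p hp
    obtain ⟨c, z, t, hc, hz, ht, rfl⟩ := bp_zone hp
    have hc1 : ‖c‖ < 1 := by nlinarith [norm_nonneg c]
    change S (bp c z t) = bp c z t
    rw [hS c z t hc1, F.near _ _ _ hc hz ht]

end Pool.Agent.MMV
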