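import Pool.Agent.MMV.LHL
import Pool.Agent.MMV.LFm
import Pool.Agent.MMV.LSh
import Pool.Agent.MMV.LCs

/-!
# MMV/LHK: the package of the shear of the left half (helper84)

`exists_fam`, `exists_sh`, `exists_hL`, `left_cls`.
-/

open scoped ContDiff Manifold Topology unitInterval
open Set Filter
open Pool.Agent.RSG (E3 E4 S2 S3 S4 ex cj c1 c2 ht fh pS2 pS3 pS4)
open Pool.Agent.RBM (ThickT OnT Box)
open Pool.Agent.LKF (OnF)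
open Pool.Agent.PTH (SP ISP)
open Pool.Agent.KNH (circ)
open Pool.Agent.LKT (s1 s2 dir)

namespace Pool.Agent.MMV

theorem lhk_sphere (v : S2) : ((pol (-32, v)).2 : ℂ) = -1 ∧ (s2 (pol (-32, v)).1).re = 1023 / 1025 := by
  have h32 : (-32 : ℂ) ≠ 0 := by norm_num
  constructor
  · show ((dir (-32 : ℂ) : Circle) : ℂ) = -1
    rw [dir_coe h32]
    norm_num
  · show (s2 (sY ((‖(-32 : ℂ)‖ : ℝ) • v.1))).re = 1023 / 1025
    have hv : ‖v.1‖ = 1 := by simpa using v.2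
    have hn : ‖(‖(-32 : ℂ)‖ : ℝ) • v.1‖ = 32 := by
      rw [norm_smul, hv]
      simp
    rw [(sY_s _).2, hn]
    rw [Complex.re_ofReal_mul]
    norm_num

theorem lhk_ne {p : SP} (h : ¬ ((p.2 : ℂ) = -1 ∧ (s2 p.1).re = 1023 / 1025)) (v : S2) : p ≠ pol (-32, v) := by
  intro he
  apply h
  rw [he]
  exact lhk_sphere v

theorem exists_hpk {M : Type} [TopologicalSpace M] [ChartedSpace E4 M] [T2Space M] {k₁ k₂ : ℝ × E3 → M} {ε : ℝ}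
    {mp : ℂ × S2 → M} {ρ₀ : ℝ × E3 → M} (D : DM k₁ k₂ ε mp ρ₀) (L : Sl) (hL : L.a * L.d - L.b * L.c = 1)
    {x : FundamentalGroup M (mp (0, e₁))} (hx : BCls (mp (0, e₁)) (fun τ => ptM mp ρ₀ (-1 / 2 + 1 / 2 * ex τ)) x) :
    ∃ H : Equiv.Perm M, HPk k₁ k₂ mp ρ₀ L x H := by
  obtain ⟨F⟩ := exists_fam L hL
  obtain ⟨S, S1, S2', S3', S4'⟩ := exists_sh hL F
  obtain ⟨H, H1, H2, H3, H4⟩ := exists_hL D S S1 S2' S3'
  have hK : ContK (KL k₁ mp ρ₀) := by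
    intro p hp
    exact CSG.ld_continuousAt (KL_ld D (lhk_ne hp))
  have hV : KVal (KL k₁ mp ρ₀) mp ρ₀ :=
    ⟨fun W v hW => KL_pol k₁ mp ρ₀ hW v, fun t => KL_tubN D t, fun l => D.ρ_per l 0 (by rw [norm_zero]; norm_num)⟩
  have hJ : ∀ (W : ℂ) (v : S2), W ≠ 0 → W ≠ 1 → J0 k₁ k₂ mp (pol (W, v)) = mp (V0 W, v) :=
    fun W v hW _ => J0_pol k₁ k₂ mp hW v
  have hbp : ∀ (c : ℂ) (z t : ℝ), ‖c‖ < 1 →
      ¬ (((circ t : Circle) : ℂ) = -1 ∧ Real.sqrt (1 - ‖c‖ ^ 2) * Real.cos (2 * Real.pi * z) = 1023 / 1025) →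
      H (KL k₁ mp ρ₀ (bp c z t)) = KL k₁ mp ρ₀ (bp c (F.f (‖c‖ ^ 2, z, t)).1 (F.f (‖c‖ ^ 2, z, t)).2) := by
    intro c z t hc hn
    have hne : ∀ v, bp c z t ≠ pol (-32, v) := by
      apply lhk_ne
      rintro ⟨h1, h2⟩
      apply hn
      refine ⟨h1, ?_⟩
      rw [(bp_s hc.le z t).2, Complex.re_ofReal_mul, Pool.Agent.RSG.ex_re] at h2
      exact h2
    rw [(H1 _ hne).2, S4' c z t hc]
  have hH : ∀ c z t : ℝ, 0 ≤ c → c < 1 → ¬ Shd c z t →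
      H (KL k₁ mp ρ₀ (bp (c : ℂ) z t)) = KL k₁ mp ρ₀ (bp (c : ℂ) (F.f (c ^ 2, z, t)).1 (F.f (c ^ 2, z, t)).2) := by
    intro c z t h0 h1 hs
    have hc : ‖(c : ℂ)‖ = c := by
      rw [Complex.norm_real, Real.norm_eq_abs, abs_of_nonneg h0]
    have := hbp (c : ℂ) z t (by rw [hc]; exact h1) (by
      rw [hc]
      rintro ⟨h2, h3⟩
      exact hs ⟨h2, h3.ge⟩)
    rw [hc] at this
    exact this
  obtain ⟨C1, C2, C3⟩ := left_cls hK hV hJ hx hL F hH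
  refine ⟨H, ⟨H3, H4, H2, ?_, C1, C2, C3⟩⟩
  intro l r z t hr0 hr1
  have hrn : ∀ z' : ℝ, ‖((r : ℝ) : ℂ) * ex z'‖ < 1 := by
    intro z'
    rw [norm_mul, Pool.Agent.RSG.ex_norm, Complex.norm_real, Real.norm_eq_abs, abs_of_pos hr0, mul_one]
    exact hr1
  have key : ∀ z' t' : ℝ, J0 k₁ k₂ mp (κS₁ (l, ((r : ℝ) : ℂ) * ex z', t')) =
      KL k₁ mp ρ₀ (bp (((Real.sqrt (1 - r ^ 2 / 4) : ℝ) : ℂ) * ex l) z' t') := by
    intro z' t'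
    rw [κS₁_KL D l (hrn z') t']
    exact congrArg _ (bp_YK hr0.le (by linarith) l z' t')
  have hcn : ‖(((Real.sqrt (1 - r ^ 2 / 4) : ℝ) : ℂ) * ex l)‖ = Real.sqrt (1 - r ^ 2 / 4) := by
    rw [norm_mul, Pool.Agent.RSG.ex_norm, Complex.norm_real, Real.norm_eq_abs, abs_of_nonneg (Real.sqrt_nonneg _), mul_one]
  have hsq : Real.sqrt (1 - r ^ 2 / 4) ^ 2 = 1 - r ^ 2 / 4 := Real.sq_sqrt (by nlinarith)
  have hlt : Real.sqrt (1 - r ^ 2 / 4) < 1 := by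
    rw [Real.sqrt_lt' one_pos]
    nlinarith
  rw [key, hbp _ z t (by rw [hcn]; exact hlt) ?_, hcn, hsq, F.lin _ z t (by nlinarith), key]
  rw [hcn, hsq]
  rintro ⟨-, h2⟩
  have h3 : Real.sqrt (1 - (1 - r ^ 2 / 4)) = r / 2 := by
    rw [show 1 - (1 - r ^ 2 / 4) = (r / 2) ^ 2 by ring]
    exact Real.sqrt_sq (by linarith)
  rw [h3] at h2
  have := Real.cos_le_one (2 * Real.pi * z)
  nlinarith

end Pool.Agent.MMV
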