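import Pool.Agent.MMV.LFT
import Pool.Agent.MMV.LHK

/-!
# MMV/LAs: the two shears of the double give the data of MMV/LFT (helper40)

`H₁`: shear of the left half (`L₁ = M₁⁻¹`), `H₂`: shear of the right half (`L₂ = (-M₂)⁻¹`, symmetric data).  `J = H₁ ∘ H₂ ∘ J0`, `ρ = H₁ ∘ H₂ ∘ ρ₀`.
-/

open scoped ContDiff Manifold Topology unitInterval
open Set Filter
open Pool.Agent.RSG (E3 E4 S2 S3 S4 ex cj c1 c2 ht fh pS2 pS3 pS4)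
open Pool.Agent.RBM (ThickT OnT Box)
open Pool.Agent.LKF (OnF)
open Pool.Agent.PTH (SP ISP)
open Pool.Agent.KNH (circ)
open Pool.Agent.LKT (s1 s2 dir)

namespace Pool.Agent.MMV

section
variable {M : Type} [TopologicalSpace M] [ChartedSpace E4 M] {k₁ k₂ : ℝ × E3 → M} {ε : ℝ} {mp : ℂ × S2 → M} {ρ₀ : ℝ × E3 → M}

/-- the first torus is in the left half -/
theorem las_LH (D : DM k₁ k₂ ε mp ρ₀) (l : ℝ) {v : ℂ} (hv : ‖v‖ < 1) (t : ℝ) :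
    RP (shT k₁) (ngM mp) (shT ρ₀) (J0 k₁ k₂ mp (κS₁ (l, v, t))) :=
  J0_LP D (Y := YK l v) (t := t) ((YK_norm l hv).le.trans (by norm_num)) (offS_κS₁ l hv t)

/-- the second torus is in the right half -/
theorem las_RH (D : DM k₁ k₂ ε mp ρ₀) (l : ℝ) {v : ℂ} (hv : ‖v‖ < 1) (t : ℝ) :
    RP k₂ mp ρ₀ (J0 k₁ k₂ mp (κS₂ (l, v, t))) := by
  have hv' : ‖-(starRingEnd ℂ) v‖ < 1 := by
    rw [norm_neg, RCLike.norm_conj]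
    exact hv
  have hn := YK_norm l hv'
  have hoff := offS_κS₂ l hv t
  have e : κS₂ (l, v, t) = (Inv (sY (YK l (-(starRingEnd ℂ) v))), circ t) := rfl
  set Y := YK l (-(starRingEnd ℂ) v) with hY
  rcases eq_or_ne Y 0 with h | h
  · rw [e, h]
    exact Or.inr (Or.inl ⟨-t, J0_tubN D t⟩)
  · have e' : κS₂ (l, v, t) = tubS (t, (‖Y‖ ^ 2)⁻¹ • Y) := by
      rw [e, sY_inv h]
      rfl
    rw [e'] at hoff ⊢
    refine J0_RP D ?_ hoff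
    have hp : 0 < ‖Y‖ := norm_pos_iff.2 h
    rw [norm_smul, norm_inv, norm_pow, norm_norm, pow_two, mul_inv, mul_assoc, inv_mul_cancel₀ hp.ne', mul_one]
    rw [one_le_inv₀ hp]
    linarith

/-- the second torus in the symmetric data -/
theorem las_J2 (D : DM k₁ k₂ ε mp ρ₀) (l : ℝ) {v : ℂ} (hv : ‖v‖ < 1) (t : ℝ) :
    J0 (shT k₂) (shT k₁) (ngM mp) (κS₁ (l, v, t)) = J0 k₁ k₂ mp (κS₂ (l, -(starRingEnd ℂ) v, -t)) := by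
  rw [J0_symm D (offS_κS₁ l hv t), κS₂_eq]
  simp only [map_neg, Complex.conj_conj, neg_neg]

variable {L₁ L₂ : Sl} {x : FundamentalGroup M (mp (0, e₁))} {y : FundamentalGroup M (ngM mp (0, e₁))} {H₁ H₂ : Equiv.Perm M}

/-- `H₂` does not move the first torus -/
theorem las_f21 (D : DM k₁ k₂ ε mp ρ₀) (h₂ : HPk (shT k₂) (shT k₁) (ngM mp) (shT ρ₀) L₂ y H₂) (l : ℝ) {v : ℂ} (hv : ‖v‖ < 1)
    (t : ℝ) : H₂ (J0 k₁ k₂ mp (κS₁ (l, v, t))) = J0 k₁ k₂ mp (κS₁ (l, v, t)) := h₂.fixR _ (las_LH D l hv t)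

theorem las_f12 (D : DM k₁ k₂ ε mp ρ₀) (h₁ : HPk k₁ k₂ mp ρ₀ L₁ x H₁) (l : ℝ) {v : ℂ} (hv : ‖v‖ < 1)
    (t : ℝ) : H₁ (J0 k₁ k₂ mp (κS₂ (l, v, t))) = J0 k₁ k₂ mp (κS₂ (l, v, t)) := h₁.fixR _ (las_RH D l hv t)

theorem las_f22 (D : DM k₁ k₂ ε mp ρ₀) (h₂ : HPk (shT k₂) (shT k₁) (ngM mp) (shT ρ₀) L₂ y H₂) (l t : ℝ) :
    H₂ (J0 k₁ k₂ mp (κS₂ (l, 0, t))) = J0 k₁ k₂ mp (κS₂ (l, 0, t)) := by
  have h := h₂.fixT l (-t)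
  rw [las_J2 D l (by simp) (-t)] at h
  simpa using h

/-- the map `J` fixes the tori -/
theorem las_core (D : DM k₁ k₂ ε mp ρ₀) (h₁ : HPk k₁ k₂ mp ρ₀ L₁ x H₁)
    (h₂ : HPk (shT k₂) (shT k₁) (ngM mp) (shT ρ₀) L₂ y H₂) (i : Fin 2) (l t : ℝ) :
    H₁ (H₂ (J0 k₁ k₂ mp (![κS₁, κS₂] i (l, 0, t)))) = J0 k₁ k₂ mp (![κS₁, κS₂] i (l, 0, t)) := by
  fin_cases i
  · change H₁ (H₂ (J0 k₁ k₂ mp (κS₁ (l, 0, t)))) = J0 k₁ k₂ mp (κS₁ (l, 0, t))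
    rw [las_f21 D h₂ l (by simp) t, h₁.fixT]
  · change H₁ (H₂ (J0 k₁ k₂ mp (κS₂ (l, 0, t)))) = J0 k₁ k₂ mp (κS₂ (l, 0, t))
    rw [las_f22 D h₂ l t, las_f12 D h₁ l (by simp) t]

theorem las_off {p : SP} (h : ¬ OnF ![κS₁, κS₂] p) (l t : ℝ) : p ≠ κS₁ (l, 0, t) ∧ p ≠ κS₂ (l, 0, t) :=
  ⟨fun e => h ⟨0, l, t, e⟩, fun e => h ⟨1, l, t, e⟩⟩

/-- local diffeomorphism at the points of `M` which are off the two tori -/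
theorem las_loc (D : DM k₁ k₂ ε mp ρ₀) (h₁ : HPk k₁ k₂ mp ρ₀ L₁ x H₁)
    (h₂ : HPk (shT k₂) (shT k₁) (ngM mp) (shT ρ₀) L₂ y H₂) {m : M}
    (hm : ∀ l t, m ≠ J0 k₁ k₂ mp (κS₁ (l, 0, t)) ∧ m ≠ J0 k₁ k₂ mp (κS₂ (l, 0, t))) :
    IsLocalDiffeomorphAt (𝓡 4) (𝓡 4) ∞ (fun m => H₁ (H₂ m)) m := by
  have e2 : IsLocalDiffeomorphAt (𝓡 4) (𝓡 4) ∞ H₂ m := by
    refine h₂.loc m fun l t e => ?_
    rw [las_J2 D l (by simp) t] at e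
    refine (hm l (-t)).2 ?_
    simpa using e
  have e1 : IsLocalDiffeomorphAt (𝓡 4) (𝓡 4) ∞ H₁ (H₂ m) := by
    refine h₁.loc _ fun l t e => ?_
    rw [← las_f21 D h₂ l (v := 0) (by simp) t] at e
    exact (hm l t).1 (H₂.injective e)
  exact IsLocalDiffeomorphAt.comp (hf := e2) (hg := e1) ..

/-- the plane change of coordinates of the tubes -/
noncomputable def lasE (α β : ℝ) : ℝ × ℝ × ℂ ≃ ℝ × ℂ × ℝ where
  toFun q := (q.1, q.2.2 * ex α, q.2.1 + β)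
  invFun q := (q.1, q.2.2 - β, q.2.1 * ex (-α))
  left_inv q := by
    refine Prod.ext rfl (Prod.ext ?_ ?_)
    · change q.2.1 + β - β = q.2.1
      ring
    · change q.2.2 * ex α * ex (-α) = q.2.2
      rw [mul_assoc, ← RSG.ex_add, add_neg_cancel, RSG.ex_zero, mul_one]
  right_inv q := by
    refine Prod.ext rfl (Prod.ext ?_ ?_)
    · change q.2.1 * ex (-α) * ex α = q.2.1
      rw [mul_assoc, ← RSG.ex_add, neg_add_cancel, RSG.ex_zero, mul_one]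
    · change q.2.2 - β + β = q.2.2
      ring

theorem lasE_ld (α β : ℝ) (q : ℝ × ℝ × ℂ) : IsLocalDiffeomorphAt 𝓘(ℝ, ℝ × ℝ × ℂ) 𝓘(ℝ, ℝ × ℂ × ℝ) ∞ (lasE α β) q := by
  refine CSG.ld_of_perm ?_ ?_ q
  · exact contDiff_fst.prodMk ((contDiff_snd.snd.mul contDiff_const).prodMk (contDiff_snd.fst.add contDiff_const))
  · exact contDiff_fst.prodMk ((contDiff_snd.snd.sub contDiff_const).prodMk (contDiff_snd.fst.mul contDiff_const))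

theorem las_nm {ξ : ℂ} (h : ‖ξ‖ < 1) (α : ℝ) : ‖ξ * ex α‖ < 1 := by
  rw [norm_mul, RSG.ex_norm, mul_one]
  exact h

theorem las_nr {r : ℝ} (h0 : 0 < r) (h : r < 1) (α : ℝ) : ‖(r : ℂ) * ex α‖ < 1 := by
  rw [norm_mul, RSG.ex_norm, mul_one, Complex.norm_real, Real.norm_of_nonneg h0.le]
  exact h

/-- the tubes of the refilled tori -/
noncomputable def lasF (k₁ k₂ : ℝ × E3 → M) (mp : ℂ × S2 → M) (M₁ M₂ : Sl) : Fin 2 → ℝ × ℝ × ℂ → M :=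
  ![fun q => J0 k₁ k₂ mp (κS₁ (lasE (M₁.b / 2) (1 / 2 - M₁.a / 2) q)),
    fun q => J0 (shT k₂) (shT k₁) (ngM mp) (κS₁ (lasE (-(M₂.b + M₂.d) / 2) ((1 + M₂.a + M₂.c) / 2) q))]

theorem las_Floc (D : DM k₁ k₂ ε mp ρ₀) (α β l s : ℝ) {ξ : ℂ} (h : ‖ξ‖ < 1) :
    IsLocalDiffeomorphAt 𝓘(ℝ, ℝ × ℝ × ℂ) (𝓡 4) ∞ (fun q => J0 k₁ k₂ mp (κS₁ (lasE α β q))) (l, s, ξ) := by
  have h1 := lasE_ld α β (l, s, ξ)
  have h2 : IsLocalDiffeomorphAt 𝓘(ℝ, ℝ × ℂ × ℝ) ISP ∞ κS₁ (lasE α β (l, s, ξ)) := κS₁_thick.loc l _ _ (las_nm h α)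
  have h3 : IsLocalDiffeomorphAt ISP (𝓡 4) ∞ (J0 k₁ k₂ mp) (κS₁ (lasE α β (l, s, ξ))) :=
    J0_ld D (offS_κS₁ l (las_nm h α) _)
  have h23 := IsLocalDiffeomorphAt.comp (hf := h2) (hg := h3) ..
  exact IsLocalDiffeomorphAt.comp (hf := h1) (hg := h23) ..

theorem las_Finj (D : DM k₁ k₂ ε mp ρ₀) (α β l s l' s' : ℝ) {ξ ξ' : ℂ} (h : ‖ξ‖ < 1) (h' : ‖ξ'‖ < 1)
    (e : J0 k₁ k₂ mp (κS₁ (lasE α β (l, s, ξ))) = J0 k₁ k₂ mp (κS₁ (lasE α β (l', s', ξ')))) :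
    ξ = ξ' ∧ (∃ m : ℤ, l' = l + m) ∧ ∃ m : ℤ, s' = s + m := by
  have e1 := J0_inj D (offS_κS₁ l (las_nm h α) _) (offS_κS₁ l' (las_nm h' α) _) e
  obtain ⟨e2, e3, m, e4⟩ := κS₁_thick.inj _ _ _ _ _ _ (las_nm h α) (las_nm h' α) e1
  refine ⟨mul_right_cancel₀ (RSG.ex_ne α) e2, e3, m, ?_⟩
  linarith

theorem las_Fne (D : DM k₁ k₂ ε mp ρ₀) (α β α' β' l s l' s' : ℝ) {ξ ξ' : ℂ} (h : ‖ξ‖ < 1) (h' : ‖ξ'‖ < 1) :
    J0 k₁ k₂ mp (κS₁ (lasE α β (l, s, ξ))) ≠ J0 (shT k₂) (shT k₁) (ngM mp) (κS₁ (lasE α' β' (l', s', ξ'))) := by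
  intro e
  have h2 := las_nm h' α'
  have h3 : ‖-(starRingEnd ℂ) (ξ' * ex α')‖ < 1 := by
    rw [norm_neg, RCLike.norm_conj]
    exact h2
  have e0 : J0 (shT k₂) (shT k₁) (ngM mp) (κS₁ (lasE α' β' (l', s', ξ'))) =
      J0 k₁ k₂ mp (κS₂ (l', -(starRingEnd ℂ) (ξ' * ex α'), -(s' + β'))) := las_J2 D l' h2 (s' + β')
  rw [e0] at e
  have e1 := J0_inj D (offS_κS₁ l (las_nm h α) _) (offS_κS₂ l' h3 _) e
  exact κS_disj _ _ _ _ _ _ (las_nm h α) h3 e1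

theorem lasE_per1 (α β l s : ℝ) (ξ : ℂ) : κS₁ (lasE α β (l + 1, s, ξ)) = κS₁ (lasE α β (l, s, ξ)) := κS₁_thick.perl _ _ _

theorem lasE_per2 (α β l s : ℝ) (ξ : ℂ) : κS₁ (lasE α β (l, s + 1, ξ)) = κS₁ (lasE α β (l, s, ξ)) := by
  have h := κS₁_thick.pert l (ξ * ex α) (s + β)
  have e : s + 1 + β = s + β + 1 := by ring
  change κS₁ (l, ξ * ex α, s + 1 + β) = κS₁ (l, ξ * ex α, s + β)
  rw [e, h]

/-- the gluing of the first torus -/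
theorem las_glue₁ (D : DM k₁ k₂ ε mp ρ₀) {M₁ : Sl} (hM : M₁.a * M₁.d - M₁.b * M₁.c = 1)
    (h₁ : HPk k₁ k₂ mp ρ₀ ⟨M₁.d, -M₁.b, -M₁.c, M₁.a⟩ x H₁)
    (h₂ : HPk (shT k₂) (shT k₁) (ngM mp) (shT ρ₀) L₂ y H₂) {l s r φ : ℝ} (h0 : 0 < r) (h1 : r < 1) :
    J0 k₁ k₂ mp (κS₁ (lasE (M₁.b / 2) (1 / 2 - M₁.a / 2) (l, s, r * ex φ))) =
      H₁ (H₂ (J0 k₁ k₂ mp (κS₁ (l, r * ex (M₁.a * φ + M₁.b * s), M₁.c * φ + M₁.d * s)))) := by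
  have hd : (M₁.a : ℝ) * M₁.d - M₁.b * M₁.c = 1 := by exact_mod_cast hM
  rw [las_f21 D h₂ l (las_nr h0 h1 _), h₁.tor l r _ _ h0 h1]
  simp only
  have ea : ((M₁.d : ℤ) : ℝ) * (M₁.a * φ + M₁.b * s) + ((-M₁.b : ℤ) : ℝ) * (M₁.c * φ + M₁.d * s - 1 / 2) = φ + M₁.b / 2 := by
    push_cast
    linear_combination φ * hd
  have eb : 1 / 2 + ((-M₁.c : ℤ) : ℝ) * (M₁.a * φ + M₁.b * s) + (M₁.a : ℝ) * (M₁.c * φ + M₁.d * s - 1 / 2) =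
      s + (1 / 2 - M₁.a / 2) := by
    push_cast
    linear_combination s * hd
  rw [ea, eb, RSG.ex_add, ← mul_assoc]
  rfl

/-- the gluing of the second torus -/
theorem las_glue₂ (D : DM k₁ k₂ ε mp ρ₀) {M₂ : Sl} (hM : M₂.a * M₂.d - M₂.b * M₂.c = 1) (h₁ : HPk k₁ k₂ mp ρ₀ L₁ x H₁)
    (h₂ : HPk (shT k₂) (shT k₁) (ngM mp) (shT ρ₀) ⟨-M₂.d, M₂.b, M₂.c, -M₂.a⟩ y H₂) {l s r φ : ℝ} (h0 : 0 < r) (h1 : r < 1) :
    J0 (shT k₂) (shT k₁) (ngM mp) (κS₁ (lasE (-(M₂.b + M₂.d) / 2) ((1 + M₂.a + M₂.c) / 2) (l, s, r * ex φ))) =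
      H₁ (H₂ (J0 k₁ k₂ mp (κS₂ (l, r * ex (M₂.a * φ + M₂.b * s), M₂.c * φ + M₂.d * s)))) := by
  have hd : (M₂.a : ℝ) * M₂.d - M₂.b * M₂.c = 1 := by exact_mod_cast hM
  set z := M₂.a * φ + M₂.b * s with hz
  set t := M₂.c * φ + M₂.d * s with ht
  have hcj : ∀ w : ℝ, -(starRingEnd ℂ) ((r : ℂ) * ex w) = r * ex (1 / 2 - w) := by
    intro w
    rw [sub_eq_add_neg, RSG.ex_add, RSG.ex_half, RSG.ex_neg, map_mul, Complex.conj_ofReal]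
    ring
  have e0 : J0 k₁ k₂ mp (κS₂ (l, r * ex z, t)) = J0 (shT k₂) (shT k₁) (ngM mp) (κS₁ (l, r * ex (1 / 2 - z), -t)) := by
    rw [las_J2 D l (las_nr h0 h1 _) (-t), hcj, neg_neg]
    congr 4
    ring_nf
  have ea : ((-M₂.d : ℤ) : ℝ) * (1 / 2 - z) + (M₂.b : ℝ) * (-t - 1 / 2) = φ + -(M₂.b + M₂.d) / 2 := by
    rw [hz, ht]
    push_cast
    linear_combination φ * hd
  have eb : 1 / 2 + (M₂.c : ℝ) * (1 / 2 - z) + ((-M₂.a : ℤ) : ℝ) * (-t - 1 / 2) = s + (1 + M₂.a + M₂.c) / 2 := by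
    rw [hz, ht]
    push_cast
    linear_combination s * hd
  have e1 : H₂ (J0 (shT k₂) (shT k₁) (ngM mp) (κS₁ (l, r * ex (1 / 2 - z), -t))) =
      J0 (shT k₂) (shT k₁) (ngM mp) (κS₁ (l, r * ex (φ + -(M₂.b + M₂.d) / 2), s + (1 + M₂.a + M₂.c) / 2)) := by
    rw [h₂.tor l r _ _ h0 h1]
    simp only
    rw [ea, eb]
  rw [e0, e1, las_J2 D l (las_nr h0 h1 _)]
  rw [las_f12 D h₁ l (by
    rw [norm_neg, RCLike.norm_conj]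
    exact las_nr h0 h1 _) _, ← las_J2 D l (las_nr h0 h1 _), RSG.ex_add, ← mul_assoc]
  rfl

/-- the data of MMV/LFT -/
theorem las_data (D : DM k₁ k₂ ε mp ρ₀) {M₁ M₂ : Sl} (hM₁ : M₁.a * M₁.d - M₁.b * M₁.c = 1) (hM₂ : M₂.a * M₂.d - M₂.b * M₂.c = 1)
    (h₁ : HPk k₁ k₂ mp ρ₀ ⟨M₁.d, -M₁.b, -M₁.c, M₁.a⟩ x H₁)
    (h₂ : HPk (shT k₂) (shT k₁) (ngM mp) (shT ρ₀) ⟨-M₂.d, M₂.b, M₂.c, -M₂.a⟩ y H₂) :
    LData (fun p => H₁ (H₂ (J0 k₁ k₂ mp p))) (fun q => H₁ (H₂ (ρ₀ q))) (lasF k₁ k₂ mp M₁ M₂) ![M₁, M₂] where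
  J_ld p hp hT := by
    have hm : ∀ l t, J0 k₁ k₂ mp p ≠ J0 k₁ k₂ mp (κS₁ (l, 0, t)) ∧ J0 k₁ k₂ mp p ≠ J0 k₁ k₂ mp (κS₂ (l, 0, t)) := fun l t =>
      ⟨fun e => (las_off hT l t).1 (J0_inj D hp (offS_κS₁ l (by simp) t) e),
        fun e => (las_off hT l t).2 (J0_inj D hp (offS_κS₂ l (by simp) t) e)⟩
    exact IsLocalDiffeomorphAt.comp (hf := J0_ld D hp) (hg := las_loc D h₁ h₂ hm) ..
  J_inj p p' hp hp' e := J0_inj D hp hp' (H₂.injective (H₁.injective e))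
  J_ne p hp l e := J0_ne D hp l (H₂.injective (H₁.injective e))
  J_cover m := by
    rcases J0_cover D (H₂.symm (H₁.symm m)) with ⟨p, hp, e⟩ | ⟨l, e⟩
    · exact Or.inl ⟨p, hp, by rw [← e, Equiv.apply_symm_apply, Equiv.apply_symm_apply]⟩
    · exact Or.inr ⟨l, by rw [← e, Equiv.apply_symm_apply, Equiv.apply_symm_apply]⟩
  J_EE l r v h0 h1 := by
    simp only [EE_J0 D h0 (by linarith) v]
  F_per1 i l s ξ _ := by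
    fin_cases i
    · exact congrArg (J0 k₁ k₂ mp) (lasE_per1 _ _ l s ξ)
    · exact congrArg (J0 (shT k₂) (shT k₁) (ngM mp)) (lasE_per1 _ _ l s ξ)
  F_per2 i l s ξ _ := by
    fin_cases i
    · exact congrArg (J0 k₁ k₂ mp) (lasE_per2 _ _ l s ξ)
    · exact congrArg (J0 (shT k₂) (shT k₁) (ngM mp)) (lasE_per2 _ _ l s ξ)
  F_loc i l s ξ h := by
    fin_cases i
    · exact las_Floc D _ _ l s h
    · exact las_Floc (dm_symm D) _ _ l s h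
  F_inj i l s ξ i' l' s' ξ' h h' e := by
    fin_cases i <;> fin_cases i'
    · exact ⟨rfl, las_Finj D _ _ l s l' s' h h' e⟩
    · exact absurd e (las_Fne D _ _ _ _ l s l' s' h h')
    · exact absurd e.symm (las_Fne D _ _ _ _ l' s' l s h' h)
    · exact ⟨rfl, las_Finj (dm_symm D) _ _ l s l' s' h h' e⟩
  glueF i l s r φ h0 h1 := by
    fin_cases i
    · exact las_glue₁ D hM₁ h₁ h₂ h0 h1
    · exact las_glue₂ D hM₂ h₁ h₂ h0 h1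
  F_core i l s := by
    fin_cases i
    · refine ⟨s + (1 / 2 - M₁.a / 2), ?_⟩
      have h := las_core D h₁ h₂ 0 l (s + (1 / 2 - M₁.a / 2))
      refine Eq.trans ?_ h.symm
      change J0 k₁ k₂ mp (κS₁ (l, 0 * ex _, _)) = J0 k₁ k₂ mp (κS₁ (l, 0, _))
      rw [zero_mul]
    · refine ⟨-(s + (1 + M₂.a + M₂.c) / 2), ?_⟩
      have h := las_core D h₁ h₂ 1 l (-(s + (1 + M₂.a + M₂.c) / 2))
      refine Eq.trans ?_ h.symm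
      change J0 (shT k₂) (shT k₁) (ngM mp) (κS₁ (l, 0 * ex _, _)) = J0 k₁ k₂ mp (κS₂ (l, 0, _))
      rw [zero_mul, las_J2 D l (by simp) _]
      simp
  F_surj i l t := by
    fin_cases i
    · refine ⟨t - (1 / 2 - M₁.a / 2), ?_⟩
      have h := las_core D h₁ h₂ 0 l t
      refine Eq.trans h ?_
      change J0 k₁ k₂ mp (κS₁ (l, 0, t)) = J0 k₁ k₂ mp (κS₁ (l, 0 * ex _, _ - _ + _))
      rw [zero_mul, sub_add_cancel]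
    · refine ⟨-t - (1 + M₂.a + M₂.c) / 2, ?_⟩
      have h := las_core D h₁ h₂ 1 l t
      refine Eq.trans h ?_
      change J0 k₁ k₂ mp (κS₂ (l, 0, t)) = J0 (shT k₂) (shT k₁) (ngM mp) (κS₁ (l, 0 * ex _, _ - _ + _))
      rw [zero_mul, sub_add_cancel, las_J2 D l (by simp) _]
      simp

end

end Pool.Agent.MMV
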