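import Pool.Agent.MMV.LDg
import Pool.Agent.ACB.TwD
import Pool.Agent.LKT.TwK
import Pool.Agent.RSG.LDc

/-!
# MMV/LMp: the double in polar form   (difficulty 4)

`S := D.S : Surg ![k₁, k₂] ε S4`; `S.A : M - circles → S⁴` is injective, a local diffeomorphism, `S⁴ = A (Off) ⊔ {Q i (0, v)}`, and `Q 0 (0, v) = stdS (-1/2) 0 v`, `Q 1 (0, v) = stdS (1/2) 0 v` are exactly the points of `S⁴ ⊆ ℂ × ℝ³` with first coordinate `u = -1/2` resp. `u = 1/2`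
(see ACB/TwD: `TwD_fib`, and ACB/ExD).  So for every `x ∈ S⁴` with `u x ≠ ±1/2` there is a unique `m ∈ M`, `Off m`, `A m = x`: choice function `B x`.  The set `Off` is open (`M` is `T2`, the circles are compact by the period, `D.tub`), so `B` is a local diffeomorphism at every `x` with `u x ≠ ±1/2`
(near `x = A m` it is the local inverse of `A`).  Put `mp (u, v) := B (u, √(1 - |u|²) v)` for `|u| < 1`, `ρ₀ (l, X) := B (√(1 - |X|²) ex l, X)` for `|X| < 1`, (`|X| < 4/5`: `√(1 - |X|²) > 3/5 > 1/2`).  Both formulas are local diffeomorphisms into `S⁴` (inverses: `u`, `v = w/|w|`, resp. `l` = a branch of the argument of `u`, `X = w`, where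
`x = (u, w)`; compare `ACB.QsT` (`std_sphere`) for the first one; `RSG.ld_two`).  All the fields follow from the injectivity of `A`, `A ∘ B = id` and the formulas: `glue₁`: `A (k₁ (l, r v)) = Q 0 (r ex l, v) = stdS (-1/2) (r ex l) v` (`S.glue`, `D.std₁`).
`ρ_per`, `glue₀`: same point of `S⁴`.  `d01`, `d02`, `dm`: `B x` is off the circles; `ρ_inj`, `mp ≠ ρ₀`: first coordinates (`|u| < 1` resp. `= 1`); `d12`: `D.tub.disj`.  `cover`: `m` is on a circle, or `A m = (u, w)`, `u ≠ ±1/2`, with `|u| < 1` (`v = w/|w|`) or `|u| = 1`.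
`mp_inj`: first coordinates, then `√(1 - |u|²) v = √(1 - |u|²) v'`.
-/

open scoped ContDiff Manifold Topology unitInterval
open Set Filter
open Pool.Agent.RSG (E3 E4 S2 S3 S4 ex cj c1 c2 ht fh pS2 pS3 pS4)
open Pool.Agent.RBM (ThickT OnT Box)
open Pool.Agent.LKF (OnF)
open Pool.Agent.PTH (SP ISP)
open Pool.Agent.KNH (circ)
open Pool.Agent.LKT (s1 s2 dir)

namespace Pool.Agent.MMV

/-! ## the points of the sphere -/

theorem lmp_f5 : Fact (Module.finrank ℝ ACB.E5 = 4 + 1) := ⟨finrank_euclideanSpace_fin⟩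

theorem lmp_f3 : Fact (Module.finrank ℝ E3 = 2 + 1) := ⟨finrank_euclideanSpace_fin⟩

/-- a point of `S⁴` -/
noncomputable def lmp_e5 : S4 := ⟨EuclideanSpace.single 0 1, by simp⟩

/-- the point `(u, w)` of `S⁴` -/
noncomputable def lmp_pt (u : ℂ) (w : E3) : S4 := RSG.toSph lmp_e5 (ACB.TwD_m u w)

theorem lmp_nm {u : ℂ} {w : E3} (h : ‖u‖ ^ 2 + ‖w‖ ^ 2 = 1) : ‖ACB.TwD_m u w‖ = 1 := by
  have h1 := ACB.TwD_norm_m u w
  rw [h] at h1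
  have h2 := norm_nonneg (ACB.TwD_m u w)
  nlinarith

theorem lmp_ne {u : ℂ} {w : E3} (h : ‖u‖ ^ 2 + ‖w‖ ^ 2 = 1) : ACB.TwD_m u w ≠ 0 := by
  intro h0
  have h1 := lmp_nm h
  rw [h0, norm_zero] at h1
  exact zero_ne_one h1

theorem lmp_coe {u : ℂ} {w : E3} (h : ‖u‖ ^ 2 + ‖w‖ ^ 2 = 1) : (lmp_pt u w).1 = ACB.TwD_m u w := by
  unfold lmp_pt
  rw [RSG.toSph_coe _ (lmp_ne h), lmp_nm h, inv_one, one_smul]

theorem lmp_u {u : ℂ} {w : E3} (h : ‖u‖ ^ 2 + ‖w‖ ^ 2 = 1) : ACB.TwD_u (lmp_pt u w).1 = u := by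
  rw [lmp_coe h, ACB.TwD_u_m]

theorem lmp_w {u : ℂ} {w : E3} (h : ‖u‖ ^ 2 + ‖w‖ ^ 2 = 1) : ACB.TwD_w (lmp_pt u w).1 = w := by
  rw [lmp_coe h, ACB.TwD_w_m]

theorem lmp_self (x : S4) : lmp_pt (ACB.TwD_u x.1) (ACB.TwD_w x.1) = x := by
  unfold lmp_pt
  rw [ACB.TwD_m_uw]
  exact RSG.toSph_self _ _

theorem lmp_one (x : S4) : ‖ACB.TwD_u x.1‖ ^ 2 + ‖ACB.TwD_w x.1‖ ^ 2 = 1 := by
  have h1 : ‖(x : ACB.E5)‖ = 1 := norm_eq_of_mem_sphere x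
  rw [← ACB.TwD_norm, h1, one_pow]

section
variable {E' : Type*} [NormedAddCommGroup E'] [NormedSpace ℝ E'] {H' : Type*} [TopologicalSpace H']
  {J' : ModelWithCorners ℝ E' H'} {Y : Type*} [TopologicalSpace Y] [ChartedSpace H' Y]

theorem lmp_pt_smooth {f : Y → ℂ} {g : Y → E3} {y : Y} (hf : ContMDiffAt J' 𝓘(ℝ, ℂ) ∞ f y)
    (hg : ContMDiffAt J' 𝓘(ℝ, E3) ∞ g y) (h : ‖f y‖ ^ 2 + ‖g y‖ ^ 2 = 1) :
    ContMDiffAt J' (𝓡 4) ∞ (fun y => lmp_pt (f y) (g y)) y := by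
  have := lmp_f5
  have h1 : ContMDiffAt J' 𝓘(ℝ, ℂ × E3) ∞ (fun y => (f y, g y)) y := hf.prodMk_space hg
  have h2 : ContDiffAt ℝ ∞ (fun q : ℂ × E3 => ACB.TwD_m q.1 q.2) (f y, g y) :=
    ACB.TwD_m_smooth contDiffAt_fst contDiffAt_snd
  have h3 : ContMDiffAt J' 𝓘(ℝ, ACB.E5) ∞ (fun y => ACB.TwD_m (f y) (g y)) y :=
    ContMDiffAt.comp y (g := fun q : ℂ × E3 => ACB.TwD_m q.1 q.2) h2.contMDiffAt h1
  exact ContMDiffAt.comp y (g := RSG.toSph lmp_e5) (RSG.toSph_smooth (n := 4) lmp_e5 (lmp_ne h)) h3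

end

theorem lmp_u_smooth (x : S4) : ContMDiffAt (𝓡 4) 𝓘(ℝ, ℂ) ∞ (fun x : S4 => ACB.TwD_u x.1) x := by
  have := lmp_f5
  exact (ACB.TwD_u_smooth.contMDiff.comp (contMDiff_coe_sphere (n := 4))).contMDiffAt

theorem lmp_w_smooth (x : S4) : ContMDiffAt (𝓡 4) 𝓘(ℝ, E3) ∞ (fun x : S4 => ACB.TwD_w x.1) x := by
  have := lmp_f5
  exact (ACB.TwD_w_smooth.contMDiff.comp (contMDiff_coe_sphere (n := 4))).contMDiffAt

/-! ## the polar map -/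

/-- the point `(u, √(1 - |u|²) v)` -/
noncomputable def lmp_M (q : ℂ × S2) : S4 := lmp_pt q.1 (Real.sqrt (1 - ‖q.1‖ ^ 2) • q.2.1)

noncomputable def lmp_Mi (x : S4) : ℂ × S2 := (ACB.TwD_u x.1, RSG.toSph e₁ (ACB.TwD_w x.1))

theorem lmp_M1 {u : ℂ} (hu : ‖u‖ ≤ 1) (v : S2) : ‖u‖ ^ 2 + ‖Real.sqrt (1 - ‖u‖ ^ 2) • v.1‖ ^ 2 = 1 := by
  have h1 : 0 ≤ 1 - ‖u‖ ^ 2 := by nlinarith [norm_nonneg u]
  have h2 : ‖(v : E3)‖ = 1 := norm_eq_of_mem_sphere v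
  rw [norm_smul, h2, mul_one, Real.norm_of_nonneg (Real.sqrt_nonneg _), Real.sq_sqrt h1]
  ring

theorem lmp_sq {u : ℂ} (hu : ‖u‖ < 1) : 0 < 1 - ‖u‖ ^ 2 := by nlinarith [norm_nonneg u]

theorem lmp_nw (x : S4) : Real.sqrt (1 - ‖ACB.TwD_u x.1‖ ^ 2) = ‖ACB.TwD_w x.1‖ := by
  have h1 := lmp_one x
  rw [show 1 - ‖ACB.TwD_u x.1‖ ^ 2 = ‖ACB.TwD_w x.1‖ ^ 2 by linarith, Real.sqrt_sq (norm_nonneg _)]

theorem lmp_nu (x : S4) : Real.sqrt (1 - ‖ACB.TwD_w x.1‖ ^ 2) = ‖ACB.TwD_u x.1‖ := by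
  have h1 := lmp_one x
  rw [show 1 - ‖ACB.TwD_w x.1‖ ^ 2 = ‖ACB.TwD_u x.1‖ ^ 2 by linarith, Real.sqrt_sq (norm_nonneg _)]

theorem lmp_w_ne {x : S4} (hx : ‖ACB.TwD_u x.1‖ < 1) : ACB.TwD_w x.1 ≠ 0 := by
  intro h0
  have h1 := lmp_one x
  rw [h0, norm_zero] at h1
  nlinarith [norm_nonneg (ACB.TwD_u x.1)]

theorem lmp_MMi {x : S4} (hx : ‖ACB.TwD_u x.1‖ < 1) : lmp_M (lmp_Mi x) = x := by
  have h0 := lmp_w_ne hx
  have hn : ‖ACB.TwD_w x.1‖ ≠ 0 := norm_ne_zero_iff.2 h0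
  show lmp_pt (ACB.TwD_u x.1) (Real.sqrt (1 - ‖ACB.TwD_u x.1‖ ^ 2) • (RSG.toSph e₁ (ACB.TwD_w x.1)).1) = x
  have h1 : (RSG.toSph e₁ (ACB.TwD_w x.1) : E3) = ‖ACB.TwD_w x.1‖⁻¹ • ACB.TwD_w x.1 := RSG.toSph_coe _ h0
  rw [lmp_nw, h1, smul_smul, mul_inv_cancel₀ hn, one_smul, lmp_self]

theorem lmp_MiM {u : ℂ} (hu : ‖u‖ < 1) (v : S2) : lmp_Mi (lmp_M (u, v)) = (u, v) := by
  have h1 := lmp_M1 hu.le v
  have hs : 0 < Real.sqrt (1 - ‖u‖ ^ 2) := Real.sqrt_pos.2 (lmp_sq hu)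
  have hv : ‖(v : E3)‖ = 1 := norm_eq_of_mem_sphere v
  have h0 : Real.sqrt (1 - ‖u‖ ^ 2) • v.1 ≠ 0 := by
    rw [← norm_ne_zero_iff, norm_smul, hv, mul_one, Real.norm_of_nonneg hs.le]
    exact hs.ne'
  refine Prod.ext ?_ ?_
  · exact lmp_u h1
  · show RSG.toSph e₁ (ACB.TwD_w (lmp_pt u (Real.sqrt (1 - ‖u‖ ^ 2) • v.1)).1) = v
    rw [lmp_w h1]
    apply Subtype.ext
    rw [RSG.toSph_coe _ h0, norm_smul, hv, mul_one, Real.norm_of_nonneg hs.le, smul_smul,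
      inv_mul_cancel₀ hs.ne', one_smul]

theorem lmp_M_smooth {u : ℂ} (hu : ‖u‖ < 1) (v : S2) :
    ContMDiffAt (𝓘(ℝ, ℂ).prod (𝓡 2)) (𝓡 4) ∞ lmp_M (u, v) := by
  have := lmp_f3
  refine lmp_pt_smooth (f := fun q : ℂ × S2 => q.1) (g := fun q : ℂ × S2 => Real.sqrt (1 - ‖q.1‖ ^ 2) • q.2.1)
    contMDiff_fst.contMDiffAt ?_ (lmp_M1 hu.le v)
  have h1 : ContDiffAt ℝ ∞ (fun p : ℂ × E3 => Real.sqrt (1 - ‖p.1‖ ^ 2) • p.2) (u, v.1) := by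
    have h0 : ContDiffAt ℝ ∞ (fun p : ℂ × E3 => Real.sqrt (1 - ‖p.1‖ ^ 2)) (u, v.1) := by
      refine ContDiffAt.sqrt ?_ (lmp_sq hu).ne'
      exact (contDiff_const.sub (contDiff_fst.norm_sq ℝ)).contDiffAt
    exact h0.smul contDiffAt_snd
  have h2 : ContMDiffAt (𝓘(ℝ, ℂ).prod (𝓡 2)) 𝓘(ℝ, ℂ × E3) ∞ (fun p : ℂ × S2 => (p.1, (p.2 : E3))) (u, v) :=
    contMDiff_fst.contMDiffAt.prodMk_space
      ((contMDiff_coe_sphere (n := 2)).comp contMDiff_snd).contMDiffAt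
  exact ContMDiffAt.comp (u, v) (g := fun p : ℂ × E3 => Real.sqrt (1 - ‖p.1‖ ^ 2) • p.2) h1.contMDiffAt h2

theorem lmp_Mi_smooth {x : S4} (hx : ‖ACB.TwD_u x.1‖ < 1) :
    ContMDiffAt (𝓡 4) (𝓘(ℝ, ℂ).prod (𝓡 2)) ∞ lmp_Mi x := by
  have := lmp_f3
  exact (lmp_u_smooth x).prodMk
    (ContMDiffAt.comp x (g := RSG.toSph e₁) (RSG.toSph_smooth (n := 2) e₁ (lmp_w_ne hx)) (lmp_w_smooth x))

theorem lmp_M_ld {u : ℂ} (hu : ‖u‖ < 1) (v : S2) :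
    IsLocalDiffeomorphAt (𝓘(ℝ, ℂ).prod (𝓡 2)) (𝓡 4) ∞ lmp_M (u, v) := by
  have h1 : ∀ᶠ y : ℂ × S2 in 𝓝 (u, v), ‖y.1‖ < 1 := by
    have : ContinuousAt (fun y : ℂ × S2 => ‖y.1‖) (u, v) := by fun_prop
    exact this.eventually_lt continuousAt_const hu
  have h2 : ∀ᶠ x : S4 in 𝓝 (lmp_M (u, v)), ‖ACB.TwD_u x.1‖ < 1 := by
    have h3 : ContinuousAt (fun x : S4 => ‖ACB.TwD_u x.1‖) (lmp_M (u, v)) := (lmp_u_smooth _).continuousAt.norm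
    refine h3.eventually_lt continuousAt_const ?_
    show ‖ACB.TwD_u (lmp_pt u (Real.sqrt (1 - ‖u‖ ^ 2) • v.1)).1‖ < 1
    rw [lmp_u (lmp_M1 hu.le v)]
    exact hu
  refine RSG.ld_two (g := lmp_Mi) ?_ ?_ ?_ ?_
  · filter_upwards [h1] with y hy
    exact lmp_M_smooth hy y.2
  · filter_upwards [h2] with x hx
    exact lmp_Mi_smooth hx
  · filter_upwards [h1] with y hy
    exact lmp_MiM hy y.2
  · filter_upwards [h2] with x hx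
    exact lmp_MMi hx

/-! ## the tube of the edge circle -/

/-- the point `(√(1 - |X|²) ex l, X)` -/
noncomputable def lmp_R (q : ℝ × E3) : S4 := lmp_pt ((Real.sqrt (1 - ‖q.2‖ ^ 2) : ℝ) * ex q.1) q.2

noncomputable def lmp_Ri (l₀ : ℝ) (x : S4) : ℝ × E3 := (LKT.lf l₀ (ACB.TwD_u x.1), ACB.TwD_w x.1)

theorem lmp_sq' {X : E3} (hX : ‖X‖ < 1) : 0 < 1 - ‖X‖ ^ 2 := by nlinarith [norm_nonneg X]

theorem lmp_nex (r l : ℝ) (hr : 0 ≤ r) : ‖(r : ℂ) * ex l‖ = r := by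
  rw [norm_mul, RSG.ex_norm, mul_one, Complex.norm_real, Real.norm_of_nonneg hr]

theorem lmp_R1 (l : ℝ) {X : E3} (hX : ‖X‖ ≤ 1) :
    ‖((Real.sqrt (1 - ‖X‖ ^ 2) : ℝ) : ℂ) * ex l‖ ^ 2 + ‖X‖ ^ 2 = 1 := by
  have h1 : 0 ≤ 1 - ‖X‖ ^ 2 := by nlinarith [norm_nonneg X]
  rw [lmp_nex _ _ (Real.sqrt_nonneg _), Real.sq_sqrt h1]
  ring

theorem lmp_R_smooth (l : ℝ) {X : E3} (hX : ‖X‖ < 1) :
    ContMDiffAt 𝓘(ℝ, ℝ × E3) (𝓡 4) ∞ lmp_R (l, X) := by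
  have h1 : ContDiffAt ℝ ∞ (fun q : ℝ × E3 => ((Real.sqrt (1 - ‖q.2‖ ^ 2) : ℝ) : ℂ) * ex q.1) (l, X) := by
    have h2 : ContDiffAt ℝ ∞ (fun q : ℝ × E3 => Real.sqrt (1 - ‖q.2‖ ^ 2)) (l, X) := by
      refine ContDiffAt.sqrt ?_ (lmp_sq' hX).ne'
      exact (contDiff_const.sub (contDiff_snd.norm_sq ℝ)).contDiffAt
    exact (Complex.ofRealCLM.contDiff.contDiffAt.comp (l, X) h2).mul
      ((RSG.ex_smooth.comp contDiff_fst).contDiffAt)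
  exact lmp_pt_smooth (f := fun q : ℝ × E3 => ((Real.sqrt (1 - ‖q.2‖ ^ 2) : ℝ) : ℂ) * ex q.1)
    (g := fun q : ℝ × E3 => q.2) h1.contMDiffAt contDiffAt_snd.contMDiffAt (lmp_R1 l hX.le)

theorem lmp_R_ld (l : ℝ) {X : E3} (hX : ‖X‖ < 1) :
    IsLocalDiffeomorphAt 𝓘(ℝ, ℝ × E3) (𝓡 4) ∞ lmp_R (l, X) := by
  have hu : ACB.TwD_u (lmp_R (l, X)).1 = ((Real.sqrt (1 - ‖X‖ ^ 2) : ℝ) : ℂ) * ex l := lmp_u (lmp_R1 l hX.le)
  have hs : 0 < Real.sqrt (1 - ‖X‖ ^ 2) := Real.sqrt_pos.2 (lmp_sq' hX)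
  have hnu : ‖ACB.TwD_u (lmp_R (l, X)).1‖ = Real.sqrt (1 - ‖X‖ ^ 2) := by rw [hu, lmp_nex _ _ hs.le]
  have h1 : ∀ᶠ y : ℝ × E3 in 𝓝 (l, X), ‖y.2‖ < 1 := by
    have : ContinuousAt (fun y : ℝ × E3 => ‖y.2‖) (l, X) := by fun_prop
    exact this.eventually_lt continuousAt_const hX
  have h1' : ∀ᶠ y : ℝ × E3 in 𝓝 (l, X), |y.1 - l| < 1 / 2 := by
    have : ContinuousAt (fun y : ℝ × E3 => |y.1 - l|) (l, X) := by fun_prop
    refine this.eventually_lt continuousAt_const ?_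
    simp
  have h2 : ∀ᶠ x : S4 in 𝓝 (lmp_R (l, X)), ACB.TwD_u x.1 * ex (-l) ∈ Complex.slitPlane := by
    have h3 := LKT.lf_near (l₀ := l) (e := ACB.TwD_u (lmp_R (l, X)).1)
      (by rw [← norm_pos_iff, hnu]; exact hs) (by rw [hnu, hu])
    exact (lmp_u_smooth (lmp_R (l, X))).continuousAt.eventually h3
  have h2' : ∀ᶠ x : S4 in 𝓝 (lmp_R (l, X)), ACB.TwD_u x.1 ≠ 0 := by
    refine (lmp_u_smooth (lmp_R (l, X))).continuousAt.eventually_ne ?_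
    rw [← norm_pos_iff, hnu]
    exact hs
  refine RSG.ld_two (g := lmp_Ri l) ?_ ?_ ?_ ?_
  · filter_upwards [h1] with y hy
    exact lmp_R_smooth y.1 hy
  · filter_upwards [h2] with x hx
    have h4 : ContMDiffAt (𝓡 4) 𝓘(ℝ, ℝ) ∞ (fun x : S4 => LKT.lf l (ACB.TwD_u x.1)) x :=
      ContMDiffAt.comp x (g := LKT.lf l) (LKT.lf_smooth hx).contMDiffAt (lmp_u_smooth x)
    exact h4.prodMk_space (lmp_w_smooth x)
  · filter_upwards [h1, h1'] with y hy hy'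
    have hs' : 0 < Real.sqrt (1 - ‖y.2‖ ^ 2) := Real.sqrt_pos.2 (lmp_sq' hy)
    refine Prod.ext ?_ ?_
    · show LKT.lf l (ACB.TwD_u (lmp_pt (((Real.sqrt (1 - ‖y.2‖ ^ 2) : ℝ) : ℂ) * ex y.1) y.2).1) = y.1
      rw [lmp_u (lmp_R1 y.1 hy.le), LKT.lf_mul hs', LKT.lf_ex hy']
    · exact lmp_w (lmp_R1 y.1 hy.le)
  · filter_upwards [h2'] with x hx
    show lmp_pt (((Real.sqrt (1 - ‖ACB.TwD_w x.1‖ ^ 2) : ℝ) : ℂ) * ex (LKT.lf l (ACB.TwD_u x.1))) (ACB.TwD_w x.1) = x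
    rw [lmp_nu, LKT.ex_lf hx, mul_div_cancel₀ _ (Complex.ofReal_ne_zero.2 (norm_ne_zero_iff.2 hx)), lmp_self]

/-! ## the double -/

section
variable {M : Type} [TopologicalSpace M] [ChartedSpace E4 M] {k₁ k₂ : ℝ × E3 → M} {ε : ℝ}

theorem lmp_half (u : ℂ) : u ≠ ((-1 / 2 : ℝ) : ℂ) ↔ u ≠ -1 / 2 := by
  push_cast
  exact Iff.rfl

theorem lmp_half' (u : ℂ) : u ≠ ((1 / 2 : ℝ) : ℂ) ↔ u ≠ 1 / 2 := by
  push_cast
  exact Iff.rfl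

/-- the values of the inverse of `S.A` -/
theorem lmp_B (D : ACB.Dbl (-1 / 2) (1 / 2) k₁ k₂ ε) {q : S4} (h1 : ACB.TwD_u q.1 ≠ -1 / 2)
    (h2 : ACB.TwD_u q.1 ≠ 1 / 2) : ACB.Off ![k₁, k₂] (ACB.TwD_B D q) ∧ D.S.A (ACB.TwD_B D q) = q := by
  obtain ⟨p, hp, rfl⟩ := ACB.TwD_A_ex D ((lmp_half _).2 h1) ((lmp_half' _).2 h2)
  rw [ACB.TwD_B_A D hp]
  exact ⟨hp, rfl⟩

theorem lmp_B_inj (D : ACB.Dbl (-1 / 2) (1 / 2) k₁ k₂ ε) {q q' : S4} (h1 : ACB.TwD_u q.1 ≠ -1 / 2)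
    (h2 : ACB.TwD_u q.1 ≠ 1 / 2) (h1' : ACB.TwD_u q'.1 ≠ -1 / 2) (h2' : ACB.TwD_u q'.1 ≠ 1 / 2)
    (h : ACB.TwD_B D q = ACB.TwD_B D q') : q = q' := by
  rw [← (lmp_B D h1 h2).2, h, (lmp_B D h1' h2').2]

theorem lmp_B_ld [T2Space M] (D : ACB.Dbl (-1 / 2) (1 / 2) k₁ k₂ ε) {q : S4} (h1 : ACB.TwD_u q.1 ≠ -1 / 2)
    (h2 : ACB.TwD_u q.1 ≠ 1 / 2) : IsLocalDiffeomorphAt (𝓡 4) (𝓡 4) ∞ (ACB.TwD_B D) q := by
  obtain ⟨hp, he⟩ := lmp_B D h1 h2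
  have h3 := ACB.TwD_B_ld D hp
  rw [he] at h3
  exact h3

theorem lmp_not_half {u : ℂ} (h : 1 / 2 < ‖u‖) : u ≠ -1 / 2 ∧ u ≠ 1 / 2 := by
  constructor
  · rintro rfl
    norm_num at h
  · rintro rfl
    norm_num at h

theorem lmp_big {X : E3} (hX : ‖X‖ < 4 / 5) : 1 / 2 < Real.sqrt (1 - ‖X‖ ^ 2) := by
  rw [Real.lt_sqrt (by norm_num)]
  nlinarith [norm_nonneg X]

theorem lmp_Mu {u : ℂ} (hu : ‖u‖ < 1) (v : S2) : ACB.TwD_u (lmp_M (u, v)).1 = u := lmp_u (lmp_M1 hu.le v)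

theorem lmp_Ru (l : ℝ) {X : E3} (hX : ‖X‖ < 1) :
    ACB.TwD_u (lmp_R (l, X)).1 = ((Real.sqrt (1 - ‖X‖ ^ 2) : ℝ) : ℂ) * ex l := lmp_u (lmp_R1 l hX.le)

theorem lmp_Rh (l : ℝ) {X : E3} (hX : ‖X‖ < 4 / 5) :
    ACB.TwD_u (lmp_R (l, X)).1 ≠ -1 / 2 ∧ ACB.TwD_u (lmp_R (l, X)).1 ≠ 1 / 2 := by
  apply lmp_not_half
  rw [lmp_Ru l (by linarith), lmp_nex _ _ (Real.sqrt_nonneg _)]
  exact lmp_big hX

theorem lmp_glue (D : ACB.Dbl (-1 / 2) (1 / 2) k₁ k₂ ε) (l : ℝ) {r : ℝ} (v : S2) (h0 : 0 < r) (hr : r < ε) :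
    k₁ (l, r • v.1) = ACB.TwD_B D (lmp_M (-1 / 2 + (r : ℂ) * ex l, v)) ∧
      k₂ (l, r • v.1) = ACB.TwD_B D (lmp_M (1 / 2 + (r : ℂ) * ex l, v)) := by
  have hv : ‖(v : E3)‖ = 1 := norm_eq_of_mem_sphere v
  have hn : ‖r • (v : E3)‖ < ε := by
    rw [norm_smul, hv, mul_one, Real.norm_of_nonneg h0.le]
    exact hr
  have hne : r • (v : E3) ≠ 0 := by
    rw [← norm_pos_iff, norm_smul, hv, mul_one, Real.norm_of_nonneg h0.le]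
    exact h0
  have hz : ‖(r : ℂ) * ACB.ex l‖ < ε := by
    have h1 := lmp_nex r l h0.le
    have h2 : ‖(r : ℂ) * ACB.ex l‖ = r := h1
    rw [h2]
    exact hr
  have hsm := D.small
  have key : ∀ c : ℝ, |c| = 1 / 2 → ∀ q : S4, q.1 = ACB.stdS c ((r : ℂ) * ACB.ex l) v →
      q = lmp_M ((c : ℂ) + (r : ℂ) * ex l, v) := by
    intro c hc q hq
    have h3 : ‖(c : ℂ) + (r : ℂ) * ex l‖ ≤ 1 := by
      refine (norm_add_le _ _).trans ?_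
      rw [lmp_nex r l h0.le, Complex.norm_real, Real.norm_eq_abs, hc]
      linarith
    apply Subtype.ext
    rw [hq, ACB.TwD_std]
    exact (lmp_coe (lmp_M1 h3 v)).symm
  constructor
  · have h1 := ACB.TwD_off₁ D l hn hne
    have h2 : D.S.Q 0 ((r : ℂ) * ACB.ex l, v) = D.S.A (k₁ (l, r • v.1)) := D.S.glue 0 l r v h0 hr
    have h3 := key (-1 / 2) (by norm_num) _ (D.std₁ _ v hz)
    rw [h2] at h3
    have h4 : (((-1 / 2 : ℝ) : ℂ) + (r : ℂ) * ex l) = -1 / 2 + (r : ℂ) * ex l := by push_cast; ring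
    rw [h4] at h3
    rw [← h3, ACB.TwD_B_A D h1]
  · have h1 := ACB.TwD_off₂ D l hn hne
    have h2 : D.S.Q 1 ((r : ℂ) * ACB.ex l, v) = D.S.A (k₂ (l, r • v.1)) := D.S.glue 1 l r v h0 hr
    have h3 := key (1 / 2) (by norm_num) _ (D.std₂ _ v hz)
    rw [h2] at h3
    have h4 : (((1 / 2 : ℝ) : ℂ) + (r : ℂ) * ex l) = 1 / 2 + (r : ℂ) * ex l := by push_cast; ring
    rw [h4] at h3
    rw [← h3, ACB.TwD_B_A D h1]

end

theorem exists_dm {M : Type} [TopologicalSpace M] [ChartedSpace E4 M] [T2Space M] {k₁ k₂ : ℝ × E3 → M} {ε : ℝ}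
    (D : ACB.Dbl (-1 / 2) (1 / 2) k₁ k₂ ε) :
    ∃ (mp : ℂ × S2 → M) (ρ₀ : ℝ × E3 → M), DM k₁ k₂ ε mp ρ₀ ∧
      ∀ (m : M) (u : ℂ), ‖u‖ ≤ 1 → ACB.Off ![k₁, k₂] m → (D.S.A m).1 = sd u → m = ptM mp ρ₀ u := by
  have hε : 0 < ε := (D.tub.thick 0).pos
  have hoff : ∀ {q : S4}, ACB.TwD_u q.1 ≠ -1 / 2 → ACB.TwD_u q.1 ≠ 1 / 2 → ∀ l : ℝ,
      ACB.TwD_B D q ≠ k₁ (l, 0) ∧ ACB.TwD_B D q ≠ k₂ (l, 0) := by
    intro q h1 h2 l
    have h3 := (lmp_B D h1 h2).1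
    exact ⟨h3 0 l, h3 1 l⟩
  have hMh : ∀ {u : ℂ} (v : S2), ‖u‖ < 1 → u ≠ -1 / 2 → u ≠ 1 / 2 →
      ACB.TwD_u (lmp_M (u, v)).1 ≠ -1 / 2 ∧ ACB.TwD_u (lmp_M (u, v)).1 ≠ 1 / 2 := by
    intro u v hu h1 h2
    rw [lmp_Mu hu]
    exact ⟨h1, h2⟩
  have h45 : ‖(0 : E3)‖ < 4 / 5 := by rw [norm_zero]; norm_num
  have hR0 : ∀ l : ℝ, ACB.TwD_u (lmp_R (l, 0)).1 = ex l := by
    intro l
    rw [lmp_Ru l (by rw [norm_zero]; exact one_pos), norm_zero]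
    norm_num
  -- the points over the unit circle
  have hedge : ∀ (u : ℂ), ‖u‖ = 1 → ∀ x : S4, ACB.TwD_u x.1 = u →
      x = lmp_R (Complex.arg u / (2 * Real.pi), 0) := by
    intro u hu x hx
    have h1 : ACB.TwD_w x.1 = 0 := by
      have h2 := lmp_one x
      rw [hx, hu] at h2
      have h3 : ‖ACB.TwD_w x.1‖ = 0 := by nlinarith [norm_nonneg (ACB.TwD_w x.1)]
      exact norm_eq_zero.1 h3
    have h4 := RSG.ex_arg (p := u)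
    rw [hu, Complex.ofReal_one, one_mul] at h4
    rw [← lmp_self x, h1, hx]
    show lmp_pt u 0 = lmp_pt (((Real.sqrt (1 - ‖(0 : E3)‖ ^ 2) : ℝ) : ℂ) * ex (Complex.arg u / (2 * Real.pi))) 0
    rw [h4, norm_zero]
    norm_num
  refine ⟨fun q => ACB.TwD_B D (lmp_M q), fun q => ACB.TwD_B D (lmp_R q), ?_, ?_⟩
  · refine ⟨D.tub.thick 0, D.tub.thick 1, D.small, ?_, ?_, ?_, ?_, ?_, ?_, ?_, ?_, ?_, ?_, ?_, ?_, ?_⟩
    · intro u v hu h1 h2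
      obtain ⟨h3, h4⟩ := hMh v hu h1 h2
      exact IsLocalDiffeomorphAt.comp (hf := lmp_M_ld hu v) (g := ACB.TwD_B D) (hg := lmp_B_ld D h3 h4)
    · intro u v u' v' hu h1 h2 hu' h1' h2' he
      obtain ⟨h3, h4⟩ := hMh v hu h1 h2
      obtain ⟨h3', h4'⟩ := hMh v' hu' h1' h2'
      have h5 := lmp_B_inj D h3 h4 h3' h4' he
      have h6 := lmp_MiM hu v
      rw [h5, lmp_MiM hu' v'] at h6
      exact ⟨(congrArg Prod.fst h6).symm, (congrArg Prod.snd h6).symm⟩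
    · intro l X hX
      have h1 : lmp_R (l + 1, X) = lmp_R (l, X) := by
        have h2 := RSG.ex_add_int l 1
        rw [Int.cast_one] at h2
        show lmp_pt (((Real.sqrt (1 - ‖X‖ ^ 2) : ℝ) : ℂ) * ex (l + 1)) X = _
        rw [h2]
        rfl
      show ACB.TwD_B D (lmp_R (l + 1, X)) = ACB.TwD_B D (lmp_R (l, X))
      rw [h1]
    · intro l X hX
      obtain ⟨h3, h4⟩ := lmp_Rh l hX
      exact IsLocalDiffeomorphAt.comp (hf := lmp_R_ld l (by linarith)) (g := ACB.TwD_B D) (hg := lmp_B_ld D h3 h4)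
    · intro l r v h0 hr
      have hv : ‖(v : E3)‖ = 1 := norm_eq_of_mem_sphere v
      have hn : ‖r • (v : E3)‖ = r := by rw [norm_smul, hv, mul_one, Real.norm_of_nonneg h0.le]
      have h1 : 0 ≤ 1 - r ^ 2 := by nlinarith
      have h2 : lmp_R (l, r • v.1) = lmp_M ((Real.sqrt (1 - r ^ 2) : ℝ) * ex l, v) := by
        show lmp_pt (((Real.sqrt (1 - ‖r • (v : E3)‖ ^ 2) : ℝ) : ℂ) * ex l) (r • (v : E3)) =
          lmp_pt ((Real.sqrt (1 - r ^ 2) : ℝ) * ex l)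
            (Real.sqrt (1 - ‖((Real.sqrt (1 - r ^ 2) : ℝ) : ℂ) * ex l‖ ^ 2) • (v : E3))
        rw [hn, lmp_nex _ _ (Real.sqrt_nonneg _), Real.sq_sqrt h1, sub_sub_cancel, Real.sqrt_sq h0.le]
      show ACB.TwD_B D (lmp_R (l, r • v.1)) = _
      rw [h2]
    · intro l r v h0 hr
      exact (lmp_glue D l v h0 hr).1
    · intro l r v h0 hr
      exact (lmp_glue D l v h0 hr).2
    · intro l l' he
      obtain ⟨h1, h2⟩ := lmp_Rh l h45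
      obtain ⟨h1', h2'⟩ := lmp_Rh l' h45
      have h5 := lmp_B_inj D h1 h2 h1' h2' he
      have h6 := hR0 l
      rw [h5, hR0 l'] at h6
      exact RSG.ex_eq_iff.1 h6.symm
    · intro l l'
      obtain ⟨h1, h2⟩ := lmp_Rh l h45
      exact (hoff h1 h2 l').1
    · intro l l'
      obtain ⟨h1, h2⟩ := lmp_Rh l h45
      exact (hoff h1 h2 l').2
    · intro l l'
      exact D.tub.disj 0 1 (by decide) l 0 l' 0 (by rw [norm_zero]; exact hε) (by rw [norm_zero]; exact hε)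
    · intro u v l hu h1 h2
      obtain ⟨h3, h4⟩ := hMh v hu h1 h2
      refine ⟨?_, (hoff h3 h4 l).1, (hoff h3 h4 l).2⟩
      intro he
      obtain ⟨h1', h2'⟩ := lmp_Rh l h45
      have h5 := lmp_B_inj D h3 h4 h1' h2' he
      have h6 := lmp_Mu hu v
      rw [h5, hR0 l] at h6
      rw [← h6, RSG.ex_norm] at hu
      exact absurd hu (lt_irrefl _)
    · intro m
      by_cases hm : ACB.Off ![k₁, k₂] m
      · obtain ⟨h1, h2⟩ := ACB.TwD_A_ne D hm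
        have h1 := (lmp_half _).1 h1
        have h2 := (lmp_half' _).1 h2
        have h3 : ‖ACB.TwD_u (D.S.A m).1‖ ≤ 1 := by
          have h4 := lmp_one (D.S.A m)
          nlinarith [norm_nonneg (ACB.TwD_u (D.S.A m).1), sq_nonneg ‖ACB.TwD_w (D.S.A m).1‖]
        rcases h3.lt_or_eq with h4 | h4
        · refine Or.inl ⟨ACB.TwD_u (D.S.A m).1, (lmp_Mi (D.S.A m)).2, h4, h1, h2, ?_⟩
          show m = ACB.TwD_B D (lmp_M (lmp_Mi (D.S.A m)))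
          rw [lmp_MMi h4, ACB.TwD_B_A D hm]
        · refine Or.inr (Or.inl ⟨Complex.arg (ACB.TwD_u (D.S.A m).1) / (2 * Real.pi), ?_⟩)
          show m = ACB.TwD_B D (lmp_R (Complex.arg (ACB.TwD_u (D.S.A m).1) / (2 * Real.pi), 0))
          rw [← hedge _ h4 _ rfl, ACB.TwD_B_A D hm]
      · have hm' : ∃ (i : Fin 2) (l : ℝ), m = ![k₁, k₂] i (l, 0) := by
          by_contra hcon
          push Not at hcon
          exact hm hcon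
        obtain ⟨i, l, hl⟩ := hm'
        fin_cases i
        · exact Or.inr (Or.inr (Or.inl ⟨l, hl⟩))
        · exact Or.inr (Or.inr (Or.inr ⟨l, hl⟩))
  · intro m u hu hm hA
    have h1 : ACB.TwD_u (D.S.A m).1 = u := by
      rw [hA]
      rfl
    rcases hu.lt_or_eq with h4 | h4
    · rw [ptM, if_pos h4]
      have h2 : D.S.A m = lmp_M (u, e₁) := by
        apply Subtype.ext
        rw [hA]
        show sd u = (lmp_pt u (Real.sqrt (1 - ‖u‖ ^ 2) • e₁.1)).1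
        rw [lmp_coe (lmp_M1 hu e₁)]
        ext i
        fin_cases i
        · rfl
        · rfl
        · show Real.sqrt (1 - ‖u‖ ^ 2) = Real.sqrt (1 - ‖u‖ ^ 2) * (EuclideanSpace.single (0 : Fin 3) (1 : ℝ)) 0
          simp
        · show (0 : ℝ) = Real.sqrt (1 - ‖u‖ ^ 2) * (EuclideanSpace.single (0 : Fin 3) (1 : ℝ)) 1
          simp
        · show (0 : ℝ) = Real.sqrt (1 - ‖u‖ ^ 2) * (EuclideanSpace.single (0 : Fin 3) (1 : ℝ)) 2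
          simp
      show m = ACB.TwD_B D (lmp_M (u, e₁))
      rw [← h2, ACB.TwD_B_A D hm]
    · rw [ptM, if_neg (by rw [h4]; exact lt_irrefl _)]
      show m = ACB.TwD_B D (lmp_R (Complex.arg u / (2 * Real.pi), 0))
      rw [← hedge u h4 _ h1, ACB.TwD_B_A D hm]

end Pool.Agent.MMV
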