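import Pool.Agent.MMV.LKb

/-!
# MMV/LZn: the zone `Zn`   (difficulty 3)

`Zn_open`: `s1`, `s2` and the coordinate of the circle are continuous.  `Zn_sphere`: `pol (-32, v) = (sY (32 v), circ (1/2))` (`dir_coe`: the second coordinate is `-1`), `|s1| ≤ 64/1025`, `s2 = (1023 + 64 i v₂)/1025` (`sY_s`).
`RP_zone`: `p = tubS (t, 0)`: `KL p = k₁ (t + 1/2, 0)` is not in the right half (`D.dm`, `D.d12`, `D.d01`).  `p = pol (W, v)`, `W ≠ 0, -32`: `KL p = mp (Kp (W/32), v)`, so (`D.mp_inj`, `D.dm`) `0 ≤ Re Kp (W/32)`: `Kp_zone`: `|W|² ≥ 192`, `|Im W| < -Re W`; with `R = |W| ≥ 13`: `|s1| ≤ 2R/(1 + R²) < 1/4`,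
`s2 = (R² - 1 + 2 i R v₂)/(1 + R²)`, `2 R < R² - 1`; the second coordinate is `W/|W|` (`dir_coe`).  `p = tubN (t, 0)`: `KL p = ρ₀ ((lN (t, 0)).1, 0)`, so (`D.ρ_inj`, `D.dm`, `D.d02`) `0 ≤ Re ex (lN (t, 0)).1 = Re (-(1 + 2w)/(2 + w))`, `w = ex t`: `(1 + 2w)(2 + conj w)` has the real part `4 + 5 Re w ≤ 0`, so `Re w ≤ -4/5`,
`|Im w| ≤ 3/5`; `s1 = 0`, `s2 = 1` at the north pole.
`RP_nhds`: near `k₂ (l, 0)` the points are `k₂ (l', r v)`, `r < ε ≤ 1/4` (`D.thick₂.loc`: open map), and `k₂ (l', r v) = mp (1/2 + r ex l', v)`, `Re ≥ 1/4`.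
`RP_symm`: for `m` in both halves `Re u = 0`.  `LP_or`: `D.cover`.
-/

open scoped ContDiff Manifold Topology unitInterval
open Set Filter
open Pool.Agent.RSG (E3 E4 S2 S3 S4 ex cj c1 c2 ht fh pS2 pS3 pS4)
open Pool.Agent.RBM (ThickT OnT Box)
open Pool.Agent.LKF (OnF)
open Pool.Agent.PTH (SP ISP)
open Pool.Agent.KNH (circ)
open Pool.Agent.LKT (s1 s2 dir)

namespace Pool.Agent.MMV

theorem Zn_open : IsOpen Zn := by
  have c1 : Continuous fun p : SP => ‖s1 p.1‖ ^ 2 := by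
    have : (fun p : SP => ‖s1 p.1‖ ^ 2) = fun p : SP => (p.1.1 0) ^ 2 + (p.1.1 1) ^ 2 := by
      funext p
      rw [Complex.sq_norm, Complex.normSq_apply]
      show p.1.1 0 * p.1.1 0 + p.1.1 1 * p.1.1 1 = _
      ring
    rw [this]
    fun_prop
  have c2 : Continuous fun p : SP => (s2 p.1).re := by
    show Continuous fun p : SP => p.1.1 2
    fun_prop
  have c3 : Continuous fun p : SP => (s2 p.1).im := by
    show Continuous fun p : SP => p.1.1 3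
    fun_prop
  have c4 : Continuous fun p : SP => (p.2 : ℂ) := by fun_prop
  have c5 : Continuous fun p : SP => (p.2 : ℂ).re := Complex.continuous_re.comp c4
  have c6 : Continuous fun p : SP => (p.2 : ℂ).im := Complex.continuous_im.comp c4
  have h1 : IsOpen {p : SP | ‖s1 p.1‖ ^ 2 < 1 / 16} := isOpen_lt c1 continuous_const
  have h2 : IsOpen {p : SP | |(s2 p.1).im| < (s2 p.1).re} := isOpen_lt c3.abs c2
  have h3 : IsOpen {p : SP | |(p.2 : ℂ).im| < -(p.2 : ℂ).re} := isOpen_lt c6.abs c5.neg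
  exact h1.inter (h2.inter h3)

theorem lzn_sq3 (Y : E3) : ‖Y‖ ^ 2 = Y 0 ^ 2 + Y 1 ^ 2 + Y 2 ^ 2 := by
  rw [EuclideanSpace.norm_sq_eq]
  simp [Fin.sum_univ_three]

theorem lzn_vnorm (v : S2) : ‖v.1‖ = 1 := by
  have := v.2
  rwa [mem_sphere_zero_iff_norm] at this

theorem lzn_pol {W : ℂ} (h0 : W ≠ 0) (h1 : 192 ≤ ‖W‖ ^ 2) (h2 : |W.im| < -W.re) (v : S2) : pol (W, v) ∈ Zn := by
  obtain ⟨R, hR_def⟩ : ∃ R : ℝ, R = ‖W‖ := ⟨_, rfl⟩
  have hR : 0 < R := by rw [hR_def]; exact norm_pos_iff.2 h0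
  have hR2 : 192 ≤ R ^ 2 := by rw [hR_def]; exact h1
  obtain ⟨Y, hY_def⟩ : ∃ Y : E3, Y = (R : ℝ) • v.1 := ⟨_, rfl⟩
  have hYn : ‖Y‖ = R := by
    rw [hY_def, norm_smul, Real.norm_eq_abs, abs_of_pos hR, lzn_vnorm, mul_one]
  have hp1 : (pol (W, v)).1 = sY Y := by
    show sY ((‖W‖ : ℝ) • v.1) = sY Y
    rw [hY_def, hR_def]
  have hp2 : (((pol (W, v)).2 : Circle) : ℂ) = W / (‖W‖ : ℂ) := dir_coe h0
  have hsq := lzn_sq3 Y
  rw [hYn] at hsq
  obtain ⟨hs1, hs2⟩ := sY_s Y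
  rw [hYn] at hs1 hs2
  have hpos : 0 < 1 + R ^ 2 := by positivity
  refine ⟨?_, ?_, ?_⟩
  · rw [hp1, hs1, norm_mul, mul_pow, Complex.norm_real, Real.norm_eq_abs, sq_abs, Complex.sq_norm, Complex.normSq_mk]
    have h5 : Y 0 * Y 0 + Y 1 * Y 1 ≤ R ^ 2 := by nlinarith [sq_nonneg (Y 2)]
    have h6 : (2 / (1 + R ^ 2)) ^ 2 * (Y 0 * Y 0 + Y 1 * Y 1) ≤ (2 / (1 + R ^ 2)) ^ 2 * R ^ 2 :=
      mul_le_mul_of_nonneg_left h5 (sq_nonneg _)
    have h7 : (2 / (1 + R ^ 2)) ^ 2 * R ^ 2 < 1 / 16 := by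
      rw [div_pow, div_mul_eq_mul_div, div_lt_iff₀ (by positivity)]
      nlinarith
    exact lt_of_le_of_lt h6 h7
  · rw [hp1, hs2, Complex.re_ofReal_mul, Complex.im_ofReal_mul]
    show |1 / (1 + R ^ 2) * (2 * Y 2)| < 1 / (1 + R ^ 2) * (R ^ 2 - 1)
    rw [abs_mul, abs_of_pos (by positivity : 0 < 1 / (1 + R ^ 2))]
    refine mul_lt_mul_of_pos_left ?_ (by positivity)
    have h5 : (Y 2) ^ 2 ≤ R ^ 2 := by nlinarith [sq_nonneg (Y 0), sq_nonneg (Y 1)]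
    have h6 : |Y 2| ≤ R := by
      have := sq_le_sq.1 h5
      rwa [abs_of_pos hR] at this
    rw [abs_mul, abs_of_pos (by norm_num : (0 : ℝ) < 2)]
    have h7 : 2 ≤ R := by nlinarith
    have h8 : 2 * R < R ^ 2 - 1 := by nlinarith
    linarith
  · rw [hp2, ← hR_def, Complex.div_ofReal_re, Complex.div_ofReal_im, abs_div, abs_of_pos hR, ← neg_div]
    exact div_lt_div_of_pos_right h2 hR

theorem Zn_sphere (v : S2) : pol (-32, v) ∈ Zn := by
  have hn : ‖(-32 : ℂ)‖ = 32 := by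
    rw [norm_neg]
    exact Complex.norm_ofNat 32
  refine lzn_pol (by norm_num) ?_ ?_ v
  · rw [hn]
    norm_num
  · have h1 : (-32 : ℂ).im = 0 := by simp
    have h2 : (-32 : ℂ).re = -32 := by simp
    rw [h1, h2]
    norm_num

theorem lzn_tubN (t : ℝ) (h : |(ex t).im| < -(ex t).re) : tubN (t, 0) ∈ Zn := by
  obtain ⟨h1, h2⟩ := sY_s (0 : E3)
  obtain ⟨h3, h4⟩ := Inv_s (sY (0 : E3))
  have hz1 : s1 (Inv (sY (0 : E3))) = 0 := by
    rw [h3, h1]
    have : (⟨(0 : E3) 0, (0 : E3) 1⟩ : ℂ) = 0 := rfl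
    rw [this, mul_zero]
  have hz2 : s2 (Inv (sY (0 : E3))) = 1 := by
    rw [h4, h2]
    apply Complex.ext <;> simp
  refine ⟨?_, ?_, ?_⟩
  · show ‖s1 (Inv (sY (0 : E3)))‖ ^ 2 < 1 / 16
    rw [hz1]
    norm_num
  · show |(s2 (Inv (sY (0 : E3)))).im| < (s2 (Inv (sY (0 : E3)))).re
    rw [hz2]
    norm_num
  · show |((circ t : Circle) : ℂ).im| < -((circ t : Circle) : ℂ).re
    rw [circ_coe]
    exact h

theorem lzn_ex {t : ℝ} (h : 0 ≤ (-(1 + 2 * ex t) / (2 + ex t)).re) : |(ex t).im| < -(ex t).re := by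
  have hn := RSG.ex_norm t
  have hsq : (ex t).re ^ 2 + (ex t).im ^ 2 = 1 := by
    have := Complex.sq_norm (ex t)
    rw [hn, Complex.normSq_apply] at this
    nlinarith
  obtain ⟨x, hx⟩ : ∃ x : ℝ, x = (ex t).re := ⟨_, rfl⟩
  obtain ⟨y, hy⟩ : ∃ y : ℝ, y = (ex t).im := ⟨_, rfl⟩
  rw [← hx, ← hy] at hsq
  have he : ex t = ⟨x, y⟩ := by rw [hx, hy]
  rw [he] at h ⊢
  have h2 : (-(1 + 2 * (⟨x, y⟩ : ℂ)) / (2 + (⟨x, y⟩ : ℂ))).re = -(4 + 5 * x) / ((2 + x) ^ 2 + y ^ 2) := by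
    rw [Complex.div_re, Complex.normSq_apply]
    simp only [Complex.neg_re, Complex.neg_im, Complex.add_re, Complex.add_im, Complex.one_re, Complex.one_im,
      Complex.mul_re, Complex.mul_im, Complex.re_ofNat, Complex.im_ofNat]
    rw [← add_div]
    congr 1
    · nlinarith
    · ring
  rw [h2] at h
  have hxl : -1 ≤ x := by nlinarith [sq_nonneg y]
  have h3 : 0 < (2 + x) ^ 2 + y ^ 2 := by nlinarith [sq_nonneg y]
  have h4 : 4 + 5 * x ≤ 0 := by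
    by_contra h5
    have h6 : -(4 + 5 * x) / ((2 + x) ^ 2 + y ^ 2) < 0 := div_neg_of_neg_of_pos (by linarith) h3
    linarith
  show |y| < -x
  rw [abs_lt]
  have h7 : y ^ 2 ≤ 9 / 25 := by nlinarith
  have h8 : |y| ≤ 3 / 5 := by
    have : y ^ 2 ≤ (3 / 5 : ℝ) ^ 2 := by linarith
    have := sq_le_sq.1 this
    rwa [abs_of_pos (by norm_num : (0 : ℝ) < 3 / 5)] at this
  have h9 := abs_le.1 h8
  constructor <;> linarith

section
variable {M : Type*} [TopologicalSpace M] [ChartedSpace E4 M] {k₁ k₂ : ℝ × E3 → M} {ε : ℝ} {mp : ℂ × S2 → M} {ρ₀ : ℝ × E3 → M}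

theorem RP_zone (D : DM k₁ k₂ ε mp ρ₀) {p : SP} (hp : ∀ v, p ≠ pol (-32, v)) (h : RP k₂ mp ρ₀ (KL k₁ mp ρ₀ p)) : p ∈ Zn := by
  rcases SP_cover p with ⟨t, rfl⟩ | ⟨t, rfl⟩ | ⟨W, v, hW, rfl⟩
  · exfalso
    rw [KL_tubS D] at h
    rcases h with ⟨u, v, a1, a2, a3, -, a5⟩ | ⟨l, hl⟩ | ⟨l, -, hl⟩
    · exact (D.dm u v (t + 1 / 2) a1 a2 a3).2.1 a5.symm
    · exact D.d12 _ _ hl
    · exact D.d01 _ _ hl.symm
  · rw [KL_tubN D] at h
    apply lzn_tubN
    apply lzn_ex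
    rcases h with ⟨u, v, a1, a2, a3, -, a5⟩ | ⟨l, hl⟩ | ⟨l, hl0, hl⟩
    · exact ((D.dm u v _ a1 a2 a3).1 a5.symm).elim
    · exact (D.d02 _ _ hl).elim
    · obtain ⟨m, hm⟩ := D.ρ_inj _ _ hl
      rw [← (lN_ex t).2]
      rw [hm, RSG.ex_add_int] at hl0
      exact hl0
  · rw [KL_pol k₁ mp ρ₀ hW] at h
    have hW32 : W / 32 ≠ 0 := div_ne_zero hW (by norm_num)
    have hlt := Kp_lt hW32
    have hne := Kp_ne hW32
    have hne' : Kp (W / 32) ≠ 1 / 2 := by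
      intro hh
      have h1 := (Kp_half hW32).1 hh
      have h2 : W = -32 := by
        have h3 : W = W / 32 * 32 := by field_simp
        rw [h3, h1]
        norm_num
      exact hp v (by rw [h2])
    rcases h with ⟨u, v', a1, a2, a3, a4, a5⟩ | ⟨l, hl⟩ | ⟨l, -, hl⟩
    · obtain ⟨hu, -⟩ := D.mp_inj _ _ _ _ hlt hne hne' a1 a2 a3 a5
      rw [← hu] at a4
      obtain ⟨h1, h2⟩ := Kp_zone hW32 a4
      refine lzn_pol hW ?_ ?_ v
      · rw [norm_div, div_pow, Complex.norm_ofNat] at h1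
        have h3 := (le_div_iff₀ (by norm_num : (0 : ℝ) < 32 ^ 2)).1 h1
        linarith
      · have e : W / 32 = W / ((32 : ℝ) : ℂ) := by norm_num
        rw [e, Complex.div_ofReal_re, Complex.div_ofReal_im, abs_div, abs_of_pos (by norm_num : (0 : ℝ) < 32), ← neg_div] at h2
        exact (div_lt_div_iff_of_pos_right (by norm_num)).1 h2
    · exact ((D.dm _ v l hlt hne hne').2.2 hl).elim
    · exact ((D.dm _ v l hlt hne hne').1 hl).elim

theorem RP_nhds (D : DM k₁ k₂ ε mp ρ₀) (l : ℝ) : ∀ᶠ m in 𝓝 (k₂ (l, 0)), RP k₂ mp ρ₀ m := by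
  have hε := D.thick₂.pos
  have hloc := D.thick₂.loc l 0 (by simpa using hε)
  have hU : {q : ℝ × E3 | ‖q.2‖ < ε} ∈ 𝓝 ((l, 0) : ℝ × E3) :=
    (isOpen_lt (continuous_snd.norm) continuous_const).mem_nhds (by simpa using hε)
  filter_upwards [CSG.ld_image_nhds hloc hU] with m hm
  obtain ⟨⟨l', Y⟩, hY, rfl⟩ := hm
  have hY' : ‖Y‖ < ε := hY
  by_cases h0 : Y = 0
  · rw [h0]
    exact Or.inr (Or.inl ⟨l', rfl⟩)
  · left
    obtain ⟨r, hr_def⟩ : ∃ r : ℝ, r = ‖Y‖ := ⟨_, rfl⟩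
    have hr : 0 < r := by rw [hr_def]; exact norm_pos_iff.2 h0
    have hv : ‖(r⁻¹ : ℝ) • Y‖ = 1 := by
      rw [norm_smul, norm_inv, Real.norm_eq_abs, abs_of_pos hr, ← hr_def, inv_mul_cancel₀ hr.ne']
    obtain ⟨v, hv1⟩ : ∃ v : S2, v.1 = (r⁻¹ : ℝ) • Y := ⟨⟨(r⁻¹ : ℝ) • Y, by rw [mem_sphere_zero_iff_norm]; exact hv⟩, rfl⟩
    have hYv : Y = r • v.1 := by
      rw [hv1, smul_smul, mul_inv_cancel₀ hr.ne', one_smul]
    have hrε : r < ε := by rw [hr_def]; exact hY'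
    have hsmall := D.small
    have hexn := RSG.ex_norm l'
    have hre : |((r : ℂ) * ex l').re| ≤ r := by
      refine (Complex.abs_re_le_norm _).trans ?_
      rw [norm_mul, Complex.norm_real, Real.norm_eq_abs, abs_of_pos hr, hexn, mul_one]
    have hre' := abs_le.1 hre
    have hhalf : ((1 / 2 : ℂ)).re = 1 / 2 := by norm_num
    have hure : (1 / 2 + (r : ℂ) * ex l').re = 1 / 2 + ((r : ℂ) * ex l').re := by
      rw [Complex.add_re, hhalf]
    have hn12 : ‖(1 / 2 : ℂ)‖ = 1 / 2 := by norm_num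
    refine ⟨1 / 2 + (r : ℂ) * ex l', v, ?_, ?_, ?_, ?_, ?_⟩
    · refine lt_of_le_of_lt (norm_add_le _ _) ?_
      rw [norm_mul, Complex.norm_real, Real.norm_eq_abs, abs_of_pos hr, hexn, mul_one, hn12]
      linarith
    · intro hh
      have h1 := congrArg Complex.re hh
      rw [hure] at h1
      have h2 : (-1 / 2 : ℂ).re = -1 / 2 := by norm_num
      rw [h2] at h1
      linarith
    · intro hh
      have h1 : (r : ℂ) * ex l' = 0 := by
        have := congrArg (fun z => z - 1 / 2) hh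
        simpa using this
      rcases mul_eq_zero.1 h1 with h2 | h2
      · exact hr.ne' (Complex.ofReal_eq_zero.1 h2)
      · exact RSG.ex_ne _ h2
    · rw [hure]
      linarith
    · show k₂ (l', Y) = _
      rw [hYv]
      exact D.glue₂ l' r v hr hrε

/-- the right half and the left half (the right half of the symmetric data) cover `M` -/
theorem RP_or (D : DM k₁ k₂ ε mp ρ₀) (m : M) : RP k₂ mp ρ₀ m ∨ RP (shT k₁) (ngM mp) (shT ρ₀) m := by
  rcases D.cover m with ⟨u, v, a1, a2, a3, a4⟩ | ⟨l, hl⟩ | ⟨l, hl⟩ | ⟨l, hl⟩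
  · rcases le_or_gt 0 u.re with h | h
    · exact Or.inl (Or.inl ⟨u, v, a1, a2, a3, h, a4⟩)
    · refine Or.inr (Or.inl ⟨-u, v, by rw [norm_neg]; exact a1, ?_, ?_, ?_, ?_⟩)
      · intro hh
        apply a3
        have := congrArg Neg.neg hh
        rw [neg_neg] at this
        rw [this]
        norm_num
      · intro hh
        apply a2
        have := congrArg Neg.neg hh
        rw [neg_neg] at this
        rw [this]
        norm_num
      · rw [Complex.neg_re]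
        linarith
      · show m = mp (-(-u), v)
        rw [neg_neg]
        exact a4
  · rcases le_or_gt 0 (ex l).re with h | h
    · exact Or.inl (Or.inr (Or.inr ⟨l, h, hl⟩))
    · refine Or.inr (Or.inr (Or.inr ⟨l - 1 / 2, ?_, ?_⟩))
      · have h1 : ex l = ex (l - 1 / 2) * ex (1 / 2) := by
          rw [← RSG.ex_add]
          congr 1
          ring
        rw [RSG.ex_half, mul_neg_one] at h1
        rw [h1, Complex.neg_re] at h
        linarith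
      · show m = ρ₀ (l - 1 / 2 + 1 / 2, 0)
        rw [sub_add_cancel]
        exact hl
  · refine Or.inr (Or.inr (Or.inl ⟨l - 1 / 2, ?_⟩))
    show m = k₁ (l - 1 / 2 + 1 / 2, 0)
    rw [sub_add_cancel]
    exact hl
  · exact Or.inl (Or.inr (Or.inl ⟨l, hl⟩))

end

end Pool.Agent.MMV
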