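import Pool.Agent.MMV.LCl
import Pool.Agent.MMV.LMp
import Pool.Agent.MMV.LZn

/-!
# MMV/LB: the double surgered along one circle is `S³ × S¹` refilled along two tori (top theorem of block II)
-/

open scoped ContDiff Manifold Topology unitInterval
open Set Filter
open Pool.Agent.RSG (E3 E4 S2 S3 S4 ex cj c1 c2 ht fh pS3 pS4)
open Pool.Agent.RBM (ThickT OnT Box)
open Pool.Agent.LKF (OnF)
open Pool.Agent.PTH (SP ISP)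
open Pool.Agent.KNH (circ)
open Pool.Agent.LKT (s1 s2)

namespace Pool.Agent.MMV

theorem lb_window {w : S3} {t : ℝ} (h : 1 / 4 < t) (h' : t < 3 / 4) {ζ : ℂ} (hζ : ‖ζ‖ < 1 / 3) (v : S2) :
    (w, circ t) ≠ EE (ζ, v) := by
  intro e
  obtain ⟨t', ht', e'⟩ := EE_time hζ v
  have e1 : circ t = circ t' := by
    rw [← e', ← e]
  obtain ⟨m, hm⟩ := circ_eq.1 e1
  obtain ⟨h1, h2⟩ := abs_lt.1 ht'
  have h3 : (m : ℝ) < 0 := by linarith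
  have h4 : (-1 : ℝ) < m := by linarith
  have h5 : m < 0 := by exact_mod_cast h3
  have h6 : (-1 : ℤ) < m := by exact_mod_cast h4
  omega

theorem lb_offS {w : S3} {t : ℝ} (h : 1 / 4 < t) (h' : t < 3 / 4) : OffS (w, circ t) := by
  intro v e
  rw [← EE_zero] at e
  exact lb_window h h' (by norm_num) v e

theorem lb_t {t t' : ℝ} (h : 1 / 4 < t) (h' : t < 3 / 4) (k : 1 / 4 < t') (k' : t' < 3 / 4) (e : circ t = circ t') : t = t' := by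
  obtain ⟨m, hm⟩ := circ_eq.1 e
  have h3 : (m : ℝ) < 1 := by linarith
  have h4 : (-1 : ℝ) < m := by linarith
  have h5 : m < 1 := by exact_mod_cast h3
  have h6 : (-1 : ℤ) < m := by exact_mod_cast h4
  have h7 : m = 0 := by omega
  rw [h7] at hm
  simpa using hm.symm

theorem lb_n1 (t : ℝ) : ‖(-1 / 2 + 1 / 2 * ex t : ℂ)‖ ≤ 1 := by
  refine (norm_add_le _ _).trans ?_
  rw [norm_mul, RSG.ex_norm]
  norm_num

theorem lb_n2 (t : ℝ) : ‖(1 / 2 - 1 / 2 * ex t : ℂ)‖ ≤ 1 := by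
  have : (1 / 2 - 1 / 2 * ex t : ℂ) = -(-1 / 2 + 1 / 2 * ex t) := by ring
  rw [this, norm_neg]
  exact lb_n1 t

/-- the loops `zl₁`, `zl₂` as points of the tube -/
theorem lb_hp (w : ℂ) : hp w = tubS (1 / 2, !₂[w.re, 0, w.im]) ∧ ‖(!₂[w.re, 0, w.im] : E3)‖ = ‖w‖ := by
  refine ⟨rfl, ?_⟩
  rw [EuclideanSpace.norm_eq, Complex.norm_eq_sqrt_sq_add_sq, Fin.sum_univ_three]
  congr 1
  simp

theorem lb_offS_hp (w : ℂ) : OffS (hp w) := lb_offS (by norm_num) (by norm_num)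

theorem lb_z1 (τ : ℝ) : ‖((65 / 128 : ℝ) + (63 / 128 : ℝ) * ex τ : ℂ)‖ ≤ 1 := by
  refine (norm_add_le _ _).trans ?_
  rw [norm_mul, RSG.ex_norm, Complex.norm_real, Complex.norm_real]
  norm_num

theorem lb_z2 (τ : ℝ) : 1 ≤ ‖((65 / 2 : ℝ) - (63 / 2 : ℝ) * ex τ : ℂ)‖ := by
  have h := norm_sub_norm_le (((65 / 2 : ℝ)) : ℂ) ((63 / 2 : ℝ) * ex τ)
  rw [norm_mul, RSG.ex_norm, Complex.norm_real, Complex.norm_real] at h
  refine le_trans ?_ h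
  norm_num

/-- `M₁ = (b, *; -a, *)`, `M₂ = (d, *; -c, *)` -/
theorem l1 {M : Type} [TopologicalSpace M] [ChartedSpace E4 M] [T2Space M] [IsManifold (𝓡 4) ∞ M]
    {k₁ k₂ : ℝ × E3 → M} {ε : ℝ} (D : ACB.Dbl (-1 / 2) (1 / 2) k₁ k₂ ε) {q : M} {lam₁ lam₂ : ℝ → M}
    (hG : Gens D q lam₁ lam₂) {x y : FundamentalGroup M q} (hx : BCls q lam₁ x) (hy : BCls q lam₂ y)
    {M₁ M₂ : Sl} (h₁ : M₁.a * M₁.d - M₁.b * M₁.c = 1) (h₂ : M₂.a * M₂.d - M₂.b * M₂.c = 1) :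
    ∃ (ρ : ℝ × E3 → M) (ε₀ : ℝ) (j : SP → M), ACB.Thick ρ ε₀ ∧ ACB.Cls q (ACB.core ρ) (x ^ M₁.a * y ^ (-M₂.a)) ∧
      -- the map `j`, off the tori, at the times in `(1/4, 3/4)`
      (∀ (w : S3) (t : ℝ), 1 / 4 < t → t < 3 / 4 → ¬ OnF ![κS₁, κS₂] (w, circ t) →
        IsLocalDiffeomorphAt ISP (𝓡 4) ∞ j (w, circ t)) ∧
      (∀ (w w' : S3) (t t' : ℝ), 1 / 4 < t → t < 3 / 4 → 1 / 4 < t' → t' < 3 / 4 → ¬ OnF ![κS₁, κS₂] (w, circ t) →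
        ¬ OnF ![κS₁, κS₂] (w', circ t') → j (w, circ t) = j (w', circ t') → w = w' ∧ t = t') ∧
      (∀ (w : S3) (t : ℝ), 1 / 4 < t → t < 3 / 4 → ¬ OnF ![κS₁, κS₂] (w, circ t) →
        ∀ (l : ℝ) (v : E3), ‖v‖ < ε₀ → j (w, circ t) ≠ ρ (l, v)) ∧
      j p₀ = q ∧ BCls q (fun τ => j (zl₁ τ)) (x ^ (-M₁.c)) ∧ BCls q (fun τ => j (zl₂ τ)) (y ^ (-M₂.c)) ∧
      ∀ (V : Type) [TopologicalSpace V] [ChartedSpace E4 V] (S : ACB.Surg (fun _ : Unit => ρ) ε₀ V),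
        ∃ Φ : FT ISP ![κS₁, κS₂] ![M₁, M₂] (![] : Fin 0 → ℝ × ℂ × ℝ → SP) V,
          ∀ (w : S3) (t : ℝ), 1 / 4 < t → t < 3 / 4 → ¬ OnF ![κS₁, κS₂] (w, circ t) → Φ.A (w, circ t) = S.A (j (w, circ t)) := by
  obtain ⟨mp, ρ₀, D', hpt⟩ := exists_dm D
  have hl₁ : ∀ t, lam₁ t = ptM mp ρ₀ (-1 / 2 + 1 / 2 * ex t) := fun t => hpt _ _ (lb_n1 t) (hG.off₁ t) (hG.eq₁ t)
  have hl₂ : ∀ t, lam₂ t = ptM (ngM mp) (shT ρ₀) (-1 / 2 + 1 / 2 * ex t) := by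
    intro t
    rw [ptM_symm D' (lb_n1 t)]
    have e : -(-1 / 2 + 1 / 2 * ex t) = (1 / 2 - 1 / 2 * ex t : ℂ) := by ring
    rw [e]
    exact hpt _ _ (lb_n2 t) (hG.off₂ t) (hG.eq₂ t)
  have hq : q = mp (0, e₁) := by
    rw [← hG.base₁, hl₁, RSG.ex_zero]
    have e : (-1 / 2 + 1 / 2 * 1 : ℂ) = 0 := by norm_num
    rw [e, ptM_lt _ _ (by simp)]
  subst hq
  have hx' : BCls (mp (0, e₁)) (fun τ => ptM mp ρ₀ (-1 / 2 + 1 / 2 * ex τ)) x := bcls_congr hx fun t _ => (hl₁ t).symm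
  have hy' : BCls (mp (0, e₁)) (fun τ => ptM (ngM mp) (shT ρ₀) (-1 / 2 + 1 / 2 * ex τ)) y :=
    bcls_congr hy fun t _ => (hl₂ t).symm
  have key : ∀ q' : M, q' = mp (0, e₁) → ∃ y' : FundamentalGroup M q',
      BCls q' (fun τ => ptM (ngM mp) (shT ρ₀) (-1 / 2 + 1 / 2 * ex τ)) y' ∧
        ∀ (c : ℝ → M) (n : ℤ), BCls q' c (y' ^ n) → BCls (mp (0, e₁)) c (y ^ n) := by
    intro q' hq'
    subst hq'
    exact ⟨y, hy', fun c n h => h⟩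
  obtain ⟨y', hy'', hyn⟩ := key (ngM mp (0, e₁)) (by rw [ngM, neg_zero])
  obtain ⟨H₁, P₁⟩ := exists_hpk D' ⟨M₁.d, -M₁.b, -M₁.c, M₁.a⟩ (by linear_combination h₁) hx'
  obtain ⟨H₂, P₂⟩ := exists_hpk (dm_symm D') ⟨-M₂.d, M₂.b, M₂.c, -M₂.a⟩ (by linear_combination h₂) hy''
  have L := las_data D' h₁ h₂ P₁ P₂
  have hor := RP_or D'
  refine ⟨fun q => H₁ (H₂ (ρ₀ q)), 1 / 4, fun p => H₁ (H₂ (J0 k₁ k₂ mp p)), lcl_thick D' P₁ P₂,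
    lcl_core D' P₁ P₂ hor (hyn _ _ P₂.edge), ?_, ?_, ?_, ?_, ?_, ?_, ?_⟩
  · intro w t h h' hT
    exact L.J_ld _ (lb_offS h h') hT
  · intro w w' t t' h h' k k' _ _ e
    have e1 := L.J_inj _ _ (lb_offS h h') (lb_offS k k') e
    exact ⟨congrArg Prod.fst e1, lb_t h h' k k' (congrArg Prod.snd e1)⟩
  · intro w t h h' _ l X hX e
    rcases eq_or_ne X 0 with h0 | h0
    · rw [h0] at e
      exact L.J_ne _ (lb_offS h h') l e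
    · have hn := norm_ne_zero_iff.2 h0
      have hv : ‖(‖X‖⁻¹ • X)‖ = 1 := by
        rw [norm_smul, norm_inv, norm_norm, inv_mul_cancel₀ hn]
      have hp : 0 < ‖X‖ := norm_pos_iff.2 h0
      have eX : X = ‖X‖ • (⟨‖X‖⁻¹ • X, by simpa using hv⟩ : S2).1 := by
        simp only
        rw [smul_smul, mul_inv_cancel₀ hn, one_smul]
      have hz : ‖((‖X‖ : ℝ) : ℂ) * ex l‖ < 1 / 3 := by
        rw [norm_mul, RSG.ex_norm, mul_one, Complex.norm_real, norm_norm]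
        linarith
      have e1 := L.J_EE l ‖X‖ ⟨‖X‖⁻¹ • X, by simpa using hv⟩ hp hX
      rw [← eX] at e1
      refine lb_window h h' hz _ (L.J_inj _ _ (lb_offS h h') ?_ (Eq.trans e e1.symm))
      intro v
      exact EE_ne hz (mul_ne_zero (by exact_mod_cast hn) (RSG.ex_ne l)) _ v
  · change H₁ (H₂ (J0 k₁ k₂ mp p₀)) = mp (0, e₁)
    rw [J0_p₀]
    exact lcl_base D' P₁ P₂
  · refine bcls_congr P₁.z₁ fun τ _ => ?_
    obtain ⟨e1, e2⟩ := lb_hp ((65 / 128 : ℝ) + (63 / 128 : ℝ) * ex τ)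
    have ho := lb_offS_hp ((65 / 128 : ℝ) + (63 / 128 : ℝ) * ex τ)
    refine lcl_fixL D' P₁ P₂ ?_
    change RP (shT k₁) (ngM mp) (shT ρ₀) (J0 k₁ k₂ mp (hp ((65 / 128 : ℝ) + (63 / 128 : ℝ) * ex τ)))
    rw [e1] at ho ⊢
    exact J0_LP D' (e2 ▸ lb_z1 τ) ho
  · refine bcls_congr (hyn _ _ P₂.z₂) fun τ _ => ?_
    obtain ⟨e1, e2⟩ := lb_hp ((65 / 2 : ℝ) - (63 / 2 : ℝ) * ex τ)
    have ho := lb_offS_hp ((65 / 2 : ℝ) - (63 / 2 : ℝ) * ex τ)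
    have hR : RP k₂ mp ρ₀ (J0 k₁ k₂ mp (zl₂ τ)) := by
      change RP k₂ mp ρ₀ (J0 k₁ k₂ mp (hp ((65 / 2 : ℝ) - (63 / 2 : ℝ) * ex τ)))
      rw [e1] at ho ⊢
      exact J0_RP D' (e2 ▸ lb_z2 τ) ho
    have hS : ∀ v, Sym (zl₂ τ) ≠ pol (1, v) := by
      intro v e
      have e3 := congrArg Sym e
      rw [Sym_Sym, Sym_pol one_ne_zero, inv_one] at e3
      exact ho v e3
    change H₁ (H₂ (J0 k₁ k₂ mp (zl₂ τ))) = H₂ (J0 (shT k₂) (shT k₁) (ngM mp) (Sym (zl₂ τ)))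
    rw [lcl_fixR D' P₁ P₂ hor hR, J0_symm D' hS, Sym_Sym]
  · intro V _ _ S
    obtain ⟨Φ, hΦ⟩ := ft_of_data L S
    exact ⟨Φ, fun w t h h' _ => hΦ _ (lb_offS h h')⟩

end Pool.Agent.MMV
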