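import Pool.Agent.MMV.LSd
import Pool.Agent.LKT.UnA
import Pool.Agent.KNH.DicM

/-!
# MMV/LBp
: the coordinates `bp c z t`   (difficulty 3)

`bp c z t = (pS3 c (√(1 - ‖c‖²) ex z), circ t)`.  `s1`, `s2` of it: `LKT.s_mk` (`‖c‖² + (1 - ‖c‖²) = 1`).  For `‖c‖ < 1`: `pS3 c (√(1 - ‖c‖²) ex z) = RSG.std 0 (z, c)` (`ex 0 = 1`), so `bp c z t = KNH.prd (RSG.std 0) (z, c, t)`: `RSG.std_thick 0`, `KNH.prd_thick` (thick torus) give `bp_loc` and `bp_inj`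
(up to the linear change of coordinates `(c, z, t) ↦ (z, c, t)`).  `bp_per`: `RSG.ex_int`-type lemmas, `KNH.circ_eq`.  `bp_one`: the square root is 0.
`bp_cont`: `pS3` is continuous where the pair is not `(0, 0)` (its norm is 1); see `RSG.pS3_smooth`-type lemmas, or use: the map into `S3` is continuous iff `s1`, `s2` of it are (`S3` is a subtype: `Continuous.subtype_mk`).
`bp_surj`: `c = s1 p.1`, `z = LKT.an (s2 p.1)` (`LKT.ex_an`), `LKT.s_ext`; `t` from `KNH.circ_surj`; `‖c‖² = 1 - ‖s2‖² < 1` (`LKT.s_sq`).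
`bp_zone`: `z = LKT.an (s2 p.1) ∈ (-1/2, 1/2]`, `cos (2πz) > |sin (2πz)|` gives `|z| < 1/8` (for `1/8 ≤ |z| ≤ 1/2` one has `cos (2π|z|) ≤ cos (π/4) ≤ ..`, or: `cos (2πz) > 0` and `cos (4πz) = cos² - sin² > 0`); the same for `t - 1/2`, from `-(p.2 : ℂ)`.
`bp_zn`: conversely.  `bp_YK`: `sY ((32 : ℝ) • YK l v)`: `x = 32 Y = (A cos, A sin, B)`, `A = √(1 - ‖v‖²/4)/(1 - v.re/2)`, `B = (v.im/2)/(1 - v.re/2)`, `‖x‖² = (1 + v.re/2)/(1 - v.re/2)`, `pS3` normalises: `pS3 (2 A ex l) (‖x‖² - 1 + 2 B i)`, times `(1 - v.re/2)/2 > 0`: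
`pS3 (√(1 - ‖v‖²/4) ex l) (v/2)` (see `MMV/SRt` for similar computations; `pS3 (r a) (r b) = pS3 a b` for `r > 0`).
-/

open scoped ContDiff Manifold Topology unitInterval
open Set Filter
open Pool.Agent.CSG (stp)
open Pool.Agent.RSG (E3 E4 S2 S3 S4 ex cj c1 c2 ht fh pS2 pS3 pS4)
open Pool.Agent.RBM (ThickT OnT Box)
open Pool.Agent.LKF (OnF)
open Pool.Agent.PTH (SP ISP)
open Pool.Agent.KNH (circ)
open Pool.Agent.LKT (s1 s2 dir)

namespace Pool.Agent.MMV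

private theorem lbp_norm {c : ℂ} (h : ‖c‖ ≤ 1) (z : ℝ) :
    ‖c‖ ^ 2 + ‖((Real.sqrt (1 - ‖c‖ ^ 2) : ℝ) : ℂ) * ex z‖ ^ 2 = 1 := by
  have h1 : 0 ≤ 1 - ‖c‖ ^ 2 := by nlinarith [norm_nonneg c]
  rw [norm_mul, RSG.ex_norm, mul_one, Complex.norm_real, Real.norm_eq_abs, sq_abs, Real.sq_sqrt h1]
  ring

theorem bp_s {c : ℂ} (h : ‖c‖ ≤ 1) (z t : ℝ) :
    s1 (bp c z t).1 = c ∧ s2 (bp c z t).1 = ((Real.sqrt (1 - ‖c‖ ^ 2) : ℝ) : ℂ) * ex z :=
  LKT.s_mk (lbp_norm h z)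

theorem bp_per (c : ℂ) (z t : ℝ) (m n : ℤ) : bp c (z + m) (t + n) = bp c z t := by
  unfold bp
  rw [RSG.ex_add_int, KNH.circ_add, KNH.circ_int, mul_one]

theorem bp_one {c : ℂ} (h : ‖c‖ = 1) (z z' t : ℝ) : bp c z t = bp c z' t := by
  unfold bp
  rw [h]
  simp

theorem bp_cont : ContinuousOn (fun q : ℂ × ℝ × ℝ => bp q.1 q.2.1 q.2.2) {q | ‖q.1‖ ≤ 1} := by
  intro q hq
  have hq' : ‖q.1‖ ≤ 1 := hq
  set b : ℂ × ℝ × ℝ → ℂ := fun q => ((Real.sqrt (1 - ‖q.1‖ ^ 2) : ℝ) : ℂ) * ex q.2.1 with hb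
  have hbc : Continuous b := by
    have h1 : Continuous ex := RSG.ex_smooth.continuous
    have h2 : Continuous fun q : ℂ × ℝ × ℝ => Real.sqrt (1 - ‖q.1‖ ^ 2) :=
      Real.continuous_sqrt.comp (continuous_const.sub (continuous_fst.norm.pow 2))
    exact (Complex.continuous_ofReal.comp h2).mul (h1.comp (continuous_fst.comp continuous_snd))
  have hv : Continuous fun q : ℂ × ℝ × ℝ => (WithLp.toLp 2 ![q.1.re, q.1.im, (b q).re, (b q).im] : E4) := by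
    apply (PiLp.continuousLinearEquiv 2 ℝ (fun _ : Fin 4 => ℝ)).symm.continuous.comp
    apply continuous_pi
    intro i
    fin_cases i
    · exact Complex.continuous_re.comp continuous_fst
    · exact Complex.continuous_im.comp continuous_fst
    · exact Complex.continuous_re.comp hbc
    · exact Complex.continuous_im.comp hbc
  have hne : (WithLp.toLp 2 ![q.1.re, q.1.im, (b q).re, (b q).im] : E4) ≠ 0 := by
    intro h1
    have e0 := congrArg (fun v : E4 => v 0) h1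
    have e1 := congrArg (fun v : E4 => v 1) h1
    have e2 := congrArg (fun v : E4 => v 2) h1
    have e3 := congrArg (fun v : E4 => v 3) h1
    simp only [PiLp.zero_apply] at e0 e1 e2 e3
    have h2 : q.1 = 0 := Complex.ext e0 e1
    have h3 : b q = 0 := Complex.ext e2 e3
    have h4 := lbp_norm hq' q.2.1
    have h5 : ((Real.sqrt (1 - ‖q.1‖ ^ 2) : ℝ) : ℂ) * ex q.2.1 = 0 := h3
    rw [h5, h2] at h4
    simp at h4
  have := Fact.mk (@finrank_euclideanSpace_fin ℝ _ (3 + 1))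
  have h1 : ContinuousAt (fun q : ℂ × ℝ × ℝ => pS3 q.1 (b q)) q := by
    have h2 : ContinuousAt (RSG.toSph (⟨EuclideanSpace.single 0 1, by simp⟩ : Metric.sphere (0 : E4) 1))
        (WithLp.toLp 2 ![q.1.re, q.1.im, (b q).re, (b q).im] : E4) :=
      (RSG.toSph_smooth (E := E4) (n := 3) _ hne).continuousAt
    exact ContinuousAt.comp (f := fun q : ℂ × ℝ × ℝ => (WithLp.toLp 2 ![q.1.re, q.1.im, (b q).re, (b q).im] : E4))
      (x := q) h2 hv.continuousAt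
  have h3 : ContinuousAt (fun q : ℂ × ℝ × ℝ => circ q.2.2) q :=
    (KNH.CirM_smooth.continuous.comp (continuous_snd.comp continuous_snd)).continuousAt
  exact (h1.prodMk h3).continuousWithinAt

private theorem lbp_std (c : ℂ) (z : ℝ) : RSG.std 0 (z, c) = pS3 c (((Real.sqrt (1 - ‖c‖ ^ 2) : ℝ) : ℂ) * ex z) := by
  unfold RSG.std
  simp only [Int.cast_zero, zero_mul, RSG.ex_zero, mul_one]

private theorem lbp_prd (c : ℂ) (z t : ℝ) : bp c z t = KNH.prd (RSG.std 0) (z, c, t) := by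
  unfold bp KNH.prd
  rw [lbp_std]

theorem bp_inj {c c' : ℂ} {z z' t t' : ℝ} (h : ‖c‖ < 1) (h' : ‖c'‖ < 1) (he : bp c z t = bp c' z' t') :
    c = c' ∧ (∃ m : ℤ, z' = z + m) ∧ ∃ n : ℤ, t' = t + n := by
  rw [lbp_prd, lbp_prd] at he
  exact (KNH.prd_thick (RSG.std_thick 0)).inj _ _ _ _ _ _ h h' he

theorem bp_surj {p : SP} (h : s2 p.1 ≠ 0) : ∃ (c : ℂ) (z t : ℝ), ‖c‖ < 1 ∧ bp c z t = p := by
  obtain ⟨t, ht⟩ := KNH.circ_surj p.2
  have h1 := LKT.s_sq p.1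
  have h2 : 0 < ‖s2 p.1‖ := norm_pos_iff.2 h
  have h3 : 1 - ‖s1 p.1‖ ^ 2 = ‖s2 p.1‖ ^ 2 := by linarith
  refine ⟨s1 p.1, Complex.arg (s2 p.1) / (2 * Real.pi), t, ?_, ?_⟩
  · have h4 : 0 < ‖s2 p.1‖ ^ 2 := by positivity
    nlinarith [norm_nonneg (s1 p.1)]
  · apply Prod.ext
    · show pS3 (s1 p.1) (((Real.sqrt (1 - ‖s1 p.1‖ ^ 2) : ℝ) : ℂ) * ex (Complex.arg (s2 p.1) / (2 * Real.pi))) = p.1
      rw [h3, Real.sqrt_sq h2.le, RSG.ex_arg]
      exact LKT.s_self p.1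
    · exact ht

theorem bp_loc {c : ℂ} (h : ‖c‖ < 1) (z t : ℝ) :
    IsLocalDiffeomorphAt 𝓘(ℝ, ℂ × ℝ × ℝ) ISP ∞ (fun q : ℂ × ℝ × ℝ => bp q.1 q.2.1 q.2.2) (c, z, t) := by
  have h1 := (KNH.prd_thick (RSG.std_thick 0)).loc z c t h
  let e : ℂ × ℝ × ℝ ≃ ℝ × ℂ × ℝ :=
    { toFun := fun q => (q.2.1, q.1, q.2.2)
      invFun := fun q => (q.2.1, q.1, q.2.2)
      left_inv := fun q => rfl
      right_inv := fun q => rfl }
  have h2 : IsLocalDiffeomorphAt 𝓘(ℝ, ℂ × ℝ × ℝ) 𝓘(ℝ, ℝ × ℂ × ℝ) ∞ e (c, z, t) := by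
    refine CSG.ld_of_perm (f := e) ?_ ?_ (c, z, t)
    · exact contDiff_snd.fst.prodMk (contDiff_fst.prodMk contDiff_snd.snd)
    · exact contDiff_snd.fst.prodMk (contDiff_fst.prodMk contDiff_snd.snd)
  have h3 : (fun q : ℂ × ℝ × ℝ => bp q.1 q.2.1 q.2.2) = KNH.prd (RSG.std 0) ∘ e := by
    funext q
    exact lbp_prd _ _ _
  rw [h3]
  exact IsLocalDiffeomorphAt.comp (hf := h2) (hg := h1) ..

private theorem lbp_arg {w : ℂ} (h : |w.im| < w.re) : |Complex.arg w / (2 * Real.pi)| < 1 / 8 := by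
  have hre : 0 < w.re := lt_of_le_of_lt (abs_nonneg _) h
  have hn : 0 < ‖w‖ := by
    have := Complex.re_le_norm w
    linarith
  have hn2 : ‖w‖ ^ 2 = w.re ^ 2 + w.im ^ 2 := by
    rw [Complex.sq_norm, Complex.normSq_apply]
    ring
  have h2 : 0 < Real.sqrt 2 := by positivity
  have h22 : Real.sqrt 2 ^ 2 = 2 := Real.sq_sqrt (by norm_num)
  have h3 : |w.im / ‖w‖| < Real.sqrt 2 / 2 := by
    rw [abs_div, abs_of_pos hn, div_lt_div_iff₀ hn (by norm_num)]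
    have h4 : (|w.im| * 2) ^ 2 < (Real.sqrt 2 * ‖w‖) ^ 2 := by
      rw [mul_pow, mul_pow, h22, hn2, sq_abs]
      have h5 : |w.im| ^ 2 < w.re ^ 2 := by
        have := abs_nonneg w.im
        nlinarith
      rw [sq_abs] at h5
      nlinarith
    exact lt_of_pow_lt_pow_left₀ 2 (by positivity) h4
  obtain ⟨h4, h5⟩ := abs_lt.1 h3
  have hpi := Real.pi_pos
  have hb : |w.im / ‖w‖| ≤ 1 := by
    rw [abs_div, abs_of_pos hn, div_le_one hn]
    exact Complex.abs_im_le_norm w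
  obtain ⟨hb1, hb2⟩ := abs_le.1 hb
  have h6 : Complex.arg w = Real.arcsin (w.im / ‖w‖) := Complex.arg_of_re_nonneg hre.le
  have h7 : Complex.arg w < Real.pi / 4 := by
    rw [h6, Real.arcsin_lt_iff_lt_sin ⟨hb1, hb2⟩ ⟨by linarith, by linarith⟩, Real.sin_pi_div_four]
    exact h5
  have h8 : -(Real.pi / 4) < Complex.arg w := by
    rw [h6, Real.lt_arcsin_iff_sin_lt ⟨by linarith, by linarith⟩ ⟨hb1, hb2⟩, Real.sin_neg, Real.sin_pi_div_four]
    exact h4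
  rw [abs_div, abs_of_pos (by positivity : (0 : ℝ) < 2 * Real.pi), div_lt_iff₀ (by positivity), abs_lt]
  constructor <;> linarith

theorem bp_zone {p : SP} (h : p ∈ Zn) :
    ∃ (c : ℂ) (z t : ℝ), ‖c‖ ^ 2 < 1 / 16 ∧ |z| < 1 / 8 ∧ |t - 1 / 2| < 1 / 8 ∧ bp c z t = p := by
  obtain ⟨h1, h2, h3⟩ := h
  have hre : 0 < (s2 p.1).re := lt_of_le_of_lt (abs_nonneg _) h2
  have hne : 0 < ‖s2 p.1‖ := by
    have := Complex.re_le_norm (s2 p.1)
    linarith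
  have h4 := LKT.s_sq p.1
  have h5 : 1 - ‖s1 p.1‖ ^ 2 = ‖s2 p.1‖ ^ 2 := by linarith
  refine ⟨s1 p.1, Complex.arg (s2 p.1) / (2 * Real.pi), 1 / 2 + Complex.arg (-(p.2 : ℂ)) / (2 * Real.pi), h1,
    lbp_arg h2, ?_, ?_⟩
  · rw [add_sub_cancel_left]
    apply lbp_arg
    simpa using h3
  · apply Prod.ext
    · show pS3 (s1 p.1) (((Real.sqrt (1 - ‖s1 p.1‖ ^ 2) : ℝ) : ℂ) * ex (Complex.arg (s2 p.1) / (2 * Real.pi))) = p.1
      rw [h5, Real.sqrt_sq hne.le, RSG.ex_arg]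
      exact LKT.s_self p.1
    · apply Circle.ext
      show ((circ (1 / 2 + Complex.arg (-(p.2 : ℂ)) / (2 * Real.pi)) : Circle) : ℂ) = (p.2 : ℂ)
      have e1 : ∀ x : ℝ, ((circ x : Circle) : ℂ) = ex x := fun x => KNH.CirM_coe x
      have h6 := RSG.ex_arg (p := -(p.2 : ℂ))
      rw [norm_neg, Circle.norm_coe, Complex.ofReal_one, one_mul] at h6
      rw [e1, RSG.ex_add, RSG.ex_half, h6]
      ring

private theorem lbp_trig {x : ℝ} (h : |x| < 1 / 8) : |(ex x).im| < (ex x).re := by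
  rw [RSG.ex_re, RSG.ex_im]
  have hpi := Real.pi_pos
  obtain ⟨h1, h2⟩ := abs_lt.1 h
  have h3 : 2 * Real.pi * x < Real.pi / 4 := by nlinarith
  have h4 : -(Real.pi / 4) < 2 * Real.pi * x := by nlinarith
  have h5 : Real.sin (2 * Real.pi * x) < Real.sin (Real.pi / 4) :=
    Real.sin_lt_sin_of_lt_of_le_pi_div_two (by linarith) (by linarith) h3
  have h6 : Real.sin (-(Real.pi / 4)) < Real.sin (2 * Real.pi * x) :=
    Real.sin_lt_sin_of_lt_of_le_pi_div_two (by linarith) (by linarith) h4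
  have h7 : Real.cos (Real.pi / 4) < Real.cos (2 * Real.pi * x) := by
    rw [← Real.cos_abs (2 * Real.pi * x)]
    apply Real.cos_lt_cos_of_nonneg_of_le_pi (abs_nonneg _) (by linarith)
    rw [abs_lt]
    exact ⟨h4, h3⟩
  rw [Real.sin_neg, Real.sin_pi_div_four] at h6
  rw [Real.sin_pi_div_four] at h5
  rw [Real.cos_pi_div_four] at h7
  rw [abs_lt]
  constructor <;> linarith

theorem bp_zn {c : ℂ} {z t : ℝ} (hc : ‖c‖ ^ 2 < 1 / 16) (hz : |z| < 1 / 8) (ht : |t - 1 / 2| < 1 / 8) : bp c z t ∈ Zn := by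
  have hc1 : ‖c‖ ≤ 1 := by nlinarith [norm_nonneg c]
  obtain ⟨h1, h2⟩ := bp_s hc1 z t
  refine ⟨by rw [h1]; exact hc, ?_, ?_⟩
  · rw [h2, Complex.re_ofReal_mul, Complex.im_ofReal_mul, abs_mul, abs_of_nonneg (Real.sqrt_nonneg _)]
    exact mul_lt_mul_of_pos_left (lbp_trig hz) (Real.sqrt_pos.2 (by linarith))
  · have e1 : (((bp c z t).2 : Circle) : ℂ) = -ex (t - 1 / 2) := by
      show ((circ t : Circle) : ℂ) = _
      have e2 : ((circ t : Circle) : ℂ) = ex t := KNH.CirM_coe t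
      have e3 : ex t = ex (t - 1 / 2) * ex (1 / 2) := by
        rw [← RSG.ex_add]
        congr 1
        ring
      rw [e2, e3, RSG.ex_half]
      ring
    rw [e1, Complex.neg_im, Complex.neg_re, abs_neg, neg_neg]
    exact lbp_trig ht

private theorem lbp_toSph_smul {E : Type*} [NormedAddCommGroup E] [InnerProductSpace ℝ E]
    (e : Metric.sphere (0 : E) 1) (v : E) {c : ℝ} (hc : 0 < c) : RSG.toSph e (c • v) = RSG.toSph e v := by
  by_cases hv : v = 0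
  · rw [hv, smul_zero]
  · have hcv : c • v ≠ 0 := smul_ne_zero hc.ne' hv
    apply Subtype.ext
    rw [RSG.toSph_coe e hv, RSG.toSph_coe e hcv, norm_smul, Real.norm_of_nonneg hc.le, smul_smul]
    congr 1
    have := norm_ne_zero_iff.2 hv
    field_simp

private theorem lbp_pS3_smul (a b : ℂ) {c : ℝ} (hc : 0 < c) : pS3 (c * a) (c * b) = pS3 a b := by
  have e : (WithLp.toLp 2 ![((c : ℂ) * a).re, ((c : ℂ) * a).im, ((c : ℂ) * b).re, ((c : ℂ) * b).im] : E4) =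
      c • (WithLp.toLp 2 ![a.re, a.im, b.re, b.im] : E4) := by
    ext i
    fin_cases i <;> simp
  unfold RSG.pS3
  rw [e]
  exact lbp_toSph_smul _ _ hc

private theorem lbp_sY (l : ℝ) (v : ℂ) (hn4 : 0 ≤ 1 - ‖v‖ ^ 2 / 4) (hvre : v.re < 2) :
    sY ((32 : ℝ) • YK l v) = pS3 (((Real.sqrt (1 - ‖v‖ ^ 2 / 4) : ℝ) : ℂ) * ex l) (v / 2) := by
  have hq : 0 < 1 - v.re / 2 := by linarith
  have hq' : (1 - v.re / 2) ≠ 0 := hq.ne'
  have hq2 : (2 - v.re) ≠ 0 := by linarith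
  set A : ℝ := Real.sqrt (1 - ‖v‖ ^ 2 / 4) / (1 - v.re / 2) with hA
  set B : ℝ := (v.im / 2) / (1 - v.re / 2) with hB
  have y0 : ((32 : ℝ) • YK l v) 0 = A * Real.cos (2 * Real.pi * l) := by
    simp only [YK, PiLp.smul_apply, smul_eq_mul]
    simp
    ring
  have y1 : ((32 : ℝ) • YK l v) 1 = A * Real.sin (2 * Real.pi * l) := by
    simp only [YK, PiLp.smul_apply, smul_eq_mul]
    simp
    ring
  have y2 : ((32 : ℝ) • YK l v) 2 = B := by
    simp only [YK, PiLp.smul_apply, smul_eq_mul]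
    simp
    exact hB.symm
  have hn : ‖(32 : ℝ) • YK l v‖ ^ 2 = A ^ 2 + B ^ 2 := by
    rw [RSG.SphB_norm, Fin.sum_univ_three, y0, y1, y2]
    have := Real.sin_sq_add_cos_sq (2 * Real.pi * l)
    linear_combination A ^ 2 * this
  have hr2 : ‖v‖ ^ 2 = v.re ^ 2 + v.im ^ 2 := by
    rw [Complex.sq_norm, Complex.normSq_apply]
    ring
  have hA2 : A ^ 2 * (1 - v.re / 2) ^ 2 = 1 - (v.re ^ 2 + v.im ^ 2) / 4 := by
    rw [hA, div_pow, Real.sq_sqrt hn4, hr2, div_mul_cancel₀ _ (pow_ne_zero 2 hq')]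
  have hB2 : B ^ 2 * (1 - v.re / 2) ^ 2 = v.im ^ 2 / 4 := by
    rw [hB, div_pow, div_mul_cancel₀ _ (pow_ne_zero 2 hq')]
    ring
  have hn2 : A ^ 2 + B ^ 2 - 1 = v.re / (1 - v.re / 2) := by
    rw [eq_div_iff hq']
    apply mul_right_cancel₀ hq'
    linear_combination hA2 + hB2
  have hpos : 0 < 2 / (1 - v.re / 2) := by positivity
  have hA3 : A * (1 - v.re / 2) = Real.sqrt (1 - ‖v‖ ^ 2 / 4) := by
    rw [hA, div_mul_cancel₀ _ hq']
  have hB3 : B * (1 - v.re / 2) = v.im / 2 := by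
    rw [hB, div_mul_cancel₀ _ hq']
  have hc3 : 2 / (1 - v.re / 2) * (1 - v.re / 2) = 2 := div_mul_cancel₀ _ hq'
  have hd3 : v.re / (1 - v.re / 2) * (1 - v.re / 2) = v.re := div_mul_cancel₀ _ hq'
  rw [← lbp_pS3_smul _ (v / 2) hpos]
  unfold sY
  rw [y0, y1, y2, hn, hn2]
  clear_value A B
  generalize Real.sqrt (1 - ‖v‖ ^ 2 / 4) = s at hA3 ⊢
  generalize v.re / (1 - v.re / 2) = d at hd3 ⊢
  generalize 2 / (1 - v.re / 2) = c at hc3 ⊢
  have k1 : c * s = 2 * A := by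
    apply mul_right_cancel₀ hq'
    linear_combination s * hc3 - 2 * hA3
  have k2 : c * (v.re / 2) = d := by
    apply mul_right_cancel₀ hq'
    linear_combination (v.re / 2) * hc3 - hd3
  have k3 : c * (v.im / 2) = 2 * B := by
    apply mul_right_cancel₀ hq'
    linear_combination (v.im / 2) * hc3 - 2 * hB3
  congr 1
  · apply Complex.ext
    · rw [← mul_assoc, ← Complex.ofReal_mul, k1, Complex.re_ofReal_mul, RSG.ex_re]
      simp [Complex.mul_re]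
      ring
    · rw [← mul_assoc, ← Complex.ofReal_mul, k1, Complex.im_ofReal_mul, RSG.ex_im]
      simp [Complex.mul_im]
      ring
  · apply Complex.ext
    · rw [Complex.re_ofReal_mul]
      have : (v / 2).re = v.re / 2 := by simp
      rw [this, k2]
    · rw [Complex.im_ofReal_mul]
      have : (v / 2).im = v.im / 2 := by simp
      rw [this, k3]

theorem bp_YK {r : ℝ} (h0 : 0 ≤ r) (h2 : r < 2) (l z t : ℝ) :
    ((sY ((32 : ℝ) • YK l ((r : ℂ) * ex z)), circ t) : SP) = bp (((Real.sqrt (1 - r ^ 2 / 4) : ℝ) : ℂ) * ex l) z t := by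
  have hvn : ‖(r : ℂ) * ex z‖ = r := by
    rw [norm_mul, RSG.ex_norm, mul_one, Complex.norm_real, Real.norm_of_nonneg h0]
  have hvre : ((r : ℂ) * ex z).re < 2 := lt_of_le_of_lt (Complex.re_le_norm _) (by rw [hvn]; exact h2)
  have hs0 : 0 ≤ 1 - r ^ 2 / 4 := by nlinarith
  have hcn : ‖((Real.sqrt (1 - r ^ 2 / 4) : ℝ) : ℂ) * ex l‖ ^ 2 = 1 - r ^ 2 / 4 := by
    rw [norm_mul, RSG.ex_norm, mul_one, Complex.norm_real, Real.norm_eq_abs, sq_abs, Real.sq_sqrt hs0]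
  have hsec : ((Real.sqrt (1 - ‖((Real.sqrt (1 - r ^ 2 / 4) : ℝ) : ℂ) * ex l‖ ^ 2) : ℝ) : ℂ) * ex z = ((r : ℂ) * ex z) / 2 := by
    rw [hcn]
    have e1 : 1 - (1 - r ^ 2 / 4) = (r / 2) ^ 2 := by ring
    rw [e1, Real.sqrt_sq (by linarith)]
    push_cast
    ring
  apply Prod.ext
  · show sY ((32 : ℝ) • YK l ((r : ℂ) * ex z)) = pS3 (((Real.sqrt (1 - r ^ 2 / 4) : ℝ) : ℂ) * ex l)
      (((Real.sqrt (1 - ‖((Real.sqrt (1 - r ^ 2 / 4) : ℝ) : ℂ) * ex l‖ ^ 2) : ℝ) : ℂ) * ex z)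
    rw [hsec, lbp_sY l ((r : ℂ) * ex z) (by rw [hvn]; exact hs0) hvre, hvn]
  · rfl

end Pool.Agent.MMV
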