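import Pool.Agent.MMV.Defs
import Pool.Agent.ACB.ClF

/-!
# MMV/SBc: classes of based loops given by functions   (difficulty 3)

`FundamentalGroup.mul_def`: `g * k` is the class of the path (representing `k`) followed by (representing `g`), see `ACB.cls_conj`, `ACB/ClU`.

* `bcls_unique`: the path `γ` is determined by `c` on `[0, 1]` (`Path.ext`).
* `bcls_congr`: same path.
* `bcls_one`: constant path.
* `bcls_reparam`: `γ = ρ̂.map f`, `γ' = ρ̂'.map f` where `ρ̂, ρ̂'` are the paths in `ℝ` from `ρ 0 = ρ' 0` to `ρ 1 = ρ' 1`; `SimplyConnectedSpace.paths_homotopic` in `ℝ` (contractible), `Path.Homotopic.map`.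
* `bcls_split`: with `sg a b` the straight path of `ℝ` from `a` to `b`: `(sg a b).trans (sg b c)` is homotopic to `sg a c` in `ℝ`; map by `f` (`Path.map_trans`).
* `bcls_rev`: `γ.symm`, `FundamentalGroup.inv_def`.
* `bcls_out`: `f = q` outside `(0, 1)`: split `[ρ 0, ρ 1]` at `0` and `1` (`bcls_split` twice, the outer parts are constant: `bcls_one`), and `bcls_reparam` from `ρ` to the straight parametrisation `t ↦ ρ 0 + t (ρ 1 - ρ 0)`.
* `cls_free`: `H (clamp s) t` ... : `ACB.clF_sq` needs `[ChartedSpace E4 N]`: copy its proof (`F : C(ℝ × ℝ, N)`, `F (s, t) = H (cl s, cl t)`, `cl` the clamp to `[0, 1]`, continuous by `ContinuousOn.comp_continuous`).  With `ρ s = H s 0` (a path from `c 0 = H 0 0` to `q = H 1 0`),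
  `γ` the path of `c`, `γ' ` the path of `H 1` with class `g`: `γ ≃ ρ.trans (γ'.trans ρ.symm)`, so with `a = ρ.symm`: `(a.trans γ).trans a.symm ≃ γ'`.
* `cls_shift`: `c` continuous, periodic: `Cls` of `t ↦ c (t + a)` gives `Cls` of `c`: the same with `H s t = c (t + s a)` and the path `a` composed (direct from the two squares; see `ACB.cls_track`, `ACB.cls_fhom`).
-/

open scoped ContDiff Manifold Topology unitInterval
open Set Filter
open Pool.Agent.CSG (stp)
open Pool.Agent.RSG (E3 E4 S2 S3 S4 ex cj c1 c2 ht fh pS3 pS4)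
open Pool.Agent.RBM (ThickT OnT Box)
open Pool.Agent.LKF (OnF)
open Pool.Agent.PTH (SP ISP)
open Pool.Agent.KNH (circ)
open Pool.Agent.LKT (s1 s2)

namespace Pool.Agent.MMV

section
variable {N : Type*} [TopologicalSpace N]

theorem sbc_cast {x y x' y' : N} {γ γ' : Path x y} (h : Path.Homotopic γ γ') (hx : x' = x) (hy : y' = y) :
    Path.Homotopic (γ.cast hx hy) (γ'.cast hx hy) := by
  subst hx hy
  exact h

theorem sbc_cast_trans {x y z q : N} {α : Path x y} {β : Path y z} {γ : Path x z} (h : Path.Homotopic (α.trans β) γ)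
    (hx : q = x) (hy : q = y) (hz : q = z) :
    Path.Homotopic ((α.cast hx hy).trans (β.cast hy hz)) (γ.cast hx hz) := by
  subst hx
  subst hy
  subst hz
  exact h

theorem bcls_unique {q : N} {c : ℝ → N} {g g' : FundamentalGroup N q} (h : BCls q c g) (h' : BCls q c g') : g = g' := by
  obtain ⟨γ, hγ, hg⟩ := h
  obtain ⟨γ', hγ', hg'⟩ := h'
  have : γ = γ' := by
    ext t
    rw [hγ, hγ']
  rw [← hg, ← hg', this]

theorem bcls_congr {q : N} {c c' : ℝ → N} {g : FundamentalGroup N q} (h : BCls q c g)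
    (he : ∀ t ∈ Icc (0 : ℝ) 1, c' t = c t) : BCls q c' g := by
  obtain ⟨γ, hγ, hg⟩ := h
  exact ⟨γ, fun t => (hγ t).trans (he t t.2).symm, hg⟩

theorem bcls_one {q : N} {c : ℝ → N} (he : ∀ t ∈ Icc (0 : ℝ) 1, c t = q) : BCls q c 1 := by
  refine ⟨Path.refl q, fun t => ?_, rfl⟩
  rw [he t t.2]
  rfl

theorem bcls_reparam {q : N} {f : ℝ → N} (hf : Continuous f) {ρ ρ' : ℝ → ℝ} (hρ : Continuous ρ) (hρ' : Continuous ρ')
    (h0 : ρ 0 = ρ' 0) (h1 : ρ 1 = ρ' 1) {g : FundamentalGroup N q} (h : BCls q (fun t => f (ρ t)) g) :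
    BCls q (fun t => f (ρ' t)) g := by
  obtain ⟨γ, hγ, hg⟩ := h
  have hq0 : q = f (ρ 0) := by
    have := hγ 0
    rw [γ.source] at this
    exact this
  have hq1 : q = f (ρ 1) := by
    have := hγ 1
    rw [γ.target] at this
    exact this
  let R : Path (ρ 0) (ρ 1) :=
    { toFun := fun t => ρ t, continuous_toFun := hρ.comp continuous_subtype_val, source' := rfl, target' := rfl }
  let R' : Path (ρ 0) (ρ 1) :=
    { toFun := fun t => ρ' t, continuous_toFun := hρ'.comp continuous_subtype_val, source' := h0.symm,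
      target' := h1.symm }
  have hh := (SimplyConnectedSpace.paths_homotopic R R').map ⟨f, hf⟩
  have hh2 := sbc_cast hh hq0 hq1
  have e : (R.map hf).cast hq0 hq1 = γ := by
    ext t
    exact (hγ t).symm
  refine ⟨(R'.map hf).cast hq0 hq1, fun t => rfl, ?_⟩
  rw [← hg, ← e]
  exact (Quotient.sound hh2).symm

/-- straight path in the line -/
def sbcSg (a b : ℝ) : Path a b :=
  { toFun := fun t => a + t * (b - a)
    continuous_toFun := by fun_prop
    source' := by simp
    target' := by simp }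

theorem bcls_split {q : N} {f : ℝ → N} (hf : Continuous f) (a b c : ℝ) {g g' : FundamentalGroup N q}
    (h : BCls q (fun t => f (a + t * (b - a))) g) (h' : BCls q (fun t => f (b + t * (c - b))) g') :
    BCls q (fun t => f (a + t * (c - a))) (g' * g) := by
  obtain ⟨γ, hγ, hg⟩ := h
  obtain ⟨γ', hγ', hg'⟩ := h'
  have ha : q = f a := by
    have := hγ 0
    rw [γ.source] at this
    simpa using this
  have hb : q = f b := by
    have := hγ 1
    rw [γ.target] at this
    simpa using this
  have hc : q = f c := by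
    have := hγ' 1
    rw [γ'.target] at this
    simpa using this
  have hh := (SimplyConnectedSpace.paths_homotopic ((sbcSg a b).trans (sbcSg b c)) (sbcSg a c)).map ⟨f, hf⟩
  rw [Path.map_trans] at hh
  have hh2 := sbc_cast_trans hh ha hb hc
  have e : ((sbcSg a b).map hf).cast ha hb = γ := by
    ext t
    exact (hγ t).symm
  have e' : ((sbcSg b c).map hf).cast hb hc = γ' := by
    ext t
    exact (hγ' t).symm
  refine ⟨((sbcSg a c).map hf).cast ha hc, fun t => rfl, ?_⟩
  rw [FundamentalGroup.mul_def, ← hg, ← hg', ← e, ← e']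
  exact (Quotient.sound hh2).symm

theorem bcls_rev {q : N} {f : ℝ → N} {g : FundamentalGroup N q} (h : BCls q f g) : BCls q (fun t => f (1 - t)) g⁻¹ := by
  obtain ⟨γ, hγ, hg⟩ := h
  refine ⟨γ.symm, fun t => ?_, ?_⟩
  · show γ (unitInterval.symm t) = f (1 - (t : ℝ))
    rw [hγ, unitInterval.coe_symm_eq]
  · rw [FundamentalGroup.inv_def, ← hg]
    rfl

theorem bcls_out {q : N} {f : ℝ → N} (hf : Continuous f) (ho : ∀ τ, τ ≤ 0 ∨ 1 ≤ τ → f τ = q) {ρ : ℝ → ℝ}
    (hρ : Continuous ρ) (h0 : ρ 0 ≤ 0) (h1 : 1 ≤ ρ 1) {g : FundamentalGroup N q} (h : BCls q f g) :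
    BCls q (fun t => f (ρ t)) g := by
  have hA : BCls q (fun t => f (ρ 0 + t * (0 - ρ 0))) (1 : FundamentalGroup N q) := by
    apply bcls_one
    intro t ht
    apply ho
    left
    have := ht.2
    nlinarith
  have hB : BCls q (fun t => f (0 + t * (1 - 0))) g := by
    apply bcls_congr h
    intro t _
    congr 1
    ring
  have hAB := bcls_split hf (ρ 0) 0 1 hA hB
  have hC : BCls q (fun t => f (1 + t * (ρ 1 - 1))) (1 : FundamentalGroup N q) := by
    apply bcls_one
    intro t ht
    apply ho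
    right
    have := ht.1
    nlinarith
  have hABC := bcls_split hf (ρ 0) 1 (ρ 1) hAB hC
  rw [mul_one, one_mul] at hABC
  exact bcls_reparam (ρ := fun t => ρ 0 + t * (ρ 1 - ρ 0)) hf (by fun_prop) hρ (by ring) (by ring) hABC

theorem sbc_sq {x x' y y' : N} (F : C(ℝ × ℝ, N)) (γ : Path x y) (hγ : ∀ t : I, γ t = F (0, (t : ℝ)))
    (γ' : Path x' y') (hγ' : ∀ t : I, γ' t = F (1, (t : ℝ))) (ρ : Path x x') (hρ : ∀ s : I, ρ s = F ((s : ℝ), 0))
    (ρ' : Path y y') (hρ' : ∀ s : I, ρ' s = F ((s : ℝ), 1)) :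
    Path.Homotopic γ (ρ.trans (γ'.trans ρ'.symm)) := by
  obtain rfl : x = F (0, 0) := by have := hγ 0; rwa [γ.source] at this
  obtain rfl : y = F (0, 1) := by have := hγ 1; rwa [γ.target] at this
  obtain rfl : x' = F (1, 0) := by have := hγ' 0; rwa [γ'.source] at this
  obtain rfl : y' = F (1, 1) := by have := hγ' 1; rwa [γ'.target] at this
  let β : Path ((0, 0) : ℝ × ℝ) (0, 1) :=
    { toFun := fun t => (0, (t : ℝ)), continuous_toFun := by fun_prop, source' := by simp, target' := by simp }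
  let τ : Path ((1, 0) : ℝ × ℝ) (1, 1) :=
    { toFun := fun t => (1, (t : ℝ)), continuous_toFun := by fun_prop, source' := by simp, target' := by simp }
  let l : Path ((0, 0) : ℝ × ℝ) (1, 0) :=
    { toFun := fun t => ((t : ℝ), 0), continuous_toFun := by fun_prop, source' := by simp, target' := by simp }
  let r : Path ((0, 1) : ℝ × ℝ) (1, 1) :=
    { toFun := fun t => ((t : ℝ), 1), continuous_toFun := by fun_prop, source' := by simp, target' := by simp }
  have h := (SimplyConnectedSpace.paths_homotopic β (l.trans (τ.trans r.symm))).map F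
  rw [Path.map_trans, Path.map_trans, ← Path.map_symm] at h
  have e1 : β.map F.continuous = γ := by ext t; exact (hγ t).symm
  have e2 : τ.map F.continuous = γ' := by ext t; exact (hγ' t).symm
  have e3 : l.map F.continuous = ρ := by ext t; exact (hρ t).symm
  have e4 : r.map F.continuous = ρ' := by ext t; exact (hρ' t).symm
  rw [e1, e2, e3, e4] at h
  exact h

/-- free homotopy on `[0, 1] × [0, 1]` to a based loop -/
theorem cls_free {q : N} {c : ℝ → N} {H : ℝ × ℝ → N} (hH : ContinuousOn H (Icc 0 1 ×ˢ Icc 0 1))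
    (h0 : ∀ t ∈ Icc (0 : ℝ) 1, H (0, t) = c t) (hp : ∀ s ∈ Icc (0 : ℝ) 1, H (s, 0) = H (s, 1)) (hq : H (1, 0) = q)
    {g : FundamentalGroup N q} (h : BCls q (fun t => H (1, t)) g) : ACB.Cls q c g := by
  obtain ⟨γ', hγ', hg⟩ := h
  have hz : (0 : ℝ) ∈ Icc (0 : ℝ) 1 := ⟨le_rfl, zero_le_one⟩
  have ho : (1 : ℝ) ∈ Icc (0 : ℝ) 1 := ⟨zero_le_one, le_rfl⟩
  have hcl : ∀ s : ℝ, max 0 (min 1 s) ∈ Icc (0 : ℝ) 1 := fun s =>
    ⟨le_max_left _ _, max_le zero_le_one (min_le_left _ _)⟩
  have hid : ∀ s : I, max 0 (min 1 (s : ℝ)) = s := fun s => by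
    rw [min_eq_right s.2.2, max_eq_right s.2.1]
  have hc0 : max 0 (min 1 (0 : ℝ)) = 0 := by norm_num
  have hc1 : max 0 (min 1 (1 : ℝ)) = 1 := by norm_num
  let F : C(ℝ × ℝ, N) := ⟨fun y => H (max 0 (min 1 y.1), max 0 (min 1 y.2)),
    hH.comp_continuous (by fun_prop) (fun y => ⟨hcl _, hcl _⟩)⟩
  have hF : ∀ s t : ℝ, F (s, t) = H (max 0 (min 1 s), max 0 (min 1 t)) := fun _ _ => rfl
  let γ : Path (c 0) (c 0) :=
    { toFun := fun t => F (0, (t : ℝ))
      continuous_toFun := F.continuous.comp (by fun_prop)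
      source' := by
        show F (0, ((0 : I) : ℝ)) = c 0
        rw [hF, hid, hc0]
        exact h0 0 hz
      target' := by
        show F (0, ((1 : I) : ℝ)) = c 0
        rw [hF, hid, hc0]
        exact (hp 0 hz).symm.trans (h0 0 hz) }
  let ρ : Path (c 0) q :=
    { toFun := fun s => F ((s : ℝ), 0)
      continuous_toFun := F.continuous.comp (by fun_prop)
      source' := by
        show F (((0 : I) : ℝ), 0) = c 0
        rw [hF, hid, hc0]
        exact h0 0 hz
      target' := by
        show F (((1 : I) : ℝ), 0) = q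
        rw [hF, hid, hc0]
        exact hq }
  have hsq := sbc_sq F γ (fun _ => rfl) γ' (fun t => by
      rw [hγ', hF, hid, hc1]) ρ (fun _ => rfl) ρ (fun s => by
      show F ((s : ℝ), 0) = F ((s : ℝ), 1)
      rw [hF, hF, hid, hc0, hc1]
      exact hp s s.2)
  refine ⟨ρ.symm, γ, fun t => ?_, ?_⟩
  · show F (0, (t : ℝ)) = c t
    rw [hF, hid, hc0]
    exact h0 t t.2
  · rw [← hg]
    have hsq' : Path.Homotopic.Quotient.mk γ = Path.Homotopic.Quotient.mk (ρ.trans (γ'.trans ρ.symm)) :=
      Quotient.sound hsq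
    show Path.Homotopic.Quotient.mk _ = Path.Homotopic.Quotient.mk γ'
    simp only [Path.Homotopic.Quotient.mk_trans, Path.Homotopic.Quotient.mk_symm, Path.symm_symm] at hsq' ⊢
    rw [hsq']
    simp only [Path.Homotopic.Quotient.trans_assoc]
    rw [Path.Homotopic.Quotient.symm_trans, Path.Homotopic.Quotient.trans_refl,
      ← Path.Homotopic.Quotient.trans_assoc, Path.Homotopic.Quotient.symm_trans, Path.Homotopic.Quotient.refl_trans]

theorem cls_shift {q : N} {c : ℝ → N} (hc : Continuous c) (hp : ∀ t, c (t + 1) = c t) (a : ℝ)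
    {g : FundamentalGroup N q} (h : ACB.Cls q (fun t => c (t + a)) g) : ACB.Cls q c g := by
  obtain ⟨α, γ', hγ', hg⟩ := h
  let F : C(ℝ × ℝ, N) := ⟨fun y => c (y.2 + y.1 * a), by fun_prop⟩
  have hF : ∀ s t : ℝ, F (s, t) = c (t + s * a) := fun _ _ => rfl
  let γ : Path (c 0) (c 0) :=
    { toFun := fun t => F (0, (t : ℝ))
      continuous_toFun := F.continuous.comp (by fun_prop)
      source' := by
        show c (((0 : I) : ℝ) + 0 * a) = c 0
        simp
      target' := by
        show c (((1 : I) : ℝ) + 0 * a) = c 0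
        have := hp 0
        rw [zero_add] at this
        simpa using this }
  let ρ : Path (c 0) (c (0 + a)) :=
    { toFun := fun s => F ((s : ℝ), 0)
      continuous_toFun := F.continuous.comp (by fun_prop)
      source' := by
        show c (0 + ((0 : I) : ℝ) * a) = c 0
        simp
      target' := by
        show c (0 + ((1 : I) : ℝ) * a) = c (0 + a)
        simp }
  have hsq := sbc_sq F γ (fun _ => rfl) γ' (fun t => by
      rw [hγ', hF, one_mul]) ρ (fun _ => rfl) ρ (fun s => by
      show c (0 + (s : ℝ) * a) = c (1 + (s : ℝ) * a)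
      rw [← hp (0 + (s : ℝ) * a)]
      congr 1
      ring)
  refine ⟨α.trans ρ.symm, γ, fun t => ?_, ?_⟩
  · show c ((t : ℝ) + 0 * a) = c t
    rw [zero_mul, add_zero]
  · rw [← hg]
    have hsq' : Path.Homotopic.Quotient.mk γ = Path.Homotopic.Quotient.mk (ρ.trans (γ'.trans ρ.symm)) :=
      Quotient.sound hsq
    show Path.Homotopic.Quotient.mk _ = Path.Homotopic.Quotient.mk _
    simp only [Path.trans_symm, Path.symm_symm, Path.Homotopic.Quotient.mk_trans, Path.Homotopic.Quotient.mk_symm] at hsq' ⊢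
    rw [hsq']
    simp only [Path.Homotopic.Quotient.trans_assoc]
    congr 1
    rw [← Path.Homotopic.Quotient.trans_assoc (Path.Homotopic.Quotient.symm _) (Path.Homotopic.Quotient.mk ρ) _,
      Path.Homotopic.Quotient.symm_trans, Path.Homotopic.Quotient.refl_trans]
    congr 1
    rw [← Path.Homotopic.Quotient.trans_assoc, Path.Homotopic.Quotient.symm_trans,
      Path.Homotopic.Quotient.refl_trans]

theorem cls_conjN {q : N} {c : ℝ → N} {g : FundamentalGroup N q} (h : ACB.Cls q c g) (k : FundamentalGroup N q) :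
    ACB.Cls q c (k * g * k⁻¹) := by
  obtain ⟨a, γ, hγ, e⟩ := h
  obtain ⟨κ, hκ⟩ := Path.Homotopic.Quotient.mk_surjective k
  refine ⟨κ.symm.trans a, γ, hγ, ?_⟩
  rw [FundamentalGroup.mul_def, FundamentalGroup.mul_def, FundamentalGroup.inv_def, ← e, ← hκ]
  show Path.Homotopic.Quotient.mk _ = Path.Homotopic.Quotient.trans (Path.Homotopic.Quotient.symm
    (Path.Homotopic.Quotient.mk κ)) (Path.Homotopic.Quotient.trans (Path.Homotopic.Quotient.mk _)
      (Path.Homotopic.Quotient.mk κ))
  simp only [Path.Homotopic.Quotient.mk_trans, Path.Homotopic.Quotient.mk_symm, Path.trans_symm,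
    Path.Homotopic.Quotient.trans_assoc, Path.symm_symm]

end

end Pool.Agent.MMV
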