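import Pool.Agent.MMV.LAs
import Pool.Agent.MMV.SBc

/-!
# MMV/LCl: the circle `ρ = H₁ ∘ H₂ ∘ ρ₀` and the classes (helper40)

`lclU τ`, `τ ∈ [0, 2]`: the path `0 → -i → (right half circle) → i → 0 → i → (left half circle) → -i → 0` of the page.
-/

open scoped ContDiff Manifold Topology unitInterval
open Set Filter
open Pool.Agent.RSG (E3 E4 S2 S3 S4 ex cj c1 c2 ht fh pS2 pS3 pS4)
open Pool.Agent.RBM (ThickT OnT Box)
open Pool.Agent.LKF (OnF)
open Pool.Agent.PTH (SP ISP)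
open Pool.Agent.KNH (circ)
open Pool.Agent.LKT (s1 s2 dir)

namespace Pool.Agent.MMV

/-- the unit circle and the imaginary axis in the disc -/
def LclK (u : ℂ) : Prop := ‖u‖ ≤ 1 ∧ (‖u‖ = 1 ∨ u.re = 0)

theorem LclK.ne {u : ℂ} (h : LclK u) : u ≠ -1 / 2 ∧ u ≠ 1 / 2 := by
  constructor
  · rintro rfl
    rcases h.2 with h | h
    · norm_num at h
    · norm_num at h
  · rintro rfl
    rcases h.2 with h | h
    · norm_num at h
    · norm_num at h

/-- clamp to `[0, 1]` -/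
noncomputable def lclC (x : ℝ) : ℝ := max 0 (min 1 x)

theorem lclC_cont : Continuous lclC := continuous_const.max (continuous_const.min continuous_id)

theorem lclC_lo {x : ℝ} (h : x ≤ 0) : lclC x = 0 := by
  rw [lclC, min_eq_right (by linarith), max_eq_left h]

theorem lclC_hi {x : ℝ} (h : 1 ≤ x) : lclC x = 1 := by
  rw [lclC, min_eq_left h, max_eq_right (by norm_num)]

theorem lclC_mid {x : ℝ} (h : 0 ≤ x) (h' : x ≤ 1) : lclC x = x := by
  rw [lclC, min_eq_right h', max_eq_right h]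

/-- the angle -/
noncomputable def lclT (τ : ℝ) : ℝ := lclC (3 * τ - 1) / 2 + lclC (3 * τ - 4) / 2

/-- the radius -/
noncomputable def lclR (τ : ℝ) : ℝ := min 1 (min (3 * |τ|) (min (3 * |τ - 1|) (3 * |τ - 2|)))

theorem lclT_cont : Continuous lclT :=
  ((lclC_cont.comp ((continuous_const.mul continuous_id).sub continuous_const)).div_const 2).add
    ((lclC_cont.comp ((continuous_const.mul continuous_id).sub continuous_const)).div_const 2)

theorem lclR_cont : Continuous lclR := by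
  unfold lclR
  fun_prop

theorem lclR_le (τ : ℝ) : lclR τ ≤ 1 := min_le_left _ _

theorem lclR_nn (τ : ℝ) : 0 ≤ lclR τ :=
  le_min zero_le_one (le_min (by positivity) (le_min (by positivity) (by positivity)))

theorem lcl_ex34 : ex (3 / 4) = -Complex.I := by
  have : (3 / 4 : ℝ) = 1 / 2 + 1 / 4 := by norm_num
  rw [this, RSG.ex_add, RSG.ex_half, RSG.ex_quarter]
  ring

theorem lcl_ex54 : ex (3 / 4 + 1 / 2) = Complex.I := by
  rw [RSG.ex_add, RSG.ex_half, lcl_ex34]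
  ring

theorem lcl_ex74 : ex (3 / 4 + 1) = -Complex.I := by
  have := RSG.ex_add_int (3 / 4) 1
  push_cast at this
  rw [this, lcl_ex34]

/-- where the radius is less than `1` the direction is `±i` -/
theorem lcl_dir {τ : ℝ} (h : lclR τ < 1) : (ex (3 / 4 + lclT τ)).re = 0 := by
  have h1 : 3 * |τ| < 1 ∨ 3 * |τ - 1| < 1 ∨ 3 * |τ - 2| < 1 := by
    by_contra hc
    push Not at hc
    exact absurd h (not_lt.2 (le_min le_rfl (le_min hc.1 (le_min hc.2.1 hc.2.2))))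
  rcases h1 with h1 | h1 | h1
  · have h2 := abs_lt.1 (show |τ| < 1 / 3 by linarith)
    rw [lclT, lclC_lo (by linarith [h2.2]), lclC_lo (by linarith [h2.2]), zero_div, add_zero, add_zero, lcl_ex34]
    simp
  · have h2 := abs_lt.1 (show |τ - 1| < 1 / 3 by linarith)
    rw [lclT, lclC_hi (by linarith [h2.1]), lclC_lo (by linarith [h2.2]), zero_div, add_zero, lcl_ex54]
    simp
  · have h2 := abs_lt.1 (show |τ - 2| < 1 / 3 by linarith)
    rw [lclT, lclC_hi (by linarith [h2.1]), lclC_hi (by linarith [h2.1]), add_halves, lcl_ex74]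
    simp

/-- the path in the page -/
noncomputable def lclU (τ : ℝ) : ℂ := (lclR τ : ℂ) * ex (3 / 4 + lclT τ)

theorem lclU_K (τ : ℝ) : LclK (lclU τ) := by
  have hn : ‖lclU τ‖ = lclR τ := by
    rw [lclU, norm_mul, RSG.ex_norm, mul_one, Complex.norm_real, Real.norm_of_nonneg (lclR_nn τ)]
  refine ⟨hn.le.trans (lclR_le τ), ?_⟩
  rcases (lclR_le τ).lt_or_eq with h | h
  · right
    rw [lclU, Complex.re_ofReal_mul, lcl_dir h, mul_zero]
  · left
    rw [hn, h]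

theorem lclU_cont : Continuous lclU :=
  (Complex.continuous_ofReal.comp lclR_cont).mul (RSG.ex_smooth.continuous.comp (continuous_const.add lclT_cont))

/-- first half of the path -/
theorem lclU_neg {τ : ℝ} (h0 : 0 ≤ τ) (h1 : τ ≤ 1) : lclU τ = -edU τ := by
  have ha : |τ| = τ := abs_of_nonneg h0
  have hb : |τ - 1| = 1 - τ := by rw [abs_sub_comm, abs_of_nonneg (by linarith)]
  have hc : |τ - 2| = 2 - τ := by rw [abs_sub_comm, abs_of_nonneg (by linarith)]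
  have h4 : lclC (3 * τ - 4) = 0 := lclC_lo (by linarith)
  rw [lclU, lclR, lclT, ha, hb, hc, h4, zero_div, add_zero]
  unfold edU
  split_ifs with c1 c2
  · rw [min_eq_left (a := 3 * (1 - τ)) (by linarith), min_eq_left (a := 3 * τ) (by linarith),
      min_eq_right (by linarith), lclC_lo (by linarith), zero_div, add_zero, lcl_ex34]
    ring
  · push Not at c1
    rw [min_eq_left (a := (1 : ℝ)) (le_min (by linarith) (le_min (by linarith) (by linarith))), lclC_mid (by linarith) (by linarith)]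
    have : 3 / 4 + (3 * τ - 1) / 2 = (1 / 4 + (3 * τ - 1) / 2) + 1 / 2 := by ring
    rw [this, RSG.ex_add, RSG.ex_half]
    simp
  · push Not at c1 c2
    rw [min_eq_left (a := 3 * (1 - τ)) (by linarith), min_eq_right (a := 3 * τ) (by linarith),
      min_eq_right (by linarith), lclC_hi (by linarith), lcl_ex54]
    ring

/-- second half of the path -/
theorem lclU_pos {τ : ℝ} (h0 : 0 ≤ τ) (h1 : τ ≤ 1) : lclU (1 + τ) = edU τ := by
  have ha : |1 + τ| = 1 + τ := abs_of_nonneg (by linarith)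
  have hb : |1 + τ - 1| = τ := by rw [add_sub_cancel_left, abs_of_nonneg h0]
  have hc : |1 + τ - 2| = 1 - τ := by rw [abs_sub_comm, abs_of_nonneg (by linarith)]; ring
  have h4 : lclC (3 * (1 + τ) - 1) = 1 := lclC_hi (by linarith)
  rw [lclU, lclR, lclT, ha, hb, hc, h4]
  unfold edU
  split_ifs with c1 c2
  · rw [min_eq_left (a := 3 * τ) (by linarith), min_eq_right (a := 3 * (1 + τ)) (by linarith),
      min_eq_right (by linarith), lclC_lo (by linarith), zero_div, add_zero, lcl_ex54]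
  · push Not at c1
    rw [min_eq_left (a := (1 : ℝ)) (le_min (by linarith) (le_min (by linarith) (by linarith))), lclC_mid (by linarith) (by linarith)]
    have : 3 / 4 + (1 / 2 + (3 * (1 + τ) - 4) / 2) = (1 / 4 + (3 * τ - 1) / 2) + ((1 : ℤ) : ℝ) := by
      push_cast
      ring
    rw [this, RSG.ex_add_int]
    simp
  · push Not at c1 c2
    rw [min_eq_right (a := 3 * τ) (by linarith), min_eq_right (a := 3 * (1 + τ)) (by linarith),
      min_eq_right (by linarith), lclC_hi (by linarith), add_halves, lcl_ex74]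
    ring

/-- the homotopy in the page -/
noncomputable def lclH (q : ℝ × ℝ) : ℂ :=
  ((max (min 1 (2 - 2 * q.1)) (lclR (2 * q.2)) : ℝ) : ℂ) *
    ex (3 / 4 + ((1 - min 1 (2 * q.1)) * q.2 + min 1 (2 * q.1) * lclT (2 * q.2)))

theorem lclH_cont : Continuous lclH := by
  have h1 : Continuous fun q : ℝ × ℝ => min (1 : ℝ) (2 - 2 * q.1) := by fun_prop
  have h2 : Continuous fun q : ℝ × ℝ => min (1 : ℝ) (2 * q.1) := by fun_prop
  have h3 : Continuous fun q : ℝ × ℝ => lclR (2 * q.2) := lclR_cont.comp (by fun_prop)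
  have h4 : Continuous fun q : ℝ × ℝ => lclT (2 * q.2) := lclT_cont.comp (by fun_prop)
  exact (Complex.continuous_ofReal.comp (h1.max h3)).mul (RSG.ex_smooth.continuous.comp
    (continuous_const.add (((continuous_const.sub h2).mul continuous_snd).add (h2.mul h4))))

theorem lclH_K (q : ℝ × ℝ) : LclK (lclH q) := by
  have hr0 : 0 ≤ max (min 1 (2 - 2 * q.1)) (lclR (2 * q.2)) := (lclR_nn _).trans (le_max_right _ _)
  have hn : ‖lclH q‖ = max (min 1 (2 - 2 * q.1)) (lclR (2 * q.2)) := by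
    rw [lclH, norm_mul, RSG.ex_norm, mul_one, Complex.norm_real, Real.norm_of_nonneg hr0]
  refine ⟨hn.le.trans (max_le (min_le_left _ _) (lclR_le _)), ?_⟩
  rcases le_total q.1 (1 / 2) with c | c
  · left
    rw [hn, min_eq_left (by linarith)]
    exact max_eq_left (lclR_le _)
  · rcases (lclR_le (2 * q.2)).lt_or_eq with e | e
    · right
      rw [lclH, Complex.re_ofReal_mul, min_eq_left (a := (1 : ℝ)) (b := 2 * q.1) (by linarith), sub_self, zero_mul, zero_add, one_mul,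
        lcl_dir e, mul_zero]
    · left
      rw [hn, e]
      exact max_eq_right (min_le_left _ _)

theorem lclH_zero (t : ℝ) : lclH (0, t) = ex (t + 3 / 4) := by
  have e1 : (max (min 1 (2 - 2 * (0 : ℝ))) (lclR (2 * t)) : ℝ) = 1 := by
    rw [mul_zero, sub_zero, min_eq_left (by norm_num), max_eq_left (lclR_le _)]
  have e2 : min 1 (2 * (0 : ℝ)) = 0 := by norm_num
  change ((max (min 1 (2 - 2 * (0 : ℝ))) (lclR (2 * t)) : ℝ) : ℂ) *
    ex (3 / 4 + ((1 - min 1 (2 * (0 : ℝ))) * t + min 1 (2 * (0 : ℝ)) * lclT (2 * t))) = _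
  rw [e1, e2, sub_zero, one_mul, zero_mul, add_zero, Complex.ofReal_one, one_mul, add_comm]

theorem lclH_one (t : ℝ) : lclH (1, t) = lclU (2 * t) := by
  have e1 : (max (min 1 (2 - 2 * (1 : ℝ))) (lclR (2 * t)) : ℝ) = lclR (2 * t) := by
    rw [mul_one, sub_self, min_eq_right (by norm_num), max_eq_right (lclR_nn _)]
  have e2 : min 1 (2 * (1 : ℝ)) = 1 := by norm_num
  change ((max (min 1 (2 - 2 * (1 : ℝ))) (lclR (2 * t)) : ℝ) : ℂ) *
    ex (3 / 4 + ((1 - min 1 (2 * (1 : ℝ))) * t + min 1 (2 * (1 : ℝ)) * lclT (2 * t))) = _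
  rw [e1, e2, sub_self, zero_mul, zero_add, one_mul, lclU]

theorem lclH_ends (s : ℝ) : lclH (s, 0) = lclH (s, 1) := by
  have h0 : lclR (2 * 0) = 0 := by
    rw [lclR, mul_zero, abs_zero, mul_zero]
    rw [min_eq_left (a := (0 : ℝ)) (le_min (by positivity) (by positivity)), min_eq_right (by norm_num)]
  have h1 : lclR (2 * 1) = 0 := by
    rw [lclR, mul_one, sub_self, abs_zero, mul_zero]
    rw [min_eq_right (a := 3 * |(2 : ℝ) - 1|) (by positivity), min_eq_right (a := 3 * |(2 : ℝ)|) (by positivity),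
      min_eq_right (by norm_num)]
  have t0 : lclT (2 * 0) = 0 := by
    rw [lclT, lclC_lo (by norm_num), lclC_lo (by norm_num)]
    norm_num
  have t1 : lclT (2 * 1) = 1 := by
    rw [lclT, lclC_hi (by norm_num), lclC_hi (by norm_num)]
    norm_num
  rw [lclH, lclH]
  simp only [h0, h1, t0, t1]
  congr 1
  have : 3 / 4 + ((1 - min 1 (2 * s)) * 1 + min 1 (2 * s) * 1) =
      3 / 4 + ((1 - min 1 (2 * s)) * 0 + min 1 (2 * s) * 0) + ((1 : ℤ) : ℝ) := by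
    push_cast
    ring
  rw [this, RSG.ex_add_int]

theorem edU_re (τ : ℝ) (h0 : 0 ≤ τ) (h1 : τ ≤ 1) : (edU τ).re ≤ 0 ∧ LclK (edU τ) := by
  have hK : LclK (edU τ) := by
    rw [← lclU_pos h0 h1]
    exact lclU_K _
  refine ⟨?_, hK⟩
  unfold edU
  split_ifs with c1 c2
  · simp
  · push Not at c1
    rw [RSG.ex_re]
    refine Real.cos_nonpos_of_pi_div_two_le_of_le ?_ ?_
    · nlinarith [Real.pi_pos]
    · nlinarith [Real.pi_pos]
  · simp

section
variable {M : Type} [TopologicalSpace M] [ChartedSpace E4 M] {k₁ k₂ : ℝ × E3 → M} {ε : ℝ} {mp : ℂ × S2 → M} {ρ₀ : ℝ × E3 → M}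

theorem lcl_RH (D : DM k₁ k₂ ε mp ρ₀) {u : ℂ} (hu : ‖u‖ ≤ 1) (h1 : u ≠ -1 / 2) (h2 : u ≠ 1 / 2) (h : 0 ≤ u.re) :
    RP k₂ mp ρ₀ (ptM mp ρ₀ u) := by
  rcases hu.lt_or_eq with hl | hl
  · rw [ptM_lt _ _ hl]
    exact Or.inl ⟨u, e₁, hl, h1, h2, h, rfl⟩
  · obtain ⟨l, rfl⟩ := RSG.ex_surj hl
    rw [ptM_ex D l]
    exact Or.inr (Or.inr ⟨l, h, rfl⟩)

theorem lcl_LH (D : DM k₁ k₂ ε mp ρ₀) {u : ℂ} (hu : ‖u‖ ≤ 1) (h1 : u ≠ -1 / 2) (h2 : u ≠ 1 / 2) (h : u.re ≤ 0) :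
    RP (shT k₁) (ngM mp) (shT ρ₀) (ptM mp ρ₀ u) := by
  have e : ptM mp ρ₀ u = ptM (ngM mp) (shT ρ₀) (-u) := by
    rw [ptM_symm D (by rwa [norm_neg]), neg_neg]
  rw [e]
  refine lcl_RH (dm_symm D) (by rwa [norm_neg]) ?_ ?_ (by simpa using h)
  · intro hc
    apply h2
    rw [← neg_neg u, hc]
    ring
  · intro hc
    apply h1
    rw [← neg_neg u, hc]
    ring

/-- the points of the first torus are not in the right half -/
theorem lcl_T1 (D : DM k₁ k₂ ε mp ρ₀) (l t : ℝ) : ¬ RP k₂ mp ρ₀ (J0 k₁ k₂ mp (κS₁ (l, 0, t))) := by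
  have hY : ‖YK l 0‖ ≠ 0 := by
    intro h0
    have h1 : YK l 0 = 0 := norm_eq_zero.1 h0
    have h2 := congrArg (fun Y : E3 => (Y 0) ^ 2 + (Y 1) ^ 2) h1
    simp only [YK, norm_zero, Complex.zero_re, Complex.zero_im] at h2
    simp at h2
    have h3 := Real.sin_sq_add_cos_sq (2 * Real.pi * l)
    nlinarith
  set Y := YK l 0 with hYd
  have hp : 0 < ‖Y‖ := lt_of_le_of_ne (norm_nonneg _) (Ne.symm hY)
  have hlt : ‖Y‖ < 1 / 16 := YK_norm l (by simp)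
  have hv : ‖(‖Y‖⁻¹ • Y)‖ = 1 := by
    rw [norm_smul, norm_inv, norm_norm, inv_mul_cancel₀ hY]
  set v : S2 := ⟨‖Y‖⁻¹ • Y, by simpa using hv⟩ with hvd
  have e1 : κS₁ (l, 0, t) = pol ((‖Y‖ : ℝ) * ex t, v) := by
    have : κS₁ (l, 0, t) = tubS (t, ‖Y‖ • v.1) := by
      have h4 : ‖Y‖ • v.1 = Y := by
        rw [hvd]
        simp only
        rw [smul_smul, mul_inv_cancel₀ hY, one_smul]
      rw [h4]
      rfl
    rw [this, tubS_pol t hp v]
  have hW : ((‖Y‖ : ℝ) : ℂ) * ex t ≠ 0 := mul_ne_zero (by exact_mod_cast hY) (RSG.ex_ne t)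
  have hWn : ‖((‖Y‖ : ℝ) : ℂ) * ex t‖ = ‖Y‖ := by
    rw [norm_mul, RSG.ex_norm, mul_one, Complex.norm_real, norm_norm]
  have hW1 : ((‖Y‖ : ℝ) : ℂ) * ex t ≠ 1 := by
    intro h
    rw [h, norm_one] at hWn
    linarith
  have hne := V0_ne hW hW1
  have hre := (V0_re hW hW1).1.2 (by rw [hWn]; linarith)
  rw [e1, J0_pol k₁ k₂ mp hW v]
  rintro (⟨u, w, hu, hu1, hu2, hu3, e⟩ | ⟨l', e⟩ | ⟨l', _, e⟩)
  · have := (D.mp_inj _ _ _ _ (V0_lt _) hne.1 hne.2 hu hu1 hu2 e).1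
    rw [this] at hre
    linarith
  · exact (D.dm _ v l' (V0_lt _) hne.1 hne.2).2.2 e
  · exact (D.dm _ v l' (V0_lt _) hne.1 hne.2).1 e

/-- the points of the second torus are not in the left half -/
theorem lcl_T2 (D : DM k₁ k₂ ε mp ρ₀) (l t : ℝ) : ¬ RP (shT k₁) (ngM mp) (shT ρ₀) (J0 k₁ k₂ mp (κS₂ (l, 0, t))) := by
  have h := lcl_T1 (dm_symm D) l (-t)
  rw [las_J2 D l (by simp) (-t)] at h
  simpa using h

/-- the points over the unit circle and over the imaginary axis are off the tori -/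
theorem lcl_offT (D : DM k₁ k₂ ε mp ρ₀) {u : ℂ} (hu : LclK u) (l t : ℝ) :
    ptM mp ρ₀ u ≠ J0 k₁ k₂ mp (κS₁ (l, 0, t)) ∧ ptM mp ρ₀ u ≠ J0 k₁ k₂ mp (κS₂ (l, 0, t)) := by
  rcases hu.2 with h | h
  · obtain ⟨a, rfl⟩ := RSG.ex_surj h
    rw [ptM_ex D a]
    exact ⟨fun e => J0_ne D (offS_κS₁ l (by simp) t) a e.symm, fun e => J0_ne D (offS_κS₂ l (by simp) t) a e.symm⟩
  · constructor
    · intro e
      refine lcl_T1 D l t ?_
      rw [← e]
      exact lcl_RH D hu.1 hu.ne.1 hu.ne.2 h.ge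
    · intro e
      refine lcl_T2 D l t ?_
      rw [← e]
      exact lcl_LH D hu.1 hu.ne.1 hu.ne.2 h.le

variable {L₁ L₂ : Sl} {x : FundamentalGroup M (mp (0, e₁))} {y : FundamentalGroup M (ngM mp (0, e₁))} {H₁ H₂ : Equiv.Perm M}

/-- `H₂` preserves the right half -/
theorem lcl_pres (D : DM k₁ k₂ ε mp ρ₀) (h₂ : HPk (shT k₂) (shT k₁) (ngM mp) (shT ρ₀) L₂ y H₂)
    (hor : ∀ m, RP k₂ mp ρ₀ m ∨ RP (shT k₁) (ngM mp) (shT ρ₀) m) {m : M} (h : RP k₂ mp ρ₀ m) : RP k₂ mp ρ₀ (H₂ m) := by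
  rcases hor (H₂ m) with h' | h'
  · exact h'
  · have := H₂.injective (h₂.fixR _ h')
    rw [this]
    exact h

theorem lcl_fixL (D : DM k₁ k₂ ε mp ρ₀) (h₁ : HPk k₁ k₂ mp ρ₀ L₁ x H₁)
    (h₂ : HPk (shT k₂) (shT k₁) (ngM mp) (shT ρ₀) L₂ y H₂) {m : M} (h : RP (shT k₁) (ngM mp) (shT ρ₀) m) :
    H₁ (H₂ m) = H₁ m := by
  rw [h₂.fixR _ h]

theorem lcl_fixR (D : DM k₁ k₂ ε mp ρ₀) (h₁ : HPk k₁ k₂ mp ρ₀ L₁ x H₁)
    (h₂ : HPk (shT k₂) (shT k₁) (ngM mp) (shT ρ₀) L₂ y H₂)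
    (hor : ∀ m, RP k₂ mp ρ₀ m ∨ RP (shT k₁) (ngM mp) (shT ρ₀) m) {m : M} (h : RP k₂ mp ρ₀ m) :
    H₁ (H₂ m) = H₂ m := h₁.fixR _ (lcl_pres D h₂ hor h)

/-- the base point -/
theorem lcl_base (D : DM k₁ k₂ ε mp ρ₀) (h₁ : HPk k₁ k₂ mp ρ₀ L₁ x H₁)
    (h₂ : HPk (shT k₂) (shT k₁) (ngM mp) (shT ρ₀) L₂ y H₂) : H₁ (H₂ (mp (0, e₁))) = mp (0, e₁) := by
  have e : ptM mp ρ₀ 0 = mp (0, e₁) := ptM_lt _ _ (by simp)
  have hl : RP (shT k₁) (ngM mp) (shT ρ₀) (mp (0, e₁)) := by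
    rw [← e]
    exact lcl_LH D (by simp) (by norm_num) (by norm_num) (by simp)
  have hr : RP k₂ mp ρ₀ (mp (0, e₁)) := by
    rw [← e]
    exact lcl_RH D (by simp) (by norm_num) (by norm_num) (by simp)
  rw [h₂.fixR _ hl, h₁.fixR _ hr]

/-- continuity of the image of the page -/
theorem lcl_cont (D : DM k₁ k₂ ε mp ρ₀) (h₁ : HPk k₁ k₂ mp ρ₀ L₁ x H₁)
    (h₂ : HPk (shT k₂) (shT k₁) (ngM mp) (shT ρ₀) L₂ y H₂) :
    ContinuousOn (fun u => H₁ (H₂ (ptM mp ρ₀ u))) {u | LclK u} := by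
  intro u hu
  have h1 : ContinuousWithinAt (ptM mp ρ₀) {u | LclK u} u :=
    ((ptM_cont D).mono (fun w (hw : LclK w) => ⟨hw.1, hw.ne.1, hw.ne.2⟩)) u hu
  have h2 : ContinuousAt (fun m => H₁ (H₂ m)) (ptM mp ρ₀ u) :=
    (las_loc D h₁ h₂ (lcl_offT D hu)).contMDiffAt.continuousAt
  exact h2.comp_continuousWithinAt h1

/-- the class of the circle `ρ` -/
theorem lcl_core (D : DM k₁ k₂ ε mp ρ₀) (h₁ : HPk k₁ k₂ mp ρ₀ L₁ x H₁)
    (h₂ : HPk (shT k₂) (shT k₁) (ngM mp) (shT ρ₀) L₂ y H₂)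
    (hor : ∀ m, RP k₂ mp ρ₀ m ∨ RP (shT k₁) (ngM mp) (shT ρ₀) m) {g : FundamentalGroup M (mp (0, e₁))}
    (hg : BCls (mp (0, e₁)) (fun τ => H₂ (ptM (ngM mp) (shT ρ₀) (edU τ))) g) :
    ACB.Cls (mp (0, e₁)) (ACB.core fun q => H₁ (H₂ (ρ₀ q))) (x ^ L₁.d * g) := by
  set G : ℂ → M := fun u => H₁ (H₂ (ptM mp ρ₀ u)) with hG
  have hGc := lcl_cont D h₁ h₂
  have hf : Continuous fun τ => G (lclU τ) := hGc.comp_continuous lclU_cont lclU_K
  have b1 : BCls (mp (0, e₁)) (fun t => G (lclU (0 + t * (1 - 0)))) g := by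
    refine bcls_congr hg fun t ht => ?_
    rw [zero_add, sub_zero, mul_one, lclU_neg ht.1 ht.2]
    obtain ⟨hre, hK⟩ := edU_re t ht.1 ht.2
    have hn : ‖-edU t‖ ≤ 1 := by rw [norm_neg]; exact hK.1
    have hne1 : -edU t ≠ -1 / 2 := by
      intro hc
      apply hK.ne.2
      rw [← neg_neg (edU t), hc]
      ring
    have hne2 : -edU t ≠ 1 / 2 := by
      intro hc
      apply hK.ne.1
      rw [← neg_neg (edU t), hc]
      ring
    have hR : RP k₂ mp ρ₀ (ptM mp ρ₀ (-edU t)) := lcl_RH D hn hne1 hne2 (by simpa using hre)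
    change H₁ (H₂ (ptM mp ρ₀ (-edU t))) = H₂ (ptM (ngM mp) (shT ρ₀) (edU t))
    rw [lcl_fixR D h₁ h₂ hor hR, ptM_symm D hK.1]
  have b2 : BCls (mp (0, e₁)) (fun t => G (lclU (1 + t * (2 - 1)))) (x ^ L₁.d) := by
    refine bcls_congr h₁.edge fun t ht => ?_
    have e : 1 + t * (2 - 1) = 1 + t := by ring
    rw [e, lclU_pos ht.1 ht.2]
    obtain ⟨hre, hK⟩ := edU_re t ht.1 ht.2
    exact lcl_fixL D h₁ h₂ (lcl_LH D hK.1 hK.ne.1 hK.ne.2 hre)
  have b3 := bcls_split hf 0 1 2 b1 b2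
  have hcc : Continuous (ACB.core fun q => H₁ (H₂ (ρ₀ q))) := by
    have : (ACB.core fun q => H₁ (H₂ (ρ₀ q))) = fun l => G (ex l) := by
      funext l
      change H₁ (H₂ (ρ₀ (l, 0))) = H₁ (H₂ (ptM mp ρ₀ (ex l)))
      rw [ptM_ex D l]
    rw [this]
    exact hGc.comp_continuous RSG.ex_smooth.continuous fun l =>
      (⟨(RSG.ex_norm l).le, Or.inl (RSG.ex_norm l)⟩ : LclK (ex l))
  refine cls_shift hcc ?_ (3 / 4) ?_
  · intro l
    change H₁ (H₂ (ρ₀ (l + 1, 0))) = H₁ (H₂ (ρ₀ (l, 0)))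
    rw [D.ρ_per l 0 (by norm_num)]
  refine cls_free (H := fun q => G (lclH q)) ?_ ?_ ?_ ?_ ?_
  · exact hGc.comp lclH_cont.continuousOn fun q _ => lclH_K q
  · intro t _
    change H₁ (H₂ (ptM mp ρ₀ (lclH (0, t)))) = H₁ (H₂ (ρ₀ (t + 3 / 4, 0)))
    rw [lclH_zero, ptM_ex D]
  · intro s _
    change G (lclH (s, 0)) = G (lclH (s, 1))
    rw [lclH_ends]
  · change G (lclH (1, 0)) = mp (0, e₁)
    rw [lclH_one, mul_zero, lclU_neg le_rfl zero_le_one]
    have : edU 0 = 0 := by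
      unfold edU
      rw [if_pos (by norm_num)]
      simp
    rw [this, neg_zero]
    change H₁ (H₂ (ptM mp ρ₀ 0)) = mp (0, e₁)
    rw [ptM_lt _ _ (by simp)]
    exact lcl_base D h₁ h₂
  · refine bcls_congr b3 fun t _ => ?_
    change G (lclH (1, t)) = G (lclU (0 + t * (2 - 0)))
    rw [lclH_one]
    congr 2
    ring

/-- the circle `ρ` is thick -/
theorem lcl_thick (D : DM k₁ k₂ ε mp ρ₀) (h₁ : HPk k₁ k₂ mp ρ₀ L₁ x H₁)
    (h₂ : HPk (shT k₂) (shT k₁) (ngM mp) (shT ρ₀) L₂ y H₂) : ACB.Thick (fun q => H₁ (H₂ (ρ₀ q))) (1 / 4) := by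
  have hpol : ∀ X : E3, X ≠ 0 → ∃ (r : ℝ) (v : S2), 0 < r ∧ r = ‖X‖ ∧ X = r • v.1 := by
    intro X hX
    have h := norm_ne_zero_iff.2 hX
    have hv : ‖(‖X‖⁻¹ • X)‖ = 1 := by
      rw [norm_smul, norm_inv, norm_norm, inv_mul_cancel₀ h]
    refine ⟨‖X‖, ⟨‖X‖⁻¹ • X, by simpa using hv⟩, norm_pos_iff.2 hX, rfl, ?_⟩
    simp only
    rw [smul_smul, mul_inv_cancel₀ h, one_smul]
  have hEE : ∀ (l r : ℝ), 0 < r → r < 1 / 4 → ‖(r : ℂ) * ex l‖ < 1 / 3 := by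
    intro l r h0 h1
    rw [norm_mul, RSG.ex_norm, mul_one, Complex.norm_real, Real.norm_of_nonneg h0.le]
    linarith
  have hnz : ∀ (l r : ℝ), 0 < r → (r : ℂ) * ex l ≠ 0 := fun l r h0 =>
    mul_ne_zero (by exact_mod_cast h0.ne') (RSG.ex_ne l)
  refine ⟨by norm_num, ?_, ?_, ?_⟩
  · intro l v hv
    simp only [D.ρ_per l v (by linarith)]
  · intro l X hX
    have hm : ∀ l' t, ρ₀ (l, X) ≠ J0 k₁ k₂ mp (κS₁ (l', 0, t)) ∧ ρ₀ (l, X) ≠ J0 k₁ k₂ mp (κS₂ (l', 0, t)) := by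
      intro l' t
      rcases eq_or_ne X 0 with h | h
      · rw [h]
        exact ⟨fun e => J0_ne D (offS_κS₁ l' (by simp) t) l e.symm, fun e => J0_ne D (offS_κS₂ l' (by simp) t) l e.symm⟩
      · obtain ⟨r, v, h0, hr, rfl⟩ := hpol X h
        have hr4 : r < 1 / 4 := hr ▸ hX
        rw [← EE_J0 D h0 (by linarith) v]
        have ho : OffS (EE (r * ex l, v)) := fun w => EE_ne (hEE l r h0 hr4) (hnz l r h0) v w
        have hoff := EE_off (hEE l r h0 hr4) v l' 0 t (by simp)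
        exact ⟨fun e => hoff.1 (J0_inj D ho (offS_κS₁ l' (by simp) t) e), fun e => hoff.2 (J0_inj D ho (offS_κS₂ l' (by simp) t) e)⟩
    exact IsLocalDiffeomorphAt.comp (hf := D.ρ_loc l X (by linarith)) (hg := las_loc D h₁ h₂ hm) ..
  · intro l X l' X' hX hX' e
    have e0 : ρ₀ (l, X) = ρ₀ (l', X') := H₂.injective (H₁.injective e)
    rcases eq_or_ne X 0 with h | h <;> rcases eq_or_ne X' 0 with h' | h'
    · subst h h'
      exact ⟨rfl, D.ρ_inj l l' e0⟩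
    · obtain ⟨r, v, h0, hr, rfl⟩ := hpol X' h'
      have hr4 : r < 1 / 4 := hr ▸ hX'
      rw [h, ← EE_J0 D h0 (by linarith) v] at e0
      exact absurd e0.symm (J0_ne D (fun w => EE_ne (hEE l' r h0 hr4) (hnz l' r h0) v w) l)
    · obtain ⟨r, v, h0, hr, rfl⟩ := hpol X h
      have hr4 : r < 1 / 4 := hr ▸ hX
      rw [h', ← EE_J0 D h0 (by linarith) v] at e0
      exact absurd e0 (J0_ne D (fun w => EE_ne (hEE l r h0 hr4) (hnz l r h0) v w) l')
    · obtain ⟨r, v, h0, hr, rfl⟩ := hpol X h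
      obtain ⟨r', v', h0', hr', rfl⟩ := hpol X' h'
      have hr4 : r < 1 / 4 := hr ▸ hX
      have hr4' : r' < 1 / 4 := hr' ▸ hX'
      rw [← EE_J0 D h0 (by linarith) v, ← EE_J0 D h0' (by linarith) v'] at e0
      have e1 := J0_inj D (fun w => EE_ne (hEE l r h0 hr4) (hnz l r h0) v w)
        (fun w => EE_ne (hEE l' r' h0' hr4') (hnz l' r' h0') v' w) e0
      obtain ⟨e2, e3⟩ := EE_inj (hEE l r h0 hr4) (hEE l' r' h0' hr4') e1
      obtain ⟨e4, m, e5⟩ := RSG.ex_polar h0 h0' e2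
      rw [e3, e4]
      exact ⟨rfl, m, e5⟩

end

end Pool.Agent.MMV
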