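import Pool.Agent.MMV.Defs
import Pool.Agent.CSG.FunBasic
import Pool.Agent.RBM.StepL

/-!
# MMV/LDf: block II, definitions (helper84)

* planar maps: `cu` (cutoff), `tr` (translation near `0`), `rad` (plane to disc), `Upl`, `V0` (for `J0`), `Mm`, `Kp` (for `KL`).
* `S³ × S¹`: `tubS` (around the south pole circle), `tubN` (around the north pole circle), `pol` (the rest), `Sym` (symmetry),
  `bp` (coordinates with respect to the great circle `s2 = 0`), `gmap` (maps given in the three pieces).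
* the double `M`: structure `DM` (map `mp (u, v)`, `u` in the unit disc minus `±1/2`, `v ∈ S²`; edge circle `ρ₀`).
* `J0`, `KL`: the two charts of `M`; `RP`: the right half of `M`; `Zn`: the zone of `S³ × S¹` in which the shears are the identity.
* `TFam L`: families of diffeomorphisms of the plane (lifts of diffeomorphisms of the torus in the class `L`).
-/

open scoped ContDiff Manifold Topology unitInterval
open Set Filter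
open Pool.Agent.RSG (E3 E4 S2 S3 S4 ex cj c1 c2 ht fh pS2 pS3 pS4)
open Pool.Agent.RBM (ThickT OnT Box)
open Pool.Agent.LKF (OnF)
open Pool.Agent.PTH (SP ISP)
open Pool.Agent.KNH (circ)
open Pool.Agent.LKT (s1 s2 dir)

namespace Pool.Agent.MMV

/-! ## planar maps -/

/-- `1` for `s ≤ a`, `0` for `s ≥ b` -/
noncomputable def cu (a b s : ℝ) : ℝ := 1 - CSG.stp a b s

/-- translation by `k` for `|Z| ≤ a`, identity for `|Z| ≥ b` -/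
noncomputable def tr (k a b : ℝ) (Z : ℂ) : ℂ := Z + ((k * cu a b ‖Z‖ : ℝ) : ℂ)

/-- radial map of the plane onto the unit disc: `W / √k` for `|W|² ≤ k / b`, `W / √(k + |W|²)` for `|W|² ≥ k / a` -/
noncomputable def rad (a b k : ℝ) (W : ℂ) : ℂ :=
  W / ((Real.sqrt (k + ‖W‖ ^ 2 * cu a b (k / ‖W‖ ^ 2)) : ℝ) : ℂ)

/-- `0 ↦ -1/2`, `∞ ↦ 1/2`, `1 ↦ ∞`; `(W + 1) / (2 (W - 1))` for `1/4 ≤ |W| ≤ 4` -/
noncomputable def Upl (W : ℂ) : ℂ :=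
  open Classical in if ‖W‖ ≤ 1 then -1 / 2 - (tr (-1) 4 16 W⁻¹)⁻¹ else 1 / 2 + (tr (-1) 4 16 W)⁻¹

/-- the planar part of `J0`: the plane minus `0, 1` onto the unit disc minus `±1/2` -/
noncomputable def V0 (W : ℂ) : ℂ := rad (1 / 8) 3 1 (Upl W)

/-- `-(1 + 2 W) / (2 + W)` for `1/4 ≤ |W| < 1`, `-1/2 - 3 W / 4` near `0` -/
noncomputable def Mm (W : ℂ) : ℂ := -1 / 2 - 3 / 4 * (tr (1 / 2) 4 12 W⁻¹)⁻¹

/-- the planar part of `KL`: the plane minus `0` onto the unit disc minus `-1/2`; `Kp (-1) = 1/2` -/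
noncomputable def Kp (W : ℂ) : ℂ := Mm (rad 6 16 (9 / 16) W)

/-! ## `S³ × S¹` -/

/-- around the south pole circle -/
noncomputable def tubS (q : ℝ × E3) : SP := (sY q.2, circ q.1)
/-- around the north pole circle -/
noncomputable def tubN (q : ℝ × E3) : SP := (Inv (sY q.2), circ q.1)
/-- polar coordinates, `W ≠ 0` -/
noncomputable def pol (q : ℂ × S2) : SP := (sY ((‖q.1‖ : ℝ) • q.2.1), dir q.1)
/-- the symmetry -/
noncomputable def Sym (p : SP) : SP := (Inv p.1, p.2⁻¹)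
/-- coordinates with respect to the great circle `s2 = 0` -/
noncomputable def bp (c : ℂ) (z t : ℝ) : SP := (pS3 c ((Real.sqrt (1 - ‖c‖ ^ 2) : ℝ) * ex z), circ t)

/-- the map which is `a (t, 0)` at `tubS (t, 0)`, `b (t, 0)` at `tubN (t, 0)` and `m (W, v)` at `pol (W, v)` -/
noncomputable def gmap {M : Type*} (a b : ℝ × E3 → M) (m : ℂ × S2 → M) (p : SP) : M :=
  open Classical in
  if h : ∃ t : ℝ, p = tubS (t, 0) then a (h.choose, 0)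
  else if h : ∃ t : ℝ, p = tubN (t, 0) then b (h.choose, 0)
  else if h : ∃ q : ℂ × S2, q.1 ≠ 0 ∧ p = pol q then m h.choose else m (1, ⟨EuclideanSpace.single 0 1, by simp⟩)

/-- the first basis vector -/
noncomputable def e₁ : S2 := ⟨EuclideanSpace.single 0 1, by simp⟩

/-! ## the double -/

/-- The double `M` in polar form: `mp (u, v)`, `|u| < 1`, `u ≠ ±1/2`, `v ∈ S²`; tubes `k₁`, `k₂` around the circles over `∓1/2`,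
tube `ρ₀` around the circle over `|u| = 1`. -/
structure DM {M : Type*} [TopologicalSpace M] [ChartedSpace E4 M] (k₁ k₂ : ℝ × E3 → M) (ε : ℝ) (mp : ℂ × S2 → M)
    (ρ₀ : ℝ × E3 → M) : Prop where
  thick₁ : ACB.Thick k₁ ε
  thick₂ : ACB.Thick k₂ ε
  small : ε ≤ 1 / 4
  mp_loc : ∀ (u : ℂ) (v : S2), ‖u‖ < 1 → u ≠ -1 / 2 → u ≠ 1 / 2 →
    IsLocalDiffeomorphAt (𝓘(ℝ, ℂ).prod (𝓡 2)) (𝓡 4) ∞ mp (u, v)
  mp_inj : ∀ (u : ℂ) (v : S2) (u' : ℂ) (v' : S2), ‖u‖ < 1 → u ≠ -1 / 2 → u ≠ 1 / 2 → ‖u'‖ < 1 → u' ≠ -1 / 2 → u' ≠ 1 / 2 →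
    mp (u, v) = mp (u', v') → u = u' ∧ v = v'
  ρ_per : ∀ (l : ℝ) (X : E3), ‖X‖ < 4 / 5 → ρ₀ (l + 1, X) = ρ₀ (l, X)
  ρ_loc : ∀ (l : ℝ) (X : E3), ‖X‖ < 4 / 5 → IsLocalDiffeomorphAt 𝓘(ℝ, ℝ × E3) (𝓡 4) ∞ ρ₀ (l, X)
  glue₀ : ∀ (l r : ℝ) (v : S2), 0 < r → r < 4 / 5 → ρ₀ (l, r • v.1) = mp ((Real.sqrt (1 - r ^ 2) : ℝ) * ex l, v)
  glue₁ : ∀ (l r : ℝ) (v : S2), 0 < r → r < ε → k₁ (l, r • v.1) = mp (-1 / 2 + (r : ℂ) * ex l, v)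
  glue₂ : ∀ (l r : ℝ) (v : S2), 0 < r → r < ε → k₂ (l, r • v.1) = mp (1 / 2 + (r : ℂ) * ex l, v)
  ρ_inj : ∀ l l' : ℝ, ρ₀ (l, 0) = ρ₀ (l', 0) → ∃ m : ℤ, l' = l + m
  d01 : ∀ l l' : ℝ, ρ₀ (l, 0) ≠ k₁ (l', 0)
  d02 : ∀ l l' : ℝ, ρ₀ (l, 0) ≠ k₂ (l', 0)
  d12 : ∀ l l' : ℝ, k₁ (l, 0) ≠ k₂ (l', 0)
  dm : ∀ (u : ℂ) (v : S2) (l : ℝ), ‖u‖ < 1 → u ≠ -1 / 2 → u ≠ 1 / 2 →
    mp (u, v) ≠ ρ₀ (l, 0) ∧ mp (u, v) ≠ k₁ (l, 0) ∧ mp (u, v) ≠ k₂ (l, 0)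
  cover : ∀ m : M, (∃ (u : ℂ) (v : S2), ‖u‖ < 1 ∧ u ≠ -1 / 2 ∧ u ≠ 1 / 2 ∧ m = mp (u, v)) ∨ (∃ l : ℝ, m = ρ₀ (l, 0)) ∨
    (∃ l : ℝ, m = k₁ (l, 0)) ∨ ∃ l : ℝ, m = k₂ (l, 0)

section
variable {M : Type*} (k₁ k₂ : ℝ × E3 → M) (mp : ℂ × S2 → M) (ρ₀ : ℝ × E3 → M)

/-- the symmetric data -/
noncomputable def shT (k : ℝ × E3 → M) (q : ℝ × E3) : M := k (q.1 + 1 / 2, q.2)
/-- the symmetric data -/
noncomputable def ngM (mp : ℂ × S2 → M) (q : ℂ × S2) : M := mp (-q.1, q.2)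

/-- the chart `J0 : S³ × S¹ - Σ → M - edge circle` -/
noncomputable def J0 : SP → M :=
  gmap (fun q => k₁ (q.1 + 1 / 2, q.2)) (fun q => k₂ (-q.1, q.2)) (fun q => mp (V0 q.1, q.2))

/-- angle of the edge circle near the north pole circle, scaled normal vector -/
noncomputable def lN (q : ℝ × E3) : ℝ × E3 :=
  (1 / 2 + q.1 + (Complex.arg (2 + ex (-q.1) * (Real.sqrt (1 + 576 * ‖q.2‖ ^ 2) : ℝ)) -
      Complex.arg (2 + ex q.1 / (Real.sqrt (1 + 576 * ‖q.2‖ ^ 2) : ℝ))) / (2 * Real.pi),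
    (24 * Real.sqrt 3 / (Real.sqrt (1 + 576 * ‖q.2‖ ^ 2) *
      ‖2 + ex q.1 / (Real.sqrt (1 + 576 * ‖q.2‖ ^ 2) : ℝ)‖)) • q.2)

/-- the chart `KL : S³ × S¹ - (sphere) → M - k₂` -/
noncomputable def KL : SP → M :=
  gmap (fun q => k₁ (q.1 + 1 / 2, (1 / 32 : ℝ) • q.2)) (fun q => ρ₀ (lN q)) (fun q => mp (Kp (q.1 / 32), q.2))

/-- the right half of the double -/
def RP (m : M) : Prop :=
  (∃ (u : ℂ) (v : S2), ‖u‖ < 1 ∧ u ≠ -1 / 2 ∧ u ≠ 1 / 2 ∧ 0 ≤ u.re ∧ m = mp (u, v)) ∨ (∃ l : ℝ, m = k₂ (l, 0)) ∨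
    ∃ l : ℝ, 0 ≤ (ex l).re ∧ m = ρ₀ (l, 0)

end

/-- the zone in which the shears are the identity -/
def Zn : Set SP :=
  {p | ‖s1 p.1‖ ^ 2 < 1 / 16 ∧ |(s2 p.1).im| < (s2 p.1).re ∧ |(p.2 : ℂ).im| < -(p.2 : ℂ).re}

/-- the chart of a neighbourhood of `Σ = {pol (1, v)}` -/
noncomputable def EE (q : ℂ × S2) : SP :=
  pol ((2 + (starRingEnd ℂ) q.1 / (Real.sqrt (1 - ‖q.1‖ ^ 2) : ℝ)) /
    (2 - (starRingEnd ℂ) q.1 / (Real.sqrt (1 - ‖q.1‖ ^ 2) : ℝ)), q.2)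

/-! ## families of torus diffeomorphisms -/

/-- A family of diffeomorphisms `f q` of the plane, `q ∈ ℝ`, which commute with the translations by `ℤ²` up to the matrix `L`, are
the identity near `(0, 1/2)` for `q < 1/16` and are affine for `q ≥ 1/4`. -/
structure TFam (L : Sl) where
  f : ℝ × ℝ × ℝ → ℝ × ℝ
  g : ℝ × ℝ × ℝ → ℝ × ℝ
  f_smooth : ContDiff ℝ ∞ f
  g_smooth : ContDiff ℝ ∞ g
  gf : ∀ q z t, g (q, f (q, z, t)) = (z, t)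
  fg : ∀ q z t, f (q, g (q, z, t)) = (z, t)
  equi : ∀ (q z t : ℝ) (m n : ℤ), f (q, z + m, t + n) = f (q, z, t) + ((L.a * m + L.b * n : ℝ), (L.c * m + L.d * n : ℝ))
  near : ∀ q z t : ℝ, q < 1 / 16 → |z| < 1 / 8 → |t - 1 / 2| < 1 / 8 → f (q, z, t) = (z, t)
  lin : ∀ q z t : ℝ, 1 / 4 ≤ q → f (q, z, t) = (L.a * z + L.b * (t - 1 / 2), 1 / 2 + L.c * z + L.d * (t - 1 / 2))

end Pool.Agent.MMV
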