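import Pool.Agent.MMV.LDf

/-!
# MMV/LDg: block II, definitions: the page `v = e₁` of the double (closed unit disc minus `±1/2`)
-/

open scoped ContDiff Manifold Topology unitInterval
open Set Filter
open Pool.Agent.RSG (E3 E4 S2 S3 S4 ex cj c1 c2 ht fh pS2 pS3 pS4)
open Pool.Agent.RBM (ThickT OnT Box)
open Pool.Agent.LKF (OnF)
open Pool.Agent.PTH (SP ISP)
open Pool.Agent.KNH (circ)
open Pool.Agent.LKT (s1 s2 dir)

namespace Pool.Agent.MMV

/-- the point of `M` over `(u, e₁)`, `|u| ≤ 1` -/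
noncomputable def ptM {M : Type*} (mp : ℂ × S2 → M) (ρ₀ : ℝ × E3 → M) (u : ℂ) : M :=
  open Classical in if ‖u‖ < 1 then mp (u, e₁) else ρ₀ (Complex.arg u / (2 * Real.pi), 0)

/-- the closed curve: segment `[0, i]`, left half of the unit circle, segment `[-i, 0]` -/
noncomputable def edU (τ : ℝ) : ℂ :=
  open Classical in if τ ≤ 1 / 3 then ((3 * τ : ℝ) : ℂ) * Complex.I
  else if τ ≤ 2 / 3 then ex (1 / 4 + (3 * τ - 1) / 2) else -((3 * (1 - τ) : ℝ) : ℂ) * Complex.I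

/-- `|c|` of the point over `W'`, as a function of `w = |W'|²` -/
noncomputable def cw (w : ℝ) : ℝ := 48 * Real.sqrt (w * (1 - w)) / (1 + 575 * w)

/-- The shear of the left half of the double: `H` is a local diffeomorphism off the torus `J0 (κS₁ (l, 0, t))`, fixes this torus and the
right half; `z₁`, `z₂`: class of the image of the loop around the torus; `edge`: class of the image of the left half of the edge circle. -/
structure HPk {M : Type} [TopologicalSpace M] [ChartedSpace E4 M] (k₁ k₂ : ℝ × E3 → M) (mp : ℂ × S2 → M) (ρ₀ : ℝ × E3 → M)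
    (L : Sl) (x : FundamentalGroup M (mp (0, e₁))) (H : Equiv.Perm M) : Prop where
  loc : ∀ m, (∀ l t, m ≠ J0 k₁ k₂ mp (κS₁ (l, 0, t))) → IsLocalDiffeomorphAt (𝓡 4) (𝓡 4) ∞ H m
  fixT : ∀ l t, H (J0 k₁ k₂ mp (κS₁ (l, 0, t))) = J0 k₁ k₂ mp (κS₁ (l, 0, t))
  fixR : ∀ m, RP k₂ mp ρ₀ m → H m = m
  tor : ∀ l r z t : ℝ, 0 < r → r < 1 → H (J0 k₁ k₂ mp (κS₁ (l, r * ex z, t))) =
    J0 k₁ k₂ mp (κS₁ (l, r * ex (L.a * z + L.b * (t - 1 / 2)), 1 / 2 + L.c * z + L.d * (t - 1 / 2)))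
  z₁ : BCls (mp (0, e₁)) (fun τ => H (J0 k₁ k₂ mp (zl₁ τ))) (x ^ L.c)
  z₂ : BCls (mp (0, e₁)) (fun τ => H (J0 k₁ k₂ mp (Sym (zl₂ τ)))) (x ^ (-L.c))
  edge : BCls (mp (0, e₁)) (fun τ => H (ptM mp ρ₀ (edU τ))) (x ^ L.d)

end Pool.Agent.MMV
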