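import Pool.Agent.MMV.LSy

/-!
# MMV/LEE: the chart `EE` of a neighbourhood of `Σ = {pol (1, v)}`   (difficulty 3)

`EE (ζ, v) = pol (G ζ, v)`, `G ζ = (2 + q)/(2 - q)`, `q = conj ζ / √(1 - |ζ|²)`.  For `|ζ| < 1/3`: `|q| < (1/3)/√(8/9) < 2/5`, `G ζ` is well defined, `1/4 ≤ |G ζ| ≤ 4`, `Re G ζ > 0` (`Re ((2 + q)(2 - conj q)) = 4 - |q|²`), `G ζ ≠ 0`.  `ζ ↦ q` is a diffeomorphism of the unit disc onto the plane
(inverse `ζ = conj q / √(1 + |q|²)`), `q ↦ (2 + q)/(2 - q)` is a Möbius map (inverse `q = 2 (W - 1)/(W + 1)`): `RSG.ld_two` or `CSG.ld_of_fderiv`; then `pol_ld`, `RSG.ld_prodMap`.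
`EE_time`: `dir W = circ t` with `t = arg W / 2π`, `|t| < 1/4` since `Re W > 0`.
`EE_off`: the points of the thick torus `κS₁` are `tubS (t, Y)`, `|Y|² = |YK|² = (1/1024) (1 + Re v/2)/(1 - Re v/2) < 3/1024 < 1/256`, and those of `κS₂` are `tubN (t, Y)` with the same `|Y| < 1/16`, i.e. `Inv (sY Y)`; the point `pol (W, v)` is `sY (|W| v)` with `1/4 ≤ |W| ≤ 4` (`tubS_inj`, `tubS_ne_pol`, `Sym_tubS`, `Sym_pol`).
`EE_J0`: `J0_pol`, `V0_far`: `V0 (G ζ) = √(1 - r²) ex l` for `ζ = r ex l`, and `D.glue₀`.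
-/

open scoped ContDiff Manifold Topology unitInterval
open Set Filter
open Pool.Agent.RSG (E3 E4 S2 S3 S4 ex cj c1 c2 ht fh pS2 pS3 pS4)
open Pool.Agent.RBM (ThickT OnT Box)
open Pool.Agent.LKF (OnF)
open Pool.Agent.PTH (SP ISP)
open Pool.Agent.KNH (circ)
open Pool.Agent.LKT (s1 s2 dir)

namespace Pool.Agent.MMV

/-- `conj ζ / √(1 - |ζ|²)` -/
noncomputable def lee_q (ζ : ℂ) : ℂ := (starRingEnd ℂ) ζ / (Real.sqrt (1 - ‖ζ‖ ^ 2) : ℝ)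

/-- the planar part of `EE` -/
noncomputable def lee_G (ζ : ℂ) : ℂ := (2 + lee_q ζ) / (2 - lee_q ζ)

/-- the inverse of `lee_G` -/
noncomputable def lee_inv (W : ℂ) : ℂ :=
  (starRingEnd ℂ) (2 * (W - 1) / (W + 1)) / (Real.sqrt (1 + ‖2 * (W - 1) / (W + 1)‖ ^ 2) : ℝ)

theorem lee_EE (ζ : ℂ) (v : S2) : EE (ζ, v) = pol (lee_G ζ, v) := rfl

theorem lee_q_norm {ζ : ℂ} (h : ‖ζ‖ < 1 / 3) : ‖lee_q ζ‖ < 2 / 5 := by
  have h0 : 0 < 1 - ‖ζ‖ ^ 2 := by nlinarith [norm_nonneg ζ]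
  have h1 : 0 < Real.sqrt (1 - ‖ζ‖ ^ 2) := Real.sqrt_pos.mpr h0
  unfold lee_q
  rw [norm_div, RCLike.norm_conj, Complex.norm_real, Real.norm_of_nonneg h1.le, div_lt_iff₀ h1]
  have h2 : 5 / 6 < Real.sqrt (1 - ‖ζ‖ ^ 2) := by
    rw [Real.lt_sqrt (by norm_num)]
    nlinarith [norm_nonneg ζ]
  linarith

theorem lee_sub_ne {q : ℂ} (h : ‖q‖ < 2 / 5) : 2 - q ≠ 0 := by
  intro h0
  have h1 : q = 2 := (sub_eq_zero.mp h0).symm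
  rw [h1] at h
  norm_num at h

theorem lee_add_ne {q : ℂ} (h : ‖q‖ < 2 / 5) : 2 + q ≠ 0 := by
  intro h0
  have h1 : q = -2 := by linear_combination h0
  rw [h1] at h
  norm_num at h

theorem lee_G_ne {ζ : ℂ} (h : ‖ζ‖ < 1 / 3) : lee_G ζ ≠ 0 :=
  div_ne_zero (lee_add_ne (lee_q_norm h)) (lee_sub_ne (lee_q_norm h))

theorem lee_G_norm {ζ : ℂ} (h : ‖ζ‖ < 1 / 3) : 1 / 4 ≤ ‖lee_G ζ‖ ∧ ‖lee_G ζ‖ ≤ 4 := by
  have hq := lee_q_norm h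
  have h2 : ‖(2 : ℂ)‖ = 2 := by norm_num
  have a1 : ‖2 + lee_q ζ‖ ≤ 12 / 5 := (norm_add_le _ _).trans (by rw [h2]; linarith)
  have a2 : ‖2 - lee_q ζ‖ ≤ 12 / 5 := (norm_sub_le _ _).trans (by rw [h2]; linarith)
  have a3 : 8 / 5 ≤ ‖2 + lee_q ζ‖ := by
    have := norm_sub_le (2 + lee_q ζ) (lee_q ζ)
    rw [add_sub_cancel_right, h2] at this
    linarith
  have a4 : 8 / 5 ≤ ‖2 - lee_q ζ‖ := by
    have := norm_add_le (2 - lee_q ζ) (lee_q ζ)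
    rw [sub_add_cancel, h2] at this
    linarith
  unfold lee_G
  rw [norm_div]
  constructor
  · rw [le_div_iff₀ (by linarith)]
    linarith
  · rw [div_le_iff₀ (by linarith)]
    linarith

theorem lee_G_re {ζ : ℂ} (h : ‖ζ‖ < 1 / 3) : 0 < (lee_G ζ).re := by
  have hq := lee_q_norm h
  have hne := lee_sub_ne hq
  have h1 : 0 < Complex.normSq (2 - lee_q ζ) := Complex.normSq_pos.mpr hne
  have h2 : (lee_q ζ).re ^ 2 + (lee_q ζ).im ^ 2 = ‖lee_q ζ‖ ^ 2 := by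
    rw [← Complex.normSq_eq_norm_sq, Complex.normSq_apply]
    ring
  unfold lee_G
  rw [Complex.div_re, ← add_div]
  apply div_pos _ h1
  simp only [Complex.add_re, Complex.sub_re, Complex.add_im, Complex.sub_im, Complex.re_ofNat, Complex.im_ofNat]
  nlinarith [norm_nonneg (lee_q ζ)]

theorem lee_left {ζ : ℂ} (h : ‖ζ‖ < 1 / 3) : lee_inv (lee_G ζ) = ζ := by
  have hq := lee_q_norm h
  have hne := lee_sub_ne hq
  have h0 : 0 < 1 - ‖ζ‖ ^ 2 := by nlinarith [norm_nonneg ζ]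
  have h1 : 0 < Real.sqrt (1 - ‖ζ‖ ^ 2) := Real.sqrt_pos.mpr h0
  have e1 : 2 * (lee_G ζ - 1) / (lee_G ζ + 1) = lee_q ζ := by
    unfold lee_G
    have e2 : (2 + lee_q ζ) / (2 - lee_q ζ) + 1 = 4 / (2 - lee_q ζ) := by
      field_simp
      ring
    have e3 : (2 + lee_q ζ) / (2 - lee_q ζ) - 1 = 2 * lee_q ζ / (2 - lee_q ζ) := by
      field_simp
      ring
    rw [e2, e3]
    field_simp
    ring
  unfold lee_inv
  rw [e1]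
  have e4 : 1 + ‖lee_q ζ‖ ^ 2 = (1 / Real.sqrt (1 - ‖ζ‖ ^ 2)) ^ 2 := by
    unfold lee_q
    rw [norm_div, RCLike.norm_conj, Complex.norm_real, Real.norm_of_nonneg h1.le, div_pow, div_pow,
      Real.sq_sqrt h0.le]
    field_simp
    ring
  rw [e4, Real.sqrt_sq (by positivity)]
  unfold lee_q
  rw [map_div₀, Complex.conj_conj, Complex.conj_ofReal]
  have h2 : ((Real.sqrt (1 - ‖ζ‖ ^ 2) : ℝ) : ℂ) ≠ 0 := by exact_mod_cast h1.ne'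
  push_cast
  field_simp

theorem lee_G_inj {ζ ζ' : ℂ} (h : ‖ζ‖ < 1 / 3) (h' : ‖ζ'‖ < 1 / 3) (e : lee_G ζ = lee_G ζ') : ζ = ζ' := by
  rw [← lee_left h, ← lee_left h', e]

theorem lee_conj_smooth : ContDiff ℝ ∞ (fun z : ℂ => (starRingEnd ℂ) z) := Complex.conjCLE.contDiff

theorem lee_G_smooth {ζ : ℂ} (h : ‖ζ‖ < 1 / 3) : ContDiffAt ℝ ∞ lee_G ζ := by
  have h0 : 0 < 1 - ‖ζ‖ ^ 2 := by nlinarith [norm_nonneg ζ]
  have h1 : 0 < Real.sqrt (1 - ‖ζ‖ ^ 2) := Real.sqrt_pos.mpr h0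
  have e1 : ContDiffAt ℝ ∞ (fun z : ℂ => 1 - ‖z‖ ^ 2) ζ := contDiffAt_const.sub (contDiff_norm_sq ℝ).contDiffAt
  have e2 : ContDiffAt ℝ ∞ (fun z : ℂ => Real.sqrt (1 - ‖z‖ ^ 2)) ζ := e1.sqrt h0.ne'
  have e3 : ContDiffAt ℝ ∞ (fun z : ℂ => ((Real.sqrt (1 - ‖z‖ ^ 2) : ℝ) : ℂ)) ζ :=
    (Complex.ofRealCLM.contDiff.contDiffAt).comp ζ e2
  have hne : ((Real.sqrt (1 - ‖ζ‖ ^ 2) : ℝ) : ℂ) ≠ 0 := by exact_mod_cast h1.ne'
  have e4 : ContDiffAt ℝ ∞ lee_q ζ := by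
    have h2 : ContDiffAt ℝ ∞ (fun z : ℂ => (starRingEnd ℂ) z * ((Real.sqrt (1 - ‖z‖ ^ 2) : ℝ) : ℂ)⁻¹) ζ :=
      lee_conj_smooth.contDiffAt.mul (e3.inv hne)
    have h3 : lee_q = fun z : ℂ => (starRingEnd ℂ) z * ((Real.sqrt (1 - ‖z‖ ^ 2) : ℝ) : ℂ)⁻¹ := by
      funext z
      unfold lee_q
      rw [div_eq_mul_inv]
    rw [h3]
    exact h2
  have e5 : ContDiffAt ℝ ∞ (fun z : ℂ => 2 + lee_q z) ζ := contDiffAt_const.add e4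
  have e6 : ContDiffAt ℝ ∞ (fun z : ℂ => 2 - lee_q z) ζ := contDiffAt_const.sub e4
  have e7 : ContDiffAt ℝ ∞ (fun z : ℂ => (2 + lee_q z) * (2 - lee_q z)⁻¹) ζ :=
    e5.mul (e6.inv (lee_sub_ne (lee_q_norm h)))
  have e8 : lee_G = fun z : ℂ => (2 + lee_q z) * (2 - lee_q z)⁻¹ := by
    funext z
    unfold lee_G
    rw [div_eq_mul_inv]
  rw [e8]
  exact e7

theorem lee_inv_diff {W : ℂ} (hW : W + 1 ≠ 0) : DifferentiableAt ℝ lee_inv W := by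
  have e01 : ContDiffAt ℝ ∞ (fun w : ℂ => 2 * (w - 1)) W := contDiffAt_const.mul (contDiffAt_id.sub contDiffAt_const)
  have e02 : ContDiffAt ℝ ∞ (fun w : ℂ => w + 1) W := contDiffAt_id.add contDiffAt_const
  have e1 : ContDiffAt ℝ ∞ (fun w : ℂ => 2 * (w - 1) / (w + 1)) W := by
    have h3 : ContDiffAt ℝ ∞ (fun w : ℂ => 2 * (w - 1) * (w + 1)⁻¹) W := e01.mul (e02.inv hW)
    simpa only [div_eq_mul_inv] using h3
  have e2 : ContDiffAt ℝ ∞ (fun w : ℂ => (starRingEnd ℂ) (2 * (w - 1) / (w + 1))) W :=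
    lee_conj_smooth.contDiffAt.comp W e1
  have e3 : ContDiffAt ℝ ∞ (fun w : ℂ => 1 + ‖2 * (w - 1) / (w + 1)‖ ^ 2) W :=
    contDiffAt_const.add ((contDiff_norm_sq ℝ).contDiffAt.comp W e1)
  have h0 : 0 < 1 + ‖2 * (W - 1) / (W + 1)‖ ^ 2 := by positivity
  have e4 : ContDiffAt ℝ ∞ (fun w : ℂ => Real.sqrt (1 + ‖2 * (w - 1) / (w + 1)‖ ^ 2)) W := e3.sqrt h0.ne'
  have e5 : ContDiffAt ℝ ∞ (fun w : ℂ => ((Real.sqrt (1 + ‖2 * (w - 1) / (w + 1)‖ ^ 2) : ℝ) : ℂ)) W :=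
    (Complex.ofRealCLM.contDiff.contDiffAt).comp W e4
  have h1 : Real.sqrt (1 + ‖2 * (W - 1) / (W + 1)‖ ^ 2) ≠ 0 := (Real.sqrt_pos.mpr h0).ne'
  have h1' : ((Real.sqrt (1 + ‖2 * (W - 1) / (W + 1)‖ ^ 2) : ℝ) : ℂ) ≠ 0 := by exact_mod_cast h1
  have e6 : ContDiffAt ℝ ∞ lee_inv W := by
    have h3 : ContDiffAt ℝ ∞ (fun w : ℂ => (starRingEnd ℂ) (2 * (w - 1) / (w + 1)) *
        ((Real.sqrt (1 + ‖2 * (w - 1) / (w + 1)‖ ^ 2) : ℝ) : ℂ)⁻¹) W := e2.mul (e5.inv h1')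
    have h4 : lee_inv = fun w : ℂ => (starRingEnd ℂ) (2 * (w - 1) / (w + 1)) *
        ((Real.sqrt (1 + ‖2 * (w - 1) / (w + 1)‖ ^ 2) : ℝ) : ℂ)⁻¹ := by
      funext w
      unfold lee_inv
      rw [div_eq_mul_inv]
    rw [h4]
    exact h3
  exact e6.differentiableAt (by simp)

theorem lee_G_add {ζ : ℂ} (h : ‖ζ‖ < 1 / 3) : lee_G ζ + 1 ≠ 0 := by
  intro h0
  have h1 := lee_G_re h
  have h2 : lee_G ζ = -1 := by linear_combination h0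
  rw [h2] at h1
  norm_num at h1

theorem lee_G_ld {ζ : ℂ} (h : ‖ζ‖ < 1 / 3) : IsLocalDiffeomorphAt 𝓘(ℝ, ℂ) 𝓘(ℝ, ℂ) ∞ lee_G ζ := by
  have hev : ∀ᶠ z : ℂ in 𝓝 ζ, ‖z‖ < 1 / 3 := continuous_norm.continuousAt.eventually_lt continuousAt_const h
  exact Pool.Agent.RSG.ld_left (g := lee_inv) (hev.mono fun z hz => lee_G_smooth hz) rfl
    (lee_inv_diff (lee_G_add h)) (hev.mono fun z hz => lee_left hz)

theorem EE_ld {ζ : ℂ} (h : ‖ζ‖ < 1 / 3) (v : S2) : IsLocalDiffeomorphAt (𝓘(ℝ, ℂ).prod (𝓡 2)) ISP ∞ EE (ζ, v) := by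
  have h1 : IsLocalDiffeomorphAt (𝓘(ℝ, ℂ).prod (𝓡 2)) (𝓘(ℝ, ℂ).prod (𝓡 2)) ∞ (Prod.map lee_G (id : S2 → S2)) (ζ, v) :=
    Pool.Agent.RSG.ld_prodMap (lee_G_ld h) (Pool.Agent.CSG.ld_id v)
  have h2 : IsLocalDiffeomorphAt (𝓘(ℝ, ℂ).prod (𝓡 2)) ISP ∞ pol (Prod.map lee_G (id : S2 → S2) (ζ, v)) :=
    pol_ld (lee_G_ne h) v
  exact IsLocalDiffeomorphAt.comp (hf := h1) (hg := h2)

theorem EE_inj {ζ ζ' : ℂ} {v v' : S2} (h : ‖ζ‖ < 1 / 3) (h' : ‖ζ'‖ < 1 / 3) (e : EE (ζ, v) = EE (ζ', v')) : ζ = ζ' ∧ v = v' := by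
  rw [lee_EE, lee_EE] at e
  obtain ⟨h1, h2⟩ := pol_inj (lee_G_ne h) (lee_G_ne h') e
  exact ⟨lee_G_inj h h' h1, h2⟩

theorem lee_G_zero : lee_G 0 = 1 := by
  simp [lee_G, lee_q]

theorem EE_zero (v : S2) : EE (0, v) = pol (1, v) := by
  rw [lee_EE, lee_G_zero]

theorem EE_ne {ζ : ℂ} (h : ‖ζ‖ < 1 / 3) (h0 : ζ ≠ 0) (v v' : S2) : EE (ζ, v) ≠ pol (1, v') := by
  intro e
  rw [← EE_zero] at e
  exact h0 (EE_inj h (by rw [norm_zero]; norm_num) e).1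

theorem EE_time {ζ : ℂ} (h : ‖ζ‖ < 1 / 3) (v : S2) : ∃ t : ℝ, |t| < 1 / 4 ∧ (EE (ζ, v)).2 = circ t := by
  refine ⟨Complex.arg (lee_G ζ) / (2 * Real.pi), ?_, ?_⟩
  · have h1 : |Complex.arg (lee_G ζ)| < Real.pi / 2 :=
      Complex.abs_arg_lt_pi_div_two_iff.mpr (Or.inl (lee_G_re h))
    rw [abs_div, abs_of_pos Real.two_pi_pos, div_lt_iff₀ Real.two_pi_pos]
    linarith
  · show dir (lee_G ζ) = circ (Complex.arg (lee_G ζ) / (2 * Real.pi))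
    unfold dir circ
    congr 1
    field_simp

/-- the thick tori are in the tubes `|Y| < 1/16` -/
theorem lee_YK (l : ℝ) {w : ℂ} (hw : ‖w‖ < 1) : ‖YK l w‖ < 1 / 16 := by
  have hre : |w.re| ≤ ‖w‖ := Complex.abs_re_le_norm w
  obtain ⟨hr1, hr2⟩ := abs_le.mp hre
  have hd : 0 < 1 - w.re / 2 := by linarith
  have hn : w.re ^ 2 + w.im ^ 2 = ‖w‖ ^ 2 := by
    rw [← Complex.normSq_eq_norm_sq, Complex.normSq_apply]
    ring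
  have hs : 0 ≤ 1 - ‖w‖ ^ 2 / 4 := by nlinarith [norm_nonneg w]
  have h1 : ‖YK l w‖ ^ 2 = 1 / 1024 * ((1 + w.re / 2) / (1 - w.re / 2)) := by
    rw [EuclideanSpace.norm_sq_eq]
    simp only [YK, Fin.sum_univ_three, Real.norm_eq_abs, sq_abs]
    simp only [Matrix.cons_val_zero, Matrix.cons_val_one, Matrix.cons_val]
    have hc := Real.sin_sq_add_cos_sq (2 * Real.pi * l)
    have hq : Real.sqrt (1 - ‖w‖ ^ 2 / 4) ^ 2 = 1 - ‖w‖ ^ 2 / 4 := Real.sq_sqrt hs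
    have e1 : (1 / 32 * (Real.sqrt (1 - ‖w‖ ^ 2 / 4) / (1 - w.re / 2)) * Real.cos (2 * Real.pi * l)) ^ 2 +
        (1 / 32 * (Real.sqrt (1 - ‖w‖ ^ 2 / 4) / (1 - w.re / 2)) * Real.sin (2 * Real.pi * l)) ^ 2 +
        (1 / 32 * (w.im / 2 / (1 - w.re / 2))) ^ 2 =
        1 / 1024 * ((Real.sqrt (1 - ‖w‖ ^ 2 / 4) ^ 2 * (Real.sin (2 * Real.pi * l) ^ 2 + Real.cos (2 * Real.pi * l) ^ 2) +
          w.im ^ 2 / 4) / (1 - w.re / 2) ^ 2) := by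
      field_simp
      ring
    rw [e1, hc, hq]
    have e2 : (1 - ‖w‖ ^ 2 / 4) * 1 + w.im ^ 2 / 4 = (1 + w.re / 2) * (1 - w.re / 2) := by
      rw [← hn]
      ring
    rw [e2]
    field_simp
  have h2 : (1 + w.re / 2) / (1 - w.re / 2) < 4 := by
    rw [div_lt_iff₀ hd]
    linarith
  have h3 : ‖YK l w‖ ^ 2 < (1 / 16) ^ 2 := by
    rw [h1]
    linarith
  exact lt_of_pow_lt_pow_left₀ 2 (by norm_num) h3

theorem lee_v (v : S2) : ‖v.1‖ = 1 := mem_sphere_zero_iff_norm.mp v.2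

theorem EE_off {ζ : ℂ} (h : ‖ζ‖ < 1 / 3) (v : S2) (l : ℝ) (w : ℂ) (t : ℝ) (hw : ‖w‖ < 1) :
    EE (ζ, v) ≠ κS₁ (l, w, t) ∧ EE (ζ, v) ≠ κS₂ (l, w, t) := by
  obtain ⟨hG1, hG2⟩ := lee_G_norm h
  have hG0 : 0 < ‖lee_G ζ‖ := by linarith
  constructor
  · intro e
    have e1 : sY ((‖lee_G ζ‖ : ℝ) • v.1) = sY (YK l w) := congrArg Prod.fst e
    have e2 := sY_inj e1
    have e3 := lee_YK l hw
    rw [← e2, norm_smul, lee_v, mul_one, norm_norm] at e3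
    linarith
  · intro e
    have e1 : sY ((‖lee_G ζ‖ : ℝ) • v.1) = Inv (sY (YK l (-(starRingEnd ℂ) w))) := congrArg Prod.fst e
    have hne : (‖lee_G ζ‖ : ℝ) • v.1 ≠ 0 := by
      intro h0
      have := congrArg norm h0
      rw [norm_smul, lee_v, mul_one, norm_norm, norm_zero] at this
      exact hG0.ne' this
    have e2 := congrArg Inv e1
    rw [Inv_Inv, sY_inv hne] at e2
    have e3 := sY_inj e2
    have hw' : ‖-(starRingEnd ℂ) w‖ < 1 := by rwa [norm_neg, RCLike.norm_conj]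
    have e4 := lee_YK l hw'
    rw [← e3, norm_smul, norm_smul, lee_v, mul_one, norm_norm, norm_inv, norm_pow, norm_norm] at e4
    have e5 : (‖lee_G ζ‖ ^ 2)⁻¹ * ‖lee_G ζ‖ = ‖lee_G ζ‖⁻¹ := by
      field_simp
    rw [e5, inv_lt_comm₀ hG0 (by norm_num)] at e4
    norm_num at e4
    linarith

/-- the thick tori are in the tubes `|Y| < 1/16` -/
theorem YK_norm (l : ℝ) {w : ℂ} (hw : ‖w‖ < 1) : ‖YK l w‖ < 1 / 16 := lee_YK l hw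

section
variable {M : Type*} [TopologicalSpace M] [ChartedSpace E4 M] {k₁ k₂ : ℝ × E3 → M} {ε : ℝ} {mp : ℂ × S2 → M} {ρ₀ : ℝ × E3 → M}

theorem EE_J0 (D : DM k₁ k₂ ε mp ρ₀) {l r : ℝ} (hr : 0 < r) (h : r < 1 / 3) (v : S2) :
    J0 k₁ k₂ mp (EE (r * ex l, v)) = ρ₀ (l, r • v.1) := by
  have hn : ‖(r : ℂ) * ex l‖ = r := by
    rw [norm_mul, Pool.Agent.RSG.ex_norm, mul_one, Complex.norm_real, Real.norm_of_nonneg hr.le]
  have hz : ‖(r : ℂ) * ex l‖ < 1 / 3 := by rw [hn]; exact h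
  have h0 : (r : ℂ) * ex l ≠ 0 := by
    intro h1
    rw [h1, norm_zero] at hn
    exact hr.ne hn
  rw [lee_EE, J0_pol k₁ k₂ mp (lee_G_ne hz) v, D.glue₀ l r v hr (by linarith)]
  have h1 := V0_far h0 hz
  have h2 : V0 (lee_G ((r : ℂ) * ex l)) = (Real.sqrt (1 - r ^ 2) : ℝ) * ex l := by
    unfold lee_G lee_q
    rw [h1, hn]
    have h3 : (r : ℂ) ≠ 0 := by exact_mod_cast hr.ne'
    field_simp
  rw [h2]

end

end Pool.Agent.MMV
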