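import Pool.Agent.MMV.LSy

/-!
# MMV/LJ0: the chart `J0 : S³ × S¹ - Σ → M - edge circle`, `Σ = {pol (1, v)}`   (difficulty 3)

Formulas: `J0_tubS`, `J0_tubN`, `J0_pol` (LSy).  `J0_ld`: at `pol (W, v)`, `W ≠ 0, 1`: `gmap_ld_pol`, the map `(W, v) ↦ mp (V0 W, v)` is `mp` (`D.mp_loc`, `V0_lt`, `V0_ne`) composed with `V0 × id` (`V0_ld`, `RSG.ld_prodMap`).  At `tubS (t, 0)`: `gmap_ld_S` with `δ = min ε (1/16)`:
`k₁ (l + 1/2, r v) = mp (-1/2 + r ex (l + 1/2), v) = mp (-1/2 - r ex l, v) = mp (V0 (r ex l), v)` (`glue₁`, `V0_small`).  At `tubN (t, 0)`: `k₂ (-l, r v) = mp (1/2 + r ex (-l), v)` and `V0 (r⁻¹ ex l) = 1/2 + (r⁻¹ ex l)⁻¹ = 1/2 + r ex (-l)` for `r ≤ 1/16` (`glue₂`, `V0_large`).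
`J0_inj`, `J0_ne`, `J0_cover`: the three pieces by `SP_cover`; `D.mp_inj`, `V0_inj`, `V0_surj`, `D.d01`, `d02`, `d12`, `dm`, `D.thick₁.inj` (with `tubS_per`), `D.cover`.
`J0_RP`: `pol (W, v)`, `W ≠ 0, 1`, `|W| ≥ 1`: `Re V0 W ≥ 0` (`V0_re`); `J0_LP`: the same in the left half.
`J0_p₀`: `p₀ = pol (-1, e₁)` (`sY e₁ = pS3 1 0` up to normalisation, `dir (-1) = circ (1/2)`), `V0 (-1) = 0` (`V0_neg`, `V0_re`).
-/

open scoped ContDiff Manifold Topology unitInterval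
open Set Filter
open Pool.Agent.RSG (E3 E4 S2 S3 S4 ex cj c1 c2 ht fh pS2 pS3 pS4)
open Pool.Agent.RBM (ThickT OnT Box)
open Pool.Agent.LKF (OnF)
open Pool.Agent.PTH (SP ISP)
open Pool.Agent.KNH (circ)
open Pool.Agent.LKT (s1 s2 dir)

namespace Pool.Agent.MMV

private theorem lj0_toSph {E : Type*} [NormedAddCommGroup E] [NormedSpace ℝ E] (e : Metric.sphere (0 : E) 1) {v : E}
    (hv : v ≠ 0) {r : ℝ} (hr : 0 < r) : RSG.toSph e (r • v) = RSG.toSph e v := by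
  have hrv : r • v ≠ 0 := smul_ne_zero hr.ne' hv
  unfold RSG.toSph
  rw [dif_neg hrv, dif_neg hv]
  apply Subtype.ext
  show ‖r • v‖⁻¹ • (r • v) = ‖v‖⁻¹ • v
  rw [norm_smul, Real.norm_of_nonneg hr.le, smul_smul, mul_inv, mul_comm (r⁻¹), mul_assoc, inv_mul_cancel₀ hr.ne', mul_one]

private theorem lj0_half (l : ℝ) : ex (l + 1 / 2) = -ex l := by
  rw [RSG.ex_add, RSG.ex_half]
  ring

private theorem lj0_neg (l : ℝ) : ex (-l) = (ex l)⁻¹ := by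
  apply eq_inv_of_mul_eq_one_left
  rw [← RSG.ex_add, neg_add_cancel, RSG.ex_zero]

private theorem lj0_nrm {r : ℝ} (hr : 0 < r) (l : ℝ) : ‖(r : ℂ) * ex l‖ = r := by
  rw [norm_mul, RSG.ex_norm, mul_one, Complex.norm_real, Real.norm_of_nonneg hr.le]

private theorem lj0_ne {r : ℝ} (hr : 0 < r) (l : ℝ) : (r : ℂ) * ex l ≠ 0 := by
  rw [← norm_pos_iff, lj0_nrm hr]
  exact hr

private theorem lj0_add (q : ℝ × E3) :
    IsLocalDiffeomorphAt 𝓘(ℝ, ℝ × E3) 𝓘(ℝ, ℝ × E3) ∞ (fun q : ℝ × E3 => (q.1 + 1 / 2, q.2)) q := by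
  let f : (ℝ × E3) ≃ (ℝ × E3) := ⟨fun q => (q.1 + 1 / 2, q.2), fun q => (q.1 - 1 / 2, q.2), fun q => by simp,
    fun q => by simp⟩
  exact CSG.ld_of_perm (f := f) ((contDiff_fst.add contDiff_const).prodMk contDiff_snd)
    ((contDiff_fst.sub contDiff_const).prodMk contDiff_snd) q

private theorem lj0_sub (q : ℝ × E3) :
    IsLocalDiffeomorphAt 𝓘(ℝ, ℝ × E3) 𝓘(ℝ, ℝ × E3) ∞ (fun q : ℝ × E3 => (-q.1, q.2)) q := by
  let f : (ℝ × E3) ≃ (ℝ × E3) := ⟨fun q => (-q.1, q.2), fun q => (-q.1, q.2), fun q => by simp, fun q => by simp⟩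
  exact CSG.ld_of_perm (f := f) (contDiff_fst.neg.prodMk contDiff_snd) (contDiff_fst.neg.prodMk contDiff_snd) q

section
variable {M : Type*} [TopologicalSpace M] [ChartedSpace E4 M] {k₁ k₂ : ℝ × E3 → M} {ε : ℝ} {mp : ℂ × S2 → M} {ρ₀ : ℝ × E3 → M}

theorem J0_ld (D : DM k₁ k₂ ε mp ρ₀) {p : SP} (hp : ∀ v, p ≠ pol (1, v)) :
    IsLocalDiffeomorphAt ISP (𝓡 4) ∞ (J0 k₁ k₂ mp) p := by
  have hε := D.thick₁.pos
  have h0 : ‖(0 : E3)‖ < ε := by rwa [norm_zero]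
  have hδ : 0 < min ε (1 / 16) := lt_min hε (by norm_num)
  rcases SP_cover p with ⟨t, rfl⟩ | ⟨t, rfl⟩ | ⟨W, v, hW, rfl⟩
  · unfold J0
    refine gmap_ld_S (fun t n => ?_) hδ ?_ ?_
    · show k₁ (t + n + 1 / 2, 0) = k₁ (t + 1 / 2, 0)
      rw [show t + (n : ℝ) + 1 / 2 = (t + 1 / 2) + n by ring]
      exact D.thick₁.per_int _ n 0 h0
    · exact (lj0_add (t, 0)).comp _ _ (D.thick₁.loc (t + 1 / 2) 0 h0)
    · intro l r v hr hr'
      show k₁ (l + 1 / 2, r • v.1) = mp (V0 (r * ex l), v)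
      rw [D.glue₁ _ r v hr (lt_of_lt_of_le hr' (min_le_left _ _)), V0_small (lj0_ne hr l)
        (by rw [lj0_nrm hr]; exact (hr'.le.trans (min_le_right _ _))), lj0_half]
      congr 2
      ring
  · unfold J0
    refine gmap_ld_N (fun t n => ?_) hδ ?_ ?_
    · show k₂ (-(t + n), 0) = k₂ (-t, 0)
      have h1 := D.thick₂.per_int (-t) (-n) 0 h0
      rw [← h1]
      congr 2
      push_cast
      ring
    · exact (lj0_sub (t, 0)).comp _ _ (D.thick₂.loc (-t) 0 h0)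
    · intro l r v hr hr'
      show k₂ (-l, r • v.1) = mp (V0 ((r⁻¹ : ℝ) * ex l), v)
      have hri : 0 < r⁻¹ := inv_pos.2 hr
      have h16 : r ≤ 1 / 16 := hr'.le.trans (min_le_right _ _)
      rw [D.glue₂ _ r v hr (lt_of_lt_of_le hr' (min_le_left _ _)), V0_large (by
        rw [lj0_nrm hri, le_inv_comm₀ (by norm_num) hr]
        linarith), lj0_neg, mul_inv]
      congr 3
      push_cast
      rw [inv_inv]
  · have h1 : W ≠ 1 := by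
      rintro rfl
      exact hp v rfl
    unfold J0
    apply gmap_ld_pol hW v
    obtain ⟨h2, h3⟩ := V0_ne hW h1
    exact (RSG.ld_prodMap (V0_ld hW h1) (CSG.ld_id v)).comp _ _ (D.mp_loc (V0 W) v (V0_lt W) h2 h3)

theorem J0_inj (D : DM k₁ k₂ ε mp ρ₀) {p p' : SP} (hp : ∀ v, p ≠ pol (1, v)) (hp' : ∀ v, p' ≠ pol (1, v))
    (h : J0 k₁ k₂ mp p = J0 k₁ k₂ mp p') : p = p' := by
  have h0 : ‖(0 : E3)‖ < ε := by
    rw [norm_zero]
    exact D.thick₁.pos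
  rcases SP_cover p with ⟨t, rfl⟩ | ⟨t, rfl⟩ | ⟨W, v, hW, rfl⟩ <;>
    rcases SP_cover p' with ⟨t', rfl⟩ | ⟨t', rfl⟩ | ⟨W', v', hW', rfl⟩
  · rw [J0_tubS D, J0_tubS D] at h
    obtain ⟨_, m, hm⟩ := D.thick₁.inj _ _ _ _ h0 h0 h
    have : t' = t + m := by linarith
    rw [this, tubS_per]
  · rw [J0_tubS D, J0_tubN D] at h
    exact (D.d12 _ _ h).elim
  · have h1 : W' ≠ 1 := by
      rintro rfl
      exact hp' v' rfl
    obtain ⟨h2, h3⟩ := V0_ne hW' h1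
    rw [J0_tubS D, J0_pol k₁ k₂ mp hW'] at h
    exact ((D.dm _ v' _ (V0_lt W') h2 h3).2.1 h.symm).elim
  · rw [J0_tubN D, J0_tubS D] at h
    exact (D.d12 _ _ h.symm).elim
  · rw [J0_tubN D, J0_tubN D] at h
    obtain ⟨_, m, hm⟩ := D.thick₂.inj _ _ _ _ h0 h0 h
    have : t' = t + ((-m : ℤ) : ℝ) := by
      push_cast
      linarith
    rw [this, tubN_per]
  · have h1 : W' ≠ 1 := by
      rintro rfl
      exact hp' v' rfl
    obtain ⟨h2, h3⟩ := V0_ne hW' h1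
    rw [J0_tubN D, J0_pol k₁ k₂ mp hW'] at h
    exact ((D.dm _ v' _ (V0_lt W') h2 h3).2.2 h.symm).elim
  · have h1 : W ≠ 1 := by
      rintro rfl
      exact hp v rfl
    obtain ⟨h2, h3⟩ := V0_ne hW h1
    rw [J0_tubS D, J0_pol k₁ k₂ mp hW] at h
    exact ((D.dm _ v _ (V0_lt W) h2 h3).2.1 h).elim
  · have h1 : W ≠ 1 := by
      rintro rfl
      exact hp v rfl
    obtain ⟨h2, h3⟩ := V0_ne hW h1
    rw [J0_tubN D, J0_pol k₁ k₂ mp hW] at h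
    exact ((D.dm _ v _ (V0_lt W) h2 h3).2.2 h).elim
  · have h1 : W ≠ 1 := by
      rintro rfl
      exact hp v rfl
    have h1' : W' ≠ 1 := by
      rintro rfl
      exact hp' v' rfl
    obtain ⟨h2, h3⟩ := V0_ne hW h1
    obtain ⟨h2', h3'⟩ := V0_ne hW' h1'
    rw [J0_pol k₁ k₂ mp hW, J0_pol k₁ k₂ mp hW'] at h
    obtain ⟨e1, e2⟩ := D.mp_inj _ _ _ _ (V0_lt W) h2 h3 (V0_lt W') h2' h3' h
    rw [V0_inj hW h1 hW' h1' e1, e2]

theorem J0_ne (D : DM k₁ k₂ ε mp ρ₀) {p : SP} (hp : ∀ v, p ≠ pol (1, v)) (l : ℝ) : J0 k₁ k₂ mp p ≠ ρ₀ (l, 0) := by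
  rcases SP_cover p with ⟨t, rfl⟩ | ⟨t, rfl⟩ | ⟨W, v, hW, rfl⟩
  · rw [J0_tubS D]
    exact (D.d01 _ _).symm
  · rw [J0_tubN D]
    exact (D.d02 _ _).symm
  · have h1 : W ≠ 1 := by
      rintro rfl
      exact hp v rfl
    obtain ⟨h2, h3⟩ := V0_ne hW h1
    rw [J0_pol k₁ k₂ mp hW]
    exact (D.dm _ v _ (V0_lt W) h2 h3).1

theorem J0_cover (D : DM k₁ k₂ ε mp ρ₀) (m : M) :
    (∃ p : SP, (∀ v, p ≠ pol (1, v)) ∧ m = J0 k₁ k₂ mp p) ∨ ∃ l : ℝ, m = ρ₀ (l, 0) := by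
  rcases D.cover m with ⟨u, v, hu, h2, h3, rfl⟩ | ⟨l, rfl⟩ | ⟨l, rfl⟩ | ⟨l, rfl⟩
  · obtain ⟨W, hW, h1, rfl⟩ := V0_surj hu h2 h3
    refine Or.inl ⟨pol (W, v), fun v' he => h1 (pol_inj hW one_ne_zero he).1, ?_⟩
    rw [J0_pol k₁ k₂ mp hW]
  · exact Or.inr ⟨l, rfl⟩
  · refine Or.inl ⟨tubS (l - 1 / 2, 0), fun v' => tubS_ne_pol _ one_ne_zero v', ?_⟩
    rw [J0_tubS D, sub_add_cancel]
  · refine Or.inl ⟨tubN (-l, 0), fun v' => tubN_ne_pol _ one_ne_zero v', ?_⟩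
    rw [J0_tubN D, neg_neg]

private theorem lj0_polar {Y : E3} (hY : Y ≠ 0) : ∃ v : S2, Y = ‖Y‖ • v.1 := by
  have hn : ‖Y‖ ≠ 0 := norm_ne_zero_iff.2 hY
  refine ⟨⟨‖Y‖⁻¹ • Y, ?_⟩, ?_⟩
  · rw [mem_sphere_zero_iff_norm, norm_smul, norm_inv, norm_norm, inv_mul_cancel₀ hn]
  · show Y = ‖Y‖ • ‖Y‖⁻¹ • Y
    rw [smul_smul, mul_inv_cancel₀ hn, one_smul]

/-- points with `|Y| ≥ 1` go to the right half -/
theorem J0_RP (D : DM k₁ k₂ ε mp ρ₀) {Y : E3} (hY : 1 ≤ ‖Y‖) {t : ℝ} (hp : ∀ v, tubS (t, Y) ≠ pol (1, v)) :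
    RP k₂ mp ρ₀ (J0 k₁ k₂ mp (tubS (t, Y))) := by
  have hpos : 0 < ‖Y‖ := by linarith
  obtain ⟨v, hv⟩ := lj0_polar (norm_pos_iff.1 hpos)
  have e : tubS (t, Y) = pol ((‖Y‖ : ℂ) * ex t, v) := by
    rw [← tubS_pol t hpos v, ← hv]
  rw [e] at hp ⊢
  have hW := lj0_ne hpos t
  have h1 : (‖Y‖ : ℂ) * ex t ≠ 1 := by
    intro h
    exact hp v (by rw [h])
  obtain ⟨h2, h3⟩ := V0_ne hW h1
  obtain ⟨h4, _⟩ := V0_re hW h1
  rw [lj0_nrm hpos] at h4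
  rw [J0_pol k₁ k₂ mp hW]
  refine Or.inl ⟨_, v, V0_lt _, h2, h3, ?_, rfl⟩
  by_contra hneg
  have := h4.1 (not_le.1 hneg)
  linarith

/-- points with `|Y| ≤ 1` go to the left half -/
theorem J0_LP (D : DM k₁ k₂ ε mp ρ₀) {Y : E3} (hY : ‖Y‖ ≤ 1) {t : ℝ} (hp : ∀ v, tubS (t, Y) ≠ pol (1, v)) :
    RP (shT k₁) (ngM mp) (shT ρ₀) (J0 k₁ k₂ mp (tubS (t, Y))) := by
  rcases eq_or_ne Y 0 with rfl | hY0
  · rw [J0_tubS D]
    exact Or.inr (Or.inl ⟨t, rfl⟩)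
  · have hpos : 0 < ‖Y‖ := norm_pos_iff.2 hY0
    obtain ⟨v, hv⟩ := lj0_polar hY0
    have e : tubS (t, Y) = pol ((‖Y‖ : ℂ) * ex t, v) := by
      rw [← tubS_pol t hpos v, ← hv]
    rw [e] at hp ⊢
    have hW := lj0_ne hpos t
    have h1 : (‖Y‖ : ℂ) * ex t ≠ 1 := by
      intro h
      exact hp v (by rw [h])
    obtain ⟨h2, h3⟩ := V0_ne hW h1
    obtain ⟨h4, h5⟩ := V0_re hW h1
    rw [lj0_nrm hpos] at h4 h5
    rw [J0_pol k₁ k₂ mp hW]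
    refine Or.inl ⟨-V0 ((‖Y‖ : ℂ) * ex t), v, ?_, ?_, ?_, ?_, ?_⟩
    · rw [norm_neg]
      exact V0_lt _
    · intro h
      apply h3
      rw [← neg_neg (V0 _), h]
      ring
    · intro h
      apply h2
      rw [← neg_neg (V0 _), h]
      ring
    · rw [Complex.neg_re]
      rcases lt_or_eq_of_le hY with hlt | heq
      · have := h4.2 hlt
        linarith
      · have := h5.2 heq
        linarith
    · show _ = mp (- -V0 _, v)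
      rw [neg_neg]

theorem J0_p₀ (k₁ k₂ : ℝ × E3 → M) (mp : ℂ × S2 → M) : J0 k₁ k₂ mp p₀ = mp (0, e₁) := by
  have hne : (-1 : ℂ) ≠ 0 := by norm_num
  have hne1 : (-1 : ℂ) ≠ 1 := by norm_num
  have hp : p₀ = pol (-1, e₁) := by
    unfold p₀ pol
    apply Prod.ext
    · show pS3 1 0 = sY (‖(-1 : ℂ)‖ • e₁.1)
      have hn : ‖(-1 : ℂ)‖ = 1 := by simp
      rw [hn, one_smul]
      have hen : ‖(e₁.1 : E3)‖ = 1 := norm_eq_of_mem_sphere e₁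
      unfold sY
      rw [hen]
      unfold RSG.pS3
      have hv : (WithLp.toLp 2 ![(1 : ℂ).re, (1 : ℂ).im, (0 : ℂ).re, (0 : ℂ).im] : E4) ≠ 0 := by
        intro h0
        have := congrArg (fun x : E4 => x 0) h0
        simp at this
      rw [← lj0_toSph _ hv (r := 2) (by norm_num)]
      congr 1
      ext i
      fin_cases i <;> simp [e₁]
    · show circ (1 / 2) = dir (-1)
      have h2 := dir_ex (r := 1) one_pos (1 / 2)
      rw [← h2, RSG.ex_half]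
      simp
  rw [hp, J0_pol k₁ k₂ mp hne]
  have h1 := (V0_neg (x := 1) one_pos le_rfl).1
  have h2 := (V0_re hne hne1).2.2 (by simp)
  have h3 : V0 (-1) = 0 := by
    have h4 : V0 (-((1 : ℝ) : ℂ)) = V0 (-1) := by
      push_cast
      rfl
    rw [h4] at h1
    rw [h1, h2]
    simp
  rw [h3]

end

end Pool.Agent.MMV
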