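import Pool.Agent.MMV.SDf
import Pool.Agent.LKT.UnA

/-!
# MMV/SRt: the rotation chart `Rc` of `S³`, the standard tori   (difficulty 3)

* `Ci_re`: clear.  `Cy_Ci`: `‖Ci v‖² = (1 - ‖v‖² + im²)/(1-re)² = (1 + re)/(1 - re)`, so `1 + ‖Ci v‖² = 2/(1-re)`, `‖Ci v‖² - 1 = 2 re/(1-re)`.  `Ci_Cy`: `1 - ‖Cy w‖² = 4 (re w)²/(1+‖w‖²)²`, `1 - re (Cy w) = 2/(1+‖w‖²)`.
* `Ci_loc`: `RSG.ld_two` with the inverse `Cy` (smooth: quotients, `Real.sqrt` of a positive number; complex numbers from real and imaginary parts as in `LKT.TwG_mk`).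
* `Rc_s`: `pS3` normalises: `‖(2 re w) ex θ‖² + ‖⟨‖w‖²-1, 2 im w⟩‖² = (1+‖w‖²)²`, so `pS3 a b = pS3 (a/ρ) (b/ρ)`, `ρ = 1+‖w‖² > 0` (look at `RSG.toSph`, `RSG.pS3`; `LKT.s_mk` for the normalised pair).
* `Rc_std`: with `v = Cy w`, `√(1 - ‖v‖²) = 2 re w/(1+‖w‖²)`: `Rc θ w = LKT.sw (RSG.std 0 (θ, Cy w))` (`RSG.std 0 (l, v) = pS3 (v ex 0) (√(1-‖v‖²) ex l)`; `LKT.s_ext`).  `Rc_loc`, `Rc_inj`: from `RSG.std_thick 0`, `LKT.sw_ld`, `LKT.sw_sw` and `Cy` (local diffeomorphism of the half plane, injective there with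
  values in the unit disc).
* `sY_eq`: `‖Y‖² = ‖w‖²`, `2 (Y₀ + i Y₁) = 2 re w ex θ` (`RSG.ex_re`, `RSG.ex_im`).
* `κS₁_eq`: `YK l v` is the vector of `sY_eq` for `w = Ci (v/2)/32` (`‖v/2‖² = ‖v‖²/4`).  `κS₂_rc`: the same for `-conj v`, and `Inv (Rc l w) = Rc l (w/‖w‖²)` (`Rc_s`: `-conj (Cy w) = Cy (w/‖w‖²)`), with `w = Ci (-conj v/2)/32`, `w/‖w‖² = 32 Ci (v/2)` since `‖Ci u‖² = (1 + re u)/(1 - re u)`.
* `thick`: `κS₁ = prd κ` up to the values for `‖v‖ ≥ 1`: `RSG.Thick` for `(l, v) ↦ Rc l (Ci (v/2)/32)` from `Rc_loc`, `Ci_loc`, `Rc_inj`, then `KNH.prd_thick` (see `LKT.κa_thick`; `LKT.thick_congr`).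
* `disj`: `Ci (v/2)/32 = 32 Ci (v'/2)`: the norms are `≤ √3/32` and `≥ 32/√3`.
* `on`: `OnT κS₁ (Rc θ w, circ t) ↔ w = 1/32`: `Ci 0 = 1`, `Rc_inj`; `⇐`: take `l = θ`.
-/

open scoped ContDiff Manifold Topology unitInterval
open Set Filter
open Pool.Agent.CSG (stp)
open Pool.Agent.RSG (E3 E4 S2 S3 S4 ex cj c1 c2 ht fh pS3 pS4)
open Pool.Agent.RBM (ThickT OnT Box)
open Pool.Agent.LKF (OnF)
open Pool.Agent.PTH (SP ISP)
open Pool.Agent.KNH (circ)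
open Pool.Agent.LKT (s1 s2)

namespace Pool.Agent.MMV

/-! ## tools -/

theorem srt_sq (w : ℂ) : ‖w‖ ^ 2 = w.re ^ 2 + w.im ^ 2 := by
  rw [Complex.sq_norm, Complex.normSq_apply]; ring

theorem srt_abs_re {v : ℂ} (h : ‖v‖ < 1) : -1 < v.re ∧ v.re < 1 :=
  abs_lt.1 (lt_of_le_of_lt (Complex.abs_re_le_norm v) h)

theorem srt_toSph_smul {E : Type*} [NormedAddCommGroup E] [InnerProductSpace ℝ E]
    (e : Metric.sphere (0 : E) 1) (v : E) {c : ℝ} (hc : 0 < c) : RSG.toSph e (c • v) = RSG.toSph e v := by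
  by_cases hv : v = 0
  · rw [hv, smul_zero]
  · have hcv : c • v ≠ 0 := smul_ne_zero hc.ne' hv
    apply Subtype.ext
    rw [RSG.toSph_coe e hv, RSG.toSph_coe e hcv, norm_smul, Real.norm_of_nonneg hc.le, smul_smul]
    congr 1
    have := norm_ne_zero_iff.2 hv
    field_simp

theorem srt_pS3_smul (a b : ℂ) {c : ℝ} (hc : 0 < c) : pS3 (c * a) (c * b) = pS3 a b := by
  have e : (WithLp.toLp 2 ![((c : ℂ) * a).re, ((c : ℂ) * a).im, ((c : ℂ) * b).re, ((c : ℂ) * b).im] : E4) =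
      c • (WithLp.toLp 2 ![a.re, a.im, b.re, b.im] : E4) := by
    ext i
    fin_cases i <;> simp
  unfold RSG.pS3
  rw [e]
  exact srt_toSph_smul _ _ hc

theorem Ci_re {v : ℂ} (h : ‖v‖ < 1) : 0 < (Ci v).re := by
  have h1 := srt_abs_re h
  have h2 : 0 < 1 - ‖v‖ ^ 2 := by nlinarith [norm_nonneg v]
  exact div_pos (Real.sqrt_pos.2 h2) (by linarith [h1.2])

theorem srt_Cy_sq (w : ℂ) : 1 - ‖Cy w‖ ^ 2 = (2 * w.re / (1 + ‖w‖ ^ 2)) ^ 2 := by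
  have h1 : 0 < 1 + ‖w‖ ^ 2 := by positivity
  rw [srt_sq (Cy w)]
  unfold Cy
  simp only
  have h2 := srt_sq w
  field_simp
  nlinarith [h2]

theorem Cy_norm {w : ℂ} (h : 0 < w.re) : ‖Cy w‖ < 1 := by
  have h1 := srt_Cy_sq w
  have h2 : 0 < 2 * w.re / (1 + ‖w‖ ^ 2) := by positivity
  have h3 : 0 < (2 * w.re / (1 + ‖w‖ ^ 2)) ^ 2 := by positivity
  nlinarith [norm_nonneg (Cy w)]

theorem srt_Ci_nsq {v : ℂ} (h : ‖v‖ < 1) : ‖Ci v‖ ^ 2 = (1 + v.re) / (1 - v.re) := by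
  have h1 := srt_abs_re h
  have h2 : 0 < 1 - ‖v‖ ^ 2 := by nlinarith [norm_nonneg v]
  have h3 : 0 < 1 - v.re := by linarith [h1.2]
  rw [srt_sq]
  unfold Ci
  simp only
  rw [div_pow, div_pow, Real.sq_sqrt h2.le, srt_sq]
  field_simp
  ring

theorem Cy_Ci {v : ℂ} (h : ‖v‖ < 1) : Cy (Ci v) = v := by
  have h1 := srt_abs_re h
  have h3 : 0 < 1 - v.re := by linarith [h1.2]
  have h4 := srt_Ci_nsq h
  have h5 : 0 < 1 + (1 + v.re) / (1 - v.re) := by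
    have : 0 < (1 + v.re) / (1 - v.re) := div_pos (by linarith [h1.1]) h3
    linarith
  have e5 : 1 + (1 + v.re) / (1 - v.re) = 2 / (1 - v.re) := by field_simp; ring
  have e6 : (1 + v.re) / (1 - v.re) - 1 = 2 * v.re / (1 - v.re) := by field_simp; ring
  apply Complex.ext
  · change (‖Ci v‖ ^ 2 - 1) / (1 + ‖Ci v‖ ^ 2) = v.re
    rw [h4, e5, e6]
    field_simp
  · change 2 * (v.im / (1 - v.re)) / (1 + ‖Ci v‖ ^ 2) = v.im
    rw [h4, e5]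
    field_simp

theorem Ci_Cy {w : ℂ} (h : 0 < w.re) : Ci (Cy w) = w := by
  have h1 : 0 < 1 + ‖w‖ ^ 2 := by positivity
  have h2 : 0 < 2 * w.re / (1 + ‖w‖ ^ 2) := by positivity
  have e1 : 1 - (Cy w).re = 2 / (1 + ‖w‖ ^ 2) := by
    change 1 - (‖w‖ ^ 2 - 1) / (1 + ‖w‖ ^ 2) = _
    field_simp; ring
  have e2 : Real.sqrt (1 - ‖Cy w‖ ^ 2) = 2 * w.re / (1 + ‖w‖ ^ 2) := by
    rw [srt_Cy_sq, Real.sqrt_sq h2.le]
  apply Complex.ext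
  · change Real.sqrt (1 - ‖Cy w‖ ^ 2) / (1 - (Cy w).re) = w.re
    rw [e1, e2]
    field_simp
  · change (2 * w.im / (1 + ‖w‖ ^ 2)) / (1 - (Cy w).re) = w.im
    rw [e1]
    field_simp

theorem srt_mk (w : ℂ) (θ : ℝ) : ‖((2 * w.re / (1 + ‖w‖ ^ 2) : ℝ) : ℂ) * ex θ‖ ^ 2 + ‖Cy w‖ ^ 2 = 1 := by
  have h1 := srt_Cy_sq w
  rw [norm_mul, RSG.ex_norm, mul_one, Complex.norm_real, Real.norm_eq_abs, sq_abs]
  linarith

theorem srt_Rc (w : ℂ) (θ : ℝ) :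
    Rc θ w = pS3 (((2 * w.re / (1 + ‖w‖ ^ 2) : ℝ) : ℂ) * ex θ) (Cy w) := by
  have h1 : 0 < 1 + ‖w‖ ^ 2 := by positivity
  rw [← srt_pS3_smul _ _ h1]
  unfold Rc
  congr 1
  · rw [← mul_assoc, ← Complex.ofReal_mul]
    congr 2
    field_simp
  · apply Complex.ext
    · rw [Complex.re_ofReal_mul]
      change _ = (1 + ‖w‖ ^ 2) * ((‖w‖ ^ 2 - 1) / (1 + ‖w‖ ^ 2))
      field_simp
    · rw [Complex.im_ofReal_mul]
      change _ = (1 + ‖w‖ ^ 2) * (2 * w.im / (1 + ‖w‖ ^ 2))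
      field_simp

theorem srt_s (w : ℂ) (θ : ℝ) :
    s1 (Rc θ w) = (2 * w.re / (1 + ‖w‖ ^ 2) : ℝ) * ex θ ∧ s2 (Rc θ w) = Cy w := by
  rw [srt_Rc]
  exact LKT.s_mk (srt_mk w θ)

theorem Rc_s {w : ℂ} (h : 0 < w.re) (θ : ℝ) :
    s1 (Rc θ w) = (2 * w.re / (1 + ‖w‖ ^ 2) : ℝ) * ex θ ∧ s2 (Rc θ w) = Cy w := srt_s w θ

theorem Rc_per (θ : ℝ) (w : ℂ) (m : ℤ) : Rc (θ + m) w = Rc θ w := by
  unfold Rc
  rw [RSG.ex_add_int]

/-! ## smoothness -/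

theorem srt_cmk {E : Type*} [NormedAddCommGroup E] [NormedSpace ℝ E] {f g : E → ℝ} {x : E}
    (hf : ContDiffAt ℝ ∞ f x) (hg : ContDiffAt ℝ ∞ g x) :
    ContDiffAt ℝ ∞ (fun z => (⟨f z, g z⟩ : ℂ)) x := by
  have h1 : (fun z => (⟨f z, g z⟩ : ℂ)) = fun z => ((f z : ℝ) : ℂ) + ((g z : ℝ) : ℂ) * Complex.I := by
    funext z
    exact Complex.mk_eq_add_mul_I _ _
  rw [h1]
  have h2 : ContDiff ℝ ∞ (fun t : ℝ => (t : ℂ)) := Complex.ofRealCLM.contDiff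
  exact (h2.contDiffAt.comp x hf).add ((h2.contDiffAt.comp x hg).mul contDiffAt_const)

theorem srt_Cy_smooth (w : ℂ) : ContDiffAt ℝ ∞ Cy w := by
  have hn : ContDiffAt ℝ ∞ (fun z : ℂ => ‖z‖ ^ 2) w := (contDiff_norm_sq ℝ).contDiffAt
  have him : ContDiffAt ℝ ∞ (fun z : ℂ => z.im) w := Complex.imCLM.contDiff.contDiffAt
  have h0 : 1 + ‖w‖ ^ 2 ≠ 0 := by positivity
  have h := srt_cmk (((hn.sub contDiffAt_const).div (contDiffAt_const.add hn) h0 :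
    ContDiffAt ℝ ∞ (fun z : ℂ => (‖z‖ ^ 2 - 1) / (1 + ‖z‖ ^ 2)) w))
    (((contDiffAt_const.mul him).div (contDiffAt_const.add hn) h0 :
    ContDiffAt ℝ ∞ (fun z : ℂ => 2 * z.im / (1 + ‖z‖ ^ 2)) w))
  exact h

theorem srt_Ci_smooth {v : ℂ} (h : ‖v‖ < 1) : ContDiffAt ℝ ∞ Ci v := by
  have hn : ContDiffAt ℝ ∞ (fun z : ℂ => ‖z‖ ^ 2) v := (contDiff_norm_sq ℝ).contDiffAt
  have hre : ContDiffAt ℝ ∞ (fun z : ℂ => z.re) v := Complex.reCLM.contDiff.contDiffAt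
  have him : ContDiffAt ℝ ∞ (fun z : ℂ => z.im) v := Complex.imCLM.contDiff.contDiffAt
  have h1 := srt_abs_re h
  have h0 : 1 - v.re ≠ 0 := by linarith [h1.2]
  have h2 : 1 - ‖v‖ ^ 2 ≠ 0 := by
    have : 0 < 1 - ‖v‖ ^ 2 := by nlinarith [norm_nonneg v]
    exact this.ne'
  have hs : ContDiffAt ℝ ∞ (fun z : ℂ => Real.sqrt (1 - ‖z‖ ^ 2)) v :=
    (contDiffAt_const.sub hn).sqrt h2
  have h := srt_cmk ((hs.div (contDiffAt_const.sub hre) h0 :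
    ContDiffAt ℝ ∞ (fun z : ℂ => Real.sqrt (1 - ‖z‖ ^ 2) / (1 - z.re)) v))
    ((him.div (contDiffAt_const.sub hre) h0 :
    ContDiffAt ℝ ∞ (fun z : ℂ => z.im / (1 - z.re)) v))
  exact h

theorem srt_disc {v : ℂ} (h : ‖v‖ < 1) : ∀ᶠ y : ℂ in 𝓝 v, ‖y‖ < 1 :=
  (continuous_norm.continuousAt (x := v)).eventually (gt_mem_nhds h)

theorem srt_half {w : ℂ} (h : 0 < w.re) : ∀ᶠ y : ℂ in 𝓝 w, 0 < y.re :=
  (Complex.continuous_re.continuousAt (x := w)).eventually (lt_mem_nhds h)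

theorem srt_Ci_loc {v : ℂ} (h : ‖v‖ < 1) : IsLocalDiffeomorphAt 𝓘(ℝ, ℂ) 𝓘(ℝ, ℂ) ∞ Ci v := by
  refine RSG.ld_two (g := Cy) ?_ ?_ ?_ ?_
  · filter_upwards [srt_disc h] with y hy
    exact (srt_Ci_smooth hy).contMDiffAt
  · exact Eventually.of_forall fun y => (srt_Cy_smooth y).contMDiffAt
  · filter_upwards [srt_disc h] with y hy
    exact Cy_Ci hy
  · filter_upwards [srt_half (Ci_re h)] with y hy
    exact Ci_Cy hy

theorem srt_fst {v : ℂ} (l : ℝ) {P : ℂ → Prop} (h : ∀ᶠ y : ℂ in 𝓝 v, P y) :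
    ∀ᶠ q : ℝ × ℂ in 𝓝 (l, v), P q.2 :=
  (continuous_snd.continuousAt (x := (l, v))).eventually h

theorem srt_ldCi {v : ℂ} (h : ‖v‖ < 1) (l : ℝ) :
    IsLocalDiffeomorphAt 𝓘(ℝ, ℝ × ℂ) 𝓘(ℝ, ℝ × ℂ) ∞ (fun q : ℝ × ℂ => (q.1, Ci q.2)) (l, v) := by
  refine RSG.ld_two (g := fun q : ℝ × ℂ => (q.1, Cy q.2)) ?_ ?_ ?_ ?_
  · filter_upwards [srt_fst l (srt_disc h)] with y hy
    exact (contDiffAt_fst.prodMk ((srt_Ci_smooth hy).comp y contDiffAt_snd)).contMDiffAt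
  · exact Eventually.of_forall fun y =>
      (contDiffAt_fst.prodMk ((srt_Cy_smooth y.2).comp y contDiffAt_snd)).contMDiffAt
  · filter_upwards [srt_fst l (srt_disc h)] with y hy
    exact Prod.ext rfl (Cy_Ci hy)
  · filter_upwards [srt_fst l (srt_half (Ci_re h))] with y hy
    exact Prod.ext rfl (Ci_Cy hy)

theorem srt_ldCy {w : ℂ} (h : 0 < w.re) (l : ℝ) :
    IsLocalDiffeomorphAt 𝓘(ℝ, ℝ × ℂ) 𝓘(ℝ, ℝ × ℂ) ∞ (fun q : ℝ × ℂ => (q.1, Cy q.2)) (l, w) := by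
  refine RSG.ld_two (g := fun q : ℝ × ℂ => (q.1, Ci q.2)) ?_ ?_ ?_ ?_
  · exact Eventually.of_forall fun y =>
      (contDiffAt_fst.prodMk ((srt_Cy_smooth y.2).comp y contDiffAt_snd)).contMDiffAt
  · filter_upwards [srt_fst l (srt_disc (Cy_norm h))] with y hy
    exact (contDiffAt_fst.prodMk ((srt_Ci_smooth hy).comp y contDiffAt_snd)).contMDiffAt
  · filter_upwards [srt_fst l (srt_half h)] with y hy
    exact Prod.ext rfl (Ci_Cy hy)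
  · filter_upwards [srt_fst l (srt_disc (Cy_norm h))] with y hy
    exact Prod.ext rfl (Cy_Ci hy)

theorem srt_Rc_std {w : ℂ} (h : 0 < w.re) (θ : ℝ) : Rc θ w = LKT.sw (RSG.std 0 (θ, Cy w)) := by
  have h2 : 0 < 2 * w.re / (1 + ‖w‖ ^ 2) := by positivity
  have e2 : Real.sqrt (1 - ‖Cy w‖ ^ 2) = 2 * w.re / (1 + ‖w‖ ^ 2) := by
    rw [srt_Cy_sq, Real.sqrt_sq h2.le]
  have e3 : RSG.std 0 (θ, Cy w) = pS3 (Cy w) (((2 * w.re / (1 + ‖w‖ ^ 2) : ℝ) : ℂ) * ex θ) := by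
    unfold RSG.std
    simp only [Int.cast_zero, zero_mul, RSG.ex_zero, mul_one]
    rw [e2]
  have e4 := LKT.s_mk (a := Cy w) (b := ((2 * w.re / (1 + ‖w‖ ^ 2) : ℝ) : ℂ) * ex θ)
    (by rw [add_comm]; exact srt_mk w θ)
  obtain ⟨k1, k2⟩ := LKT.sw_s (RSG.std 0 (θ, Cy w))
  obtain ⟨k3, k4⟩ := srt_s w θ
  exact LKT.s_ext (by rw [k1, k3, e3, e4.2]) (by rw [k2, k4, e3, e4.1])

theorem Rc_loc {w : ℂ} (h : 0 < w.re) (θ : ℝ) :
    IsLocalDiffeomorphAt 𝓘(ℝ, ℝ × ℂ) (𝓡 3) ∞ (fun q : ℝ × ℂ => Rc q.1 q.2) (θ, w) := by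
  have h1 : IsLocalDiffeomorphAt 𝓘(ℝ, ℝ × ℂ) (𝓡 3) ∞
      (fun q : ℝ × ℂ => RSG.std 0 (q.1, Cy q.2)) (θ, w) :=
    IsLocalDiffeomorphAt.comp (hf := srt_ldCy h θ) (hg := (RSG.std_thick 0).loc θ (Cy w) (Cy_norm h)) ..
  have h2 : IsLocalDiffeomorphAt 𝓘(ℝ, ℝ × ℂ) (𝓡 3) ∞
      (fun q : ℝ × ℂ => LKT.sw (RSG.std 0 (q.1, Cy q.2))) (θ, w) :=
    IsLocalDiffeomorphAt.comp (hf := h1) (hg := LKT.sw_ld _) ..
  refine CSG.ld_congr h2 ?_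
  filter_upwards [srt_fst θ (srt_half h)] with y hy
  exact srt_Rc_std hy y.1

theorem Rc_inj {w w' : ℂ} (h : 0 < w.re) (h' : 0 < w'.re) {θ θ' : ℝ} (he : Rc θ w = Rc θ' w') :
    w = w' ∧ ∃ m : ℤ, θ' = θ + m := by
  obtain ⟨a1, a2⟩ := srt_s w θ
  obtain ⟨b1, b2⟩ := srt_s w' θ'
  have h1 : w = w' := by
    rw [← Ci_Cy h, ← Ci_Cy h', ← a2, ← b2, he]
  refine ⟨h1, ?_⟩
  subst h1
  have h2 : ((2 * w.re / (1 + ‖w‖ ^ 2) : ℝ) : ℂ) ≠ 0 := by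
    have : 0 < 2 * w.re / (1 + ‖w‖ ^ 2) := by positivity
    exact Complex.ofReal_ne_zero.2 this.ne'
  have h3 : ((2 * w.re / (1 + ‖w‖ ^ 2) : ℝ) : ℂ) * ex θ = ((2 * w.re / (1 + ‖w‖ ^ 2) : ℝ) : ℂ) * ex θ' := by
    rw [← a1, ← b1, he]
  exact RSG.ex_eq_iff.1 (mul_left_cancel₀ h2 h3)

theorem sY_eq (θ : ℝ) (w : ℂ) :
    sY (!₂[w.re * Real.cos (2 * Real.pi * θ), w.re * Real.sin (2 * Real.pi * θ), w.im] : E3) = Rc θ w := by
  have hn : ‖(!₂[w.re * Real.cos (2 * Real.pi * θ), w.re * Real.sin (2 * Real.pi * θ), w.im] : E3)‖ ^ 2 =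
      ‖w‖ ^ 2 := by
    rw [EuclideanSpace.norm_sq_eq, Fin.sum_univ_three, srt_sq]
    simp only [Real.norm_eq_abs, sq_abs]
    have := Real.sin_sq_add_cos_sq (2 * Real.pi * θ)
    simp
    nlinarith [this]
  unfold sY Rc
  rw [hn]
  congr 1
  apply Complex.ext
  · simp [RSG.ex_re]
    ring
  · simp [RSG.ex_im]
    ring

theorem hp_eq (w : ℂ) : hp w = (Rc 0 w, circ (1 / 2)) := by
  have h := sY_eq 0 w
  simp only [mul_zero, Real.cos_zero, Real.sin_zero, mul_one] at h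
  unfold hp
  rw [h]

theorem srt_YK {v : ℂ} (l : ℝ) : sY (YK l v) = Rc l (Ci (v / 2) / 32) := by
  rw [← sY_eq]
  have e1 : (Ci (v / 2) / 32).re = (1 / 32) * (Real.sqrt (1 - ‖v‖ ^ 2 / 4) / (1 - v.re / 2)) := by
    have h1 : (Ci (v / 2) / 32).re = (Ci (v / 2)).re / 32 := by
      simp
    have h2 : (v / 2).re = v.re / 2 := by
      simp
    rw [h1]
    unfold Ci
    simp only
    rw [h2, norm_div, Complex.norm_ofNat, div_pow]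
    norm_num
    ring
  have e2 : (Ci (v / 2) / 32).im = (1 / 32) * ((v.im / 2) / (1 - v.re / 2)) := by
    have h1 : (Ci (v / 2) / 32).im = (Ci (v / 2)).im / 32 := by
      simp
    have h2 : (v / 2).re = v.re / 2 := by
      simp
    have h3 : (v / 2).im = v.im / 2 := by
      simp
    rw [h1]
    unfold Ci
    simp only
    rw [h2, h3]
    ring
  rw [e1, e2]
  rfl

theorem κS₁_eq {v : ℂ} (hv : ‖v‖ < 2) (l t : ℝ) : κS₁ (l, v, t) = (Rc l (Ci (v / 2) / 32), circ t) := by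
  unfold κS₁
  simp only
  rw [srt_YK]

theorem srt_Inv_s (x : S3) : s1 (Inv x) = s1 x ∧ s2 (Inv x) = -(starRingEnd ℂ) (s2 x) := by
  unfold Inv
  refine LKT.s_mk ?_
  rw [norm_neg, Complex.norm_conj]
  exact LKT.s_sq x

theorem srt_Inv {w : ℂ} (h : 0 < w.re) (l : ℝ) : Inv (Rc l w) = Rc l (w / ((‖w‖ ^ 2 : ℝ) : ℂ)) := by
  have hN : 0 < ‖w‖ ^ 2 := by
    have := srt_sq w
    nlinarith [sq_nonneg w.im, mul_pos h h]
  obtain ⟨N, hNd⟩ : ∃ N, N = ‖w‖ ^ 2 := ⟨_, rfl⟩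
  obtain ⟨w', hw'⟩ : ∃ w', w' = w / ((‖w‖ ^ 2 : ℝ) : ℂ) := ⟨_, rfl⟩
  rw [← hw']
  have e1 : w'.re = w.re / N := by rw [hw', ← hNd, Complex.div_ofReal_re]
  have e2 : w'.im = w.im / N := by rw [hw', ← hNd, Complex.div_ofReal_im]
  have hN' : 0 < N := by rw [hNd]; exact hN
  have e0 : w.re ^ 2 + w.im ^ 2 = N := by rw [hNd, srt_sq]
  have e3 : ‖w'‖ ^ 2 = 1 / N := by
    rw [srt_sq, e1, e2, div_pow, div_pow, ← add_div, e0]
    field_simp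
  obtain ⟨a1, a2⟩ := srt_s w l
  obtain ⟨b1, b2⟩ := srt_s w' l
  obtain ⟨c1, c2⟩ := srt_Inv_s (Rc l w)
  refine LKT.s_ext ?_ ?_
  · rw [c1, a1, b1, e1, e3, ← hNd]
    congr 2
    field_simp
    ring
  · rw [c2, a2, b2]
    apply Complex.ext
    · rw [Complex.neg_re, Complex.conj_re]
      change -((‖w‖ ^ 2 - 1) / (1 + ‖w‖ ^ 2)) = (‖w'‖ ^ 2 - 1) / (1 + ‖w'‖ ^ 2)
      rw [e3, ← hNd]
      field_simp
      ring
    · rw [Complex.neg_im, Complex.conj_im, neg_neg]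
      change 2 * w.im / (1 + ‖w‖ ^ 2) = 2 * w'.im / (1 + ‖w'‖ ^ 2)
      rw [e3, e2, ← hNd]
      field_simp
      ring

theorem srt_half_norm {v : ℂ} (hv : ‖v‖ < 2) : ‖v / 2‖ < 1 := by
  rw [norm_div, Complex.norm_ofNat]; linarith

theorem κS₂_rc {v : ℂ} (hv : ‖v‖ < 2) (l t : ℝ) : κS₂ (l, v, t) = (Rc l (32 * Ci (v / 2)), circ t) := by
  have hu := srt_half_norm hv
  have hv' : ‖-(starRingEnd ℂ) v‖ < 2 := by rw [norm_neg, Complex.norm_conj]; exact hv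
  have hu' := srt_half_norm hv'
  obtain ⟨x, hx⟩ : ∃ x, x = (v / 2).re := ⟨_, rfl⟩
  obtain ⟨y, hy⟩ : ∃ y, y = (v / 2).im := ⟨_, rfl⟩
  obtain ⟨u', hu'd⟩ : ∃ u', u' = -(starRingEnd ℂ) v / 2 := ⟨_, rfl⟩
  rw [← hu'd] at hu'
  have e1 : u'.re = -x := by rw [hu'd, hx]; simp; ring
  have e2 : u'.im = y := by rw [hu'd, hy]; simp
  have e3 : ‖u'‖ = ‖v / 2‖ := by rw [hu'd, norm_div, norm_neg, Complex.norm_conj, norm_div]
  have hx1 := srt_abs_re hu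
  rw [← hx] at hx1
  have h1 : 0 < 1 - x := by linarith [hx1.2]
  have h2 : 0 < 1 + x := by linarith [hx1.1]
  have hre := Ci_re hu'
  have hw : 0 < (Ci u' / 32).re := by
    have : (Ci u' / 32).re = (Ci u').re / 32 := by simp
    rw [this]; positivity
  have hN : ‖Ci u' / 32‖ ^ 2 = (1 - x) / (1 + x) / 1024 := by
    rw [norm_div, div_pow, srt_Ci_nsq hu', e1, Complex.norm_ofNat]
    norm_num
    rw [← sub_eq_add_neg]
  unfold κS₂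
  simp only
  rw [srt_YK, ← hu'd, srt_Inv hw, hN]
  congr 2
  apply Complex.ext
  · rw [Complex.div_ofReal_re]
    have k1 : (Ci u' / 32).re = (Ci u').re / 32 := by simp
    have k2 : (32 * Ci (v / 2)).re = 32 * (Ci (v / 2)).re := by simp
    rw [k1, k2]
    unfold Ci
    simp only
    rw [e1, e3, ← hx, sub_neg_eq_add]
    field_simp
    norm_num
  · rw [Complex.div_ofReal_im]
    have k1 : (Ci u' / 32).im = (Ci u').im / 32 := by simp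
    have k2 : (32 * Ci (v / 2)).im = 32 * (Ci (v / 2)).im := by simp
    rw [k1, k2]
    unfold Ci
    simp only
    rw [e1, e2, ← hx, ← hy, sub_neg_eq_add]
    field_simp
    norm_num

theorem srt_thick {c : ℝ} (hc : 0 < c) : RSG.Thick (fun q : ℝ × ℂ => Rc q.1 ((c : ℂ) * Ci q.2)) := by
  have hpos : ∀ {v : ℂ}, ‖v‖ < 1 → 0 < ((c : ℂ) * Ci v).re := by
    intro v hv
    rw [Complex.re_ofReal_mul]
    exact mul_pos hc (Ci_re hv)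
  have hc0 : (c : ℂ) ≠ 0 := Complex.ofReal_ne_zero.2 hc.ne'
  refine ⟨?_, ?_, ?_⟩
  · intro l v
    have := Rc_per l ((c : ℂ) * Ci v) 1
    simpa using this
  · intro l v hv
    have h2 : IsLocalDiffeomorphAt 𝓘(ℝ, ℝ × ℂ) 𝓘(ℝ, ℝ × ℂ) ∞ (fun q : ℝ × ℂ => (q.1, (c : ℂ) * q.2))
        (l, Ci v) := by
      refine CSG.ld_of_perm (f := (⟨fun q => (q.1, (c : ℂ) * q.2), fun q => (q.1, (c : ℂ)⁻¹ * q.2),
        fun q => by simp [hc0], fun q => by simp [hc0]⟩ : (ℝ × ℂ) ≃ (ℝ × ℂ))) ?_ ?_ (l, Ci v)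
      · exact contDiff_fst.prodMk (contDiff_const.mul contDiff_snd)
      · exact contDiff_fst.prodMk (contDiff_const.mul contDiff_snd)
    have h3 : IsLocalDiffeomorphAt 𝓘(ℝ, ℝ × ℂ) 𝓘(ℝ, ℝ × ℂ) ∞ (fun q : ℝ × ℂ => (q.1, (c : ℂ) * Ci q.2))
        (l, v) := IsLocalDiffeomorphAt.comp (hf := srt_ldCi hv l) (hg := h2) ..
    exact IsLocalDiffeomorphAt.comp (hf := h3) (hg := Rc_loc (hpos hv) l) ..
  · intro l v l' v' hv hv' he
    obtain ⟨h1, h2⟩ := Rc_inj (hpos hv) (hpos hv') he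
    refine ⟨?_, h2⟩
    have h3 := mul_left_cancel₀ hc0 h1
    rw [← Cy_Ci hv, ← Cy_Ci hv', h3]

theorem srt_YK_per (l : ℝ) (v : ℂ) : YK (l + 1) v = YK l v := by
  unfold YK
  have e : 2 * Real.pi * (l + 1) = 2 * Real.pi * l + 2 * Real.pi := by ring
  rw [e, Real.cos_add_two_pi, Real.sin_add_two_pi]

theorem κS₁_thick : ThickT ISP κS₁ := by
  have h1 : κS₁ = KNH.prd fun q => sY (YK q.1 q.2) := rfl
  rw [h1]
  refine KNH.prd_thick (LKT.thick_congr (LKT.thick_half (srt_thick (c := 1 / 32) (by norm_num))) ?_ ?_)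
  · intro l v
    simp only
    rw [srt_YK_per]
  · intro l v hv
    simp only
    rw [srt_YK]
    congr 1
    push_cast
    ring

theorem κS₂_thick : ThickT ISP κS₂ := by
  have h1 : κS₂ = KNH.prd fun q => Inv (sY (YK q.1 (-(starRingEnd ℂ) q.2))) := rfl
  rw [h1]
  refine KNH.prd_thick (LKT.thick_congr (LKT.thick_half (srt_thick (c := 32) (by norm_num))) ?_ ?_)
  · intro l v
    simp only
    rw [srt_YK_per]
  · intro l v hv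
    have h2 := congrArg Prod.fst (κS₂_rc (v := v) (by linarith) l 0)
    change Inv (sY (YK l (-(starRingEnd ℂ) v))) = Rc l (32 * Ci (v / 2)) at h2
    simp only
    rw [h2]
    norm_num

theorem κS_disj (l : ℝ) (v : ℂ) (t l' : ℝ) (v' : ℂ) (t' : ℝ) (hv : ‖v‖ < 1) (hv' : ‖v'‖ < 1) :
    κS₁ (l, v, t) ≠ κS₂ (l', v', t') := by
  intro he
  have hu : ‖v / 2‖ < 1 := srt_half_norm (by linarith)
  have hu' : ‖v' / 2‖ < 1 := srt_half_norm (by linarith)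
  rw [κS₁_eq (by linarith), κS₂_rc (by linarith)] at he
  have h1 : 0 < (Ci (v / 2) / 32).re := by
    have : (Ci (v / 2) / 32).re = (Ci (v / 2)).re / 32 := by simp
    have h := Ci_re hu
    rw [this]; positivity
  have h2 : 0 < (32 * Ci (v' / 2)).re := by
    have : (32 * Ci (v' / 2)).re = 32 * (Ci (v' / 2)).re := by simp
    have h := Ci_re hu'
    rw [this]; positivity
  have h3 := (Rc_inj h1 h2 (congrArg Prod.fst he)).1
  have h4 : ‖Ci (v / 2) / 32‖ ^ 2 = ‖32 * Ci (v' / 2)‖ ^ 2 := by rw [h3]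
  rw [norm_div, norm_mul, div_pow, mul_pow, srt_Ci_nsq hu, srt_Ci_nsq hu', Complex.norm_ofNat] at h4
  have hx : |(v / 2).re| < 1 / 2 := by
    refine lt_of_le_of_lt (Complex.abs_re_le_norm _) ?_
    rw [norm_div, Complex.norm_ofNat]; linarith
  have hx' : |(v' / 2).re| < 1 / 2 := by
    refine lt_of_le_of_lt (Complex.abs_re_le_norm _) ?_
    rw [norm_div, Complex.norm_ofNat]; linarith
  have k1 := abs_lt.1 hx
  have k2 := abs_lt.1 hx'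
  have m1 : (1 + (v / 2).re) / (1 - (v / 2).re) < 3 := by
    rw [div_lt_iff₀ (by linarith [k1.2])]; linarith [k1.2]
  have m2 : 1 / 3 < (1 + (v' / 2).re) / (1 - (v' / 2).re) := by
    rw [lt_div_iff₀ (by linarith [k2.2])]; linarith [k2.1]
  obtain ⟨A, hA⟩ : ∃ A, A = (1 + (v / 2).re) / (1 - (v / 2).re) := ⟨_, rfl⟩
  obtain ⟨B, hB⟩ : ∃ B, B = (1 + (v' / 2).re) / (1 - (v' / 2).re) := ⟨_, rfl⟩
  rw [← hA] at m1 h4
  rw [← hB] at m2 h4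
  norm_num at h4
  linarith

theorem srt_Ci0 : Ci 0 = 1 := by
  apply Complex.ext
  · change Real.sqrt (1 - ‖(0 : ℂ)‖ ^ 2) / (1 - (0 : ℂ).re) = (1 : ℂ).re
    simp
  · change (0 : ℂ).im / (1 - (0 : ℂ).re) = (1 : ℂ).im
    simp

theorem onS {w : ℂ} (h : 0 < w.re) (θ t : ℝ) : OnF ![κS₁, κS₂] (Rc θ w, circ t) ↔ w = 1 / 32 ∨ w = 32 := by
  have e1 : ∀ l t : ℝ, κS₁ (l, 0, t) = (Rc l (1 / 32), circ t) := by
    intro l t
    rw [κS₁_eq (by simp), zero_div, srt_Ci0]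
  have e2 : ∀ l t : ℝ, κS₂ (l, 0, t) = (Rc l 32, circ t) := by
    intro l t
    rw [κS₂_rc (by simp), zero_div, srt_Ci0, mul_one]
  constructor
  · rintro ⟨i, l, t', hi⟩
    fin_cases i
    · left
      change (Rc θ w, circ t) = κS₁ (l, 0, t') at hi
      rw [e1] at hi
      exact (Rc_inj h (by norm_num) (congrArg Prod.fst hi)).1
    · right
      change (Rc θ w, circ t) = κS₂ (l, 0, t') at hi
      rw [e2] at hi
      exact (Rc_inj h (by norm_num) (congrArg Prod.fst hi)).1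
  · rintro (rfl | rfl)
    · exact ⟨0, θ, t, (e1 θ t).symm⟩
    · exact ⟨1, θ, t, (e2 θ t).symm⟩

end Pool.Agent.MMV
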