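import Pool.Agent.MMV.LEE
import Pool.Agent.MMV.LJ0
import Pool.Agent.MMV.SRt

/-!
# MMV/LFT: `S³ × S¹` refilled along the two tori from the data `J`, `ρ`, `Fh` (helper40)

`J : S³ × S¹ - Σ → M - circle ρ` is injective and onto, a local diffeomorphism off the tori; `J ∘ EE = ρ` near `Σ`; the maps `Fh i` are the
tubes of the refilled tori.  For a surgery `S` of `M` along `ρ`: `A = S.A ∘ J` off `Σ`, `A (pol (1, v)) = S.Q (0, v)`, `F i = S.A ∘ Fh i`.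
-/

open scoped ContDiff Manifold Topology unitInterval
open Set Filter
open Pool.Agent.RSG (E3 E4 S2 S3 S4 ex cj c1 c2 ht fh pS2 pS3 pS4)
open Pool.Agent.RBM (ThickT OnT Box)
open Pool.Agent.LKF (OnF)
open Pool.Agent.PTH (SP ISP)
open Pool.Agent.KNH (circ)
open Pool.Agent.LKT (s1 s2 dir)

namespace Pool.Agent.MMV

/-- off the sphere `Σ` -/
def OffS (p : SP) : Prop := ∀ v : S2, p ≠ pol (1, v)

theorem isOpen_offS : IsOpen {p : SP | OffS p} := by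
  have hc : Continuous fun v : S2 => pol (1, v) := by
    rw [continuous_iff_continuousAt]
    intro v
    exact ((pol_ld one_ne_zero v).contMDiffAt.continuousAt).comp (Continuous.prodMk_right (1 : ℂ)).continuousAt
  have : {p : SP | OffS p} = (range fun v : S2 => pol (1, v))ᶜ := by
    ext p
    simp only [OffS, mem_ofPred_eq, mem_compl_iff, mem_range, not_exists]
    exact ⟨fun h v hv => h v hv.symm, fun h v hv => h v hv.symm⟩
  rw [this]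
  exact (isCompact_range hc).isClosed.isOpen_compl

theorem offS_κS₁ (l : ℝ) {v : ℂ} (hv : ‖v‖ < 1) (t : ℝ) : OffS (κS₁ (l, v, t)) := by
  intro u hu
  have := (EE_off (ζ := 0) (by norm_num) u l v t hv).1
  rw [EE_zero] at this
  exact this hu.symm

theorem offS_κS₂ (l : ℝ) {v : ℂ} (hv : ‖v‖ < 1) (t : ℝ) : OffS (κS₂ (l, v, t)) := by
  intro u hu
  have := (EE_off (ζ := 0) (by norm_num) u l v t hv).2
  rw [EE_zero] at this
  exact this hu.symm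

theorem offS_κ (i : Fin 2) (l : ℝ) {v : ℂ} (hv : ‖v‖ < 1) (t : ℝ) : OffS (![κS₁, κS₂] i (l, v, t)) := by
  fin_cases i
  · exact offS_κS₁ l hv t
  · exact offS_κS₂ l hv t

theorem thick_κ (i : Fin 2) : ThickT ISP (![κS₁, κS₂] i) := by
  fin_cases i
  · exact κS₁_thick
  · exact κS₂_thick

theorem EE_notOn {ζ : ℂ} (h : ‖ζ‖ < 1 / 3) (v : S2) : ¬ OnF ![κS₁, κS₂] (EE (ζ, v)) := by
  rintro ⟨i, l, t, e⟩
  have := EE_off h v l 0 t (by simp)
  fin_cases i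
  · exact this.1 e
  · exact this.2 e

theorem pol_notOn (v : S2) : ¬ OnF ![κS₁, κS₂] (pol (1, v)) := by
  have := EE_notOn (ζ := 0) (by norm_num) v
  rwa [EE_zero] at this

/-- the data -/
structure LData {M : Type} [TopologicalSpace M] [ChartedSpace E4 M] (J : SP → M) (ρ : ℝ × E3 → M)
    (Fh : Fin 2 → ℝ × ℝ × ℂ → M) (Mx : Fin 2 → Sl) : Prop where
  J_ld : ∀ p, OffS p → ¬ OnF ![κS₁, κS₂] p → IsLocalDiffeomorphAt ISP (𝓡 4) ∞ J p
  J_inj : ∀ p p', OffS p → OffS p' → J p = J p' → p = p'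
  J_ne : ∀ p, OffS p → ∀ l, J p ≠ ρ (l, 0)
  J_cover : ∀ m, (∃ p, OffS p ∧ m = J p) ∨ ∃ l : ℝ, m = ρ (l, 0)
  J_EE : ∀ (l r : ℝ) (v : S2), 0 < r → r < 1 / 4 → J (EE (r * ex l, v)) = ρ (l, r • v.1)
  F_per1 : ∀ (i : Fin 2) (l s : ℝ) (ξ : ℂ), ‖ξ‖ < 1 → Fh i (l + 1, s, ξ) = Fh i (l, s, ξ)
  F_per2 : ∀ (i : Fin 2) (l s : ℝ) (ξ : ℂ), ‖ξ‖ < 1 → Fh i (l, s + 1, ξ) = Fh i (l, s, ξ)
  F_loc : ∀ (i : Fin 2) (l s : ℝ) (ξ : ℂ), ‖ξ‖ < 1 → IsLocalDiffeomorphAt 𝓘(ℝ, ℝ × ℝ × ℂ) (𝓡 4) ∞ (Fh i) (l, s, ξ)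
  F_inj : ∀ (i : Fin 2) (l s : ℝ) (ξ : ℂ) (i' : Fin 2) (l' s' : ℝ) (ξ' : ℂ), ‖ξ‖ < 1 → ‖ξ'‖ < 1 →
    Fh i (l, s, ξ) = Fh i' (l', s', ξ') → i = i' ∧ ξ = ξ' ∧ (∃ m : ℤ, l' = l + m) ∧ ∃ m : ℤ, s' = s + m
  glueF : ∀ (i : Fin 2) (l s r φ : ℝ), 0 < r → r < 1 → Fh i (l, s, r * ex φ) =
    J (![κS₁, κS₂] i (l, r * ex ((Mx i).a * φ + (Mx i).b * s), (Mx i).c * φ + (Mx i).d * s))
  F_core : ∀ (i : Fin 2) (l s : ℝ), ∃ t : ℝ, Fh i (l, s, 0) = J (![κS₁, κS₂] i (l, 0, t))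
  F_surj : ∀ (i : Fin 2) (l t : ℝ), ∃ s : ℝ, J (![κS₁, κS₂] i (l, 0, t)) = Fh i (l, s, 0)

section
variable {M : Type} [TopologicalSpace M] [ChartedSpace E4 M] {J : SP → M} {ρ : ℝ × E3 → M}
  {Fh : Fin 2 → ℝ × ℝ × ℂ → M} {Mx : Fin 2 → Sl}

theorem lft_polar {ξ : ℂ} (h : ξ ≠ 0) : ∃ r φ : ℝ, 0 < r ∧ r = ‖ξ‖ ∧ ξ = r * ex φ := by
  have hn : ‖ξ‖ ≠ 0 := norm_ne_zero_iff.2 h
  have h1 : ‖ξ / (‖ξ‖ : ℂ)‖ = 1 := by
    rw [norm_div, Complex.norm_real, norm_norm, div_self hn]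
  obtain ⟨φ, hφ⟩ := RSG.ex_surj h1
  refine ⟨‖ξ‖, φ, norm_pos_iff.2 h, rfl, ?_⟩
  have hn' : (‖ξ‖ : ℂ) ≠ 0 := by exact_mod_cast hn
  rw [← hφ, mul_div_cancel₀ _ hn']

theorem LData.F_off (D : LData J ρ Fh Mx) (i : Fin 2) (l s : ℝ) {ξ : ℂ} (hξ : ‖ξ‖ < 1) (l' : ℝ) :
    Fh i (l, s, ξ) ≠ ρ (l', 0) := by
  rcases eq_or_ne ξ 0 with h | h
  · obtain ⟨t, ht⟩ := D.F_core i l s
    rw [h, ht]
    exact D.J_ne _ (offS_κ i l (by simp) t) l'
  · obtain ⟨r, φ, h0, hr, e⟩ := lft_polar h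
    rw [e, D.glueF i l s r φ h0 (hr ▸ hξ)]
    refine D.J_ne _ (offS_κ i l ?_ _) l'
    rw [norm_mul, RSG.ex_norm, Complex.norm_real, mul_one, Real.norm_of_nonneg h0.le, hr]
    exact hξ

variable (J) in
/-- the map `A` -/
noncomputable def lftA {V : Type} [TopologicalSpace V] [ChartedSpace E4 V] {ε₀ : ℝ} (S : ACB.Surg (fun _ : Unit => ρ) ε₀ V)
    (p : SP) : V :=
  open Classical in if h : ∃ v : S2, p = pol (1, v) then S.Q () (0, h.choose) else S.A (J p)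

variable {V : Type} [TopologicalSpace V] [ChartedSpace E4 V]

theorem lftA_off (S : ACB.Surg (fun _ : Unit => ρ) (1 / 4) V) {p : SP} (h : OffS p) : lftA J S p = S.A (J p) := by
  have : ¬ ∃ v : S2, p = pol (1, v) := by
    rintro ⟨v, hv⟩
    exact h v hv
  rw [lftA, dif_neg this]

theorem lftA_pol (S : ACB.Surg (fun _ : Unit => ρ) (1 / 4) V) (v : S2) : lftA J S (pol (1, v)) = S.Q () (0, v) := by
  have h : ∃ v' : S2, pol (1, v) = pol (1, v') := ⟨v, rfl⟩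
  rw [lftA, dif_pos h]
  have := (pol_inj one_ne_zero one_ne_zero h.choose_spec).2
  rw [← this]

theorem LData.A_EE (D : LData J ρ Fh Mx) (S : ACB.Surg (fun _ : Unit => ρ) (1 / 4) V) {ζ : ℂ} (h : ‖ζ‖ < 1 / 4) (v : S2) :
    lftA J S (EE (ζ, v)) = S.Q () (ζ, v) := by
  rcases eq_or_ne ζ 0 with h0 | h0
  · rw [h0, EE_zero, lftA_pol]
  · obtain ⟨r, φ, hr0, hr, e⟩ := lft_polar h0
    rw [lftA_off S (fun u => EE_ne (by linarith) h0 v u), e, D.J_EE φ r v hr0 (hr ▸ h)]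
    exact (S.glue () φ r v hr0 (hr ▸ h)).symm

theorem LData.off (D : LData J ρ Fh Mx) {p : SP} (h : OffS p) : ACB.Off (fun _ : Unit => ρ) (J p) := fun _ l => D.J_ne p h l

/-- the filled manifold -/
theorem ft_of_data (D : LData J ρ Fh Mx) (S : ACB.Surg (fun _ : Unit => ρ) (1 / 4) V) :
    ∃ Φ : FT ISP ![κS₁, κS₂] Mx (![] : Fin 0 → ℝ × ℂ × ℝ → SP) V, ∀ p, OffS p → Φ.A p = S.A (J p) := by
  have hoffS : ∀ p : SP, OffS p ∨ ∃ v, p = pol (1, v) := by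
    intro p
    by_cases h : ∃ v, p = pol (1, v)
    · exact Or.inr h
    · left
      intro v hv
      exact h ⟨v, hv⟩
  have hoF : ∀ (i : Fin 2) (l s : ℝ) (ξ : ℂ), ‖ξ‖ < 1 → ACB.Off (fun _ : Unit => ρ) (Fh i (l, s, ξ)) :=
    fun i l s ξ h _ l' => D.F_off i l s h l'
  refine ⟨{
    A := lftA J S
    F := fun i q => S.A (Fh i q)
    Q := fun i => i.elim0
    A_loc := ?_
    A_inj := ?_
    F_per1 := fun i l s ξ h => by simp only [D.F_per1 i l s ξ h]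
    F_per2 := fun i l s ξ h => by simp only [D.F_per2 i l s ξ h]
    F_loc := ?_
    F_inj := ?_
    glueF := ?_
    Q_loc := fun i => i.elim0
    Q_inj := fun i => i.elim0
    glueQ := fun i => i.elim0
    disjF := ?_
    disjQ := fun i => i.elim0
    disjFQ := fun _ _ _ i => i.elim0
    cover := ?_ }, fun p hp => lftA_off S hp⟩
  · intro p hp _
    rcases hoffS p with h | ⟨v, rfl⟩
    · have h1 := D.J_ld p h hp
      have h2 := S.A_loc (J p) (D.off h)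
      refine CSG.ld_congr (IsLocalDiffeomorphAt.comp (hf := h1) (hg := h2) ..) ?_
      filter_upwards [isOpen_offS.mem_nhds h] with y hy
      exact lftA_off S hy
    · have h1 := EE_ld (ζ := 0) (by norm_num) v
      have h2 : IsLocalDiffeomorphAt (𝓘(ℝ, ℂ).prod (𝓡 2)) (𝓡 4) ∞ (lftA J S ∘ EE) (0, v) := by
        refine CSG.ld_congr (S.Q_loc () 0 v (by norm_num)) ?_
        have : ∀ᶠ q : ℂ × S2 in 𝓝 (0, v), ‖q.1‖ < 1 / 4 :=
          (continuous_fst.norm).continuousAt.eventually_lt continuousAt_const (by norm_num)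
        filter_upwards [this] with q hq
        exact D.A_EE S hq q.2
      rw [← EE_zero v]
      exact CSG.ld_of_comp_left h2 h1
  · intro p p' _ _ _ _ e
    rcases hoffS p with h | ⟨v, rfl⟩ <;> rcases hoffS p' with h' | ⟨v', rfl⟩
    · rw [lftA_off S h, lftA_off S h'] at e
      exact D.J_inj _ _ h h' (S.A_inj _ _ (D.off h) (D.off h') e)
    · rw [lftA_off S h, lftA_pol] at e
      exact absurd e.symm (S.disj () v' (J p) (D.off h))
    · rw [lftA_off S h', lftA_pol] at e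
      exact absurd e (S.disj () v (J p') (D.off h'))
    · rw [lftA_pol, lftA_pol] at e
      rw [(S.Q_inj () () v v' e).2]
  · intro i l s ξ h
    exact IsLocalDiffeomorphAt.comp (hf := D.F_loc i l s ξ h) (hg := S.A_loc _ (hoF i l s ξ h)) ..
  · intro i l s ξ i' l' s' ξ' h h' e
    exact D.F_inj i l s ξ i' l' s' ξ' h h' (S.A_inj _ _ (hoF i l s ξ h) (hoF i' l' s' ξ' h') e)
  · intro i l s r φ h0 h1
    have hn : ‖(r : ℂ) * ex ((Mx i).a * φ + (Mx i).b * s)‖ < 1 := by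
      rw [norm_mul, RSG.ex_norm, Complex.norm_real, mul_one, Real.norm_of_nonneg h0.le]
      exact h1
    rw [lftA_off S (offS_κ i l hn _), D.glueF i l s r φ h0 h1]
  · intro i l s p hp _ e
    obtain ⟨t, ht⟩ := D.F_core i l s
    have ho := offS_κ i l (v := 0) (by simp) t
    rw [ht] at e
    rcases hoffS p with h | ⟨v, rfl⟩
    · rw [lftA_off S h] at e
      have e1 := D.J_inj _ _ ho h (S.A_inj _ _ (D.off ho) (D.off h) e)
      exact hp ⟨i, l, t, e1.symm⟩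
    · rw [lftA_pol] at e
      exact S.disj () v _ (D.off ho) e.symm
  · intro q
    rcases S.cover q with ⟨m, hm, rfl⟩ | ⟨_, v, rfl⟩
    · rcases D.J_cover m with ⟨p, hp, rfl⟩ | ⟨l, rfl⟩
      · by_cases hT : OnF ![κS₁, κS₂] p
        · obtain ⟨i, l, t, rfl⟩ := hT
          obtain ⟨s, hs⟩ := D.F_surj i l t
          exact Or.inr (Or.inl ⟨i, l, s, by rw [hs]⟩)
        · exact Or.inl ⟨p, hT, fun h => h.choose.elim0, (lftA_off S hp).symm⟩
      · exact absurd rfl (hm () l)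
    · exact Or.inl ⟨pol (1, v), pol_notOn v, fun h => h.choose.elim0, (lftA_pol S v).symm⟩

end

end Pool.Agent.MMV
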