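import Pool.Agent.MMV.LSd

/-!
# MMV/LFe
: elementary families   (difficulty 3)

`χ q := 1 - stp (1/16) (1/4) q` (`1` for `q ≤ 1/16`, `0` for `q ≥ 1/4`: `CSG.stp_zero`, `CSG.stp_one`, `CSG.stp_smooth`), `thc = CSG.thc` (`CSG.thc_smooth`, `CSG.thc_add_int`, `CSG.thc_zero`: `thc x = 0` for `|x| ≤ 1/4`).
* upper `k`: `f (q, z, t) = (z + k (χ q thc (t - 1/2) + (1 - χ q) (t - 1/2)), t)`, `g` the same with `-k` (`gf`, `fg`: the second coordinate is unchanged).  `equi`: `t + n - 1/2`, both terms grow by `n`.  `near`: `χ = 1`, `thc = 0`.  `lin`: `χ = 0`.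
* lower `k`: `f (q, z, t) = (z, t + k (χ q thc z + (1 - χ q) z))`.
* product: `f (q, z, t) = F.f (q, F'.f (q, z, t))`, `g (q, z, t) = F'.g (q, F.g (q, z, t))`; `equi`: `F'.equi`, then `F.equi` with the integers `L'.a m + L'.b n`, `L'.c m + L'.d n` (`push_cast`); `near`: clear; `lin`: both are affine.
-/

open scoped ContDiff Manifold Topology unitInterval
open Set Filter
open Pool.Agent.CSG (stp)
open Pool.Agent.RSG (E3 E4 S2 S3 S4 ex cj c1 c2 ht fh pS2 pS3 pS4)
open Pool.Agent.RBM (ThickT OnT Box)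
open Pool.Agent.LKF (OnF)
open Pool.Agent.PTH (SP ISP)
open Pool.Agent.KNH (circ)
open Pool.Agent.LKT (s1 s2 dir)

namespace Pool.Agent.MMV

/-- the interpolation between the step function and the identity -/
private noncomputable def lfe_h (q x : ℝ) : ℝ := cu (1 / 16) (1 / 4) q * CSG.thc x + (1 - cu (1 / 16) (1 / 4) q) * x

private theorem lfe_smooth {V : Type*} [NormedAddCommGroup V] [NormedSpace ℝ V] {u v : V → ℝ} (hu : ContDiff ℝ ∞ u)
    (hv : ContDiff ℝ ∞ v) : ContDiff ℝ ∞ (fun p => lfe_h (u p) (v p)) := by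
  have h1 : ContDiff ℝ ∞ (fun p => cu (1 / 16) (1 / 4) (u p)) :=
    contDiff_const.sub ((CSG.stp_smooth _ _).comp hu)
  exact (h1.mul (CSG.thc_smooth.comp hv)).add ((contDiff_const.sub h1).mul hv)

private theorem lfe_add (q x : ℝ) (n : ℤ) : lfe_h q (x + n) = lfe_h q x + n := by
  rw [lfe_h, lfe_h, CSG.thc_add_int]
  ring

private theorem lfe_near {q x : ℝ} (hq : q < 1 / 16) (h : |x| < 1 / 8) : lfe_h q x = 0 := by
  obtain ⟨h1, h2⟩ := abs_lt.1 h
  have h3 : cu (1 / 16) (1 / 4) q = 1 := by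
    rw [cu, CSG.stp_zero (by norm_num) hq.le, sub_zero]
  rw [lfe_h, h3, CSG.thc_zero (by linarith) (by linarith)]
  ring

private theorem lfe_lin {q x : ℝ} (hq : 1 / 4 ≤ q) : lfe_h q x = x := by
  have h3 : cu (1 / 16) (1 / 4) q = 0 := by
    rw [cu, CSG.stp_one (by norm_num) hq, sub_self]
  rw [lfe_h, h3]
  ring

theorem fam_upper (k : ℤ) : Nonempty (TFam ⟨1, k, 0, 1⟩) := by
  refine ⟨⟨fun p => (p.2.1 + k * lfe_h p.1 (p.2.2 - 1 / 2), p.2.2), fun p => (p.2.1 - k * lfe_h p.1 (p.2.2 - 1 / 2), p.2.2),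
    ?_, ?_, ?_, ?_, ?_, ?_, ?_⟩⟩
  · have h1 : ContDiff ℝ ∞ (fun p : ℝ × ℝ × ℝ => lfe_h p.1 (p.2.2 - 1 / 2)) := lfe_smooth contDiff_fst (by fun_prop)
    exact ((contDiff_fst.comp contDiff_snd).add (contDiff_const.mul h1)).prodMk (contDiff_snd.comp contDiff_snd)
  · have h1 : ContDiff ℝ ∞ (fun p : ℝ × ℝ × ℝ => lfe_h p.1 (p.2.2 - 1 / 2)) := lfe_smooth contDiff_fst (by fun_prop)
    exact ((contDiff_fst.comp contDiff_snd).sub (contDiff_const.mul h1)).prodMk (contDiff_snd.comp contDiff_snd)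
  · intro q z t
    simp
  · intro q z t
    simp
  · intro q z t m n
    have e1 : t + n - 1 / 2 = t - 1 / 2 + n := by ring
    simp only [e1, lfe_add]
    apply Prod.ext
    · simp only [Prod.fst_add]
      push_cast
      ring
    · simp only [Prod.snd_add]
      push_cast
      ring
  · intro q z t hq hz ht
    simp only [lfe_near hq ht]
    simp
  · intro q z t hq
    simp only [lfe_lin hq]
    apply Prod.ext
    · push_cast
      ring
    · push_cast
      ring

theorem fam_lower (k : ℤ) : Nonempty (TFam ⟨1, 0, k, 1⟩) := by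
  refine ⟨⟨fun p => (p.2.1, p.2.2 + k * lfe_h p.1 p.2.1), fun p => (p.2.1, p.2.2 - k * lfe_h p.1 p.2.1),
    ?_, ?_, ?_, ?_, ?_, ?_, ?_⟩⟩
  · have h1 : ContDiff ℝ ∞ (fun p : ℝ × ℝ × ℝ => lfe_h p.1 p.2.1) := lfe_smooth contDiff_fst (by fun_prop)
    exact (contDiff_fst.comp contDiff_snd).prodMk ((contDiff_snd.comp contDiff_snd).add (contDiff_const.mul h1))
  · have h1 : ContDiff ℝ ∞ (fun p : ℝ × ℝ × ℝ => lfe_h p.1 p.2.1) := lfe_smooth contDiff_fst (by fun_prop)
    exact (contDiff_fst.comp contDiff_snd).prodMk ((contDiff_snd.comp contDiff_snd).sub (contDiff_const.mul h1))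
  · intro q z t
    simp
  · intro q z t
    simp
  · intro q z t m n
    simp only [lfe_add]
    apply Prod.ext
    · simp only [Prod.fst_add]
      push_cast
      ring
    · simp only [Prod.snd_add]
      push_cast
      ring
  · intro q z t hq hz ht
    simp only [lfe_near hq hz]
    simp
  · intro q z t hq
    simp only [lfe_lin hq]
    apply Prod.ext
    · push_cast
      ring
    · push_cast
      ring

theorem fam_mul {L L' : Sl} (h : Nonempty (TFam L)) (h' : Nonempty (TFam L')) :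
    Nonempty (TFam ⟨L.a * L'.a + L.b * L'.c, L.a * L'.b + L.b * L'.d, L.c * L'.a + L.d * L'.c, L.c * L'.b + L.d * L'.d⟩) := by
  obtain ⟨F⟩ := h
  obtain ⟨F'⟩ := h'
  refine ⟨⟨fun p => F.f (p.1, F'.f p), fun p => F'.g (p.1, F.g p), ?_, ?_, ?_, ?_, ?_, ?_, ?_⟩⟩
  · exact F.f_smooth.comp (contDiff_fst.prodMk F'.f_smooth)
  · exact F'.g_smooth.comp (contDiff_fst.prodMk F.g_smooth)
  · intro q z t
    show F'.g (q, F.g (q, F.f (q, F'.f (q, z, t)))) = (z, t)
    have h1 := F.gf q (F'.f (q, z, t)).1 (F'.f (q, z, t)).2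
    rw [Prod.mk.eta] at h1
    rw [h1, F'.gf]
  · intro q z t
    show F.f (q, F'.f (q, F'.g (q, F.g (q, z, t)))) = (z, t)
    have h1 := F'.fg q (F.g (q, z, t)).1 (F.g (q, z, t)).2
    rw [Prod.mk.eta] at h1
    rw [h1, F.fg]
  · intro q z t m n
    show F.f (q, F'.f (q, z + m, t + n)) = F.f (q, F'.f (q, z, t)) + _
    rw [F'.equi]
    have h1 := F.equi q (F'.f (q, z, t)).1 (F'.f (q, z, t)).2 (L'.a * m + L'.b * n) (L'.c * m + L'.d * n)
    rw [Prod.mk.eta] at h1
    have h2 : F'.f (q, z, t) + ((L'.a * m + L'.b * n : ℝ), (L'.c * m + L'.d * n : ℝ)) =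
        ((F'.f (q, z, t)).1 + ((L'.a * m + L'.b * n : ℤ) : ℝ), (F'.f (q, z, t)).2 + ((L'.c * m + L'.d * n : ℤ) : ℝ)) := by
      apply Prod.ext
      · simp only [Prod.fst_add]
        push_cast
        ring
      · simp only [Prod.snd_add]
        push_cast
        ring
    rw [h2, h1]
    congr 1
    apply Prod.ext
    · push_cast
      ring
    · push_cast
      ring
  · intro q z t hq hz ht
    show F.f (q, F'.f (q, z, t)) = (z, t)
    rw [F'.near q z t hq hz ht, F.near q z t hq hz ht]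
  · intro q z t hq
    show F.f (q, F'.f (q, z, t)) = _
    rw [F'.lin q z t hq, F.lin q _ _ hq]
    apply Prod.ext
    · push_cast
      ring
    · push_cast
      ring

end Pool.Agent.MMV
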