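import Pool.Agent.MMV.LSp

/-!
# MMV/LGm: maps of `S³ × S¹` given in the three pieces   (difficulty 3)

By `SP_cover` and the disjointness of the three pieces (`tubS_ne_tubN`, `tubS_ne_pol`, `tubN_ne_pol`), `gmap` is given in each piece by the corresponding branch; the chosen preimage is unique up to the period in the tubes (`tubS_inj`, `tubN_inj`) and unique in `pol` (`pol_inj`).
`gmap_ld_pol`: near `pol (W, v)` (`pol_ld`: `pol` is open and a local diffeomorphism) `gmap ∘ pol = m` (near `(W, v)` the first coordinate is not 0): `CSG.ld_of_comp_left`/`right` and `CSG.ld_congr`.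
`gmap_ld_S`: `gmap ∘ tubS = a` near `(t, 0)`: for `(l, Y)` near `(t, 0)`: `Y = 0`: `gmap_tubS`; `Y ≠ 0`: `Y = r v`, `r = |Y| < δ`, `tubS (l, Y) = pol (r ex l, v)` (`tubS_pol`), `gmap (..) = m (r ex l, v) = a (l, Y)`.  The same for `N` (`tubN_pol`).
-/

open scoped ContDiff Manifold Topology unitInterval
open Set Filter
open Pool.Agent.RSG (E3 E4 S2 S3 S4 ex cj c1 c2 ht fh pS2 pS3 pS4)
open Pool.Agent.RBM (ThickT OnT Box)
open Pool.Agent.LKF (OnF)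
open Pool.Agent.PTH (SP ISP)
open Pool.Agent.KNH (circ)
open Pool.Agent.LKT (s1 s2 dir)

namespace Pool.Agent.MMV

section
variable {M : Type*} {a b : ℝ × E3 → M} {m : ℂ × S2 → M}

theorem gmap_tubS (ha : ∀ (t : ℝ) (n : ℤ), a (t + n, 0) = a (t, 0)) (t : ℝ) : gmap a b m (tubS (t, 0)) = a (t, 0) := by
  have h : ∃ t' : ℝ, tubS (t, 0) = tubS (t', 0) := ⟨t, rfl⟩
  unfold gmap
  rw [dif_pos h]
  obtain ⟨-, n, hn⟩ := tubS_inj h.choose_spec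
  rw [hn, ha]

theorem gmap_tubN (hb : ∀ (t : ℝ) (n : ℤ), b (t + n, 0) = b (t, 0)) (t : ℝ) : gmap a b m (tubN (t, 0)) = b (t, 0) := by
  have h0 : ¬ ∃ t' : ℝ, tubN (t, 0) = tubS (t', 0) := by
    rintro ⟨t', h⟩
    exact tubS_ne_tubN t' t h.symm
  have h : ∃ t' : ℝ, tubN (t, 0) = tubN (t', 0) := ⟨t, rfl⟩
  unfold gmap
  rw [dif_neg h0, dif_pos h]
  obtain ⟨-, n, hn⟩ := tubN_inj h.choose_spec
  rw [hn, hb]

theorem gmap_pol {W : ℂ} (h : W ≠ 0) (v : S2) : gmap a b m (pol (W, v)) = m (W, v) := by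
  have h0 : ¬ ∃ t' : ℝ, pol (W, v) = tubS (t', 0) := by
    rintro ⟨t', h'⟩
    exact tubS_ne_pol t' h v h'.symm
  have h1 : ¬ ∃ t' : ℝ, pol (W, v) = tubN (t', 0) := by
    rintro ⟨t', h'⟩
    exact tubN_ne_pol t' h v h'.symm
  have h2 : ∃ q : ℂ × S2, q.1 ≠ 0 ∧ pol (W, v) = pol q := ⟨(W, v), h, rfl⟩
  unfold gmap
  rw [dif_neg h0, dif_neg h1, dif_pos h2]
  obtain ⟨h3, h4⟩ := h2.choose_spec
  obtain ⟨h5, h6⟩ := pol_inj (W' := h2.choose.1) (v' := h2.choose.2) h h3 h4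
  have h7 : h2.choose = (W, v) := Prod.ext h5.symm h6.symm
  rw [h7]

variable [TopologicalSpace M] [ChartedSpace E4 M]

theorem gmap_ld_pol {W : ℂ} (h : W ≠ 0) (v : S2)
    (hm : IsLocalDiffeomorphAt (𝓘(ℝ, ℂ).prod (𝓡 2)) (𝓡 4) ∞ m (W, v)) :
    IsLocalDiffeomorphAt ISP (𝓡 4) ∞ (gmap a b m) (pol (W, v)) := by
  refine CSG.ld_of_comp_left (f := pol) ?_ (pol_ld h v)
  refine CSG.ld_congr hm ?_
  have h1 : ∀ᶠ q : ℂ × S2 in 𝓝 (W, v), q.1 ≠ 0 := continuousAt_fst.eventually_ne h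
  filter_upwards [h1] with q hq
  exact gmap_pol hq q.2

theorem lgm_near {δ : ℝ} (hδ : 0 < δ) (t : ℝ) : ∀ᶠ q : ℝ × E3 in 𝓝 (t, (0 : E3)), ‖q.2‖ < δ := by
  have h1 : ContinuousAt (fun q : ℝ × E3 => ‖q.2‖) (t, (0 : E3)) := (continuous_norm.comp continuous_snd).continuousAt
  have h2 : ‖((t, (0 : E3)) : ℝ × E3).2‖ < δ := by simpa using hδ
  exact h1.eventually_lt continuousAt_const h2

theorem lgm_polar {Y : E3} (hY : Y ≠ 0) : ∃ v : S2, Y = ‖Y‖ • v.1 := by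
  have hn : ‖Y‖ ≠ 0 := norm_ne_zero_iff.2 hY
  refine ⟨⟨‖Y‖⁻¹ • Y, ?_⟩, ?_⟩
  · rw [mem_sphere_zero_iff_norm, norm_smul, norm_inv, norm_norm, inv_mul_cancel₀ hn]
  · show Y = ‖Y‖ • (‖Y‖⁻¹ • Y)
    rw [smul_smul, mul_inv_cancel₀ hn, one_smul]

theorem gmap_ld_S (ha : ∀ (t : ℝ) (n : ℤ), a (t + n, 0) = a (t, 0)) {t δ : ℝ} (hδ : 0 < δ)
    (hl : IsLocalDiffeomorphAt 𝓘(ℝ, ℝ × E3) (𝓡 4) ∞ a (t, 0))
    (hg : ∀ (l r : ℝ) (v : S2), 0 < r → r < δ → a (l, r • v.1) = m (r * ex l, v)) :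
    IsLocalDiffeomorphAt ISP (𝓡 4) ∞ (gmap a b m) (tubS (t, 0)) := by
  refine CSG.ld_of_comp_left (f := tubS) ?_ (tubS_ld (t, 0))
  refine CSG.ld_congr hl ?_
  filter_upwards [lgm_near hδ t] with q hq
  obtain ⟨l, Y⟩ := q
  show gmap a b m (tubS (l, Y)) = a (l, Y)
  by_cases hY : Y = 0
  · rw [hY]
    exact gmap_tubS ha l
  · obtain ⟨v, hv⟩ := lgm_polar hY
    have hr : 0 < ‖Y‖ := norm_pos_iff.2 hY
    have hne : ((‖Y‖ : ℝ) : ℂ) * ex l ≠ 0 := mul_ne_zero (by exact_mod_cast hr.ne') (RSG.ex_ne l)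
    rw [hv, tubS_pol l hr v, gmap_pol hne, hg l ‖Y‖ v hr hq]

theorem gmap_ld_N (hb : ∀ (t : ℝ) (n : ℤ), b (t + n, 0) = b (t, 0)) {t δ : ℝ} (hδ : 0 < δ)
    (hl : IsLocalDiffeomorphAt 𝓘(ℝ, ℝ × E3) (𝓡 4) ∞ b (t, 0))
    (hg : ∀ (l r : ℝ) (v : S2), 0 < r → r < δ → b (l, r • v.1) = m ((r⁻¹ : ℝ) * ex l, v)) :
    IsLocalDiffeomorphAt ISP (𝓡 4) ∞ (gmap a b m) (tubN (t, 0)) := by
  refine CSG.ld_of_comp_left (f := tubN) ?_ (tubN_ld (t, 0))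
  refine CSG.ld_congr hl ?_
  filter_upwards [lgm_near hδ t] with q hq
  obtain ⟨l, Y⟩ := q
  show gmap a b m (tubN (l, Y)) = b (l, Y)
  by_cases hY : Y = 0
  · rw [hY]
    exact gmap_tubN hb l
  · obtain ⟨v, hv⟩ := lgm_polar hY
    have hr : 0 < ‖Y‖ := norm_pos_iff.2 hY
    have hne : ((‖Y‖⁻¹ : ℝ) : ℂ) * ex l ≠ 0 := mul_ne_zero (by exact_mod_cast (inv_pos.2 hr).ne') (RSG.ex_ne l)
    rw [hv, tubN_pol l hr v, gmap_pol hne, hg l ‖Y‖ v hr hq]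

end

end Pool.Agent.MMV
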