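import Pool.Agent.MMV.LZn
import Pool.Agent.MMV.LEE

/-!
# MMV/LHL: the shear on the double   (difficulty 3)

`κS₁_KL`: `KL_J0` with `Y = YK l v`, `|Y| < 1/16` (`YK_norm`, also true for `‖v‖ < 1`).  `s2_zero`: `p = (x, circ t)`, `s2 x = 0`: `x = sY Y` with `|Y| = 1`, `Y₂ = 0` (`sY_s`, `SP_cover`; the north pole has `s2 = 1`), and `32 YK l 0 = (cos 2πl, sin 2πl, 0)`.
`exists_hL`: `S` maps `{pol (-32, v)}` identically to itself (`Zn_sphere`), hence also its complement to itself.  For `m ∈ M` off the circle `k₂ (·, 0)` let `p = KL⁻¹ m` (`KL_cover`, `KL_inj`), `H m := KL (S p)`; `H m := m` on the circle `k₂`.  Inverse: the same with `S⁻¹` (`KL_ne`): a permutation.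
`RP`: for `m = KL p` in the right half `p ∈ Zn` (`RP_zone`), `S p = p`; on the circle `k₂` `H` is the identity.  Local diffeomorphism: at `k₂ (l, 0)`: `H = id` nearby (`RP_nhds`, `CSG.ld_congr`, `CSG.ld_id`).  At `m = KL p`, `s2 p.1 ≠ 0`: near `p` we have `H ∘ KL = KL ∘ S` (the set `{p ≠ pol (-32, v)}` is open: the sphere is compact;
or: `KL` is a local diffeomorphism and injective there), `KL` is a local diffeomorphism at `p` and at `S p`: `CSG.ld_of_comp_right`.  The excluded points: `s2 p.1 = 0` iff `p = tubS (t, 32 YK l 0)` (`s2_zero`), and then `KL p = J0 (κS₁ (l, 0, t))` and `S p = p`.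
-/

open scoped ContDiff Manifold Topology unitInterval
open Set Filter
open Pool.Agent.RSG (E3 E4 S2 S3 S4 ex cj c1 c2 ht fh pS2 pS3 pS4)
open Pool.Agent.RBM (ThickT OnT Box)
open Pool.Agent.LKF (OnF)
open Pool.Agent.PTH (SP ISP)
open Pool.Agent.KNH (circ)
open Pool.Agent.LKT (s1 s2 dir)

namespace Pool.Agent.MMV

theorem lhl_YK (l : ℝ) : (32 : ℝ) • YK l 0 = !₂[Real.cos (2 * Real.pi * l), Real.sin (2 * Real.pi * l), 0] := by
  ext i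
  fin_cases i <;> simp [YK]

theorem lhl_norm (l : ℝ) : ‖(32 : ℝ) • YK l 0‖ = 1 := by
  rw [lhl_YK, EuclideanSpace.norm_eq]
  simp [Fin.sum_univ_three]

theorem s2_YK (l t : ℝ) : s2 (tubS (t, (32 : ℝ) • YK l 0)).1 = 0 := by
  show s2 (sY ((32 : ℝ) • YK l 0)) = 0
  rw [(sY_s _).2, lhl_norm, lhl_YK]
  have : (⟨(1 : ℝ) ^ 2 - 1, 2 * (!₂[Real.cos (2 * Real.pi * l), Real.sin (2 * Real.pi * l), 0] : E3) 2⟩ : ℂ) = 0 := by
    apply Complex.ext <;> simp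
  rw [this, mul_zero]

theorem lhl_angle {x y : ℝ} (h : x ^ 2 + y ^ 2 = 1) :
    ∃ l : ℝ, Real.cos (2 * Real.pi * l) = x ∧ Real.sin (2 * Real.pi * l) = y := by
  have hn : ‖(⟨x, y⟩ : ℂ)‖ = 1 := by
    rw [← sq_eq_sq₀ (norm_nonneg _) zero_le_one, ← Complex.normSq_eq_norm_sq, Complex.normSq_apply, one_pow]
    simp only
    nlinarith [h]
  have h0 : (⟨x, y⟩ : ℂ) ≠ 0 := by
    intro h0
    rw [h0, norm_zero] at hn
    exact zero_ne_one hn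
  refine ⟨Complex.arg ⟨x, y⟩ / (2 * Real.pi), ?_, ?_⟩
  · rw [mul_div_cancel₀ _ Real.two_pi_pos.ne', Complex.cos_arg h0, hn, div_one]
  · rw [mul_div_cancel₀ _ Real.two_pi_pos.ne', Complex.sin_arg, hn, div_one]

theorem s2_zero {p : SP} (h : s2 p.1 = 0) : ∃ l t : ℝ, p = tubS (t, (32 : ℝ) • YK l 0) := by
  rcases SP_cover p with ⟨t, rfl⟩ | ⟨t, rfl⟩ | ⟨W, v, hW, rfl⟩
  · exfalso
    change s2 (sY 0) = 0 at h
    rw [(sY_s 0).2] at h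
    have := congrArg Complex.re h
    simp at this
  · exfalso
    change s2 (Inv (sY 0)) = 0 at h
    rw [(Inv_s _).2, (sY_s 0).2] at h
    have := congrArg Complex.re h
    simp at this
  · change s2 (sY ((‖W‖ : ℝ) • v.1)) = 0 at h
    have hv : ‖(v.1 : E3)‖ = 1 := mem_sphere_zero_iff_norm.1 v.2
    have hn : ‖(‖W‖ : ℝ) • v.1‖ = ‖W‖ := by
      rw [norm_smul, norm_norm, hv, mul_one]
    have hW0 : 0 < ‖W‖ := norm_pos_iff.2 hW
    rw [(sY_s _).2, hn] at h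
    have hc : ((1 / (1 + ‖W‖ ^ 2) : ℝ) : ℂ) ≠ 0 := by
      rw [Complex.ofReal_ne_zero]
      positivity
    have h2 := (mul_eq_zero.1 h).resolve_left hc
    have h3 : ‖W‖ ^ 2 - 1 = 0 := congrArg Complex.re h2
    have h4 : 2 * ((‖W‖ : ℝ) • v.1) 2 = 0 := congrArg Complex.im h2
    have h5 : ‖W‖ = 1 := by
      rw [← sq_eq_sq₀ (norm_nonneg _) zero_le_one]
      linarith
    have h6 : (v.1 : E3) 2 = 0 := by
      rw [h5, one_smul] at h4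
      linarith
    have h7 : (v.1 : E3) 0 ^ 2 + (v.1 : E3) 1 ^ 2 = 1 := by
      have := EuclideanSpace.norm_sq_eq (v.1 : E3)
      rw [hv, Fin.sum_univ_three, h6] at this
      simp only [Real.norm_eq_abs, sq_abs] at this
      linarith
    obtain ⟨l, hl1, hl2⟩ := lhl_angle h7
    obtain ⟨t, ht⟩ : ∃ t : ℝ, circ t = dir W := by
      refine ⟨Complex.arg W / (2 * Real.pi), ?_⟩
      rw [circ, dir, mul_div_cancel₀ _ Real.two_pi_pos.ne']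
    refine ⟨l, t, ?_⟩
    show (sY ((‖W‖ : ℝ) • v.1), dir W) = (sY ((32 : ℝ) • YK l 0), circ t)
    rw [ht, lhl_YK, h5, one_smul]
    congr 2
    ext i
    fin_cases i
    · exact hl1.symm
    · exact hl2.symm
    · exact h6

section
variable {M : Type*} [TopologicalSpace M] [ChartedSpace E4 M] {k₁ k₂ : ℝ × E3 → M} {ε : ℝ} {mp : ℂ × S2 → M} {ρ₀ : ℝ × E3 → M}

theorem κS₁_KL (D : DM k₁ k₂ ε mp ρ₀) (l : ℝ) {v : ℂ} (hv : ‖v‖ < 1) (t : ℝ) :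
    J0 k₁ k₂ mp (κS₁ (l, v, t)) = KL k₁ mp ρ₀ (tubS (t, (32 : ℝ) • YK l v)) :=
  (KL_J0 D t (YK_norm l hv).le).symm

theorem lhl_U {v : S2} {p : SP} (h : s2 p.1 = 0) : p ≠ pol (-32, v) := by
  rintro rfl
  have h1 := (Zn_sphere v).2.1
  rw [h] at h1
  simp at h1

theorem lhl_open : ∀ p : SP, (∀ v, p ≠ pol (-32, v)) → ∀ᶠ q in 𝓝 p, ∀ v, q ≠ pol (-32, v) := by
  intro p hp
  have hc : Continuous fun v : S2 => pol (-32, v) := by
    rw [continuous_iff_continuousAt]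
    intro v
    have h1 : ContinuousAt pol ((-32 : ℂ), v) := (pol_ld (by norm_num) v).contMDiffAt.continuousAt
    exact ContinuousAt.comp (f := fun v : S2 => ((-32 : ℂ), v)) h1 (by fun_prop)
  have hcl : IsClosed (range fun v : S2 => pol (-32, v)) := (isCompact_range hc).isClosed
  have hmem : p ∈ (range fun v : S2 => pol (-32, v))ᶜ := by
    rintro ⟨v, hv⟩
    exact hp v hv.symm
  filter_upwards [hcl.isOpen_compl.mem_nhds hmem] with q hq v hv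
  exact hq ⟨v, hv.symm⟩

/-- the map `KL ∘ S ∘ KL⁻¹`, extended by the identity -/
noncomputable def lhl_G (k₁ : ℝ × E3 → M) (mp : ℂ × S2 → M) (ρ₀ : ℝ × E3 → M) (S : SP → SP) (m : M) : M :=
  open Classical in if h : ∃ p : SP, (∀ v, p ≠ pol (-32, v)) ∧ m = KL k₁ mp ρ₀ p then KL k₁ mp ρ₀ (S h.choose) else m

theorem lhl_G_KL (D : DM k₁ k₂ ε mp ρ₀) (S : SP → SP) {p : SP} (hp : ∀ v, p ≠ pol (-32, v)) :
    lhl_G k₁ mp ρ₀ S (KL k₁ mp ρ₀ p) = KL k₁ mp ρ₀ (S p) := by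
  have h : ∃ q : SP, (∀ v, q ≠ pol (-32, v)) ∧ KL k₁ mp ρ₀ p = KL k₁ mp ρ₀ q := ⟨p, hp, rfl⟩
  rw [lhl_G, dif_pos h, ← KL_inj D hp h.choose_spec.1 h.choose_spec.2]

theorem lhl_G_k₂ (D : DM k₁ k₂ ε mp ρ₀) (S : SP → SP) (l : ℝ) :
    lhl_G k₁ mp ρ₀ S (k₂ (l, 0)) = k₂ (l, 0) := by
  rw [lhl_G, dif_neg]
  rintro ⟨p, hp, h⟩
  exact KL_ne D hp l h.symm

theorem lhl_inv (D : DM k₁ k₂ ε mp ρ₀) {S T : SP → SP} (hS : ∀ p, (∀ v, p ≠ pol (-32, v)) → ∀ v, S p ≠ pol (-32, v))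
    (hTS : ∀ p, T (S p) = p) (m : M) : lhl_G k₁ mp ρ₀ T (lhl_G k₁ mp ρ₀ S m) = m := by
  rcases KL_cover D m with ⟨p, hp, rfl⟩ | ⟨l, rfl⟩
  · rw [lhl_G_KL D S hp, lhl_G_KL D T (hS p hp), hTS]
  · rw [lhl_G_k₂ D, lhl_G_k₂ D]

theorem exists_hL (D : DM k₁ k₂ ε mp ρ₀) (S : Equiv.Perm SP) (h1 : ∀ p : SP, s2 p.1 ≠ 0 → IsLocalDiffeomorphAt ISP ISP ∞ S p)
    (h2 : ∀ p : SP, s2 p.1 = 0 → S p = p) (h3 : ∀ p ∈ Zn, S p = p) :
    ∃ H : Equiv.Perm M, (∀ p : SP, (∀ v, p ≠ pol (-32, v)) → (∀ v, S p ≠ pol (-32, v)) ∧ H (KL k₁ mp ρ₀ p) = KL k₁ mp ρ₀ (S p)) ∧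
      (∀ m, RP k₂ mp ρ₀ m → H m = m) ∧
      (∀ m, (∀ l t, m ≠ J0 k₁ k₂ mp (κS₁ (l, 0, t))) → IsLocalDiffeomorphAt (𝓡 4) (𝓡 4) ∞ H m) ∧
      ∀ l t, H (J0 k₁ k₂ mp (κS₁ (l, 0, t))) = J0 k₁ k₂ mp (κS₁ (l, 0, t)) := by
  have hfix : ∀ v, S (pol (-32, v)) = pol (-32, v) := fun v => h3 _ (Zn_sphere v)
  have hS : ∀ p, (∀ v, p ≠ pol (-32, v)) → ∀ v, S p ≠ pol (-32, v) := by
    intro p hp v h
    exact hp v (S.injective (h.trans (hfix v).symm))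
  have hS' : ∀ p, (∀ v, p ≠ pol (-32, v)) → ∀ v, S.symm p ≠ pol (-32, v) := by
    intro p hp v h
    refine hp v ?_
    rw [← hfix v, ← h, Equiv.apply_symm_apply]
  let H : Equiv.Perm M :=
    { toFun := lhl_G k₁ mp ρ₀ S
      invFun := lhl_G k₁ mp ρ₀ S.symm
      left_inv := lhl_inv D hS fun p => S.symm_apply_apply p
      right_inv := lhl_inv D hS' fun p => S.apply_symm_apply p }
  have hH : ∀ m, H m = lhl_G k₁ mp ρ₀ S m := fun m => rfl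
  have hKL : ∀ p : SP, (∀ v, p ≠ pol (-32, v)) → H (KL k₁ mp ρ₀ p) = KL k₁ mp ρ₀ (S p) := fun p hp => lhl_G_KL D S hp
  have hRP : ∀ m, RP k₂ mp ρ₀ m → H m = m := by
    intro m hm
    rcases KL_cover D m with ⟨p, hp, rfl⟩ | ⟨l, rfl⟩
    · rw [hKL p hp, h3 p (RP_zone D hp hm)]
    · exact lhl_G_k₂ D S l
  have hT : ∀ l t, J0 k₁ k₂ mp (κS₁ (l, 0, t)) = KL k₁ mp ρ₀ (tubS (t, (32 : ℝ) • YK l 0)) := fun l t =>
    κS₁_KL D l (by simp) t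
  refine ⟨H, fun p hp => ⟨hS p hp, hKL p hp⟩, hRP, ?_, ?_⟩
  · intro m hm
    rcases KL_cover D m with ⟨p, hp, rfl⟩ | ⟨l, rfl⟩
    · have hs : s2 p.1 ≠ 0 := by
        intro h0
        obtain ⟨l, t, rfl⟩ := s2_zero h0
        exact hm l t (hT l t).symm
      have e : (H ∘ KL k₁ mp ρ₀) =ᶠ[𝓝 p] (KL k₁ mp ρ₀ ∘ S) := by
        filter_upwards [lhl_open p hp] with q hq
        exact hKL q hq
      have h4 : IsLocalDiffeomorphAt ISP (𝓡 4) ∞ (KL k₁ mp ρ₀ ∘ S) p :=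
        IsLocalDiffeomorphAt.comp (hf := h1 p hs) (hg := KL_ld D (hS p hp)) ..
      exact CSG.ld_of_comp_left (CSG.ld_congr h4 e) (KL_ld D hp)
    · have h5 : IsLocalDiffeomorphAt (𝓡 4) (𝓡 4) ∞ (id : M → M) (k₂ (l, 0)) := CSG.ld_id _
      refine CSG.ld_congr h5 ?_
      filter_upwards [RP_nhds D l] with m' hm'
      exact hRP m' hm'
  · intro l t
    rw [hT l t, hKL _ (fun v => lhl_U (s2_YK l t)), h2 _ (s2_YK l t)]

end

end Pool.Agent.MMV
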