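import Pool.Agent.MMV.LKp
import Pool.Agent.MMV.LDg

/-!
# MMV/LKN: the edge circle in the chart `KL` (map `lN`)   (difficulty 4)

`S := √(1 + 576 |Z|²) ≥ 1`.  For `|Z| < 1/64`: `S < 2`, so `2 + ex (-t) S` and `2 + ex t / S` have positive real part, `lN` is smooth near such points (`S` is a smooth function of `Z`).
`lN_ex`: `ex (arg w / 2π) = w / |w|`, and `|2 + ex (-t)| = |2 + ex t|`: `ex (lN (t, 0)).1 = -ex t (2 + ex (-t))/(2 + ex t)`.  `lN_per`: formula (`ex (t + 1) = ex t`).  `lN_inj`, `lN_surj`: the Möbius map `w ↦ -(1 + 2 w)/(2 + w)` is an involution of the unit circle.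
`lN_ld`: at `(t, 0)`: `S` has derivative 0 in `Z` at `Z = 0`, the derivative of `lN` at `(t, 0)` is `(τ, X) ↦ (m τ, c X)`, `c = 24 √3 / |2 + ex t| > 0`, `m = d/dt (1/2 + t - arg (2 + ex t)/π) = 1 - 2 (1 + 2 cos 2πt)/(5 + 4 cos 2πt) = 3/(5 + 4 cos 2πt) > 0`: `CSG.ld_of_fderiv`.
`lN_glue`: `0 < r < 1/64`, `W = r⁻¹ ex l / 32`, `|W|² = 1/(1024 r²) ≥ 3/32`: `Kp_large` with `W' = W/√(9/16 + |W|²) = ex l / S`, `S = √(1 + 576 r²)`, `Kp W = -(1 + 2 W')/(2 + W')`; `1 - |Kp W|² = 3 (1 - |W'|²)/|2 + W'|² = 3 · 576 r²/(S² |2 + ex l/S|²) = r'²`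
with `r' = |(lN (l, r v)).2| = 24 √3 r/(S |2 + ex l/S|) ≤ 24 √3 r/(2 S - 1) ≤ 24 √3 r < 4/5`; direction: `1 + 2 ex l / S = (ex l / S)(2 + S ex (-l))`, so `Kp W = √(1 - r'²) ex (lN (l, r v)).1`; `(lN (l, r v)).2 = r' v`: `D.glue₀`.
-/

open scoped ContDiff Manifold Topology unitInterval
open Set Filter
open Pool.Agent.RSG (E3 E4 S2 S3 S4 ex cj c1 c2 ht fh pS2 pS3 pS4)
open Pool.Agent.RBM (ThickT OnT Box)
open Pool.Agent.LKF (OnF)
open Pool.Agent.PTH (SP ISP)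
open Pool.Agent.KNH (circ)
open Pool.Agent.LKT (s1 s2 dir)

namespace Pool.Agent.MMV

/-- the square root -/
noncomputable def lkn_S (Z : E3) : ℝ := Real.sqrt (1 + 576 * ‖Z‖ ^ 2)

theorem lkn_S_one (Z : E3) : 1 ≤ lkn_S Z := by
  unfold lkn_S
  rw [Real.one_le_sqrt]
  have : 0 ≤ ‖Z‖ ^ 2 := by positivity
  linarith

theorem lkn_S_pos (Z : E3) : 0 < lkn_S Z := lt_of_lt_of_le one_pos (lkn_S_one Z)

theorem lkn_S_zero : lkn_S 0 = 1 := by
  unfold lkn_S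
  rw [norm_zero]
  norm_num

theorem lkn_S_sq (Z : E3) : lkn_S Z ^ 2 = 1 + 576 * ‖Z‖ ^ 2 := by
  unfold lkn_S
  rw [Real.sq_sqrt (by positivity)]

theorem lkn_eq (q : ℝ × E3) : lN q = (1 / 2 + q.1 + (Complex.arg (2 + ex (-q.1) * (lkn_S q.2 : ℝ)) -
      Complex.arg (2 + ex q.1 / (lkn_S q.2 : ℝ))) / (2 * Real.pi),
    (24 * Real.sqrt 3 / (lkn_S q.2 * ‖2 + ex q.1 / (lkn_S q.2 : ℝ)‖)) • q.2) := rfl

theorem lkn_reB {z : ℂ} (h : ‖z‖ ≤ 1) : 0 < (2 + z).re := by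
  have h1 := Complex.abs_re_le_norm z
  have h2 := neg_abs_le z.re
  simp only [Complex.add_re, Complex.re_ofNat]
  linarith

theorem lkn_reA {z : ℂ} (h : ‖z‖ < 2) : 0 < (2 + z).re := by
  have h1 := Complex.abs_re_le_norm z
  have h2 := neg_abs_le z.re
  simp only [Complex.add_re, Complex.re_ofNat]
  linarith

theorem lkn_nB (l : ℝ) (Z : E3) : ‖ex l / ((lkn_S Z : ℝ) : ℂ)‖ ≤ 1 := by
  rw [norm_div, RSG.ex_norm, Complex.norm_real, Real.norm_of_nonneg (lkn_S_pos Z).le]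
  exact (div_le_one (lkn_S_pos Z)).2 (lkn_S_one Z)

theorem lkn_nA (l : ℝ) (Z : E3) : ‖ex l * ((lkn_S Z : ℝ) : ℂ)‖ = lkn_S Z := by
  rw [norm_mul, RSG.ex_norm, Complex.norm_real, Real.norm_of_nonneg (lkn_S_pos Z).le, one_mul]

theorem lkn_B_re (l : ℝ) (Z : E3) : 0 < (2 + ex l / ((lkn_S Z : ℝ) : ℂ)).re := lkn_reB (lkn_nB l Z)

theorem lkn_ne {z : ℂ} (h : 0 < z.re) : z ≠ 0 := by
  rintro rfl
  simp at h

/-- the angle -/
theorem lkn_ex1 (q : ℝ × E3) (hA : 2 + ex (-q.1) * ((lkn_S q.2 : ℝ) : ℂ) ≠ 0) :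
    ex (lN q).1 = -(ex q.1 * ((2 + ex (-q.1) * ((lkn_S q.2 : ℝ) : ℂ)) / (‖2 + ex (-q.1) * ((lkn_S q.2 : ℝ) : ℂ)‖ : ℂ)) *
      ((‖2 + ex q.1 / ((lkn_S q.2 : ℝ) : ℂ)‖ : ℂ) / (2 + ex q.1 / ((lkn_S q.2 : ℝ) : ℂ)))) := by
  set A : ℂ := 2 + ex (-q.1) * ((lkn_S q.2 : ℝ) : ℂ) with hAd
  set B : ℂ := 2 + ex q.1 / ((lkn_S q.2 : ℝ) : ℂ) with hBd
  have hB : B ≠ 0 := lkn_ne (lkn_B_re _ _)
  have e1 : (lN q).1 = 1 / 2 + (q.1 + (Complex.arg A / (2 * Real.pi) + -(Complex.arg B / (2 * Real.pi)))) := by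
    rw [lkn_eq]
    change 1 / 2 + q.1 + (Complex.arg A - Complex.arg B) / (2 * Real.pi) = _
    ring
  have e2 : ex (Complex.arg A / (2 * Real.pi)) = A / (‖A‖ : ℂ) := by
    have := RSG.ex_arg (p := A)
    rw [eq_div_iff (by exact_mod_cast (norm_pos_iff.2 hA).ne'), mul_comm]
    exact this
  have e3 : ex (-(Complex.arg B / (2 * Real.pi))) = (‖B‖ : ℂ) / B := by
    have h1 := RSG.ex_arg (p := B)
    have h2 : ex (Complex.arg B / (2 * Real.pi)) * ex (-(Complex.arg B / (2 * Real.pi))) = 1 := by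
      rw [← RSG.ex_add, add_neg_cancel, RSG.ex_zero]
    rw [eq_div_iff hB]
    calc ex (-(Complex.arg B / (2 * Real.pi))) * B
        = ex (-(Complex.arg B / (2 * Real.pi))) * ((‖B‖ : ℂ) * ex (Complex.arg B / (2 * Real.pi))) := by rw [h1]
      _ = (‖B‖ : ℂ) * (ex (Complex.arg B / (2 * Real.pi)) * ex (-(Complex.arg B / (2 * Real.pi)))) := by ring
      _ = (‖B‖ : ℂ) := by rw [h2, mul_one]
  rw [e1, RSG.ex_add, RSG.ex_add, RSG.ex_add, RSG.ex_half, e2, e3]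
  ring

theorem lkn_smooth {q : ℝ × E3} (h : lkn_S q.2 < 2) : ContDiffAt ℝ ∞ lN q := by
  have hS : ContDiff ℝ ∞ lkn_S := by
    unfold lkn_S
    apply ContDiff.sqrt
    · have h1 : ContDiff ℝ ∞ (fun Z : E3 => ‖Z‖ ^ 2) := contDiff_norm_sq ℝ
      fun_prop
    · intro Z
      positivity
  have hSc : ContDiff ℝ ∞ (fun q : ℝ × E3 => ((lkn_S q.2 : ℝ) : ℂ)) :=
    Complex.ofRealCLM.contDiff.comp (hS.comp contDiff_snd)
  have hS0 : ∀ q : ℝ × E3, ((lkn_S q.2 : ℝ) : ℂ) ≠ 0 := fun q => by exact_mod_cast (lkn_S_pos q.2).ne'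
  have h1 : ContDiff ℝ ∞ (fun q : ℝ × E3 => ex (-q.1)) := RSG.ex_smooth.comp contDiff_fst.neg
  have h2 : ContDiff ℝ ∞ (fun q : ℝ × E3 => ex q.1) := RSG.ex_smooth.comp contDiff_fst
  have hA : ContDiffAt ℝ ∞ (fun q : ℝ × E3 => 2 + ex (-q.1) * ((lkn_S q.2 : ℝ) : ℂ)) q :=
    (contDiff_const.add (h1.mul hSc)).contDiffAt
  have hB : ContDiffAt ℝ ∞ (fun q : ℝ × E3 => 2 + ex q.1 / ((lkn_S q.2 : ℝ) : ℂ)) q := by
    have h3 : ContDiff ℝ ∞ (fun q : ℝ × E3 => ex q.1 * ((lkn_S q.2 : ℝ) : ℂ)⁻¹) := h2.mul (hSc.inv hS0)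
    have h4 : (fun q : ℝ × E3 => ex q.1 * ((lkn_S q.2 : ℝ) : ℂ)⁻¹) = fun q => ex q.1 / ((lkn_S q.2 : ℝ) : ℂ) :=
      funext fun q => (div_eq_mul_inv _ _).symm
    rw [h4] at h3
    exact (contDiff_const.add h3).contDiffAt
  have harg : ∀ z : ℂ, 0 < z.re → ContDiffAt ℝ ∞ Complex.arg z := by
    intro z hz
    have h3 : ContDiffAt ℝ ∞ (fun z : ℂ => (Complex.log z).im) z :=
      Complex.imCLM.contDiff.contDiffAt.comp z
        ((Complex.contDiffAt_log (n := ∞) (Complex.mem_slitPlane_iff.2 (Or.inl hz))).restrict_scalars ℝ)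
    have h4 : (fun z : ℂ => (Complex.log z).im) = Complex.arg := funext fun z => Complex.log_im z
    rw [h4] at h3
    exact h3
  have hnA : 0 < (2 + ex (-q.1) * ((lkn_S q.2 : ℝ) : ℂ)).re := lkn_reA (by rw [lkn_nA]; exact h)
  have hnB : 0 < (2 + ex q.1 / ((lkn_S q.2 : ℝ) : ℂ)).re := lkn_B_re _ _
  have e1 : ContDiffAt ℝ ∞ (fun q : ℝ × E3 => Complex.arg (2 + ex (-q.1) * ((lkn_S q.2 : ℝ) : ℂ))) q :=
    ContDiffAt.comp (g := Complex.arg) (f := fun q : ℝ × E3 => 2 + ex (-q.1) * ((lkn_S q.2 : ℝ) : ℂ)) q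
      (harg _ hnA) hA
  have e2 : ContDiffAt ℝ ∞ (fun q : ℝ × E3 => Complex.arg (2 + ex q.1 / ((lkn_S q.2 : ℝ) : ℂ))) q :=
    ContDiffAt.comp (g := Complex.arg) (f := fun q : ℝ × E3 => 2 + ex q.1 / ((lkn_S q.2 : ℝ) : ℂ)) q
      (harg _ hnB) hB
  have e3 : ContDiffAt ℝ ∞ (fun q : ℝ × E3 => ‖2 + ex q.1 / ((lkn_S q.2 : ℝ) : ℂ)‖) q :=
    hB.norm ℝ (lkn_ne hnB)
  have e4 : ContDiffAt ℝ ∞ (fun q : ℝ × E3 => lkn_S q.2) q := (hS.comp contDiff_snd).contDiffAt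
  have e5 : ContDiffAt ℝ ∞ (fun q : ℝ × E3 => 1 / 2 + q.1 + (Complex.arg (2 + ex (-q.1) * ((lkn_S q.2 : ℝ) : ℂ)) -
      Complex.arg (2 + ex q.1 / ((lkn_S q.2 : ℝ) : ℂ))) / (2 * Real.pi)) q :=
    (contDiffAt_const.add contDiffAt_fst).add ((e1.sub e2).div_const _)
  have e6 : ContDiffAt ℝ ∞ (fun q : ℝ × E3 => (24 * Real.sqrt 3 /
      (lkn_S q.2 * ‖2 + ex q.1 / ((lkn_S q.2 : ℝ) : ℂ)‖)) • q.2) q := by
    have e7 : ContDiffAt ℝ ∞ (fun q : ℝ × E3 => 24 * Real.sqrt 3 /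
        (lkn_S q.2 * ‖2 + ex q.1 / ((lkn_S q.2 : ℝ) : ℂ)‖)) q := by
      refine contDiffAt_const.div (e4.mul e3) ?_
      exact mul_ne_zero (lkn_S_pos _).ne' (norm_pos_iff.2 (lkn_ne hnB)).ne'
    exact e7.smul contDiffAt_snd
  exact e5.prodMk e6

theorem lkn_mob_ne {w : ℂ} (h : ‖w‖ = 1) : 2 + w ≠ 0 := lkn_ne (lkn_reB h.le)

theorem lN_ex (t : ℝ) : (lN (t, 0)).2 = 0 ∧ ex (lN (t, 0)).1 = -(1 + 2 * ex t) / (2 + ex t) := by
  have h1 : lkn_S (0 : E3) = 1 := lkn_S_zero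
  refine ⟨?_, ?_⟩
  · rw [lkn_eq]
    exact smul_zero _
  · have hA : 2 + ex (-t) ≠ 0 := lkn_mob_ne (RSG.ex_norm _)
    have hB : 2 + ex t ≠ 0 := lkn_mob_ne (RSG.ex_norm _)
    have h2 := lkn_ex1 (t, 0) (by
      change 2 + ex (-t) * ((lkn_S (0 : E3) : ℝ) : ℂ) ≠ 0
      rw [h1, Complex.ofReal_one, mul_one]
      exact hA)
    change ex (lN (t, 0)).1 = -(ex t * ((2 + ex (-t) * ((lkn_S (0 : E3) : ℝ) : ℂ)) /
      (‖2 + ex (-t) * ((lkn_S (0 : E3) : ℝ) : ℂ)‖ : ℂ)) *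
      ((‖2 + ex t / ((lkn_S (0 : E3) : ℝ) : ℂ)‖ : ℂ) / (2 + ex t / ((lkn_S (0 : E3) : ℝ) : ℂ)))) at h2
    rw [h1, Complex.ofReal_one, mul_one, div_one] at h2
    rw [h2]
    have h3 : ‖2 + ex (-t)‖ = ‖2 + ex t‖ := by
      have h4 : 2 + ex (-t) = (starRingEnd ℂ) (2 + ex t) := by
        have h5 : (starRingEnd ℂ) (2 : ℂ) = 2 := Complex.conj_ofNat 2
        rw [RSG.ex_neg, map_add, h5]
      rw [h4, Complex.norm_conj]
    rw [h3]
    have h5 : (‖2 + ex t‖ : ℂ) ≠ 0 := by exact_mod_cast (norm_pos_iff.2 hB).ne'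
    have h6 : ex t * ex (-t) = 1 := by rw [← RSG.ex_add, add_neg_cancel, RSG.ex_zero]
    field_simp
    linear_combination -h6

theorem lN_per (t : ℝ) (m : ℤ) (Z : E3) : lN (t + m, Z) = ((lN (t, Z)).1 + m, (lN (t, Z)).2) := by
  have h1 : ex (t + m) = ex t := RSG.ex_add_int t m
  have h2 : ex (-(t + m)) = ex (-t) := by
    have := RSG.ex_add_int (-t) (-m)
    push_cast at this
    rw [← this]
    congr 1
    ring
  rw [lkn_eq, lkn_eq]
  simp only [h1, h2]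
  congr 1
  ring

theorem lN_inj {t t' : ℝ} (h : ∃ m : ℤ, (lN (t', 0)).1 = (lN (t, 0)).1 + m) : ∃ m : ℤ, t' = t + m := by
  obtain ⟨m, hm⟩ := h
  have h1 : ex (lN (t', 0)).1 = ex (lN (t, 0)).1 := by rw [hm, RSG.ex_add_int]
  rw [(lN_ex t').2, (lN_ex t).2] at h1
  have hA : 2 + ex t' ≠ 0 := lkn_mob_ne (RSG.ex_norm _)
  have hB : 2 + ex t ≠ 0 := lkn_mob_ne (RSG.ex_norm _)
  have h2 : ex t = ex t' := by
    rw [div_eq_div_iff hA hB] at h1
    have h3 : 3 * (ex t - ex t') = 0 := by linear_combination h1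
    have h4 : ex t - ex t' = 0 := by
      rcases mul_eq_zero.1 h3 with h5 | h5
      · norm_num at h5
      · exact h5
    exact sub_eq_zero.1 h4
  exact RSG.ex_eq_iff.1 h2

theorem lN_surj (l : ℝ) : ∃ t : ℝ, (lN (t, 0)).1 = l := by
  have hB : 2 + ex l ≠ 0 := lkn_mob_ne (RSG.ex_norm _)
  have hn : ‖-(1 + 2 * ex l) / (2 + ex l)‖ = 1 := by
    have h1 := (lN_ex l).2
    rw [← h1, RSG.ex_norm]
  obtain ⟨t, ht⟩ := RSG.ex_surj hn
  have h1 := (lN_ex t).2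
  have h2 : ex (lN (t, 0)).1 = ex l := by
    have hA : 2 + ex t ≠ 0 := lkn_mob_ne (RSG.ex_norm _)
    rw [h1, div_eq_iff hA, ← ht]
    field_simp
    ring
  obtain ⟨m, hm⟩ := RSG.ex_eq_iff.1 h2
  refine ⟨t + m, ?_⟩
  rw [lN_per]
  exact hm.symm

theorem lN_ld (t : ℝ) : IsLocalDiffeomorphAt 𝓘(ℝ, ℝ × E3) 𝓘(ℝ, ℝ × E3) ∞ lN (t, 0) := by
  have hS0 : lkn_S (0 : E3) = 1 := lkn_S_zero
  have hScont : Continuous lkn_S := by
    unfold lkn_S
    fun_prop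
  have hop : ∀ᶠ q : ℝ × E3 in 𝓝 (t, 0), lkn_S q.2 < 2 := by
    have h1 : Continuous fun q : ℝ × E3 => lkn_S q.2 := hScont.comp continuous_snd
    have h2 : lkn_S ((t, (0 : E3)) : ℝ × E3).2 < 2 := by
      change lkn_S 0 < 2
      rw [hS0]
      norm_num
    exact h1.continuousAt.eventually_lt continuousAt_const h2
  refine CSG.ld_of_fderiv (hop.mono fun q hq => lkn_smooth hq) rfl ?_
  rintro ⟨τ, X⟩ hv
  have hd : HasFDerivAt lN (fderiv ℝ lN (t, 0)) (t, 0) := by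
    have h1 : ContDiffAt ℝ ∞ lN (t, 0) := hop.self_of_nhds |> lkn_smooth
    exact (h1.differentiableAt (by simp)).hasFDerivAt
  set D := fderiv ℝ lN (t, 0) with hD
  -- the direction of the circle
  have hc1 : HasDerivAt (fun s : ℝ => lN (s, 0)) (D (1, 0)) t := by
    have h1 : HasDerivAt (fun s : ℝ => ((s, 0) : ℝ × E3)) ((1 : ℝ), (0 : E3)) t :=
      (hasDerivAt_id t).prodMk (hasDerivAt_const t _)
    exact hd.comp_hasDerivAt t h1
  have h2 : (D (1, 0)).2 = 0 := by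
    have h3 : HasDerivAt (fun s : ℝ => (lN (s, 0)).2) ((D (1, 0)).2) t := hc1.snd
    have h4 : (fun s : ℝ => (lN (s, 0)).2) = fun _ => 0 := funext fun s => (lN_ex s).1
    rw [h4] at h3
    exact h3.unique (hasDerivAt_const t _)
  have h1 : (D (1, 0)).1 ≠ 0 := by
    intro h0
    have h3 : HasDerivAt (fun s : ℝ => (lN (s, 0)).1) ((D (1, 0)).1) t := hc1.fst
    rw [h0] at h3
    have hex : ∀ x : ℝ, HasDerivAt ex (2 * Real.pi * Complex.I * ex x) x := by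
      intro x
      have e1 : HasDerivAt (fun x : ℝ => ((2 * Real.pi * x : ℝ) : ℂ) * Complex.I) (2 * Real.pi * Complex.I) x := by
        have e2 : HasDerivAt (fun x : ℝ => (2 * Real.pi * x : ℝ)) (2 * Real.pi) x := by
          have := (hasDerivAt_id x).const_mul (2 * Real.pi)
          rwa [mul_one] at this
        have e3 := e2.ofReal_comp.mul_const Complex.I
        push_cast at e3 ⊢
        exact e3
      have e4 : HasDerivAt ex (Complex.exp (((2 * Real.pi * x : ℝ) : ℂ) * Complex.I) * (2 * Real.pi * Complex.I)) x :=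
        e1.cexp
      have e5 : Complex.exp (((2 * Real.pi * x : ℝ) : ℂ) * Complex.I) * (2 * Real.pi * Complex.I) =
          2 * Real.pi * Complex.I * ex x := mul_comm _ _
      rwa [e5] at e4
    have h4 : HasDerivAt (fun s : ℝ => ex (lN (s, 0)).1) 0 t := by
      have h5 := (hex (lN (t, 0)).1).scomp t h3
      rw [zero_smul] at h5
      exact h5
    have h5 : (fun s : ℝ => ex (lN (s, 0)).1) = fun s => -(1 + 2 * ex s) / (2 + ex s) := funext fun s => (lN_ex s).2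
    rw [h5] at h4
    have hB : 2 + ex t ≠ 0 := lkn_mob_ne (RSG.ex_norm _)
    have h6 : HasDerivAt (fun s : ℝ => -(1 + 2 * ex s) / (2 + ex s))
        ((-(2 * (2 * Real.pi * Complex.I * ex t)) * (2 + ex t) - -(1 + 2 * ex t) * (2 * Real.pi * Complex.I * ex t)) /
          (2 + ex t) ^ 2) t := by
      have e1 : HasDerivAt (fun s : ℝ => -(1 + 2 * ex s)) (-(2 * (2 * Real.pi * Complex.I * ex t))) t :=
        (((hex t).const_mul 2).const_add 1).neg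
      have e2 : HasDerivAt (fun s : ℝ => 2 + ex s) (2 * Real.pi * Complex.I * ex t) t := (hex t).const_add 2
      exact e1.div e2 hB
    have h7 := h4.unique h6
    have h8 : (-(2 * (2 * Real.pi * Complex.I * ex t)) * (2 + ex t) - -(1 + 2 * ex t) * (2 * Real.pi * Complex.I * ex t)) =
        0 := by
      have h9 := (div_eq_zero_iff.1 h7.symm)
      rcases h9 with h9 | h9
      · exact h9
      · exact absurd (pow_eq_zero_iff (two_ne_zero) |>.1 h9) hB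
    have h10 : -(6 * Real.pi) * Complex.I * ex t = 0 := by linear_combination h8
    have h11 : (-(6 * Real.pi) : ℂ) * Complex.I ≠ 0 :=
      mul_ne_zero (neg_ne_zero.2 (mul_ne_zero (by norm_num) (by exact_mod_cast Real.pi_ne_zero))) Complex.I_ne_zero
    exact (mul_ne_zero h11 (RSG.ex_ne t)) h10
  -- the normal directions
  have hc2 : HasDerivAt (fun s : ℝ => lN (t, s • X)) (D (0, X)) 0 := by
    have h3 : HasDerivAt (fun s : ℝ => ((t, s • X) : ℝ × E3)) ((0 : ℝ), X) 0 := by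
      have e1 : HasDerivAt (fun s : ℝ => s • X) X 0 := by
        have := (hasDerivAt_id (0 : ℝ)).smul_const X
        rwa [one_smul] at this
      exact (hasDerivAt_const (0 : ℝ) t).prodMk e1
    have h4 : HasFDerivAt lN D ((fun s : ℝ => ((t, s • X) : ℝ × E3)) 0) := by
      change HasFDerivAt lN D (t, (0 : ℝ) • X)
      rw [zero_smul]
      exact hd
    exact h4.comp_hasDerivAt 0 h3
  have hSe : ∀ s : ℝ, lkn_S (-s • X) = lkn_S (s • X) := by
    intro s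
    unfold lkn_S
    rw [norm_smul, norm_smul, norm_neg]
  have h3 : (D (0, X)).1 = 0 := by
    have e1 : HasDerivAt (fun s : ℝ => (lN (t, s • X)).1) ((D (0, X)).1) 0 := hc2.fst
    have e2 : HasDerivAt (fun s : ℝ => (lN (t, -s • X)).1) (-(D (0, X)).1) 0 := by
      have e3 : HasDerivAt (fun s : ℝ => -s) (-1) (0 : ℝ) := (hasDerivAt_id 0).neg
      have e4 : HasDerivAt (fun s : ℝ => (lN (t, s • X)).1) ((D (0, X)).1) ((fun s : ℝ => -s) 0) := by
        change HasDerivAt _ _ (-0 : ℝ)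
        rw [neg_zero]
        exact e1
      have e5 := e4.comp (0 : ℝ) e3
      rw [mul_neg, mul_one] at e5
      exact e5
    have e3 : (fun s : ℝ => (lN (t, -s • X)).1) = fun s : ℝ => (lN (t, s • X)).1 := by
      funext s
      rw [lkn_eq, lkn_eq]
      change 1 / 2 + t + (Complex.arg (2 + ex (-t) * ((lkn_S (-s • X) : ℝ) : ℂ)) -
        Complex.arg (2 + ex t / ((lkn_S (-s • X) : ℝ) : ℂ))) / (2 * Real.pi) = 1 / 2 + t +
        (Complex.arg (2 + ex (-t) * ((lkn_S (s • X) : ℝ) : ℂ)) -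
        Complex.arg (2 + ex t / ((lkn_S (s • X) : ℝ) : ℂ))) / (2 * Real.pi)
      rw [hSe]
    rw [e3] at e2
    have e4 := e1.unique e2
    linarith
  have h4 : (D (0, X)).2 = (24 * Real.sqrt 3 / ‖2 + ex t‖) • X := by
    have e1 : HasDerivAt (fun s : ℝ => (lN (t, s • X)).2) ((D (0, X)).2) 0 := hc2.snd
    have e2 : HasDerivAt (fun s : ℝ => (lN (t, s • X)).2) ((24 * Real.sqrt 3 / ‖2 + ex t‖) • X) 0 := by
      set c : ℝ → ℝ := fun s => 24 * Real.sqrt 3 / (lkn_S (s • X) * ‖2 + ex t / ((lkn_S (s • X) : ℝ) : ℂ)‖) with hc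
      have hcc : Continuous c := by
        have f1 : Continuous fun s : ℝ => lkn_S (s • X) := hScont.comp (continuous_id.smul continuous_const)
        have f2 : Continuous fun s : ℝ => ((lkn_S (s • X) : ℝ) : ℂ) := Complex.continuous_ofReal.comp f1
        refine continuous_const.div (f1.mul ?_) ?_
        · refine Continuous.norm (continuous_const.add (continuous_const.div f2 ?_))
          intro s
          exact_mod_cast (lkn_S_pos _).ne'
        · intro s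
          exact mul_ne_zero (lkn_S_pos _).ne' (norm_pos_iff.2 (lkn_ne (lkn_B_re _ _))).ne'
      have hc0 : c 0 = 24 * Real.sqrt 3 / ‖2 + ex t‖ := by
        rw [hc]
        change 24 * Real.sqrt 3 / (lkn_S ((0 : ℝ) • X) * ‖2 + ex t / ((lkn_S ((0 : ℝ) • X) : ℝ) : ℂ)‖) = _
        rw [zero_smul, hS0, Complex.ofReal_one, div_one, one_mul]
      have e3 : (fun s : ℝ => (lN (t, s • X)).2) = fun s => (c s * s) • X := by
        funext s
        rw [lkn_eq]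
        change c s • s • X = _
        rw [smul_smul]
      rw [e3, ← hc0]
      have e4 : HasDerivAt (fun s : ℝ => c s * s) (c 0) 0 := by
        rw [hasDerivAt_iff_tendsto_slope]
        have e5 : Tendsto c (𝓝[≠] 0) (𝓝 (c 0)) := hcc.continuousAt.tendsto.mono_left nhdsWithin_le_nhds
        refine e5.congr' ?_
        filter_upwards [self_mem_nhdsWithin] with s hs
        have hs' : s ≠ 0 := hs
        rw [slope_def_field, mul_zero, sub_zero, sub_zero, mul_div_assoc, div_self hs', mul_one]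
      exact e4.smul_const X
    exact e1.unique e2
  have h5 : D (τ, X) = τ • D (1, 0) + D (0, X) := by
    rw [← map_smul, ← map_add]
    congr 1
    simp
  rw [h5] at hv
  have h6 : τ * (D (1, 0)).1 + (D (0, X)).1 = 0 := congrArg Prod.fst hv
  have h7 : τ • (D (1, 0)).2 + (D (0, X)).2 = 0 := congrArg Prod.snd hv
  rw [h3, add_zero] at h6
  rw [h2, smul_zero, zero_add, h4] at h7
  have hτ : τ = 0 := by
    rcases mul_eq_zero.1 h6 with h8 | h8
    · exact h8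
    · exact absurd h8 h1
  have hX : X = 0 := by
    rcases smul_eq_zero.1 h7 with h8 | h8
    · exfalso
      have h9 : 0 < 24 * Real.sqrt 3 / ‖2 + ex t‖ :=
        div_pos (by positivity) (norm_pos_iff.2 (lkn_mob_ne (RSG.ex_norm _)))
      exact h9.ne' h8
    · exact h8
  rw [hτ, hX]
  rfl

section
variable {M : Type*} [TopologicalSpace M] [ChartedSpace E4 M] {k₁ k₂ : ℝ × E3 → M} {ε : ℝ} {mp : ℂ × S2 → M} {ρ₀ : ℝ × E3 → M}

theorem lN_glue (D : DM k₁ k₂ ε mp ρ₀) (l : ℝ) {r : ℝ} (hr : 0 < r) (h : r < 1 / 64) (v : S2) :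
    ρ₀ (lN (l, r • v.1)) = mp (Kp ((r⁻¹ : ℝ) * ex l / 32), v) := by
  set Z : E3 := r • v.1 with hZ
  have hvn : ‖v.1‖ = 1 := by
    have h1 := v.2
    rwa [mem_sphere_zero_iff_norm] at h1
  have hZn : ‖Z‖ = r := by rw [hZ, norm_smul, hvn, mul_one, Real.norm_of_nonneg hr.le]
  set S : ℝ := lkn_S Z with hSd
  have hS1 : 1 ≤ S := lkn_S_one Z
  have hS0 : 0 < S := lkn_S_pos Z
  have hSq : S ^ 2 = 1 + 576 * r ^ 2 := by rw [hSd, lkn_S_sq, hZn]
  have hS2 : S < 2 := by nlinarith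
  set A : ℂ := 2 + ex (-l) * ((S : ℝ) : ℂ) with hA
  set B : ℂ := 2 + ex l / ((S : ℝ) : ℂ) with hB
  have hAre : 0 < A.re := lkn_reA (by rw [lkn_nA]; exact hS2)
  have hBre : 0 < B.re := lkn_B_re _ _
  have hA0 : 0 < ‖A‖ := norm_pos_iff.2 (lkn_ne hAre)
  have hB0 : 0 < ‖B‖ := norm_pos_iff.2 (lkn_ne hBre)
  have hSc : ((S : ℝ) : ℂ) ≠ 0 := by exact_mod_cast hS0.ne'
  have hex := lkn_ex1 (l, Z) (lkn_ne hAre)
  change ex (lN (l, Z)).1 = -(ex l * (A / (‖A‖ : ℂ)) * ((‖B‖ : ℂ) / B)) at hex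
  set r' : ℝ := 24 * Real.sqrt 3 * r / (S * ‖B‖) with hr'
  have h3 : 0 < Real.sqrt 3 := Real.sqrt_pos.2 (by norm_num)
  have h33 : Real.sqrt 3 ^ 2 = 3 := Real.sq_sqrt (by norm_num)
  have hr'0 : 0 < r' := by positivity
  have hsnd : (lN (l, Z)).2 = r' • v.1 := by
    rw [lkn_eq]
    change (24 * Real.sqrt 3 / (S * ‖B‖)) • (r • v.1) = _
    rw [smul_smul, hr']
    congr 1
    ring
  have hl : lN (l, Z) = ((lN (l, Z)).1, r' • v.1) := by rw [← hsnd]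
  -- norms
  have hl2 : (ex l).re ^ 2 + (ex l).im ^ 2 = 1 := by
    rw [RSG.ex_re, RSG.ex_im]
    exact Real.cos_sq_add_sin_sq _
  have hnA : ‖A‖ ^ 2 = 4 + 4 * S * (ex l).re + S ^ 2 := by
    rw [Complex.sq_norm, Complex.normSq_apply, hA, RSG.ex_neg]
    simp only [Complex.add_re, Complex.add_im, Complex.mul_re, Complex.mul_im, Complex.conj_re, Complex.conj_im,
      Complex.re_ofNat, Complex.im_ofNat, Complex.ofReal_re, Complex.ofReal_im]
    linear_combination S ^ 2 * hl2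
  have hnB : S ^ 2 * ‖B‖ ^ 2 = 4 * S ^ 2 + 4 * S * (ex l).re + 1 := by
    have e1 : S * ‖B‖ = ‖2 * ((S : ℝ) : ℂ) + ex l‖ := by
      have e2 : 2 * ((S : ℝ) : ℂ) + ex l = ((S : ℝ) : ℂ) * B := by
        rw [hB]
        field_simp
      rw [e2, norm_mul, Complex.norm_real, Real.norm_of_nonneg hS0.le]
    rw [← mul_pow, e1, Complex.sq_norm, Complex.normSq_apply]
    simp only [Complex.add_re, Complex.add_im, Complex.mul_re, Complex.mul_im,
      Complex.re_ofNat, Complex.im_ofNat, Complex.ofReal_re, Complex.ofReal_im]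
    linear_combination hl2
  have hB1 : 1 ≤ S * ‖B‖ := by
    have e1 : -1 ≤ (ex l).re := by
      have e2 := Complex.abs_re_le_norm (ex l)
      rw [RSG.ex_norm] at e2
      exact (abs_le.1 e2).1
    have e2 : 1 ≤ (S * ‖B‖) ^ 2 := by
      rw [mul_pow, hnB]
      nlinarith
    have e3 : 0 < S * ‖B‖ := by positivity
    nlinarith
  have hr'4 : r' < 4 / 5 := by
    have e1 : r' ≤ 24 * Real.sqrt 3 * r := by
      rw [hr']
      exact div_le_self (by positivity) hB1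
    have e2 : Real.sqrt 3 < 2 := by
      rw [Real.sqrt_lt' (by norm_num)]
      norm_num
    nlinarith
  have hroot : Real.sqrt (1 - r' ^ 2) = ‖A‖ / (S * ‖B‖) := by
    have e1 : 1 - r' ^ 2 = (‖A‖ / (S * ‖B‖)) ^ 2 := by
      have e2 : 0 < S * ‖B‖ := by positivity
      rw [hr', div_pow, div_pow, eq_div_iff (by positivity), sub_mul, div_mul_cancel₀ _ (by positivity), one_mul]
      rw [mul_pow, hnB, hnA, mul_pow, mul_pow, h33]
      linear_combination 3 * hSq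
    rw [e1, Real.sqrt_sq (by positivity)]
  rw [hl, D.glue₀ _ _ _ hr'0 hr'4, hroot, hex]
  congr 2
  -- the value of Kp
  have hn : ‖((r⁻¹ : ℝ) : ℂ) * ex l / 32‖ ^ 2 = 1 / (1024 * r ^ 2) := by
    rw [norm_div, norm_mul, RSG.ex_norm, mul_one, Complex.norm_real, Real.norm_of_nonneg (by positivity),
      Complex.norm_ofNat]
    field_simp
    norm_num
  have hlarge : 3 / 32 ≤ ‖((r⁻¹ : ℝ) : ℂ) * ex l / 32‖ ^ 2 := by
    rw [hn, le_div_iff₀ (by positivity)]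
    nlinarith
  rw [Kp_large hlarge, hn]
  have hq : Real.sqrt (9 / 16 + 1 / (1024 * r ^ 2)) = S / (32 * r) := by
    have e1 : 9 / 16 + 1 / (1024 * r ^ 2) = (S / (32 * r)) ^ 2 := by
      rw [div_pow, hSq]
      field_simp
      ring
    rw [e1, Real.sqrt_sq (by positivity)]
  rw [hq]
  have hw : ((r⁻¹ : ℝ) : ℂ) * ex l / 32 / ((S / (32 * r) : ℝ) : ℂ) = ex l / ((S : ℝ) : ℂ) := by
    have e1 : (r : ℂ) ≠ 0 := by exact_mod_cast hr.ne'
    push_cast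
    field_simp
  rw [hw]
  have hBne : B ≠ 0 := lkn_ne hBre
  have hAc : (‖A‖ : ℂ) ≠ 0 := by exact_mod_cast hA0.ne'
  have hBc : (‖B‖ : ℂ) ≠ 0 := by exact_mod_cast hB0.ne'
  have h6 : ex l * ex (-l) = 1 := by rw [← RSG.ex_add, add_neg_cancel, RSG.ex_zero]
  have hAe : ex l * A = 2 * ex l + ((S : ℝ) : ℂ) := by
    rw [hA]
    linear_combination ((S : ℝ) : ℂ) * h6
  push_cast
  change _ = -(1 + 2 * (ex l / ((S : ℝ) : ℂ))) / B
  rw [eq_div_iff hBne]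
  have e7 : (‖A‖ : ℂ) / (((S : ℝ) : ℂ) * (‖B‖ : ℂ)) * -(ex l * (A / (‖A‖ : ℂ)) * ((‖B‖ : ℂ) / B)) * B =
      -(ex l * A) / ((S : ℝ) : ℂ) := by
    field_simp
  rw [e7, hAe]
  field_simp
  ring

end

end Pool.Agent.MMV
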