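import Pool.Agent.MMV.LKN
import Pool.Agent.MMV.LJ0

/-!
# MMV/LKb: the chart `KL : S³ × S¹ - {pol (-32, v)} → M - k₂`   (difficulty 3)

`KL_tubS`, `KL_tubN`, `KL_pol`: LGm (`lN_per`, `D.ρ_per`, `(lN (t, 0)).2 = 0`).  `KL_ld`: at `pol (W, v)`, `W ≠ 0, -32`: `mp` composed with `(Kp (W/32), v)`, `Kp (W/32) ≠ -1/2, 1/2` (`Kp_ne`, `Kp_half`), `|..| < 1`.  At `tubS (t, 0)`: `gmap_ld_S`, `k₁ (l + 1/2, (r/32) v) = mp (-1/2 - (r/32) ex l, v) = mp (Kp (r ex l/32), v)`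
for `r/32 ≤ 1/16`, `r/32 < ε` (`Kp_small`, `glue₁`); at `tubN (t, 0)`: `gmap_ld_N` with `δ = 1/64`, `lN_ld`, `D.ρ_loc`, `lN_glue`.  The points `tubS (t, 0)`, `tubN (t, 0)` are not of the form `pol (-32, v)`.
`KL_inj`, `KL_ne`, `KL_cover`: the three pieces (`SP_cover`), `Kp_inj`, `Kp_surj`, `D.mp_inj`, `D.ρ_inj` with `lN_inj`, `lN_surj`, `D.thick₁.inj`, `D.d01`, `d02`, `d12`, `dm`, `D.cover`.
`KL_J0`: `Y = 0`: both are `k₁ (t + 1/2, 0)`; `Y = r v`, `r ≤ 1/16`: `KL (pol (32 r ex t, v)) = mp (Kp (r ex t), v) = mp (-1/2 - r ex t, v) = mp (V0 (r ex t), v)`.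
-/

open scoped ContDiff Manifold Topology unitInterval
open Set Filter
open Pool.Agent.RSG (E3 E4 S2 S3 S4 ex cj c1 c2 ht fh pS2 pS3 pS4)
open Pool.Agent.RBM (ThickT OnT Box)
open Pool.Agent.LKF (OnF)
open Pool.Agent.PTH (SP ISP)
open Pool.Agent.KNH (circ)
open Pool.Agent.LKT (s1 s2 dir)

namespace Pool.Agent.MMV

theorem lkb_per {α : Type*} {f : ℝ → α} (h : ∀ x, f (x + 1) = f x) (x : ℝ) (m : ℤ) : f (x + m) = f x := by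
  have h1 : Function.Periodic f 1 := h
  have := h1.int_mul m x
  simpa using this

theorem lkb_aff (q : ℝ × E3) : IsLocalDiffeomorphAt 𝓘(ℝ, ℝ × E3) 𝓘(ℝ, ℝ × E3) ∞
    (fun q : ℝ × E3 => (q.1 + 1 / 2, (1 / 32 : ℝ) • q.2)) q := by
  have h1 : ContDiff ℝ ∞ (fun q : ℝ × E3 => (q.1 + 1 / 2, (1 / 32 : ℝ) • q.2)) :=
    (contDiff_fst.add contDiff_const).prodMk (contDiff_snd.const_smul _)
  have h2 : ContDiff ℝ ∞ (fun q : ℝ × E3 => (q.1 - 1 / 2, (32 : ℝ) • q.2)) :=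
    (contDiff_fst.sub contDiff_const).prodMk (contDiff_snd.const_smul _)
  refine RSG.ld_two (g := fun q : ℝ × E3 => (q.1 - 1 / 2, (32 : ℝ) • q.2)) ?_ ?_ ?_ ?_
  · exact Eventually.of_forall fun w => h1.contMDiff w
  · exact Eventually.of_forall fun w => h2.contMDiff w
  · refine Eventually.of_forall fun w => ?_
    refine Prod.ext ?_ ?_
    · show w.1 + 1 / 2 - 1 / 2 = w.1
      ring
    · show (32 : ℝ) • ((1 / 32 : ℝ) • w.2) = w.2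
      rw [smul_smul]
      norm_num
  · refine Eventually.of_forall fun w => ?_
    refine Prod.ext ?_ ?_
    · show w.1 - 1 / 2 + 1 / 2 = w.1
      ring
    · show (1 / 32 : ℝ) • ((32 : ℝ) • w.2) = w.2
      rw [smul_smul]
      norm_num

theorem lkb_div (z : ℂ) : IsLocalDiffeomorphAt 𝓘(ℝ, ℂ) 𝓘(ℝ, ℂ) ∞ (fun z : ℂ => z / 32) z := by
  have h1 : ContDiff ℝ ∞ (fun z : ℂ => z / 32) := contDiff_id.div_const _
  have h2 : ContDiff ℝ ∞ (fun z : ℂ => z * 32) := contDiff_id.mul contDiff_const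
  refine RSG.ld_two (g := fun z : ℂ => z * 32) ?_ ?_ ?_ ?_
  · exact Eventually.of_forall fun w => h1.contMDiff w
  · exact Eventually.of_forall fun w => h2.contMDiff w
  · exact Eventually.of_forall fun w => div_mul_cancel₀ w (by norm_num)
  · exact Eventually.of_forall fun w => mul_div_cancel_right₀ w (by norm_num)

theorem lkb_half (l : ℝ) : ex (l + 1 / 2) = -ex l := by
  rw [RSG.ex_add, RSG.ex_half, mul_neg, mul_one]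

theorem lkb_nrm {r : ℝ} (hr : 0 < r) (l : ℝ) : ‖(r : ℂ) * ex l‖ = r := by
  rw [norm_mul, RSG.ex_norm, mul_one, Complex.norm_real, Real.norm_eq_abs, abs_of_pos hr]

theorem lkb_ne {r : ℝ} (hr : 0 < r) (l : ℝ) : (r : ℂ) * ex l ≠ 0 := by
  rw [← norm_pos_iff, lkb_nrm hr]
  exact hr

section
variable {M : Type*} [TopologicalSpace M] [ChartedSpace E4 M] {k₁ k₂ : ℝ × E3 → M} {ε : ℝ} {mp : ℂ × S2 → M} {ρ₀ : ℝ × E3 → M}

theorem lkb_k (D : DM k₁ k₂ ε mp ρ₀) (t : ℝ) (n : ℤ) : k₁ (t + n, 0) = k₁ (t, 0) := by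
  refine lkb_per (f := fun x => k₁ (x, 0)) (fun x => D.thick₁.per x 0 ?_) t n
  rw [norm_zero]
  exact D.thick₁.pos

theorem lkb_a (D : DM k₁ k₂ ε mp ρ₀) (t : ℝ) (n : ℤ) :
    (fun q : ℝ × E3 => k₁ (q.1 + 1 / 2, (1 / 32 : ℝ) • q.2)) (t + n, 0) =
      (fun q : ℝ × E3 => k₁ (q.1 + 1 / 2, (1 / 32 : ℝ) • q.2)) (t, 0) := by
  show k₁ (t + n + 1 / 2, (1 / 32 : ℝ) • (0 : E3)) = k₁ (t + 1 / 2, (1 / 32 : ℝ) • (0 : E3))
  rw [smul_zero, add_right_comm, lkb_k D]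

theorem lkb_r (D : DM k₁ k₂ ε mp ρ₀) (t : ℝ) (n : ℤ) : ρ₀ (t + n, 0) = ρ₀ (t, 0) := by
  refine lkb_per (f := fun x => ρ₀ (x, 0)) (fun x => D.ρ_per x 0 ?_) t n
  rw [norm_zero]
  norm_num

theorem lkb_lN (t : ℝ) : lN (t, 0) = ((lN (t, 0)).1, 0) := Prod.ext rfl (lN_ex t).1

theorem lkb_b (D : DM k₁ k₂ ε mp ρ₀) (t : ℝ) (n : ℤ) :
    (fun q : ℝ × E3 => ρ₀ (lN q)) (t + n, 0) = (fun q : ℝ × E3 => ρ₀ (lN q)) (t, 0) := by
  show ρ₀ (lN (t + n, 0)) = ρ₀ (lN (t, 0))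
  rw [lN_per, (lN_ex t).1, lkb_r D, ← lkb_lN]

theorem KL_tubS (D : DM k₁ k₂ ε mp ρ₀) (t : ℝ) : KL k₁ mp ρ₀ (tubS (t, 0)) = k₁ (t + 1 / 2, 0) := by
  unfold KL
  rw [gmap_tubS (lkb_a D) t]
  show k₁ (t + 1 / 2, (1 / 32 : ℝ) • (0 : E3)) = k₁ (t + 1 / 2, 0)
  rw [smul_zero]

theorem KL_tubN (D : DM k₁ k₂ ε mp ρ₀) (t : ℝ) : KL k₁ mp ρ₀ (tubN (t, 0)) = ρ₀ ((lN (t, 0)).1, 0) := by
  unfold KL
  rw [gmap_tubN (lkb_b D) t]
  show ρ₀ (lN (t, 0)) = ρ₀ ((lN (t, 0)).1, 0)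
  rw [← lkb_lN]

theorem KL_pol (k₁ : ℝ × E3 → M) (mp : ℂ × S2 → M) (ρ₀ : ℝ × E3 → M) {W : ℂ} (h : W ≠ 0) (v : S2) :
    KL k₁ mp ρ₀ (pol (W, v)) = mp (Kp (W / 32), v) := by
  unfold KL
  rw [gmap_pol h]

theorem lkb_W {W : ℂ} (h : W ≠ 0) (h' : W ≠ -32) :
    ‖Kp (W / 32)‖ < 1 ∧ Kp (W / 32) ≠ -1 / 2 ∧ Kp (W / 32) ≠ 1 / 2 := by
  have h0 : W / 32 ≠ 0 := div_ne_zero h (by norm_num)
  refine ⟨Kp_lt h0, Kp_ne h0, fun he => h' ?_⟩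
  have := (Kp_half h0).1 he
  rw [div_eq_iff (by norm_num)] at this
  rw [this]
  norm_num

theorem KL_ld (D : DM k₁ k₂ ε mp ρ₀) {p : SP} (hp : ∀ v, p ≠ pol (-32, v)) :
    IsLocalDiffeomorphAt ISP (𝓡 4) ∞ (KL k₁ mp ρ₀) p := by
  have hε := D.thick₁.pos
  rcases SP_cover p with ⟨t, rfl⟩ | ⟨t, rfl⟩ | ⟨W, v, hW, rfl⟩
  · unfold KL
    refine gmap_ld_S (lkb_a D) (t := t) (δ := min ε 1) (lt_min hε one_pos) ?_ ?_
    · have h1 : IsLocalDiffeomorphAt 𝓘(ℝ, ℝ × E3) (𝓡 4) ∞ k₁ (t + 1 / 2, (1 / 32 : ℝ) • (0 : E3)) := by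
        refine D.thick₁.loc _ _ ?_
        rw [smul_zero, norm_zero]
        exact hε
      exact IsLocalDiffeomorphAt.comp (hf := lkb_aff (t, 0)) (hg := h1) ..
    · intro l r v hr hrδ
      have hr1 : r < ε := lt_of_lt_of_le hrδ (min_le_left _ _)
      have hr2 : r < 1 := lt_of_lt_of_le hrδ (min_le_right _ _)
      show k₁ (l + 1 / 2, (1 / 32 : ℝ) • (r • v.1)) = mp (Kp (r * ex l / 32), v)
      have hr32 : 0 < r / 32 := by positivity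
      have e0 : (r : ℂ) * ex l / 32 = ((r / 32 : ℝ) : ℂ) * ex l := by
        push_cast
        ring
      have e1 : (1 / 32 : ℝ) • (r • v.1) = (r / 32) • v.1 := by
        rw [smul_smul]
        congr 1
        ring
      rw [e1, D.glue₁ (l + 1 / 2) (r / 32) v hr32 (by linarith), lkb_half, e0, Kp_small (lkb_ne hr32 l) (by
        rw [lkb_nrm hr32]; linarith)]
      congr 2
      ring
  · unfold KL
    refine gmap_ld_N (lkb_b D) (t := t) (δ := 1 / 64) (by norm_num) ?_ ?_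
    · have h1 : IsLocalDiffeomorphAt 𝓘(ℝ, ℝ × E3) (𝓡 4) ∞ ρ₀ (lN (t, 0)) := by
        rw [lkb_lN]
        refine D.ρ_loc _ _ ?_
        rw [norm_zero]
        norm_num
      exact IsLocalDiffeomorphAt.comp (hf := lN_ld t) (hg := h1) ..
    · intro l r v hr hrδ
      exact lN_glue D l hr hrδ v
  · have hW' : W ≠ -32 := fun h => hp v (by rw [h])
    obtain ⟨k1, k2, k3⟩ := lkb_W hW hW'
    unfold KL
    refine gmap_ld_pol hW v ?_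
    have h1 : IsLocalDiffeomorphAt 𝓘(ℝ, ℂ) 𝓘(ℝ, ℂ) ∞ (Kp ∘ fun z : ℂ => z / 32) W :=
      IsLocalDiffeomorphAt.comp (hf := lkb_div W) (hg := Kp_ld (div_ne_zero hW (by norm_num))) ..
    have h2 : IsLocalDiffeomorphAt (𝓘(ℝ, ℂ).prod (𝓡 2)) (𝓘(ℝ, ℂ).prod (𝓡 2)) ∞
        (Prod.map (Kp ∘ fun z : ℂ => z / 32) (id : S2 → S2)) (W, v) := RSG.ld_prodMap h1 (CSG.ld_id v)
    have h3 : IsLocalDiffeomorphAt (𝓘(ℝ, ℂ).prod (𝓡 2)) (𝓡 4) ∞ mp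
        (Prod.map (Kp ∘ fun z : ℂ => z / 32) (id : S2 → S2) (W, v)) := D.mp_loc (Kp (W / 32)) v k1 k2 k3
    exact IsLocalDiffeomorphAt.comp (hf := h2) (hg := h3) ..

theorem KL_inj (D : DM k₁ k₂ ε mp ρ₀) {p p' : SP} (hp : ∀ v, p ≠ pol (-32, v)) (hp' : ∀ v, p' ≠ pol (-32, v))
    (h : KL k₁ mp ρ₀ p = KL k₁ mp ρ₀ p') : p = p' := by
  have hε := D.thick₁.pos
  have hz : ‖(0 : E3)‖ < ε := by rw [norm_zero]; exact hε
  rcases SP_cover p with ⟨t, rfl⟩ | ⟨t, rfl⟩ | ⟨W, v, hW, rfl⟩ <;>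
    rcases SP_cover p' with ⟨t', rfl⟩ | ⟨t', rfl⟩ | ⟨W', v', hW', rfl⟩
  · rw [KL_tubS D, KL_tubS D] at h
    obtain ⟨-, m, hm⟩ := D.thick₁.inj _ _ _ _ hz hz h
    have e : t' = t + m := by linarith
    rw [e, tubS_per]
  · rw [KL_tubS D, KL_tubN D] at h
    exact absurd h.symm (D.d01 _ _)
  · have hW2 : W' ≠ -32 := fun h => hp' v' (by rw [h])
    obtain ⟨k1, k2, k3⟩ := lkb_W hW' hW2
    rw [KL_tubS D, KL_pol _ _ _ hW'] at h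
    exact absurd h.symm (D.dm _ _ _ k1 k2 k3).2.1
  · rw [KL_tubN D, KL_tubS D] at h
    exact absurd h (D.d01 _ _)
  · rw [KL_tubN D, KL_tubN D] at h
    obtain ⟨m, hm⟩ := lN_inj (D.ρ_inj _ _ h)
    rw [hm, tubN_per]
  · have hW2 : W' ≠ -32 := fun h => hp' v' (by rw [h])
    obtain ⟨k1, k2, k3⟩ := lkb_W hW' hW2
    rw [KL_tubN D, KL_pol _ _ _ hW'] at h
    exact absurd h.symm (D.dm _ _ _ k1 k2 k3).1
  · have hW2 : W ≠ -32 := fun h => hp v (by rw [h])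
    obtain ⟨k1, k2, k3⟩ := lkb_W hW hW2
    rw [KL_tubS D, KL_pol _ _ _ hW] at h
    exact absurd h (D.dm _ _ _ k1 k2 k3).2.1
  · have hW2 : W ≠ -32 := fun h => hp v (by rw [h])
    obtain ⟨k1, k2, k3⟩ := lkb_W hW hW2
    rw [KL_tubN D, KL_pol _ _ _ hW] at h
    exact absurd h (D.dm _ _ _ k1 k2 k3).1
  · have hW2 : W ≠ -32 := fun h => hp v (by rw [h])
    have hW2' : W' ≠ -32 := fun h => hp' v' (by rw [h])
    obtain ⟨k1, k2, k3⟩ := lkb_W hW hW2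
    obtain ⟨k1', k2', k3'⟩ := lkb_W hW' hW2'
    rw [KL_pol _ _ _ hW, KL_pol _ _ _ hW'] at h
    obtain ⟨e1, e2⟩ := D.mp_inj _ _ _ _ k1 k2 k3 k1' k2' k3' h
    have e3 := Kp_inj (div_ne_zero hW (by norm_num)) (div_ne_zero hW' (by norm_num)) e1
    have e4 : W = W' := by
      have e5 := congrArg (fun z : ℂ => z * 32) e3
      simpa using e5
    rw [e4, e2]

theorem KL_ne (D : DM k₁ k₂ ε mp ρ₀) {p : SP} (hp : ∀ v, p ≠ pol (-32, v)) (l : ℝ) : KL k₁ mp ρ₀ p ≠ k₂ (l, 0) := by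
  rcases SP_cover p with ⟨t, rfl⟩ | ⟨t, rfl⟩ | ⟨W, v, hW, rfl⟩
  · rw [KL_tubS D]
    exact D.d12 _ _
  · rw [KL_tubN D]
    exact D.d02 _ _
  · have hW2 : W ≠ -32 := fun h => hp v (by rw [h])
    obtain ⟨k1, k2, k3⟩ := lkb_W hW hW2
    rw [KL_pol _ _ _ hW]
    exact (D.dm _ _ _ k1 k2 k3).2.2

theorem KL_cover (D : DM k₁ k₂ ε mp ρ₀) (m : M) :
    (∃ p : SP, (∀ v, p ≠ pol (-32, v)) ∧ m = KL k₁ mp ρ₀ p) ∨ ∃ l : ℝ, m = k₂ (l, 0) := by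
  have h32 : (-32 : ℂ) ≠ 0 := by norm_num
  rcases D.cover m with ⟨u, v, hu, h1, h2, rfl⟩ | ⟨l, rfl⟩ | ⟨l, rfl⟩ | ⟨l, rfl⟩
  · obtain ⟨W, hW, hWu⟩ := Kp_surj hu h1
    have hW0 : W * 32 ≠ 0 := mul_ne_zero hW (by norm_num)
    refine Or.inl ⟨pol (W * 32, v), ?_, ?_⟩
    · intro v' he
      have e1 := (pol_inj hW0 h32 he).1
      have e2 : W = -1 := by linear_combination e1 / 32
      rw [(Kp_half hW).2 e2] at hWu
      exact h2 hWu.symm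
    · rw [KL_pol _ _ _ hW0, mul_div_cancel_right₀ _ (by norm_num : (32 : ℂ) ≠ 0), hWu]
  · obtain ⟨t, ht⟩ := lN_surj l
    refine Or.inl ⟨tubN (t, 0), fun v => tubN_ne_pol t h32 v, ?_⟩
    rw [KL_tubN D, ht]
  · refine Or.inl ⟨tubS (l - 1 / 2, 0), fun v => tubS_ne_pol _ h32 v, ?_⟩
    rw [KL_tubS D, sub_add_cancel]
  · exact Or.inr ⟨l, rfl⟩

theorem KL_J0 (D : DM k₁ k₂ ε mp ρ₀) (t : ℝ) {Y : E3} (hY : ‖Y‖ ≤ 1 / 16) :
    KL k₁ mp ρ₀ (tubS (t, (32 : ℝ) • Y)) = J0 k₁ k₂ mp (tubS (t, Y)) := by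
  by_cases h0 : Y = 0
  · subst h0
    rw [smul_zero, KL_tubS D, J0_tubS D]
  · have hr : 0 < ‖Y‖ := norm_pos_iff.2 h0
    have hv1 : ‖‖Y‖⁻¹ • Y‖ = 1 := by
      rw [norm_smul, norm_inv, norm_norm, inv_mul_cancel₀ hr.ne']
    set v : S2 := ⟨‖Y‖⁻¹ • Y, by rw [mem_sphere_zero_iff_norm]; exact hv1⟩ with hv
    have hYv : Y = ‖Y‖ • v.1 := by
      show Y = ‖Y‖ • (‖Y‖⁻¹ • Y)
      rw [smul_smul, mul_inv_cancel₀ hr.ne', one_smul]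
    have h32 : 0 < 32 * ‖Y‖ := by positivity
    have e1 : tubS (t, (32 : ℝ) • Y) = pol (((32 * ‖Y‖ : ℝ) : ℂ) * ex t, v) := by
      rw [← tubS_pol t h32 v, mul_smul, ← hYv]
    have e2 : tubS (t, Y) = pol ((‖Y‖ : ℂ) * ex t, v) := by
      rw [← tubS_pol t hr v, ← hYv]
    have e3 : ((32 * ‖Y‖ : ℝ) : ℂ) * ex t / 32 = (‖Y‖ : ℂ) * ex t := by
      push_cast
      ring
    rw [e1, e2, KL_pol _ _ _ (lkb_ne h32 t), J0_pol _ _ _ (lkb_ne hr t), e3,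
      Kp_small (lkb_ne hr t) (by rw [lkb_nrm hr]; exact hY), V0_small (lkb_ne hr t) (by rw [lkb_nrm hr]; exact hY)]

end

end Pool.Agent.MMV
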