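import Pool.Agent.MMV.LSt

/-!
# MMV/LRd: the radial map `rad a b k : ℂ → unit disc`   (difficulty 3)

`rad W = W φ(|W|²)`, `φ(s) = 1 / √(k + s χ(k/s))`, `χ = cu a b`.  `k + s χ(k/s) ≥ k > 0`.  For `s ≤ k / b`: `χ(k/s) = 0` (`k/s ≥ b`; for `s = 0` the product is 0): `rad W = W / √k` (`rad_small`); for `s ≥ k / a`: `χ = 1` (`rad_large`).
For `s > 0`: `|rad W|² = s / (k + s χ(k/s)) = 1 / θ(k/s)`, `θ(x) = x + χ(x)`; by `cu_lip` and `b - a > 2`: `θ(x') - θ(x) ≥ (1 - 2/(b-a)) (x' - x)` for `x < x'`: `θ` is strictly increasing with `θ' > 0`; `θ(x) > 1` for `x > 0` (if `x ≤ a` then `χ = 1`; if `x > a`, `θ(x) > θ(a) = a + 1`).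
So `|rad W| < 1`, `|rad W|` is a strictly increasing function of `|W|`; with `rad_dir` (`rad W = φ W`, `φ > 0`) `rad` is injective.  `rad_surj`: continuity of `r ↦ |rad r|`, which is `0` at `0` and `r / √(k + r²)` for large `r`, tends to 1: intermediate value theorem, then `W = r u / |u|`.
`rad_ld`: near `0` linear.  `W ≠ 0`: `Drad(W) v = φ v + 2 φ' ⟨W, v⟩ W` (`φ, φ'` at `s = |W|²`).  If it vanishes, `v = c W` and `(φ + 2 s φ') c = 0`; `s φ(s)² = 1/θ(k/s)` has positive derivative `φ² + 2 s φ φ' > 0`, so `c = 0`.  `CSG.ld_of_fderiv`.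
-/

open scoped ContDiff Manifold Topology unitInterval
open Set Filter
open Pool.Agent.RSG (E3 E4 S2 S3 S4 ex cj c1 c2 ht fh pS2 pS3 pS4)
open Pool.Agent.RBM (ThickT OnT Box)
open Pool.Agent.LKF (OnF)
open Pool.Agent.PTH (SP ISP)
open Pool.Agent.KNH (circ)
open Pool.Agent.LKT (s1 s2 dir)

namespace Pool.Agent.MMV

/-- the square of the denominator -/
noncomputable def lrd_D (a b k s : ℝ) : ℝ := k + s * cu a b (k / s)

/-- the strictly increasing function -/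
noncomputable def lrd_th (a b x : ℝ) : ℝ := x + cu a b x

theorem lrd_D_pos {a b k s : ℝ} (hk : 0 < k) (hs : 0 ≤ s) : 0 < lrd_D a b k s := by
  unfold lrd_D
  have := mul_nonneg hs (cu_nonneg a b (k / s))
  linarith

theorem lrd_rad (a b k : ℝ) (W : ℂ) :
    rad a b k W = W / ((Real.sqrt (lrd_D a b k (‖W‖ ^ 2)) : ℝ) : ℂ) := rfl

theorem lrd_th_smooth (a b : ℝ) : ContDiff ℝ ∞ (lrd_th a b) := contDiff_id.add (cu_smooth a b)

theorem lrd_th_deriv {a b : ℝ} (hab : 2 < b - a) (x : ℝ) : 0 < deriv (lrd_th a b) x := by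
  have hc : DifferentiableAt ℝ (cu a b) x := (cu_smooth a b).differentiable (by simp) x
  have h1 : HasDerivAt (lrd_th a b) (1 + deriv (cu a b) x) x := (hasDerivAt_id x).add hc.hasDerivAt
  rw [h1.deriv]
  have h2 : ‖deriv (cu a b) x‖ ≤ 2 / (b - a) := by
    apply norm_deriv_le_of_lip'
    · apply div_nonneg <;> linarith
    · exact Filter.Eventually.of_forall (fun y => by
        rw [Real.norm_eq_abs, Real.norm_eq_abs]
        exact cu_lip (by linarith) y x)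
  have h3 : 2 / (b - a) < 1 := by
    rw [div_lt_one (by linarith)]
    exact hab
  rw [Real.norm_eq_abs, abs_le] at h2
  linarith [h2.1]

theorem lrd_th_mono {a b : ℝ} (hab : 2 < b - a) : StrictMono (lrd_th a b) :=
  strictMono_of_deriv_pos (lrd_th_deriv hab)

theorem lrd_th_gt {a b : ℝ} (ha : 0 < a) (hab : 2 < b - a) {x : ℝ} (hx : 0 < x) : 1 < lrd_th a b x := by
  have h1 := lrd_th_mono hab hx
  have h2 : lrd_th a b 0 = 1 := by
    unfold lrd_th
    rw [cu_one (by linarith) ha.le]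
    ring
  rw [h2] at h1
  exact h1

theorem lrd_nsq (a b : ℝ) {k : ℝ} (hk : 0 < k) (W : ℂ) :
    ‖rad a b k W‖ ^ 2 = ‖W‖ ^ 2 / lrd_D a b k (‖W‖ ^ 2) := by
  have h1 := lrd_D_pos (a := a) (b := b) hk (sq_nonneg ‖W‖)
  rw [lrd_rad, norm_div, div_pow, Complex.norm_real, Real.norm_eq_abs, sq_abs, Real.sq_sqrt h1.le]

theorem rad_dir {a b k : ℝ} (hk : 0 < k) (W : ℂ) : ∃ c : ℝ, 0 < c ∧ rad a b k W = (c : ℂ) * W := by
  have h1 := lrd_D_pos (a := a) (b := b) hk (sq_nonneg ‖W‖)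
  have h2 := Real.sqrt_pos.mpr h1
  refine ⟨(Real.sqrt (lrd_D a b k (‖W‖ ^ 2)))⁻¹, inv_pos.mpr h2, ?_⟩
  rw [lrd_rad, Complex.ofReal_inv, div_eq_inv_mul]

theorem rad_neg (a b k : ℝ) (W : ℂ) : rad a b k (-W) = -rad a b k W := by
  rw [lrd_rad, lrd_rad, norm_neg, neg_div]

theorem rad_conj (a b k : ℝ) (W : ℂ) : rad a b k ((starRingEnd ℂ) W) = (starRingEnd ℂ) (rad a b k W) := by
  rw [lrd_rad, lrd_rad, RCLike.norm_conj, map_div₀, Complex.conj_ofReal]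

theorem rad_small {a b k : ℝ} (ha : 0 < a) (hab : a < b) (hk : 0 < k) {W : ℂ} (h : ‖W‖ ^ 2 ≤ k / b) :
    rad a b k W = W / ((Real.sqrt k : ℝ) : ℂ) := by
  have h1 : lrd_D a b k (‖W‖ ^ 2) = k := by
    unfold lrd_D
    rcases (sq_nonneg ‖W‖).lt_or_eq with h0 | h0
    · have hb : 0 < b := by linarith
      rw [cu_zero hab (by
        rw [le_div_iff₀ h0]
        rw [le_div_iff₀ hb] at h
        linarith)]
      ring
    · rw [← h0]
      ring
  rw [lrd_rad, h1]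

theorem rad_large {a b k : ℝ} (ha : 0 < a) (hab : a < b) (hk : 0 < k) {W : ℂ} (h : k / a ≤ ‖W‖ ^ 2) :
    rad a b k W = W / ((Real.sqrt (k + ‖W‖ ^ 2) : ℝ) : ℂ) := by
  have h0 : 0 < ‖W‖ ^ 2 := lt_of_lt_of_le (div_pos hk ha) h
  have h1 : lrd_D a b k (‖W‖ ^ 2) = k + ‖W‖ ^ 2 := by
    unfold lrd_D
    rw [cu_one hab (by
        rw [div_le_iff₀ h0]
        rw [div_le_iff₀ ha] at h
        linarith)]
    ring
  rw [lrd_rad, h1]

theorem rad_inv {a b k : ℝ} (hk : 0 < k) {W : ℂ} (hW : W ≠ 0) :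
    ‖rad a b k W‖ ^ 2 * (k / ‖W‖ ^ 2 + cu a b (k / ‖W‖ ^ 2)) = 1 := by
  have h0 : 0 < ‖W‖ ^ 2 := by
    have := norm_pos_iff.mpr hW
    positivity
  have h1 := lrd_D_pos (a := a) (b := b) hk h0.le
  rw [lrd_nsq a b hk, div_mul_eq_mul_div, div_eq_one_iff_eq h1.ne']
  unfold lrd_D
  field_simp

theorem rad_lt {a b k : ℝ} (ha : 0 < a) (hab : 2 < b - a) (hk : 0 < k) (W : ℂ) : ‖rad a b k W‖ < 1 := by
  rcases eq_or_ne W 0 with rfl | hW
  · rw [lrd_rad, zero_div, norm_zero]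
    exact one_pos
  · have h0 : 0 < ‖W‖ ^ 2 := by
      have := norm_pos_iff.mpr hW
      positivity
    have h1 := rad_inv (a := a) (b := b) hk hW
    have h2 : 1 < k / ‖W‖ ^ 2 + cu a b (k / ‖W‖ ^ 2) := lrd_th_gt ha hab (div_pos hk h0)
    have h3 : ‖rad a b k W‖ ^ 2 < 1 := by
      by_contra h4
      push Not at h4
      nlinarith
    have h5 := norm_nonneg (rad a b k W)
    nlinarith

theorem rad_inj {a b k : ℝ} (ha : 0 < a) (hab : 2 < b - a) (hk : 0 < k) : Function.Injective (rad a b k) := by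
  intro W W' he
  have hz : ∀ V : ℂ, rad a b k V = 0 → V = 0 := by
    intro V hV
    obtain ⟨c, hc, hcV⟩ := rad_dir (a := a) (b := b) hk V
    rw [hcV] at hV
    have hc' : (c : ℂ) ≠ 0 := by exact_mod_cast hc.ne'
    exact (mul_eq_zero.mp hV).resolve_left hc'
  have h00 : rad a b k 0 = 0 := by rw [lrd_rad, zero_div]
  rcases eq_or_ne W 0 with rfl | hW
  · rw [h00] at he
    exact (hz W' he.symm).symm
  · rcases eq_or_ne W' 0 with rfl | hW'
    · rw [h00] at he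
      exact hz W he
    · have h0 : 0 < ‖W‖ ^ 2 := by
        have := norm_pos_iff.mpr hW
        positivity
      have h0' : 0 < ‖W'‖ ^ 2 := by
        have := norm_pos_iff.mpr hW'
        positivity
      have h1 := rad_inv (a := a) (b := b) hk hW
      have h1' := rad_inv (a := a) (b := b) hk hW'
      rw [← he] at h1'
      have hne : ‖rad a b k W‖ ^ 2 ≠ 0 := by
        intro h
        rw [h, zero_mul] at h1
        exact zero_ne_one h1
      have h2 : lrd_th a b (k / ‖W‖ ^ 2) = lrd_th a b (k / ‖W'‖ ^ 2) := by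
        apply mul_left_cancel₀ hne
        unfold lrd_th
        rw [h1, h1']
      have h3 := (lrd_th_mono hab).injective h2
      have h4 : ‖W‖ ^ 2 = ‖W'‖ ^ 2 := by
        rw [div_eq_div_iff h0.ne' h0'.ne'] at h3
        exact (mul_left_cancel₀ hk.ne' h3).symm
      rw [lrd_rad, lrd_rad, ← h4] at he
      have h5 := Real.sqrt_pos.mpr (lrd_D_pos (a := a) (b := b) hk h0.le)
      have h6 : ((Real.sqrt (lrd_D a b k (‖W‖ ^ 2)) : ℝ) : ℂ) ≠ 0 := by exact_mod_cast h5.ne'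
      exact (div_left_inj' h6).mp he

theorem rad_surj {a b k : ℝ} (ha : 0 < a) (hab : 2 < b - a) (hk : 0 < k) {u : ℂ} (hu : ‖u‖ < 1) :
    ∃ W, rad a b k W = u := by
  rcases eq_or_ne u 0 with rfl | hu0
  · exact ⟨0, by rw [lrd_rad, zero_div]⟩
  · have hr : 0 < ‖u‖ := norm_pos_iff.mpr hu0
    have hr2 : 0 < ‖u‖ ^ 2 := by positivity
    have hr1 : ‖u‖ ^ 2 < 1 := by nlinarith
    have h1 : 1 < 1 / ‖u‖ ^ 2 := by
      rw [lt_div_iff₀ hr2]
      linarith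
    have hth0 : lrd_th a b 0 = 1 := by
      unfold lrd_th
      rw [cu_one (by linarith) ha.le]
      ring
    have hth1 : 1 / ‖u‖ ^ 2 ≤ lrd_th a b (1 / ‖u‖ ^ 2) := by
      unfold lrd_th
      have := cu_nonneg a b (1 / ‖u‖ ^ 2)
      linarith
    obtain ⟨x, hx, hxe⟩ := intermediate_value_Icc (show (0 : ℝ) ≤ 1 / ‖u‖ ^ 2 by positivity)
      (lrd_th_smooth a b).continuous.continuousOn
      (show 1 / ‖u‖ ^ 2 ∈ Icc (lrd_th a b 0) (lrd_th a b (1 / ‖u‖ ^ 2)) from ⟨by rw [hth0]; exact h1.le, hth1⟩)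
    have hx0 : 0 < x := by
      rcases hx.1.lt_or_eq with h | h
      · exact h
      · rw [← h, hth0] at hxe
        linarith
    have hkx : 0 < k / x := div_pos hk hx0
    have hsq : 0 < Real.sqrt (k / x) / ‖u‖ := div_pos (Real.sqrt_pos.mpr hkx) hr
    have hW : ‖((Real.sqrt (k / x) / ‖u‖ : ℝ) : ℂ) * u‖ ^ 2 = k / x := by
      rw [norm_mul, Complex.norm_real, Real.norm_of_nonneg hsq.le, div_mul_cancel₀ _ hr.ne',
        Real.sq_sqrt hkx.le]
    have hW0 : ((Real.sqrt (k / x) / ‖u‖ : ℝ) : ℂ) * u ≠ 0 := by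
      apply mul_ne_zero _ hu0
      exact_mod_cast hsq.ne'
    refine ⟨((Real.sqrt (k / x) / ‖u‖ : ℝ) : ℂ) * u, ?_⟩
    have h2 := rad_inv (a := a) (b := b) hk hW0
    obtain ⟨c, hc, hcW⟩ := rad_dir (a := a) (b := b) hk (((Real.sqrt (k / x) / ‖u‖ : ℝ) : ℂ) * u)
    have hkk : k / (k / x) = x := by field_simp
    rw [hW, hkk] at h2
    have h3 : x + cu a b x = 1 / ‖u‖ ^ 2 := hxe
    rw [h3] at h2
    have h4 : ‖rad a b k (((Real.sqrt (k / x) / ‖u‖ : ℝ) : ℂ) * u)‖ ^ 2 = ‖u‖ ^ 2 := by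
      rw [mul_one_div, div_eq_one_iff_eq hr2.ne'] at h2
      exact h2
    have h5 : ‖rad a b k (((Real.sqrt (k / x) / ‖u‖ : ℝ) : ℂ) * u)‖ = ‖u‖ :=
      (sq_eq_sq₀ (norm_nonneg _) (norm_nonneg _)).mp h4
    rw [hcW, ← mul_assoc, ← Complex.ofReal_mul]
    rw [hcW, ← mul_assoc, ← Complex.ofReal_mul, norm_mul, Complex.norm_real,
      Real.norm_of_nonneg (mul_pos hc hsq).le] at h5
    have h6 : c * (Real.sqrt (k / x) / ‖u‖) = 1 := by
      apply mul_right_cancel₀ hr.ne'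
      rw [h5, one_mul]
    rw [h6, Complex.ofReal_one, one_mul]

theorem rad_ld {a b k : ℝ} (ha : 0 < a) (hab : 2 < b - a) (hk : 0 < k) (W : ℂ) :
    IsLocalDiffeomorphAt 𝓘(ℝ, ℂ) 𝓘(ℝ, ℂ) ∞ (rad a b k) W := by
  have hb : 0 < b := by linarith
  rcases lt_or_ge (‖W‖ ^ 2) (k / b) with hWs | hWs
  · have hld : IsLocalDiffeomorphAt 𝓘(ℝ, ℂ) 𝓘(ℝ, ℂ) ∞ (fun V : ℂ => (Real.sqrt k)⁻¹ • V) W := by
      have hsm0 : ContDiff ℝ ∞ (fun V : ℂ => (Real.sqrt k)⁻¹ • V) := by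
        fun_prop
      refine CSG.ld_of_fderiv (Filter.Eventually.of_forall fun y => hsm0.contDiffAt) rfl ?_
      intro v hv
      have h1 : HasFDerivAt (fun V : ℂ => (Real.sqrt k)⁻¹ • V) ((Real.sqrt k)⁻¹ • ContinuousLinearMap.id ℝ ℂ) W :=
        ((Real.sqrt k)⁻¹ • ContinuousLinearMap.id ℝ ℂ).hasFDerivAt
      rw [h1.fderiv] at hv
      have h2 : (Real.sqrt k)⁻¹ • v = 0 := hv
      exact (smul_eq_zero.mp h2).resolve_left (inv_pos.mpr (Real.sqrt_pos.mpr hk)).ne'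
    refine CSG.ld_congr hld ?_
    have h1 : ∀ᶠ V : ℂ in 𝓝 W, ‖V‖ ^ 2 < k / b :=
      (continuous_norm.pow 2).continuousAt.eventually (Iio_mem_nhds hWs)
    filter_upwards [h1] with V hV
    rw [rad_small ha (by linarith) hk hV.le, Complex.real_smul, Complex.ofReal_inv, div_eq_inv_mul]
  · have h0 : 0 < ‖W‖ ^ 2 := lt_of_lt_of_le (div_pos hk hb) hWs
    have hN : ContDiff ℝ ∞ (fun V : ℂ => ‖V‖ ^ 2) := contDiff_id.norm_sq ℝ
    have hopen : ∀ᶠ V : ℂ in 𝓝 W, 0 < ‖V‖ ^ 2 :=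
      (continuous_norm.pow 2).continuousAt.eventually (Ioi_mem_nhds h0)
    have hphi : ∀ s : ℝ, 0 < s → ContDiffAt ℝ ∞ (fun s => (Real.sqrt (lrd_D a b k s))⁻¹) s := by
      intro s hs
      have h1 : ContDiffAt ℝ ∞ (fun s : ℝ => lrd_D a b k s) s := by
        unfold lrd_D
        exact contDiffAt_const.add (contDiffAt_id.mul ((cu_smooth a b).contDiffAt.comp s
          (contDiffAt_const.div contDiffAt_id hs.ne')))
      have h2 := lrd_D_pos (a := a) (b := b) hk hs.le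
      exact (h1.sqrt h2.ne').inv (Real.sqrt_pos.mpr h2).ne'
    have hrad : rad a b k = fun V : ℂ => (Real.sqrt (lrd_D a b k (‖V‖ ^ 2)))⁻¹ • V := by
      funext V
      rw [lrd_rad, Complex.real_smul, Complex.ofReal_inv, div_eq_inv_mul]
    have hsm : ∀ V : ℂ, 0 < ‖V‖ ^ 2 → ContDiffAt ℝ ∞ (rad a b k) V := by
      intro V hV
      rw [hrad]
      have h1 : ContDiffAt ℝ ∞ (fun V : ℂ => (Real.sqrt (lrd_D a b k (‖V‖ ^ 2)))⁻¹) V := by
        have h2 := ContDiffAt.comp (g := fun s => (Real.sqrt (lrd_D a b k s))⁻¹) (f := fun V : ℂ => ‖V‖ ^ 2) V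
          (hphi _ hV) hN.contDiffAt
        exact h2
      exact h1.smul contDiffAt_id
    refine CSG.ld_of_fderiv (hopen.mono (fun V hV => hsm V hV)) rfl ?_
    intro v hv
    have hL : HasFDerivAt (rad a b k) (fderiv ℝ (rad a b k) W) W :=
      ((hsm W h0).differentiableAt (by simp)).hasFDerivAt
    have hn : HasFDerivAt (fun V : ℂ => ‖V‖ ^ 2) (fderiv ℝ (fun V : ℂ => ‖V‖ ^ 2) W) W :=
      (hN.differentiable (by simp) W).hasFDerivAt
    have hn' : HasFDerivAt (fun V : ℂ => ‖V‖ ^ 2) (fderiv ℝ (fun V : ℂ => ‖V‖ ^ 2) (rad a b k W)) (rad a b k W) :=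
      (hN.differentiable (by simp) _).hasFDerivAt
    have hf1 : HasFDerivAt (fun V : ℂ => ‖rad a b k V‖ ^ 2)
        ((fderiv ℝ (fun V : ℂ => ‖V‖ ^ 2) (rad a b k W)).comp (fderiv ℝ (rad a b k) W)) W := by
      have := HasFDerivAt.comp (g := fun V : ℂ => ‖V‖ ^ 2) W hn' hL
      exact this
    have hdiv : HasDerivAt (fun s : ℝ => k / s) (-(k / (‖W‖ ^ 2) ^ 2)) (‖W‖ ^ 2) := by
      have h1 := (hasDerivAt_inv h0.ne').const_mul k
      have h2 : (fun s : ℝ => k * s⁻¹) = fun s : ℝ => k / s := by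
        funext s
        rw [div_eq_mul_inv]
      rw [h2] at h1
      have h3 : k * -((‖W‖ ^ 2) ^ 2)⁻¹ = -(k / (‖W‖ ^ 2) ^ 2) := by rw [mul_neg, ← div_eq_mul_inv]
      rw [h3] at h1
      exact h1
    have hth : HasDerivAt (lrd_th a b) (deriv (lrd_th a b) (k / ‖W‖ ^ 2)) (k / ‖W‖ ^ 2) :=
      ((lrd_th_smooth a b).differentiable (by simp) _).hasDerivAt
    have hthd : HasDerivAt (fun s : ℝ => lrd_th a b (k / s))
        (deriv (lrd_th a b) (k / ‖W‖ ^ 2) * (-(k / (‖W‖ ^ 2) ^ 2))) (‖W‖ ^ 2) := by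
      have := HasDerivAt.comp (h₂ := lrd_th a b) (‖W‖ ^ 2) hth hdiv
      exact this
    have hf2 : HasFDerivAt (fun V : ℂ => lrd_th a b (k / ‖V‖ ^ 2))
        ((deriv (lrd_th a b) (k / ‖W‖ ^ 2) * (-(k / (‖W‖ ^ 2) ^ 2))) • fderiv ℝ (fun V : ℂ => ‖V‖ ^ 2) W) W := by
      have := hthd.comp_hasFDerivAt W hn
      exact this
    have hprod := hf1.mul hf2
    have hone : (fun V : ℂ => ‖rad a b k V‖ ^ 2 * lrd_th a b (k / ‖V‖ ^ 2)) =ᶠ[𝓝 W] fun _ => (1 : ℝ) := by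
      filter_upwards [hopen] with V hV
      have hV0 : V ≠ 0 := by
        rintro rfl
        rw [norm_zero] at hV
        norm_num at hV
      exact rad_inv hk hV0
    have hzero : HasFDerivAt (fun V : ℂ => ‖rad a b k V‖ ^ 2 * lrd_th a b (k / ‖V‖ ^ 2)) (0 : ℂ →L[ℝ] ℝ) W :=
      (hasFDerivAt_const (1 : ℝ) W).congr_of_eventuallyEq hone
    have huniq := hprod.unique hzero
    have hW0 : W ≠ 0 := by
      rintro rfl
      rw [norm_zero] at h0
      norm_num at h0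
    have hrW : ‖rad a b k W‖ ^ 2 ≠ 0 := by
      intro h
      have h1 := rad_inv (a := a) (b := b) hk hW0
      rw [h, zero_mul] at h1
      exact zero_ne_one h1
    have hd : fderiv ℝ (fun V : ℂ => ‖V‖ ^ 2) W v = 0 := by
      have h1 := congrArg (fun L : ℂ →L[ℝ] ℝ => L v) huniq
      have h2 : ‖rad a b k W‖ ^ 2 * ((deriv (lrd_th a b) (k / ‖W‖ ^ 2) * (-(k / (‖W‖ ^ 2) ^ 2))) *
          fderiv ℝ (fun V : ℂ => ‖V‖ ^ 2) W v) + lrd_th a b (k / ‖W‖ ^ 2) *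
          (fderiv ℝ (fun V : ℂ => ‖V‖ ^ 2) (rad a b k W)) (fderiv ℝ (rad a b k) W v) = 0 := h1
      rw [hv, map_zero, mul_zero, add_zero] at h2
      have h3 := (mul_eq_zero.mp h2).resolve_left hrW
      have h4 : deriv (lrd_th a b) (k / ‖W‖ ^ 2) * (-(k / (‖W‖ ^ 2) ^ 2)) ≠ 0 := by
        apply mul_ne_zero (lrd_th_deriv hab _).ne'
        have : 0 < k / (‖W‖ ^ 2) ^ 2 := by positivity
        linarith
      exact (mul_eq_zero.mp h3).resolve_left h4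
    have hphi' := ((hphi _ h0).differentiableAt (by simp)).hasDerivAt
    have hphin : HasFDerivAt (fun V : ℂ => (Real.sqrt (lrd_D a b k (‖V‖ ^ 2)))⁻¹)
        (deriv (fun s => (Real.sqrt (lrd_D a b k s))⁻¹) (‖W‖ ^ 2) • fderiv ℝ (fun V : ℂ => ‖V‖ ^ 2) W) W := by
      have := hphi'.comp_hasFDerivAt W hn
      exact this
    have hg := hphin.smul (hasFDerivAt_id (𝕜 := ℝ) W)
    rw [hrad] at hv
    have hg' : HasFDerivAt (fun V : ℂ => (Real.sqrt (lrd_D a b k (‖V‖ ^ 2)))⁻¹ • V) _ W := hg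
    rw [hg'.fderiv] at hv
    have hv' : (Real.sqrt (lrd_D a b k (‖W‖ ^ 2)))⁻¹ • v +
        (deriv (fun s => (Real.sqrt (lrd_D a b k s))⁻¹) (‖W‖ ^ 2) * fderiv ℝ (fun V : ℂ => ‖V‖ ^ 2) W v) • W = 0 := hv
    rw [hd, mul_zero, zero_smul, add_zero] at hv'
    have h1 := Real.sqrt_pos.mpr (lrd_D_pos (a := a) (b := b) hk h0.le)
    exact (smul_eq_zero.mp hv').resolve_left (inv_pos.mpr h1).ne'

end Pool.Agent.MMV
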