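import Pool.Agent.MMV.LTr
import Pool.Agent.MMV.LRd

/-!
# MMV/LKp: the planar map `Kp = Mm ∘ rad 6 16 (9/16)`   (difficulty 3)

`T := tr (1/2) 4 12` is bijective and a local diffeomorphism (`1 < 8`).  `R := rad 6 16 (9/16)`: `R W = (4/3) W` for `|W| ≤ 3/16`, `R W = W / √(9/16 + |W|²)` for `|W|² ≥ 3/32`, `|R W| < 1`.  `Mm W' = -1/2 - (3/4) (T W'⁻¹)⁻¹`, `0 < |W'| < 1`.
`T Z = 0`: `|Z| ≤ 1/2 < 1`, so not for `Z = W'⁻¹`.  For `|W'| ≥ 1/4`: `T W'⁻¹ = W'⁻¹ + 1/2` and `Mm W' = -(1 + 2 W')/(2 + W')` (Möbius map of the unit disc onto itself: `1 - |Mm|² = 3 (1 - |W'|²)/|2 + W'|²`).  For `|W'| < 1/4`: `|T W'⁻¹| ≥ 7/2`, `|Mm W' + 1/2| ≤ 3/14`.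
`Kp_lt`: from this.  `Kp_ne`: `(T ..)⁻¹ ≠ 0`.  `Kp_inj`: `T`, inversion and `R` are injective.  `Kp_surj`: `Z = T⁻¹ (-(3/4)/(u + 1/2))`; if `|Z| ≤ 1` then `Z + 1/2 = -(3/4)/(u+1/2)`, so (`Z ≠ 0` because `u ≠ -2`) `u = -(1 + 2 W')/(2 + W')` with `W' = Z⁻¹`, `|W'| ≥ 1`, and then
`1 - |u|² ≤ 0`: contradiction.  So `|Z| > 1`, `W' = Z⁻¹`, `rad_surj`.  `Kp_half`: `Kp (-1)`: `R (-1) = -1/√(25/16) = -4/5`, `Mm (-4/5) = -(1 - 8/5)/(2 - 4/5) = 1/2`; conversely injectivity.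
`Kp_small`: `R W = (4/3) W`, `|R W|⁻¹ ≥ 12`, `T = id`: `-1/2 - (3/4)(4/3) W`.  `Kp_large`: `|R W|² ≥ (3/32)/(21/32) = 1/7 ≥ 1/16`.
`Kp_zone`: `|W'| ≥ 1/4` (otherwise `Re ≤ -1/2 + 3/14 < 0`); `0 ≤ Re` means `Re ((1 + 2W') (2 + conj W')) ≤ 0`: `2 + 2|W'|² + 5 Re W' ≤ 0`, i.e. `|W' + 5/4|² ≤ 9/16`.  So `|W'| ≥ 1/2`; `rad_inv`: `s + χ(s) = |W'|⁻² ≤ 4`, `s = 9/(16|W|²)`: `s ≤ 4`, `χ = 1`, `s ≤ 3`, `|W|² ≥ 3/16`.
Sector: `x = -Re W' > 0`, `y = Im W'`: `x² + y² + 1 ≤ (5/2) x` implies `y² < x²` (`2x² - (5/2)x + 1 > 0`); `W` is a positive multiple of `W'` (`rad_dir`).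
`Kp_conj`: all maps commute with the conjugation.  `Kp_pos`: `x > 0`: `T` of a positive real is a positive real: `Kp x = -1/2 - positive`.
-/

open scoped ContDiff Manifold Topology unitInterval
open Set Filter
open Pool.Agent.RSG (E3 E4 S2 S3 S4 ex cj c1 c2 ht fh pS2 pS3 pS4)
open Pool.Agent.RBM (ThickT OnT Box)
open Pool.Agent.LKF (OnF)
open Pool.Agent.PTH (SP ISP)
open Pool.Agent.KNH (circ)
open Pool.Agent.LKT (s1 s2 dir)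

namespace Pool.Agent.MMV

/-- the value of the radial map -/
theorem lkp_w {W : ℂ} (h0 : W ≠ 0) : rad 6 16 (9 / 16) W ≠ 0 ∧ ‖rad 6 16 (9 / 16) W‖ < 1 := by
  refine ⟨?_, rad_lt (by norm_num) (by norm_num) (by norm_num) W⟩
  obtain ⟨c, hc, h1⟩ := rad_dir (a := 6) (b := 16) (k := 9 / 16) (by norm_num) W
  rw [h1]
  exact mul_ne_zero (by exact_mod_cast hc.ne') h0

theorem lkp_T {Z : ℂ} (h : 1 / 2 < ‖Z‖) : tr (1 / 2) 4 12 Z ≠ 0 := by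
  intro h1
  have h2 := tr_dist (1 / 2) 4 12 Z
  rw [h1, zero_sub, norm_neg, abs_of_pos (by norm_num)] at h2
  linarith

theorem lkp_inv {w : ℂ} (h0 : w ≠ 0) (h : ‖w‖ < 1) : 1 < ‖w⁻¹‖ := by
  rw [norm_inv]
  exact (one_lt_inv₀ (norm_pos_iff.2 h0)).2 h

theorem lkp_T1 {w : ℂ} (h0 : w ≠ 0) (h : ‖w‖ < 1) : tr (1 / 2) 4 12 w⁻¹ ≠ 0 :=
  lkp_T (by linarith [lkp_inv h0 h])

theorem lkp_eq (W : ℂ) : Kp W = -1 / 2 - 3 / 4 * (tr (1 / 2) 4 12 (rad 6 16 (9 / 16) W)⁻¹)⁻¹ := rfl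

theorem lkp_two {w : ℂ} (h : ‖w‖ < 1) : 2 + w ≠ 0 := by
  intro h1
  have h2 : w = -2 := by linear_combination h1
  rw [h2, norm_neg, Complex.norm_ofNat] at h
  norm_num at h

/-- the Moebius formula -/
theorem lkp_mob {w : ℂ} (h4 : 1 / 4 ≤ ‖w‖) (h : ‖w‖ < 1) :
    -1 / 2 - 3 / 4 * (tr (1 / 2) 4 12 w⁻¹)⁻¹ = -(1 + 2 * w) / (2 + w) := by
  have h0 : w ≠ 0 := by
    rintro rfl
    rw [norm_zero] at h4
    linarith
  have h2 := lkp_two h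
  have h1 : ‖w⁻¹‖ ≤ 4 := by
    rw [norm_inv]
    exact inv_le_of_inv_le₀ (by norm_num) (by linarith)
  rw [tr_small (by norm_num) h1]
  have h3 : w⁻¹ + ((1 / 2 : ℝ) : ℂ) = (2 + w) / (2 * w) := by
    push_cast
    field_simp
  rw [h3, inv_div]
  field_simp
  ring

/-- near the torus -/
theorem lkp_near {w : ℂ} (h0 : w ≠ 0) (h4 : ‖w‖ < 1 / 4) :
    ‖3 / 4 * (tr (1 / 2) 4 12 w⁻¹)⁻¹‖ ≤ 3 / 14 := by
  have hpos : 0 < ‖w‖ := norm_pos_iff.2 h0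
  have h1 : 4 < ‖w⁻¹‖ := by
    rw [norm_inv]
    exact (lt_inv_comm₀ (by norm_num) hpos).2 (by linarith)
  have h2 := tr_dist (1 / 2) 4 12 w⁻¹
  rw [abs_of_pos (by norm_num)] at h2
  have h3 : 7 / 2 ≤ ‖tr (1 / 2) 4 12 w⁻¹‖ := by
    have h5 := norm_sub_norm_le w⁻¹ (tr (1 / 2) 4 12 w⁻¹)
    rw [norm_sub_rev] at h5
    linarith
  rw [norm_mul, norm_inv, norm_div, Complex.norm_ofNat, Complex.norm_ofNat]
  have h6 : ‖tr (1 / 2) 4 12 w⁻¹‖⁻¹ ≤ (7 / 2 : ℝ)⁻¹ := inv_anti₀ (by norm_num) h3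
  have h7 : (3 / 4 : ℝ) * ‖tr (1 / 2) 4 12 w⁻¹‖⁻¹ ≤ 3 / 4 * (7 / 2 : ℝ)⁻¹ := mul_le_mul_of_nonneg_left h6 (by norm_num)
  norm_num at h7 ⊢
  linarith

theorem lkp_sq (z : ℂ) : ‖z‖ ^ 2 = z.re ^ 2 + z.im ^ 2 := by
  rw [Complex.sq_norm, Complex.normSq_apply]
  ring

theorem lkp_half : ‖(-1 / 2 : ℂ)‖ = 1 / 2 := by
  rw [norm_div, norm_neg, norm_one, Complex.norm_ofNat]

theorem lkp_ldinv {x : ℂ} (hx : x ≠ 0) : IsLocalDiffeomorphAt 𝓘(ℝ, ℂ) 𝓘(ℝ, ℂ) ∞ (fun z : ℂ => z⁻¹) x := by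
  have key : ∀ {y : ℂ}, y ≠ 0 → ContMDiffAt 𝓘(ℝ, ℂ) 𝓘(ℝ, ℂ) ∞ (fun z : ℂ => z⁻¹) y := by
    intro y hy
    exact (contDiffAt_inv ℝ hy).contMDiffAt
  refine Pool.Agent.RSG.ld_two (g := fun z : ℂ => z⁻¹) ?_ ?_ ?_ ?_
  · filter_upwards [isOpen_ne.mem_nhds hx] with y hy
    exact key hy
  · filter_upwards [isOpen_ne.mem_nhds (inv_ne_zero hx)] with y hy
    exact key hy
  · exact Eventually.of_forall fun y => inv_inv y
  · exact Eventually.of_forall fun y => inv_inv y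

theorem lkp_ldaff (x : ℂ) : IsLocalDiffeomorphAt 𝓘(ℝ, ℂ) 𝓘(ℝ, ℂ) ∞ (fun z : ℂ => -1 / 2 - 3 / 4 * z) x := by
  refine Pool.Agent.RSG.ld_two (g := fun z : ℂ => -4 / 3 * (z + 1 / 2)) ?_ ?_ ?_ ?_
  · refine Eventually.of_forall fun y => ?_
    have h : ContDiff ℝ ∞ (fun z : ℂ => -1 / 2 - 3 / 4 * z) := by fun_prop
    exact h.contDiffAt.contMDiffAt
  · refine Eventually.of_forall fun y => ?_
    have h : ContDiff ℝ ∞ (fun z : ℂ => -4 / 3 * (z + 1 / 2)) := by fun_prop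
    exact h.contDiffAt.contMDiffAt
  · exact Eventually.of_forall fun y => by
      show -4 / 3 * (-1 / 2 - 3 / 4 * y + 1 / 2) = y
      ring
  · exact Eventually.of_forall fun y => by
      show -1 / 2 - 3 / 4 * (-4 / 3 * (y + 1 / 2)) = y
      ring

theorem lkp_comp {f g : ℂ → ℂ} {x : ℂ} (hf : IsLocalDiffeomorphAt 𝓘(ℝ, ℂ) 𝓘(ℝ, ℂ) ∞ f x)
    (hg : IsLocalDiffeomorphAt 𝓘(ℝ, ℂ) 𝓘(ℝ, ℂ) ∞ g (f x)) :
    IsLocalDiffeomorphAt 𝓘(ℝ, ℂ) 𝓘(ℝ, ℂ) ∞ (fun z => g (f z)) x :=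
  IsLocalDiffeomorphAt.comp (hf := hf) (hg := hg) ..

theorem Kp_lt {W : ℂ} (h0 : W ≠ 0) : ‖Kp W‖ < 1 := by
  obtain ⟨w0, w1⟩ := lkp_w h0
  rw [lkp_eq]
  by_cases h4 : 1 / 4 ≤ ‖rad 6 16 (9 / 16) W‖
  · rw [lkp_mob h4 w1]
    set w := rad 6 16 (9 / 16) W
    have h2 : 0 < ‖2 + w‖ := norm_pos_iff.2 (lkp_two w1)
    rw [norm_div, norm_neg, div_lt_one h2]
    have h3 : ‖1 + 2 * w‖ ^ 2 < ‖2 + w‖ ^ 2 := by
      have h5 : ‖w‖ ^ 2 < 1 := by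
        have := norm_nonneg w
        nlinarith
      rw [lkp_sq, lkp_sq]
      rw [lkp_sq] at h5
      simp only [Complex.add_re, Complex.add_im, Complex.mul_re, Complex.mul_im, Complex.one_re, Complex.one_im,
        Complex.re_ofNat, Complex.im_ofNat]
      nlinarith
    exact lt_of_pow_lt_pow_left₀ 2 h2.le h3
  · have h5 := lkp_near w0 (not_le.1 h4)
    have h6 := norm_sub_le (-1 / 2 : ℂ) (3 / 4 * (tr (1 / 2) 4 12 (rad 6 16 (9 / 16) W)⁻¹)⁻¹)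
    rw [lkp_half] at h6
    linarith

theorem Kp_ne {W : ℂ} (h0 : W ≠ 0) : Kp W ≠ -1 / 2 := by
  obtain ⟨w0, w1⟩ := lkp_w h0
  intro h
  rw [lkp_eq] at h
  have h1 : (3 / 4 : ℂ) * (tr (1 / 2) 4 12 (rad 6 16 (9 / 16) W)⁻¹)⁻¹ = 0 := by linear_combination -h
  rcases mul_eq_zero.1 h1 with h2 | h2
  · norm_num at h2
  · exact lkp_T1 w0 w1 (inv_eq_zero.1 h2)

theorem Kp_inj {W W' : ℂ} (h0 : W ≠ 0) (h0' : W' ≠ 0) (h : Kp W = Kp W') : W = W' := by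
  rw [lkp_eq, lkp_eq] at h
  have h1 : (tr (1 / 2) 4 12 (rad 6 16 (9 / 16) W)⁻¹)⁻¹ = (tr (1 / 2) 4 12 (rad 6 16 (9 / 16) W')⁻¹)⁻¹ := by
    linear_combination (-4 / 3 : ℂ) * h
  have h2 := (tr_bij (k := 1 / 2) (a := 4) (b := 12) (by norm_num) (by rw [abs_of_pos] <;> norm_num)).1 (inv_injective h1)
  exact rad_inj (by norm_num) (by norm_num) (by norm_num) (inv_injective h2)

theorem Kp_half {W : ℂ} (h0 : W ≠ 0) : Kp W = 1 / 2 ↔ W = -1 := by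
  have h1 : Kp (-1) = 1 / 2 := by
    have hn : ‖(-1 : ℂ)‖ = 1 := by rw [norm_neg, norm_one]
    have hs : Real.sqrt (9 / 16 + ‖(-1 : ℂ)‖ ^ 2) = 5 / 4 := by
      rw [hn, show (9 / 16 + 1 ^ 2 : ℝ) = (5 / 4) ^ 2 by norm_num]
      exact Real.sqrt_sq (by norm_num)
    have hr : rad 6 16 (9 / 16) (-1) = -4 / 5 := by
      rw [rad_large (by norm_num) (by norm_num) (by norm_num) (by rw [hn]; norm_num), hs]
      push_cast
      norm_num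
    rw [lkp_eq, hr]
    have hnn : ‖(-4 / 5 : ℂ)‖ = 4 / 5 := by
      rw [norm_div, norm_neg, Complex.norm_ofNat, Complex.norm_ofNat]
    rw [lkp_mob (by rw [hnn]; norm_num) (by rw [hnn]; norm_num)]
    norm_num
  constructor
  · intro h
    exact Kp_inj h0 (by norm_num) (h.trans h1.symm)
  · rintro rfl
    exact h1

theorem Kp_surj {u : ℂ} (hu : ‖u‖ < 1) (h : u ≠ -1 / 2) : ∃ W, W ≠ 0 ∧ Kp W = u := by
  have hu2 : u + 1 / 2 ≠ 0 := fun h1 => h (by linear_combination h1)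
  obtain ⟨Z, hZ⟩ := (tr_bij (k := 1 / 2) (a := 4) (b := 12) (by norm_num) (by rw [abs_of_pos] <;> norm_num)).2
    (-(3 / 4) / (u + 1 / 2))
  have hZ1 : 1 < ‖Z‖ := by
    by_contra hcon
    rw [not_lt] at hcon
    rw [tr_small (by norm_num) (by linarith)] at hZ
    rw [eq_div_iff hu2] at hZ
    push_cast at hZ
    have h1 : u * (2 * Z + 1) = -(Z + 2) := by linear_combination 2 * hZ
    have h2 : ‖u‖ * ‖2 * Z + 1‖ = ‖Z + 2‖ := by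
      rw [← norm_mul, h1, norm_neg]
    have h3 : ‖2 * Z + 1‖ ^ 2 ≤ ‖Z + 2‖ ^ 2 := by
      have h5 : ‖Z‖ ^ 2 ≤ 1 := by
        have := norm_nonneg Z
        nlinarith
      rw [lkp_sq, lkp_sq]
      rw [lkp_sq] at h5
      simp only [Complex.add_re, Complex.add_im, Complex.mul_re, Complex.mul_im, Complex.one_re, Complex.one_im,
        Complex.re_ofNat, Complex.im_ofNat]
      nlinarith
    have h4 : ‖2 * Z + 1‖ ≤ ‖Z + 2‖ := le_of_sq_le_sq h3 (norm_nonneg _)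
    rcases (norm_nonneg (2 * Z + 1)).eq_or_lt with h5 | h5
    · rw [← h5, mul_zero] at h2
      have h6 := norm_eq_zero.1 h2.symm
      have h7 : Z = -2 := by linear_combination h6
      rw [h7, norm_neg, Complex.norm_ofNat] at hcon
      norm_num at hcon
    · nlinarith
  have hZ0 : Z ≠ 0 := by
    rintro rfl
    rw [norm_zero] at hZ1
    linarith
  have hw : ‖Z⁻¹‖ < 1 := by
    rw [norm_inv]
    exact inv_lt_one_of_one_lt₀ hZ1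
  obtain ⟨W, hW⟩ := rad_surj (a := 6) (b := 16) (k := 9 / 16) (by norm_num) (by norm_num) (by norm_num) hw
  refine ⟨W, ?_, ?_⟩
  · rintro rfl
    obtain ⟨c, _, h1⟩ := rad_dir (a := 6) (b := 16) (k := 9 / 16) (by norm_num) (0 : ℂ)
    rw [h1, mul_zero] at hW
    exact inv_ne_zero hZ0 hW.symm
  · rw [lkp_eq, hW, inv_inv, hZ, inv_div]
    field_simp
    ring

theorem Kp_ld {W : ℂ} (h0 : W ≠ 0) : IsLocalDiffeomorphAt 𝓘(ℝ, ℂ) 𝓘(ℝ, ℂ) ∞ Kp W := by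
  obtain ⟨w0, w1⟩ := lkp_w h0
  have h1 := rad_ld (a := 6) (b := 16) (k := 9 / 16) (by norm_num) (by norm_num) (by norm_num) W
  have h2 := lkp_comp h1 (lkp_ldinv w0)
  have h3 := lkp_comp h2 (tr_ld (k := 1 / 2) (a := 4) (b := 12) (by norm_num) (by rw [abs_of_pos] <;> norm_num) _)
  have h4 := lkp_comp h3 (lkp_ldinv (lkp_T1 w0 w1))
  have h5 := lkp_comp h4 (lkp_ldaff _)
  exact h5

theorem Kp_small {W : ℂ} (h0 : W ≠ 0) (h : ‖W‖ ≤ 1 / 16) : Kp W = -1 / 2 - W := by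
  have hs : Real.sqrt (9 / 16) = 3 / 4 := by
    rw [show (9 / 16 : ℝ) = (3 / 4) ^ 2 by norm_num]
    exact Real.sqrt_sq (by norm_num)
  have hpos : 0 < ‖W‖ := norm_pos_iff.2 h0
  have hr : rad 6 16 (9 / 16) W = W / ((3 / 4 : ℝ) : ℂ) := by
    rw [rad_small (by norm_num) (by norm_num) (by norm_num) (by norm_num; nlinarith), hs]
  have hn : 12 ≤ ‖(rad 6 16 (9 / 16) W)⁻¹‖ := by
    rw [hr, norm_inv, norm_div, Complex.norm_real, Real.norm_eq_abs, abs_of_pos (by norm_num), inv_div,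
      le_div_iff₀ hpos]
    linarith
  rw [lkp_eq, tr_large (by norm_num) hn, inv_inv, hr]
  push_cast
  field_simp

theorem Kp_large {W : ℂ} (h : 3 / 32 ≤ ‖W‖ ^ 2) :
    Kp W = -(1 + 2 * (W / (Real.sqrt (9 / 16 + ‖W‖ ^ 2) : ℝ))) / (2 + W / (Real.sqrt (9 / 16 + ‖W‖ ^ 2) : ℝ)) := by
  have hr := rad_large (a := 6) (b := 16) (k := 9 / 16) (by norm_num) (by norm_num) (by norm_num)
    (show (9 / 16 : ℝ) / 6 ≤ ‖W‖ ^ 2 by norm_num; linarith)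
  have hlt := rad_lt (a := 6) (b := 16) (k := 9 / 16) (by norm_num) (by norm_num) (by norm_num) W
  have hpos : 0 < 9 / 16 + ‖W‖ ^ 2 := by positivity
  have hn : 1 / 4 ≤ ‖rad 6 16 (9 / 16) W‖ := by
    rw [hr, norm_div, Complex.norm_real, Real.norm_eq_abs, abs_of_pos (Real.sqrt_pos.2 hpos),
      le_div_iff₀ (Real.sqrt_pos.2 hpos)]
    have h1 : Real.sqrt (9 / 16 + ‖W‖ ^ 2) ≤ 4 * ‖W‖ := by
      rw [Real.sqrt_le_left (by positivity)]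
      nlinarith
    linarith
  rw [lkp_eq, lkp_mob hn hlt, hr]

theorem Kp_zone {W : ℂ} (h0 : W ≠ 0) (h : 0 ≤ (Kp W).re) : 3 / 16 ≤ ‖W‖ ^ 2 ∧ |W.im| < -W.re := by
  obtain ⟨w0, w1⟩ := lkp_w h0
  obtain ⟨c, hc, hdir⟩ := rad_dir (a := 6) (b := 16) (k := 9 / 16) (by norm_num) W
  have hinv := rad_inv (a := 6) (b := 16) (k := 9 / 16) (by norm_num) h0
  have hpos : 0 < ‖W‖ := norm_pos_iff.2 h0
  rw [lkp_eq] at h
  have h4 : 1 / 4 ≤ ‖rad 6 16 (9 / 16) W‖ := by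
    by_contra hcon
    have h5 := lkp_near w0 (not_le.1 hcon)
    have h6 := Complex.abs_re_le_norm (3 / 4 * (tr (1 / 2) 4 12 (rad 6 16 (9 / 16) W)⁻¹)⁻¹)
    have h7 := (abs_le.1 (h6.trans h5)).1
    rw [Complex.sub_re] at h
    have h8 : (-1 / 2 : ℂ).re = -1 / 2 := by norm_num
    rw [h8] at h
    linarith
  rw [lkp_mob h4 w1] at h
  set w := rad 6 16 (9 / 16) W with hw
  have h2 : 0 < Complex.normSq (2 + w) := Complex.normSq_pos.2 (lkp_two w1)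
  have hx : 2 * (w.re ^ 2 + w.im ^ 2) + 5 * w.re + 2 ≤ 0 := by
    rw [Complex.div_re, ← add_div] at h
    have h5 := (div_nonneg_iff.1 h)
    rcases h5 with ⟨h5, _⟩ | ⟨_, h5⟩
    · simp only [Complex.neg_re, Complex.neg_im, Complex.add_re, Complex.add_im, Complex.mul_re, Complex.mul_im,
        Complex.one_re, Complex.one_im, Complex.re_ofNat, Complex.im_ofNat] at h5
      nlinarith
    · linarith
  have hsq := lkp_sq w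
  have hre : -w.re ≤ ‖w‖ := (neg_le_abs _).trans (Complex.abs_re_le_norm w)
  have hρ : 1 / 2 ≤ ‖w‖ := by
    by_contra hcon
    rw [not_le] at hcon
    have h6 : 0 < (2 * ‖w‖ - 1) * (‖w‖ - 2) := mul_pos_of_neg_of_neg (by linarith) (by linarith)
    nlinarith
  constructor
  · have hρ2 : 1 / 4 ≤ ‖w‖ ^ 2 := by nlinarith
    have hW2 : 0 < ‖W‖ ^ 2 := by positivity
    have hs4 : 9 / 16 / ‖W‖ ^ 2 + cu 6 16 (9 / 16 / ‖W‖ ^ 2) ≤ 4 := by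
      by_contra hcon
      rw [not_le] at hcon
      nlinarith
    have hcu := cu_nonneg 6 16 (9 / 16 / ‖W‖ ^ 2)
    have hc1 : cu 6 16 (9 / 16 / ‖W‖ ^ 2) = 1 := cu_one (by norm_num) (by linarith)
    rw [hc1] at hs4
    have hs3 : 9 / 16 / ‖W‖ ^ 2 ≤ 3 := by linarith
    rw [div_le_iff₀ hW2] at hs3
    linarith
  · have hwre : w.re = c * W.re := by
      rw [hdir, Complex.re_ofReal_mul]
    have hwim : w.im = c * W.im := by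
      rw [hdir, Complex.im_ofReal_mul]
    have hneg : 0 < -w.re := by nlinarith [sq_nonneg w.re, sq_nonneg w.im]
    have hlt : w.im ^ 2 < (-w.re) ^ 2 := by nlinarith [sq_nonneg (w.re + 5 / 8)]
    have h6 : |w.im| < -w.re := abs_lt_of_sq_lt_sq hlt hneg.le
    rw [hwre, hwim, abs_mul, abs_of_pos hc, ← mul_neg] at h6
    exact lt_of_mul_lt_mul_left h6 hc.le

theorem Kp_conj (W : ℂ) : Kp ((starRingEnd ℂ) W) = (starRingEnd ℂ) (Kp W) := by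
  rw [lkp_eq, lkp_eq, rad_conj, ← map_inv₀, tr_conj, ← map_inv₀]
  simp only [map_sub, map_mul, map_div₀, map_neg, map_one, map_ofNat]

theorem Kp_pos {x : ℝ} (hx : 0 < x) : (Kp (x : ℂ)).re < -1 / 2 := by
  obtain ⟨c, hc, hdir⟩ := rad_dir (a := 6) (b := 16) (k := 9 / 16) (by norm_num) (x : ℂ)
  have h1 : (rad 6 16 (9 / 16) (x : ℂ))⁻¹ = (((c * x)⁻¹ : ℝ) : ℂ) := by
    rw [hdir]
    push_cast
    rfl
  have hp : 0 < (c * x)⁻¹ := by positivity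
  rw [lkp_eq, h1]
  have h2 : tr (1 / 2) 4 12 (((c * x)⁻¹ : ℝ) : ℂ) =
      (((c * x)⁻¹ + 1 / 2 * cu 4 12 ‖(((c * x)⁻¹ : ℝ) : ℂ)‖ : ℝ) : ℂ) := by
    unfold tr
    push_cast
    rfl
  have hcu := cu_nonneg 4 12 ‖(((c * x)⁻¹ : ℝ) : ℂ)‖
  have hr : 0 < (c * x)⁻¹ + 1 / 2 * cu 4 12 ‖(((c * x)⁻¹ : ℝ) : ℂ)‖ := by positivity
  rw [h2, ← Complex.ofReal_inv]
  have h3 : (-1 / 2 - 3 / 4 * ((((c * x)⁻¹ + 1 / 2 * cu 4 12 ‖(((c * x)⁻¹ : ℝ) : ℂ)‖)⁻¹ : ℝ) : ℂ)) =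
      ((-1 / 2 - 3 / 4 * ((c * x)⁻¹ + 1 / 2 * cu 4 12 ‖(((c * x)⁻¹ : ℝ) : ℂ)‖)⁻¹ : ℝ) : ℂ) := by
    push_cast
    rfl
  rw [h3, Complex.ofReal_re]
  have h4 := inv_pos.2 hr
  linarith

end Pool.Agent.MMV
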