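import Pool.Agent.MMV.LSd
import Pool.Agent.MMV.LKp
import Pool.Agent.MMV.LBp
import Pool.Agent.LKT.TwK

/-!
# MMV/LKv
: values of `KL` in the half plane `z = 0`   (difficulty 3)

`a = ‖w‖`, `R = 24 a / √(1 - a²)` (`a < 1`): `Cw a = 2 R / (1 + R²)`, `√(1 - Cw a²) = (R² - 1)/(R² + 1) = (577 a² - 1)/(575 a² + 1)` (`a ≥ 1/2`, `R ≥ 1`).
* `Cw_bd`: `0 ≤ Cw a < 1`: the square root above is `> 0`.  `Cw_half`: `√(3/4) = √3/2`: `12 √3/(579/4)`.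
* `kv_seg`: with `W = R ex t`: `pol (W, e₁) = (sY (R e₁), dir W)`, `sY (R e₁) = pS3 (2 R) (R² - 1)` (`e₁ = (1, 0, 0)`), which is `pS3 (Cw a) (√(1 - Cw a²))` (`pS3` normalises, factor `1 + R²`), and `dir W = circ t` (`LKT.dir_mul_ex`): `bp (Cw a) 0 t = pol (W, e₁)`.
  `K` of it is `mp (Kp (W/32), e₁)`; `‖W/32‖² = (9/16) a²/(1 - a²) ≥ 3/16 ≥ 3/32`: `Kp_large`, and `(W/32)/√(9/16 + ‖W/32‖²) = a ex t = w`, since `9/16 + (9/16) a²/(1 - a²) = (9/16)/(1 - a²)`.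
* `kv_circ`: `a = 1`: `Cw 1 = 0`; `bp 0 0 t = tubN (t, 0)`: `Inv (sY 0) = Inv (pS3 0 (-1)) = pS3 0 1`.  `north`: `ρ₀ (l', 0)`, `l' = 1/2 + t + (arg (2 + ex (-t)) - arg (2 + ex t))/2π` (`lN` at `(t, 0)`, `√1 = 1`), and `ex l' = -ex t (2 + ex (-t))/(2 + ex t)` (same modulus of the two factors) `= -(1 + 2 ex t)/(2 + ex t) = ex l`;
  so `l' = l + m` (`KNH.circ_eq` or the lemma for `ex`) and `per` (for all integers `m`).
* `mw_mw`: involution.  `kv_pt`: `w = mw u`, `u = mw w`.  `1 - ‖w‖² = 3 (1 - ‖u‖²)/‖2 + u‖²`: if `‖u‖ < 1` then `‖w‖ < 1`: `kv_seg`, `mp (mw w, e₁) = ptM u`; if `‖u‖ = 1`, `u = ex l`, `l = arg u/2π` (`LKT.ex_an1`), `‖w‖ = 1`, `w = ex t`: `kv_circ`.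
* `kv_base`: `u = 0`, `w = -1/2`, `t = 1/2`, `Cw (1/2) = cz`.
-/

open scoped ContDiff Manifold Topology unitInterval
open Set Filter
open Pool.Agent.CSG (stp)
open Pool.Agent.RSG (E3 E4 S2 S3 S4 ex cj c1 c2 ht fh pS2 pS3 pS4)
open Pool.Agent.RBM (ThickT OnT Box)
open Pool.Agent.LKF (OnF)
open Pool.Agent.PTH (SP ISP)
open Pool.Agent.KNH (circ)
open Pool.Agent.LKT (s1 s2 dir)

namespace Pool.Agent.MMV

/-! ## auxiliary lemmas -/

theorem lkv_scale {r : ℝ} (hr : 0 < r) (a b : ℂ) : pS3 ((r : ℂ) * a) ((r : ℂ) * b) = pS3 a b := by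
  have hv : (WithLp.toLp 2 ![((r : ℂ) * a).re, ((r : ℂ) * a).im, ((r : ℂ) * b).re, ((r : ℂ) * b).im] : E4)
      = r • (WithLp.toLp 2 ![a.re, a.im, b.re, b.im] : E4) := by
    ext i
    fin_cases i <;> simp
  unfold RSG.pS3
  rw [hv]
  by_cases h0 : (WithLp.toLp 2 ![a.re, a.im, b.re, b.im] : E4) = 0
  · rw [h0, smul_zero]
  · have h1 : r • (WithLp.toLp 2 ![a.re, a.im, b.re, b.im] : E4) ≠ 0 := smul_ne_zero hr.ne' h0
    apply Subtype.ext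
    rw [RSG.toSph_coe _ h1, RSG.toSph_coe _ h0, norm_smul, Real.norm_of_nonneg hr.le, smul_smul, mul_inv,
      mul_comm r⁻¹, mul_assoc, inv_mul_cancel₀ hr.ne', mul_one]

theorem lkv_two {u : ℂ} (h : ‖u‖ ≤ 1) : 2 + u ≠ 0 := by
  intro h0
  have h1 : u = -2 := by linear_combination h0
  rw [h1, norm_neg] at h
  norm_num at h

theorem lkv_norm {u : ℂ} (h : ‖u‖ ≤ 1) : (1 - ‖mw u‖ ^ 2) * ‖2 + u‖ ^ 2 = 3 * (1 - ‖u‖ ^ 2) := by
  have h0 := lkv_two h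
  have h1 : mw u * (2 + u) = -(1 + 2 * u) := by
    unfold mw
    rw [div_mul_cancel₀ _ h0]
  have h2 : ‖mw u‖ ^ 2 * ‖2 + u‖ ^ 2 = ‖1 + 2 * u‖ ^ 2 := by
    rw [← mul_pow, ← norm_mul, h1, norm_neg]
  have h3 : ‖1 + 2 * u‖ ^ 2 = (1 + 2 * u.re) ^ 2 + (2 * u.im) ^ 2 := by
    rw [Complex.sq_norm, Complex.normSq_apply]
    simp
    ring
  have h4 : ‖2 + u‖ ^ 2 = (2 + u.re) ^ 2 + u.im ^ 2 := by
    rw [Complex.sq_norm, Complex.normSq_apply]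
    simp
    ring
  have h5 : ‖u‖ ^ 2 = u.re ^ 2 + u.im ^ 2 := by
    rw [Complex.sq_norm, Complex.normSq_apply]
    ring
  rw [sub_mul, h2, h3, one_mul, h4, h5]
  ring

theorem lkv_two_pos {u : ℂ} (h : ‖u‖ ≤ 1) : 0 < ‖2 + u‖ ^ 2 := by
  have h1 : 0 < ‖2 + u‖ := norm_pos_iff.2 (lkv_two h)
  positivity

theorem lkv_per {M : Type*} {ρ₀ : ℝ × E3 → M} (hp : ∀ l : ℝ, ρ₀ (l + 1, 0) = ρ₀ (l, 0)) (l : ℝ) (m : ℤ) :
    ρ₀ (l + m, 0) = ρ₀ (l, 0) := by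
  induction m using Int.induction_on with
  | zero => simp
  | succ i ih =>
    have h1 : l + (((i : ℤ) + 1 : ℤ) : ℝ) = (l + ((i : ℤ) : ℝ)) + 1 := by
      push_cast
      ring
    rw [h1, hp, ih]
  | pred i ih =>
    have h1 := hp (l + ((-(i : ℤ) - 1 : ℤ) : ℝ))
    have h2 : (l + ((-(i : ℤ) - 1 : ℤ) : ℝ)) + 1 = l + ((-(i : ℤ) : ℤ) : ℝ) := by
      push_cast
      ring
    rw [h2] at h1
    rw [← h1, ih]

theorem Cw_bd {a : ℝ} (h : 1 / 2 ≤ a) (h' : a ≤ 1) : 0 ≤ Cw a ∧ Cw a < 1 := by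
  have hs := Real.sqrt_nonneg (1 - a ^ 2)
  have hss : Real.sqrt (1 - a ^ 2) ^ 2 = 1 - a ^ 2 := Real.sq_sqrt (by nlinarith)
  have hd : 0 < 1 + 575 * a ^ 2 := by positivity
  have ha : 0 ≤ a := by linarith
  unfold Cw
  refine ⟨by positivity, ?_⟩
  rw [div_lt_one hd]
  nlinarith [sq_nonneg (a - Real.sqrt (1 - a ^ 2))]

theorem Cw_half : Cw (1 / 2) = cz := by
  have h1 : Real.sqrt (1 - (1 / 2) ^ 2) = Real.sqrt 3 / 2 := by
    rw [show (1 - (1 / 2) ^ 2 : ℝ) = 3 / 2 ^ 2 by norm_num, Real.sqrt_div (by norm_num),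
      Real.sqrt_sq (by norm_num)]
  unfold Cw cz
  rw [h1]
  ring

theorem Cw_cont : Continuous Cw := by
  unfold Cw
  refine Continuous.div (by fun_prop) (by fun_prop) ?_
  intro a
  positivity

theorem cz_bd : 0 < cz ∧ cz < 1 / 4 ∧ Real.sqrt (1 - cz ^ 2) = 191 / 193 := by
  have h3 : Real.sqrt 3 ^ 2 = 3 := Real.sq_sqrt (by norm_num)
  have hp : 0 < Real.sqrt 3 := Real.sqrt_pos.2 (by norm_num)
  have hl : Real.sqrt 3 < 2 := by nlinarith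
  refine ⟨by unfold cz; positivity, by unfold cz; linarith, ?_⟩
  have h4 : 1 - cz ^ 2 = (191 / 193 : ℝ) ^ 2 := by
    unfold cz
    rw [div_pow, mul_pow, h3]
    norm_num
  rw [h4, Real.sqrt_sq (by norm_num)]

theorem mw_mw {u : ℂ} (h : ‖u‖ ≤ 1) : mw (mw u) = u ∧ ‖mw u‖ ≤ 1 := by
  have h0 := lkv_two h
  constructor
  · have h1 : 2 + mw u = 3 / (2 + u) := by
      unfold mw
      field_simp
      ring
    have h2 : 1 + 2 * mw u = -3 * u / (2 + u) := by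
      unfold mw
      field_simp
      ring
    have h3 : mw (mw u) = -(1 + 2 * mw u) / (2 + mw u) := rfl
    rw [h3, h1, h2]
    field_simp
  · have h1 := lkv_norm h
    have h2 := lkv_two_pos h
    have h3 : 0 ≤ 3 * (1 - ‖u‖ ^ 2) := by nlinarith [norm_nonneg u]
    have h4 : 0 ≤ 1 - ‖mw u‖ ^ 2 := by
      by_contra h5
      push Not at h5
      have := mul_neg_of_neg_of_pos h5 h2
      linarith
    nlinarith [norm_nonneg (mw u)]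

theorem kv_seg {M : Type*} {K : SP → M} {mp : ℂ × S2 → M} {ρ₀ : ℝ × E3 → M} (h : KVal K mp ρ₀) {w : ℂ} {t : ℝ}
    (h1 : 1 / 2 ≤ ‖w‖) (h2 : ‖w‖ < 1) (ht : w = (‖w‖ : ℂ) * ex t) :
    K (bp ((Cw ‖w‖ : ℝ) : ℂ) 0 t) = mp (mw w, e₁) := by
  obtain ⟨a, ha⟩ : ∃ a : ℝ, a = ‖w‖ := ⟨_, rfl⟩
  rw [← ha] at h1 h2 ht ⊢
  obtain ⟨s, hs⟩ : ∃ s : ℝ, s = Real.sqrt (1 - a ^ 2) := ⟨_, rfl⟩
  have hs0 : 0 < s := by
    rw [hs]
    exact Real.sqrt_pos.2 (by nlinarith)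
  have hss : s ^ 2 = 1 - a ^ 2 := by
    rw [hs]
    exact Real.sq_sqrt (by nlinarith)
  have ha0 : 0 < a := by linarith
  obtain ⟨R, hR⟩ : ∃ R : ℝ, R = 24 * a / s := ⟨_, rfl⟩
  have hR0 : 0 < R := by
    rw [hR]
    positivity
  have hd : 0 < 1 + 575 * a ^ 2 := by positivity
  have hR2 : R ^ 2 = 576 * a ^ 2 / s ^ 2 := by
    rw [hR]
    ring
  have hW0 : (R : ℂ) * ex t ≠ 0 := mul_ne_zero (Complex.ofReal_ne_zero.2 hR0.ne') (RSG.ex_ne t)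
  have hWn : ‖(R : ℂ) * ex t‖ = R := by
    rw [norm_mul, RSG.ex_norm, mul_one, Complex.norm_real, Real.norm_of_nonneg hR0.le]
  have hk := h.pol ((R : ℂ) * ex t) e₁ hW0
  -- the point
  have hCw : Cw a = 48 * a * s / (1 + 575 * a ^ 2) := by
    unfold Cw
    rw [hs]
  have e1 : (1 + R ^ 2) * Cw a = 2 * R := by
    have h3 : 1 + R ^ 2 = (1 + 575 * a ^ 2) / s ^ 2 := by
      rw [hR2, eq_div_iff (by positivity), add_mul, div_mul_cancel₀ _ (by positivity), hss]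
      ring
    rw [h3, hCw, hR]
    field_simp
    norm_num
  have hsq : Real.sqrt (1 - Cw a ^ 2) = (577 * a ^ 2 - 1) / (1 + 575 * a ^ 2) := by
    have h3 : 1 - Cw a ^ 2 = ((577 * a ^ 2 - 1) / (1 + 575 * a ^ 2)) ^ 2 := by
      rw [hCw, div_pow, div_pow, eq_div_iff (by positivity), sub_mul, div_mul_cancel₀ _ (by positivity), mul_pow,
        hss]
      ring
    rw [h3, Real.sqrt_sq]
    apply div_nonneg _ hd.le
    nlinarith
  have e2 : (1 + R ^ 2) * Real.sqrt (1 - Cw a ^ 2) = R ^ 2 - 1 := by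
    have h3 : 1 + R ^ 2 = (1 + 575 * a ^ 2) / s ^ 2 := by
      rw [hR2, eq_div_iff (by positivity), add_mul, div_mul_cancel₀ _ (by positivity), hss]
      ring
    rw [hsq, h3, hR2]
    rw [div_mul_div_comm, mul_comm (1 + 575 * a ^ 2), mul_div_mul_right _ _ hd.ne', eq_sub_iff_add_eq]
    rw [eq_div_iff (by positivity), add_mul, div_mul_cancel₀ _ (by positivity), hss]
    ring
  have hp : pol ((R : ℂ) * ex t, e₁) = bp ((Cw a : ℝ) : ℂ) 0 t := by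
    unfold pol bp
    refine Prod.ext ?_ ?_
    · show sY ((‖(R : ℂ) * ex t‖ : ℝ) • e₁.1) = _
      rw [hWn]
      unfold sY
      have h3 : ‖R • e₁.1‖ ^ 2 = R ^ 2 := by
        rw [norm_smul, norm_eq_of_mem_sphere e₁, mul_one, Real.norm_eq_abs, sq_abs]
      have h4 : (R • e₁.1) 0 = R := by simp [e₁]
      have h5 : (R • e₁.1) 1 = 0 := by simp [e₁]
      have h6 : (R • e₁.1) 2 = 0 := by simp [e₁]
      have hr : 0 < 1 + R ^ 2 := by positivity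
      have h7 := lkv_scale hr ((Cw a : ℝ) : ℂ) ((Real.sqrt (1 - ‖((Cw a : ℝ) : ℂ)‖ ^ 2) : ℝ) * ex 0)
      show _ = pS3 ((Cw a : ℝ) : ℂ) ((Real.sqrt (1 - ‖((Cw a : ℝ) : ℂ)‖ ^ 2) : ℝ) * ex 0)
      rw [← h7, h3, h4, h5, h6]
      congr 1
      · rw [← Complex.ofReal_mul, e1]
        apply Complex.ext <;> simp
      · rw [RSG.ex_zero, mul_one, Complex.norm_real, Real.norm_eq_abs, sq_abs, ← Complex.ofReal_mul, e2]
        apply Complex.ext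
        · show R ^ 2 - 1 = ((R ^ 2 - 1 : ℝ) : ℂ).re
          rw [Complex.ofReal_re]
        · show 2 * (0 : ℝ) = ((R ^ 2 - 1 : ℝ) : ℂ).im
          rw [Complex.ofReal_im, mul_zero]
    · exact LKT.dir_mul_ex hR0
  rw [← hp, hk]
  -- the value
  have hn : ‖(R : ℂ) * ex t / 32‖ ^ 2 = 9 / 16 * (a ^ 2 / s ^ 2) := by
    rw [norm_div, hWn, div_pow, hR2]
    norm_num
    ring
  have hl : 3 / 32 ≤ ‖(R : ℂ) * ex t / 32‖ ^ 2 := by
    rw [hn]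
    have h3 : 1 / 6 ≤ a ^ 2 / s ^ 2 := by
      rw [div_le_div_iff₀ (by norm_num) (by positivity), hss]
      nlinarith
    linarith
  have hq : Real.sqrt (9 / 16 + ‖(R : ℂ) * ex t / 32‖ ^ 2) = 3 / (4 * s) := by
    have h3 : 9 / 16 + ‖(R : ℂ) * ex t / 32‖ ^ 2 = (3 / (4 * s)) ^ 2 := by
      rw [hn]
      have h4 : a ^ 2 = 1 - s ^ 2 := by linarith
      rw [h4]
      field_simp
      ring
    rw [h3, Real.sqrt_sq (by positivity)]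
  have hw : (R : ℂ) * ex t / 32 / ((Real.sqrt (9 / 16 + ‖(R : ℂ) * ex t / 32‖ ^ 2) : ℝ) : ℂ) = w := by
    rw [hq, ht, hR]
    have h3 : (s : ℂ) ≠ 0 := Complex.ofReal_ne_zero.2 hs0.ne'
    push_cast
    field_simp
    ring
  rw [Kp_large hl, hw]
  rfl

theorem kv_circ {M : Type*} {K : SP → M} {mp : ℂ × S2 → M} {ρ₀ : ℝ × E3 → M} (h : KVal K mp ρ₀) {t l : ℝ}
    (hl : ex l * (2 + ex t) = -(1 + 2 * ex t)) : K (bp ((Cw 1 : ℝ) : ℂ) 0 t) = ρ₀ (l, 0) := by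
  have hC : Cw 1 = 0 := by
    unfold Cw
    norm_num
  have hb : bp ((Cw 1 : ℝ) : ℂ) 0 t = tubN (t, 0) := by
    unfold bp tubN
    refine Prod.ext ?_ rfl
    show pS3 ((Cw 1 : ℝ) : ℂ) ((Real.sqrt (1 - ‖((Cw 1 : ℝ) : ℂ)‖ ^ 2) : ℝ) * ex 0) = Inv (sY 0)
    have h1 : sY 0 = pS3 0 (-1) := by
      unfold sY
      congr 1
      · apply Complex.ext <;> simp
      · apply Complex.ext <;> simp
    have h2 : s1 (pS3 0 (-1)) = 0 ∧ s2 (pS3 0 (-1)) = -1 := LKT.s_mk (by simp)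
    rw [h1]
    unfold Inv
    rw [h2.1, h2.2, hC, RSG.ex_zero]
    congr 1
    simp
  have hA : (2 + ex t : ℂ) ≠ 0 := lkv_two (RSG.ex_norm t).le
  have hB : (2 + ex (-t) : ℂ) ≠ 0 := lkv_two (RSG.ex_norm (-t)).le
  have hAB : ‖(2 + ex (-t) : ℂ)‖ = ‖(2 + ex t : ℂ)‖ := by
    have h1 : (2 + ex (-t) : ℂ) = (starRingEnd ℂ) (2 + ex t) := by
      rw [map_add, RSG.ex_neg, map_ofNat]
    rw [h1, Complex.norm_conj]
  have hl' : (lN (t, 0)).1 = 1 / 2 + t + (LKT.an (2 + ex (-t)) + -LKT.an (2 + ex t)) := by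
    unfold lN LKT.an
    have h1 : Real.sqrt (1 + 576 * ‖(0 : E3)‖ ^ 2) = 1 := by
      rw [norm_zero]
      norm_num
    show 1 / 2 + t + (Complex.arg (2 + ex (-t) * (Real.sqrt (1 + 576 * ‖(0 : E3)‖ ^ 2) : ℝ)) -
      Complex.arg (2 + ex t / (Real.sqrt (1 + 576 * ‖(0 : E3)‖ ^ 2) : ℝ))) / (2 * Real.pi) = _
    rw [h1, Complex.ofReal_one, mul_one, div_one]
    ring
  have hex : ex (lN (t, 0)).1 = ex l := by
    have hn : (‖(2 + ex t : ℂ)‖ : ℂ) ≠ 0 := Complex.ofReal_ne_zero.2 (norm_ne_zero_iff.2 hA)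
    have h3 : ex (-LKT.an (2 + ex t)) * ((2 + ex t) / ‖(2 + ex t : ℂ)‖) = 1 := by
      rw [← LKT.ex_an hA, ← RSG.ex_add, neg_add_cancel, RSG.ex_zero]
    have h4 : ex (-LKT.an (2 + ex t)) * (2 + ex t) = (‖(2 + ex t : ℂ)‖ : ℂ) := by
      rw [mul_div_assoc', div_eq_iff hn, one_mul] at h3
      exact h3
    have h5 : ex t * ex (-t) = 1 := by rw [← RSG.ex_add, add_neg_cancel, RSG.ex_zero]
    have h6 : ex (lN (t, 0)).1 * (2 + ex t) = -(1 + 2 * ex t) := by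
      rw [hl', RSG.ex_add, RSG.ex_add, RSG.ex_add, RSG.ex_half, LKT.ex_an hB, hAB]
      have h7 : -1 * ex t * ((2 + ex (-t)) / (‖(2 + ex t : ℂ)‖ : ℂ) * ex (-LKT.an (2 + ex t))) * (2 + ex t) =
          -1 * ex t * (2 + ex (-t)) / (‖(2 + ex t : ℂ)‖ : ℂ) * (ex (-LKT.an (2 + ex t)) * (2 + ex t)) := by
        ring
      rw [h7, h4, div_mul_cancel₀ _ hn]
      linear_combination (-1 : ℂ) * h5
    exact mul_right_cancel₀ hA (h6.trans hl.symm)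
  obtain ⟨m, hm⟩ := RSG.ex_eq_iff.1 hex
  rw [hb, h.north, hm, lkv_per h.per]

theorem kv_pt {M : Type*} {K : SP → M} {mp : ℂ × S2 → M} {ρ₀ : ℝ × E3 → M} (h : KVal K mp ρ₀) {u : ℂ} {t : ℝ}
    (hu : ‖u‖ ≤ 1) (h1 : 1 / 2 ≤ ‖mw u‖) (ht : mw u = (‖mw u‖ : ℂ) * ex t) :
    ptM mp ρ₀ u = K (bp ((Cw ‖mw u‖ : ℝ) : ℂ) 0 t) := by
  have hn := lkv_norm hu
  have hp := lkv_two_pos hu
  have hm := mw_mw hu
  unfold ptM
  by_cases h2 : ‖u‖ < 1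
  · rw [if_pos h2]
    have h3 : 0 < 3 * (1 - ‖u‖ ^ 2) := by nlinarith [norm_nonneg u]
    have h4 : ‖mw u‖ < 1 := by
      have h5 : 0 < 1 - ‖mw u‖ ^ 2 := by
        by_contra h6
        push Not at h6
        have := mul_nonpos_of_nonpos_of_nonneg h6 hp.le
        linarith
      nlinarith [norm_nonneg (mw u)]
    rw [kv_seg h h1 h4 ht, hm.1]
  · rw [if_neg h2]
    have h3 : ‖u‖ = 1 := le_antisymm hu (not_lt.1 h2)
    have h4 : ‖mw u‖ = 1 := by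
      rw [h3] at hn
      have h5 : 1 - ‖mw u‖ ^ 2 = 0 := by
        have h6 : (1 - ‖mw u‖ ^ 2) * ‖2 + u‖ ^ 2 = 0 := by
          rw [hn]
          norm_num
        rcases mul_eq_zero.1 h6 with h7 | h7
        · exact h7
        · exact absurd h7 hp.ne'
      nlinarith [norm_nonneg (mw u)]
    rw [h4] at ht ⊢
    rw [Complex.ofReal_one, one_mul] at ht
    symm
    apply kv_circ h
    have h5 : ex (Complex.arg u / (2 * Real.pi)) = u := LKT.ex_an1 h3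
    have h6 : mw u * (2 + u) = -(1 + 2 * u) := by
      unfold mw
      rw [div_mul_cancel₀ _ (lkv_two hu)]
    rw [h5, ← ht]
    linear_combination h6

/-- the base point -/
theorem kv_base {M : Type*} {K : SP → M} {mp : ℂ × S2 → M} {ρ₀ : ℝ × E3 → M} (h : KVal K mp ρ₀) :
    K (bp (cz : ℂ) 0 (1 / 2)) = mp (0, e₁) := by
  have hn : ‖(-1 / 2 : ℂ)‖ = 1 / 2 := by
    rw [norm_div, norm_neg]
    norm_num
  have h1 := kv_seg h (w := (-1 / 2 : ℂ)) (t := 1 / 2) (by rw [hn]) (by rw [hn]; norm_num) (by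
    rw [hn, RSG.ex_half]
    push_cast
    ring)
  rw [hn, Cw_half] at h1
  have h2 : mw (-1 / 2) = 0 := by
    unfold mw
    norm_num
  rw [h1, h2]

end Pool.Agent.MMV
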