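import Pool.Agent.MMV.LKv
import Pool.Agent.MMV.LAr

/-!
# MMV/LKw
: a path in the disc is an admissible path in the half plane `z = 0`   (difficulty 3)

`w τ = mw (u τ) = -(1 + 2 u)/(2 + u)` (continuous, `2 + u ≠ 0`), `w 0 = w 1 = -1/2`, `w (1/2) = -(1 - 2)/(2 - 1) = 1`, `Im w = -3 Im u/‖2 + u‖²` (imaginary part of `(1 + 2 u)(2 + conj u)` is `4 Im u - Im u`).
`1/2 ≤ ‖w‖`: `4 ‖1 + 2u‖² - ‖2 + u‖² = 12 Re u + 15 ‖u‖² ≥ 0` (hypothesis `hb`).  `‖w‖ ≤ 1`: `mw_mw`.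
`lift_arc` for `P τ = -w τ`, `sg = 1`, gives `ζ` with `-w τ = ‖w τ‖ ex (ζ τ)`; `t τ = 1/2 + ζ τ`, so `w τ = ‖w τ‖ ex (t τ)` (`ex (1/2) = -1`), `t 0 = 1/2`, `t 1 = 3/2`.  `c τ = Cw ‖w τ‖` (`Cw_cont`, `Cw_bd`, `Cw_half`), `z = 0`, `m = 0`, `n = 1`; `kv_pt` for the last clause.
Off the shadow: `circ (t τ) = -1` means `ex (ζ τ) = 1`, so `-w τ = ‖w τ‖` is real and positive; by the imaginary part (and the value at `1/2`) this is only possible for `τ = 0, 1`, where `c = cz` and `√(1 - cz²) cos 0 = 191/193 < 1023/1025` (`cz_bd`).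
-/

open scoped ContDiff Manifold Topology unitInterval
open Set Filter
open Pool.Agent.CSG (stp)
open Pool.Agent.RSG (E3 E4 S2 S3 S4 ex cj c1 c2 ht fh pS2 pS3 pS4)
open Pool.Agent.RBM (ThickT OnT Box)
open Pool.Agent.LKF (OnF)
open Pool.Agent.PTH (SP ISP)
open Pool.Agent.KNH (circ)
open Pool.Agent.LKT (s1 s2 dir)

namespace Pool.Agent.MMV

theorem lkw_two {u : ℂ} (h : ‖u‖ ≤ 1) : 2 + u ≠ 0 := by
  intro h0
  have h1 : u = -2 := by linear_combination h0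
  rw [h1, norm_neg] at h
  norm_num at h

theorem lkw_sq (u : ℂ) : ‖u‖ ^ 2 = u.re ^ 2 + u.im ^ 2 := by
  rw [Complex.sq_norm, Complex.normSq_apply]
  ring

theorem lkw_im {u : ℂ} (h : ‖u‖ ≤ 1) : (-mw u).im * ‖2 + u‖ ^ 2 = 3 * u.im := by
  have h0 := lkw_two h
  have h1 : -mw u * (2 + u) = 1 + 2 * u := by
    unfold mw
    rw [neg_mul, div_mul_cancel₀ _ h0]
    ring
  have h2 := congrArg Complex.re h1
  have h3 := congrArg Complex.im h1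
  rw [Complex.mul_re] at h2
  rw [Complex.mul_im] at h3
  have e1 : (2 + u : ℂ).re = 2 + u.re := by simp
  have e2 : (2 + u : ℂ).im = u.im := by simp
  have e3 : (1 + 2 * u : ℂ).re = 1 + 2 * u.re := by simp
  have e4 : (1 + 2 * u : ℂ).im = 2 * u.im := by simp
  rw [e1, e2, e3] at h2
  rw [e1, e2, e4] at h3
  rw [lkw_sq (2 + u), e1, e2]
  linear_combination (2 + u.re) * h3 - u.im * h2

theorem lkw_half {u : ℂ} (h : ‖u‖ ≤ 1) (hb : 0 ≤ 4 * u.re + 5 * ‖u‖ ^ 2) : 1 / 2 ≤ ‖mw u‖ := by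
  have h0 := lkw_two h
  have h1 : mw u * (2 + u) = -(1 + 2 * u) := by
    unfold mw
    rw [div_mul_cancel₀ _ h0]
  have h2 : ‖mw u‖ ^ 2 * ‖2 + u‖ ^ 2 = ‖1 + 2 * u‖ ^ 2 := by
    rw [← mul_pow, ← norm_mul, h1, norm_neg]
  have e1 : (2 + u : ℂ).re = 2 + u.re := by simp
  have e2 : (2 + u : ℂ).im = u.im := by simp
  have e3 : (1 + 2 * u : ℂ).re = 1 + 2 * u.re := by simp
  have e4 : (1 + 2 * u : ℂ).im = 2 * u.im := by simp
  have h3 : 0 < ‖2 + u‖ ^ 2 := by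
    have := norm_pos_iff.2 h0
    positivity
  rw [lkw_sq u] at hb
  have h4 : ‖2 + u‖ ^ 2 ≤ 4 * ‖1 + 2 * u‖ ^ 2 := by
    rw [lkw_sq (2 + u), lkw_sq (1 + 2 * u), e1, e2, e3, e4]
    nlinarith
  rw [← h2] at h4
  have h5 : 1 ≤ 4 * ‖mw u‖ ^ 2 := by
    by_contra h6
    push Not at h6
    nlinarith
  nlinarith [norm_nonneg (mw u)]

theorem disc_path {M : Type*} {K : SP → M} {mp : ℂ × S2 → M} {ρ₀ : ℝ × E3 → M} (h : KVal K mp ρ₀) {u : ℝ → ℂ}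
    (hu : ContinuousOn u (Icc 0 1)) (u0 : u 0 = 0) (u1 : u 1 = 0) (um : u (1 / 2) = -1)
    (hb : ∀ τ ∈ Icc (0 : ℝ) 1, ‖u τ‖ ≤ 1 ∧ 0 ≤ 4 * (u τ).re + 5 * ‖u τ‖ ^ 2) (hl : ∀ τ ∈ Ioo (0 : ℝ) (1 / 2), 0 < (u τ).im)
    (hr : ∀ τ ∈ Ioo (1 / 2 : ℝ) 1, (u τ).im < 0) :
    ∃ c t : ℝ → ℝ, Adm c (fun _ => 0) t 0 1 ∧ ∀ τ ∈ Icc (0 : ℝ) 1, ptM mp ρ₀ (u τ) = K (bp ((c τ : ℝ) : ℂ) 0 (t τ)) := by
  have hw : ContinuousOn (fun τ => mw (u τ)) (Icc 0 1) := by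
    unfold mw
    refine ContinuousOn.div (by fun_prop) (by fun_prop) ?_
    intro τ hτ
    exact lkw_two (hb τ hτ).1
  have m0 : mw 0 = -1 / 2 := by
    unfold mw
    norm_num
  have m1 : mw (-1) = 1 := by
    unfold mw
    norm_num
  have him : ∀ τ ∈ Icc (0 : ℝ) 1, ∃ k : ℝ, 0 < k ∧ (-mw (u τ)).im * k = 3 * (u τ).im := by
    intro τ hτ
    refine ⟨‖2 + u τ‖ ^ 2, ?_, lkw_im (hb τ hτ).1⟩
    have := norm_pos_iff.2 (lkw_two (hb τ hτ).1)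
    positivity
  have hil : ∀ τ ∈ Ioo (0 : ℝ) (1 / 2), 0 < (-mw (u τ)).im := by
    intro τ hτ
    obtain ⟨k, hk, h1⟩ := him τ ⟨hτ.1.le, by linarith [hτ.2]⟩
    have h2 := hl τ hτ
    by_contra h3
    push Not at h3
    nlinarith
  have hir : ∀ τ ∈ Ioo (1 / 2 : ℝ) 1, (-mw (u τ)).im < 0 := by
    intro τ hτ
    obtain ⟨k, hk, h1⟩ := him τ ⟨by linarith [hτ.1], hτ.2.le⟩
    have h2 := hr τ hτ
    by_contra h3
    push Not at h3
    nlinarith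
  obtain ⟨ζ, hζ, hζ0, hζ1, hζe⟩ := lift_arc (P := fun τ => -mw (u τ)) hw.neg (sg := 1) (Or.inl rfl)
    (by
      show (-mw (u 0)).im = 0 ∧ 0 < (-mw (u 0)).re
      rw [u0, m0]
      norm_num)
    (by
      show (-mw (u 1)).im = 0 ∧ 0 < (-mw (u 1)).re
      rw [u1, m0]
      norm_num)
    (by
      show (-mw (u (1 / 2))).im = 0 ∧ (-mw (u (1 / 2))).re < 0
      rw [um, m1]
      norm_num)
    (by
      intro τ hτ
      have := hil τ hτ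
      simpa using this)
    (by
      intro τ hτ
      have := hir τ hτ
      simpa using this)
  have hhf : ∀ τ ∈ Icc (0 : ℝ) 1, 1 / 2 ≤ ‖mw (u τ)‖ := fun τ hτ => lkw_half (hb τ hτ).1 (hb τ hτ).2
  have hdir : ∀ τ ∈ Icc (0 : ℝ) 1, mw (u τ) = (‖mw (u τ)‖ : ℂ) * ex (1 / 2 + ζ τ) := by
    intro τ hτ
    have h1 : -mw (u τ) = (‖-mw (u τ)‖ : ℂ) * ex (ζ τ) := hζe τ hτ
    rw [norm_neg] at h1
    rw [RSG.ex_add, RSG.ex_half]
    linear_combination (-1 : ℂ) * h1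
  have n0 : ‖(-1 / 2 : ℂ)‖ = 1 / 2 := by
    rw [norm_div, norm_neg]
    norm_num
  have c0 : Cw ‖mw (u 0)‖ = cz := by rw [u0, m0, n0, Cw_half]
  have c1 : Cw ‖mw (u 1)‖ = cz := by rw [u1, m0, n0, Cw_half]
  refine ⟨fun τ => Cw ‖mw (u τ)‖, fun τ => 1 / 2 + ζ τ, ?_, ?_⟩
  · refine ⟨Cw_cont.comp_continuousOn hw.norm, continuousOn_const, continuousOn_const.add hζ, c0, c1, rfl, ?_,
      ?_, ?_, ?_, ?_⟩
    · simp
    · show 1 / 2 + ζ 0 = 1 / 2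
      rw [hζ0, add_zero]
    · show 1 / 2 + ζ 1 = 1 / 2 + ((1 : ℤ) : ℝ)
      rw [hζ1]
    · intro τ hτ
      exact Cw_bd (hhf τ hτ) (mw_mw (hb τ hτ).1).2
    · intro τ hτ hS
      obtain ⟨h1, h2⟩ := hS
      have h1 : ((circ (1 / 2 + ζ τ) : Circle) : ℂ) = -1 := h1
      rw [LKT.coe_circ, RSG.ex_add, RSG.ex_half] at h1
      have h3 : ex (ζ τ) = 1 := by linear_combination (-1 : ℂ) * h1
      have h4 : -mw (u τ) = (‖-mw (u τ)‖ : ℂ) * ex (ζ τ) := hζe τ hτ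
      rw [h3, mul_one] at h4
      have h5 : (-mw (u τ)).im = 0 := by
        rw [h4, Complex.ofReal_im]
      have h6 : 0 ≤ (-mw (u τ)).re := by
        rw [h4, Complex.ofReal_re]
        exact norm_nonneg _
      have hend : Cw ‖mw (u τ)‖ = cz → False := by
        intro h7
        have h8 : 1023 / 1025 ≤ Real.sqrt (1 - (Cw ‖mw (u τ)‖) ^ 2) * Real.cos (2 * Real.pi * 0) := h2
        rw [h7, cz_bd.2.2, mul_zero, Real.cos_zero] at h8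
        norm_num at h8
      rcases eq_or_lt_of_le hτ.1 with h7 | h7
      · rw [← h7] at hend
        exact hend c0
      rcases eq_or_lt_of_le hτ.2 with h8 | h8
      · rw [h8] at hend
        exact hend c1
      rcases lt_trichotomy τ (1 / 2) with h9 | h9 | h9
      · exact absurd h5 (hil τ ⟨h7, h9⟩).ne'
      · rw [h9, um, m1] at h6
        norm_num at h6
      · exact absurd h5 (hir τ ⟨h9, h8⟩).ne
  · intro τ hτ
    exact kv_pt h (hb τ hτ).1 (hhf τ hτ) (hdir τ hτ)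

end Pool.Agent.MMV
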