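import Pool.Agent.MMV.LV0
import Pool.Agent.MMV.LKp

/-!
# MMV/LPh: comparison of `V0` and `Kp` on the negative real axis   (difficulty 3)

`v r = Re V0 (-r) ∈ (-1/2, 0]` for `0 < r ≤ 1`, continuous (`V0_ld` gives continuity).  `κ ρ = Re Kp (-ρ)`, `ρ > 0`: `Kp (-ρ)` is real (`Kp_conj`), `κ` is continuous and injective (`Kp_inj`), hence strictly monotone on `(0, ∞)` (`Continuous.strictMono_of_inj` type lemmas on an interval), increasing:
`κ ρ = -1/2 + ρ` for `ρ ≤ 1/16`; `κ 1 = 1/2` (`Kp_half`).  Every `u ∈ (-1/2, 0]` is `κ ρ` with a unique `ρ` (by `Kp_surj` and `Kp_conj`: the solution `W` of `Kp W = u` is real by injectivity; it is negative by `Kp_pos`), and the inverse of `κ` is continuous (strictly monotone and onto an interval;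
or inverse function theorem from `Kp_ld`).  Let `φ r` be the `ρ` with `κ ρ = v r`.  `φ 1`: `v 1 = Re V0 (-1) = 0` (`V0_re`: `|W| = 1`; `V0_neg`), and `Kp (-√3/4) = 0` by `Kp_large` (`|W|² = 3/16`, `√(9/16 + 3/16) = √3/2`, `W' = -1/2`).
`φ r ≤ √3/4`: `κ` is increasing and `v r ≤ 0`.  `φ (1/64) = 1/64`: `V0_small`, `Kp_small`.
-/

open scoped ContDiff Manifold Topology unitInterval
open Set Filter
open Pool.Agent.RSG (E3 E4 S2 S3 S4 ex cj c1 c2 ht fh pS2 pS3 pS4)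
open Pool.Agent.RBM (ThickT OnT Box)
open Pool.Agent.LKF (OnF)
open Pool.Agent.PTH (SP ISP)
open Pool.Agent.KNH (circ)
open Pool.Agent.LKT (s1 s2 dir)

namespace Pool.Agent.MMV

theorem Kp_root : Kp (-((Real.sqrt 3 / 4 : ℝ) : ℂ)) = 0 := by
  have h3 : (0 : ℝ) ≤ 3 := by norm_num
  have hs : Real.sqrt 3 ^ 2 = 3 := Real.sq_sqrt h3
  have hs0 : 0 < Real.sqrt 3 := Real.sqrt_pos.2 (by norm_num)
  have hn : ‖(-((Real.sqrt 3 / 4 : ℝ) : ℂ))‖ ^ 2 = 3 / 16 := by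
    rw [norm_neg, Complex.norm_real, Real.norm_eq_abs, sq_abs]
    rw [div_pow, hs]
    norm_num
  rw [Kp_large (by rw [hn]; norm_num), hn]
  have h1 : Real.sqrt (9 / 16 + 3 / 16) = Real.sqrt 3 / 2 := by
    rw [show (9 / 16 + 3 / 16 : ℝ) = (Real.sqrt 3 / 2) ^ 2 by rw [div_pow, hs]; norm_num]
    exact Real.sqrt_sq (by positivity)
  rw [h1]
  have hsc : ((Real.sqrt 3 : ℝ) : ℂ) ≠ 0 := by
    exact_mod_cast hs0.ne'
  have h2 : -((Real.sqrt 3 / 4 : ℝ) : ℂ) / ((Real.sqrt 3 / 2 : ℝ) : ℂ) = -1 / 2 := by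
    push_cast
    field_simp
    norm_num
  rw [h2]
  norm_num

theorem lph_Kp_real (x : ℝ) : Kp (-(x : ℂ)) = (((Kp (-(x : ℂ))).re : ℝ) : ℂ) := by
  have h := Kp_conj (-(x : ℂ))
  rw [map_neg, Complex.conj_ofReal] at h
  exact (Complex.conj_eq_iff_re.1 h.symm).symm

theorem lph_cont_Kp : ContinuousOn (fun x : ℝ => (Kp (-(x : ℂ))).re) (Ioi 0) := by
  intro x hx
  have hne : (-(x : ℂ)) ≠ 0 := by
    have : x ≠ 0 := (mem_Ioi.1 hx).ne'
    simpa using this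
  have h1 : ContinuousAt Kp (-(x : ℂ)) := (Kp_ld hne).contMDiffAt.continuousAt
  have h2 : ContinuousAt (fun x : ℝ => (-(x : ℂ))) x := by fun_prop
  have h3 : ContinuousAt (fun x : ℝ => Kp (-(x : ℂ))) x := ContinuousAt.comp (f := fun x : ℝ => (-(x : ℂ))) h1 h2
  exact (Complex.continuous_re.continuousAt.comp h3).continuousWithinAt

theorem lph_cont_V0 : ContinuousOn (fun x : ℝ => (V0 (-(x : ℂ))).re) (Ioi 0) := by
  intro x hx
  have hx0 : (0 : ℝ) < x := hx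
  have hne : (-(x : ℂ)) ≠ 0 := by
    have : x ≠ 0 := hx0.ne'
    simpa using this
  have hne1 : (-(x : ℂ)) ≠ 1 := by
    intro h
    have h2 : (-(x : ℂ)).re = (1 : ℂ).re := by rw [h]
    simp at h2
    linarith
  have h1 : ContinuousAt V0 (-(x : ℂ)) := (V0_ld hne hne1).contMDiffAt.continuousAt
  have h2 : ContinuousAt (fun x : ℝ => (-(x : ℂ))) x := by fun_prop
  have h3 : ContinuousAt (fun x : ℝ => V0 (-(x : ℂ))) x := ContinuousAt.comp (f := fun x : ℝ => (-(x : ℂ))) h1 h2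
  exact (Complex.continuous_re.continuousAt.comp h3).continuousWithinAt

theorem lph_inj : InjOn (fun x : ℝ => (Kp (-(x : ℂ))).re) (Ioi 0) := by
  intro x hx y hy h
  have hx0 : (-(x : ℂ)) ≠ 0 := by
    have : x ≠ 0 := (mem_Ioi.1 hx).ne'
    simpa using this
  have hy0 : (-(y : ℂ)) ≠ 0 := by
    have : y ≠ 0 := (mem_Ioi.1 hy).ne'
    simpa using this
  have h' : (Kp (-(x : ℂ))).re = (Kp (-(y : ℂ))).re := h
  have h1 : Kp (-(x : ℂ)) = Kp (-(y : ℂ)) := by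
    rw [lph_Kp_real x, lph_Kp_real y, h']
  have h2 := Kp_inj hx0 hy0 h1
  exact_mod_cast neg_injective h2

theorem lph_small {x : ℝ} (hx : 0 < x) (hx' : x ≤ 1 / 16) : (Kp (-(x : ℂ))).re = -1 / 2 + x := by
  have hne : (-(x : ℂ)) ≠ 0 := by
    have : x ≠ 0 := hx.ne'
    simpa using this
  have hn : ‖(-(x : ℂ))‖ ≤ 1 / 16 := by
    rw [norm_neg, Complex.norm_real, Real.norm_eq_abs, abs_of_pos hx]
    exact hx'
  rw [Kp_small hne hn]
  simp

theorem lph_root : (Kp (-((Real.sqrt 3 / 4 : ℝ) : ℂ))).re = 0 := by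
  rw [Kp_root]
  simp

theorem lph_sq : (1 : ℝ) / 16 < Real.sqrt 3 / 4 := by
  have : (1 : ℝ) ≤ Real.sqrt 3 := by
    rw [Real.one_le_sqrt]
    norm_num
  linarith

theorem lph_mono : StrictMonoOn (fun x : ℝ => (Kp (-(x : ℂ))).re) (Ioc 0 (Real.sqrt 3 / 4)) := by
  intro x hx y hy hxy
  have hsq := lph_sq
  have he : 0 < min x (1 / 16) := lt_min hx.1 (by norm_num)
  have hsub : Icc (min x (1 / 16)) (Real.sqrt 3 / 4) ⊆ Ioi 0 := fun z hz => lt_of_lt_of_le he hz.1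
  have hle : min x (1 / 16) ≤ Real.sqrt 3 / 4 := (min_le_right _ _).trans hsq.le
  have hm : StrictMonoOn (fun x : ℝ => (Kp (-(x : ℂ))).re) (Icc (min x (1 / 16)) (Real.sqrt 3 / 4)) := by
    apply ContinuousOn.strictMonoOn_of_injOn_Icc hle ?_ (lph_cont_Kp.mono hsub) (lph_inj.mono hsub)
    show (Kp (-((min x (1 / 16) : ℝ) : ℂ))).re ≤ (Kp (-((Real.sqrt 3 / 4 : ℝ) : ℂ))).re
    rw [lph_root, lph_small he (min_le_right _ _)]
    have : min x (1 / 16) ≤ 1 / 16 := min_le_right _ _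
    linarith
  exact hm ⟨min_le_left _ _, hx.2⟩ ⟨(min_le_left _ _).trans hxy.le, hy.2⟩ hxy

theorem lph_onto {u : ℝ} (hu : -1 / 2 < u) (hu' : u ≤ 0) :
    ∃ x ∈ Ioc (0 : ℝ) (Real.sqrt 3 / 4), (Kp (-(x : ℂ))).re = u := by
  have hsq := lph_sq
  have he : 0 < min (1 / 16) (u + 1 / 2) := lt_min (by norm_num) (by linarith)
  have hle : min (1 / 16) (u + 1 / 2) ≤ Real.sqrt 3 / 4 := (min_le_left _ _).trans hsq.le
  have hsub : Icc (min (1 / 16) (u + 1 / 2)) (Real.sqrt 3 / 4) ⊆ Ioi 0 := fun z hz => lt_of_lt_of_le he hz.1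
  have h1 := intermediate_value_Icc hle (lph_cont_Kp.mono hsub)
  have h2 : u ∈ Icc ((fun x : ℝ => (Kp (-(x : ℂ))).re) (min (1 / 16) (u + 1 / 2)))
      ((fun x : ℝ => (Kp (-(x : ℂ))).re) (Real.sqrt 3 / 4)) := by
    constructor
    · show (Kp (-((min (1 / 16) (u + 1 / 2) : ℝ) : ℂ))).re ≤ u
      rw [lph_small he (min_le_left _ _)]
      have : min (1 / 16) (u + 1 / 2) ≤ u + 1 / 2 := min_le_right _ _
      linarith
    · show u ≤ (Kp (-((Real.sqrt 3 / 4 : ℝ) : ℂ))).re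
      rw [lph_root]
      exact hu'
  obtain ⟨x, hx, hxu⟩ := h1 h2
  exact ⟨x, ⟨hsub hx, hx.2⟩, hxu⟩

theorem exists_phi : ∃ φ : ℝ → ℝ, ContinuousOn φ (Ioc 0 1) ∧ φ 1 = Real.sqrt 3 / 4 ∧ φ (1 / 64) = 1 / 64 ∧
    ∀ r ∈ Ioc (0 : ℝ) 1, 0 < φ r ∧ φ r ≤ Real.sqrt 3 / 4 ∧ Kp (-((φ r : ℝ) : ℂ)) = V0 (-(r : ℂ)) := by
  have hex : ∀ r : ℝ, ∃ x : ℝ, r ∈ Ioc (0 : ℝ) 1 → x ∈ Ioc (0 : ℝ) (Real.sqrt 3 / 4) ∧
      (Kp (-(x : ℂ))).re = (V0 (-(r : ℂ))).re := by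
    intro r
    by_cases hr : r ∈ Ioc (0 : ℝ) 1
    · obtain ⟨-, h1, h2⟩ := V0_neg hr.1 hr.2
      obtain ⟨x, hx, hxr⟩ := lph_onto h1 h2
      exact ⟨x, fun _ => ⟨hx, hxr⟩⟩
    · exact ⟨0, fun h => absurd h hr⟩
  choose φ hφ using hex
  have hsq := lph_sq
  have h1mem : (1 : ℝ) ∈ Ioc (0 : ℝ) 1 := ⟨one_pos, le_rfl⟩
  have h64mem : (1 / 64 : ℝ) ∈ Ioc (0 : ℝ) 1 := ⟨by norm_num, by norm_num⟩
  refine ⟨φ, ?_, ?_, ?_, ?_⟩
  · intro r hr
    obtain ⟨hφr, hφe⟩ := hφ r hr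
    have hv : ContinuousWithinAt (fun x : ℝ => (V0 (-(x : ℂ))).re) (Ioc 0 1) r :=
      (lph_cont_V0 r hr.1).mono (fun z hz => hz.1)
    refine tendsto_order.2 ⟨?_, ?_⟩
    · intro a ha
      have ha' : max a (φ r / 2) < φ r := max_lt ha (by have := hφr.1; linarith)
      have hpos : 0 < max a (φ r / 2) := lt_of_lt_of_le (by have := hφr.1; linarith) (le_max_right _ _)
      have hmem : max a (φ r / 2) ∈ Ioc (0 : ℝ) (Real.sqrt 3 / 4) := ⟨hpos, ha'.le.trans hφr.2⟩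
      have h2 : (Kp (-((max a (φ r / 2) : ℝ) : ℂ))).re < (V0 (-(r : ℂ))).re := by
        rw [← hφe]
        exact lph_mono hmem hφr ha'
      have h3 := hv.eventually (lt_mem_nhds h2)
      filter_upwards [h3, self_mem_nhdsWithin] with z hz hzmem
      obtain ⟨hφz, hφze⟩ := hφ z hzmem
      rw [← hφze] at hz
      exact lt_of_le_of_lt (le_max_left _ _) ((lph_mono.lt_iff_lt hmem hφz).1 hz)
    · intro b hb
      rcases lt_or_ge (Real.sqrt 3 / 4) b with hb' | hb'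
      · filter_upwards [self_mem_nhdsWithin] with z hzmem
        exact lt_of_le_of_lt (hφ z hzmem).1.2 hb'
      · have hmem : b ∈ Ioc (0 : ℝ) (Real.sqrt 3 / 4) := ⟨hφr.1.trans hb, hb'⟩
        have h2 : (V0 (-(r : ℂ))).re < (Kp (-(b : ℂ))).re := by
          rw [← hφe]
          exact lph_mono hφr hmem hb
        have h3 := hv.eventually (gt_mem_nhds h2)
        filter_upwards [h3, self_mem_nhdsWithin] with z hz hzmem
        obtain ⟨hφz, hφze⟩ := hφ z hzmem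
        rw [← hφze] at hz
        exact (lph_mono.lt_iff_lt hφz hmem).1 hz
  · obtain ⟨hφr, hφe⟩ := hφ 1 h1mem
    have h2 : (V0 (-((1 : ℝ) : ℂ))).re = 0 := by
      have hne : (-((1 : ℝ) : ℂ)) ≠ 0 := by simp
      have hne1 : (-((1 : ℝ) : ℂ)) ≠ 1 := by
        intro h
        have h2 : (-((1 : ℝ) : ℂ)).re = (1 : ℂ).re := by rw [h]
        simp at h2
        linarith
      exact (V0_re hne hne1).2.2 (by simp)
    rw [h2] at hφe
    apply lph_inj (mem_Ioi.2 hφr.1) (mem_Ioi.2 (by linarith : (0 : ℝ) < Real.sqrt 3 / 4))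
    show (Kp (-((φ 1 : ℝ) : ℂ))).re = (Kp (-((Real.sqrt 3 / 4 : ℝ) : ℂ))).re
    rw [hφe, lph_root]
  · obtain ⟨hφr, hφe⟩ := hφ (1 / 64) h64mem
    have h2 : (V0 (-((1 / 64 : ℝ) : ℂ))).re = -1 / 2 + 1 / 64 := by
      have hne : (-((1 / 64 : ℝ) : ℂ)) ≠ 0 := by
        rw [neg_ne_zero]
        exact_mod_cast (by norm_num : (1 / 64 : ℝ) ≠ 0)
      have hn : ‖(-((1 / 64 : ℝ) : ℂ))‖ ≤ 1 / 16 := by
        rw [norm_neg, Complex.norm_real, Real.norm_eq_abs, abs_of_pos (by norm_num)]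
        norm_num
      rw [V0_small hne hn, Complex.sub_re, Complex.neg_re, Complex.ofReal_re]
      norm_num
    apply lph_inj (mem_Ioi.2 hφr.1) (mem_Ioi.2 (by norm_num : (0 : ℝ) < 1 / 64))
    show (Kp (-((φ (1 / 64) : ℝ) : ℂ))).re = (Kp (-((1 / 64 : ℝ) : ℂ))).re
    rw [hφe, h2, lph_small (by norm_num) (by norm_num)]
  · intro r hr
    obtain ⟨hφr, hφe⟩ := hφ r hr
    refine ⟨hφr.1, hφr.2, ?_⟩
    rw [lph_Kp_real, (V0_neg hr.1 hr.2).1, hφe]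

end Pool.Agent.MMV
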