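import Pool.Agent.MMV.SBc

/-!
# MMV/LRb
: classes: transport along a track, powers   (difficulty 3; model: `ACB.clF_sq`, MMV/SBc)

* `track_class`: `ρ̂ : Path q q₁` from `leg`; `e` = the isomorphism of `π₁ (q₁)` and `π₁ (q)` given by `ρ̂` (`FundamentalGroup.fundamentalGroupMulEquivOfPath ρ̂.symm`, or by hand: `[γ] ↦ [ρ̂ γ ρ̂⁻¹]`).  For `H` continuous on the square: `F (s, t) = H (clamp s, clamp t)` is continuous on `ℝ × ℝ`;
  the proof of `ACB.clF_sq` (simple connectivity of `ℝ × ℝ`) gives `γ ≃ ρ̂.trans (γ'.trans ρ̂.symm)` for the paths `γ` of `H (0, ·)` and `γ'` of `H (1, ·)`.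
* `bcls_npow`: `n ≥ 0`: induction with `bcls_split` (`a`, `a + n`, `a + n + 1`; `f (a + n + t) = f (a + t)`), `bcls_one` for `n = 0`; `n < 0`: `bcls_rev` of the case `-n` gives the class of `t ↦ f (a + (1 - t) (-n)) = f (a + t n - n) = f (a + t n)`.
-/

open scoped ContDiff Manifold Topology unitInterval
open Set Filter
open Pool.Agent.CSG (stp)
open Pool.Agent.RSG (E3 E4 S2 S3 S4 ex cj c1 c2 ht fh pS2 pS3 pS4)
open Pool.Agent.RBM (ThickT OnT Box)
open Pool.Agent.LKF (OnF)
open Pool.Agent.PTH (SP ISP)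
open Pool.Agent.KNH (circ)
open Pool.Agent.LKT (s1 s2 dir)

namespace Pool.Agent.MMV

section
variable {N : Type*} [TopologicalSpace N]

/-- transport of loops along a path -/
noncomputable def lrbE {q q₁ : N} (r : Path.Homotopic.Quotient q q₁) : FundamentalGroup N q₁ ≃* FundamentalGroup N q where
  toFun g := (r.trans g).trans r.symm
  invFun g := (r.symm.trans g).trans r
  left_inv g := by
    show (r.symm.trans ((r.trans g).trans r.symm)).trans r = g
    simp only [Path.Homotopic.Quotient.trans_assoc]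
    rw [Path.Homotopic.Quotient.symm_trans, Path.Homotopic.Quotient.trans_refl,
      ← Path.Homotopic.Quotient.trans_assoc, Path.Homotopic.Quotient.symm_trans, Path.Homotopic.Quotient.refl_trans]
  right_inv g := by
    show (r.trans ((r.symm.trans g).trans r)).trans r.symm = g
    simp only [Path.Homotopic.Quotient.trans_assoc]
    rw [Path.Homotopic.Quotient.trans_symm, Path.Homotopic.Quotient.trans_refl,
      ← Path.Homotopic.Quotient.trans_assoc, Path.Homotopic.Quotient.trans_symm, Path.Homotopic.Quotient.refl_trans]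
  map_mul' g h := by
    show (r.trans (Path.Homotopic.Quotient.trans h g)).trans r.symm =
      Path.Homotopic.Quotient.trans ((r.trans h).trans r.symm) ((r.trans g).trans r.symm)
    simp only [Path.Homotopic.Quotient.trans_assoc]
    congr 2
    rw [← Path.Homotopic.Quotient.trans_assoc r.symm r, Path.Homotopic.Quotient.symm_trans,
      Path.Homotopic.Quotient.refl_trans]

theorem track_class {q q₁ : N} {leg : ℝ → N} (hleg : ContinuousOn leg (Icc 0 1)) (h0 : leg 0 = q) (h1 : leg 1 = q₁) :
    ∃ e : FundamentalGroup N q₁ ≃* FundamentalGroup N q, ∀ H : ℝ × ℝ → N, ContinuousOn H (Icc 0 1 ×ˢ Icc 0 1) →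
      (∀ s ∈ Icc (0 : ℝ) 1, H (s, 0) = leg s) → (∀ s ∈ Icc (0 : ℝ) 1, H (s, 1) = leg s) →
      ∀ g : FundamentalGroup N q₁, BCls q₁ (fun t => H (1, t)) g → BCls q (fun t => H (0, t)) (e g) := by
  let ρ : Path q q₁ :=
    { toFun := fun s => leg s
      continuous_toFun := hleg.comp_continuous continuous_subtype_val fun s => s.2
      source' := h0
      target' := h1 }
  refine ⟨lrbE (Path.Homotopic.Quotient.mk ρ), fun H hH hH0 hH1 g hg => ?_⟩
  obtain ⟨γ', hγ', hg⟩ := hg
  have hz : (0 : ℝ) ∈ Icc (0 : ℝ) 1 := ⟨le_rfl, zero_le_one⟩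
  have ho : (1 : ℝ) ∈ Icc (0 : ℝ) 1 := ⟨zero_le_one, le_rfl⟩
  have hcl : ∀ s : ℝ, max 0 (min 1 s) ∈ Icc (0 : ℝ) 1 := fun s =>
    ⟨le_max_left _ _, max_le zero_le_one (min_le_left _ _)⟩
  have hid : ∀ s : I, max 0 (min 1 (s : ℝ)) = s := fun s => by
    rw [min_eq_right s.2.2, max_eq_right s.2.1]
  have hc0 : max 0 (min 1 (0 : ℝ)) = 0 := by norm_num
  have hc1 : max 0 (min 1 (1 : ℝ)) = 1 := by norm_num
  let F : C(ℝ × ℝ, N) := ⟨fun y => H (max 0 (min 1 y.1), max 0 (min 1 y.2)),
    hH.comp_continuous (by fun_prop) (fun y => ⟨hcl _, hcl _⟩)⟩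
  have hF : ∀ s t : ℝ, F (s, t) = H (max 0 (min 1 s), max 0 (min 1 t)) := fun _ _ => rfl
  let γ : Path q q :=
    { toFun := fun t => F (0, (t : ℝ))
      continuous_toFun := F.continuous.comp (by fun_prop)
      source' := by
        show F (0, ((0 : I) : ℝ)) = q
        rw [hF, hid, hc0]
        exact (hH0 0 hz).trans h0
      target' := by
        show F (0, ((1 : I) : ℝ)) = q
        rw [hF, hid, hc0]
        exact (hH1 0 hz).trans h0 }
  have hsq := sbc_sq F γ (fun _ => rfl) γ' (fun t => by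
      rw [hγ', hF, hid, hc1]) ρ (fun s => by
      rw [hF, hid, hc0]
      exact (hH0 s s.2).symm) ρ (fun s => by
      rw [hF, hid, hc1]
      exact (hH1 s s.2).symm)
  refine ⟨γ, fun t => ?_, ?_⟩
  · show F (0, (t : ℝ)) = H (0, t)
    rw [hF, hid, hc0]
  · rw [← hg]
    have hsq' : Path.Homotopic.Quotient.mk γ = Path.Homotopic.Quotient.mk (ρ.trans (γ'.trans ρ.symm)) :=
      Quotient.sound hsq
    show Path.Homotopic.Quotient.mk γ =
      ((Path.Homotopic.Quotient.mk ρ).trans (Path.Homotopic.Quotient.mk γ')).trans (Path.Homotopic.Quotient.mk ρ).symm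
    rw [hsq']
    simp only [Path.Homotopic.Quotient.mk_trans, Path.Homotopic.Quotient.mk_symm,
      Path.Homotopic.Quotient.trans_assoc]

theorem bcls_npow {q : N} {f : ℝ → N} (hf : Continuous f) (hp : ∀ s, f (s + 1) = f s) {a : ℝ} {g : FundamentalGroup N q}
    (h : BCls q (fun t => f (a + t)) g) (n : ℤ) : BCls q (fun t => f (a + t * n)) (g ^ n) := by
  have hper : ∀ (s : ℝ) (m : ℕ), f (s + m) = f s := by
    intro s m
    induction m with
    | zero => simp
    | succ m ih =>
      have e : s + ((m + 1 : ℕ) : ℝ) = s + m + 1 := by push_cast; ring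
      rw [e, hp, ih]
  have ha : f a = q := by
    obtain ⟨γ, hγ, -⟩ := h
    have := hγ 0
    rw [γ.source] at this
    simpa using this.symm
  have hnat : ∀ m : ℕ, BCls q (fun t => f (a + t * m)) (g ^ m) := by
    intro m
    induction m with
    | zero =>
      rw [pow_zero]
      refine bcls_one fun t _ => ?_
      simp [ha]
    | succ m ih =>
      have h1 : BCls q (fun t => f (a + t * (a + m - a))) (g ^ m) := by
        refine bcls_congr ih fun t _ => ?_
        congr 1
        ring
      have h2 : BCls q (fun t => f (a + m + t * (a + m + 1 - (a + m)))) g := by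
        refine bcls_congr h fun t _ => ?_
        show f (a + m + t * (a + m + 1 - (a + m))) = f (a + t)
        rw [← hper (a + t) m]
        congr 1
        ring
      have h3 := bcls_split hf a (a + m) (a + m + 1) h1 h2
      rw [pow_succ']
      refine bcls_congr h3 fun t _ => ?_
      congr 1
      push_cast
      ring
  obtain ⟨m, rfl | rfl⟩ := n.eq_nat_or_neg
  · rw [zpow_natCast]
    refine bcls_congr (hnat m) fun t _ => ?_
    simp
  · rw [zpow_neg, zpow_natCast]
    refine bcls_congr (bcls_rev (hnat m)) fun t _ => ?_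
    show f (a + t * ((-(m : ℤ) : ℤ) : ℝ)) = f (a + (1 - t) * m)
    rw [← hper (a + t * ((-(m : ℤ) : ℤ) : ℝ)) m]
    congr 1
    push_cast
    ring

end

end Pool.Agent.MMV
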