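import Pool.Agent.MMV.LBp
import Pool.Agent.MMV.LRb

/-!
# MMV/LRa
: the class of the path with the coordinates `(c, z, t)`   (difficulty 3)

`leg s = K (bp (cz + s (1 - cz)) 0 (1/2))`, `0 ≤ s ≤ 1`, from `q` to `q₁ = K (bp 1 0 (1/2))`: continuous (`bp_cont`, `ContK`: a point `bp c z t`, `0 ≤ c ≤ 1`, is off the sphere if `¬ Shd c z t`: `bp_s`, `RSG.ex_re`; `Shd cz 0 (1/2)` is false: `√(1 - cz²) = 191/193 < 1023/1025`, and the square root decreases in `c`).
`f s = K (bp 1 0 s)`: continuous (`√0 = 0`: not in the shadow), of period 1, `f (1/2) = q₁`; let `g₁` be the class of `t ↦ f (1/2 + t)` (a path from `q₁` to `q₁`), `X := e g₁` (`track_class`).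
For `Adm c z t m n`: `H (s, τ) = K (bp (c' (s, τ)) (z τ) (t τ))`, `c' = c τ + s (1 - c τ)`: `0 ≤ c' ≤ 1`, off the shadow: `√(1 - c'²) ≤ √(1 - c²)`; if `cos (2πz) > 0` use `¬ Shd c z t`, if `cos ≤ 0` the product is `≤ 0`.  `H (s, 0) = leg s`; `H (s, 1) = K (bp .. m (1/2 + n)) = leg s` (`bp_per`).
`H (1, τ) = K (bp 1 (z τ) (t τ)) = f (t τ)` (`bp_one`); its class is `g₁^n`: `bcls_npow` for `τ ↦ f (1/2 + τ n)` and `bcls_reparam` (both functions from `1/2` to `1/2 + n`; make `t` continuous on `ℝ` by clamping, `bcls_congr`).  `H (0, ·)` is the path: class `e (g₁^n) = X^n` (`map_zpow`).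
-/

open scoped ContDiff Manifold Topology unitInterval
open Set Filter
open Pool.Agent.CSG (stp)
open Pool.Agent.RSG (E3 E4 S2 S3 S4 ex cj c1 c2 ht fh pS2 pS3 pS4)
open Pool.Agent.RBM (ThickT OnT Box)
open Pool.Agent.LKF (OnF)
open Pool.Agent.PTH (SP ISP)
open Pool.Agent.KNH (circ)
open Pool.Agent.LKT (s1 s2 dir)

namespace Pool.Agent.MMV

theorem lra_cont {M : Type*} [TopologicalSpace M] {K : SP → M} (hK : ContK K) {α : Type*} [TopologicalSpace α] {A : Set α}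
    {c z t : α → ℝ} (hc : ContinuousOn c A) (hz : ContinuousOn z A) (ht : ContinuousOn t A)
    (hb : ∀ a ∈ A, 0 ≤ c a ∧ c a ≤ 1) (hS : ∀ a ∈ A, ¬ Shd (c a) (z a) (t a)) :
    ContinuousOn (fun a => K (bp ((c a : ℝ) : ℂ) (z a) (t a))) A := by
  have h1 : ContinuousOn (fun a => (((c a : ℝ) : ℂ), z a, t a)) A :=
    (Complex.continuous_ofReal.comp_continuousOn hc).prodMk (hz.prodMk ht)
  have hn : ∀ a ∈ A, ‖((c a : ℝ) : ℂ)‖ ≤ 1 := by
    intro a ha
    rw [Complex.norm_real, Real.norm_of_nonneg (hb a ha).1]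
    exact (hb a ha).2
  have h2 : ContinuousOn (fun a => bp ((c a : ℝ) : ℂ) (z a) (t a)) A :=
    bp_cont.comp h1 (fun a ha => hn a ha)
  intro a ha
  have h3 : ContinuousAt K (bp ((c a : ℝ) : ℂ) (z a) (t a)) := by
    apply hK
    rintro ⟨h4, h5⟩
    apply hS a ha
    refine ⟨h4, ?_⟩
    rw [(bp_s (hn a ha) (z a) (t a)).2, Complex.norm_real, Real.norm_of_nonneg (hb a ha).1,
      Complex.re_ofReal_mul, RSG.ex_re] at h5
    exact h5.ge
  exact ContinuousAt.comp_continuousWithinAt (f := fun a => bp ((c a : ℝ) : ℂ) (z a) (t a)) (g := K) h3 (h2 a ha)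

theorem lra_one (z t : ℝ) : ¬ Shd 1 z t := by
  rintro ⟨-, h⟩
  rw [one_pow, sub_self, Real.sqrt_zero, zero_mul] at h
  norm_num at h

theorem lra_cz0 : 0 ≤ cz := by
  unfold cz
  positivity

theorem lra_czsq : cz ^ 2 = 768 / 37249 := by
  unfold cz
  rw [div_pow, mul_pow, Real.sq_sqrt (by norm_num)]
  norm_num

theorem lra_cz1 : cz < 1 := by
  have h := lra_czsq
  have h0 := lra_cz0
  nlinarith

theorem lra_leg {s : ℝ} (hs : s ∈ Icc (0 : ℝ) 1) : ¬ Shd (cz + s * (1 - cz)) 0 (1 / 2) := by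
  rintro ⟨-, h⟩
  rw [mul_zero, Real.cos_zero, mul_one] at h
  have h0 := lra_cz0
  have h1 := lra_cz1
  have h2 := lra_czsq
  have h3 : cz ≤ cz + s * (1 - cz) := by nlinarith [hs.1]
  have h4 : Real.sqrt (1 - (cz + s * (1 - cz)) ^ 2) ≤ 191 / 193 := by
    rw [Real.sqrt_le_left (by norm_num)]
    nlinarith
  have h5 : (191 / 193 : ℝ) < 1023 / 1025 := by norm_num
  linarith

theorem lra_push {c s z t : ℝ} (h0 : 0 ≤ c) (h1 : c ≤ 1) (hs : s ∈ Icc (0 : ℝ) 1) (h : ¬ Shd c z t) :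
    ¬ Shd (c + s * (1 - c)) z t := by
  rintro ⟨h2, h3⟩
  apply h
  refine ⟨h2, h3.trans ?_⟩
  have hc : 0 ≤ Real.cos (2 * Real.pi * z) := by
    by_contra hlt
    have h4 := mul_nonpos_of_nonneg_of_nonpos (Real.sqrt_nonneg (1 - (c + s * (1 - c)) ^ 2)) (not_le.mp hlt).le
    linarith
  apply mul_le_mul_of_nonneg_right _ hc
  apply Real.sqrt_le_sqrt
  have h5 : c ≤ c + s * (1 - c) := by nlinarith [hs.1]
  nlinarith

theorem exists_cls {M : Type*} [TopologicalSpace M] {K : SP → M} (hK : ContK K) {q : M} (hq : K (bp (cz : ℂ) 0 (1 / 2)) = q) :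
    ∃ X : FundamentalGroup M q, ∀ (c z t : ℝ → ℝ) (m n : ℤ), Adm c z t m n →
      BCls q (fun τ => K (bp ((c τ : ℝ) : ℂ) (z τ) (t τ))) (X ^ n) := by
  have hcz0 := lra_cz0
  have hcz1 := lra_cz1
  -- the leg
  set leg : ℝ → M := fun s => K (bp ((cz + s * (1 - cz) : ℝ) : ℂ) 0 (1 / 2)) with hleg
  have hlegc : ContinuousOn leg (Icc 0 1) := by
    apply lra_cont hK (by fun_prop) continuousOn_const continuousOn_const
    · intro s hs
      constructor
      · nlinarith [hs.1, hs.2]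
      · nlinarith [hs.1, hs.2]
    · intro s hs
      exact lra_leg hs
  have hleg0 : leg 0 = q := by
    rw [← hq]
    simp only [hleg]
    rw [zero_mul, add_zero]
  -- the loop
  set f : ℝ → M := fun s => K (bp ((1 : ℝ) : ℂ) 0 s) with hf
  have hfc : Continuous f := by
    rw [← continuousOn_univ]
    apply lra_cont hK (c := fun _ => 1) continuousOn_const continuousOn_const continuousOn_id
    · intro s _
      exact ⟨zero_le_one, le_rfl⟩
    · intro s _
      exact lra_one _ _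
  have hfp : ∀ s, f (s + 1) = f s := by
    intro s
    have h1 := bp_per ((1 : ℝ) : ℂ) 0 s 0 1
    rw [Int.cast_zero, add_zero, Int.cast_one] at h1
    simp only [hf]
    rw [h1]
  have hleg1 : leg 1 = f (1 / 2) := by
    simp only [hleg, hf]
    rw [one_mul, add_sub_cancel]
  obtain ⟨e, he⟩ := track_class hlegc hleg0 hleg1
  let γ₁ : Path (f (1 / 2)) (f (1 / 2)) :=
    { toFun := fun t => f (1 / 2 + (t : ℝ))
      continuous_toFun := hfc.comp (by fun_prop)
      source' := by simp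
      target' := by
        show f (1 / 2 + ((1 : I) : ℝ)) = f (1 / 2)
        rw [Set.Icc.coe_one, hfp] }
  set g₁ : FundamentalGroup M (f (1 / 2)) := FundamentalGroup.fromPath ⟦γ₁⟧ with hg₁
  have hB : BCls (f (1 / 2)) (fun t => f (1 / 2 + t)) g₁ := ⟨γ₁, fun t => rfl, rfl⟩
  refine ⟨e g₁, ?_⟩
  intro c z t m n hA
  have hc1 : ∀ τ ∈ Icc (0 : ℝ) 1, 0 ≤ c τ ∧ c τ ≤ 1 := fun τ hτ => ⟨(hA.bd τ hτ).1, (hA.bd τ hτ).2.le⟩
  set H : ℝ × ℝ → M := fun y => K (bp ((c y.2 + y.1 * (1 - c y.2) : ℝ) : ℂ) (z y.2) (t y.2)) with hH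
  have hsnd : MapsTo Prod.snd (Icc (0 : ℝ) 1 ×ˢ Icc (0 : ℝ) 1) (Icc (0 : ℝ) 1) := fun y hy => hy.2
  have hHc : ContinuousOn H (Icc 0 1 ×ˢ Icc 0 1) := by
    have hc2 : ContinuousOn (fun y : ℝ × ℝ => c y.2) (Icc 0 1 ×ˢ Icc 0 1) :=
      hA.c_cont.comp continuousOn_snd hsnd
    apply lra_cont hK
    · exact hc2.add (continuousOn_fst.mul (continuousOn_const.sub hc2))
    · exact hA.z_cont.comp continuousOn_snd hsnd
    · exact hA.t_cont.comp continuousOn_snd hsnd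
    · intro y hy
      obtain ⟨h1, h2⟩ := hc1 y.2 hy.2
      obtain ⟨h3, h4⟩ := hy.1
      constructor
      · nlinarith
      · nlinarith
    · intro y hy
      obtain ⟨h1, h2⟩ := hc1 y.2 hy.2
      exact lra_push h1 h2 hy.1 (hA.off y.2 hy.2)
  have hH0 : ∀ s ∈ Icc (0 : ℝ) 1, H (s, 0) = leg s := by
    intro s _
    simp only [hH, hleg]
    rw [hA.c0, hA.z0, hA.t0]
  have hH1 : ∀ s ∈ Icc (0 : ℝ) 1, H (s, 1) = leg s := by
    intro s _
    simp only [hH, hleg]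
    rw [hA.c1, hA.z1, hA.t1]
    have h1 := bp_per ((cz + s * (1 - cz) : ℝ) : ℂ) 0 (1 / 2) m n
    rw [zero_add] at h1
    rw [h1]
  have h1 := bcls_npow hfc hfp hB n
  have hclamp : Continuous (fun τ : ℝ => t (max 0 (min 1 τ))) :=
    hA.t_cont.comp_continuous (by fun_prop) (fun τ => ⟨le_max_left _ _, max_le zero_le_one (min_le_left _ _)⟩)
  have h2 : BCls (f (1 / 2)) (fun τ => f (t (max 0 (min 1 τ)))) (g₁ ^ n) := by
    refine bcls_reparam (ρ := fun τ => 1 / 2 + τ * n) (ρ' := fun τ => t (max 0 (min 1 τ))) hfc (by fun_prop)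
      hclamp ?_ ?_ h1
    · show 1 / 2 + (0 : ℝ) * n = t (max 0 (min 1 0))
      rw [min_eq_right zero_le_one, max_self, hA.t0]
      ring
    · show 1 / 2 + (1 : ℝ) * n = t (max 0 (min 1 1))
      rw [min_self, max_eq_right zero_le_one, hA.t1]
      ring
  have h3 : BCls (f (1 / 2)) (fun τ => H (1, τ)) (g₁ ^ n) := by
    apply bcls_congr h2
    intro τ hτ
    simp only [hH, hf]
    rw [min_eq_right hτ.2, max_eq_right hτ.1, one_mul, add_sub_cancel]
    rw [bp_one (by simp) (z τ) 0 (t τ)]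
  have h4 := he H hHc hH0 hH1 _ h3
  rw [map_zpow] at h4
  apply bcls_congr h4
  intro τ _
  simp only [hH]
  rw [zero_mul, add_zero]

end Pool.Agent.MMV
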