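import Pool.Agent.MMV.LDg

/-!
# MMV/LSd
: definitions for the classes (helper89)

* `Shd c z t`: the point `bp c z t` is in the shadow (time `1/2`, over the cap `Re s2 ≥ 1023/1025` bounded by the sphere `|Y| = 32`, where `KL` is not defined).
* `ContK K`: `K` is continuous off the sphere `{pol (-32, v)}`.
* `KVal K mp ρ₀`: the values of `K = KL`.
* `cz = 16 √3 / 193`: first coordinate of the base point.
* `Adm c z t m n`: path of the coordinates from `(cz, 0, 1/2)` to `(cz, m, 1/2 + n)`, off the shadow.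
* `Cw a`: first coordinate of the point of the half plane `z = 0` which corresponds to the modulus `a` of the Möbius coordinate.
* `mw u = -(1 + 2 u)/(2 + u)`: Möbius involution of the disc.
-/

open scoped ContDiff Manifold Topology unitInterval
open Set Filter
open Pool.Agent.CSG (stp)
open Pool.Agent.RSG (E3 E4 S2 S3 S4 ex cj c1 c2 ht fh pS2 pS3 pS4)
open Pool.Agent.RBM (ThickT OnT Box)
open Pool.Agent.LKF (OnF)
open Pool.Agent.PTH (SP ISP)
open Pool.Agent.KNH (circ)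
open Pool.Agent.LKT (s1 s2 dir)

namespace Pool.Agent.MMV

/-- the shadow -/
def Shd (c z t : ℝ) : Prop :=
  ((circ t : Circle) : ℂ) = -1 ∧ 1023 / 1025 ≤ Real.sqrt (1 - c ^ 2) * Real.cos (2 * Real.pi * z)

/-- `K` is continuous off the sphere `{pol (-32, v)}` -/
def ContK {M : Type*} [TopologicalSpace M] (K : SP → M) : Prop :=
  ∀ p : SP, ¬ ((p.2 : ℂ) = -1 ∧ (s2 p.1).re = 1023 / 1025) → ContinuousAt K p

/-- the values of `KL` -/
structure KVal {M : Type*} (K : SP → M) (mp : ℂ × S2 → M) (ρ₀ : ℝ × E3 → M) : Prop where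
  pol : ∀ (W : ℂ) (v : S2), W ≠ 0 → K (pol (W, v)) = mp (Kp (W / 32), v)
  north : ∀ t : ℝ, K (tubN (t, 0)) = ρ₀ ((lN (t, 0)).1, 0)
  per : ∀ l : ℝ, ρ₀ (l + 1, 0) = ρ₀ (l, 0)

/-- first coordinate of the base point -/
noncomputable def cz : ℝ := 16 * Real.sqrt 3 / 193

/-- a path of the coordinates `(c, z, t)` from `(cz, 0, 1/2)` to `(cz, m, 1/2 + n)` -/
structure Adm (c z t : ℝ → ℝ) (m n : ℤ) : Prop where
  c_cont : ContinuousOn c (Icc 0 1)
  z_cont : ContinuousOn z (Icc 0 1)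
  t_cont : ContinuousOn t (Icc 0 1)
  c0 : c 0 = cz
  c1 : c 1 = cz
  z0 : z 0 = 0
  z1 : z 1 = m
  t0 : t 0 = 1 / 2
  t1 : t 1 = 1 / 2 + n
  bd : ∀ τ ∈ Icc (0 : ℝ) 1, 0 ≤ c τ ∧ c τ < 1
  off : ∀ τ ∈ Icc (0 : ℝ) 1, ¬ Shd (c τ) (z τ) (t τ)

/-- `2 R / (1 + R²)` for `R = 24 a / √(1 - a²)` -/
noncomputable def Cw (a : ℝ) : ℝ := 48 * a * Real.sqrt (1 - a ^ 2) / (1 + 575 * a ^ 2)

/-- Möbius involution of the disc -/
noncomputable def mw (u : ℂ) : ℂ := -(1 + 2 * u) / (2 + u)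

end Pool.Agent.MMV
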