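import Pool.Agent.MMV.LDg
import Pool.Agent.LKT.UnA
import Pool.Agent.KNH.CirM

/-!
# MMV/LSp: the three pieces of `S³ × S¹`   (difficulty 3)

`sY Y` has the coordinates `s1 = 2 (Y₀ + i Y₁) / (1 + |Y|²)`, `s2 = (|Y|² - 1 + 2 i Y₂) / (1 + |Y|²)` (the vector in `pS3` has the norm `1 + |Y|²`; see `pS3_c`, `pS3_smooth`; `sY_eq`, `Rc`-lemmas in MMV/SRt of helper40 if available).  It is a diffeomorphism of `ℝ³` onto
`S³ - (0, 1)`, the inverse is `Y = (s1, Im s2) / (1 - Re s2)`.  `Inv (s1, s2) = (s1, -conj s2)` is an involution, `Inv (sY Y) = sY (Y / |Y|²)` for `Y ≠ 0` (`sY_inv`), `Inv (sY 0) = (0, 1)`.  `circ t = Circle.exp (2 π t)` is a local diffeomorphism `ℝ → S¹` (in the library: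
search `circ`, e.g. KNH, LKT, PTH), `circ t = circ t' ↔ t' - t ∈ ℤ`, `dir (r ex t) = circ t` for `r > 0`.  Products of local diffeomorphisms: `RSG.ld_prodMap`.  `tubS`, `tubN`: from this.
`pol_ld`: near `(W, v)`, `W = r ex t ≠ 0`: the map `(l, r, v) ↦ (r ex l, v)` is a local diffeomorphism, or: `pol = tubS ∘ g`, `g (W, v) = (arg-branch of W, |W| v)`, a local diffeomorphism of `(ℂ - 0) × S²` to `ℝ × (ℝ³ - 0)` with the inverse `(t, Y) ↦ (|Y| ex t, Y/|Y|)`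
(use a smooth branch of the argument near `W`, for instance `t₀ + arg (W / ex t₀) / 2π` with `W = |W| ex t₀`); `RSG.ld_two` (two smooth maps inverse to each other).
`SP_cover`: `p = (x, z)`, `z = circ t`; `x = (0, 1)`: north; `x = sY Y`: `Y = 0`: south; otherwise `pol (|Y| ex t, Y/|Y|)`.
-/

open scoped ContDiff Manifold Topology unitInterval
open Set Filter
open Pool.Agent.RSG (E3 E4 S2 S3 S4 ex cj c1 c2 ht fh pS2 pS3 pS4)
open Pool.Agent.RBM (ThickT OnT Box)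
open Pool.Agent.LKF (OnF)
open Pool.Agent.PTH (SP ISP)
open Pool.Agent.KNH (circ)
open Pool.Agent.LKT (s1 s2 dir)

namespace Pool.Agent.MMV

/-! ## auxiliary lemmas -/

theorem lsp_nsq (Y : E3) : ‖Y‖ ^ 2 = Y 0 ^ 2 + Y 1 ^ 2 + Y 2 ^ 2 := by
  rw [RSG.SphB_norm, Fin.sum_univ_three]

theorem lsp_toSph_smul {E : Type*} [NormedAddCommGroup E] [InnerProductSpace ℝ E]
    (e : Metric.sphere (0 : E) 1) (v : E) {c : ℝ} (hc : 0 < c) : RSG.toSph e (c • v) = RSG.toSph e v := by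
  by_cases hv : v = 0
  · rw [hv, smul_zero]
  · have hcv : c • v ≠ 0 := smul_ne_zero hc.ne' hv
    apply Subtype.ext
    rw [RSG.toSph_coe e hv, RSG.toSph_coe e hcv, norm_smul, Real.norm_of_nonneg hc.le, smul_smul]
    congr 1
    have := norm_ne_zero_iff.2 hv
    field_simp

theorem lsp_pS3_smul (a b : ℂ) {c : ℝ} (hc : 0 < c) : pS3 (c * a) (c * b) = pS3 a b := by
  have e : (WithLp.toLp 2 ![((c : ℂ) * a).re, ((c : ℂ) * a).im, ((c : ℂ) * b).re, ((c : ℂ) * b).im] : E4) =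
      c • (WithLp.toLp 2 ![a.re, a.im, b.re, b.im] : E4) := by
    ext i
    fin_cases i <;> simp
  unfold RSG.pS3
  rw [e]
  exact lsp_toSph_smul _ _ hc

theorem sY_s (Y : E3) : s1 (sY Y) = (2 / (1 + ‖Y‖ ^ 2) : ℝ) * (⟨Y 0, Y 1⟩ : ℂ) ∧
    s2 (sY Y) = (1 / (1 + ‖Y‖ ^ 2) : ℝ) * (⟨‖Y‖ ^ 2 - 1, 2 * Y 2⟩ : ℂ) := by
  have h1 : 0 < 1 + ‖Y‖ ^ 2 := by positivity
  have hn := lsp_nsq Y
  have h2 : sY Y = pS3 ((2 / (1 + ‖Y‖ ^ 2) : ℝ) * (⟨Y 0, Y 1⟩ : ℂ))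
      ((1 / (1 + ‖Y‖ ^ 2) : ℝ) * (⟨‖Y‖ ^ 2 - 1, 2 * Y 2⟩ : ℂ)) := by
    unfold sY
    rw [← lsp_pS3_smul (2 * (⟨Y 0, Y 1⟩ : ℂ)) _ (c := 1 / (1 + ‖Y‖ ^ 2)) (by positivity)]
    congr 1
    push_cast
    ring
  rw [h2]
  refine LKT.s_mk ?_
  rw [norm_mul, norm_mul, mul_pow, mul_pow, Complex.norm_real, Complex.norm_real,
    Real.norm_eq_abs, Real.norm_eq_abs, sq_abs, sq_abs, RSG.SphB_cx, RSG.SphB_cx]
  field_simp
  linear_combination (-4) * hn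

theorem Inv_s (x : S3) : s1 (Inv x) = s1 x ∧ s2 (Inv x) = -(starRingEnd ℂ) (s2 x) := by
  refine LKT.s_mk ?_
  rw [norm_neg, RCLike.norm_conj, LKT.s_sq]

theorem lsp_Inv_smooth (x : S3) : ContMDiffAt (𝓡 3) (𝓡 3) ∞ Inv x := by
  refine RSG.pS3_smooth (a := s1) (b := fun x => -(starRingEnd ℂ) (s2 x)) LKT.s1_smooth.contMDiffAt ?_ ?_
  · have h1 : ContDiff ℝ ∞ (fun z : ℂ => -(starRingEnd ℂ) z) :=
      (Complex.conjCLE : ℂ ≃L[ℝ] ℂ).contDiff.neg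
    exact h1.contMDiff.contMDiffAt.comp x LKT.s2_smooth.contMDiffAt
  · rw [norm_neg, RCLike.norm_conj, LKT.s_sq]
    exact one_pos

/-- the inverse of the stereographic parametrisation -/
noncomputable def lsp_st (x : S3) : E3 :=
  !₂[(s1 x).re / (1 - (s2 x).re), (s1 x).im / (1 - (s2 x).re), (s2 x).im / (1 - (s2 x).re)]

theorem lsp_c (Y : E3) : (s1 (sY Y)).re = 2 * Y 0 / (1 + ‖Y‖ ^ 2) ∧ (s1 (sY Y)).im = 2 * Y 1 / (1 + ‖Y‖ ^ 2) ∧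
    (s2 (sY Y)).re = (‖Y‖ ^ 2 - 1) / (1 + ‖Y‖ ^ 2) ∧ (s2 (sY Y)).im = 2 * Y 2 / (1 + ‖Y‖ ^ 2) := by
  obtain ⟨h1, h2⟩ := sY_s Y
  rw [h1, h2, Complex.re_ofReal_mul, Complex.im_ofReal_mul, Complex.re_ofReal_mul, Complex.im_ofReal_mul]
  refine ⟨?_, ?_, ?_, ?_⟩ <;> ring

theorem lsp_st_sY (Y : E3) : lsp_st (sY Y) = Y := by
  obtain ⟨h1, h2, h3, h4⟩ := lsp_c Y
  have h0 : 1 + ‖Y‖ ^ 2 ≠ 0 := by positivity
  have h5 : 1 - (s2 (sY Y)).re = 2 / (1 + ‖Y‖ ^ 2) := by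
    rw [h3]
    field_simp
    ring
  unfold lsp_st
  rw [h5, h1, h2, h4]
  have hd : ∀ y : ℝ, 2 * y / (1 + ‖Y‖ ^ 2) / (2 / (1 + ‖Y‖ ^ 2)) = y := by
    intro y
    field_simp
  rw [hd, hd, hd]
  ext i
  fin_cases i <;> rfl

theorem lsp_sY_st {x : S3} (h : (s2 x).re < 1) : sY (lsp_st x) = x := by
  have hd : 0 < 1 - (s2 x).re := by linarith
  have hd' := hd.ne'
  have h0 := LKT.s_sq x
  have e1 : ‖s1 x‖ ^ 2 = (s1 x).re ^ 2 + (s1 x).im ^ 2 := by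
    rw [Complex.sq_norm, Complex.normSq_apply]
    ring
  have e2 : ‖s2 x‖ ^ 2 = (s2 x).re ^ 2 + (s2 x).im ^ 2 := by
    rw [Complex.sq_norm, Complex.normSq_apply]
    ring
  rw [e1, e2] at h0
  have hn : ‖lsp_st x‖ ^ 2 = (1 + (s2 x).re) / (1 - (s2 x).re) := by
    rw [lsp_nsq]
    change ((s1 x).re / (1 - (s2 x).re)) ^ 2 + ((s1 x).im / (1 - (s2 x).re)) ^ 2 +
      ((s2 x).im / (1 - (s2 x).re)) ^ 2 = _
    field_simp
    linear_combination h0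
  have hs : 1 + ‖lsp_st x‖ ^ 2 = 2 / (1 - (s2 x).re) := by
    rw [hn]
    field_simp
    ring
  obtain ⟨h1, h2, h3, h4⟩ := lsp_c (lsp_st x)
  rw [hs] at h1 h2 h3 h4
  rw [hn] at h3
  have c0 : (lsp_st x) 0 = (s1 x).re / (1 - (s2 x).re) := rfl
  have c1' : (lsp_st x) 1 = (s1 x).im / (1 - (s2 x).re) := rfl
  have c2' : (lsp_st x) 2 = (s2 x).im / (1 - (s2 x).re) := rfl
  rw [c0] at h1
  rw [c1'] at h2
  rw [c2'] at h4
  apply LKT.s_ext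
  · apply Complex.ext
    · rw [h1]
      field_simp
    · rw [h2]
      field_simp
  · apply Complex.ext
    · rw [h3]
      field_simp
      ring
    · rw [h4]
      field_simp

theorem lsp_re_lt (Y : E3) : (s2 (sY Y)).re < 1 := by
  rw [(lsp_c Y).2.2.1, div_lt_one (by positivity)]
  linarith

theorem lsp_st_smooth {x : S3} (h : (s2 x).re < 1) : ContMDiffAt (𝓡 3) 𝓘(ℝ, E3) ∞ lsp_st x := by
  have hd : 1 - (s2 x).re ≠ 0 := by linarith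
  have hg : ContMDiffAt (𝓡 3) 𝓘(ℝ, ℂ × ℂ) ∞ (fun x : S3 => (s1 x, s2 x)) x :=
    LKT.s1_smooth.contMDiffAt.prodMk_space LKT.s2_smooth.contMDiffAt
  have hf : ContDiffAt ℝ ∞ (fun p : ℂ × ℂ =>
      (!₂[p.1.re / (1 - p.2.re), p.1.im / (1 - p.2.re), p.2.im / (1 - p.2.re)] : E3)) (s1 x, s2 x) := by
    have r1 : ContDiff ℝ ∞ (fun p : ℂ × ℂ => p.1.re) := Complex.reCLM.contDiff.comp contDiff_fst
    have i1 : ContDiff ℝ ∞ (fun p : ℂ × ℂ => p.1.im) := Complex.imCLM.contDiff.comp contDiff_fst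
    have r2 : ContDiff ℝ ∞ (fun p : ℂ × ℂ => p.2.re) := Complex.reCLM.contDiff.comp contDiff_snd
    have i2 : ContDiff ℝ ∞ (fun p : ℂ × ℂ => p.2.im) := Complex.imCLM.contDiff.comp contDiff_snd
    have hdd : ContDiffAt ℝ ∞ (fun p : ℂ × ℂ => 1 - p.2.re) (s1 x, s2 x) :=
      contDiffAt_const.sub r2.contDiffAt
    have hp : ContDiffAt ℝ ∞ (fun p : ℂ × ℂ =>
        (![p.1.re / (1 - p.2.re), p.1.im / (1 - p.2.re), p.2.im / (1 - p.2.re)] : Fin 3 → ℝ)) (s1 x, s2 x) := by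
      rw [contDiffAt_pi]
      intro i
      fin_cases i
      · exact r1.contDiffAt.div hdd hd
      · exact i1.contDiffAt.div hdd hd
      · exact i2.contDiffAt.div hdd hd
    exact (PiLp.continuousLinearEquiv 2 ℝ (fun _ : Fin 3 => ℝ)).symm.contDiff.contDiffAt.comp _ hp
  have h := ContMDiffAt.comp (g := fun p : ℂ × ℂ =>
      (!₂[p.1.re / (1 - p.2.re), p.1.im / (1 - p.2.re), p.2.im / (1 - p.2.re)] : E3))
    (f := fun x : S3 => (s1 x, s2 x)) x hf.contMDiffAt hg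
  exact h

theorem lsp_sY_smooth (Y : E3) : ContMDiffAt 𝓘(ℝ, E3) (𝓡 3) ∞ sY Y := by
  have hc : ∀ i : Fin 3, ContDiff ℝ ∞ (fun Y : E3 => Y i) := fun i => (EuclideanSpace.proj (𝕜 := ℝ) i).contDiff
  have hmk : ContDiff ℝ ∞ fun z : ℝ × ℝ => (⟨z.1, z.2⟩ : ℂ) := Complex.equivRealProdCLM.symm.contDiff
  have hn : ContDiff ℝ ∞ (fun Y : E3 => ‖Y‖ ^ 2) := contDiff_norm_sq ℝ
  have h1 : ContDiff ℝ ∞ (fun Y : E3 => 2 * (⟨Y 0, Y 1⟩ : ℂ)) :=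
    contDiff_const.mul (hmk.comp ((hc 0).prodMk (hc 1)))
  have h2 : ContDiff ℝ ∞ (fun Y : E3 => (⟨‖Y‖ ^ 2 - 1, 2 * Y 2⟩ : ℂ)) :=
    hmk.comp ((hn.sub contDiff_const).prodMk (contDiff_const.mul (hc 2)))
  refine RSG.pS3_smooth h1.contMDiff.contMDiffAt h2.contMDiff.contMDiffAt ?_
  have e : ‖2 * (⟨Y 0, Y 1⟩ : ℂ)‖ ^ 2 + ‖(⟨‖Y‖ ^ 2 - 1, 2 * Y 2⟩ : ℂ)‖ ^ 2 = (1 + ‖Y‖ ^ 2) ^ 2 := by
    rw [norm_mul, mul_pow, Complex.norm_ofNat, RSG.SphB_cx, RSG.SphB_cx]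
    have := lsp_nsq Y
    linear_combination (-4) * this
  rw [e]
  positivity

theorem lsp_sY_ld (Y : E3) : IsLocalDiffeomorphAt 𝓘(ℝ, E3) (𝓡 3) ∞ sY Y := by
  have hU : ∀ᶠ x in 𝓝 (sY Y), (s2 x).re < 1 :=
    ((Complex.continuous_re.comp LKT.s2_smooth.continuous).continuousAt (x := sY Y)).eventually
      (gt_mem_nhds (lsp_re_lt Y))
  refine RSG.ld_two (g := lsp_st) (Eventually.of_forall lsp_sY_smooth) ?_ (Eventually.of_forall lsp_st_sY) ?_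
  · filter_upwards [hU] with x hx
    exact lsp_st_smooth hx
  · filter_upwards [hU] with x hx
    exact lsp_sY_st hx

theorem lsp_S0 : s2 (sY 0) = -1 := by
  obtain ⟨_, _, h3, h4⟩ := lsp_c 0
  apply Complex.ext
  · rw [h3]
    simp
  · rw [h4]
    simp

theorem lsp_N0 : s1 (Inv (sY 0)) = 0 ∧ s2 (Inv (sY 0)) = 1 := by
  obtain ⟨h1, h2⟩ := Inv_s (sY 0)
  obtain ⟨h3, h4, _, _⟩ := lsp_c 0
  constructor
  · rw [h1]
    apply Complex.ext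
    · rw [h3]
      simp
    · rw [h4]
      simp
  · rw [h2, lsp_S0]
    simp

theorem lsp_circ_neg (t : ℝ) : circ (-t) = (circ t)⁻¹ := by
  unfold KNH.circ
  rw [mul_neg, Circle.exp_neg]

/-- the inverse of `pol` -/
noncomputable def lsp_gI (p : SP) : ℂ × S2 :=
  ((‖lsp_st p.1‖ : ℂ) * (p.2 : ℂ), RSG.toSph e₁ (lsp_st p.1))

theorem lsp_smul (v : S2) {r : ℝ} (hr : 0 < r) : ‖r • (v.1 : E3)‖ = r := by
  rw [norm_smul, Real.norm_of_nonneg hr.le, norm_eq_of_mem_sphere v, mul_one]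

theorem lsp_v_ne (v : S2) {r : ℝ} (hr : 0 < r) : r • (v.1 : E3) ≠ 0 := by
  rw [← norm_pos_iff, lsp_smul v hr]
  exact hr

theorem lsp_toSph_v (v : S2) {r : ℝ} (hr : 0 < r) : RSG.toSph e₁ (r • (v.1 : E3)) = v := by
  rw [lsp_toSph_smul _ _ hr]
  exact RSG.toSph_self _ _

theorem sY_inv {Y : E3} (h : Y ≠ 0) : Inv (sY Y) = sY ((‖Y‖ ^ 2)⁻¹ • Y) := by
  have hn : 0 < ‖Y‖ ^ 2 := by
    have := norm_pos_iff.2 h
    positivity
  have hn' := hn.ne'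
  have h1 : ‖(‖Y‖ ^ 2)⁻¹ • Y‖ ^ 2 = (‖Y‖ ^ 2)⁻¹ := by
    rw [norm_smul, mul_pow, Real.norm_of_nonneg (by positivity)]
    field_simp
  have h2 : 1 + (‖Y‖ ^ 2)⁻¹ ≠ 0 := by positivity
  have h3 : 1 + ‖Y‖ ^ 2 ≠ 0 := by positivity
  obtain ⟨a1, a2⟩ := sY_s Y
  obtain ⟨b1, b2⟩ := sY_s ((‖Y‖ ^ 2)⁻¹ • Y)
  obtain ⟨i1, i2⟩ := Inv_s (sY Y)
  apply LKT.s_ext
  · rw [i1, a1, b1, h1]
    apply Complex.ext
    · rw [Complex.re_ofReal_mul, Complex.re_ofReal_mul]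
      simp only [PiLp.smul_apply, smul_eq_mul]
      field_simp
      ring
    · rw [Complex.im_ofReal_mul, Complex.im_ofReal_mul]
      simp only [PiLp.smul_apply, smul_eq_mul]
      field_simp
      ring
  · rw [i2, a2, b2, h1]
    apply Complex.ext
    · rw [Complex.neg_re, Complex.conj_re, Complex.re_ofReal_mul, Complex.re_ofReal_mul]
      simp only [PiLp.smul_apply, smul_eq_mul]
      field_simp
      ring
    · rw [Complex.neg_im, Complex.conj_im, Complex.im_ofReal_mul, Complex.im_ofReal_mul]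
      simp only [PiLp.smul_apply, smul_eq_mul]
      field_simp
      ring

theorem sY_inj {Y Y' : E3} (h : sY Y = sY Y') : Y = Y' := by
  rw [← lsp_st_sY Y, h, lsp_st_sY]

theorem Inv_Inv (x : S3) : Inv (Inv x) = x := by
  obtain ⟨h1, h2⟩ := Inv_s x
  obtain ⟨h3, h4⟩ := Inv_s (Inv x)
  apply LKT.s_ext
  · rw [h3, h1]
  · rw [h4, h2, map_neg, neg_neg, Complex.conj_conj]

theorem circ_eq {t t' : ℝ} : circ t = circ t' ↔ ∃ m : ℤ, t' = t + m := by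
  rw [eq_comm]
  exact KNH.circ_eq

theorem circ_coe (t : ℝ) : ((circ t : Circle) : ℂ) = ex t := by
  exact LKT.coe_circ t

theorem dir_ex {r : ℝ} (hr : 0 < r) (t : ℝ) : dir ((r : ℂ) * ex t) = circ t := by
  exact LKT.dir_mul_ex hr

theorem dir_coe {W : ℂ} (h : W ≠ 0) : ((dir W : Circle) : ℂ) = W / (‖W‖ : ℂ) := by
  exact LKT.dir_coe h

theorem Sym_Sym (p : SP) : Sym (Sym p) = p := by
  exact Prod.ext (Inv_Inv p.1) (inv_inv p.2)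

theorem Sym_ld (p : SP) : IsLocalDiffeomorphAt ISP ISP ∞ Sym p := by
  have h1 : IsLocalDiffeomorphAt (𝓡 3) (𝓡 3) ∞ Inv p.1 :=
    RSG.ld_two (g := Inv) (Eventually.of_forall lsp_Inv_smooth) (Eventually.of_forall lsp_Inv_smooth)
      (Eventually.of_forall Inv_Inv) (Eventually.of_forall Inv_Inv)
  have h2 : IsLocalDiffeomorphAt (𝓡 1) (𝓡 1) ∞ (fun z : Circle => z⁻¹) p.2 :=
    RSG.ld_two (g := fun z : Circle => z⁻¹) (Eventually.of_forall fun _ => LKT.inv_smooth)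
      (Eventually.of_forall fun _ => LKT.inv_smooth) (Eventually.of_forall fun z => inv_inv z)
      (Eventually.of_forall fun z => inv_inv z)
  exact RSG.ld_prodMap h1 h2

theorem Sym_tubS (t : ℝ) (Y : E3) : Sym (tubS (t, Y)) = tubN (-t, Y) := by
  unfold Sym tubS tubN
  rw [lsp_circ_neg]

theorem Sym_tubN (t : ℝ) (Y : E3) : Sym (tubN (t, Y)) = tubS (-t, Y) := by
  unfold Sym tubS tubN
  rw [lsp_circ_neg, Inv_Inv]

theorem Sym_pol {W : ℂ} (h : W ≠ 0) (v : S2) : Sym (pol (W, v)) = pol (W⁻¹, v) := by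
  have hW : 0 < ‖W‖ := norm_pos_iff.2 h
  have h1 : (‖W‖ • (v.1 : E3)) ≠ 0 := lsp_v_ne v hW
  unfold Sym pol
  refine Prod.ext ?_ ?_
  · change Inv (sY (‖W‖ • (v.1 : E3))) = sY (‖W⁻¹‖ • (v.1 : E3))
    rw [sY_inv h1, lsp_smul v hW, smul_smul, norm_inv]
    congr 2
    field_simp
  · change (dir W)⁻¹ = dir W⁻¹
    apply Circle.ext
    rw [Circle.coe_inv, dir_coe h, dir_coe (inv_ne_zero h), norm_inv]
    have h2 : (‖W‖ : ℂ) ≠ 0 := Complex.ofReal_ne_zero.2 hW.ne'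
    push_cast
    field_simp

theorem tubS_ld (q : ℝ × E3) : IsLocalDiffeomorphAt 𝓘(ℝ, ℝ × E3) ISP ∞ tubS q := by
  have h1 : IsLocalDiffeomorphAt (𝓘(ℝ, E3).prod 𝓘(ℝ, ℝ)) ISP ∞ (Prod.map sY circ) (q.2, q.1) :=
    RSG.ld_prodMap (lsp_sY_ld q.2) (KNH.circ_ld q.1)
  rw [← modelWithCornersSelf_prod, chartedSpaceSelf_prod] at h1
  have h2 : IsLocalDiffeomorphAt 𝓘(ℝ, ℝ × E3) 𝓘(ℝ, E3 × ℝ) ∞ (Prod.swap : ℝ × E3 → E3 × ℝ) q :=
    CSG.ld_of_perm (f := Equiv.prodComm ℝ E3) (contDiff_snd.prodMk contDiff_fst)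
      (contDiff_snd.prodMk contDiff_fst) q
  exact IsLocalDiffeomorphAt.comp (hf := h2) (hg := h1) ..

theorem tubN_ld (q : ℝ × E3) : IsLocalDiffeomorphAt 𝓘(ℝ, ℝ × E3) ISP ∞ tubN q := by
  have h1 : IsLocalDiffeomorphAt 𝓘(ℝ, ℝ × E3) 𝓘(ℝ, ℝ × E3) ∞ (fun q : ℝ × E3 => (-q.1, q.2)) q :=
    RSG.ld_two (g := fun q : ℝ × E3 => (-q.1, q.2))
      (Eventually.of_forall fun y => (contDiff_fst.neg.prodMk contDiff_snd).contMDiff.contMDiffAt)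
      (Eventually.of_forall fun y => (contDiff_fst.neg.prodMk contDiff_snd).contMDiff.contMDiffAt)
      (Eventually.of_forall fun y => Prod.ext (neg_neg _) rfl) (Eventually.of_forall fun y => Prod.ext (neg_neg _) rfl)
  have h2 : IsLocalDiffeomorphAt 𝓘(ℝ, ℝ × E3) ISP ∞ (fun q : ℝ × E3 => tubS (-q.1, q.2)) q :=
    IsLocalDiffeomorphAt.comp (hf := h1) (hg := tubS_ld (-q.1, q.2)) ..
  have h3 : IsLocalDiffeomorphAt 𝓘(ℝ, ℝ × E3) ISP ∞ (fun q : ℝ × E3 => Sym (tubS (-q.1, q.2))) q :=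
    IsLocalDiffeomorphAt.comp (hf := h2) (hg := Sym_ld (tubS (-q.1, q.2))) ..
  have e : (fun q : ℝ × E3 => Sym (tubS (-q.1, q.2))) = tubN := by
    funext q
    rw [Sym_tubS, neg_neg]
  rw [e] at h3
  exact h3

theorem pol_ld {W : ℂ} (h : W ≠ 0) (v : S2) : IsLocalDiffeomorphAt (𝓘(ℝ, ℂ).prod (𝓡 2)) ISP ∞ pol (W, v) := by
  have hW : 0 < ‖W‖ := norm_pos_iff.2 h
  have hU : ∀ᶠ q : ℂ × S2 in 𝓝 (W, v), q.1 ≠ 0 :=
    (continuous_fst.continuousAt (x := (W, v))).eventually (isOpen_ne.mem_nhds h)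
  have hV1 : ∀ᶠ p : SP in 𝓝 (pol (W, v)), (s2 p.1).re < 1 :=
    ((Complex.continuous_re.comp (LKT.s2_smooth.continuous.comp continuous_fst)).continuousAt
      (x := pol (W, v))).eventually (gt_mem_nhds (lsp_re_lt _))
  have hc : ContinuousAt (fun p : SP => lsp_st p.1) (pol (W, v)) :=
    ContinuousAt.comp (f := fun p : SP => p.1) (g := lsp_st) (lsp_st_smooth (lsp_re_lt _)).continuousAt
      continuous_fst.continuousAt
  have hV2 : ∀ᶠ p : SP in 𝓝 (pol (W, v)), lsp_st p.1 ≠ 0 := by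
    refine hc.eventually (isOpen_ne.mem_nhds ?_)
    change lsp_st (sY (‖W‖ • (v.1 : E3))) ≠ 0
    rw [lsp_st_sY]
    exact lsp_v_ne v hW
  have hf3 : Fact (Module.finrank ℝ E3 = 2 + 1) := Fact.mk (@finrank_euclideanSpace_fin ℝ _ (2 + 1))
  refine RSG.ld_two (g := lsp_gI) ?_ ?_ ?_ ?_
  · filter_upwards [hU] with q hq
    have h1 : ContMDiffAt (𝓘(ℝ, ℂ).prod (𝓡 2)) 𝓘(ℝ, E3) ∞ (fun q : ℂ × S2 => ‖q.1‖ • (q.2.1 : E3)) q := by
      have h2 : ContMDiffAt (𝓘(ℝ, ℂ).prod (𝓡 2)) 𝓘(ℝ, ℝ) ∞ (fun q : ℂ × S2 => ‖q.1‖) q :=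
        (contDiffAt_norm ℝ hq).contMDiffAt.comp q contMDiffAt_fst
      have h3 : ContMDiffAt (𝓘(ℝ, ℂ).prod (𝓡 2)) 𝓘(ℝ, E3) ∞ (fun q : ℂ × S2 => (q.2.1 : E3)) q :=
        (contMDiff_coe_sphere (n := 2) (m := ∞)).contMDiffAt.comp q contMDiffAt_snd
      exact h2.smul h3
    have h4 : ContMDiffAt (𝓘(ℝ, ℂ).prod (𝓡 2)) (𝓡 3) ∞ (fun q : ℂ × S2 => sY (‖q.1‖ • (q.2.1 : E3))) q :=
      (lsp_sY_smooth _).comp q h1
    have h5 : ContMDiffAt (𝓘(ℝ, ℂ).prod (𝓡 2)) (𝓡 1) ∞ (fun q : ℂ × S2 => dir q.1) q :=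
      (LKT.dir_smooth hq).comp q contMDiffAt_fst
    exact h4.prodMk h5
  · filter_upwards [hV1, hV2] with p hp1 hp2
    have h1 : ContMDiffAt ISP 𝓘(ℝ, E3) ∞ (fun p : SP => lsp_st p.1) p :=
      (lsp_st_smooth hp1).comp p contMDiffAt_fst
    have h2 : ContMDiffAt ISP 𝓘(ℝ, ℝ) ∞ (fun p : SP => ‖lsp_st p.1‖) p :=
      (contDiffAt_norm ℝ hp2).contMDiffAt.comp p h1
    have h3 : ContMDiffAt ISP 𝓘(ℝ, ℂ) ∞ (fun p : SP => (p.2 : ℂ)) p :=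
      KNH.CirM_coe_smooth.contMDiffAt.comp p contMDiffAt_snd
    have h4 : ContMDiffAt ISP 𝓘(ℝ, ℂ) ∞ (fun p : SP => (‖lsp_st p.1‖ : ℂ) * (p.2 : ℂ)) p := by
      have h5 := h2.smul h3
      refine h5.congr_of_eventuallyEq (Eventually.of_forall fun p => ?_)
      exact (Complex.real_smul).symm
    have h6 : ContMDiffAt ISP (𝓡 2) ∞ (fun p : SP => RSG.toSph e₁ (lsp_st p.1)) p :=
      (RSG.toSph_smooth (E := E3) (n := 2) e₁ hp2).comp p h1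
    exact h4.prodMk h6
  · filter_upwards [hU] with q hq
    have hq' : 0 < ‖q.1‖ := norm_pos_iff.2 hq
    have h1 : lsp_st (pol q).1 = ‖q.1‖ • (q.2.1 : E3) := lsp_st_sY _
    refine Prod.ext ?_ ?_
    · change (‖lsp_st (pol q).1‖ : ℂ) * ((dir q.1 : Circle) : ℂ) = q.1
      rw [h1, lsp_smul q.2 hq', dir_coe hq]
      have h2 : (‖q.1‖ : ℂ) ≠ 0 := Complex.ofReal_ne_zero.2 hq'.ne'
      field_simp
    · change RSG.toSph e₁ (lsp_st (pol q).1) = q.2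
      rw [h1, lsp_toSph_v q.2 hq']
  · filter_upwards [hV1, hV2] with p hp1 hp2
    have hn : 0 < ‖lsp_st p.1‖ := norm_pos_iff.2 hp2
    have h0 : ‖(‖lsp_st p.1‖ : ℂ) * (p.2 : ℂ)‖ = ‖lsp_st p.1‖ := by
      rw [norm_mul, Circle.norm_coe, mul_one, Complex.norm_real, norm_norm]
    have h1 : (‖lsp_st p.1‖ : ℂ) * (p.2 : ℂ) ≠ 0 := by
      rw [← norm_pos_iff, h0]
      exact hn
    refine Prod.ext ?_ ?_
    · change sY (‖(‖lsp_st p.1‖ : ℂ) * (p.2 : ℂ)‖ • ((RSG.toSph e₁ (lsp_st p.1)).1 : E3)) = p.1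
      rw [h0, RSG.toSph_coe _ hp2, smul_smul, mul_inv_cancel₀ hn.ne', one_smul, lsp_sY_st hp1]
    · change dir ((‖lsp_st p.1‖ : ℂ) * (p.2 : ℂ)) = p.2
      apply Circle.ext
      rw [dir_coe h1, h0]
      have h2 : (‖lsp_st p.1‖ : ℂ) ≠ 0 := Complex.ofReal_ne_zero.2 hn.ne'
      field_simp

theorem tubS_pol (t : ℝ) {r : ℝ} (hr : 0 < r) (v : S2) : tubS (t, r • v.1) = pol (r * ex t, v) := by
  unfold tubS pol
  refine Prod.ext ?_ ?_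
  · change sY (r • (v.1 : E3)) = sY (‖(r : ℂ) * ex t‖ • (v.1 : E3))
    rw [norm_mul, RSG.ex_norm, mul_one, Complex.norm_real, Real.norm_of_nonneg hr.le]
  · exact (dir_ex hr t).symm

theorem tubN_pol (t : ℝ) {r : ℝ} (hr : 0 < r) (v : S2) : tubN (t, r • v.1) = pol ((r⁻¹ : ℝ) * ex t, v) := by
  unfold tubN pol
  have hr' : 0 < r⁻¹ := inv_pos.2 hr
  refine Prod.ext ?_ ?_
  · change Inv (sY (r • (v.1 : E3))) = sY (‖((r⁻¹ : ℝ) : ℂ) * ex t‖ • (v.1 : E3))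
    rw [norm_mul, RSG.ex_norm, mul_one, Complex.norm_real, Real.norm_of_nonneg hr'.le, sY_inv (lsp_v_ne v hr),
      lsp_smul v hr, smul_smul]
    congr 2
    field_simp
  · exact (dir_ex hr' t).symm

theorem pol_inj {W W' : ℂ} {v v' : S2} (h : W ≠ 0) (h' : W' ≠ 0) (e : pol (W, v) = pol (W', v')) : W = W' ∧ v = v' := by
  have hW : 0 < ‖W‖ := norm_pos_iff.2 h
  have hW' : 0 < ‖W'‖ := norm_pos_iff.2 h'
  have e1 : ‖W‖ • (v.1 : E3) = ‖W'‖ • (v'.1 : E3) := sY_inj (congrArg Prod.fst e)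
  have e2 : dir W = dir W' := congrArg Prod.snd e
  have e3 : ‖W‖ = ‖W'‖ := by
    have := congrArg norm e1
    rwa [lsp_smul v hW, lsp_smul v' hW'] at this
  constructor
  · have e4 : ((dir W : Circle) : ℂ) = ((dir W' : Circle) : ℂ) := by rw [e2]
    rw [dir_coe h, dir_coe h', e3] at e4
    have h2 : (‖W'‖ : ℂ) ≠ 0 := Complex.ofReal_ne_zero.2 hW'.ne'
    field_simp at e4
    exact e4
  · rw [← lsp_toSph_v v hW, e1, lsp_toSph_v v' hW']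

theorem tubS_inj {t t' : ℝ} {Y Y' : E3} (e : tubS (t, Y) = tubS (t', Y')) : Y = Y' ∧ ∃ m : ℤ, t' = t + m := by
  exact ⟨sY_inj (congrArg Prod.fst e), circ_eq.1 (congrArg Prod.snd e)⟩

theorem tubN_inj {t t' : ℝ} {Y Y' : E3} (e : tubN (t, Y) = tubN (t', Y')) : Y = Y' ∧ ∃ m : ℤ, t' = t + m := by
  have e1 : Inv (sY Y) = Inv (sY Y') := congrArg Prod.fst e
  have e2 : sY Y = sY Y' := by rw [← Inv_Inv (sY Y), e1, Inv_Inv]
  exact ⟨sY_inj e2, circ_eq.1 (congrArg Prod.snd e)⟩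

theorem tubS_per (t : ℝ) (m : ℤ) (Y : E3) : tubS (t + m, Y) = tubS (t, Y) := by
  unfold tubS
  have : circ (t + m) = circ t := (circ_eq.2 ⟨m, rfl⟩).symm
  rw [this]

theorem tubN_per (t : ℝ) (m : ℤ) (Y : E3) : tubN (t + m, Y) = tubN (t, Y) := by
  unfold tubN
  have : circ (t + m) = circ t := (circ_eq.2 ⟨m, rfl⟩).symm
  rw [this]

theorem tubS_ne_tubN (t t' : ℝ) : tubS (t, 0) ≠ tubN (t', 0) := by
  intro e
  have e1 : sY 0 = Inv (sY 0) := congrArg Prod.fst e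
  have e2 : s2 (sY 0) = s2 (Inv (sY 0)) := by rw [← e1]
  rw [lsp_S0, lsp_N0.2] at e2
  have e3 := congrArg Complex.re e2
  norm_num at e3

theorem tubS_ne_pol (t : ℝ) {W : ℂ} (h : W ≠ 0) (v : S2) : tubS (t, 0) ≠ pol (W, v) := by
  intro e
  have e1 : sY 0 = sY (‖W‖ • (v.1 : E3)) := congrArg Prod.fst e
  exact lsp_v_ne v (norm_pos_iff.2 h) (sY_inj e1).symm

theorem tubN_ne_pol (t : ℝ) {W : ℂ} (h : W ≠ 0) (v : S2) : tubN (t, 0) ≠ pol (W, v) := by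
  intro e
  have e1 : Inv (sY 0) = sY (‖W‖ • (v.1 : E3)) := congrArg Prod.fst e
  have e2 := lsp_re_lt (‖W‖ • (v.1 : E3))
  rw [← e1, lsp_N0.2] at e2
  exact lt_irrefl _ e2

theorem SP_cover (p : SP) : (∃ t, p = tubS (t, 0)) ∨ (∃ t, p = tubN (t, 0)) ∨ ∃ (W : ℂ) (v : S2), W ≠ 0 ∧ p = pol (W, v) := by
  obtain ⟨x, z⟩ := p
  obtain ⟨t, rfl⟩ := KNH.circ_surj z
  by_cases h : (s2 x).re < 1
  · have hx := lsp_sY_st h
    by_cases h0 : lsp_st x = 0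
    · left
      refine ⟨t, ?_⟩
      unfold tubS
      rw [← h0, hx]
    · right; right
      have hn : 0 < ‖lsp_st x‖ := norm_pos_iff.2 h0
      have hne : ((‖lsp_st x‖ : ℝ) : ℂ) * ex t ≠ 0 :=
        mul_ne_zero (Complex.ofReal_ne_zero.2 hn.ne') (RSG.ex_ne t)
      refine ⟨((‖lsp_st x‖ : ℝ) : ℂ) * ex t, RSG.toSph e₁ (lsp_st x), hne, ?_⟩
      rw [← tubS_pol t hn]
      unfold tubS
      refine Prod.ext ?_ rfl
      change x = sY (‖lsp_st x‖ • ((RSG.toSph e₁ (lsp_st x)).1 : E3))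
      rw [RSG.toSph_coe _ h0, smul_smul, mul_inv_cancel₀ hn.ne', one_smul, hx]
  · right; left
    refine ⟨t, ?_⟩
    have h1 : (s2 x).re = 1 := by
      refine le_antisymm ?_ (not_lt.1 h)
      exact (Complex.re_le_norm _).trans (LKT.s_lt x).2
    have h2 := LKT.s_sq x
    have e2 : ‖s2 x‖ ^ 2 = (s2 x).re ^ 2 + (s2 x).im ^ 2 := by
      rw [Complex.sq_norm, Complex.normSq_apply]
      ring
    rw [e2, h1] at h2
    have h3 : (s2 x).im = 0 := by nlinarith [sq_nonneg ‖s1 x‖, sq_nonneg (s2 x).im]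
    have h4 : s1 x = 0 := by
      have : ‖s1 x‖ ^ 2 = 0 := by nlinarith [sq_nonneg ‖s1 x‖, sq_nonneg (s2 x).im]
      exact norm_eq_zero.1 (pow_eq_zero_iff (two_ne_zero) |>.1 this)
    unfold tubN
    refine Prod.ext ?_ rfl
    change x = Inv (sY 0)
    apply LKT.s_ext
    · rw [h4, lsp_N0.1]
    · rw [lsp_N0.2]
      exact Complex.ext h1 h3

end Pool.Agent.MMV
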