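import Pool.Agent.MMV.LDf

/-!
# MMV/LSt: slope of the smooth step   (difficulty 2; model: RBM/StepL, which has the bound 8)

`deriv_st_le`: for `x ≤ 0` or `x ≥ 1` the derivative is 0 (constant on one side; the function is `C^∞`).  For `0 < x < 1`: `S x = 1 / (1 + e^t)`, `t = 1/x - 1/(1-x)`, so
`S' = (A² + B²) e^t / (1 + e^t)² = (A² + B²) / (2 (1 + cosh t))` with `A = 1/x`, `B = 1/(1-x)`, `t = A - B`.  `cosh t ≥ 1 + t²/2`, so it is enough that `A² + B² ≤ 4 (2 + t²/2) = 8 + 2 (A - B)²`, i.e.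
`(P - 2)(P - 4) ≥ 0` for `P = A B = A + B`, and `P = 1/(x(1-x)) ≥ 4`.  (See `StepLip_aux`, `StepLip_deriv` in RBM/StepL for the formula of the derivative.)
`cu_lip`: mean value theorem, `cu a b s = 1 - S ((s - a)/(b - a))`.  The rest: `CSG.stp_smooth`, `stp_zero`, `stp_one`, `stp_nonneg`, `stp_le_one`.
-/

open scoped ContDiff Manifold Topology unitInterval
open Set Filter
open Pool.Agent.RSG (E3 E4 S2 S3 S4 ex cj c1 c2 ht fh pS2 pS3 pS4)
open Pool.Agent.RBM (ThickT OnT Box)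
open Pool.Agent.LKF (OnF)
open Pool.Agent.PTH (SP ISP)
open Pool.Agent.KNH (circ)
open Pool.Agent.LKT (s1 s2 dir)

namespace Pool.Agent.MMV

private theorem lst_cosh (u : ℝ) : 4 * (1 + u ^ 2) ≤ (Real.exp u + Real.exp (-u)) ^ 2 := by
  have h1 : ∀ v : ℝ, 0 ≤ v → v ^ 2 ≤ Real.sinh v ^ 2 := by
    intro v hv
    have h2 : v ≤ Real.sinh v := Real.self_le_sinh_iff.2 hv
    nlinarith
  have h2 : (u / 2) ^ 2 ≤ Real.sinh (u / 2) ^ 2 := by
    rcases le_total 0 (u / 2) with h | h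
    · exact h1 _ h
    · have := h1 (-(u / 2)) (by linarith)
      rw [Real.sinh_neg] at this
      nlinarith
  have h3 : Real.cosh u = 1 + 2 * Real.sinh (u / 2) ^ 2 := by
    have h4 := Real.cosh_two_mul (u / 2)
    have h5 := Real.cosh_sq (u / 2)
    have h6 : 2 * (u / 2) = u := by ring
    rw [h6] at h4
    rw [h4, h5]
    ring
  have h7 : Real.exp u + Real.exp (-u) = 2 * Real.cosh u := by
    rw [Real.cosh_eq]
    ring
  rw [h7]
  have h8 : 1 + u ^ 2 / 2 ≤ Real.cosh u := by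
    rw [h3]
    nlinarith
  nlinarith [sq_nonneg (u ^ 2)]

private theorem lst_aux {x : ℝ} (h0 : 0 < x) (h1 : x < 1) :
    Real.exp (-x⁻¹) * Real.exp (-(1 - x)⁻¹) * ((x⁻¹) ^ 2 + ((1 - x)⁻¹) ^ 2) ≤
      2 * (Real.exp (-x⁻¹) + Real.exp (-(1 - x)⁻¹)) ^ 2 := by
  have hx1 : 0 < 1 - x := by linarith
  set A := x⁻¹ with hA
  set B := (1 - x)⁻¹ with hB
  have hA0 : 0 < A := inv_pos.2 h0
  have hB0 : 0 < B := inv_pos.2 hx1
  have hP : A * B = A + B := by
    rw [hA, hB]
    field_simp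
    ring
  have hP4 : 4 ≤ A * B := by
    have h2 : 0 ≤ (A - B) ^ 2 := sq_nonneg _
    have h3 : 4 * (A * B) ≤ (A + B) ^ 2 := by nlinarith
    rw [← hP] at h3
    have h4 : 0 < A * B := mul_pos hA0 hB0
    by_contra hc
    push Not at hc
    nlinarith
  have h2 : A ^ 2 + B ^ 2 ≤ 2 * (4 + (A - B) ^ 2) := by
    have e1 : A ^ 2 + B ^ 2 = (A * B) ^ 2 - 2 * (A * B) := by
      have : A ^ 2 + B ^ 2 = (A + B) ^ 2 - 2 * (A * B) := by ring
      rw [this, hP]
    have e2 : (A - B) ^ 2 = (A * B) ^ 2 - 4 * (A * B) := by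
      have : (A - B) ^ 2 = (A + B) ^ 2 - 4 * (A * B) := by ring
      rw [this, hP]
    rw [e1, e2]
    nlinarith [mul_nonneg (by linarith : (0 : ℝ) ≤ A * B - 2) (by linarith : (0 : ℝ) ≤ A * B - 4)]
  have h3 := lst_cosh ((B - A) / 2)
  have h4 : Real.exp (-A) = Real.exp (-(A + B) / 2) * Real.exp ((B - A) / 2) := by
    rw [← Real.exp_add]
    congr 1
    ring
  have h5 : Real.exp (-B) = Real.exp (-(A + B) / 2) * Real.exp (-((B - A) / 2)) := by
    rw [← Real.exp_add]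
    congr 1
    ring
  have h6 : Real.exp (-A) * Real.exp (-B) = Real.exp (-(A + B) / 2) ^ 2 := by
    rw [← Real.exp_add, sq, ← Real.exp_add]
    congr 1
    ring
  have h7 : (Real.exp (-A) + Real.exp (-B)) ^ 2 =
      Real.exp (-(A + B) / 2) ^ 2 * (Real.exp ((B - A) / 2) + Real.exp (-((B - A) / 2))) ^ 2 := by
    rw [h4, h5]
    ring
  rw [h6, h7]
  have h8 : 0 ≤ Real.exp (-(A + B) / 2) ^ 2 := sq_nonneg _
  have h9 : A ^ 2 + B ^ 2 ≤ 2 * (Real.exp ((B - A) / 2) + Real.exp (-((B - A) / 2))) ^ 2 := by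
    refine h2.trans ?_
    have : 4 * (1 + ((B - A) / 2) ^ 2) = 4 + (A - B) ^ 2 := by ring
    rw [← this]
    linarith
  have := mul_le_mul_of_nonneg_left h9 h8
  linarith

theorem deriv_st_le (x : ℝ) : |deriv Real.smoothTransition x| ≤ 2 := by
  rcases le_or_gt x 0 with h0 | h0
  · have h : IsLocalMin Real.smoothTransition x := by
      apply Filter.Eventually.of_forall
      intro y
      rw [Real.smoothTransition.zero_of_nonpos h0]
      exact Real.smoothTransition.nonneg y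
    rw [h.deriv_eq_zero]
    norm_num
  rcases le_or_gt 1 x with h1 | h1
  · have h : IsLocalMax Real.smoothTransition x := by
      apply Filter.Eventually.of_forall
      intro y
      rw [Real.smoothTransition.one_of_one_le h1]
      exact Real.smoothTransition.le_one y
    rw [h.deriv_eq_zero]
    norm_num
  have hx' : x ≠ 0 := h0.ne'
  have hx1 : 1 - x ≠ 0 := by linarith
  have hA := Real.exp_pos (-x⁻¹)
  have hB := Real.exp_pos (-(1 - x)⁻¹)
  have hev : Real.smoothTransition =ᶠ[𝓝 x]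
      fun y => Real.exp (-y⁻¹) / (Real.exp (-y⁻¹) + Real.exp (-(1 - y)⁻¹)) := by
    filter_upwards [Ioo_mem_nhds h0 h1] with y hy
    have hy0 : ¬ y ≤ 0 := not_le.2 hy.1
    have hy1 : ¬ (1 - y ≤ 0) := by
      rw [not_le]
      linarith [hy.2]
    simp only [Real.smoothTransition, expNegInvGlue, hy0, hy1, if_false]
  have d1 : HasDerivAt (fun y : ℝ => Real.exp (-y⁻¹)) (Real.exp (-x⁻¹) * (x⁻¹) ^ 2) x := by
    have h := ((hasDerivAt_inv hx').neg).exp
    have e : Real.exp (-x⁻¹) * (x⁻¹) ^ 2 = Real.exp (-x⁻¹) * (- -(x ^ 2)⁻¹) := by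
      rw [neg_neg, inv_pow]
    rw [e]
    exact h
  have d2 : HasDerivAt (fun y : ℝ => Real.exp (-(1 - y)⁻¹))
      (-(Real.exp (-(1 - x)⁻¹) * ((1 - x)⁻¹) ^ 2)) x := by
    have h1' : HasDerivAt (fun y : ℝ => 1 - y) (-1) x := by
      simpa using (hasDerivAt_id x).const_sub 1
    have h := ((h1'.inv hx1).neg).exp
    have e : -(Real.exp (-(1 - x)⁻¹) * ((1 - x)⁻¹) ^ 2) =
        Real.exp (-(1 - x)⁻¹) * (-(- -1 / (1 - x) ^ 2)) := by
      rw [neg_neg, inv_pow]
      ring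
    rw [e]
    exact h
  have hne : Real.exp (-x⁻¹) + Real.exp (-(1 - x)⁻¹) ≠ 0 := by positivity
  have d3 := d1.div (d1.add d2) hne
  have d4 : deriv Real.smoothTransition x =
      Real.exp (-x⁻¹) * Real.exp (-(1 - x)⁻¹) * ((x⁻¹) ^ 2 + ((1 - x)⁻¹) ^ 2) /
        (Real.exp (-x⁻¹) + Real.exp (-(1 - x)⁻¹)) ^ 2 := by
    rw [hev.deriv_eq]
    have := d3.deriv
    have e2 : deriv (fun y => Real.exp (-y⁻¹) / (Real.exp (-y⁻¹) + Real.exp (-(1 - y)⁻¹))) x =
      deriv ((fun y : ℝ => Real.exp (-y⁻¹)) / ((fun y : ℝ => Real.exp (-y⁻¹)) +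
        fun y : ℝ => Real.exp (-(1 - y)⁻¹))) x := rfl
    rw [e2, this]
    congr 1
    simp only [Pi.add_apply]
    ring
  have hpos : 0 < (Real.exp (-x⁻¹) + Real.exp (-(1 - x)⁻¹)) ^ 2 := by positivity
  rw [d4, abs_of_nonneg (by positivity), div_le_iff₀ hpos]
  exact lst_aux h0 h1

theorem cu_smooth (a b : ℝ) : ContDiff ℝ ∞ (cu a b) :=
  contDiff_const.sub (CSG.stp_smooth a b)

theorem cu_one {a b s : ℝ} (hab : a < b) (h : s ≤ a) : cu a b s = 1 := by
  rw [cu, CSG.stp_zero hab h, sub_zero]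

theorem cu_zero {a b s : ℝ} (hab : a < b) (h : b ≤ s) : cu a b s = 0 := by
  rw [cu, CSG.stp_one hab h, sub_self]

theorem cu_nonneg (a b s : ℝ) : 0 ≤ cu a b s := by
  have := CSG.stp_le_one a b s
  rw [cu]
  linarith

theorem cu_le_one (a b s : ℝ) : cu a b s ≤ 1 := by
  have := CSG.stp_nonneg a b s
  rw [cu]
  linarith

theorem cu_lip {a b : ℝ} (hab : a < b) (s s' : ℝ) : |cu a b s - cu a b s'| ≤ 2 / (b - a) * |s - s'| := by
  have hpos : 0 < b - a := by linarith
  have hd : Differentiable ℝ Real.smoothTransition :=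
    (Real.smoothTransition.contDiff (n := 1)).differentiable (by norm_num)
  have h := Convex.norm_image_sub_le_of_norm_deriv_le (𝕜 := ℝ) (f := Real.smoothTransition)
    (s := Set.univ) (C := 2) (x := (s - a) / (b - a)) (y := (s' - a) / (b - a)) (fun z _ => hd z)
    (fun z _ => by rw [Real.norm_eq_abs]; exact deriv_st_le z) convex_univ (mem_univ _)
    (mem_univ _)
  rw [Real.norm_eq_abs, Real.norm_eq_abs] at h
  have e : (s' - a) / (b - a) - (s - a) / (b - a) = (s' - s) / (b - a) := by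
    rw [← sub_div]
    congr 1
    ring
  rw [e, abs_div, abs_of_pos hpos, abs_sub_comm s' s] at h
  have e2 : cu a b s - cu a b s' = Real.smoothTransition ((s' - a) / (b - a)) -
      Real.smoothTransition ((s - a) / (b - a)) := by
    unfold cu CSG.stp
    ring
  rw [e2]
  calc _ ≤ _ := h
    _ = _ := by ring

end Pool.Agent.MMV
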