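import Pool.Agent.MMV.LUp
import Pool.Agent.MMV.LRd

/-!
# MMV/LV0: the planar map `V0 = rad (1/8) 3 1 ∘ Upl`   (difficulty 3)

`R := rad (1/8) 3 1`: `R u = u` for `|u|² ≤ 1/3` (`rad_small`, `√1 = 1`), `R u = u / √(1 + |u|²)` for `|u|² ≥ 8`, injective, `|R u| < 1`, onto the disc, local diffeomorphism, `R (-u) = -R u`, `R u = c u` with `c > 0`.
`V0_ne`: `R u = ±1/2 = R (±1/2)` iff `u = ±1/2`.  `V0_inj`, `V0_surj`, `V0_ld`: compose (`R u' = u ≠ ±1/2` gives `u' ≠ ±1/2`).  `V0_small`: `|Upl W| = |1/2 + W| ≤ 9/16`, `81/256 ≤ 1/3`.  `V0_large`: `V0_inv`.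
`V0_re`: `R` preserves the sign of the real part.  `V0_neg`: real, and `-1/2 < ..`: `Upl (-x) ∈ (-1/2, 0]`, where `R` is the identity (`1/4 ≤ 1/3`).
`V0_far`: `q = conj ζ / √(1 - |ζ|²)`, `|q| < (1/3)/√(8/9) < 2/5`; `W = (2 + q)/(2 - q)`, `1/4 ≤ |W| ≤ 4`, `W ≠ 1` (`q ≠ 0`): `Upl W = (W + 1)/(2 (W - 1)) = 1/q = √(1 - r²) ζ / r²`, `r = |ζ|`; `|1/q|² = (1 - r²)/r² ≥ 8`;
`1 + |1/q|² = 1/r²`, so `V0 W = (1/q) r = √(1 - r²) ζ / r`.
-/

open scoped ContDiff Manifold Topology unitInterval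
open Set Filter
open Pool.Agent.RSG (E3 E4 S2 S3 S4 ex cj c1 c2 ht fh pS2 pS3 pS4)
open Pool.Agent.RBM (ThickT OnT Box)
open Pool.Agent.LKF (OnF)
open Pool.Agent.PTH (SP ISP)
open Pool.Agent.KNH (circ)
open Pool.Agent.LKT (s1 s2 dir)

namespace Pool.Agent.MMV

private theorem lv0_small {u : ℂ} (h : ‖u‖ ^ 2 ≤ 1 / 3) : rad (1 / 8) 3 1 u = u := by
  rw [rad_small (by norm_num) (by norm_num) one_pos h]
  simp

private theorem lv0_half : rad (1 / 8) 3 1 (1 / 2) = 1 / 2 := by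
  apply lv0_small
  norm_num

private theorem lv0_nhalf : rad (1 / 8) 3 1 (-1 / 2) = -1 / 2 := by
  apply lv0_small
  norm_num

private theorem lv0_inj : Function.Injective (rad (1 / 8) 3 1) := rad_inj (by norm_num) (by norm_num) one_pos

theorem V0_lt (W : ℂ) : ‖V0 W‖ < 1 := rad_lt (by norm_num) (by norm_num) one_pos _

theorem V0_ne {W : ℂ} (h0 : W ≠ 0) (h1 : W ≠ 1) : V0 W ≠ -1 / 2 ∧ V0 W ≠ 1 / 2 := by
  obtain ⟨h2, h3⟩ := Upl_ne h0 h1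
  constructor
  · intro h
    exact h2 (lv0_inj (h.trans lv0_nhalf.symm))
  · intro h
    exact h3 (lv0_inj (h.trans lv0_half.symm))

theorem V0_ld {W : ℂ} (h0 : W ≠ 0) (h1 : W ≠ 1) : IsLocalDiffeomorphAt 𝓘(ℝ, ℂ) 𝓘(ℝ, ℂ) ∞ V0 W :=
  (Upl_ld h0 h1).comp _ _ (rad_ld (by norm_num) (by norm_num) one_pos _)

theorem V0_inj {W W' : ℂ} (h0 : W ≠ 0) (h1 : W ≠ 1) (h0' : W' ≠ 0) (h1' : W' ≠ 1) (h : V0 W = V0 W') : W = W' :=
  Upl_inj h0 h1 h0' h1' (lv0_inj h)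

theorem V0_surj {u : ℂ} (hu : ‖u‖ < 1) (h : u ≠ -1 / 2) (h' : u ≠ 1 / 2) : ∃ W, W ≠ 0 ∧ W ≠ 1 ∧ V0 W = u := by
  obtain ⟨u', hu'⟩ := rad_surj (a := 1 / 8) (b := 3) (k := 1) (by norm_num) (by norm_num) one_pos hu
  obtain ⟨W, hW0, hW1, hW⟩ := Upl_surj (u := u') (by
    rintro rfl
    exact h (hu'.symm.trans lv0_nhalf)) (by
    rintro rfl
    exact h' (hu'.symm.trans lv0_half))
  refine ⟨W, hW0, hW1, ?_⟩
  unfold V0
  rw [hW, hu']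

theorem V0_small {W : ℂ} (h0 : W ≠ 0) (h : ‖W‖ ≤ 1 / 16) : V0 W = -1 / 2 - W := by
  unfold V0
  rw [Upl_small h0 h]
  apply lv0_small
  have h1 : ‖(-1 / 2 : ℂ) - W‖ ≤ 9 / 16 := by
    calc ‖(-1 / 2 : ℂ) - W‖ ≤ ‖(-1 / 2 : ℂ)‖ + ‖W‖ := norm_sub_le _ _
      _ ≤ 1 / 2 + 1 / 16 := by
        have : ‖(-1 / 2 : ℂ)‖ = 1 / 2 := by norm_num
        linarith
      _ = 9 / 16 := by norm_num
  nlinarith [norm_nonneg ((-1 / 2 : ℂ) - W)]

theorem V0_inv {W : ℂ} (h0 : W ≠ 0) (h1 : W ≠ 1) : V0 W⁻¹ = -V0 W := by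
  unfold V0
  rw [Upl_inv h0 h1, rad_neg]

theorem V0_large {W : ℂ} (h : 16 ≤ ‖W‖) : V0 W = 1 / 2 + W⁻¹ := by
  have hpos : 0 < ‖W‖ := by linarith
  have h0 : W ≠ 0 := norm_pos_iff.1 hpos
  have h1 : W⁻¹ ≠ 1 := by
    intro h1
    rw [inv_eq_one] at h1
    rw [h1, norm_one] at h
    norm_num at h
  have h2 : ‖W⁻¹‖ ≤ 1 / 16 := by
    rw [norm_inv, inv_le_comm₀ hpos (by norm_num)]
    linarith
  have h3 := V0_inv (inv_ne_zero h0) h1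
  rw [inv_inv, V0_small (inv_ne_zero h0) h2] at h3
  rw [h3]
  ring

theorem V0_re {W : ℂ} (h0 : W ≠ 0) (h1 : W ≠ 1) :
    ((V0 W).re < 0 ↔ ‖W‖ < 1) ∧ ((V0 W).re = 0 ↔ ‖W‖ = 1) := by
  obtain ⟨c, hc, he⟩ := rad_dir (a := 1 / 8) (b := 3) (k := 1) one_pos (Upl W)
  have h2 : (V0 W).re = c * (Upl W).re := by
    unfold V0
    rw [he, Complex.re_ofReal_mul]
  obtain ⟨h3, h4⟩ := Upl_re h0 h1
  rw [h2, ← h3, ← h4]
  constructor
  · constructor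
    · intro h
      by_contra hh
      have := mul_nonneg hc.le (not_lt.1 hh)
      linarith
    · intro h
      exact mul_neg_of_pos_of_neg hc h
  · constructor
    · intro h
      rcases mul_eq_zero.1 h with h | h
      · exact absurd h hc.ne'
      · exact h
    · intro h
      rw [h, mul_zero]

theorem V0_neg {x : ℝ} (hx : 0 < x) (hx' : x ≤ 1) :
    V0 (-(x : ℂ)) = (((V0 (-(x : ℂ))).re : ℝ) : ℂ) ∧ -1 / 2 < (V0 (-(x : ℂ))).re ∧ (V0 (-(x : ℂ))).re ≤ 0 := by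
  obtain ⟨h1, h2, h3⟩ := Upl_neg hx hx'
  have h4 : V0 (-(x : ℂ)) = Upl (-(x : ℂ)) := by
    unfold V0
    apply lv0_small
    rw [Complex.sq_norm, Complex.normSq_apply, h1]
    nlinarith
  rw [h4]
  refine ⟨?_, h2, h3⟩
  apply Complex.ext
  · simp
  · simp [h1]

theorem V0_far {ζ : ℂ} (h0 : ζ ≠ 0) (h : ‖ζ‖ < 1 / 3) :
    V0 ((2 + (starRingEnd ℂ) ζ / (Real.sqrt (1 - ‖ζ‖ ^ 2) : ℝ)) / (2 - (starRingEnd ℂ) ζ / (Real.sqrt (1 - ‖ζ‖ ^ 2) : ℝ))) =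
      (Real.sqrt (1 - ‖ζ‖ ^ 2) : ℝ) * ζ / (‖ζ‖ : ℂ) := by
  set r := ‖ζ‖ with hr
  have hr0 : 0 < r := norm_pos_iff.2 h0
  have hr2 : r ^ 2 < 1 / 9 := by nlinarith
  have hspos : 0 < 1 - r ^ 2 := by linarith
  set s := Real.sqrt (1 - r ^ 2) with hs
  have hs0 : 0 < s := Real.sqrt_pos.2 hspos
  have hs2 : s ^ 2 = 1 - r ^ 2 := Real.sq_sqrt hspos.le
  have hcz : (starRingEnd ℂ) ζ ≠ 0 := by
    intro h1
    apply h0
    rw [← Complex.conj_conj ζ, h1, map_zero]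
  have hsC : (s : ℂ) ≠ 0 := by exact_mod_cast hs0.ne'
  have hrC : (r : ℂ) ≠ 0 := by exact_mod_cast hr0.ne'
  set q := (starRingEnd ℂ) ζ / (s : ℂ) with hq
  have hq0 : q ≠ 0 := div_ne_zero hcz hsC
  have hqn : ‖q‖ = r / s := by
    rw [hq, norm_div, Complex.norm_conj, Complex.norm_real, Real.norm_of_nonneg hs0.le]
  have hql : ‖q‖ < 2 / 5 := by
    rw [hqn, div_lt_iff₀ hs0]
    by_contra hh
    have h1 : 2 / 5 * s ≤ r := not_lt.1 hh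
    have h2 : (2 / 5 * s) ^ 2 ≤ r ^ 2 := by
      apply pow_le_pow_left₀ (by positivity) h1
    nlinarith
  have h2q : (8 / 5 : ℝ) ≤ ‖2 - q‖ := by
    have := norm_sub_norm_le 2 q
    rw [Complex.norm_two] at this
    linarith
  have h2q' : (8 / 5 : ℝ) ≤ ‖2 + q‖ := by
    have := norm_sub_norm_le 2 (-q)
    rw [Complex.norm_two, norm_neg, sub_neg_eq_add] at this
    linarith
  have h2ql : ‖2 - q‖ ≤ 12 / 5 := by
    have := norm_sub_le 2 q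
    rw [Complex.norm_two] at this
    linarith
  have h2ql' : ‖2 + q‖ ≤ 12 / 5 := by
    have := norm_add_le 2 q
    rw [Complex.norm_two] at this
    linarith
  have h2ne : 2 - q ≠ 0 := by
    intro h1
    rw [h1, norm_zero] at h2q
    norm_num at h2q
  have hpos : 0 < ‖2 - q‖ := by linarith
  have hW1 : (2 + q) / (2 - q) ≠ 1 := by
    intro h1
    rw [div_eq_one_iff_eq h2ne] at h1
    apply hq0
    linear_combination h1 / 2
  have hWl : 1 / 4 ≤ ‖(2 + q) / (2 - q)‖ := by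
    rw [norm_div, le_div_iff₀ hpos]
    linarith
  have hWu : ‖(2 + q) / (2 - q)‖ ≤ 4 := by
    rw [norm_div, div_le_iff₀ hpos]
    linarith
  have hU : Upl ((2 + q) / (2 - q)) = q⁻¹ := by
    rw [Upl_mid hW1 hWl hWu]
    have e1 : (2 + q) / (2 - q) + 1 = 4 / (2 - q) := by
      rw [div_add_one h2ne]
      congr 1
      ring
    have e2 : 2 * ((2 + q) / (2 - q) - 1) = 4 * q / (2 - q) := by
      rw [div_sub_one h2ne]
      rw [← mul_div_assoc]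
      congr 1
      ring
    rw [e1, e2]
    field_simp
  have hcc : (starRingEnd ℂ) ζ * ζ = (r : ℂ) ^ 2 := by
    rw [mul_comm, Complex.mul_conj, hr, ← Complex.sq_norm]
    push_cast
    rfl
  have hqi : q⁻¹ = (s : ℂ) * ζ / (r : ℂ) ^ 2 := by
    rw [hq, inv_div, div_eq_div_iff hcz (pow_ne_zero 2 hrC)]
    linear_combination (-(s : ℂ)) * hcc
  have hqin : ‖q⁻¹‖ ^ 2 = (1 - r ^ 2) / r ^ 2 := by
    rw [norm_inv, hqn, inv_div, div_pow, hs2]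
  have hlarge : 1 / (1 / 8) ≤ ‖q⁻¹‖ ^ 2 := by
    rw [hqin, le_div_iff₀ (by positivity)]
    nlinarith
  unfold V0
  rw [hU, rad_large (by norm_num) (by norm_num) one_pos hlarge, hqin]
  have e3 : 1 + (1 - r ^ 2) / r ^ 2 = (1 / r) ^ 2 := by
    field_simp
    ring
  rw [e3, Real.sqrt_sq (by positivity), hqi]
  push_cast
  field_simp

end Pool.Agent.MMV
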