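import Pool.Agent.MMV.LGm
import Pool.Agent.MMV.LV0

/-!
# MMV/LSy: the symmetry   (difficulty 2)

`dm_symm`: all the fields are checked directly: `ex (l + 1/2) = -ex l`, `ngM mp (-1/2 + r ex l, v) = mp (1/2 - r ex l, v) = mp (1/2 + r ex (l + 1/2), v) = k₂ (l + 1/2, r v)`.  `u ≠ -1/2 ↔ -u ≠ 1/2`.  The local diffeomorphisms: composition with the translation `l ↦ l + 1/2` and with `u ↦ -u`.
`J0_symm`: by `SP_cover` and the formulas `J0_tubS`, `J0_tubN`, `J0_pol` (of this file; from LGm): `Sym_tubS`, `Sym_tubN`, `Sym_pol`, `V0_inv`.  At `tubS (t, 0)`: `shT k₂ (t + 1/2, 0) = k₂ (t + 1, 0) = k₂ (t, 0) = J0 (tubN (-t, 0))`; at `tubN (t, 0)`: `shT k₁ (-t, 0) = k₁ (-t + 1/2, 0) = J0 (tubS (-t, 0))`;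
at `pol (W, v)`, `W ≠ 1`: `mp (-V0 W, v) = mp (V0 W⁻¹, v)`.  `κS₂_eq`: definitions.  `ptM_symm`: `|u| < 1`: definition; `u = ex l`, `-u = ex (l + 1/2)`, the period of `ρ₀` (`arg u / 2π = l mod ℤ`).
-/

open scoped ContDiff Manifold Topology unitInterval
open Set Filter
open Pool.Agent.RSG (E3 E4 S2 S3 S4 ex cj c1 c2 ht fh pS2 pS3 pS4)
open Pool.Agent.RBM (ThickT OnT Box)
open Pool.Agent.LKF (OnF)
open Pool.Agent.PTH (SP ISP)
open Pool.Agent.KNH (circ)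
open Pool.Agent.LKT (s1 s2 dir)

namespace Pool.Agent.MMV

section
variable {M : Type*} [TopologicalSpace M] [ChartedSpace E4 M] {k₁ k₂ : ℝ × E3 → M} {ε : ℝ} {mp : ℂ × S2 → M} {ρ₀ : ℝ × E3 → M}

omit [TopologicalSpace M] [ChartedSpace E4 M] in
theorem lsy_per {k : ℝ × E3 → M} (h : ∀ l, k (l + 1, 0) = k (l, 0)) (l : ℝ) (n : ℤ) : k (l + n, 0) = k (l, 0) := by
  induction n using Int.induction_on with
  | zero => simp
  | succ i ih =>
    rw [← ih, ← h (l + ((i : ℤ) : ℝ))]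
    congr 2
    push_cast
    ring
  | pred i ih =>
    rw [← ih, ← h (l + ((-(i : ℤ) - 1 : ℤ) : ℝ))]
    congr 2
    push_cast
    ring

theorem lsy_tr (p : ℝ × E3) :
    IsLocalDiffeomorphAt 𝓘(ℝ, ℝ × E3) 𝓘(ℝ, ℝ × E3) ∞ (fun q : ℝ × E3 => (q.1 + 1 / 2, q.2)) p :=
  RSG.ld_two (g := fun q : ℝ × E3 => (q.1 - 1 / 2, q.2))
    (Eventually.of_forall fun _ => ((contDiff_fst.add contDiff_const).prodMk contDiff_snd).contMDiff.contMDiffAt)
    (Eventually.of_forall fun _ => ((contDiff_fst.sub contDiff_const).prodMk contDiff_snd).contMDiff.contMDiffAt)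
    (Eventually.of_forall fun _ => Prod.ext (add_sub_cancel_right _ _) rfl)
    (Eventually.of_forall fun _ => Prod.ext (sub_add_cancel _ _) rfl)

theorem lsy_loc {k : ℝ × E3 → M} {l : ℝ} {v : E3}
    (h : IsLocalDiffeomorphAt 𝓘(ℝ, ℝ × E3) (𝓡 4) ∞ k (l + 1 / 2, v)) :
    IsLocalDiffeomorphAt 𝓘(ℝ, ℝ × E3) (𝓡 4) ∞ (shT k) (l, v) :=
  IsLocalDiffeomorphAt.comp (hf := lsy_tr (l, v)) (hg := h) ..

theorem lsy_thick {k : ℝ × E3 → M} (h : ACB.Thick k ε) : ACB.Thick (shT k) ε := by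
  refine ⟨h.pos, ?_, ?_, ?_⟩
  · intro l v hv
    unfold shT
    rw [← h.per (l + 1 / 2) v hv]
    congr 2
    ring
  · intro l v hv
    exact lsy_loc (h.loc (l + 1 / 2) v hv)
  · intro l v l' v' hv hv' e
    obtain ⟨h1, m, hm⟩ := h.inj (l + 1 / 2) v (l' + 1 / 2) v' hv hv' e
    exact ⟨h1, m, by linarith⟩

theorem lsy_ex (l : ℝ) : ex (l + 1 / 2) = -ex l := by
  rw [RSG.ex_add, RSG.ex_half, mul_neg_one]

theorem lsy_ne1 {u : ℂ} (h : u ≠ -1 / 2) : -u ≠ 1 / 2 := fun e => h (by linear_combination (-1 : ℂ) * e)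

theorem lsy_ne2 {u : ℂ} (h : u ≠ 1 / 2) : -u ≠ -1 / 2 := fun e => h (by linear_combination (-1 : ℂ) * e)

theorem lsy_circ (t : ℝ) : (circ (-t))⁻¹ = circ t := by
  unfold KNH.circ
  rw [mul_neg, Circle.exp_neg, inv_inv]

theorem lsy_ptM_ex (D : DM k₁ k₂ ε mp ρ₀) (l : ℝ) : ptM mp ρ₀ (ex l) = ρ₀ (l, 0) := by
  have h1 : ¬ ‖ex l‖ < 1 := by
    rw [RSG.ex_norm]
    exact lt_irrefl _
  unfold ptM
  rw [if_neg h1]
  have h2 := RSG.ex_arg (p := ex l)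
  rw [RSG.ex_norm, Complex.ofReal_one, one_mul] at h2
  obtain ⟨m, hm⟩ := RSG.ex_eq_iff.1 h2
  have h3 := lsy_per (k := ρ₀) (fun l => D.ρ_per l 0 (by rw [norm_zero]; norm_num))
    (Complex.arg (ex l) / (2 * Real.pi)) m
  rw [← hm] at h3
  exact h3.symm

theorem dm_symm (D : DM k₁ k₂ ε mp ρ₀) : DM (shT k₂) (shT k₁) ε (ngM mp) (shT ρ₀) := by
  refine ⟨lsy_thick D.thick₂, lsy_thick D.thick₁, D.small, ?_, ?_, ?_, ?_, ?_, ?_, ?_, ?_, ?_, ?_, ?_, ?_, ?_⟩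
  · intro u v hu h1 h2
    have hn : IsLocalDiffeomorphAt 𝓘(ℝ, ℂ) 𝓘(ℝ, ℂ) ∞ (fun z : ℂ => -z) u :=
      RSG.ld_two (g := fun z : ℂ => -z) (Eventually.of_forall fun y => contDiff_neg.contMDiff.contMDiffAt)
        (Eventually.of_forall fun y => contDiff_neg.contMDiff.contMDiffAt)
        (Eventually.of_forall fun y => neg_neg _) (Eventually.of_forall fun y => neg_neg _)
    have hi : IsLocalDiffeomorphAt (𝓡 2) (𝓡 2) ∞ (id : S2 → S2) v :=
      RSG.ld_two (g := id) (Eventually.of_forall fun y => contMDiffAt_id)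
        (Eventually.of_forall fun y => contMDiffAt_id)
        (Eventually.of_forall fun y => rfl) (Eventually.of_forall fun y => rfl)
    have hp := RSG.ld_prodMap hn hi
    exact IsLocalDiffeomorphAt.comp (hf := hp)
      (hg := D.mp_loc (-u) v (by rw [norm_neg]; exact hu) (lsy_ne2 h2) (lsy_ne1 h1)) ..
  · intro u v u' v' hu h1 h2 hu' h1' h2' e
    obtain ⟨a, b⟩ := D.mp_inj (-u) v (-u') v' (by rw [norm_neg]; exact hu) (lsy_ne2 h2) (lsy_ne1 h1)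
      (by rw [norm_neg]; exact hu') (lsy_ne2 h2') (lsy_ne1 h1') e
    exact ⟨neg_injective a, b⟩
  · intro l X hX
    unfold shT
    rw [← D.ρ_per (l + 1 / 2) X hX]
    congr 2
    ring
  · intro l X hX
    exact lsy_loc (D.ρ_loc (l + 1 / 2) X hX)
  · intro l r v h1 h2
    unfold shT ngM
    have h3 := D.glue₀ (l + 1 / 2) r v h1 h2
    rw [lsy_ex, mul_neg] at h3
    exact h3
  · intro l r v h1 h2
    unfold shT ngM
    have h3 := D.glue₂ (l + 1 / 2) r v h1 h2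
    rw [lsy_ex] at h3
    rw [h3]
    congr 2
    ring
  · intro l r v h1 h2
    unfold shT ngM
    have h3 := D.glue₁ (l + 1 / 2) r v h1 h2
    rw [lsy_ex] at h3
    rw [h3]
    congr 2
    ring
  · intro l l' e
    obtain ⟨m, hm⟩ := D.ρ_inj (l + 1 / 2) (l' + 1 / 2) e
    exact ⟨m, by linarith⟩
  · intro l l'
    exact D.d02 _ _
  · intro l l'
    exact D.d01 _ _
  · intro l l'
    exact (D.d12 _ _).symm
  · intro u v l hu h1 h2
    obtain ⟨a, b, c⟩ := D.dm (-u) v (l + 1 / 2) (by rw [norm_neg]; exact hu) (lsy_ne2 h2) (lsy_ne1 h1)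
    exact ⟨a, c, b⟩
  · intro m
    rcases D.cover m with ⟨u, v, hu, h1, h2, rfl⟩ | ⟨l, rfl⟩ | ⟨l, rfl⟩ | ⟨l, rfl⟩
    · left
      refine ⟨-u, v, by rw [norm_neg]; exact hu, lsy_ne2 h2, lsy_ne1 h1, ?_⟩
      unfold ngM
      rw [neg_neg]
    · right; left
      refine ⟨l - 1 / 2, ?_⟩
      unfold shT
      rw [sub_add_cancel]
    · right; right; right
      refine ⟨l - 1 / 2, ?_⟩
      unfold shT
      rw [sub_add_cancel]
    · right; right; left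
      refine ⟨l - 1 / 2, ?_⟩
      unfold shT
      rw [sub_add_cancel]

theorem J0_tubS (D : DM k₁ k₂ ε mp ρ₀) (t : ℝ) : J0 k₁ k₂ mp (tubS (t, 0)) = k₁ (t + 1 / 2, 0) := by
  have h0 : ∀ l : ℝ, k₁ (l + 1, 0) = k₁ (l, 0) := fun l => D.thick₁.per l 0 (by rw [norm_zero]; exact D.thick₁.pos)
  refine gmap_tubS (a := fun q : ℝ × E3 => k₁ (q.1 + 1 / 2, q.2)) ?_ t
  intro t n
  change k₁ (t + n + 1 / 2, 0) = k₁ (t + 1 / 2, 0)
  rw [add_right_comm]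
  exact lsy_per h0 _ n

theorem J0_tubN (D : DM k₁ k₂ ε mp ρ₀) (t : ℝ) : J0 k₁ k₂ mp (tubN (t, 0)) = k₂ (-t, 0) := by
  have h0 : ∀ l : ℝ, k₂ (l + 1, 0) = k₂ (l, 0) := fun l => D.thick₂.per l 0 (by rw [norm_zero]; exact D.thick₂.pos)
  refine gmap_tubN (b := fun q : ℝ × E3 => k₂ (-q.1, q.2)) ?_ t
  intro t n
  change k₂ (-(t + n), 0) = k₂ (-t, 0)
  have h1 := lsy_per h0 (-(t + n)) n
  rw [← h1]
  congr 2
  ring

theorem J0_pol (k₁ k₂ : ℝ × E3 → M) (mp : ℂ × S2 → M) {W : ℂ} (h : W ≠ 0) (v : S2) :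
    J0 k₁ k₂ mp (pol (W, v)) = mp (V0 W, v) := by
  exact gmap_pol h v

theorem J0_symm (D : DM k₁ k₂ ε mp ρ₀) {p : SP} (hp : ∀ v, p ≠ pol (1, v)) :
    J0 (shT k₂) (shT k₁) (ngM mp) p = J0 k₁ k₂ mp (Sym p) := by
  have h0 : ∀ l : ℝ, k₂ (l + 1, 0) = k₂ (l, 0) := fun l => D.thick₂.per l 0 (by rw [norm_zero]; exact D.thick₂.pos)
  rcases SP_cover p with ⟨t, rfl⟩ | ⟨t, rfl⟩ | ⟨W, v, hW, rfl⟩
  · rw [Sym_tubS, J0_tubS (dm_symm D), J0_tubN D, neg_neg]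
    unfold shT
    rw [← h0 t]
    congr 2
    ring
  · rw [Sym_tubN, J0_tubN (dm_symm D), J0_tubS D]
    rfl
  · have h1 : W ≠ 1 := by
      rintro rfl
      exact hp v rfl
    rw [Sym_pol hW, J0_pol _ _ _ hW, J0_pol _ _ _ (inv_ne_zero hW), V0_inv hW h1]
    rfl

theorem κS₂_eq (l : ℝ) (v : ℂ) (t : ℝ) : κS₂ (l, v, t) = Sym (κS₁ (l, -(starRingEnd ℂ) v, -t)) := by
  unfold κS₂ Sym κS₁
  refine Prod.ext rfl ?_
  exact (lsy_circ t).symm

theorem ptM_symm (D : DM k₁ k₂ ε mp ρ₀) {u : ℂ} (hu : ‖u‖ ≤ 1) : ptM (ngM mp) (shT ρ₀) u = ptM mp ρ₀ (-u) := by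
  rcases hu.lt_or_eq with h | h
  · have h' : ‖-u‖ < 1 := by rw [norm_neg]; exact h
    unfold ptM
    rw [if_pos h, if_pos h']
    rfl
  · obtain ⟨l, rfl⟩ := RSG.ex_surj h
    rw [lsy_ptM_ex (dm_symm D), ← lsy_ex, lsy_ptM_ex D]
    rfl

theorem ptM_ex (D : DM k₁ k₂ ε mp ρ₀) (l : ℝ) : ptM mp ρ₀ (ex l) = ρ₀ (l, 0) := by
  exact lsy_ptM_ex D l

theorem ptM_lt (mp : ℂ × S2 → M) (ρ₀ : ℝ × E3 → M) {u : ℂ} (hu : ‖u‖ < 1) : ptM mp ρ₀ u = mp (u, e₁) := by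
  unfold ptM
  rw [if_pos hu]

theorem ptM_cont (D : DM k₁ k₂ ε mp ρ₀) :
    ContinuousOn (ptM mp ρ₀) {u : ℂ | ‖u‖ ≤ 1 ∧ u ≠ -1 / 2 ∧ u ≠ 1 / 2} := by
  rintro u ⟨hu, h1, h2⟩
  rcases hu.lt_or_eq with h | h
  · have hc : ContinuousAt (fun y : ℂ => mp (y, e₁)) u :=
      ContinuousAt.comp (f := fun y : ℂ => (y, e₁)) (g := mp) (D.mp_loc u e₁ h h1 h2).contMDiffAt.continuousAt
        (continuousAt_id.prodMk continuousAt_const)
    have he : ptM mp ρ₀ =ᶠ[𝓝 u] fun y : ℂ => mp (y, e₁) := by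
      filter_upwards [(continuous_norm.continuousAt (x := u)).eventually (gt_mem_nhds h)] with y hy
      unfold ptM
      rw [if_pos hy]
    exact (hc.congr he.symm).continuousWithinAt
  · obtain ⟨l₀, rfl⟩ := RSG.ex_surj h
    have hex := RSG.ex_ne l₀
    have hN : ∀ y : ℂ, y = (‖y‖ : ℂ) * ex (l₀ + Complex.arg (y / ex l₀) / (2 * Real.pi)) := by
      intro y
      have h3 := RSG.ex_arg (p := y / ex l₀)
      rw [norm_div, RSG.ex_norm, div_one] at h3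
      rw [RSG.ex_add, mul_left_comm, h3]
      field_simp
    have hG : ∀ y : ℂ, ‖y‖ ≤ 1 → 3 / 5 < ‖y‖ → ptM mp ρ₀ y =
        ρ₀ (l₀ + Complex.arg (y / ex l₀) / (2 * Real.pi), Real.sqrt (1 - ‖y‖ ^ 2) • (e₁.1 : E3)) := by
      intro y hy1 hy2
      have hy3 := hN y
      rcases hy1.lt_or_eq with hy | hy
      · have hpos : 0 < 1 - ‖y‖ ^ 2 := by nlinarith [norm_nonneg y]
        have hr : 0 < Real.sqrt (1 - ‖y‖ ^ 2) := Real.sqrt_pos.2 hpos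
        have hr2 : Real.sqrt (1 - ‖y‖ ^ 2) < 4 / 5 := by
          rw [Real.sqrt_lt' (by norm_num)]
          nlinarith
        rw [D.glue₀ _ _ e₁ hr hr2]
        unfold ptM
        rw [if_pos hy, Real.sq_sqrt hpos.le, sub_sub_cancel, Real.sqrt_sq (norm_nonneg y), ← hy3]
      · rw [hy, Complex.ofReal_one, one_mul] at hy3
        have h0 : Real.sqrt (1 - ‖y‖ ^ 2) = 0 := by
          rw [hy, one_pow, sub_self, Real.sqrt_zero]
        rw [h0, zero_smul]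
        nth_rewrite 1 [hy3]
        exact lsy_ptM_ex D _
    have hev : ∀ᶠ y : ℂ in 𝓝[{u : ℂ | ‖u‖ ≤ 1 ∧ u ≠ -1 / 2 ∧ u ≠ 1 / 2}] (ex l₀), ptM mp ρ₀ y =
        ρ₀ (l₀ + Complex.arg (y / ex l₀) / (2 * Real.pi), Real.sqrt (1 - ‖y‖ ^ 2) • (e₁.1 : E3)) := by
      have h3 : ∀ᶠ y : ℂ in 𝓝 (ex l₀), 3 / 5 < ‖y‖ :=
        (continuous_norm.continuousAt (x := ex l₀)).eventually (lt_mem_nhds (by change 3 / 5 < ‖ex l₀‖; rw [h]; norm_num))
      filter_upwards [mem_nhdsWithin_of_mem_nhds h3, self_mem_nhdsWithin] with y hy1 hy2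
      exact hG y hy2.1 hy1
    refine ContinuousWithinAt.congr_of_eventuallyEq ?_ hev (hG _ hu (by rw [h]; norm_num))
    apply ContinuousAt.continuousWithinAt
    have harg : ContinuousAt (fun y : ℂ => Complex.arg (y / ex l₀)) (ex l₀) := by
      have h3 : ContinuousAt Complex.arg (ex l₀ / ex l₀) := by
        rw [div_self hex]
        exact Complex.continuousAt_arg Complex.one_mem_slitPlane
      exact ContinuousAt.comp (f := fun y : ℂ => y / ex l₀) (g := Complex.arg) h3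
        (continuousAt_id.div_const _)
    have hin : ContinuousAt (fun y : ℂ => ((l₀ + Complex.arg (y / ex l₀) / (2 * Real.pi),
        Real.sqrt (1 - ‖y‖ ^ 2) • (e₁.1 : E3)) : ℝ × E3)) (ex l₀) := by
      refine ContinuousAt.prodMk (continuousAt_const.add (harg.div_const _)) ?_
      have : Continuous fun y : ℂ => Real.sqrt (1 - ‖y‖ ^ 2) • (e₁.1 : E3) := by fun_prop
      exact this.continuousAt
    refine ContinuousAt.comp (f := fun y : ℂ => ((l₀ + Complex.arg (y / ex l₀) / (2 * Real.pi),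
        Real.sqrt (1 - ‖y‖ ^ 2) • (e₁.1 : E3)) : ℝ × E3)) (g := ρ₀) ?_ hin
    refine (D.ρ_loc _ _ ?_).contMDiffAt.continuousAt
    rw [h, one_pow, sub_self, Real.sqrt_zero, zero_smul, norm_zero]
    norm_num

end

end Pool.Agent.MMV
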