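import Pool.Agent.MMV.LSt

/-!
# MMV/LTr: the planar map `tr k a b Z = Z + k χ(|Z|)`, `χ = cu a b`   (difficulty 3)

`χ(|Z|)` is smooth: `χ = 1` near `Z = 0` (as `a > 0`), elsewhere the norm is smooth.  By `cu_lip` the map `h Z = k χ(|Z|)` is Lipschitz with the constant `c = 2 |k| / (b - a) < 1`
(`||Z| - |Z'|| ≤ |Z - Z'|`).  So `tr = id + h` is injective, surjective (`Z = w - h Z` has a fixed point: contraction; or `ApproximatesLinearOn ... toHomeomorph`), and its derivative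
`v + h'(Z) v` is injective (`|h'(Z) v| ≤ c |v|`): `CSG.ld_of_fderiv`.
-/

open scoped ContDiff Manifold Topology unitInterval
open Set Filter
open Pool.Agent.RSG (E3 E4 S2 S3 S4 ex cj c1 c2 ht fh pS2 pS3 pS4)
open Pool.Agent.RBM (ThickT OnT Box)
open Pool.Agent.LKF (OnF)
open Pool.Agent.PTH (SP ISP)
open Pool.Agent.KNH (circ)
open Pool.Agent.LKT (s1 s2 dir)

namespace Pool.Agent.MMV

theorem tr_small {k a b : ℝ} (hab : a < b) {Z : ℂ} (h : ‖Z‖ ≤ a) : tr k a b Z = Z + (k : ℂ) := by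
  rw [tr, cu_one hab h, mul_one]

theorem tr_large {k a b : ℝ} (hab : a < b) {Z : ℂ} (h : b ≤ ‖Z‖) : tr k a b Z = Z := by
  rw [tr, cu_zero hab h, mul_zero, Complex.ofReal_zero, add_zero]

theorem tr_dist (k a b : ℝ) (Z : ℂ) : ‖tr k a b Z - Z‖ ≤ |k| := by
  rw [tr, add_sub_cancel_left, Complex.norm_real, Real.norm_eq_abs, abs_mul, abs_of_nonneg (cu_nonneg a b _)]
  have h1 := cu_le_one a b ‖Z‖
  have h2 := abs_nonneg k
  nlinarith

theorem tr_conj (k a b : ℝ) (Z : ℂ) : tr k a b ((starRingEnd ℂ) Z) = (starRingEnd ℂ) (tr k a b Z) := by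
  rw [tr, tr, map_add, Complex.conj_ofReal, Complex.norm_conj]

/-- the displacement -/
private noncomputable def ltr_h (k a b : ℝ) (Z : ℂ) : ℂ := ((k * cu a b ‖Z‖ : ℝ) : ℂ)

private theorem ltr_lip {k a b : ℝ} (hab : a < b) (Z Z' : ℂ) :
    ‖ltr_h k a b Z - ltr_h k a b Z'‖ ≤ 2 * |k| / (b - a) * ‖Z - Z'‖ := by
  have h1 := cu_lip hab ‖Z‖ ‖Z'‖
  have h2 : |‖Z‖ - ‖Z'‖| ≤ ‖Z - Z'‖ := abs_norm_sub_norm_le Z Z'
  have hpos : 0 < b - a := by linarith
  rw [ltr_h, ltr_h, ← Complex.ofReal_sub, Complex.norm_real, Real.norm_eq_abs, ← mul_sub, abs_mul]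
  calc |k| * |cu a b ‖Z‖ - cu a b ‖Z'‖| ≤ |k| * (2 / (b - a) * |‖Z‖ - ‖Z'‖|) :=
        mul_le_mul_of_nonneg_left h1 (abs_nonneg k)
    _ ≤ |k| * (2 / (b - a) * ‖Z - Z'‖) :=
        mul_le_mul_of_nonneg_left (mul_le_mul_of_nonneg_left h2 (by positivity)) (abs_nonneg k)
    _ = 2 * |k| / (b - a) * ‖Z - Z'‖ := by ring

private theorem ltr_const {k a b : ℝ} (h : 2 * |k| < b - a) : a < b ∧ 0 ≤ 2 * |k| / (b - a) ∧ 2 * |k| / (b - a) < 1 := by
  have hk := abs_nonneg k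
  have hpos : 0 < b - a := by linarith
  exact ⟨by linarith, by positivity, (div_lt_one hpos).2 h⟩

theorem tr_bij {k a b : ℝ} (ha : 0 < a) (h : 2 * |k| < b - a) : Function.Bijective (tr k a b) := by
  obtain ⟨hab, hc0, hc1⟩ := ltr_const h
  constructor
  · intro Z Z' hZ
    have h1 := ltr_lip (k := k) hab Z Z'
    have h2 : Z + ltr_h k a b Z = Z' + ltr_h k a b Z' := hZ
    have h3 : ‖Z - Z'‖ = ‖ltr_h k a b Z - ltr_h k a b Z'‖ := by
      rw [← norm_neg]
      congr 1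
      linear_combination -h2
    rw [← h3] at h1
    have h4 : ‖Z - Z'‖ = 0 := by
      by_contra hne
      have h5 : 0 < ‖Z - Z'‖ := lt_of_le_of_ne (norm_nonneg _) (Ne.symm hne)
      nlinarith
    exact sub_eq_zero.1 (norm_eq_zero.1 h4)
  · intro w
    have hcon : ContractingWith (Real.toNNReal (2 * |k| / (b - a))) (fun Z : ℂ => w - ltr_h k a b Z) := by
      refine ⟨?_, ?_⟩
      · rw [← NNReal.coe_lt_coe, Real.coe_toNNReal _ hc0]
        exact hc1
      · apply LipschitzWith.of_dist_le_mul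
        intro Z Z'
        rw [Real.coe_toNNReal _ hc0, dist_eq_norm, dist_eq_norm]
        have e : w - ltr_h k a b Z - (w - ltr_h k a b Z') = -(ltr_h k a b Z - ltr_h k a b Z') := by ring
        rw [e, norm_neg]
        exact ltr_lip hab Z Z'
    refine ⟨hcon.fixedPoint, ?_⟩
    have h1 : w - ltr_h k a b hcon.fixedPoint = hcon.fixedPoint := hcon.fixedPoint_isFixedPt
    show hcon.fixedPoint + ltr_h k a b hcon.fixedPoint = w
    linear_combination -h1

private theorem ltr_smooth {k a b : ℝ} (ha : 0 < a) (hab : a < b) : ContDiff ℝ ∞ (ltr_h k a b) := by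
  rw [contDiff_iff_contDiffAt]
  intro Z
  by_cases hZ : Z = 0
  · subst hZ
    have hev : ltr_h k a b =ᶠ[𝓝 0] fun _ => (k : ℂ) := by
      filter_upwards [Metric.ball_mem_nhds (0 : ℂ) ha] with Z hZ
      rw [mem_ball_zero_iff] at hZ
      rw [ltr_h, cu_one hab hZ.le, mul_one]
    exact contDiffAt_const.congr_of_eventuallyEq hev
  · have h1 : ContDiffAt ℝ ∞ (fun Z : ℂ => k * cu a b ‖Z‖) Z :=
      contDiffAt_const.mul ((cu_smooth a b).contDiffAt.comp Z (contDiffAt_norm ℝ hZ))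
    exact Complex.ofRealCLM.contDiff.contDiffAt.comp Z h1

theorem tr_ld {k a b : ℝ} (ha : 0 < a) (h : 2 * |k| < b - a) (Z : ℂ) :
    IsLocalDiffeomorphAt 𝓘(ℝ, ℂ) 𝓘(ℝ, ℂ) ∞ (tr k a b) Z := by
  obtain ⟨hab, hc0, hc1⟩ := ltr_const h
  have hsm : ContDiff ℝ ∞ (ltr_h k a b) := ltr_smooth ha hab
  have heq : tr k a b = fun Z => Z + ltr_h k a b Z := rfl
  have hsm2 : ContDiff ℝ ∞ (tr k a b) := by
    rw [heq]
    exact contDiff_id.add hsm
  apply CSG.ld_of_fderiv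
  · exact Filter.Eventually.of_forall fun y => hsm2.contDiffAt
  · rfl
  · intro v hv
    have hd : DifferentiableAt ℝ (ltr_h k a b) Z := hsm.differentiable (by simp) Z
    have h1 : fderiv ℝ (tr k a b) Z v = v + fderiv ℝ (ltr_h k a b) Z v := by
      have h2 : HasFDerivAt (tr k a b) (ContinuousLinearMap.id ℝ ℂ + fderiv ℝ (ltr_h k a b) Z) Z := by
        rw [heq]
        exact (hasFDerivAt_id Z).add hd.hasFDerivAt
      rw [h2.fderiv]
      rfl
    rw [hv] at h1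
    have h3 : ‖fderiv ℝ (ltr_h k a b) Z‖ ≤ 2 * |k| / (b - a) := by
      apply norm_fderiv_le_of_lip' ℝ hc0
      exact Filter.Eventually.of_forall fun y => ltr_lip hab y Z
    have h4 : ‖v‖ ≤ 2 * |k| / (b - a) * ‖v‖ := by
      have h5 : v = -(fderiv ℝ (ltr_h k a b) Z v) := by linear_combination -h1
      calc ‖v‖ = ‖fderiv ℝ (ltr_h k a b) Z v‖ := by
            conv_lhs => rw [h5]
            rw [norm_neg]
        _ ≤ ‖fderiv ℝ (ltr_h k a b) Z‖ * ‖v‖ := ContinuousLinearMap.le_opNorm _ _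
        _ ≤ _ := mul_le_mul_of_nonneg_right h3 (norm_nonneg _)
    by_contra hne
    have h6 : 0 < ‖v‖ := norm_pos_iff.2 hne
    nlinarith

end Pool.Agent.MMV
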