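import Pool.Agent.MMV.LTr

/-!
# MMV/LUp: the planar map `Upl`   (difficulty 3)

`T := tr (-1) 4 16` is bijective and a local diffeomorphism (`tr_bij`, `tr_ld`: `2 < 12`), `T Z = 0 ↔ Z = 1` (`T 1 = 0`), `|T Z - Z| ≤ 1`.  `Upl W = -1/2 - (T W⁻¹)⁻¹` for `|W| ≤ 1`, `= 1/2 + (T W)⁻¹` for `|W| > 1`.
`Upl_mid`: for `1/4 ≤ |W| ≤ 4`, `W ≠ 1`, both formulas give `(W + 1) / (2 (W - 1))` (`T Z = Z - 1` for `|Z| ≤ 4`; `-1/2 - W/(1 - W)` and `1/2 + 1/(W - 1)`).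
`Upl_ne`: `(T _)⁻¹ ≠ 0` gives `Upl W ≠ -1/2` resp. `≠ 1/2`; the other one follows from `Upl_re` (`Re Upl W ≤ 0` for `|W| ≤ 1`, `> 0` for `|W| > 1`).
`Upl_inv`: `|W| < 1`: `Upl W⁻¹ = 1/2 + (T W⁻¹)⁻¹ = -Upl W`; `|W| > 1`: the same for `W⁻¹`; `|W| = 1`: `Upl_mid`.
`Upl_re`: `1/4 ≤ |W| ≤ 4`: `Re ((W+1)/(2(W-1))) = (|W|² - 1) / (2 |W - 1|²)`.  `|W| < 1/4`: `|T W⁻¹| ≥ |W⁻¹| - 1 > 3`, `|Upl W + 1/2| < 1/3`, so `Re < 0`.  `|W| > 4`: by `Upl_inv`.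
`Upl_inj`: same side (by `Upl_re`), then injectivity of `T`.  `Upl_surj`: if `Re u ≤ 0`: `T Z = -1/(u + 1/2)` has a solution `Z`; if `|Z| < 1` then `T Z = Z - 1`, `u + 1/2 = 1/(1 - Z)` has real part `> 1/2`: contradiction; so `|Z| ≥ 1`, `Z ≠ 1` (as `T Z ≠ 0`), `W = Z⁻¹`.
If `Re u > 0`: `W⁻¹` for `-u`.  `Upl_ld`: for `|W| < 4`, `W ≠ 0, 1`: near `W` the map is `-1/2 - (T W⁻¹)⁻¹` (also for `1 < |W| < 4` by `Upl_mid`); inversion is a local diffeomorphism off 0; for `|W| > 1/4` the map is `1/2 + (T W)⁻¹`.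
`Upl_neg`: `W = -x`, `0 < x`: `T (-1/x) = -1/x - χ` is real and negative.  `x ≤ 1`: `Upl = -1/2 + 1/(1/x + χ)`, and `1/x + χ ≥ 2` (if `1/x ≤ 4`, `χ = 1`).
-/

open scoped ContDiff Manifold Topology unitInterval
open Set Filter
open Pool.Agent.RSG (E3 E4 S2 S3 S4 ex cj c1 c2 ht fh pS2 pS3 pS4)
open Pool.Agent.RBM (ThickT OnT Box)
open Pool.Agent.LKF (OnF)
open Pool.Agent.PTH (SP ISP)
open Pool.Agent.KNH (circ)
open Pool.Agent.LKT (s1 s2 dir)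

namespace Pool.Agent.MMV

theorem lup_T1 : tr (-1) 4 16 1 = 0 := by
  rw [tr_small (by norm_num) (by rw [norm_one]; norm_num)]
  push_cast
  ring

theorem lup_T0 {Z : ℂ} (h : Z ≠ 1) : tr (-1) 4 16 Z ≠ 0 := by
  intro h0
  rw [← lup_T1] at h0
  exact h ((tr_bij (by norm_num) (by norm_num)).1 h0)

theorem lup_Tm {Z : ℂ} (h : ‖Z‖ ≤ 4) : tr (-1) 4 16 Z = Z - 1 := by
  rw [tr_small (by norm_num) h]
  push_cast
  ring

theorem lup_ne_inv {W : ℂ} (h1 : W ≠ 1) : W⁻¹ ≠ 1 := fun h => h1 (inv_eq_one.1 h)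

theorem lup_le {W : ℂ} (h : ‖W‖ ≤ 1) : Upl W = -1 / 2 - (tr (-1) 4 16 W⁻¹)⁻¹ := by
  unfold Upl
  exact if_pos h

theorem lup_gt {W : ℂ} (h : 1 < ‖W‖) : Upl W = 1 / 2 + (tr (-1) 4 16 W)⁻¹ := by
  unfold Upl
  exact if_neg (not_le.2 h)

theorem lup_e1 {W : ℂ} (h0 : W ≠ 0) (h1 : W ≠ 1) : -1 / 2 - (W⁻¹ - 1)⁻¹ = (W + 1) / (2 * (W - 1)) := by
  have h2 : W - 1 ≠ 0 := sub_ne_zero.2 h1
  have h3 : W⁻¹ - 1 ≠ 0 := sub_ne_zero.2 (lup_ne_inv h1)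
  have h4 : W⁻¹ - 1 = -((W - 1) / W) := by
    field_simp
    ring
  rw [h4, inv_neg, inv_div]
  field_simp
  ring

theorem lup_e2 {W : ℂ} (h1 : W ≠ 1) : 1 / 2 + (W - 1)⁻¹ = (W + 1) / (2 * (W - 1)) := by
  have h2 : W - 1 ≠ 0 := sub_ne_zero.2 h1
  field_simp
  ring

theorem lup_inv4 {W : ℂ} (h : 1 / 4 ≤ ‖W‖) : ‖W⁻¹‖ ≤ 4 := by
  rw [norm_inv]
  have : (4 : ℝ) = (1 / 4)⁻¹ := by norm_num
  rw [this]
  exact inv_anti₀ (by norm_num) h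

theorem Upl_small {W : ℂ} (h0 : W ≠ 0) (h : ‖W‖ ≤ 1 / 16) : Upl W = -1 / 2 - W := by
  rw [lup_le (by linarith), tr_large (by norm_num), inv_inv]
  rw [norm_inv]
  have : (16 : ℝ) = (1 / 16)⁻¹ := by norm_num
  rw [this]
  exact inv_anti₀ (norm_pos_iff.2 h0) h

theorem Upl_mid {W : ℂ} (h1 : W ≠ 1) (h : 1 / 4 ≤ ‖W‖) (h' : ‖W‖ ≤ 4) : Upl W = (W + 1) / (2 * (W - 1)) := by
  have h0 : W ≠ 0 := by
    intro h0
    rw [h0, norm_zero] at h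
    norm_num at h
  by_cases hc : ‖W‖ ≤ 1
  · rw [lup_le hc, lup_Tm (lup_inv4 h), lup_e1 h0 h1]
  · rw [lup_gt (not_le.1 hc), lup_Tm h', lup_e2 h1]

/-- first formula -/
theorem lup_A {W : ℂ} (h0 : W ≠ 0) (h1 : W ≠ 1) (h : ‖W‖ ≤ 4) : Upl W = -1 / 2 - (tr (-1) 4 16 W⁻¹)⁻¹ := by
  by_cases hc : ‖W‖ ≤ 1
  · exact lup_le hc
  · have h2 : 1 / 4 ≤ ‖W‖ := by linarith [not_le.1 hc]
    rw [Upl_mid h1 h2 h, lup_Tm (lup_inv4 h2), lup_e1 h0 h1]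

/-- second formula -/
theorem lup_B {W : ℂ} (h1 : W ≠ 1) (h : 1 / 4 ≤ ‖W‖) : Upl W = 1 / 2 + (tr (-1) 4 16 W)⁻¹ := by
  by_cases hc : 1 < ‖W‖
  · exact lup_gt hc
  · have h2 : ‖W‖ ≤ 4 := by linarith [not_lt.1 hc]
    rw [Upl_mid h1 h h2, lup_Tm h2, lup_e2 h1]

theorem Upl_inv {W : ℂ} (h0 : W ≠ 0) (h1 : W ≠ 1) : Upl W⁻¹ = -Upl W := by
  have hp : 0 < ‖W‖ := norm_pos_iff.2 h0
  rcases lt_trichotomy ‖W‖ 1 with h | h | h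
  · have h2 : 1 < ‖W⁻¹‖ := by
      rw [norm_inv]
      exact (one_lt_inv₀ hp).2 h
    rw [lup_gt h2, lup_le h.le]
    ring
  · have h2 : ‖W⁻¹‖ = 1 := by rw [norm_inv, h, inv_one]
    rw [Upl_mid h1 (by rw [h]; norm_num) (by rw [h]; norm_num),
      Upl_mid (lup_ne_inv h1) (by rw [h2]; norm_num) (by rw [h2]; norm_num)]
    have h3 : W - 1 ≠ 0 := sub_ne_zero.2 h1
    have h4 : W⁻¹ - 1 = -((W - 1) / W) := by
      field_simp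
      ring
    rw [h4]
    field_simp
    ring
  · have h2 : ‖W⁻¹‖ ≤ 1 := by
      rw [norm_inv]
      exact inv_le_one_of_one_le₀ h.le
    rw [lup_le h2, lup_gt h, inv_inv]
    ring

theorem lup_midre {W : ℂ} (h1 : W ≠ 1) (h : 1 / 4 ≤ ‖W‖) (h' : ‖W‖ ≤ 4) :
    ∃ D : ℝ, 0 < D ∧ (Upl W).re * D = ‖W‖ ^ 2 - 1 := by
  have h2 : W - 1 ≠ 0 := sub_ne_zero.2 h1
  have e : Upl W * (2 * (W - 1)) = W + 1 := by
    rw [Upl_mid h1 h h']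
    exact div_mul_cancel₀ _ (mul_ne_zero two_ne_zero h2)
  have e1 := congrArg Complex.re e
  have e2 := congrArg Complex.im e
  simp at e1 e2
  refine ⟨2 * ‖W - 1‖ ^ 2, by positivity, ?_⟩
  rw [Complex.sq_norm, Complex.sq_norm, Complex.normSq_apply, Complex.normSq_apply]
  simp
  linear_combination (W.re - 1) * e1 + W.im * e2

theorem lup_lt {W : ℂ} (h0 : W ≠ 0) (h : ‖W‖ < 1) : (Upl W).re < 0 := by
  have hp : 0 < ‖W‖ := norm_pos_iff.2 h0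
  have h1 : W ≠ 1 := by
    intro h1
    rw [h1, norm_one] at h
    exact lt_irrefl _ h
  by_cases hc : 1 / 4 ≤ ‖W‖
  · obtain ⟨D, hD, e⟩ := lup_midre h1 hc (by linarith)
    by_contra hn
    have := mul_nonneg (not_lt.1 hn) hD.le
    nlinarith
  · have hc' := not_le.1 hc
    rw [lup_le h.le]
    have h2 : 4 < ‖W⁻¹‖ := by
      rw [norm_inv, lt_inv_comm₀ (by norm_num) hp]
      linarith
    have h3 := tr_dist (-1) 4 16 W⁻¹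
    rw [abs_neg, abs_one] at h3
    have h4 : 3 < ‖tr (-1) 4 16 W⁻¹‖ := by
      have h5 := norm_sub_norm_le W⁻¹ (tr (-1) 4 16 W⁻¹)
      rw [norm_sub_rev] at h5
      linarith
    have h5 : ‖(tr (-1) 4 16 W⁻¹)⁻¹‖ < 1 / 3 := by
      rw [norm_inv, inv_lt_comm₀ (by linarith) (by norm_num)]
      linarith
    have h6 := Complex.abs_re_le_norm (tr (-1) 4 16 W⁻¹)⁻¹
    have h7 := abs_lt.1 (lt_of_le_of_lt h6 h5)
    have h8 : (-1 / 2 - (tr (-1) 4 16 W⁻¹)⁻¹ : ℂ).re = -1 / 2 - ((tr (-1) 4 16 W⁻¹)⁻¹).re := by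
      rw [Complex.sub_re]
      congr 1
      norm_num
    rw [h8]
    linarith

theorem lup_eq {W : ℂ} (h1 : W ≠ 1) (h : ‖W‖ = 1) : (Upl W).re = 0 := by
  obtain ⟨D, hD, e⟩ := lup_midre h1 (by rw [h]; norm_num) (by rw [h]; norm_num)
  rw [h, one_pow, sub_self] at e
  exact (mul_eq_zero.1 e).resolve_right hD.ne'

theorem lup_pos {W : ℂ} (h : 1 < ‖W‖) : 0 < (Upl W).re := by
  have h0 : W ≠ 0 := by
    intro h0
    rw [h0, norm_zero] at h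
    linarith
  have h1 : W ≠ 1 := by
    intro h1
    rw [h1, norm_one] at h
    exact lt_irrefl _ h
  have h2 : ‖W⁻¹‖ < 1 := by
    rw [norm_inv]
    exact inv_lt_one_of_one_lt₀ h
  have h3 := lup_lt (inv_ne_zero h0) h2
  rw [Upl_inv h0 h1, Complex.neg_re] at h3
  linarith

theorem Upl_re {W : ℂ} (h0 : W ≠ 0) (h1 : W ≠ 1) :
    ((Upl W).re < 0 ↔ ‖W‖ < 1) ∧ ((Upl W).re = 0 ↔ ‖W‖ = 1) := by
  rcases lt_trichotomy ‖W‖ 1 with h | h | h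
  · have h2 := lup_lt h0 h
    exact ⟨⟨fun _ => h, fun _ => h2⟩, ⟨fun h3 => absurd h3 h2.ne, fun h3 => absurd h3 h.ne⟩⟩
  · have h2 := lup_eq h1 h
    exact ⟨⟨fun h3 => absurd h2 h3.ne, fun h3 => absurd h h3.ne⟩, ⟨fun _ => h, fun _ => h2⟩⟩
  · have h2 := lup_pos h
    exact ⟨⟨fun h3 => absurd h3 (not_lt.2 h2.le), fun h3 => absurd h3 (not_lt.2 h.le)⟩,
      ⟨fun h3 => absurd h3 h2.ne', fun h3 => absurd h3 h.ne'⟩⟩

theorem Upl_ne {W : ℂ} (h0 : W ≠ 0) (h1 : W ≠ 1) : Upl W ≠ -1 / 2 ∧ Upl W ≠ 1 / 2 := by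
  by_cases hc : ‖W‖ ≤ 1
  · have h2 : (Upl W).re ≤ 0 := by
      rcases hc.lt_or_eq with h | h
      · exact (lup_lt h0 h).le
      · exact (lup_eq h1 h).le
    constructor
    · intro h
      rw [lup_le hc] at h
      have h3 : (tr (-1) 4 16 W⁻¹)⁻¹ = 0 := by linear_combination -h
      exact lup_T0 (lup_ne_inv h1) (inv_eq_zero.1 h3)
    · intro h
      rw [h] at h2
      norm_num at h2
  · have h3 := not_le.1 hc
    have h2 := lup_pos h3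
    constructor
    · intro h
      rw [h] at h2
      norm_num at h2
    · intro h
      rw [lup_gt h3] at h
      have h4 : (tr (-1) 4 16 W)⁻¹ = 0 := by linear_combination h
      exact lup_T0 h1 (inv_eq_zero.1 h4)

theorem lup_side {W : ℂ} (h0 : W ≠ 0) (h1 : W ≠ 1) : (Upl W).re ≤ 0 ↔ ‖W‖ ≤ 1 := by
  obtain ⟨h2, h3⟩ := Upl_re h0 h1
  rw [le_iff_lt_or_eq, le_iff_lt_or_eq, h2, h3]

theorem Upl_inj {W W' : ℂ} (h0 : W ≠ 0) (h1 : W ≠ 1) (h0' : W' ≠ 0) (h1' : W' ≠ 1) (h : Upl W = Upl W') : W = W' := by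
  have hT := (tr_bij (k := -1) (a := 4) (b := 16) (by norm_num) (by norm_num)).1
  have hs := lup_side h0 h1
  have hs' := lup_side h0' h1'
  rw [h, hs'] at hs
  by_cases hc : ‖W‖ ≤ 1
  · have hc' := hs.2 hc
    rw [lup_le hc, lup_le hc'] at h
    have h2 : (tr (-1) 4 16 W⁻¹)⁻¹ = (tr (-1) 4 16 W'⁻¹)⁻¹ := by linear_combination -h
    exact inv_injective (hT (inv_injective h2))
  · have hc' : ¬ ‖W'‖ ≤ 1 := fun h => hc (hs.1 h)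
    rw [lup_gt (not_le.1 hc), lup_gt (not_le.1 hc')] at h
    have h2 : (tr (-1) 4 16 W)⁻¹ = (tr (-1) 4 16 W')⁻¹ := by linear_combination h
    exact hT (inv_injective h2)

theorem lup_surj {u : ℂ} (h : u ≠ -1 / 2) (hr : u.re ≤ 0) : ∃ W, W ≠ 0 ∧ W ≠ 1 ∧ Upl W = u := by
  have hT := (tr_bij (k := -1) (a := 4) (b := 16) (by norm_num) (by norm_num)).2
  have hv : u + 1 / 2 ≠ 0 := by
    intro h0
    apply h
    linear_combination h0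
  obtain ⟨Z, hZ⟩ := hT (-(u + 1 / 2)⁻¹)
  have hZ1 : Z ≠ 1 := by
    intro h1
    rw [h1, lup_T1] at hZ
    exact (neg_ne_zero.2 (inv_ne_zero hv)) hZ.symm
  have hZn : 1 ≤ ‖Z‖ := by
    by_contra hc
    have hc' := not_le.1 hc
    rw [lup_Tm (by linarith)] at hZ
    have e : (u + 1 / 2) * (1 - Z) = 1 := by
      have : 1 - Z = (u + 1 / 2)⁻¹ := by linear_combination -hZ
      rw [this]
      exact mul_inv_cancel₀ hv
    have e1 := congrArg Complex.re e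
    have e2 := congrArg Complex.im e
    simp at e1 e2
    have h3 : ‖Z‖ ^ 2 < 1 := by
      have := norm_nonneg Z
      nlinarith
    rw [Complex.sq_norm, Complex.normSq_apply] at h3
    have h4 : (u.re + 1 / 2) * ((1 - Z.re) ^ 2 + Z.im ^ 2) = 1 - Z.re := by
      norm_num at e1 e2 ⊢
      linear_combination (1 - Z.re) * e1 - Z.im * e2
    have h5 : u.re * ((1 - Z.re) ^ 2 + Z.im ^ 2) ≤ 0 :=
      mul_nonpos_of_nonpos_of_nonneg hr (by positivity)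
    nlinarith
  have hZ0 : Z ≠ 0 := by
    intro h0
    rw [h0, norm_zero] at hZn
    linarith
  refine ⟨Z⁻¹, inv_ne_zero hZ0, lup_ne_inv hZ1, ?_⟩
  have h2 : ‖Z⁻¹‖ ≤ 1 := by
    rw [norm_inv]
    exact inv_le_one_of_one_le₀ hZn
  rw [lup_le h2, inv_inv, hZ, inv_neg, inv_inv]
  ring

theorem Upl_surj {u : ℂ} (h : u ≠ -1 / 2) (h' : u ≠ 1 / 2) : ∃ W, W ≠ 0 ∧ W ≠ 1 ∧ Upl W = u := by
  by_cases hr : u.re ≤ 0
  · exact lup_surj h hr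
  · have h1 : -u ≠ -1 / 2 := by
      intro h1
      apply h'
      linear_combination -h1
    obtain ⟨W, h2, h3, h4⟩ := lup_surj h1 (by rw [Complex.neg_re]; linarith [not_le.1 hr])
    refine ⟨W⁻¹, inv_ne_zero h2, lup_ne_inv h3, ?_⟩
    rw [Upl_inv h2 h3, h4, neg_neg]

theorem lup_ldinv {z : ℂ} (hz : z ≠ 0) : IsLocalDiffeomorphAt 𝓘(ℝ, ℂ) 𝓘(ℝ, ℂ) ∞ (fun z : ℂ => z⁻¹) z := by
  have h1 : ∀ w : ℂ, w ≠ 0 → ContMDiffAt 𝓘(ℝ, ℂ) 𝓘(ℝ, ℂ) ∞ (fun z : ℂ => z⁻¹) w :=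
    fun w hw => (contDiffAt_inv ℝ hw).contMDiffAt
  refine RSG.ld_two (g := fun z : ℂ => z⁻¹) ?_ ?_ ?_ ?_
  · filter_upwards [isOpen_ne.mem_nhds hz] with w hw using h1 w hw
  · filter_upwards [isOpen_ne.mem_nhds (inv_ne_zero hz)] with w hw using h1 w hw
  · exact Eventually.of_forall fun w => inv_inv w
  · exact Eventually.of_forall fun w => inv_inv w

theorem lup_ldsub (z : ℂ) : IsLocalDiffeomorphAt 𝓘(ℝ, ℂ) 𝓘(ℝ, ℂ) ∞ (fun z : ℂ => -1 / 2 - z) z := by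
  have h1 : ContDiff ℝ ∞ (fun z : ℂ => -1 / 2 - z) := contDiff_const.sub contDiff_id
  refine RSG.ld_two (g := fun z : ℂ => -1 / 2 - z) ?_ ?_ ?_ ?_
  · exact Eventually.of_forall fun w => h1.contMDiff w
  · exact Eventually.of_forall fun w => h1.contMDiff w
  · exact Eventually.of_forall fun w => sub_sub_cancel _ _
  · exact Eventually.of_forall fun w => sub_sub_cancel _ _

theorem lup_ldadd (z : ℂ) : IsLocalDiffeomorphAt 𝓘(ℝ, ℂ) 𝓘(ℝ, ℂ) ∞ (fun z : ℂ => 1 / 2 + z) z := by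
  have h1 : ContDiff ℝ ∞ (fun z : ℂ => 1 / 2 + z) := contDiff_const.add contDiff_id
  have h2 : ContDiff ℝ ∞ (fun z : ℂ => z - 1 / 2) := contDiff_id.sub contDiff_const
  refine RSG.ld_two (g := fun z : ℂ => z - 1 / 2) ?_ ?_ ?_ ?_
  · exact Eventually.of_forall fun w => h1.contMDiff w
  · exact Eventually.of_forall fun w => h2.contMDiff w
  · exact Eventually.of_forall fun w => add_sub_cancel_left _ _
  · exact Eventually.of_forall fun w => add_sub_cancel _ _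

theorem Upl_ld {W : ℂ} (h0 : W ≠ 0) (h1 : W ≠ 1) : IsLocalDiffeomorphAt 𝓘(ℝ, ℂ) 𝓘(ℝ, ℂ) ∞ Upl W := by
  have hT : ∀ Z, IsLocalDiffeomorphAt 𝓘(ℝ, ℂ) 𝓘(ℝ, ℂ) ∞ (tr (-1) 4 16) Z :=
    fun Z => tr_ld (by norm_num) (by norm_num) Z
  by_cases hc : ‖W‖ < 4
  · have l1 := lup_ldinv h0
    have l3 := lup_ldinv (lup_T0 (lup_ne_inv h1))
    have l12 : IsLocalDiffeomorphAt 𝓘(ℝ, ℂ) 𝓘(ℝ, ℂ) ∞ (tr (-1) 4 16 ∘ fun z : ℂ => z⁻¹) W :=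
      IsLocalDiffeomorphAt.comp (hf := l1) (hg := hT W⁻¹) ..
    have l123 : IsLocalDiffeomorphAt 𝓘(ℝ, ℂ) 𝓘(ℝ, ℂ) ∞ ((fun z : ℂ => z⁻¹) ∘ (tr (-1) 4 16 ∘ fun z : ℂ => z⁻¹)) W :=
      IsLocalDiffeomorphAt.comp (hf := l12) (hg := l3) ..
    have l : IsLocalDiffeomorphAt 𝓘(ℝ, ℂ) 𝓘(ℝ, ℂ) ∞
        ((fun z : ℂ => -1 / 2 - z) ∘ ((fun z : ℂ => z⁻¹) ∘ (tr (-1) 4 16 ∘ fun z : ℂ => z⁻¹))) W :=
      IsLocalDiffeomorphAt.comp (hf := l123) (hg := lup_ldsub _) ..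
    refine CSG.ld_congr l ?_
    have hn : ∀ᶠ W' in 𝓝 W, ‖W'‖ < 4 := (continuous_norm.continuousAt (x := W)).eventually_lt_const hc
    filter_upwards [hn, isOpen_ne.mem_nhds h0, isOpen_ne.mem_nhds h1] with W' h2 h3 h4
    exact lup_A h3 h4 h2.le
  · have hc' : 1 / 4 < ‖W‖ := by linarith [not_lt.1 hc]
    have l2 := lup_ldinv (lup_T0 h1)
    have l12 : IsLocalDiffeomorphAt 𝓘(ℝ, ℂ) 𝓘(ℝ, ℂ) ∞ ((fun z : ℂ => z⁻¹) ∘ tr (-1) 4 16) W :=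
      IsLocalDiffeomorphAt.comp (hf := hT W) (hg := l2) ..
    have l : IsLocalDiffeomorphAt 𝓘(ℝ, ℂ) 𝓘(ℝ, ℂ) ∞ ((fun z : ℂ => 1 / 2 + z) ∘ ((fun z : ℂ => z⁻¹) ∘ tr (-1) 4 16)) W :=
      IsLocalDiffeomorphAt.comp (hf := l12) (hg := lup_ldadd _) ..
    refine CSG.ld_congr l ?_
    have hn : ∀ᶠ W' in 𝓝 W, 1 / 4 < ‖W'‖ := (continuous_norm.continuousAt (x := W)).eventually_const_lt hc'
    filter_upwards [hn, isOpen_ne.mem_nhds h1] with W' h2 h3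
    exact lup_B h3 h2.le

theorem Upl_neg {x : ℝ} (hx : 0 < x) (hx' : x ≤ 1) :
    (Upl (-(x : ℂ))).im = 0 ∧ -1 / 2 < (Upl (-(x : ℂ))).re ∧ (Upl (-(x : ℂ))).re ≤ 0 := by
  have hn : ‖(-(x : ℂ))‖ = x := by rw [norm_neg, Complex.norm_real, Real.norm_eq_abs, abs_of_pos hx]
  have hn' : ‖(-(x : ℂ))⁻¹‖ = x⁻¹ := by rw [norm_inv, hn]
  have hi : 1 ≤ x⁻¹ := (one_le_inv₀ hx).2 hx'
  set y : ℝ := x⁻¹ + cu 4 16 x⁻¹ with hy
  have hy2 : 2 ≤ y := by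
    by_cases hc : x⁻¹ ≤ 4
    · rw [hy, cu_one (by norm_num) hc]
      linarith
    · have := cu_nonneg 4 16 x⁻¹
      rw [hy]
      linarith [not_le.1 hc]
  have hT : tr (-1) 4 16 (-(x : ℂ))⁻¹ = ((-y : ℝ) : ℂ) := by
    unfold tr
    rw [hn', hy]
    push_cast
    rw [inv_neg]
    ring
  have hU : Upl (-(x : ℂ)) = ((-1 / 2 + y⁻¹ : ℝ) : ℂ) := by
    rw [lup_le (by rw [hn]; exact hx'), hT, ← Complex.ofReal_inv, inv_neg]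
    push_cast
    ring
  rw [hU, Complex.ofReal_im, Complex.ofReal_re]
  have h1 : 0 < y⁻¹ := inv_pos.2 (by linarith)
  have h2 : y⁻¹ ≤ 1 / 2 := by
    rw [inv_le_comm₀ (by linarith) (by norm_num)]
    linarith
  exact ⟨rfl, by linarith, by linarith⟩

end Pool.Agent.MMV
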