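import Pool.Agent.MMV.LPh
import Pool.Agent.MMV.LAr
import Pool.Agent.MMV.LKv
import Pool.Agent.MMV.LSp

/-!
# MMV/LZl
: the loops around the torus   (difficulty 3)

`φ` from `exists_phi`, `v τ = (Re w, 0, Im w)/‖w‖ ∈ S²`, `ω = 32 φ(‖w‖) w/‖w‖` (continuous on `[0, 1]`, `Re ω > 0`, `‖ω‖ = 32 φ(‖w‖) ≤ 8 √3`).  `hp w = (sY (‖w‖ v), circ (1/2)) = pol (-‖w‖, v)`, so `J (hp w) = mp (V0 (-‖w‖), v) = mp (Kp (-φ), v) = K (pol (-32 φ, v))`.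
`pol (-32 φ, v) = (sY (32 φ v), circ (1/2))`, `sY (32 φ v) = pS3 (2 Re ω) P`, `P = ⟨‖ω‖² - 1, 2 Im ω⟩`, `(2 Re ω)² + ‖P‖² = (1 + ‖ω‖²)²`.  So with `c = 2 Re ω/(1 + ‖ω‖²)`: `√(1 - c²) = ‖P‖/(1 + ‖ω‖²)`, and if `P = ‖P‖ ex z`: `pol (-32 φ, v) = bp c z (1/2)`.
`lift_arc` for `P`: `P 0 = P 1 = 192 - 1 > 0` (`φ 1 = √3/4`, `‖ω‖² = 192`), `P (1/2) = 1/4 - 1 < 0` (`φ (1/64) = 1/64`), and `Im P` has the sign of `Im w`.  `c 0 = c 1 = 2·8√3/193 = cz`.  `c < 1`: `P ≠ 0` (imaginary part, and the values at `0, 1/2, 1`).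
Off the shadow: `√(1 - c²) cos (2πz) = Re P/(1 + ‖ω‖²) = (‖ω‖² - 1)/(‖ω‖² + 1) ≤ 191/193 < 1023/1025`.
-/

open scoped ContDiff Manifold Topology unitInterval
open Set Filter
open Pool.Agent.CSG (stp)
open Pool.Agent.RSG (E3 E4 S2 S3 S4 ex cj c1 c2 ht fh pS2 pS3 pS4)
open Pool.Agent.RBM (ThickT OnT Box)
open Pool.Agent.LKF (OnF)
open Pool.Agent.PTH (SP ISP)
open Pool.Agent.KNH (circ)
open Pool.Agent.LKT (s1 s2 dir)

namespace Pool.Agent.MMV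

/-- the complex number with the given coordinates -/
private theorem lzl_mk (a b : ℝ) : (⟨a, b⟩ : ℂ) = (a : ℂ) + (b : ℂ) * Complex.I := by
  apply Complex.ext <;> simp

theorem lzl_norm (a b : ℝ) : ‖(!₂[a, 0, b] : E3)‖ ^ 2 = a ^ 2 + b ^ 2 := by
  rw [EuclideanSpace.norm_sq_eq, Fin.sum_univ_three]
  simp

theorem lzl_sY (om : ℂ) : s1 (sY (!₂[om.re, 0, om.im] : E3)) = ((2 * om.re / (1 + ‖om‖ ^ 2) : ℝ) : ℂ) ∧
    s2 (sY (!₂[om.re, 0, om.im] : E3)) = ((1 / (1 + ‖om‖ ^ 2) : ℝ) : ℂ) * (⟨‖om‖ ^ 2 - 1, 2 * om.im⟩ : ℂ) := by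
  have hn : ‖(!₂[om.re, 0, om.im] : E3)‖ ^ 2 = ‖om‖ ^ 2 := by
    rw [lzl_norm, ← Complex.normSq_eq_norm_sq, Complex.normSq_apply]
    ring
  obtain ⟨h1, h2⟩ := sY_s (!₂[om.re, 0, om.im] : E3)
  rw [hn] at h1 h2
  constructor
  · rw [h1]
    have h3 : (⟨(!₂[om.re, 0, om.im] : E3) 0, (!₂[om.re, 0, om.im] : E3) 1⟩ : ℂ) = (om.re : ℂ) := by
      apply Complex.ext <;> simp
    rw [h3]
    push_cast
    ring
  · rw [h2]
    simp

theorem lzl_sq (om : ℂ) : (2 * om.re / (1 + ‖om‖ ^ 2)) ^ 2 + (‖(⟨‖om‖ ^ 2 - 1, 2 * om.im⟩ : ℂ)‖ / (1 + ‖om‖ ^ 2)) ^ 2 = 1 := by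
  have h : (0 : ℝ) < 1 + ‖om‖ ^ 2 := by positivity
  have h1 : ‖(⟨‖om‖ ^ 2 - 1, 2 * om.im⟩ : ℂ)‖ ^ 2 = (‖om‖ ^ 2 - 1) ^ 2 + (2 * om.im) ^ 2 := by
    rw [← Complex.normSq_eq_norm_sq, Complex.normSq_apply]
    ring
  have h2 : ‖om‖ ^ 2 = om.re ^ 2 + om.im ^ 2 := by
    rw [← Complex.normSq_eq_norm_sq, Complex.normSq_apply]
    ring
  rw [div_pow, div_pow, h1, ← add_div, div_eq_one_iff_eq (by positivity)]
  rw [h2]
  ring

theorem lzl_c {om : ℂ} (h0 : 0 < om.re) (hP : (⟨‖om‖ ^ 2 - 1, 2 * om.im⟩ : ℂ) ≠ 0) :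
    0 ≤ 2 * om.re / (1 + ‖om‖ ^ 2) ∧ 2 * om.re / (1 + ‖om‖ ^ 2) < 1 := by
  have h : (0 : ℝ) < 1 + ‖om‖ ^ 2 := by positivity
  refine ⟨by positivity, ?_⟩
  have h1 := lzl_sq om
  have h2 : 0 < ‖(⟨‖om‖ ^ 2 - 1, 2 * om.im⟩ : ℂ)‖ / (1 + ‖om‖ ^ 2) := by
    have := norm_pos_iff.2 hP
    positivity
  have h3 : (2 * om.re / (1 + ‖om‖ ^ 2)) ^ 2 < 1 := by nlinarith [sq_pos_of_pos h2]
  by_contra hcon
  push Not at hcon
  nlinarith

theorem lzl_root (om : ℂ) : Real.sqrt (1 - (2 * om.re / (1 + ‖om‖ ^ 2)) ^ 2) = ‖(⟨‖om‖ ^ 2 - 1, 2 * om.im⟩ : ℂ)‖ / (1 + ‖om‖ ^ 2) := by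
  have h1 := lzl_sq om
  rw [show 1 - (2 * om.re / (1 + ‖om‖ ^ 2)) ^ 2 = (‖(⟨‖om‖ ^ 2 - 1, 2 * om.im⟩ : ℂ)‖ / (1 + ‖om‖ ^ 2)) ^ 2 by linarith]
  exact Real.sqrt_sq (by positivity)

theorem lzl_pt {om : ℂ} {z : ℝ} (h0 : 0 < om.re) (hP : (⟨‖om‖ ^ 2 - 1, 2 * om.im⟩ : ℂ) ≠ 0)
    (hz : (⟨‖om‖ ^ 2 - 1, 2 * om.im⟩ : ℂ) = (‖(⟨‖om‖ ^ 2 - 1, 2 * om.im⟩ : ℂ)‖ : ℂ) * ex z) :
    ((sY (!₂[om.re, 0, om.im] : E3), circ (1 / 2)) : SP) = bp ((2 * om.re / (1 + ‖om‖ ^ 2) : ℝ) : ℂ) z (1 / 2) := by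
  obtain ⟨hc0, hc1⟩ := lzl_c h0 hP
  have hn : ‖((2 * om.re / (1 + ‖om‖ ^ 2) : ℝ) : ℂ)‖ = 2 * om.re / (1 + ‖om‖ ^ 2) := by
    rw [Complex.norm_real, Real.norm_of_nonneg hc0]
  obtain ⟨b1, b2⟩ := bp_s (c := ((2 * om.re / (1 + ‖om‖ ^ 2) : ℝ) : ℂ)) (by rw [hn]; exact hc1.le) z (1 / 2)
  obtain ⟨a1, a2⟩ := lzl_sY om
  apply Prod.ext
  · apply LKT.s_ext
    · rw [a1, b1]
    · rw [b2, hn, lzl_root, a2]
      conv_lhs => rw [hz]
      push_cast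
      ring
  · rfl

theorem lzl_off (om : ℂ) {z : ℝ}
    (hz : (⟨‖om‖ ^ 2 - 1, 2 * om.im⟩ : ℂ) = (‖(⟨‖om‖ ^ 2 - 1, 2 * om.im⟩ : ℂ)‖ : ℂ) * ex z) :
    Real.sqrt (1 - (2 * om.re / (1 + ‖om‖ ^ 2)) ^ 2) * Real.cos (2 * Real.pi * z) = (‖om‖ ^ 2 - 1) / (1 + ‖om‖ ^ 2) := by
  have h1 := congrArg Complex.re hz
  have h2 : (ex z).re = Real.cos (2 * Real.pi * z) := by
    rw [ex, Complex.exp_ofReal_mul_I_re]
  rw [Complex.re_ofReal_mul, h2] at h1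
  rw [lzl_root]
  simp only at h1
  rw [div_mul_eq_mul_div, ← h1]

theorem lzl_pol {ρ : ℝ} (hρ : 0 < ρ) (v : S2) : pol (-(ρ : ℂ), v) = (sY (ρ • v.1), circ (1 / 2)) := by
  have h1 : ‖-(ρ : ℂ)‖ = ρ := by
    rw [norm_neg, Complex.norm_real, Real.norm_of_nonneg hρ.le]
  have h2 : dir (-(ρ : ℂ)) = circ (1 / 2) := by
    rw [← dir_ex hρ]
    congr 1
    have : ex (1 / 2) = -1 := by
      rw [ex, show (2 * Real.pi * (1 / 2) : ℝ) = Real.pi by ring, Complex.exp_pi_mul_I]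
    rw [this]
    ring
  rw [pol, h1, h2]

/-- the point of `S²` -/
theorem lzl_v {w : ℂ} (hw : w ≠ 0) : ∃ v : S2, ∀ k : ℝ, ((k * ‖w‖) • v.1 : E3) = !₂[k * w.re, 0, k * w.im] := by
  have hn : 0 < ‖w‖ := norm_pos_iff.2 hw
  have hv : ‖(!₂[w.re / ‖w‖, 0, w.im / ‖w‖] : E3)‖ = 1 := by
    have h1 := lzl_norm (w.re / ‖w‖) (w.im / ‖w‖)
    have h2 : ‖w‖ ^ 2 = w.re ^ 2 + w.im ^ 2 := by
      rw [← Complex.normSq_eq_norm_sq, Complex.normSq_apply]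
      ring
    have h3 : (w.re / ‖w‖) ^ 2 + (w.im / ‖w‖) ^ 2 = 1 := by
      rw [div_pow, div_pow, ← add_div, ← h2, div_self (by positivity)]
    rw [h3] at h1
    have h4 : 0 ≤ ‖(!₂[w.re / ‖w‖, 0, w.im / ‖w‖] : E3)‖ := norm_nonneg _
    nlinarith
  refine ⟨⟨!₂[w.re / ‖w‖, 0, w.im / ‖w‖], by simp only [mem_sphere_zero_iff_norm]; exact hv⟩, fun k => ?_⟩
  ext i
  fin_cases i
  · simp
    field_simp
  · simp
  · simp
    field_simp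

theorem zl_path {M : Type*} {K J : SP → M} {mp : ℂ × S2 → M} {ρ₀ : ℝ × E3 → M} (h : KVal K mp ρ₀)
    (hJ : ∀ (W : ℂ) (v : S2), W ≠ 0 → W ≠ 1 → J (pol (W, v)) = mp (V0 W, v)) {w : ℝ → ℂ} (hw : ContinuousOn w (Icc 0 1))
    {sg : ℤ} (hsg : sg = 1 ∨ sg = -1) (w0 : w 0 = 1) (w1 : w 1 = 1) (wm : w (1 / 2) = 1 / 64)
    (hb : ∀ τ ∈ Icc (0 : ℝ) 1, 0 < (w τ).re ∧ ‖w τ‖ ≤ 1) (hl : ∀ τ ∈ Ioo (0 : ℝ) (1 / 2), 0 < sg * (w τ).im)
    (hr : ∀ τ ∈ Ioo (1 / 2 : ℝ) 1, sg * (w τ).im < 0) :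
    ∃ c z : ℝ → ℝ, Adm c z (fun _ => 1 / 2) sg 0 ∧
      ∀ τ ∈ Icc (0 : ℝ) 1, J (hp (w τ)) = K (bp ((c τ : ℝ) : ℂ) (z τ) (1 / 2)) := by
  obtain ⟨φ, hφc, hφ1, hφ64, hφ⟩ := exists_phi
  have hwne : ∀ τ ∈ Icc (0 : ℝ) 1, w τ ≠ 0 := by
    intro τ hτ h0
    have := (hb τ hτ).1
    rw [h0] at this
    simp at this
  have hr01 : ∀ τ ∈ Icc (0 : ℝ) 1, ‖w τ‖ ∈ Ioc (0 : ℝ) 1 := fun τ hτ => ⟨norm_pos_iff.2 (hwne τ hτ), (hb τ hτ).2⟩
  set g : ℝ → ℝ := fun τ => 32 * φ ‖w τ‖ / ‖w τ‖ with hg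
  set om : ℝ → ℂ := fun τ => ((g τ : ℝ) : ℂ) * w τ with hom
  have hgc : ContinuousOn g (Icc 0 1) := by
    apply ContinuousOn.div
    · exact continuousOn_const.mul (hφc.comp hw.norm hr01)
    · exact hw.norm
    · exact fun τ hτ => (hr01 τ hτ).1.ne'
  have hgpos : ∀ τ ∈ Icc (0 : ℝ) 1, 0 < g τ := by
    intro τ hτ
    have h1 := (hφ _ (hr01 τ hτ)).1
    have h2 := (hr01 τ hτ).1
    simp only [hg]
    positivity
  have homc : ContinuousOn om (Icc 0 1) := (Complex.continuous_ofReal.comp_continuousOn hgc).mul hw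
  have homre : ∀ τ, (om τ).re = g τ * (w τ).re := by
    intro τ
    simp only [hom, Complex.re_ofReal_mul]
  have homim : ∀ τ, (om τ).im = g τ * (w τ).im := by
    intro τ
    simp only [hom, Complex.im_ofReal_mul]
  have homn : ∀ τ ∈ Icc (0 : ℝ) 1, ‖om τ‖ = 32 * φ ‖w τ‖ := by
    intro τ hτ
    have h2 := (hr01 τ hτ).1
    have h3 : ‖om τ‖ = g τ * ‖w τ‖ := by
      simp only [hom]
      rw [norm_mul, Complex.norm_real, Real.norm_of_nonneg (hgpos τ hτ).le]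
    rw [h3]
    simp only [hg]
    rw [div_mul_cancel₀ _ h2.ne']
  have hompos : ∀ τ ∈ Icc (0 : ℝ) 1, 0 < (om τ).re := by
    intro τ hτ
    rw [homre]
    exact mul_pos (hgpos τ hτ) (hb τ hτ).1
  have homle : ∀ τ ∈ Icc (0 : ℝ) 1, ‖om τ‖ ^ 2 ≤ 192 := by
    intro τ hτ
    rw [homn τ hτ]
    obtain ⟨h1, h2, -⟩ := hφ _ (hr01 τ hτ)
    have h3 : Real.sqrt 3 ^ 2 = 3 := Real.sq_sqrt (by norm_num)
    have h4 : 0 ≤ Real.sqrt 3 := Real.sqrt_nonneg 3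
    nlinarith
  -- special values
  have hs3 : Real.sqrt 3 ^ 2 = 3 := Real.sq_sqrt (by norm_num)
  have hval1 : ∀ τ, w τ = 1 → om τ = ((8 * Real.sqrt 3 : ℝ) : ℂ) := by
    intro τ hτ
    simp only [hom, hg, hτ, norm_one, hφ1]
    push_cast
    ring
  have hval64 : om (1 / 2) = ((1 / 2 : ℝ) : ℂ) := by
    have hn : ‖w (1 / 2)‖ = 1 / 64 := by
      rw [wm]
      norm_num
    simp only [hom, hg]
    rw [hn, hφ64, wm]
    push_cast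
    norm_num
  set P : ℝ → ℂ := fun τ => ⟨‖om τ‖ ^ 2 - 1, 2 * (om τ).im⟩ with hPdef
  have hPc : ContinuousOn P (Icc 0 1) := by
    have : P = fun τ => ((‖om τ‖ ^ 2 - 1 : ℝ) : ℂ) + ((2 * (om τ).im : ℝ) : ℂ) * Complex.I := by
      funext τ
      exact lzl_mk _ _
    rw [this]
    apply ContinuousOn.add
    · exact Complex.continuous_ofReal.comp_continuousOn ((homc.norm.pow 2).sub continuousOn_const)
    · exact (Complex.continuous_ofReal.comp_continuousOn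
        (continuousOn_const.mul (Complex.continuous_im.comp_continuousOn homc))).mul continuousOn_const
  have hP1 : ∀ τ, w τ = 1 → (P τ).im = 0 ∧ 0 < (P τ).re := by
    intro τ hτ
    have h1 := hval1 τ hτ
    have h4 : 0 ≤ Real.sqrt 3 := Real.sqrt_nonneg 3
    simp only [hPdef]
    rw [h1]
    refine ⟨by simp, ?_⟩
    rw [Complex.norm_real, Real.norm_of_nonneg (by positivity)]
    nlinarith
  have hPm : (P (1 / 2)).im = 0 ∧ (P (1 / 2)).re < 0 := by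
    simp only [hPdef]
    rw [hval64]
    refine ⟨by simp, ?_⟩
    rw [Complex.norm_real, Real.norm_of_nonneg (by norm_num)]
    norm_num
  have hPl : ∀ τ ∈ Ioo (0 : ℝ) (1 / 2), 0 < sg * (P τ).im := by
    intro τ hτ
    have hτ' : τ ∈ Icc (0 : ℝ) 1 := ⟨hτ.1.le, by linarith [hτ.2]⟩
    have h1 := hl τ hτ
    have h2 := hgpos τ hτ'
    simp only [hPdef]
    rw [homim]
    have : (sg : ℝ) * (2 * (g τ * (w τ).im)) = 2 * g τ * (sg * (w τ).im) := by ring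
    rw [this]
    positivity
  have hPr : ∀ τ ∈ Ioo (1 / 2 : ℝ) 1, sg * (P τ).im < 0 := by
    intro τ hτ
    have hτ' : τ ∈ Icc (0 : ℝ) 1 := ⟨by linarith [hτ.1], hτ.2.le⟩
    have h1 := hr τ hτ
    have h2 := hgpos τ hτ'
    simp only [hPdef]
    rw [homim]
    have : (sg : ℝ) * (2 * (g τ * (w τ).im)) = 2 * g τ * (sg * (w τ).im) := by ring
    rw [this]
    exact mul_neg_of_pos_of_neg (by positivity) h1
  have hPne : ∀ τ ∈ Icc (0 : ℝ) 1, P τ ≠ 0 := by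
    intro τ hτ h0
    rcases hτ.1.eq_or_lt with h | h
    · have := (hP1 τ (by rw [← h]; exact w0)).2
      rw [h0] at this
      simp at this
    · rcases lt_trichotomy τ (1 / 2) with h' | h' | h'
      · have := hPl τ ⟨h, h'⟩
        rw [h0] at this
        simp at this
      · have := hPm.2
        rw [← h', h0] at this
        simp at this
      · rcases hτ.2.eq_or_lt with h'' | h''
        · have := (hP1 τ (by rw [h'']; exact w1)).2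
          rw [h0] at this
          simp at this
        · have := hPr τ ⟨h', h''⟩
          rw [h0] at this
          simp at this
  obtain ⟨z, hzc, hz0, hz1, hz⟩ := lift_arc hPc hsg (hP1 0 w0) (hP1 1 w1) hPm hPl hPr
  have hcz : ∀ τ, w τ = 1 → 2 * (om τ).re / (1 + ‖om τ‖ ^ 2) = cz := by
    intro τ hτ
    have h4 : 0 ≤ Real.sqrt 3 := Real.sqrt_nonneg 3
    rw [hval1 τ hτ, Complex.norm_real, Real.norm_of_nonneg (by positivity), Complex.ofReal_re, cz, mul_pow, hs3]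
    ring
  refine ⟨fun τ => 2 * (om τ).re / (1 + ‖om τ‖ ^ 2), z, ?_, ?_⟩
  · constructor
    · apply ContinuousOn.div
      · exact continuousOn_const.mul (Complex.continuous_re.comp_continuousOn homc)
      · exact continuousOn_const.add (homc.norm.pow 2)
      · intro τ hτ
        positivity
    · exact hzc
    · exact continuousOn_const
    · exact hcz 0 w0
    · exact hcz 1 w1
    · exact hz0
    · exact hz1
    · rfl
    · simp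
    · intro τ hτ
      exact lzl_c (hompos τ hτ) (hPne τ hτ)
    · intro τ hτ hS
      have h1 := hS.2
      rw [lzl_off (om τ) (hz τ hτ)] at h1
      have h2 := homle τ hτ
      have h3 : (0 : ℝ) < 1 + ‖om τ‖ ^ 2 := by positivity
      rw [le_div_iff₀ h3] at h1
      linarith
  · intro τ hτ
    obtain ⟨v, hv⟩ := lzl_v (hwne τ hτ)
    have hr := hr01 τ hτ
    obtain ⟨f1, f2, f3⟩ := hφ _ hr
    -- the point of the half plane
    have e1 : hp (w τ) = pol (-(‖w τ‖ : ℂ), v) := by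
      rw [lzl_pol hr.1, hp]
      have := hv 1
      simp only [one_mul] at this
      rw [this]
    have e2 : K (pol (-((32 * φ ‖w τ‖ : ℝ) : ℂ), v)) = mp (Kp (-((φ ‖w τ‖ : ℝ) : ℂ)), v) := by
      rw [h.pol _ v (by
        rw [neg_ne_zero, Complex.ofReal_ne_zero]
        positivity)]
      congr 3
      push_cast
      ring
    have e3 : pol (-((32 * φ ‖w τ‖ : ℝ) : ℂ), v) = bp ((2 * (om τ).re / (1 + ‖om τ‖ ^ 2) : ℝ) : ℂ) (z τ) (1 / 2) := by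
      rw [← lzl_pt (hompos τ hτ) (hPne τ hτ) (hz τ hτ), lzl_pol (by positivity)]
      have h5 := hv (g τ)
      have h6 : g τ * ‖w τ‖ = 32 * φ ‖w τ‖ := by
        simp only [hg]
        have := hr.1
        field_simp
      rw [h6] at h5
      rw [h5, homre, homim]
    rw [e1, hJ _ v (by
      rw [neg_ne_zero, Complex.ofReal_ne_zero]
      exact hr.1.ne') (by
      intro h7
      have := congrArg Complex.re h7
      simp at this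
      linarith [hr.1]), ← e3, e2, f3]

end Pool.Agent.MMV
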