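import Pool.Agent.MMV.NFin

/-!
# MMV/NAc: Andrews-Curtis equivalent pairs are equivalent under `TEq`; Gordon's presentations
-/

open Set Filter

namespace Pool.Agent.MMV

section
variable {G : Type} [Group G]

omit [Group G] in
theorem nac_upd0 (u v a : G) : Function.update ![u, v] 0 a = ![a, v] := by
  funext i
  fin_cases i <;> simp

omit [Group G] in
theorem nac_upd1 (u v a : G) : Function.update ![u, v] 1 a = ![u, a] := by
  funext i
  fin_cases i <;> simp

theorem nac_inv₁ (u v : G) : TEq ![u, v] ![u⁻¹, v] := by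
  have h := TEq.inv ![u, v] 0
  rwa [nac_upd0] at h

theorem nac_inv₂ (u v : G) : TEq ![u, v] ![u, v⁻¹] := by
  have h := TEq.inv ![u, v] 1
  rwa [nac_upd1] at h

theorem nac_mul₁ (u v : G) : TEq ![u, v] ![u * v, v] := by
  have h := TEq.mul ![u, v] (i := 0) (j := 1) (by decide)
  rwa [nac_upd0] at h

theorem nac_mul₂ (u v : G) : TEq ![u, v] ![u, v * u] := by
  have h := TEq.mul ![u, v] (i := 1) (j := 0) (by decide)
  rwa [nac_upd1] at h

theorem nac_conj₁ (u v w : G) : TEq ![u, v] ![w * u * w⁻¹, v] := by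
  have h := TEq.conj ![u, v] 0 w
  rwa [nac_upd0] at h

theorem nac_conj₂ (u v w : G) : TEq ![u, v] ![u, w * v * w⁻¹] := by
  have h := TEq.conj ![u, v] 1 w
  rwa [nac_upd1] at h

theorem nac_to {u v u' v' : G} (h : TEq ![u, v] ![u', v']) {a b : G} (ha : u' = a) (hb : v' = b) : TEq ![u, v] ![a, b] := by
  rw [← ha, ← hb]
  exact h

theorem nac_move {p q : G × G} (h : ACP.Move p q) : TEq ![p.1, p.2] ![q.1, q.2] := by
  cases h with
  | mulR₁ u v => exact nac_mul₁ u v
  | mulRi₁ u v => exact nac_to ((nac_inv₂ u v).trans ((nac_mul₁ u v⁻¹).trans (nac_inv₂ _ _))) rfl (inv_inv v)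
  | mulL₁ u v => exact nac_to ((nac_mul₁ u v).trans (nac_conj₁ _ _ v)) (by group) rfl
  | mulLi₁ u v =>
    exact nac_to (((nac_inv₂ u v).trans ((nac_mul₁ u v⁻¹).trans (nac_inv₂ _ _))).trans (nac_conj₁ _ _ v⁻¹)) (by group)
      (inv_inv v)
  | mulR₂ u v => exact nac_mul₂ u v
  | mulRi₂ u v => exact nac_to ((nac_inv₁ u v).trans ((nac_mul₂ u⁻¹ v).trans (nac_inv₁ _ _))) (inv_inv u) rfl
  | mulL₂ u v => exact nac_to ((nac_mul₂ u v).trans (nac_conj₂ _ _ u)) rfl (by group)
  | mulLi₂ u v =>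
    exact nac_to (((nac_inv₁ u v).trans ((nac_mul₂ u⁻¹ v).trans (nac_inv₁ _ _))).trans (nac_conj₂ _ _ u⁻¹)) (inv_inv u)
      (by group)
  | inv₁ u v => exact nac_inv₁ u v
  | inv₂ u v => exact nac_inv₂ u v
  | conj₁ u v w => exact nac_to (nac_conj₁ u v w⁻¹) (by group) rfl
  | conj₂ u v w => exact nac_to (nac_conj₂ u v w⁻¹) rfl (by group)

theorem teq_of_ac {p q : G × G} (h : ACP.ACEquiv p q) : TEq ![p.1, p.2] ![q.1, q.2] := by
  induction h with
  | refl => exact TEq.refl _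
  | tail _ h2 ih => exact ih.trans (nac_move h2)

end

/-- Gordon's presentations of the class `GT` -/
theorem teq_gordon {m n p k : ℤ} (h : ACB.GT m n p k) :
    TEq FreeGroup.of ![(ACP.Gordon m n p k).1, (ACP.Gordon m n p k).2] := by
  have h1 := (teq_of_ac h.triv).symm
  have e : ![ACP.x, ACP.y] = (FreeGroup.of : Fin 2 → FreeGroup (Fin 2)) := by
    funext i
    fin_cases i <;> rfl
  rw [← e]
  exact h1

end Pool.Agent.MMV
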