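import Pool.Agent.MMV.NDefs

/-!
# MMV/NCm: paths of invertible matrices   (block VI, squads N and G)

`sgnL σ`: the diagonal map with the entries `σ i`.  Every invertible linear map of `ℝⁿ` is connected by a smooth path of invertible maps with `sgnL σ`, `σ i = ±1`.

PROOF.  Let `A ~ B` mean: there is a smooth `γ : ℝ → (E →L[ℝ] E)`, all `γ s` bijective, `γ 0 = A`, `γ 1 = B`.  Reflexive, symmetric (`γ (1 - s)`), transitive (`γ (σ (2 s))` for `s ≤ 1/2`, `γ' (σ (2 s - 1))` for `s ≥ 1/2`, `τ = Real.smoothTransition`;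
or: `s ↦ γ (σ (2 s)) ∘ B⁻¹ ∘ γ' (σ (2 s - 1))`, smooth without cases, values `A ∘ B⁻¹ ∘ B` at `0`, `B ∘ B⁻¹ ∘ B'` at `1`), compatible with composition (`A ~ A'`, `B ~ B'` ⟹ `A ∘ B ~ A' ∘ B'`, pointwise composition).
For matrices: `Matrix.diagonal_transvection_induction_of_det_ne_zero` (Mathlib, `LinearAlgebra/Matrix/Transvection`): it suffices to treat (1) diagonal matrices with nonzero entries: `diag d ~ diag (sgn d)`, path `(1 - s) d i + s sgn (d i)` for
`s ∈ [0, 1]` (use `σ s` in place of `s`, nonzero since both have the same sign); (2) transvections `1 + c E_ij`, `i ≠ j`: `~ 1`, path `1 + s c E_ij` (determinant `1`: `Matrix.det_transvection_of_ne`, or the inverse `1 - s c E_ij`), and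
`1 = sgnL 1`; (3) products: `A ~ sgnL σ`, `B ~ sgnL τ` ⟹ `A B ~ sgnL (σ τ)`.
`Matrix.toEuclideanCLM` or `Matrix.toEuclideanLin` turn matrices into maps (a ring isomorphism); smoothness in finite dimension: a linear map (`LinearMap.toContinuousLinearMap`, or entries: `contDiff_pi`).
`Bijective` of a continuous linear map of `E` with an inverse.
-/

open scoped ContDiff Manifold Topology unitInterval
open Set Filter

namespace Pool.Agent.MMV

/-- diagonal map -/
noncomputable def sgnL {n : ℕ} (d : Fin n → ℝ) : EuclideanSpace ℝ (Fin n) →L[ℝ] EuclideanSpace ℝ (Fin n) :=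
  LinearMap.toContinuousLinearMap
    { toFun := fun v => WithLp.toLp 2 fun i => d i * v i
      map_add' := fun v w => by ext i; simp [mul_add]
      map_smul' := fun r v => by ext i; simp [mul_left_comm] }

theorem sgnL_apply {n : ℕ} (d : Fin n → ℝ) (v : EuclideanSpace ℝ (Fin n)) (i : Fin n) : sgnL d v i = d i * v i := rfl

/-- connected by a smooth path of invertible matrices with a diagonal matrix of signs -/
private def NcmP {n : ℕ} (M : Matrix (Fin n) (Fin n) ℝ) : Prop :=
  ∃ (γ : ℝ → Matrix (Fin n) (Fin n) ℝ) (d : Fin n → ℝ), (∀ i, d i = 1 ∨ d i = -1) ∧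
    (∀ i j, ContDiff ℝ ∞ fun s => γ s i j) ∧ (∀ s, (γ s).det ≠ 0) ∧ γ 0 = M ∧ γ 1 = Matrix.diagonal d

private theorem ncm_mul {n : ℕ} {M M' : Matrix (Fin n) (Fin n) ℝ} (h : NcmP M) (h' : NcmP M') : NcmP (M * M') := by
  obtain ⟨γ, d, hd, hγ, hdet, h0, h1⟩ := h
  obtain ⟨γ', d', hd', hγ', hdet', h0', h1'⟩ := h'
  refine ⟨fun s => γ s * γ' s, fun i => d i * d' i, ?_, ?_, ?_, ?_, ?_⟩
  · intro i
    rcases hd i with h | h <;> rcases hd' i with h' | h' <;> simp [h, h']
  · intro i j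
    simp only [Matrix.mul_apply]
    exact ContDiff.sum fun k _ => (hγ i k).mul (hγ' k j)
  · intro s
    rw [Matrix.det_mul]
    exact mul_ne_zero (hdet s) (hdet' s)
  · simp [h0, h0']
  · simp [h1, h1', Matrix.diagonal_mul_diagonal]

private theorem ncm_diag {n : ℕ} (D : Fin n → ℝ) (hD : (Matrix.diagonal D).det ≠ 0) : NcmP (Matrix.diagonal D) := by
  rw [Matrix.det_diagonal] at hD
  have hD' : ∀ i, D i ≠ 0 := fun i => (Finset.prod_ne_zero_iff.1 hD) i (Finset.mem_univ i)
  set d : Fin n → ℝ := fun i => if 0 < D i then 1 else -1 with hd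
  have hτ : ContDiff ℝ ∞ Real.smoothTransition := Real.smoothTransition.contDiff
  refine ⟨fun s => Matrix.diagonal fun i => (1 - Real.smoothTransition s) * D i + Real.smoothTransition s * d i, d,
    ?_, ?_, ?_, ?_, ?_⟩
  · intro i
    by_cases h : 0 < D i <;> simp [hd, h]
  · intro i j
    by_cases hij : i = j
    · subst hij
      simp only [Matrix.diagonal_apply_eq]
      exact ((contDiff_const.sub hτ).mul contDiff_const).add (hτ.mul contDiff_const)
    · simp only [Matrix.diagonal_apply_ne _ hij]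
      exact contDiff_const
  · intro s
    rw [Matrix.det_diagonal, Finset.prod_ne_zero_iff]
    intro i _
    have h0 := Real.smoothTransition.nonneg s
    have h1 := Real.smoothTransition.le_one s
    by_cases h : 0 < D i
    · have : d i = 1 := by simp [hd, h]
      rw [this]
      rcases eq_or_lt_of_le h0 with h2 | h2
      · rw [← h2]; simpa using h.ne'
      · have : 0 ≤ (1 - Real.smoothTransition s) * D i := mul_nonneg (by linarith) h.le
        linarith
    · have h' : D i < 0 := lt_of_le_of_ne (not_lt.1 h) (hD' i)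
      have : d i = -1 := by simp [hd, h]
      rw [this]
      rcases eq_or_lt_of_le h0 with h2 | h2
      · rw [← h2]; simpa using h'.ne
      · have : (1 - Real.smoothTransition s) * D i ≤ 0 := mul_nonpos_of_nonneg_of_nonpos (by linarith) h'.le
        linarith
  · simp
  · simp

private theorem ncm_tr {n : ℕ} (t : Matrix.TransvectionStruct (Fin n) ℝ) : NcmP t.toMatrix := by
  refine ⟨fun s => Matrix.transvection t.i t.j ((1 - s) * t.c), fun _ => 1, fun _ => Or.inl rfl, ?_, ?_, ?_, ?_⟩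
  · intro i j
    have : (fun s : ℝ => (Matrix.transvection t.i t.j ((1 - s) * t.c)) i j) = fun s : ℝ =>
        (1 : Matrix (Fin n) (Fin n) ℝ) i j + if t.i = i ∧ t.j = j then (1 - s) * t.c else 0 := by
      funext s
      simp [Matrix.transvection, Matrix.single, Matrix.of_apply]
    rw [this]
    by_cases h : t.i = i ∧ t.j = j
    · simp only [h, and_self, if_true]
      exact contDiff_const.add ((contDiff_const.sub contDiff_id).mul contDiff_const)
    · simp only [h, if_false]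
      exact contDiff_const
  · intro s
    rw [Matrix.det_transvection_of_ne _ _ t.hij]
    exact one_ne_zero
  · simp [Matrix.TransvectionStruct.toMatrix]
  · simp [Matrix.transvection, Matrix.diagonal_one]

private theorem ncm_all {n : ℕ} (M : Matrix (Fin n) (Fin n) ℝ) (hM : M.det ≠ 0) : NcmP M :=
  Matrix.diagonal_transvection_induction_of_det_ne_zero NcmP M hM (fun D hD => ncm_diag D hD) (fun t => ncm_tr t)
    (fun _ _ _ _ h h' => ncm_mul h h')

private theorem ncm_smooth {n : ℕ} {γ : ℝ → Matrix (Fin n) (Fin n) ℝ} (hγ : ∀ i j, ContDiff ℝ ∞ fun s => γ s i j) :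
    ContDiff ℝ ∞ fun s => Matrix.toEuclideanCLM (n := Fin n) (𝕜 := ℝ) (γ s) := by
  have : (fun s => Matrix.toEuclideanCLM (n := Fin n) (𝕜 := ℝ) (γ s)) = fun s => ∑ i, ∑ j,
      γ s i j • Matrix.toEuclideanCLM (n := Fin n) (𝕜 := ℝ) (Matrix.single i j 1) := by
    funext s
    conv_lhs => rw [Matrix.matrix_eq_sum_single (γ s)]
    rw [map_sum]
    refine Finset.sum_congr rfl fun i _ => ?_
    rw [map_sum]
    refine Finset.sum_congr rfl fun j _ => ?_
    rw [← map_smul]
    congr 1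
    rw [Matrix.smul_single, smul_eq_mul, mul_one]
  rw [this]
  exact ContDiff.sum fun i _ => ContDiff.sum fun j _ => (hγ i j).smul contDiff_const

private theorem ncm_bij {n : ℕ} (M : Matrix (Fin n) (Fin n) ℝ) :
    Function.Bijective (Matrix.toEuclideanCLM (n := Fin n) (𝕜 := ℝ) M) ↔ M.det ≠ 0 := by
  constructor
  · intro h
    have h1 : IsUnit (Matrix.toEuclideanCLM (n := Fin n) (𝕜 := ℝ) M) := by
      let e := LinearEquiv.ofBijective (Matrix.toEuclideanCLM (n := Fin n) (𝕜 := ℝ) M).toLinearMap h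
      let e' := e.toContinuousLinearEquiv
      refine ⟨⟨Matrix.toEuclideanCLM (n := Fin n) (𝕜 := ℝ) M, (e'.symm : EuclideanSpace ℝ (Fin n) →L[ℝ] EuclideanSpace ℝ (Fin n)), ?_, ?_⟩, rfl⟩
      · ext1 v
        exact e'.apply_symm_apply v
      · ext1 v
        exact e'.symm_apply_apply v
    have h2 : IsUnit M := by
      have := h1.map (Matrix.toEuclideanCLM (n := Fin n) (𝕜 := ℝ)).symm
      simpa using this
    exact ((Matrix.isUnit_iff_isUnit_det M).1 h2).ne_zero
  · intro h
    have h2 : IsUnit M := (Matrix.isUnit_iff_isUnit_det M).2 (isUnit_iff_ne_zero.2 h)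
    obtain ⟨u, hu⟩ := h2.map (Matrix.toEuclideanCLM (n := Fin n) (𝕜 := ℝ))
    rw [← hu]
    constructor
    · intro v w hvw
      have h3 : ∀ x, (↑u⁻¹ : EuclideanSpace ℝ (Fin n) →L[ℝ] EuclideanSpace ℝ (Fin n)) ((u : EuclideanSpace ℝ (Fin n) →L[ℝ] EuclideanSpace ℝ (Fin n)) x) = x := by
        intro x
        rw [← mul_apply_eq_comp, Units.inv_mul]
        rfl
      rw [← h3 v, ← h3 w, hvw]
    · intro w
      refine ⟨(↑u⁻¹ : EuclideanSpace ℝ (Fin n) →L[ℝ] EuclideanSpace ℝ (Fin n)) w, ?_⟩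
      rw [← mul_apply_eq_comp, Units.mul_inv]
      rfl

theorem gl_path {n : ℕ} (A : EuclideanSpace ℝ (Fin n) →L[ℝ] EuclideanSpace ℝ (Fin n)) (hA : Function.Bijective A) :
    ∃ (γ : ℝ → EuclideanSpace ℝ (Fin n) →L[ℝ] EuclideanSpace ℝ (Fin n)) (d : Fin n → ℝ), (∀ i, d i = 1 ∨ d i = -1) ∧
      ContDiff ℝ ∞ γ ∧ (∀ s, Function.Bijective (γ s)) ∧ γ 0 = A ∧ γ 1 = sgnL d := by
  obtain ⟨M, hM⟩ : ∃ M, Matrix.toEuclideanCLM (n := Fin n) (𝕜 := ℝ) M = A :=
    ⟨_, (Matrix.toEuclideanCLM (n := Fin n) (𝕜 := ℝ)).apply_symm_apply A⟩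
  have hdet : M.det ≠ 0 := (ncm_bij M).1 (by rw [hM]; exact hA)
  obtain ⟨γ, d, hd, hγ, hγd, h0, h1⟩ := ncm_all M hdet
  refine ⟨fun s => Matrix.toEuclideanCLM (n := Fin n) (𝕜 := ℝ) (γ s), d, hd, ncm_smooth hγ,
    fun s => (ncm_bij (γ s)).2 (hγd s), ?_, ?_⟩
  · simp only [h0, hM]
  · simp only [h1]
    ext v i
    rw [sgnL_apply, Matrix.ofLp_toEuclideanCLM, Matrix.mulVec_diagonal]

/-- `sgnL d` is an isometry -/
theorem sgnL_iso {n : ℕ} {d : Fin n → ℝ} (hd : ∀ i, d i = 1 ∨ d i = -1) :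
    ∃ O : EuclideanSpace ℝ (Fin n) ≃ₗᵢ[ℝ] EuclideanSpace ℝ (Fin n), ∀ v, O v = sgnL d v := by
  have hsq : ∀ i, d i * d i = 1 := by
    intro i
    rcases hd i with h | h <;> simp [h]
  have hinv : ∀ v, sgnL d (sgnL d v) = v := by
    intro v
    ext i
    rw [sgnL_apply, sgnL_apply, ← mul_assoc, hsq, one_mul]
  refine ⟨⟨LinearEquiv.ofInvolutive (sgnL d).toLinearMap hinv, ?_⟩, fun v => rfl⟩
  intro v
  change ‖sgnL d v‖ = ‖v‖
  rw [EuclideanSpace.norm_eq, EuclideanSpace.norm_eq]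
  congr 1
  refine Finset.sum_congr rfl fun i _ => ?_
  rw [sgnL_apply, norm_mul, mul_pow]
  have : ‖d i‖ ^ 2 = 1 := by
    rw [Real.norm_eq_abs, sq_abs, sq, hsq]
  rw [this, one_mul]

end Pool.Agent.MMV
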