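import Pool.Agent.MMV.NCs
import Pool.Agent.MMV.NCm
import Pool.Agent.ISO.Cod0
import Pool.Agent.ACB.Ext

/-!
# MMV/NCd: the disc theorem in `S⁴`   (block VI, squad N)

PROOF.  All isotopies are extended by `ISO.cod0` (`ISO/Cod0.lean`) with `Λ = Λ' = ⊥` (the trivial group: `Lat` is clear), `O = univ`: if `e s x` is smooth on `[0, 1] × W`, `W` an open neighbourhood of a compact set `C`, every `e s` has a bijective
derivative at the points of `C` and is injective on `C`, then there is a compactly supported diffeomorphism `F` of `E4` (`ISO.Move ⊥ univ F`) with `F (e 0 x) = e 1 x` near `C`.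
Step 0.  Choose `y₁` with `1 < |y₁| < R`; `φ y₁ ∉ φ (closedBall 0 1)`.  `rot_trans`: `G₀` with `G₀ (φ y₁)` = the antipode `z` of `st 0` (`z 4 = -1`).  So `G₀ ∘ φ` maps `closedBall 0 1` into the range of `st` (`st_ball`), hence also a
neighbourhood; `ψ = s ∘ G₀ ∘ φ` (`s` = the inverse of `st`) is smooth with bijective derivative near `closedBall 0 1`, and injective on it; `st (ψ y) = G₀ (φ y)`.
Step 1.  `C = closedBall 0 1`, `e s y = ψ ((1 - s + s η) y)` (`η > 0` to be chosen): `F₁ (ψ y) = ψ (η y)` near `C`.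
Step 2.  Germ at `0`: `C = {0}`: `e s y = (1 - s) • ψ y + s • (ψ 0 + A y)`, `A = fderiv ψ 0` (the derivative at `0` is `A` for every `s`): `F₂ (ψ y) = ψ 0 + A y` near `0`; then `e s y = (1 - s) • ψ 0 + A y` and `e s y = γ s y` (`gl_path`):
`F₃ (ψ y) = sgnL σ y = O y` (`sgnL_iso`) for `|y| < δ`.  Now take `η = δ / 4` (`≤ 1`): `F₃ (F₁ (ψ y)) = O (η y)` near `C` (the neighbourhood of `C` contains a ball of radius `1 + η'`; take it `< 2`).
Step 3.  `e s y = (η + s (1 - η)) • O y`, `C = closedBall 0 1`: `F₄ (O (η y)) = O y` near `C`.  Altogether `F (ψ y) = O y` for `|y| < 1 + η'`, `F = F₄ ∘ F₃ ∘ F₁` compactly supported (`Move.trans`).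
Step 4.  Transfer to `S4` by the ball `st` (`ACB/Ext.lean`): `G₁` with `G₁ (st x) = st (F x)`.  `G = G₁ ∘ G₀`: `G (φ y) = G₁ (st (ψ y)) = st (F (ψ y)) = st (O y)`.
(A neighbourhood of the compact `closedBall 0 1` contains `ball 0 (1 + η)`: `IsCompact.exists_thickening_subset_open` or the tube lemma.)
-/

open scoped ContDiff Manifold Topology unitInterval
open Set Filter
open Pool.Agent.ACB

namespace Pool.Agent.MMV

/-- the derivative of a local diffeomorphism is bijective -/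
theorem ncd_bij {f : E4 → E4} {x : E4} (h : IsLocalDiffeomorphAt (𝓡 4) (𝓡 4) ∞ f x) :
    Function.Bijective (fderiv ℝ f x) := by
  have h1 := (h.mfderivToContinuousLinearEquiv (by simp)).bijective
  have h2 : ((h.mfderivToContinuousLinearEquiv (by simp) : TangentSpace (𝓡 4) x ≃L[ℝ] TangentSpace (𝓡 4) (f x)) :
      TangentSpace (𝓡 4) x → TangentSpace (𝓡 4) (f x)) = mfderiv (𝓡 4) (𝓡 4) f x := rfl
  rw [h2, mfderiv_eq_fderiv] at h1
  exact h1

/-- isotopy extension, trivial lattices -/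
theorem ncd_iso {W : Set E4} (hW : IsOpen W) {e : ℝ → E4 → E4}
    (he : ∀ s ∈ Icc (0 : ℝ) 1, ∀ x ∈ W, ContDiffAt ℝ ∞ (fun q : ℝ × E4 => e q.1 q.2) (s, x))
    {C : Set E4} (hC : IsCompact C) (hCW : C ⊆ W)
    (hbij : ∀ s ∈ Icc (0 : ℝ) 1, ∀ x ∈ C, ∃ A : E4 →L[ℝ] E4, HasFDerivAt (e s) A x ∧ Function.Bijective A)
    (hinj : ∀ s ∈ Icc (0 : ℝ) 1, ∀ x ∈ C, ∀ x' ∈ C, e s x = e s x' → x = x') :
    ∃ (F : Equiv.Perm E4) (U : Set E4), ISO.Move (⊥ : AddSubgroup E4) univ F ∧ IsOpen U ∧ C ⊆ U ∧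
      ∀ x ∈ U, F (e 0 x) = e 1 x := by
  have hlat : ISO.Lat (⊥ : AddSubgroup E4) := by
    intro R
    refine (finite_singleton (0 : E4)).subset ?_
    rintro m ⟨hm, -⟩
    exact AddSubgroup.mem_bot.1 hm
  obtain ⟨F, U, h1, h2, h3, h4, -⟩ := ISO.cod0 (Λ := (⊥ : AddSubgroup E4)) hlat (Λ' := (⊥ : AddSubgroup E4))
    (O := univ) isOpen_univ hW
    (by
      intro x hx m hm
      rw [AddSubgroup.mem_bot.1 hm, add_zero]
      exact hx) he
    (by
      intro m' hm'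
      refine ⟨0, AddSubgroup.zero_mem _, fun s _ x _ => ?_⟩
      rw [AddSubgroup.mem_bot.1 hm', add_zero, add_zero]) hC hCW
    (by
      intro s hs x hx
      obtain ⟨A, hA, hA'⟩ := hbij s hs x hx
      rw [hA.fderiv]
      exact hA')
    (by
      intro s hs x hx x' hx' m hm he
      rw [AddSubgroup.mem_bot.1 hm, add_zero] at he
      exact ⟨0, AddSubgroup.zero_mem _, by rw [add_zero]; exact hinj s hs x hx x' hx' he⟩)
    (fun _ _ _ _ => mem_univ _)
  exact ⟨F, U, h1, h2, h3, h4⟩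

/-- a neighbourhood of the closed unit ball contains a larger ball -/
theorem ncd_big {W : Set E4} (hW : IsOpen W) (h : Metric.closedBall (0 : E4) 1 ⊆ W) :
    ∃ δ : ℝ, 0 < δ ∧ ∀ y : E4, ‖y‖ < 1 + δ → y ∈ W := by
  obtain ⟨δ, hδ, hs⟩ := (isCompact_closedBall (0 : E4) 1).exists_thickening_subset_open hW h
  refine ⟨δ, hδ, fun y hy => hs ?_⟩
  rw [thickening_closedBall hδ zero_le_one, Metric.mem_ball, dist_zero_right]
  linarith

/-- **the disc theorem in `ℝ⁴`** -/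
theorem ncd_main {ψ : E4 → E4} {ρ : ℝ} (hρ : 1 < ρ) (hs : ∀ y, ‖y‖ < ρ → ContDiffAt ℝ ∞ ψ y)
    (hb : ∀ y, ‖y‖ < ρ → Function.Bijective (fderiv ℝ ψ y))
    (hi : ∀ y y', ‖y‖ ≤ 1 → ‖y'‖ ≤ 1 → ψ y = ψ y' → y = y') :
    ∃ (F : Equiv.Perm E4) (O : E4 ≃ₗᵢ[ℝ] E4) (δ : ℝ), ISO.Move (⊥ : AddSubgroup E4) univ F ∧ 0 < δ ∧
      ∀ y, ‖y‖ < 1 + δ → F (ψ y) = O y := by
  have hρ0 : 0 < ρ := by linarith
  have hd : ∀ y, ‖y‖ < ρ → HasFDerivAt ψ (fderiv ℝ ψ y) y := fun y hy =>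
    ((hs y hy).differentiableAt (by simp)).hasFDerivAt
  set A : E4 →L[ℝ] E4 := fderiv ℝ ψ 0 with hA
  have h00 : ‖(0 : E4)‖ < ρ := by rw [norm_zero]; exact hρ0
  have hAb : Function.Bijective A := hb 0 h00
  have hWo : IsOpen {y : E4 | ‖y‖ < ρ} := isOpen_lt continuous_norm continuous_const
  -- the germ at `0`
  obtain ⟨F₂, U₂, m₂, o₂, c₂, e₂⟩ := ncd_iso (W := {y : E4 | ‖y‖ < ρ}) hWo
    (e := fun s y => (1 - s) • ψ y + s • (ψ 0 + A y)) (C := {0})
    (by
      intro s _ x hx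
      have h1 : ContDiffAt ℝ ∞ (fun q : ℝ × E4 => ψ q.2) (s, x) :=
        ContDiffAt.comp (s, x) (g := ψ) (f := fun q : ℝ × E4 => q.2) (hs x hx) contDiffAt_snd
      have h2 : ContDiffAt ℝ ∞ (fun q : ℝ × E4 => ψ 0 + A q.2) (s, x) :=
        contDiffAt_const.add (A.contDiff.contDiffAt.comp (s, x) contDiffAt_snd)
      exact ((contDiffAt_const.sub contDiffAt_fst).smul h1).add (contDiffAt_fst.smul h2))
    isCompact_singleton (by
      rintro _ rfl
      exact h00)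
    (by
      rintro s _ _ rfl
      refine ⟨A, ?_, hAb⟩
      have h1 := ((hd 0 h00).const_smul (1 - s)).add ((A.hasFDerivAt.const_add (ψ 0)).const_smul s)
      have h2 : (1 - s) • fderiv ℝ ψ 0 + s • A = A := by
        rw [← hA]
        exact (add_smul (1 - s) s A).symm.trans (by rw [sub_add_cancel, one_smul])
      rw [h2] at h1
      exact h1)
    (by
      rintro s _ _ rfl _ rfl _
      rfl)
  obtain ⟨F₃, U₃, m₃, o₃, c₃, e₃⟩ := ncd_iso (W := univ) isOpen_univ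
    (e := fun s y => (1 - s) • ψ 0 + A y) (C := {0})
    (by
      intro s _ x _
      have h2 : ContDiffAt ℝ ∞ (fun q : ℝ × E4 => A q.2) (s, x) :=
        A.contDiff.contDiffAt.comp (s, x) contDiffAt_snd
      exact ((contDiffAt_const.sub contDiffAt_fst).smul contDiffAt_const).add h2)
    isCompact_singleton (subset_univ _)
    (by
      rintro s _ _ rfl
      exact ⟨A, A.hasFDerivAt.const_add _, hAb⟩)
    (by
      rintro s _ _ rfl _ rfl _
      rfl)
  obtain ⟨γ, d, hd1, hγ, hγb, hγ0, hγ1⟩ := gl_path A hAb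
  obtain ⟨O, hO⟩ := sgnL_iso hd1
  obtain ⟨F₄, U₄, m₄, o₄, c₄, e₄⟩ := ncd_iso (W := univ) isOpen_univ
    (e := fun s y => γ s y) (C := {0})
    (by
      intro s _ x _
      exact ((hγ.comp contDiff_fst).clm_apply contDiff_snd).contDiffAt)
    isCompact_singleton (subset_univ _)
    (by
      rintro s _ _ rfl
      exact ⟨γ s, (γ s).hasFDerivAt, hγb s⟩)
    (by
      rintro s _ _ rfl _ rfl _
      rfl)
  have hgerm : ∀ y ∈ U₂ ∩ U₃ ∩ U₄, F₄ (F₃ (F₂ (ψ y))) = O y := by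
    rintro y ⟨⟨y2, y3⟩, y4⟩
    have h2 := e₂ y y2
    have h3 := e₃ y y3
    have h4 := e₄ y y4
    simp only [sub_zero, one_smul, zero_smul, add_zero, sub_self, zero_add] at h2 h3
    simp only [hγ0, hγ1] at h4
    rw [h2, h3, h4, hO]
  obtain ⟨δ₀, hδ₀, hball⟩ := Metric.isOpen_iff.1 ((o₂.inter o₃).inter o₄) 0
    ⟨⟨c₂ rfl, c₃ rfl⟩, c₄ rfl⟩
  -- the shrinking
  let η : ℝ := min (δ₀ / 4) (1 / 4)
  have hη0 : 0 < η := lt_min (by linarith) (by norm_num)
  have hη1 : η ≤ 1 / 4 := min_le_right _ _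
  have hηδ : η ≤ δ₀ / 4 := min_le_left _ _
  have hc : ∀ s ∈ Icc (0 : ℝ) 1, 0 < 1 - s + s * η ∧ 1 - s + s * η ≤ 1 := by
    rintro s ⟨s0, s1⟩
    constructor
    · nlinarith
    · nlinarith
  have hcr : ∀ s ∈ Icc (0 : ℝ) 1, ∀ x : E4, ∀ r : ℝ, ‖x‖ < r → ‖(1 - s + s * η) • x‖ < r := by
    intro s hs' x r hx
    obtain ⟨h1, h2⟩ := hc s hs'
    rw [norm_smul, Real.norm_of_nonneg h1.le]
    have h3 := norm_nonneg x
    nlinarith
  have hcr' : ∀ s ∈ Icc (0 : ℝ) 1, ∀ x : E4, ‖x‖ ≤ 1 → ‖(1 - s + s * η) • x‖ ≤ 1 := by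
    intro s hs' x hx
    obtain ⟨h1, h2⟩ := hc s hs'
    rw [norm_smul, Real.norm_of_nonneg h1.le]
    have h3 := norm_nonneg x
    nlinarith
  obtain ⟨F₁, U₁, m₁, o₁, c₁, e₁⟩ := ncd_iso (W := {y : E4 | ‖y‖ < ρ}) hWo
    (e := fun s y => ψ ((1 - s + s * η) • y)) (C := Metric.closedBall 0 1)
    (by
      intro s hs' x hx
      have h1 : ContDiffAt ℝ ∞ (fun q : ℝ × E4 => (1 - q.1 + q.1 * η) • q.2) (s, x) :=
        ((contDiffAt_const.sub contDiffAt_fst).add (contDiffAt_fst.mul contDiffAt_const)).smul contDiffAt_snd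
      exact ContDiffAt.comp (s, x) (g := ψ) (f := fun q : ℝ × E4 => (1 - q.1 + q.1 * η) • q.2)
        (hs _ (hcr s hs' x ρ hx)) h1)
    (isCompact_closedBall 0 1)
    (by
      intro x hx
      rw [Metric.mem_closedBall, dist_zero_right] at hx
      exact lt_of_le_of_lt hx hρ)
    (by
      intro s hs' x hx
      rw [Metric.mem_closedBall, dist_zero_right] at hx
      have hx' : ‖(1 - s + s * η) • x‖ < ρ := lt_of_le_of_lt (hcr' s hs' x hx) hρ
      have h1 : HasFDerivAt (fun y : E4 => (1 - s + s * η) • y) ((1 - s + s * η) • ContinuousLinearMap.id ℝ E4) x :=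
        (hasFDerivAt_id x).const_smul (1 - s + s * η)
      refine ⟨_, (hd _ hx').comp x h1, ?_⟩
      have h2 : Function.Bijective ((1 - s + s * η) • ContinuousLinearMap.id ℝ E4) := by
        have h3 := (hc s hs').1.ne'
        refine ⟨?_, ?_⟩
        · intro a b hab
          have h4 : (1 - s + s * η) • a = (1 - s + s * η) • b := hab
          exact smul_right_injective E4 h3 h4
        · intro b
          refine ⟨(1 - s + s * η)⁻¹ • b, ?_⟩
          show (1 - s + s * η) • ((1 - s + s * η)⁻¹ • b) = b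
          rw [smul_smul, mul_inv_cancel₀ h3, one_smul]
      rw [ContinuousLinearMap.coe_comp]
      exact (hb _ hx').comp h2)
    (by
      intro s hs' x hx x' hx' he
      rw [Metric.mem_closedBall, dist_zero_right] at hx hx'
      have h1 := hi _ _ (hcr' s hs' x hx) (hcr' s hs' x' hx') he
      exact smul_right_injective E4 (hc s hs').1.ne' h1)
  -- the growing
  have hg : ∀ s ∈ Icc (0 : ℝ) 1, 0 < η + s * (1 - η) := by
    rintro s ⟨s0, s1⟩
    nlinarith
  obtain ⟨F₅, U₅, m₅, o₅, c₅, e₅⟩ := ncd_iso (W := univ) isOpen_univ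
    (e := fun s y => (η + s * (1 - η)) • O y) (C := Metric.closedBall 0 1)
    (by
      intro s _ x _
      have h1 : ContDiffAt ℝ ∞ (fun q : ℝ × E4 => O q.2) (s, x) :=
        O.contDiff.contDiffAt.comp (s, x) contDiffAt_snd
      exact (contDiffAt_const.add (contDiffAt_fst.mul contDiffAt_const)).smul h1)
    (isCompact_closedBall 0 1) (subset_univ _)
    (by
      intro s hs' x _
      refine ⟨(η + s * (1 - η)) • (O.toContinuousLinearEquiv : E4 →L[ℝ] E4),
        (O.toContinuousLinearEquiv.hasFDerivAt (x := x)).const_smul (η + s * (1 - η)), ?_⟩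
      have h3 := (hg s hs').ne'
      refine ⟨?_, ?_⟩
      · intro a b hab
        have h4 : (η + s * (1 - η)) • O a = (η + s * (1 - η)) • O b := hab
        exact O.injective (smul_right_injective E4 h3 h4)
      · intro b
        refine ⟨O.symm ((η + s * (1 - η))⁻¹ • b), ?_⟩
        show (η + s * (1 - η)) • O (O.symm ((η + s * (1 - η))⁻¹ • b)) = b
        rw [O.apply_symm_apply, smul_smul, mul_inv_cancel₀ h3, one_smul])
    (by
      intro s hs' x _ x' _ he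
      exact O.injective (smul_right_injective E4 (hg s hs').ne' he))
  obtain ⟨δ₁, hδ₁, hU⟩ := ncd_big (o₁.inter o₅) (subset_inter c₁ c₅)
  refine ⟨((F₁.trans F₂).trans (F₃.trans F₄)).trans F₅, O, min δ₁ 1,
    ((m₁.trans m₂).trans (m₃.trans m₄)).trans m₅, lt_min hδ₁ one_pos, ?_⟩
  intro y hy
  have hy1 : ‖y‖ < 1 + δ₁ := lt_of_lt_of_le hy (by linarith [min_le_left δ₁ 1])
  have hy2 : ‖y‖ < 2 := lt_of_lt_of_le hy (by linarith [min_le_right δ₁ 1])
  obtain ⟨u1, u5⟩ := hU y hy1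
  have h1 := e₁ y u1
  have h5 := e₅ y u5
  simp only [sub_zero, zero_mul, add_zero, one_smul, sub_self, one_mul, zero_add] at h1 h5
  have hηy : η • y ∈ U₂ ∩ U₃ ∩ U₄ := by
    refine hball ?_
    rw [Metric.mem_ball, dist_zero_right, norm_smul, Real.norm_of_nonneg hη0.le]
    nlinarith [norm_nonneg y]
  have h6 := hgerm _ hηy
  show F₅ (F₄ (F₃ (F₂ (F₁ (ψ y))))) = O y
  rw [h1, h6, map_smul, h5]
  have h7 : η + (1 - η) = 1 := by ring
  rw [h7, one_smul]

/-- the only point of the sphere with last coordinate `-1` -/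
theorem ncd_pole {z z' : S4} (hz : z.1 4 = -1) (hz' : z'.1 4 = -1) : z = z' := by
  have key : ∀ w : S4, w.1 4 = -1 → ∀ i, i ≠ 4 → w.1 i = 0 := by
    intro w hw i hi
    have h1 : ‖w.1‖ = 1 := by
      have := w.2
      rwa [mem_sphere_zero_iff_norm] at this
    have h2 : ‖w.1‖ ^ 2 = w.1 0 ^ 2 + w.1 1 ^ 2 + w.1 2 ^ 2 + w.1 3 ^ 2 + w.1 4 ^ 2 := by
      rw [EuclideanSpace.norm_sq_eq]
      simp [Fin.sum_univ_five]
    rw [h1, hw] at h2
    have e0 := sq_nonneg (w.1 0)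
    have e1 := sq_nonneg (w.1 1)
    have e2 := sq_nonneg (w.1 2)
    have e3 := sq_nonneg (w.1 3)
    fin_cases i
    · exact pow_eq_zero_iff (two_ne_zero) |>.1 (by nlinarith : w.1 0 ^ 2 = 0)
    · exact pow_eq_zero_iff (two_ne_zero) |>.1 (by nlinarith : w.1 1 ^ 2 = 0)
    · exact pow_eq_zero_iff (two_ne_zero) |>.1 (by nlinarith : w.1 2 ^ 2 = 0)
    · exact pow_eq_zero_iff (two_ne_zero) |>.1 (by nlinarith : w.1 3 ^ 2 = 0)
    · exact absurd rfl hi
  apply Subtype.ext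
  ext i
  by_cases hi : i = 4
  · rw [hi, hz, hz']
  · rw [key z hz i hi, key z' hz' i hi]

/-- **the disc theorem**: every smooth ball in `S⁴` is ambiently the standard one -/
theorem disc {φ : E4 → S4} {R : ℝ} (hR : 1 < R)
    (hl : ∀ y, ‖y‖ < R → IsLocalDiffeomorphAt (𝓡 4) (𝓡 4) ∞ φ y)
    (hi : ∀ y y', ‖y‖ < R → ‖y'‖ < R → φ y = φ y' → y = y') :
    ∃ (G : S4 ≃ₘ⟮𝓡 4, 𝓡 4⟯ S4) (O : E4 ≃ₗᵢ[ℝ] E4) (η : ℝ), 0 < η ∧ 1 + η ≤ R ∧
      ∀ y, ‖y‖ < 1 + η → G (φ y) = st (O y) := by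
  obtain ⟨s, hst, hrange⟩ := st_ball
  -- a point off the closed ball
  let y₁ : E4 := EuclideanSpace.single 0 ((1 + R) / 2)
  have hy₁ : ‖y₁‖ = (1 + R) / 2 := by
    rw [PiLp.norm_single, Real.norm_of_nonneg (by linarith)]
  let z : S4 := ⟨EuclideanSpace.single 4 (-1), by simp⟩
  have hz : z.1 4 = -1 := by
    show (EuclideanSpace.single 4 (-1) : E5) 4 = -1
    simp
  obtain ⟨G₀, hG₀⟩ := rot_trans (φ y₁) z
  have hran : ∀ y, ‖y‖ ≤ 1 → G₀ (φ y) ∈ range st := by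
    intro y hy
    rw [hrange]
    intro h4
    have h5 : G₀ (φ y) = G₀ (φ y₁) := by
      rw [hG₀]
      exact ncd_pole h4 hz
    have h6 := hi y y₁ (by linarith) (by rw [hy₁]; linarith) (G₀.injective h5)
    rw [h6, hy₁] at hy
    linarith
  have hcont : ContinuousOn (fun y => G₀ (φ y)) {y : E4 | ‖y‖ < R} := by
    intro y hy
    exact (G₀.continuous.continuousAt.comp (CSG.ld_continuousAt (hl y hy))).continuousWithinAt
  have hRo : IsOpen {y : E4 | ‖y‖ < R} := isOpen_lt continuous_norm continuous_const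
  have hWo : IsOpen ({y : E4 | ‖y‖ < R} ∩ (fun y => G₀ (φ y)) ⁻¹' range st) :=
    hcont.isOpen_inter_preimage hRo hst.isOpen
  obtain ⟨δ₀, hδ₀, hsub⟩ := ncd_big hWo (by
    intro y hy
    rw [Metric.mem_closedBall, dist_zero_right] at hy
    exact ⟨lt_of_le_of_lt hy hR, hran y hy⟩)
  let ψ : E4 → E4 := fun y => s (G₀ (φ y))
  have hψst : ∀ y, ‖y‖ < 1 + δ₀ → st (ψ y) = G₀ (φ y) := fun y hy => hst.right_inv (hsub y hy).2
  have hψld : ∀ y, ‖y‖ < 1 + δ₀ → IsLocalDiffeomorphAt (𝓡 4) (𝓡 4) ∞ ψ y := by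
    intro y hy
    obtain ⟨hyR, x, hx⟩ := hsub y hy
    have hx : st x = G₀ (φ y) := hx
    have h1 : IsLocalDiffeomorphAt (𝓡 4) (𝓡 4) ∞ (fun y => G₀ (φ y)) y :=
      IsLocalDiffeomorphAt.comp (hf := hl y hyR) (g := G₀) (hg := G₀.isLocalDiffeomorph (φ y))
    have h2 : IsLocalDiffeomorphAt (𝓡 4) (𝓡 4) ∞ s (st x) := by
      refine CSG.ld_of_comp_left (f := st) ?_ (hst.loc x)
      refine CSG.ld_congr (CSG.ld_id x) ?_
      filter_upwards with w
      exact hst.left_inv w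
    rw [hx] at h2
    exact IsLocalDiffeomorphAt.comp (hf := h1) (g := s) (hg := h2)
  obtain ⟨F, O, δ, mF, hδ, hF⟩ := ncd_main (ψ := ψ) (ρ := 1 + δ₀) (by linarith)
    (fun y hy => (hψld y hy).contMDiffAt.contDiffAt) (fun y hy => ncd_bij (hψld y hy))
    (by
      intro y y' hy hy' he
      have h1 : G₀ (φ y) = G₀ (φ y') := by
        rw [← hψst y (by linarith), ← hψst y' (by linarith), he]
      exact hi y y' (by linarith) (by linarith) (G₀.injective h1))
  obtain ⟨G₁, hG₁, -⟩ := ext_move hst mF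
  refine ⟨G₀.trans G₁, O, min (min δ δ₀) (R - 1), lt_min (lt_min hδ hδ₀) (by linarith), ?_, ?_⟩
  · linarith [min_le_right (min δ δ₀) (R - 1)]
  · intro y hy
    have h1 : min (min δ δ₀) (R - 1) ≤ min δ δ₀ := min_le_left _ _
    have h2 : min δ δ₀ ≤ δ := min_le_left _ _
    have h3 : min δ δ₀ ≤ δ₀ := min_le_right _ _
    show G₁ (G₀ (φ y)) = st (O y)
    rw [← hψst y (by linarith), hG₁, hF y (by linarith)]

end Pool.Agent.MMV
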