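import Pool.Agent.MMV.NDefs

/-!
# MMV/NCs: inversion and stereographic coordinates   (block VI, squad N)

PROOFS.  Let `z = st y`: `z i = 2 y i / (1 + |y|²)` (`i < 4`), `z 4 = (1 - |y|²) / (1 + |y|²)`, so `1 - z 4 = 2 |y|² / (1 + |y|²)`, `1 + z 4 = 2 / (1 + |y|²)` and `y i = z i / (1 + z 4)`.
* `inv4`: smooth at `x ≠ 0`, `inv4 ∘ inv4 = id` off `0`, maps `{x ≠ 0}` to itself: `⟨⟨..⟩⟩` as a `PartialDiffeomorph` of `{x | x ≠ 0}`.
* `st_ball`: inverse `s z = (1 + z 4)⁻¹ • !₂[z 0, z 1, z 2, z 3]`; smooth as a map to the sphere: `ContMDiff.codRestrict_sphere`; range `= {z | z 4 ≠ -1}` (open); `s` smooth on it: composition of the (smooth) inclusion of the sphere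
  (`contMDiff_coe_sphere`) with a function which is smooth where `z 4 ≠ -1`.
* `st'_ld`: `st'` is smooth off `{z 4 = 1}`, its inverse is `x ↦ z` with `z i = 2 x i / (1 + |x|²)`, `z 4 = (|x|² - 1) / (1 + |x|²)` (smooth on `E4`; it is `st` composed with the reflection of the last coordinate), `z 4 = 1` iff `z = st 0`
  (`|z| = 1`).
* `st'_st`: formula.  `st'_st_eq`: from `z ≠ st 0`, `x = st' z ≠ 0`: `z = st (inv4 x)` (both have the same image under the injective `st'`).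
-/

open scoped ContDiff Manifold Topology unitInterval
open Set Filter
open Pool.Agent.ACB

namespace Pool.Agent.MMV

private theorem ncs_nsq (y : E4) : ‖y‖ ^ 2 = y 0 ^ 2 + y 1 ^ 2 + y 2 ^ 2 + y 3 ^ 2 := by
  rw [EuclideanSpace.norm_sq_eq]
  simp [Fin.sum_univ_four]

private theorem ncs_nsq5 (y : E5) : ‖y‖ ^ 2 = y 0 ^ 2 + y 1 ^ 2 + y 2 ^ 2 + y 3 ^ 2 + y 4 ^ 2 := by
  rw [EuclideanSpace.norm_sq_eq]
  simp [Fin.sum_univ_five]

private theorem ncs_one (z : S4) : z.1 0 ^ 2 + z.1 1 ^ 2 + z.1 2 ^ 2 + z.1 3 ^ 2 + z.1 4 ^ 2 = 1 := by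
  rw [← ncs_nsq5, norm_eq_of_mem_sphere z, one_pow]

theorem inv4_inv4 {x : E4} (hx : x ≠ 0) : inv4 (inv4 x) = x := by
  have h : ‖x‖ ≠ 0 := norm_ne_zero_iff.2 hx
  unfold inv4
  rw [norm_smul, norm_inv, norm_pow, norm_norm, smul_smul]
  have : ((‖x‖ ^ 2)⁻¹ * ‖x‖) ^ 2 = (‖x‖ ^ 2)⁻¹ := by
    field_simp
  rw [this, inv_inv, mul_inv_cancel₀ (pow_ne_zero 2 h), one_smul]

theorem norm_inv4 (x : E4) : ‖inv4 x‖ = ‖x‖⁻¹ := by
  unfold inv4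
  rw [norm_smul, norm_inv, norm_pow, norm_norm]
  by_cases h : ‖x‖ = 0
  · simp [h]
  · field_simp

theorem inv4_ne {x : E4} (hx : x ≠ 0) : inv4 x ≠ 0 := by
  rw [← norm_ne_zero_iff, norm_inv4]
  exact inv_ne_zero (norm_ne_zero_iff.2 hx)

theorem inv4_lin (O : E4 ≃ₗᵢ[ℝ] E4) (x : E4) : inv4 (O x) = O (inv4 x) := by
  unfold inv4
  rw [O.norm_map, map_smul]

private theorem ncs_inv4_smooth : ContDiffOn ℝ ∞ inv4 {x | x ≠ 0} := by
  have h1 : ContDiff ℝ ∞ fun x : E4 => ‖x‖ ^ 2 := contDiff_norm_sq ℝ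
  exact (h1.contDiffOn.inv fun x hx => pow_ne_zero 2 (norm_ne_zero_iff.2 hx)).smul contDiffOn_id

private noncomputable def ncs_invP : PartialDiffeomorph (𝓡 4) (𝓡 4) E4 E4 ∞ where
  toFun := inv4
  invFun := inv4
  source := {x | x ≠ 0}
  target := {x | x ≠ 0}
  map_source' _ hx := inv4_ne hx
  map_target' _ hx := inv4_ne hx
  left_inv' _ hx := inv4_inv4 hx
  right_inv' _ hx := inv4_inv4 hx
  open_source := isOpen_ne
  open_target := isOpen_ne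
  contMDiffOn_toFun := ncs_inv4_smooth.contMDiffOn
  contMDiffOn_invFun := ncs_inv4_smooth.contMDiffOn

theorem inv4_ld {x : E4} (hx : x ≠ 0) : IsLocalDiffeomorphAt (𝓡 4) (𝓡 4) ∞ inv4 x :=
  ⟨ncs_invP, hx, fun _ _ => rfl⟩

/-! the two stereographic parametrisations, `s = ± 1` -/

private noncomputable def ncs_nV (s : ℝ) (y : E4) : E5 :=
  (1 + ‖y‖ ^ 2)⁻¹ • !₂[2 * y 0, 2 * y 1, 2 * y 2, 2 * y 3, s * (1 - ‖y‖ ^ 2)]

private noncomputable def ncs_pV (s : ℝ) (z : E5) : E4 := (1 + s * z 4)⁻¹ • !₂[z 0, z 1, z 2, z 3]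

private theorem ncs_nV0 (s : ℝ) (y : E4) : ncs_nV s y 0 = (1 + ‖y‖ ^ 2)⁻¹ * (2 * y 0) := rfl
private theorem ncs_nV1 (s : ℝ) (y : E4) : ncs_nV s y 1 = (1 + ‖y‖ ^ 2)⁻¹ * (2 * y 1) := rfl
private theorem ncs_nV2 (s : ℝ) (y : E4) : ncs_nV s y 2 = (1 + ‖y‖ ^ 2)⁻¹ * (2 * y 2) := rfl
private theorem ncs_nV3 (s : ℝ) (y : E4) : ncs_nV s y 3 = (1 + ‖y‖ ^ 2)⁻¹ * (2 * y 3) := rfl
private theorem ncs_nV4 (s : ℝ) (y : E4) : ncs_nV s y 4 = (1 + ‖y‖ ^ 2)⁻¹ * (s * (1 - ‖y‖ ^ 2)) := rfl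
private theorem ncs_pV0 (s : ℝ) (z : E5) : ncs_pV s z 0 = (1 + s * z 4)⁻¹ * z 0 := rfl
private theorem ncs_pV1 (s : ℝ) (z : E5) : ncs_pV s z 1 = (1 + s * z 4)⁻¹ * z 1 := rfl
private theorem ncs_pV2 (s : ℝ) (z : E5) : ncs_pV s z 2 = (1 + s * z 4)⁻¹ * z 2 := rfl
private theorem ncs_pV3 (s : ℝ) (z : E5) : ncs_pV s z 3 = (1 + s * z 4)⁻¹ * z 3 := rfl

private theorem ncs_mem {s : ℝ} (hs : s * s = 1) (y : E4) : ncs_nV s y ∈ Metric.sphere (0 : E5) 1 := by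
  have h0 : 0 < 1 + ‖y‖ ^ 2 := by positivity
  have h1 := ncs_nsq y
  rw [mem_sphere_zero_iff_norm, ← sq_eq_sq₀ (norm_nonneg _) zero_le_one, ncs_nsq5, ncs_nV0, ncs_nV1, ncs_nV2, ncs_nV3,
    ncs_nV4]
  have h2 : (1 + ‖y‖ ^ 2)⁻¹ * (1 + ‖y‖ ^ 2) = 1 := inv_mul_cancel₀ h0.ne'
  have h3 : ((1 + ‖y‖ ^ 2)⁻¹ * (2 * y 0)) ^ 2 + ((1 + ‖y‖ ^ 2)⁻¹ * (2 * y 1)) ^ 2 + ((1 + ‖y‖ ^ 2)⁻¹ * (2 * y 2)) ^ 2 +
      ((1 + ‖y‖ ^ 2)⁻¹ * (2 * y 3)) ^ 2 + ((1 + ‖y‖ ^ 2)⁻¹ * (s * (1 - ‖y‖ ^ 2))) ^ 2 =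
      ((1 + ‖y‖ ^ 2)⁻¹) ^ 2 * (4 * (y 0 ^ 2 + y 1 ^ 2 + y 2 ^ 2 + y 3 ^ 2) + (s * s) * (1 - ‖y‖ ^ 2) ^ 2) := by ring
  rw [h3, ← h1, hs]
  have h4 : ((1 + ‖y‖ ^ 2)⁻¹) ^ 2 * (4 * ‖y‖ ^ 2 + 1 * (1 - ‖y‖ ^ 2) ^ 2) = ((1 + ‖y‖ ^ 2)⁻¹ * (1 + ‖y‖ ^ 2)) ^ 2 := by ring
  rw [h4, h2]

private noncomputable def ncs_n {s : ℝ} (hs : s * s = 1) (y : E4) : S4 := ⟨ncs_nV s y, ncs_mem hs y⟩

private theorem ncs_den {s : ℝ} (hs : s * s = 1) (y : E4) : 1 + s * ncs_nV s y 4 = 2 * (1 + ‖y‖ ^ 2)⁻¹ := by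
  have h0 : 0 < 1 + ‖y‖ ^ 2 := by positivity
  have h2 : (1 + ‖y‖ ^ 2)⁻¹ * (1 + ‖y‖ ^ 2) = 1 := inv_mul_cancel₀ h0.ne'
  rw [ncs_nV4]
  linear_combination (1 + ‖y‖ ^ 2)⁻¹ * (1 - ‖y‖ ^ 2) * hs - h2

private theorem ncs_den_ne {s : ℝ} (hs : s * s = 1) (y : E4) : 1 + s * ncs_nV s y 4 ≠ 0 := by
  rw [ncs_den hs]
  have h0 : 0 < 1 + ‖y‖ ^ 2 := by positivity
  positivity

private theorem ncs_pn {s : ℝ} (hs : s * s = 1) (y : E4) : ncs_pV s (ncs_nV s y) = y := by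
  have h0 : 0 < 1 + ‖y‖ ^ 2 := by positivity
  ext i
  fin_cases i
  · change ncs_pV s (ncs_nV s y) 0 = y 0
    rw [ncs_pV0, ncs_den hs, ncs_nV0]
    field_simp
  · change ncs_pV s (ncs_nV s y) 1 = y 1
    rw [ncs_pV1, ncs_den hs, ncs_nV1]
    field_simp
  · change ncs_pV s (ncs_nV s y) 2 = y 2
    rw [ncs_pV2, ncs_den hs, ncs_nV2]
    field_simp
  · change ncs_pV s (ncs_nV s y) 3 = y 3
    rw [ncs_pV3, ncs_den hs, ncs_nV3]
    field_simp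

private theorem ncs_pnorm {s : ℝ} (hs : s * s = 1) (z : S4) (hz : 1 + s * z.1 4 ≠ 0) :
    (1 + ‖ncs_pV s z.1‖ ^ 2)⁻¹ = (1 + s * z.1 4) / 2 ∧ 1 - ‖ncs_pV s z.1‖ ^ 2 = 2 * (s * z.1 4) / (1 + s * z.1 4) := by
  have h1 : ‖ncs_pV s z.1‖ ^ 2 = (1 - s * z.1 4) / (1 + s * z.1 4) := by
    rw [ncs_nsq, ncs_pV0, ncs_pV1, ncs_pV2, ncs_pV3, eq_div_iff hz]
    have h2 : (1 + s * z.1 4)⁻¹ * (1 + s * z.1 4) = 1 := inv_mul_cancel₀ hz
    have h3 := ncs_one z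
    have h4 : z.1 0 ^ 2 + z.1 1 ^ 2 + z.1 2 ^ 2 + z.1 3 ^ 2 = (1 - s * z.1 4) * (1 + s * z.1 4) := by
      linear_combination h3 + z.1 4 ^ 2 * hs
    calc (((1 + s * z.1 4)⁻¹ * z.1 0) ^ 2 + ((1 + s * z.1 4)⁻¹ * z.1 1) ^ 2 + ((1 + s * z.1 4)⁻¹ * z.1 2) ^ 2 +
          ((1 + s * z.1 4)⁻¹ * z.1 3) ^ 2) * (1 + s * z.1 4)
        = ((1 + s * z.1 4)⁻¹ * (1 + s * z.1 4)) * (1 + s * z.1 4)⁻¹ *
          (z.1 0 ^ 2 + z.1 1 ^ 2 + z.1 2 ^ 2 + z.1 3 ^ 2) := by ring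
      _ = ((1 + s * z.1 4)⁻¹ * (1 + s * z.1 4)) * ((1 + s * z.1 4)⁻¹ * (1 + s * z.1 4)) * (1 - s * z.1 4) := by
          rw [h4]; ring
      _ = 1 - s * z.1 4 := by rw [h2]; ring
  constructor
  · rw [h1]
    have : 1 + (1 - s * z.1 4) / (1 + s * z.1 4) = 2 / (1 + s * z.1 4) := by
      field_simp
      ring
    rw [this, inv_div]
  · rw [h1]
    field_simp
    ring

private theorem ncs_np {s : ℝ} (hs : s * s = 1) (z : S4) (hz : 1 + s * z.1 4 ≠ 0) : ncs_n hs (ncs_pV s z.1) = z := by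
  obtain ⟨h1, h2⟩ := ncs_pnorm hs z hz
  apply Subtype.ext
  change ncs_nV s (ncs_pV s z.1) = z.1
  ext i
  fin_cases i
  · change ncs_nV s (ncs_pV s z.1) 0 = z.1 0
    rw [ncs_nV0, ncs_pV0, h1]
    field_simp
  · change ncs_nV s (ncs_pV s z.1) 1 = z.1 1
    rw [ncs_nV1, ncs_pV1, h1]
    field_simp
  · change ncs_nV s (ncs_pV s z.1) 2 = z.1 2
    rw [ncs_nV2, ncs_pV2, h1]
    field_simp
  · change ncs_nV s (ncs_pV s z.1) 3 = z.1 3
    rw [ncs_nV3, ncs_pV3, h1]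
    field_simp
  · change ncs_nV s (ncs_pV s z.1) 4 = z.1 4
    rw [ncs_nV4, h1, h2]
    have : (1 + s * z.1 4) / 2 * (s * (2 * (s * z.1 4) / (1 + s * z.1 4))) = (s * s) * z.1 4 := by
      field_simp
    rw [this, hs, one_mul]

private theorem ncs_nV_smooth (s : ℝ) : ContDiff ℝ ∞ (ncs_nV s) := by
  have h1 : ContDiff ℝ ∞ fun x : E4 => ‖x‖ ^ 2 := contDiff_norm_sq ℝ
  have hc : ∀ i : Fin 4, ContDiff ℝ ∞ fun x : E4 => x i := fun i => (EuclideanSpace.proj i : E4 →L[ℝ] ℝ).contDiff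
  refine ((contDiff_const.add h1).inv fun x => ?_).smul ?_
  · have : 0 < 1 + ‖x‖ ^ 2 := by positivity
    exact this.ne'
  · rw [contDiff_euclidean]
    intro i
    fin_cases i
    · exact contDiff_const.mul (hc 0)
    · exact contDiff_const.mul (hc 1)
    · exact contDiff_const.mul (hc 2)
    · exact contDiff_const.mul (hc 3)
    · exact contDiff_const.mul (contDiff_const.sub h1)

private theorem ncs_n_smooth {s : ℝ} (hs : s * s = 1) : ContMDiff (𝓡 4) (𝓡 4) ∞ (ncs_n hs) := by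
  have : Fact (Module.finrank ℝ E5 = 4 + 1) := ⟨by simp⟩
  exact (ncs_nV_smooth s).contMDiff.codRestrict_sphere (ncs_mem hs)

private theorem ncs_pV_smooth (s : ℝ) : ContDiffOn ℝ ∞ (ncs_pV s) {z | 1 + s * z 4 ≠ 0} := by
  have hc : ∀ i : Fin 5, ContDiff ℝ ∞ fun x : E5 => x i := fun i => (EuclideanSpace.proj i : E5 →L[ℝ] ℝ).contDiff
  refine ContDiffOn.smul (ContDiffOn.inv (contDiff_const.add (contDiff_const.mul (hc 4))).contDiffOn fun x hx => hx) ?_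
  apply ContDiff.contDiffOn
  rw [contDiff_euclidean]
  intro i
  fin_cases i
  · exact hc 0
  · exact hc 1
  · exact hc 2
  · exact hc 3

private theorem ncs_open (s : ℝ) : IsOpen {z : S4 | 1 + s * z.1 4 ≠ 0} := by
  have h : Continuous fun z : S4 => 1 + s * z.1 4 := by
    have h1 : Continuous fun z : E5 => z 4 := (EuclideanSpace.proj 4 : E5 →L[ℝ] ℝ).continuous
    exact continuous_const.add (continuous_const.mul (h1.comp continuous_subtype_val))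
  exact isOpen_ne_fun h continuous_const

private theorem ncs_p_smooth (s : ℝ) : ContMDiffOn (𝓡 4) (𝓡 4) ∞ (fun z : S4 => ncs_pV s z.1) {z | 1 + s * z.1 4 ≠ 0} := by
  have : Fact (Module.finrank ℝ E5 = 4 + 1) := ⟨by simp⟩
  have h1 : ContMDiff (𝓡 4) 𝓘(ℝ, E5) ∞ (fun v : S4 => v.1) := contMDiff_coe_sphere
  exact (ncs_pV_smooth s).contMDiffOn.comp h1.contMDiffOn fun z hz => hz

private noncomputable def ncs_P {s : ℝ} (hs : s * s = 1) : PartialDiffeomorph (𝓡 4) (𝓡 4) S4 E4 ∞ where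
  toFun z := ncs_pV s z.1
  invFun := ncs_n hs
  source := {z | 1 + s * z.1 4 ≠ 0}
  target := univ
  map_source' _ _ := mem_univ _
  map_target' x _ := ncs_den_ne hs x
  left_inv' z hz := ncs_np hs z hz
  right_inv' x _ := ncs_pn hs x
  open_source := ncs_open s
  open_target := isOpen_univ
  contMDiffOn_toFun := ncs_p_smooth s
  contMDiffOn_invFun := (ncs_n_smooth hs).contMDiffOn

private theorem ncs_st (y : E4) : st y = ncs_n (s := 1) (by norm_num) y := by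
  apply Subtype.ext
  change stV y = ncs_nV 1 y
  unfold stV ncs_nV
  rw [one_mul]

private theorem ncs_st' (z : S4) : st' z = ncs_pV (-1) z.1 := by
  unfold st' ncs_pV
  congr 2
  ring

theorem st_ball : ∃ s : S4 → E4, IsBall st s ∧ range st = {z : S4 | z.1 4 ≠ -1} := by
  have hst : st = ncs_n (s := 1) (by norm_num) := funext ncs_st
  have hr : range st = {z : S4 | z.1 4 ≠ -1} := by
    ext z
    constructor
    · rintro ⟨y, rfl⟩ h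
      have := ncs_den_ne (s := 1) (by norm_num) y
      rw [hst] at h
      change ncs_nV 1 y 4 = -1 at h
      rw [h] at this
      norm_num at this
    · intro hz
      have hz' : 1 + 1 * z.1 4 ≠ 0 := by
        intro h
        exact hz (by linarith)
      rw [hst]
      exact ⟨ncs_pV 1 z.1, ncs_np _ z hz'⟩
  refine ⟨fun z => ncs_pV 1 z.1, ⟨?_, ?_, ?_, ?_⟩, hr⟩
  · intro x
    rw [hst]
    exact ncs_pn (by norm_num) x
  · rw [hst]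
    exact ncs_n_smooth _
  · rw [hr]
    refine (ncs_p_smooth 1).mono ?_
    intro z hz h
    exact hz (by linarith)
  · rw [hr]
    have := ncs_open 1
    convert this using 1
    ext z
    simp only [mem_ofPred_eq, ne_eq, not_iff_not]
    constructor
    · intro h; rw [h]; norm_num
    · intro h; linarith

theorem st'_st {y : E4} (hy : y ≠ 0) : st' (st y) = inv4 y := by
  have h : ‖y‖ ≠ 0 := norm_ne_zero_iff.2 hy
  have h0 : 0 < 1 + ‖y‖ ^ 2 := by positivity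
  rw [ncs_st, ncs_st']
  change ncs_pV (-1) (ncs_nV 1 y) = inv4 y
  have hd : 1 + (-1) * ncs_nV 1 y 4 = 2 * ‖y‖ ^ 2 * (1 + ‖y‖ ^ 2)⁻¹ := by
    rw [ncs_nV4]
    field_simp
    ring
  ext i
  fin_cases i
  · change ncs_pV (-1) (ncs_nV 1 y) 0 = (‖y‖ ^ 2)⁻¹ * y 0
    rw [ncs_pV0, hd, ncs_nV0]
    field_simp
  · change ncs_pV (-1) (ncs_nV 1 y) 1 = (‖y‖ ^ 2)⁻¹ * y 1
    rw [ncs_pV1, hd, ncs_nV1]
    field_simp
  · change ncs_pV (-1) (ncs_nV 1 y) 2 = (‖y‖ ^ 2)⁻¹ * y 2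
    rw [ncs_pV2, hd, ncs_nV2]
    field_simp
  · change ncs_pV (-1) (ncs_nV 1 y) 3 = (‖y‖ ^ 2)⁻¹ * y 3
    rw [ncs_pV3, hd, ncs_nV3]
    field_simp

private theorem ncs_pole {z : S4} : z ≠ st 0 ↔ 1 + (-1) * z.1 4 ≠ 0 := by
  rw [not_iff_not]
  have h0 : (st 0).1 = !₂[0, 0, 0, 0, 1] := by
    change stV 0 = _
    unfold stV
    ext i
    fin_cases i <;> simp
  constructor
  · intro h
    rw [h, h0]
    simp
  · intro h
    have h4 : z.1 4 = 1 := by linarith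
    have h1 := ncs_one z
    rw [h4] at h1
    have h2 : z.1 0 ^ 2 + z.1 1 ^ 2 + z.1 2 ^ 2 + z.1 3 ^ 2 = 0 := by linarith
    have e0 : z.1 0 = 0 := by nlinarith [sq_nonneg (z.1 0), sq_nonneg (z.1 1), sq_nonneg (z.1 2), sq_nonneg (z.1 3)]
    have e1 : z.1 1 = 0 := by nlinarith [sq_nonneg (z.1 0), sq_nonneg (z.1 1), sq_nonneg (z.1 2), sq_nonneg (z.1 3)]
    have e2 : z.1 2 = 0 := by nlinarith [sq_nonneg (z.1 0), sq_nonneg (z.1 1), sq_nonneg (z.1 2), sq_nonneg (z.1 3)]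
    have e3 : z.1 3 = 0 := by nlinarith [sq_nonneg (z.1 0), sq_nonneg (z.1 1), sq_nonneg (z.1 2), sq_nonneg (z.1 3)]
    apply Subtype.ext
    rw [h0]
    ext i
    fin_cases i
    · exact e0
    · exact e1
    · exact e2
    · exact e3
    · exact h4

theorem st'_ld {z : S4} (hz : z ≠ st 0) : IsLocalDiffeomorphAt (𝓡 4) (𝓡 4) ∞ st' z :=
  ⟨ncs_P (s := -1) (by norm_num), ncs_pole.1 hz, fun x _ => ncs_st' x⟩

theorem st'_inj {z z' : S4} (hz : z ≠ st 0) (hz' : z' ≠ st 0) (h : st' z = st' z') : z = z' := by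
  rw [ncs_st', ncs_st'] at h
  rw [← ncs_np (s := -1) (by norm_num) z (ncs_pole.1 hz), ← ncs_np (s := -1) (by norm_num) z' (ncs_pole.1 hz'), h]

theorem st'_surj (x : E4) : ∃ z : S4, z ≠ st 0 ∧ st' z = x := by
  refine ⟨ncs_n (s := -1) (by norm_num) x, ncs_pole.2 (ncs_den_ne (by norm_num) x), ?_⟩
  rw [ncs_st']
  exact ncs_pn (by norm_num) x

theorem st'_st_eq {z : S4} (hz : z ≠ st 0) (h : st' z ≠ 0) : z = st (inv4 (st' z)) := by
  have h1 : st (inv4 (st' z)) ≠ st 0 := by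
    obtain ⟨s, hs, -⟩ := st_ball
    intro h2
    exact inv4_ne h (hs.inj h2)
  apply st'_inj hz h1
  rw [st'_st (inv4_ne h), inv4_inv4 h]

private noncomputable def ncs_sph (O : E5 ≃ₗᵢ[ℝ] E5) : S4 ≃ₘ⟮𝓡 4, 𝓡 4⟯ S4 where
  toFun v := ⟨O v.1, by rw [mem_sphere_zero_iff_norm, O.norm_map]; exact norm_eq_of_mem_sphere v⟩
  invFun v := ⟨O.symm v.1, by rw [mem_sphere_zero_iff_norm, O.symm.norm_map]; exact norm_eq_of_mem_sphere v⟩
  left_inv v := Subtype.ext (O.symm_apply_apply v.1)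
  right_inv v := Subtype.ext (O.apply_symm_apply v.1)
  contMDiff_toFun := by
    have : Fact (Module.finrank ℝ E5 = 4 + 1) := ⟨by simp⟩
    have h1 : ContMDiff (𝓡 4) 𝓘(ℝ, E5) ∞ (fun v : S4 => O v.1) :=
      (O.toContinuousLinearEquiv.contDiff.contMDiff).comp contMDiff_coe_sphere
    exact h1.codRestrict_sphere _
  contMDiff_invFun := by
    have : Fact (Module.finrank ℝ E5 = 4 + 1) := ⟨by simp⟩
    have h1 : ContMDiff (𝓡 4) 𝓘(ℝ, E5) ∞ (fun v : S4 => O.symm v.1) :=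
      (O.symm.toContinuousLinearEquiv.contDiff.contMDiff).comp contMDiff_coe_sphere
    exact h1.codRestrict_sphere _

/-- the rotation group is transitive on the sphere -/
theorem rot_trans (z z' : S4) : ∃ G : S4 ≃ₘ⟮𝓡 4, 𝓡 4⟯ S4, G z = z' := by
  -- `Submodule.reflection_sub` : the reflection in the hyperplane orthogonal to `z - z'` exchanges `z` and `z'`; a linear isometry induces a diffeomorphism of the sphere (`srg_sph` in `ACB/Srg.lean` for `S2`)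
  refine ⟨ncs_sph (Submodule.reflection (ℝ ∙ (z.1 - z'.1))ᗮ), ?_⟩
  apply Subtype.ext
  change (Submodule.reflection (ℝ ∙ (z.1 - z'.1))ᗮ) z.1 = z'.1
  apply Submodule.reflection_sub
  rw [norm_eq_of_mem_sphere z, norm_eq_of_mem_sphere z']

end Pool.Agent.MMV
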