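import Pool.Agent.MMV.NCg
import Pool.Agent.MMV.NCs

/-!
# MMV/NCe: the connected sum exists   (block VI, squad N)

PROOF.  `glue_mfd2` with `X₀ = {b 0}ᶜ`, `Y = {c 0}ᶜ`, `Y₁ = c '' {y | y ≠ 0}` (open: `c` is open, injective), `θ (c y) = b (inv4 y)`, that is `θ = b ∘ inv4 ∘ c'`.  Local diffeomorphism: `IsBall` maps are local diffeomorphisms, `inv4_ld`.
`hsep`: `m ≠ c 0`, `m ∉ Y₁`, so `m ∉ range c`; `x ≠ b 0`: there is `r > 0` with `x ∉ b '' closedBall 0 r` (if `x = b x₀` take `r = |x₀| / 2`, otherwise `r = 1`); `W` = the complement of the compact `b '' closedBall 0 r`, `U` = the complement of the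
compact `c '' closedBall 0 (1 / r)` (`m ∈ U` because `m ∉ range c`): for `z ∈ U ∩ Y₁`: `z = c y`, `|y| > 1 / r`, `θ z = b (inv4 y)`, `|inv4 y| < r` (`norm_inv4`), so `θ z ∉ W`.
`CSum`: `jN = A`, `jM = B`; `glue`: `x ≠ 0`: `jM (c (inv4 x)) = A (θ (c (inv4 x))) = A (b (inv4 (inv4 x))) = A (b x)`.  `sep`: `A p = B m`: `m ∈ Y₁` (otherwise excluded), `m = c y`, `A p = A (θ m)`, so `p = θ m = b (inv4 y)`; `x = inv4 y`.
`X₀` is not empty: `b x`, `x ≠ 0`.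
-/

open scoped ContDiff Manifold Topology unitInterval
open Set Filter
open Pool.Agent.ACB

namespace Pool.Agent.MMV

/-- the inverse of a ball is a local diffeomorphism -/
theorem nce_inv_loc {M : Type} [TopologicalSpace M] [ChartedSpace E4 M] {c : E4 → M} {c' : M → E4} (hc : IsBall c c')
    (y : E4) : IsLocalDiffeomorphAt (𝓡 4) (𝓡 4) ∞ c' (c y) := by
  refine ⟨⟨⟨c', c, range c, univ, fun _ _ => mem_univ _, fun x _ => ⟨x, rfl⟩, fun y hy => hc.right_inv hy,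
    fun x _ => hc.left_inv x⟩, hc.isOpen, isOpen_univ, hc.smooth', hc.smooth.contMDiffOn⟩, ⟨y, rfl⟩, fun _ _ => rfl⟩

theorem csum_exists {N M : Type} [TopologicalSpace N] [ChartedSpace E4 N] [TopologicalSpace M] [ChartedSpace E4 M]
    [T2Space N] [IsManifold (𝓡 4) ∞ N] [T2Space M] [IsManifold (𝓡 4) ∞ M] {b : E4 → N} {b' : N → E4}
    (hb : IsBall b b') {c : E4 → M} {c' : M → E4} (hc : IsBall c c') :
    ∃ (Z : Type) (_ : TopologicalSpace Z) (_ : ChartedSpace E4 Z), IsManifold (𝓡 4) ∞ Z ∧ T2Space Z ∧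
      Nonempty (CSum b c Z) := by
  classical
  have : Nonempty M := ⟨c 0⟩
  have hX : IsOpen ({b 0}ᶜ : Set N) := isOpen_compl_singleton
  have hY : IsOpen ({c 0}ᶜ : Set M) := isOpen_compl_singleton
  have hY₁ : IsOpen (c '' {y | y ≠ 0}) := hc.isOpen_image isOpen_ne
  have hs : c '' {y | y ≠ 0} ⊆ ({c 0}ᶜ : Set M) := by
    rintro _ ⟨y, hy, rfl⟩ h
    exact hy (hc.inj h)
  have hne : ({b 0}ᶜ : Set N).Nonempty := by
    obtain ⟨x, hx⟩ := exists_ne (0 : E4)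
    exact ⟨b x, fun h => hx (hb.inj h)⟩
  have hθc : ∀ y, b (inv4 (c' (c y))) = b (inv4 y) := fun y => by rw [hc.left_inv]
  have hθ : ∀ y ∈ c '' {y | y ≠ 0}, IsLocalDiffeomorphAt (𝓡 4) (𝓡 4) ∞ (fun m => b (inv4 (c' m))) y := by
    rintro _ ⟨y, hy, rfl⟩
    have h1 : IsLocalDiffeomorphAt (𝓡 4) (𝓡 4) ∞ (inv4 ∘ c') (c y) :=
      IsLocalDiffeomorphAt.comp (hf := nce_inv_loc hc y) (hg := by rw [hc.left_inv]; exact inv4_ld hy) ..
    exact IsLocalDiffeomorphAt.comp (hf := h1) (hg := hb.loc _) ..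
  have hθi : InjOn (fun m => b (inv4 (c' m))) (c '' {y | y ≠ 0}) := by
    rintro _ ⟨y, hy, rfl⟩ _ ⟨z, hz, rfl⟩ h
    simp only [hc.left_inv] at h
    have h2 := hb.inj h
    have h3 := congrArg inv4 h2
    rw [inv4_inv4 hy, inv4_inv4 hz] at h3
    rw [h3]
  have hθX : MapsTo (fun m => b (inv4 (c' m))) (c '' {y | y ≠ 0}) ({b 0}ᶜ : Set N) := by
    rintro _ ⟨y, hy, rfl⟩ h
    simp only [hc.left_inv, mem_singleton_iff] at h
    exact inv4_ne hy (hb.inj h)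
  have hsep : ∀ y ∈ ({c 0}ᶜ : Set M), y ∉ c '' {y | y ≠ 0} → ∀ x ∈ ({b 0}ᶜ : Set N),
      ∃ U ∈ 𝓝 y, ∃ W ∈ 𝓝 x, ∀ z ∈ U, z ∈ c '' {y | y ≠ 0} → (fun m => b (inv4 (c' m))) z ∉ W := by
    intro m hm hm1 x hx
    have hmr : m ∉ range c := by
      rintro ⟨y, rfl⟩
      by_cases h0 : y = 0
      · subst h0
        exact hm rfl
      · exact hm1 ⟨y, h0, rfl⟩
    obtain ⟨r, hr, hxr⟩ : ∃ r : ℝ, 0 < r ∧ x ∉ b '' Metric.closedBall 0 r := by
      by_cases h : x ∈ range b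
      · obtain ⟨x₀, rfl⟩ := h
        have h0 : x₀ ≠ 0 := by
          rintro rfl
          exact hx rfl
        have h1 : 0 < ‖x₀‖ := norm_pos_iff.2 h0
        refine ⟨‖x₀‖ / 2, by positivity, ?_⟩
        rintro ⟨y, hy, hyx⟩
        have := hb.inj hyx
        subst this
        rw [mem_closedBall_zero_iff] at hy
        linarith
      · exact ⟨1, one_pos, fun ⟨y, _, hy⟩ => h ⟨y, hy⟩⟩
    have hK1 : IsClosed (b '' Metric.closedBall 0 r) := ((isCompact_closedBall (0 : E4) r).image hb.cont).isClosed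
    have hK2 : IsClosed (c '' Metric.closedBall 0 r⁻¹) := ((isCompact_closedBall (0 : E4) r⁻¹).image hc.cont).isClosed
    refine ⟨(c '' Metric.closedBall 0 r⁻¹)ᶜ, hK2.isOpen_compl.mem_nhds fun ⟨y, _, hy⟩ => hmr ⟨y, hy⟩,
      (b '' Metric.closedBall 0 r)ᶜ, hK1.isOpen_compl.mem_nhds hxr, ?_⟩
    rintro _ hz ⟨y, hy, rfl⟩ hW
    simp only [hc.left_inv] at hW
    apply hW
    refine ⟨inv4 y, ?_, rfl⟩
    rw [mem_closedBall_zero_iff, norm_inv4]
    have h1 : r⁻¹ < ‖y‖ := by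
      by_contra hcon
      exact hz ⟨y, by rw [mem_closedBall_zero_iff]; exact not_lt.1 hcon, rfl⟩
    have h2 : (0 : ℝ) < r⁻¹ := inv_pos.2 hr
    have h3 := inv_anti₀ h2 h1.le
    rwa [inv_inv] at h3
  obtain ⟨V, tV, cV, hVm, hV2, A, B, hA, hAi, hB, hBi, hBA, hBne, hcov⟩ :=
    glue_mfd2 hX hne hY hY₁ hs hθ hθi hθX hsep
  refine ⟨V, tV, cV, hVm, hV2, ⟨{
    jN := A
    jM := B
    jN_loc := fun p hp => hA p hp
    jM_loc := fun m hm => hB m hm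
    jN_inj := fun p p' hp hp' h => hAi hp hp' h
    jM_inj := fun m m' hm hm' h => hBi hm hm' h
    glue := ?_
    sep := ?_
    cover := ?_ }⟩⟩
  · intro x hx
    have h := hBA (c (inv4 x)) ⟨inv4 x, inv4_ne hx, rfl⟩
    simp only [hc.left_inv, inv4_inv4 hx] at h
    exact h.symm
  · intro p m hp hm h
    by_cases hm1 : m ∈ c '' {y | y ≠ 0}
    · obtain ⟨y, hy, rfl⟩ := hm1
      have h1 := hBA (c y) ⟨y, hy, rfl⟩
      simp only [hc.left_inv] at h1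
      have hy' : inv4 y ≠ 0 := inv4_ne hy
      refine ⟨inv4 y, hy', ?_, by rw [inv4_inv4 hy]⟩
      exact hAi hp (fun h2 => hy' (hb.inj h2)) (h.trans h1)
    · exact absurd h.symm (hBne m hm hm1 p hp)
  · intro z
    rcases hcov z with ⟨p, hp, h⟩ | ⟨m, hm, h⟩
    · exact Or.inl ⟨p, hp, h⟩
    · exact Or.inr ⟨m, hm, h⟩

end Pool.Agent.MMV
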