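import Pool.Agent.MMV.NDefs

/-!
# MMV/NCg: gluing two manifolds   (block VI, squad N)

PROOF.  As `ACB.glue_mfd` (`ACB/GluM.lean`), with a second manifold `M` in place of `E4`: `glue_top` (`ACB/GluT.lean`, general) gives `V, A, B`; the family of charts is `{A.symm.trans e | e ∈ atlas E4 N} ∪ {B.symm.trans e | e ∈ atlas E4 M}`;
compatibility of `A.symm.trans e` and `B.symm.trans e'`: as in `gluM_smooth`, with the charts `e'` of `M` (smooth on their sources, inverses smooth) composed in; `mfd_of_family`.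
-/

open scoped ContDiff Manifold Topology unitInterval
open Set Filter
open Pool.Agent.ACB

namespace Pool.Agent.MMV

section helpers

variable {N M : Type} [TopologicalSpace N] [ChartedSpace E4 N] [TopologicalSpace M] [ChartedSpace E4 M]

/-- the charts of the glued manifold -/
def ncg_fam {V : Type} [TopologicalSpace V] (A : OpenPartialHomeomorph N V)
    (B : OpenPartialHomeomorph M V) : Set (OpenPartialHomeomorph V E4) :=
  {e | (∃ c ∈ atlas E4 N, e = A.symm.trans c) ∨ ∃ c ∈ atlas E4 M, e = B.symm.trans c}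

theorem ncg_chart [IsManifold (𝓡 4) ∞ N] {c : OpenPartialHomeomorph N E4} (hc : c ∈ atlas E4 N) :
    (∀ x ∈ c.source, ContMDiffAt (𝓡 4) (𝓡 4) ∞ c x) ∧ ∀ w ∈ c.target, ContMDiffAt (𝓡 4) (𝓡 4) ∞ c.symm w :=
  ⟨fun x hx => (contMDiffOn_of_mem_maximalAtlas (IsManifold.subset_maximalAtlas hc)).contMDiffAt
      (c.open_source.mem_nhds hx),
    fun w hw => (contMDiffOn_symm_of_mem_maximalAtlas (IsManifold.subset_maximalAtlas hc)).contMDiffAt
      (c.open_target.mem_nhds hw)⟩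

theorem ncg_same [IsManifold (𝓡 4) ∞ N] {V : Type} [TopologicalSpace V] (A : OpenPartialHomeomorph N V)
    {c c' : OpenPartialHomeomorph N E4} (hc : c ∈ atlas E4 N) (hc' : c' ∈ atlas E4 N) {w : E4}
    (hw : w ∈ ((A.symm.trans c).symm.trans (A.symm.trans c')).source) :
    ContMDiffAt (𝓡 4) (𝓡 4) ∞ ((A.symm.trans c).symm.trans (A.symm.trans c')) w := by
  have hopen := ((A.symm.trans c).symm.trans (A.symm.trans c')).open_source.mem_nhds hw
  have hw1 : w ∈ (A.symm.trans c).target := hw.1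
  have hw2 : A (c.symm w) ∈ (A.symm.trans c').source := hw.2
  have hwc : w ∈ c.target := hw1.1
  have hwA : c.symm w ∈ A.source := hw1.2
  have hx' : c.symm w ∈ c'.source := by
    have : A.symm (A (c.symm w)) ∈ c'.source := hw2.2
    rwa [A.left_inv hwA] at this
  have h1 : ContMDiffAt (𝓡 4) (𝓡 4) ∞ (c' ∘ c.symm) w :=
    ContMDiffAt.comp w ((ncg_chart hc').1 _ hx') ((ncg_chart hc).2 w hwc)
  refine h1.congr_of_eventuallyEq ?_
  filter_upwards [hopen] with z hz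
  have hzA : c.symm z ∈ A.source := hz.1.2
  show c' (A.symm (A (c.symm z))) = c' (c.symm z)
  rw [A.left_inv hzA]

theorem ncg_smooth [IsManifold (𝓡 4) ∞ N] [IsManifold (𝓡 4) ∞ M] {V : Type} [TopologicalSpace V]
    (A : OpenPartialHomeomorph N V) (B : OpenPartialHomeomorph M V) {Y₁ : Set M}
    (hY₁ : IsOpen Y₁) {θ : M → N} (hθ : ∀ y ∈ Y₁, IsLocalDiffeomorphAt (𝓡 4) (𝓡 4) ∞ θ y)
    (hθX : MapsTo θ Y₁ A.source) (hs : Y₁ ⊆ B.source) (hAB : ∀ y ∈ Y₁, B y = A (θ y))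
    (hAB' : ∀ y ∈ B.source, y ∉ Y₁ → B y ∉ A.target) :
    ∀ e ∈ ncg_fam A B, ∀ e' ∈ ncg_fam A B,
      ContDiffOn ℝ ∞ (e.symm.trans e') (e.symm.trans e').source := by
  have hin : ∀ y ∈ B.source, B y ∈ A.target → y ∈ Y₁ := by
    intro y hy hyA
    by_contra h
    exact hAB' y hy h hyA
  rintro e he e' he'
  intro w hw
  have hopen : (e.symm.trans e').source ∈ 𝓝 w := (e.symm.trans e').open_source.mem_nhds hw
  refine ContDiffAt.contDiffWithinAt ?_
  rw [← contMDiffAt_iff_contDiffAt]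
  rcases he with ⟨c, hc, rfl⟩ | ⟨c, hc, rfl⟩
  · rcases he' with ⟨c', hc', rfl⟩ | ⟨c', hc', rfl⟩
    · exact ncg_same A hc hc' hw
    · have hw1 : w ∈ (A.symm.trans c).target := hw.1
      have hw2 : A (c.symm w) ∈ (B.symm.trans c').source := hw.2
      have hwc : w ∈ c.target := hw1.1
      have hwA : c.symm w ∈ A.source := hw1.2
      have hw3 : A (c.symm w) ∈ B.target := hw2.1
      have hw4 : B.symm (A (c.symm w)) ∈ c'.source := hw2.2
      set y := B.symm (A (c.symm w)) with hy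
      have hyB : y ∈ B.source := B.map_target hw3
      have hBy : B y = A (c.symm w) := B.right_inv hw3
      have hyY : y ∈ Y₁ := hin y hyB (by rw [hBy]; exact A.map_source hwA)
      have hθy : θ y = c.symm w := by
        apply A.injOn (hθX hyY) hwA
        rw [← hAB y hyY, hBy]
      obtain ⟨Φ, hΦy, hΦ⟩ := hθ y hyY
      have hΦy' : Φ y = c.symm w := by rw [← hΦ hΦy, hθy]
      have hxT : c.symm w ∈ Φ.target := by
        rw [← hΦy']
        exact Φ.map_source hΦy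
      have hsy : Φ.symm (c.symm w) = y := by
        rw [← hΦy']
        exact Φ.left_inv hΦy
      have h2 : ContMDiffAt (𝓡 4) (𝓡 4) ∞ Φ.symm (c.symm w) :=
        Φ.symm.contMDiffOn_toFun.contMDiffAt (Φ.symm.open_source.mem_nhds hxT)
      have h3 : ContMDiffAt (𝓡 4) (𝓡 4) ∞ (Φ.symm ∘ c.symm) w :=
        ContMDiffAt.comp w h2 ((ncg_chart hc).2 w hwc)
      have h3y : (Φ.symm ∘ c.symm) w = y := hsy
      have h4 : ContMDiffAt (𝓡 4) (𝓡 4) ∞ c' ((Φ.symm ∘ c.symm) w) := by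
        rw [h3y]
        exact (ncg_chart hc').1 _ hw4
      have h5 : ContMDiffAt (𝓡 4) (𝓡 4) ∞ (c' ∘ (Φ.symm ∘ c.symm)) w := ContMDiffAt.comp w h4 h3
      refine h5.congr_of_eventuallyEq ?_
      have e1 : ∀ᶠ z in 𝓝 w, c.symm z ∈ Φ.target :=
        ((ncg_chart hc).2 w hwc).continuousAt.eventually (Φ.open_target.mem_nhds hxT)
      have e2 : ∀ᶠ z in 𝓝 w, Φ.symm (c.symm z) ∈ Y₁ := by
        have := h3.continuousAt.eventually (hY₁.mem_nhds (by
          show Φ.symm (c.symm w) ∈ Y₁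
          rw [hsy]
          exact hyY))
        exact this
      filter_upwards [hopen, e1, e2] with z hz hz1 hz2
      have hzA : c.symm z ∈ A.source := hz.1.2
      show c' (B.symm (A (c.symm z))) = c' (Φ.symm (c.symm z))
      have h4 : Φ.symm (c.symm z) ∈ Φ.source := Φ.map_target hz1
      have h5 : θ (Φ.symm (c.symm z)) = c.symm z := by
        rw [hΦ h4]
        exact Φ.right_inv hz1
      rw [← h5, ← hAB _ hz2, B.left_inv (hs hz2), h5]
  · rcases he' with ⟨c', hc', rfl⟩ | ⟨c', hc', rfl⟩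
    · have hw1 : w ∈ (B.symm.trans c).target := hw.1
      have hw2 : B (c.symm w) ∈ (A.symm.trans c').source := hw.2
      have hwc : w ∈ c.target := hw1.1
      have hwB : c.symm w ∈ B.source := hw1.2
      have hwY : c.symm w ∈ Y₁ := hin _ hwB hw2.1
      have hxc : θ (c.symm w) ∈ c'.source := by
        have : A.symm (B (c.symm w)) ∈ c'.source := hw2.2
        rwa [hAB _ hwY, A.left_inv (hθX hwY)] at this
      have h0 : ContMDiffAt (𝓡 4) (𝓡 4) ∞ (θ ∘ c.symm) w :=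
        ContMDiffAt.comp w (hθ _ hwY).contMDiffAt ((ncg_chart hc).2 w hwc)
      have h1 : ContMDiffAt (𝓡 4) (𝓡 4) ∞ (c' ∘ (θ ∘ c.symm)) w :=
        ContMDiffAt.comp w ((ncg_chart hc').1 _ hxc) h0
      refine h1.congr_of_eventuallyEq ?_
      have e2 : ∀ᶠ z in 𝓝 w, c.symm z ∈ Y₁ :=
        ((ncg_chart hc).2 w hwc).continuousAt.eventually (hY₁.mem_nhds hwY)
      filter_upwards [e2] with z hz
      show c' (A.symm (B (c.symm z))) = c' (θ (c.symm z))
      rw [hAB _ hz, A.left_inv (hθX hz)]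
    · exact ncg_same B hc hc' hw

theorem ncg_loc {V : Type} [TopologicalSpace V] [ChartedSpace E4 V] [IsManifold (𝓡 4) ∞ N]
    (A : OpenPartialHomeomorph N V) {x : N} (hx : x ∈ A.source)
    (hloc : ∀ v ∈ (A.symm.trans (chartAt E4 x)).source,
      IsLocalDiffeomorphAt (𝓡 4) (𝓡 4) ∞ (A.symm.trans (chartAt E4 x)) v) :
    IsLocalDiffeomorphAt (𝓡 4) (𝓡 4) ∞ A x := by
  have hc : IsLocalDiffeomorphAt (𝓡 4) (𝓡 4) ∞ (chartAt E4 x) x := by
    refine ⟨⟨(chartAt E4 x).toPartialEquiv, (chartAt E4 x).open_source,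
      (chartAt E4 x).open_target, contMDiffOn_chart, contMDiffOn_chart_symm⟩,
      mem_chart_source E4 x, fun _ _ => rfl⟩
  have hv : A x ∈ (A.symm.trans (chartAt E4 x)).source := by
    refine ⟨A.map_source hx, ?_⟩
    show A.symm (A x) ∈ (chartAt E4 x).source
    rw [A.left_inv hx]
    exact mem_chart_source E4 x
  refine gluM_right (g := A.symm.trans (chartAt E4 x)) ?_ (hloc _ hv) (A.continuousAt hx)
  refine gluM_congr hc ?_
  filter_upwards [A.open_source.mem_nhds hx] with z hz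
  show chartAt E4 x (A.symm (A z)) = chartAt E4 x z
  rw [A.left_inv hz]

end helpers

theorem glue_mfd2 {N M : Type} [TopologicalSpace N] [ChartedSpace E4 N] [TopologicalSpace M] [ChartedSpace E4 M]
    [T2Space N] [IsManifold (𝓡 4) ∞ N] [T2Space M] [IsManifold (𝓡 4) ∞ M] [Nonempty M] {X₀ : Set N}
    (hX : IsOpen X₀) (hne : X₀.Nonempty)
    {Y Y₁ : Set M} (hY : IsOpen Y) (hY₁ : IsOpen Y₁) (hs : Y₁ ⊆ Y) {θ : M → N}
    (hθ : ∀ y ∈ Y₁, IsLocalDiffeomorphAt (𝓡 4) (𝓡 4) ∞ θ y) (hθi : InjOn θ Y₁) (hθX : MapsTo θ Y₁ X₀)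
    (hsep : ∀ y ∈ Y, y ∉ Y₁ → ∀ x ∈ X₀, ∃ U ∈ 𝓝 y, ∃ W ∈ 𝓝 x, ∀ z ∈ U, z ∈ Y₁ → θ z ∉ W) :
    ∃ (V : Type) (_ : TopologicalSpace V) (_ : ChartedSpace E4 V), IsManifold (𝓡 4) ∞ V ∧ T2Space V ∧
      ∃ (A : N → V) (B : M → V), (∀ x ∈ X₀, IsLocalDiffeomorphAt (𝓡 4) (𝓡 4) ∞ A x) ∧ InjOn A X₀ ∧
        (∀ y ∈ Y, IsLocalDiffeomorphAt (𝓡 4) (𝓡 4) ∞ B y) ∧ InjOn B Y ∧ (∀ y ∈ Y₁, B y = A (θ y)) ∧
        (∀ y ∈ Y, y ∉ Y₁ → ∀ x ∈ X₀, B y ≠ A x) ∧ ∀ v, (∃ x ∈ X₀, v = A x) ∨ ∃ y ∈ Y, v = B y := by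
  have hθc : ContinuousOn θ Y₁ := fun y hy => (hθ y hy).contMDiffAt.continuousAt.continuousWithinAt
  have hθo : ∀ U ⊆ Y₁, IsOpen U → IsOpen (θ '' U) := by
    intro U hU hUo
    rw [isOpen_iff_mem_nhds]
    rintro _ ⟨y, hy, rfl⟩
    exact gluM_image_nhds (hθ y (hU hy)) (hUo.mem_nhds hy)
  obtain ⟨V, tV, A, B, hT2, hAs, hBs, hAB, hAB', hcov⟩ :=
    glue_top hX hne hY hY₁ hs hθc hθi hθo hθX hsep
  have hcov' : ∀ v, v ∈ A.target ∨ v ∈ B.target := fun v => by
    have : v ∈ A.target ∪ B.target := by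
      rw [hcov]
      exact mem_univ v
    exact this
  have hcharts : ∀ v, ∃ e ∈ ncg_fam A B, v ∈ e.source := by
    intro v
    rcases hcov' v with hv | hv
    · refine ⟨A.symm.trans (chartAt E4 (A.symm v)), Or.inl ⟨_, chart_mem_atlas E4 _, rfl⟩, ?_⟩
      exact ⟨hv, mem_chart_source E4 _⟩
    · refine ⟨B.symm.trans (chartAt E4 (B.symm v)), Or.inr ⟨_, chart_mem_atlas E4 _, rfl⟩, ?_⟩
      exact ⟨hv, mem_chart_source E4 _⟩
  have hsm := ncg_smooth A B hY₁ hθ (hAs ▸ hθX) (hBs ▸ hs) hAB (by rw [hBs]; exact hAB')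
  obtain ⟨cV, hmV, hloc⟩ := mfd_of_family (ncg_fam A B) hcharts hsm
  refine ⟨V, tV, cV, hmV, hT2, A, B, ?_, hAs ▸ A.injOn, ?_, hBs ▸ B.injOn, hAB, ?_, ?_⟩
  · intro x hx
    rw [← hAs] at hx
    exact ncg_loc A hx (fun v hv => hloc _ (Or.inl ⟨_, chart_mem_atlas E4 _, rfl⟩) v hv)
  · intro y hy
    rw [← hBs] at hy
    exact ncg_loc B hy (fun v hv => hloc _ (Or.inr ⟨_, chart_mem_atlas E4 _, rfl⟩) v hv)
  · intro y hy hyn x hx h
    apply hAB' y hy hyn
    rw [h]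
    exact A.map_source (by rw [hAs]; exact hx)
  · intro v
    rcases hcov' v with hv | hv
    · left
      refine ⟨A.symm v, ?_, (A.right_inv hv).symm⟩
      rw [← hAs]
      exact A.map_target hv
    · right
      refine ⟨B.symm v, ?_, (B.right_inv hv).symm⟩
      rw [← hBs]
      exact B.map_target hv

end Pool.Agent.MMV
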