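import Pool.Agent.MMV.NDefs

/-!
# MMV/NFz: surgeries along families, elementary lemmas   (block VI, squad N)

These are the lemmas of `ACB/Srg.lean`, `ACB/SrU.lean` for a finite index type `ι` in place of `Fin n` (`srg_germ` is already general; copy the proofs).

PROOFS.
* `isSurg_diffeoF`: as `isSurg_diffeo` (`ACB/Srg.lean`).
* `isSurg_XF`: as `isSurg_diffeo_X`: compose `A`, `Q` with `G`.
* `isSurg_reindexF`: `A` is the same, `Q' i = Q (e i)`, `Off` is the same (`e` is surjective); `Tubes`: `e` is injective.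
* `isSurg_uniqF`: restrict both to the smaller radius (`Tubes.mono`, `Surg.mono`), `surg_uniq`.
* `isSurg_revF`: `srg_mod` (`ACB/Srg.lean`, general `ι`) with `s j = -1` if `j = i`, `1` otherwise, `c j` = complex conjugation (`Complex.conjLIE`) or the identity, `O j` = the identity; see the proof of `isSurg_rev`.
  Then `fun j x => κ j (s j * x.1, x.2) = Function.update κ i _`.
* `tubes_consO`: the cores are compact (`core_compact`); the union of the cores of `κs` is compact (`isCompact_iUnion`), disjoint from the core of `κ`; `SeparatedNhds.of_isCompact_isCompact`, `thick_near` for `κ` and every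
  `κs i` (finite: take the minimum of the radii over `ι`, e.g. `Finite.exists_min`-free: `Finset.inf'` or induction, or use `Set.Finite`/`Filter.eventually_all` with `∀ᶠ δ in 𝓝[>] 0`); see `tubes_pair`.
-/

open scoped ContDiff Manifold Topology unitInterval
open Set Filter
open Pool.Agent.ACB

namespace Pool.Agent.MMV

variable {N : Type} [TopologicalSpace N] [ChartedSpace E4 N]

theorem isSurg_diffeoF {ι : Type} [Finite ι] {κ : ι → ℝ × E3 → N} {X : Type*} [TopologicalSpace X] [ChartedSpace E4 X]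
    (h : IsSurg κ X) {N' : Type} [TopologicalSpace N'] [ChartedSpace E4 N'] (F : N ≃ₘ⟮𝓡 4, 𝓡 4⟯ N') :
    IsSurg (fun i x => F (κ i x)) X := by
  obtain ⟨ε, hT, ⟨S⟩⟩ := h
  have hoff : ∀ p, Off (fun i x => F (κ i x)) p ↔ Off κ (F.symm p) := by
    intro p
    constructor
    · intro hp i l he
      apply hp i l
      change p = F (κ i (l, 0))
      rw [← he, F.apply_symm_apply]
    · intro hp i l he
      apply hp i l
      rw [he]
      change F.symm (F (κ i (l, 0))) = _
      rw [F.symm_apply_apply]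
  refine ⟨ε, ⟨fun i => ?_, ?_⟩, ⟨?_⟩⟩
  · exact thick_comp (hT.thick i) (U := univ) (fun _ _ _ => mem_univ _)
      (fun x _ => F.isLocalDiffeomorph x) F.injective.injOn
  · intro i j hij l v l' v' hv hv' he
    exact hT.disj i j hij l v l' v' hv hv' (F.injective he)
  · exact
      { A := S.A ∘ F.symm
        Q := S.Q
        A_loc := fun p hp => IsLocalDiffeomorphAt.comp (hf := F.symm.isLocalDiffeomorph p) (g := S.A)
          (hg := S.A_loc _ ((hoff p).mp hp))
        A_inj := by
          intro p p' hp hp' he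
          exact F.symm.injective (S.A_inj _ _ ((hoff p).mp hp) ((hoff p').mp hp') he)
        Q_loc := S.Q_loc
        glue := by
          intro i l r v hr hr'
          rw [S.glue i l r v hr hr']
          change _ = S.A (F.symm (F _))
          rw [F.symm_apply_apply]
        Q_inj := S.Q_inj
        disj := fun i v p hp => S.disj i v _ ((hoff p).mp hp)
        cover := by
          intro q
          rcases S.cover q with ⟨p, hp, he⟩ | h3
          · refine Or.inl ⟨F p, (hoff _).mpr ?_, ?_⟩
            · rw [F.symm_apply_apply]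
              exact hp
            · change q = S.A (F.symm (F p))
              rw [F.symm_apply_apply]
              exact he
          · exact Or.inr h3 }

theorem isSurg_XF {ι : Type} {κ : ι → ℝ × E3 → N} {X : Type*} [TopologicalSpace X] [ChartedSpace E4 X]
    (h : IsSurg κ X) {X' : Type*} [TopologicalSpace X'] [ChartedSpace E4 X'] (G : X ≃ₘ⟮𝓡 4, 𝓡 4⟯ X') :
    IsSurg κ X' := by
  obtain ⟨ε, hT, ⟨S⟩⟩ := h
  refine ⟨ε, hT, ⟨?_⟩⟩
  exact
    { A := G ∘ S.A
      Q := fun i => G ∘ S.Q i
      A_loc := fun p hp => IsLocalDiffeomorphAt.comp (hf := S.A_loc p hp) (g := G)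
        (hg := G.isLocalDiffeomorph _)
      A_inj := fun p p' hp hp' he => S.A_inj p p' hp hp' (G.injective he)
      Q_loc := fun i z v hz => IsLocalDiffeomorphAt.comp (hf := S.Q_loc i z v hz) (g := G)
        (hg := G.isLocalDiffeomorph _)
      glue := fun i l r v hr hr' => congrArg G (S.glue i l r v hr hr')
      Q_inj := fun i j v v' he => S.Q_inj i j v v' (G.injective he)
      disj := fun i v p hp he => S.disj i v p hp (G.injective he)
      cover := by
        intro q
        rcases S.cover (G.symm q) with ⟨p, hp, he⟩ | ⟨i, v, he⟩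
        · refine Or.inl ⟨p, hp, ?_⟩
          change q = G (S.A p)
          rw [← he, G.apply_symm_apply]
        · refine Or.inr ⟨i, v, ?_⟩
          change q = G (S.Q i (0, v))
          rw [← he, G.apply_symm_apply] }

theorem isSurg_reindexF {ι ι' : Type} (e : ι' ≃ ι) {κ : ι → ℝ × E3 → N} {X : Type*} [TopologicalSpace X]
    [ChartedSpace E4 X] (h : IsSurg κ X) : IsSurg (fun i => κ (e i)) X := by
  obtain ⟨ε, hT, ⟨S⟩⟩ := h
  have hoff : ∀ p, Off (fun i => κ (e i)) p ↔ Off κ p := by
    intro p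
    constructor
    · intro hp i l
      have := hp (e.symm i) l
      simp only [Equiv.apply_symm_apply] at this
      exact this
    · intro hp i l
      exact hp (e i) l
  refine ⟨ε, ⟨fun i => hT.thick (e i), ?_⟩, ⟨?_⟩⟩
  · intro i j hij l v l' v' hv hv'
    exact hT.disj (e i) (e j) (e.injective.ne hij) l v l' v' hv hv'
  · exact
      { A := S.A
        Q := fun i => S.Q (e i)
        A_loc := fun p hp => S.A_loc p ((hoff p).mp hp)
        A_inj := fun p p' hp hp' => S.A_inj p p' ((hoff p).mp hp) ((hoff p').mp hp')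
        Q_loc := fun i z v hz => S.Q_loc (e i) z v hz
        glue := fun i l r v hr hr' => S.glue (e i) l r v hr hr'
        Q_inj := by
          intro i j v v' he
          obtain ⟨h1, h2⟩ := S.Q_inj (e i) (e j) v v' he
          exact ⟨e.injective h1, h2⟩
        disj := fun i v p hp => S.disj (e i) v p ((hoff p).mp hp)
        cover := by
          intro q
          rcases S.cover q with ⟨p, hp, he⟩ | ⟨i, v, he⟩
          · exact Or.inl ⟨p, (hoff p).mpr hp, he⟩
          · refine Or.inr ⟨e.symm i, v, ?_⟩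
            simp only [Equiv.apply_symm_apply]
            exact he }

theorem isSurg_uniqF [T2Space N] {ι : Type} [Finite ι] {κ : ι → ℝ × E3 → N}
    {X : Type*} [TopologicalSpace X] [ChartedSpace E4 X] (h : IsSurg κ X)
    {X' : Type*} [TopologicalSpace X'] [ChartedSpace E4 X'] (h' : IsSurg κ X') :
    Nonempty (X ≃ₘ⟮𝓡 4, 𝓡 4⟯ X') := by
  obtain ⟨ε, hT, ⟨S⟩⟩ := h
  obtain ⟨ε', hT', ⟨S'⟩⟩ := h'
  by_cases hle : ε ≤ ε'
  · exact surg_uniq hT S (S'.mono hle)
  · exact surg_uniq hT' (S.mono (not_le.1 hle).le) S'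

theorem isSurg_revF {ι : Type} [DecidableEq ι] {κ : ι → ℝ × E3 → N} {X : Type*} [TopologicalSpace X]
    [ChartedSpace E4 X] (h : IsSurg κ X) (i : ι) :
    IsSurg (Function.update κ i fun x => κ i (-x.1, x.2)) X := by
  have hconj : ∀ r l : ℝ, Complex.conjLIE (r * ex l) = r * ex (-1 * l) := by
    intro r l
    rw [Complex.conjLIE_apply, map_mul, Complex.conj_ofReal]
    unfold ex
    rw [← Complex.exp_conj]
    congr 2
    rw [map_mul, Complex.conj_I, Complex.conj_ofReal]
    push_cast
    ring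
  have h1 := srg_mod h (fun j => if j = i then -1 else 1) (by
      intro j
      by_cases hj : j = i
      · right
        simp [hj]
      · left
        simp [hj]) (fun j => if j = i then Complex.conjLIE else LinearIsometryEquiv.refl ℝ ℂ) (by
      intro j r l
      by_cases hj : j = i
      · simp only [hj, if_true]
        exact hconj r l
      · simp only [hj, if_false]
        change (r * ex l : ℂ) = r * ex (1 * l)
        rw [one_mul]) (fun _ => LinearIsometryEquiv.refl ℝ E3)
  have h2 : (fun (j : ι) (x : ℝ × E3) => κ j ((if j = i then (-1 : ℝ) else 1) * x.1,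
      (LinearIsometryEquiv.refl ℝ E3) x.2)) = Function.update κ i fun x => κ i (-x.1, x.2) := by
    funext j x
    by_cases hj : j = i
    · subst hj
      simp
    · simp [hj]
  rw [h2] at h1
  exact h1

theorem tubes_consO [T2Space N] {ι : Type} [Finite ι] {κ : ℝ × E3 → N} {κs : ι → ℝ × E3 → N} {ε : ℝ}
    (h : Thick κ ε) (hs : ∀ i, Thick (κs i) ε)
    (hT : ∀ i j, i ≠ j → ∀ (l : ℝ) (v : E3) (l' : ℝ) (v' : E3), ‖v‖ < ε → ‖v'‖ < ε → κs i (l, v) ≠ κs j (l', v'))
    (hd : ∀ (i : ι) (l l' : ℝ), κ (l, 0) ≠ κs i (l', 0)) :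
    ∃ δ > 0, δ ≤ ε ∧ Tubes (consO κ κs) δ := by
  have hC : IsCompact (⋃ i, range (core (κs i))) := isCompact_iUnion fun i => core_compact (hs i)
  have hdis : Disjoint (range (core κ)) (⋃ i, range (core (κs i))) := by
    rw [Set.disjoint_left]
    rintro _ ⟨l, rfl⟩ hm
    obtain ⟨i, l', e⟩ := mem_iUnion.1 hm
    exact hd i l l' e.symm
  obtain ⟨U, W, hU, hW, hU', hW', hUW⟩ := SeparatedNhds.of_isCompact_isCompact (core_compact h) hC hdis
  obtain ⟨δ₁, hδ₁, hle₁, hn₁⟩ := thick_near h hU fun l => hU' ⟨l, rfl⟩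
  have h2 : ∀ i, ∃ δ > 0, δ ≤ ε ∧ ∀ (l : ℝ) (v : E3), ‖v‖ < δ → κs i (l, v) ∈ W := fun i =>
    thick_near (hs i) hW fun l => hW' (mem_iUnion.2 ⟨i, l, rfl⟩)
  choose d hd0 hdε hdW using h2
  obtain ⟨δ, hδ, hδ1, hδd⟩ : ∃ δ : ℝ, 0 < δ ∧ δ ≤ δ₁ ∧ ∀ i, δ ≤ d i := by
    have e1 : ∀ᶠ r in 𝓝[>] (0 : ℝ), ∀ i, r ≤ d i := by
      rw [Filter.eventually_all]
      intro i
      filter_upwards [Ioo_mem_nhdsGT (hd0 i)] with r hr
      exact hr.2.le
    have e2 : ∀ᶠ r in 𝓝[>] (0 : ℝ), 0 < r ∧ r ≤ δ₁ := by
      filter_upwards [Ioo_mem_nhdsGT hδ₁] with r hr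
      exact ⟨hr.1, hr.2.le⟩
    obtain ⟨r, hr1, hr2⟩ := (e1.and e2).exists
    exact ⟨r, hr2.1, hr2.2, hr1⟩
  have hδε : δ ≤ ε := hδ1.trans hle₁
  have key : ∀ (i : ι) (l : ℝ) (v : E3) (l' : ℝ) (v' : E3), ‖v‖ < δ → ‖v'‖ < δ →
      κ (l, v) ≠ κs i (l', v') := by
    intro i l v l' v' hv hv' e
    have h1 := hn₁ l v (lt_of_lt_of_le hv hδ1)
    have h3 := hdW i l' v' (lt_of_lt_of_le hv' (hδd i))
    rw [e] at h1
    exact Set.disjoint_left.mp hUW h1 h3
  refine ⟨δ, hδ, hδε, ⟨?_, ?_⟩⟩
  · rintro (_ | i)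
    · exact h.mono hδ hδε
    · exact (hs i).mono hδ hδε
  · rintro (_ | i) (_ | j) hij l v l' v' hv hv'
    · exact absurd rfl hij
    · exact key j l v l' v' hv hv'
    · exact fun e => key i l' v' l v hv' hv e.symm
    · exact hT i j (fun e => hij (congrArg some e)) l v l' v' (lt_of_lt_of_le hv hδε) (lt_of_lt_of_le hv' hδε)

end Pool.Agent.MMV
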