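import Pool.Agent.MMV.NCd
import Pool.Agent.MMV.NFz

/-!
# MMV/NCt: surgery on a connected sum, if the surgery on the second summand is `S⁴`   (block VI, squad N)

`Z = N # M`; `κ` thick circles in `N` off the unit ball of `b` with the result `X`, `ρ` thick circles in `M` off the unit ball of `c` with the result `S⁴`: then `X` is the result of the surgery on `Z` along all of them.

PROOF of `cs_surg`.  The cores of `ρ` are compact and disjoint from the compact `c '' closedBall 0 1`, so there is `R > 1` such that `c y` is off the circles `ρ` for `|y| < R` (finitely many circles).  `φ = S.A ∘ c` satisfies the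
hypotheses of `disc`; this gives `G, O, η` with `G (S.A (c y)) = st (O y)` for `|y| < 1 + η`; then `cs_surg_aux`.
PROOF of `cs_surg_aux`.  For `m ≠ c 0` off the circles `ρ` put `x (m) = O.symm (st' (G (S.A m))) ∈ E4` (`G (S.A m) ≠ st 0 = G (S.A (c 0))` since `S.A` is injective off the circles).  For `m = c y`, `0 < |y| < 1 + η`: `x (m) = inv4 y` (`st'_st`, `inv4_lin`).
(1) If `|x (m)| > 1 / (1 + η)` then `m = c y` with `y = inv4 (x (m))`, `0 < |y| < 1 + η`: `st'_st_eq`: `G (S.A m) = st (inv4 (O x)) = st (O y) = G (S.A (c y))`, injectivity of `G` and `S.A`.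
The same construction for the points of `S⁴`: `x' (z) = O.symm (st' (G z))`, `z ≠ S.A (c 0)`; `x'` is an injective local diffeomorphism `S4 ∖ {S.A (c 0)} → E4`, onto `E4` (`st'_surj`).
Define `T : Z → X`: `T (jN p) = SX.A p` if `p ≠ b 0` and `p ∉ b '' closedBall 0 (1 / (1 + η))`; `T (jM m) = SX.A (b (x (m)))` if `m ≠ c 0`, `m` off the circles `ρ` and `|x (m)| < 1`.  Consistent: if `jN p = jM m` then by `C.sep` `p = b x₀`,
`m = c (inv4 x₀)`, with `|x₀| > 1 / (1 + η)`, so `|inv4 x₀| < 1 + η` and `x (m) = x₀`.  Every point of `Z` (off the circles) is in one of the two domains: `jM m` with `|x (m)| ≥ 1`: by (1) `m = c y`, `|y| ≤ 1`, `jM m = jN (b (inv4 y))` and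
`|inv4 y| ≥ 1`; `jN p` with `p = b x₀`, `0 < |x₀| ≤ 1 / (1 + η)`: it is `jM (c (inv4 x₀))`, which is the case just treated or has `|x| < 1`.
`b x` is off the circles `κ` for `|x| ≤ 1` (`hκb` with `v = 0`), so `SX.A (b x)` is an injective local diffeomorphism there.
Surgery data: `A = T`, `Q (inl i) = SX.Q i`, `Q (inr j) (z, v) = SX.A (b (x' (S.Q j (z, v))))`.  For `‖z‖ < ε` we have `|x' (S.Q j (z, v))| < 1`: otherwise by the argument of (1) `S.Q j (z, v) = S.A (c y)` with `0 < |y| ≤ 1` (or it is `S.A (c 0)`), but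
`S.Q j (0, v) ≠ S.A _` (`S.disj`) and for `z ≠ 0` `S.Q j (z, v) = S.A (ρ j (l, r v))`, so `c y = ρ j (l, r v)`, against `hρc`.
Fields.  `Off (Sum.elim ..) (jN p)` iff `p` is off the `κ` (and, if `p = b x₀`, `c (inv4 x₀)` off the `ρ`: automatic for `|x₀| ≥ 1`, see `hρc`); similarly for `jM m`.  `A_loc`: both formulas are compositions of local diffeomorphisms (the map
`jN p ↦ p` is a local diffeomorphism near `jN p`: local inverse of `C.jN_loc`; use `cmt_quot` of `ACB/CmT.lean`).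
`A_inj`: two points with both formulas of the same kind: injectivity of `SX.A`, `b`, `x`; mixed: `SX.A p = SX.A (b (x (m)))` gives `p = b (x m)`, `1 / (1 + η) < |x (m)|`, so by (1) `m = c y`, `y = inv4 (x m)`, `jM m = jN (b (x m)) = jN p`.
`glue`: `inl`: `SX.glue`, `T (jN (κ i (l, r v))) = SX.A (κ i (l, r v))` (`hκb`).  `inr`: `S.glue`.  `Q_inj`, `disj`: as above.  `cover`: a point of `X` is `SX.Q i (0, v)` or `SX.A p` with `p` off the `κ`; if `p` is not in `b '' ball 0 1` it is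
`T (jN p)`; if `p = b x₀`, `|x₀| < 1`: `x₀ = x' (z)` for some `z ∈ S⁴`, `z ≠ S.A (c 0)`; `z = S.A m` (then `T (jM m)`) or `z = S.Q j (0, v)`.
`Tubes` of the union: `thick_comp` for `jN`, `jM`; disjointness of `jN (κ ..)` and `jM (ρ ..)` by `C.sep`, `hκb`, `hρc`: `κ i (..) = b x₀`, `ρ j (..) = c (inv4 x₀)`, one of `|x₀|`, `|inv4 x₀|` is `≤ 1`.
-/

open scoped ContDiff Manifold Topology unitInterval
open Set Filter
open Pool.Agent.ACB

namespace Pool.Agent.MMV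

variable {N M : Type} [TopologicalSpace N] [ChartedSpace E4 N] [TopologicalSpace M] [ChartedSpace E4 M]

theorem nct_or {x : E4} (hx : x ≠ 0) : ‖x‖ ≤ 1 ∨ ‖inv4 x‖ ≤ 1 := by
  rcases le_total ‖x‖ 1 with h | h
  · exact Or.inl h
  · right
    rw [norm_inv4]
    exact inv_le_one_of_one_le₀ h

theorem nct_b0 {b : E4 → N} : b 0 ∈ b '' Metric.closedBall 0 1 :=
  mem_image_of_mem b (Metric.mem_closedBall_self zero_le_one)

theorem cs_tubes {b : E4 → N} {b' : N → E4} (hb : IsBall b b') {c : E4 → M} {c' : M → E4} (hc : IsBall c c')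
    {Z : Type} [TopologicalSpace Z] [ChartedSpace E4 Z] (C : CSum b c Z) {ι ι' : Type}
    {κ : ι → ℝ × E3 → N} {ρ : ι' → ℝ × E3 → M} {ε : ℝ} (hκ : Tubes κ ε) (hρ : Tubes ρ ε)
    (hκb : ∀ (i : ι) (l : ℝ) (v : E3), ‖v‖ < ε → κ i (l, v) ∉ b '' Metric.closedBall 0 1)
    (hρc : ∀ (j : ι') (l : ℝ) (v : E3), ‖v‖ < ε → ρ j (l, v) ∉ c '' Metric.closedBall 0 1) :
    Tubes (Sum.elim (fun i x => C.jN (κ i x)) (fun j x => C.jM (ρ j x))) ε := by
  have hκ0 : ∀ (i : ι) (l : ℝ) (v : E3), ‖v‖ < ε → κ i (l, v) ≠ b 0 :=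
    fun i l v hv h => hκb i l v hv (h ▸ nct_b0)
  have hρ0 : ∀ (j : ι') (l : ℝ) (v : E3), ‖v‖ < ε → ρ j (l, v) ≠ c 0 :=
    fun j l v hv h => hρc j l v hv (h ▸ nct_b0)
  have hmix : ∀ (i : ι) (j : ι') (l : ℝ) (v : E3) (l' : ℝ) (v' : E3), ‖v‖ < ε → ‖v'‖ < ε →
      C.jN (κ i (l, v)) ≠ C.jM (ρ j (l', v')) := by
    intro i j l v l' v' hv hv' h
    obtain ⟨x, hx, h1, h2⟩ := C.sep _ _ (hκ0 i l v hv) (hρ0 j l' v' hv') h
    rcases nct_or hx with h3 | h3
    · exact hκb i l v hv (h1 ▸ mem_image_of_mem b (mem_closedBall_zero_iff.2 h3))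
    · exact hρc j l' v' hv' (h2 ▸ mem_image_of_mem c (mem_closedBall_zero_iff.2 h3))
  refine ⟨?_, ?_⟩
  · rintro (i | j)
    · exact thick_comp (U := {p | p ≠ b 0}) (hκ.thick i) (fun l v hv => hκ0 i l v hv) (fun p hp => C.jN_loc p hp)
        (fun p hp q hq h => C.jN_inj p q hp hq h)
    · exact thick_comp (U := {p | p ≠ c 0}) (hρ.thick j) (fun l v hv => hρ0 j l v hv) (fun p hp => C.jM_loc p hp)
        (fun p hp q hq h => C.jM_inj p q hp hq h)
  · rintro (i | j) (i' | j') hne l v l' v' hv hv' h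
    · refine hκ.disj i i' (fun h1 => hne (h1 ▸ rfl)) l v l' v' hv hv' ?_
      exact C.jN_inj _ _ (hκ0 i l v hv) (hκ0 i' l' v' hv') h
    · exact hmix i j' l v l' v' hv hv' h
    · exact hmix i' j l' v' l v hv' hv h.symm
    · refine hρ.disj j j' (fun h1 => hne (h1 ▸ rfl)) l v l' v' hv hv' ?_
      exact C.jM_inj _ _ (hρ0 j l v hv) (hρ0 j' l' v' hv') h

theorem nct_off_open [T2Space M] {ι' : Type} [Finite ι'] {ρ : ι' → ℝ × E3 → M} {ε : ℝ} (hρ : Tubes ρ ε) :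
    IsOpen {m | Off ρ m} := by
  have h1 : IsClosed (⋃ j, range (core (ρ j))) :=
    isClosed_iUnion_of_finite fun j => (core_compact (hρ.thick j)).isClosed
  have h2 : {m | Off ρ m} = (⋃ j, range (core (ρ j)))ᶜ := by
    ext m
    simp only [mem_setOf_eq, mem_compl_iff, mem_iUnion, not_exists]
    constructor
    · rintro h j ⟨l, hl⟩
      exact h j l hl.symm
    · intro h j l hl
      exact h j ⟨l, hl.symm⟩
  rw [h2]
  exact h1.isOpen_compl

theorem nct_off {ι : Type} {κ : ι → ℝ × E3 → N} {ε : ℝ} (hκ : Tubes κ ε) (i : ι) (l : ℝ) (v : E3) (hv : ‖v‖ < ε)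
    (hv0 : v ≠ 0) : Off κ (κ i (l, v)) := by
  intro j l' h
  have h0 : ‖(0 : E3)‖ < ε := by rw [norm_zero]; exact (hκ.thick i).pos
  by_cases hij : i = j
  · rw [← hij] at h
    exact hv0 ((hκ.thick i).inj l v l' 0 hv h0 h).1
  · exact hκ.disj i j hij l v l' 0 hv h0 h

theorem cs_surg_aux [T2Space N] [T2Space M] {b : E4 → N} {b' : N → E4} (hb : IsBall b b') {c : E4 → M}
    {c' : M → E4} (hc : IsBall c c')
    {Z : Type} [TopologicalSpace Z] [ChartedSpace E4 Z] (C : CSum b c Z) {ι ι' : Type} [Finite ι] [Finite ι']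
    {κ : ι → ℝ × E3 → N} {ρ : ι' → ℝ × E3 → M} {ε : ℝ} (hκ : Tubes κ ε) (hρ : Tubes ρ ε)
    (hκb : ∀ (i : ι) (l : ℝ) (v : E3), ‖v‖ < ε → κ i (l, v) ∉ b '' Metric.closedBall 0 1)
    (hρc : ∀ (j : ι') (l : ℝ) (v : E3), ‖v‖ < ε → ρ j (l, v) ∉ c '' Metric.closedBall 0 1)
    {X : Type} [TopologicalSpace X] [ChartedSpace E4 X] (SX : Surg κ ε X) (S : Surg ρ ε S4)
    (G : S4 ≃ₘ⟮𝓡 4, 𝓡 4⟯ S4) (O : E4 ≃ₗᵢ[ℝ] E4) {η : ℝ} (hη : 0 < η)
    (hoff : ∀ y, ‖y‖ < 1 + η → Off ρ (c y)) (hG : ∀ y, ‖y‖ < 1 + η → G (S.A (c y)) = st (O y)) :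
    Nonempty (Surg (Sum.elim (fun i x => C.jN (κ i x)) (fun j x => C.jM (ρ j x))) ε X) := by
  -- numbers
  set r₀ : ℝ := (1 + η)⁻¹ with hr₀
  have h1η : 0 < 1 + η := by linarith
  have hr₀p : 0 < r₀ := inv_pos.2 h1η
  have hr₀1 : r₀ < 1 := inv_lt_one_of_one_lt₀ (by linarith)
  have hinvlt : ∀ x : E4, r₀ < ‖x‖ → ‖inv4 x‖ < 1 + η := by
    intro x hx
    rw [norm_inv4]
    have h2 := inv_lt_inv₀ (lt_trans hr₀p hx) hr₀p
    have h3 : ‖x‖⁻¹ < r₀⁻¹ := h2.2 hx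
    rwa [hr₀, inv_inv] at h3
  have hne0 : ∀ x : E4, r₀ < ‖x‖ → x ≠ 0 := fun x hx h => by
    rw [h, norm_zero] at hx
    linarith
  -- the coordinate of the second summand
  set q : S4 := S.A (c 0) with hq
  have hoff0 : Off ρ (c 0) := hoff 0 (by rw [norm_zero]; exact h1η)
  have hGq : G q = st 0 := by
    have h1 := hG 0 (by rw [norm_zero]; exact h1η)
    rwa [map_zero] at h1
  have hGne : ∀ z : S4, z ≠ q → G z ≠ st 0 := by
    intro z hz h
    rw [← hGq] at h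
    exact hz (G.injective h)
  set x' : S4 → E4 := fun z => O.symm (st' (G z)) with hx'
  have hx'loc : ∀ z : S4, z ≠ q → IsLocalDiffeomorphAt (𝓡 4) (𝓡 4) ∞ x' z := by
    intro z hz
    have h1 : IsLocalDiffeomorphAt (𝓡 4) (𝓡 4) ∞ G z := G.isLocalDiffeomorph z
    have h2 : IsLocalDiffeomorphAt (𝓡 4) (𝓡 4) ∞ st' (G z) := st'_ld (hGne z hz)
    have h3 : IsLocalDiffeomorphAt (𝓡 4) (𝓡 4) ∞ (O.symm : E4 → E4) (st' (G z)) :=
      (O.symm.toContinuousLinearEquiv.toDiffeomorph).isLocalDiffeomorph _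
    have h12 : IsLocalDiffeomorphAt (𝓡 4) (𝓡 4) ∞ (st' ∘ G) z := IsLocalDiffeomorphAt.comp (hf := h1) (hg := h2)
    exact IsLocalDiffeomorphAt.comp (hf := h12) (hg := h3)
  have hx'inj : ∀ z z' : S4, z ≠ q → z' ≠ q → x' z = x' z' → z = z' := by
    intro z z' hz hz' h
    exact G.injective (st'_inj (hGne z hz) (hGne z' hz') (O.symm.injective h))
  have hx'surj : ∀ x : E4, ∃ z : S4, z ≠ q ∧ x' z = x := by
    intro x
    obtain ⟨w, hw, hw'⟩ := st'_surj (O x)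
    refine ⟨G.symm w, ?_, ?_⟩
    · intro h
      apply hw
      rw [← hGq, ← h, G.apply_symm_apply]
    · change O.symm (st' (G (G.symm w))) = x
      rw [G.apply_symm_apply, hw', O.symm_apply_apply]
  have hAq : ∀ m, m ≠ c 0 → Off ρ m → S.A m ≠ q := fun m hm ho h => hm (S.A_inj m _ ho hoff0 h)
  have hcne : ∀ y : E4, y ≠ 0 → c y ≠ c 0 := fun y hy h => hy (hc.inj h)
  have hx'c : ∀ y : E4, y ≠ 0 → ‖y‖ < 1 + η → x' (S.A (c y)) = inv4 y := by
    intro y hy hyn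
    change O.symm (st' (G (S.A (c y)))) = inv4 y
    have h1 : O y ≠ 0 := fun h => hy (by simpa using h)
    rw [hG y hyn, st'_st h1, inv4_lin, O.symm_apply_apply]
  -- (1)
  have hout : ∀ z : S4, z ≠ q → r₀ < ‖x' z‖ → z = S.A (c (inv4 (x' z))) := by
    intro z hz hr
    have h1 := inv4_ne (hne0 _ hr)
    have h2 := hinvlt _ hr
    apply hx'inj z _ hz (hAq _ (hcne _ h1) (hoff _ h2))
    rw [hx'c _ h1 h2, inv4_inv4 (hne0 _ hr)]
  have hout' : ∀ m, m ≠ c 0 → Off ρ m → r₀ < ‖x' (S.A m)‖ → m = c (inv4 (x' (S.A m))) ∧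
      C.jM m = C.jN (b (x' (S.A m))) := by
    intro m hm ho hr
    have h1 := hout (S.A m) (hAq m hm ho) hr
    have h2 := S.A_inj m _ ho (hoff _ (hinvlt _ hr)) h1
    refine ⟨h2, ?_⟩
    rw [C.glue _ (hne0 _ hr), ← h2]
  -- the first summand
  have hb0 : ∀ p, p ∉ b '' Metric.closedBall 0 r₀ → p ≠ b 0 := by
    rintro p hp rfl
    exact hp (mem_image_of_mem b (Metric.mem_closedBall_self hr₀p.le))
  have hbx : ∀ x : E4, b x ∉ b '' Metric.closedBall 0 r₀ ↔ r₀ < ‖x‖ := by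
    intro x
    rw [hb.inj.mem_set_image, mem_closedBall_zero_iff, not_le]
  have hsub : b '' Metric.closedBall 0 r₀ ⊆ b '' Metric.closedBall 0 1 :=
    image_mono (Metric.closedBall_subset_closedBall hr₀1.le)
  have hε : ∀ i : ι, ‖(0 : E3)‖ < ε := fun i => by rw [norm_zero]; exact (hκ.thick i).pos
  have hε' : ∀ i : ι', ‖(0 : E3)‖ < ε := fun i => by rw [norm_zero]; exact (hρ.thick i).pos
  have hκoff : ∀ x : E4, ‖x‖ ≤ 1 → Off κ (b x) := by
    intro x hx i l h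
    exact hκb i l 0 (hε i) (h ▸ mem_image_of_mem b (mem_closedBall_zero_iff.2 hx))
  have hκ0 : ∀ (i : ι) (l : ℝ) (v : E3), ‖v‖ < ε → κ i (l, v) ≠ b 0 :=
    fun i l v hv h => hκb i l v hv (h ▸ nct_b0)
  have hρ0 : ∀ (j : ι') (l : ℝ) (v : E3), ‖v‖ < ε → ρ j (l, v) ≠ c 0 :=
    fun j l v hv h => hρc j l v hv (h ▸ nct_b0)
  -- the function B
  set B : S4 → X := fun z => SX.A (b (x' z)) with hB
  have hBloc : ∀ z : S4, z ≠ q → ‖x' z‖ < 1 → IsLocalDiffeomorphAt (𝓡 4) (𝓡 4) ∞ B z := by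
    intro z hz h1
    have h2 : IsLocalDiffeomorphAt (𝓡 4) (𝓡 4) ∞ (b ∘ x') z :=
      IsLocalDiffeomorphAt.comp (hf := hx'loc z hz) (hg := hb.loc (x' z))
    exact IsLocalDiffeomorphAt.comp (hf := h2) (hg := SX.A_loc (b (x' z)) (hκoff _ h1.le))
  have hBinj : ∀ z z' : S4, z ≠ q → z' ≠ q → ‖x' z‖ < 1 → ‖x' z'‖ < 1 → B z = B z' → z = z' := by
    intro z z' hz hz' h1 h1' h
    exact hx'inj z z' hz hz' (hb.inj (SX.A_inj _ _ (hκoff _ h1.le) (hκoff _ h1'.le) h))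
  -- the spheres of the second family
  have hQc : ∀ (j : ι') (z : ℂ) (v : S2) (y : E4), ‖z‖ < ε → ‖y‖ ≤ 1 → S.Q j (z, v) ≠ S.A (c y) := by
    intro j z v y hz hy h
    by_cases hz0 : z = 0
    · rw [hz0] at h
      exact S.disj j v (c y) (hoff y (by linarith)) h
    · obtain ⟨l, hl⟩ := ex_polar z
      have hr : 0 < ‖z‖ := norm_pos_iff.2 hz0
      have e1 := S.glue j l ‖z‖ v hr hz
      rw [← hl, h] at e1
      have hv1 : ‖v.1‖ = 1 := by
        have := v.2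
        rwa [mem_sphere_zero_iff_norm] at this
      have hn : ‖‖z‖ • v.1‖ = ‖z‖ := by rw [norm_smul, norm_norm, hv1, mul_one]
      have hv0 : ‖z‖ • v.1 ≠ 0 := fun h0 => by rw [h0, norm_zero] at hn; exact hr.ne hn
      have h2 := S.A_inj _ _ (hoff y (by linarith)) (nct_off hρ j l _ (by rw [hn]; exact hz) hv0) e1
      exact hρc j l _ (by rw [hn]; exact hz) (h2 ▸ mem_image_of_mem c (mem_closedBall_zero_iff.2 hy))
  have hQq : ∀ (j : ι') (z : ℂ) (v : S2), ‖z‖ < ε → S.Q j (z, v) ≠ q := fun j z v hz =>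
    hQc j z v 0 hz (by rw [norm_zero]; exact zero_le_one)
  have hQ1 : ∀ (j : ι') (z : ℂ) (v : S2), ‖z‖ < ε → ‖x' (S.Q j (z, v))‖ < 1 := by
    intro j z v hz
    by_contra hcon
    have h1 : 1 ≤ ‖x' (S.Q j (z, v))‖ := not_lt.1 hcon
    have h2 := hout _ (hQq j z v hz) (by linarith)
    refine hQc j z v _ hz ?_ h2
    rw [norm_inv4]
    exact inv_le_one_of_one_le₀ h1
  -- the map
  have hex : ∀ z : Z, ∃ x : X, (∀ p, p ∉ b '' Metric.closedBall 0 r₀ → z = C.jN p → x = SX.A p) ∧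
      ∀ m, m ≠ c 0 → Off ρ m → ‖x' (S.A m)‖ < 1 → z = C.jM m → x = B (S.A m) := by
    intro z
    by_cases h1 : ∃ p, p ∉ b '' Metric.closedBall 0 r₀ ∧ z = C.jN p
    · obtain ⟨p, hp, rfl⟩ := h1
      refine ⟨SX.A p, fun p' hp' h => ?_, fun m hm ho h2 h => ?_⟩
      · rw [C.jN_inj p p' (hb0 p hp) (hb0 p' hp') h]
      · obtain ⟨x, hx, h3, h4⟩ := C.sep p m (hb0 p hp) hm h
        have h5 : r₀ < ‖x‖ := (hbx x).1 (h3 ▸ hp)
        have h6 : x' (S.A m) = x := by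
          rw [h4, hx'c _ (inv4_ne hx) (hinvlt x h5), inv4_inv4 hx]
        change SX.A p = SX.A (b (x' (S.A m)))
        rw [h6, h3]
    · by_cases h2 : ∃ m, m ≠ c 0 ∧ Off ρ m ∧ ‖x' (S.A m)‖ < 1 ∧ z = C.jM m
      · obtain ⟨m, hm, ho, h3, rfl⟩ := h2
        refine ⟨B (S.A m), fun p hp h => absurd ⟨p, hp, h⟩ h1, fun m' hm' ho' h4 h => ?_⟩
        rw [C.jM_inj m m' hm hm' h]
      · exact ⟨SX.A (b 0), fun p hp h => absurd ⟨p, hp, h⟩ h1, fun m hm ho h3 h => absurd ⟨m, hm, ho, h3, h⟩ h2⟩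
  choose T hTN' hTM' using hex
  have hTN : ∀ p, p ∉ b '' Metric.closedBall 0 r₀ → T (C.jN p) = SX.A p := fun p hp => hTN' _ p hp rfl
  have hTM : ∀ m, m ≠ c 0 → Off ρ m → ‖x' (S.A m)‖ < 1 → T (C.jM m) = B (S.A m) :=
    fun m hm ho h => hTM' _ m hm ho h rfl
  -- the points off the circles
  set K : ι ⊕ ι' → ℝ × E3 → Z := Sum.elim (fun i x => C.jN (κ i x)) (fun j x => C.jM (ρ j x)) with hK
  have hOffN : ∀ p, p ∉ b '' Metric.closedBall 0 r₀ → Off κ p → Off K (C.jN p) := by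
    rintro p hp ho (i | j) l h
    · exact ho i l (C.jN_inj _ _ (hb0 p hp) (hκ0 i l 0 (hε i)) h)
    · obtain ⟨x, hx, h3, h4⟩ := C.sep p _ (hb0 p hp) (hρ0 j l 0 (hε' j)) h
      have h5 : r₀ < ‖x‖ := (hbx x).1 (h3 ▸ hp)
      exact hoff _ (hinvlt x h5) j l h4.symm
  have hOffM : ∀ m, m ≠ c 0 → Off ρ m → ‖x' (S.A m)‖ < 1 → Off K (C.jM m) := by
    rintro m hm ho h1 (i | j) l h
    · obtain ⟨x, hx, h3, h4⟩ := C.sep _ m (hκ0 i l 0 (hε i)) hm h.symm
      have h5 : 1 < ‖x‖ := by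
        by_contra hcon
        exact hκb i l 0 (hε i) (h3 ▸ mem_image_of_mem b (mem_closedBall_zero_iff.2 (not_lt.1 hcon)))
      have h6 : x' (S.A m) = x := by
        rw [h4, hx'c _ (inv4_ne hx) (hinvlt x (by linarith)), inv4_inv4 hx]
      rw [h6] at h1
      linarith
    · exact ho j l (C.jM_inj _ _ hm (hρ0 j l 0 (hε' j)) h)
  have hD : ∀ z, Off K z → (∃ p, p ∉ b '' Metric.closedBall 0 r₀ ∧ Off κ p ∧ z = C.jN p) ∨
      ∃ m, m ≠ c 0 ∧ Off ρ m ∧ ‖x' (S.A m)‖ < 1 ∧ z = C.jM m := by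
    intro z hz
    have hM : ∀ m, m ≠ c 0 → z = C.jM m → (∃ p, p ∉ b '' Metric.closedBall 0 r₀ ∧ Off κ p ∧ z = C.jN p) ∨
        ∃ m, m ≠ c 0 ∧ Off ρ m ∧ ‖x' (S.A m)‖ < 1 ∧ z = C.jM m := by
      intro m hm h
      have ho : Off ρ m := by
        intro j l h1
        exact hz (Sum.inr j) l (by rw [h, h1]; rfl)
      rcases lt_or_ge ‖x' (S.A m)‖ 1 with h1 | h1
      · exact Or.inr ⟨m, hm, ho, h1, h⟩
      · have h2 := hout' m hm ho (by linarith)
        refine Or.inl ⟨b (x' (S.A m)), (hbx _).2 (by linarith), ?_, h.trans h2.2⟩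
        intro i l h3
        exact hz (Sum.inl i) l (by rw [h, h2.2, h3]; rfl)
    rcases C.cover z with ⟨p, hp, h⟩ | ⟨m, hm, h⟩
    · by_cases h1 : p ∈ b '' Metric.closedBall 0 r₀
      · obtain ⟨x₀, -, rfl⟩ := h1
        have hx0 : x₀ ≠ 0 := fun h0 => hp (by rw [h0])
        rw [C.glue x₀ hx0] at h
        exact hM _ (hcne _ (inv4_ne hx0)) h
      · refine Or.inl ⟨p, h1, ?_, h⟩
        intro i l h2
        exact hz (Sum.inl i) l (by rw [h, h2]; rfl)
    · exact hM m hm h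
  have hclosed : IsClosed (b '' Metric.closedBall (0 : E4) r₀) :=
    ((isCompact_closedBall (0 : E4) r₀).image hb.cont).isClosed
  refine ⟨{ A := T, Q := Sum.elim (fun i => SX.Q i) (fun j p => B (S.Q j p)), A_loc := ?_, A_inj := ?_, Q_loc := ?_,
            glue := ?_, Q_inj := ?_, disj := ?_, cover := ?_ }⟩
  · intro z hz
    rcases hD z hz with ⟨p, hp, ho, rfl⟩ | ⟨m, hm, ho, h1, rfl⟩
    · refine cmt_quot (C.jN_loc p (hb0 p hp)) (SX.A_loc p ho) ?_
      filter_upwards [hclosed.isOpen_compl.mem_nhds hp] with p' hp'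
      exact hTN p' hp'
    · have h2 : IsLocalDiffeomorphAt (𝓡 4) (𝓡 4) ∞ (B ∘ S.A) m :=
        IsLocalDiffeomorphAt.comp (hf := S.A_loc m ho) (hg := hBloc _ (hAq m hm ho) h1)
      refine cmt_quot (C.jM_loc m hm) h2 ?_
      have hcx : ContinuousAt (fun m => ‖x' (S.A m)‖) m :=
        ((hx'loc _ (hAq m hm ho)).contMDiffAt.continuousAt.comp (S.A_loc m ho).contMDiffAt.continuousAt).norm
      filter_upwards [(nct_off_open hρ).mem_nhds ho, hcx.eventually (gt_mem_nhds h1),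
        isOpen_ne.mem_nhds hm] with m' h3 h4 h5
      exact hTM m' h5 h3 h4
  · intro z z' hz hz' h
    rcases hD z hz with ⟨p, hp, ho, rfl⟩ | ⟨m, hm, ho, h1, rfl⟩ <;>
      rcases hD z' hz' with ⟨p', hp', ho', rfl⟩ | ⟨m', hm', ho', h1', rfl⟩
    · rw [hTN p hp, hTN p' hp'] at h
      rw [SX.A_inj p p' ho ho' h]
    · rw [hTN p hp, hTM m' hm' ho' h1'] at h
      have h2 := SX.A_inj p _ ho (hκoff _ h1'.le) h
      have h3 : r₀ < ‖x' (S.A m')‖ := (hbx _).1 (h2 ▸ hp)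
      rw [(hout' m' hm' ho' h3).2, h2]
    · rw [hTN p' hp', hTM m hm ho h1] at h
      have h2 := SX.A_inj p' _ ho' (hκoff _ h1.le) h.symm
      have h3 : r₀ < ‖x' (S.A m)‖ := (hbx _).1 (h2 ▸ hp')
      rw [(hout' m hm ho h3).2, h2]
    · rw [hTM m hm ho h1, hTM m' hm' ho' h1'] at h
      have h2 := hBinj _ _ (hAq m hm ho) (hAq m' hm' ho') h1 h1' h
      rw [S.A_inj m m' ho ho' h2]
  · rintro (i | j) z v hz
    · exact SX.Q_loc i z v hz
    · exact IsLocalDiffeomorphAt.comp (hf := S.Q_loc j z v hz) (hg := hBloc _ (hQq j z v hz) (hQ1 j z v hz))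
  · rintro (i | j) l r v hr hr'
    · have hv1 : ‖v.1‖ = 1 := by
        have := v.2
        rwa [mem_sphere_zero_iff_norm] at this
      have hn : ‖r • v.1‖ < ε := by
        rw [norm_smul, hv1, mul_one, Real.norm_eq_abs, abs_of_pos hr]
        exact hr'
      change SX.Q i (r * ex l, v) = T (C.jN (κ i (l, r • v.1)))
      rw [hTN _ (fun h => hκb i l _ hn (hsub h))]
      exact SX.glue i l r v hr hr'
    · have hv1 : ‖v.1‖ = 1 := by
        have := v.2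
        rwa [mem_sphere_zero_iff_norm] at this
      have hn : ‖r • v.1‖ < ε := by
        rw [norm_smul, hv1, mul_one, Real.norm_eq_abs, abs_of_pos hr]
        exact hr'
      have hv0 : r • v.1 ≠ 0 := by
        intro h0
        rw [smul_eq_zero] at h0
        rcases h0 with h0 | h0
        · exact hr.ne' h0
        · rw [h0, norm_zero] at hv1
          exact zero_ne_one hv1
      have hex : ‖(r : ℂ) * ex l‖ < ε := by
        rw [norm_mul, Complex.norm_real, Real.norm_eq_abs, abs_of_pos hr]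
        have : ‖ex l‖ = 1 := by
          unfold ex
          rw [Complex.norm_exp]
          simp
        rw [this, mul_one]
        exact hr'
      change B (S.Q j (r * ex l, v)) = T (C.jM (ρ j (l, r • v.1)))
      have h2 := S.glue j l r v hr hr'
      have h3 := hQ1 j _ v hex
      rw [h2] at h3
      rw [hTM _ (hρ0 j l _ hn) (nct_off hρ j l _ hn hv0) h3, h2]
  · rintro (i | j) (i' | j') v v' h
    · obtain ⟨h1, h2⟩ := SX.Q_inj i i' v v' h
      exact ⟨by rw [h1], h2⟩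
    · exact absurd h (SX.disj i v _ (hκoff _ (hQ1 j' 0 v' (by rw [norm_zero]; exact (hρ.thick j').pos)).le))
    · exact absurd h.symm (SX.disj i' v' _ (hκoff _ (hQ1 j 0 v (by rw [norm_zero]; exact (hρ.thick j).pos)).le))
    · have hz : ‖(0 : ℂ)‖ < ε := by rw [norm_zero]; exact (hρ.thick j).pos
      have h1 := hBinj _ _ (hQq j 0 v hz) (hQq j' 0 v' hz) (hQ1 j 0 v hz) (hQ1 j' 0 v' hz) h
      obtain ⟨h2, h3⟩ := S.Q_inj j j' v v' h1
      exact ⟨by rw [h2], h3⟩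
  · rintro (i | j) v z hz h
    · rcases hD z hz with ⟨p, hp, ho, rfl⟩ | ⟨m, hm, ho, h1, rfl⟩
      · rw [hTN p hp] at h
        exact SX.disj i v p ho h
      · rw [hTM m hm ho h1] at h
        exact SX.disj i v _ (hκoff _ h1.le) h
    · have hz0 : ‖(0 : ℂ)‖ < ε := by rw [norm_zero]; exact (hρ.thick j).pos
      have hq1 := hQ1 j 0 v hz0
      have hqq := hQq j 0 v hz0
      rcases hD z hz with ⟨p, hp, ho, rfl⟩ | ⟨m, hm, ho, h1, rfl⟩
      · rw [hTN p hp] at h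
        have h2 := SX.A_inj _ p (hκoff _ hq1.le) ho h
        have h3 : r₀ < ‖x' (S.Q j (0, v))‖ := (hbx _).1 (h2 ▸ hp)
        exact S.disj j v _ (hoff _ (hinvlt _ h3)) (hout _ hqq h3)
      · rw [hTM m hm ho h1] at h
        exact S.disj j v m ho (hBinj _ _ hqq (hAq m hm ho) hq1 h1 h)
  · intro w
    rcases SX.cover w with ⟨p, ho, rfl⟩ | ⟨i, v, rfl⟩
    · by_cases hp : p ∈ b '' Metric.ball 0 1
      · obtain ⟨x₀, hx₀, rfl⟩ := hp
        have hx1 : ‖x₀‖ < 1 := mem_ball_zero_iff.1 hx₀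
        obtain ⟨z, hz, hzx⟩ := hx'surj x₀
        rcases S.cover z with ⟨m, hom, rfl⟩ | ⟨j, v, rfl⟩
        · have hm : m ≠ c 0 := fun h => hz (by rw [h])
          have h1 : ‖x' (S.A m)‖ < 1 := by rw [hzx]; exact hx1
          refine Or.inl ⟨C.jM m, hOffM m hm hom h1, ?_⟩
          rw [hTM m hm hom h1]
          change SX.A (b x₀) = SX.A (b (x' (S.A m)))
          rw [hzx]
        · refine Or.inr ⟨Sum.inr j, v, ?_⟩
          change SX.A (b x₀) = SX.A (b (x' (S.Q j (0, v))))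
          rw [hzx]
      · have hp' : p ∉ b '' Metric.closedBall 0 r₀ := by
          rintro ⟨x, hx, rfl⟩
          exact hp (mem_image_of_mem b (mem_ball_zero_iff.2 (lt_of_le_of_lt (mem_closedBall_zero_iff.1 hx) hr₀1)))
        exact Or.inl ⟨C.jN p, hOffN p hp' ho, (hTN p hp').symm⟩
    · exact Or.inr ⟨Sum.inl i, v, rfl⟩

theorem cs_surg [T2Space N] [T2Space M] {b : E4 → N} {b' : N → E4} (hb : IsBall b b') {c : E4 → M}
    {c' : M → E4} (hc : IsBall c c')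
    {Z : Type} [TopologicalSpace Z] [ChartedSpace E4 Z] (C : CSum b c Z) {ι ι' : Type} [Finite ι] [Finite ι']
    {κ : ι → ℝ × E3 → N} {ρ : ι' → ℝ × E3 → M} {ε : ℝ} (hκ : Tubes κ ε) (hρ : Tubes ρ ε)
    (hκb : ∀ (i : ι) (l : ℝ) (v : E3), ‖v‖ < ε → κ i (l, v) ∉ b '' Metric.closedBall 0 1)
    (hρc : ∀ (j : ι') (l : ℝ) (v : E3), ‖v‖ < ε → ρ j (l, v) ∉ c '' Metric.closedBall 0 1)
    {X : Type} [TopologicalSpace X] [ChartedSpace E4 X] (SX : Surg κ ε X) (S : Surg ρ ε S4) :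
    Nonempty (Surg (Sum.elim (fun i x => C.jN (κ i x)) (fun j x => C.jM (ρ j x))) ε X) := by
  have hoc : IsOpen (c ⁻¹' {m | Off ρ m}) := (nct_off_open hρ).preimage hc.cont
  have hs : Metric.closedBall (0 : E4) 1 ⊆ c ⁻¹' {m | Off ρ m} := by
    intro y hy j l h
    have h0 : ‖(0 : E3)‖ < ε := by rw [norm_zero]; exact (hρ.thick j).pos
    exact hρc j l 0 h0 (h ▸ mem_image_of_mem c hy)
  obtain ⟨δ, hδ, hδs⟩ := (isCompact_closedBall (0 : E4) 1).exists_thickening_subset_open hoc hs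
  rw [thickening_closedBall hδ zero_le_one] at hδs
  have hR : ∀ y, ‖y‖ < δ + 1 → Off ρ (c y) := fun y hy => hδs (mem_ball_zero_iff.2 hy)
  obtain ⟨G, O, η, hη, hη1, hG⟩ := disc (φ := S.A ∘ c) (R := δ + 1) (by linarith)
    (fun y hy => IsLocalDiffeomorphAt.comp (hf := hc.loc y) (hg := S.A_loc _ (hR y hy)))
    (fun y y' hy hy' h => hc.inj (S.A_inj _ _ (hR y hy) (hR y' hy') h))
  exact cs_surg_aux hb hc C hκ hρ hκb hρc SX S G O hη (fun y hy => hR y (by linarith)) hG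

end Pool.Agent.MMV
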