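import Pool.Agent.ACB.Main
import Pool.Agent.LKT.ExJ

/-!
# MMV/NDefs: families of circles, connected sums: definitions   (helper44, block VI)

* `consO a f : Option ι → α`: one more element.
* `Fam p g X`: `X` is a result of a surgery on `N` along a family of disjoint thick circles in the classes `g i` (any framings).
* `CSum b c Z`: `Z = N # M`, glued along the coordinate balls `b`, `c`: `b x ~ c (x / |x|²)`, `x ≠ 0`.
* `st`: the standard ball of `S⁴` with centre the pole `(0, 1)`; `st'`: the stereographic projection from this pole: `st' (st y) = y / |y|²`.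
* `Out b`: the complement of the closed unit ball of the coordinate ball `b`, an open submanifold.
-/

open scoped ContDiff Manifold Topology unitInterval
open Set Filter
open Pool.Agent.ACB

namespace Pool.Agent.MMV

section
variable {N M : Type} [TopologicalSpace N] [ChartedSpace E4 N] [TopologicalSpace M] [ChartedSpace E4 M]

/-- one more element of a family -/
def consO {ι : Type} {α : Type*} (a : α) (f : ι → α) (o : Option ι) : α := o.elim a f

/-- `X` is a result of a surgery on `N` along disjoint thick circles in the classes `g i` -/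
def Fam (p : N) {ι : Type} (g : ι → FundamentalGroup N p) (X : Type*) [TopologicalSpace X] [ChartedSpace E4 X] :
    Prop :=
  ∃ κ : ι → ℝ × E3 → N, IsSurg κ X ∧ ∀ i, Cls p (core (κ i)) (g i)

/-- `x / |x|²` -/
noncomputable def inv4 (x : E4) : E4 := (‖x‖ ^ 2)⁻¹ • x

/-- connected sum along the coordinate balls `b`, `c` -/
structure CSum (b : E4 → N) (c : E4 → M) (Z : Type*) [TopologicalSpace Z] [ChartedSpace E4 Z] where
  jN : N → Z
  jM : M → Z
  jN_loc : ∀ p, p ≠ b 0 → IsLocalDiffeomorphAt (𝓡 4) (𝓡 4) ∞ jN p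
  jM_loc : ∀ m, m ≠ c 0 → IsLocalDiffeomorphAt (𝓡 4) (𝓡 4) ∞ jM m
  jN_inj : ∀ p p', p ≠ b 0 → p' ≠ b 0 → jN p = jN p' → p = p'
  jM_inj : ∀ m m', m ≠ c 0 → m' ≠ c 0 → jM m = jM m' → m = m'
  glue : ∀ x, x ≠ 0 → jN (b x) = jM (c (inv4 x))
  sep : ∀ p m, p ≠ b 0 → m ≠ c 0 → jN p = jM m → ∃ x, x ≠ 0 ∧ p = b x ∧ m = c (inv4 x)
  cover : ∀ z, (∃ p, p ≠ b 0 ∧ z = jN p) ∨ ∃ m, m ≠ c 0 ∧ z = jM m

/-- the standard ball of `S⁴` -/
noncomputable def stV (y : E4) : E5 :=
  (1 + ‖y‖ ^ 2)⁻¹ • !₂[2 * y 0, 2 * y 1, 2 * y 2, 2 * y 3, 1 - ‖y‖ ^ 2]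

theorem stV_mem (y : E4) : stV y ∈ Metric.sphere (0 : E5) 1 := by
  have h0 : 0 < 1 + ‖y‖ ^ 2 := by positivity
  have h1 : ‖y‖ ^ 2 = y 0 ^ 2 + y 1 ^ 2 + y 2 ^ 2 + y 3 ^ 2 := by
    rw [EuclideanSpace.norm_sq_eq]
    simp [Fin.sum_univ_four]
  rw [mem_sphere_zero_iff_norm, stV, norm_smul, norm_inv, Real.norm_of_nonneg h0.le]
  have h2 : ‖(!₂[2 * y 0, 2 * y 1, 2 * y 2, 2 * y 3, 1 - ‖y‖ ^ 2] : E5)‖ = 1 + ‖y‖ ^ 2 := by
    rw [EuclideanSpace.norm_eq, Real.sqrt_eq_iff_mul_self_eq (by positivity) h0.le]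
    simp only [Fin.sum_univ_five, Real.norm_eq_abs, sq_abs]
    simp
    nlinarith [h1]
  rw [h2, inv_mul_cancel₀ h0.ne']

/-- the standard ball of `S⁴`, centre: the pole `(0, 0, 0, 0, 1)` -/
noncomputable def st (y : E4) : S4 := ⟨stV y, stV_mem y⟩

/-- stereographic projection from the pole `st 0` -/
noncomputable def st' (z : S4) : E4 := (1 - z.1 4)⁻¹ • !₂[z.1 0, z.1 1, z.1 2, z.1 3]

/-- the complement of the closed unit ball of `b` -/
def Out [T2Space N] {b : E4 → N} (hb : Continuous b) : TopologicalSpace.Opens N :=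
  ⟨(b '' Metric.closedBall 0 1)ᶜ, ((isCompact_closedBall (0 : E4) 1).image hb).isClosed.isOpen_compl⟩

end

end Pool.Agent.MMV
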