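import Pool.Agent.MMV.NDefs

/-!
# MMV/NFa: surgery on a family in two steps   (block VI, squad N)

PROOF.  Word for word the proof of `ACB.surg_to` (`ACB/CmT.lean`), with the family `κ (some i)` in place of the second circle: `f : V → X`, `f (SV.A p) = S.A p`, `f (SV.Q i (z, w)) = S.Q (some i) (z, w)`; `Q = fun _ => S.Q none`.
(The converse for families is `LKT.surg_opt`, `LKT/ExJ.lean`; its proof shows how to handle `Off` of families.)
-/

open scoped ContDiff Manifold Topology unitInterval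
open Set Filter
open Pool.Agent.ACB

namespace Pool.Agent.MMV

variable {N : Type} [TopologicalSpace N] [ChartedSpace E4 N]

theorem surg_to_opt [T2Space N] {ι : Type} [Finite ι] {κ : Option ι → ℝ × E3 → N} {ε : ℝ} (hT : Tubes κ ε)
    {X : Type*} [TopologicalSpace X] [ChartedSpace E4 X] (S : Surg κ ε X)
    {V : Type*} [TopologicalSpace V] [ChartedSpace E4 V] (SV : Surg (fun i : ι => κ (some i)) ε V) :
    Tubes (fun _ : Unit => fun x => SV.A (κ none x)) ε ∧
      Nonempty (Surg (fun _ : Unit => fun x => SV.A (κ none x)) ε X) := by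
  have h1 : Thick (κ none) ε := hT.thick none
  have h2 : ∀ i, Thick (κ (some i)) ε := fun i => hT.thick (some i)
  have hTs : Tubes (fun i : ι => κ (some i)) ε := ⟨h2, fun i j hij =>
    hT.disj (some i) (some j) (fun e => hij (Option.some.inj e))⟩
  have hd : ∀ (i : ι) (l : ℝ) (v : E3) (l' : ℝ) (v' : E3), ‖v‖ < ε → ‖v'‖ < ε →
      κ none (l, v) ≠ κ (some i) (l', v') :=
    fun i => hT.disj none (some i) (by simp)
  have h0 : ‖(0 : E3)‖ < ε := by rw [norm_zero]; exact h1.pos
  have hoff1 : ∀ (l : ℝ) (v : E3), ‖v‖ < ε → Off (fun i : ι => κ (some i)) (κ none (l, v)) :=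
    fun l v hv i l' => hd i l v l' 0 hv h0
  have hoff2 : ∀ (p : N), Off (fun i : ι => κ (some i)) p → Off (fun _ : Unit => fun x => SV.A (κ none x)) (SV.A p) →
      Off κ p := by
    intro p hp hp' o
    cases o with
    | none => exact fun l h => hp' () l (congrArg SV.A h)
    | some i => exact hp i
  have hoff3 : ∀ (p : N), Off κ p → Off (fun i : ι => κ (some i)) p ∧
      Off (fun _ : Unit => fun x => SV.A (κ none x)) (SV.A p) := by
    intro p hp
    have e3 : Off (fun i : ι => κ (some i)) p := fun i l => hp (some i) l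
    exact ⟨e3, fun _ l h => hp none l (SV.A_inj p _ e3 (hoff1 l 0 h0) h)⟩
  have hTV : Tubes (fun _ : Unit => fun x => SV.A (κ none x)) ε := by
    refine ⟨fun _ => ?_, fun i j hij => absurd (Subsingleton.elim i j) hij⟩
    exact thick_comp (U := {p | Off (fun i : ι => κ (some i)) p}) h1 (fun l v hv => hoff1 l v hv)
      (fun x hx => SV.A_loc x hx) (fun x hx y hy hxy => SV.A_inj x y hx hy hxy)
  refine ⟨hTV, ?_⟩
  -- the map
  have hex : ∀ q : V, ∃ x : X, (∀ p, Off (fun i : ι => κ (some i)) p → q = SV.A p → x = S.A p) ∧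
      ∀ i v, q = SV.Q i (0, v) → x = S.Q (some i) (0, v) := by
    intro q
    rcases SV.cover q with ⟨p, hp, rfl⟩ | ⟨i, v, rfl⟩
    · refine ⟨S.A p, fun p' hp' h => ?_, fun i v h => ?_⟩
      · rw [SV.A_inj p p' hp hp' h]
      · exact absurd h.symm (SV.disj i v p hp)
    · refine ⟨S.Q (some i) (0, v), fun p' hp' h => ?_, fun i' v' h => ?_⟩
      · exact absurd h (SV.disj i v p' hp')
      · obtain ⟨e1, e2⟩ := SV.Q_inj i i' v v' h
        rw [e1, e2]
  choose f hfA' hfQ' using hex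
  have hfA : ∀ p, Off (fun i : ι => κ (some i)) p → f (SV.A p) = S.A p := fun p hp => hfA' _ p hp rfl
  have hfQ0 : ∀ (i : ι) (v : S2), f (SV.Q i (0, v)) = S.Q (some i) (0, v) := fun i v => hfQ' _ i v rfl
  have hfQ : ∀ (i : ι) (z : ℂ) (v : S2), ‖z‖ < ε → f (SV.Q i (z, v)) = S.Q (some i) (z, v) := by
    intro i z v hz
    by_cases hz0 : z = 0
    · rw [hz0]
      exact hfQ0 i v
    · obtain ⟨l, hl⟩ := ex_polar z
      have hr : 0 < ‖z‖ := norm_pos_iff.2 hz0
      have e1 := SV.glue i l ‖z‖ v hr hz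
      have e2 : S.Q (some i) ((‖z‖ : ℂ) * ex l, v) = S.A (κ (some i) (l, ‖z‖ • v.1)) := S.glue (some i) l ‖z‖ v hr hz
      rw [← hl] at e1 e2
      rw [e1, e2]
      exact hfA _ (sru_off hTs i l ‖z‖ v hr hz)
  have hopen : ∀ p, Off (fun i : ι => κ (some i)) p → ∀ᶠ p' in 𝓝 p, Off (fun i : ι => κ (some i)) p' :=
    fun p hp => (sru_off_open hTs).mem_nhds hp
  refine ⟨⟨f, fun _ => S.Q none, ?_, ?_, ?_, ?_, ?_, ?_, ?_⟩⟩
  · intro q hq
    rcases SV.cover q with ⟨p, hp, rfl⟩ | ⟨i, v, rfl⟩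
    · refine cmt_quot (SV.A_loc p hp) (S.A_loc p (hoff2 p hp hq)) ?_
      filter_upwards [hopen p hp] with p' hp'
      exact hfA p' hp'
    · have hz : ‖(0 : ℂ)‖ < ε := by rw [norm_zero]; exact h1.pos
      refine cmt_quot (SV.Q_loc i 0 v hz) (S.Q_loc (some i) 0 v hz) ?_
      have h3 : IsOpen {x : ℂ × S2 | ‖x.1‖ < ε} := isOpen_lt (continuous_norm.comp continuous_fst) continuous_const
      filter_upwards [h3.mem_nhds (show ((0 : ℂ), v) ∈ {x : ℂ × S2 | ‖x.1‖ < ε} from hz)] with x hx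
      exact hfQ i x.1 x.2 hx
  · intro q q' hq hq' h
    rcases SV.cover q with ⟨p, hp, rfl⟩ | ⟨i, v, rfl⟩
    · rcases SV.cover q' with ⟨p', hp', rfl⟩ | ⟨i', v', rfl⟩
      · rw [hfA p hp, hfA p' hp'] at h
        rw [S.A_inj p p' (hoff2 p hp hq) (hoff2 p' hp' hq') h]
      · rw [hfA p hp, hfQ0] at h
        exact absurd h.symm (S.disj (some i') v' p (hoff2 p hp hq))
    · rcases SV.cover q' with ⟨p', hp', rfl⟩ | ⟨i', v', rfl⟩
      · rw [hfA p' hp', hfQ0] at h
        exact absurd h (S.disj (some i) v p' (hoff2 p' hp' hq'))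
      · rw [hfQ0, hfQ0] at h
        obtain ⟨e1, e2⟩ := S.Q_inj (some i) (some i') v v' h
        rw [Option.some.inj e1, e2]
  · intro _ z v hz
    exact S.Q_loc none z v hz
  · intro _ l r v hr hr'
    have e1 : S.Q none ((r : ℂ) * ex l, v) = S.A (κ none (l, r • v.1)) := S.glue none l r v hr hr'
    have hv1 : ‖v.1‖ = 1 := by
      have := v.2
      rwa [mem_sphere_zero_iff_norm] at this
    have hn : ‖r • v.1‖ < ε := by
      rw [norm_smul, hv1, mul_one, Real.norm_eq_abs, abs_of_pos hr]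
      exact hr'
    rw [e1]
    exact (hfA _ (hoff1 l _ hn)).symm
  · intro i j v v' h
    exact ⟨Subsingleton.elim i j, (S.Q_inj none none v v' h).2⟩
  · intro _ v q hq
    rcases SV.cover q with ⟨p, hp, rfl⟩ | ⟨i, w, rfl⟩
    · rw [hfA p hp]
      exact S.disj none v p (hoff2 p hp hq)
    · rw [hfQ0]
      intro h
      exact absurd (S.Q_inj none (some i) v w h).1 (by simp)
  · intro x
    rcases S.cover x with ⟨p, hp, rfl⟩ | ⟨o, v, rfl⟩
    · obtain ⟨h3, h4⟩ := hoff3 p hp
      exact Or.inl ⟨SV.A p, h4, (hfA p h3).symm⟩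
    · cases o with
      | none => exact Or.inr ⟨(), v, rfl⟩
      | some i =>
        refine Or.inl ⟨SV.Q i (0, v), ?_, (hfQ0 i v).symm⟩
        intro _ l
        exact SV.disj i v _ (hoff1 l 0 h0)

end Pool.Agent.MMV
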