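import Pool.Agent.MMV.NFz

/-!
# MMV/NFb: moving one circle of a family in the complement of the others   (block VI, squad N)

PROOF.  As `ACB.move_N` (`ACB/Mv1.lean`): obstacle `Z = ⋃ i, range (core (κs i))` (finite union: `Obst.range`, `Obst.union`, `Obst.empty`; induction on a finite type, or directly: closed because a finite union of compact sets, contained in
the union of the cores, reindexed by `Fin n`: `Finite.exists_equiv_fin`).  `gp_iso` gives `F` with `F (core κ t) = c t`, `F = id` on an open `V ⊇ Z`.  `κ' = F ∘ κ`; `isSurg_diffeoF`, `srg_germ` (the germs of `F ∘ κs i` and `κs i` along the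
cores agree: `thick_near`).  `move_at` is the same statement for an arbitrary member of a family: `isSurg_reindexF` with `ι ≃ Option {j // j ≠ i}` (`(Equiv.optionSubtypeNe i).symm`), `move_NF`, and back.
-/

open scoped ContDiff Manifold Topology unitInterval
open Set Filter
open Pool.Agent.ACB

namespace Pool.Agent.MMV

variable {N : Type} [TopologicalSpace N] [ChartedSpace E4 N]

/-- the cores of a finite family of circles are an obstacle -/
theorem obst_cores [T2Space N] {ι : Type} [Finite ι] {c : ι → ℝ → N} (hc : ∀ i, SCirc (c i)) :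
    Obst (⋃ i, range (c i)) := by
  obtain ⟨n, ⟨e⟩⟩ := Finite.exists_equiv_fin ι
  refine ⟨isClosed_iUnion_of_finite fun i => (Obst.range (hc i)).1, n, fun k => c (e.symm k),
    fun k => (hc _).smooth, ?_⟩
  refine iUnion_subset fun i => ?_
  refine subset_iUnion_of_subset (e i) ?_
  show range (c i) ⊆ range (c (e.symm (e i)))
  rw [Equiv.symm_apply_apply]

theorem move_NF [T2Space N] [IsManifold (𝓡 4) ∞ N] {ι : Type} [Finite ι] {κ : ℝ × E3 → N} {κs : ι → ℝ × E3 → N}
    {X : Type*} [TopologicalSpace X] [ChartedSpace E4 X] (h : IsSurg (consO κ κs) X) {c : ℝ → N} (hc : Circ c)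
    (hcκ : ∀ (i : ι) (t : ℝ), c t ∉ range (core (κs i))) (hh : FHom univ (core κ) c) :
    ∃ κ' : ℝ × E3 → N, core κ' = c ∧ IsSurg (consO κ' κs) X := by
  obtain ⟨ε, hT, -⟩ := id h
  have t1 : Thick κ ε := hT.thick none
  have t2 : ∀ i, Thick (κs i) ε := fun i => hT.thick (some i)
  have c1 : Circ (core κ) := t1.circ
  have c2 : ∀ i, Circ (core (κs i)) := fun i => (t2 i).circ
  have hZ : Obst (⋃ i, range (core (κs i))) := obst_cores fun i => (c2 i).toSCirc
  have hn : ‖(0 : E3)‖ < ε := by
    rw [norm_zero]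
    exact t1.pos
  have h0 : ∀ t, core κ t ∉ ⋃ i, range (core (κs i)) := by
    intro t ht
    obtain ⟨i, l, hl⟩ := mem_iUnion.1 ht
    exact hT.disj none (some i) (by simp) t 0 l 0 hn hn hl.symm
  have h1 : ∀ t, c t ∉ ⋃ i, range (core (κs i)) := by
    intro t ht
    obtain ⟨i, hi⟩ := mem_iUnion.1 ht
    exact hcκ i t hi
  obtain ⟨F, hF, V, hV, hZV, hVF⟩ := gp_iso hZ c1 hc h0 h1 hh
  refine ⟨fun x => F (κ x), funext fun t => hF t, ?_⟩
  refine srg_germ (isSurg_diffeoF h F) ?_
  intro o
  cases o with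
  | none => exact ⟨ε, t1.pos, fun l v _ => rfl⟩
  | some i =>
    obtain ⟨δ, hδ, -, hδV⟩ := thick_near (t2 i) hV (fun l => hZV (mem_iUnion.2 ⟨i, l, rfl⟩))
    exact ⟨δ, hδ, fun l v hv => (hVF _ (hδV l v hv)).symm⟩

theorem move_at [T2Space N] [IsManifold (𝓡 4) ∞ N] {ι : Type} [Finite ι] [DecidableEq ι] {κ : ι → ℝ × E3 → N}
    {X : Type*} [TopologicalSpace X] [ChartedSpace E4 X] (h : IsSurg κ X) (i : ι) {c : ℝ → N} (hc : Circ c)
    (hcκ : ∀ j, j ≠ i → ∀ t : ℝ, c t ∉ range (core (κ j))) (hh : FHom univ (core (κ i)) c) :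
    ∃ κ' : ℝ × E3 → N, core κ' = c ∧ IsSurg (Function.update κ i κ') X := by
  have h1 := isSurg_reindexF (Equiv.optionSubtypeNe i) h
  have h2 : (fun o => κ (Equiv.optionSubtypeNe i o)) = consO (κ i) (fun j : {j // j ≠ i} => κ j.1) := by
    funext o
    cases o with
    | none => rw [Equiv.optionSubtypeNe_none]; rfl
    | some j => rw [Equiv.optionSubtypeNe_some]; rfl
  rw [h2] at h1
  obtain ⟨κ', hκ', h3⟩ := move_NF h1 hc (fun j t => hcκ j.1 j.2 t) hh
  refine ⟨κ', hκ', ?_⟩
  have h4 := isSurg_reindexF (Equiv.optionSubtypeNe i).symm h3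
  have h5 : (fun k => consO κ' (fun j : {j // j ≠ i} => κ j.1) ((Equiv.optionSubtypeNe i).symm k)) =
      Function.update κ i κ' := by
    funext k
    by_cases hk : k = i
    · subst hk
      rw [Equiv.optionSubtypeNe_symm_self, Function.update_self]
      rfl
    · rw [Equiv.optionSubtypeNe_symm_of_ne hk, Function.update_of_ne hk]
      rfl
  rw [h5] at h4
  exact h4

end Pool.Agent.MMV
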