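import Pool.Agent.MMV.NFa
import Pool.Agent.MMV.NFb

/-!
# MMV/NFc: moving one circle of a family in the manifold surgered along the others   (block VI, squad N)

PROOF.  As `ACB.move_V` (`ACB/Mv2.lean`), with `surg_to_opt` in place of `surg_to`, `LKT.surg_opt` in place of `surg_from` (`consO κ' κs` has `consO κ' κs none = κ'`, `consO κ' κs (some i) = κs i`, both by `rfl`), `tubes_consO` in place of `tubes_pair`,
and the complement of `⋃ i, range (core (κs i))` in place of the complement of `range (core κ₂)`.  `circ_AF`, `A_contOnF` are `circ_A`, `A_contOn` of `ACB/CrA.lean` for a family (same proofs).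
-/

open scoped ContDiff Manifold Topology unitInterval
open Set Filter
open Pool.Agent.ACB

namespace Pool.Agent.MMV

variable {N : Type} [TopologicalSpace N] [ChartedSpace E4 N]

theorem circ_AF [T2Space N] [IsManifold (𝓡 4) ∞ N] {ι : Type} [Finite ι] {κs : ι → ℝ × E3 → N} {ε : ℝ} {V : Type*}
    [TopologicalSpace V] [ChartedSpace E4 V] [IsManifold (𝓡 4) ∞ V] (S : Surg κs ε V)
    {c : ℝ → N} (hc : Circ c) (hcκ : ∀ (i : ι) (t : ℝ), c t ∉ range (core (κs i))) : Circ fun t => S.A (c t) := by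
  have off : ∀ t, Off κs (c t) := fun t i l h => hcκ i t ⟨l, h.symm⟩
  refine ⟨⟨fun t => (S.A_loc (c t) (off t)).contMDiffAt.comp t (hc.smooth t), fun t => ?_⟩,
    fun t => ?_, fun t t' h => hc.inj t t' (S.A_inj _ _ (off t) (off t') h)⟩
  · show S.A (c (t + 1)) = S.A (c t)
    rw [hc.per]
  · obtain ⟨Φ, hx, hΦ⟩ := S.A_loc (c t) (off t)
    obtain ⟨b, b', hb, hb0, hbr⟩ := exists_ball (c t) (Φ.open_source.mem_nhds hx)
    have hbs : ∀ x, b x ∈ Φ.source := fun x => hbr ⟨x, rfl⟩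
    have hd : deriv (b' ∘ c) t ≠ 0 := (imm_iff (hc.smooth t) hb ⟨0, hb0⟩).1 (hc.imm t)
    have hli : ∀ y ∈ Φ.source, Φ.symm (Φ y) = y := fun y hy => Φ.toPartialEquiv.left_inv hy
    refine ⟨fun x => Φ (b x), fun y => b' (Φ.symm y), ⟨fun x => ?_, ?_, ?_, ?_⟩, ⟨0, ?_⟩, ?_⟩
    · show b' (Φ.symm (Φ (b x))) = x
      rw [hli _ (hbs x), hb.left_inv]
    · exact Φ.contMDiffOn_toFun.comp_contMDiff hb.smooth hbs
    · refine hb.smooth'.comp (Φ.contMDiffOn_invFun.mono ?_) ?_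
      · rintro _ ⟨x, rfl⟩
        exact Φ.toPartialEquiv.map_source (hbs x)
      · rintro _ ⟨x, rfl⟩
        show Φ.symm (Φ (b x)) ∈ range b
        rw [hli _ (hbs x)]
        exact ⟨x, rfl⟩
    · have e : (range fun x => Φ (b x)) = Φ.toOpenPartialHomeomorph '' (range b) := by
        rw [← range_comp]
        rfl
      rw [e]
      exact Φ.toOpenPartialHomeomorph.isOpen_image_of_subset_source hb.isOpen hbr
    · show Φ (b 0) = S.A (c t)
      rw [hb0]
      exact (hΦ hx).symm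
    · have e : ((fun y => b' (Φ.symm y)) ∘ fun t => S.A (c t)) =ᶠ[𝓝 t] b' ∘ c := by
        filter_upwards [(hc.smooth.continuous.tendsto t) (Φ.open_source.mem_nhds hx)] with s hs
        show b' (Φ.symm (S.A (c s))) = b' (c s)
        rw [hΦ hs, hli _ hs]
      rw [e.deriv_eq]
      exact hd

theorem A_contOnF {ι : Type} {κs : ι → ℝ × E3 → N} {ε : ℝ} {V : Type*} [TopologicalSpace V] [ChartedSpace E4 V]
    (S : Surg κs ε V) : ContinuousOn S.A (⋃ i, range (core (κs i)))ᶜ :=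
  fun p hp => ((S.A_loc p fun i l h => hp (mem_iUnion.2 ⟨i, l, h.symm⟩)).contMDiffAt.continuousAt).continuousWithinAt

theorem move_VF [T2Space N] [IsManifold (𝓡 4) ∞ N] {ι : Type} [Finite ι] {κ : ℝ × E3 → N} {κs : ι → ℝ × E3 → N}
    {X : Type*} [TopologicalSpace X] [ChartedSpace E4 X] (h : IsSurg (consO κ κs) X) {ε : ℝ} {V : Type*}
    [TopologicalSpace V] [ChartedSpace E4 V] [IsManifold (𝓡 4) ∞ V] [T2Space V] (SV : Surg κs ε V) (hε : 0 < ε)
    {c : ℝ → N} (hc : Circ c) (hcκ : ∀ (i : ι) (t : ℝ), c t ∉ range (core (κs i)))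
    (hh : FHom univ (fun t => SV.A (κ (t, 0))) fun t => SV.A (c t)) :
    ∃ κ' : ℝ × E3 → N, core κ' = c ∧ IsSurg (consO κ' κs) X := by
  obtain ⟨ε₁, hT₁, ⟨S₁⟩⟩ := h
  have hε₁ : 0 < ε₁ := (hT₁.thick none).pos
  have hε' : 0 < min ε ε₁ := lt_min hε hε₁
  have hT : Tubes (consO κ κs) (min ε ε₁) := hT₁.mono hε' (min_le_right _ _)
  have hts : ∀ i, Thick (κs i) (min ε ε₁) := fun i => hT.thick (some i)
  obtain ⟨hT', ⟨S'⟩⟩ := surg_to_opt hT (S₁.mono (min_le_right ε ε₁)) (SV.mono (min_le_left ε ε₁))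
  have hTv : Thick (fun x => SV.A (κ x)) (min ε ε₁) := hT'.thick ()
  have hc1 : Circ (fun t => SV.A (κ (t, 0))) := hTv.circ
  have hc2 : Circ (fun t => SV.A (c t)) := circ_AF SV hc hcκ
  obtain ⟨F, hF, -⟩ := gp_iso Obst.empty hc1 hc2 (fun _ => Set.notMem_empty _) (fun _ => Set.notMem_empty _) hh
  have hF' : ∀ t, F (SV.A (κ (t, 0))) = SV.A (c t) := hF
  let κV : ℝ × E3 → V := fun x => F (SV.A (κ x))
  have hκV : Thick κV (min ε ε₁) := thick_comp hTv (U := univ) (fun _ _ _ => mem_univ _)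
    (fun x _ => F.isLocalDiffeomorph x) F.injective.injOn
  obtain ⟨SF⟩ := mv2_diffeo S' F
  let C : Set N := (⋃ i, range (core (κs i)))ᶜ
  have hC : IsOpen C := (isClosed_iUnion_of_finite fun i => (core_compact (hts i)).isClosed).isOpen_compl
  have hcC : ∀ t, c t ∈ C := by
    intro t ht
    obtain ⟨i, hi⟩ := mem_iUnion.1 ht
    exact hcκ i t hi
  have hoff : ∀ p ∈ C, Off κs p := by
    intro p hp i l hl
    exact hp (mem_iUnion.2 ⟨i, l, hl.symm⟩)
  have hAl : ∀ p ∈ C, IsLocalDiffeomorphAt (𝓡 4) (𝓡 4) ∞ SV.A p := fun p hp => SV.A_loc p (hoff p hp)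
  have hAi : InjOn SV.A C := fun p hp p' hp' he => SV.A_inj p p' (hoff p hp) (hoff p' hp') he
  have hUo : IsOpen (SV.A '' C) := mv2_open hC hAl
  obtain ⟨δ, hδ, hδε, hδU⟩ := thick_near hκV hUo (fun l => by
    show F (SV.A (κ (l, 0))) ∈ SV.A '' C
    rw [hF']
    exact ⟨c l, hcC l, rfl⟩)
  have : Nonempty N := ⟨c 0⟩
  let R : V → N := Function.invFunOn SV.A C
  have hR : ∀ p ∈ C, R (SV.A p) = p := fun p hp => hAi.leftInvOn_invFunOn hp
  have hRl : ∀ q ∈ SV.A '' C, IsLocalDiffeomorphAt (𝓡 4) (𝓡 4) ∞ R q := by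
    rintro _ ⟨p, hp, rfl⟩
    exact mv2_inv hC hAl hR hp
  have hRi : InjOn R (SV.A '' C) := by
    rintro _ ⟨p, hp, rfl⟩ _ ⟨p', hp', rfl⟩ he
    rw [hR p hp, hR p' hp'] at he
    rw [he]
  have hAR : ∀ q ∈ SV.A '' C, SV.A (R q) = q := by
    rintro _ ⟨p, hp, rfl⟩
    rw [hR p hp]
  have hκ' : Thick (fun x => R (κV x)) δ := thick_comp (hκV.mono hδ hδε) hδU hRl hRi
  have hκ0 : ∀ l, R (κV (l, 0)) = c l := by
    intro l
    show R (F (SV.A (κ (l, 0)))) = c l
    rw [hF', hR _ (hcC l)]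
  obtain ⟨δ', hδ', hδδ, hT''⟩ := tubes_consO hκ' (fun i => (hts i).mono hδ hδε)
    (fun i j hij l v l' v' hv hv' => hT.disj (some i) (some j) (fun he => hij (Option.some.inj he)) l v l' v'
      (lt_of_lt_of_le hv hδε) (lt_of_lt_of_le hv' hδε))
    (fun i l l' he => by
      have h5 : c l = κs i (l', 0) := by rw [← hκ0 l]; exact he
      exact hcκ i l ⟨l', h5.symm⟩)
  have hle : δ' ≤ min ε ε₁ := hδδ.trans hδε
  obtain ⟨S''⟩ := mv2_germ (κ' := fun x => SV.A (R (κV x))) SF hδ' hle (fun l v hv => by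
    show SV.A (R (κV (l, v))) = κV (l, v)
    exact hAR _ (hδU l v (lt_of_lt_of_le hv hδδ)))
  refine ⟨fun x => R (κV x), funext hκ0, δ', hT'', ?_⟩
  exact LKT.surg_opt hT'' (SV.mono (hle.trans (min_le_left _ _))) S''

end Pool.Agent.MMV
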