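import Pool.Agent.MMV.NFc

/-!
# MMV/NFd: handle slides in families   (block VI, squad N)

PROOF.  As `ACB.slide` (`ACB/Sld.lean`) with `slide_data` (`ACB/SlD.lean`) redone for the obstacle `W = ⋃ i, range (core (κs i))` (`obst_cores`) in place of `range (core κ)`: the parallel curve `d t = κs i (t, r • v)` is off `W`
(`hT.disj` for `j ≠ i`, `par_off` for `j = i`), the curves `m`, `c` avoid `W` (same proof: `O = {(t, x) | t ∈ ℤ → x ∉ W}`).  `V` = the surgery along the family `κs` (`LKT.exists_surgF`), `par_null` for `SV`: the same homotopy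
`D s t = SV.Q i ((max 0 (min 1 (1 - s)) * r) * ex t, v)` (copy `par_null` for the index `i`), `ins_null`, `move_NF`, `move_VF`.
`slide_at`: the same statement for two members `i ≠ j` of a family: `isSurg_reindexF` with `(Equiv.optionSubtypeNe i).symm`.
-/

open scoped ContDiff Manifold Topology unitInterval
open Set Filter
open Pool.Agent.ACB

namespace Pool.Agent.MMV

variable {N : Type} [TopologicalSpace N] [ChartedSpace E4 N]

theorem nfd_data [T2Space N] [IsManifold (𝓡 4) ∞ N] {κ : ℝ × E3 → N} {ε : ℝ} (hκ : Thick κ ε) {p : N}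
    {g h : FundamentalGroup N p} (hh : Cls p (core κ) h) {r : ℝ} (h0 : 0 < r) (h1 : r < ε) (v : S2)
    {W : Set N} (hW : Obst W) (hdoff : ∀ t, κ (t, r • v.1) ∉ W) :
    ∃ m c : ℝ → N, Circ c ∧ (∀ t, c t ∉ W) ∧ Continuous m ∧ (∀ s, m s ∉ W) ∧
      m 0 = c 0 ∧ m 1 = κ (0, r • v.1) ∧ Cls p c g ∧ Cls p (ins m (fun t => κ (t, r • v.1)) c) (g * h) := by
  set d : ℝ → N := fun t => κ (t, r • v.1) with hd
  have hcd : Cls p d h := cls_fhom (par_hom hκ h0 h1 v) hh
  obtain ⟨q, δ, hδ, hδh⟩ := hcd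
  obtain ⟨l, hl⟩ := loop_of q g
  have hO := slD_open (N := N) hW.1
  have hlO : ∀ t, (t, per l t) ∈ {x : ℝ × N | (∃ n : ℤ, x.1 = n) → x.2 ∉ W} := by
    rintro t ⟨n, hn⟩
    change t = n at hn
    subst hn
    change per l n ∉ W
    rw [slD_int]
    exact hdoff 0
  obtain ⟨c, hc, hcW, H, hH, hHper, hH0, hH1, hHO⟩ :=
    closed_curve (per_cont l) (per_per l) hW hO hlO
  have hHW : ∀ s, H s 0 ∉ W := fun s => hHO s 0 ⟨0, by simp⟩
  have hH00 : H 0 0 = d 0 := by
    rw [hH0]
    have := slD_int l 0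
    rwa [Int.cast_zero] at this
  have hcc : Continuous c := hc.smooth.continuous
  obtain ⟨γ, hγ, -⟩ := path_of hcc hc.per
  have hHc : Continuous fun s : ℝ => H s 0 := hH.comp (continuous_id.prodMk continuous_const)
  let ρ : Path (d 0) (c 0) :=
    { toFun := fun s => H s 0
      continuous_toFun := hHc.comp continuous_subtype_val
      source' := by
        change H ((0 : I) : ℝ) 0 = d 0
        rw [Icc.coe_zero, hH00]
      target' := by
        change H ((1 : I) : ℝ) 0 = c 0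
        rw [Icc.coe_one, hH1] }
  have hρ : ∀ s : I, ρ s = H s 0 := fun s => rfl
  have htr := cls_track H hH hHper q l (fun t => by rw [hH0, per_coe]) γ
    (fun t => by rw [hH1, hγ]) ρ hρ
  have hcg : FundamentalGroup.fromPath ⟦((q.trans ρ).trans γ).trans (q.trans ρ).symm⟧ = g := by
    rw [← hl]
    congr 1
    exact (Quotient.sound htr).symm
  refine ⟨fun s => H (1 - s) 0, c, hc, hcW, hHc.comp (continuous_const.sub continuous_id),
    fun s => hHW _, ?_, ?_, ⟨q.trans ρ, γ, hγ, hcg⟩, ?_⟩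
  · change H (1 - 0) 0 = c 0
    rw [sub_zero, hH1]
  · change H (1 - 1) 0 = _
    rw [sub_self, hH00]
  · refine ins_cls (q.trans ρ) γ hγ hcg ρ.symm ?_ δ hδ ?_
    · intro t
      change H ((σ t : I) : ℝ) 0 = _
      rfl
    · rw [← hδh]
      congr 1
      apply Quotient.sound
      have e1 : Path.Homotopic ((q.trans ρ).trans ρ.symm) q := by
        have a1 : Path.Homotopic ((q.trans ρ).trans ρ.symm) (q.trans (ρ.trans ρ.symm)) :=
          ⟨Path.Homotopy.transAssoc q ρ ρ.symm⟩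
        have a2 : Path.Homotopic (q.trans (ρ.trans ρ.symm)) (q.trans (Path.refl _)) :=
          Path.Homotopic.hcomp (Path.Homotopic.refl q) ⟨(Path.Homotopy.reflTransSymm ρ).symm⟩
        have a3 : Path.Homotopic (q.trans (Path.refl _)) q := ⟨Path.Homotopy.transRefl q⟩
        exact (a1.trans a2).trans a3
      exact Path.Homotopic.hcomp (Path.Homotopic.hcomp e1 (Path.Homotopic.refl δ)) e1.symm₂

theorem nfd_null {ι : Type} {κs : ι → ℝ × E3 → N} {ε : ℝ} {V : Type*} [TopologicalSpace V] [ChartedSpace E4 V]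
    (S : Surg κs ε V) (i : ι) {r : ℝ} (h0 : 0 < r) (h1 : r < ε) (v : S2) :
    ∃ (D : ℝ → ℝ → V) (y : V), (Continuous fun x : ℝ × ℝ => D x.1 x.2) ∧ (∀ s t, D s (t + 1) = D s t) ∧
      (∀ t, D 0 t = S.A (κs i (t, r • v.1))) ∧ ∀ t, D 1 t = y := by
  refine ⟨fun s t => S.Q i (((max 0 (min 1 (1 - s)) * r : ℝ) : ℂ) * ex t, v), S.Q i (0, v), ?_, ?_, ?_, ?_⟩
  · rw [continuous_iff_continuousAt]
    rintro ⟨s, t⟩
    have h2 : ‖((max 0 (min 1 (1 - s)) * r : ℝ) : ℂ) * ex t‖ < ε := by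
      obtain ⟨h3, h4⟩ := prl_cut (1 - s)
      rw [norm_mul, prl_ex_norm, mul_one, Complex.norm_real, Real.norm_eq_abs,
        abs_of_nonneg (mul_nonneg h3 h0.le)]
      nlinarith
    have h3 : ContinuousAt (S.Q i) (((max 0 (min 1 (1 - s)) * r : ℝ) : ℂ) * ex t, v) :=
      (S.Q_loc i _ v h2).contMDiffAt.continuousAt
    have h4 : Continuous fun x : ℝ × ℝ => ((((max 0 (min 1 (1 - x.1)) * r : ℝ) : ℂ) * ex x.2, v) : ℂ × S2) := by
      have h5 : Continuous fun x : ℝ × ℝ => ex x.2 := prl_ex_cont.comp continuous_snd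
      have h6 : Continuous fun x : ℝ × ℝ => ((max 0 (min 1 (1 - x.1)) * r : ℝ) : ℂ) := by
        apply Complex.continuous_ofReal.comp
        fun_prop
      exact (h6.mul h5).prodMk continuous_const
    exact ContinuousAt.comp (g := S.Q i) (x := (s, t)) h3 h4.continuousAt
  · intro s t
    change S.Q i (_ * ex (t + 1), v) = _
    rw [prl_ex_per]
  · intro t
    change S.Q i (((max 0 (min 1 (1 - 0)) * r : ℝ) : ℂ) * ex t, v) = _
    have e : (max 0 (min 1 (1 - 0)) * r : ℝ) = r := by norm_num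
    rw [e]
    exact S.glue i t r v h0 h1
  · intro t
    change S.Q i (((max 0 (min 1 (1 - 1)) * r : ℝ) : ℂ) * ex t, v) = _
    have e : (max 0 (min 1 (1 - 1)) * r : ℝ) = 0 := by norm_num
    rw [e, Complex.ofReal_zero, zero_mul]

theorem slideF [T2Space N] [IsManifold (𝓡 4) ∞ N] {ι : Type} [Finite ι] {κ : ℝ × E3 → N} {κs : ι → ℝ × E3 → N}
    {X : Type*} [TopologicalSpace X] [ChartedSpace E4 X] (h : IsSurg (consO κ κs) X) {p : N}
    {g k : FundamentalGroup N p} (h1 : Cls p (core κ) (g * k)) (i : ι) (h2 : Cls p (core (κs i)) k) :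
    ∃ κ' : ℝ × E3 → N, IsSurg (consO κ' κs) X ∧ Cls p (core κ') g := by
  classical
  have h' := h
  obtain ⟨ε, hT, ⟨S⟩⟩ := h'
  have hTs : Tubes κs ε := ⟨fun j => hT.thick (some j), fun j j' hj =>
    hT.disj (some j) (some j') (fun e => hj (Option.some.inj e))⟩
  have hκ₁ : Thick κ ε := hT.thick none
  have hκ₂ : Thick (κs i) ε := hTs.thick i
  obtain ⟨V, tV, cV, hV, hT2, ⟨SV⟩⟩ := LKT.exists_surgF hTs
  have hε := hκ₂.pos
  have hr0 : 0 < ε / 2 := by positivity
  have hr1 : ε / 2 < ε := by linarith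
  set v : S2 := ⟨EuclideanSpace.single 0 1, by simp⟩ with hv
  set W : Set N := ⋃ j, range (core (κs j)) with hWdef
  have hW : Obst W := obst_cores fun j => (hTs.thick j).circ.toSCirc
  set d : ℝ → N := fun t => κs i (t, (ε / 2) • v.1) with hd
  have hvn : ‖(ε / 2) • v.1‖ < ε := by
    rw [norm_smul, prl_S2, mul_one, Real.norm_eq_abs, abs_of_pos hr0]
    exact hr1
  have hdW : ∀ t, d t ∉ W := by
    intro t ht
    obtain ⟨j, hj⟩ := mem_iUnion.1 ht
    by_cases hij : i = j
    · subst hij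
      exact par_off hκ₂ hr0 hr1 v t hj
    · obtain ⟨l, hl⟩ := hj
      exact hTs.disj i j hij t _ l 0 hvn (by rw [norm_zero]; exact hε) hl.symm
  have hWj : ∀ {x : N}, x ∉ W → ∀ j, x ∉ range (core (κs j)) := fun hx j hj =>
    hx (mem_iUnion.2 ⟨j, hj⟩)
  obtain ⟨m, c, hc, hcW, hm, hmW, hm0, hm1, hcg, hins⟩ := nfd_data hκ₂ (g := g) h2 hr0 hr1 v hW hdW
  have hdc : Continuous d := par_cont hκ₂ hr0 hr1 v
  have hdp : ∀ t, d (t + 1) = d t := par_per hκ₂ hr0 hr1 v
  have hcc : Continuous c := hc.smooth.continuous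
  set O : Set (ℝ × N) := {q | q.2 ∉ W} with hO
  have hOO : OpnS O := by
    refine ⟨?_, fun t x => Iff.rfl⟩
    exact hW.1.isOpen_compl.preimage continuous_snd
  have hlc : Continuous (ins m d c) := ins_cont hm hdc hcc hdp hc.per hm0 hm1
  have hlO : ∀ t, (t, ins m d c t) ∈ O := fun t =>
    ins_mem (U := Wᶜ) hmW hdW hcW t
  obtain ⟨c', hc', hcW', hF⟩ := closed_curve hlc (ins_per m d c) hW hOO hlO
  have hcls' : Cls p c' (g * k) := cls_fhom (hF.mono (subset_univ _)) hins
  have hF1 : FHom univ (core κ) c' :=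
    cls_unique (fun t => hκ₁.per t 0 (by rw [norm_zero]; exact hε)) hc'.per h1 hcls'
  obtain ⟨κ', hcore', hS'⟩ := move_NF h hc' (fun j t => hWj (hcW' t) j) hF1
  have hAc : ContinuousOn SV.A Wᶜ := A_contOnF SV
  have hF2 : FHom univ (fun t => SV.A (c' t)) fun t => SV.A (ins m d c t) := by
    refine FHom.map hF.symm (f := SV.A) (hAc.mono ?_) fun t x _ => mem_univ _
    rintro x ⟨t, ht⟩
    exact ht
  rw [ins_map] at hF2
  obtain ⟨D, y, hD, hDp, hD0, hD1⟩ := nfd_null SV i hr0 hr1 v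
  have hD0' : D 0 = fun t => SV.A (d t) := funext hD0
  have hF3 : FHom univ (ins (fun t => SV.A (m t)) (D 0) fun t => SV.A (c t)) fun t => SV.A (c t) := by
    have e1 : Continuous fun t => SV.A (m t) := hAc.comp_continuous hm hmW
    have e2 : Continuous fun t => SV.A (c t) := hAc.comp_continuous hcc hcW
    have e3 : ∀ t, SV.A (c (t + 1)) = SV.A (c t) := fun t => by rw [hc.per]
    have e4 : SV.A (m 0) = SV.A (c 0) := by rw [hm0]
    have e5 : SV.A (m 1) = D 0 0 := by rw [hD0, hm1]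
    exact ins_null e1 e2 e3 e4 hD hDp hD1 e5
  rw [hD0'] at hF3
  have hF4 := hF2.trans hF3
  rw [← hcore'] at hF4
  obtain ⟨κ'', hcore'', hS''⟩ := move_VF hS' SV hε hc (fun j t => hWj (hcW t) j) hF4
  exact ⟨κ'', hS'', by rw [hcore'']; exact hcg⟩

theorem slide_at [T2Space N] [IsManifold (𝓡 4) ∞ N] {ι : Type} [Finite ι] [DecidableEq ι] {κ : ι → ℝ × E3 → N}
    {X : Type*} [TopologicalSpace X] [ChartedSpace E4 X] (h : IsSurg κ X) {p : N}
    {g k : FundamentalGroup N p} {i j : ι} (hij : i ≠ j) (h1 : Cls p (core (κ i)) (g * k))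
    (h2 : Cls p (core (κ j)) k) :
    ∃ κ' : ℝ × E3 → N, IsSurg (Function.update κ i κ') X ∧ Cls p (core κ') g := by
  have e1 := isSurg_reindexF (Equiv.optionSubtypeNe i) h
  have e2 : (fun o : Option {a : ι // a ≠ i} => κ (Equiv.optionSubtypeNe i o)) =
      consO (κ i) fun a : {a : ι // a ≠ i} => κ a.1 := by
    funext o
    cases o with
    | none => rfl
    | some a => rfl
  rw [e2] at e1
  obtain ⟨κ', h3, h4⟩ := slideF e1 h1 ⟨j, fun e => hij e.symm⟩ h2
  refine ⟨κ', ?_, h4⟩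
  have e3 := isSurg_reindexF (Equiv.optionSubtypeNe i).symm h3
  have e4 : (fun a : ι => consO κ' (fun a : {a : ι // a ≠ i} => κ a.1) ((Equiv.optionSubtypeNe i).symm a)) =
      Function.update κ i κ' := by
    funext a
    by_cases ha : a = i
    · subst ha
      rw [Equiv.optionSubtypeNe_symm_self, Function.update_self]
      rfl
    · rw [Equiv.optionSubtypeNe_symm_of_ne ha, Function.update_of_ne ha]
      rfl
  rwa [e4] at e3

end Pool.Agent.MMV
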