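import Pool.Agent.MMV.NFd

/-!
# MMV/NFe: the moves on the classes of a family   (block VI, squad N)

PROOFS.
* `Fam.reindex`: `isSurg_reindexF`.  `Fam.conj`: the same circles, `cls_conj`.  `Fam.inv`: `isSurg_revF`, `cls_inv` (see `ACB.two_inv`, `acb_per`).
* `Fam.div` (`g i = a k`, `k = g j`: replace by `a`): `slide_at`.  `Fam.mul`: from `g i = (g i * g j) * (g j)⁻¹` by `Fam.inv` at `j`, `Fam.div`, `Fam.inv` at `j` (as `ACB.two_mul'`).
* `Fam.ncl`: let `S` be the set of `n` such that for all `a`, `b`: if `Fam p (update g i a) X` then `Fam p (update g i (a * n)) X` and `Fam p (update g i (n * a)) X`.  `S` contains `1`, is closed under products, and if `n ∈ S'` where `S'` is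
  the same set (it contains `(g j)^{±1}`, `j ≠ i`, by `Fam.mul`, `Fam.div`, `Fam.conj`: `k * a = k * (a * k) * k⁻¹`), then also its conjugates: `a * (w n w⁻¹) = w ((w⁻¹ a w) n) w⁻¹`.  To get inverses put the condition for `n` and for `n⁻¹` into
  the definition of `S`.  `Subgroup.normalClosure` induction: `Subgroup.closure_induction` (`normalClosure` is by definition the closure of `Group.conjugatesOfSet`).  Note `update (update g i a) i b = update g i b` (`Function.update_idem`)
  and for `j ≠ i` `(update g i a) j = g j`.
* `Fam.ncl'`: `g' = update g i a'` with `a'⁻¹ * g i` or ... in the form used later: if `(g i)⁻¹ * a' ∈ normalClosure (g '' {i}ᶜ)` then `Fam p (update g i a') X`: `a' = g i * n`.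
-/

open scoped ContDiff Manifold Topology unitInterval
open Set Filter
open Pool.Agent.ACB

namespace Pool.Agent.MMV

variable {N : Type} [TopologicalSpace N] [ChartedSpace E4 N] {p : N} {ι : Type} {g : ι → FundamentalGroup N p}
  {X : Type*} [TopologicalSpace X] [ChartedSpace E4 X]

theorem Fam.reindex (h : Fam p g X) {ι' : Type} (e : ι' ≃ ι) : Fam p (fun i => g (e i)) X := by
  obtain ⟨κ, hs, hc⟩ := h
  exact ⟨fun i => κ (e i), isSurg_reindexF e hs, fun i => hc (e i)⟩

theorem Fam.conj [DecidableEq ι] (h : Fam p g X) (i : ι) (w : FundamentalGroup N p) :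
    Fam p (Function.update g i (w * g i * w⁻¹)) X := by
  obtain ⟨κ, hs, hc⟩ := h
  refine ⟨κ, hs, fun j => ?_⟩
  by_cases hj : j = i
  · subst hj
    rw [Function.update_self]
    exact cls_conj (hc j) w
  · rw [Function.update_of_ne hj]
    exact hc j

theorem Fam.inv [DecidableEq ι] (h : Fam p g X) (i : ι) : Fam p (Function.update g i (g i)⁻¹) X := by
  obtain ⟨κ, hs, hc⟩ := h
  refine ⟨Function.update κ i fun x => κ i (-x.1, x.2), isSurg_revF hs i, fun j => ?_⟩
  by_cases hj : j = i
  · subst hj
    rw [Function.update_self, Function.update_self]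
    have hper : ∀ t, core (κ j) (t + 1) = core (κ j) t := by
      obtain ⟨ε, hT, -⟩ := hs
      intro t
      have h0 := (hT.thick j).per t 0 (by simpa using (hT.thick j).pos)
      simpa [core] using h0
    exact cls_inv hper (hc j)
  · rw [Function.update_of_ne hj, Function.update_of_ne hj]
    exact hc j

theorem nfe_div [T2Space N] [IsManifold (𝓡 4) ∞ N] [Finite ι] [DecidableEq ι] (h : Fam p g X) {i j : ι}
    (hij : i ≠ j) {a : FundamentalGroup N p} (ha : g i = a * g j) : Fam p (Function.update g i a) X := by
  obtain ⟨κ, hs, hc⟩ := h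
  obtain ⟨κ', hs', hc'⟩ := slide_at hs hij (g := a) (k := g j) (by rw [← ha]; exact hc i) (hc j)
  refine ⟨Function.update κ i κ', hs', fun l => ?_⟩
  by_cases hl : l = i
  · subst hl
    rw [Function.update_self, Function.update_self]
    exact hc'
  · rw [Function.update_of_ne hl, Function.update_of_ne hl]
    exact hc l

theorem Fam.mul [T2Space N] [IsManifold (𝓡 4) ∞ N] [Finite ι] [DecidableEq ι] (h : Fam p g X) {i j : ι}
    (hij : i ≠ j) : Fam p (Function.update g i (g i * g j)) X := by
  have h1 := h.inv j
  have h2 := nfe_div h1 hij (a := g i * g j) (by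
    rw [Function.update_of_ne hij, Function.update_self, mul_inv_cancel_right])
  have h3 := h2.inv j
  have e : Function.update (Function.update (Function.update g j (g j)⁻¹) i (g i * g j)) j
      (Function.update (Function.update g j (g j)⁻¹) i (g i * g j) j)⁻¹ = Function.update g i (g i * g j) := by
    funext l
    by_cases hl : l = j
    · rw [hl, Function.update_self, Function.update_of_ne (Ne.symm hij), Function.update_self, inv_inv,
        Function.update_of_ne (Ne.symm hij)]
    · rw [Function.update_of_ne hl]
      by_cases hl' : l = i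
      · rw [hl', Function.update_self, Function.update_self]
      · rw [Function.update_of_ne hl', Function.update_of_ne hl, Function.update_of_ne hl']
  rwa [e] at h3

/-- the multipliers of the class `i` -/
theorem nfe_conj [DecidableEq ι] (g : ι → FundamentalGroup N p) (i : ι) (a w : FundamentalGroup N p)
    (h : Fam p (Function.update g i a) X) : Fam p (Function.update g i (w * a * w⁻¹)) X := by
  have h1 := h.conj i w
  rwa [Function.update_self, Function.update_idem] at h1

theorem nfe_gen [T2Space N] [IsManifold (𝓡 4) ∞ N] [Finite ι] [DecidableEq ι] (g : ι → FundamentalGroup N p) {i j : ι}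
    (hij : i ≠ j) (a : FundamentalGroup N p) :
    Fam p (Function.update g i a) X ↔ Fam p (Function.update g i (a * g j)) X := by
  constructor
  · intro h
    have h1 := h.mul hij
    rwa [Function.update_self, Function.update_of_ne (Ne.symm hij), Function.update_idem] at h1
  · intro h
    have h1 := nfe_div h hij (a := a) (by rw [Function.update_self, Function.update_of_ne (Ne.symm hij)])
    rwa [Function.update_idem] at h1

theorem nfe_ncl [T2Space N] [IsManifold (𝓡 4) ∞ N] [Finite ι] [DecidableEq ι] (g : ι → FundamentalGroup N p) (i : ι)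
    {n : FundamentalGroup N p} (hn : n ∈ Subgroup.normalClosure (g '' {i}ᶜ)) (a : FundamentalGroup N p) :
    Fam p (Function.update g i a) X ↔ Fam p (Function.update g i (a * n)) X := by
  let H : Subgroup (FundamentalGroup N p) :=
    { carrier := {n | ∀ a, Fam p (Function.update g i a) X ↔ Fam p (Function.update g i (a * n)) X}
      mul_mem' := by
        intro n m hn hm b
        rw [← mul_assoc]
        exact (hn b).trans (hm (b * n))
      one_mem' := by
        intro b
        rw [mul_one]
      inv_mem' := by
        intro n hn b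
        have h1 := hn (b * n⁻¹)
        rw [inv_mul_cancel_right] at h1
        exact h1.symm }
  have hH : H.Normal := by
    refine ⟨fun n hn w b => ?_⟩
    have hn' : ∀ a, Fam p (Function.update g i a) X ↔ Fam p (Function.update g i (a * n)) X := hn
    constructor
    · intro h
      have h1 := nfe_conj g i b w⁻¹ h
      have h2 := (hn' _).1 h1
      have h3 := nfe_conj g i _ w h2
      have e : w * (w⁻¹ * b * w⁻¹⁻¹ * n) * w⁻¹ = b * (w * n * w⁻¹) := by group
      rwa [e] at h3
    · intro h
      have h1 := nfe_conj g i _ w⁻¹ h
      have e : w⁻¹ * (b * (w * n * w⁻¹)) * w⁻¹⁻¹ = (w⁻¹ * b * w) * n := by group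
      rw [e] at h1
      have h2 := (hn' _).2 h1
      have h3 := nfe_conj g i _ w h2
      have e' : w * (w⁻¹ * b * w) * w⁻¹ = b := by group
      rwa [e'] at h3
  have hle : Subgroup.normalClosure (g '' {i}ᶜ) ≤ H := by
    refine Subgroup.normalClosure_le_normal ?_
    rintro _ ⟨j, hj, rfl⟩
    intro b
    exact nfe_gen g (fun h => hj h.symm) b
  exact hle hn a

/-- a class may be multiplied by any element of the normal closure of the others -/
theorem Fam.ncl [T2Space N] [IsManifold (𝓡 4) ∞ N] [Finite ι] [DecidableEq ι] (h : Fam p g X) (i : ι)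
    {a : FundamentalGroup N p} (ha : (g i)⁻¹ * a ∈ Subgroup.normalClosure (g '' {i}ᶜ)) :
    Fam p (Function.update g i a) X := by
  have h1 := (nfe_ncl (X := X) g i ha (g i)).1 (by rw [Function.update_eq_self]; exact h)
  rwa [mul_inv_cancel_left] at h1

end Pool.Agent.MMV
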