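import Pool.Agent.MMV.NGDefs
import Pool.Agent.ACB.Smo

/-!
# MMV/NGr: general position of closed curves relative to a set of times   (block VI, squad G)

`h` is a closed curve which is already good (smooth, immersed, off `W`, without double points) during the times of the open periodic set `U`; `K ⊆ U` is closed, periodic.  Then there is an embedded circle `c` off `W` with `c = h` on `K`, homotopic to `h`
in `O`.

PROOF.  Balls: `cover_opn` (`ACB/Cov.lean`), with `m` as large as we want: redo `cover` with `m = max (max 4 m₁) m₀` (`cover_ge`, `cover_opn_ge`).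
`lebesgue`: if `K ⊆ U`, `K` closed, `U` open, both periodic, then for all large `m`: for every `i < m`, if the closed interval `J i = [(i - 1) / m, (i + 2) / m]` meets `K + ℤ = K` then `J i ⊆ U` (compactness of `K ∩ [-1, 2]`: a thickening of it is in `U`).
`rel_smoothing` (`h` continuous, smooth at the times of `U`): as `smoothing` (`ACB/Smo.lean`), but the step `smooth_step` is made only for the `i < m` for which `J i` does not meet `K` (mod `ℤ`: `J i + n`; since `K` is periodic it is the same).  Then the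
curve does not change at the times of `K` (need: `smooth_step` does not change `g` at the times `t` with `t ∉ Zn β`: its new curve is `mdf b p q (K 1) g` with `K 1 t = b' (g t) + (1 * β t) • ..`; redo `smooth_step` with the additional conclusion
`∀ t, t ∉ Zn β → g' t = g t`), and it is smooth at every time: `t` in the middle of some `J i`: if `J i` meets `K` then `t ∈ U`, `h` is smooth at `t`, and smoothness is preserved by the steps; otherwise the step `i` makes it smooth.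
`rel_sweep` (`g` an `SCirc`, good at the times of `U`): as `sweep` (`ACB/Swp.lean`): `gp_step` for the `i < m` for which `J i` does not meet `K`; a time which is in no processed zone is in the plateau of some unprocessed `i`, so in `U`, and `g` is unchanged
there; `Good W S g` for `S` = the union of the processed zones; at the end every pair of times with the same image: if one of them is in `S`: by `Good`; otherwise both are in `U` with the curve unchanged: by the hypothesis on `h`.  Immersed: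
`gp_step` preserves `Imm` off the zone.
`rel_curve`: let `V` be an open periodic set with `K ⊆ V ⊆ closure V ⊆ U` (`normal space`: `exists_open_between..`, apply it in the circle, or: `V = {t | dist to K < r}`, with `r` from the compactness; `K` is periodic so `V` is), `rel_smoothing` with
`K := closure V` (the new curve is equal to `h` on `closure V`, so it is good at the times of `V`), then `rel_sweep` with `U := V`.
-/

open scoped ContDiff Manifold Topology unitInterval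
open Set Filter
open Pool.Agent.ACB

namespace Pool.Agent.MMV

variable {N : Type} [TopologicalSpace N] [ChartedSpace E4 N]

theorem ngr_int {U : Set ℝ} (h : ∀ t, t + 1 ∈ U ↔ t ∈ U) (t : ℝ) (n : ℤ) : t + n ∈ U ↔ t ∈ U := by
  induction n using Int.induction_on generalizing t with
  | zero => simp
  | succ n ih =>
    push_cast
    rw [← add_assoc, h]
    exact_mod_cast ih t
  | pred n ih =>
    have e : t + ((-(n : ℤ) - 1 : ℤ) : ℝ) + 1 = t + ((-(n : ℤ) : ℤ) : ℝ) := by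
      push_cast
      ring
    rw [← h, e]
    exact ih t

theorem ngr_cover [IsManifold (𝓡 4) ∞ N] {g : ℝ → N} (hg : Continuous g) (m₁ : ℕ) :
    ∃ m : ℕ, 4 ≤ m ∧ m₁ ≤ m ∧ ∀ i < m, ∃ (b : E4 → N) (b' : N → E4), IsBall b b' ∧
      ∀ t ∈ Icc (((i : ℝ) - 1) / m) (((i : ℝ) + 2) / m), g t ∈ range b := by
  choose b b' hb hb0 _ using fun t₀ : ℝ => exists_ball (g t₀) (U := Set.univ) Filter.univ_mem
  have h1 : ∀ t₀, IsOpen (g ⁻¹' range (b t₀)) := fun t₀ => (hb t₀).isOpen.preimage hg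
  have h2 : Icc (-1 : ℝ) 2 ⊆ ⋃ t₀, g ⁻¹' range (b t₀) := by
    intro t _
    exact mem_iUnion.2 ⟨t, 0, hb0 t⟩
  obtain ⟨δ, hδ, h3⟩ := lebesgue_number_lemma_of_metric isCompact_Icc h1 h2
  obtain ⟨m₀, hm₀⟩ := exists_nat_gt (3 / δ)
  obtain ⟨m, hm⟩ : ∃ m : ℕ, m = max (max 4 m₁) m₀ := ⟨_, rfl⟩
  have hm4 : 4 ≤ m := hm ▸ (le_max_left 4 m₁).trans (le_max_left _ _)
  have hm1 : m₁ ≤ m := hm ▸ (le_max_right 4 m₁).trans (le_max_left _ _)
  have hmm : (m₀ : ℝ) ≤ m := by exact_mod_cast (hm ▸ le_max_right _ _ : m₀ ≤ m)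
  have hm4' : (4 : ℝ) ≤ m := by exact_mod_cast hm4
  have hmp : (0 : ℝ) < m := by linarith
  have hδm : 3 < δ * m := by
    rw [div_lt_iff₀ hδ] at hm₀
    nlinarith
  refine ⟨m, hm4, hm1, fun i hi => ?_⟩
  have hi' : (i : ℝ) < m := by exact_mod_cast hi
  have hi0 : (0 : ℝ) ≤ i := Nat.cast_nonneg i
  have hx : (i : ℝ) / m ∈ Icc (-1 : ℝ) 2 := by
    constructor
    · have : 0 ≤ (i : ℝ) / m := by positivity
      linarith
    · rw [div_le_iff₀ hmp]
      linarith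
  obtain ⟨t₀, ht₀⟩ := h3 _ hx
  refine ⟨b t₀, b' t₀, hb t₀, fun t ht => ?_⟩
  have h4 : t ∈ Metric.ball ((i : ℝ) / m) δ := by
    rw [Metric.mem_ball, Real.dist_eq, abs_lt]
    obtain ⟨h5, h6⟩ := ht
    rw [div_le_iff₀ hmp] at h5
    rw [le_div_iff₀ hmp] at h6
    have h7 : (i : ℝ) / m * m = i := div_mul_cancel₀ _ hmp.ne'
    constructor
    · have h8 : -δ * m < (t - (i : ℝ) / m) * m := by
        rw [sub_mul, h7]
        linarith
      exact lt_of_mul_lt_mul_right h8 hmp.le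
    · have h8 : (t - (i : ℝ) / m) * m < δ * m := by
        rw [sub_mul, h7]
        linarith
      exact lt_of_mul_lt_mul_right h8 hmp.le
  exact ht₀ h4

theorem ngr_cover_opn [IsManifold (𝓡 4) ∞ N] {g : ℝ → N} (hg : Continuous g) (hper : ∀ t, g (t + 1) = g t)
    {O : Set (ℝ × N)} (hO : OpnS O) (hgO : ∀ t, (t, g t) ∈ O) (m₁ : ℕ) :
    ∃ (m : ℕ) (O' : Set (ℝ × N)), 4 ≤ m ∧ m₁ ≤ m ∧ OpnS O' ∧ O' ⊆ O ∧ (∀ t, (t, g t) ∈ O') ∧
      ∀ i < m, ∃ (b : E4 → N) (b' : N → E4), IsBall b b' ∧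
        ∀ t ∈ Icc (((i : ℝ) - 1) / m) (((i : ℝ) + 2) / m), ∀ x, (t, x) ∈ O' → x ∈ range b := by
  obtain ⟨m, hm, hm1, h⟩ := ngr_cover hg m₁
  have : Nonempty N := ⟨g 0⟩
  choose! b b' hb using h
  refine ⟨m, O ∩ {x | ∀ i < m, x ∈ Restr (((i : ℝ) - 1) / m) (((i : ℝ) + 2) / m) (b i)}, hm, hm1,
    hO.inter (OpnS.biInter fun i hi => opn_restr (hb i hi).1 _ _), inter_subset_left, ?_, ?_⟩
  · intro t
    exact ⟨hgO t, fun i hi => restr_graph hper (hb i hi).2 t⟩
  · intro i hi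
    exact ⟨b i, b' i, (hb i hi).1, fun t ht x hx => restr_use (hx.2 i hi) ht⟩

/-- the Lebesgue number -/
theorem ngr_leb {U K : Set ℝ} (hU : IsOpen U) (hK : IsClosed K) (hKU : K ⊆ U) :
    ∃ m₁ : ℕ, ∀ m : ℕ, 4 ≤ m → m₁ ≤ m → ∀ i < m, (∃ t ∈ Icc (((i : ℝ) - 1) / m) (((i : ℝ) + 2) / m), t ∈ K) →
      Icc (((i : ℝ) - 1) / m) (((i : ℝ) + 2) / m) ⊆ U := by
  have hc : IsCompact (K ∩ Icc (-1) 2) := isCompact_Icc.inter_left hK
  obtain ⟨δ, hδ, hsub⟩ := hc.exists_thickening_subset_open hU (inter_subset_left.trans hKU)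
  obtain ⟨m₀, hm₀⟩ := exists_nat_gt (3 / δ)
  refine ⟨m₀, fun m hm hm' i hi ⟨t, ht, htK⟩ t' ht' => ?_⟩
  have hm4' : (4 : ℝ) ≤ m := by exact_mod_cast hm
  have hmm : (m₀ : ℝ) ≤ m := by exact_mod_cast hm'
  have hmp : (0 : ℝ) < m := by linarith
  have hi' : (i : ℝ) + 1 ≤ m := by exact_mod_cast hi
  have hi0 : (0 : ℝ) ≤ i := Nat.cast_nonneg i
  have hδm : 3 < δ * m := by
    rw [div_lt_iff₀ hδ] at hm₀
    nlinarith
  apply hsub
  rw [Metric.mem_thickening_iff]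
  obtain ⟨h1, h2⟩ := ht
  obtain ⟨h3, h4⟩ := ht'
  rw [div_le_iff₀ hmp] at h1 h3
  rw [le_div_iff₀ hmp] at h2 h4
  refine ⟨t, ⟨htK, ?_, ?_⟩, ?_⟩
  · by_contra h
    rw [not_le] at h
    nlinarith
  · by_contra h
    rw [not_le] at h
    nlinarith
  · rw [Real.dist_eq, abs_lt]
    constructor
    · have h8 : -δ * m < (t' - t) * m := by
        rw [sub_mul]
        linarith
      exact lt_of_mul_lt_mul_right h8 hmp.le
    · have h8 : (t' - t) * m < δ * m := by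
        rw [sub_mul]
        linarith
      exact lt_of_mul_lt_mul_right h8 hmp.le

theorem ngr_smooth_step [T2Space N] [IsManifold (𝓡 4) ∞ N] {g : ℝ → N} (hg : Continuous g)
    (hper : ∀ t, g (t + 1) = g t) {b : E4 → N} {b' : N → E4}
    (hb : IsBall b b') {p q : ℝ} (hq : q < p + 1) (hgb : ∀ t ∈ Icc p q, g t ∈ range b) {β : ℝ → ℝ}
    (hβ : Cut β p q) {O : Set (ℝ × N)} (hO : OpnS O) (hgO : ∀ t, (t, g t) ∈ O) :
    ∃ g' : ℝ → N, Continuous g' ∧ (∀ t, g' (t + 1) = g' t) ∧ FHom O g g' ∧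
      (∀ t, ContMDiffAt 𝓘(ℝ, ℝ) (𝓡 4) ∞ g t → ContMDiffAt 𝓘(ℝ, ℝ) (𝓡 4) ∞ g' t) ∧
      (∀ (t : ℝ) (n : ℤ), (∀ᶠ u in 𝓝 (t + n), β u = 1) → ContMDiffAt 𝓘(ℝ, ℝ) (𝓡 4) ∞ g' t) ∧
      ∀ t, t ∉ Zn β → g' t = g t := by
  obtain ⟨p', q', hp', hpq', hq', hsupp⟩ := hβ.supp
  have hγ : ContinuousOn (fun t => b' (g t)) (Icc p q) := hb.contOn.comp hg.continuousOn hgb
  obtain ⟨δ, hδ, hroom⟩ := room hO.isOpen hb hg hgb (fun t _ => hgO t)
  obtain ⟨M, hM1, hM⟩ : ∃ M : ℝ, 1 ≤ M ∧ ∀ t ∈ Icc p q, β t ≤ M := by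
    obtain ⟨M, hM⟩ := (isCompact_Icc (a := p) (b := q)).bddAbove_image (f := β) hβ.smooth.continuous.continuousOn
    refine ⟨max M 1, le_max_right _ _, fun t ht => le_max_of_le_left (hM ⟨t, ht, rfl⟩)⟩
  have hM0 : 0 < M := by linarith
  obtain ⟨P, hP, hPγ⟩ := smt_approx hγ (div_pos hδ hM0)
  set K : ℝ → ℝ → E4 := fun s t => b' (g t) + (s * β t) • (P t - b' (g t)) with hK
  have hz : ∀ t, (t ≤ p' ∨ q' ≤ t) → β t = 0 := by
    intro t ht
    by_contra h0
    have := hsupp t h0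
    rcases ht with h | h
    · linarith [this.1]
    · linarith [this.2]
  have hend : ∀ s ∈ Icc (0 : ℝ) 1, ∀ t ∈ Icc p q, (t ≤ p' ∨ q' ≤ t) → b (K s t) = g t := by
    intro s _ t ht h
    simp only [hK]
    rw [hz t h, mul_zero, zero_smul, add_zero, hb.right_inv (hgb t ht)]
  have hfh : FHom O g (mdf b p q (K 1) g) := by
    refine mdf_fhom hO hb hg hper hp' hpq' hq' hq ?_ hend ?_ ?_ hgO
    · have hγ2 : ContinuousOn (fun x : ℝ × ℝ => b' (g x.2)) (Icc (0 : ℝ) 1 ×ˢ Icc p q) :=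
        hγ.comp continuous_snd.continuousOn fun x hx => hx.2
      have hγ3 : ContinuousOn (fun x : ℝ × ℝ => P x.2 - b' (g x.2)) (Icc (0 : ℝ) 1 ×ˢ Icc p q) :=
        (hP.continuous.comp continuous_snd).continuousOn.sub hγ2
      have hγ4 : ContinuousOn (fun x : ℝ × ℝ => x.1 * β x.2) (Icc (0 : ℝ) 1 ×ˢ Icc p q) :=
        (continuous_fst.mul (hβ.smooth.continuous.comp continuous_snd)).continuousOn
      exact hγ2.add (hγ4.smul hγ3)
    · intro t ht
      simp only [hK]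
      rw [zero_mul, zero_smul, add_zero, hb.right_inv (hgb t ht)]
    · intro s hs t ht
      refine hroom t ht _ ?_
      simp only [hK]
      rw [add_sub_cancel_left, norm_smul, Real.norm_eq_abs, abs_of_nonneg (mul_nonneg hs.1 (hβ.nonneg t))]
      have h1 : s * β t ≤ M := by
        calc s * β t ≤ 1 * β t := mul_le_mul_of_nonneg_right hs.2 (hβ.nonneg t)
          _ = β t := one_mul _
          _ ≤ M := hM t ht
      calc s * β t * ‖P t - b' (g t)‖ ≤ M * ‖P t - b' (g t)‖ := mul_le_mul_of_nonneg_right h1 (norm_nonneg _)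
        _ < M * (δ / M) := mul_lt_mul_of_pos_left (hPγ t ht) hM0
        _ = δ := by field_simp
  have hcont : Continuous (mdf b p q (K 1) g) := by
    obtain ⟨H, hH, _, _, hH1, _⟩ := hfh
    rw [← hH1]
    exact hH.comp (continuous_const.prodMk continuous_id)
  refine ⟨mdf b p q (K 1) g, hcont, fun t => mdf_per hper t, hfh, ?_, ?_, ?_⟩
  · intro t ht
    obtain ⟨n, t₀, rfl, h | h⟩ := smt_dich hp' hq' hq t
    · refine ContMDiffAt.congr_of_eventuallyEq ?_ (mdf_near_in hq n h)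
      have h1 : ContMDiffAt 𝓘(ℝ, ℝ) (𝓡 4) ∞ g t₀ := by
        have h2 : g = g ∘ fun u => u + (n : ℝ) := by
          funext u
          exact (per_int hper u n).symm
        rw [h2]
        refine ContMDiffAt.comp t₀ ht ?_
        exact (contDiff_id.add contDiff_const).contMDiff.contMDiffAt
      have h3 : ContDiffAt ℝ ∞ (fun u => b' (g u)) t₀ := coord_smooth h1 hb (hgb t₀ ⟨h.1.le, h.2.le⟩)
      have h4 : ContDiffAt ℝ ∞ (K 1) t₀ := by
        have h6 : ContDiffAt ℝ ∞ (fun t => P t - b' (g t)) t₀ := hP.contDiffAt.sub h3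
        have h7 : ContDiffAt ℝ ∞ (fun t => 1 * β t) t₀ := contDiffAt_const.mul hβ.smooth.contDiffAt
        exact h3.add (h7.smul h6)
      have h5 : ContDiffAt ℝ ∞ (fun u : ℝ => K 1 (u - n)) (t₀ + n) := by
        refine ContDiffAt.comp (t₀ + n : ℝ) (g := K 1) (f := fun u : ℝ => u - n) ?_ (contDiffAt_id.sub contDiffAt_const)
        rw [add_sub_cancel_right]
        exact h4
      exact ContMDiffAt.comp (t₀ + n : ℝ) (g := b) hb.smooth.contMDiffAt h5.contMDiffAt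
    · refine ContMDiffAt.congr_of_eventuallyEq ht (mdf_near_out hper hp' hpq' hq' hq ?_ n h)
      intro u hu hu'
      exact hend 1 ⟨zero_le_one, le_rfl⟩ u ⟨hu.1, hu.2.le⟩ hu'
  · intro t n h1
    have h2 : β (t + n) = 1 := h1.self_of_nhds
    have h3 : t + n ∈ Ioo p' q' := hsupp _ (by rw [h2]; exact one_ne_zero)
    have h4 : t + n ∈ Ioo p q := ⟨by linarith [h3.1], by linarith [h3.2]⟩
    have h5 := mdf_near_in (b := b) (k := K 1) (g := g) hq (-n) h4
    have h6 : t + n + ((-n : ℤ) : ℝ) = t := by push_cast; ring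
    rw [h6] at h5
    refine ContMDiffAt.congr_of_eventuallyEq ?_ h5
    have h7 : ContDiffAt ℝ ∞ (K 1) (t + n) := by
      refine hP.contDiffAt.congr_of_eventuallyEq ?_
      filter_upwards [h1] with u hu
      simp only [hK]
      rw [hu, mul_one, one_smul]
      abel
    have h8 : ContDiffAt ℝ ∞ (fun u : ℝ => K 1 (u - ((-n : ℤ) : ℝ))) t := by
      refine ContDiffAt.comp t (g := K 1) (f := fun u : ℝ => u - ((-n : ℤ) : ℝ)) ?_ (contDiffAt_id.sub contDiffAt_const)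
      have h9 : t - ((-n : ℤ) : ℝ) = t + n := by push_cast; ring
      rw [h9]
      exact h7
    exact ContMDiffAt.comp t (g := b) hb.smooth.contMDiffAt h8.contMDiffAt
  · intro t ht
    obtain ⟨n, t₀, rfl, h | h⟩ := dich p q t
    · have h1 : β t₀ = 0 := by
        by_contra h0
        refine ht ⟨-n, ?_⟩
        push_cast
        rw [add_neg_cancel_right]
        exact h0
      rw [mdf_in hq n h]
      simp only [hK]
      rw [h1, mul_zero, zero_smul, add_zero, hb.right_inv (hgb t₀ ⟨h.1, h.2.le⟩), per_int hper]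
    · exact mdf_out (by linarith) n h

/-- times of `K` are not in the zones of the steps which are made -/
theorem ngr_zone {K : Set ℝ} (hKp : ∀ t, t + 1 ∈ K ↔ t ∈ K) {p q : ℝ} {β : ℝ → ℝ} (hβ : Cut β p q)
    (h : ¬ ∃ t ∈ Icc p q, t ∈ K) {t : ℝ} (ht : t ∈ K) : t ∉ Zn β := by
  rintro ⟨n, hn⟩
  obtain ⟨p', q', h1, h2, h3, h4⟩ := hβ.supp
  obtain ⟨h5, h6⟩ := h4 _ hn
  exact h ⟨t + n, ⟨by linarith, by linarith⟩, (ngr_int hKp t n).2 ht⟩

/-- times in the zones of the other steps are in `U` -/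
theorem ngr_zone' {U : Set ℝ} (hUp : ∀ t, t + 1 ∈ U ↔ t ∈ U) {p q : ℝ} {β : ℝ → ℝ} (hβ : Cut β p q)
    (h : Icc p q ⊆ U) {t : ℝ} (ht : t ∈ Zn β) : t ∈ U := by
  obtain ⟨n, hn⟩ := ht
  obtain ⟨p', q', h1, h2, h3, h4⟩ := hβ.supp
  obtain ⟨h5, h6⟩ := h4 _ hn
  exact (ngr_int hUp t n).1 (h ⟨by linarith, by linarith⟩)

theorem rel_smoothing [T2Space N] [IsManifold (𝓡 4) ∞ N] {h : ℝ → N} (hh : Continuous h)
    (hper : ∀ t, h (t + 1) = h t) {O : Set (ℝ × N)} (hO : OpnS O) (hhO : ∀ t, (t, h t) ∈ O) {U K : Set ℝ}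
    (hU : IsOpen U) (hK : IsClosed K) (hUp : ∀ t, t + 1 ∈ U ↔ t ∈ U) (hKp : ∀ t, t + 1 ∈ K ↔ t ∈ K) (hKU : K ⊆ U)
    (hsm : ∀ t ∈ U, ContMDiffAt 𝓘(ℝ, ℝ) (𝓡 4) ∞ h t) :
    ∃ g : ℝ → N, SCirc g ∧ FHom O h g ∧ ∀ t ∈ K, g t = h t := by
  obtain ⟨m₁, hleb⟩ := ngr_leb hU hK hKU
  obtain ⟨m, O', hm, hm1, hO', hsub, hgr, hball⟩ := ngr_cover_opn hh hper hO hhO m₁
  have hmR : (4 : ℝ) ≤ m := by exact_mod_cast hm
  have hm0 : (0 : ℝ) < m := by linarith
  have key : ∀ j ≤ m, ∃ g : ℝ → N, Continuous g ∧ (∀ t, g (t + 1) = g t) ∧ FHom O' h g ∧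
      (∀ t, ContMDiffAt 𝓘(ℝ, ℝ) (𝓡 4) ∞ h t → ContMDiffAt 𝓘(ℝ, ℝ) (𝓡 4) ∞ g t) ∧ (∀ t ∈ K, g t = h t) ∧
      ∀ t : ℝ, (∃ i < j, (¬ ∃ t ∈ Icc (((i : ℝ) - 1) / m) (((i : ℝ) + 2) / m), t ∈ K) ∧
        ∃ n : ℤ, t + (n : ℝ) ∈ Icc ((i : ℝ) / m) (((i : ℝ) + 1) / m)) →
        ContMDiffAt 𝓘(ℝ, ℝ) (𝓡 4) ∞ g t := by
    intro j
    induction j with
    | zero =>
      intro _
      exact ⟨h, hh, hper, FHom.refl hh hper hgr, fun t ht => ht, fun t _ => rfl,
        fun t ⟨i, hi, _⟩ => absurd hi (Nat.not_lt_zero i)⟩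
    | succ j ih =>
      intro hj
      obtain ⟨g, hg, hgper, hfh, hpr, hgK, hsm⟩ := ih (Nat.le_of_succ_le hj)
      by_cases hproc : ∃ t ∈ Icc (((j : ℝ) - 1) / m) (((j : ℝ) + 2) / m), t ∈ K
      · refine ⟨g, hg, hgper, hfh, hpr, hgK, ?_⟩
        rintro t ⟨i, hi, hi2, n, hn⟩
        rcases Nat.lt_succ_iff_lt_or_eq.mp hi with hi | hi
        · exact hsm t ⟨i, hi, hi2, n, hn⟩
        · subst hi
          exact absurd hproc hi2
      obtain ⟨b, b', hb, hbr⟩ := hball j (Nat.lt_of_succ_le hj)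
      have h1 : ((j : ℝ) - 1) / m < ((j : ℝ) - 1 / 2) / m :=
        div_lt_div_of_pos_right (by linarith) hm0
      have h2 : ((j : ℝ) - 1 / 2) / m < ((j : ℝ) + 3 / 2) / m :=
        div_lt_div_of_pos_right (by linarith) hm0
      have h3 : ((j : ℝ) + 3 / 2) / m < ((j : ℝ) + 2) / m :=
        div_lt_div_of_pos_right (by linarith) hm0
      obtain ⟨β, hβ, hβ1, -⟩ := cut_plateau h1 h2 h3
      have hq : ((j : ℝ) + 2) / m < ((j : ℝ) - 1) / m + 1 := by
        rw [div_add_one hm0.ne', div_lt_div_iff_of_pos_right hm0]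
        linarith
      obtain ⟨g', hg', hgper', hfh', hsm', hsm1, hoff⟩ := ngr_smooth_step hg hgper hb hq
        (fun t ht => hbr t ht _ (hfh.right t)) hβ hO' (fun t => hfh.right t)
      refine ⟨g', hg', hgper', hfh.trans hfh', fun t ht => hsm' t (hpr t ht), ?_, ?_⟩
      · intro t ht
        rw [hoff t (ngr_zone hKp hβ hproc ht), hgK t ht]
      rintro t ⟨i, hi, hi2, n, hn⟩
      rcases Nat.lt_succ_iff_lt_or_eq.mp hi with hi | hi
      · exact hsm' t (hsm t ⟨i, hi, hi2, n, hn⟩)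
      · subst hi
        refine hsm1 t n ?_
        have h4 : t + (n : ℝ) ∈ Ioo (((i : ℝ) - 1 / 2) / m) (((i : ℝ) + 3 / 2) / m) := by
          constructor
          · exact lt_of_lt_of_le (div_lt_div_of_pos_right (by linarith) hm0) hn.1
          · exact lt_of_le_of_lt hn.2 (div_lt_div_of_pos_right (by linarith) hm0)
        filter_upwards [Ioo_mem_nhds h4.1 h4.2] with u hu
        exact hβ1 u ⟨hu.1.le, hu.2.le⟩
  obtain ⟨g, -, hgper, hfh, hpr, hgK, hsm2⟩ := key m le_rfl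
  refine ⟨g, ⟨fun t => ?_, hgper⟩, hfh.mono hsub, hgK⟩
  have hf0 : 0 ≤ Int.fract t := Int.fract_nonneg t
  have hf1 : Int.fract t < 1 := Int.fract_lt_one t
  have hx0 : 0 ≤ Int.fract t * m := mul_nonneg hf0 hm0.le
  have hi : ⌊Int.fract t * m⌋₊ < m := by
    rw [Nat.floor_lt hx0]
    nlinarith
  have e : t + ((-⌊t⌋ : ℤ) : ℝ) = Int.fract t := by
    rw [Int.cast_neg, ← sub_eq_add_neg]
    rfl
  have hin : t + ((-⌊t⌋ : ℤ) : ℝ) ∈ Icc (((⌊Int.fract t * m⌋₊ : ℕ) : ℝ) / m)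
      ((((⌊Int.fract t * m⌋₊ : ℕ) : ℝ) + 1) / m) := by
    rw [e]
    constructor
    · rw [div_le_iff₀ hm0]
      exact Nat.floor_le hx0
    · rw [le_div_iff₀ hm0]
      exact (Nat.lt_floor_add_one _).le
  by_cases hproc : ∃ t' ∈ Icc ((((⌊Int.fract t * m⌋₊ : ℕ) : ℝ) - 1) / m)
      ((((⌊Int.fract t * m⌋₊ : ℕ) : ℝ) + 2) / m), t' ∈ K
  · have h1 := hleb m hm hm1 _ hi hproc
    have h2 : t + ((-⌊t⌋ : ℤ) : ℝ) ∈ U := by
      apply h1
      constructor
      · exact le_trans (div_le_div_of_nonneg_right (by linarith) hm0.le) hin.1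
      · exact le_trans hin.2 (div_le_div_of_nonneg_right (by linarith) hm0.le)
    exact hpr t (hsm t ((ngr_int hUp t _).1 h2))
  · exact hsm2 t ⟨_, hi, hproc, _, hin⟩

theorem rel_sweep [T2Space N] [IsManifold (𝓡 4) ∞ N] {g : ℝ → N} (hg : SCirc g) {W : Set N} (hW : Obst W)
    {O : Set (ℝ × N)} (hO : OpnS O) (hgO : ∀ t, (t, g t) ∈ O) {U K : Set ℝ}
    (hU : IsOpen U) (hK : IsClosed K) (hUp : ∀ t, t + 1 ∈ U ↔ t ∈ U) (hKp : ∀ t, t + 1 ∈ K ↔ t ∈ K) (hKU : K ⊆ U)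
    (hgood : ∀ t ∈ U, Imm g t ∧ g t ∉ W) (hinj : ∀ t ∈ U, ∀ t' ∈ U, g t = g t' → ∃ n : ℤ, t' = t + n) :
    ∃ c : ℝ → N, Circ c ∧ (∀ t, c t ∉ W) ∧ FHom O g c ∧ ∀ t ∈ K, c t = g t := by
  obtain ⟨m₁, hleb⟩ := ngr_leb hU hK hKU
  obtain ⟨m, O', hm, hm1, hO', hsub, hgO', hball⟩ := ngr_cover_opn hg.smooth.continuous hg.per hO hgO m₁
  have hmR : (4 : ℝ) ≤ m := by exact_mod_cast hm
  have hm0 : (0 : ℝ) < m := by linarith
  have hcut : ∀ i : ℕ, ∃ β : ℝ → ℝ, Cut β (((i : ℝ) - 1) / m) (((i : ℝ) + 2) / m) ∧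
      (∀ t ∈ Icc (((i : ℝ) - 1 / 2) / m) (((i : ℝ) + 3 / 2) / m), β t = 1) ∧ ∀ t, β t ≤ 1 := by
    intro i
    refine cut_plateau ?_ ?_ ?_
    · rw [div_lt_div_iff_of_pos_right hm0]
      linarith
    · rw [div_lt_div_iff_of_pos_right hm0]
      linarith
    · rw [div_lt_div_iff_of_pos_right hm0]
      linarith
  choose β hβ1 hβ2 hβ3 using hcut
  let Pr : ℕ → Prop := fun i => ¬ ∃ t ∈ Icc (((i : ℝ) - 1) / m) (((i : ℝ) + 2) / m), t ∈ K
  have key : ∀ j ≤ m, ∃ c : ℝ → N, SCirc c ∧ (∀ t, (t, c t) ∈ O') ∧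
      Good W {t | ∃ i < j, Pr i ∧ t ∈ Zn (β i)} c ∧ FHom O' g c ∧
      (∀ t, (∀ i < j, Pr i → t ∉ Zn (β i)) → c t = g t ∧ (Imm g t → Imm c t)) := by
    intro j
    induction j with
    | zero =>
      intro _
      refine ⟨g, hg, hgO', ?_, FHom.refl hg.smooth.continuous hg.per hgO', fun t _ => ⟨rfl, fun h => h⟩⟩
      rintro t ⟨i, hi, -⟩
      omega
    | succ j ih =>
      intro hj
      obtain ⟨c, h1, h2, h3, h4, h5⟩ := ih (Nat.le_of_succ_le hj)
      by_cases hproc : Pr j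
      · obtain ⟨b, b', hb, hbr⟩ := hball j (Nat.lt_of_succ_le hj)
        have hq : ((j : ℝ) + 2) / m < ((j : ℝ) - 1) / m + 1 := by
          rw [div_add_one hm0.ne', div_lt_div_iff_of_pos_right hm0]
          linarith
        obtain ⟨c', hc', hcb', hoff, hzn, himm, hF⟩ := gp_step h1 hb hq (fun t ht => hbr t ht _ (h2 t)) (hβ1 j)
          hW hO' h2
        refine ⟨c', hc', fun t => hF.right t, ?_, h4.trans hF, ?_⟩
        · rintro t ⟨i, hi, hi2, hit⟩
          rcases Nat.lt_succ_iff_lt_or_eq.mp hi with h7 | h7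
          · exact swp_pt (Subset.refl W) hoff hzn himm (h3 t ⟨i, h7, hi2, hit⟩)
          · subst h7
            exact hzn t hit
        · intro t ht
          have h6 : t ∉ Zn (β j) := ht j (Nat.lt_succ_self j) hproc
          obtain ⟨h7, h8⟩ := h5 t (fun i hi => ht i (Nat.lt_succ_of_lt hi))
          exact ⟨(hoff t h6).trans h7, fun h => himm t h6 (h8 h)⟩
      · refine ⟨c, h1, h2, ?_, h4, ?_⟩
        · rintro t ⟨i, hi, hi2, hit⟩
          rcases Nat.lt_succ_iff_lt_or_eq.mp hi with h7 | h7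
          · exact h3 t ⟨i, h7, hi2, hit⟩
          · subst h7
            exact absurd hi2 hproc
        · intro t ht
          exact h5 t (fun i hi => ht i (Nat.lt_succ_of_lt hi))
  obtain ⟨c, h1, h2, h3, h4, h5⟩ := key m le_rfl
  have hnot : ∀ t, ¬ (∃ i < m, Pr i ∧ t ∈ Zn (β i)) → t ∈ U ∧ c t = g t ∧ Imm c t := by
    intro t ht
    have e1 : ∀ i < m, Pr i → t ∉ Zn (β i) := fun i hi hi2 hit => ht ⟨i, hi, hi2, hit⟩
    obtain ⟨i, hi, hit⟩ := swp_zone hm hβ2 t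
    have e2 : ¬ Pr i := fun h => e1 i hi h hit
    have e3 : ∃ t ∈ Icc (((i : ℝ) - 1) / m) (((i : ℝ) + 2) / m), t ∈ K := not_not.1 e2
    have e4 : t ∈ U := ngr_zone' hUp (hβ1 i) (hleb m hm hm1 i hi e3) hit
    obtain ⟨e5, e6⟩ := h5 t e1
    exact ⟨e4, e5, e6 (hgood t e4).1⟩
  have hk : ∀ t, Imm c t ∧ c t ∉ W ∧ ∀ t', c t = c t' → ∃ n : ℤ, t' = t + n := by
    intro t
    by_cases ht : ∃ i < m, Pr i ∧ t ∈ Zn (β i)
    · exact h3 t ht
    · obtain ⟨e4, e5, e6⟩ := hnot t ht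
      refine ⟨e6, by rw [e5]; exact (hgood t e4).2, fun t' he => ?_⟩
      by_cases ht' : ∃ i < m, Pr i ∧ t' ∈ Zn (β i)
      · obtain ⟨n, hn⟩ := (h3 t' ht').2.2 t he.symm
        refine ⟨-n, ?_⟩
        rw [hn]
        push_cast
        ring
      · obtain ⟨e4', e5', -⟩ := hnot t' ht'
        rw [e5, e5'] at he
        exact hinj t e4 t' e4' he
  refine ⟨c, ⟨h1, fun t => (hk t).1, fun t => (hk t).2.2⟩, fun t => (hk t).2.1, h4.mono hsub, ?_⟩
  intro t ht
  exact (h5 t (fun i _ hi2 => ngr_zone hKp (hβ1 i) hi2 ht)).1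

theorem rel_curve [T2Space N] [IsManifold (𝓡 4) ∞ N] {h : ℝ → N} (hh : Continuous h)
    (hper : ∀ t, h (t + 1) = h t) {W : Set N} (hW : Obst W) {O : Set (ℝ × N)} (hO : OpnS O)
    (hhO : ∀ t, (t, h t) ∈ O) {U K : Set ℝ} (hU : IsOpen U) (hK : IsClosed K) (hUp : ∀ t, t + 1 ∈ U ↔ t ∈ U)
    (hKp : ∀ t, t + 1 ∈ K ↔ t ∈ K) (hKU : K ⊆ U)
    (hgood : ∀ t ∈ U, ContMDiffAt 𝓘(ℝ, ℝ) (𝓡 4) ∞ h t ∧ Imm h t ∧ h t ∉ W)
    (hinj : ∀ t ∈ U, ∀ t' ∈ U, h t = h t' → ∃ n : ℤ, t' = t + n) :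
    ∃ c : ℝ → N, Circ c ∧ (∀ t, c t ∉ W) ∧ FHom O h c ∧ ∀ t ∈ K, c t = h t := by
  have hc : IsCompact (K ∩ Icc (-1) 2) := isCompact_Icc.inter_left hK
  obtain ⟨δ, hδ, hsub⟩ := hc.exists_thickening_subset_open hU (inter_subset_left.trans hKU)
  have hr : 0 < δ / 2 := by linarith
  have hmem : ∀ t, t ∈ Metric.cthickening (δ / 2) K ↔ ∃ s ∈ K, dist t s ≤ δ / 2 := by
    intro t
    rw [hK.cthickening_eq_biUnion_closedBall hr.le]
    simp only [mem_iUnion, Metric.mem_closedBall, exists_prop]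
  have hK'U : Metric.cthickening (δ / 2) K ⊆ U := by
    intro t ht
    obtain ⟨s, hs, hd⟩ := (hmem t).1 ht
    rw [← ngr_int hUp t (-⌊s⌋)]
    apply hsub
    rw [Metric.mem_thickening_iff]
    refine ⟨s + ((-⌊s⌋ : ℤ) : ℝ), ⟨(ngr_int hKp s _).2 hs, ?_, ?_⟩, ?_⟩
    · have := Int.floor_le s
      push_cast
      linarith
    · have := Int.lt_floor_add_one s
      push_cast
      linarith
    · rw [dist_add_right]
      linarith
  have hK'p : ∀ t, t + 1 ∈ Metric.cthickening (δ / 2) K ↔ t ∈ Metric.cthickening (δ / 2) K := by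
    intro t
    rw [hmem, hmem]
    constructor
    · rintro ⟨s, hs, hd⟩
      refine ⟨s - 1, ?_, ?_⟩
      · rw [← hKp, sub_add_cancel]
        exact hs
      · have e : dist t (s - 1) = dist (t + 1) s := by
          rw [Real.dist_eq, Real.dist_eq]
          congr 1
          ring
        rw [e]
        exact hd
    · rintro ⟨s, hs, hd⟩
      refine ⟨s + 1, (hKp s).2 hs, ?_⟩
      rw [dist_add_right]
      exact hd
  obtain ⟨g, hg, hF, hgh⟩ := rel_smoothing hh hper hO hhO hU Metric.isClosed_cthickening hUp hK'p hK'U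
    (fun t ht => (hgood t ht).1)
  have hVK : Metric.thickening (δ / 2) K ⊆ Metric.cthickening (δ / 2) K := Metric.thickening_subset_cthickening _ _
  have hVp : ∀ t, t + 1 ∈ Metric.thickening (δ / 2) K ↔ t ∈ Metric.thickening (δ / 2) K := by
    intro t
    rw [Metric.mem_thickening_iff, Metric.mem_thickening_iff]
    constructor
    · rintro ⟨s, hs, hd⟩
      refine ⟨s - 1, ?_, ?_⟩
      · rw [← hKp, sub_add_cancel]
        exact hs
      · have e : dist t (s - 1) = dist (t + 1) s := by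
          rw [Real.dist_eq, Real.dist_eq]
          congr 1
          ring
        rw [e]
        exact hd
    · rintro ⟨s, hs, hd⟩
      refine ⟨s + 1, (hKp s).2 hs, ?_⟩
      rw [dist_add_right]
      exact hd
  obtain ⟨c, h1, h2, h3, h4⟩ := rel_sweep hg hW hO (fun t => hF.right t) (U := Metric.thickening (δ / 2) K) (K := K)
    Metric.isOpen_thickening hK hVp hKp (Metric.self_subset_thickening hr K) (by
      intro t ht
      have e1 : g =ᶠ[𝓝 t] h := by
        filter_upwards [Metric.isOpen_thickening.mem_nhds ht] with u hu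
        exact hgh u (hVK hu)
      have e2 := hgood t (hK'U (hVK ht))
      refine ⟨(imm_congr e1).2 e2.2.1, ?_⟩
      rw [hgh t (hVK ht)]
      exact e2.2.2) (by
      intro t ht t' ht' he
      rw [hgh t (hVK ht), hgh t' (hVK ht')] at he
      exact hinj t (hK'U (hVK ht)) t' (hK'U (hVK ht')) he)
  refine ⟨c, h1, h2, hF.trans h3, fun t ht => ?_⟩
  rw [h4 t ht]
  exact hgh t (hVK (Metric.self_subset_thickening hr K ht))

end Pool.Agent.MMV
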