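import Pool.Agent.MMV.NGw
import Pool.Agent.MMV.NGr
import Pool.Agent.ACB.Opn
import Pool.Agent.ACB.Obs
import Pool.Agent.ACB.ClF
import Pool.Agent.ACB.Lop

/-!
# MMV/NGc: two disjoint embedded circles in the classes of two words, standard near the necks   (block VI, squad G)

PROOF.  `word_path` for `w₁` with `sq n = ε / (2 (2 n + 3))` and for `w₂` with `sq n = ε / (2 (2 n + 4))`: `h₁ = per γ₁`, `h₂ = per γ₂`, patterns `L₁'`, `L₂'` with `b = 3/16`, `a = 1/8`; all the distances `s` are distinct (in one list: `Perm` of the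
values of an injective sequence; between the lists).  For a list `L` and `b > 0` let `T L b = {t | ∃ n : ℤ, ∃ x ∈ L, |t + n - x.α| ≤ b x.ν}` (closed, periodic: finite union of closed intervals plus `ℤ`), `T' L b` the same with `<` (open, periodic).
(A) GOODNESS.  On `T' L b`, `b ≤ 3/16`, the curve `h` is `t ↦ k_i (scen i + e (t + n - α) / ν, s ge₁)`: smooth and immersed: the parallel thick circle `k_i^s (l, v) = k_i (l, s ge₁ + v)` (radius `ε / 2`) has an embedded core (`Thick.circ`), composed with an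
affine map of `t` with a nonzero derivative (`Imm` of the composition: `imm_iff`, chain rule).  Injective modulo `ℤ` on `T' L b`: `k_i (l, s ge₁) = k_j (l', s' ge₁)` gives `i = j`, `s = s'` (so the same crossing, the distances being distinct) and
`l' - l ∈ ℤ`, `|l - scen|, |l' - scen| ≤ b < 1/2`, so `l = l'` and `t = t'` modulo `ℤ`.
(B) FIRST CIRCLE.  `rel_curve` for `h₁`, `W = ∅`, `U = T' L₁' (3/16)`, `K = T L₁' (5/32)`, `O = {(t, x) | t ∉ T' L₁' (5/32) → x ∉ Sec D 0 (1/8) ∪ Sec D 1 (1/8)}` (open: the complement is the product of two closed sets, `sec_closed`; periodic).  The graph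
of `h₁` is in `O`: `only` (`h₁ t ∈ Sec D i (1/8)` ⟹ `t ∈ T L₁' (1/8) ⊆ T' L₁' (5/32)`).  So `c₁ = h₁` on `T L₁' (5/32)`, and (graph of `c₁` in `O`: `FHom.right`) `c₁ t ∈ Sec D i (1/8)` ⟹ `t ∈ T' L₁' (5/32)`, `c₁ t = h₁ t`, so by `only` of `h₁` the
crossing `x` has `x.i = i`, `|t - α| ≤ ν / 8`.  This is `Pat D c₁ L₁' (5/32) (1/8)`, hence (`pat_mono`) `Pat D c₁ L₁' (3/32) (1/16)`.
(C) SECOND CIRCLE.  `rel_curve` for `h₂`, `W = range c₁`, `U = T' L₂' (1/8)`, `K = T L₂' (3/32)`, `O = {(t, x) | t ∉ T' L₂' (3/32) → x ∉ Sec D 0 (1/16) ∪ Sec D 1 (1/16)}`.  For `t ∈ U`: `h₂ t ∉ range c₁`: `h₂ t = k_i (l, s ge₁) ∈ Sec D i (1/8)` (`sec_tube`);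
if it is `c₁ t'` (`t' ∈ [0, 1]`) then by `Pat D c₁ L₁' (5/32) (1/8)` `c₁ t' = k_i (l', s' ge₁)` with `s'` in the first list: `s = s'`, impossible.  As before `Pat D c₂ L₂' (3/32) (1/16)`.
(D) `Cls q h₁ _` (`Cls.mk (Path.refl q) γ₁`, or `per_coe`), `cls_fhom` for `c₁`; the same for `c₂`.
`pat_mono`: `Pat D c L b a`, `b' ≤ b`, `a' ≤ a`, `a' ≤ b'`, `a ≤ b`: `form`, `pos`, `ord` clear (`ν > 0`); `only`: `c t ∈ Sec D i a' ⊆ Sec D i a`, so `|t - α| ≤ a ν ≤ b ν`, `c t = k_i (scen i + e (t - α) / ν, s ge₁) ∈ Sec D i a'`: by `sec_tube`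
`|e (t - α) / ν + n| ≤ a'` for an integer `n`, and `|(t - α) / ν| ≤ a < 1/2`, so `n = 0`.
-/

open scoped ContDiff Manifold Topology unitInterval
open Set Filter
open Pool.Agent.ACB

namespace Pool.Agent.MMV

/-- the closed times near the crossings -/
def ngc_T (L : List Xing) (b : ℝ) : Set ℝ := {t | ∃ n : ℤ, ∃ x ∈ L, |t + n - x.α| ≤ b * x.ν}

/-- the open times near the crossings -/
def ngc_U (L : List Xing) (b : ℝ) : Set ℝ := {t | ∃ n : ℤ, ∃ x ∈ L, |t + n - x.α| < b * x.ν}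

theorem ngc_T_closed (L : List Xing) (b : ℝ) : IsClosed (ngc_T L b) := by
  have e : ngc_T L b = ⋃ x ∈ {x | x ∈ L}, {t : ℝ | ∀ n : ℤ, t + n ∉ Icc (x.α - b * x.ν) (x.α + b * x.ν)}ᶜ := by
    ext t
    simp only [ngc_T, mem_setOf_eq, mem_iUnion, mem_compl_iff, not_forall, not_not, exists_prop]
    constructor
    · rintro ⟨n, x, hx, h⟩
      rw [abs_le] at h
      exact ⟨x, hx, n, by constructor <;> linarith [h.1, h.2]⟩
    · rintro ⟨x, hx, n, h⟩
      refine ⟨n, x, hx, ?_⟩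
      rw [abs_le]
      constructor <;> linarith [h.1, h.2]
  rw [e]
  exact (List.finite_toSet L).isClosed_biUnion fun x _ => (isOpen_notMem_Icc _ _).isClosed_compl

theorem ngc_U_open (L : List Xing) (b : ℝ) : IsOpen (ngc_U L b) := by
  have e : ngc_U L b = ⋃ n : ℤ, ⋃ x ∈ {x | x ∈ L}, {t : ℝ | |t + n - x.α| < b * x.ν} := by
    ext t
    simp only [ngc_U, mem_setOf_eq, mem_iUnion, exists_prop]
  rw [e]
  exact isOpen_iUnion fun n => isOpen_biUnion fun x _ => isOpen_lt (by fun_prop) continuous_const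

theorem ngc_T_per (L : List Xing) (b : ℝ) (t : ℝ) : t + 1 ∈ ngc_T L b ↔ t ∈ ngc_T L b := by
  constructor
  · rintro ⟨n, x, hx, h⟩
    refine ⟨n + 1, x, hx, ?_⟩
    push_cast
    rw [show t + ((n : ℝ) + 1) - x.α = t + 1 + n - x.α by ring]
    exact h
  · rintro ⟨n, x, hx, h⟩
    refine ⟨n - 1, x, hx, ?_⟩
    push_cast
    rw [show t + 1 + ((n : ℝ) - 1) - x.α = t + n - x.α by ring]
    exact h

theorem ngc_U_per (L : List Xing) (b : ℝ) (t : ℝ) : t + 1 ∈ ngc_U L b ↔ t ∈ ngc_U L b := by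
  constructor
  · rintro ⟨n, x, hx, h⟩
    refine ⟨n + 1, x, hx, ?_⟩
    push_cast
    rw [show t + ((n : ℝ) + 1) - x.α = t + 1 + n - x.α by ring]
    exact h
  · rintro ⟨n, x, hx, h⟩
    refine ⟨n - 1, x, hx, ?_⟩
    push_cast
    rw [show t + 1 + ((n : ℝ) - 1) - x.α = t + n - x.α by ring]
    exact h

theorem ngc_U_T (L : List Xing) (b : ℝ) : ngc_U L b ⊆ ngc_T L b := by
  rintro t ⟨n, x, hx, h⟩
  exact ⟨n, x, hx, h.le⟩

theorem ngc_T_U {L : List Xing} {b b' : ℝ} (hL : ∀ x ∈ L, 0 < x.ν) (h : b < b') : ngc_T L b ⊆ ngc_U L b' := by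
  rintro t ⟨n, x, hx, h'⟩
  exact ⟨n, x, hx, h'.trans_lt (mul_lt_mul_of_pos_right h (hL x hx))⟩

theorem ngc_e₁ : ‖ge₁‖ = 1 := by
  simp [ge₁]

theorem ngc_int {m : ℤ} (h : |(m : ℝ)| < 1) : m = 0 := by
  rw [abs_lt] at h
  have c3 : m < 1 := by exact_mod_cast h.2
  have c4 : -1 < m := by exact_mod_cast h.1
  omega

/-- translation -/
noncomputable def ngc_tr (w : E3) : Diffeomorph 𝓘(ℝ, ℝ × E3) 𝓘(ℝ, ℝ × E3) (ℝ × E3) (ℝ × E3) ∞ where
  toFun q := (q.1, w + q.2)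
  invFun q := (q.1, q.2 - w)
  left_inv q := by simp
  right_inv q := by simp
  contMDiff_toFun := by
    have h : ContDiff ℝ ∞ fun q : ℝ × E3 => (q.1, w + q.2) :=
      contDiff_fst.prodMk (contDiff_const.add contDiff_snd)
    exact h.contMDiff
  contMDiff_invFun := by
    have h : ContDiff ℝ ∞ fun q : ℝ × E3 => (q.1, q.2 - w) :=
      contDiff_fst.prodMk (contDiff_snd.sub contDiff_const)
    exact h.contMDiff

section ngc
variable {N : Type} [TopologicalSpace N] [ChartedSpace E4 N]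

theorem ngc_thick {κ : ℝ × E3 → N} {ε : ℝ} (h : Thick κ ε) {w : E3} (hw : ‖w‖ < ε / 2) :
    Thick (fun y : ℝ × E3 => κ (y.1, w + y.2)) (ε / 2) := by
  have hn : ∀ v : E3, ‖v‖ < ε / 2 → ‖w + v‖ < ε := by
    intro v hv
    have := norm_add_le w v
    linarith
  refine ⟨by linarith [h.pos], fun l v hv => h.per l _ (hn v hv), fun l v hv => ?_, fun l v l' v' hv hv' e => ?_⟩
  · have h1 : IsLocalDiffeomorphAt 𝓘(ℝ, ℝ × E3) 𝓘(ℝ, ℝ × E3) ∞ (ngc_tr w) (l, v) :=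
      (ngc_tr w).isLocalDiffeomorph (l, v)
    have h3 : IsLocalDiffeomorphAt 𝓘(ℝ, ℝ × E3) (𝓡 4) ∞ (κ ∘ ngc_tr w) (l, v) :=
      IsLocalDiffeomorphAt.comp (hf := h1) (g := κ) (hg := h.loc l _ (hn v hv)) ..
    exact h3
  · obtain ⟨e1, m, e2⟩ := h.inj l _ l' _ (hn v hv) (hn v' hv') e
    exact ⟨add_left_cancel e1, m, e2⟩

theorem ngc_par [IsManifold (𝓡 4) ∞ N] {κ : ℝ × E3 → N} {ε : ℝ} (h : Thick κ ε) {w : E3} (hw : ‖w‖ < ε / 2) :
    Circ fun l => κ (l, w) := by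
  have h1 := (ngc_thick h hw).circ
  have e : core (fun y : ℝ × E3 => κ (y.1, w + y.2)) = fun l => κ (l, w) := by
    funext l
    show κ (l, w + 0) = κ (l, w)
    rw [add_zero]
  rwa [e] at h1

/-- composition with an affine map -/
theorem ngc_aff {g : ℝ → N} (hg : Circ g) {p q : ℝ} (hp : p ≠ 0) (t : ℝ) :
    ContMDiffAt 𝓘(ℝ, ℝ) (𝓡 4) ∞ (fun t => g (q + p * t)) t ∧ Imm (fun t => g (q + p * t)) t := by
  have hA : HasDerivAt (fun t : ℝ => q + p * t) p t := by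
    simpa using ((hasDerivAt_id t).const_mul p).const_add q
  constructor
  · have h1 : ContMDiffAt 𝓘(ℝ, ℝ) 𝓘(ℝ, ℝ) ∞ (fun t : ℝ => q + p * t) t := by
      rw [contMDiffAt_iff_contDiffAt]
      fun_prop
    exact ContMDiffAt.comp (g := g) t (hg.smooth _) h1
  · obtain ⟨b, b', hb, ht, hne⟩ := hg.imm (q + p * t)
    refine ⟨b, b', hb, ht, ?_⟩
    have h1 : DifferentiableAt ℝ (b' ∘ g) (q + p * t) := by
      by_contra h
      exact hne (deriv_zero_of_not_differentiableAt h)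
    have h2 := (h1.hasDerivAt).scomp t hA
    have h3 : (b' ∘ fun t => g (q + p * t)) = (b' ∘ g) ∘ fun t : ℝ => q + p * t := rfl
    rw [h3, h2.deriv]
    exact smul_ne_zero hp hne

end ngc

variable {M : Type} [TopologicalSpace M] [ChartedSpace E4 M] [T2Space M] [IsManifold (𝓡 4) ∞ M]
  {k₁ k₂ : ℝ × E3 → M} {ε : ℝ}

theorem pat_mono (D : Dbl (-1 / 2) (1 / 2) k₁ k₂ ε) {c : ℝ → M} {L : List Xing} {b a b' a' : ℝ} (h : Pat D c L b a)
    (hb : b' ≤ b) (ha : a' ≤ a) (hab : a ≤ b) (hab' : a' ≤ b') (h0 : 0 ≤ a') (hb4 : b < 1 / 4) : Pat D c L b' a' := by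
  have hmul : ∀ x ∈ L, b' * x.ν ≤ b * x.ν := fun x hx => mul_le_mul_of_nonneg_right hb (h.pos x hx).1.le
  refine ⟨?_, ?_, ?_, ?_⟩
  · intro x hx
    obtain ⟨a1, a2, a3, a4, a5, a6⟩ := h.pos x hx
    have := hmul x hx
    exact ⟨a1, a2, a3, a4, by linarith, by linarith⟩
  · refine h.ord.imp_of_mem ?_
    intro x y hx hy hxy
    have := hmul x hx
    have := hmul y hy
    linarith
  · intro x hx t ht
    exact h.form x hx t (ht.trans (hmul x hx))
  · intro i t ht hs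
    obtain ⟨x, hx, hxi, hxt⟩ := h.only i t ht (sec_mono D i ha hs)
    refine ⟨x, hx, hxi, ?_⟩
    obtain ⟨a1, a2, a3, a4, a5, a6⟩ := h.pos x hx
    have h1 := h.form x hx t (hxt.trans (mul_le_mul_of_nonneg_right hab a1.le))
    have hnorm : ‖x.s • ge₁‖ < ε := by
      rw [norm_smul, ngc_e₁, mul_one, Real.norm_of_nonneg a2.le]
      linarith
    rw [h1] at hs
    obtain ⟨-, n, hn⟩ := (sec_tube D i x.i (by linarith) hnorm).1 hs
    have hxa : |(t - x.α) / x.ν| ≤ a := by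
      rw [abs_div, abs_of_pos a1, div_le_iff₀ a1]
      exact hxt
    have hxe : |x.e * ((t - x.α) / x.ν)| = |(t - x.α) / x.ν| := by
      rw [abs_mul]
      rcases a4 with e | e <;> rw [e] <;> simp
    rw [hxi] at hn
    have hn0 : n = 0 := by
      apply ngc_int
      have e1 : (n : ℝ) = (scen i + x.e * ((t - x.α) / x.ν) + n - scen i) - x.e * ((t - x.α) / x.ν) := by ring
      rw [e1]
      calc |(scen i + x.e * ((t - x.α) / x.ν) + n - scen i) - x.e * ((t - x.α) / x.ν)|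
          ≤ |scen i + x.e * ((t - x.α) / x.ν) + n - scen i| + |x.e * ((t - x.α) / x.ν)| := abs_sub _ _
        _ < 1 := by rw [hxe]; linarith
    rw [hn0] at hn
    have e2 : scen i + x.e * ((t - x.α) / x.ν) + ((0 : ℤ) : ℝ) - scen i = x.e * ((t - x.α) / x.ν) := by
      push_cast
      ring
    rw [e2, hxe, abs_div, abs_of_pos a1, div_le_iff₀ a1] at hn
    exact hn

/-- the curve at the times near the crossings -/
theorem ngc_form (D : Dbl (-1 / 2) (1 / 2) k₁ k₂ ε) {h : ℝ → M} (hper : ∀ t, h (t + 1) = h t) {L : List Xing}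
    {b a : ℝ} (hP : Pat D h L b a) {x : Xing} (hx : x ∈ L) {n : ℤ} {t : ℝ} (ht : |t + n - x.α| ≤ b * x.ν) :
    h t = ![k₁, k₂] x.i (scen x.i + x.e * ((t + n - x.α) / x.ν), x.s • ge₁) := by
  rw [← per_int hper t n]
  exact hP.form x hx _ ht

theorem ngc_norm (D : Dbl (-1 / 2) (1 / 2) k₁ k₂ ε) {h : ℝ → M} {L : List Xing} {b a : ℝ} (hP : Pat D h L b a)
    {x : Xing} (hx : x ∈ L) : ‖x.s • ge₁‖ < ε / 2 ∧ ‖x.s • ge₁‖ < ε := by
  obtain ⟨a1, a2, a3, a4, a5, a6⟩ := hP.pos x hx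
  rw [norm_smul, ngc_e₁, mul_one, Real.norm_of_nonneg a2.le]
  constructor <;> linarith

theorem ngc_good (D : Dbl (-1 / 2) (1 / 2) k₁ k₂ ε) {h : ℝ → M} (hper : ∀ t, h (t + 1) = h t) {L : List Xing}
    {b a : ℝ} (hP : Pat D h L b a) {t : ℝ} (ht : t ∈ ngc_U L b) :
    ContMDiffAt 𝓘(ℝ, ℝ) (𝓡 4) ∞ h t ∧ Imm h t := by
  obtain ⟨n, x, hx, hxt⟩ := ht
  obtain ⟨a1, a2, a3, a4, a5, a6⟩ := hP.pos x hx
  have hg : Circ fun l => ![k₁, k₂] x.i (l, x.s • ge₁) := ngc_par (D.tub.thick x.i) (ngc_norm D hP hx).1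
  have hp : x.e / x.ν ≠ 0 := by
    refine div_ne_zero ?_ a1.ne'
    rcases a4 with e | e <;> rw [e] <;> norm_num
  have h1 := ngc_aff hg (q := scen x.i + x.e * ((n - x.α) / x.ν)) hp t
  have hev : h =ᶠ[𝓝 t] fun t => ![k₁, k₂] x.i (scen x.i + x.e * ((n - x.α) / x.ν) + x.e / x.ν * t, x.s • ge₁) := by
    have hopen : IsOpen {t' : ℝ | |t' + n - x.α| < b * x.ν} := isOpen_lt (by fun_prop) continuous_const
    filter_upwards [hopen.mem_nhds hxt] with t' ht'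
    rw [ngc_form D hper hP hx (n := n) (le_of_lt ht')]
    have e : scen x.i + x.e * ((t' + n - x.α) / x.ν) =
        scen x.i + x.e * ((n - x.α) / x.ν) + x.e / x.ν * t' := by
      field_simp
      ring
    rw [e]
  exact ⟨h1.1.congr_of_eventuallyEq hev, (imm_congr hev).2 h1.2⟩

theorem ngc_inj (D : Dbl (-1 / 2) (1 / 2) k₁ k₂ ε) {h : ℝ → M} (hper : ∀ t, h (t + 1) = h t) {L : List Xing}
    {b a : ℝ} (hb : b < 1 / 2) (hP : Pat D h L b a) (hnd : (L.map Xing.s).Nodup) {t t' : ℝ} (ht : t ∈ ngc_U L b)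
    (ht' : t' ∈ ngc_U L b) (e : h t = h t') : ∃ n : ℤ, t' = t + n := by
  obtain ⟨n, x, hx, hxt⟩ := ht
  obtain ⟨n', x', hx', hxt'⟩ := ht'
  rw [ngc_form D hper hP hx hxt.le, ngc_form D hper hP hx' hxt'.le] at e
  have hn := (ngc_norm D hP hx).2
  have hn' := (ngc_norm D hP hx').2
  have hi : x.i = x'.i := by
    by_contra hne
    exact D.tub.disj x.i x'.i hne _ _ _ _ hn hn' e
  rw [← hi] at e
  obtain ⟨e1, m, e2⟩ := (D.tub.thick x.i).inj _ _ _ _ hn hn' e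
  have he₁ : ge₁ ≠ 0 := by
    intro h
    have := ngc_e₁
    rw [h, norm_zero] at this
    exact zero_ne_one this
  have hs : x.s = x'.s := smul_left_injective ℝ he₁ e1
  have hxx : x = x' := List.inj_on_of_nodup_map hnd hx hx' hs
  subst hxx
  obtain ⟨a1, a2, a3, a4, a5, a6⟩ := hP.pos x hx
  have hA : ∀ (t : ℝ) (n : ℤ), |t + n - x.α| < b * x.ν → |x.e * ((t + n - x.α) / x.ν)| < b := by
    intro t n ht
    rw [abs_mul, abs_div, abs_of_pos a1]
    have : |x.e| = 1 := by rcases a4 with e | e <;> rw [e] <;> simp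
    rw [this, one_mul, div_lt_iff₀ a1]
    exact ht
  have h1 := hA t n hxt
  have h2 := hA t' n' hxt'
  have hm : m = 0 := by
    apply ngc_int
    have e3 : (m : ℝ) = x.e * ((t' + n' - x.α) / x.ν) - x.e * ((t + n - x.α) / x.ν) := by linarith
    rw [e3]
    calc |x.e * ((t' + n' - x.α) / x.ν) - x.e * ((t + n - x.α) / x.ν)|
        ≤ |x.e * ((t' + n' - x.α) / x.ν)| + |x.e * ((t + n - x.α) / x.ν)| := abs_sub _ _
      _ < 1 := by linarith
  rw [hm] at e2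
  have e4 : x.e * ((t' + n' - x.α) / x.ν) = x.e * ((t + n - x.α) / x.ν) := by
    push_cast at e2
    linarith
  have he0 : x.e ≠ 0 := by rcases a4 with e | e <;> rw [e] <;> norm_num
  have e5 := mul_left_cancel₀ he0 e4
  rw [div_left_inj' a1.ne'] at e5
  refine ⟨n - n', ?_⟩
  push_cast
  linarith

theorem ngc_step (D : Dbl (-1 / 2) (1 / 2) k₁ k₂ ε) {h : ℝ → M} (hh : Continuous h) (hper : ∀ t, h (t + 1) = h t)
    {L : List Xing} {b b' a : ℝ} (hP : Pat D h L b a) (ha : a < b') (hbb : b' < b) (hb : b < 1 / 4) (ha0 : 0 ≤ a)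
    (hnd : (L.map Xing.s).Nodup) {W : Set M} (hW : Obst W) (hWU : ∀ t ∈ ngc_U L b, h t ∉ W) :
    ∃ c : ℝ → M, Circ c ∧ (∀ t, c t ∉ W) ∧ FHom univ h c ∧ Pat D c L b' a := by
  have hν : ∀ x ∈ L, 0 < x.ν := fun x hx => (hP.pos x hx).1
  have hO : OpnS {y : ℝ × M | y.1 ∉ ngc_U L b' → ∀ i, y.2 ∉ Sec D i a} := by
    refine ⟨?_, ?_⟩
    · have e : {y : ℝ × M | y.1 ∉ ngc_U L b' → ∀ i, y.2 ∉ Sec D i a} =
          ((ngc_U L b')ᶜ ×ˢ (⋃ i, Sec D i a))ᶜ := by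
        ext ⟨t, x⟩
        simp only [mem_setOf_eq, mem_compl_iff, mem_prod, mem_iUnion, not_and, not_exists]
      rw [e]
      exact ((ngc_U_open L b').isClosed_compl.prod
        (isClosed_iUnion_of_finite fun i => sec_closed D i ha0 (by linarith))).isOpen_compl
    · intro t x
      simp only [mem_setOf_eq, ngc_U_per]
  have hgr : ∀ t, (t, h t) ∈ {y : ℝ × M | y.1 ∉ ngc_U L b' → ∀ i, y.2 ∉ Sec D i a} := by
    intro t ht i hs
    apply ht
    have hs' : h (Int.fract t) ∈ Sec D i a := by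
      have := per_int hper (Int.fract t) ⌊t⌋
      rw [Int.fract_add_floor] at this
      rw [← this]
      exact hs
    obtain ⟨x, hx, -, hxt⟩ := hP.only i (Int.fract t) ⟨Int.fract_nonneg t, (Int.fract_lt_one t).le⟩ hs'
    refine ⟨-⌊t⌋, x, hx, ?_⟩
    push_cast
    have e : t + -(⌊t⌋ : ℝ) - x.α = Int.fract t - x.α := by
      unfold Int.fract
      ring
    rw [e]
    exact hxt.trans_lt (mul_lt_mul_of_pos_right ha (hν x hx))
  obtain ⟨c, hc, hcW, hhom, hcK⟩ := rel_curve hh hper hW hO hgr (ngc_U_open L b) (ngc_T_closed L b')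
    (ngc_U_per L b) (ngc_T_per L b') (ngc_T_U hν hbb)
    (fun t ht => ⟨(ngc_good D hper hP ht).1, (ngc_good D hper hP ht).2, hWU t ht⟩)
    (fun t ht t' ht' e => ngc_inj D hper (by linarith) hP hnd ht ht' e)
  refine ⟨c, hc, hcW, hhom.mono (subset_univ _), ?_, ?_, ?_, ?_⟩
  · intro x hx
    obtain ⟨a1, a2, a3, a4, a5, a6⟩ := hP.pos x hx
    have := mul_le_mul_of_nonneg_right hbb.le a1.le
    exact ⟨a1, a2, a3, a4, by linarith, by linarith⟩
  · refine hP.ord.imp_of_mem ?_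
    intro x y hx hy hxy
    have := mul_le_mul_of_nonneg_right hbb.le (hν x hx).le
    have := mul_le_mul_of_nonneg_right hbb.le (hν y hy).le
    linarith
  · intro x hx t ht
    rw [hcK t ⟨0, x, hx, by push_cast; rw [add_zero]; exact ht⟩]
    exact hP.form x hx t (ht.trans (mul_le_mul_of_nonneg_right hbb.le (hν x hx).le))
  · intro i t ht hs
    have h1 : t ∈ ngc_U L b' := by
      by_contra hne
      exact hhom.right t hne i hs
    rw [hcK t (ngc_U_T L b' h1)] at hs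
    exact hP.only i t ht hs

theorem ngc_cls {q : M} (γ : Path q q) {g : FundamentalGroup M q} (hg : FundamentalGroup.fromPath ⟦γ⟧ = g) :
    Cls q (per γ) g := by
  subst hg
  refine Cls.mk (Path.refl q) γ (fun t => (per_coe γ t).symm) ?_
  congr 1
  refine Quotient.sound ?_
  have h1 : Path.Homotopic ((Path.refl q).trans γ) γ := ⟨Path.Homotopy.reflTrans γ⟩
  have h2 : Path.Homotopic (γ.trans (Path.refl q)) γ := ⟨Path.Homotopy.transRefl γ⟩
  rw [Path.refl_symm]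
  exact (h1.hcomp (Path.Homotopic.refl _)).trans h2

/-- the distances -/
noncomputable def ngc_sq (ε : ℝ) (k n : ℕ) : ℝ := ε / (2 * (2 * n + (k + 3)))

theorem ngc_sq_inj {ε : ℝ} (hε : 0 < ε) {k n k' n' : ℕ} (h : ngc_sq ε k n = ngc_sq ε k' n') :
    2 * n + k = 2 * n' + k' := by
  unfold ngc_sq at h
  have h1 : (0 : ℝ) < 2 * (2 * n + (k + 3)) := by positivity
  have h2 : (0 : ℝ) < 2 * (2 * n' + (k' + 3)) := by positivity
  rw [div_eq_div_iff h1.ne' h2.ne'] at h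
  have h3 := mul_left_cancel₀ hε.ne' h
  have h4 : (2 * n + k : ℝ) = 2 * n' + k' := by linarith
  exact_mod_cast h4

theorem ngc_sq_pos {ε : ℝ} (hε : 0 < ε) (k n : ℕ) : 0 < ngc_sq ε k n ∧ ngc_sq ε k n < ε / 2 := by
  unfold ngc_sq
  have h1 : (0 : ℝ) < 2 * (2 * n + (k + 3)) := by positivity
  refine ⟨by positivity, ?_⟩
  apply div_lt_div_of_pos_left hε (by norm_num)
  have : (0 : ℝ) ≤ n := Nat.cast_nonneg n
  have : (0 : ℝ) ≤ k := Nat.cast_nonneg k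
  linarith

theorem two_circles (D : Dbl (-1 / 2) (1 / 2) k₁ k₂ ε) {q : M} {lam₁ lam₂ : ℝ → M} (hG : Gens D q lam₁ lam₂)
    {x y : FundamentalGroup M q} (hx : BCls q lam₁ x) (hy : BCls q lam₂ y) (w₁ w₂ : List (Fin 2 × Bool)) :
    ∃ (c₁ c₂ : ℝ → M) (L₁ L₂ : List Xing), Circ c₁ ∧ Circ c₂ ∧ (∀ t t', c₁ t ≠ c₂ t') ∧
      Cls q c₁ (FreeGroup.lift ![x, y] (FreeGroup.mk w₁)) ∧ Cls q c₂ (FreeGroup.lift ![x, y] (FreeGroup.mk w₂)) ∧
      Pat D c₁ L₁ (3 / 32) (1 / 16) ∧ Pat D c₂ L₂ (3 / 32) (1 / 16) ∧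
      (∀ i, L₁.countP (fun z => z.i = i) = w₁.countP fun z => z.1 = i) ∧
      ∀ i, L₂.countP (fun z => z.i = i) = w₂.countP fun z => z.1 = i := by
  have hε : 0 < ε := (D.tub.thick 0).pos
  obtain ⟨γ₁, L₁, g₁, P₁, n₁, p₁⟩ := word_path D hG hx hy w₁ (ngc_sq ε 0) (ngc_sq_pos hε 0)
  obtain ⟨γ₂, L₂, g₂, P₂, n₂, p₂⟩ := word_path D hG hx hy w₂ (ngc_sq ε 1) (ngc_sq_pos hε 1)
  have nd : ∀ (k m : ℕ), ((List.range m).map (ngc_sq ε k)).Nodup := by
    intro k m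
    refine List.Nodup.map ?_ List.nodup_range
    intro a b hab
    have := ngc_sq_inj hε hab
    omega
  have nd₁ : (L₁.map Xing.s).Nodup := p₁.nodup_iff.2 (nd 0 _)
  have nd₂ : (L₂.map Xing.s).Nodup := p₂.nodup_iff.2 (nd 1 _)
  have hne : ∀ x₁ ∈ L₁, ∀ x₂ ∈ L₂, x₁.s ≠ x₂.s := by
    intro x₁ h₁ x₂ h₂ e
    have m₁ : x₁.s ∈ (List.range w₁.length).map (ngc_sq ε 0) := p₁.mem_iff.1 (List.mem_map_of_mem h₁)
    have m₂ : x₂.s ∈ (List.range w₂.length).map (ngc_sq ε 1) := p₂.mem_iff.1 (List.mem_map_of_mem h₂)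
    obtain ⟨a, -, ha⟩ := List.mem_map.1 m₁
    obtain ⟨b, -, hb⟩ := List.mem_map.1 m₂
    rw [← ha, ← hb] at e
    have := ngc_sq_inj hε e
    omega
  obtain ⟨c₁, hc₁, -, f₁, Q₁⟩ := ngc_step D (per_cont γ₁) (per_per γ₁) P₁ (b' := 5 / 32) (by norm_num) (by norm_num)
    (by norm_num) (by norm_num) nd₁ Obst.empty (fun _ _ => notMem_empty _)
  have P₂' : Pat D (per γ₂) L₂ (1 / 8) (1 / 16) :=
    pat_mono D P₂ (by norm_num) (by norm_num) (by norm_num) (by norm_num) (by norm_num) (by norm_num)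
  have hoff : ∀ t ∈ ngc_U L₂ (1 / 8), per γ₂ t ∉ range c₁ := by
    rintro t ⟨n, x₂, hx₂, hxt⟩ ⟨t', ht'⟩
    have hform := ngc_form D (per_per γ₂) P₂' hx₂ hxt.le
    obtain ⟨a1, a2, a3, a4, a5, a6⟩ := P₂.pos x₂ hx₂
    have hnorm := (ngc_norm D P₂ hx₂).2
    have hsec : per γ₂ t ∈ Sec D x₂.i (1 / 8) := by
      rw [hform, sec_tube D _ _ (by norm_num) hnorm]
      refine ⟨rfl, 0, ?_⟩
      rw [Int.cast_zero, add_zero, add_sub_cancel_left, abs_mul, abs_div, abs_of_pos a1]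
      have : |x₂.e| = 1 := by rcases a4 with e | e <;> rw [e] <;> simp
      rw [this, one_mul, div_le_iff₀ a1]
      exact hxt.le
    have hfr : c₁ (Int.fract t') = per γ₂ t := by
      rw [lop_int hc₁.per, ht']
    rw [← hfr] at hsec
    obtain ⟨x₁, hx₁, hi, hxt₁⟩ := Q₁.only x₂.i _ ⟨Int.fract_nonneg t', (Int.fract_lt_one t').le⟩ hsec
    obtain ⟨b1, b2, b3, b4, b5, b6⟩ := Q₁.pos x₁ hx₁
    have hform₁ := Q₁.form x₁ hx₁ _ (hxt₁.trans (mul_le_mul_of_nonneg_right (by norm_num) b1.le))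
    rw [hfr, hform, hi] at hform₁
    have hn1 := (ngc_norm D P₁ hx₁).2
    have e1 := ((D.tub.thick x₂.i).inj _ _ _ _ hnorm hn1 hform₁).1
    have he₁ : ge₁ ≠ 0 := by
      intro h
      have := ngc_e₁
      rw [h, norm_zero] at this
      exact zero_ne_one this
    exact hne x₁ hx₁ x₂ hx₂ (smul_left_injective ℝ he₁ e1).symm
  obtain ⟨c₂, hc₂, hW₂, f₂, Q₂⟩ := ngc_step D (per_cont γ₂) (per_per γ₂) P₂' (b' := 3 / 32) (by norm_num) (by norm_num)
    (by norm_num) (by norm_num) nd₂ (Obst.range hc₁.toSCirc) hoff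
  refine ⟨c₁, c₂, L₁, L₂, hc₁, hc₂, fun t t' e => hW₂ t' ⟨t, e⟩, cls_fhom f₁ (ngc_cls γ₁ g₁),
    cls_fhom f₂ (ngc_cls γ₂ g₂), ?_, Q₂, n₁, n₂⟩
  exact pat_mono D Q₁ (by norm_num) (by norm_num) (by norm_num) (by norm_num) (by norm_num) (by norm_num)

end Pool.Agent.MMV
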