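import Pool.Agent.MMV.NGe
import Pool.Agent.MMV.NGc
import Pool.Agent.ACB.Main

/-!
# MMV/NGm: the homotopy sphere of a balanced presentation does not depend on the circles and the framings   (block VI, squad G)

PROOF of `all_framings`.  `two_circles` for `w₁, w₂`: `c₁, c₂, L₁, L₂`.  `h`: `IsSurg ![κ₁, κ₂] X`, classes; `cls_unique`: the cores are freely homotopic to `c₁`, `c₂`; moving both circles to the cores `c₁`, `c₂` is `base_move` (`ACB/BsM.lean`) if there are thick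
circles with the cores `c₁`, `c₂`; redo its three lines with `move_N` for two disjoint circles `c₁, c₂` (`bm2`: `h : IsSurg ![κ₁, κ₂] X`, `Circ c₁`, `Circ c₂`, disjoint, homotopies ⟹ `∃ κ₁' κ₂', IsSurg ![κ₁', κ₂'] X ∧ core κ₁' = c₁ ∧ core κ₂' = c₂`).
Let `κ₁', κ₂'` be the thick circles for `X` (radius `r`), `κ₁'', κ₂''` those for `X'`.  `framing_two` for `X` (with `κ' = κ_j'` itself, `m = n = 0` would do, but take the general statement) and for `X'` with respect to the same `κ₁', κ₂'`: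
`IsSurg ![fr κ₁' (RN m), fr κ₂' (RN n)] X`, `IsSurg ![fr κ₁' (RN m'), fr κ₂' (RN n')] X'`.
`twist_step` for `i = 0, 1` changes `(m, n)` by `(a₀, b₀)`, `(a₁, b₁)`, `a_i = L₁.countP (·.i = i) = w₁.countP (·.1 = i)`, `b_i` for `w₂`; `a₀ b₁ + a₁ b₀` is odd, so there are `p, p' ∈ {0, 1}` with `m + p a₀ + p' a₁ ≡ m'`, `n + p b₀ + p' b₁ ≡ n'` modulo `2`
(16 cases modulo 2 by `decide`/`omega`: everything depends on the parities).  `frame_LH` with `lh_par` (both circles; `isSurg_swap`) replaces the exponents by others of the same parity.  So `IsSurg ![fr κ₁' (RN m'), fr κ₂' (RN n')] X`, and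
`isSurg_uniq`.

PROOF of `odd_of_ncl`.  Let `P₁ = FreeGroup.mk w₁`, `P₂ = FreeGroup.mk w₂` and `normalClosure {P₁, P₂} = ⊤`.  Let `f i : FreeGroup (Fin 2) →* Multiplicative (ZMod 2)` be the homomorphism with `f i (of i) = ofAdd 1`, `f i (of j) = 1` (`j ≠ i`);
`f i (mk w) = ofAdd (w.countP (·.1 = i))`.  If `a₀ b₁ + a₁ b₀` is even then there is `(s, t) ≠ (0, 0)` in `(ZMod 2)²` with `s a₀ + t a₁ = 0`, `s b₀ + t b₁ = 0` (finite check by `decide` over `ZMod 2`), so the homomorphism `w ↦ f 0 w ^ s * f 1 w ^ t`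
kills `P₁`, `P₂`, hence everything (`Subgroup.normalClosure_le_normal` for its kernel), but it is not trivial on `of 0` (if `s ≠ 0`) or `of 1`.
`all_surgeries`: `w_j = P_j.toWord`, `FreeGroup.mk_toWord`.
-/

open scoped ContDiff Manifold Topology unitInterval
open Set Filter
open Pool.Agent.ACB

namespace Pool.Agent.MMV

variable {M : Type} [TopologicalSpace M] [ChartedSpace E4 M] [T2Space M] [IsManifold (𝓡 4) ∞ M]
  {k₁ k₂ : ℝ × E3 → M} {ε : ℝ}

section aux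
variable {N : Type} [TopologicalSpace N] [ChartedSpace E4 N]

theorem ngm_move [T2Space N] [IsManifold (𝓡 4) ∞ N] {κ₁ κ₂ : ℝ × E3 → N} {X : Type}
    [TopologicalSpace X] [ChartedSpace E4 X] (h : IsSurg ![κ₁, κ₂] X) {c₁ c₂ : ℝ → N} (d1 : Circ c₁) (d2 : Circ c₂)
    (hd : ∀ t t', c₁ t ≠ c₂ t') (h1 : FHom univ (core κ₁) c₁) (h2 : FHom univ (core κ₂) c₂) :
    ∃ κ₁' κ₂' : ℝ × E3 → N, IsSurg ![κ₁', κ₂'] X ∧ core κ₁' = c₁ ∧ core κ₂' = c₂ := by
  have hT : ∃ ε₀ : ℝ, Tubes ![κ₁, κ₂] ε₀ := by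
    obtain ⟨ε₀, hT, -⟩ := h
    exact ⟨ε₀, hT⟩
  obtain ⟨ε₀, hT⟩ := hT
  have e1 : Circ (core κ₁) := Thick.circ (κ := κ₁) (by simpa using hT.thick 0)
  have e2 : Circ (core κ₂) := Thick.circ (κ := κ₂) (by simpa using hT.thick 1)
  have hW : Obst (range (core κ₁) ∪ range c₁) := (Obst.range e1.toSCirc).union (Obst.range d1.toSCirc)
  obtain ⟨c, hc, hcW, hcc⟩ := closed_curve (O := univ) e2.smooth.continuous e2.per hW
    ⟨isOpen_univ, fun _ _ => by simp⟩ (fun t => mem_univ _)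
  obtain ⟨κ₂', e2', s2⟩ := move_N (isSurg_swap h) hc (fun t hm => hcW t (Or.inl hm)) hcc
  obtain ⟨κ₁', e1', s1⟩ := move_N (isSurg_swap s2) d1 (by
    rw [e2']
    rintro t ⟨t', ht'⟩
    exact hcW t' (Or.inr ⟨t, ht'.symm⟩)) h1
  obtain ⟨κ₂'', e3, s3⟩ := move_N (isSurg_swap s1) d2 (by
    rw [e1']
    rintro t ⟨t', ht'⟩
    exact hd t' t ht') (by
    rw [e2']
    exact hcc.symm.trans h2)
  exact ⟨κ₁', κ₂'', isSurg_swap s3, e1', e3⟩

theorem ngm_core_fr (κ : ℝ × E3 → N) (L : ℝ → E3 →L[ℝ] E3) (t : ℝ) : core (fr κ L) t = core κ t := by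
  simp [core, fr]

theorem ngm_frame [T2Space N] [IsManifold (𝓡 4) ∞ N] {κ₁ κ₂ : ℝ × E3 → N} {r : ℝ} (h1 : Thick κ₁ r)
    (hd : ∀ t t', core κ₁ t ≠ core κ₂ t') {m n : ℕ} (hmn : m % 2 = n % 2) {X : Type} [TopologicalSpace X]
    [ChartedSpace E4 X] (hX : IsSurg ![fr κ₁ (RN m), κ₂] X) : IsSurg ![fr κ₁ (RN n), κ₂] X := by
  obtain ⟨δ, hT, -⟩ := id hX
  have h2 : Thick κ₂ δ := hT.thick 1
  have hr : 0 < min r δ := lt_min h1.pos h2.pos
  obtain ⟨δ', -, -, hT'⟩ := tubes_pair (h1.mono hr (min_le_left _ _)) (h2.mono hr (min_le_right _ _)) hd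
  exact frame_LH hT' (lh_par hmn) hX

theorem ngm_frame₂ [T2Space N] [IsManifold (𝓡 4) ∞ N] {κ₁ κ₂ : ℝ × E3 → N} {r : ℝ} (h1 : Thick κ₁ r)
    (h2 : Thick κ₂ r) (hd : ∀ t t', core κ₁ t ≠ core κ₂ t') {m n m' n' : ℕ} (hm : m % 2 = m' % 2)
    (hn : n % 2 = n' % 2) {X : Type} [TopologicalSpace X]
    [ChartedSpace E4 X] (hX : IsSurg ![fr κ₁ (RN m), fr κ₂ (RN n)] X) :
    IsSurg ![fr κ₁ (RN m'), fr κ₂ (RN n')] X := by
  have s1 := ngm_frame h1 (by
    intro t t'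
    rw [ngm_core_fr]
    exact hd t t') hm hX
  have s2 := ngm_frame h2 (by
    intro t t'
    rw [ngm_core_fr]
    exact (hd t' t).symm) hn (isSurg_swap s1)
  exact isSurg_swap s2

end aux

theorem ngm_zmod : ∀ a0 a1 b0 b1 m n : ZMod 2, a0 * b1 + a1 * b0 = 1 →
    ∃ p p' : ZMod 2, p * a0 + p' * a1 = m ∧ p * b0 + p' * b1 = n := by
  decide

theorem ngm_par {A0 A1 B0 B1 : ℕ} (h : (A0 * B1 + A1 * B0) % 2 = 1) (m n m' n' : ℕ) :
    ∃ p p' : ℕ, (p = 0 ∨ p = 1) ∧ (p' = 0 ∨ p' = 1) ∧ (m + p * A0 + p' * A1) % 2 = m' % 2 ∧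
      (n + p * B0 + p' * B1) % 2 = n' % 2 := by
  have h0 : ((A0 : ZMod 2) * B1 + A1 * B0) = 1 := by
    have : ((A0 * B1 + A1 * B0 : ℕ) : ZMod 2) = ((1 : ℕ) : ZMod 2) := by
      rw [ZMod.natCast_eq_natCast_iff']
      omega
    push_cast at this
    exact this
  obtain ⟨p, p', hp, hp'⟩ := ngm_zmod _ _ _ _ ((m' : ZMod 2) - m) ((n' : ZMod 2) - n) h0
  have hv : ∀ z : ZMod 2, z.val = 0 ∨ z.val = 1 := by decide
  refine ⟨p.val, p'.val, hv p, hv p', ?_, ?_⟩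
  · rw [← ZMod.natCast_eq_natCast_iff']
    push_cast
    rw [ZMod.natCast_zmod_val, ZMod.natCast_zmod_val]
    linear_combination hp
  · rw [← ZMod.natCast_eq_natCast_iff']
    push_cast
    rw [ZMod.natCast_zmod_val, ZMod.natCast_zmod_val]
    linear_combination hp'

theorem all_framings (D : Dbl (-1 / 2) (1 / 2) k₁ k₂ ε) {q : M} {lam₁ lam₂ : ℝ → M} (hG : Gens D q lam₁ lam₂)
    {x y : FundamentalGroup M q} (hx : BCls q lam₁ x) (hy : BCls q lam₂ y) {w₁ w₂ : List (Fin 2 × Bool)}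
    (hodd : ((w₁.countP fun z => z.1 = 0) * (w₂.countP fun z => z.1 = 1) +
      (w₁.countP fun z => z.1 = 1) * (w₂.countP fun z => z.1 = 0)) % 2 = 1)
    {X X' : Type} [TopologicalSpace X] [ChartedSpace E4 X] [TopologicalSpace X'] [ChartedSpace E4 X']
    (h : Two q (FreeGroup.lift ![x, y] (FreeGroup.mk w₁)) (FreeGroup.lift ![x, y] (FreeGroup.mk w₂)) X)
    (h' : Two q (FreeGroup.lift ![x, y] (FreeGroup.mk w₁)) (FreeGroup.lift ![x, y] (FreeGroup.mk w₂)) X') :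
    Nonempty (X ≃ₘ⟮𝓡 4, 𝓡 4⟯ X') := by
  obtain ⟨c₁, c₂, L₁, L₂, hc₁, hc₂, hd, hcl₁, hcl₂, hp₁, hp₂, hn₁, hn₂⟩ := two_circles D hG hx hy w₁ w₂
  obtain ⟨κ₁, κ₂, hs, hk1, hk2⟩ := h
  obtain ⟨κ₁', κ₂', hs', hk1', hk2'⟩ := h'
  obtain ⟨a₁, a₂, sA, eA1, eA2⟩ := ngm_move hs hc₁ hc₂ hd (cls_unique (acb_per hs) hc₁.per hk1 hcl₁)
    (cls_unique (acb_per (isSurg_swap hs)) hc₂.per hk2 hcl₂)
  obtain ⟨b₁, b₂, sB, eB1, eB2⟩ := ngm_move hs' hc₁ hc₂ hd (cls_unique (acb_per hs') hc₁.per hk1' hcl₁)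
    (cls_unique (acb_per (isSurg_swap hs')) hc₂.per hk2' hcl₂)
  obtain ⟨r, hT, -⟩ := id sA
  have t1 : Thick a₁ r := hT.thick 0
  have t2 : Thick a₂ r := hT.thick 1
  have hda : ∀ t t', core a₁ t ≠ core a₂ t' := by
    rw [eA1, eA2]
    exact hd
  obtain ⟨m, n, sX⟩ := framing_two t1 t2 rfl rfl sA
  obtain ⟨m', n', sX'⟩ := framing_two t1 t2 (eB1.trans eA1.symm) (eB2.trans eA2.symm) sB
  have P₁ : Pat D (core a₁) L₁ (3 / 32) (1 / 16) := by rw [eA1]; exact hp₁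
  have P₂ : Pat D (core a₂) L₂ (3 / 32) (1 / 16) := by rw [eA2]; exact hp₂
  obtain ⟨p, p', hp, hp', hm, hn⟩ := ngm_par (A0 := L₁.countP fun z => z.i = 0)
    (A1 := L₁.countP fun z => z.i = 1) (B0 := L₂.countP fun z => z.i = 0)
    (B1 := L₂.countP fun z => z.i = 1) (by
      rw [hn₁, hn₁, hn₂, hn₂]
      exact hodd) m n m' n'
  have key : IsSurg ![fr a₁ (RN (m + p * (L₁.countP fun z => z.i = 0) + p' * (L₁.countP fun z => z.i = 1))),
      fr a₂ (RN (n + p * (L₂.countP fun z => z.i = 0) + p' * (L₂.countP fun z => z.i = 1)))] X := by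
    have s1 : IsSurg ![fr a₁ (RN (m + p * (L₁.countP fun z => z.i = 0))),
        fr a₂ (RN (n + p * (L₂.countP fun z => z.i = 0)))] X := by
      rcases hp with rfl | rfl
      · simpa only [zero_mul, add_zero] using sX
      · simpa only [one_mul] using twist_step D 0 t1 t2 hda P₁ P₂ sX
    rcases hp' with rfl | rfl
    · simpa only [zero_mul, add_zero] using s1
    · simpa only [one_mul] using twist_step D 1 t1 t2 hda P₁ P₂ s1
  exact isSurg_uniq (ngm_frame₂ t1 t2 hda hm hn key) sX'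

theorem ngm_zmod' : ∀ a0 a1 b0 b1 : ZMod 2, a0 * b1 + a1 * b0 ≠ 1 →
    ∃ s t : ZMod 2, (s ≠ 0 ∨ t ≠ 0) ∧ s * a0 + t * a1 = 0 ∧ s * b0 + t * b1 = 0 := by
  decide

theorem ngm_lift (s t : ZMod 2) (w : List (Fin 2 × Bool)) :
    FreeGroup.lift (fun i : Fin 2 => Multiplicative.ofAdd ((![s, t] : Fin 2 → ZMod 2) i)) (FreeGroup.mk w) =
      Multiplicative.ofAdd (s * ((w.countP fun z => z.1 = 0 : ℕ) : ZMod 2) +
        t * ((w.countP fun z => z.1 = 1 : ℕ) : ZMod 2)) := by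
  rw [FreeGroup.lift_mk]
  induction w with
  | nil => simp
  | cons z w ih =>
    rw [List.map_cons, List.prod_cons, ih, List.countP_cons, List.countP_cons]
    obtain ⟨i, b⟩ := z
    have h2 : ∀ u : ZMod 2, (Multiplicative.ofAdd u)⁻¹ = Multiplicative.ofAdd u := by
      intro u
      rw [← ofAdd_neg]
      congr 1
      revert u
      decide
    have h3 : cond b (Multiplicative.ofAdd ((![s, t] : Fin 2 → ZMod 2) i))
        (Multiplicative.ofAdd ((![s, t] : Fin 2 → ZMod 2) i))⁻¹ =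
        Multiplicative.ofAdd ((![s, t] : Fin 2 → ZMod 2) i) := by
      cases b
      · exact h2 _
      · rfl
    change cond b _ _ * _ = _
    rw [h3, ← ofAdd_add]
    congr 1
    fin_cases i
    · simp
      ring
    · simp
      ring

theorem odd_of_ncl {w₁ w₂ : List (Fin 2 × Bool)}
    (h : Subgroup.normalClosure {FreeGroup.mk w₁, FreeGroup.mk w₂} = (⊤ : Subgroup (FreeGroup (Fin 2)))) :
    ((w₁.countP fun z => z.1 = 0) * (w₂.countP fun z => z.1 = 1) +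
      (w₁.countP fun z => z.1 = 1) * (w₂.countP fun z => z.1 = 0)) % 2 = 1 := by
  by_contra hc
  have h0 : (((w₁.countP fun z => z.1 = 0 : ℕ) : ZMod 2) * ((w₂.countP fun z => z.1 = 1 : ℕ) : ZMod 2) +
      ((w₁.countP fun z => z.1 = 1 : ℕ) : ZMod 2) * ((w₂.countP fun z => z.1 = 0 : ℕ) : ZMod 2)) ≠ 1 := by
    intro h1
    apply hc
    have h2 : (((w₁.countP fun z => z.1 = 0) * (w₂.countP fun z => z.1 = 1) +
      (w₁.countP fun z => z.1 = 1) * (w₂.countP fun z => z.1 = 0) : ℕ) : ZMod 2) = ((1 : ℕ) : ZMod 2) := by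
      push_cast
      exact h1
    rw [ZMod.natCast_eq_natCast_iff'] at h2
    omega
  obtain ⟨s, t, hst, h1, h2⟩ := ngm_zmod' _ _ _ _ h0
  set F : FreeGroup (Fin 2) →* Multiplicative (ZMod 2) :=
    FreeGroup.lift (fun i : Fin 2 => Multiplicative.ofAdd ((![s, t] : Fin 2 → ZMod 2) i)) with hF
  have hle : Subgroup.normalClosure {FreeGroup.mk w₁, FreeGroup.mk w₂} ≤ F.ker := by
    apply Subgroup.normalClosure_le_normal
    rintro z (rfl | rfl)
    · change F _ = 1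
      rw [hF, ngm_lift, h1]
      rfl
    · change F _ = 1
      rw [hF, ngm_lift, h2]
      rfl
  rw [h] at hle
  have hall : ∀ z, F z = 1 := fun z => hle (Subgroup.mem_top z)
  have e0 := hall (FreeGroup.of 0)
  have e1 := hall (FreeGroup.of 1)
  rw [hF, FreeGroup.lift_apply_of] at e0 e1
  rcases hst with hs | ht
  · exact hs (Multiplicative.ofAdd.injective e0)
  · exact ht (Multiplicative.ofAdd.injective e1)

/-- **the homotopy sphere of a balanced presentation of the trivial group is well defined** -/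
theorem all_surgeries (D : Dbl (-1 / 2) (1 / 2) k₁ k₂ ε) {q : M} {lam₁ lam₂ : ℝ → M} (hG : Gens D q lam₁ lam₂)
    {x y : FundamentalGroup M q} (hx : BCls q lam₁ x) (hy : BCls q lam₂ y) {P₁ P₂ : FreeGroup (Fin 2)}
    (hP : Subgroup.normalClosure {P₁, P₂} = ⊤)
    {X X' : Type} [TopologicalSpace X] [ChartedSpace E4 X] [TopologicalSpace X'] [ChartedSpace E4 X']
    (h : Two q (FreeGroup.lift ![x, y] P₁) (FreeGroup.lift ![x, y] P₂) X)
    (h' : Two q (FreeGroup.lift ![x, y] P₁) (FreeGroup.lift ![x, y] P₂) X') :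
    Nonempty (X ≃ₘ⟮𝓡 4, 𝓡 4⟯ X') := by
  have e1 : FreeGroup.mk P₁.toWord = P₁ := FreeGroup.mk_toWord
  have e2 : FreeGroup.mk P₂.toWord = P₂ := FreeGroup.mk_toWord
  rw [← e1, ← e2] at hP h h'
  exact all_framings D hG hx hy (odd_of_ncl hP) h h'

end Pool.Agent.MMV
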