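import Pool.Agent.MMV.NLp

/-!
# MMV/NLl: loops can be pushed off a small ball   (block VI, squad N)

Finitely many classes `g i` of loops at `p`: there is a coordinate ball `b` with `p = b x` such that `p` and loops in the classes `g i` are off the closed unit ball of `b`.

PROOF.  `exists_ball`: `b₀` with `b₀ 0 = p`.  Let `e : E4`, `‖e‖ = 1`, `a = b₀ e ≠ p`.  `W = {a}` is an obstacle (closed, contained in the range of a constant curve).
Let `l` be a loop at `p` in the class `g i` (`loop_of (Path.refl p)`, or `Quotient.exists_rep`).  As in `slide_data` (`ACB/SlD.lean`): `O = {(t, x) | (∃ n : ℤ, t = n) → x ∉ W}` (`slD_open`) contains the graph of `per l` (`per l n = p ≠ a`);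
`closed_curve` gives a circle `c` off `W` and a homotopy `H` in `O` from `per l` to `c`; the track `ρ s = H s 0` is a path from `p` to `c 0` off `a`; `cls_track` with the constant path at `p`: `[l] = [ρ · c · ρ⁻¹]` (`Path.refl` absorbed).
So there is a loop `L i` at `p` in the class `g i` whose (compact) range does not contain `a`.  The union of the ranges of the `L i` and `{p}` is compact (`ι` finite); `b₀⁻¹` of its complement is an open neighbourhood of `e`: it contains
`closedBall e r` for some `0 < r < 1`.  `b y = b₀ (e + r • y)`, `b' z = r⁻¹ • (b₀' z - e)`: `IsBall`, `b '' closedBall 0 1 = b₀ '' closedBall e r`; `p = b₀ 0 = b (- r⁻¹ • e)`.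
The loop `L i` has values in `Out`, so it is the image of a loop `L' i` in the open subset (`Path` with values in the subtype, `Continuous.subtype_mk`); `g₁ i` = its class; `FundamentalGroup.map (inc _) _ (g₁ i) = g i`.
-/

open scoped ContDiff Manifold Topology unitInterval
open Set Filter
open Pool.Agent.ACB

namespace Pool.Agent.MMV

/-- a loop at `p` can be pushed off a point `a ≠ p` -/
theorem nll_off {N : Type} [TopologicalSpace N] [ChartedSpace E4 N] [T2Space N] [IsManifold (𝓡 4) ∞ N]
    {p a : N} (hpa : p ≠ a) (g : FundamentalGroup N p) :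
    ∃ L : Path p p, (∀ t, L t ≠ a) ∧ FundamentalGroup.fromPath ⟦L⟧ = g := by
  have hW : Obst ({a} : Set N) := by
    refine ⟨isClosed_singleton, 1, fun _ _ => a, fun _ => contMDiff_const, ?_⟩
    intro x hx
    exact mem_iUnion.2 ⟨0, ⟨0, hx.symm⟩⟩
  obtain ⟨l, hl⟩ := loop_of (Path.refl p) g
  have hO := slD_open (N := N) hW.1
  have hlO : ∀ t, (t, per l t) ∈ {x : ℝ × N | (∃ n : ℤ, x.1 = n) → x.2 ∉ ({a} : Set N)} := by
    rintro t ⟨n, hn⟩
    change t = n at hn
    subst hn
    change per l n ∉ ({a} : Set N)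
    rw [slD_int]
    exact hpa
  obtain ⟨c, hc, hcW, H, hH, hHper, hH0, hH1, hHO⟩ :=
    closed_curve (per_cont l) (per_per l) hW hO hlO
  have hHW : ∀ s, H s 0 ≠ a := fun s => hHO s 0 ⟨0, by simp⟩
  have hH00 : H 0 0 = p := by
    rw [hH0]
    have := slD_int l 0
    rwa [Int.cast_zero] at this
  have hcc : Continuous c := hc.smooth.continuous
  obtain ⟨γ, hγ, -⟩ := path_of hcc hc.per
  have hHc : Continuous fun s : ℝ => H s 0 := hH.comp (continuous_id.prodMk continuous_const)
  let ρ : Path p (c 0) :=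
    { toFun := fun s => H s 0
      continuous_toFun := hHc.comp continuous_subtype_val
      source' := by
        change H ((0 : I) : ℝ) 0 = p
        rw [Icc.coe_zero, hH00]
      target' := by
        change H ((1 : I) : ℝ) 0 = c 0
        rw [Icc.coe_one, hH1] }
  have hρ : ∀ s : I, ρ s = H s 0 := fun s => rfl
  have htr := cls_track H hH hHper (Path.refl p) l (fun t => by rw [hH0, per_coe]) γ
    (fun t => by rw [hH1, hγ]) ρ hρ
  have hρa : a ∉ range ρ := by
    rintro ⟨s, hs⟩
    exact hHW s hs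
  have hγa : a ∉ range γ := by
    rintro ⟨s, hs⟩
    rw [hγ] at hs
    exact hcW s hs
  have hra : a ∉ range (Path.refl p) := by
    rintro ⟨s, hs⟩
    exact hpa hs
  have hσ : a ∉ range ((Path.refl p).trans ρ) := by
    rw [Path.trans_range]
    exact fun h => h.elim hra hρa
  refine ⟨(((Path.refl p).trans ρ).trans γ).trans ((Path.refl p).trans ρ).symm, ?_, ?_⟩
  · intro t ht
    have h1 : a ∈ range ((((Path.refl p).trans ρ).trans γ).trans ((Path.refl p).trans ρ).symm) := ⟨t, ht⟩
    rw [Path.trans_range, Path.trans_range, Path.symm_range] at h1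
    rcases h1 with (h1 | h1) | h1
    · exact hσ h1
    · exact hγa h1
    · exact hσ h1
  · rw [← hl]
    congr 1
    exact (Quotient.sound htr).symm

theorem lift_ball {N : Type} [TopologicalSpace N] [ChartedSpace E4 N] [T2Space N] [IsManifold (𝓡 4) ∞ N]
    {ι : Type} [Finite ι] {p : N} (g : ι → FundamentalGroup N p) :
    ∃ (b : E4 → N) (b' : N → E4) (hb : IsBall b b') (x : E4) (hp : p ∈ Out hb.smooth.continuous),
      b x = p ∧ ∃ g₁ : ι → FundamentalGroup (Out hb.smooth.continuous) ⟨p, hp⟩,
        ∀ i, FundamentalGroup.map (inc (Out hb.smooth.continuous)) ⟨p, hp⟩ (g₁ i) = g i := by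
  obtain ⟨b₀, b₀', hb₀, hb0, -⟩ := exists_ball p (U := univ) univ_mem
  obtain ⟨e, he⟩ : ∃ e : E4, ‖e‖ = 1 := ⟨EuclideanSpace.single 0 1, by simp⟩
  have hea : p ≠ b₀ e := by
    intro h
    have h1 : e = 0 := hb₀.inj (by rw [hb0, ← h])
    rw [h1, norm_zero] at he
    exact zero_ne_one he
  choose L hLa hLg using fun i => nll_off hea (g i)
  have hK : IsClosed (⋃ i, range (L i)) := (isCompact_iUnion fun i => isCompact_range (L i).continuous).isClosed
  have hO : IsOpen (b₀ ⁻¹' (⋃ i, range (L i))ᶜ) := hK.isOpen_compl.preimage hb₀.cont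
  have heO : e ∈ b₀ ⁻¹' (⋃ i, range (L i))ᶜ := by
    intro h
    obtain ⟨i, t, ht⟩ := mem_iUnion.1 h
    exact hLa i t ht
  obtain ⟨r', hr', hball⟩ := Metric.isOpen_iff.1 hO e heO
  obtain ⟨r, hr0, hr1, hrr⟩ : ∃ r : ℝ, 0 < r ∧ r < 1 ∧ r < r' :=
    ⟨min (r' / 2) (1 / 2), by positivity, lt_of_le_of_lt (min_le_right _ _) (by norm_num),
      lt_of_le_of_lt (min_le_left _ _) (by linarith)⟩
  have hsurj : Function.Surjective fun y : E4 => e + r • y := by
    intro z
    refine ⟨r⁻¹ • (z - e), ?_⟩
    change e + r • (r⁻¹ • (z - e)) = z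
    rw [smul_smul, mul_inv_cancel₀ hr0.ne', one_smul, add_sub_cancel]
  have hrange : range (fun y : E4 => b₀ (e + r • y)) = range b₀ := hsurj.range_comp b₀
  have hb : IsBall (fun y : E4 => b₀ (e + r • y)) (fun z => r⁻¹ • (b₀' z - e)) := by
    refine ⟨fun y => ?_, ?_, ?_, ?_⟩
    · rw [hb₀.left_inv, add_sub_cancel_left, smul_smul, inv_mul_cancel₀ hr0.ne', one_smul]
    · refine hb₀.smooth.comp ?_
      have : ContDiff ℝ ∞ fun y : E4 => e + r • y := by fun_prop
      exact this.contMDiff
    · rw [hrange]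
      have : ContDiff ℝ ∞ fun z : E4 => r⁻¹ • (z - e) := by fun_prop
      exact this.contMDiff.comp_contMDiffOn hb₀.smooth'
    · rw [hrange]
      exact hb₀.isOpen
  have hp : p ∈ Out hb.smooth.continuous := by
    rintro ⟨y, hy, hyp⟩
    change b₀ (e + r • y) = p at hyp
    have h1 : e + r • y = 0 := hb₀.inj (by rw [hyp, hb0])
    have h2 : e = -(r • y) := eq_neg_of_add_eq_zero_left h1
    have h3 : ‖y‖ ≤ 1 := mem_closedBall_zero_iff.1 hy
    have h4 : ‖e‖ = r * ‖y‖ := by
      rw [h2, norm_neg, norm_smul, Real.norm_of_nonneg hr0.le]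
    nlinarith [norm_nonneg y]
  have hL : ∀ i t, L i t ∈ Out hb.smooth.continuous := by
    rintro i t ⟨y, hy, hyp⟩
    change b₀ (e + r • y) = L i t at hyp
    have h3 : ‖y‖ ≤ 1 := mem_closedBall_zero_iff.1 hy
    have h1 : e + r • y ∈ Metric.ball e r' := by
      rw [mem_ball_iff_norm, add_sub_cancel_left, norm_smul, Real.norm_of_nonneg hr0.le]
      nlinarith [norm_nonneg y]
    have h2 : b₀ (e + r • y) ∉ ⋃ i, range (L i) := hball h1
    exact h2 (mem_iUnion.2 ⟨i, t, hyp.symm⟩)
  refine ⟨_, _, hb, -(r⁻¹ • e), hp, ?_, fun i => FundamentalGroup.fromPath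
    ⟦{ toFun := fun t => ⟨L i t, hL i t⟩
       continuous_toFun := (L i).continuous.subtype_mk _
       source' := Subtype.ext (L i).source
       target' := Subtype.ext (L i).target }⟧, fun i => ?_⟩
  · change b₀ (e + r • (-(r⁻¹ • e))) = p
    rw [smul_neg, smul_smul, mul_inv_cancel₀ hr0.ne', one_smul, add_neg_cancel, hb0]
  · rw [← hLg i]
    rfl

end Pool.Agent.MMV
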