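import Pool.Agent.MMV.NLf
import Pool.Agent.MMV.NLl
import Pool.Agent.MMV.NCe
import Pool.Agent.MMV.NFe

/-!
# MMV/NLm: a pair of words whose surgery on the double is `S⁴` gives a move on every 4-manifold   (block VI, squad N)

`ev u v w`: the word `w` in `u`, `v`.

ALGEBRA.
`ncl_ev`: if `r₁, r₂` normally generate the free group then `ev a b w` is in the normal closure of `{ev a b r₁, ev a b r₂}` for every `w` (image of a normal closure: `w ∈ normalClosure {r₁, r₂}`, `Subgroup.closure_induction` or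
`Subgroup.normalClosure_le_normal` for the comap of the normal closure).
`ncl_cong`: if `a⁻¹ a'`, `b⁻¹ b' ∈ K`, `K` normal, then `(ev a b w)⁻¹ * ev a' b' w ∈ K`: in the quotient `G ⧸ K` the two homomorphisms `F → G ⧸ K` agree on the generators (`FreeGroup.ext_hom`), `QuotientGroup.eq`.
`word_chain`: pure bookkeeping on `Fam`: `π = FundamentalGroup Z z`, `u v x y : π`, `h : ι → π`.  From
  `Fam z (Sum.elim (Sum.elim ![u, v] h) ![R₁ x y, R₂ x y]) X` (`R k a b = ev a b (r k)`) we get `Fam z (Sum.elim (Sum.elim ![R₁ u v, R₂ u v] h) ![x, y]) X`, and conversely.  Steps (each one is `Fam.ncl` at one index, with `Function.update` rewritten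
  by `funext` and cases; the two lists are the classes of the first pair and of the last pair, `h` never changes):
  `(u, v | R₁ x y, R₂ x y)` → `(x⁻¹ u, v | ..)` (`u⁻¹ x⁻¹ u ∈` normal closure of `R₁ x y, R₂ x y`, `ncl_ev`) → `(x⁻¹ u, y⁻¹ v | ..)` → `(x⁻¹ u, y⁻¹ v | R₁ u v, R₂ x y)` (`ncl_cong`, `K` = normal closure of the others, it contains `x⁻¹ u`, `y⁻¹ v`)
  → `(x⁻¹ u, y⁻¹ v | R₁ u v, R₂ u v)` → `(x⁻¹, y⁻¹ v | ..)` (`(x⁻¹ u)⁻¹ x⁻¹ = u⁻¹`, `ncl_ev`) → `(x⁻¹, y⁻¹ | ..)` → `(x, y | R₁ u v, R₂ u v)` (`Fam.inv`); then `Fam.reindex` (exchange the two pairs: the equivalence of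
  `(Fin 2 ⊕ ι) ⊕ Fin 2` with itself which exchanges `inl (inl i)` and `inr i`).  Converse: the same steps backwards (every step is reversible: same normal closures).

PROOF of `n_move`.  `lift_ball` in `N` for the family `Sum.elim ![u, v] h : Fin 2 ⊕ ι → _`: `b, p`, lifts `u₁, v₁, h₁`; `lift_ball` in `M` for `![x, y]`: `c, q`, lifts `x₁, y₁`.  `csum_exists`: `Z`, `C`.  `p = b x₀`, `q = c y₀` with `|x₀|, |y₀| > 1`
(`p`, `q` are off the unit balls), `jM q = jM (c y₀) = jN (b (inv4 y₀))` (`C.glue`, `inv4_inv4`); the path `δ`: `jN ∘ b` of a path from `x₀` to `inv4 y₀` in `E4 ∖ {0}` (path connected: `isPathConnected_compl_singleton_of_one_lt_rank`), continuous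
(`C.jN_loc`).  `cs_fwd` with `r₁ = ![R₁ x₁ y₁, R₂ x₁ y₁]`: the hypothesis `hS` (as a `Fam` over `Fin 2`: `fam_two`), and `map (ev x₁ y₁ w) = ev (map x₁) (map y₁) w` (`ev_map`).  `word_chain` in `Z`.  `cs_bwd` with `g₁ = Sum.elim ![R₁ u₁ v₁, R₂ u₁ v₁] h₁`,
`r₁ = ![x₁, y₁]`; its hypothesis `hall`: `Fam q ![x, y] X' → X' ≅ S4` is `double_ac` with `P = (x, y)` (`ACP.ACEquiv.refl`).
`n_move_rev`: the converse direction: `cs_fwd` with `r₁ = ![x₁, y₁]` (`Fam q ![x, y] S4`: `⟨k₁, k₂, ..⟩`, `D.tub`, `D.S`), converse `word_chain`, `cs_bwd` with `r₁ = ![R₁ x₁ y₁, R₂ x₁ y₁]` and the hypothesis `hall` on all framings.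
-/

open scoped ContDiff Manifold Topology unitInterval
open Set Filter
open Pool.Agent.ACB

namespace Pool.Agent.MMV

/-- the value of a word -/
def ev {G : Type} [Group G] (u v : G) : FreeGroup (Fin 2) →* G := FreeGroup.lift ![u, v]

theorem ev_map {G H : Type} [Group G] [Group H] (f : G →* H) (u v : G) (w : FreeGroup (Fin 2)) :
    f (ev u v w) = ev (f u) (f v) w := by
  have h : f.comp (ev u v) = ev (f u) (f v) := by
    apply FreeGroup.ext_hom
    intro i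
    fin_cases i <;> simp [ev]
  exact DFunLike.congr_fun h w

theorem nlm_ev0 {G : Type} [Group G] (u v : G) : ev u v (FreeGroup.of 0) = u := by simp [ev]

theorem nlm_ev1 {G : Type} [Group G] (u v : G) : ev u v (FreeGroup.of 1) = v := by simp [ev]

theorem ncl_ev {G : Type} [Group G] {r₁ r₂ : FreeGroup (Fin 2)} (hr : Subgroup.normalClosure {r₁, r₂} = ⊤) (a b : G)
    (w : FreeGroup (Fin 2)) : ev a b w ∈ Subgroup.normalClosure {ev a b r₁, ev a b r₂} := by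
  have h1 : Subgroup.normalClosure {r₁, r₂} ≤ (Subgroup.normalClosure {ev a b r₁, ev a b r₂}).comap (ev a b) := by
    apply Subgroup.normalClosure_le_normal
    rintro r (rfl | rfl)
    · exact Subgroup.subset_normalClosure (Set.mem_insert _ _)
    · exact Subgroup.subset_normalClosure (Set.mem_insert_of_mem _ (Set.mem_singleton _))
  have h2 : w ∈ Subgroup.normalClosure {r₁, r₂} := by
    rw [hr]
    exact Subgroup.mem_top w
  exact h1 h2

theorem ncl_cong {G : Type} [Group G] {K : Subgroup G} [K.Normal] {a b a' b' : G} (ha : a⁻¹ * a' ∈ K)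
    (hb : b⁻¹ * b' ∈ K) (w : FreeGroup (Fin 2)) : (ev a b w)⁻¹ * ev a' b' w ∈ K := by
  rw [← QuotientGroup.eq]
  have e1 := ev_map (QuotientGroup.mk' K) a b w
  have e2 := ev_map (QuotientGroup.mk' K) a' b' w
  have e3 : (QuotientGroup.mk' K) a = (QuotientGroup.mk' K) a' := QuotientGroup.eq.mpr ha
  have e4 : (QuotientGroup.mk' K) b = (QuotientGroup.mk' K) b' := QuotientGroup.eq.mpr hb
  rw [e3, e4, ← e2] at e1
  exact e1

theorem fam_two {M : Type} [TopologicalSpace M] [ChartedSpace E4 M] {q : M} {g k : FundamentalGroup M q}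
    {X : Type*} [TopologicalSpace X] [ChartedSpace E4 X] : Fam q ![g, k] X ↔ Two q g k X := by
  constructor
  · rintro ⟨κ, hs, hc⟩
    refine ⟨κ 0, κ 1, ?_, hc 0, hc 1⟩
    have e : ![κ 0, κ 1] = κ := by
      funext i
      fin_cases i <;> rfl
    rw [e]
    exact hs
  · rintro ⟨κ₁, κ₂, hs, h1, h2⟩
    refine ⟨![κ₁, κ₂], hs, ?_⟩
    intro i
    fin_cases i
    · exact h1
    · exact h2

section chain
variable {Z : Type} [TopologicalSpace Z] [ChartedSpace E4 Z] {z : Z} {ι : Type} {h : ι → FundamentalGroup Z z}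
  {X : Type*} [TopologicalSpace X] [ChartedSpace E4 X]

/-- the family -/
def nlm_f {Z : Type} [TopologicalSpace Z] {z : Z} {ι : Type} (h : ι → FundamentalGroup Z z)
    (a b c d : FundamentalGroup Z z) : (Fin 2 ⊕ ι) ⊕ Fin 2 → FundamentalGroup Z z :=
  Sum.elim (Sum.elim ![a, b] h) ![c, d]

/-- exchange of the two pairs -/
def nlm_e (ι : Type) : (Fin 2 ⊕ ι) ⊕ Fin 2 ≃ (Fin 2 ⊕ ι) ⊕ Fin 2 where
  toFun s := match s with
    | Sum.inl (Sum.inl i) => Sum.inr i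
    | Sum.inl (Sum.inr k) => Sum.inl (Sum.inr k)
    | Sum.inr i => Sum.inl (Sum.inl i)
  invFun s := match s with
    | Sum.inl (Sum.inl i) => Sum.inr i
    | Sum.inl (Sum.inr k) => Sum.inl (Sum.inr k)
    | Sum.inr i => Sum.inl (Sum.inl i)
  left_inv s := by rcases s with (i | k) | i <;> rfl
  right_inv s := by rcases s with (i | k) | i <;> rfl

theorem nlm_swap {a b c d : FundamentalGroup Z z} (hF : Fam z (nlm_f h a b c d) X) : Fam z (nlm_f h c d a b) X := by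
  have h1 := hF.reindex (nlm_e ι)
  have e : (fun i => nlm_f h a b c d (nlm_e ι i)) = nlm_f h c d a b := by
    funext s
    rcases s with (i | k) | i <;> rfl
  rw [e] at h1
  exact h1

omit [ChartedSpace E4 Z] in
theorem nlm_upd0 [DecidableEq ((Fin 2 ⊕ ι) ⊕ Fin 2)] (a b c d a' : FundamentalGroup Z z) :
    Function.update (nlm_f h a b c d) (Sum.inl (Sum.inl 0)) a' = nlm_f h a' b c d := by
  funext s
  rcases s with (i | k) | i
  · fin_cases i
    · exact Function.update_self _ _ _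
    · exact Function.update_of_ne (by simp) _ _
  · exact Function.update_of_ne (by simp) _ _
  · exact Function.update_of_ne (by simp) _ _

omit [ChartedSpace E4 Z] in
theorem nlm_upd1 [DecidableEq ((Fin 2 ⊕ ι) ⊕ Fin 2)] (a b c d b' : FundamentalGroup Z z) :
    Function.update (nlm_f h a b c d) (Sum.inl (Sum.inl 1)) b' = nlm_f h a b' c d := by
  funext s
  rcases s with (i | k) | i
  · fin_cases i
    · exact Function.update_of_ne (by simp) _ _
    · exact Function.update_self _ _ _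
  · exact Function.update_of_ne (by simp) _ _
  · exact Function.update_of_ne (by simp) _ _

variable [T2Space Z] [IsManifold (𝓡 4) ∞ Z] [Finite ι]

theorem nlm_A' {a b c d a' : FundamentalGroup Z z} (ha : a⁻¹ * a' ∈ Subgroup.normalClosure {b, c, d})
    (hF : Fam z (nlm_f h a b c d) X) : Fam z (nlm_f h a' b c d) X := by
  classical
  rw [← nlm_upd0 (h := h) a b c d a']
  refine hF.ncl (Sum.inl (Sum.inl 0)) ?_
  show a⁻¹ * a' ∈ _
  refine Subgroup.normalClosure_mono ?_ ha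
  rintro _ (rfl | rfl | rfl)
  · exact ⟨Sum.inl (Sum.inl 1), by simp, rfl⟩
  · exact ⟨Sum.inr 0, by simp, rfl⟩
  · exact ⟨Sum.inr 1, by simp, rfl⟩

theorem nlm_B' {a b c d b' : FundamentalGroup Z z} (hb : b⁻¹ * b' ∈ Subgroup.normalClosure {a, c, d})
    (hF : Fam z (nlm_f h a b c d) X) : Fam z (nlm_f h a b' c d) X := by
  classical
  rw [← nlm_upd1 (h := h) a b c d b']
  refine hF.ncl (Sum.inl (Sum.inl 1)) ?_
  show b⁻¹ * b' ∈ _
  refine Subgroup.normalClosure_mono ?_ hb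
  rintro _ (rfl | rfl | rfl)
  · exact ⟨Sum.inl (Sum.inl 0), by simp, rfl⟩
  · exact ⟨Sum.inr 0, by simp, rfl⟩
  · exact ⟨Sum.inr 1, by simp, rfl⟩

theorem nlm_rev {G : Type} [Group G] {K : Subgroup G} {a a' : G} (h : a⁻¹ * a' ∈ K) : a'⁻¹ * a ∈ K := by
  have := K.inv_mem h
  rwa [mul_inv_rev, inv_inv] at this

theorem nlm_A {a b c d : FundamentalGroup Z z} (a' : FundamentalGroup Z z)
    (ha : a⁻¹ * a' ∈ Subgroup.normalClosure {b, c, d}) :
    Fam z (nlm_f h a b c d) X ↔ Fam z (nlm_f h a' b c d) X :=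
  ⟨nlm_A' ha, nlm_A' (nlm_rev ha)⟩

theorem nlm_B {a b c d : FundamentalGroup Z z} (b' : FundamentalGroup Z z)
    (hb : b⁻¹ * b' ∈ Subgroup.normalClosure {a, c, d}) :
    Fam z (nlm_f h a b c d) X ↔ Fam z (nlm_f h a b' c d) X :=
  ⟨nlm_B' hb, nlm_B' (nlm_rev hb)⟩

theorem nlm_C {a b c d : FundamentalGroup Z z} (c' : FundamentalGroup Z z)
    (hc : c⁻¹ * c' ∈ Subgroup.normalClosure {d, a, b}) :
    Fam z (nlm_f h a b c d) X ↔ Fam z (nlm_f h a b c' d) X :=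
  ⟨fun hF => nlm_swap (nlm_A' hc (nlm_swap hF)), fun hF => nlm_swap (nlm_A' (nlm_rev hc) (nlm_swap hF))⟩

theorem nlm_D {a b c d : FundamentalGroup Z z} (d' : FundamentalGroup Z z)
    (hd : d⁻¹ * d' ∈ Subgroup.normalClosure {c, a, b}) :
    Fam z (nlm_f h a b c d) X ↔ Fam z (nlm_f h a b c d') X :=
  ⟨fun hF => nlm_swap (nlm_B' hd (nlm_swap hF)), fun hF => nlm_swap (nlm_B' (nlm_rev hd) (nlm_swap hF))⟩

omit [T2Space Z] [IsManifold (𝓡 4) ∞ Z] [Finite ι] in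
theorem nlm_inv' {a b c d : FundamentalGroup Z z} (hF : Fam z (nlm_f h a b c d) X) :
    Fam z (nlm_f h a⁻¹ b⁻¹ c d) X := by
  classical
  have h1 : Fam z (nlm_f h a⁻¹ b c d) X := by
    have h2 := hF.inv (Sum.inl (Sum.inl 0))
    rw [nlm_upd0] at h2
    exact h2
  have h2 := h1.inv (Sum.inl (Sum.inl 1))
  rw [nlm_upd1] at h2
  exact h2

omit [T2Space Z] [IsManifold (𝓡 4) ∞ Z] [Finite ι] in
theorem nlm_inv {a b c d : FundamentalGroup Z z} :
    Fam z (nlm_f h a⁻¹ b⁻¹ c d) X ↔ Fam z (nlm_f h a b c d) X := by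
  refine ⟨fun hF => ?_, nlm_inv'⟩
  have h1 := nlm_inv' hF
  rwa [inv_inv, inv_inv] at h1

end chain

theorem nlm_g1 {G : Type} [Group G] {K : Subgroup G} [hK : K.Normal] {x : G} (hx : x ∈ K) (u : G) :
    u⁻¹ * (x⁻¹ * u) ∈ K := by
  have h1 := hK.conj_mem _ (inv_mem hx) u⁻¹
  rwa [inv_inv, mul_assoc] at h1

theorem nlm_g2 {G : Type} [Group G] {K : Subgroup G} {u : G} (hu : u ∈ K) (x : G) : (x⁻¹ * u)⁻¹ * x⁻¹ ∈ K := by
  have h1 := inv_mem hu
  rwa [mul_inv_rev, inv_inv, mul_assoc, mul_inv_cancel, mul_one]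

theorem nlm_mem {G : Type} [Group G] {S : Set G} {r₁ r₂ : FreeGroup (Fin 2)}
    (hr : Subgroup.normalClosure {r₁, r₂} = ⊤) {a b : G} (h1 : ev a b r₁ ∈ Subgroup.normalClosure S)
    (h2 : ev a b r₂ ∈ Subgroup.normalClosure S) : a ∈ Subgroup.normalClosure S ∧ b ∈ Subgroup.normalClosure S := by
  have hle : Subgroup.normalClosure {ev a b r₁, ev a b r₂} ≤ Subgroup.normalClosure S := by
    apply Subgroup.normalClosure_le_normal
    rintro _ (rfl | rfl)
    · exact h1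
    · exact h2
  constructor
  · have h3 := ncl_ev hr a b (FreeGroup.of 0)
    rw [nlm_ev0] at h3
    exact hle h3
  · have h3 := ncl_ev hr a b (FreeGroup.of 1)
    rw [nlm_ev1] at h3
    exact hle h3

theorem word_chain {Z : Type} [TopologicalSpace Z] [ChartedSpace E4 Z] [T2Space Z] [IsManifold (𝓡 4) ∞ Z] {z : Z}
    {r₁ r₂ : FreeGroup (Fin 2)} (hr : Subgroup.normalClosure {r₁, r₂} = ⊤) {ι : Type} [Finite ι]
    (h : ι → FundamentalGroup Z z) (u v x y : FundamentalGroup Z z) {X : Type*} [TopologicalSpace X]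
    [ChartedSpace E4 X] :
    Fam z (Sum.elim (Sum.elim ![u, v] h) ![ev x y r₁, ev x y r₂]) X ↔
      Fam z (Sum.elim (Sum.elim ![ev u v r₁, ev u v r₂] h) ![x, y]) X := by
  show Fam z (nlm_f h u v (ev x y r₁) (ev x y r₂)) X ↔ Fam z (nlm_f h (ev u v r₁) (ev u v r₂) x y) X
  have hsub : ∀ {G : Type} [Group G] {S : Set G} {g : G}, g ∈ S → g ∈ Subgroup.normalClosure S :=
    fun hg => Subgroup.subset_normalClosure hg
  -- first pair
  have e1 : Fam z (nlm_f h u v (ev x y r₁) (ev x y r₂)) X ↔ Fam z (nlm_f h (x⁻¹ * u) v (ev x y r₁) (ev x y r₂)) X := by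
    refine nlm_A _ ?_
    have hx := (nlm_mem (S := {v, ev x y r₁, ev x y r₂}) hr (a := x) (b := y) (hsub (by simp)) (hsub (by simp))).1
    exact nlm_g1 hx u
  have e2 : Fam z (nlm_f h (x⁻¹ * u) v (ev x y r₁) (ev x y r₂)) X ↔
      Fam z (nlm_f h (x⁻¹ * u) (y⁻¹ * v) (ev x y r₁) (ev x y r₂)) X := by
    refine nlm_B _ ?_
    have hy := (nlm_mem (S := {x⁻¹ * u, ev x y r₁, ev x y r₂}) hr (a := x) (b := y) (hsub (by simp)) (hsub (by simp))).2
    exact nlm_g1 hy v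
  have e3 : Fam z (nlm_f h (x⁻¹ * u) (y⁻¹ * v) (ev x y r₁) (ev x y r₂)) X ↔
      Fam z (nlm_f h (x⁻¹ * u) (y⁻¹ * v) (ev u v r₁) (ev x y r₂)) X := by
    refine nlm_C _ ?_
    exact ncl_cong (hsub (by simp)) (hsub (by simp)) r₁
  have e4 : Fam z (nlm_f h (x⁻¹ * u) (y⁻¹ * v) (ev u v r₁) (ev x y r₂)) X ↔
      Fam z (nlm_f h (x⁻¹ * u) (y⁻¹ * v) (ev u v r₁) (ev u v r₂)) X := by
    refine nlm_D _ ?_
    exact ncl_cong (hsub (by simp)) (hsub (by simp)) r₂
  have e5 : Fam z (nlm_f h (x⁻¹ * u) (y⁻¹ * v) (ev u v r₁) (ev u v r₂)) X ↔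
      Fam z (nlm_f h x⁻¹ (y⁻¹ * v) (ev u v r₁) (ev u v r₂)) X := by
    refine nlm_A _ ?_
    have hu := (nlm_mem (S := {y⁻¹ * v, ev u v r₁, ev u v r₂}) hr (a := u) (b := v) (hsub (by simp)) (hsub (by simp))).1
    exact nlm_g2 hu x
  have e6 : Fam z (nlm_f h x⁻¹ (y⁻¹ * v) (ev u v r₁) (ev u v r₂)) X ↔
      Fam z (nlm_f h x⁻¹ y⁻¹ (ev u v r₁) (ev u v r₂)) X := by
    refine nlm_B _ ?_
    have hv := (nlm_mem (S := {x⁻¹, ev u v r₁, ev u v r₂}) hr (a := u) (b := v) (hsub (by simp)) (hsub (by simp))).2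
    exact nlm_g2 hv y
  have e7 : Fam z (nlm_f h x⁻¹ y⁻¹ (ev u v r₁) (ev u v r₂)) X ↔ Fam z (nlm_f h x y (ev u v r₁) (ev u v r₂)) X :=
    nlm_inv
  have e8 : Fam z (nlm_f h x y (ev u v r₁) (ev u v r₂)) X ↔ Fam z (nlm_f h (ev u v r₁) (ev u v r₂) x y) X :=
    ⟨nlm_swap, nlm_swap⟩
  exact e1.trans (e2.trans (e3.trans (e4.trans (e5.trans (e6.trans (e7.trans e8))))))

/-- the path between the base points -/
theorem nlm_path {N M Z : Type} [TopologicalSpace N] [ChartedSpace E4 N] [TopologicalSpace M] [ChartedSpace E4 M]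
    [TopologicalSpace Z] [ChartedSpace E4 Z] {b : E4 → N} {b' : N → E4} (hb : IsBall b b') {c : E4 → M}
    (C : CSum b c Z) {x₀ y₀ : E4} (hx : x₀ ≠ 0) (hy : y₀ ≠ 0) : Nonempty (Path (C.jN (b x₀)) (C.jM (c y₀))) := by
  have hrank : 1 < Module.rank ℝ E4 := by
    rw [← Module.finrank_eq_rank, finrank_euclideanSpace_fin]
    norm_num
  have hpc := isPathConnected_compl_singleton_of_one_lt_rank hrank (0 : E4)
  obtain ⟨γ, hγ⟩ := hpc.joinedIn x₀ hx (inv4 y₀) (inv4_ne hy)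
  have hcont : Continuous fun t : I => C.jN (b (γ t)) := by
    rw [continuous_iff_continuousAt]
    intro t
    have hne : b (γ t) ≠ b 0 := by
      intro he
      have h1 := congrArg b' he
      rw [hb.left_inv, hb.left_inv] at h1
      exact hγ t h1
    have h1 : ContinuousAt C.jN (b (γ t)) := (C.jN_loc _ hne).contMDiffAt.continuousAt
    exact ContinuousAt.comp (g := C.jN) (f := fun t : I => b (γ t)) h1
      (hb.smooth.continuous.comp γ.continuous).continuousAt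
  refine ⟨⟨⟨fun t : I => C.jN (b (γ t)), hcont⟩, ?_, ?_⟩⟩
  · show C.jN (b (γ 0)) = C.jN (b x₀)
    rw [γ.source]
  · show C.jN (b (γ 1)) = C.jM (c y₀)
    rw [γ.target, C.glue _ (inv4_ne hy), inv4_inv4 hy]

theorem nlm_out {N : Type} [TopologicalSpace N] [ChartedSpace E4 N] [T2Space N] {b : E4 → N} (hb : Continuous b) {x₀ : E4}
    {p : N} (hbx : b x₀ = p) (hp : p ∈ Out hb) : x₀ ≠ 0 := by
  rintro rfl
  exact hp ⟨0, by simp, hbx⟩

theorem nlm_congr {N : Type} [TopologicalSpace N] [ChartedSpace E4 N] {p : N} {ι : Type}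
    {g g' : ι → FundamentalGroup N p} (h : g = g') {X : Type*} [TopologicalSpace X] [ChartedSpace E4 X]
    (hF : Fam p g X) : Fam p g' X := by
  rw [← h]
  exact hF

/-- connected sum with `M`, both directions -/
theorem nlm_key {M : Type} [TopologicalSpace M] [ChartedSpace E4 M] [T2Space M] [IsManifold (𝓡 4) ∞ M]
    {q : M} (x y : FundamentalGroup M q) {N : Type} [TopologicalSpace N] [ChartedSpace E4 N] [T2Space N]
    [IsManifold (𝓡 4) ∞ N] {p : N} {ι : Type} [Finite ι] (u v : FundamentalGroup N p) (h : ι → FundamentalGroup N p) :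
    ∃ (Z : Type) (_ : TopologicalSpace Z) (_ : ChartedSpace E4 Z) (_ : T2Space Z) (_ : IsManifold (𝓡 4) ∞ Z) (z : Z)
      (u' v' x' y' : FundamentalGroup Z z) (h' : ι → FundamentalGroup Z z),
      ∀ (s₁ s₂ t₁ t₂ : FreeGroup (Fin 2)) (X : Type) [TopologicalSpace X] [ChartedSpace E4 X],
        (Fam p (Sum.elim ![ev u v s₁, ev u v s₂] h) X → Fam q ![ev x y t₁, ev x y t₂] S4 →
          Fam z (Sum.elim (Sum.elim ![ev u' v' s₁, ev u' v' s₂] h') ![ev x' y' t₁, ev x' y' t₂]) X) ∧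
        (Fam z (Sum.elim (Sum.elim ![ev u' v' s₁, ev u' v' s₂] h') ![ev x' y' t₁, ev x' y' t₂]) X →
          (∀ (X' : Type) [TopologicalSpace X'] [ChartedSpace E4 X'], Fam q ![ev x y t₁, ev x y t₂] X' →
            Nonempty (X' ≃ₘ⟮𝓡 4, 𝓡 4⟯ S4)) →
          Fam p (Sum.elim ![ev u v s₁, ev u v s₂] h) X) := by
  obtain ⟨b, b', hb, x₀, hp, hbx, g₁, hg₁⟩ := lift_ball (Sum.elim ![u, v] h)
  obtain ⟨c, c', hc, y₀, hq, hcy, k₁, hk₁⟩ := lift_ball ![x, y]
  obtain ⟨Z, iT, iC, hmf, hT2, ⟨C⟩⟩ := csum_exists hb hc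
  have hδ := nlm_path hb C (nlm_out hb.smooth.continuous hbx hp) (nlm_out hc.smooth.continuous hcy hq)
  rw [hbx, hcy] at hδ
  obtain ⟨δ⟩ := hδ
  have hu : FundamentalGroup.map (inc (Out hb.smooth.continuous)) ⟨p, hp⟩ (g₁ (Sum.inl 0)) = u := hg₁ (Sum.inl 0)
  have hv : FundamentalGroup.map (inc (Out hb.smooth.continuous)) ⟨p, hp⟩ (g₁ (Sum.inl 1)) = v := hg₁ (Sum.inl 1)
  have hh : ∀ i, FundamentalGroup.map (inc (Out hb.smooth.continuous)) ⟨p, hp⟩ (g₁ (Sum.inr i)) = h i :=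
    fun i => hg₁ (Sum.inr i)
  have hx : FundamentalGroup.map (inc (Out hc.smooth.continuous)) ⟨q, hq⟩ (k₁ 0) = x := hk₁ 0
  have hy : FundamentalGroup.map (inc (Out hc.smooth.continuous)) ⟨q, hq⟩ (k₁ 1) = y := hk₁ 1
  refine ⟨Z, iT, iC, hT2, hmf, C.jN p,
    FundamentalGroup.map (jNc hb.smooth.continuous C) ⟨p, hp⟩ (g₁ (Sum.inl 0)),
    FundamentalGroup.map (jNc hb.smooth.continuous C) ⟨p, hp⟩ (g₁ (Sum.inl 1)),
    pth δ (FundamentalGroup.map (jMc hc.smooth.continuous C) ⟨q, hq⟩ (k₁ 0)),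
    pth δ (FundamentalGroup.map (jMc hc.smooth.continuous C) ⟨q, hq⟩ (k₁ 1)),
    fun i => FundamentalGroup.map (jNc hb.smooth.continuous C) ⟨p, hp⟩ (g₁ (Sum.inr i)), ?_⟩
  intro s₁ s₂ t₁ t₂ X _ _
  -- the lifted families
  have f1 : (fun i => FundamentalGroup.map (inc (Out hb.smooth.continuous)) ⟨p, hp⟩
      ((Sum.elim ![ev (g₁ (Sum.inl 0)) (g₁ (Sum.inl 1)) s₁, ev (g₁ (Sum.inl 0)) (g₁ (Sum.inl 1)) s₂]
        (fun i => g₁ (Sum.inr i)) : Fin 2 ⊕ ι → _) i)) = Sum.elim ![ev u v s₁, ev u v s₂] h := by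
    funext i
    rcases i with i | i
    · fin_cases i
      · show FundamentalGroup.map (inc (Out hb.smooth.continuous)) ⟨p, hp⟩ (ev (g₁ (Sum.inl 0)) (g₁ (Sum.inl 1)) s₁) =
          ev u v s₁
        rw [ev_map, hu, hv]
        rfl
      · show FundamentalGroup.map (inc (Out hb.smooth.continuous)) ⟨p, hp⟩ (ev (g₁ (Sum.inl 0)) (g₁ (Sum.inl 1)) s₂) =
          ev u v s₂
        rw [ev_map, hu, hv]
        rfl
    · exact hh i
  have f2 : (fun j => FundamentalGroup.map (inc (Out hc.smooth.continuous)) ⟨q, hq⟩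
      ((![ev (k₁ 0) (k₁ 1) t₁, ev (k₁ 0) (k₁ 1) t₂] : Fin 2 → _) j)) = ![ev x y t₁, ev x y t₂] := by
    funext j
    fin_cases j
    · show FundamentalGroup.map (inc (Out hc.smooth.continuous)) ⟨q, hq⟩ (ev (k₁ 0) (k₁ 1) t₁) = ev x y t₁
      rw [ev_map, hx, hy]
      rfl
    · show FundamentalGroup.map (inc (Out hc.smooth.continuous)) ⟨q, hq⟩ (ev (k₁ 0) (k₁ 1) t₂) = ev x y t₂
      rw [ev_map, hx, hy]
      rfl
  have f3 : (Sum.elim (fun i => FundamentalGroup.map (jNc hb.smooth.continuous C) ⟨p, hp⟩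
      ((Sum.elim ![ev (g₁ (Sum.inl 0)) (g₁ (Sum.inl 1)) s₁, ev (g₁ (Sum.inl 0)) (g₁ (Sum.inl 1)) s₂]
        (fun i => g₁ (Sum.inr i)) : Fin 2 ⊕ ι → _) i))
      (fun j => pth δ (FundamentalGroup.map (jMc hc.smooth.continuous C) ⟨q, hq⟩
        ((![ev (k₁ 0) (k₁ 1) t₁, ev (k₁ 0) (k₁ 1) t₂] : Fin 2 → _) j))) : (Fin 2 ⊕ ι) ⊕ Fin 2 → FundamentalGroup Z (C.jN p)) =
      Sum.elim (Sum.elim ![ev (FundamentalGroup.map (jNc hb.smooth.continuous C) ⟨p, hp⟩ (g₁ (Sum.inl 0)))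
          (FundamentalGroup.map (jNc hb.smooth.continuous C) ⟨p, hp⟩ (g₁ (Sum.inl 1))) s₁,
        ev (FundamentalGroup.map (jNc hb.smooth.continuous C) ⟨p, hp⟩ (g₁ (Sum.inl 0)))
          (FundamentalGroup.map (jNc hb.smooth.continuous C) ⟨p, hp⟩ (g₁ (Sum.inl 1))) s₂]
        (fun i => FundamentalGroup.map (jNc hb.smooth.continuous C) ⟨p, hp⟩ (g₁ (Sum.inr i))))
      ![ev (pth δ (FundamentalGroup.map (jMc hc.smooth.continuous C) ⟨q, hq⟩ (k₁ 0)))
          (pth δ (FundamentalGroup.map (jMc hc.smooth.continuous C) ⟨q, hq⟩ (k₁ 1))) t₁,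
        ev (pth δ (FundamentalGroup.map (jMc hc.smooth.continuous C) ⟨q, hq⟩ (k₁ 0)))
          (pth δ (FundamentalGroup.map (jMc hc.smooth.continuous C) ⟨q, hq⟩ (k₁ 1))) t₂] := by
    funext s
    rcases s with (i | i) | j
    · fin_cases i
      · exact ev_map (FundamentalGroup.map (jNc hb.smooth.continuous C) ⟨p, hp⟩) _ _ s₁
      · exact ev_map (FundamentalGroup.map (jNc hb.smooth.continuous C) ⟨p, hp⟩) _ _ s₂
    · rfl
    · fin_cases j
      · exact ev_map ((pth δ).comp (FundamentalGroup.map (jMc hc.smooth.continuous C) ⟨q, hq⟩)) _ _ t₁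
      · exact ev_map ((pth δ).comp (FundamentalGroup.map (jMc hc.smooth.continuous C) ⟨q, hq⟩)) _ _ t₂
  constructor
  · intro hX hS
    have h1 := cs_fwd hb hc C hp hq δ _ _ (nlm_congr f1.symm hX) (nlm_congr f2.symm hS)
    exact nlm_congr f3 h1
  · intro hZ hall
    have h1 := cs_bwd hb hc C hp hq δ _ _ (nlm_congr f3.symm hZ) (fun X' _ _ hX' => hall X' (nlm_congr f2 hX'))
    exact nlm_congr f1 h1

/-- **the move**: a pair of words `r₁, r₂` which gives `S⁴` on the double gives a move on the circles of every 4-manifold -/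
theorem n_move {M : Type} [TopologicalSpace M] [ChartedSpace E4 M] [T2Space M] [IsManifold (𝓡 4) ∞ M]
    {k₁ k₂ : ℝ × E3 → M} {ε : ℝ} (D : Dbl (-1 / 2) (1 / 2) k₁ k₂ ε) {q : M} {x y : FundamentalGroup M q}
    (hx : Cls q (core k₁) x) (hy : Cls q (core k₂) y) {r₁ r₂ : FreeGroup (Fin 2)}
    (hr : Subgroup.normalClosure {r₁, r₂} = ⊤) (hS : Two q (ev x y r₁) (ev x y r₂) S4)
    {N : Type} [TopologicalSpace N] [ChartedSpace E4 N] [T2Space N] [IsManifold (𝓡 4) ∞ N] {p : N} {ι : Type}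
    [Finite ι] (u v : FundamentalGroup N p) (h : ι → FundamentalGroup N p) {X : Type} [TopologicalSpace X]
    [ChartedSpace E4 X] (hX : Fam p (Sum.elim ![u, v] h) X) :
    Fam p (Sum.elim ![ev u v r₁, ev u v r₂] h) X := by
  obtain ⟨Z, _, _, _, _, z, u', v', x', y', h', hkey⟩ := nlm_key x y u v h
  have h1 := (hkey (FreeGroup.of 0) (FreeGroup.of 1) r₁ r₂ X).1 (by
    rw [nlm_ev0, nlm_ev1]
    exact hX) (fam_two.mpr hS)
  rw [nlm_ev0, nlm_ev1] at h1
  have h2 := (word_chain hr h' u' v' x' y').mp h1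
  refine (hkey r₁ r₂ (FreeGroup.of 0) (FreeGroup.of 1) X).2 ?_ ?_
  · rw [nlm_ev0, nlm_ev1]
    exact h2
  · intro X' _ _ hX'
    rw [nlm_ev0, nlm_ev1] at hX'
    exact double_ac D hx hy (ACP.ACEquiv.refl (x, y)) (fam_two.mp hX')

/-- the converse, if all the surgeries on the double in the classes `r₁, r₂` give `S⁴` -/
theorem n_move_rev {M : Type} [TopologicalSpace M] [ChartedSpace E4 M] [T2Space M] [IsManifold (𝓡 4) ∞ M]
    {k₁ k₂ : ℝ × E3 → M} {ε : ℝ} (D : Dbl (-1 / 2) (1 / 2) k₁ k₂ ε) {q : M} {x y : FundamentalGroup M q}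
    (hx : Cls q (core k₁) x) (hy : Cls q (core k₂) y) {r₁ r₂ : FreeGroup (Fin 2)}
    (hr : Subgroup.normalClosure {r₁, r₂} = ⊤)
    (hall : ∀ (X' : Type) [TopologicalSpace X'] [ChartedSpace E4 X'], Two q (ev x y r₁) (ev x y r₂) X' →
      Nonempty (X' ≃ₘ⟮𝓡 4, 𝓡 4⟯ S4))
    {N : Type} [TopologicalSpace N] [ChartedSpace E4 N] [T2Space N] [IsManifold (𝓡 4) ∞ N] {p : N} {ι : Type}
    [Finite ι] (u v : FundamentalGroup N p) (h : ι → FundamentalGroup N p) {X : Type} [TopologicalSpace X]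
    [ChartedSpace E4 X] (hX : Fam p (Sum.elim ![ev u v r₁, ev u v r₂] h) X) :
    Fam p (Sum.elim ![u, v] h) X := by
  obtain ⟨Z, _, _, _, _, z, u', v', x', y', h', hkey⟩ := nlm_key x y u v h
  have hD : Two q x y S4 := ⟨k₁, k₂, ⟨ε, D.tub, ⟨D.S⟩⟩, hx, hy⟩
  have h1 := (hkey r₁ r₂ (FreeGroup.of 0) (FreeGroup.of 1) X).1 hX (by
    rw [nlm_ev0, nlm_ev1]
    exact fam_two.mpr hD)
  rw [nlm_ev0, nlm_ev1] at h1
  have h2 := (word_chain hr h' u' v' x' y').mpr h1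
  have h3 := (hkey (FreeGroup.of 0) (FreeGroup.of 1) r₁ r₂ X).2 (by
    rw [nlm_ev0, nlm_ev1]
    exact h2) (fun X' _ _ hX' => hall X' (fam_two.mp hX'))
  rw [nlm_ev0, nlm_ev1] at h3
  exact h3

end Pool.Agent.MMV
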