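import Pool.Agent.MMV.VMl
import Pool.Agent.MMV.NGm
import Pool.Agent.MMV.NLm

/-!
# MMV/NFin: Andrews-Curtis moves and torus moves on the circles of 4-manifolds   (block VI, assembly, helper44)

`TEq g g'`: the families `g, g' : ι → G` are related by a finite sequence of Andrews-Curtis moves and torus moves `(u, v) ↦ (u^b v^(-d), u^a w v^c w⁻¹)`, `a d + b c = ±1`, `w` any element of the subgroup generated by `u`, `v`, and their
inverses.
-/

open scoped ContDiff Manifold Topology unitInterval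
open Set Filter
open Pool.Agent.ACB

namespace Pool.Agent.MMV

/-- Andrews-Curtis moves and torus moves on families of elements of a group -/
inductive TEq {G : Type} [Group G] {ι : Type} [DecidableEq ι] : (ι → G) → (ι → G) → Prop
  | refl (g : ι → G) : TEq g g
  | symm {g g' : ι → G} (h : TEq g g') : TEq g' g
  | trans {g g' g'' : ι → G} (h : TEq g g') (h' : TEq g' g'') : TEq g g''
  | inv (g : ι → G) (i : ι) : TEq g (Function.update g i (g i)⁻¹)
  | mul (g : ι → G) {i j : ι} (hij : i ≠ j) : TEq g (Function.update g i (g i * g j))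
  | conj (g : ι → G) (i : ι) (w : G) : TEq g (Function.update g i (w * g i * w⁻¹))
  | torus (g : ι → G) {i j : ι} (hij : i ≠ j) (a b c d : ℤ) (h : a * d + b * c = 1 ∨ a * d + b * c = -1) (w : G)
      (hw : w ∈ Subgroup.closure {g i, g j}) :
      TEq g (Function.update (Function.update g i (g i ^ b * g j ^ (-d))) j (g i ^ a * w * g j ^ c * w⁻¹))

/-- the torus pair in the free group -/
def tp₁ (b d : ℤ) : FreeGroup (Fin 2) := FreeGroup.of 0 ^ b * FreeGroup.of 1 ^ (-d)

/-- the torus pair in the free group -/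
def tp₂ (a c : ℤ) (w : FreeGroup (Fin 2)) : FreeGroup (Fin 2) := FreeGroup.of 0 ^ a * w * FreeGroup.of 1 ^ c * w⁻¹

theorem ev_tp₁ {G : Type} [Group G] (u v : G) (b d : ℤ) : ev u v (tp₁ b d) = u ^ b * v ^ (-d) := by
  simp [ev, tp₁]

theorem ev_tp₂ {G : Type} [Group G] (u v : G) (a c : ℤ) (w : FreeGroup (Fin 2)) :
    ev u v (tp₂ a c w) = u ^ a * ev u v w * v ^ c * (ev u v w)⁻¹ := by
  simp [ev, tp₂]

/-- the algebra of the torus pair -/
theorem tp_one {G : Type} [Group G] {X Y W : G} {a b c d : ℤ} (h : a * d + b * c = 1 ∨ a * d + b * c = -1)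
    (h₁ : X ^ b * Y ^ (-d) = 1) (h₂ : X ^ a * W * Y ^ c * W⁻¹ = 1) (hc : Commute W (X ^ b)) : X = 1 ∧ Y = 1 := by
  have e1 : X ^ b = Y ^ d := by
    rw [zpow_neg] at h₁
    exact mul_inv_eq_one.mp h₁
  have e2 : X ^ a = W * Y ^ (-c) * W⁻¹ := by
    have h3 : X ^ a * (W * Y ^ c * W⁻¹) = 1 := by
      simpa [mul_assoc] using h₂
    rw [eq_inv_of_mul_eq_one_left h3]
    simp [mul_assoc]
  have e3 : X ^ (a * d) = X ^ (-(b * c)) := by
    rw [zpow_mul, e2, conj_zpow, ← zpow_mul, show -c * d = d * (-c) by ring, zpow_mul, ← e1, ← zpow_mul,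
      show b * -c = -(b * c) by ring]
    have h4 : Commute W (X ^ (-(b * c))) := by
      rw [show -(b * c) = b * (-c) by ring, zpow_mul]
      exact hc.zpow_right _
    rw [h4.eq, mul_assoc, mul_inv_cancel, mul_one]
  have hX : X = 1 := by
    have h5 : X ^ (a * d + b * c) = 1 := by
      rw [zpow_add, e3, ← zpow_add]
      simp
    rcases h with h | h
    · rw [h, zpow_one] at h5
      exact h5
    · rw [h, zpow_neg, zpow_one] at h5
      exact inv_eq_one.mp h5
  refine ⟨hX, ?_⟩
  have f1 : Y ^ d = 1 := by rw [← e1, hX, one_zpow]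
  have f2 : Y ^ c = 1 := by
    have h6 : W * Y ^ (-c) * W⁻¹ = 1 := by rw [← e2, hX, one_zpow]
    have h7 : Y ^ (-c) = 1 := by
      have := congrArg (fun z => W⁻¹ * z * W) h6
      simpa [mul_assoc] using this
    rw [zpow_neg] at h7
    exact inv_eq_one.mp h7
  have h8 : Y ^ (a * d + b * c) = 1 := by
    rw [zpow_add, mul_comm a d, zpow_mul, f1, one_zpow, one_mul, mul_comm b c, zpow_mul, f2, one_zpow]
  rcases h with h | h
  · rw [h, zpow_one] at h8
    exact h8
  · rw [h, zpow_neg, zpow_one] at h8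
    exact inv_eq_one.mp h8

theorem tp_hom {G : Type} [Group G] (f : FreeGroup (Fin 2) →* G) {a b c d : ℤ}
    (h : a * d + b * c = 1 ∨ a * d + b * c = -1) (w : FreeGroup (Fin 2)) (m1 : f (tp₁ b d) = 1)
    (m2 : f (tp₂ a c w) = 1) : ∀ v, f v = 1 := by
  have g1 : f (FreeGroup.of 0) ^ b * f (FreeGroup.of 1) ^ (-d) = 1 := by
    rw [← m1]
    simp [tp₁]
  have g2 : f (FreeGroup.of 0) ^ a * f w * f (FreeGroup.of 1) ^ c * (f w)⁻¹ = 1 := by
    rw [← m2]
    simp [tp₂]
  have g3 : f (FreeGroup.of 0) ^ b = f (FreeGroup.of 1) ^ d := by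
    rw [zpow_neg] at g1
    exact mul_inv_eq_one.mp g1
  have hc : ∀ w : FreeGroup (Fin 2), Commute (f w) (f (FreeGroup.of 0) ^ b) := by
    intro w
    refine FreeGroup.induction_on w ?_ ?_ ?_ ?_
    · rw [map_one]
      exact Commute.one_left _
    · intro i
      fin_cases i
      · exact (Commute.refl _).zpow_right _
      · change Commute (f (FreeGroup.of 1)) _
        rw [g3]
        exact (Commute.refl _).zpow_right _
    · intro i ih
      change Commute (f (FreeGroup.of i)⁻¹) _
      rw [map_inv]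
      exact ih.inv_left
    · intro u v hu hv
      rw [map_mul]
      exact hu.mul_left hv
  obtain ⟨hX, hY⟩ := tp_one h g1 g2 (hc w)
  have hf : f = 1 := by
    apply FreeGroup.ext_hom
    intro i
    fin_cases i
    · exact hX
    · exact hY
  intro v
  rw [hf]
  rfl

theorem tp_ncl {a b c d : ℤ} (h : a * d + b * c = 1 ∨ a * d + b * c = -1) (w : FreeGroup (Fin 2)) :
    Subgroup.normalClosure {tp₁ b d, tp₂ a c w} = ⊤ := by
  rw [eq_top_iff]
  intro v _
  have m1 : QuotientGroup.mk' (Subgroup.normalClosure {tp₁ b d, tp₂ a c w}) (tp₁ b d) = 1 :=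
    (QuotientGroup.eq_one_iff _).mpr (Subgroup.subset_normalClosure (Set.mem_insert _ _))
  have m2 : QuotientGroup.mk' (Subgroup.normalClosure {tp₁ b d, tp₂ a c w}) (tp₂ a c w) = 1 :=
    (QuotientGroup.eq_one_iff _).mpr (Subgroup.subset_normalClosure (Set.mem_insert_of_mem _ (Set.mem_singleton _)))
  exact (QuotientGroup.eq_one_iff _).mp (tp_hom _ h w m1 m2 v)

section
variable {N : Type} [TopologicalSpace N] [ChartedSpace E4 N] [T2Space N] [IsManifold (𝓡 4) ∞ N] {p : N} {ι : Type}

/-- **surgery principle**: a pair of words with one surgery on the double equal to `S⁴` gives a move on every 4-manifold -/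
theorem word_move {M : Type} [TopologicalSpace M] [ChartedSpace E4 M] [T2Space M] [IsManifold (𝓡 4) ∞ M]
    {k₁ k₂ : ℝ × E3 → M} {ε : ℝ} (D : Dbl (-1 / 2) (1 / 2) k₁ k₂ ε) {q : M} {lam₁ lam₂ : ℝ → M}
    (hG : Gens D q lam₁ lam₂) {x y : FundamentalGroup M q} (hx : BCls q lam₁ x) (hy : BCls q lam₂ y)
    {r₁ r₂ : FreeGroup (Fin 2)} (hr : Subgroup.normalClosure {r₁, r₂} = ⊤) (hS : Two q (ev x y r₁) (ev x y r₂) S4)
    [Finite ι] (u v : FundamentalGroup N p) (h : ι → FundamentalGroup N p) {X : Type} [TopologicalSpace X]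
    [ChartedSpace E4 X] :
    Fam p (Sum.elim ![u, v] h) X ↔ Fam p (Sum.elim ![ev u v r₁, ev u v r₂] h) X := by
  obtain ⟨c1, c2⟩ := gens_cls D hG hx hy
  constructor
  · exact n_move D c1 c2 hr hS u v h
  · refine n_move_rev D c1 c2 hr ?_ u v h
    intro X' _ _ hX'
    exact all_surgeries D hG hx hy hr hX' hS

/-- the torus move in every 4-manifold -/
theorem torus_move [Finite ι] (u v : FundamentalGroup N p) (h : ι → FundamentalGroup N p) {X : Type}
    [TopologicalSpace X] [ChartedSpace E4 X] {a b c d : ℤ} (hd : a * d + b * c = 1 ∨ a * d + b * c = -1)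
    (w : FreeGroup (Fin 2)) :
    Fam p (Sum.elim ![u, v] h) X ↔
      Fam p (Sum.elim ![u ^ b * v ^ (-d), u ^ a * ev u v w * v ^ c * (ev u v w)⁻¹] h) X := by
  obtain ⟨M, _, _, _, _, k₁, k₂, ⟨D⟩⟩ := exists_dbl
  obtain ⟨q, lam₁, lam₂, hG, x, y, hx, hy⟩ := gens_exist D
  have h1 := word_move (N := N) (p := p) D hG hx hy (tp_ncl hd w) (by
    rw [ev_tp₁, ev_tp₂]
    exact mlevel D hG hx hy hd w) u v h (X := X)
  rw [ev_tp₁, ev_tp₂] at h1
  exact h1

theorem fam_reindex {g : ι → FundamentalGroup N p} {X : Type} [TopologicalSpace X] [ChartedSpace E4 X] {ι' : Type}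
    (e : ι' ≃ ι) : Fam p g X ↔ Fam p (fun s => g (e s)) X := by
  constructor
  · intro h
    exact h.reindex e
  · intro h
    have h1 := h.reindex e.symm
    simp only [Equiv.apply_symm_apply] at h1
    exact h1

/-- the index set with two elements singled out -/
def two_sum [DecidableEq ι] {i j : ι} (hij : i ≠ j) : Fin 2 ⊕ {k : ι // k ≠ i ∧ k ≠ j} ≃ ι where
  toFun := Sum.elim ![i, j] Subtype.val
  invFun k := if h : k = i then Sum.inl 0 else if h' : k = j then Sum.inl 1 else Sum.inr ⟨k, h, h'⟩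
  left_inv s := by
    rcases s with s | ⟨k, h, h'⟩
    · fin_cases s
      · simp
      · simp [hij.symm]
    · simp [h, h']
  right_inv k := by
    by_cases h : k = i
    · simp [h]
    · by_cases h' : k = j
      · simp [h', hij.symm]
      · simp [h, h']

theorem two_sum_upd [DecidableEq ι] {G : Type} {i j : ι} (hij : i ≠ j) (g : ι → G) (A B : G) :
    (fun s => Function.update (Function.update g i A) j B (two_sum hij s)) =
      Sum.elim ![A, B] fun k : {k : ι // k ≠ i ∧ k ≠ j} => g k.1 := by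
  funext s
  rcases s with s | ⟨k, h, h'⟩
  · fin_cases s
    · simp [two_sum, Function.update_of_ne hij]
    · simp [two_sum]
  · simp [two_sum, Function.update_of_ne h, Function.update_of_ne h']

theorem two_sum_self [DecidableEq ι] {G : Type} {i j : ι} (hij : i ≠ j) (g : ι → G) :
    (fun s => g (two_sum hij s)) = Sum.elim ![g i, g j] fun k : {k : ι // k ≠ i ∧ k ≠ j} => g k.1 := by
  have h := two_sum_upd hij g (g i) (g j)
  rw [Function.update_eq_self, Function.update_eq_self] at h
  exact h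

/-- **Andrews-Curtis moves and torus moves on the circles do not change the set of manifolds** -/
theorem fam_teq [Finite ι] [DecidableEq ι] {g g' : ι → FundamentalGroup N p} (h : TEq g g') {X : Type}
    [TopologicalSpace X] [ChartedSpace E4 X] : Fam p g X ↔ Fam p g' X := by
  induction h with
  | refl g => exact Iff.rfl
  | symm _ ih => exact ih.symm
  | trans _ _ ih ih' => exact ih.trans ih'
  | inv g i =>
    refine ⟨fun h => h.inv i, fun h => ?_⟩
    have h1 := h.inv i
    rw [Function.update_idem, Function.update_self, inv_inv, Function.update_eq_self] at h1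
    exact h1
  | @mul g i j hij =>
    constructor
    · intro h
      refine h.ncl i ?_
      rw [inv_mul_cancel_left]
      exact Subgroup.subset_normalClosure ⟨j, hij.symm, rfl⟩
    · intro h
      have h1 := h.ncl i (a := g i) (by
        rw [Function.update_self, mul_inv_rev, mul_assoc, inv_mul_cancel, mul_one]
        refine Subgroup.inv_mem _ (Subgroup.subset_normalClosure ⟨j, hij.symm, ?_⟩)
        rw [Function.update_of_ne hij.symm])
      rw [Function.update_idem, Function.update_eq_self] at h1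
      exact h1
  | conj g i w =>
    refine ⟨fun h => h.conj i w, fun h => ?_⟩
    have h1 := h.conj i w⁻¹
    rw [Function.update_idem, Function.update_self] at h1
    have e : w⁻¹ * (w * g i * w⁻¹) * w⁻¹⁻¹ = g i := by group
    rw [e, Function.update_eq_self] at h1
    exact h1
  | @torus g i j hij a b c d hd w hw =>
    obtain ⟨W, rfl⟩ : ∃ W : FreeGroup (Fin 2), w = ev (g i) (g j) W := by
      have h1 : Subgroup.closure {g i, g j} ≤ (ev (g i) (g j)).range := by
        rw [Subgroup.closure_le]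
        rintro z (rfl | rfl)
        · exact ⟨FreeGroup.of 0, by simp [ev]⟩
        · exact ⟨FreeGroup.of 1, by simp [ev]⟩
      obtain ⟨W, hW⟩ := h1 hw
      exact ⟨W, hW.symm⟩
    rw [fam_reindex (two_sum hij), fam_reindex (g := Function.update _ j _) (two_sum hij), two_sum_upd, two_sum_self]
    exact torus_move (g i) (g j) _ hd W

end

/-- images of equivalent families -/
theorem TEq.map {G H : Type} [Group G] [Group H] {ι : Type} [DecidableEq ι] (f : G →* H) {g g' : ι → G}
    (h : TEq g g') : TEq (fun i => f (g i)) fun i => f (g' i) := by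
  have hu : ∀ (g : ι → G) (i : ι) (a : G),
      (fun k => f (Function.update g i a k)) = Function.update (fun k => f (g k)) i (f a) := by
    intro g i a
    funext k
    by_cases hk : k = i
    · subst hk
      simp
    · simp [Function.update_of_ne hk]
  induction h with
  | refl g => exact TEq.refl _
  | symm _ ih => exact ih.symm
  | trans _ _ ih ih' => exact ih.trans ih'
  | inv g i =>
    rw [hu, map_inv]
    exact TEq.inv _ i
  | mul g hij =>
    rw [hu, map_mul]
    exact TEq.mul (fun k => f (g k)) hij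
  | conj g i w =>
    rw [hu, map_mul, map_mul, map_inv]
    exact TEq.conj (fun k => f (g k)) i (f w)
  | @torus g i j hij a b c d hd w hw =>
    rw [hu, hu, map_mul, map_mul, map_mul, map_mul, map_inv, map_zpow, map_zpow, map_zpow, map_zpow]
    refine TEq.torus (fun k => f (g k)) hij a b c d hd (f w) ?_
    have h1 : Subgroup.closure {g i, g j} ≤ (Subgroup.closure {f (g i), f (g j)}).comap f := by
      rw [Subgroup.closure_le]
      rintro z (rfl | rfl)
      · exact Subgroup.subset_closure (Set.mem_insert _ _)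
      · exact Subgroup.subset_closure (Set.mem_insert_of_mem _ (Set.mem_singleton _))
    exact h1 hw

/-- the homotopy spheres of the class of `(x, y)` are standard -/
theorem teq_spheres {M : Type} [TopologicalSpace M] [ChartedSpace E4 M] [T2Space M] [IsManifold (𝓡 4) ∞ M]
    {k₁ k₂ : ℝ × E3 → M} {ε : ℝ} (D : Dbl (-1 / 2) (1 / 2) k₁ k₂ ε) {q : M}
    (φ : FreeGroup (Fin 2) →* FundamentalGroup M q) (hx : Cls q (core k₁) (φ (FreeGroup.of 0)))
    (hy : Cls q (core k₂) (φ (FreeGroup.of 1))) {P : Fin 2 → FreeGroup (Fin 2)} (hP : TEq FreeGroup.of P) :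
    Fam q (fun i => φ (P i)) S4 ∧ ∀ (X : Type) [TopologicalSpace X] [ChartedSpace E4 X],
      Fam q (fun i => φ (P i)) X → Nonempty (X ≃ₘ⟮𝓡 4, 𝓡 4⟯ S4) := by
  have e : (fun i : Fin 2 => φ (FreeGroup.of i)) = ![φ (FreeGroup.of 0), φ (FreeGroup.of 1)] := by
    funext i
    fin_cases i <;> rfl
  have hM := TEq.map φ hP
  rw [e] at hM
  constructor
  · rw [← fam_teq hM]
    exact fam_two.mpr ⟨k₁, k₂, ⟨ε, D.tub, ⟨D.S⟩⟩, hx, hy⟩
  · intro X _ _ hX
    rw [← fam_teq hM] at hX
    exact double_ac D hx hy (ACP.ACEquiv.refl _) (fam_two.mp hX)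

/-- **surgery principle**: if one surgery on one double in the classes of the words `r₁`, `r₂` (which normally generate the free group) gives `S⁴` then `(u, v) ↦ (r₁(u, v), r₂(u, v))` is a move on every 4-manifold -/
theorem word_move' {M : Type} [TopologicalSpace M] [ChartedSpace E4 M] [T2Space M] [IsManifold (𝓡 4) ∞ M]
    {k₁ k₂ : ℝ × E3 → M} {ε : ℝ} (D : Dbl (-1 / 2) (1 / 2) k₁ k₂ ε) {q : M}
    (φ : FreeGroup (Fin 2) →* FundamentalGroup M q) (hx : Cls q (core k₁) (φ (FreeGroup.of 0)))
    (hy : Cls q (core k₂) (φ (FreeGroup.of 1))) {r₁ r₂ : FreeGroup (Fin 2)}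
    (hr : Subgroup.normalClosure {r₁, r₂} = ⊤) (hS : Two q (φ r₁) (φ r₂) S4)
    {N : Type} [TopologicalSpace N] [ChartedSpace E4 N] [T2Space N] [IsManifold (𝓡 4) ∞ N] {p : N} {ι : Type}
    [Finite ι] (u v : FundamentalGroup N p) (h : ι → FundamentalGroup N p) {X : Type} [TopologicalSpace X]
    [ChartedSpace E4 X] :
    Fam p (Sum.elim ![u, v] h) X ↔ Fam p (Sum.elim ![ev u v r₁, ev u v r₂] h) X := by
  have eφ : ∀ w, φ w = ev (φ (FreeGroup.of 0)) (φ (FreeGroup.of 1)) w := by
    intro w
    have e : φ = ev (φ (FreeGroup.of 0)) (φ (FreeGroup.of 1)) := by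
      apply FreeGroup.ext_hom
      intro i
      fin_cases i <;> simp [ev]
    exact DFunLike.congr_fun e w
  rw [eφ r₁, eφ r₂] at hS
  obtain ⟨M', _, _, _, _, k₁', k₂', ⟨D'⟩⟩ := exists_dbl
  obtain ⟨q', lam₁, lam₂, hG, x, y, hx', hy'⟩ := gens_exist D'
  obtain ⟨c1, c2⟩ := gens_cls D' hG hx' hy'
  have h0 : Fam q' (Sum.elim ![x, y] (fun e : Empty => e.elim)) S4 := by
    have h1 : Fam q' ![x, y] S4 := fam_two.mpr ⟨k₁', k₂', ⟨1 / 4, D'.tub, ⟨D'.S⟩⟩, c1, c2⟩
    have h2 := h1.reindex (Equiv.sumEmpty (Fin 2) Empty)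
    have e : (fun i => ![x, y] (Equiv.sumEmpty (Fin 2) Empty i)) = Sum.elim ![x, y] (fun e : Empty => e.elim) := by
      funext s
      rcases s with s | s
      · rfl
      · exact s.elim
    rw [e] at h2
    exact h2
  have h3 := n_move D hx hy hr hS x y (fun e : Empty => e.elim) h0
  have h4 : Two q' (ev x y r₁) (ev x y r₂) S4 := by
    rw [← fam_two]
    have h5 := h3.reindex (Equiv.sumEmpty (Fin 2) Empty).symm
    exact h5
  exact word_move D' hG hx' hy' hr h4 u v h

/-- all the surgeries are standard if one is -/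
theorem word_all {M : Type} [TopologicalSpace M] [ChartedSpace E4 M] [T2Space M] [IsManifold (𝓡 4) ∞ M]
    {k₁ k₂ : ℝ × E3 → M} {ε : ℝ} (D : Dbl (-1 / 2) (1 / 2) k₁ k₂ ε) {q : M}
    (φ : FreeGroup (Fin 2) →* FundamentalGroup M q) (hx : Cls q (core k₁) (φ (FreeGroup.of 0)))
    (hy : Cls q (core k₂) (φ (FreeGroup.of 1))) {r₁ r₂ : FreeGroup (Fin 2)}
    (hr : Subgroup.normalClosure {r₁, r₂} = ⊤) (hS : Two q (φ r₁) (φ r₂) S4)
    {X : Type} [TopologicalSpace X] [ChartedSpace E4 X] (hX : Two q (φ r₁) (φ r₂) X) :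
    Nonempty (X ≃ₘ⟮𝓡 4, 𝓡 4⟯ S4) := by
  have eφ : ∀ w, φ w = ev (φ (FreeGroup.of 0)) (φ (FreeGroup.of 1)) w := by
    intro w
    have e : φ = ev (φ (FreeGroup.of 0)) (φ (FreeGroup.of 1)) := by
      apply FreeGroup.ext_hom
      intro i
      fin_cases i <;> simp [ev]
    exact DFunLike.congr_fun e w
  have h1 := (word_move' D φ hx hy hr hS (φ (FreeGroup.of 0)) (φ (FreeGroup.of 1)) (fun e : Empty => e.elim)
    (X := X)).mpr (by
      rw [← eφ, ← eφ]
      have h2 := (fam_two.mpr hX).reindex (Equiv.sumEmpty (Fin 2) Empty)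
      have e : (fun i => ![φ r₁, φ r₂] (Equiv.sumEmpty (Fin 2) Empty i)) =
          Sum.elim ![φ r₁, φ r₂] (fun e : Empty => e.elim) := by
        funext s
        rcases s with s | s
        · rfl
        · exact s.elim
      rw [e] at h2
      exact h2)
  have h3 : Two q (φ (FreeGroup.of 0)) (φ (FreeGroup.of 1)) X := by
    rw [← fam_two]
    have h5 := h1.reindex (Equiv.sumEmpty (Fin 2) Empty).symm
    exact h5
  exact double_ac D hx hy (ACP.ACEquiv.refl _) h3

end Pool.Agent.MMV
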