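import Pool.Agent.MMV.NFb

/-!
# MMV/NFm: moving all the circles of a family to given cores; circles in given classes   (block VI, squad N)

PROOFS.
`circles_exist`: by induction on the (finite) index type (`Finite.induction_empty_option`, or on `Fin n`): for `Option ι`: the circles `c i`, `i : ι`, exist; `W = ⋃ i, range (c i)` is an obstacle (`obst_cores`); `g none` is the class of a loop
(`loop_of (Path.refl p)`, see `slide_data`), `per` of it is a continuous closed curve of class `g none`; `closed_curve` with this `W`, `O = univ`: an embedded circle off `W`, freely homotopic; `cls_fhom`.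
`move_all`: first step: the circles `core (κ i)` are made disjoint from all the `c j`: by induction over a finite set `s` of indices, `∃ κ'`, `IsSurg κ' X`, `FHom univ (core (κ' i)) (c i)` for all `i`, and `core (κ' i) t ∉ range (c j)` for `i ∈ s`,
all `j` (`closed_curve` for `core (κ' i)` with `W` = the union of all `range (c j)` and of `range (core (κ' k))`, `k ≠ i`; `move_at`).  Second step: by induction over `s`: moreover `core (κ' i) = c i` for `i ∈ s` and `core (κ' i)` avoids all the
`range (c j)` for `i ∉ s`: `move_at` with `c i` (it avoids `range (core (κ' k))`, `k ≠ i`: for `k ∈ s` by `hd`, for `k ∉ s` by the property of `κ' k`).  Compare `ACB.base_move` (`ACB/BsM.lean`).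
Thick circles are circles: `Thick.circ`.  `FHom` is symmetric and transitive (`FHom.symm`, `FHom.trans`).
-/

open scoped ContDiff Manifold Topology unitInterval
open Set Filter
open Pool.Agent.ACB

namespace Pool.Agent.MMV

variable {N : Type} [TopologicalSpace N] [ChartedSpace E4 N]

omit [ChartedSpace E4 N] in
theorem nfm_cls {p : N} (c : ℝ → N) {g : FundamentalGroup N p} {x : N} (e : c 0 = x) (γ : Path x x) (a : Path p x)
    (hγ : ∀ t : I, γ t = c t) (hg : FundamentalGroup.fromPath ⟦(a.trans γ).trans a.symm⟧ = g) : Cls p c g := by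
  subst e
  exact ⟨a, γ, hγ, hg⟩

theorem circles_exist [T2Space N] [IsManifold (𝓡 4) ∞ N] {ι : Type} [Finite ι] {p : N}
    (g : ι → FundamentalGroup N p) :
    ∃ c : ι → ℝ → N, (∀ i, Circ (c i)) ∧ (∀ i j, i ≠ j → ∀ t t', c i t ≠ c j t') ∧ ∀ i, Cls p (c i) (g i) := by
  revert g
  refine Finite.induction_empty_option (P := fun ι : Type => ∀ g : ι → FundamentalGroup N p,
    ∃ c : ι → ℝ → N, (∀ i, Circ (c i)) ∧ (∀ i j, i ≠ j → ∀ t t', c i t ≠ c j t') ∧ ∀ i, Cls p (c i) (g i)) ?_ ?_ ?_ ι
  · intro α β e h g
    obtain ⟨c, h1, h2, h3⟩ := h (fun a => g (e a))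
    refine ⟨fun b => c (e.symm b), fun b => h1 _, fun b b' hb => h2 _ _ (fun h => hb (e.symm.injective h)),
      fun b => ?_⟩
    have := h3 (e.symm b)
    rwa [e.apply_symm_apply] at this
  · intro g
    exact ⟨fun i => i.elim, fun i => i.elim, fun i => i.elim, fun i => i.elim⟩
  · intro α _ h g
    obtain ⟨c, h1, h2, h3⟩ := h (fun a => g (some a))
    have hW := obst_cores (fun i => (h1 i).toSCirc)
    obtain ⟨γ, hγ⟩ := loop_of (Path.refl p) (g none)
    obtain ⟨c0, hc0, hcW, hf⟩ := closed_curve (O := univ) (per_cont γ) (per_per γ) hW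
      ⟨isOpen_univ, fun _ _ => by simp⟩ (fun t => mem_univ _)
    refine ⟨consO c0 c, ?_, ?_, ?_⟩
    · rintro (_ | i)
      · exact hc0
      · exact h1 i
    · rintro (_ | i) (_ | j) hij t t'
      · exact absurd rfl hij
      · intro h
        exact hcW t (mem_iUnion.2 ⟨j, t', h.symm⟩)
      · intro h
        exact hcW t' (mem_iUnion.2 ⟨i, t, h⟩)
      · exact h2 i j (fun h => hij (congrArg some h)) t t'
    · rintro (_ | i)
      · refine cls_fhom hf ?_
        have e0 : per γ 0 = p := by
          have := slD_int γ 0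
          rwa [Int.cast_zero] at this
        exact nfm_cls (per γ) e0 γ (Path.refl p) (fun t => (per_coe γ t).symm) hγ
      · exact h3 i

theorem nfm_circ [IsManifold (𝓡 4) ∞ N] {ι : Type} {κ : ι → ℝ × E3 → N} {X : Type*}
    [TopologicalSpace X] [ChartedSpace E4 X] (h : IsSurg κ X) (i : ι) : Circ (core (κ i)) := by
  obtain ⟨ε, hT, -⟩ := h
  exact (hT.thick i).circ

theorem nfm_one [T2Space N] [IsManifold (𝓡 4) ∞ N] {ι : Type} [Finite ι] {κ : ι → ℝ × E3 → N} {X : Type*}
    [TopologicalSpace X] [ChartedSpace E4 X] (h : IsSurg κ X) {c : ι → ℝ → N} (hc : ∀ i, Circ (c i))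
    (hh : ∀ i, FHom univ (core (κ i)) (c i)) (s : Finset ι) :
    ∃ κ' : ι → ℝ × E3 → N, IsSurg κ' X ∧ (∀ i, FHom univ (core (κ' i)) (c i)) ∧
      ∀ i ∈ s, ∀ j t, core (κ' i) t ∉ range (c j) := by
  classical
  induction s using Finset.induction_on with
  | empty => exact ⟨κ, h, hh, fun i hi => absurd hi (Finset.notMem_empty i)⟩
  | insert i s his ih =>
    obtain ⟨κ', hS, hF, hA⟩ := ih
    have hC := fun k => nfm_circ hS k
    have hW : Obst ((⋃ j, range (c j)) ∪ ⋃ k : {k // k ≠ i}, range (core (κ' k))) :=
      (obst_cores fun j => (hc j).toSCirc).union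
        (obst_cores (c := fun k : {k // k ≠ i} => core (κ' k)) fun k => (hC k).toSCirc)
    obtain ⟨d, hd, hdW, hdF⟩ := closed_curve (O := univ) (hC i).smooth.continuous (hC i).per hW
      ⟨isOpen_univ, fun _ _ => by simp⟩ (fun t => mem_univ _)
    obtain ⟨κ'', he, hS'⟩ := move_at hS i hd (fun j hj t hm => hdW t (Or.inr (mem_iUnion.2 ⟨⟨j, hj⟩, hm⟩))) hdF
    refine ⟨Function.update κ' i κ'', hS', ?_, ?_⟩
    · intro k
      by_cases hk : k = i
      · subst hk
        rw [Function.update_self, he]
        exact hdF.symm.trans (hF k)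
      · rw [Function.update_of_ne hk]
        exact hF k
    · intro k hk j t
      by_cases hki : k = i
      · subst hki
        rw [Function.update_self, he]
        exact fun hm => hdW t (Or.inl (mem_iUnion.2 ⟨j, hm⟩))
      · rw [Function.update_of_ne hki]
        exact hA k ((Finset.mem_insert.1 hk).resolve_left hki) j t

theorem move_all [T2Space N] [IsManifold (𝓡 4) ∞ N] {ι : Type} [Finite ι] {κ : ι → ℝ × E3 → N} {X : Type*}
    [TopologicalSpace X] [ChartedSpace E4 X] (h : IsSurg κ X) {c : ι → ℝ → N} (hc : ∀ i, Circ (c i))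
    (hd : ∀ i j, i ≠ j → ∀ t t', c i t ≠ c j t') (hh : ∀ i, FHom univ (core (κ i)) (c i)) :
    ∃ κ' : ι → ℝ × E3 → N, IsSurg κ' X ∧ ∀ i, core (κ' i) = c i := by
  classical
  have := Fintype.ofFinite ι
  have key : ∀ s : Finset ι, ∃ κ' : ι → ℝ × E3 → N, IsSurg κ' X ∧ (∀ i, FHom univ (core (κ' i)) (c i)) ∧
      (∀ i ∈ s, core (κ' i) = c i) ∧ ∀ i, i ∉ s → ∀ j t, core (κ' i) t ∉ range (c j) := by
    intro s
    induction s using Finset.induction_on with
    | empty =>
      obtain ⟨κ', hS, hF, hA⟩ := nfm_one h hc hh Finset.univ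
      exact ⟨κ', hS, hF, fun i hi => absurd hi (Finset.notMem_empty i), fun i _ => hA i (Finset.mem_univ i)⟩
    | insert i s his ih =>
      obtain ⟨κ', hS, hF, hE, hA⟩ := ih
      obtain ⟨κ'', he, hS'⟩ := move_at hS i (hc i) (by
        rintro j hj t ⟨t', ht'⟩
        by_cases hjs : j ∈ s
        · rw [hE j hjs] at ht'
          exact hd j i hj t' t ht'
        · exact hA j hjs i t' ⟨t, ht'.symm⟩) (hF i)
      refine ⟨Function.update κ' i κ'', hS', ?_, ?_, ?_⟩
      · intro k
        by_cases hk : k = i
        · subst hk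
          rw [Function.update_self, he]
          exact FHom.refl (hc k).smooth.continuous (hc k).per fun t => mem_univ _
        · rw [Function.update_of_ne hk]
          exact hF k
      · intro k hk
        by_cases hki : k = i
        · subst hki
          rw [Function.update_self, he]
        · rw [Function.update_of_ne hki]
          exact hE k ((Finset.mem_insert.1 hk).resolve_left hki)
      · intro k hk j t
        have hki : k ≠ i := fun e => hk (by rw [e]; exact Finset.mem_insert_self i s)
        rw [Function.update_of_ne hki]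
        exact hA k (fun hks => hk (Finset.mem_insert_of_mem hks)) j t
  obtain ⟨κ', hS, -, hE, -⟩ := key Finset.univ
  exact ⟨κ', hS, fun i => hE i (Finset.mem_univ i)⟩

end Pool.Agent.MMV
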