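import Pool.Agent.MMV.Defs
import Pool.Agent.ACB.TwD

/-!
# MMV/NGDefs: framings of circles in the double: definitions   (helper44, block VI, squad G)

* `Lp L`: smooth loop of invertible linear maps of `ℝ³`.  `LH L L'`: homotopic loops.
* `Rt x`: rotation by the angle `2πx` about the first axis.  `RN n l = Rt (n l)`: `n` full turns.
* `stp`: smooth, `stp (l + 1) = stp l + 1`, `stp = 0` on `[-1/2, -1/16]`, `stp = 1` on `[1/16, 1/2]`.
* `apt i = ∓1/2`: the two punctures; `scen i = 1/2, 0`: the direction from `apt i` away from the other puncture, in turns.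
* `Sec D i a`: the closed sector of half width `a` (a thick 3-sphere dual to the circle `i`): the points over `{apt i + r ex l : |l - scen i| ≤ a}`, and the points `(l, 0)` of the core.
* `Xing`: a crossing: the neck `i`, the distance `s` from the core, the direction `e = ±1`, the time `α`, the time scale `ν`.
* `Pat D c L b a`: the curve `c` crosses the necks in the crossings of the list `L`: near the time `α` (`|t - α| ≤ b ν`) `c t = k_i (scen i + e (t - α) / ν, s ge₁)`, and it is off the sectors of half width `a` otherwise.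
-/

open scoped ContDiff Manifold Topology unitInterval
open Set Filter
open Pool.Agent.ACB

namespace Pool.Agent.MMV

/-- smooth loops of invertible maps -/
structure Lp (L : ℝ → E3 →L[ℝ] E3) : Prop where
  sm : ContDiff ℝ ∞ L
  per : ∀ l, L (l + 1) = L l
  bij : ∀ l, Function.Bijective (L l)

/-- homotopic loops -/
def LH (L L' : ℝ → E3 →L[ℝ] E3) : Prop :=
  ∃ M : ℝ → ℝ → E3 →L[ℝ] E3, ContDiff ℝ ∞ (fun q : ℝ × ℝ => M q.1 q.2) ∧ (∀ s l, M s (l + 1) = M s l) ∧
    (∀ s l, Function.Bijective (M s l)) ∧ M 0 = L ∧ M 1 = L'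

/-- rotation about the first axis -/
noncomputable def Rt (x : ℝ) : E3 →L[ℝ] E3 :=
  LinearMap.toContinuousLinearMap
    { toFun := fun v => !₂[v 0, Real.cos (2 * Real.pi * x) * v 1 - Real.sin (2 * Real.pi * x) * v 2,
        Real.sin (2 * Real.pi * x) * v 1 + Real.cos (2 * Real.pi * x) * v 2]
      map_add' := fun v w => by
        ext i
        fin_cases i <;> simp <;> ring
      map_smul' := fun r v => by
        ext i
        fin_cases i <;> simp <;> ring }

/-- `n` full turns -/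
noncomputable def RN (n : ℕ) (l : ℝ) : E3 →L[ℝ] E3 := Rt (n * l)

/-- the step function -/
noncomputable def stp (l : ℝ) : ℝ :=
  (⌊l + 1 / 2⌋ : ℝ) + Real.smoothTransition (8 * (l - ⌊l + 1 / 2⌋) + 1 / 2)

/-- the punctures -/
noncomputable def apt (i : Fin 2) : ℝ := ![-1 / 2, 1 / 2] i

/-- the directions of the sectors -/
noncomputable def scen (i : Fin 2) : ℝ := ![1 / 2, 0] i

/-- the first basis vector -/
noncomputable def ge₁ : E3 := EuclideanSpace.single 0 1

/-- a crossing of a neck -/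
structure Xing where
  i : Fin 2
  s : ℝ
  e : ℝ
  α : ℝ
  ν : ℝ

section
variable {M : Type} [TopologicalSpace M] [ChartedSpace E4 M] {k₁ k₂ : ℝ × E3 → M} {ε : ℝ}

/-- the closed sectors -/
def Sec (D : Dbl (-1 / 2) (1 / 2) k₁ k₂ ε) (i : Fin 2) (a : ℝ) : Set M :=
  {p | (Off ![k₁, k₂] p ∧ ∃ r l : ℝ, 0 < r ∧ |l - scen i| ≤ a ∧ TwD_u (D.S.A p).1 = (apt i : ℂ) + r * ex l) ∨
    ∃ l : ℝ, |l - scen i| ≤ a ∧ p = ![k₁, k₂] i (l, 0)}

/-- the curve crosses the necks in the crossings `L` -/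
structure Pat (D : Dbl (-1 / 2) (1 / 2) k₁ k₂ ε) (c : ℝ → M) (L : List Xing) (b a : ℝ) : Prop where
  pos : ∀ x ∈ L, 0 < x.ν ∧ 0 < x.s ∧ x.s < ε / 2 ∧ (x.e = 1 ∨ x.e = -1) ∧ 0 < x.α - b * x.ν ∧ x.α + b * x.ν < 1
  ord : L.Pairwise fun x y => x.α + b * x.ν < y.α - b * y.ν
  form : ∀ x ∈ L, ∀ t, |t - x.α| ≤ b * x.ν → c t = ![k₁, k₂] x.i (scen x.i + x.e * ((t - x.α) / x.ν), x.s • ge₁)
  only : ∀ (i : Fin 2), ∀ t ∈ Icc (0 : ℝ) 1, c t ∈ Sec D i a → ∃ x ∈ L, x.i = i ∧ |t - x.α| ≤ a * x.ν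

end

end Pool.Agent.MMV
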