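import Pool.Agent.MMV.NGn
import Pool.Agent.ACB.NoF
import Pool.Agent.ACB.Tbe

/-!
# MMV/NGf: surgeries along two circles with given cores   (block VI, squad G)

PROOFS.
* `frame_LH`: `IsSurg ![fr κ₁ L, κ₂] X`, `LH L L'` ⟹ `IsSurg ![fr κ₁ L', κ₂] X`: `frame_homotopy` (`ACB/FrH.lean`) for `M`, `M 0 = L`, `M 1 = L'`; `Tubes ![κ₁, κ₂] ε` is given.
* `framing_one`: `κ`, `κ'` thick with the same core, both disjoint from `κ₂`: `IsSurg ![κ, κ₂] X` ⟹ `∃ m, IsSurg ![fr κ' (RN m), κ₂] X`: `normal_frame` (`ACB/NoF.lean`, `θ = 0`) gives an isometric loop `L` with `IsSurg ![fr κ' L, κ₂] X`;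
  `lh_normal`: `L ~ RN m ∘ O`; `frame_LH`; then `isSurg_rot` (`ACB/Srg.lean`) with `O.symm`: `fr κ' (RN m ∘ O) (l, O.symm v) = fr κ' (RN m) (l, v)`.
* `framing_two`: first circle, `isSurg_swap`, second circle, `isSurg_swap`.  The tubes: `fr κ₁ (RN m)` is thick (it is one of the two circles of an `IsSurg`; its core is `core κ₁`); to apply `framing_one` for the second circle with
  `fr κ₁ (RN m)` as the other circle: `Tubes ![κ₂', fr κ₁ (RN m)] δ` by `tubes_pair` (the cores are disjoint).  Compare `ACB/BsE.lean` (`bse_normal`).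
-/

open scoped ContDiff Manifold Topology unitInterval
open Set Filter
open Pool.Agent.ACB

namespace Pool.Agent.MMV

variable {N : Type} [TopologicalSpace N] [ChartedSpace E4 N]

theorem frame_LH [T2Space N] [IsManifold (𝓡 4) ∞ N] {κ₁ κ₂ : ℝ × E3 → N} {ε : ℝ} (hT : Tubes ![κ₁, κ₂] ε)
    {L L' : ℝ → E3 →L[ℝ] E3} (h : LH L L') {X : Type} [TopologicalSpace X] [ChartedSpace E4 X]
    (hX : IsSurg ![fr κ₁ L, κ₂] X) : IsSurg ![fr κ₁ L', κ₂] X := by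
  obtain ⟨M, h1, h2, h3, h4, h5⟩ := h
  rw [← h4] at hX
  rw [← h5]
  exact frame_homotopy hT h1 h2 h3 hX

theorem framing_one [T2Space N] [IsManifold (𝓡 4) ∞ N] {κ κ' κ₂ : ℝ × E3 → N} {ε : ℝ} (hκ' : Thick κ' ε)
    (hc : core κ = core κ') {X : Type} [TopologicalSpace X] [ChartedSpace E4 X] (hX : IsSurg ![κ, κ₂] X) :
    ∃ m : ℕ, IsSurg ![fr κ' (RN m), κ₂] X := by
  obtain ⟨δ, hT, -⟩ := id hX
  have hr : 0 < min δ ε := lt_min (hT.thick 0).pos hκ'.pos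
  have hT1 : Tubes ![κ, κ₂] (min δ ε) := hT.mono hr (min_le_left _ _)
  have hk1 : Thick κ' (min δ ε) := hκ'.mono hr (min_le_right _ _)
  have hk2 : Thick κ₂ (min δ ε) := hT1.thick 1
  have hd : ∀ l l', κ' (l, 0) ≠ κ₂ (l', 0) := by
    intro l l' e
    have e1 : κ (l, 0) = κ' (l, 0) := congrFun hc l
    have h01 : (0 : Fin 2) ≠ 1 := by decide
    refine hT1.disj 0 1 h01 l 0 l' 0 (by rw [norm_zero]; exact hr) (by rw [norm_zero]; exact hr) ?_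
    show κ (l, 0) = κ₂ (l', 0)
    rw [e1, e]
  obtain ⟨δ1, hδ1, hle, hT'⟩ := tubes_pair hk1 hk2 hd
  obtain ⟨L, a1, a2, a3, -, a5⟩ := normal_frame (hT1.mono hδ1 hle) hT' hc 0
  obtain ⟨m, O, hLH⟩ := lh_normal a1 a2 a3
  have h1 := frame_LH hT' hLH (a5 X hX)
  have h2 := isSurg_rot h1 O.symm
  have h3 : (fun x : ℝ × E3 => fr κ' (fun l => (RN m l).comp (O : E3 →L[ℝ] E3)) (x.1, O.symm x.2)) =
      fr κ' (RN m) := by
    funext x
    show κ' (x.1, RN m x.1 (O (O.symm x.2))) = κ' (x.1, RN m x.1 x.2)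
    rw [LinearIsometryEquiv.apply_symm_apply]
  rw [h3] at h2
  exact ⟨m, h2⟩

theorem framing_two [T2Space N] [IsManifold (𝓡 4) ∞ N] {κ₁ κ₂ κ₁' κ₂' : ℝ × E3 → N} {ε : ℝ} (h1 : Thick κ₁' ε)
    (h2 : Thick κ₂' ε) (hc1 : core κ₁ = core κ₁') (hc2 : core κ₂ = core κ₂') {X : Type} [TopologicalSpace X]
    [ChartedSpace E4 X] (hX : IsSurg ![κ₁, κ₂] X) :
    ∃ m n : ℕ, IsSurg ![fr κ₁' (RN m), fr κ₂' (RN n)] X := by
  obtain ⟨m, hm⟩ := framing_one h1 hc1 hX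
  obtain ⟨n, hn⟩ := framing_one h2 hc2 (isSurg_swap hm)
  exact ⟨m, n, isSurg_swap hn⟩

end Pool.Agent.MMV
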