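import Pool.Agent.MMV.NGDefs
import Pool.Agent.ACB.Lin

/-!
# MMV/NGl: linearization with an explicit transition map   (block VI, squad G)

PROOF.  Word for word the proof of `ACB.linearize` (`ACB/Lin.lean`): `transition` with `κ₀ = κ'`, `K s = κ` gives `g`; here the properties of `g` are part of the conclusion, and `M = lin_M g`.
-/

open scoped ContDiff Manifold Topology unitInterval
open Set Filter
open Pool.Agent.ACB

namespace Pool.Agent.MMV

theorem linearize' {N : Type} [TopologicalSpace N] [ChartedSpace E4 N] [T2Space N] [IsManifold (𝓡 4) ∞ N]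
    {κ κ' κ₂ : ℝ × E3 → N} {ε : ℝ} (hT : Tubes ![κ, κ₂] ε) (hT' : Tubes ![κ', κ₂] ε) (hc : core κ = core κ') :
    ∃ (g : ℝ × E3 → ℝ × E3) (δ : ℝ), 0 < δ ∧ δ ≤ ε ∧
      (∀ (l : ℝ) (v : E3), ‖v‖ < δ → ContDiffAt ℝ ∞ g (l, v) ∧ κ' (g (l, v)) = κ (l, v) ∧ ‖(g (l, v)).2‖ < ε ∧
        |(g (l, v)).1 - l| < 1 / 2) ∧
      (∀ l, g (l, 0) = (l, 0)) ∧ Lp (lin_M g) ∧
      ∀ (X : Type) [TopologicalSpace X] [ChartedSpace E4 X], IsSurg ![κ, κ₂] X → IsSurg ![fr κ' (lin_M g), κ₂] X := by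
  have hκ : Thick κ ε := hT.thick 0
  have hκ' : Thick κ' ε := hT'.thick 0
  have hκ₂ : Thick κ₂ ε := hT.thick 1
  have hε : 0 < ε := hκ.pos
  have hc' : ∀ l : ℝ, κ (l, 0) = κ' (l, 0) := fun l => congrFun hc l
  obtain ⟨gg, δ, η, hδ, hδε, hη, htr⟩ := transition hκ' (K := fun _ => κ) (ρ := ε) hε
    (fun s l v hv => ((hκ.loc l v hv).contMDiffAt).comp (s, (l, v)) (contDiffAt_snd.contMDiffAt))
    (fun _ l v hv => hκ.per l v hv) (fun _ l => hc' l) 0
  let g : ℝ × E3 → ℝ × E3 := gg 0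
  have h00 : |(0 : ℝ) - 0| < η := by simpa using hη
  have hgs : ∀ (l : ℝ) (v : E3), ‖v‖ < δ → ContDiffAt ℝ ∞ g (l, v) := fun l v hv =>
    ((htr 0 l v h00 hv).1).comp (l, v) (contDiffAt_const.prodMk contDiffAt_id)
  have hgκ : ∀ (l : ℝ) (v : E3), ‖v‖ < δ → κ' (g (l, v)) = κ (l, v) := fun l v hv => (htr 0 l v h00 hv).2.1
  have hgn : ∀ (l : ℝ) (v : E3), ‖v‖ < δ → ‖(g (l, v)).2‖ < ε := fun l v hv => (htr 0 l v h00 hv).2.2.1
  have hgp : ∀ (l : ℝ) (v : E3), ‖v‖ < δ → g (l + 1, v) = g (l, v) + (1, 0) := fun l v hv =>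
    (htr 0 l v h00 hv).2.2.2.2.1
  have hδ0 : ‖(0 : E3)‖ < δ := by simpa using hδ
  have hg0 : ∀ l : ℝ, g (l, 0) = (l, 0) := fun l => (htr 0 l 0 h00 hδ0).2.2.2.2.2
  have hgs0 : ∀ l : ℝ, ContDiffAt ℝ ∞ g (l, 0) := fun l => hgs l 0 hδ0
  have hε0 : ‖(0 : E3)‖ < ε := by simpa using hε
  have hnear : ∀ l : ℝ, ∀ᶠ x : ℝ × E3 in 𝓝 (l, (0 : E3)), ‖x.2‖ < δ := by
    intro l
    have hcn : Continuous fun x : ℝ × E3 => ‖x.2‖ := continuous_norm.comp continuous_snd
    refine (hcn.tendsto (l, (0 : E3))).eventually (gt_mem_nhds ?_)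
    simpa using hδ
  have hAinj : ∀ (l : ℝ) (x : ℝ × E3), fderiv ℝ g (l, 0) x = 0 → x = 0 := by
    intro l x hx
    refine lin_A_inj (hκ.loc l 0 hε0) (hκ'.loc l 0 hε0) (hgs0 l) (hg0 l) (hc' l) ?_ x hx
    filter_upwards [hnear l] with y hy
    exact hgκ y.1 y.2 hy
  have hMinj : ∀ (l : ℝ) (w : E3), lin_M g l w = 0 → w = 0 := by
    intro l w hw
    have h1 : fderiv ℝ g (l, 0) (-(fderiv ℝ g (l, 0) (0, w)).1, w) = 0 := by
      rw [lin_A_split hgs0 hg0, hw, neg_add_cancel]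
      rfl
    exact congrArg Prod.snd (hAinj l _ h1)
  have hMs : ContDiff ℝ ∞ (lin_M g) := lin_M_smooth hgs0
  have hMp : ∀ l, lin_M g (l + 1) = lin_M g l := lin_M_per hδ hgp
  have hgl : ∀ (l : ℝ) (v : E3), ‖v‖ < δ → |(g (l, v)).1 - l| < 1 / 2 := fun l v hv => (htr 0 l v h00 hv).2.2.2.1
  refine ⟨g, δ, hδ, hδε, fun l v hv => ⟨hgs l v hv, hgκ l v hv, hgn l v hv, hgl l v hv⟩, hg0, ⟨hMs, hMp, ?_⟩, ?_⟩
  · intro l
    have hi : Function.Injective (lin_M g l : E3 →ₗ[ℝ] E3) := by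
      rw [← LinearMap.ker_eq_bot, LinearMap.ker_eq_bot']
      exact fun w hw => hMinj l w hw
    exact ⟨hi, LinearMap.injective_iff_surjective.mp hi⟩
  · intro X _ _ hX
    obtain ⟨B, hB0, hB⟩ := lin_bound hMs.continuous hMp
    let ρ : ℝ := min δ (ε / (B + 1))
    have hρ : 0 < ρ := lt_min hδ (by positivity)
    have hMn : ∀ (l : ℝ) (v : E3), ‖v‖ < ρ → ‖lin_M g l v‖ < ε := by
      intro l v hv
      have h1 : ‖v‖ < ε / (B + 1) := lt_of_lt_of_le hv (min_le_right _ _)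
      calc ‖lin_M g l v‖ ≤ ‖lin_M g l‖ * ‖v‖ := (lin_M g l).le_opNorm v
        _ ≤ B * ‖v‖ := by gcongr; exact hB l
        _ ≤ (B + 1) * ‖v‖ := by nlinarith [norm_nonneg v]
        _ < (B + 1) * (ε / (B + 1)) := by
            apply mul_lt_mul_of_pos_left h1; positivity
        _ = ε := by field_simp
    have hGn : ∀ (s l : ℝ) (v : E3), ‖v‖ < ρ → ‖(lin_G g s (l, v)).2‖ < ε := by
      intro s l v hv
      have h1 : (g (l, v)).2 ∈ Metric.ball (0 : E3) ε := by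
        rw [mem_ball_zero_iff]
        exact hgn l v (lt_of_lt_of_le hv (min_le_left _ _))
      have h2 : lin_M g l v ∈ Metric.ball (0 : E3) ε := by
        rw [mem_ball_zero_iff]
        exact hMn l v hv
      have h3 := convex_ball (0 : E3) ε h1 h2
        (sub_nonneg.mpr (Real.smoothTransition.le_one s)) (Real.smoothTransition.nonneg s) (by ring)
      rw [mem_ball_zero_iff] at h3
      exact h3
    have hK : ∀ (s l : ℝ) (v : E3), ‖v‖ < ρ →
        ContMDiffAt 𝓘(ℝ, ℝ × (ℝ × E3)) (𝓡 4) ∞ (fun q : ℝ × (ℝ × E3) => κ' (lin_G g q.1 q.2)) (s, (l, v)) := by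
      intro s l v hv
      have h1 : ContMDiffAt 𝓘(ℝ, ℝ × (ℝ × E3)) 𝓘(ℝ, ℝ × E3) ∞
          (fun q : ℝ × (ℝ × E3) => lin_G g q.1 q.2) (s, (l, v)) :=
        (lin_G_smooth hgs0 (hgs l v (lt_of_lt_of_le hv (min_le_left _ _)))).contMDiffAt
      have h2 : ContMDiffAt 𝓘(ℝ, ℝ × E3) (𝓡 4) ∞ κ' (lin_G g s (l, v)) :=
        (hκ'.loc (lin_G g s (l, v)).1 (lin_G g s (l, v)).2 (hGn s l v hv)).contMDiffAt
      exact ContMDiffAt.comp (x := (s, (l, v))) (g := κ') (f := fun q : ℝ × (ℝ × E3) => lin_G g q.1 q.2) h2 h1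
    have hper : ∀ (s l : ℝ) (v : E3), ‖v‖ < ρ → κ' (lin_G g s (l + 1, v)) = κ' (lin_G g s (l, v)) := by
      intro s l v hv
      have h1 : lin_G g s (l + 1, v) = ((lin_G g s (l, v)).1 + 1, (lin_G g s (l, v)).2) := by
        unfold lin_G
        simp only
        rw [hgp l v (lt_of_lt_of_le hv (min_le_left _ _)), hMp]
        ext1
        · simp only [Prod.fst_add, Prod.smul_fst, smul_eq_mul]
          ring
        · simp only [Prod.snd_add, Prod.smul_snd, add_zero]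
      rw [h1]
      exact hκ'.per _ _ (hGn s l v hv)
    have hcore : ∀ s l : ℝ, κ' (lin_G g s (l, 0)) = κ' (l, 0) := fun s l => by rw [lin_G_core hg0]
    have hloc : ∀ s l : ℝ, IsLocalDiffeomorphAt 𝓘(ℝ, ℝ × E3) (𝓡 4) ∞ (fun x => κ' (lin_G g s x)) (l, 0) := by
      intro s l
      have h1 : IsLocalDiffeomorphAt 𝓘(ℝ, ℝ × E3) 𝓘(ℝ, ℝ × E3) ∞ (lin_G g s) (l, 0) := by
        refine Pool.Agent.CSG.ld_of_fderiv ?_ rfl ?_
        · filter_upwards [hnear l] with y hy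
          exact lin_G_smooth' hgs0 s (hgs y.1 y.2 hy)
        · rintro ⟨a, w⟩ hx
          rw [lin_G_fderiv hgs0 hg0] at hx
          have h2 : lin_M g l w = 0 := congrArg Prod.snd hx
          have h3 := hMinj l w h2
          have h4 : a + (1 - Real.smoothTransition s) * (fderiv ℝ g (l, 0) (0, w)).1 = 0 := congrArg Prod.fst hx
          rw [h3] at h4 ⊢
          have h5 : fderiv ℝ g (l, 0) ((0 : ℝ), (0 : E3)) = 0 := map_zero _
          rw [h5] at h4
          simp only [Prod.fst_zero, mul_zero, add_zero] at h4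
          rw [h4]
          rfl
      refine h1.comp (𝓡 4) N ?_
      rw [lin_G_core hg0]
      exact hκ'.loc l 0 hε0
    have hinj : ∀ l l' : ℝ, κ' (l, 0) = κ' (l', 0) → ∃ m : ℤ, l' = l + m := fun l l' he =>
      (hκ'.inj l 0 l' 0 hε0 hε0 he).2
    let C : Set N := κ₂ '' (Icc 0 1 ×ˢ Metric.closedBall 0 (ε / 2))
    have hCc : IsCompact C := by
      refine (isCompact_Icc.prod (isCompact_closedBall (0 : E3) (ε / 2))).image_of_continuousOn ?_
      rintro ⟨l, v⟩ ⟨-, hv⟩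
      rw [mem_closedBall_zero_iff] at hv
      exact (hκ₂.loc l v (by linarith)).contMDiffAt.continuousAt.continuousWithinAt
    have hcU : ∀ l : ℝ, κ' (l, 0) ∈ Cᶜ := by
      rintro l ⟨⟨l', v'⟩, ⟨-, hv'⟩, he⟩
      rw [mem_closedBall_zero_iff] at hv'
      exact hT'.disj 0 1 (by decide) l 0 l' v' hε0 (by linarith) he.symm
    obtain ⟨F, hF, δ₁, hδ₁, hFK⟩ := germ_iso (K := fun s x => κ' (lin_G g s x)) (c := fun l => κ' (l, 0)) hρ hK
      hper hcore hloc hinj hCc.isClosed.isOpen_compl hcU 0 1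
    have h1 := isSurg_diffeo hX F
    refine isSurg_germ h1 ?_
    rw [Fin.forall_fin_two]
    constructor
    · refine ⟨min δ δ₁, lt_min hδ hδ₁, fun l v hv => ?_⟩
      have h2 : F (κ' (lin_G g 0 (l, v))) = κ' (lin_G g 1 (l, v)) :=
        hFK l v (lt_of_lt_of_le hv (min_le_right _ _))
      have h3 : lin_G g 0 (l, v) = g (l, v) := by
        unfold lin_G
        rw [Real.smoothTransition.zero, sub_zero, one_smul, zero_smul, add_zero]
      have h4 : lin_G g 1 (l, v) = (l, lin_M g l v) := by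
        unfold lin_G
        rw [Real.smoothTransition.one, sub_self, zero_smul, one_smul, zero_add]
      rw [h3, h4, hgκ l v (lt_of_lt_of_le hv (min_le_left _ _))] at h2
      exact h2.symm
    · refine ⟨ε / 2, by positivity, fun l v hv => ?_⟩
      show κ₂ (l, v) = F (κ₂ (l, v))
      refine (hF _ ?_).symm
      rw [mem_compl_iff, not_not]
      refine ⟨(Int.fract l, v), ⟨⟨Int.fract_nonneg l, (Int.fract_lt_one l).le⟩, ?_⟩, ?_⟩
      · rw [mem_closedBall_zero_iff]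
        exact hv.le
      · have h5 := hκ₂.per_int (Int.fract l) ⌊l⌋ v (by linarith)
        rw [Int.fract_add_floor] at h5
        exact h5.symm

end Pool.Agent.MMV
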