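import Pool.Agent.MMV.NGs

/-!
# MMV/NGt: the rotation of a neck about the first axis   (block VI, squad G)

PROOF.  `i = 0`: `F = TwD_F D L`, `L l = Rt (stp (l - 1/2))` (`ACB/TwD.lean`): `TwD_R L 0`: smooth, periodic (`stp (l + 1 - 1/2) = stp (l - 1/2) + 1`, `Rt_int`), isometric (`Rt_norm`), `L l = id` for `|l| < 1/8` (`stp_int`, `Rt_int`, `Rt_zero`).
The inverse family `L'` (`TwD_inv_ex`).  `TwD_F_ld` and the bijectivity (`TwD_F_F`) give the diffeomorphism as in `neck_twist`; `TwD_F₁`: `F (k₁ (l, v)) = k₁ (l, L l v)` for `‖v‖ < ε`.  If `p` is off the circles and not in `Sec D 0 (1/16)`: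
`S.A (F p) = T (S.A p)` (`TwD_F_off`), `T x = (u, L (l (u)) w)` with `u = -1/2 + |u + 1/2| ex (l (u))`, and `l (u)` is at the distance `> 1/16` from `1/2 + ℤ`, so `L (l (u)) = id`, `T (S.A p) = S.A p`, `F p = p` (`D.S.A_inj`).
If `p` is on a circle: `F p = p` (`TwD_F_on`).
`i = 1`: the same with the double with exchanged circles: redo `Dbl.swap` (`ACB/StW.lean`) as `swapA`: `∃ D' : Dbl (1/2) (-1/2) k₂ k₁ ε, D'.S.A = D.S.A` (the structure built there has the same `A`), `L l = Rt (stp l)`, `θ = 1/2`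
(`ex (1/2) = -1`), `TwD_F₁` for `D'`: `F (k₂ (l, v)) = k₂ (l, L l v)`.
-/

open scoped ContDiff Manifold Topology unitInterval
open Set Filter
open Pool.Agent.ACB

namespace Pool.Agent.MMV

theorem ngt_swap {N : Type} [TopologicalSpace N] [ChartedSpace E4 N] {a b : ℝ} {κ₁ κ₂ : ℝ × E3 → N} {ε : ℝ}
    (D : Dbl a b κ₁ κ₂ ε) : ∃ D' : Dbl b a κ₂ κ₁ ε, D'.S.A = D.S.A := by
  have hT : Tubes ![κ₂, κ₁] ε := by
    refine ⟨?_, ?_⟩
    · intro i
      fin_cases i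
      · exact D.tub.thick 1
      · exact D.tub.thick 0
    · intro i k hik l v l' v' hv hv'
      fin_cases i <;> fin_cases k
      · exact absurd rfl hik
      · exact D.tub.disj 1 0 (by decide) l v l' v' hv hv'
      · exact D.tub.disj 0 1 (by decide) l v l' v' hv hv'
      · exact absurd rfl hik
  refine ⟨⟨⟨D.S.A, ![D.S.Q 1, D.S.Q 0], ?_, ?_, ?_, ?_, ?_, ?_, ?_⟩, hT, D.small, ?_, ?_, ?_, ?_⟩, rfl⟩
  · intro p hp
    exact D.S.A_loc p ((StW_off p).mp hp)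
  · intro p p' hp hp' he
    exact D.S.A_inj p p' ((StW_off p).mp hp) ((StW_off p').mp hp') he
  · intro i z v hz
    fin_cases i
    · exact D.S.Q_loc 1 z v hz
    · exact D.S.Q_loc 0 z v hz
  · intro i l r v h0 h1
    fin_cases i
    · exact D.S.glue 1 l r v h0 h1
    · exact D.S.glue 0 l r v h0 h1
  · intro i k v v' he
    fin_cases i <;> fin_cases k
    · exact ⟨rfl, (D.S.Q_inj 1 1 v v' he).2⟩
    · have := (D.S.Q_inj 1 0 v v' he).1
      exact absurd this (by decide)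
    · have := (D.S.Q_inj 0 1 v v' he).1
      exact absurd this (by decide)
    · exact ⟨rfl, (D.S.Q_inj 0 0 v v' he).2⟩
  · intro i v p hp
    fin_cases i
    · exact D.S.disj 1 v p ((StW_off p).mp hp)
    · exact D.S.disj 0 v p ((StW_off p).mp hp)
  · intro q
    rcases D.S.cover q with ⟨p, hp, he⟩ | ⟨i, v, he⟩
    · exact Or.inl ⟨p, (StW_off p).mpr hp, he⟩
    · refine Or.inr ?_
      fin_cases i
      · exact ⟨1, v, he⟩
      · exact ⟨0, v, he⟩
  · rw [D.hb, abs_neg, D.ha]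
  · rw [D.hb, neg_neg]
  · intro z v hz
    exact D.std₂ z v hz
  · intro z v hz
    exact D.std₁ z v hz

/-- the rotations are trivial where the step function is an integer -/
theorem ngt_id {x : ℝ} (h : ∀ n : ℤ, 1 / 16 ≤ |x - n|) : Rt (stp x) = ContinuousLinearMap.id ℝ E3 := by
  obtain ⟨k, hk⟩ := stp_int h
  rw [hk, ← Rt_zero, ← Rt_int 0 k, zero_add]

theorem ngt_R {c θ : ℝ} (h : ∃ m : ℤ, θ - c = 1 / 2 + m) : TwD_R (fun l => Rt (stp (l - c))) θ := by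
  refine ⟨?_, ?_, ?_, ?_⟩
  · exact Rt_smooth.comp (stp_smooth.comp (contDiff_id.sub contDiff_const))
  · intro l
    show Rt (stp (l + 1 - c)) = Rt (stp (l - c))
    rw [show l + 1 - c = (l - c) + 1 by ring, stp_add_one]
    have := Rt_int (stp (l - c)) 1
    rw [Int.cast_one] at this
    exact this
  · intro l v
    exact Rt_norm _ _
  · intro l hl
    apply ngt_id
    intro n
    obtain ⟨m, hm⟩ := h
    have h1 := abs_lt.1 hl
    by_contra hcon
    push Not at hcon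
    have h2 := abs_lt.1 hcon
    have h3 : (1 / 2 + (m : ℝ) - n : ℝ) < 1 / 4 := by linarith [h1.1, h1.2, h2.1, h2.2]
    have h4 : (-(1 / 4) : ℝ) < 1 / 2 + (m : ℝ) - n := by linarith [h1.1, h1.2, h2.1, h2.2]
    have h5 : (m : ℝ) - n < 0 := by linarith
    have h6 : (-1 : ℝ) < (m : ℝ) - n := by linarith
    have h7 : m - n < 0 := by exact_mod_cast h5
    have h8 : (-1 : ℤ) < m - n := by exact_mod_cast h6
    omega

theorem ngt_gen {N : Type} [TopologicalSpace N] [ChartedSpace E4 N] [T2Space N] {a b : ℝ}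
    {κ₁ κ₂ : ℝ × E3 → N} {ε : ℝ} (D : Dbl a b κ₁ κ₂ ε) {c θ : ℝ}
    (hθ : ((b - a : ℝ) : ℂ) = ((|b - a| : ℝ) : ℂ) * ex θ) (h : ∃ m : ℤ, θ - c = 1 / 2 + m) :
    ∃ F : N ≃ₘ⟮𝓡 4, 𝓡 4⟯ N, (∀ (l : ℝ) (v : E3), ‖v‖ < ε → F (κ₁ (l, v)) = κ₁ (l, Rt (stp (l - c)) v)) ∧
      (∀ p, ¬ Off ![κ₁, κ₂] p → F p = p) ∧
      ∀ p, Off ![κ₁, κ₂] p → (∀ r l : ℝ, 0 < r → TwD_u (D.S.A p).1 = (a : ℂ) + r * ex l → 1 / 16 < |l - c|) →
        F p = p := by
  have hR := ngt_R h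
  obtain ⟨L', h', hi, hi'⟩ := TwD_inv_ex hR
  have hld : IsLocalDiffeomorph (𝓡 4) (𝓡 4) ∞ (TwD_F D fun l => Rt (stp (l - c))) :=
    fun p => TwD_F_ld D hR h' hi hi' hθ p
  have hbij : Function.Bijective (TwD_F D fun l => Rt (stp (l - c))) :=
    Function.bijective_iff_has_inverse.2 ⟨TwD_F D L', TwD_F_F D hR h' hi, TwD_F_F D h' hR hi'⟩
  refine ⟨hld.diffeomorphOfBijective hbij, fun l v hv => ?_, fun p hp => ?_, fun p hp hl => ?_⟩
  · exact TwD_F₁ D hR l hv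
  · exact TwD_F_on D hp
  · show TwD_F D (fun l => Rt (stp (l - c))) p = p
    have hne := (TwD_A_ne D hp).1
    have hr : 0 < ‖TwD_u (D.S.A p).1 - a‖ := norm_pos_iff.2 (sub_ne_zero.2 hne)
    have hT : TwD_T a (fun l => Rt (stp (l - c))) (D.S.A p) = D.S.A p := by
      apply Subtype.ext
      rw [TwD_T_coe hR]
      unfold TwD_G
      dsimp only
      rw [ngt_id, ContinuousLinearMap.id_apply, TwD_m_uw]
      intro n
      have h1 := hl ‖TwD_u (D.S.A p).1 - a‖ (TwD_an (TwD_u (D.S.A p).1 - a) + (-n : ℤ)) hr (by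
        have e1 : ex (TwD_an (TwD_u (D.S.A p).1 - a) + (-n : ℤ)) = ex (TwD_an (TwD_u (D.S.A p).1 - a)) :=
          RSG.ex_add_int _ _
        rw [e1, ← TwD_an_spec]
        ring)
      have e2 : TwD_an (TwD_u (D.S.A p).1 - a) + ((-n : ℤ) : ℝ) - c = TwD_an (TwD_u (D.S.A p).1 - a) - c - n := by
        push_cast
        ring
      rw [e2] at h1
      exact h1.le
    rw [TwD_F_eq D hp, hT, TwD_B_A D hp]

theorem twist {M : Type} [TopologicalSpace M] [ChartedSpace E4 M] [T2Space M] [IsManifold (𝓡 4) ∞ M]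
    {k₁ k₂ : ℝ × E3 → M} {ε : ℝ} (D : Dbl (-1 / 2) (1 / 2) k₁ k₂ ε) (i : Fin 2) :
    ∃ F : M ≃ₘ⟮𝓡 4, 𝓡 4⟯ M,
      (∀ (l : ℝ) (v : E3), ‖v‖ < ε → F (![k₁, k₂] i (l, v)) = ![k₁, k₂] i (l, Rt (stp (l - scen i)) v)) ∧
      ∀ p, p ∉ Sec D i (1 / 16) → F p = p := by
  fin_cases i
  · obtain ⟨F, h1, h2, h3⟩ := ngt_gen D (c := 1 / 2) (θ := 0) (by
      rw [show ex 0 = 1 from RSG.ex_zero]; norm_num) ⟨-1, by norm_num⟩
    refine ⟨F, h1, fun p hp => ?_⟩
    by_cases hoff : Off ![k₁, k₂] p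
    · refine h3 p hoff fun r l hr he => ?_
      by_contra hcon
      push Not at hcon
      refine hp (Or.inl ⟨hoff, r, l, hr, hcon, ?_⟩)
      rw [he]
      rfl
    · exact h2 p hoff
  · obtain ⟨D', hD'⟩ := ngt_swap D
    obtain ⟨F, h1, h2, h3⟩ := ngt_gen D' (c := 0) (θ := 1 / 2) (by
      rw [show ex (1 / 2) = -1 from RSG.ex_half]; norm_num) ⟨0, by norm_num⟩
    refine ⟨F, h1, fun p hp => ?_⟩
    by_cases hoff : Off ![k₁, k₂] p
    · refine h3 p ((StW_off p).2 hoff) fun r l hr he => ?_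
      by_contra hcon
      push Not at hcon
      refine hp (Or.inl ⟨hoff, r, l, hr, hcon, ?_⟩)
      rw [hD'] at he
      rw [he]
      rfl
    · exact h2 p fun h => hoff ((StW_off p).1 h)

end Pool.Agent.MMV
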