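import Pool.Agent.MMV.NGk
import Pool.Agent.MMV.NGl
import Pool.Agent.MMV.NGf
import Pool.Agent.MMV.NGt

/-!
# MMV/NGe: the rotation of a neck changes the framings by the numbers of crossings   (block VI, squad G)

PROOF.  `F` from `twist D i`.  `F (core κ_j t) = core κ_j t`: if `c t ∉ Sec D i (1/16)` clear; otherwise by `only` (after a translation of `t` by an integer) `t` is in the interval of a crossing with `x.i = i` and `c t = k_i (l, s ge₁)` (`form`) is fixed (`Rt_e₁`).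
`isSurg_diffeo` for `F`: `IsSurg ![F ∘ fr κ₁ (RN m), F ∘ fr κ₂ (RN n)] X`.  `linearize'` with `κ := F ∘ fr κ₁ (RN m)`, `κ' := κ₁`, second circle `F ∘ fr κ₂ (RN n)` (a common radius: `tubes_pair`, `Tubes.mono`; the cores of the three thick circles are `c₁`, `c₁`,
`c₂`): `g` with `κ₁ (g (l, v)) = F (κ₁ (l, RN m l v))`, `IsSurg ![fr κ₁ (lin_M g), F ∘ fr κ₂ (RN n)] X`.  `effect`: `lin_M g ~ RN (m + ..)`; `frame_LH` (`NGf`): `IsSurg ![fr κ₁ (RN (m + ..)), F ∘ fr κ₂ (RN n)] X`.  `isSurg_swap`, the same for the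
second circle with the other circle `fr κ₁ (RN (m + ..))`, `isSurg_swap`.  (`frame_LH` needs `Tubes ![κ₁, F ∘ fr κ₂ (RN n)] ε''`: `tubes_pair`.)
-/

open scoped ContDiff Manifold Topology unitInterval
open Set Filter
open Pool.Agent.ACB

namespace Pool.Agent.MMV

theorem nge_fix {M : Type} [TopologicalSpace M] [ChartedSpace E4 M]
    {k₁ k₂ : ℝ × E3 → M} {ε : ℝ} (D : Dbl (-1 / 2) (1 / 2) k₁ k₂ ε) (i : Fin 2) {F : M → M}
    (hF : ∀ (l : ℝ) (v : E3), ‖v‖ < ε → F (![k₁, k₂] i (l, v)) = ![k₁, k₂] i (l, Rt (stp (l - scen i)) v))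
    (hF' : ∀ p, p ∉ Sec D i (1 / 16) → F p = p) {κ : ℝ × E3 → M} {r : ℝ} (hκ : Thick κ r) {L : List Xing}
    (hL : Pat D (core κ) L (3 / 32) (1 / 16)) (t : ℝ) : F (core κ t) = core κ t := by
  have hper : Function.Periodic (core κ) 1 := fun t => hκ.per t 0 (by simpa using hκ.pos)
  have h2 : core κ t = core κ (Int.fract t) := by
    have := hper.sub_int_mul_eq (x := t) ⌊t⌋
    rw [mul_one] at this
    exact this.symm
  rw [h2]
  by_cases hs : core κ (Int.fract t) ∈ Sec D i (1 / 16)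
  · obtain ⟨x, hx, hxi, hxt⟩ := hL.only i (Int.fract t) ⟨Int.fract_nonneg t, (Int.fract_lt_one t).le⟩ hs
    obtain ⟨hν, hs0, hs1, -⟩ := hL.pos x hx
    have h3 : |Int.fract t - x.α| ≤ 3 / 32 * x.ν := by
      refine hxt.trans ?_
      nlinarith
    rw [hL.form x hx _ h3, hxi]
    have he : ‖(ge₁ : E3)‖ = 1 := by
      unfold ge₁
      simp
    have h4 : ‖(x.s • ge₁ : E3)‖ < ε := by
      rw [norm_smul, Real.norm_eq_abs, abs_of_pos hs0, he, mul_one]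
      linarith
    rw [hF _ _ h4, Rt_e₁]
  · exact hF' _ hs

theorem nge_half {M : Type} [TopologicalSpace M] [ChartedSpace E4 M] [T2Space M] [IsManifold (𝓡 4) ∞ M]
    {k₁ k₂ : ℝ × E3 → M} {ε : ℝ} (D : Dbl (-1 / 2) (1 / 2) k₁ k₂ ε) (i : Fin 2) {F : M → M}
    (hF : ∀ (l : ℝ) (v : E3), ‖v‖ < ε → F (![k₁, k₂] i (l, v)) = ![k₁, k₂] i (l, Rt (stp (l - scen i)) v))
    (hF' : ∀ p, p ∉ Sec D i (1 / 16) → F p = p) (hFc : Continuous F) {κ κ₂ : ℝ × E3 → M} {r : ℝ}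
    (hκ : Thick κ r) (hd : ∀ t t', core κ t ≠ κ₂ (t', 0)) {L : List Xing}
    (hL : Pat D (core κ) L (3 / 32) (1 / 16)) {m : ℕ} {X : Type} [TopologicalSpace X] [ChartedSpace E4 X]
    (hX : IsSurg ![fun x => F (fr κ (RN m) x), κ₂] X) :
    IsSurg ![fr κ (RN (m + L.countP fun z => z.i = i)), κ₂] X := by
  obtain ⟨ε₁, hT₁, -⟩ := id hX
  have hε₁ : 0 < ε₁ := (hT₁.thick 0).pos
  have hr := hκ.pos
  have hκ₂ : Thick κ₂ ε₁ := hT₁.thick 1
  obtain ⟨ρ, hρ_def⟩ : ∃ ρ : ℝ, ρ = min r ε₁ := ⟨_, rfl⟩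
  have hρ : 0 < ρ := by rw [hρ_def]; exact lt_min hr hε₁
  have hρr : ρ ≤ r := by rw [hρ_def]; exact min_le_left _ _
  have hρε : ρ ≤ ε₁ := by rw [hρ_def]; exact min_le_right _ _
  obtain ⟨δ, hδ, hδρ, hT₂⟩ := tubes_pair (hκ.mono hρ hρr) (hκ₂.mono hρ hρε) fun l l' => hd l l'
  have hT₁' : Tubes ![fun x => F (fr κ (RN m) x), κ₂] δ := hT₁.mono hδ (hδρ.trans hρε)
  have hc : core (fun x => F (fr κ (RN m) x)) = core κ := by
    funext t
    show F (κ (t, RN m t 0)) = κ (t, 0)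
    rw [map_zero]
    exact nge_fix D i hF hF' hκ hL t
  obtain ⟨g, η, hη, hηδ, hg, hg0, hLp, hS⟩ := linearize' hT₁' hT₂ hc
  have hLH : LH (lin_M g) (RN (m + L.countP fun z => z.i = i)) := by
    refine effect D i hF hF' hFc hκ hL m hη ?_ hg0 hLp
    intro l v hv
    obtain ⟨a1, a2, a3, a4⟩ := hg l v hv
    exact ⟨a1, a2, lt_of_lt_of_le a3 (hδρ.trans hρr), a4⟩
  exact frame_LH hT₂ hLH (hS X hX)

theorem twist_step {M : Type} [TopologicalSpace M] [ChartedSpace E4 M] [T2Space M] [IsManifold (𝓡 4) ∞ M]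
    {k₁ k₂ : ℝ × E3 → M} {ε : ℝ} (D : Dbl (-1 / 2) (1 / 2) k₁ k₂ ε) (i : Fin 2) {κ₁ κ₂ : ℝ × E3 → M} {r : ℝ}
    (h1 : Thick κ₁ r) (h2 : Thick κ₂ r) (hd : ∀ t t', core κ₁ t ≠ core κ₂ t') {L₁ L₂ : List Xing}
    (hL₁ : Pat D (core κ₁) L₁ (3 / 32) (1 / 16)) (hL₂ : Pat D (core κ₂) L₂ (3 / 32) (1 / 16)) {m n : ℕ}
    {X : Type} [TopologicalSpace X] [ChartedSpace E4 X] (hX : IsSurg ![fr κ₁ (RN m), fr κ₂ (RN n)] X) :
    IsSurg ![fr κ₁ (RN (m + L₁.countP fun z => z.i = i)), fr κ₂ (RN (n + L₂.countP fun z => z.i = i))] X := by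
  obtain ⟨F, hF, hF'⟩ := twist D i
  have hFc : Continuous F := F.continuous
  have hX' := isSurg_diffeo hX F
  have e1 : (fun j x => F (![fr κ₁ (RN m), fr κ₂ (RN n)] j x)) =
      ![fun x => F (fr κ₁ (RN m) x), fun x => F (fr κ₂ (RN n) x)] := by
    funext j
    fin_cases j <;> rfl
  rw [e1] at hX'
  have hA := nge_half D i hF hF' hFc h1 (κ₂ := fun x => F (fr κ₂ (RN n) x)) (fun t t' => by
    show core κ₁ t ≠ F (κ₂ (t', RN n t' 0))
    rw [map_zero]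
    have := nge_fix D i hF hF' h2 hL₂ t'
    have h3 : F (κ₂ (t', 0)) = core κ₂ t' := this
    rw [h3]
    exact hd t t') hL₁ hX'
  have hB := nge_half D i hF hF' hFc h2 (κ₂ := fr κ₁ (RN (m + L₁.countP fun z => z.i = i))) (fun t t' => by
    show core κ₂ t ≠ κ₁ (t', RN (m + L₁.countP fun z => z.i = i) t' 0)
    rw [map_zero]
    exact fun h => hd t' t h.symm) hL₂ (isSurg_swap hA)
  exact isSurg_swap hB

end Pool.Agent.MMV
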