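import Pool.Agent.MMV.NGDefs
import Pool.Agent.MMV.NCm

/-!
# MMV/NGh: loops of invertible matrices   (block VI, squad G)

PROOFS.  Everything is pointwise composition of explicit smooth maps; the space `E3 →L[ℝ] E3` is finite dimensional; smoothness of `x ↦ Rt x`: write `Rt x = A + cos (2πx) • B + sin (2πx) • C` with constant maps (or `contDiff_clm_apply_iff`-like lemma for finite dimension).
* `Rt_zero`, `Rt_add` (`Rt (x + y) = Rt x ∘ Rt y`), `Rt_int` (`Rt (x + n) = Rt x`, `n : ℤ`), `Rt_norm`, `Rt_e₁` (`Rt x (s • ge₁) = s • ge₁`), `Rt_bij`.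
* `LH.refl/symm/comp`: `symm`: `M (1 - s)`; `comp`: `M s l ∘ K s l`; `trans`: let `M` from `L` to `L'`, `K` from `L'` to `L''`; with `τ = Real.smoothTransition` put `H s l = M (τ (2 s)) l ∘ (L' l)⁻¹ ∘ K (τ (2 s - 1)) l` (no cases: for `s ≤ 1/2` the last
  two cancel, for `s ≥ 1/2` the first two); `(L' l)⁻¹` is `ContinuousLinearMap.inverse`, smooth in `l` (`TwD_inv_ex` in `ACB/TwD.lean`, `frh_inv` in `ACB/FrH.lean`).
* `LH.lp`: the ends of a homotopy are loops (`Lp`).
* `lh_turn`: `LH (fun l => Rt (φ l)) (fun l => Rt (φ' l))` if `φ, φ'` are smooth with `φ (l + 1) = φ l + m`, `φ' (l + 1) = φ' l + m`, the same integer `m`: `Rt ((1 - s) φ l + s φ' l)`.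
* `lh_neg`: `Rt (-l)` is homotopic to `Rt l`.  Let `Q s` be the rotation by the angle `πs` about the third axis (`v ↦ (cos πs v₀ - sin πs v₁, sin πs v₀ + cos πs v₁, v₂)`): `Q 1 = diag (-1, -1, 1)`, `Q 1 ∘ Rt l ∘ (Q 1)⁻¹ = Rt (-l)`; homotopy `Q s ∘ Rt l ∘ (Q s)⁻¹`.
* `lh_par`: `RN m ~ RN n` if `m ≡ n mod 2`: enough `RN (n + 2) ~ RN n`: `RN (n + 2) l = RN n l ∘ Rt l ∘ Rt l`, `Rt l ∘ Rt l ~ Rt l ∘ Rt (-l) = id` (`LH.comp`, `lh_neg`).
* `lh_conj`: `P : E3 →L[ℝ] E3` bijective: `P⁻¹ ∘ Rt l ∘ P ~ Rt l`: `gl_path` (`NCm`): `P ~ sgnL d` by a path `γ` of invertible maps: homotopy `(γ s)⁻¹ ∘ Rt l ∘ γ s`; and `(sgnL d)⁻¹ ∘ Rt l ∘ sgnL d = Rt (± l)` (`+` if `d 1 = d 2`, `-` otherwise):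
  `lh_neg`.  (`P⁻¹ = P.inverse`.)
* `lh_conj'`: the same for `Rt (φ l)` with `φ (l + 1) = φ l + 1` or `φ (l + 1) = φ l - 1`, `φ` smooth: `P⁻¹ ∘ Rt (φ l) ∘ P ~ RN 1`.
-/

open scoped ContDiff Manifold Topology unitInterval
open Set Filter
open Pool.Agent.ACB

namespace Pool.Agent.MMV

theorem Rt_apply (x : ℝ) (v : E3) : Rt x v = !₂[v 0, Real.cos (2 * Real.pi * x) * v 1 - Real.sin (2 * Real.pi * x) * v 2,
    Real.sin (2 * Real.pi * x) * v 1 + Real.cos (2 * Real.pi * x) * v 2] := rfl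

theorem Rt_smooth : ContDiff ℝ ∞ Rt := by
  have h : Rt = fun x => ((1 + Real.cos (2 * Real.pi * x)) / 2) • Rt 0 + ((1 - Real.cos (2 * Real.pi * x)) / 2) • Rt (1 / 2) +
      Real.sin (2 * Real.pi * x) • (Rt (1 / 4) - (1 / 2 : ℝ) • Rt 0 - (1 / 2 : ℝ) • Rt (1 / 2)) := by
    funext x
    have e1 : 2 * Real.pi * (1 / 2) = Real.pi := by ring
    have e2 : 2 * Real.pi * (1 / 4) = Real.pi / 2 := by ring
    ext v i
    simp only [add_apply, smul_apply, sub_apply,
      Rt_apply, e1, e2, mul_zero, Real.cos_zero, Real.sin_zero, Real.cos_pi, Real.sin_pi, Real.cos_pi_div_two,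
      Real.sin_pi_div_two]
    fin_cases i <;> simp <;> ring
  rw [h]
  have hc : ContDiff ℝ ∞ fun x : ℝ => Real.cos (2 * Real.pi * x) := Real.contDiff_cos.comp (by fun_prop)
  have hs : ContDiff ℝ ∞ fun x : ℝ => Real.sin (2 * Real.pi * x) := Real.contDiff_sin.comp (by fun_prop)
  exact ((((contDiff_const.add hc).div_const 2).smul contDiff_const).add
    (((contDiff_const.sub hc).div_const 2).smul contDiff_const)).add (hs.smul contDiff_const)

theorem Rt_zero : Rt 0 = ContinuousLinearMap.id ℝ E3 := by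
  ext v i
  rw [Rt_apply]
  fin_cases i <;> simp

theorem Rt_add (x y : ℝ) : Rt (x + y) = (Rt x).comp (Rt y) := by
  ext v i
  have e : 2 * Real.pi * (x + y) = 2 * Real.pi * x + 2 * Real.pi * y := by ring
  rw [ContinuousLinearMap.comp_apply, Rt_apply, Rt_apply, Rt_apply, e, Real.cos_add, Real.sin_add]
  fin_cases i <;> simp <;> ring

theorem Rt_int (x : ℝ) (n : ℤ) : Rt (x + n) = Rt x := by
  ext v i
  have e : 2 * Real.pi * (x + n) = 2 * Real.pi * x + n * (2 * Real.pi) := by ring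
  rw [Rt_apply, Rt_apply, e, Real.cos_add_int_mul_two_pi, Real.sin_add_int_mul_two_pi]

theorem Rt_norm (x : ℝ) (v : E3) : ‖Rt x v‖ = ‖v‖ := by
  rw [EuclideanSpace.norm_eq, EuclideanSpace.norm_eq, Rt_apply]
  congr 1
  simp only [Fin.sum_univ_three, Real.norm_eq_abs, sq_abs]
  have h := Real.sin_sq_add_cos_sq (2 * Real.pi * x)
  simp
  linear_combination (v 1 ^ 2 + v 2 ^ 2) * h

theorem Rt_e₁ (x s : ℝ) : Rt x (s • ge₁) = s • ge₁ := by
  rw [Rt_apply]
  unfold ge₁
  ext i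
  fin_cases i <;> simp

theorem ngh_bij_of {A B : E3 →L[ℝ] E3} (h : A.comp B = ContinuousLinearMap.id ℝ E3)
    (h' : B.comp A = ContinuousLinearMap.id ℝ E3) : Function.Bijective A := by
  refine Function.bijective_iff_has_inverse.2 ⟨B, fun v => ?_, fun v => ?_⟩
  · rw [← ContinuousLinearMap.comp_apply, h']
    rfl
  · rw [← ContinuousLinearMap.comp_apply, h]
    rfl

theorem ngh_comp_bij {A B : E3 →L[ℝ] E3} (hA : Function.Bijective A) (hB : Function.Bijective B) :
    Function.Bijective (A.comp B) := by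
  have h : ⇑(A.comp B) = ⇑A ∘ ⇑B := rfl
  rw [h]
  exact hA.comp hB

theorem ngh_inv {A : E3 →L[ℝ] E3} (hA : Function.Bijective A) :
    A.inverse.comp A = ContinuousLinearMap.id ℝ E3 ∧ A.comp A.inverse = ContinuousLinearMap.id ℝ E3 ∧
      Function.Bijective A.inverse := by
  let e : E3 ≃L[ℝ] E3 := (LinearEquiv.ofBijective (A : E3 →ₗ[ℝ] E3) hA).toContinuousLinearEquiv
  have he : (e : E3 →L[ℝ] E3) = A := by
    ext v
    rfl
  have h1 : A.inverse = (e.symm : E3 →L[ℝ] E3) := by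
    rw [← he, ContinuousLinearMap.inverse_equiv]
  have h2 : A.inverse.comp A = ContinuousLinearMap.id ℝ E3 := by
    rw [h1]
    nth_rewrite 1 [← he]
    ext v
    simp
  have h3 : A.comp A.inverse = ContinuousLinearMap.id ℝ E3 := by
    rw [h1]
    nth_rewrite 1 [← he]
    ext v
    simp
  exact ⟨h2, h3, ngh_bij_of h2 h3⟩

theorem Rt_bij (x : ℝ) : Function.Bijective (Rt x) := by
  refine ngh_bij_of (B := Rt (-x)) ?_ ?_
  · rw [← Rt_add, add_neg_cancel, Rt_zero]
  · rw [← Rt_add, neg_add_cancel, Rt_zero]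

theorem RN_lp (n : ℕ) : Lp (RN n) := by
  refine ⟨?_, ?_, ?_⟩
  · unfold RN
    exact Rt_smooth.comp (contDiff_const.mul contDiff_id)
  · intro l
    unfold RN
    have e : (n : ℝ) * (l + 1) = n * l + ((n : ℤ) : ℝ) := by
      push_cast
      ring
    rw [e, Rt_int]
  · intro l
    exact Rt_bij _

theorem LH.lp {L L' : ℝ → E3 →L[ℝ] E3} (h : LH L L') : Lp L ∧ Lp L' := by
  obtain ⟨M, h1, h2, h3, h4, h5⟩ := h
  have key : ∀ s, Lp (M s) := by
    intro s
    refine ⟨?_, h2 s, h3 s⟩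
    have h6 : ContDiff ℝ ∞ fun l : ℝ => ((s, l) : ℝ × ℝ) := contDiff_const.prodMk contDiff_id
    exact h1.comp h6
  rw [← h4, ← h5]
  exact ⟨key 0, key 1⟩

theorem LH.refl {L : ℝ → E3 →L[ℝ] E3} (h : Lp L) : LH L L :=
  ⟨fun _ l => L l, h.sm.comp contDiff_snd, fun _ l => h.per l, fun _ l => h.bij l, rfl, rfl⟩

theorem LH.symm {L L' : ℝ → E3 →L[ℝ] E3} (h : LH L L') : LH L' L := by
  obtain ⟨M, h1, h2, h3, h4, h5⟩ := h
  refine ⟨fun s l => M (1 - s) l, ?_, fun s l => h2 _ l, fun s l => h3 _ l, ?_, ?_⟩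
  · have h6 : ContDiff ℝ ∞ fun q : ℝ × ℝ => ((1 - q.1, q.2) : ℝ × ℝ) :=
      (contDiff_const.sub contDiff_fst).prodMk contDiff_snd
    exact h1.comp h6
  · funext l
    show M (1 - 0) l = L' l
    rw [sub_zero, h5]
  · funext l
    show M (1 - 1) l = L l
    rw [sub_self, h4]

theorem LH.trans {L L' L'' : ℝ → E3 →L[ℝ] E3} (h : LH L L') (h' : LH L' L'') : LH L L'' := by
  have hL' := h.lp.2
  obtain ⟨M, h1, h2, h3, h4, h5⟩ := h
  obtain ⟨K, k1, k2, k3, k4, k5⟩ := h'
  have hinv := frh_inv hL'.sm hL'.bij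
  refine ⟨fun s l => (M (Real.smoothTransition (2 * s)) l).comp
    ((L' l).inverse.comp (K (Real.smoothTransition (2 * s - 1)) l)), ?_, ?_, ?_, ?_, ?_⟩
  · have a1 : ContDiff ℝ ∞ fun q : ℝ × ℝ => ((Real.smoothTransition (2 * q.1), q.2) : ℝ × ℝ) :=
      (Real.smoothTransition.contDiff.comp (contDiff_const.mul contDiff_fst)).prodMk contDiff_snd
    have a2 : ContDiff ℝ ∞ fun q : ℝ × ℝ => ((Real.smoothTransition (2 * q.1 - 1), q.2) : ℝ × ℝ) :=
      (Real.smoothTransition.contDiff.comp ((contDiff_const.mul contDiff_fst).sub contDiff_const)).prodMk contDiff_snd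
    have b1 := h1.comp a1
    have b2 := k1.comp a2
    have b3 : ContDiff ℝ ∞ fun q : ℝ × ℝ => (L' q.2).inverse := hinv.comp contDiff_snd
    exact b1.clm_comp (b3.clm_comp b2)
  · intro s l
    show (M (Real.smoothTransition (2 * s)) (l + 1)).comp
      ((L' (l + 1)).inverse.comp (K (Real.smoothTransition (2 * s - 1)) (l + 1))) = _
    rw [h2, k2, hL'.per]
  · intro s l
    exact ngh_comp_bij (h3 _ l) (ngh_comp_bij (ngh_inv (hL'.bij l)).2.2 (k3 _ l))
  · funext l
    show (M (Real.smoothTransition (2 * 0)) l).comp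
      ((L' l).inverse.comp (K (Real.smoothTransition (2 * 0 - 1)) l)) = L l
    have e1 : Real.smoothTransition (2 * 0) = 0 := Real.smoothTransition.zero_of_nonpos (by norm_num)
    have e2 : Real.smoothTransition (2 * 0 - 1) = 0 := Real.smoothTransition.zero_of_nonpos (by norm_num)
    rw [e1, e2, h4, k4, (ngh_inv (hL'.bij l)).1, ContinuousLinearMap.comp_id]
  · funext l
    show (M (Real.smoothTransition (2 * 1)) l).comp
      ((L' l).inverse.comp (K (Real.smoothTransition (2 * 1 - 1)) l)) = L'' l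
    have e1 : Real.smoothTransition (2 * 1) = 1 := Real.smoothTransition.one_of_one_le (by norm_num)
    have e2 : Real.smoothTransition (2 * 1 - 1) = 1 := Real.smoothTransition.one_of_one_le (by norm_num)
    rw [e1, e2, h5, k5, ← ContinuousLinearMap.comp_assoc, (ngh_inv (hL'.bij l)).2.1, ContinuousLinearMap.id_comp]

theorem LH.comp {L L' K K' : ℝ → E3 →L[ℝ] E3} (h : LH L L') (h' : LH K K') :
    LH (fun l => (L l).comp (K l)) fun l => (L' l).comp (K' l) := by
  obtain ⟨M, h1, h2, h3, h4, h5⟩ := h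
  obtain ⟨N, k1, k2, k3, k4, k5⟩ := h'
  refine ⟨fun s l => (M s l).comp (N s l), h1.clm_comp k1, ?_, ?_, ?_, ?_⟩
  · intro s l
    show (M s (l + 1)).comp (N s (l + 1)) = _
    rw [h2, k2]
  · intro s l
    exact ngh_comp_bij (h3 s l) (k3 s l)
  · funext l
    show (M 0 l).comp (N 0 l) = _
    rw [h4, k4]
  · funext l
    show (M 1 l).comp (N 1 l) = _
    rw [h5, k5]

theorem lh_turn {φ φ' : ℝ → ℝ} (h : ContDiff ℝ ∞ φ) (h' : ContDiff ℝ ∞ φ') {m : ℤ} (hm : ∀ l, φ (l + 1) = φ l + m)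
    (hm' : ∀ l, φ' (l + 1) = φ' l + m) : LH (fun l => Rt (φ l)) fun l => Rt (φ' l) := by
  refine ⟨fun s l => Rt ((1 - s) * φ l + s * φ' l), ?_, ?_, ?_, ?_, ?_⟩
  · have h6 : ContDiff ℝ ∞ fun q : ℝ × ℝ => (1 - q.1) * φ q.2 + q.1 * φ' q.2 :=
      ((contDiff_const.sub contDiff_fst).mul (h.comp contDiff_snd)).add (contDiff_fst.mul (h'.comp contDiff_snd))
    exact Rt_smooth.comp h6
  · intro s l
    show Rt ((1 - s) * φ (l + 1) + s * φ' (l + 1)) = _
    rw [hm, hm']
    have e : (1 - s) * (φ l + m) + s * (φ' l + m) = ((1 - s) * φ l + s * φ' l) + m := by ring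
    rw [e, Rt_int]
  · intro s l
    exact Rt_bij _
  · funext l
    show Rt ((1 - 0) * φ l + 0 * φ' l) = _
    congr 1
    ring
  · funext l
    show Rt ((1 - 1) * φ l + 1 * φ' l) = _
    congr 1
    ring

/-- rotation about the third axis -/
noncomputable def ngh_Q (x : ℝ) : E3 →L[ℝ] E3 :=
  LinearMap.toContinuousLinearMap
    { toFun := fun v => !₂[Real.cos (2 * Real.pi * x) * v 0 - Real.sin (2 * Real.pi * x) * v 1,
        Real.sin (2 * Real.pi * x) * v 0 + Real.cos (2 * Real.pi * x) * v 1, v 2]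
      map_add' := fun v w => by
        ext i
        fin_cases i <;> simp <;> ring
      map_smul' := fun r v => by
        ext i
        fin_cases i <;> simp <;> ring }

theorem ngh_Q_apply (x : ℝ) (v : E3) : ngh_Q x v = !₂[Real.cos (2 * Real.pi * x) * v 0 - Real.sin (2 * Real.pi * x) * v 1,
        Real.sin (2 * Real.pi * x) * v 0 + Real.cos (2 * Real.pi * x) * v 1, v 2] := rfl

theorem ngh_Q_smooth : ContDiff ℝ ∞ ngh_Q := by
  have h : ngh_Q = fun x => ((1 + Real.cos (2 * Real.pi * x)) / 2) • ngh_Q 0 +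
      ((1 - Real.cos (2 * Real.pi * x)) / 2) • ngh_Q (1 / 2) +
      Real.sin (2 * Real.pi * x) • (ngh_Q (1 / 4) - (1 / 2 : ℝ) • ngh_Q 0 - (1 / 2 : ℝ) • ngh_Q (1 / 2)) := by
    funext x
    have e1 : 2 * Real.pi * (1 / 2) = Real.pi := by ring
    have e2 : 2 * Real.pi * (1 / 4) = Real.pi / 2 := by ring
    ext v i
    simp only [add_apply, smul_apply, sub_apply,
      ngh_Q_apply, e1, e2, mul_zero, Real.cos_zero, Real.sin_zero, Real.cos_pi, Real.sin_pi, Real.cos_pi_div_two,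
      Real.sin_pi_div_two]
    fin_cases i <;> simp <;> ring
  rw [h]
  have hc : ContDiff ℝ ∞ fun x : ℝ => Real.cos (2 * Real.pi * x) := Real.contDiff_cos.comp (by fun_prop)
  have hs : ContDiff ℝ ∞ fun x : ℝ => Real.sin (2 * Real.pi * x) := Real.contDiff_sin.comp (by fun_prop)
  exact ((((contDiff_const.add hc).div_const 2).smul contDiff_const).add
    (((contDiff_const.sub hc).div_const 2).smul contDiff_const)).add (hs.smul contDiff_const)

theorem ngh_Q_zero : ngh_Q 0 = ContinuousLinearMap.id ℝ E3 := by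
  ext v i
  rw [ngh_Q_apply]
  fin_cases i <;> simp

theorem ngh_Q_add (x y : ℝ) : ngh_Q (x + y) = (ngh_Q x).comp (ngh_Q y) := by
  ext v i
  have e : 2 * Real.pi * (x + y) = 2 * Real.pi * x + 2 * Real.pi * y := by ring
  rw [ContinuousLinearMap.comp_apply, ngh_Q_apply, ngh_Q_apply, ngh_Q_apply, e, Real.cos_add, Real.sin_add]
  fin_cases i <;> simp <;> ring

theorem ngh_Q_bij (x : ℝ) : Function.Bijective (ngh_Q x) := by
  refine ngh_bij_of (B := ngh_Q (-x)) ?_ ?_
  · rw [← ngh_Q_add, add_neg_cancel, ngh_Q_zero]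
  · rw [← ngh_Q_add, neg_add_cancel, ngh_Q_zero]

theorem ngh_Q_half (l : ℝ) : (ngh_Q (1 / 2)).comp ((Rt l).comp (ngh_Q (-(1 / 2)))) = Rt (-l) := by
  have e1 : 2 * Real.pi * (1 / 2) = Real.pi := by ring
  have e2 : 2 * Real.pi * (-(1 / 2)) = -Real.pi := by ring
  have e3 : 2 * Real.pi * (-l) = -(2 * Real.pi * l) := by ring
  ext v i
  simp only [ContinuousLinearMap.comp_apply, ngh_Q_apply, Rt_apply, e1, e2, e3, Real.cos_neg, Real.sin_neg,
    Real.cos_pi, Real.sin_pi]
  fin_cases i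
  · simp
  · simp
    ring
  · simp

theorem lh_neg : LH (fun l => Rt (-l)) fun l => Rt l := by
  refine LH.symm ⟨fun s l => (ngh_Q (s / 2)).comp ((Rt l).comp (ngh_Q (-(s / 2)))), ?_, ?_, ?_, ?_, ?_⟩
  · have a1 : ContDiff ℝ ∞ fun q : ℝ × ℝ => ngh_Q (q.1 / 2) := ngh_Q_smooth.comp (contDiff_fst.div_const 2)
    have a2 : ContDiff ℝ ∞ fun q : ℝ × ℝ => ngh_Q (-(q.1 / 2)) := ngh_Q_smooth.comp (contDiff_fst.div_const 2).neg
    have a3 : ContDiff ℝ ∞ fun q : ℝ × ℝ => Rt q.2 := Rt_smooth.comp contDiff_snd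
    exact a1.clm_comp (a3.clm_comp a2)
  · intro s l
    have e : Rt (l + 1) = Rt l := by
      have := Rt_int l 1
      rwa [Int.cast_one] at this
    show (ngh_Q (s / 2)).comp ((Rt (l + 1)).comp (ngh_Q (-(s / 2)))) = _
    rw [e]
  · intro s l
    exact ngh_comp_bij (ngh_Q_bij _) (ngh_comp_bij (Rt_bij _) (ngh_Q_bij _))
  · funext l
    show (ngh_Q (0 / 2)).comp ((Rt l).comp (ngh_Q (-(0 / 2)))) = Rt l
    rw [zero_div, neg_zero, ngh_Q_zero, ContinuousLinearMap.id_comp, ContinuousLinearMap.comp_id]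
  · funext l
    exact ngh_Q_half l

theorem ngh_Rt_lp : Lp fun l => Rt l := by
  have h := RN_lp 1
  have e : RN 1 = fun l => Rt l := by
    funext l
    unfold RN
    rw [Nat.cast_one, one_mul]
  rwa [e] at h

theorem ngh_step (n : ℕ) : LH (RN (n + 2)) (RN n) := by
  have h1 : LH (fun l => (Rt l).comp (Rt l)) fun l => (Rt l).comp (Rt (-l)) :=
    LH.comp (LH.refl ngh_Rt_lp) lh_neg.symm
  have h2 : (fun l => (Rt l).comp (Rt (-l))) = fun _ => ContinuousLinearMap.id ℝ E3 := by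
    funext l
    rw [← Rt_add, add_neg_cancel, Rt_zero]
  rw [h2] at h1
  have h3 := LH.comp (LH.refl (RN_lp n)) h1
  have e1 : (fun l => (RN n l).comp ((Rt l).comp (Rt l))) = RN (n + 2) := by
    funext l
    unfold RN
    rw [← Rt_add, ← Rt_add]
    congr 1
    push_cast
    ring
  have e2 : (fun l => (RN n l).comp (ContinuousLinearMap.id ℝ E3)) = RN n := by
    funext l
    rw [ContinuousLinearMap.comp_id]
  rw [e1, e2] at h3
  exact h3

theorem ngh_steps (n k : ℕ) : LH (RN (n + 2 * k)) (RN n) := by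
  induction k with
  | zero => exact LH.refl (RN_lp n)
  | succ k ih =>
    have h := ngh_step (n + 2 * k)
    exact LH.trans h ih

theorem lh_par {m n : ℕ} (h : m % 2 = n % 2) : LH (RN m) (RN n) := by
  rcases le_total n m with h1 | h1
  · obtain ⟨k, rfl⟩ : ∃ k, m = n + 2 * k := ⟨(m - n) / 2, by omega⟩
    exact ngh_steps n k
  · obtain ⟨k, rfl⟩ : ∃ k, n = m + 2 * k := ⟨(n - m) / 2, by omega⟩
    exact (ngh_steps m k).symm

theorem ngh_sgn {d : Fin 3 → ℝ} (hd : ∀ i, d i = 1 ∨ d i = -1) :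
    (sgnL d).inverse = sgnL d ∧ Function.Bijective (sgnL d) ∧
      ((∀ l, (sgnL d).comp ((Rt l).comp (sgnL d)) = Rt l) ∨ ∀ l, (sgnL d).comp ((Rt l).comp (sgnL d)) = Rt (-l)) := by
  have hsq : ∀ i, d i * d i = 1 := by
    intro i
    rcases hd i with h | h <;> rw [h] <;> norm_num
  have h1 : (sgnL d).comp (sgnL d) = ContinuousLinearMap.id ℝ E3 := by
    ext v i
    rw [ContinuousLinearMap.comp_apply, sgnL_apply, sgnL_apply, ← mul_assoc, hsq, one_mul]
    rfl
  have hb : Function.Bijective (sgnL d) := ngh_bij_of h1 h1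
  refine ⟨?_, hb, ?_⟩
  · have h2 : (sgnL d).inverse.comp ((sgnL d).comp (sgnL d)) = sgnL d := by
      rw [← ContinuousLinearMap.comp_assoc, (ngh_inv hb).1, ContinuousLinearMap.id_comp]
    rw [h1, ContinuousLinearMap.comp_id] at h2
    exact h2
  · have e3 : ∀ l : ℝ, 2 * Real.pi * (-l) = -(2 * Real.pi * l) := fun l => by ring
    have h00 := hsq 0
    have h11 := hsq 1
    have h22 := hsq 2
    rcases hd 1 with h1 | h1 <;> rcases hd 2 with h2 | h2
    · left
      intro l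
      ext v i
      simp only [ContinuousLinearMap.comp_apply, sgnL_apply, Rt_apply]
      fin_cases i
      · simp
        linear_combination v 0 * h00
      · simp [h1, h2]
      · simp [h1, h2]
    · right
      intro l
      ext v i
      simp only [ContinuousLinearMap.comp_apply, sgnL_apply, Rt_apply, e3, Real.cos_neg, Real.sin_neg]
      fin_cases i
      · simp
        linear_combination v 0 * h00
      · simp [h1, h2]
      · simp [h1, h2]
        ring
    · right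
      intro l
      ext v i
      simp only [ContinuousLinearMap.comp_apply, sgnL_apply, Rt_apply, e3, Real.cos_neg, Real.sin_neg]
      fin_cases i
      · simp
        linear_combination v 0 * h00
      · simp [h1, h2]
        ring
      · simp [h1, h2]
    · left
      intro l
      ext v i
      simp only [ContinuousLinearMap.comp_apply, sgnL_apply, Rt_apply]
      fin_cases i
      · simp
        linear_combination v 0 * h00
      · simp [h1, h2]
        ring
      · simp [h1, h2]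
        ring

theorem lh_conj {P : E3 →L[ℝ] E3} (hP : Function.Bijective P) :
    LH (fun l => P.inverse.comp ((Rt l).comp P)) fun l => Rt l := by
  obtain ⟨γ, d, hd, hγ, hb, h0, h1⟩ := gl_path P hP
  obtain ⟨s1, s2, s3⟩ := ngh_sgn hd
  have hinv := frh_inv hγ hb
  have key : LH (fun l => P.inverse.comp ((Rt l).comp P)) fun l => (sgnL d).inverse.comp ((Rt l).comp (sgnL d)) := by
    refine ⟨fun s l => (γ s).inverse.comp ((Rt l).comp (γ s)), ?_, ?_, ?_, ?_, ?_⟩
    · have a1 : ContDiff ℝ ∞ fun q : ℝ × ℝ => (γ q.1).inverse := hinv.comp contDiff_fst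
      have a2 : ContDiff ℝ ∞ fun q : ℝ × ℝ => γ q.1 := hγ.comp contDiff_fst
      have a3 : ContDiff ℝ ∞ fun q : ℝ × ℝ => Rt q.2 := Rt_smooth.comp contDiff_snd
      exact a1.clm_comp (a3.clm_comp a2)
    · intro s l
      show (γ s).inverse.comp ((Rt (l + 1)).comp (γ s)) = _
      rw [ngh_Rt_lp.per l]
    · intro s l
      exact ngh_comp_bij (ngh_inv (hb s)).2.2 (ngh_comp_bij (Rt_bij _) (hb s))
    · funext l
      show (γ 0).inverse.comp ((Rt l).comp (γ 0)) = _
      rw [h0]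
    · funext l
      show (γ 1).inverse.comp ((Rt l).comp (γ 1)) = _
      rw [h1]
  rw [s1] at key
  rcases s3 with s3 | s3
  · simp only [s3] at key
    exact key
  · simp only [s3] at key
    exact key.trans lh_neg

theorem lh_conj' {P : E3 →L[ℝ] E3} (hP : Function.Bijective P) {φ : ℝ → ℝ} (h : ContDiff ℝ ∞ φ) {m : ℤ}
    (hm : ∀ l, φ (l + 1) = φ l + m) (h1 : m = 1 ∨ m = -1) :
    LH (fun l => P.inverse.comp ((Rt (φ l)).comp P)) (RN 1) := by
  have e : RN 1 = fun l => Rt l := by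
    funext l
    unfold RN
    rw [Nat.cast_one, one_mul]
  have hturn : LH (fun l => Rt (φ l)) fun l => Rt l := by
    have h2 : LH (fun l => Rt (φ l)) fun l => Rt (m * l) :=
      lh_turn h (contDiff_const.mul contDiff_id) hm (fun l => by ring)
    rcases h1 with rfl | rfl
    · simp only [Int.cast_one, one_mul] at h2
      exact h2
    · simp only [Int.cast_neg, Int.cast_one, neg_mul, one_mul] at h2
      exact h2.trans lh_neg
  have hPc : Lp fun _ => P := ⟨contDiff_const, fun _ => rfl, fun _ => hP⟩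
  have hPi : Lp fun _ => P.inverse := ⟨contDiff_const, fun _ => rfl, fun _ => (ngh_inv hP).2.2⟩
  rw [e]
  exact (LH.comp (LH.refl hPi) (LH.comp hturn (LH.refl hPc))).trans (lh_conj hP)

end Pool.Agent.MMV
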