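import Pool.Agent.MMV.NGs

/-!
# MMV/NGj: a loop of matrices which makes one conjugated turn in each of several intervals   (block VI, squad G)

`b = 3/32`; the intervals `|l - α| < b ν` of the crossings of `L` are disjoint, in `(0, 1)`; in them `M l = A l ⁻¹ ∘ Rt (stp (e (l - α) / ν)) ∘ A l ∘ RN m l`, and `M l = RN m l` off the intervals `|l - α| ≤ ν / 16` (`l ∈ [0, 1]`).  Then `M ~ RN (m + |L|)`.

PROOF.  Reduction to `m = 0`: `M' l = M l ∘ Rt (-(m l))`.  Induction on `L`: `M = M₁ ∘ M'`, `M₁` is the periodic extension of the turn of the first crossing, `M' = M₁⁻¹ ∘ M`.  `M₁ ~ RN 1`: contract the argument of `A` to the centre `α`,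
then `M₁` becomes `P⁻¹ ∘ Rt (φ l) ∘ P`, `P = A α` (`lh_conj'`).
-/

open scoped ContDiff Manifold Topology unitInterval
open Set Filter
open Pool.Agent.ACB

namespace Pool.Agent.MMV

theorem ngj_round {x : ℝ} {n : ℤ} (h : |x - n| < 1 / 2) : round x = n := by
  rw [round_eq, Int.floor_eq_iff]
  have h1 := abs_lt.1 h
  constructor <;> linarith [h1.1, h1.2]

theorem ngj_cont : Continuous fun x : ℝ => |x - round x| := by
  have h : (fun x : ℝ => |x - round x|) = fun x : ℝ => |x - round x| := rfl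
  rw [continuous_iff_continuousAt]
  intro x₀
  have hlip : ∀ x y : ℝ, |x - round x| ≤ |y - round y| + |x - y| := by
    intro x y
    have h1 : |x - round x| ≤ |x - round y| := round_le x (round y)
    have h2 : |x - round y| ≤ |y - round y| + |x - y| := by
      have e : x - round y = (y - round y) + (x - y) := by ring
      rw [e]
      exact abs_add_le _ _
    exact h1.trans h2
  rw [Metric.continuousAt_iff]
  intro ε hε
  refine ⟨ε, hε, fun {y} hy => ?_⟩
  rw [Real.dist_eq] at hy ⊢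
  have h1 := hlip y x₀
  have h2 := hlip x₀ y
  rw [abs_sub_comm x₀ y] at h2
  rw [abs_lt]
  constructor <;> linarith

section
variable {G : Type*} [NormedAddCommGroup G] [NormedSpace ℝ G]

/-- periodic extension -/
theorem ngj_per {F : ℝ × ℝ → G} (hF : ContDiff ℝ ∞ F) {α c : ℝ} (hc : c < 1 / 2) {k : G}
    (h : ∀ s l, c ≤ |l - α| → F (s, l) = k) : ContDiff ℝ ∞ fun q : ℝ × ℝ => F (q.1, q.2 - round (q.2 - α)) := by
  rw [contDiff_iff_contDiffAt]
  rintro ⟨s₀, l₀⟩
  rcases lt_or_ge |l₀ - α - round (l₀ - α)| (1 / 2) with h1 | h1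
  · have e1 : ContDiffAt ℝ ∞ (fun q : ℝ × ℝ => F (q.1, q.2 - (round (l₀ - α) : ℤ))) (s₀, l₀) :=
      (hF.comp (contDiff_fst.prodMk (contDiff_snd.sub contDiff_const))).contDiffAt
    refine e1.congr_of_eventuallyEq ?_
    have hc1 : ContinuousAt (fun q : ℝ × ℝ => |q.2 - α - (round (l₀ - α) : ℤ)|) (s₀, l₀) := by fun_prop
    filter_upwards [hc1.eventually (gt_mem_nhds h1)] with q hq
    rw [ngj_round hq]
  · refine (contDiffAt_const (c := k)).congr_of_eventuallyEq ?_
    have hc1 : ContinuousAt (fun q : ℝ × ℝ => |q.2 - α - (round (q.2 - α) : ℤ)|) (s₀, l₀) :=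
      (ngj_cont.comp (continuous_snd.sub continuous_const)).continuousAt
    filter_upwards [hc1.eventually (lt_mem_nhds (lt_of_lt_of_le hc h1))] with q hq
    refine h _ _ (le_of_lt ?_)
    rw [show q.2 - (round (q.2 - α) : ℝ) - α = q.2 - α - round (q.2 - α) by ring]
    exact hq

end

theorem ngj_stp {z : ℝ} (h1 : 1 / 16 ≤ |z|) (h2 : |z| < 1 / 2) : Rt (stp z) = ContinuousLinearMap.id ℝ E3 := by
  obtain ⟨k, hk⟩ := stp_int (l := z) fun n => by
    by_cases hn : n = 0
    · rw [hn, Int.cast_zero, sub_zero]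
      exact h1
    · have h3 : (1 : ℝ) ≤ |(n : ℝ)| := by
        have := Int.one_le_abs hn
        exact_mod_cast this
      have h4 : |(n : ℝ)| ≤ |z - n| + |z| := by
        have e : (n : ℝ) = -(z - n) + z := by ring
        calc |(n : ℝ)| = |-(z - n) + z| := by rw [← e]
          _ ≤ |-(z - n)| + |z| := abs_add_le _ _
          _ = |z - n| + |z| := by rw [abs_neg]
      linarith
  rw [hk, ← zero_add (k : ℝ), Rt_int, Rt_zero]

theorem ngj_conj_id {P : E3 →L[ℝ] E3} (hP : Function.Bijective P) :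
    P.inverse.comp ((ContinuousLinearMap.id ℝ E3).comp P) = ContinuousLinearMap.id ℝ E3 := by
  ext v : 1
  exact frh_left hP v

theorem ngj_inv_bij {P : E3 →L[ℝ] E3} (hP : Function.Bijective P) : Function.Bijective P.inverse := by
  constructor
  · intro v w h
    obtain ⟨v', rfl⟩ := hP.2 v
    obtain ⟨w', rfl⟩ := hP.2 w
    rw [frh_left hP, frh_left hP] at h
    rw [h]
  · intro v
    exact ⟨P v, frh_left hP v⟩

theorem ngj_conj_bij {P : E3 →L[ℝ] E3} (hP : Function.Bijective P) (x : ℝ) :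
    Function.Bijective (P.inverse.comp ((Rt x).comp P)) := by
  show Function.Bijective (P.inverse ∘ (Rt x ∘ P))
  exact (ngj_inv_bij hP).comp ((Rt_bij x).comp hP)

/-- the turn, with the argument of `A` contracted -/
noncomputable def ngj_T (A : ℝ → E3 →L[ℝ] E3) (α ν e : ℝ) (q : ℝ × ℝ) : E3 →L[ℝ] E3 :=
  if |q.2 - α| < 3 / 32 * ν then
    (A (α + (1 - Real.smoothTransition q.1) * (q.2 - α))).inverse.comp ((Rt (stp (e * ((q.2 - α) / ν)))).comp
      (A (α + (1 - Real.smoothTransition q.1) * (q.2 - α))))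
  else ContinuousLinearMap.id ℝ E3

section
variable {A : ℝ → E3 →L[ℝ] E3} {α ν e : ℝ}

theorem ngj_in (hν : 0 < ν) {s l : ℝ} (h : |l - α| < 3 / 32 * ν) :
    |α + (1 - Real.smoothTransition s) * (l - α) - α| < 3 / 32 * ν := by
  have h1 := Real.smoothTransition.nonneg s
  have h2 := Real.smoothTransition.le_one s
  rw [add_sub_cancel_left, abs_mul, abs_of_nonneg (by linarith)]
  nlinarith [abs_nonneg (l - α)]

theorem ngj_ez (hν : 0 < ν) (he : e = 1 ∨ e = -1) (z : ℝ) : |e * (z / ν)| = |z| / ν := by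
  rw [abs_mul, abs_div, abs_of_pos hν]
  rcases he with rfl | rfl
  · rw [abs_one, one_mul]
  · rw [abs_neg, abs_one, one_mul]

theorem ngj_T_id (hν : 0 < ν) (he : e = 1 ∨ e = -1)
    (hA : ∀ l, |l - α| < 3 / 32 * ν → ContDiffAt ℝ ∞ A l ∧ Function.Bijective (A l)) {q : ℝ × ℝ}
    (hq : 1 / 16 * ν ≤ |q.2 - α|) : ngj_T A α ν e q = ContinuousLinearMap.id ℝ E3 := by
  unfold ngj_T
  split_ifs with h
  · rw [ngj_stp, ngj_conj_id (hA _ (ngj_in hν h)).2]
    · rw [ngj_ez hν he, le_div_iff₀ hν]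
      exact hq
    · rw [ngj_ez hν he, div_lt_iff₀ hν]
      linarith
  · rfl

theorem ngj_T_bij (hν : 0 < ν)
    (hA : ∀ l, |l - α| < 3 / 32 * ν → ContDiffAt ℝ ∞ A l ∧ Function.Bijective (A l)) (q : ℝ × ℝ) :
    Function.Bijective (ngj_T A α ν e q) := by
  unfold ngj_T
  split_ifs with h
  · exact ngj_conj_bij (hA _ (ngj_in hν h)).2 _
  · exact Function.bijective_id

theorem ngj_inv_at {X : Type*} [NormedAddCommGroup X] [NormedSpace ℝ X] {F : X → E3 →L[ℝ] E3} {x : X}
    (hF : ContDiffAt ℝ ∞ F x) (hb : Function.Bijective (F x)) : ContDiffAt ℝ ∞ (fun y => (F y).inverse) x := by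
  let e : E3 ≃L[ℝ] E3 := (LinearEquiv.ofBijective (F x : E3 →ₗ[ℝ] E3) hb).toContinuousLinearEquiv
  have he : (e : E3 →L[ℝ] E3) = F x := by
    ext v
    rfl
  have h1 : ContDiffAt ℝ ∞ (ContinuousLinearMap.inverse : (E3 →L[ℝ] E3) → E3 →L[ℝ] E3) (F x) := by
    rw [← he]
    exact contDiffAt_map_inverse e
  exact ContDiffAt.comp x h1 hF

theorem ngj_T_smooth (hν : 0 < ν) (he : e = 1 ∨ e = -1)
    (hA : ∀ l, |l - α| < 3 / 32 * ν → ContDiffAt ℝ ∞ A l ∧ Function.Bijective (A l)) :
    ContDiff ℝ ∞ (ngj_T A α ν e) := by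
  rw [contDiff_iff_contDiffAt]
  rintro ⟨s₀, l₀⟩
  rcases lt_or_ge |l₀ - α| (3 / 32 * ν) with h | h
  · have hg : ContDiff ℝ ∞ fun q : ℝ × ℝ => α + (1 - Real.smoothTransition q.1) * (q.2 - α) :=
      contDiff_const.add ((contDiff_const.sub (Real.smoothTransition.contDiff.comp contDiff_fst)).mul
        (contDiff_snd.sub contDiff_const))
    obtain ⟨hA1, hA2⟩ := hA _ (ngj_in (s := s₀) hν h)
    have e1 : ContDiffAt ℝ ∞ (fun q : ℝ × ℝ => A (α + (1 - Real.smoothTransition q.1) * (q.2 - α))) (s₀, l₀) :=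
      ContDiffAt.comp (g := A) (f := fun q : ℝ × ℝ => α + (1 - Real.smoothTransition q.1) * (q.2 - α)) (s₀, l₀) hA1
        hg.contDiffAt
    have e2 := ngj_inv_at e1 hA2
    have e3 : ContDiff ℝ ∞ fun q : ℝ × ℝ => Rt (stp (e * ((q.2 - α) / ν))) :=
      Rt_smooth.comp (stp_smooth.comp (contDiff_const.mul ((contDiff_snd.sub contDiff_const).div_const _)))
    have e4 := e2.clm_comp (e3.contDiffAt.clm_comp e1)
    refine e4.congr_of_eventuallyEq ?_
    have hc1 : ContinuousAt (fun q : ℝ × ℝ => |q.2 - α|) (s₀, l₀) := by fun_prop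
    filter_upwards [hc1.eventually (gt_mem_nhds h)] with q hq
    exact if_pos hq
  · refine (contDiffAt_const (c := ContinuousLinearMap.id ℝ E3)).congr_of_eventuallyEq ?_
    have hc1 : ContinuousAt (fun q : ℝ × ℝ => |q.2 - α|) (s₀, l₀) := by fun_prop
    have h2 : 1 / 16 * ν < |l₀ - α| := by linarith
    filter_upwards [hc1.eventually (lt_mem_nhds h2)] with q hq
    exact ngj_T_id hν he hA (le_of_lt hq)

/-- the angle -/
noncomputable def ngj_phi (α ν e l : ℝ) : ℝ :=
  e * (round (l - α) + Real.smoothTransition (8 * ((l - α - round (l - α)) / ν) + 1 / 2))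

theorem ngj_phi_one (α ν e l : ℝ) : ngj_phi α ν e (l + 1) = ngj_phi α ν e l + e := by
  unfold ngj_phi
  rw [show l + 1 - α = l - α + 1 by ring, round_add_one]
  push_cast
  rw [show l - α + 1 - ((round (l - α) : ℝ) + 1) = l - α - round (l - α) by ring]
  ring

theorem ngj_tr_hi {ν z : ℝ} (hν : 0 < ν) (h : 1 / 16 * ν ≤ z) : Real.smoothTransition (8 * (z / ν) + 1 / 2) = 1 := by
  apply Real.smoothTransition.one_of_one_le
  have : 1 / 16 ≤ z / ν := by
    rw [le_div_iff₀ hν]
    exact h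
  linarith

theorem ngj_tr_lo {ν z : ℝ} (hν : 0 < ν) (h : z ≤ -(1 / 16 * ν)) : Real.smoothTransition (8 * (z / ν) + 1 / 2) = 0 := by
  apply Real.smoothTransition.zero_of_nonpos
  have : z / ν ≤ -(1 / 16) := by
    rw [div_le_iff₀ hν]
    linarith
  linarith

theorem ngj_phi_smooth (hν : 0 < ν) (hν1 : 1 / 16 * ν < 1 / 2) : ContDiff ℝ ∞ (ngj_phi α ν e) := by
  rw [contDiff_iff_contDiffAt]
  intro l₀
  rcases lt_or_ge |l₀ - α - round (l₀ - α)| (1 / 2) with h1 | h1
  · have e1 : ContDiffAt ℝ ∞ (fun l : ℝ => e * (((round (l₀ - α) : ℤ) : ℝ) +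
        Real.smoothTransition (8 * ((l - α - (round (l₀ - α) : ℤ)) / ν) + 1 / 2))) l₀ := by
      refine (contDiff_const.mul (contDiff_const.add (Real.smoothTransition.contDiff.comp ?_))).contDiffAt
      fun_prop
    refine e1.congr_of_eventuallyEq ?_
    have hc1 : ContinuousAt (fun l : ℝ => |l - α - (round (l₀ - α) : ℤ)|) l₀ := by fun_prop
    filter_upwards [hc1.eventually (gt_mem_nhds h1)] with l hl
    unfold ngj_phi
    rw [ngj_round hl]
  · -- near a half integer
    obtain ⟨k, hk⟩ : ∃ k : ℤ, l₀ - α = k + 1 / 2 := by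
      have h2 : |l₀ - α - round (l₀ - α)| ≤ 1 / 2 := abs_sub_round _
      have h3 : |l₀ - α - round (l₀ - α)| = 1 / 2 := le_antisymm h2 h1
      rcases (abs_eq (by norm_num : (0 : ℝ) ≤ 1 / 2)).1 h3 with h4 | h4
      · exact ⟨round (l₀ - α), by linarith⟩
      · refine ⟨round (l₀ - α) - 1, ?_⟩
        push_cast
        linarith
    refine (contDiffAt_const (c := e * ((k : ℝ) + 1))).congr_of_eventuallyEq ?_
    have hc1 : ContinuousAt (fun l : ℝ => |l - α - (k + 1 / 2)|) l₀ := by fun_prop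
    have h5 : |l₀ - α - (k + 1 / 2)| < 1 / 2 - 1 / 16 * ν := by
      rw [hk, sub_self, abs_zero]
      linarith
    filter_upwards [hc1.eventually (gt_mem_nhds h5)] with l hl
    have h6 := abs_lt.1 hl
    unfold ngj_phi
    congr 1
    rcases lt_or_ge (l - α) (k + 1 / 2) with h7 | h7
    · have e1 : round (l - α) = k := ngj_round (by rw [abs_lt]; constructor <;> linarith [h6.1, h6.2])
      rw [e1, ngj_tr_hi hν (by linarith [h6.1])]
    · have e1 : round (l - α) = k + 1 := by
        rw [round_eq, Int.floor_eq_iff]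
        push_cast
        constructor <;> linarith [h6.1, h6.2]
      rw [e1, ngj_tr_lo hν (by push_cast; linarith [h6.2])]
      push_cast
      ring

theorem ngj_tr_neg (x : ℝ) : Real.smoothTransition (8 * (-x) + 1 / 2) = 1 - Real.smoothTransition (8 * x + 1 / 2) := by
  have h := Real.smoothTransition.pos_denom (8 * x + 1 / 2)
  unfold Real.smoothTransition
  rw [show (8 * -x + 1 / 2 : ℝ) = 1 - (8 * x + 1 / 2) by ring, sub_sub_cancel]
  rw [eq_sub_iff_add_eq, add_comm (expNegInvGlue (1 - (8 * x + 1 / 2))), ← add_div]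
  rw [add_comm (expNegInvGlue (1 - (8 * x + 1 / 2)))]
  exact div_self h.ne'

theorem ngj_stp_eq {z : ℝ} (h : |z| < 3 / 32) : stp z = Real.smoothTransition (8 * z + 1 / 2) := by
  have h1 := abs_lt.1 h
  have h2 : ⌊z + 1 / 2⌋ = 0 := by
    rw [Int.floor_eq_iff]
    push_cast
    constructor <;> linarith [h1.1, h1.2]
  unfold stp
  rw [h2]
  push_cast
  rw [sub_zero, zero_add]

/-- in the interval the angle is the angle of the turn modulo integers -/
theorem ngj_phi_in (hν : 0 < ν) (he : e = 1 ∨ e = -1) {l : ℝ} (h : |l - α - round (l - α)| < 3 / 32 * ν) :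
    Rt (ngj_phi α ν e l) = Rt (stp (e * ((l - α - round (l - α)) / ν))) := by
  set z := (l - α - round (l - α)) / ν with hz
  have hz1 : |z| < 3 / 32 := by
    rw [hz, abs_div, abs_of_pos hν, div_lt_iff₀ hν]
    exact h
  unfold ngj_phi
  rw [← hz]
  rcases he with rfl | rfl
  · rw [one_mul, one_mul, ngj_stp_eq hz1, add_comm, Rt_int]
  · rw [neg_one_mul, neg_one_mul, ngj_stp_eq (by rwa [abs_neg]), ngj_tr_neg]
    have e1 : -((round (l - α) : ℝ) + Real.smoothTransition (8 * z + 1 / 2)) =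
        1 - Real.smoothTransition (8 * z + 1 / 2) + ((-round (l - α) - 1 : ℤ) : ℝ) := by
      push_cast
      ring
    rw [e1, Rt_int]

theorem ngj_phi_out (hν : 0 < ν) (he : e = 1 ∨ e = -1) {l : ℝ} (h : 1 / 16 * ν ≤ |l - α - round (l - α)|) :
    Rt (ngj_phi α ν e l) = ContinuousLinearMap.id ℝ E3 := by
  have key : ∃ k : ℤ, ngj_phi α ν e l = 0 + (k : ℝ) := by
    unfold ngj_phi
    have h3 : ∃ k : ℤ, (round (l - α) : ℝ) + Real.smoothTransition (8 * ((l - α - round (l - α)) / ν) + 1 / 2) = k := by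
      rcases le_abs'.1 h with h1 | h1
      · exact ⟨round (l - α), by rw [ngj_tr_lo hν h1, add_zero]⟩
      · exact ⟨round (l - α) + 1, by rw [ngj_tr_hi hν h1]; push_cast; ring⟩
    obtain ⟨k, hk⟩ := h3
    rw [hk]
    rcases he with rfl | rfl
    · exact ⟨k, by ring⟩
    · exact ⟨-k, by push_cast; ring⟩
  obtain ⟨k, hk⟩ := key
  rw [hk, Rt_int, Rt_zero]

/-- the periodic extension of the turn -/
noncomputable def ngj_M (A : ℝ → E3 →L[ℝ] E3) (α ν e : ℝ) (l : ℝ) : E3 →L[ℝ] E3 :=
  ngj_T A α ν e (0, l - round (l - α))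

theorem ngj_M_lh (hν : 0 < ν) (hν1 : 3 / 32 * ν < 1 / 2) (he : e = 1 ∨ e = -1)
    (hA : ∀ l, |l - α| < 3 / 32 * ν → ContDiffAt ℝ ∞ A l ∧ Function.Bijective (A l)) :
    LH (ngj_M A α ν e) (RN 1) := by
  have hbα : Function.Bijective (A α) := (hA α (by rw [sub_self, abs_zero]; positivity)).2
  have h1 : LH (ngj_M A α ν e) (fun l => (A α).inverse.comp ((Rt (ngj_phi α ν e l)).comp (A α))) := by
    refine ⟨fun s l => ngj_T A α ν e (s, l - round (l - α)), ?_, ?_, ?_, ?_, ?_⟩
    · exact ngj_per (ngj_T_smooth hν he hA) (c := 1 / 16 * ν) (by linarith) fun s l hl => ngj_T_id hν he hA hl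
    · intro s l
      show ngj_T A α ν e (s, l + 1 - round (l + 1 - α)) = ngj_T A α ν e (s, l - round (l - α))
      rw [show l + 1 - α = l - α + 1 by ring, round_add_one]
      push_cast
      rw [show l + 1 - ((round (l - α) : ℝ) + 1) = l - round (l - α) by ring]
    · intro s l
      exact ngj_T_bij hν hA _
    · rfl
    · funext l
      show ngj_T A α ν e (1, l - round (l - α)) = _
      have e0 : l - (round (l - α) : ℝ) - α = l - α - round (l - α) := by ring
      rcases lt_or_ge |l - α - round (l - α)| (3 / 32 * ν) with h | h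
      · unfold ngj_T
        rw [if_pos (by show |l - (round (l - α) : ℝ) - α| < _; rw [e0]; exact h)]
        have e1 : α + (1 - Real.smoothTransition ((1 : ℝ), l - (round (l - α) : ℝ)).1) *
            (((1 : ℝ), l - (round (l - α) : ℝ)).2 - α) = α := by
          show α + (1 - Real.smoothTransition 1) * _ = α
          rw [Real.smoothTransition.one, sub_self, zero_mul, add_zero]
        rw [e1]
        show (A α).inverse.comp ((Rt (stp (e * ((l - (round (l - α) : ℝ) - α) / ν)))).comp (A α)) = _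
        rw [e0, ngj_phi_in hν he h]
      · rw [ngj_T_id hν he hA (by show _ ≤ |l - (round (l - α) : ℝ) - α|; rw [e0]; linarith),
          ngj_phi_out hν he (by linarith), ngj_conj_id hbα]
  refine h1.trans ?_
  rcases he with rfl | rfl
  · exact lh_conj' hbα (ngj_phi_smooth hν (by linarith)) (m := 1) (fun l => by
      rw [ngj_phi_one]
      push_cast
      ring) (Or.inl rfl)
  · exact lh_conj' hbα (ngj_phi_smooth hν (by linarith)) (m := -1) (fun l => by
      rw [ngj_phi_one]
      push_cast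
      ring) (Or.inr rfl)

end

/-- the case `m = 0` -/
theorem ngj_main (L : List Xing) : ∀ {M : ℝ → E3 →L[ℝ] E3}, Lp M →
    (∀ x ∈ L, 0 < x.ν ∧ (x.e = 1 ∨ x.e = -1) ∧ 0 < x.α - 3 / 32 * x.ν ∧ x.α + 3 / 32 * x.ν < 1) →
    (L.Pairwise fun x y => x.α + 3 / 32 * x.ν < y.α - 3 / 32 * y.ν) →
    (∀ x ∈ L, ∃ A : ℝ → E3 →L[ℝ] E3, ∀ l, |l - x.α| < 3 / 32 * x.ν → ContDiffAt ℝ ∞ A l ∧
      Function.Bijective (A l) ∧ M l = (A l).inverse.comp ((Rt (stp (x.e * ((l - x.α) / x.ν)))).comp (A l))) →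
    (∀ l ∈ Icc (0 : ℝ) 1, (∀ x ∈ L, 1 / 16 * x.ν < |l - x.α|) → M l = ContinuousLinearMap.id ℝ E3) →
    LH M (RN L.length) := by
  induction L with
  | nil =>
    intro M hM _ _ _ hout
    have e : M = RN 0 := by
      funext l
      have h1 : M l = M (Int.fract l) := by
        have hp : Function.Periodic M 1 := hM.per
        have h2 := hp.int_mul ⌊l⌋ (Int.fract l)
        rw [mul_one, Int.fract_add_floor] at h2
        exact h2
      rw [h1, hout _ ⟨Int.fract_nonneg l, (Int.fract_lt_one l).le⟩ (fun x hx => absurd hx List.not_mem_nil)]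
      unfold RN
      rw [Nat.cast_zero, zero_mul, Rt_zero]
    rw [e]
    exact LH.refl (RN_lp 0)
  | cons x L ih =>
    intro M hM hpos hord hin hout
    obtain ⟨hx1, hx2, hx3, hx4⟩ := hpos x List.mem_cons_self
    rw [List.pairwise_cons] at hord
    obtain ⟨A, hA⟩ := hin x List.mem_cons_self
    have hA' : ∀ l, |l - x.α| < 3 / 32 * x.ν → ContDiffAt ℝ ∞ A l ∧ Function.Bijective (A l) :=
      fun l hl => ⟨(hA l hl).1, (hA l hl).2.1⟩
    have hν1 : 3 / 32 * x.ν < 1 / 2 := by linarith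
    have hLH1 := ngj_M_lh hx1 hν1 hx2 hA'
    have hLp1 := hLH1.lp.1
    set M₁ := ngj_M A x.α x.ν x.e with hM₁
    -- values of `M₁` on `[0, 1]`
    have v1 : ∀ l, |l - x.α| < 3 / 32 * x.ν → M₁ l = M l := by
      intro l hl
      have e1 : round (l - x.α) = 0 := ngj_round (by rw [Int.cast_zero, sub_zero]; linarith)
      rw [(hA l hl).2.2, hM₁]
      unfold ngj_M ngj_T
      rw [e1, Int.cast_zero, sub_zero, if_pos hl]
      have e2 : x.α + (1 - Real.smoothTransition ((0 : ℝ), l).1) * (((0 : ℝ), l).2 - x.α) = l := by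
        show x.α + (1 - Real.smoothTransition 0) * (l - x.α) = l
        rw [Real.smoothTransition.zero]
        ring
      rw [e2]
    have v2 : ∀ l ∈ Icc (0 : ℝ) 1, 1 / 16 * x.ν ≤ |l - x.α| → M₁ l = ContinuousLinearMap.id ℝ E3 := by
      intro l hl h
      rw [hM₁]
      unfold ngj_M
      refine ngj_T_id hx1 hx2 hA' ?_
      show 1 / 16 * x.ν ≤ |l - (round (l - x.α) : ℝ) - x.α|
      -- `round (l - α)` is `0`, `1` or `-1`
      by_cases h0 : round (l - x.α) = 0
      · rw [h0, Int.cast_zero, sub_zero]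
        exact h
      · by_contra hcon
        have hcon := abs_lt.1 (not_le.1 hcon)
        set n := round (l - x.α) with hn
        have h5 : (n : ℝ) < 1 := by linarith [hl.2, hcon.1]
        have h6 : (-1 : ℝ) < n := by linarith [hl.1, hcon.2]
        have h7 : n < 1 := by exact_mod_cast h5
        have h8 : -1 < n := by exact_mod_cast h6
        exact h0 (by omega)
    -- the rest
    have hLp' : Lp fun l => (M₁ l).inverse.comp (M l) := by
      refine ⟨(frh_inv hLp1.sm hLp1.bij).clm_comp hM.sm, fun l => ?_, fun l => ?_⟩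
      · show (M₁ (l + 1)).inverse.comp (M (l + 1)) = (M₁ l).inverse.comp (M l)
        rw [hLp1.per, hM.per]
      · show Function.Bijective ((M₁ l).inverse ∘ M l)
        exact (ngj_inv_bij (hLp1.bij l)).comp (hM.bij l)
    have hinv_id : (ContinuousLinearMap.id ℝ E3).inverse = ContinuousLinearMap.id ℝ E3 :=
      ContinuousLinearMap.inverse_id
    have h2 := ih hLp' (fun y hy => hpos y (List.mem_cons_of_mem _ hy)) hord.2 (by
      intro y hy
      obtain ⟨B, hB⟩ := hin y (List.mem_cons_of_mem _ hy)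
      refine ⟨B, fun l hl => ⟨(hB l hl).1, (hB l hl).2.1, ?_⟩⟩
      obtain ⟨hy1, hy2, hy3, hy4⟩ := hpos y (List.mem_cons_of_mem _ hy)
      have h3 := hord.1 y hy
      have h4 := abs_lt.1 hl
      have e1 : M₁ l = ContinuousLinearMap.id ℝ E3 := by
        refine v2 l ⟨by linarith [h4.1], by linarith [h4.2]⟩ ?_
        rw [le_abs]
        left
        linarith [h4.1]
      show (M₁ l).inverse.comp (M l) = _
      rw [e1, hinv_id, ContinuousLinearMap.id_comp, (hB l hl).2.2]) (by
      intro l hl h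
      show (M₁ l).inverse.comp (M l) = _
      rcases lt_or_ge |l - x.α| (3 / 32 * x.ν) with h3 | h3
      · rw [v1 l h3]
        ext v : 1
        exact frh_left (hM.bij l) v
      · rw [v2 l hl (by linarith), hinv_id, ContinuousLinearMap.id_comp]
        refine hout l hl ?_
        intro y hy
        rcases List.mem_cons.1 hy with rfl | hy
        · linarith
        · exact h y hy)
    have h3 := hLH1.comp h2
    have e1 : (fun l => (M₁ l).comp ((M₁ l).inverse.comp (M l))) = M := by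
      funext l
      ext v : 1
      exact frh_right (hLp1.bij l) (M l v)
    have e2 : (fun l => (RN 1 l).comp (RN L.length l)) = RN (x :: L).length := by
      funext l
      unfold RN
      rw [← Rt_add, List.length_cons]
      congr 1
      push_cast
      ring
    rw [e1, e2] at h3
    exact h3

theorem lh_xings {M : ℝ → E3 →L[ℝ] E3} (hM : Lp M) {m : ℕ} (L : List Xing)
    (hpos : ∀ x ∈ L, 0 < x.ν ∧ (x.e = 1 ∨ x.e = -1) ∧ 0 < x.α - 3 / 32 * x.ν ∧ x.α + 3 / 32 * x.ν < 1)
    (hord : L.Pairwise fun x y => x.α + 3 / 32 * x.ν < y.α - 3 / 32 * y.ν)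
    (hin : ∀ x ∈ L, ∃ A : ℝ → E3 →L[ℝ] E3, ∀ l, |l - x.α| < 3 / 32 * x.ν → ContDiffAt ℝ ∞ A l ∧
      Function.Bijective (A l) ∧
      M l = (A l).inverse.comp ((Rt (stp (x.e * ((l - x.α) / x.ν)))).comp ((A l).comp (RN m l))))
    (hout : ∀ l ∈ Icc (0 : ℝ) 1, (∀ x ∈ L, 1 / 16 * x.ν < |l - x.α|) → M l = RN m l) :
    LH M (RN (m + L.length)) := by
  have hcan : ∀ l, (RN m l).comp (Rt (-(m * l))) = ContinuousLinearMap.id ℝ E3 := by
    intro l
    unfold RN
    rw [← Rt_add, add_neg_cancel, Rt_zero]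
  have hcan' : ∀ l, (Rt (-(m * l))).comp (RN m l) = ContinuousLinearMap.id ℝ E3 := by
    intro l
    unfold RN
    rw [← Rt_add, neg_add_cancel, Rt_zero]
  have hLp : Lp fun l => (M l).comp (Rt (-(m * l))) := by
    refine ⟨hM.sm.clm_comp (Rt_smooth.comp (contDiff_const.mul contDiff_id).neg), fun l => ?_, fun l => ?_⟩
    · show (M (l + 1)).comp (Rt (-(m * (l + 1)))) = (M l).comp (Rt (-(m * l)))
      have e : -((m : ℝ) * (l + 1)) = -(m * l) + ((-(m : ℤ) : ℤ) : ℝ) := by
        push_cast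
        ring
      rw [hM.per, e, Rt_int]
    · show Function.Bijective (M l ∘ Rt (-(m * l)))
      exact (hM.bij l).comp (Rt_bij _)
  have h1 := ngj_main L hLp hpos hord (by
    intro x hx
    obtain ⟨A, hA⟩ := hin x hx
    refine ⟨A, fun l hl => ⟨(hA l hl).1, (hA l hl).2.1, ?_⟩⟩
    show (M l).comp (Rt (-(m * l))) = _
    rw [(hA l hl).2.2, ContinuousLinearMap.comp_assoc, ContinuousLinearMap.comp_assoc, ContinuousLinearMap.comp_assoc,
      hcan, ContinuousLinearMap.comp_id]) (by
    intro l hl h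
    show (M l).comp (Rt (-(m * l))) = _
    rw [hout l hl h, hcan])
  have h2 := h1.comp (LH.refl (RN_lp m))
  have e1 : (fun l => ((M l).comp (Rt (-(m * l)))).comp (RN m l)) = M := by
    funext l
    rw [ContinuousLinearMap.comp_assoc, hcan', ContinuousLinearMap.comp_id]
  have e2 : (fun l => (RN L.length l).comp (RN m l)) = RN (m + L.length) := by
    funext l
    unfold RN
    rw [← Rt_add]
    congr 1
    push_cast
    ring
  rw [e1, e2] at h2
  exact h2

end Pool.Agent.MMV
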