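import Pool.Agent.MMV.NGj
import Pool.Agent.ACB.Lin
import Pool.Agent.ACB.CmT

/-!
# MMV/NGk: the effect of the rotation of a neck on the framing of a standard circle   (block VI, squad G)

`κ` is a thick circle with the core `c`, `Pat D c L (3/32) (1/16)`, `F` the rotation of the neck `i` (`NGt.twist`).  If `κ (g (l, v)) = F (κ (l, RN m l v))` near the core then `lin_M g ~ RN (m + number of crossings of the neck i)`.

PROOF.  `lh_xings` for `M = lin_M g` and the list `L.filter (·.i = i)` (`List.countP_eq_length_filter`; sublists keep `Pairwise`, `List.Pairwise.filter`).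
OUT.  Let `l ∈ [0, 1]`, `|l - α| > ν / 16` for all the crossings with `x.i = i`.  Then `c l ∉ Sec D i (1/16)` (`only`), a closed set (`sec_closed`), so `F = id` near `c l`; for `(l', v)` near `(l, 0)`: `κ (g (l', v)) = κ (l', RN m l' v)`, both arguments in the tube and
near each other (`|(g (l', v)).1 - l'| < 1/2`): `g (l', v) = (l', RN m l' v)` (`hκ.inj`).  So `lin_M g l = RN m l` (derivative of `(l', v) ↦ (l', RN m l' v)` at `(l, 0)`).
IN.  Let `x ∈ L`, `x.i = i`, `I = {|l - α| < 3/32 ν}`; `Ψ (l, v) = k_i (scen i + e (l - α) / ν, s ge₁ + v)`: a local diffeomorphism at `(l, 0)` (`s < ε / 2`), `Ψ (l, 0) = c l = κ (l, 0)` for `l ∈ I` (`form`).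
Call a linear map `B` *good at* `l` if there is a map `a : ℝ × E3 → ℝ × E3`, smooth at `(l, 0)`, with `a (l', 0) = (l', 0)` for `l'` near `l`, `κ x = Ψ (a x)` for `x` near `(l, 0)`, `B = lin_M a l`.  Existence for `l ∈ I`: `a = Φ⁻¹ ∘ κ`, `Φ` a partial
diffeomorphism extending `Ψ` near `(l, 0)` (`IsLocalDiffeomorphAt.localInverse`).  The same `a` shows that `lin_M a l'` is good at `l'` for `l'` near `l`.  Uniqueness: two such `a`, `a'` agree near `(l, 0)` (`Ψ` is injective near `(l, 0)`).  So `A l` = the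
good map at `l` (choice) is smooth on `I`.  Bijective: `Da (l, 0)` is bijective (`κ`, `Ψ` are local diffeomorphisms, so is `a`) and has the form `(t, w) ↦ (t + .., A w)`: `Da (1, 0) = (1, 0)` because `a (l', 0) = (l', 0)`.
`F (Ψ (l, v)) = Ψ (R (l, v))`, `R (l, v) = (l, Rt (stp (e (l - α) / ν)) v)`: `F (k_i (l', w)) = k_i (l', Rt (stp (l' - scen i)) w)`, `w = s ge₁ + v`, `Rt _ (s ge₁) = s ge₁` (`Rt_e₁`), `‖s ge₁ + v‖ < ε`.  Near `(l, 0)`: with `ρ (l', v) = (l', RN m l' v)`: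
`Ψ (a (g x)) = κ (g x) = F (κ (ρ x)) = F (Ψ (a (ρ x))) = Ψ (R (a (ρ x)))`, so `a ∘ g = R ∘ a ∘ ρ` near `(l, 0)` (all maps fix the points `(l', 0)`; continuity).  Take derivatives at `(l, 0)` and second components of the values at `(0, v)`: for the maps with
`f (l', 0) = (l', 0)` one has `lin_M (f ∘ f') l = lin_M f l ∘ lin_M f' l` (`Df (t, w) = (t + .., lin_M f w)`); `lin_M R l = Rt (stp ..)`, `lin_M ρ l = RN m l`: `A l ∘ lin_M g l = Rt (stp (e (l - α) / ν)) ∘ A l ∘ RN m l`.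
-/

open scoped ContDiff Manifold Topology unitInterval
open Set Filter
open Pool.Agent.ACB

namespace Pool.Agent.MMV

theorem ngk_one {f : ℝ × E3 → ℝ × E3} {l : ℝ} (hf : DifferentiableAt ℝ f (l, 0))
    (h0 : ∀ᶠ t in 𝓝 l, f (t, 0) = (t, 0)) : fderiv ℝ f (l, 0) (1, 0) = (1, 0) := by
  have h1 : HasFDerivAt f (fderiv ℝ f (l, 0)) (l, 0) := hf.hasFDerivAt
  have h2 : HasDerivAt (fun t : ℝ => ((t, 0) : ℝ × E3)) (1, 0) l :=
    (hasDerivAt_id l).prodMk (hasDerivAt_const l (0 : E3))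
  have h3 : HasDerivAt (f ∘ fun t : ℝ => ((t, 0) : ℝ × E3)) (fderiv ℝ f (l, 0) (1, 0)) l :=
    HasFDerivAt.comp_hasDerivAt l h1 h2
  have h4 : (fun t : ℝ => ((t, 0) : ℝ × E3)) =ᶠ[𝓝 l] (f ∘ fun t : ℝ => ((t, 0) : ℝ × E3)) :=
    h0.mono fun t ht => ht.symm
  exact (h3.congr_of_eventuallyEq h4).unique h2

theorem ngk_split {f : ℝ × E3 → ℝ × E3} {l : ℝ} (hf : DifferentiableAt ℝ f (l, 0))
    (h0 : ∀ᶠ t in 𝓝 l, f (t, 0) = (t, 0)) (a : ℝ) (w : E3) :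
    fderiv ℝ f (l, 0) (a, w) = (a + (fderiv ℝ f (l, 0) (0, w)).1, lin_M f l w) := by
  have h1 : ((a, w) : ℝ × E3) = a • (1, 0) + (0, w) := by
    ext1 <;> simp
  rw [h1, map_add, map_smul, ngk_one hf h0]
  ext1
  · simp
  · simp [lin_M_apply]

theorem ngk_comp {f f' : ℝ × E3 → ℝ × E3} {l : ℝ} (hf : DifferentiableAt ℝ f (l, 0))
    (h0 : ∀ᶠ t in 𝓝 l, f (t, 0) = (t, 0)) (hf' : DifferentiableAt ℝ f' (l, 0))
    (h0' : f' (l, 0) = (l, 0)) : lin_M (fun x => f (f' x)) l = (lin_M f l).comp (lin_M f' l) := by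
  have h1 : HasFDerivAt f (fderiv ℝ f (l, 0)) (f' (l, 0)) := by
    rw [h0']
    exact hf.hasFDerivAt
  have h2 := h1.comp (l, (0 : E3)) hf'.hasFDerivAt
  have h3 : fderiv ℝ (fun x => f (f' x)) (l, 0) = (fderiv ℝ f (l, 0)).comp (fderiv ℝ f' (l, 0)) := h2.fderiv
  refine ContinuousLinearMap.ext fun w => ?_
  rw [lin_M_apply, h3, ContinuousLinearMap.comp_apply]
  have h4 : fderiv ℝ f' (l, 0) (0, w) = ((fderiv ℝ f' (l, 0) (0, w)).1, lin_M f' l w) := rfl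
  rw [h4, ngk_split hf h0]
  rfl

theorem ngk_congr {f f' : ℝ × E3 → ℝ × E3} {l : ℝ} (h : f =ᶠ[𝓝 (l, 0)] f') : lin_M f l = lin_M f' l := by
  unfold lin_M
  rw [h.fderiv_eq]

theorem ngk_lin {B : ℝ → E3 →L[ℝ] E3} {l : ℝ} (hB : DifferentiableAt ℝ B l) :
    lin_M (fun x => (x.1, B x.1 x.2)) l = B l ∧
      DifferentiableAt ℝ (fun x : ℝ × E3 => ((x.1, B x.1 x.2) : ℝ × E3)) (l, 0) := by
  have h2 : HasFDerivAt (fun x : ℝ × E3 => B x.1) ((fderiv ℝ B l).comp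
      (ContinuousLinearMap.fst ℝ ℝ E3)) (l, (0 : E3)) := by
    have h3 : HasFDerivAt B (fderiv ℝ B l) ((l, (0 : E3)) : ℝ × E3).1 := hB.hasFDerivAt
    exact h3.comp (l, (0 : E3)) hasFDerivAt_fst
  have h4 := h2.clm_apply (hasFDerivAt_snd (𝕜 := ℝ) (p := (l, (0 : E3))))
  have h5 := (hasFDerivAt_fst (𝕜 := ℝ) (p := (l, (0 : E3)))).prodMk h4
  refine ⟨?_, h5.differentiableAt⟩
  refine ContinuousLinearMap.ext fun w => ?_
  rw [lin_M_apply]
  have h6 : fderiv ℝ (fun x : ℝ × E3 => ((x.1, B x.1 x.2) : ℝ × E3)) (l, 0) = _ := h5.fderiv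
  rw [h6]
  simp only [add_apply, ContinuousLinearMap.prod_apply, ContinuousLinearMap.comp_apply,
    ContinuousLinearMap.coe_fst', ContinuousLinearMap.coe_snd', ContinuousLinearMap.flip_apply, map_zero, add_zero]

section
variable {M : Type} [TopologicalSpace M] [ChartedSpace E4 M] {κ Ψ : ℝ × E3 → M} {l : ℝ} {a a' : ℝ × E3 → ℝ × E3}

theorem ngk_inj (hΨ : IsLocalDiffeomorphAt 𝓘(ℝ, ℝ × E3) (𝓡 4) ∞ Ψ (l, 0))
    (h1 : Tendsto a (𝓝 (l, 0)) (𝓝 (l, 0))) (h2 : Tendsto a' (𝓝 (l, 0)) (𝓝 (l, 0)))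
    (h : ∀ᶠ x in 𝓝 ((l, 0) : ℝ × E3), Ψ (a x) = Ψ (a' x)) : a =ᶠ[𝓝 (l, 0)] a' := by
  obtain ⟨U, hU, hinj⟩ := CSG.ld_injOn hΨ
  filter_upwards [h, h1 hU, h2 hU] with x hx hx1 hx2
  exact hinj hx1 hx2 hx

/-- `a` is a transition map from `κ` to `Ψ` near `(l, 0)` -/
def NgkGood (κ Ψ : ℝ × E3 → M) (l : ℝ) (a : ℝ × E3 → ℝ × E3) : Prop :=
  (∀ᶠ x in 𝓝 ((l, 0) : ℝ × E3), ContDiffAt ℝ ∞ a x) ∧ (∀ᶠ t in 𝓝 l, a (t, 0) = (t, 0)) ∧
    ∀ᶠ x in 𝓝 ((l, 0) : ℝ × E3), κ x = Ψ (a x)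

theorem ngk_line : Tendsto (fun t : ℝ => ((t, 0) : ℝ × E3)) (𝓝 l) (𝓝 (l, 0)) :=
  (Continuous.prodMk continuous_id continuous_const).tendsto l

theorem ngk_ex (hκ : IsLocalDiffeomorphAt 𝓘(ℝ, ℝ × E3) (𝓡 4) ∞ κ (l, 0))
    (hΨ : IsLocalDiffeomorphAt 𝓘(ℝ, ℝ × E3) (𝓡 4) ∞ Ψ (l, 0)) (hc : ∀ᶠ t in 𝓝 l, κ (t, 0) = Ψ (t, 0)) :
    ∃ a, NgkGood κ Ψ l a := by
  have h0 : κ (l, 0) = Ψ (l, 0) := hc.self_of_nhds
  refine ⟨hΨ.localInverse ∘ κ, ?_, ?_, ?_⟩
  · have h1 : IsLocalDiffeomorphAt 𝓘(ℝ, ℝ × E3) 𝓘(ℝ, ℝ × E3) ∞ (hΨ.localInverse ∘ κ) (l, 0) := by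
      refine IsLocalDiffeomorphAt.comp (hf := hκ) (hg := ?_) ..
      rw [h0]
      exact hΨ.localInverse_isLocalDiffeomorphAt
    exact (CSG.ld_eventually h1).mono fun x hx => contMDiffAt_iff_contDiffAt.mp hx.contMDiffAt
  · have h1 := hΨ.localInverse_eventuallyEq_left
    filter_upwards [hc, ngk_line.eventually h1] with t ht ht'
    show hΨ.localInverse (κ (t, 0)) = (t, 0)
    rw [ht]
    exact ht'
  · have h1 := hΨ.localInverse_eventuallyEq_right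
    have h2 : Tendsto κ (𝓝 (l, 0)) (𝓝 (Ψ (l, 0))) := by
      rw [← h0]
      exact hκ.contMDiffAt.continuousAt
    filter_upwards [h2.eventually h1] with x hx
    exact hx.symm

theorem NgkGood.diff (ha : NgkGood κ Ψ l a) : DifferentiableAt ℝ a (l, 0) :=
  ha.1.self_of_nhds.differentiableAt (by simp)

theorem NgkGood.fix (ha : NgkGood κ Ψ l a) : a (l, 0) = (l, 0) := ha.2.1.self_of_nhds

theorem NgkGood.tend (ha : NgkGood κ Ψ l a) : Tendsto a (𝓝 (l, 0)) (𝓝 (l, 0)) := by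
  have h1 := ha.diff.continuousAt
  rw [ContinuousAt, ha.fix] at h1
  exact h1

theorem NgkGood.near (ha : NgkGood κ Ψ l a) : ∀ᶠ t in 𝓝 l, NgkGood κ Ψ t a := by
  filter_upwards [ngk_line.eventually ha.1.eventually_nhds, ha.2.1.eventually_nhds,
    ngk_line.eventually ha.2.2.eventually_nhds] with t h1 h2 h3
  exact ⟨h1, h2, h3⟩

/-- the linear part of the transition map -/
noncomputable def ngkA (κ Ψ : ℝ × E3 → M) (l : ℝ) : E3 →L[ℝ] E3 :=
  open Classical in if h : ∃ a, NgkGood κ Ψ l a then lin_M h.choose l else 0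

theorem ngkA_eq (hΨ : IsLocalDiffeomorphAt 𝓘(ℝ, ℝ × E3) (𝓡 4) ∞ Ψ (l, 0)) (ha : NgkGood κ Ψ l a) :
    ngkA κ Ψ l = lin_M a l := by
  have h : ∃ a, NgkGood κ Ψ l a := ⟨a, ha⟩
  unfold ngkA
  rw [dif_pos h]
  apply ngk_congr
  refine ngk_inj hΨ h.choose_spec.tend ha.tend ?_
  filter_upwards [h.choose_spec.2.2, ha.2.2] with x h1 h2
  rw [← h1, ← h2]

theorem ngkA_smooth (hΨ : ∀ᶠ t in 𝓝 l, IsLocalDiffeomorphAt 𝓘(ℝ, ℝ × E3) (𝓡 4) ∞ Ψ (t, 0))
    (ha : NgkGood κ Ψ l a) : ContDiffAt ℝ ∞ (ngkA κ Ψ) l := by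
  have h1 : ngkA κ Ψ =ᶠ[𝓝 l] lin_M a := by
    filter_upwards [hΨ, ha.near] with t ht ht'
    exact ngkA_eq ht ht'
  refine ContDiffAt.congr_of_eventuallyEq ?_ h1
  have h2 : ContDiffAt ℝ ∞ (fderiv ℝ a) (l, 0) := ha.1.self_of_nhds.fderiv_right (m := ∞) (by simp)
  have h3 : ContDiffAt ℝ ∞ (fun t : ℝ => fderiv ℝ a (t, 0)) l :=
    h2.comp l (contDiffAt_id.prodMk contDiffAt_const)
  exact contDiffAt_const.clm_comp (h3.clm_comp contDiffAt_const)

theorem ngkA_bij (hκ : IsLocalDiffeomorphAt 𝓘(ℝ, ℝ × E3) (𝓡 4) ∞ κ (l, 0))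
    (hΨ : IsLocalDiffeomorphAt 𝓘(ℝ, ℝ × E3) (𝓡 4) ∞ Ψ (l, 0)) (ha : NgkGood κ Ψ l a) :
    Function.Bijective (ngkA κ Ψ l) := by
  rw [ngkA_eq hΨ ha]
  have hc : κ (l, 0) = Ψ (l, 0) := by
    rw [ha.2.2.self_of_nhds, ha.fix]
  have hh : (fun x => Ψ (a x)) =ᶠ[𝓝 (l, 0)] κ := ha.2.2.mono fun x hx => hx.symm
  have hinj : ∀ w, lin_M a l w = 0 → w = 0 := by
    intro w hw
    have h1 : fderiv ℝ a (l, 0) (-(fderiv ℝ a (l, 0) (0, w)).1, w) = 0 := by
      rw [ngk_split ha.diff ha.2.1, hw, neg_add_cancel]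
      rfl
    exact congrArg Prod.snd (lin_A_inj hκ hΨ ha.1.self_of_nhds ha.fix hc hh _ h1)
  have hi : Function.Injective (lin_M a l : E3 →ₗ[ℝ] E3) := by
    rw [← LinearMap.ker_eq_bot, LinearMap.ker_eq_bot']
    exact hinj
  exact ⟨hi, LinearMap.injective_iff_surjective.mp hi⟩

theorem ngk_in {F : M → M} {g : ℝ × E3 → ℝ × E3} {B C : ℝ → E3 →L[ℝ] E3}
    (hκ : IsLocalDiffeomorphAt 𝓘(ℝ, ℝ × E3) (𝓡 4) ∞ κ (l, 0))
    (hΨ : IsLocalDiffeomorphAt 𝓘(ℝ, ℝ × E3) (𝓡 4) ∞ Ψ (l, 0)) (ha : NgkGood κ Ψ l a)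
    (hB : DifferentiableAt ℝ B l) (hC : DifferentiableAt ℝ C l)
    (hg : DifferentiableAt ℝ g (l, 0)) (hg0 : ∀ t, g (t, 0) = (t, 0))
    (h1 : ∀ᶠ x in 𝓝 ((l, 0) : ℝ × E3), κ (g x) = F (κ (x.1, C x.1 x.2)))
    (h2 : ∀ᶠ x in 𝓝 ((l, 0) : ℝ × E3), F (Ψ x) = Ψ (x.1, B x.1 x.2)) :
    lin_M g l = (ngkA κ Ψ l).inverse.comp ((B l).comp ((ngkA κ Ψ l).comp (C l))) := by
  have hbij := ngkA_bij hκ hΨ ha
  obtain ⟨eB, dB⟩ := ngk_lin hB
  obtain ⟨eC, dC⟩ := ngk_lin hC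
  have hgt : Tendsto g (𝓝 (l, 0)) (𝓝 (l, 0)) := by
    have h3 := hg.continuousAt
    rw [ContinuousAt, hg0] at h3
    exact h3
  have hBt : Tendsto (fun x : ℝ × E3 => ((x.1, B x.1 x.2) : ℝ × E3)) (𝓝 (l, 0)) (𝓝 (l, 0)) := by
    have h3 := dB.continuousAt
    rw [ContinuousAt] at h3
    simp only [map_zero] at h3
    exact h3
  have hCt : Tendsto (fun x : ℝ × E3 => ((x.1, C x.1 x.2) : ℝ × E3)) (𝓝 (l, 0)) (𝓝 (l, 0)) := by
    have h3 := dC.continuousAt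
    rw [ContinuousAt] at h3
    simp only [map_zero] at h3
    exact h3
  have key : (fun x => a (g x)) =ᶠ[𝓝 (l, 0)]
      fun x => (((a (x.1, C x.1 x.2)).1, B (a (x.1, C x.1 x.2)).1 (a (x.1, C x.1 x.2)).2) : ℝ × E3) := by
    refine ngk_inj hΨ (ha.tend.comp hgt) (hBt.comp (ha.tend.comp hCt)) ?_
    filter_upwards [h1, hgt.eventually ha.2.2, hCt.eventually ha.2.2, hCt.eventually (ha.tend.eventually h2)]
      with x k1 k2 k3 k4
    rw [← k2, k1, k3, k4]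
  have e1 : lin_M (fun x => a (g x)) l = (lin_M a l).comp (lin_M g l) :=
    ngk_comp ha.diff ha.2.1 hg (hg0 l)
  have e2 : lin_M (fun x : ℝ × E3 => a (x.1, C x.1 x.2)) l = (lin_M a l).comp (C l) := by
    rw [ngk_comp (f := a) (f' := fun x : ℝ × E3 => ((x.1, C x.1 x.2) : ℝ × E3)) ha.diff ha.2.1 dC (by simp), eC]
  have daC : DifferentiableAt ℝ (fun x : ℝ × E3 => a (x.1, C x.1 x.2)) (l, 0) := by
    have h3 : DifferentiableAt ℝ a ((fun x : ℝ × E3 => ((x.1, C x.1 x.2) : ℝ × E3)) (l, 0)) := by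
      simp only [map_zero]
      exact ha.diff
    exact h3.comp (l, (0 : E3)) dC
  have e3 : lin_M (fun x : ℝ × E3 =>
      (((a (x.1, C x.1 x.2)).1, B (a (x.1, C x.1 x.2)).1 (a (x.1, C x.1 x.2)).2) : ℝ × E3)) l =
      (B l).comp ((lin_M a l).comp (C l)) := by
    rw [ngk_comp (f := fun y : ℝ × E3 => ((y.1, B y.1 y.2) : ℝ × E3)) (f' := fun x : ℝ × E3 => a (x.1, C x.1 x.2))
      dB (Eventually.of_forall fun t => by simp) daC (by simp [ha.fix]), eB, e2]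
  have e4 := ngk_congr key
  rw [e1, e3, ← ngkA_eq hΨ ha] at e4
  refine ContinuousLinearMap.ext fun w => ?_
  have e5 := congrArg (fun T : E3 →L[ℝ] E3 => (ngkA κ Ψ l).inverse (T w)) e4
  simp only [ContinuousLinearMap.comp_apply] at e5
  rw [frh_left hbij] at e5
  simp only [ContinuousLinearMap.comp_apply]
  exact e5

end

/-- the standard coordinates near a crossing -/
theorem ngk_std {M : Type} [TopologicalSpace M] [ChartedSpace E4 M] {k : ℝ × E3 → M} {ε : ℝ} (hk : Thick k ε)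
    {c e α ν s : ℝ} (hν : 0 < ν) (he : e = 1 ∨ e = -1) (hs : 0 < s) (hsε : s < ε) (l : ℝ) :
    IsLocalDiffeomorphAt 𝓘(ℝ, ℝ × E3) (𝓡 4) ∞
      (fun x : ℝ × E3 => k (c + e * ((x.1 - α) / ν), s • ge₁ + x.2)) (l, 0) := by
  have he0 : e ≠ 0 := by
    rcases he with h | h <;> rw [h] <;> norm_num
  have hee : e * e = 1 := by
    rcases he with h | h <;> rw [h] <;> norm_num
  let D : (ℝ × E3) ≃ₘ⟮𝓘(ℝ, ℝ × E3), 𝓘(ℝ, ℝ × E3)⟯ (ℝ × E3) :=
    { toFun := fun x => (c + e * ((x.1 - α) / ν), s • ge₁ + x.2)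
      invFun := fun x => (α + ν * (e * (x.1 - c)), x.2 - s • ge₁)
      left_inv := by
        intro x
        ext1
        · simp only
          have : e * (c + e * ((x.1 - α) / ν) - c) = (e * e) * ((x.1 - α) / ν) := by ring
          rw [this, hee]
          field_simp
          ring
        · simp
      right_inv := by
        intro x
        ext1
        · simp only
          have : e * ((α + ν * (e * (x.1 - c)) - α) / ν) = (e * e) * (x.1 - c) := by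
            field_simp
            ring
          rw [this, hee]
          ring
        · simp
      contMDiff_toFun := by
        have h : ContDiff ℝ ∞ fun x : ℝ × E3 => ((c + e * ((x.1 - α) / ν), s • ge₁ + x.2) : ℝ × E3) :=
          (contDiff_const.add (contDiff_const.mul ((contDiff_fst.sub contDiff_const).div_const ν))).prodMk
            (contDiff_const.add contDiff_snd)
        exact h.contMDiff
      contMDiff_invFun := by
        have h : ContDiff ℝ ∞ fun x : ℝ × E3 => ((α + ν * (e * (x.1 - c)), x.2 - s • ge₁) : ℝ × E3) :=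
          (contDiff_const.add (contDiff_const.mul (contDiff_const.mul (contDiff_fst.sub contDiff_const)))).prodMk
            (contDiff_snd.sub contDiff_const)
        exact h.contMDiff }
  have h1 : IsLocalDiffeomorphAt 𝓘(ℝ, ℝ × E3) 𝓘(ℝ, ℝ × E3) ∞ D (l, 0) := D.isLocalDiffeomorph (l, 0)
  refine IsLocalDiffeomorphAt.comp (hf := h1) (g := k) (hg := ?_)
  show IsLocalDiffeomorphAt 𝓘(ℝ, ℝ × E3) (𝓡 4) ∞ k (c + e * ((l - α) / ν), s • ge₁ + (0 : E3))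
  refine hk.loc _ _ ?_
  rw [add_zero, norm_smul, Real.norm_of_nonneg hs.le]
  have : ‖ge₁‖ = 1 := by
    unfold ge₁
    simp
  rw [this, mul_one]
  exact hsε

theorem effect {M : Type} [TopologicalSpace M] [ChartedSpace E4 M] [T2Space M] [IsManifold (𝓡 4) ∞ M]
    {k₁ k₂ : ℝ × E3 → M} {ε : ℝ} (D : Dbl (-1 / 2) (1 / 2) k₁ k₂ ε) (i : Fin 2) {F : M → M}
    (hF : ∀ (l : ℝ) (v : E3), ‖v‖ < ε → F (![k₁, k₂] i (l, v)) = ![k₁, k₂] i (l, Rt (stp (l - scen i)) v))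
    (hF' : ∀ p, p ∉ Sec D i (1 / 16) → F p = p) (hFc : Continuous F)
    {κ : ℝ × E3 → M} {r : ℝ} (hκ : Thick κ r) {L : List Xing} (hL : Pat D (core κ) L (3 / 32) (1 / 16)) (m : ℕ)
    {g : ℝ × E3 → ℝ × E3} {δ : ℝ} (hδ : 0 < δ)
    (hg : ∀ (l : ℝ) (v : E3), ‖v‖ < δ → ContDiffAt ℝ ∞ g (l, v) ∧ κ (g (l, v)) = F (κ (l, RN m l v)) ∧
      ‖(g (l, v)).2‖ < r ∧ |(g (l, v)).1 - l| < 1 / 2)
    (hg0 : ∀ l, g (l, 0) = (l, 0)) (hM : Lp (lin_M g)) :
    LH (lin_M g) (RN (m + L.countP fun z => z.i = i)) := by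
  have hr : ‖(0 : E3)‖ < r := by
    rw [norm_zero]
    exact hκ.pos
  have hk : Thick (![k₁, k₂] i) ε := D.tub.thick i
  have hgd : ∀ l, DifferentiableAt ℝ g (l, 0) := fun l =>
    (hg l 0 (by rw [norm_zero]; exact hδ)).1.differentiableAt (by simp)
  have hCd : Differentiable ℝ (RN m) := (RN_lp m).sm.differentiable (by simp)
  have hnear : ∀ (l b : ℝ), 0 < b → ∀ᶠ x : ℝ × E3 in 𝓝 (l, (0 : E3)), ‖x.2‖ < b := by
    intro l b hb
    have hcn : Continuous fun x : ℝ × E3 => ‖x.2‖ := continuous_norm.comp continuous_snd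
    refine (hcn.tendsto (l, (0 : E3))).eventually (gt_mem_nhds ?_)
    simpa using hb
  have hgκ : ∀ l, ∀ᶠ x : ℝ × E3 in 𝓝 (l, (0 : E3)), κ (g x) = F (κ (x.1, RN m x.1 x.2)) := by
    intro l
    filter_upwards [hnear l δ hδ] with x hx
    exact (hg x.1 x.2 hx).2.1
  have hlist : L.countP (fun z => z.i = i) = (L.filter (fun z => z.i = i)).length :=
    List.countP_eq_length_filter
  rw [hlist]
  refine lh_xings hM (L.filter (fun z => z.i = i)) ?_ ?_ ?_ ?_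
  · intro x hx
    have hx' := (List.mem_filter.1 hx).1
    obtain ⟨h1, h2, h3, h4, h5, h6⟩ := hL.pos x hx'
    exact ⟨h1, h4, h5, h6⟩
  · exact hL.ord.filter _
  · intro x hx
    obtain ⟨hxL, hxi⟩ := List.mem_filter.1 hx
    have hxi : x.i = i := by simpa using hxi
    obtain ⟨h1, h2, h3, h4, h5, h6⟩ := hL.pos x hxL
    have hεp := hk.pos
    let Ψ : ℝ × E3 → M := fun y => ![k₁, k₂] i (scen i + x.e * ((y.1 - x.α) / x.ν), x.s • ge₁ + y.2)
    have hΨ : ∀ l, IsLocalDiffeomorphAt 𝓘(ℝ, ℝ × E3) (𝓡 4) ∞ Ψ (l, 0) := fun l =>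
      ngk_std hk h1 h4 h2 (by linarith) l
    have hform : ∀ l, |l - x.α| < 3 / 32 * x.ν → ∀ᶠ t in 𝓝 l, κ (t, 0) = Ψ (t, 0) := by
      intro l hl
      have ho : IsOpen {t : ℝ | |t - x.α| < 3 / 32 * x.ν} :=
        isOpen_lt ((continuous_id.sub continuous_const).abs) continuous_const
      filter_upwards [ho.mem_nhds hl] with t ht
      have := hL.form x hxL t (le_of_lt ht)
      rw [hxi] at this
      show κ (t, 0) = ![k₁, k₂] i (scen i + x.e * ((t - x.α) / x.ν), x.s • ge₁ + (0 : E3))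
      rw [add_zero]
      exact this
    refine ⟨ngkA κ Ψ, fun l hl => ?_⟩
    obtain ⟨a, ha⟩ := ngk_ex (hκ.loc l 0 hr) (hΨ l) (hform l hl)
    refine ⟨ngkA_smooth (Eventually.of_forall hΨ) ha, ngkA_bij (hκ.loc l 0 hr) (hΨ l) ha, ?_⟩
    have hBs : Differentiable ℝ fun t : ℝ => Rt (stp (x.e * ((t - x.α) / x.ν))) :=
      (Rt_smooth.comp (stp_smooth.comp (contDiff_const.mul
        ((contDiff_id.sub contDiff_const).div_const x.ν)))).differentiable (by simp)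
    refine ngk_in (F := F) (B := fun t : ℝ => Rt (stp (x.e * ((t - x.α) / x.ν)))) (C := RN m)
      (hκ.loc l 0 hr) (hΨ l) ha (hBs l) (hCd l) (hgd l) hg0 (hgκ l) ?_
    have hpos : 0 < ε - x.s := by linarith
    filter_upwards [hnear l (ε - x.s) hpos] with y hy
    have hn : ‖x.s • ge₁ + y.2‖ < ε := by
      have e1 : ‖x.s • ge₁‖ = x.s := by
        rw [norm_smul, Real.norm_of_nonneg h2.le]
        have : ‖ge₁‖ = 1 := by
          unfold ge₁
          simp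
        rw [this, mul_one]
      have e2 := norm_add_le (x.s • ge₁) y.2
      linarith
    show F (![k₁, k₂] i (scen i + x.e * ((y.1 - x.α) / x.ν), x.s • ge₁ + y.2)) =
      ![k₁, k₂] i (scen i + x.e * ((y.1 - x.α) / x.ν), x.s • ge₁ + Rt (stp (x.e * ((y.1 - x.α) / x.ν))) y.2)
    rw [hF _ _ hn, add_sub_cancel_left, map_add, Rt_e₁]
  · intro l hl hx
    have hns : κ (l, 0) ∉ Sec D i (1 / 16) := by
      intro hmem
      obtain ⟨x, hxL, hxi, hxl⟩ := hL.only i l hl hmem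
      have := hx x (List.mem_filter.2 ⟨hxL, by simpa using hxi⟩)
      linarith
    have hcl := (sec_closed D i (a := 1 / 16) (by norm_num) (by norm_num)).isOpen_compl
    obtain ⟨eC, dC⟩ := ngk_lin (hCd l)
    have hCt : Tendsto (fun x : ℝ × E3 => ((x.1, RN m x.1 x.2) : ℝ × E3)) (𝓝 (l, 0)) (𝓝 (l, 0)) := by
      have h3 := dC.continuousAt
      rw [ContinuousAt] at h3
      simp only [map_zero] at h3
      exact h3
    have hgt : Tendsto g (𝓝 (l, 0)) (𝓝 (l, 0)) := by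
      have h3 := (hgd l).continuousAt
      rw [ContinuousAt, hg0] at h3
      exact h3
    have hκt : Tendsto κ (𝓝 (l, 0)) (𝓝 (κ (l, 0))) := (hκ.loc l 0 hr).contMDiffAt.continuousAt
    have hev : g =ᶠ[𝓝 (l, 0)] fun x : ℝ × E3 => ((x.1, RN m x.1 x.2) : ℝ × E3) := by
      refine ngk_inj (hκ.loc l 0 hr) hgt hCt ?_
      filter_upwards [hgκ l, (hκt.comp hCt).eventually (hcl.mem_nhds hns)] with x h1 h2
      rw [h1]
      exact hF' _ h2
    rw [ngk_congr hev, eC]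

end Pool.Agent.MMV
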