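import Pool.Agent.MMV.NGh

/-!
# MMV/NGn: normal form of a loop of isometries   (block VI, squad G)

Every smooth loop of isometries of `ℝ³` is homotopic to `l ↦ Rt (n l) ∘ O`, `O` a constant isometry, `n = 0` or `1`.

PROOF.  `ω l = L l ge₁`, `‖ω l‖ = 1`.  The map `(l, r) ↦ r • ω l`, `ℝ × ℝ → E3`, is `C¹`, so the complement of its range is dense (`ContDiff.dense_compl_range_of_finrank_lt_finrank`), it contains some `y`, `y ≠ 0` (`0` is in the range); so
`p := ‖y‖⁻¹ • y`, `‖p‖ = 1`, is not of the form `ω l` (otherwise `y = ‖y‖ • ω l`).  Let `q = - p`.  For `‖y‖ = 1`, `y ≠ p` (that is `1 + ⟪q, y⟫ ≠ 0`) let `ρ y x = x - ((⟪q + y, x⟫) / (1 + ⟪q, y⟫)) • (q + y) + (2 ⟪q, x⟫) • y`: the rotation of the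
plane of `q, y` which takes `q` to `y`: it is an isometry (the product of the reflections in `q^⊥` and `(q + y)^⊥`, up to order; or check `‖ρ y x‖ = ‖x‖` by expanding), `ρ y q = y`, `ρ q = id`, smooth in `y`.
`h s l = ‖(1 - s) ω l + s q‖⁻¹ • ((1 - s) ω l + s q)` for `s ∈ [0, 1]`: the vector `(1 - s) ω l + s q` is not `0` (`ω l ≠ - q = p`) and `h s l ≠ p`.  (Use `Real.smoothTransition s` in place of `s` to have all real `s`.)
Put `S l = (ρ (ω l))⁻¹ ∘ L l`, a loop of isometries with `S l ge₁ = q`.  `L l = ρ (h 0 l) ∘ S l ~ ρ (h 1 l) ∘ S l = S l` (`LH`, homotopy `ρ (h s l) ∘ S l`).  `S l = S 0 ∘ T l`, `T l = (S 0)⁻¹ ∘ S l` fixes `ge₁`, is an isometry, `T 0 = id`.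
So `T l = Rt (a l)` with `a` smooth: `T l` maps the orthogonal complement of `ge₁` to itself; `z l = (T l e₂)₁ + i (T l e₂)₂` has absolute value `1`, `z 0 = 1`; `T l e₃ = ± i z l` in the same notation, and the sign is constant (continuity), `+`
(`l = 0`).  `a l = ∫₀^l (z' / (2 π i z))` (real, smooth; `z l = ex (a l)` because the quotient has derivative `0`); `a (l + 1) = a l + n`, `n ∈ ℤ`: `ex (a (l + 1)) = ex (a l)`, so `a (l + 1) - a l` is an integer, constant by continuity.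
`lh_turn`: `T l ~ Rt (n l)`; so `L ~ S 0 ∘ Rt (n l) = (S 0 ∘ Rt (n l) ∘ (S 0)⁻¹) ∘ S 0`.  By `lh_par`-like reduction (`Rt (n l)` for `n ∈ ℤ` is homotopic to `Rt 0` or `Rt l` according to the parity: `lh_neg` for negative `n`) and `lh_conj`
(`P = (S 0)⁻¹`): `L ~ RN m ∘ O`, `m ∈ {0, 1}`, `O = S 0` as a linear isometry equivalence.
-/

open scoped ContDiff Manifold Topology unitInterval
open Set Filter
open Pool.Agent.ACB

namespace Pool.Agent.MMV

/-- the reflection in the orthogonal complement of `u` -/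
noncomputable def ngnR (u : E3) : E3 →L[ℝ] E3 :=
  ContinuousLinearMap.id ℝ E3 - (2 / ‖u‖ ^ 2) • (innerSL ℝ u).smulRight u

theorem ngnR_apply (u x : E3) : ngnR u x = x - (2 / ‖u‖ ^ 2 * inner ℝ u x) • u := by
  unfold ngnR
  simp [mul_smul]

theorem ngnR_norm {u : E3} (hu : u ≠ 0) (x : E3) : ‖ngnR u x‖ = ‖x‖ := by
  have h0 : ‖u‖ ^ 2 ≠ 0 := pow_ne_zero 2 (norm_ne_zero_iff.2 hu)
  have h1 : ‖ngnR u x‖ ^ 2 = ‖x‖ ^ 2 := by
    rw [ngnR_apply, norm_sub_sq_real, norm_smul, inner_smul_right, real_inner_comm x u, mul_pow, Real.norm_eq_abs,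
      sq_abs]
    field_simp
    ring
  exact (sq_eq_sq₀ (norm_nonneg _) (norm_nonneg _)).1 h1

theorem ngnR_invol {u : E3} (hu : u ≠ 0) (x : E3) : ngnR u (ngnR u x) = x := by
  have h0 : ‖u‖ ^ 2 ≠ 0 := pow_ne_zero 2 (norm_ne_zero_iff.2 hu)
  rw [ngnR_apply, ngnR_apply, inner_sub_right, inner_smul_right, real_inner_self_eq_norm_sq, sub_sub, ← add_smul]
  have h1 : 2 / ‖u‖ ^ 2 * inner ℝ u x + 2 / ‖u‖ ^ 2 * (inner ℝ u x - 2 / ‖u‖ ^ 2 * inner ℝ u x * ‖u‖ ^ 2) = 0 := by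
    field_simp
    ring
  rw [h1, zero_smul, sub_zero]

theorem ngnR_swap {q w : E3} (hq : ‖q‖ = 1) (hw : ‖w‖ = 1) (hu : q + w ≠ 0) : ngnR (q + w) w = -q := by
  have h0 : ‖q + w‖ ^ 2 ≠ 0 := pow_ne_zero 2 (norm_ne_zero_iff.2 hu)
  have h1 : ‖q + w‖ ^ 2 = 2 * inner ℝ (q + w) w := by
    rw [norm_add_sq_real, hq, hw, inner_add_left, real_inner_self_eq_norm_sq, hw]
    ring
  have h2 : 2 / ‖q + w‖ ^ 2 * inner ℝ (q + w) w = 1 := by
    rw [div_mul_eq_mul_div, ← h1, div_self h0]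
  rw [ngnR_apply, h2, one_smul]
  abel

theorem ngnR_smooth {u : E3} (hu : u ≠ 0) : ContDiffAt ℝ ∞ ngnR u := by
  have h0 : ‖u‖ ^ 2 ≠ 0 := pow_ne_zero 2 (norm_ne_zero_iff.2 hu)
  have h1 : ContDiff ℝ ∞ fun u : E3 => (innerSL ℝ u).smulRight u :=
    (innerSL ℝ (E := E3)).contDiff.smulRight contDiff_id
  exact contDiffAt_const.sub ((contDiffAt_const.div (contDiff_norm_sq ℝ).contDiffAt h0).smul h1.contDiffAt)

attribute [local irreducible] ngnR

theorem ngn_bij {A : E3 →L[ℝ] E3} (h : ∀ v, ‖A v‖ = ‖v‖) : Function.Bijective A := by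
  let li : E3 →ₗᵢ[ℝ] E3 := ⟨(A : E3 →ₗ[ℝ] E3), h⟩
  exact (li.toLinearIsometryEquiv rfl).bijective

theorem ngn_iso {A : E3 →L[ℝ] E3} (h : ∀ v, ‖A v‖ = ‖v‖) : ∃ O : E3 ≃ₗᵢ[ℝ] E3, (O : E3 →L[ℝ] E3) = A := by
  let li : E3 →ₗᵢ[ℝ] E3 := ⟨(A : E3 →ₗ[ℝ] E3), h⟩
  refine ⟨li.toLinearIsometryEquiv rfl, ?_⟩
  refine ContinuousLinearMap.ext fun v => ?_
  rfl

/-- a curve on the sphere misses a point -/
theorem ngn_miss {w : ℝ → E3} (h : ContDiff ℝ ∞ w) : ∃ p : E3, ‖p‖ = 1 ∧ ∀ l, w l ≠ p := by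
  have h1 : ContDiff ℝ 1 fun x : ℝ × ℝ => x.2 • w x.1 :=
    (contDiff_snd.smul (h.comp contDiff_fst)).of_le (by simp)
  have h2 := h1.dense_compl_range_of_finrank_lt_finrank (by simp)
  obtain ⟨y, hy⟩ := h2.nonempty
  have hy0 : y ≠ 0 := by
    rintro rfl
    exact hy ⟨(0, 0), by simp⟩
  have hny : ‖y‖ ≠ 0 := norm_ne_zero_iff.2 hy0
  refine ⟨‖y‖⁻¹ • y, ?_, fun l hl => hy ⟨(l, ‖y‖), ?_⟩⟩
  · rw [norm_smul, norm_inv, norm_norm, inv_mul_cancel₀ hny]
  · show ‖y‖ • w l = y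
    rw [hl, smul_smul, mul_inv_cancel₀ hny, one_smul]

/-- first reduction: the first axis has a constant image -/
theorem ngn_fix {L : ℝ → E3 →L[ℝ] E3} (hL : ContDiff ℝ ∞ L) (hper : ∀ l, L (l + 1) = L l)
    (hn : ∀ l v, ‖L l v‖ = ‖v‖) : ∃ (S : ℝ → E3 →L[ℝ] E3) (q : E3), LH L S ∧ (∀ l v, ‖S l v‖ = ‖v‖) ∧
      ∀ l, S l ge₁ = q := by
  have he1 : ‖ge₁‖ = 1 := by
    unfold ge₁
    simp
  have hw : ContDiff ℝ ∞ fun l => L l ge₁ := hL.clm_apply contDiff_const
  obtain ⟨p, hp, hpw⟩ := ngn_miss hw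
  have hw1 : ∀ l, ‖L l ge₁‖ = 1 := fun l => by rw [hn, he1]
  have hq : ‖-p‖ = 1 := by rw [norm_neg, hp]
  let sg : ℝ → ℝ := Real.smoothTransition
  have hsg0 : ∀ s, 0 ≤ sg s := fun s => Real.smoothTransition.nonneg s
  have hsg1 : ∀ s, sg s ≤ 1 := fun s => Real.smoothTransition.le_one s
  let u : ℝ → ℝ → E3 := fun s l => -p + (sg s • (-p) + (1 - sg s) • L l ge₁)
  have hu : ∀ s l, u s l ≠ 0 := by
    intro s l h0
    have h1 : (1 - sg s) • L l ge₁ = (1 + sg s) • p := by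
      have h2 : u s l = (1 - sg s) • L l ge₁ - (1 + sg s) • p := by
        show -p + (sg s • (-p) + (1 - sg s) • L l ge₁) = _
        module
      rw [h2, sub_eq_zero] at h0
      exact h0
    have h3 := congrArg norm h1
    rw [norm_smul, norm_smul, hp, hw1, mul_one, mul_one, Real.norm_of_nonneg (by linarith [hsg1 s]),
      Real.norm_of_nonneg (by linarith [hsg0 s])] at h3
    have h4 : sg s = 0 := by linarith
    rw [h4, sub_zero, add_zero, one_smul, one_smul] at h1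
    exact hpw l h1
  have hu0 : ∀ l, u 0 l = -p + L l ge₁ := by
    intro l
    show -p + (sg 0 • (-p) + (1 - sg 0) • L l ge₁) = _
    have : sg 0 = 0 := Real.smoothTransition.zero
    rw [this, zero_smul, sub_zero, one_smul, zero_add]
  have hu1 : ∀ l, u 1 l = -p + -p := by
    intro l
    show -p + (sg 1 • (-p) + (1 - sg 1) • L l ge₁) = _
    have : sg 1 = 1 := Real.smoothTransition.one
    rw [this, sub_self, zero_smul, one_smul, add_zero]
  have hus : ContDiff ℝ ∞ fun x : ℝ × ℝ => u x.1 x.2 := by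
    have h1 : ContDiff ℝ ∞ fun x : ℝ × ℝ => sg x.1 := Real.smoothTransition.contDiff.comp contDiff_fst
    exact contDiff_const.add ((h1.smul contDiff_const).add ((contDiff_const.sub h1).smul (hw.comp contDiff_snd)))
  have hRs : ContDiff ℝ ∞ fun x : ℝ × ℝ => ngnR (u x.1 x.2) := by
    rw [contDiff_iff_contDiffAt]
    intro x
    exact ContDiffAt.comp (g := ngnR) (f := fun x : ℝ × ℝ => u x.1 x.2) x (ngnR_smooth (hu x.1 x.2)) hus.contDiffAt
  have hR0 : ContDiff ℝ ∞ fun x : ℝ × ℝ => ngnR (u 0 x.2) :=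
    hRs.comp (contDiff_const.prodMk contDiff_snd)
  let W : ℝ → ℝ → E3 →L[ℝ] E3 := fun s l => (ngnR (u s l)).comp ((ngnR (u 0 l)).comp (L l))
  have hWn : ∀ s l v, ‖W s l v‖ = ‖v‖ := by
    intro s l v
    show ‖ngnR (u s l) (ngnR (u 0 l) (L l v))‖ = ‖v‖
    rw [ngnR_norm (hu s l), ngnR_norm (hu 0 l), hn]
  have huper : ∀ s l, u s (l + 1) = u s l := by
    intro s l
    show -p + (sg s • (-p) + (1 - sg s) • L (l + 1) ge₁) = _
    rw [hper]
  refine ⟨W 1, -p, ⟨W, ?_, ?_, fun s l => ngn_bij (hWn s l), ?_, rfl⟩, hWn 1, ?_⟩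
  · exact hRs.clm_comp (hR0.clm_comp (hL.comp contDiff_snd))
  · intro s l
    show (ngnR (u s (l + 1))).comp ((ngnR (u 0 (l + 1))).comp (L (l + 1))) = _
    rw [huper, huper, hper]
  · funext l
    refine ContinuousLinearMap.ext fun v => ?_
    show ngnR (u 0 l) (ngnR (u 0 l) (L l v)) = L l v
    rw [ngnR_invol (hu 0 l)]
  · intro l
    show ngnR (u 1 l) (ngnR (u 0 l) (L l ge₁)) = -p
    have h1 : ngnR (u 0 l) (L l ge₁) = p := by
      have := ngnR_swap hq (hw1 l) (by rw [← hu0]; exact hu 0 l)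
      rw [hu0, this, neg_neg]
    have h2 : ngnR (-p + -p) (-p) = p := by
      have := ngnR_swap hq hq (by rw [← hu1 l]; exact hu 1 l)
      rw [this, neg_neg]
    have h3 : ngnR (-p + -p) p = -p := by
      have h4 := congrArg Neg.neg h2
      rw [← map_neg, neg_neg] at h4
      exact h4
    rw [h1, hu1, h3]

/-- the angle of a smooth curve on the unit circle -/
theorem ngn_angle {x y : ℝ → ℝ} (hx : ContDiff ℝ ∞ x) (hy : ContDiff ℝ ∞ y) (h1 : ∀ l, x l ^ 2 + y l ^ 2 = 1)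
    (hx0 : x 0 = 1) (hy0 : y 0 = 0) (hxp : ∀ l, x (l + 1) = x l) (hyp : ∀ l, y (l + 1) = y l) :
    ∃ (a : ℝ → ℝ) (n : ℤ), ContDiff ℝ ∞ a ∧ (∀ l, a (l + 1) = a l + n) ∧
      (∀ l, x l = Real.cos (2 * Real.pi * a l)) ∧ ∀ l, y l = Real.sin (2 * Real.pi * a l) := by
  have hxd : Differentiable ℝ x := hx.differentiable (by simp)
  have hyd : Differentiable ℝ y := hy.differentiable (by simp)
  have hx' : ContDiff ℝ ∞ (deriv x) := (contDiff_infty_iff_deriv.1 hx).2
  have hy' : ContDiff ℝ ∞ (deriv y) := (contDiff_infty_iff_deriv.1 hy).2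
  have hpi : (2 * Real.pi) ≠ 0 := by positivity
  let θ : ℝ → ℝ := fun l => (x l * deriv y l - y l * deriv x l) / (2 * Real.pi)
  have hθ : ContDiff ℝ ∞ θ := ((hx.mul hy').sub (hy.mul hx')).div_const _
  let a : ℝ → ℝ := fun l => ∫ t in (0 : ℝ)..l, θ t
  have ha : ∀ l, HasDerivAt a (θ l) l := fun l =>
    (hθ.continuous.integral_hasStrictDerivAt 0 l).hasDerivAt
  have ha0 : a 0 = 0 := intervalIntegral.integral_same
  have had : deriv a = θ := funext fun l => (ha l).deriv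
  have has : ContDiff ℝ ∞ a := by
    rw [contDiff_infty_iff_deriv, had]
    exact ⟨fun l => (ha l).differentiableAt, hθ⟩
  have hrel : ∀ l, x l * deriv x l + y l * deriv y l = 0 := by
    intro l
    have h2 : HasDerivAt (fun l => x l ^ 2 + y l ^ 2) _ l :=
      ((hxd l).hasDerivAt.pow 2).add ((hyd l).hasDerivAt.pow 2)
    have h3 : (fun l => x l ^ 2 + y l ^ 2) = fun _ => (1 : ℝ) := funext h1
    rw [h3] at h2
    have h4 := h2.unique (hasDerivAt_const l (1 : ℝ))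
    norm_num at h4
    linarith
  have e1 : ∀ l, (2 * Real.pi * θ l) * x l = deriv y l := by
    intro l
    show (2 * Real.pi * ((x l * deriv y l - y l * deriv x l) / (2 * Real.pi))) * x l = deriv y l
    rw [mul_div_cancel₀ _ hpi]
    linear_combination (deriv y l) * (h1 l) - y l * hrel l
  have e2 : ∀ l, (2 * Real.pi * θ l) * y l = - deriv x l := by
    intro l
    show (2 * Real.pi * ((x l * deriv y l - y l * deriv x l) / (2 * Real.pi))) * y l = - deriv x l
    rw [mul_div_cancel₀ _ hpi]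
    linear_combination (- deriv x l) * (h1 l) + x l * hrel l
  have hA : ∀ l, HasDerivAt (fun l => 2 * Real.pi * a l) (2 * Real.pi * θ l) l := fun l => (ha l).const_mul _
  have hC : ∀ l, HasDerivAt (fun l => x l * Real.cos (2 * Real.pi * a l) + y l * Real.sin (2 * Real.pi * a l)) 0 l := by
    intro l
    have h2 : HasDerivAt (fun l => x l * Real.cos (2 * Real.pi * a l) + y l * Real.sin (2 * Real.pi * a l)) _ l :=
      ((hxd l).hasDerivAt.mul (hA l).cos).add ((hyd l).hasDerivAt.mul (hA l).sin)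
    refine h2.congr_deriv ?_
    linear_combination Real.cos (2 * Real.pi * a l) * e2 l - Real.sin (2 * Real.pi * a l) * e1 l
  have hS : ∀ l, HasDerivAt (fun l => y l * Real.cos (2 * Real.pi * a l) - x l * Real.sin (2 * Real.pi * a l)) 0 l := by
    intro l
    have h2 : HasDerivAt (fun l => y l * Real.cos (2 * Real.pi * a l) - x l * Real.sin (2 * Real.pi * a l)) _ l :=
      ((hyd l).hasDerivAt.mul (hA l).cos).sub ((hxd l).hasDerivAt.mul (hA l).sin)
    refine h2.congr_deriv ?_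
    linear_combination (-Real.sin (2 * Real.pi * a l)) * e2 l - Real.cos (2 * Real.pi * a l) * e1 l
  have hC1 : ∀ l, x l * Real.cos (2 * Real.pi * a l) + y l * Real.sin (2 * Real.pi * a l) = 1 := by
    intro l
    have h2 := is_const_of_deriv_eq_zero (fun l => (hC l).differentiableAt) (fun l => (hC l).deriv) l 0
    rw [h2]
    simp [ha0, hx0, hy0]
  have hS0 : ∀ l, y l * Real.cos (2 * Real.pi * a l) - x l * Real.sin (2 * Real.pi * a l) = 0 := by
    intro l
    have h2 := is_const_of_deriv_eq_zero (fun l => (hS l).differentiableAt) (fun l => (hS l).deriv) l 0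
    rw [h2]
    simp [ha0, hx0, hy0]
  have hx2 : ∀ l, x l = Real.cos (2 * Real.pi * a l) := by
    intro l
    have h3 := Real.sin_sq_add_cos_sq (2 * Real.pi * a l)
    linear_combination Real.cos (2 * Real.pi * a l) * hC1 l - Real.sin (2 * Real.pi * a l) * hS0 l - x l * h3
  have hy2 : ∀ l, y l = Real.sin (2 * Real.pi * a l) := by
    intro l
    have h3 := Real.sin_sq_add_cos_sq (2 * Real.pi * a l)
    linear_combination Real.sin (2 * Real.pi * a l) * hC1 l + Real.cos (2 * Real.pi * a l) * hS0 l - y l * h3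
  have ha1 : ∃ n : ℤ, a 1 = n := by
    have h2 := hxp 0
    rw [zero_add, hx0, hx2 1] at h2
    obtain ⟨n, hn⟩ := (Real.cos_eq_one_iff _).1 h2
    refine ⟨n, ?_⟩
    have h3 : (2 * Real.pi) * (n : ℝ) = (2 * Real.pi) * a 1 := by linarith
    exact (mul_left_cancel₀ hpi h3).symm
  obtain ⟨n, hn⟩ := ha1
  refine ⟨a, n, has, ?_, hx2, hy2⟩
  intro l
  have hθp : ∀ l, θ (l + 1) = θ l := by
    intro l
    have h2 : deriv x (l + 1) = deriv x l := by
      have h3 : (fun l => x (l + 1)) = x := funext hxp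
      have h4 := deriv_comp_add_const (f := x) (a := 1) (x := l)
      rw [h3] at h4
      exact h4.symm
    have h2' : deriv y (l + 1) = deriv y l := by
      have h3 : (fun l => y (l + 1)) = y := funext hyp
      have h4 := deriv_comp_add_const (f := y) (a := 1) (x := l)
      rw [h3] at h4
      exact h4.symm
    show (x (l + 1) * deriv y (l + 1) - y (l + 1) * deriv x (l + 1)) / (2 * Real.pi) = _
    rw [h2, h2', hxp, hyp]
  have hd : ∀ l, HasDerivAt (fun l => a (l + 1) - a l) 0 l := by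
    intro l
    have h2 : HasDerivAt (fun l => a (l + 1)) (θ (l + 1)) l := (ha (l + 1)).comp_add_const l 1
    have h3 := h2.sub (ha l)
    rw [hθp, sub_self] at h3
    exact h3
  have h2 := is_const_of_deriv_eq_zero (fun l => (hd l).differentiableAt) (fun l => (hd l).deriv) l 0
  simp only [zero_add, ha0, hn, sub_zero] at h2
  linarith

/-- a loop of isometries fixing the first axis consists of rotations -/
theorem ngn_rot {T : ℝ → E3 →L[ℝ] E3} (hT : ContDiff ℝ ∞ T) (hper : ∀ l, T (l + 1) = T l)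
    (hn : ∀ l v, ‖T l v‖ = ‖v‖) (h1 : ∀ l, T l ge₁ = ge₁) (h0 : T 0 = ContinuousLinearMap.id ℝ E3) :
    ∃ (a : ℝ → ℝ) (n : ℤ), ContDiff ℝ ∞ a ∧ (∀ l, a (l + 1) = a l + n) ∧ ∀ l, T l = Rt (a l) := by
  let e₂ : E3 := EuclideanSpace.single 1 1
  let e₃ : E3 := EuclideanSpace.single 2 1
  have hin : ∀ l v w, inner ℝ (T l v) (T l w) = inner ℝ v w := by
    intro l v w
    let li : E3 →ₗᵢ[ℝ] E3 := ⟨(T l : E3 →ₗ[ℝ] E3), hn l⟩
    exact li.inner_map_map v w
  have hc0 : ∀ v : E3, inner ℝ v ge₁ = v 0 := by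
    intro v
    unfold ge₁
    simp [EuclideanSpace.inner_single_right]
  have hT0 : ∀ l v, (T l v) 0 = v 0 := by
    intro l v
    have h2 := hin l v ge₁
    rw [h1, hc0, hc0] at h2
    exact h2
  have hinner : ∀ v w : E3, inner ℝ v w = v 0 * w 0 + v 1 * w 1 + v 2 * w 2 := by
    intro v w
    rw [PiLp.inner_apply]
    simp [Fin.sum_univ_three]
    ring
  have e20 : e₂ 0 = 0 := by simp [e₂]
  have e21 : e₂ 1 = 1 := by simp [e₂]
  have e22 : e₂ 2 = 0 := by simp [e₂]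
  have e30 : e₃ 0 = 0 := by simp [e₃]
  have e31 : e₃ 1 = 0 := by simp [e₃]
  have e32 : e₃ 2 = 1 := by simp [e₃]
  have r22 : ∀ l, (T l e₂ 1) ^ 2 + (T l e₂ 2) ^ 2 = 1 := by
    intro l
    have h2 := hin l e₂ e₂
    rw [hinner, hinner, hT0, e20, e21, e22] at h2
    linarith
  have r33 : ∀ l, (T l e₃ 1) ^ 2 + (T l e₃ 2) ^ 2 = 1 := by
    intro l
    have h2 := hin l e₃ e₃
    rw [hinner, hinner, hT0, e30, e31, e32] at h2
    linarith
  have r23 : ∀ l, T l e₂ 1 * T l e₃ 1 + T l e₂ 2 * T l e₃ 2 = 0 := by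
    intro l
    have h2 := hin l e₂ e₃
    rw [hinner, hinner, hT0, hT0, e20, e21, e22, e30, e31, e32] at h2
    linarith
  have hsm : ∀ (v : E3) (i : Fin 3), ContDiff ℝ ∞ fun l => T l v i := by
    intro v i
    have h2 : ContDiff ℝ ∞ fun l => T l v := hT.clm_apply contDiff_const
    exact (EuclideanSpace.proj (𝕜 := ℝ) i).contDiff.comp h2
  have hdet : ∀ l, T l e₂ 1 * T l e₃ 2 - T l e₂ 2 * T l e₃ 1 = 1 := by
    have hsq : ∀ l, (T l e₂ 1 * T l e₃ 2 - T l e₂ 2 * T l e₃ 1) ^ 2 = 1 := by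
      intro l
      linear_combination (T l e₃ 1 ^ 2 + T l e₃ 2 ^ 2) * r22 l + r33 l -
        (T l e₂ 1 * T l e₃ 1 + T l e₂ 2 * T l e₃ 2) * r23 l
    have hcont : Continuous fun l => T l e₂ 1 * T l e₃ 2 - T l e₂ 2 * T l e₃ 1 :=
      ((hsm e₂ 1).continuous.mul (hsm e₃ 2).continuous).sub ((hsm e₂ 2).continuous.mul (hsm e₃ 1).continuous)
    intro l
    by_contra hne
    have h2 : T l e₂ 1 * T l e₃ 2 - T l e₂ 2 * T l e₃ 1 = -1 := by
      have hs := hsq l
      rw [sq, mul_self_eq_one_iff] at hs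
      rcases hs with h | h
      · exact absurd h hne
      · exact h
    have h3 : T 0 e₂ 1 * T 0 e₃ 2 - T 0 e₂ 2 * T 0 e₃ 1 = 1 := by
      rw [h0]
      show e₂ 1 * e₃ 2 - e₂ 2 * e₃ 1 = 1
      rw [e21, e22, e31, e32]
      norm_num
    obtain ⟨t, ht⟩ := mem_range_of_exists_le_of_exists_ge hcont (c := 0) ⟨l, by rw [h2]; norm_num⟩
      ⟨0, by rw [h3]; norm_num⟩
    have h4 := hsq t
    have h5 : T t e₂ 1 * T t e₃ 2 - T t e₂ 2 * T t e₃ 1 = 0 := ht
    rw [h5] at h4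
    norm_num at h4
  have h31 : ∀ l, T l e₃ 1 = - T l e₂ 2 := by
    intro l
    linear_combination (- T l e₃ 1) * r22 l + T l e₂ 1 * r23 l - T l e₂ 2 * hdet l
  have h32 : ∀ l, T l e₃ 2 = T l e₂ 1 := by
    intro l
    linear_combination (- T l e₃ 2) * r22 l + T l e₂ 2 * r23 l + T l e₂ 1 * hdet l
  obtain ⟨a, n, ha, han, hax, hay⟩ := ngn_angle (hsm e₂ 1) (hsm e₂ 2) r22 (by rw [h0]; exact e21)
    (by rw [h0]; exact e22) (fun l => by rw [hper]) (fun l => by rw [hper])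
  refine ⟨a, n, ha, han, fun l => ?_⟩
  refine ContinuousLinearMap.ext fun v => ?_
  have hv : v = v 0 • ge₁ + (v 1 • e₂ + v 2 • e₃) := by
    ext i
    fin_cases i <;> simp [ge₁, e₂, e₃]
  have hTv : T l v = v 0 • ge₁ + (v 1 • T l e₂ + v 2 • T l e₃) := by
    conv_lhs => rw [hv]
    rw [map_add, map_add, map_smul, map_smul, map_smul, h1]
  have hTv1 : (T l v) 1 = v 1 * T l e₂ 1 + v 2 * T l e₃ 1 := by
    rw [hTv]
    simp [ge₁]
  have hTv2 : (T l v) 2 = v 1 * T l e₂ 2 + v 2 * T l e₃ 2 := by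
    rw [hTv]
    simp [ge₁]
  rw [Rt_apply]
  ext i
  fin_cases i
  · exact hT0 l v
  · show (T l v) 1 = Real.cos (2 * Real.pi * a l) * v 1 - Real.sin (2 * Real.pi * a l) * v 2
    rw [hTv1, h31, ← hax, ← hay]
    ring
  · show (T l v) 2 = Real.sin (2 * Real.pi * a l) * v 1 + Real.cos (2 * Real.pi * a l) * v 2
    rw [hTv2, h32, ← hax, ← hay]
    ring

theorem ngn_RN_zero (l : ℝ) : RN 0 l = ContinuousLinearMap.id ℝ E3 := by
  unfold RN
  rw [Nat.cast_zero, zero_mul, Rt_zero]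

theorem ngn_RN_succ (k : ℕ) (l : ℝ) : RN (k + 1) l = (RN k l).comp (RN 1 l) := by
  unfold RN
  rw [← Rt_add]
  congr 1
  push_cast
  ring

theorem ngn_RN_one (l : ℝ) : RN 1 l = Rt l := by
  unfold RN
  rw [Nat.cast_one, one_mul]

theorem ngn_negN (k : ℕ) : LH (fun l => Rt (-(k * l))) (RN k) := by
  induction k with
  | zero =>
    have h1 : (fun l : ℝ => Rt (-(((0 : ℕ) : ℝ) * l))) = RN 0 := by
      funext l
      rw [ngn_RN_zero, Nat.cast_zero, zero_mul, neg_zero, Rt_zero]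
    rw [h1]
    exact LH.refl (RN_lp 0)
  | succ k ih =>
    have h1 : (fun l : ℝ => Rt (-(((k + 1 : ℕ) : ℝ) * l))) = fun l => (Rt (-(k * l))).comp (Rt (-l)) := by
      funext l
      rw [← Rt_add]
      congr 1
      push_cast
      ring
    have h2 : RN (k + 1) = fun l => (RN k l).comp (Rt l) := by
      funext l
      rw [ngn_RN_succ, ngn_RN_one]
    rw [h1, h2]
    exact ih.comp lh_neg

theorem ngn_int (n : ℤ) : LH (fun l => Rt (n * l)) (RN n.natAbs) := by
  rcases Int.natAbs_eq n with h | h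
  · have h1 : (fun l : ℝ => Rt (n * l)) = RN n.natAbs := by
      funext l
      unfold RN
      have : (n : ℝ) = (n.natAbs : ℝ) := by
        rw [← Int.cast_natCast, ← h]
      rw [this]
    rw [h1]
    exact LH.refl (RN_lp _)
  · have h1 : (fun l : ℝ => Rt (n * l)) = fun l => Rt (-(n.natAbs * l)) := by
      funext l
      have : (n : ℝ) = -(n.natAbs : ℝ) := by
        have h' : (n.natAbs : ℤ) = -n := by omega
        rw [← Int.cast_natCast, h', Int.cast_neg, neg_neg]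
      rw [this, neg_mul]
    rw [h1]
    exact ngn_negN _

theorem ngn_conjN {P : E3 →L[ℝ] E3} (hP : Function.Bijective P) (k : ℕ) :
    LH (fun l => P.inverse.comp ((RN k l).comp P)) (RN k) := by
  induction k with
  | zero =>
    have h1 : (fun l : ℝ => P.inverse.comp ((RN 0 l).comp P)) = RN 0 := by
      funext l
      rw [ngn_RN_zero]
      refine ContinuousLinearMap.ext fun v => ?_
      exact frh_left hP v
    rw [h1]
    exact LH.refl (RN_lp 0)
  | succ k ih =>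
    have h1 : (fun l : ℝ => P.inverse.comp ((RN (k + 1) l).comp P)) =
        fun l => (P.inverse.comp ((RN k l).comp P)).comp (P.inverse.comp ((Rt l).comp P)) := by
      funext l
      refine ContinuousLinearMap.ext fun v => ?_
      rw [ngn_RN_succ, ngn_RN_one]
      show P.inverse (RN k l (Rt l (P v))) = P.inverse (RN k l (P (P.inverse (Rt l (P v)))))
      rw [frh_right hP]
    have h2 : RN (k + 1) = fun l => (RN k l).comp (Rt l) := by
      funext l
      rw [ngn_RN_succ, ngn_RN_one]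
    rw [h1, h2]
    exact ih.comp (lh_conj hP)

theorem lh_normal {L : ℝ → E3 →L[ℝ] E3} (hL : ContDiff ℝ ∞ L) (hper : ∀ l, L (l + 1) = L l)
    (hn : ∀ l v, ‖L l v‖ = ‖v‖) :
    ∃ (m : ℕ) (O : E3 ≃ₗᵢ[ℝ] E3), LH L fun l => (RN m l).comp (O : E3 →L[ℝ] E3) := by
  obtain ⟨S, q, hLS, hSn, hSq⟩ := ngn_fix hL hper hn
  have hSl : Lp S := hLS.lp.2
  obtain ⟨O, hO⟩ := ngn_iso (hSn 0)
  have hO' : ∀ v, O v = S 0 v := fun v => congrArg (fun T : E3 →L[ℝ] E3 => T v) hO
  let T : ℝ → E3 →L[ℝ] E3 := fun l => (O.symm : E3 →L[ℝ] E3).comp (S l)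
  have hT : ContDiff ℝ ∞ T := contDiff_const.clm_comp hSl.sm
  have hTper : ∀ l, T (l + 1) = T l := fun l => by
    show (O.symm : E3 →L[ℝ] E3).comp (S (l + 1)) = _
    rw [hSl.per]
  have hTn : ∀ l v, ‖T l v‖ = ‖v‖ := fun l v => by
    show ‖O.symm (S l v)‖ = ‖v‖
    rw [O.symm.norm_map, hSn]
  have hT1 : ∀ l, T l ge₁ = ge₁ := fun l => by
    show O.symm (S l ge₁) = ge₁
    rw [hSq, ← hSq 0, ← hO', O.symm_apply_apply]
  have hT0 : T 0 = ContinuousLinearMap.id ℝ E3 := by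
    refine ContinuousLinearMap.ext fun v => ?_
    show O.symm (S 0 v) = v
    rw [← hO', O.symm_apply_apply]
  obtain ⟨a, n, ha, han, haT⟩ := ngn_rot hT hTper hTn hT1 hT0
  have hST : S = fun l => (O : E3 →L[ℝ] E3).comp (Rt (a l)) := by
    funext l
    refine ContinuousLinearMap.ext fun v => ?_
    rw [← haT]
    show S l v = O (O.symm (S l v))
    rw [O.apply_symm_apply]
  have hnl : ContDiff ℝ ∞ fun l : ℝ => (n : ℝ) * l := contDiff_const.mul contDiff_id
  have h1 : LH (fun l => Rt (a l)) fun l => Rt (n * l) :=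
    lh_turn ha hnl han (fun l => by ring)
  have h2 := h1.trans (ngn_int n)
  have hOb : Function.Bijective (O : E3 →L[ℝ] E3) := O.bijective
  have hOl : Lp fun _ : ℝ => (O : E3 →L[ℝ] E3) := ⟨contDiff_const, fun _ => rfl, fun _ => hOb⟩
  have h3 : LH S fun l => (O : E3 →L[ℝ] E3).comp (RN n.natAbs l) := by
    rw [hST]
    exact (LH.refl hOl).comp h2
  let P : E3 →L[ℝ] E3 := (O.symm : E3 →L[ℝ] E3)
  have hP : Function.Bijective P := O.symm.bijective
  have hPO : P.inverse = (O : E3 →L[ℝ] E3) := by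
    refine ContinuousLinearMap.ext fun v => ?_
    have h4 := frh_left hP (O v)
    have h5 : P (O v) = v := O.symm_apply_apply v
    rw [h5] at h4
    exact h4
  have h6 := (ngn_conjN hP n.natAbs).comp (LH.refl hOl)
  have h7 : (fun l => (P.inverse.comp ((RN n.natAbs l).comp P)).comp (O : E3 →L[ℝ] E3)) =
      fun l => (O : E3 →L[ℝ] E3).comp (RN n.natAbs l) := by
    funext l
    refine ContinuousLinearMap.ext fun v => ?_
    rw [hPO]
    show O (RN n.natAbs l (O.symm (O v))) = O (RN n.natAbs l v)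
    rw [O.symm_apply_apply]
  rw [h7] at h6
  exact ⟨n.natAbs, O, hLS.trans (h3.trans h6)⟩

end Pool.Agent.MMV
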