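import Pool.Agent.MMV.NGs
import Pool.Agent.ACB.Prl
import Pool.Agent.ACB.ClF
import Pool.Agent.ACB.Lop

/-!
# MMV/NGp: loops in the page, one letter   (block VI, squad G)

THE PAGE.  For `u ∈ ℂ`, `‖u‖ ≤ 1`, `u ≠ ±1/2` let `pgM D u = TwD_B D ⟨sd u, _⟩` (`sd` in `MMV/Defs.lean`; `‖sd u‖ = 1`): the point of `M` off the circles with `(S.A (pgM u)).1 = sd u` (`TwD_A_ex`, `TwD_B_A`; `TwD_u (sd u) = u`).
* continuous on `{u | ‖u‖ ≤ 1, u ≠ ±1/2}` (`TwD_B_ld`: `TwD_B` is continuous at `S.A p`, `p` off the circles; `u ↦ sd u` is continuous).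
* a point `p` off the circles with `(S.A p).1 = sd u` is `pgM D u` (`D.S.A_inj`).  So `lam₁ t = pgM (-1/2 + 1/2 ex t)`, `lam₂ t = pgM (1/2 - 1/2 ex t)`, `q = pgM 0`.
* `pgM (apt i + s ex l) = k_i (l, s ge₁)` for `0 < s < ε`: `TwD_A₁` (and its analogue for the second circle: `D.S.glue 1`, `D.std₂`), `√(1 - |u|²) • ge₁`.

THE LETTER.  `ρ t = 1/2 + (s - 1/2) min (1, 4 t, 4 (1 - t))` (so `ρ = 1/2` at `t = 0, 1`, `ρ = s` on `[1/4, 3/4]`, `s ≤ ρ ≤ 1/2`), `θ t = max 0 (min 1 (2 t - 1/2))`.  `γ t = pgM (apt i + ρ t • ex (scen i - 1/2 + θ t))`, `t ∈ [0, 1]`: a loop at `q`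
(`apt i + 1/2 ex (scen i - 1/2) = 0`).  `|apt i + ρ ex φ| ≤ 1`, and it is neither `apt i` (`ρ > 0`) nor `- apt i` (distance `1` from `apt i`, `ρ ≤ 1/2`).
CLASS (`e = true`).  Homotopy rel ends from `lam_i` on `[0, 1]` to `γ`: `(o, t) ↦ pgM (apt i + ((1 - o) 1/2 + o ρ t) ex (scen i - 1/2 + (1 - o) t + o θ t))`; `lam_i t = pgM (apt i + 1/2 ex (scen i - 1/2 + t))`.  `hx : BCls q lam₁ x` gives the class.
PATTERN.  For `|t - 1/2| ≤ 3/32`: `ρ t = s`, `scen i - 1/2 + θ t = scen i + (t - 1/2) / (1/2)`: `γ t = k_i (scen i + (t - 1/2) / (1/2), s ge₁)`.  `only`: `γ t ∈ Sec D i' a`: `γ t` is off the circles, so `apt i + ρ t ex (..) = apt i' + r ex l`, `|l - scen i'| ≤ a`.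
For `i' = i`: `ex` equal, so `scen i - 1/2 + θ t - l ∈ ℤ`, `θ t ∈ [0, 1]`, `|l - scen i| ≤ a < 1/2`: `|θ t - 1/2| ≤ a`, hence `t ∈ (1/4, 3/4)` and `|t - 1/2| ≤ a / 2`.  For `i' ≠ i`: the real part of the left side has the sign of `apt i` or is `0`
(`ρ ≤ 1/2`), the real part of the right side is `> 1/2` in absolute value with the sign of `apt i'`.
`e = false`: `γ.symm`: class inverse, `γ.symm t = γ (1 - t)`: `e = -1`.
`gens_cls`: `γ` (for any `s`) is freely homotopic to the parallel curve `t ↦ k_i (scen i - 1/2 + t, s ge₁)` (shrink the first and the last quarter; or the homotopy in the page from `lam_i` to the circle of radius `s` around `apt i`, through circles of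
radius `(1 - o) 1/2 + o s`), which is homotopic to the core (`par_hom`, `ACB/Prl.lean`, after a translation of `t`); `cls_fhom`; `BCls` gives `Cls` with the constant path (`Cls.mk (Path.refl q)`).
-/

open scoped ContDiff Manifold Topology unitInterval
open Set Filter
open Pool.Agent.ACB

namespace Pool.Agent.MMV

variable {M : Type} [TopologicalSpace M] [ChartedSpace E4 M] [T2Space M] [IsManifold (𝓡 4) ∞ M]
  {k₁ k₂ : ℝ × E3 → M} {ε : ℝ}

section ngp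
omit [T2Space M] [IsManifold (𝓡 4) ∞ M]

theorem ngp_sd_u (u : ℂ) : TwD_u (sd u) = u := rfl

theorem ngp_sd_eq (u : ℂ) : sd u = TwD_m u (√(1 - ‖u‖ ^ 2) • ge₁) := by
  ext i
  fin_cases i <;> simp [sd, TwD_m, ge₁]

theorem ngp_e₁ : ‖ge₁‖ = 1 := by
  simp [ge₁]

theorem ngp_sd_norm {u : ℂ} (hu : ‖u‖ ≤ 1) : ‖sd u‖ = 1 := by
  have h1 : ‖sd u‖ ^ 2 = 1 := by
    rw [ngp_sd_eq, TwD_norm_m, norm_smul, ngp_e₁, mul_one, Real.norm_eq_abs, sq_abs, Real.sq_sqrt]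
    · ring
    · have := norm_nonneg u
      nlinarith
  have h2 := norm_nonneg (sd u)
  nlinarith

theorem ngp_sd_cont : Continuous sd := by
  have h : Continuous fun u : ℂ => TwD_m u (√(1 - ‖u‖ ^ 2) • ge₁) := by
    unfold TwD_m
    fun_prop
  have e : sd = fun u : ℂ => TwD_m u (√(1 - ‖u‖ ^ 2) • ge₁) := funext ngp_sd_eq
  rw [e]
  exact h

theorem ngp_sph {u : ℂ} (hu : ‖u‖ ≤ 1) : (TwD_sph (sd u)).1 = sd u := by
  have h1 := ngp_sd_norm hu
  have h2 : sd u ≠ 0 := by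
    intro h
    rw [h, norm_zero] at h1
    exact zero_ne_one h1
  rw [TwD_sph_coe h2, h1, inv_one, one_smul]

/-- the page -/
noncomputable def ngp_pg (D : Dbl (-1 / 2) (1 / 2) k₁ k₂ ε) (u : ℂ) : M := TwD_B D (TwD_sph (sd u))

theorem ngp_off (D : Dbl (-1 / 2) (1 / 2) k₁ k₂ ε) {u : ℂ} (hu : ‖u‖ ≤ 1) (h0 : u ≠ -1 / 2) (h1 : u ≠ 1 / 2) :
    Off ![k₁, k₂] (ngp_pg D u) ∧ (D.S.A (ngp_pg D u)) = TwD_sph (sd u) := by
  have e := ngp_sph hu
  obtain ⟨p, hp, hA⟩ := TwD_A_ex D (q := TwD_sph (sd u)) (by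
    rw [e, ngp_sd_u]
    push_cast
    exact h0) (by
    rw [e, ngp_sd_u]
    push_cast
    exact h1)
  have h2 : ngp_pg D u = p := by
    unfold ngp_pg
    rw [← hA, TwD_B_A D hp]
  rw [h2]
  exact ⟨hp, hA⟩

theorem ngp_uniq (D : Dbl (-1 / 2) (1 / 2) k₁ k₂ ε) {u : ℂ} (hu : ‖u‖ ≤ 1) {p : M} (hp : Off ![k₁, k₂] p)
    (h : (D.S.A p).1 = sd u) : p = ngp_pg D u := by
  unfold ngp_pg
  have h1 : D.S.A p = TwD_sph (sd u) := Subtype.ext (by rw [ngp_sph hu]; exact h)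
  rw [← h1, TwD_B_A D hp]

theorem ngp_apt (i : Fin 2) : |apt i| = 1 / 2 := by
  fin_cases i
  · show |(-1 / 2 : ℝ)| = 1 / 2
    norm_num [abs_of_neg]
  · show |(1 / 2 : ℝ)| = 1 / 2
    norm_num

theorem ngp_pt (i : Fin 2) {r : ℝ} (h0 : 0 < r) (h1 : r ≤ 1 / 2) (φ : ℝ) :
    ‖(apt i : ℂ) + r * ex φ‖ ≤ 1 ∧ (apt i : ℂ) + r * ex φ ≠ -1 / 2 ∧ (apt i : ℂ) + r * ex φ ≠ 1 / 2 := by
  have h2 : ‖(r : ℂ) * ex φ‖ = r := by
    rw [norm_mul, TwD_ex_norm, mul_one, Complex.norm_real, Real.norm_of_nonneg h0.le]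
  have h3 : ‖(apt i : ℂ)‖ = 1 / 2 := by
    rw [Complex.norm_real, Real.norm_eq_abs, ngp_apt]
  have h4 : ∀ z : ℂ, (apt i : ℂ) + r * ex φ = z → ‖z - apt i‖ = r := by
    intro z hz
    rw [← hz, add_sub_cancel_left, h2]
  refine ⟨?_, ?_, ?_⟩
  · calc ‖(apt i : ℂ) + r * ex φ‖ ≤ ‖(apt i : ℂ)‖ + ‖(r : ℂ) * ex φ‖ := norm_add_le _ _
      _ ≤ 1 := by rw [h2, h3]; linarith
  · intro h
    have h5 := h4 _ h
    fin_cases i
    · have : ((-1 / 2 : ℂ) - (apt 0 : ℝ)) = 0 := by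
        simp [apt]
      change ‖(-1 / 2 : ℂ) - (apt 0 : ℝ)‖ = r at h5
      rw [this, norm_zero] at h5
      exact h0.ne h5
    · have : ((-1 / 2 : ℂ) - (apt 1 : ℝ)) = -1 := by
        simp [apt]
        norm_num
      change ‖(-1 / 2 : ℂ) - (apt 1 : ℝ)‖ = r at h5
      rw [this, norm_neg, norm_one] at h5
      linarith
  · intro h
    have h5 := h4 _ h
    fin_cases i
    · have : ((1 / 2 : ℂ) - (apt 0 : ℝ)) = 1 := by
        simp [apt]
        norm_num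
      change ‖(1 / 2 : ℂ) - (apt 0 : ℝ)‖ = r at h5
      rw [this, norm_one] at h5
      linarith
    · have : ((1 / 2 : ℂ) - (apt 1 : ℝ)) = 0 := by
        simp [apt]
      change ‖(1 / 2 : ℂ) - (apt 1 : ℝ)‖ = r at h5
      rw [this, norm_zero] at h5
      exact h0.ne h5

/-- polar coordinates in the page -/
noncomputable def ngp_pp (D : Dbl (-1 / 2) (1 / 2) k₁ k₂ ε) (i : Fin 2) (r φ : ℝ) : M :=
  ngp_pg D ((apt i : ℂ) + r * ex φ)

theorem ngp_pp_off (D : Dbl (-1 / 2) (1 / 2) k₁ k₂ ε) (i : Fin 2) {r : ℝ} (h0 : 0 < r) (h1 : r ≤ 1 / 2) (φ : ℝ) :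
    Off ![k₁, k₂] (ngp_pp D i r φ) ∧ TwD_u (D.S.A (ngp_pp D i r φ)).1 = (apt i : ℂ) + r * ex φ := by
  obtain ⟨a1, a2, a3⟩ := ngp_pt i h0 h1 φ
  obtain ⟨b1, b2⟩ := ngp_off D a1 a2 a3
  refine ⟨b1, ?_⟩
  unfold ngp_pp
  rw [b2, ngp_sph a1, ngp_sd_u]

theorem ngp_pp_per (D : Dbl (-1 / 2) (1 / 2) k₁ k₂ ε) (i : Fin 2) (r φ : ℝ) :
    ngp_pp D i r (φ + 1) = ngp_pp D i r φ := by
  unfold ngp_pp
  rw [prl_ex_per]

theorem ngp_ex_half : ex (1 / 2) = -1 := by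
  unfold ex
  rw [show (2 * Real.pi * (1 / 2) : ℝ) = Real.pi by ring]
  exact Complex.exp_pi_mul_I

theorem ngp_ex_zero : ex 0 = 1 := by
  unfold ex
  simp

theorem ngp_ex_neg_half : ex (-1 / 2) = -1 := by
  have := prl_ex_per (-1 / 2)
  rw [← this, show (-1 / 2 + 1 : ℝ) = 1 / 2 by norm_num, ngp_ex_half]

/-- the base point -/
theorem ngp_base (D : Dbl (-1 / 2) (1 / 2) k₁ k₂ ε) (i : Fin 2) :
    ngp_pp D i (1 / 2) (scen i - 1 / 2) = ngp_pg D 0 := by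
  unfold ngp_pp
  congr 1
  fin_cases i
  · show ((-1 / 2 : ℝ) : ℂ) + ((1 / 2 : ℝ) : ℂ) * ex (1 / 2 - 1 / 2) = 0
    rw [sub_self, ngp_ex_zero]
    push_cast
    ring
  · show ((1 / 2 : ℝ) : ℂ) + ((1 / 2 : ℝ) : ℂ) * ex (0 - 1 / 2) = 0
    rw [show (0 - 1 / 2 : ℝ) = -1 / 2 by norm_num, ngp_ex_neg_half]
    push_cast
    ring

theorem ngp_base' (D : Dbl (-1 / 2) (1 / 2) k₁ k₂ ε) (i : Fin 2) :
    ngp_pp D i (1 / 2) (scen i + 1 / 2) = ngp_pg D 0 := by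
  have h := ngp_pp_per D i (1 / 2) (scen i - 1 / 2)
  rw [← ngp_base D i, ← h]
  congr 1
  ring

theorem ngp_ex (t : ℝ) : Pool.Agent.RSG.ex t = ex t := rfl

theorem ngp_lam₁ (D : Dbl (-1 / 2) (1 / 2) k₁ k₂ ε) {q : M} {lam₁ lam₂ : ℝ → M} (hG : Gens D q lam₁ lam₂) (t : ℝ) :
    lam₁ t = ngp_pp D 0 (1 / 2) (scen 0 - 1 / 2 + t) := by
  have e : (-1 / 2 + 1 / 2 * ex t : ℂ) = (apt 0 : ℂ) + ((1 / 2 : ℝ) : ℂ) * ex (scen 0 - 1 / 2 + t) := by
    show _ = ((-1 / 2 : ℝ) : ℂ) + ((1 / 2 : ℝ) : ℂ) * ex (1 / 2 - 1 / 2 + t)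
    rw [sub_self, zero_add]
    push_cast
    ring
  have h := hG.eq₁ t
  rw [ngp_ex, e] at h
  exact ngp_uniq D (ngp_pt 0 (by norm_num) le_rfl _).1 (hG.off₁ t) h

theorem ngp_lam₂ (D : Dbl (-1 / 2) (1 / 2) k₁ k₂ ε) {q : M} {lam₁ lam₂ : ℝ → M} (hG : Gens D q lam₁ lam₂) (t : ℝ) :
    lam₂ t = ngp_pp D 1 (1 / 2) (scen 1 - 1 / 2 + t) := by
  have e : (1 / 2 - 1 / 2 * ex t : ℂ) = (apt 1 : ℂ) + ((1 / 2 : ℝ) : ℂ) * ex (scen 1 - 1 / 2 + t) := by
    show _ = ((1 / 2 : ℝ) : ℂ) + ((1 / 2 : ℝ) : ℂ) * ex (0 - 1 / 2 + t)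
    rw [show (0 - 1 / 2 + t : ℝ) = -1 / 2 + t by ring, TwD_ex_add, ngp_ex_neg_half]
    push_cast
    ring
  have h := hG.eq₂ t
  rw [ngp_ex, e] at h
  exact ngp_uniq D (ngp_pt 1 (by norm_num) le_rfl _).1 (hG.off₂ t) h

theorem ngp_q (D : Dbl (-1 / 2) (1 / 2) k₁ k₂ ε) {q : M} {lam₁ lam₂ : ℝ → M} (hG : Gens D q lam₁ lam₂) :
    q = ngp_pg D 0 := by
  rw [← hG.base₁, ngp_lam₁ D hG, add_zero, ngp_base]

/-- the parallel curve of a circle in the page -/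
theorem ngp_tube (D : Dbl (-1 / 2) (1 / 2) k₁ k₂ ε) (i : Fin 2) (l : ℝ) {s : ℝ} (h0 : 0 < s) (h1 : s < ε) :
    ![k₁, k₂] i (l, s • ge₁) = ngp_pp D i s l := by
  have hε := D.small
  have hs : s ≤ 1 / 2 := by linarith
  have hn : ‖s • ge₁‖ = s := by rw [norm_smul, ngp_e₁, mul_one, Real.norm_of_nonneg h0.le]
  have hn0 : s • ge₁ ≠ 0 := by
    intro h
    rw [h, norm_zero] at hn
    exact h0.ne hn
  have hl : ‖s • ge₁‖ < ε := by rw [hn]; exact h1
  fin_cases i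
  · refine ngp_uniq D (ngp_pt 0 h0 hs l).1 (TwD_off₁ D l hl hn0) ?_
    have h2 := TwD_A₁ D l hl hn0
    show (D.S.A (k₁ (l, s • ge₁))).1 = sd ((apt 0 : ℂ) + s * ex l)
    rw [h2, hn, ngp_sd_eq, smul_smul, mul_assoc, inv_mul_cancel₀ h0.ne', mul_one]
    rfl
  · refine ngp_uniq D (ngp_pt 1 h0 hs l).1 (TwD_off₂ D l hl hn0) ?_
    have h2 : D.S.A (k₂ (l, s • ge₁)) = D.S.Q 1 (s * ex l, ⟨ge₁, by rw [mem_sphere_zero_iff_norm, ngp_e₁]⟩) :=
      (D.S.glue 1 l s ⟨ge₁, by rw [mem_sphere_zero_iff_norm, ngp_e₁]⟩ h0 h1).symm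
    have h4 : ‖(s : ℂ) * ex l‖ < ε := by
      rw [norm_mul, TwD_ex_norm, mul_one, Complex.norm_real, Real.norm_of_nonneg h0.le]
      exact h1
    show (D.S.A (k₂ (l, s • ge₁))).1 = sd ((apt 1 : ℂ) + s * ex l)
    rw [h2, D.std₂ _ _ h4, TwD_std, ngp_sd_eq]
    rfl

end ngp

section ngp
omit [IsManifold (𝓡 4) ∞ M]

/-- the page is continuous -/
theorem ngp_pg_cont (D : Dbl (-1 / 2) (1 / 2) k₁ k₂ ε) {u : ℂ} (hu : ‖u‖ ≤ 1) (h0 : u ≠ -1 / 2) (h1 : u ≠ 1 / 2) :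
    ContinuousAt (ngp_pg D) u := by
  obtain ⟨hp, hA⟩ := ngp_off D hu h0 h1
  have h2 := (TwD_B_ld D hp).contMDiffAt.continuousAt
  rw [hA] at h2
  have h3 : sd u ≠ 0 := by
    intro h
    have := ngp_sd_norm hu
    rw [h, norm_zero] at this
    exact zero_ne_one this
  have h4 := (TwD_sph_smooth h3).continuousAt
  have h5 : ContinuousAt (fun u => TwD_sph (sd u)) u := ContinuousAt.comp (g := TwD_sph) h4 ngp_sd_cont.continuousAt
  exact ContinuousAt.comp (g := TwD_B D) (f := fun u => TwD_sph (sd u)) h2 h5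

theorem ngp_pp_cont (D : Dbl (-1 / 2) (1 / 2) k₁ k₂ ε) (i : Fin 2) {X : Type*} [TopologicalSpace X] {R Φ : X → ℝ}
    {x : X} (hR : ContinuousAt R x) (hΦ : ContinuousAt Φ x) (h0 : 0 < R x) (h1 : R x ≤ 1 / 2) :
    ContinuousAt (fun y => ngp_pp D i (R y) (Φ y)) x := by
  obtain ⟨a1, a2, a3⟩ := ngp_pt i h0 h1 (Φ x)
  have h2 : ContinuousAt (fun y => (apt i : ℂ) + (R y : ℂ) * ex (Φ y)) x := by
    have e1 : ContinuousAt (fun y => ex (Φ y)) x := ContinuousAt.comp (g := ex) prl_ex_cont.continuousAt hΦ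
    have e2 : ContinuousAt (fun y => (R y : ℂ)) x :=
      ContinuousAt.comp (g := fun r : ℝ => (r : ℂ)) Complex.continuous_ofReal.continuousAt hR
    exact continuousAt_const.add (e2.mul e1)
  exact ContinuousAt.comp (g := ngp_pg D) (f := fun y => (apt i : ℂ) + (R y : ℂ) * ex (Φ y))
    (ngp_pg_cont D a1 a2 a3) h2

/-- homotopies in the page -/
theorem ngp_hom (D : Dbl (-1 / 2) (1 / 2) k₁ k₂ ε) (i : Fin 2) {q : M} {γ γ' : Path q q} (R Φ : ℝ → ℝ → ℝ)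
    (hR : Continuous fun y : ℝ × ℝ => R y.1 y.2) (hΦ : Continuous fun y : ℝ × ℝ => Φ y.1 y.2)
    (h0 : ∀ o ∈ Icc (0 : ℝ) 1, ∀ t ∈ Icc (0 : ℝ) 1, 0 < R o t ∧ R o t ≤ 1 / 2)
    (e0 : ∀ o ∈ Icc (0 : ℝ) 1, R o 0 = R 0 0 ∧ Φ o 0 = Φ 0 0) (e1 : ∀ o ∈ Icc (0 : ℝ) 1, R o 1 = R 0 1 ∧ Φ o 1 = Φ 0 1)
    (hγ : ∀ t : I, γ t = ngp_pp D i (R 0 t) (Φ 0 t)) (hγ' : ∀ t : I, γ' t = ngp_pp D i (R 1 t) (Φ 1 t)) :
    Path.Homotopic γ γ' := by
  refine ⟨{ toFun := fun y => ngp_pp D i (R y.1 y.2) (Φ y.1 y.2)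
            continuous_toFun := ?_
            map_zero_left := ?_
            map_one_left := ?_
            prop' := ?_ }⟩
  · rw [continuous_iff_continuousAt]
    intro y
    have hc : Continuous fun y : I × I => (((y.1 : ℝ), (y.2 : ℝ)) : ℝ × ℝ) := by fun_prop
    exact ngp_pp_cont D i (R := fun y : I × I => R y.1 y.2) (Φ := fun y : I × I => Φ y.1 y.2)
      (hR.comp hc).continuousAt (hΦ.comp hc).continuousAt (h0 _ y.1.2 _ y.2.2).1 (h0 _ y.1.2 _ y.2.2).2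
  · intro t
    exact (hγ t).symm
  · intro t
    exact (hγ' t).symm
  · intro o t ht
    rcases ht with rfl | ht
    · show ngp_pp D i (R o 0) (Φ o 0) = γ 0
      rw [(e0 o o.2).1, (e0 o o.2).2]
      exact (hγ 0).symm
    · rw [mem_singleton_iff] at ht
      subst ht
      show ngp_pp D i (R o 1) (Φ o 1) = γ 1
      rw [(e1 o o.2).1, (e1 o o.2).2]
      exact (hγ 1).symm

omit [T2Space M] in
/-- points of the sectors in the page -/
theorem ngp_sec (D : Dbl (-1 / 2) (1 / 2) k₁ k₂ ε) (i i' : Fin 2) {r φ a : ℝ} (h0 : 0 < r) (h1 : r ≤ 1 / 2)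
    (ha : a < 1 / 4) (h : ngp_pp D i r φ ∈ Sec D i' a) : i' = i ∧ ∃ n : ℤ, |φ + n - scen i| ≤ a := by
  obtain ⟨b1, b2⟩ := ngp_pp_off D i h0 h1 φ
  rcases h with ⟨-, r', l, h2, h3, h4⟩ | ⟨l, -, h2⟩
  swap
  · exact absurd h2 (b1 i' l)
  rw [b2] at h4
  have hre : ∀ x : ℝ, (ex x).re = Real.cos (2 * Real.pi * x) := by
    intro x
    unfold ex
    exact Complex.exp_ofReal_mul_I_re _
  have hre2 : apt i + r * Real.cos (2 * Real.pi * φ) = apt i' + r' * Real.cos (2 * Real.pi * l) := by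
    have := congrArg Complex.re h4
    simp only [Complex.add_re, Complex.ofReal_re, Complex.re_ofReal_mul, hre] at this
    exact this
  have hpi := Real.pi_pos
  rw [abs_le] at h3
  by_cases hi : i' = i
  · subst hi
    refine ⟨rfl, ?_⟩
    have h5 := add_left_cancel h4
    have h6 : r = r' := by
      have := congrArg norm h5
      rw [norm_mul, norm_mul, TwD_ex_norm, TwD_ex_norm, mul_one, mul_one, Complex.norm_real, Complex.norm_real,
        Real.norm_of_nonneg h0.le, Real.norm_of_nonneg h2.le] at this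
      exact this
    subst h6
    have h7 : ex φ = ex l := mul_left_cancel₀ (by exact_mod_cast h0.ne') h5
    obtain ⟨n, hn⟩ := ex_inj h7
    refine ⟨n, ?_⟩
    rw [← hn, abs_le]
    exact h3
  · exfalso
    have hc1 := Real.cos_le_one (2 * Real.pi * φ)
    have hc2 := Real.neg_one_le_cos (2 * Real.pi * φ)
    have hii : (i = 0 ∧ i' = 1) ∨ (i = 1 ∧ i' = 0) := by
      revert hi
      fin_cases i <;> fin_cases i' <;> simp
    rcases hii with ⟨rfl, rfl⟩ | ⟨rfl, rfl⟩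
    · have h6 : 0 < Real.cos (2 * Real.pi * l) := by
        apply Real.cos_pos_of_mem_Ioo
        have e : scen 1 = 0 := rfl
        rw [e] at h3
        constructor <;> nlinarith
      have e1 : apt 0 = -1 / 2 := rfl
      have e2 : apt 1 = 1 / 2 := rfl
      rw [e1, e2] at hre2
      nlinarith [mul_pos h2 h6]
    · have h6 : Real.cos (2 * Real.pi * l) < 0 := by
        apply Real.cos_neg_of_pi_div_two_lt_of_lt
        · have e : scen 0 = 1 / 2 := rfl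
          rw [e] at h3
          nlinarith
        · have e : scen 0 = 1 / 2 := rfl
          rw [e] at h3
          nlinarith
      have e1 : apt 0 = -1 / 2 := rfl
      have e2 : apt 1 = 1 / 2 := rfl
      rw [e1, e2] at hre2
      nlinarith [mul_neg_of_pos_of_neg h2 h6]


end ngp

theorem ngp_cont_min : Continuous fun t : ℝ => min 1 (min (4 * t) (4 * (1 - t))) := by fun_prop

/-- the radius -/
noncomputable def ngp_r (s t : ℝ) : ℝ := 1 / 2 + (s - 1 / 2) * min 1 (min (4 * t) (4 * (1 - t)))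

/-- the angle -/
noncomputable def ngp_t (t : ℝ) : ℝ := max 0 (min 1 (2 * t - 1 / 2))

theorem ngp_r_cont (s : ℝ) : Continuous (ngp_r s) := by
  unfold ngp_r
  fun_prop

theorem ngp_t_cont : Continuous ngp_t := by
  unfold ngp_t
  fun_prop

theorem ngp_m {t : ℝ} (ht : t ∈ Icc (0 : ℝ) 1) :
    0 ≤ min 1 (min (4 * t) (4 * (1 - t))) ∧ min 1 (min (4 * t) (4 * (1 - t))) ≤ 1 := by
  refine ⟨le_min zero_le_one (le_min ?_ ?_), min_le_left _ _⟩
  · linarith [ht.1]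
  · linarith [ht.2]

theorem ngp_r_pos {s t : ℝ} (h0 : 0 < s) (h1 : s ≤ 1 / 2) (ht : t ∈ Icc (0 : ℝ) 1) :
    0 < ngp_r s t ∧ ngp_r s t ≤ 1 / 2 := by
  obtain ⟨a1, a2⟩ := ngp_m ht
  unfold ngp_r
  constructor <;> nlinarith

theorem ngp_r_zero (s : ℝ) : ngp_r s 0 = 1 / 2 := by
  unfold ngp_r
  norm_num

theorem ngp_r_one (s : ℝ) : ngp_r s 1 = 1 / 2 := by
  unfold ngp_r
  norm_num

theorem ngp_t_zero : ngp_t 0 = 0 := by
  unfold ngp_t
  norm_num

theorem ngp_t_one : ngp_t 1 = 1 := by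
  unfold ngp_t
  norm_num

theorem ngp_r_mid (s : ℝ) {t : ℝ} (h : |t - 1 / 2| ≤ 1 / 4) : ngp_r s t = s := by
  rw [abs_le] at h
  have h1 : min 1 (min (4 * t) (4 * (1 - t))) = 1 := by
    apply min_eq_left
    apply le_min <;> linarith
  unfold ngp_r
  rw [h1]
  ring

theorem ngp_t_mid {t : ℝ} (h : |t - 1 / 2| ≤ 1 / 4) : ngp_t t = 2 * t - 1 / 2 := by
  rw [abs_le] at h
  unfold ngp_t
  rw [min_eq_right (by linarith), max_eq_right (by linarith)]

theorem ngp_t_mem (t : ℝ) : 0 ≤ ngp_t t ∧ ngp_t t ≤ 1 :=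
  ⟨le_max_left _ _, max_le zero_le_one (min_le_left _ _)⟩

theorem ngp_t_near {t a : ℝ} (ha : a < 1 / 2) (h : |ngp_t t - 1 / 2| ≤ a) : |t - 1 / 2| ≤ a / 2 := by
  rw [abs_le] at h
  have h1 : ngp_t t = 2 * t - 1 / 2 := by
    unfold ngp_t at h ⊢
    rcases le_total (2 * t - 1 / 2) 0 with h2 | h2
    · exfalso
      rw [min_eq_right (by linarith), max_eq_left h2] at h
      linarith [h.1]
    · rcases le_total 1 (2 * t - 1 / 2) with h3 | h3
      · exfalso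
        rw [min_eq_left h3, max_eq_right zero_le_one] at h
        linarith [h.2]
      · rw [min_eq_right h3, max_eq_right h2]
  rw [h1] at h
  rw [abs_le]
  constructor <;> linarith [h.1, h.2]

/-- the loop of a letter -/
theorem ngp_loop (D : Dbl (-1 / 2) (1 / 2) k₁ k₂ ε) {q : M} {lam₁ lam₂ : ℝ → M} (hG : Gens D q lam₁ lam₂)
    (i : Fin 2) {s : ℝ} (h0 : 0 < s) (h1 : s ≤ 1 / 2) :
    ∃ γ : Path q q, ∀ t : I, γ t = ngp_pp D i (ngp_r s t) (scen i - 1 / 2 + ngp_t t) := by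
  have hq := ngp_q D hG
  refine ⟨{ toFun := fun t => ngp_pp D i (ngp_r s t) (scen i - 1 / 2 + ngp_t t)
            continuous_toFun := ?_
            source' := ?_
            target' := ?_ }, fun t => rfl⟩
  · rw [continuous_iff_continuousAt]
    intro t
    have e1 : Continuous fun t : I => ngp_r s t := (ngp_r_cont s).comp continuous_subtype_val
    have e2 : Continuous fun t : I => scen i - 1 / 2 + ngp_t t :=
      continuous_const.add (ngp_t_cont.comp continuous_subtype_val)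
    exact ngp_pp_cont D i e1.continuousAt e2.continuousAt (ngp_r_pos h0 h1 t.2).1 (ngp_r_pos h0 h1 t.2).2
  · show ngp_pp D i (ngp_r s 0) (scen i - 1 / 2 + ngp_t 0) = q
    rw [ngp_r_zero, ngp_t_zero, add_zero, ngp_base, hq]
  · show ngp_pp D i (ngp_r s 1) (scen i - 1 / 2 + ngp_t 1) = q
    rw [ngp_r_one, ngp_t_one, show scen i - 1 / 2 + 1 = scen i + 1 / 2 by ring, ngp_base', hq]

/-- the class of the loop of a letter -/
theorem ngp_cls (D : Dbl (-1 / 2) (1 / 2) k₁ k₂ ε) {q : M} {c : ℝ → M} (i : Fin 2) {s : ℝ} (h0 : 0 < s)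
    (h1 : s ≤ 1 / 2) (hc : ∀ t, c t = ngp_pp D i (1 / 2) (scen i - 1 / 2 + t)) {x : FundamentalGroup M q}
    (hx : BCls q c x) {γ : Path q q} (hγ : ∀ t : I, γ t = ngp_pp D i (ngp_r s t) (scen i - 1 / 2 + ngp_t t)) :
    FundamentalGroup.fromPath ⟦γ⟧ = x := by
  obtain ⟨γ₀, hγ₀, rfl⟩ := hx
  congr 1
  refine Quotient.sound (Path.Homotopic.symm ?_)
  refine ngp_hom D i (fun o t => (1 - o) * (1 / 2) + o * ngp_r s t)
    (fun o t => scen i - 1 / 2 + ((1 - o) * t + o * ngp_t t)) ?_ ?_ ?_ ?_ ?_ ?_ ?_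
  · have := (ngp_r_cont s).comp (continuous_snd (X := ℝ) (Y := ℝ))
    fun_prop
  · have := ngp_t_cont.comp (continuous_snd (X := ℝ) (Y := ℝ))
    fun_prop
  · intro o ho t ht
    obtain ⟨a1, a2⟩ := ngp_r_pos h0 h1 ht
    obtain ⟨b1, b2⟩ := ho
    constructor
    · rcases b1.eq_or_lt with h | h
      · rw [← h]; norm_num
      · nlinarith [mul_pos h a1]
    · nlinarith
  · intro o _
    simp only [ngp_r_zero, ngp_t_zero]
    constructor <;> ring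
  · intro o _
    simp only [ngp_r_one, ngp_t_one]
    constructor <;> ring
  · intro t
    rw [hγ₀, hc]
    congr 1
    · ring
    · ring
  · intro t
    rw [hγ]
    congr 1
    · ring
    · ring

theorem ngp_letter_ex (D : Dbl (-1 / 2) (1 / 2) k₁ k₂ ε) {q : M} {lam₁ lam₂ : ℝ → M} (hG : Gens D q lam₁ lam₂)
    {x y : FundamentalGroup M q} (hx : BCls q lam₁ x) (hy : BCls q lam₂ y) (i : Fin 2) {s : ℝ}
    (h0 : 0 < s) (h1 : s ≤ 1 / 2) :
    ∃ γ : Path q q, FundamentalGroup.fromPath ⟦γ⟧ = ![x, y] i ∧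
      ∀ t : I, γ t = ngp_pp D i (ngp_r s t) (scen i - 1 / 2 + ngp_t t) := by
  obtain ⟨γ, hγ⟩ := ngp_loop D hG i h0 h1
  refine ⟨γ, ?_, hγ⟩
  fin_cases i
  · exact ngp_cls D 0 h0 h1 (ngp_lam₁ D hG) hx hγ
  · exact ngp_cls D 1 h0 h1 (ngp_lam₂ D hG) hy hγ

/-- the pattern of one crossing -/
theorem ngp_pat (D : Dbl (-1 / 2) (1 / 2) k₁ k₂ ε) {q : M} (i : Fin 2) {e s : ℝ} (he : e = 1 ∨ e = -1)
    (h0 : 0 < s) (h1 : s < ε / 2) {γ : Path q q}
    (hγ : ∀ t : I, γ t = ngp_pp D i (ngp_r s (1 / 2 + e * (t - 1 / 2)))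
      (scen i - 1 / 2 + ngp_t (1 / 2 + e * (t - 1 / 2)))) :
    Pat D (per γ) [⟨i, s, e, 1 / 2, 1 / 2⟩] (3 / 16) (1 / 8) := by
  have hε := D.small
  have hs : s ≤ 1 / 2 := by linarith
  have habs : ∀ t : ℝ, |1 / 2 + e * (t - 1 / 2) - 1 / 2| = |t - 1 / 2| := by
    intro t
    rw [add_sub_cancel_left, abs_mul]
    rcases he with rfl | rfl <;> simp
  have hmem : ∀ t ∈ Icc (0 : ℝ) 1, 1 / 2 + e * (t - 1 / 2) ∈ Icc (0 : ℝ) 1 := by
    intro t ht
    rcases he with rfl | rfl <;> constructor <;> linarith [ht.1, ht.2]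
  have hper : ∀ t ∈ Icc (0 : ℝ) 1, per γ t = ngp_pp D i (ngp_r s (1 / 2 + e * (t - 1 / 2)))
      (scen i - 1 / 2 + ngp_t (1 / 2 + e * (t - 1 / 2))) := by
    intro t ht
    have := per_coe γ ⟨t, ht⟩
    rw [hγ] at this
    exact this
  refine ⟨?_, List.pairwise_singleton _ _, ?_, ?_⟩
  · intro x hx
    rw [List.mem_singleton] at hx
    subst hx
    refine ⟨by norm_num, h0, h1, he, by norm_num, by norm_num⟩
  · intro x hx t ht
    rw [List.mem_singleton] at hx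
    subst hx
    simp only at ht ⊢
    have ht2 : |t - 1 / 2| ≤ 1 / 4 := by linarith
    have ht3 := abs_le.1 ht2
    rw [hper t ⟨by linarith [ht3.1], by linarith [ht3.2]⟩, ngp_r_mid s (by rw [habs]; exact ht2),
      ngp_t_mid (by rw [habs]; exact ht2), ngp_tube D i _ h0 (by linarith)]
    congr 1
    ring
  · intro i' t ht hsec
    rw [hper t ht] at hsec
    obtain ⟨a1, a2⟩ := ngp_r_pos h0 hs (hmem t ht)
    obtain ⟨rfl, n, hn⟩ := ngp_sec D i i' a1 a2 (by norm_num) hsec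
    refine ⟨_, List.mem_singleton_self _, rfl, ?_⟩
    obtain ⟨b1, b2⟩ := ngp_t_mem (1 / 2 + e * (t - 1 / 2))
    have hn2 := abs_le.1 hn
    have hn0 : n = 0 := by
      have c1 : (n : ℝ) < 1 := by linarith [hn2.2]
      have c2 : (-1 : ℝ) < n := by linarith [hn2.1]
      have c3 : n < 1 := by exact_mod_cast c1
      have c4 : -1 < n := by exact_mod_cast c2
      omega
    subst hn0
    have h4 := ngp_t_near (a := 1 / 8) (by norm_num) (t := 1 / 2 + e * (t - 1 / 2)) (by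
      rw [abs_le]
      constructor
      · have := hn2.1
        push_cast at this
        linarith
      · have := hn2.2
        push_cast at this
        linarith)
    rw [habs] at h4
    simp only
    linarith

theorem letter (D : Dbl (-1 / 2) (1 / 2) k₁ k₂ ε) {q : M} {lam₁ lam₂ : ℝ → M} (hG : Gens D q lam₁ lam₂)
    {x y : FundamentalGroup M q} (hx : BCls q lam₁ x) (hy : BCls q lam₂ y) (i : Fin 2) (e : Bool) {s : ℝ}
    (h0 : 0 < s) (h1 : s < ε / 2) :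
    ∃ γ : Path q q, FundamentalGroup.fromPath ⟦γ⟧ = (if e then ![x, y] i else (![x, y] i)⁻¹) ∧
      Pat D (per γ) [⟨i, s, if e then 1 else -1, 1 / 2, 1 / 2⟩] (3 / 16) (1 / 8) := by
  have hε := D.small
  obtain ⟨γ, hc, hγ⟩ := ngp_letter_ex D hG hx hy i h0 (by linarith : s ≤ 1 / 2)
  cases e
  · refine ⟨γ.symm, ?_, ?_⟩
    · rw [← hc]
      rfl
    · refine ngp_pat D i (Or.inr rfl) h0 h1 ?_
      intro t
      rw [Path.symm_apply, Function.comp_apply, hγ, unitInterval.coe_symm_eq]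
      congr 1
      · congr 1
        simp
        ring
      · congr 2
        simp
        ring
  · refine ⟨γ, ?_, ?_⟩
    · rw [hc]
      rfl
    · refine ngp_pat D i (Or.inl rfl) h0 h1 ?_
      intro t
      rw [hγ]
      congr 1
      · congr 1
        simp
      · congr 2
        simp

/-- the base point is off the sectors -/
theorem base_off (D : Dbl (-1 / 2) (1 / 2) k₁ k₂ ε) {q : M} {lam₁ lam₂ : ℝ → M} (hG : Gens D q lam₁ lam₂) (i : Fin 2)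
    {a : ℝ} (ha : a < 1 / 4) : q ∉ Sec D i a := by
  intro h
  rw [ngp_q D hG, ← ngp_base D i] at h
  obtain ⟨-, n, hn⟩ := ngp_sec D i i (by norm_num) le_rfl ha h
  have hn2 := abs_le.1 hn
  have c1 : (n : ℝ) < 1 := by linarith [hn2.2]
  have c2 : (0 : ℝ) < n := by linarith [hn2.1]
  have c3 : n < 1 := by exact_mod_cast c1
  have c4 : 0 < n := by exact_mod_cast c2
  omega

theorem ngp_bcls {q : M} {c : ℝ → M} {x : FundamentalGroup M q} (hx : BCls q c x) : Cls q c x := by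
  obtain ⟨γ, hγ, rfl⟩ := hx
  refine Cls.mk (Path.refl q) γ hγ ?_
  congr 1
  refine Quotient.sound ?_
  have h1 : Path.Homotopic ((Path.refl q).trans γ) γ := ⟨Path.Homotopy.reflTrans γ⟩
  have h2 : Path.Homotopic (γ.trans (Path.refl q)) γ := ⟨Path.Homotopy.transRefl γ⟩
  rw [Path.refl_symm]
  exact (h1.hcomp (Path.Homotopic.refl _)).trans h2

theorem ngp_gens (D : Dbl (-1 / 2) (1 / 2) k₁ k₂ ε) {q : M} {c : ℝ → M} (i : Fin 2)
    (hc : ∀ t, c t = ngp_pp D i (1 / 2) (scen i - 1 / 2 + t)) {x : FundamentalGroup M q}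
    (hx : BCls q c x) : Cls q (core (![k₁, k₂] i)) x := by
  have hpos := (D.tub.thick i).pos
  have hε := D.small
  set s : ℝ := ε / 2 with hs
  have h0 : 0 < s := by rw [hs]; linarith
  have h1 : s < ε := by rw [hs]; linarith
  have h2 : s ≤ 1 / 2 := by linarith
  have hs2 : ‖(⟨ge₁, by rw [mem_sphere_zero_iff_norm, ngp_e₁]⟩ : S2).1‖ = 1 := ngp_e₁
  have f1 : FHom univ (core (![k₁, k₂] i)) (fun t => ![k₁, k₂] i (t, s • ge₁)) :=
    par_hom (D.tub.thick i) h0 h1 ⟨ge₁, by rw [mem_sphere_zero_iff_norm, ngp_e₁]⟩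
  have f2 : FHom univ c (fun t => ![k₁, k₂] i (t, s • ge₁)) := by
    refine FHom.mk' (fun o t => ngp_pp D i ((1 - o) * (1 / 2) + o * s) ((1 - o) * (scen i - 1 / 2) + t)) ?_ ?_ ?_ ?_ ?_
    · rintro ⟨o, t⟩ ⟨ho, -⟩
      refine ContinuousAt.continuousWithinAt ?_
      have hr : 0 < (1 - o) * (1 / 2) + o * s ∧ (1 - o) * (1 / 2) + o * s ≤ 1 / 2 := by
        obtain ⟨b1, b2⟩ := ho
        simp only at b1 b2
        constructor
        · rcases b1.eq_or_lt with h | h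
          · rw [← h]; norm_num
          · nlinarith [mul_pos h h0]
        · nlinarith
      exact ngp_pp_cont D i (R := fun y : ℝ × ℝ => (1 - y.1) * (1 / 2) + y.1 * s)
        (Φ := fun y : ℝ × ℝ => (1 - y.1) * (scen i - 1 / 2) + y.2) (by fun_prop) (by fun_prop) hr.1 hr.2
    · intro o _ t
      rw [← add_assoc, ngp_pp_per]
    · funext t
      rw [hc]
      congr 1
      · ring
      · ring
    · funext t
      show ngp_pp D i ((1 - 1) * (1 / 2) + 1 * s) ((1 - 1) * (scen i - 1 / 2) + t) = ![k₁, k₂] i (t, s • ge₁)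
      rw [ngp_tube D i _ h0 h1]
      congr 1
      · ring
      · ring
    · intro _ _ _
      exact mem_univ _
  exact cls_fhom (f2.trans f1.symm) (ngp_bcls hx)

theorem gens_cls (D : Dbl (-1 / 2) (1 / 2) k₁ k₂ ε) {q : M} {lam₁ lam₂ : ℝ → M} (hG : Gens D q lam₁ lam₂)
    {x y : FundamentalGroup M q} (hx : BCls q lam₁ x) (hy : BCls q lam₂ y) :
    Cls q (core k₁) x ∧ Cls q (core k₂) y :=
  ⟨ngp_gens D 0 (ngp_lam₁ D hG) hx, ngp_gens D 1 (ngp_lam₂ D hG) hy⟩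

end Pool.Agent.MMV
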