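import Pool.Agent.MMV.NGh

/-!
# MMV/NGs: the step function and the sectors   (block VI, squad G)

PROOFS.
* `stp`: `stp (l + 1) = stp l + 1` (`Int.floor_add_one`); for `l ∈ [-1/2, 1/2)`: `⌊l + 1/2⌋ = 0`, `stp l = smoothTransition (8 l + 1/2)`, which is `0` for `l ≤ -1/16` and `1` for `l ≥ 1/16`.  Smooth: near `l ∈ (-1/2, 1/2)` it is this
  formula; near `l = 1/2` (and `-1/2`, by the period) it is constant (`1` on both sides: for `l ∈ [1/2, 3/4]` `stp l = 1 + smoothTransition (8 (l - 1) + 1/2) = 1`).  Every `l` is an integer plus a point of `[-1/2, 1/2)`.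
* `Rt_stp`: `Rt (stp x) = id` if `1/16 ≤ |x - n|` for every integer `n` (`stp x` is an integer).  More precisely `stp_int`: then there is an integer `k` with `stp x = k`.
* `sec_mono`: clear.
* `sec_tube`: for `v = 0`: by the second part of the definition (the first part excludes the circles; injectivity of `k_i`, disjointness of the two tubes).  For `v ≠ 0`: `TwD_A₁`, `TwD_A₂` (`ACB/TwD.lean`): `u (S.A (k_j (l, v))) = apt j + ‖v‖ ex l`.
  For `j = i`: `apt i + ‖v‖ ex l = apt i + r ex l'` gives `ex l = ex l'` (`r = ‖v‖`), `l - l' ∈ ℤ` (`ex_inj`).  For `j ≠ i`: `Re (apt j + ‖v‖ ex l - apt i)` has the sign of `apt j - apt i` (`‖v‖ < ε ≤ 1/4`), but `Re (r ex l')` has the other sign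
  for `|l' - scen i| ≤ a < 1/4`.
* `sec_closed` (`0 ≤ a < 1/4`): the complement is open: let `p ∉ Sec`.  If `p` is off the circles: near `p` all points are off the circles (`TwD_off_open`) and `z = u (S.A p) - apt i ≠ 0` (`TwD_A_ne`) is not in the closed set
  `{z | z = 0 ∨ ∃ r > 0, |l - scen i| ≤ a, z = r ex l}` (closed: it is `{z | Re (z * ex (-(scen i))) ≥ cos (2πa) ‖z‖}` for `a ≤ 1/2`), continuity of `S.A`.  If `p = k_i (l, 0)` with `|l + n - scen i| > a` for all `n`: `sec_tube` for the points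
  `k_i (l', v)` near `p` (an open set: `k_i` is a local diffeomorphism, hence open).  If `p = k_j (l, 0)`, `j ≠ i`: `sec_tube` for the tube of `k_j`.
-/

open scoped ContDiff Manifold Topology unitInterval
open Set Filter
open Pool.Agent.ACB

namespace Pool.Agent.MMV

theorem ngs_stp_eq (n : ℤ) {l : ℝ} (h1 : n - 1 / 2 ≤ l) (h2 : l < n + 1 / 2) :
    stp l = n + Real.smoothTransition (8 * (l - n) + 1 / 2) := by
  have h : ⌊l + 1 / 2⌋ = n := by
    rw [Int.floor_eq_iff]
    constructor <;> linarith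
  unfold stp
  rw [h]

theorem ngs_stp_const (n : ℤ) {l : ℝ} (h : |l - (n - 1 / 2)| ≤ 7 / 16) : stp l = n := by
  rw [abs_le] at h
  by_cases h1 : (n : ℝ) - 1 / 2 ≤ l
  · rw [ngs_stp_eq n h1 (by linarith), Real.smoothTransition.zero_of_nonpos (by linarith), add_zero]
  · have h2 := ngs_stp_eq (n - 1) (l := l) (by push_cast; linarith) (by push_cast; linarith)
    rw [h2, Real.smoothTransition.one_of_one_le (by push_cast; linarith)]
    push_cast
    ring

theorem stp_smooth : ContDiff ℝ ∞ stp := by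
  rw [contDiff_iff_contDiffAt]
  intro l
  obtain ⟨n, hn⟩ : ∃ n, n = ⌊l + 1 / 2⌋ := ⟨_, rfl⟩
  have h1 : (n : ℝ) ≤ l + 1 / 2 := hn ▸ Int.floor_le _
  have h2 : l + 1 / 2 < n + 1 := hn ▸ Int.lt_floor_add_one _
  by_cases h3 : (n : ℝ) - 1 / 2 < l
  · have h4 : ContDiffAt ℝ ∞ (fun l : ℝ => (n : ℝ) + Real.smoothTransition (8 * (l - n) + 1 / 2)) l := by
      have h5 : ContDiff ℝ ∞ (fun l : ℝ => 8 * (l - n) + 1 / 2) := by fun_prop
      exact (contDiff_const.add (Real.smoothTransition.contDiff.comp h5)).contDiffAt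
    refine h4.congr_of_eventuallyEq ?_
    filter_upwards [Ioo_mem_nhds h3 (show l < n + 1 / 2 by linarith)] with x hx
    exact ngs_stp_eq n hx.1.le hx.2
  · have h4 : l = n - 1 / 2 := by linarith
    have h5 : ContDiffAt ℝ ∞ (fun _ : ℝ => (n : ℝ)) l := contDiffAt_const
    refine h5.congr_of_eventuallyEq ?_
    filter_upwards [Ioo_mem_nhds (show l - 7 / 16 < l by linarith) (show l < l + 7 / 16 by linarith)] with x hx
    refine ngs_stp_const n ?_
    rw [abs_le]
    constructor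
    · linarith [hx.1]
    · linarith [hx.2]

theorem stp_add_one (l : ℝ) : stp (l + 1) = stp l + 1 := by
  unfold stp
  have h : l + 1 + 1 / 2 = l + 1 / 2 + 1 := by ring
  rw [h, Int.floor_add_one]
  push_cast
  have h2 : l + 1 - ((⌊l + 1 / 2⌋ : ℝ) + 1) = l - ⌊l + 1 / 2⌋ := by ring
  rw [h2]
  ring

theorem stp_zero {l : ℝ} (h1 : -1 / 2 ≤ l) (h2 : l ≤ -1 / 16) : stp l = 0 := by
  have := ngs_stp_const 0 (l := l) (by
    rw [abs_le]
    push_cast
    constructor <;> linarith)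
  rw [this, Int.cast_zero]

theorem stp_one {l : ℝ} (h1 : 1 / 16 ≤ l) (h2 : l ≤ 1 / 2) : stp l = 1 := by
  have := ngs_stp_const 1 (l := l) (by
    rw [abs_le]
    push_cast
    constructor <;> linarith)
  rw [this, Int.cast_one]

theorem stp_int {l : ℝ} (h : ∀ n : ℤ, 1 / 16 ≤ |l - n|) : ∃ k : ℤ, stp l = k := by
  obtain ⟨n, hn⟩ : ∃ n, n = ⌊l + 1 / 2⌋ := ⟨_, rfl⟩
  have h1 : (n : ℝ) ≤ l + 1 / 2 := hn ▸ Int.floor_le _
  have h2 : l + 1 / 2 < n + 1 := hn ▸ Int.lt_floor_add_one _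
  rcases le_abs.1 (h n) with h3 | h3
  · refine ⟨n + 1, ngs_stp_const (n + 1) ?_⟩
    rw [abs_le]
    push_cast
    constructor <;> linarith
  · refine ⟨n, ngs_stp_const n ?_⟩
    rw [abs_le]
    constructor <;> linarith

variable {M : Type} [TopologicalSpace M] [ChartedSpace E4 M] {k₁ k₂ : ℝ × E3 → M} {ε : ℝ}

theorem sec_mono (D : Dbl (-1 / 2) (1 / 2) k₁ k₂ ε) (i : Fin 2) {a a' : ℝ} (h : a ≤ a') : Sec D i a ⊆ Sec D i a' := by
  rintro p (⟨h1, r, l, h2, h3, h4⟩ | ⟨l, h1, h2⟩)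
  · exact Or.inl ⟨h1, r, l, h2, h3.trans h, h4⟩
  · exact Or.inr ⟨l, h1.trans h, h2⟩

theorem ngs_re (l : ℝ) : (ex l).re = Real.cos (2 * Real.pi * l) := by
  unfold ex
  exact Complex.exp_ofReal_mul_I_re _

theorem ngs_ex_int (l : ℝ) (n : ℤ) : ex (l + n) = ex l := by
  unfold ex
  rw [Complex.exp_eq_exp_iff_exists_int]
  refine ⟨n, ?_⟩
  push_cast
  ring

theorem ngs_off (D : Dbl (-1 / 2) (1 / 2) k₁ k₂ ε) (j : Fin 2) (l : ℝ) {v : E3} (hv : ‖v‖ < ε) (h0 : v ≠ 0) :
    Off ![k₁, k₂] (![k₁, k₂] j (l, v)) := by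
  fin_cases j
  · exact TwD_off₁ D l hv h0
  · exact TwD_off₂ D l hv h0

theorem ngs_A (D : Dbl (-1 / 2) (1 / 2) k₁ k₂ ε) (j : Fin 2) (l : ℝ) {v : E3} (hv : ‖v‖ < ε) (h0 : v ≠ 0) :
    TwD_u (D.S.A (![k₁, k₂] j (l, v))).1 = (apt j : ℂ) + ‖v‖ * ex l := by
  fin_cases j
  · have h1 := TwD_A₁ D l hv h0
    show TwD_u (D.S.A (k₁ (l, v))).1 = (apt 0 : ℂ) + ‖v‖ * ex l
    rw [h1, TwD_u_m]
    rfl
  · exact TwD_A₂ D l hv h0

/-- the direction of the sector -/
theorem ngs_dir (i j : Fin 2) (hij : j ≠ i) {a : ℝ} (ha : a < 1 / 4) {l l' r ρ : ℝ} (hr : 0 < r) (hρ : 0 ≤ ρ)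
    (hρ' : ρ ≤ 1 / 4) (hl : |l' - scen i| ≤ a) : (apt j : ℂ) + ρ * ex l ≠ (apt i : ℂ) + r * ex l' := by
  intro h
  have h1 := congrArg Complex.re h
  rw [Complex.add_re, Complex.add_re, Complex.ofReal_re, Complex.ofReal_re, Complex.re_ofReal_mul,
    Complex.re_ofReal_mul, ngs_re, ngs_re] at h1
  have h2 : |ρ * Real.cos (2 * Real.pi * l)| ≤ 1 / 4 := by
    rw [abs_mul, abs_of_nonneg hρ]
    calc ρ * |Real.cos (2 * Real.pi * l)| ≤ 1 / 4 * 1 :=
          mul_le_mul hρ' (Real.abs_cos_le_one _) (abs_nonneg _) (by norm_num)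
      _ = 1 / 4 := by norm_num
  rw [abs_le] at h2
  rw [abs_le] at hl
  have hpi := Real.pi_pos
  have key : (i = 0 ∧ j = 1) ∨ (i = 1 ∧ j = 0) := by
    fin_cases i <;> fin_cases j <;> simp_all
  rcases key with ⟨rfl, rfl⟩ | ⟨rfl, rfl⟩
  · have e1 : apt 0 = -1 / 2 := rfl
    have e2 : apt 1 = 1 / 2 := rfl
    have e3 : scen 0 = 1 / 2 := rfl
    rw [e1, e2] at h1
    rw [e3] at hl
    have h3 : Real.cos (2 * Real.pi * l') < 0 := by
      apply Real.cos_neg_of_pi_div_two_lt_of_lt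
      · nlinarith
      · nlinarith
    have h4 : r * Real.cos (2 * Real.pi * l') < 0 := mul_neg_of_pos_of_neg hr h3
    linarith
  · have e1 : apt 0 = -1 / 2 := rfl
    have e2 : apt 1 = 1 / 2 := rfl
    have e3 : scen 1 = 0 := rfl
    rw [e1, e2] at h1
    rw [e3] at hl
    have h3 : 0 < Real.cos (2 * Real.pi * l') := by
      apply Real.cos_pos_of_mem_Ioo
      constructor
      · nlinarith
      · nlinarith
    have h4 : 0 < r * Real.cos (2 * Real.pi * l') := mul_pos hr h3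
    linarith

theorem sec_tube (D : Dbl (-1 / 2) (1 / 2) k₁ k₂ ε) (i j : Fin 2) {a : ℝ} (ha : a < 1 / 4) {l : ℝ} {v : E3}
    (hv : ‖v‖ < ε) : ![k₁, k₂] j (l, v) ∈ Sec D i a ↔ j = i ∧ ∃ n : ℤ, |l + n - scen i| ≤ a := by
  have hε : 0 < ε := (D.tub.thick 0).pos
  have hz : ‖(0 : E3)‖ < ε := by rw [norm_zero]; exact hε
  by_cases h0 : v = 0
  · subst h0
    constructor
    · rintro (⟨h1, -⟩ | ⟨l', h1, h2⟩)
      · exact absurd rfl (h1 j l)
      · by_cases hij : j = i
        · subst hij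
          obtain ⟨-, m, hm⟩ := (D.tub.thick j).inj l 0 l' 0 hz hz h2
          exact ⟨rfl, m, by rw [← hm]; exact h1⟩
        · exact absurd h2 (D.tub.disj j i hij l 0 l' 0 hz hz)
    · rintro ⟨rfl, n, hn⟩
      exact Or.inr ⟨l + n, hn, ((D.tub.thick j).per_int l n 0 hz).symm⟩
  · have hoff := ngs_off D j l hv h0
    have hr : 0 < ‖v‖ := norm_pos_iff.2 h0
    constructor
    · rintro (⟨-, r, l', h1, h2, h3⟩ | ⟨l', h1, h2⟩)
      · rw [ngs_A D j l hv h0] at h3
        by_cases hij : j = i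
        · subst hij
          have h4 : (‖v‖ : ℂ) * ex l = r * ex l' := add_left_cancel h3
          have h5 : ‖v‖ = r := by
            have := congrArg norm h4
            rw [norm_mul, norm_mul, TwD_ex_norm, TwD_ex_norm, mul_one, mul_one, Complex.norm_real,
              Complex.norm_real, norm_norm, Real.norm_of_nonneg h1.le] at this
            exact this
          rw [h5] at h4
          have h6 : ex l = ex l' := mul_left_cancel₀ (by exact_mod_cast h1.ne') h4
          obtain ⟨m, hm⟩ := ex_inj h6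
          exact ⟨rfl, m, by rw [← hm]; exact h2⟩
        · exact absurd h3 (ngs_dir i j hij ha h1 hr.le (hv.le.trans D.small) h2)
      · exact absurd h2 (hoff i l')
    · rintro ⟨rfl, n, hn⟩
      refine Or.inl ⟨hoff, ‖v‖, l + n, hr, hn, ?_⟩
      rw [ngs_A D j l hv h0, ngs_ex_int]

theorem ngs_iff {a : ℝ} (h0 : 0 ≤ a) (ha : a ≤ 1 / 2) (l c : ℝ) :
    (∃ n : ℤ, |l + n - c| ≤ a) ↔ Real.cos (2 * Real.pi * a) ≤ Real.cos (2 * Real.pi * (l - c)) := by
  have hpi := Real.pi_pos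
  constructor
  · rintro ⟨n, hn⟩
    have h1 : Real.cos (2 * Real.pi * (l - c)) = Real.cos (2 * Real.pi * |l + n - c|) := by
      rw [← Real.cos_abs (2 * Real.pi * |l + n - c|), abs_mul, abs_abs, ← abs_mul, Real.cos_abs,
        ← Real.cos_add_int_mul_two_pi (2 * Real.pi * (l - c)) n]
      congr 1
      ring
    rw [h1]
    apply Real.cos_le_cos_of_nonneg_of_le_pi
    · positivity
    · nlinarith
    · exact mul_le_mul_of_nonneg_left hn (by positivity)
  · intro h
    refine ⟨-round (l - c), ?_⟩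
    by_contra h1
    rw [not_le] at h1
    have h2 : l + ((-round (l - c) : ℤ) : ℝ) - c = (l - c) - round (l - c) := by
      push_cast
      ring
    rw [h2] at h1
    have h3 := abs_sub_round (l - c)
    have h4 : Real.cos (2 * Real.pi * (l - c)) = Real.cos (2 * Real.pi * |(l - c) - round (l - c)|) := by
      rw [← Real.cos_abs (2 * Real.pi * |(l - c) - round (l - c)|), abs_mul, abs_abs, ← abs_mul, Real.cos_abs,
        ← Real.cos_add_int_mul_two_pi (2 * Real.pi * ((l - c) - round (l - c))) (round (l - c))]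
      congr 1
      ring
    rw [h4] at h
    have h5 := Real.cos_lt_cos_of_nonneg_of_le_pi (x := 2 * Real.pi * a)
      (y := 2 * Real.pi * |(l - c) - round (l - c)|) (by positivity) (by nlinarith)
      (mul_lt_mul_of_pos_left h1 (by positivity))
    linarith

/-- the sector in the plane -/
theorem ngs_plane {a : ℝ} (h0 : 0 ≤ a) (ha : a ≤ 1 / 2) (c : ℝ) {z : ℂ} (hz : z ≠ 0) :
    (∃ r l : ℝ, 0 < r ∧ |l - c| ≤ a ∧ z = r * ex l) ↔
      Real.cos (2 * Real.pi * a) * ‖z‖ ≤ (z * ex (-c)).re := by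
  have hr : 0 < ‖z‖ := norm_pos_iff.2 hz
  obtain ⟨t, ht⟩ := ex_polar z
  have h1 : (z * ex (-c)).re = ‖z‖ * Real.cos (2 * Real.pi * (t - c)) := by
    conv_lhs => rw [ht]
    rw [mul_assoc, ← TwD_ex_add, Complex.re_ofReal_mul, ngs_re, ← sub_eq_add_neg]
  have h2 : (∃ r l : ℝ, 0 < r ∧ |l - c| ≤ a ∧ z = r * ex l) ↔ ∃ n : ℤ, |t + n - c| ≤ a := by
    constructor
    · rintro ⟨r, l, h3, h4, h5⟩
      have h6 : ‖z‖ = r := by
        rw [h5, norm_mul, TwD_ex_norm, mul_one, Complex.norm_real, Real.norm_of_nonneg h3.le]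
      rw [h6] at ht
      rw [ht] at h5
      have h7 : ex t = ex l := mul_left_cancel₀ (by exact_mod_cast h3.ne') h5
      obtain ⟨m, hm⟩ := ex_inj h7
      exact ⟨m, by rw [← hm]; exact h4⟩
    · rintro ⟨n, hn⟩
      exact ⟨‖z‖, t + n, hr, hn, by rw [ngs_ex_int]; exact ht⟩
  rw [h2, ngs_iff h0 ha, h1, mul_comm (Real.cos (2 * Real.pi * a))]
  constructor
  · exact fun h => mul_le_mul_of_nonneg_left h hr.le
  · exact fun h => le_of_mul_le_mul_left h hr

theorem ngs_open {f : ℝ × E3 → M} {x : ℝ × E3} (hf : IsLocalDiffeomorphAt 𝓘(ℝ, ℝ × E3) (𝓡 4) ∞ f x)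
    {P : M → Prop} (h : ∀ᶠ y in 𝓝 x, P (f y)) : ∀ᶠ q in 𝓝 (f x), P q := by
  have hx : hf.localInverse (f x) = x := hf.localInverse_left_inv hf.localInverse_mem_target
  have hc : Tendsto hf.localInverse (𝓝 (f x)) (𝓝 x) := by
    have h2 := hf.localInverse_contMDiffAt.continuousAt
    rw [ContinuousAt, hx] at h2
    exact h2
  filter_upwards [hc.eventually h, hf.localInverse_eventuallyEq_right] with y h2 h3
  have h4 : f (hf.localInverse y) = y := h3
  rwa [h4] at h2

theorem sec_closed [T2Space M] (D : Dbl (-1 / 2) (1 / 2) k₁ k₂ ε) (i : Fin 2) {a : ℝ} (h0 : 0 ≤ a) (ha : a < 1 / 4) :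
    IsClosed (Sec D i a) := by
  have hε : 0 < ε := (D.tub.thick 0).pos
  have hz : ‖(0 : E3)‖ < ε := by rw [norm_zero]; exact hε
  rw [← isOpen_compl_iff, isOpen_iff_mem_nhds]
  intro p hp
  by_cases hoff : Off ![k₁, k₂] p
  · have hne : ∀ q, Off ![k₁, k₂] q → TwD_u (D.S.A q).1 - (apt i : ℂ) ≠ 0 := by
      intro q hq
      have h1 := TwD_A_ne D hq
      rw [sub_ne_zero]
      fin_cases i
      · exact h1.1
      · exact h1.2
    have hiff : ∀ q, Off ![k₁, k₂] q → (q ∈ Sec D i a ↔ Real.cos (2 * Real.pi * a) *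
        ‖TwD_u (D.S.A q).1 - (apt i : ℂ)‖ ≤ ((TwD_u (D.S.A q).1 - (apt i : ℂ)) * ex (-(scen i))).re) := by
      intro q hq
      rw [← ngs_plane h0 (by linarith) (scen i) (hne q hq)]
      constructor
      · rintro (⟨-, r, l, h2, h3, h4⟩ | ⟨l, h1, h2⟩)
        · exact ⟨r, l, h2, h3, by rw [h4, add_sub_cancel_left]⟩
        · exact absurd h2 (hq i l)
      · rintro ⟨r, l, h2, h3, h4⟩
        exact Or.inl ⟨hq, r, l, h2, h3, by rw [← h4, add_sub_cancel]⟩
    have h1 := hp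
    rw [mem_compl_iff, hiff p hoff, not_le] at h1
    have hc : ContinuousAt (fun q => TwD_u (D.S.A q).1 - (apt i : ℂ)) p := by
      have h2 : ContinuousAt D.S.A p := (D.S.A_loc p hoff).contMDiffAt.continuousAt
      have h3 : ContinuousAt (fun q => TwD_u (D.S.A q).1) p :=
        ContinuousAt.comp (f := D.S.A) (g := fun x : S4 => TwD_u x.1) TwD_u_cont.continuousAt h2
      exact h3.sub continuousAt_const
    have hc1 : ContinuousAt (fun q => ((TwD_u (D.S.A q).1 - (apt i : ℂ)) * ex (-(scen i))).re) p :=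
      Complex.continuous_re.continuousAt.comp (hc.mul continuousAt_const)
    have hc2 : ContinuousAt (fun q => Real.cos (2 * Real.pi * a) * ‖TwD_u (D.S.A q).1 - (apt i : ℂ)‖) p :=
      continuousAt_const.mul hc.norm
    filter_upwards [(TwD_off_open D).mem_nhds hoff, hc1.eventually_lt hc2 h1] with q hq hq2
    rw [mem_compl_iff, hiff q hq, not_le]
    exact hq2
  · obtain ⟨j, l, hl⟩ : ∃ j l, p = ![k₁, k₂] j (l, 0) := by
      unfold Off at hoff
      push Not at hoff
      exact hoff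
    subst hl
    have h1 : ∀ᶠ y in 𝓝 ((l, 0) : ℝ × E3), ![k₁, k₂] j y ∈ (Sec D i a)ᶜ := by
      rw [mem_compl_iff, sec_tube D i j ha hz] at hp
      have ho : ∀ᶠ y in 𝓝 ((l, 0) : ℝ × E3), ‖y.2‖ < ε := by
        have h2 : IsOpen {x : ℝ × E3 | ‖x.2‖ < ε} := isOpen_lt (continuous_norm.comp continuous_snd) continuous_const
        exact h2.mem_nhds hz
      by_cases hij : j = i
      · have h2 : ¬ ∃ n : ℤ, |l + n - scen i| ≤ a := fun h => hp ⟨hij, h⟩
        rw [ngs_iff h0 (by linarith), not_le] at h2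
        have h3 : ContinuousAt (fun y : ℝ × E3 => Real.cos (2 * Real.pi * (y.1 - scen i))) (l, 0) := by
          have : Continuous (fun y : ℝ × E3 => Real.cos (2 * Real.pi * (y.1 - scen i))) := by fun_prop
          exact this.continuousAt
        filter_upwards [ho, h3.eventually_lt continuousAt_const h2] with y hy hy2
        obtain ⟨l', v⟩ := y
        rw [mem_compl_iff, sec_tube D i j ha hy]
        rintro ⟨-, h4⟩
        rw [ngs_iff h0 (by linarith)] at h4
        exact absurd hy2 (not_lt.2 h4)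
      · filter_upwards [ho] with y hy
        obtain ⟨l', v⟩ := y
        rw [mem_compl_iff, sec_tube D i j ha hy]
        rintro ⟨h4, -⟩
        exact hij h4
    exact ngs_open ((D.tub.thick j).loc l 0 hz) h1

end Pool.Agent.MMV
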