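import Pool.Agent.MMV.NGp

/-!
# MMV/NGw: the closed curve of a word   (block VI, squad G)

PROOF.  Induction on `w` (for all sequences `sq`).  `w = []`: `γ = Path.refl q`, `L = []` (`base_off` for `only`).  `w = (i, e) :: w'`: `γ = γ'.trans δ`, `γ'` for `w'` and the sequence `n ↦ sq (n + 1)`, `δ` from `letter` with `s = sq 0`.
Class: in `FundamentalGroup` `p * q = q.trans p` (`FundamentalGroup.mul_def`), so the class of `γ'.trans δ` is (class of `δ`) * (class of `γ'`) `= ev of the letter * ev of w'`; `FreeGroup.lift` of `FreeGroup.mk ((i, e) :: w')`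
(`FreeGroup.lift_mk`, `List.prod_cons`, `cond e (f i) (f i)⁻¹`).
Pattern: `per (γ'.trans δ) t = per γ' (2 t)` for `t ∈ [0, 1/2]`, `= per δ (2 t - 1)` for `t ∈ [1/2, 1]`.  `L = L'.map (half 0) ++ [x.half 1]` with `half c x = {x with α := (x.α + c) / 2, ν := x.ν / 2}`: `form`: `(2 t - c - α) / ν = (t - (α + c) / 2) / (ν / 2)`.
`ord`: all the intervals of the first half are in `(0, 1/2)` and the last one is in `(1/2, 1)`.  `only`: for `t ≤ 1/2` from `γ'`, for `t ≥ 1/2` from `δ`.  `List.pairwise_append`, `List.pairwise_map`.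
-/

open scoped ContDiff Manifold Topology unitInterval
open Set Filter
open Pool.Agent.ACB

namespace Pool.Agent.MMV

/-- a crossing in the first (`c = 0`) or second (`c = 1`) half of a composed path -/
noncomputable def ngw_half (c : ℝ) (x : Xing) : Xing := ⟨x.i, x.s, x.e, (x.α + c) / 2, x.ν / 2⟩

theorem ngw_per1 {N : Type} [TopologicalSpace N] [ChartedSpace E4 N] {q : N} (γ δ : Path q q) {t : ℝ} (h0 : 0 ≤ t) (h1 : t ≤ 1 / 2) :
    per (γ.trans δ) t = per γ (2 * t) := by
  have ht : t ∈ Icc (0 : ℝ) 1 := ⟨h0, by linarith⟩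
  have h2t : 2 * t ∈ Icc (0 : ℝ) 1 := ⟨by linarith, by linarith⟩
  have e1 := per_coe (γ.trans δ) ⟨t, ht⟩
  have e2 := per_coe γ ⟨2 * t, h2t⟩
  dsimp only at e1 e2
  rw [e1, e2, Path.trans_apply, dif_pos h1]

theorem ngw_per2 {N : Type} [TopologicalSpace N] [ChartedSpace E4 N] {q : N} (γ δ : Path q q) {t : ℝ} (h0 : 1 / 2 ≤ t) (h1 : t ≤ 1) :
    per (γ.trans δ) t = per δ (2 * t - 1) := by
  have ht : t ∈ Icc (0 : ℝ) 1 := ⟨by linarith, h1⟩
  have h2t : 2 * t - 1 ∈ Icc (0 : ℝ) 1 := ⟨by linarith, by linarith⟩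
  have e1 := per_coe (γ.trans δ) ⟨t, ht⟩
  have e2 := per_coe δ ⟨2 * t - 1, h2t⟩
  dsimp only at e1 e2
  rcases h0.lt_or_eq with h | h
  · rw [e1, e2, Path.trans_apply, dif_neg (by dsimp only; linarith)]
  · rw [e1, e2, Path.trans_apply, dif_pos (by dsimp only; linarith)]
    have k1 : (⟨2 * t, by constructor <;> linarith⟩ : I) = 1 := by
      apply Subtype.ext; show 2 * t = 1; linarith
    have k2 : (⟨2 * t - 1, h2t⟩ : I) = 0 := by
      apply Subtype.ext; show 2 * t - 1 = 0; linarith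
    rw [k2, δ.source]
    refine (congrArg γ k1).trans γ.target

theorem ngw_trans {M : Type} [TopologicalSpace M] [ChartedSpace E4 M] {k₁ k₂ : ℝ × E3 → M} {ε : ℝ}
    {D : Dbl (-1 / 2) (1 / 2) k₁ k₂ ε} {q : M} {γ δ : Path q q} {L L' : List Xing} {b a : ℝ}
    (h : Pat D (per γ) L b a) (h' : Pat D (per δ) L' b a) :
    Pat D (per (γ.trans δ)) (L.map (ngw_half 0) ++ L'.map (ngw_half 1)) b a := by
  constructor
  · intro x hx
    rcases List.mem_append.1 hx with hx | hx
    · obtain ⟨z, hz, rfl⟩ := List.mem_map.1 hx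
      obtain ⟨p1, p2, p3, p4, p5, p6⟩ := h.pos z hz
      simp only [ngw_half]
      exact ⟨by linarith, p2, p3, p4, by linarith, by linarith⟩
    · obtain ⟨z, hz, rfl⟩ := List.mem_map.1 hx
      obtain ⟨p1, p2, p3, p4, p5, p6⟩ := h'.pos z hz
      simp only [ngw_half]
      exact ⟨by linarith, p2, p3, p4, by linarith, by linarith⟩
  · rw [List.pairwise_append, List.pairwise_map, List.pairwise_map]
    refine ⟨h.ord.imp ?_, h'.ord.imp ?_, ?_⟩
    · intro x y hxy
      simp only [ngw_half]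
      linarith
    · intro x y hxy
      simp only [ngw_half]
      linarith
    · intro x hx y hy
      obtain ⟨z, hz, rfl⟩ := List.mem_map.1 hx
      obtain ⟨z', hz', rfl⟩ := List.mem_map.1 hy
      obtain ⟨p1, p2, p3, p4, p5, p6⟩ := h.pos z hz
      obtain ⟨q1, q2, q3, q4, q5, q6⟩ := h'.pos z' hz'
      simp only [ngw_half]
      linarith
  · intro x hx t ht
    rcases List.mem_append.1 hx with hx | hx
    · obtain ⟨z, hz, rfl⟩ := List.mem_map.1 hx
      obtain ⟨p1, p2, p3, p4, p5, p6⟩ := h.pos z hz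
      simp only [ngw_half] at ht ⊢
      have ht' := abs_le.1 ht
      rw [ngw_per1 γ δ (by linarith [ht'.1]) (by linarith [ht'.2]),
        h.form z hz (2 * t) (abs_le.2 ⟨by linarith [ht'.1], by linarith [ht'.2]⟩)]
      have e : (2 * t - z.α) / z.ν = (t - (z.α + 0) / 2) / (z.ν / 2) := by
        field_simp
        ring
      rw [e]
    · obtain ⟨z, hz, rfl⟩ := List.mem_map.1 hx
      obtain ⟨p1, p2, p3, p4, p5, p6⟩ := h'.pos z hz
      simp only [ngw_half] at ht ⊢
      have ht' := abs_le.1 ht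
      rw [ngw_per2 γ δ (by linarith [ht'.1]) (by linarith [ht'.2]),
        h'.form z hz (2 * t - 1) (abs_le.2 ⟨by linarith [ht'.1], by linarith [ht'.2]⟩)]
      have e : (2 * t - 1 - z.α) / z.ν = (t - (z.α + 1) / 2) / (z.ν / 2) := by
        field_simp
        ring
      rw [e]
  · intro i t ht hc
    rcases le_total t (1 / 2) with h1 | h1
    · rw [ngw_per1 γ δ ht.1 h1] at hc
      obtain ⟨z, hz, e1, e2⟩ := h.only i (2 * t) ⟨by linarith [ht.1], by linarith⟩ hc
      refine ⟨ngw_half 0 z, List.mem_append_left _ (List.mem_map.2 ⟨z, hz, rfl⟩), e1, ?_⟩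
      have e3 := abs_le.1 e2
      simp only [ngw_half]
      exact abs_le.2 ⟨by linarith [e3.1], by linarith [e3.2]⟩
    · rw [ngw_per2 γ δ h1 ht.2] at hc
      obtain ⟨z, hz, e1, e2⟩ := h'.only i (2 * t - 1) ⟨by linarith, by linarith [ht.2]⟩ hc
      refine ⟨ngw_half 1 z, List.mem_append_right _ (List.mem_map.2 ⟨z, hz, rfl⟩), e1, ?_⟩
      have e3 := abs_le.1 e2
      simp only [ngw_half]
      exact abs_le.2 ⟨by linarith [e3.1], by linarith [e3.2]⟩

theorem word_path {M : Type} [TopologicalSpace M] [ChartedSpace E4 M] [T2Space M] [IsManifold (𝓡 4) ∞ M]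
    {k₁ k₂ : ℝ × E3 → M} {ε : ℝ} (D : Dbl (-1 / 2) (1 / 2) k₁ k₂ ε) {q : M} {lam₁ lam₂ : ℝ → M}
    (hG : Gens D q lam₁ lam₂) {x y : FundamentalGroup M q} (hx : BCls q lam₁ x) (hy : BCls q lam₂ y)
    (w : List (Fin 2 × Bool)) (sq : ℕ → ℝ) (hs : ∀ n, 0 < sq n ∧ sq n < ε / 2) :
    ∃ (γ : Path q q) (L : List Xing), FundamentalGroup.fromPath ⟦γ⟧ = FreeGroup.lift ![x, y] (FreeGroup.mk w) ∧
      Pat D (per γ) L (3 / 16) (1 / 8) ∧ (∀ i, L.countP (fun z => z.i = i) = w.countP fun z => z.1 = i) ∧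
      (L.map Xing.s).Perm ((List.range w.length).map sq) := by
  induction w generalizing sq with
  | nil =>
    refine ⟨Path.refl q, [], ?_, ⟨?_, ?_, ?_, ?_⟩, ?_, ?_⟩
    · rw [← FreeGroup.one_eq_mk, map_one]
      rfl
    · intro z hz; simp at hz
    · exact List.Pairwise.nil
    · intro z hz; simp at hz
    · intro i t ht hc
      exfalso
      have e1 := per_coe (Path.refl q) ⟨t, ht⟩
      dsimp only at e1
      rw [e1] at hc
      exact base_off D hG i (by norm_num) hc
    · intro i; simp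
    · simp
  | cons ie w ih =>
    obtain ⟨i, e⟩ := ie
    obtain ⟨γ, L, h1, h2, h3, h4⟩ := ih (fun n => sq (n + 1)) (fun n => hs (n + 1))
    obtain ⟨δ, g1, g2⟩ := letter D hG hx hy i e (hs 0).1 (hs 0).2
    refine ⟨γ.trans δ, L.map (ngw_half 0) ++ [⟨i, sq 0, if e then 1 else -1, 1 / 2, 1 / 2⟩].map (ngw_half 1), ?_,
      ngw_trans h2 g2, ?_, ?_⟩
    · have e1 : FundamentalGroup.fromPath ⟦γ.trans δ⟧ =
          FundamentalGroup.fromPath ⟦δ⟧ * FundamentalGroup.fromPath ⟦γ⟧ := rfl
      rw [e1, g1, h1, FreeGroup.lift_mk, FreeGroup.lift_mk, List.map_cons, List.prod_cons]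
      congr 1
      cases e <;> rfl
    · intro j
      have e1 : ((fun z : Xing => decide (z.i = j)) ∘ ngw_half 0) = fun z : Xing => decide (z.i = j) := rfl
      have e2 : ((fun z : Xing => decide (z.i = j)) ∘ ngw_half 1) = fun z : Xing => decide (z.i = j) := rfl
      rw [List.countP_append, List.countP_map, List.countP_map, e1, e2, h3 j, List.countP_cons, List.countP_cons,
        List.countP_nil, Nat.zero_add]
    · have e1 : (Xing.s ∘ ngw_half 0) = Xing.s := rfl
      have e2 : (sq ∘ Nat.succ) = fun n => sq (n + 1) := rfl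
      have e3 : (w.length + 1) = ((i, e) :: w).length := rfl
      rw [List.map_append, List.map_map, List.map_map, e1, ← e3, List.range_succ_eq_map]
      have e4 : (0 :: List.map Nat.succ (List.range w.length)).map sq =
          sq 0 :: (List.range w.length).map (fun n => sq (n + 1)) := by
        rw [List.map_cons, List.map_map, e2]
      rw [e4]
      refine (List.Perm.append_right _ h4).trans ?_
      exact List.perm_append_comm
end Pool.Agent.MMV
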