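import Pool.Agent.MMV.NLp
import Pool.Agent.MMV.NCt
import Pool.Agent.MMV.NFm

/-!
# MMV/NLf: families of classes on a connected sum with a manifold which is surgered to `S⁴`   (block VI, squad N)

`jNc`, `jMc`: the maps of the complements of the unit balls to `Z = N # M`.  `p`, `q`: base points off the balls, `δ` a path in `Z` from `jN p` to `jM q`.

PROOFS.
`cs_disj`: `jN x = jM m` with `x`, `m` off the unit balls is impossible: `C.sep`: `x = b y`, `m = c (inv4 y)`, one of `‖y‖`, `‖inv4 y‖ = ‖y‖⁻¹` is `≤ 1`.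
`cs_circles`: `circles_exist` in the two open submanifolds `Out hb`, `Out hc` for the classes `g₁`, `r₁`: circles `c₁ i`, `d₁ j`; (they are Hausdorff manifolds, instances); `circ_val`, `cls_map` (`inc`), injectivity of `Subtype.val`.
`cs_fwd`.  `hX`: `κ` in `N`, `IsSurg κ X`, `Cls p (core (κ i)) _`; by `cls_unique` (`FHom univ (core (κ i)) (c i)`, `c i = Subtype.val ∘ c₁ i`) and `move_all`: `κ'` with cores `c i`.  The same for `ρ'` in `M` with cores `d j`.  `IsSurg`: radii; by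
`thick_near` and the finiteness of `ι`, `ι'` there is a common radius `ε` such that all the tubes are in the open sets `Out` (`Tubes.mono`, `Surg.mono`).  `cs_tubes`, `cs_surg`.  Classes: `jN (core (κ' i) t) = jNc (c₁ i t)`: `cls_map`;
`jM (core (ρ' j) t) = jMc (d₁ j t)`: `cls_map`, `cls_path`.
`cs_bwd`.  `hZ`: `κ : ι ⊕ ι' → ..` in `Z`.  Circles `c i`, `d j` as before; in `Z` the curves `jN ∘ c i`, `jM ∘ d j` are disjoint circles (`circ_comp`, `cs_disj`) in the classes `α (g₁ i)`, `β (r₁ j)`; `cls_unique`, `move_all`: `κ'` with these cores,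
`IsSurg κ' X`, radius `ε`.  `thick_pull` for every index (`U = Out hb` resp. `Out hc` as sets; `jN`, `jM` are injective local diffeomorphisms there): `κ'' i` in `N` and `ρ'' j` in `M`, thick of a common radius `ε'` (minimum over the finite sets), with
values off the unit balls, `jN (κ'' i (l, v)) = κ' (inl i) (l, v)` for `‖v‖ < ε'`; the tubes are disjoint (those of `κ'` are).  `LKT.exists_surgF`: `X'` = the surgery on `N` along `κ''`, `X''` = the surgery on `M` along `ρ''`; by `hall` `X'' ≅ S4`,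
so `Surg ρ'' ε' S4` (compose `A`, `Q` with the diffeomorphism: `isSurg_XF`, then restrict both to the smaller radius).  `cs_surg`: `X'` is the surgery on `Z` along `Sum.elim (jN ∘ κ'') (jM ∘ ρ'')`, whose germs along the cores are those of `κ'`
(`srg_germ`).  `isSurg_uniqF`: `X ≅ X'`, `isSurg_XF`: `IsSurg κ'' X`; classes: `Cls p (c i) (g i)` (`cls_map` with `inc`).
-/

open scoped ContDiff Manifold Topology unitInterval
open Set Filter
open Pool.Agent.ACB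

namespace Pool.Agent.MMV

variable {N M Z : Type} [TopologicalSpace N] [ChartedSpace E4 N] [TopologicalSpace M] [ChartedSpace E4 M]
  [TopologicalSpace Z] [ChartedSpace E4 Z] [T2Space N] [T2Space M]

/-- `jN` on the complement of the unit ball -/
def jNc {b : E4 → N} (hb : Continuous b) {c : E4 → M} (C : CSum b c Z) : C(Out hb, Z) :=
  ⟨fun x => C.jN x.1, by
    rw [continuous_iff_continuousAt]
    rintro ⟨x, hx⟩
    have h0 : x ≠ b 0 := by
      rintro rfl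
      exact hx ⟨0, by simp, rfl⟩
    exact (C.jN_loc x h0).contMDiffAt.continuousAt.comp (f := Subtype.val) (x := (⟨x, hx⟩ : Out hb))
      continuous_subtype_val.continuousAt⟩

/-- `jM` on the complement of the unit ball -/
def jMc {b : E4 → N} {c : E4 → M} (hc : Continuous c) (C : CSum b c Z) : C(Out hc, Z) :=
  ⟨fun x => C.jM x.1, by
    rw [continuous_iff_continuousAt]
    rintro ⟨x, hx⟩
    have h0 : x ≠ c 0 := by
      rintro rfl
      exact hx ⟨0, by simp, rfl⟩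
    exact (C.jM_loc x h0).contMDiffAt.continuousAt.comp (f := Subtype.val) (x := (⟨x, hx⟩ : Out hc))
      continuous_subtype_val.continuousAt⟩

omit [ChartedSpace E4 N] in
theorem nlf_ne {b : E4 → N} (hb : Continuous b) {x : N} (hx : x ∈ Out hb) : x ≠ b 0 := by
  rintro rfl
  exact hx ⟨0, by simp, rfl⟩

theorem cs_disj {b : E4 → N} {b' : N → E4} (hb : IsBall b b') {c : E4 → M} {c' : M → E4} (hc : IsBall c c')
    (C : CSum b c Z) {x : N} (hx : x ∈ Out hb.smooth.continuous) {m : M} (hm : m ∈ Out hc.smooth.continuous) :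
    C.jN x ≠ C.jM m := by
  intro h
  obtain ⟨y, hy, rfl, rfl⟩ := C.sep x m (nlf_ne _ hx) (nlf_ne _ hm) h
  have h1 : 1 < ‖y‖ := by
    by_contra hc1
    exact hx ⟨y, by simpa using not_lt.mp hc1, rfl⟩
  have h2 : 1 < ‖inv4 y‖ := by
    by_contra hc1
    exact hm ⟨inv4 y, by simpa using not_lt.mp hc1, rfl⟩
  rw [norm_inv4] at h2
  have h3 : ‖y‖⁻¹ < 1 := inv_lt_one_of_one_lt₀ h1
  linarith

/-- disjoint circles off the unit ball in given classes -/
theorem cs_circles [IsManifold (𝓡 4) ∞ N] {b : E4 → N} {b' : N → E4} (hb : IsBall b b') {ι : Type} [Finite ι]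
    {p : N} (hp : p ∈ Out hb.smooth.continuous)
    (g₁ : ι → FundamentalGroup (Out hb.smooth.continuous) ⟨p, hp⟩) :
    ∃ c₁ : ι → ℝ → Out hb.smooth.continuous, (∀ i, Circ fun t => (c₁ i t : N)) ∧
      (∀ i j, i ≠ j → ∀ t t', (c₁ i t : N) ≠ c₁ j t') ∧
      (∀ i, Cls (⟨p, hp⟩ : Out hb.smooth.continuous) (c₁ i) (g₁ i)) ∧
      ∀ i, Cls p (fun t => (c₁ i t : N)) (FundamentalGroup.map (inc (Out hb.smooth.continuous)) ⟨p, hp⟩ (g₁ i)) := by
  obtain ⟨c, hc, hd, hcl⟩ := circles_exist g₁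
  exact ⟨c, fun i => circ_val _ (hc i), fun i j hij t t' he => hd i j hij t t' (Subtype.ext he), hcl,
    fun i => cls_map (inc (Out hb.smooth.continuous)) (hcl i)⟩

/-- a common positive lower bound -/
theorem nlf_min {ι : Type} [Finite ι] {δ : ι → ℝ} (h : ∀ i, 0 < δ i) : ∃ ε : ℝ, 0 < ε ∧ ∀ i, ε ≤ δ i := by
  have h1 : ∀ᶠ ε in 𝓝[>] (0 : ℝ), ∀ i, ε ≤ δ i := by
    rw [Filter.eventually_all]
    intro i
    exact (Ioo_mem_nhdsGT (h i) : Ioo 0 (δ i) ∈ 𝓝[>] (0 : ℝ)) |> fun hm =>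
      Filter.mem_of_superset hm fun ε hε => hε.2.le
  have h2 : ∀ᶠ ε in 𝓝[>] (0 : ℝ), 0 < ε := eventually_mem_nhdsWithin
  obtain ⟨ε, h3, h4⟩ := (h2.and h1).exists
  exact ⟨ε, h3, h4⟩

omit [TopologicalSpace M] [ChartedSpace E4 M] [TopologicalSpace Z] [ChartedSpace E4 Z] [T2Space M] [T2Space N] in
/-- a common radius such that the tubes are in the open set `U` -/
theorem nlf_rad {ι : Type} [Finite ι] {κ : ι → ℝ × E3 → N} {ε : ℝ} (hT : Tubes κ ε) (hε : 0 < ε) {U : Set N}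
    (hU : IsOpen U) (hc : ∀ i l, κ i (l, 0) ∈ U) :
    ∃ δ : ℝ, 0 < δ ∧ δ ≤ ε ∧ ∀ (i : ι) (l : ℝ) (v : E3), ‖v‖ < δ → κ i (l, v) ∈ U := by
  choose δ hδ0 hδε hδ using fun i => thick_near (hT.thick i) hU (hc i)
  obtain ⟨ε₁, h1, h2⟩ := nlf_min hδ0
  refine ⟨min ε₁ ε, lt_min h1 hε, min_le_right _ _, ?_⟩
  intro i l v hv
  exact hδ i l v (lt_of_lt_of_le hv ((min_le_left _ _).trans (h2 i)))

omit [TopologicalSpace M] [ChartedSpace E4 M] [TopologicalSpace Z] [ChartedSpace E4 Z] [T2Space M] in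
/-- move the cores of the family to the circles `c i` -/
theorem nlf_move [IsManifold (𝓡 4) ∞ N] {ι : Type} [Finite ι] {p : N} {g : ι → FundamentalGroup N p}
    {X : Type} [TopologicalSpace X] [ChartedSpace E4 X] (hX : Fam p g X) {c : ι → ℝ → N} (hc : ∀ i, Circ (c i))
    (hd : ∀ i j, i ≠ j → ∀ t t', c i t ≠ c j t') (hcl : ∀ i, Cls p (c i) (g i)) :
    ∃ κ' : ι → ℝ × E3 → N, IsSurg κ' X ∧ ∀ i, core (κ' i) = c i := by
  obtain ⟨κ, hs, hκ⟩ := hX
  refine move_all hs hc hd fun i => ?_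
  have hper : ∀ t, core (κ i) (t + 1) = core (κ i) t := by
    obtain ⟨ε, hT, -⟩ := hs
    exact (Thick.circ (hT.thick i)).per
  exact cls_unique hper (hc i).per (hκ i) (hcl i)

theorem cs_fwd [IsManifold (𝓡 4) ∞ N] [IsManifold (𝓡 4) ∞ M] [IsManifold (𝓡 4) ∞ Z] [T2Space Z]
    {b : E4 → N} {b' : N → E4} (hb : IsBall b b') {c : E4 → M} {c' : M → E4} (hc : IsBall c c')
    (C : CSum b c Z) {ι ι' : Type} [Finite ι] [Finite ι'] {p : N} (hp : p ∈ Out hb.smooth.continuous)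
    {q : M} (hq : q ∈ Out hc.smooth.continuous) (δ : Path (C.jN p) (C.jM q))
    (g₁ : ι → FundamentalGroup (Out hb.smooth.continuous) ⟨p, hp⟩)
    (r₁ : ι' → FundamentalGroup (Out hc.smooth.continuous) ⟨q, hq⟩)
    {X : Type} [TopologicalSpace X] [ChartedSpace E4 X]
    (hX : Fam p (fun i => FundamentalGroup.map (inc (Out hb.smooth.continuous)) ⟨p, hp⟩ (g₁ i)) X)
    (hS : Fam q (fun j => FundamentalGroup.map (inc (Out hc.smooth.continuous)) ⟨q, hq⟩ (r₁ j)) S4) :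
    Fam (C.jN p) (Sum.elim (fun i => FundamentalGroup.map (jNc hb.smooth.continuous C) ⟨p, hp⟩ (g₁ i))
      (fun j => pth δ (FundamentalGroup.map (jMc hc.smooth.continuous C) ⟨q, hq⟩ (r₁ j)))) X := by
  obtain ⟨c₁, hc1, hc2, hc3, hc4⟩ := cs_circles hb hp g₁
  obtain ⟨d₁, hd1, hd2, hd3, hd4⟩ := cs_circles hc hq r₁
  obtain ⟨κ, ⟨ε₁, hT1, ⟨SX⟩⟩, hκ⟩ := nlf_move hX hc1 hc2 hc4
  obtain ⟨ρ, ⟨ε₂, hT2, ⟨S⟩⟩, hρ⟩ := nlf_move hS hd1 hd2 hd4
  have hκc : ∀ i l, κ i (l, 0) = (c₁ i l : N) := fun i l => congrFun (hκ i) l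
  have hρc : ∀ j l, ρ j (l, 0) = (d₁ j l : M) := fun j l => congrFun (hρ j) l
  -- radii; the families may be empty
  have hk : ∃ δ₁ : ℝ, 0 < δ₁ ∧ ∀ ε, 0 < ε → ε ≤ δ₁ → Tubes κ ε ∧ Nonempty (Surg κ ε X) ∧
      ∀ (i : ι) (l : ℝ) (v : E3), ‖v‖ < ε → κ i (l, v) ∈ Out hb.smooth.continuous := by
    rcases lt_or_ge 0 ε₁ with hε | hε
    · obtain ⟨δ₁, h1, h2, h3⟩ := nlf_rad hT1 hε (Out hb.smooth.continuous).isOpen (fun i l => by
        rw [hκc]
        exact (c₁ i l).2)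
      exact ⟨δ₁, h1, fun ε h0 hle => ⟨hT1.mono h0 (hle.trans h2), ⟨SX.mono (hle.trans h2)⟩,
        fun i l v hv => h3 i l v (lt_of_lt_of_le hv hle)⟩⟩
    · have hemp : IsEmpty ι := ⟨fun i => absurd (hT1.thick i).pos (not_lt.mpr hε)⟩
      refine ⟨1, one_pos, fun ε h0 hle => ⟨⟨fun i => isEmptyElim i, fun i => isEmptyElim i⟩, ?_,
        fun i => isEmptyElim i⟩⟩
      exact ⟨{ A := SX.A
               Q := SX.Q
               A_loc := SX.A_loc
               A_inj := SX.A_inj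
               Q_loc := fun i => isEmptyElim i
               glue := fun i => isEmptyElim i
               Q_inj := SX.Q_inj
               disj := SX.disj
               cover := SX.cover }⟩
  have hr : ∃ δ₁ : ℝ, 0 < δ₁ ∧ ∀ ε, 0 < ε → ε ≤ δ₁ → Tubes ρ ε ∧ Nonempty (Surg ρ ε S4) ∧
      ∀ (j : ι') (l : ℝ) (v : E3), ‖v‖ < ε → ρ j (l, v) ∈ Out hc.smooth.continuous := by
    rcases lt_or_ge 0 ε₂ with hε | hε
    · obtain ⟨δ₁, h1, h2, h3⟩ := nlf_rad hT2 hε (Out hc.smooth.continuous).isOpen (fun j l => by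
        rw [hρc]
        exact (d₁ j l).2)
      exact ⟨δ₁, h1, fun ε h0 hle => ⟨hT2.mono h0 (hle.trans h2), ⟨S.mono (hle.trans h2)⟩,
        fun j l v hv => h3 j l v (lt_of_lt_of_le hv hle)⟩⟩
    · have hemp : IsEmpty ι' := ⟨fun i => absurd (hT2.thick i).pos (not_lt.mpr hε)⟩
      refine ⟨1, one_pos, fun ε h0 hle => ⟨⟨fun i => isEmptyElim i, fun i => isEmptyElim i⟩, ?_,
        fun i => isEmptyElim i⟩⟩
      exact ⟨{ A := S.A
               Q := S.Q
               A_loc := S.A_loc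
               A_inj := S.A_inj
               Q_loc := fun i => isEmptyElim i
               glue := fun i => isEmptyElim i
               Q_inj := S.Q_inj
               disj := S.disj
               cover := S.cover }⟩
  obtain ⟨δ₁, hδ1, hkk⟩ := hk
  obtain ⟨δ₂, hδ2, hrr⟩ := hr
  have hpos : 0 < min δ₁ δ₂ := lt_min hδ1 hδ2
  obtain ⟨hT1', ⟨SX'⟩, hU1⟩ := hkk _ hpos (min_le_left _ _)
  obtain ⟨hT2', ⟨S'⟩, hU2⟩ := hrr _ hpos (min_le_right _ _)
  refine ⟨Sum.elim (fun i x => C.jN (κ i x)) (fun j x => C.jM (ρ j x)),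
    ⟨_, cs_tubes hb hc C hT1' hT2' hU1 hU2, cs_surg hb hc C hT1' hT2' hU1 hU2 SX' S'⟩, ?_⟩
  rintro (i | j)
  · have e : core (fun x => C.jN (κ i x)) = fun t => jNc hb.smooth.continuous C (c₁ i t) := by
      funext t
      show C.jN (κ i (t, 0)) = C.jN (c₁ i t : N)
      rw [hκc]
    show Cls (C.jN p) (core (fun x => C.jN (κ i x)))
      (FundamentalGroup.map (jNc hb.smooth.continuous C) ⟨p, hp⟩ (g₁ i))
    rw [e]
    exact cls_map (jNc hb.smooth.continuous C) (hc3 i)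
  · have e : core (fun x => C.jM (ρ j x)) = fun t => jMc hc.smooth.continuous C (d₁ j t) := by
      funext t
      show C.jM (ρ j (t, 0)) = C.jM (d₁ j t : M)
      rw [hρc]
    show Cls (C.jN p) (core (fun x => C.jM (ρ j x)))
      (pth δ (FundamentalGroup.map (jMc hc.smooth.continuous C) ⟨q, hq⟩ (r₁ j)))
    rw [e]
    exact cls_path δ (cls_map (jMc hc.smooth.continuous C) (hd3 j))

omit [TopologicalSpace M] [ChartedSpace E4 M] [T2Space M] [T2Space N] in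
/-- pull back a family of thick circles -/
theorem nlf_pull {ι : Type} [Finite ι] {f : N → Z} {U : Set N} (hU : IsOpen U)
    (hf : ∀ x ∈ U, IsLocalDiffeomorphAt (𝓡 4) (𝓡 4) ∞ f x) (hi : InjOn f U) {κ : ι → ℝ × E3 → Z} {ε : ℝ}
    (hκ : Tubes κ ε) {c : ι → ℝ → N} (hcU : ∀ i t, c i t ∈ U) (hc : ∀ i l, κ i (l, 0) = f (c i l)) :
    ∃ (δ : ℝ) (κ' : ι → ℝ × E3 → N), 0 < δ ∧ Tubes κ' δ ∧ (∀ i, core (κ' i) = c i) ∧
      ∀ (i : ι) (l : ℝ) (v : E3), ‖v‖ < δ → κ' i (l, v) ∈ U ∧ f (κ' i (l, v)) = κ i (l, v) := by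
  choose δ κ' h1 h2 h3 h4 h5 using fun i => thick_pull hU hf hi (hκ.thick i) (hcU i) (hc i)
  obtain ⟨ε₁, he1, he2⟩ := nlf_min h1
  refine ⟨ε₁, κ', he1, ⟨fun i => (h3 i).mono he1 (he2 i), ?_⟩, h4,
    fun i l v hv => h5 i l v (lt_of_lt_of_le hv (he2 i))⟩
  intro i j hij l v l' v' hv hv' he
  have a1 := (h5 i l v (lt_of_lt_of_le hv (he2 i))).2
  have a2 := (h5 j l' v' (lt_of_lt_of_le hv' (he2 j))).2
  rw [he, a2] at a1
  exact hκ.disj i j hij l v l' v' (lt_of_lt_of_le hv ((he2 i).trans (h2 i)))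
    (lt_of_lt_of_le hv' ((he2 j).trans (h2 j))) a1.symm

omit [TopologicalSpace M] [ChartedSpace E4 M] [TopologicalSpace Z] [ChartedSpace E4 Z] [T2Space M] [T2Space N] in
/-- a positive radius -/
theorem nlf_pos {ι : Type} {κ : ι → ℝ × E3 → N} {X : Type} [TopologicalSpace X] [ChartedSpace E4 X]
    (h : IsSurg κ X) : ∃ ε : ℝ, 0 < ε ∧ Tubes κ ε ∧ Nonempty (Surg κ ε X) := by
  obtain ⟨ε, hT, ⟨S⟩⟩ := h
  rcases lt_or_ge 0 ε with hε | hε
  · exact ⟨ε, hε, hT, ⟨S⟩⟩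
  · have hemp : IsEmpty ι := ⟨fun i => absurd (hT.thick i).pos (not_lt.mpr hε)⟩
    refine ⟨1, one_pos, ⟨fun i => isEmptyElim i, fun i => isEmptyElim i⟩, ?_⟩
    exact ⟨{ A := S.A
             Q := S.Q
             A_loc := S.A_loc
             A_inj := S.A_inj
             Q_loc := fun i => isEmptyElim i
             glue := fun i => isEmptyElim i
             Q_inj := S.Q_inj
             disj := S.disj
             cover := S.cover }⟩

theorem cs_bwd [IsManifold (𝓡 4) ∞ N] [IsManifold (𝓡 4) ∞ M] [IsManifold (𝓡 4) ∞ Z] [T2Space Z]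
    {b : E4 → N} {b' : N → E4} (hb : IsBall b b') {c : E4 → M} {c' : M → E4} (hc : IsBall c c')
    (C : CSum b c Z) {ι ι' : Type} [Finite ι] [Finite ι'] {p : N} (hp : p ∈ Out hb.smooth.continuous)
    {q : M} (hq : q ∈ Out hc.smooth.continuous) (δ : Path (C.jN p) (C.jM q))
    (g₁ : ι → FundamentalGroup (Out hb.smooth.continuous) ⟨p, hp⟩)
    (r₁ : ι' → FundamentalGroup (Out hc.smooth.continuous) ⟨q, hq⟩)
    {X : Type} [TopologicalSpace X] [ChartedSpace E4 X]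
    (hZ : Fam (C.jN p) (Sum.elim (fun i => FundamentalGroup.map (jNc hb.smooth.continuous C) ⟨p, hp⟩ (g₁ i))
      (fun j => pth δ (FundamentalGroup.map (jMc hc.smooth.continuous C) ⟨q, hq⟩ (r₁ j)))) X)
    (hall : ∀ (X' : Type) [TopologicalSpace X'] [ChartedSpace E4 X'],
      Fam q (fun j => FundamentalGroup.map (inc (Out hc.smooth.continuous)) ⟨q, hq⟩ (r₁ j)) X' →
        Nonempty (X' ≃ₘ⟮𝓡 4, 𝓡 4⟯ S4)) :
    Fam p (fun i => FundamentalGroup.map (inc (Out hb.smooth.continuous)) ⟨p, hp⟩ (g₁ i)) X := by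
  obtain ⟨c₁, hc1, hc2, hc3, hc4⟩ := cs_circles hb hp g₁
  obtain ⟨d₁, hd1, hd2, hd3, hd4⟩ := cs_circles hc hq r₁
  have hNl : ∀ x ∈ (Out hb.smooth.continuous : Set N), IsLocalDiffeomorphAt (𝓡 4) (𝓡 4) ∞ C.jN x :=
    fun x hx => C.jN_loc x (nlf_ne _ hx)
  have hNi : InjOn C.jN (Out hb.smooth.continuous : Set N) :=
    fun x hx y hy h => C.jN_inj x y (nlf_ne _ hx) (nlf_ne _ hy) h
  have hMl : ∀ x ∈ (Out hc.smooth.continuous : Set M), IsLocalDiffeomorphAt (𝓡 4) (𝓡 4) ∞ C.jM x :=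
    fun x hx => C.jM_loc x (nlf_ne _ hx)
  have hMi : InjOn C.jM (Out hc.smooth.continuous : Set M) :=
    fun x hx y hy h => C.jM_inj x y (nlf_ne _ hx) (nlf_ne _ hy) h
  obtain ⟨κ, hsX, hκ⟩ := nlf_move hZ (c := Sum.elim (fun i t => C.jN (c₁ i t : N)) (fun j t => C.jM (d₁ j t : M)))
    (by
      rintro (i | j)
      · exact circ_comp hNl hNi (hc1 i) fun t => (c₁ i t).2
      · exact circ_comp hMl hMi (hd1 j) fun t => (d₁ j t).2)
    (by
      rintro (i | i) (j | j) hij t t' he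
      · have he' : C.jN (c₁ i t : N) = C.jN (c₁ j t' : N) := he
        exact hc2 i j (fun h => hij (by rw [h])) t t' (hNi (c₁ i t).2 (c₁ j t').2 he')
      · exact cs_disj hb hc C (c₁ i t).2 (d₁ j t').2 he
      · exact cs_disj hb hc C (c₁ j t').2 (d₁ i t).2 he.symm
      · have he' : C.jM (d₁ i t : M) = C.jM (d₁ j t' : M) := he
        exact hd2 i j (fun h => hij (by rw [h])) t t' (hMi (d₁ i t).2 (d₁ j t').2 he'))
    (by
      rintro (i | j)
      · exact cls_map (jNc hb.smooth.continuous C) (hc3 i)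
      · exact cls_path δ (cls_map (jMc hc.smooth.continuous C) (hd3 j)))
  obtain ⟨ε, hε, hT, ⟨S⟩⟩ := nlf_pos hsX
  -- the two halves
  have hTl : Tubes (fun i => κ (Sum.inl i)) ε := ⟨fun i => hT.thick _, fun i j hij =>
    hT.disj _ _ fun h => hij (Sum.inl_injective h)⟩
  have hTr : Tubes (fun j => κ (Sum.inr j)) ε := ⟨fun i => hT.thick _, fun i j hij =>
    hT.disj _ _ fun h => hij (Sum.inr_injective h)⟩
  obtain ⟨δ₁, κ', ha1, ha2, ha3, ha4⟩ := nlf_pull (Out hb.smooth.continuous).isOpen hNl hNi hTl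
    (c := fun i t => (c₁ i t : N)) (fun i t => (c₁ i t).2) (fun i l => congrFun (hκ (Sum.inl i)) l)
  obtain ⟨δ₂, ρ', hb1, hb2, hb3, hb4⟩ := nlf_pull (Out hc.smooth.continuous).isOpen hMl hMi hTr
    (c := fun j t => (d₁ j t : M)) (fun j t => (d₁ j t).2) (fun j l => congrFun (hκ (Sum.inr j)) l)
  -- the surgery on `M` is `S⁴`
  obtain ⟨X'', i1, i2, _, _, ⟨S''⟩⟩ := LKT.exists_surgF hb2
  have hF'' : Fam q (fun j => FundamentalGroup.map (inc (Out hc.smooth.continuous)) ⟨q, hq⟩ (r₁ j)) X'' := by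
    refine ⟨ρ', ⟨δ₂, hb2, ⟨S''⟩⟩, fun j => ?_⟩
    rw [hb3 j]
    exact hd4 j
  obtain ⟨G⟩ := hall X'' hF''
  obtain ⟨δ₃, hδ3, hb2', ⟨SM⟩⟩ := nlf_pos (isSurg_XF (⟨δ₂, hb2, ⟨S''⟩⟩ : IsSurg ρ' X'') G)
  -- common radius
  have hpos : 0 < min (min δ₁ δ₂) δ₃ := lt_min (lt_min ha1 hb1) hδ3
  have hle1 : min (min δ₁ δ₂) δ₃ ≤ δ₁ := (min_le_left _ _).trans (min_le_left _ _)
  have hle2 : min (min δ₁ δ₂) δ₃ ≤ δ₂ := (min_le_left _ _).trans (min_le_right _ _)
  have hle3 : min (min δ₁ δ₂) δ₃ ≤ δ₃ := min_le_right _ _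
  have t1 := ha2.mono hpos hle1
  have t2 := hb2.mono hpos hle2
  have u1 : ∀ (i : ι) (l : ℝ) (v : E3), ‖v‖ < min (min δ₁ δ₂) δ₃ → κ' i (l, v) ∉ b '' Metric.closedBall 0 1 :=
    fun i l v hv => (ha4 i l v (lt_of_lt_of_le hv hle1)).1
  have u2 : ∀ (j : ι') (l : ℝ) (v : E3), ‖v‖ < min (min δ₁ δ₂) δ₃ → ρ' j (l, v) ∉ c '' Metric.closedBall 0 1 :=
    fun j l v hv => (hb4 j l v (lt_of_lt_of_le hv hle2)).1
  obtain ⟨X', i3, i4, _, _, ⟨S'⟩⟩ := LKT.exists_surgF t1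
  have hsX' : IsSurg (Sum.elim (fun i x => C.jN (κ' i x)) (fun j x => C.jM (ρ' j x))) X' :=
    ⟨_, cs_tubes hb hc C t1 t2 u1 u2, cs_surg hb hc C t1 t2 u1 u2 S' (SM.mono hle3)⟩
  have hsX2 : IsSurg (Sum.elim (fun i x => C.jN (κ' i x)) (fun j x => C.jM (ρ' j x))) X := by
    refine srg_germ hsX ?_
    rintro (i | j)
    · exact ⟨δ₁, ha1, fun l v hv => (ha4 i l v hv).2⟩
    · exact ⟨δ₂, hb1, fun l v hv => (hb4 j l v hv).2⟩
  obtain ⟨E⟩ := isSurg_uniqF hsX' hsX2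
  refine ⟨κ', isSurg_XF (⟨_, t1, ⟨S'⟩⟩ : IsSurg κ' X') E, fun i => ?_⟩
  rw [ha3 i]
  exact hc4 i

end Pool.Agent.MMV
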