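import Pool.Agent.MMV.NDefs

/-!
# MMV/NLp: images of classes, circles and thick circles   (block VI, squad N)

`inc U`: the inclusion of an open subset.  `pth δ`: transport of classes along a path of base points.

PROOFS.
* `cls_map`: from `⟨a, γ, hγ, hg⟩` take `a.map`, `γ.map` (the types: `Path (f p) (f (c 0))`); `FundamentalGroup.map f p (fromPath ⟦a⟧) = fromPath ⟦a.map f.continuous⟧` (`rfl` or `Path.Homotopic.Quotient.map`), and `(a.trans b).map = (a.map).trans (b.map)`
  (`Path.map_trans`), `Path.map_symm`.  Use `Cls.mk`.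
* `cls_path`: `Cls p' c g` with the path `a : Path p' (c 0)`; take `δ.trans a`; the class of `((δ.trans a).trans γ).trans (δ.trans a).symm` is `δ · [(a.trans γ).trans a.symm] · δ⁻¹`; compute in `Path.Homotopic.Quotient` (as in `ACB/InsC.lean`,
  `insc_quot`).  `pth δ g` is defined as the class of `δ · g · δ.symm`; its multiplicativity is proved here.
* `circ_comp`: `f` local diffeomorphism at the points of the open set `U`, injective on `U`, `c` a circle in `U`: `f ∘ c` is a circle: as `circ_A` (`ACB/CrA.lean`).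
* `circ_val`: the case of the inclusion of an open subset (`Subtype.val` is a local diffeomorphism: see `ContMDiff` of `TopologicalSpace.Opens`, `contMDiff_subtype_val`/ `IsOpenEmbedding`; build the `PartialDiffeomorph` from the open embedding,
  or from the charts: the charts of `U` are the restrictions of the charts of `N`; Mathlib has `TopologicalSpace.Opens.chartAt_eq`, `contMDiffAt_subtype_iff`).
* `val_ld`: `Subtype.val : U → N` is a local diffeomorphism.
* `thick_pull`: let `f : N → Z` be an injective local diffeomorphism on the open set `U`, `κ : ℝ × E3 → Z` thick, `c` a closed curve in `U` with `κ (l, 0) = f (c l)`: there are `0 < δ ≤ ε` and `κ' : ℝ × E3 → N`, thick of radius `δ`, with values in `U`, core `c`,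
  `f (κ' (l, v)) = κ (l, v)` for `‖v‖ < δ`: `f '' U` is open and contains the core; `thick_near`, `κ' = f⁻¹ ∘ κ` (`Function.invFunOn`), `thick_comp`; see the end of the proof of `move_V` (`ACB/Mv2.lean`: `mv2_open`, `mv2_inv`).
-/

open scoped ContDiff Manifold Topology unitInterval
open Set Filter
open Pool.Agent.ACB

namespace Pool.Agent.MMV

/-- the inclusion of an open subset -/
def inc {N : Type} [TopologicalSpace N] (U : TopologicalSpace.Opens N) : C(U, N) := ⟨Subtype.val, continuous_subtype_val⟩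

/-- transport of a class along a path -/
noncomputable def pthF {N : Type} [TopologicalSpace N] {p p' : N} (δ : Path p p') (g : FundamentalGroup N p') :
    FundamentalGroup N p :=
  FundamentalGroup.fromPath (((Path.Homotopic.Quotient.mk δ).trans (FundamentalGroup.toPath g)).trans
    (Path.Homotopic.Quotient.mk δ.symm))

theorem pth_mul {N : Type} [TopologicalSpace N] {p p' : N} (δ : Path p p') (g h : FundamentalGroup N p') :
    pthF δ (g * h) = pthF δ g * pthF δ h := by
  have hc : ∀ {z : N} (X : Path.Homotopic.Quotient p' z),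
      (Path.Homotopic.Quotient.mk δ.symm).trans ((Path.Homotopic.Quotient.mk δ).trans X) = X := by
    intro z X
    rw [← Path.Homotopic.Quotient.trans_assoc, Path.Homotopic.Quotient.mk_symm,
      Path.Homotopic.Quotient.symm_trans, Path.Homotopic.Quotient.refl_trans]
  unfold pthF
  rw [FundamentalGroup.mul_def, FundamentalGroup.mul_def]
  change ((Path.Homotopic.Quotient.mk δ).trans (Path.Homotopic.Quotient.trans h g)).trans
      (Path.Homotopic.Quotient.mk δ.symm) =
    (((Path.Homotopic.Quotient.mk δ).trans h).trans (Path.Homotopic.Quotient.mk δ.symm)).trans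
      (((Path.Homotopic.Quotient.mk δ).trans g).trans (Path.Homotopic.Quotient.mk δ.symm))
  simp only [Path.Homotopic.Quotient.trans_assoc, hc]

/-- transport of the classes along a path, a homomorphism -/
noncomputable def pth {N : Type} [TopologicalSpace N] {p p' : N} (δ : Path p p') :
    FundamentalGroup N p' →* FundamentalGroup N p :=
  MonoidHom.mk' (pthF δ) (pth_mul δ)

theorem cls_map {N N' : Type} [TopologicalSpace N] [TopologicalSpace N'] (f : C(N, N')) {p : N} {c : ℝ → N}
    {g : FundamentalGroup N p} (h : Cls p c g) : Cls (f p) (fun t => f (c t)) (FundamentalGroup.map f p g) := by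
  obtain ⟨a, γ, hγ, rfl⟩ := h
  refine ⟨a.map f.continuous, γ.map f.continuous, fun t => congrArg f (hγ t), ?_⟩
  have e : ((a.map f.continuous).trans (γ.map f.continuous)).trans (a.map f.continuous).symm =
      ((a.trans γ).trans a.symm).map f.continuous := by
    rw [Path.map_trans, Path.map_trans, Path.map_symm]
  change FundamentalGroup.fromPath ⟦((a.map f.continuous).trans (γ.map f.continuous)).trans
    (a.map f.continuous).symm⟧ = _
  rw [e]
  rfl

theorem cls_path {N : Type} [TopologicalSpace N] {p p' : N} (δ : Path p p') {c : ℝ → N} {g : FundamentalGroup N p'}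
    (h : Cls p' c g) : Cls p c (pth δ g) := by
  obtain ⟨a, γ, hγ, rfl⟩ := h
  refine ⟨δ.trans a, γ, hγ, ?_⟩
  change Path.Homotopic.Quotient.mk (((δ.trans a).trans γ).trans (δ.trans a).symm) =
    ((Path.Homotopic.Quotient.mk δ).trans (Path.Homotopic.Quotient.mk ((a.trans γ).trans a.symm))).trans
      (Path.Homotopic.Quotient.mk δ.symm)
  simp only [Path.Homotopic.Quotient.mk_trans, Path.Homotopic.Quotient.mk_symm, Path.trans_symm,
    Path.Homotopic.Quotient.trans_assoc]

variable {N Z : Type} [TopologicalSpace N] [ChartedSpace E4 N] [TopologicalSpace Z] [ChartedSpace E4 Z]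

theorem circ_comp [IsManifold (𝓡 4) ∞ N] [IsManifold (𝓡 4) ∞ Z] {f : N → Z} {U : Set N}
    (hf : ∀ x ∈ U, IsLocalDiffeomorphAt (𝓡 4) (𝓡 4) ∞ f x) (hi : InjOn f U) {c : ℝ → N} (hc : Circ c)
    (hcU : ∀ t, c t ∈ U) : Circ fun t => f (c t) := by
  refine ⟨⟨fun t => (hf (c t) (hcU t)).contMDiffAt.comp t (hc.smooth t), fun t => ?_⟩,
    fun t => ?_, fun t t' h => hc.inj t t' (hi (hcU t) (hcU t') h)⟩
  · show f (c (t + 1)) = f (c t)
    rw [hc.per]
  · obtain ⟨Φ, hx, hΦ⟩ := hf (c t) (hcU t)
    obtain ⟨b, b', hb, hb0, hbr⟩ := exists_ball (c t) (Φ.open_source.mem_nhds hx)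
    have hbs : ∀ x, b x ∈ Φ.source := fun x => hbr ⟨x, rfl⟩
    have hd : deriv (b' ∘ c) t ≠ 0 := (imm_iff (hc.smooth t) hb ⟨0, hb0⟩).1 (hc.imm t)
    have hli : ∀ y ∈ Φ.source, Φ.symm (Φ y) = y := fun y hy => Φ.toPartialEquiv.left_inv hy
    refine ⟨fun x => Φ (b x), fun y => b' (Φ.symm y), ⟨fun x => ?_, ?_, ?_, ?_⟩, ⟨0, ?_⟩, ?_⟩
    · show b' (Φ.symm (Φ (b x))) = x
      rw [hli _ (hbs x), hb.left_inv]
    · exact Φ.contMDiffOn_toFun.comp_contMDiff hb.smooth hbs
    · refine hb.smooth'.comp (Φ.contMDiffOn_invFun.mono ?_) ?_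
      · rintro _ ⟨x, rfl⟩
        exact Φ.toPartialEquiv.map_source (hbs x)
      · rintro _ ⟨x, rfl⟩
        show Φ.symm (Φ (b x)) ∈ range b
        rw [hli _ (hbs x)]
        exact ⟨x, rfl⟩
    · have e : (range fun x => Φ (b x)) = Φ.toOpenPartialHomeomorph '' (range b) := by
        rw [← range_comp]
        rfl
      rw [e]
      exact Φ.toOpenPartialHomeomorph.isOpen_image_of_subset_source hb.isOpen hbr
    · show Φ (b 0) = f (c t)
      rw [hb0]
      exact (hΦ hx).symm
    · have e : ((fun y => b' (Φ.symm y)) ∘ fun t => f (c t)) =ᶠ[𝓝 t] b' ∘ c := by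
        filter_upwards [(hc.smooth.continuous.tendsto t) (Φ.open_source.mem_nhds hx)] with s hs
        show b' (Φ.symm (f (c s))) = b' (c s)
        rw [hΦ hs, hli _ hs]
      rw [e.deriv_eq]
      exact hd

theorem val_ld (U : TopologicalSpace.Opens N) (x : U) :
    IsLocalDiffeomorphAt (𝓡 4) (𝓡 4) ∞ (Subtype.val : U → N) x := by
  classical
  let inv : N → U := fun y => if h : y ∈ U then ⟨y, h⟩ else x
  have hinv : ∀ y : U, inv y.1 = y := fun y => by
    change (if h : y.1 ∈ U then (⟨y.1, h⟩ : U) else x) = y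
    rw [dif_pos y.2]
  refine ⟨⟨⟨Subtype.val, inv, univ, U, ?_, ?_, ?_, ?_⟩, isOpen_univ, U.isOpen, ?_, ?_⟩, mem_univ _, ?_⟩
  · exact fun y _ => y.2
  · exact fun y _ => mem_univ _
  · exact fun y _ => hinv y
  · intro y hy
    exact congrArg Subtype.val (hinv ⟨y, hy⟩)
  · exact contMDiff_subtype_val.contMDiffOn
  · intro y hy
    refine ContMDiffAt.contMDiffWithinAt ?_
    have h1 : ContMDiffAt (𝓡 4) (𝓡 4) ∞ (fun z : U => inv z.1) (⟨y, hy⟩ : U) := by
      have : (fun z : U => inv z.1) = fun z => z := funext hinv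
      rw [this]
      exact contMDiffAt_id
    exact (contMDiffAt_subtype_iff (f := inv) (x := (⟨y, hy⟩ : U))).1 h1
  · exact fun y _ => rfl

theorem circ_val [IsManifold (𝓡 4) ∞ N] (U : TopologicalSpace.Opens N) {c : ℝ → U} (hc : Circ c) :
    Circ fun t => (c t : N) :=
  circ_comp (f := (Subtype.val : U → N)) (U := univ) (fun x _ => val_ld U x) Subtype.val_injective.injOn hc
    fun _ => mem_univ _

theorem thick_pull {f : N → Z} {U : Set N} (hU : IsOpen U)
    (hf : ∀ x ∈ U, IsLocalDiffeomorphAt (𝓡 4) (𝓡 4) ∞ f x) (hi : InjOn f U) {κ : ℝ × E3 → Z} {ε : ℝ}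
    (hκ : Thick κ ε) {c : ℝ → N} (hcU : ∀ t, c t ∈ U) (hc : ∀ l, κ (l, 0) = f (c l)) :
    ∃ (δ : ℝ) (κ' : ℝ × E3 → N), 0 < δ ∧ δ ≤ ε ∧ Thick κ' δ ∧ core κ' = c ∧
      ∀ (l : ℝ) (v : E3), ‖v‖ < δ → κ' (l, v) ∈ U ∧ f (κ' (l, v)) = κ (l, v) := by
  have hUo : IsOpen (f '' U) := mv2_open hU hf
  obtain ⟨δ, hδ, hδε, hδU⟩ := thick_near hκ hUo (fun l => by
    rw [hc]
    exact ⟨c l, hcU l, rfl⟩)
  have : Nonempty N := ⟨c 0⟩
  let R : Z → N := Function.invFunOn f U
  have hR : ∀ p ∈ U, R (f p) = p := fun p hp => hi.leftInvOn_invFunOn hp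
  have hRl : ∀ q ∈ f '' U, IsLocalDiffeomorphAt (𝓡 4) (𝓡 4) ∞ R q := by
    rintro _ ⟨p, hp, rfl⟩
    exact mv2_inv hU hf hR hp
  have hRi : InjOn R (f '' U) := by
    rintro _ ⟨p, hp, rfl⟩ _ ⟨p', hp', rfl⟩ he
    rw [hR p hp, hR p' hp'] at he
    rw [he]
  have hAR : ∀ q ∈ f '' U, R q ∈ U ∧ f (R q) = q := by
    rintro _ ⟨p, hp, rfl⟩
    rw [hR p hp]
    exact ⟨hp, rfl⟩
  refine ⟨δ, fun x => R (κ x), hδ, hδε, thick_comp (hκ.mono hδ hδε) hδU hRl hRi, funext fun l => ?_,
    fun l v hv => hAR _ (hδU l v hv)⟩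
  change R (κ (l, 0)) = c l
  rw [hc, hR _ (hcU l)]

end Pool.Agent.MMV
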