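import Pool.Agent.MMV.SDf

/-!
# MMV/SSf: the two circles are at distance `> 1/1000` from the tubes and from the boundary of the half plane   (difficulty 2)

`1 - ‖Cy w‖² = 4 r²/(1+‖w‖²)²`, `r = re w > 0`: `‖Cy w‖ < 1/2` iff `4 r > √3 (1 + ‖w‖²)`; we use only `433/250 (1 + ‖w‖²) < 4 r` (`1.732 < √3`).
So `‖Cy (32 w)‖ < 1/2` gives (D1) `‖w‖² < 0.0722 r - 0.00097` (`433/250 (1 + 1024 ‖w‖²) < 128 r`), and `‖Cy (w/32)‖ < 1/2` gives (D2) `‖w‖² < 74 r - 1024` (`433/250 (1024 + ‖w‖²) < 128 r`).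
Let `c` be on the circle `‖c - 65/128‖ = 63/128`, `‖w - c‖ ≤ δ = 1/1000`: `63/128 - δ ≤ ‖w - 65/128‖ ≤ 63/128 + δ`, so `r ≥ 1/64 - δ > 0`, `r ≤ 1 + δ` and `‖w‖² ≥ (65/64) r - 1/64 - δ` (`‖w - a‖² = ‖w‖² - 2 a r + a²`, `a = 65/128`, `(65² - 63²)/128² = 1/64`).
(D1) gives `0.943 r < 0.0157`, `r < 0.0167`, and `r² ≤ ‖w‖² < 0.0722 r - 0.00097`: `0.0722 · 0.0167 - 0.00097 < 0.00024`, so `r < 0.0155`; again `r² < 0.0722 · 0.0155 - 0.00097 < 0.00015`, `r < 0.0123`; then `0.0722 · 0.0123 < 0.00097`: contradiction.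
(Or directly: the discriminant of `r² - 0.0722 r + 0.00097` gives `r > 0.0167`..: nlinarith.)  (D2) gives `1024 < 74 r`: contradiction with `r ≤ 1 + δ`.
Let `‖c - 65/2‖ = 63/2`: `63/2 - δ ≤ ‖w - 65/2‖ ≤ 63/2 + δ`: `1 - δ ≤ r ≤ 64 + δ`, `‖w‖² ≥ 65 r - 64 - 63 δ`.  (D1): `r² < 0.0722 r`: contradiction.  (D2): `65 r - 64 - 63 δ < 74 r - 1024`: `9 r > 959`: contradiction.
`Sf_ne`: `Cy 1 = 0`.
-/

open scoped ContDiff Manifold Topology unitInterval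
open Set Filter
open Pool.Agent.CSG (stp)
open Pool.Agent.RSG (E3 E4 S2 S3 S4 ex cj c1 c2 ht fh pS3 pS4)
open Pool.Agent.RBM (ThickT OnT Box)
open Pool.Agent.LKF (OnF)
open Pool.Agent.PTH (SP ISP)
open Pool.Agent.KNH (circ)
open Pool.Agent.LKT (s1 s2)

namespace Pool.Agent.MMV

/-- safe points: in the half plane, outside the two tubes -/
def Sf (w : ℂ) : Prop := 0 < w.re ∧ 1 / 2 ≤ ‖Cy (32 * w)‖ ∧ 1 / 2 ≤ ‖Cy (w / 32)‖

theorem ssf_nsq (w : ℂ) : ‖w‖ ^ 2 = w.re ^ 2 + w.im ^ 2 := by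
  rw [Complex.sq_norm, Complex.normSq_apply]; ring

theorem ssf_far {u : ℂ} (h0 : 0 < u.re) (h : 4 * u.re ≤ 433 / 250 * (1 + ‖u‖ ^ 2)) : 1 / 2 ≤ ‖Cy u‖ := by
  have h1 : ‖Cy u‖ ^ 2 = 1 - 4 * u.re ^ 2 / (1 + ‖u‖ ^ 2) ^ 2 := by
    have hn := ssf_nsq u
    have hp : (1 : ℝ) + ‖u‖ ^ 2 ≠ 0 := by positivity
    rw [ssf_nsq (Cy u)]
    unfold Cy
    dsimp only
    rw [div_pow, div_pow, ← add_div, eq_sub_iff_add_eq, ← add_div, div_eq_one_iff_eq (pow_ne_zero 2 hp)]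
    have him : u.im ^ 2 = ‖u‖ ^ 2 - u.re ^ 2 := by rw [hn]; ring
    linear_combination 4 * him
  have hp : (0 : ℝ) < 1 + ‖u‖ ^ 2 := by positivity
  have h2 : 4 * u.re ^ 2 / (1 + ‖u‖ ^ 2) ^ 2 ≤ 3 / 4 := by
    rw [div_le_iff₀ (by positivity)]
    have h3 : (4 * u.re) ^ 2 ≤ (433 / 250 * (1 + ‖u‖ ^ 2)) ^ 2 := pow_le_pow_left₀ (by positivity) h 2
    nlinarith only [h3, pow_pos hp 2]
  have h4 : (1 / 2 : ℝ) ^ 2 ≤ ‖Cy u‖ ^ 2 := by rw [h1]; linarith only [h2]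
  exact le_of_sq_le_sq h4 (norm_nonneg _)

theorem ssf_circ {w c : ℂ} {a ρ : ℝ} (hρ : 1 / 1000 ≤ ρ) (hc : ‖c - (a : ℂ)‖ = ρ) (h : ‖w - c‖ ≤ 1 / 1000) :
    (ρ - 1 / 1000) ^ 2 ≤ (w.re - a) ^ 2 + w.im ^ 2 ∧ (w.re - a) ^ 2 + w.im ^ 2 ≤ (ρ + 1 / 1000) ^ 2 ∧
      a - ρ - 1 / 1000 ≤ w.re ∧ w.re ≤ a + ρ + 1 / 1000 := by
  have e : ‖w - (a : ℂ)‖ ^ 2 = (w.re - a) ^ 2 + w.im ^ 2 := by
    rw [ssf_nsq]; simp
  have e1 : w - (a : ℂ) = (w - c) + (c - a) := by ring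
  have h1 : ‖w - (a : ℂ)‖ ≤ ρ + 1 / 1000 := by
    rw [e1]
    have := norm_add_le (w - c) (c - (a : ℂ))
    linarith
  have h2 : ρ - 1 / 1000 ≤ ‖w - (a : ℂ)‖ := by
    have e2 : c - (a : ℂ) = (w - a) - (w - c) := by ring
    have := norm_sub_le (w - (a : ℂ)) (w - c)
    rw [← e2, hc] at this
    linarith
  have h3 : |w.re - a| ≤ ‖w - (a : ℂ)‖ := by
    have := Complex.abs_re_le_norm (w - (a : ℂ))
    simpa using this
  have h4 := abs_le.1 (h3.trans h1)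
  refine ⟨?_, ?_, by linarith [h4.1], by linarith [h4.2]⟩
  · rw [← e]; exact pow_le_pow_left₀ (by linarith) h2 2
  · rw [← e]; exact pow_le_pow_left₀ (norm_nonneg _) h1 2

theorem Sf_near {w c : ℂ} (hc : OnC c) (h : ‖w - c‖ ≤ 1 / 1000) : Sf w := by
  have key : 0 < w.re ∧ 128 * w.re ≤ 433 / 250 * (1 + 1024 * (w.re ^ 2 + w.im ^ 2)) ∧
      w.re / 8 ≤ 433 / 250 * (1 + (w.re ^ 2 + w.im ^ 2) / 1024) := by
    rcases hc with hc | hc
    · have hc' : ‖c - ((65 / 128 : ℝ) : ℂ)‖ = 63 / 128 := by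
        rw [← hc]; congr 1; push_cast; ring
      obtain ⟨h1, h2, h3, h4⟩ := ssf_circ (by norm_num) hc' h
      refine ⟨by linarith, ?_, ?_⟩
      · by_contra hcon
        push Not at hcon
        have k1 : w.re < 166 / 10000 := by nlinarith only [h1, hcon]
        have k2 : w.re ^ 2 + w.im ^ 2 < 0.07219 * w.re - 0.0009765 := by nlinarith only [hcon, h3]
        have k3 : 0 < (0.0166 - w.re) * (0.05557 - w.re) := mul_pos (by linarith) (by linarith)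
        nlinarith only [k2, k3, sq_nonneg w.im, h3]
      · nlinarith only [h4, sq_nonneg w.im, sq_nonneg w.re]
    · have hc' : ‖c - ((65 / 2 : ℝ) : ℂ)‖ = 63 / 2 := by
        rw [← hc]; congr 1; push_cast; ring
      obtain ⟨h1, h2, h3, h4⟩ := ssf_circ (by norm_num) hc' h
      refine ⟨by linarith, ?_, ?_⟩
      · nlinarith only [h3, sq_nonneg w.im]
      · nlinarith only [h1, h3, h4]
  obtain ⟨k0, k1, k2⟩ := key
  refine ⟨k0, ssf_far ?_ ?_, ssf_far ?_ ?_⟩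
  · simpa using k0
  · have e1 : (32 * w).re = 32 * w.re := by simp
    have e2 : ‖(32 : ℂ) * w‖ ^ 2 = 1024 * (w.re ^ 2 + w.im ^ 2) := by
      rw [norm_mul, mul_pow, ssf_nsq w]; norm_num
    rw [e1, e2]; linarith
  · have e1 : (w / 32).re = w.re / 32 := by
      have := Complex.div_ofNat_re w 32
      simpa using this
    rw [e1]; positivity
  · have e1 : (w / 32).re = w.re / 32 := by
      have := Complex.div_ofNat_re w 32
      simpa using this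
    have e2 : ‖w / (32 : ℂ)‖ ^ 2 = (w.re ^ 2 + w.im ^ 2) / 1024 := by
      rw [norm_div, div_pow, ssf_nsq w]; norm_num
    rw [e1, e2]; linarith

theorem ssf_Cy_one : Cy 1 = 0 := by
  unfold Cy
  apply Complex.ext <;> simp

theorem Sf_ne {w : ℂ} (h : Sf w) : w ≠ 1 / 32 ∧ w ≠ 32 := by
  obtain ⟨_, h1, h2⟩ := h
  constructor
  · rintro rfl
    rw [show (32 : ℂ) * (1 / 32) = 1 by norm_num, ssf_Cy_one, norm_zero] at h1
    norm_num at h1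
  · rintro rfl
    rw [show (32 : ℂ) / 32 = 1 by norm_num, ssf_Cy_one, norm_zero] at h2
    norm_num at h2

theorem ze₁_on (τ : ℝ) : OnC (ze₁ τ) := by
  left
  unfold ze₁
  rw [show ((65 / 128 : ℝ) : ℂ) + ((63 / 128 : ℝ) : ℂ) * ex τ - 65 / 128 = ((63 / 128 : ℝ) : ℂ) * ex τ by
    push_cast; ring, norm_mul, Pool.Agent.RSG.ex_norm, Complex.norm_real]
  norm_num

theorem ze₂_on (τ : ℝ) : OnC (ze₂ τ) := by
  right
  unfold ze₂
  rw [show ((65 / 2 : ℝ) : ℂ) - ((63 / 2 : ℝ) : ℂ) * ex τ - 65 / 2 = -(((63 / 2 : ℝ) : ℂ) * ex τ) by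
    push_cast; ring, norm_neg, norm_mul, Pool.Agent.RSG.ex_norm, Complex.norm_real]
  norm_num

theorem one_on : OnC 1 := by
  left
  rw [show (1 : ℂ) - 65 / 128 = ((63 / 128 : ℝ) : ℂ) by push_cast; norm_num, Complex.norm_real]
  norm_num

end Pool.Agent.MMV
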