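import Pool.Agent.MMV.SBc
import Pool.Agent.MMV.SSf

/-!
# MMV/SWd: the path of a word   (difficulty 3)

`FreeGroup.induction_on` for the statement.  Let `J`, `q`, `g₁`, `g₂` be as in the statement; `J` is continuous at the points of `OnC` (`Sf_near` with `w = c`, `Sf_ne`), so for admissible `p` the function `τ ↦ J (1 + p τ)` is continuous on `ℝ`, equal to `q` outside `(1/4, 3/4)`.
* `1`: `p = 0`, `bcls_one`.
* letter `of i`: `p τ = ze (stp (1/4) (3/4) τ) - 1`, `ze = ze₁` or `ze₂` (`ze 0 = ze 1 = 1`, `RSG.ex_zero`, `RSG.ex_int`; `RSG.ex_smooth`, `CSG.stp_smooth`): `bcls_reparam` with `f τ = J (ze τ)` (continuous: `ze₁_on`), `σ = id`, `σ' = stp (1/4) (3/4)`.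
* inverse of a letter: `p (1 - τ)`, `bcls_rev`, `map_inv`.
* product `x y` (paths `p_x`, `p_y`): `g * k` is the class of `k` followed by `g`, so `p τ = p_y (2 τ - 1/4) + p_x (2 τ - 3/4)` (for `τ ≤ 1/2` the second term is `0`, for `τ ≥ 1/2` the first term is `0`; at most one term is nonzero, so `OnC` holds; smooth).
  Class: `f τ = J (1 + p τ)`; `bcls_split` with `a = 0`, `b = 1/2`, `c = 1`: on `[0, 1/2]` `f (t/2) = J (1 + p_y (t - 1/4))`: the class of `J (1 + p_y ·)` by `bcls_out`?  The map `σ t = t - 1/4` does not reach `1`; use `f_y (τ) = J (1 + p_y ((τ + 1/2)/2))`..., simplest: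
  apply `bcls_out` to `f₁ τ = J (1 + p_y (1/4 + τ/2))` (equal to `q` outside `(0, 1)`): its class is the class of `J (1 + p_y ·)` (`p_y (s) = f₁ (2 s - 1/2)`, `bcls_out` with `σ s = 2 s - 1/2` and `bcls_unique`, or prove the auxiliary lemma: if `BCls q (f ∘ σ) g`, `f = q` outside `(0,1)`, `σ 0 ≤ 0`, `1 ≤ σ 1`, then `BCls q f g`:
  `f` has some class `g'` (`bcls_exists`: `f 0 = f 1 = q`, `f` continuous), `bcls_out` and `bcls_unique`), and `t - 1/4 = 1/4 + τ/2` for `τ = 2 t - 1` .. so it is `bcls_out` for `f₁` with a suitable `σ` if the parametrisation covers `[0,1]`; choose the halves of `[0, 1]` accordingly: `2 τ - 1/4` maps `[0, 1/2]` to `[-1/4, 3/4]`,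
  which contains the support `[1/4, 3/4]` of `p_y`: `σ t = 2 (t - 1/4) - 1/2`.., i.e. `p_y (t - 1/4) = f₁ (2 t - 1)`: `σ 0 = -1 ≤ 0`, `σ 1 = 1`.  Good.  On `[1/2, 1]`: `f (1/2 + t/2) = J (1 + p_x (t + 1/4)) = f₁ˣ (2 t)`: `σ 0 = 0`, `σ 1 = 2`.  Good.
-/

open scoped ContDiff Manifold Topology unitInterval
open Set Filter
open Pool.Agent.CSG (stp)
open Pool.Agent.RSG (E3 E4 S2 S3 S4 ex cj c1 c2 ht fh pS3 pS4)
open Pool.Agent.RBM (ThickT OnT Box)
open Pool.Agent.LKF (OnF)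
open Pool.Agent.PTH (SP ISP)
open Pool.Agent.KNH (circ)
open Pool.Agent.LKT (s1 s2)

namespace Pool.Agent.MMV

theorem bcls_exists {N : Type*} [TopologicalSpace N] {q : N} {f : ℝ → N} (hf : Continuous f) (h0 : f 0 = q) (h1 : f 1 = q) :
    ∃ g : FundamentalGroup N q, BCls q f g := by
  let γ : Path q q := ⟨⟨fun t => f t, hf.comp continuous_subtype_val⟩, by simpa using h0, by simpa using h1⟩
  exact ⟨FundamentalGroup.fromPath ⟦γ⟧, γ, fun t => rfl, rfl⟩

private theorem swd_shift {N : Type*} [TopologicalSpace N] {q : N} {F : ℝ → N} (hF : Continuous F)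
    (ho : ∀ τ, τ ≤ 1 / 4 ∨ 3 / 4 ≤ τ → F τ = q) {g : FundamentalGroup N q} (h : BCls q F g) {κ : ℝ → ℝ}
    (hκ : Continuous κ) (h0 : κ 0 ≤ 1 / 4) (h1 : 3 / 4 ≤ κ 1) : BCls q (fun t => F (κ t)) g := by
  set f₁ : ℝ → N := fun τ => F (1 / 4 + τ / 2) with hf₁
  have hf₁c : Continuous f₁ := hF.comp (by fun_prop)
  have hout : ∀ τ, τ ≤ 0 ∨ 1 ≤ τ → f₁ τ = q := by
    intro τ hτ
    apply ho
    rcases hτ with hτ | hτ
    · left
      linarith
    · right
      linarith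
  obtain ⟨g', hg'⟩ := bcls_exists hf₁c (hout 0 (Or.inl le_rfl)) (hout 1 (Or.inr le_rfl))
  have h2 := bcls_out hf₁c hout (ρ := fun s => 2 * s - 1 / 2) (by fun_prop) (by norm_num) (by norm_num) hg'
  have h3 : BCls q F g' := by
    refine bcls_congr h2 ?_
    intro t _
    simp only [hf₁]
    congr 1
    ring
  have hgg : g = g' := bcls_unique h h3
  subst hgg
  have h4 := bcls_out hf₁c hout (ρ := fun s => 2 * κ s - 1 / 2) (by fun_prop) (by linarith) (by linarith) hg'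
  refine bcls_congr h4 ?_
  intro t _
  simp only [hf₁]
  congr 1
  ring

private theorem swd_at {N : Type*} [TopologicalSpace N] {J : ℂ → N}
    (hJ : ∀ w : ℂ, 0 < w.re → w ≠ 1 / 32 → w ≠ 32 → ContinuousAt J w) {c : ℂ} (hc : OnC c) : ContinuousAt J c := by
  have hs : Sf c := Sf_near hc (by simp)
  obtain ⟨h1, h2⟩ := Sf_ne hs
  exact hJ c hs.1 h1 h2

private theorem swd_cont {N : Type*} [TopologicalSpace N] {J : ℂ → N}
    (hJ : ∀ w : ℂ, 0 < w.re → w ≠ 1 / 32 → w ≠ 32 → ContinuousAt J w) {u : ℝ → ℂ} (hu : Continuous u)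
    (hc : ∀ τ, OnC (u τ)) : Continuous (fun τ => J (u τ)) := by
  rw [continuous_iff_continuousAt]
  intro τ
  exact ContinuousAt.comp (f := u) (g := J) (swd_at hJ (hc τ)) hu.continuousAt

private theorem swd_letter {ze : ℝ → ℂ} (hze : ContDiff ℝ ∞ ze) (h0 : ze 0 = 1) (h1 : ze 1 = 1) (hon : ∀ τ, OnC (ze τ)) :
    Wd (fun τ => ze (stp (1 / 4) (3 / 4) τ) - 1) ∧ ∀ (N : Type) [TopologicalSpace N] (J : ℂ → N) (q : N),
      (∀ w : ℂ, 0 < w.re → w ≠ 1 / 32 → w ≠ 32 → ContinuousAt J w) → J 1 = q →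
      ∀ g : FundamentalGroup N q, BCls q (fun τ => J (ze τ)) g →
        BCls q (fun τ => J (1 + (ze (stp (1 / 4) (3 / 4) τ) - 1))) g := by
  have hlt : (1 / 4 : ℝ) < 3 / 4 := by norm_num
  refine ⟨⟨?_, ?_, ?_⟩, ?_⟩
  · exact (hze.comp (CSG.stp_smooth _ _)).sub contDiff_const
  · intro τ hτ
    rcases hτ with hτ | hτ
    · rw [CSG.stp_zero hlt hτ, h0, sub_self]
    · rw [CSG.stp_one hlt hτ, h1, sub_self]
  · intro τ
    simp only [add_sub_cancel]
    exact hon _
  · intro N _ J q hJ hq g hg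
    have hf : Continuous (fun τ => J (ze τ)) := swd_cont hJ hze.continuous hon
    have h2 := bcls_reparam hf (ρ := fun t => t) (ρ' := stp (1 / 4) (3 / 4)) continuous_id
      (CSG.stp_smooth _ _).continuous (by rw [CSG.stp_zero hlt (by norm_num)])
      (by rw [CSG.stp_one hlt (by norm_num)]) hg
    refine bcls_congr h2 ?_
    intro t _
    simp only [add_sub_cancel]

private def swdP (G : FreeGroup (Fin 2)) : Prop :=
    ∃ p : ℝ → ℂ, Wd p ∧ ∀ (N : Type) [TopologicalSpace N] (J : ℂ → N) (q : N),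
      (∀ w : ℂ, 0 < w.re → w ≠ 1 / 32 → w ≠ 32 → ContinuousAt J w) → J 1 = q →
      ∀ g₁ g₂ : FundamentalGroup N q, BCls q (fun τ => J (ze₁ τ)) g₁ → BCls q (fun τ => J (ze₂ τ)) g₂ →
        BCls q (fun τ => J (1 + p τ)) (FreeGroup.lift ![g₁, g₂] G)

private theorem swd_one : swdP 1 := by
  refine ⟨fun _ => 0, ⟨contDiff_const, fun _ _ => rfl, fun _ => ?_⟩, ?_⟩
  · rw [add_zero]
    exact one_on
  · intro N _ J q hJ hq g₁ g₂ h₁ h₂
    rw [map_one]
    refine bcls_one ?_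
    intro t _
    simp only [add_zero]
    exact hq

private theorem swd_of (x : Fin 2) : swdP (FreeGroup.of x) := by
  have hs1 : ContDiff ℝ ∞ ze₁ := by
    unfold ze₁
    exact contDiff_const.add (contDiff_const.mul RSG.ex_smooth)
  have hs2 : ContDiff ℝ ∞ ze₂ := by
    unfold ze₂
    exact contDiff_const.sub (contDiff_const.mul RSG.ex_smooth)
  have e1 : ex 1 = 1 := by
    have := RSG.ex_int 1
    simpa using this
  have h10 : ze₁ 0 = 1 := by
    unfold ze₁
    rw [RSG.ex_zero]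
    push_cast
    norm_num
  have h11 : ze₁ 1 = 1 := by
    unfold ze₁
    rw [e1]
    push_cast
    norm_num
  have h20 : ze₂ 0 = 1 := by
    unfold ze₂
    rw [RSG.ex_zero]
    push_cast
    norm_num
  have h21 : ze₂ 1 = 1 := by
    unfold ze₂
    rw [e1]
    push_cast
    norm_num
  fin_cases x
  · obtain ⟨h1, h2⟩ := swd_letter hs1 h10 h11 ze₁_on
    refine ⟨_, h1, ?_⟩
    intro N _ J q hJ hq g₁ g₂ h₁ h₂
    have := h2 N J q hJ hq g₁ h₁
    simpa using this
  · obtain ⟨h1, h2⟩ := swd_letter hs2 h20 h21 ze₂_on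
    refine ⟨_, h1, ?_⟩
    intro N _ J q hJ hq g₁ g₂ h₁ h₂
    have := h2 N J q hJ hq g₂ h₂
    simpa using this

private theorem swd_inv {G : FreeGroup (Fin 2)} (h : swdP G) : swdP G⁻¹ := by
  obtain ⟨p, hp, hh⟩ := h
  refine ⟨fun τ => p (1 - τ), ⟨hp.smooth.comp (by fun_prop), ?_, ?_⟩, ?_⟩
  · intro τ hτ
    apply hp.zero
    rcases hτ with hτ | hτ
    · right
      linarith
    · left
      linarith
  · intro τ
    exact hp.on _
  · intro N _ J q hJ hq g₁ g₂ h₁ h₂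
    have := bcls_rev (hh N J q hJ hq g₁ g₂ h₁ h₂)
    rw [map_inv]
    exact this

private theorem swd_mul {x y : FreeGroup (Fin 2)} (hx : swdP x) (hy : swdP y) : swdP (x * y) := by
  obtain ⟨px, hpx, hhx⟩ := hx
  obtain ⟨py, hpy, hhy⟩ := hy
  have hfirst : ∀ τ, τ ≤ 1 / 2 → px (2 * τ - 3 / 4) = 0 := fun τ hτ => hpx.zero _ (Or.inl (by linarith))
  have hsecond : ∀ τ, 1 / 2 ≤ τ → py (2 * τ - 1 / 4) = 0 := fun τ hτ => hpy.zero _ (Or.inr (by linarith))
  have hwd : Wd (fun τ => py (2 * τ - 1 / 4) + px (2 * τ - 3 / 4)) := by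
    refine ⟨?_, ?_, ?_⟩
    · exact (hpy.smooth.comp (by fun_prop)).add (hpx.smooth.comp (by fun_prop))
    · intro τ hτ
      rcases hτ with hτ | hτ
      · rw [hfirst τ (by linarith), hpy.zero _ (Or.inl (by linarith)), add_zero]
      · rw [hsecond τ (by linarith), hpx.zero _ (Or.inr (by linarith)), add_zero]
    · intro τ
      rcases le_total τ (1 / 2) with hτ | hτ
      · rw [hfirst τ hτ, add_zero]
        exact hpy.on _
      · rw [hsecond τ hτ, zero_add]
        exact hpx.on _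
  refine ⟨_, hwd, ?_⟩
  intro N _ J q hJ hq g₁ g₂ h₁ h₂
  have hfx : Continuous (fun τ => J (1 + px τ)) :=
    swd_cont hJ (continuous_const.add hpx.smooth.continuous) hpx.on
  have hfy : Continuous (fun τ => J (1 + py τ)) :=
    swd_cont hJ (continuous_const.add hpy.smooth.continuous) hpy.on
  have hf : Continuous (fun τ => J (1 + (py (2 * τ - 1 / 4) + px (2 * τ - 3 / 4)))) :=
    swd_cont hJ (continuous_const.add hwd.smooth.continuous) hwd.on
  have hox : ∀ τ, τ ≤ 1 / 4 ∨ 3 / 4 ≤ τ → J (1 + px τ) = q := by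
    intro τ hτ
    rw [hpx.zero τ hτ, add_zero, hq]
  have hoy : ∀ τ, τ ≤ 1 / 4 ∨ 3 / 4 ≤ τ → J (1 + py τ) = q := by
    intro τ hτ
    rw [hpy.zero τ hτ, add_zero, hq]
  have cy := swd_shift hfy hoy (hhy N J q hJ hq g₁ g₂ h₁ h₂) (κ := fun t => t - 1 / 4) (by fun_prop) (by norm_num)
    (by norm_num)
  have cx := swd_shift hfx hox (hhx N J q hJ hq g₁ g₂ h₁ h₂) (κ := fun t => t + 1 / 4) (by fun_prop) (by norm_num)
    (by norm_num)
  have hs := bcls_split hf 0 (1 / 2) 1 (bcls_congr cy ?_) (bcls_congr cx ?_)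
  · rw [map_mul]
    refine bcls_congr hs ?_
    intro t _
    simp only [zero_add, sub_zero, mul_one]
  · intro t ht
    have e : 0 + t * (1 / 2 - 0) ≤ 1 / 2 := by linarith [ht.2]
    rw [hfirst _ e, add_zero]
    congr 3
    ring
  · intro t ht
    have e : 1 / 2 ≤ 1 / 2 + t * (1 - 1 / 2) := by linarith [ht.1]
    rw [hsecond _ e, zero_add]
    congr 3
    ring

/-- the path of a word -/
theorem exists_word (G : FreeGroup (Fin 2)) :
    ∃ p : ℝ → ℂ, Wd p ∧ ∀ (N : Type) [TopologicalSpace N] (J : ℂ → N) (q : N),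
      (∀ w : ℂ, 0 < w.re → w ≠ 1 / 32 → w ≠ 32 → ContinuousAt J w) → J 1 = q →
      ∀ g₁ g₂ : FundamentalGroup N q, BCls q (fun τ => J (ze₁ τ)) g₁ → BCls q (fun τ => J (ze₂ τ)) g₂ →
        BCls q (fun τ => J (1 + p τ)) (FreeGroup.lift ![g₁, g₂] G) := by
  have key : swdP G := FreeGroup.induction_on G swd_one swd_of (fun x hx => swd_inv hx)
    (fun x y hx hy => swd_mul hx hy)
  exact key

end Pool.Agent.MMV
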