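import Pool.Agent.MMV.SSt
import Pool.Agent.MMV.SWd

/-!
# MMV/SCl: the class of the boundary circle of the strip   (difficulty 4)

Let `z u = (5/2) ex u`, `x = re z`, `c u = Jt (fi x, Wm z + p (2 fi x))`: continuous (`pos_re`, `pos_mid`, `Sf_ne`; for `|x| > 1/4` `p = 0` and `Wm z ≠ 1/32, 32`: `Wm (-1) = 1/32`, `Wm 1 = 32` (`Wm_left`, `Wm_right`, `Ci 0 = 1`), `Wm_inj`, `z u ≠ ±1`), period `1`.
`cls_shift` with `a = 5/16`: `u = v + 5/16`.  For `v ∈ [0, 1]` put
`Z v = 1 + (ze₁ (cl (8/3 v)) - 1) + (ze₂ (cl (8/3 (v - 1/2))) - 1)`, `cl` the clamp to `[0, 1]` (`max 0 (min 1 ·)`), so `Z = ze₁ (8 v/3)` on `[0, 3/8]`, `1` on `[3/8, 1/2]`, `ze₂ (8/3 (v - 1/2))` on `[1/2, 7/8]`, `1` on `[7/8, 1]`.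
SIGNS AND WINDOWS: `x = (5/2) cos (2π (v + 5/16))`, `y = (5/2) sin (2π (v + 5/16))`.  `v ∈ [0, 3/8]`: `x < -1/4` (`|cos (2π (v + 5/16))| ≥ sin (π/8) ≥ 1/4 > 1/10`, `Real.mul_le_sin`), `y ≥ 0` iff `v ≤ 3/16`.  `v ∈ [1/2, 7/8]`: `x > 1/4`; `y ≤ 0` iff `v ≤ 11/16` (there).
`v ∈ [3/8, 1/2]`: `y < 0`; `v ∈ [7/8, 1]`: `y > 0`.  (Use `Real.sin`, `Real.cos` monotonicity on quarter periods, or `sin`/`cos` of `π/2 + ..`.)
HOMOTOPY (`cls_free`): `H (h, v) = Jt ((1 - h) fi x, (1 - h) Wm z + h Z v + p (2 fi x))`.  Allowed points (in the half plane, `≠ 1/32, 32`):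
 - `|x| ≤ 1/4` (then `Z v = 1`): `‖(1-h) Wm z + h + p - (1 + p)‖ ≤ 1/1000`: `Sf_near`, `Sf_ne`.
 - `|x| > 1/4` (`p = 0`): real parts positive (`Wm_re`, `re ze₁ ≥ 1/64`, `re ze₂ ≥ 1`).  If `y > 0` then `im Wm z > 0`, `im (Z v) ≥ 0`, so the point is not real for `h < 1`; for `h = 1`: `Z v` is on `OnC`.  Similarly `y < 0`.
   If `y = 0`: `v = 3/16`: `z = -5/2`, `Wm z` real `< 1/32` (`Wm_real`), `Z v = ze₁ (1/2) = 1/64 < 1/32`; `v = 11/16`: `z = 5/2`, `Wm z > 32`, `Z v = 64 > 32`.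
 `H (h, 0) = H (h, 1)`: `Z 0 = Z 1 = 1`, `z` periodic.  `H (1, 0) = Jt (0, 1) = q` (`p = 0` there).
CLASS of `f v = H (1, v) = Jt (0, Z v + p (2 fi x))` (extend `f` to a continuous function on `ℝ` by clamping `v`): `bcls_split` at `3/8`, `1/2`, `7/8`:
 - `[0, 3/8]`: `f (3 t/8) = Jt (0, ze₁ t)`: class `g₁`.
 - `[3/8, 1/2]`: `Jt (0, 1 + p (2 fi x))`, `2 fi x = stp (-1/4) (1/4) x` goes from `0` to `1`: `bcls_reparam` (or `bcls_out`): class `g`.
 - `[1/2, 7/8]`: class `g₂`.  `[7/8, 1]`: `2 fi x` from `1` to `0`: class `g⁻¹` (`bcls_rev`).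
 Total (path order = reversed multiplication): `g⁻¹ * g₂ * g * g₁`; conjugate by `g₁` (`cls_conjN`): `g₁ * g⁻¹ * g₂ * g`.
-/

open scoped ContDiff Manifold Topology unitInterval
open Set Filter
open Pool.Agent.CSG (stp)
open Pool.Agent.RSG (E3 E4 S2 S3 S4 ex cj c1 c2 ht fh pS3 pS4)
open Pool.Agent.RBM (ThickT OnT Box)
open Pool.Agent.LKF (OnF)
open Pool.Agent.PTH (SP ISP)
open Pool.Agent.KNH (circ)
open Pool.Agent.LKT (s1 s2)

namespace Pool.Agent.MMV

/-- clamp -/
noncomputable def scl_c (t : ℝ) : ℝ := max 0 (min 1 t)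

theorem scl_cc : Continuous scl_c := continuous_const.max (continuous_const.min continuous_id)

theorem scl_in {t : ℝ} (h : 0 ≤ t) (h' : t ≤ 1) : scl_c t = t := by
  unfold scl_c
  rw [min_eq_right h', max_eq_right h]

theorem scl_lo {t : ℝ} (h : t ≤ 0) : scl_c t = 0 := by
  unfold scl_c
  rw [min_eq_right (by linarith), max_eq_left h]

theorem scl_hi {t : ℝ} (h : 1 ≤ t) : scl_c t = 1 := by
  unfold scl_c
  rw [min_eq_left h, max_eq_right zero_le_one]

theorem scl_ex1 : ex 1 = 1 := by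
  have h := RSG.ex_int 1
  simpa using h

theorem scl_z10 : ze₁ 0 = 1 := by
  unfold ze₁
  rw [RSG.ex_zero]
  norm_num

theorem scl_z11 : ze₁ 1 = 1 := by
  unfold ze₁
  rw [scl_ex1]
  norm_num

theorem scl_z20 : ze₂ 0 = 1 := by
  unfold ze₂
  rw [RSG.ex_zero]
  norm_num

theorem scl_z21 : ze₂ 1 = 1 := by
  unfold ze₂
  rw [scl_ex1]
  norm_num

theorem scl_z1h : ze₁ (1 / 2) = 1 / 64 := by
  unfold ze₁
  rw [RSG.ex_half]
  norm_num

theorem scl_z2h : ze₂ (1 / 2) = 64 := by
  unfold ze₂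
  rw [RSG.ex_half]
  norm_num

theorem scl_z1c : Continuous ze₁ := continuous_const.add (continuous_const.mul RSG.ex_smooth.continuous)

theorem scl_z2c : Continuous ze₂ := continuous_const.sub (continuous_const.mul RSG.ex_smooth.continuous)

theorem scl_z1i (τ : ℝ) : (ze₁ τ).im = 63 / 128 * Real.sin (2 * Real.pi * τ) := by
  unfold ze₁
  rw [Complex.add_im, Complex.ofReal_im, Complex.im_ofReal_mul, RSG.ex_im, zero_add]

theorem scl_z2i (τ : ℝ) : (ze₂ τ).im = -(63 / 2 * Real.sin (2 * Real.pi * τ)) := by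
  unfold ze₂
  rw [Complex.sub_im, Complex.ofReal_im, Complex.im_ofReal_mul, RSG.ex_im, zero_sub]

/-- the loop `Z` -/
noncomputable def scl_Z (v : ℝ) : ℂ := ze₁ (scl_c (8 / 3 * v)) + ze₂ (scl_c (8 / 3 * (v - 1 / 2))) - 1

theorem scl_Zc : Continuous scl_Z :=
  ((scl_z1c.comp (scl_cc.comp (continuous_const.mul continuous_id))).add
    (scl_z2c.comp (scl_cc.comp (continuous_const.mul (continuous_id.sub continuous_const))))).sub continuous_const

theorem scl_Z1 {v : ℝ} (h : v ≤ 1 / 2) : scl_Z v = ze₁ (scl_c (8 / 3 * v)) := by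
  unfold scl_Z
  rw [scl_lo (t := 8 / 3 * (v - 1 / 2)) (by linarith), scl_z20]
  ring

theorem scl_Z2 {v : ℝ} (h : 3 / 8 ≤ v) : scl_Z v = ze₂ (scl_c (8 / 3 * (v - 1 / 2))) := by
  unfold scl_Z
  rw [scl_hi (t := 8 / 3 * v) (by linarith), scl_z11]
  ring

theorem scl_Z3 {v : ℝ} (h : 3 / 8 ≤ v) (h' : v ≤ 1 / 2) : scl_Z v = 1 := by
  rw [scl_Z1 h', scl_hi (by linarith), scl_z11]

theorem scl_Z4 {v : ℝ} (h : 7 / 8 ≤ v) : scl_Z v = 1 := by
  rw [scl_Z2 (by linarith), scl_hi (by linarith), scl_z21]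

theorem scl_Z0 : scl_Z 0 = 1 := by
  rw [scl_Z1 (by norm_num), scl_lo (by norm_num), scl_z10]

theorem scl_on (v : ℝ) : OnC (scl_Z v) := by
  rcases le_total v (1 / 2) with h | h
  · rw [scl_Z1 h]
    exact ze₁_on _
  · rw [scl_Z2 (by linarith)]
    exact ze₂_on _

theorem scl_Zpos {v : ℝ} (h : v ≤ 3 / 16 ∨ 11 / 16 ≤ v) (h0 : 0 ≤ v) : 0 ≤ (scl_Z v).im := by
  have hpi := Real.pi_pos
  rcases h with h | h
  · rw [scl_Z1 (by linarith), scl_z1i, scl_in (by linarith) (by linarith)]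
    have := Real.sin_nonneg_of_nonneg_of_le_pi (x := 2 * Real.pi * (8 / 3 * v)) (by positivity) (by nlinarith)
    linarith
  · rcases le_total v (7 / 8) with h1 | h1
    · rw [scl_Z2 (by linarith), scl_z2i, scl_in (by linarith) (by linarith)]
      have h2 := Real.sin_nonneg_of_nonneg_of_le_pi (x := 2 * Real.pi * (8 / 3 * (v - 1 / 2)) - Real.pi) (by nlinarith) (by nlinarith)
      rw [Real.sin_sub_pi] at h2
      linarith
    · rw [scl_Z4 h1]
      simp

theorem scl_Zneg {v : ℝ} (h : 3 / 16 ≤ v) (h' : v ≤ 11 / 16) : (scl_Z v).im ≤ 0 := by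
  have hpi := Real.pi_pos
  rcases le_total v (3 / 8) with h1 | h1
  · rw [scl_Z1 (by linarith), scl_z1i, scl_in (by linarith) (by linarith)]
    have h2 := Real.sin_nonneg_of_nonneg_of_le_pi (x := 2 * Real.pi * (8 / 3 * v) - Real.pi) (by nlinarith) (by nlinarith)
    rw [Real.sin_sub_pi] at h2
    linarith
  · rcases le_total v (1 / 2) with h2 | h2
    · rw [scl_Z3 h1 h2]
      simp
    · rw [scl_Z2 h1, scl_z2i, scl_in (by linarith) (by linarith)]
      have := Real.sin_nonneg_of_nonneg_of_le_pi (x := 2 * Real.pi * (8 / 3 * (v - 1 / 2))) (by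
        have : 0 ≤ v - 1 / 2 := by linarith
        positivity) (by nlinarith)
      linarith

/-- the point of the circle -/
noncomputable def scl_z (v : ℝ) : ℂ := 5 / 2 * ex (v + 5 / 16)

theorem scl_zr (v : ℝ) : (scl_z v).re = 5 / 2 * Real.cos (2 * Real.pi * (v + 5 / 16)) := by
  have h : scl_z v = ((5 / 2 : ℝ) : ℂ) * ex (v + 5 / 16) := by
    unfold scl_z
    norm_num
  rw [h, Complex.re_ofReal_mul, RSG.ex_re]

theorem scl_zi (v : ℝ) : (scl_z v).im = 5 / 2 * Real.sin (2 * Real.pi * (v + 5 / 16)) := by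
  have h : scl_z v = ((5 / 2 : ℝ) : ℂ) * ex (v + 5 / 16) := by
    unfold scl_z
    norm_num
  rw [h, Complex.im_ofReal_mul, RSG.ex_im]

theorem scl_zn (v : ℝ) : ‖scl_z v‖ = 5 / 2 := by
  unfold scl_z
  rw [norm_mul, RSG.ex_norm, mul_one]
  norm_num

theorem scl_zc : Continuous scl_z :=
  continuous_const.mul (RSG.ex_smooth.continuous.comp (continuous_id.add continuous_const))

theorem scl_sin {θ : ℝ} (h : Real.pi / 8 ≤ θ) (h' : θ ≤ 7 * Real.pi / 8) : 1 / 4 ≤ Real.sin θ := by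
  have hpi := Real.pi_pos
  have key : ∀ θ : ℝ, Real.pi / 8 ≤ θ → θ ≤ Real.pi / 2 → 1 / 4 ≤ Real.sin θ := by
    intro θ h1 h2
    have h3 := Real.mul_le_sin (x := θ) (by linarith) h2
    have h4 : 2 / Real.pi * (Real.pi / 8) ≤ 2 / Real.pi * θ := by gcongr
    have h5 : 2 / Real.pi * (Real.pi / 8) = 1 / 4 := by
      field_simp
      norm_num
    linarith
  rcases le_total θ (Real.pi / 2) with h1 | h1
  · exact key θ h h1
  · rw [← Real.sin_pi_sub]
    exact key _ (by linarith) (by linarith)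

theorem scl_xl {v : ℝ} (h0 : 0 ≤ v) (h : v ≤ 3 / 8) : (scl_z v).re < -1 / 4 := by
  have hpi := Real.pi_pos
  rw [scl_zr]
  have h1 := scl_sin (θ := 2 * Real.pi * (v + 5 / 16) - Real.pi / 2) (by nlinarith) (by nlinarith)
  rw [Real.sin_sub_pi_div_two] at h1
  linarith

theorem scl_xr {v : ℝ} (h0 : 1 / 2 ≤ v) (h : v ≤ 7 / 8) : 1 / 4 < (scl_z v).re := by
  have hpi := Real.pi_pos
  rw [scl_zr]
  have h1 := scl_sin (θ := 2 * Real.pi * (v + 5 / 16) + Real.pi / 2 - 2 * Real.pi) (by nlinarith) (by nlinarith)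
  rw [Real.sin_sub_two_pi, Real.sin_add_pi_div_two] at h1
  linarith

theorem scl_per (v : ℝ) : scl_z (v + 1) = scl_z v := by
  unfold scl_z
  have h := RSG.ex_add_int (v + 5 / 16) 1
  rw [Int.cast_one] at h
  rw [show v + 1 + 5 / 16 = v + 5 / 16 + 1 by ring, h]

theorem scl_y1 {v : ℝ} (h0 : 0 ≤ v) (h : v < 3 / 16) : 0 < (scl_z v).im := by
  have hpi := Real.pi_pos
  rw [scl_zi]
  have := Real.sin_pos_of_pos_of_lt_pi (x := 2 * Real.pi * (v + 5 / 16)) (by positivity) (by nlinarith)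
  linarith

theorem scl_y2 {v : ℝ} (h0 : 3 / 16 < v) (h : v < 11 / 16) : (scl_z v).im < 0 := by
  have hpi := Real.pi_pos
  rw [scl_zi]
  have h1 := Real.sin_pos_of_pos_of_lt_pi (x := 2 * Real.pi * (v + 5 / 16) - Real.pi) (by nlinarith) (by nlinarith)
  rw [Real.sin_sub_pi] at h1
  linarith

theorem scl_y3 {v : ℝ} (h0 : 11 / 16 < v) (h : v ≤ 1) : 0 < (scl_z v).im := by
  have hpi := Real.pi_pos
  rw [scl_zi]
  have h1 := Real.sin_pos_of_pos_of_lt_pi (x := 2 * Real.pi * (v + 5 / 16) - 2 * Real.pi) (by nlinarith) (by nlinarith)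
  rw [Real.sin_sub_two_pi] at h1
  linarith

/-- in the windows `Z = 1` -/
theorem scl_win {v : ℝ} (h0 : 0 ≤ v) (hx : |(scl_z v).re| ≤ 1 / 4) : scl_Z v = 1 := by
  have hx' := abs_le.1 hx
  rcases le_total v (3 / 8) with h | h
  · have := scl_xl h0 h
    exfalso
    linarith [hx'.1]
  · rcases le_total v (1 / 2) with h1 | h1
    · exact scl_Z3 h h1
    · rcases le_total v (7 / 8) with h2 | h2
      · have := scl_xr h1 h2
        exfalso
        linarith [hx'.2]
      · exact scl_Z4 h2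

/-- allowed points -/
def SclA (w : ℂ) : Prop := 0 < w.re ∧ w ≠ 1 / 32 ∧ w ≠ 32

theorem scl_of_sf {w : ℂ} (h : Sf w) : SclA w := ⟨h.1, (Sf_ne h).1, (Sf_ne h).2⟩

theorem scl_of_on {w : ℂ} (h : OnC w) : SclA w := scl_of_sf (Sf_near h (by simp))

theorem scl_p {p : ℝ → ℂ} (hp : Wd p) {x : ℝ} (hx : 1 / 4 ≤ |x|) : p (2 * fi x) = 0 := by
  have h := p_zero hp (x := x) (s := 0) (by norm_num) hx
  rwa [zero_div, add_zero] at h

theorem scl_al {p : ℝ → ℂ} (hp : Wd p) {h v : ℝ} (h0 : 0 ≤ h) (h1 : h ≤ 1) (v0 : 0 ≤ v) (v1 : v ≤ 1) :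
    SclA (((1 - h : ℝ) : ℂ) * Wm (scl_z v) + (h : ℂ) * scl_Z v + p (2 * fi (scl_z v).re)) := by
  have hn : ‖scl_z v‖ < 4 := by rw [scl_zn]; norm_num
  by_cases hx : |(scl_z v).re| ≤ 1 / 4
  · have hZ := scl_win v0 hx
    refine scl_of_sf (Sf_near (hp.on (2 * fi (scl_z v).re)) ?_)
    have e : ((1 - h : ℝ) : ℂ) * Wm (scl_z v) + (h : ℂ) * scl_Z v + p (2 * fi (scl_z v).re) -
        (1 + p (2 * fi (scl_z v).re)) = ((1 - h : ℝ) : ℂ) * (Wm (scl_z v) - 1) := by
      rw [hZ]
      push_cast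
      ring
    rw [e, norm_mul, Complex.norm_real, Real.norm_of_nonneg (by linarith)]
    have h2 := Wm_mid hn hx
    nlinarith [norm_nonneg (Wm (scl_z v) - 1)]
  · have hx' : 1 / 4 < |(scl_z v).re| := not_le.1 hx
    rw [scl_p hp hx'.le, add_zero]
    have hZr : 0 < (scl_Z v).re := (scl_of_on (scl_on v)).1
    have hWr := Wm_re hn
    rcases eq_or_lt_of_le h1 with h2 | h2
    · rw [h2]
      have e : (((1 - 1 : ℝ)) : ℂ) * Wm (scl_z v) + ((1 : ℝ) : ℂ) * scl_Z v = scl_Z v := by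
        push_cast
        ring
      rw [e]
      exact scl_of_on (scl_on v)
    have hre : 0 < (((1 - h : ℝ) : ℂ) * Wm (scl_z v) + (h : ℂ) * scl_Z v).re := by
      rw [Complex.add_re, Complex.re_ofReal_mul, Complex.re_ofReal_mul]
      have : 0 < (1 - h) * (Wm (scl_z v)).re := mul_pos (by linarith) hWr
      have : 0 ≤ h * (scl_Z v).re := mul_nonneg h0 hZr.le
      linarith
    have him : (((1 - h : ℝ) : ℂ) * Wm (scl_z v) + (h : ℂ) * scl_Z v).im =
        (1 - h) * (Wm (scl_z v)).im + h * (scl_Z v).im := by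
      rw [Complex.add_im, Complex.im_ofReal_mul, Complex.im_ofReal_mul]
    have hreal : ∀ w : ℂ, w.im ≠ 0 → 0 < w.re → SclA w := by
      intro w hw hw0
      refine ⟨hw0, ?_, ?_⟩
      · rintro rfl
        apply hw
        norm_num
      · rintro rfl
        apply hw
        norm_num
    obtain ⟨i1, i2, i3⟩ := Wm_im hn
    rcases lt_trichotomy v (3 / 16) with a | a | a
    · refine hreal _ ?_ hre
      rw [him]
      have b1 := i1 (scl_y1 v0 a)
      have b2 := scl_Zpos (Or.inl a.le) v0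
      have : 0 < (1 - h) * (Wm (scl_z v)).im := mul_pos (by linarith) b1
      have : 0 ≤ h * (scl_Z v).im := mul_nonneg h0 b2
      linarith
    · have hz : scl_z v = ((-5 / 2 : ℝ) : ℂ) := by
        unfold scl_z
        rw [a, show (3 : ℝ) / 16 + 5 / 16 = 1 / 2 by norm_num, RSG.ex_half]
        push_cast
        ring
      have hZ : scl_Z v = 1 / 64 := by
        rw [scl_Z1 (by linarith), a, scl_in (by norm_num) (by norm_num), show (8 : ℝ) / 3 * (3 / 16) = 1 / 2 by norm_num,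
          scl_z1h]
      have hlt := (Wm_real (x := -5 / 2)).1 (by norm_num) (by norm_num)
      refine ⟨hre, ?_, ?_⟩
      all_goals
        intro e
        have e' := congrArg Complex.re e
        rw [Complex.add_re, Complex.re_ofReal_mul, Complex.re_ofReal_mul, hz, hZ] at e'
        have e1 : (1 / 64 : ℂ).re = 1 / 64 := by norm_num
        rw [e1] at e'
      · have e2 : (1 / 32 : ℂ).re = 1 / 32 := by norm_num
        rw [e2] at e'
        nlinarith
      · have e2 : (32 : ℂ).re = 32 := by norm_num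
        rw [e2] at e'
        nlinarith
    · rcases lt_trichotomy v (11 / 16) with c | c | c
      · refine hreal _ ?_ hre
        rw [him]
        have b1 := i2 (scl_y2 a c)
        have b2 := scl_Zneg a.le c.le
        have : (1 - h) * (Wm (scl_z v)).im < 0 := mul_neg_of_pos_of_neg (by linarith) b1
        have : h * (scl_Z v).im ≤ 0 := mul_nonpos_of_nonneg_of_nonpos h0 b2
        linarith
      · have hz : scl_z v = ((5 / 2 : ℝ) : ℂ) := by
          unfold scl_z
          rw [c, show (11 : ℝ) / 16 + 5 / 16 = 1 by norm_num, scl_ex1]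
          push_cast
          ring
        have hZ : scl_Z v = 64 := by
          rw [scl_Z2 (by linarith), c, scl_in (by norm_num) (by norm_num),
            show (8 : ℝ) / 3 * (11 / 16 - 1 / 2) = 1 / 2 by norm_num, scl_z2h]
        have hlt := (Wm_real (x := 5 / 2)).2 (by norm_num) (by norm_num)
        refine ⟨hre, ?_, ?_⟩
        all_goals
          intro e
          have e' := congrArg Complex.re e
          rw [Complex.add_re, Complex.re_ofReal_mul, Complex.re_ofReal_mul, hz, hZ] at e'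
          have e1 : (64 : ℂ).re = 64 := by norm_num
          rw [e1] at e'
        · have e2 : (1 / 32 : ℂ).re = 1 / 32 := by norm_num
          rw [e2] at e'
          nlinarith
        · have e2 : (32 : ℂ).re = 32 := by norm_num
          rw [e2] at e'
          nlinarith
      · refine hreal _ ?_ hre
        rw [him]
        have b1 := i1 (scl_y3 c v1)
        have b2 := scl_Zpos (Or.inr c.le) v0
        have : 0 < (1 - h) * (Wm (scl_z v)).im := mul_pos (by linarith) b1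
        have : 0 ≤ h * (scl_Z v).im := mul_nonneg h0 b2
        linarith

theorem scl_Wc : Continuous fun v => Wm (scl_z v) := by
  rw [continuous_iff_continuousAt]
  intro v
  have hn : ‖scl_z v‖ < 4 := by rw [scl_zn]; norm_num
  exact (CSG.ld_continuousAt (Wm_loc hn)).comp scl_zc.continuousAt

theorem scl_fc : Continuous fun v => fi (scl_z v).re :=
  fi_smooth.continuous.comp (Complex.continuous_re.comp scl_zc)

theorem circ_class {p : ℝ → ℂ} (hp : Wd p) {N : Type} [TopologicalSpace N] {Jt : ℝ × ℂ → N} {q : N}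
    (hJ : ∀ (θ : ℝ) (w : ℂ), 0 < w.re → w ≠ 1 / 32 → w ≠ 32 → ContinuousAt Jt (θ, w)) (hq : Jt (0, 1) = q)
    {g₁ g₂ g : FundamentalGroup N q} (h₁ : BCls q (fun τ => Jt (0, ze₁ τ)) g₁)
    (h₂ : BCls q (fun τ => Jt (0, ze₂ τ)) g₂) (h : BCls q (fun τ => Jt (0, 1 + p τ)) g) :
    ACB.Cls q (fun u => Jt (fi (5 / 2 * ex u).re, Wm (5 / 2 * ex u) + p (2 * fi (5 / 2 * ex u).re)))
      (g₁ * g⁻¹ * g₂ * g) := by
  have hJ' : ∀ (θ : ℝ) (w : ℂ), SclA w → ContinuousAt Jt (θ, w) := fun θ w hw => hJ θ w hw.1 hw.2.1 hw.2.2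
  have hpc : Continuous p := hp.smooth.continuous
  -- the curve is continuous
  have hz5 : ∀ u : ℝ, (5 / 2 * ex u : ℂ) = scl_z (u - 5 / 16) := by
    intro u
    unfold scl_z
    rw [sub_add_cancel]
  have hcp : ∀ u : ℝ, (fun u => Jt (fi (5 / 2 * ex u).re, Wm (5 / 2 * ex u) + p (2 * fi (5 / 2 * ex u).re))) (u + 1) =
      (fun u => Jt (fi (5 / 2 * ex u).re, Wm (5 / 2 * ex u) + p (2 * fi (5 / 2 * ex u).re))) u := by
    intro u
    have e := RSG.ex_add_int u 1
    rw [Int.cast_one] at e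
    simp only [e]
  have hal : ∀ u : ℝ, SclA (Wm (5 / 2 * ex u) + p (2 * fi (5 / 2 * ex u).re)) := by
    intro u
    have hn : ‖(5 / 2 * ex u : ℂ)‖ = 5 / 2 := by
      rw [hz5, scl_zn]
    have hn4 : ‖(5 / 2 * ex u : ℂ)‖ < 4 := by rw [hn]; norm_num
    by_cases hx : |(5 / 2 * ex u : ℂ).re| ≤ 1 / 4
    · exact scl_of_sf (pos_mid hp hn4 hx _)
    · rw [scl_p hp (not_le.1 hx).le, add_zero]
      refine ⟨Wm_re hn4, ?_, ?_⟩
      · intro e
        have e1 := Wm_left (v := 0) (by simp)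
        have e2 : Ci (0 / 2) / 32 = 1 / 32 := by
          have : Ci (0 / 2) = 1 := by
            unfold Ci
            apply Complex.ext <;> simp
          rw [this]
        rw [e2, ← e] at e1
        have e3 := Wm_inj (by simp) hn4 e1
        have e4 := congrArg norm e3
        rw [hn] at e4
        norm_num at e4
      · intro e
        have e1 := Wm_right (v := 0) (by simp)
        have e2 : 32 * Ci (0 / 2) = 32 := by
          have : Ci (0 / 2) = 1 := by
            unfold Ci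
            apply Complex.ext <;> simp
          rw [this]
          norm_num
        rw [e2, ← e] at e1
        have e3 := Wm_inj (by simp) hn4 e1
        have e4 := congrArg norm e3
        rw [hn] at e4
        norm_num at e4
  have hcc : Continuous fun u => Jt (fi (5 / 2 * ex u).re, Wm (5 / 2 * ex u) + p (2 * fi (5 / 2 * ex u).re)) := by
    rw [continuous_iff_continuousAt]
    intro u
    have c1 : Continuous fun u : ℝ => (5 / 2 * ex u : ℂ) := continuous_const.mul RSG.ex_smooth.continuous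
    have c2 : Continuous fun u : ℝ => fi (5 / 2 * ex u : ℂ).re := fi_smooth.continuous.comp (Complex.continuous_re.comp c1)
    have c3 : Continuous fun u : ℝ => Wm (5 / 2 * ex u) := by
      have h3 : (fun u : ℝ => Wm (5 / 2 * ex u)) = fun u => (fun v => Wm (scl_z v)) (u - 5 / 16) := by
        funext u
        rw [hz5]
      rw [h3]
      exact scl_Wc.comp (continuous_id.sub continuous_const)
    have c4 : Continuous fun u : ℝ => ((fi (5 / 2 * ex u).re, Wm (5 / 2 * ex u) + p (2 * fi (5 / 2 * ex u).re)) : ℝ × ℂ) :=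
      c2.prodMk (c3.add (hpc.comp (continuous_const.mul c2)))
    exact ContinuousAt.comp (f := fun u : ℝ => ((fi (5 / 2 * ex u).re, Wm (5 / 2 * ex u) + p (2 * fi (5 / 2 * ex u).re)) : ℝ × ℂ))
      (hJ' _ _ (hal u)) c4.continuousAt
  -- the conjugate class
  suffices hs : ACB.Cls q (fun u => Jt (fi (5 / 2 * ex u).re, Wm (5 / 2 * ex u) + p (2 * fi (5 / 2 * ex u).re)))
      ((g⁻¹ * g₂) * (g * g₁)) by
    have h3 := cls_conjN hs g₁
    have e : g₁ * ((g⁻¹ * g₂) * (g * g₁)) * g₁⁻¹ = g₁ * g⁻¹ * g₂ * g := by group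
    rwa [e] at h3
  refine cls_shift hcc hcp (5 / 16) ?_
  -- the homotopy
  have hI : Continuous fun a : ℝ × ℝ => (((1 - a.1) * fi (scl_z a.2).re, ((1 - a.1 : ℝ) : ℂ) * Wm (scl_z a.2) +
      (a.1 : ℂ) * scl_Z a.2 + p (2 * fi (scl_z a.2).re)) : ℝ × ℂ) := by
    have c1 : Continuous fun a : ℝ × ℝ => fi (scl_z a.2).re := scl_fc.comp continuous_snd
    have c2 : Continuous fun a : ℝ × ℝ => Wm (scl_z a.2) := scl_Wc.comp continuous_snd
    have c3 : Continuous fun a : ℝ × ℝ => scl_Z a.2 := scl_Zc.comp continuous_snd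
    have c4 : Continuous fun a : ℝ × ℝ => (1 - a.1 : ℝ) := continuous_const.sub continuous_fst
    refine (c4.mul c1).prodMk (((((Complex.continuous_ofReal.comp c4)).mul c2).add
      ((Complex.continuous_ofReal.comp continuous_fst).mul c3)).add (hpc.comp (continuous_const.mul c1)))
  refine cls_free (H := fun a : ℝ × ℝ => Jt ((1 - a.1) * fi (scl_z a.2).re, ((1 - a.1 : ℝ) : ℂ) * Wm (scl_z a.2) +
      (a.1 : ℂ) * scl_Z a.2 + p (2 * fi (scl_z a.2).re))) ?_ ?_ ?_ ?_ ?_
  · rintro ⟨s, v⟩ ⟨hs, hv⟩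
    exact (ContinuousAt.comp (f := fun a : ℝ × ℝ => (((1 - a.1) * fi (scl_z a.2).re, ((1 - a.1 : ℝ) : ℂ) * Wm (scl_z a.2) +
      (a.1 : ℂ) * scl_Z a.2 + p (2 * fi (scl_z a.2).re)) : ℝ × ℂ))
      (hJ' _ _ (scl_al hp hs.1 hs.2 hv.1 hv.2)) hI.continuousAt).continuousWithinAt
  · intro v hv
    have e : (5 / 2 * ex (v + 5 / 16) : ℂ) = scl_z v := rfl
    show Jt _ = Jt _
    rw [e]
    congr 1
    refine Prod.ext ?_ ?_
    · show (1 - 0) * _ = _
      rw [sub_zero, one_mul]
    · show (((1 - 0 : ℝ)) : ℂ) * _ + ((0 : ℝ) : ℂ) * _ + _ = _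
      rw [sub_zero, Complex.ofReal_one, one_mul, Complex.ofReal_zero, zero_mul, add_zero]
  · intro s hs
    have e : scl_z 1 = scl_z 0 := by
      have := scl_per 0
      rwa [zero_add] at this
    have e' : scl_Z 1 = scl_Z 0 := by rw [scl_Z4 (by norm_num), scl_Z0]
    show Jt _ = Jt _
    rw [e, e']
  · show Jt _ = q
    rw [← hq]
    congr 1
    have e : p (2 * fi (scl_z 0).re) = 0 := by
      refine scl_p hp ?_
      have := scl_xl (v := 0) le_rfl (by norm_num)
      rw [abs_of_neg (by linarith)]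
      linarith
    refine Prod.ext ?_ ?_
    · show (1 - 1) * _ = (0 : ℝ)
      rw [sub_self, zero_mul]
    · show (((1 - 1 : ℝ)) : ℂ) * _ + ((1 : ℝ) : ℂ) * _ + _ = (1 : ℂ)
      rw [sub_self, Complex.ofReal_zero, zero_mul, zero_add, Complex.ofReal_one, one_mul, scl_Z0, e, add_zero]
  -- the class
  have hF0 : Continuous fun τ => Jt (0, 1 + p τ) := by
    rw [continuous_iff_continuousAt]
    intro τ
    exact ContinuousAt.comp (f := fun τ : ℝ => ((0, 1 + p τ) : ℝ × ℂ)) (hJ' _ _ (scl_of_on (hp.on τ)))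
      (continuous_const.prodMk (continuous_const.add hpc)).continuousAt
  have hf : Continuous fun v => Jt (0, scl_Z (scl_c v) + p (2 * fi (scl_z (scl_c v)).re)) := by
    rw [continuous_iff_continuousAt]
    intro v
    have hv0 : 0 ≤ scl_c v := le_max_left _ _
    have hv1 : scl_c v ≤ 1 := max_le zero_le_one (min_le_left _ _)
    have ha := scl_al hp (h := 1) zero_le_one le_rfl hv0 hv1
    rw [sub_self, Complex.ofReal_zero, zero_mul, zero_add, Complex.ofReal_one, one_mul] at ha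
    exact ContinuousAt.comp (f := fun v : ℝ => ((0, scl_Z (scl_c v) + p (2 * fi (scl_z (scl_c v)).re)) : ℝ × ℂ)) (hJ' _ _ ha)
      (continuous_const.prodMk ((scl_Zc.comp scl_cc).add (hpc.comp (continuous_const.mul (scl_fc.comp scl_cc))))).continuousAt
  have hkey : BCls q (fun v => Jt (0, scl_Z (scl_c v) + p (2 * fi (scl_z (scl_c v)).re))) ((g⁻¹ * g₂) * (g * g₁)) := by
    -- part 1
    have p1 : BCls q (fun t => (fun v => Jt (0, scl_Z (scl_c v) + p (2 * fi (scl_z (scl_c v)).re))) (0 + t * (3 / 8 - 0))) g₁ := by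
      refine bcls_congr h₁ ?_
      intro t ht
      have e0 : scl_c (0 + t * (3 / 8 - 0)) = 3 / 8 * t := by
        rw [scl_in (by linarith [ht.1]) (by linarith [ht.2])]
        ring
      have e1 : scl_Z (3 / 8 * t) = ze₁ t := by
        rw [scl_Z1 (by linarith [ht.2]), show 8 / 3 * (3 / 8 * t) = t by ring, scl_in ht.1 ht.2]
      have e2 : p (2 * fi (scl_z (3 / 8 * t)).re) = 0 := by
        refine scl_p hp ?_
        have := scl_xl (v := 3 / 8 * t) (by linarith [ht.1]) (by linarith [ht.2])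
        rw [abs_of_neg (by linarith)]
        linarith
      show Jt _ = Jt _
      rw [e0, e1, e2, add_zero]
    -- part 2
    have hσ : Continuous fun t : ℝ => 2 * fi (scl_z (3 / 8 + t * (1 / 2 - 3 / 8))).re :=
      continuous_const.mul (scl_fc.comp (continuous_const.add (continuous_id.mul continuous_const)))
    have p2 : BCls q (fun t => (fun v => Jt (0, scl_Z (scl_c v) + p (2 * fi (scl_z (scl_c v)).re)))
        (3 / 8 + t * (1 / 2 - 3 / 8))) g := by
      have h3 := bcls_reparam (f := fun τ => Jt (0, 1 + p τ)) hF0 (ρ := fun t => t) (ρ' := fun t : ℝ => 2 * fi (scl_z (3 / 8 + t * (1 / 2 - 3 / 8))).re)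
        continuous_id hσ ?_ ?_ h
      · refine bcls_congr h3 ?_
        intro t ht
        have e0 : scl_c (3 / 8 + t * (1 / 2 - 3 / 8)) = 3 / 8 + t * (1 / 2 - 3 / 8) :=
          scl_in (by linarith [ht.1]) (by linarith [ht.2])
        have e1 : scl_Z (3 / 8 + t * (1 / 2 - 3 / 8)) = 1 := scl_Z3 (by linarith [ht.1]) (by linarith [ht.2])
        show Jt _ = Jt _
        rw [e0, e1]
      · show (0 : ℝ) = _
        rw [fi_left ?_, mul_zero]
        have := scl_xl (v := 3 / 8 + 0 * (1 / 2 - 3 / 8)) (by norm_num) (by norm_num)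
        linarith
      · show (1 : ℝ) = _
        rw [fi_right ?_]
        · norm_num
        · have := scl_xr (v := 3 / 8 + 1 * (1 / 2 - 3 / 8)) (by norm_num) (by norm_num)
          linarith
    -- part 3
    have p3 : BCls q (fun t => (fun v => Jt (0, scl_Z (scl_c v) + p (2 * fi (scl_z (scl_c v)).re))) (1 / 2 + t * (7 / 8 - 1 / 2))) g₂ := by
      refine bcls_congr h₂ ?_
      intro t ht
      have e0 : scl_c (1 / 2 + t * (7 / 8 - 1 / 2)) = 1 / 2 + 3 / 8 * t := by
        rw [scl_in (by linarith [ht.1]) (by linarith [ht.2])]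
        ring
      have e1 : scl_Z (1 / 2 + 3 / 8 * t) = ze₂ t := by
        rw [scl_Z2 (by linarith [ht.1]), show 8 / 3 * (1 / 2 + 3 / 8 * t - 1 / 2) = t by ring, scl_in ht.1 ht.2]
      have e2 : p (2 * fi (scl_z (1 / 2 + 3 / 8 * t)).re) = 0 := by
        refine scl_p hp ?_
        have := scl_xr (v := 1 / 2 + 3 / 8 * t) (by linarith [ht.1]) (by linarith [ht.2])
        rw [abs_of_pos (by linarith)]
        linarith
      show Jt _ = Jt _
      rw [e0, e1, e2, add_zero]
    -- part 4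
    have hσ' : Continuous fun t : ℝ => 2 * fi (scl_z (7 / 8 + t * (1 - 7 / 8))).re :=
      continuous_const.mul (scl_fc.comp (continuous_const.add (continuous_id.mul continuous_const)))
    have p4 : BCls q (fun t => (fun v => Jt (0, scl_Z (scl_c v) + p (2 * fi (scl_z (scl_c v)).re)))
        (7 / 8 + t * (1 - 7 / 8))) g⁻¹ := by
      have h3 := bcls_reparam (f := fun τ => Jt (0, 1 + p τ)) hF0 (ρ := fun t => 1 - t)
        (ρ' := fun t : ℝ => 2 * fi (scl_z (7 / 8 + t * (1 - 7 / 8))).re)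
        (continuous_const.sub continuous_id) hσ' ?_ ?_ (bcls_rev h)
      · refine bcls_congr h3 ?_
        intro t ht
        have e0 : scl_c (7 / 8 + t * (1 - 7 / 8)) = 7 / 8 + t * (1 - 7 / 8) :=
          scl_in (by linarith [ht.1]) (by linarith [ht.2])
        have e1 : scl_Z (7 / 8 + t * (1 - 7 / 8)) = 1 := scl_Z4 (by linarith [ht.1])
        show Jt _ = Jt _
        rw [e0, e1]
      · show (1 : ℝ) - 0 = _
        rw [fi_right ?_]
        · norm_num
        · have := scl_xr (v := 7 / 8 + 0 * (1 - 7 / 8)) (by norm_num) (by norm_num)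
          linarith
      · show (1 : ℝ) - 1 = _
        rw [fi_left ?_]
        · norm_num
        · have e5 : (7 / 8 + 1 * (1 - 7 / 8) : ℝ) = 0 + 1 := by norm_num
          rw [e5, scl_per]
          have := scl_xl (v := 0) le_rfl (by norm_num)
          linarith
    have q1 := bcls_split hf 0 (3 / 8) (1 / 2) p1 p2
    have q2 := bcls_split hf (1 / 2) (7 / 8) 1 p3 p4
    have q3 := bcls_split hf 0 (1 / 2) 1 q1 q2
    refine bcls_congr q3 ?_
    intro t _
    show _ = (fun v => Jt (0, scl_Z (scl_c v) + p (2 * fi (scl_z (scl_c v)).re))) (0 + t * (1 - 0))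
    rw [show 0 + t * (1 - 0) = t by ring]
  refine bcls_congr hkey ?_
  intro t ht
  show Jt _ = Jt _
  rw [scl_in ht.1 ht.2, sub_self, zero_mul, Complex.ofReal_zero, zero_mul, zero_add, Complex.ofReal_one, one_mul]

end Pool.Agent.MMV
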