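import Pool.Agent.MMV.Defs
import Pool.Agent.CSG.FunBasic

/-!
# MMV/SDf: the strip of a word, definitions (helper40)

* `kc`: clip, `kc y = y` for `|y| ≤ 1/2`, `kc' > 0` and `|kc| < 7/10` for `|y| < 5`.
* `Wm z = kF x (√(1 - q²) + i q)`, `q = km x · kc y`, `z = x + i y`: embedding of the disc `|z| < 4` into the half plane `Re > 0`, standard near the
  discs `|z + 1| ≤ 1/2` and `|z - 1| ≤ 1/2` (which are mapped to the discs of the two standard tori), and `|Wm z - 1| ≤ 1/1000` for `|x| ≤ 1/4`.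
* `Ci`: diffeomorphism of the unit disc onto the half plane `Re > 0`, `Cy` its inverse.
* `Rc θ w`: the point of `S³` in the half plane with the angle `θ`, at the position `w` (stereographic coordinates).
* `fi`: the angle function, `0` for `x ≤ -1/4`, `1/2` for `x ≥ 1/4`.
* `bX p (z, s, t) = (Rc θ (Wm z + p (2 θ)), t)`, `θ = fi x + s/16`: the box of the path `p`.
* `ze₁`, `ze₂`: the loops around the two tori in the half plane, `OnC`: the union of the two circles.  `Wd p`: admissible paths.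
-/

open scoped ContDiff Manifold Topology unitInterval
open Set Filter
open Pool.Agent.CSG (stp)
open Pool.Agent.RSG (E3 E4 S2 S3 S4 ex cj c1 c2 ht fh pS3 pS4)
open Pool.Agent.PTH (SP ISP)
open Pool.Agent.KNH (circ)

namespace Pool.Agent.MMV

/-- clip -/
noncomputable def kc (y : ℝ) : ℝ :=
  y - 49 / 50 * y * (stp (1 / 2) (3 / 5) y + stp (1 / 2) (3 / 5) (-y)) +
    3 / 5 * (stp (1 / 2) (3 / 5) y - stp (1 / 2) (3 / 5) (-y))

noncomputable def kU (a : ℝ) : ℝ := Real.sqrt ((1 + kc a) / (1 - kc a))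
noncomputable def kM (a : ℝ) : ℝ := 1 / Real.sqrt (1 - kc a ^ 2)
noncomputable def ta (x : ℝ) : ℝ := stp (-1 / 2) (-1 / 4) x
noncomputable def tb (x : ℝ) : ℝ := stp (1 / 4) (1 / 2) x
noncomputable def kF (x : ℝ) : ℝ :=
  (1 - ta x) * (kU (x + 1) / 32) + (ta x - tb x) * (1 + x / 2000) + tb x * (32 * kU (x - 1))
noncomputable def km (x : ℝ) : ℝ :=
  (1 - ta x) * kM (x + 1) + (ta x - tb x) / 2000 + tb x * kM (x - 1)

/-- the point of the half plane with modulus `f`, the sine of the argument is `q` -/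
noncomputable def pq (f q : ℝ) : ℂ := ⟨f * Real.sqrt (1 - q ^ 2), f * q⟩

noncomputable def Wm (z : ℂ) : ℂ := pq (kF z.re) (km z.re * kc z.im)

/-- from the unit disc to the half plane -/
noncomputable def Ci (v : ℂ) : ℂ := ⟨Real.sqrt (1 - ‖v‖ ^ 2) / (1 - v.re), v.im / (1 - v.re)⟩

/-- from the half plane to the unit disc -/
noncomputable def Cy (w : ℂ) : ℂ := ⟨(‖w‖ ^ 2 - 1) / (1 + ‖w‖ ^ 2), 2 * w.im / (1 + ‖w‖ ^ 2)⟩

/-- the point at the angle `θ`, position `w` in the half plane -/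
noncomputable def Rc (θ : ℝ) (w : ℂ) : S3 := pS3 ((2 * w.re : ℝ) * ex θ) ⟨‖w‖ ^ 2 - 1, 2 * w.im⟩

/-- the angle function -/
noncomputable def fi (x : ℝ) : ℝ := 1 / 2 * stp (-1 / 4) (1 / 4) x

/-- the box of the path `p` -/
noncomputable def bX (p : ℝ → ℂ) (q : ℂ × ℝ × ℝ) : SP :=
  (Rc (fi q.1.re + q.2.1 / 16) (Wm q.1 + p (2 * (fi q.1.re + q.2.1 / 16))), circ q.2.2)

noncomputable def ze₁ (τ : ℝ) : ℂ := (65 / 128 : ℝ) + (63 / 128 : ℝ) * ex τ
noncomputable def ze₂ (τ : ℝ) : ℂ := (65 / 2 : ℝ) - (63 / 2 : ℝ) * ex τ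

/-- the two circles -/
def OnC (w : ℂ) : Prop := ‖w - 65 / 128‖ = 63 / 128 ∨ ‖w - 65 / 2‖ = 63 / 2

/-- admissible paths -/
structure Wd (p : ℝ → ℂ) : Prop where
  smooth : ContDiff ℝ ∞ p
  zero : ∀ τ, τ ≤ 1 / 4 ∨ 3 / 4 ≤ τ → p τ = 0
  on : ∀ τ, OnC (1 + p τ)

end Pool.Agent.MMV
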