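import Pool.Agent.MMV.SWm
import Pool.Agent.MMV.SRt
import Pool.Agent.MMV.SSf

/-!
# MMV/SSt: the strip of an admissible path   (difficulty 3)

`fi`: `0` for `x ≤ -1/4`, `1/2` for `x ≥ 1/4`, in `[0, 1/2]`, smooth (`CSG.stp_smooth`, `stp_zero`, `stp_one`, `stp_nonneg`, `stp_le_one`).  Put `θ = fi x + s/16`, `|s| < 1`.
(a) If `p (2 θ) ≠ 0` then `1/8 < θ < 3/8`, so `|x| < 1/4` (otherwise `θ < 1/16` or `θ > 7/16`).  So for `|x| ≥ 1/4` the position is `Wm z`.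
(b) For `|x| ≤ 1/4` the position `w = Wm z + p (2 θ)` satisfies `‖w - (1 + p (2 θ))‖ ≤ 1/1000` (`Wm_mid`), so `Sf w` (`Sf_near`, `Wd.on`).
(c) `pos`: the position is in the half plane: (b), or `Wm_re`.
* `bX_loc`: `(z, s, t) ↦ (θ, Wm z, t) ↦ (θ, Wm z + p (2θ), t) ↦ (Rc .., circ t)`: the first map is the composition of the shear `(z, s, t) ↦ (fi x + s/16, z, t)` (explicit inverse `s = 16 (θ - fi x)`: `CSG.ld_of_perm`) and of `Wm` (`RSG.ld_prodMap` or `Wm_loc`), the second is `ld_of_perm`,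
  the third is `Rc_loc` times the local diffeomorphism `circ` (see `RBN/Cir`, `KNH/DicM.prd_thick` for the way to treat `circ` and the models).
* `bX_inj`: `Rc_inj`: equal positions and `θ' = θ + m`; all `θ` are in `(-1/16, 9/16)`, so `m = 0`; then `p (2θ)` is the same, `Wm z = Wm z'`, `Wm_inj`, `s = s'`; `circ t = circ t'` gives `t' = t + m` (`KNH.circ` lemmas, see `prd_thick`).
* `strand₁`: `z = -1 + v/2`, `re z < -1/2`, `θ = l`, `|l| < 1/16`, `p (2 l) = 0`, `Wm_left`, `κS₁_eq`.  `strand₂`: `θ = 1/2 + l > 7/16`, `Wm_right`, `κS₂_rc`.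
* `rest₁`: `κS₁ (l, v, t) = bX p (z, s, t')`: `κS₁_eq`, `Rc_inj`: `Ci (v/2)/32 = Wm z + p (2 θ)`, `θ = l + m`.  If `|x| ≤ 1/4`: `Sf w` contradicts `Cy (32 w) = v/2` (`Cy_Ci`).  Otherwise `Wm z = Ci (v/2)/32 = Wm (-1 + v/2)`, `z = -1 + v/2`, `fi x = 0`, `θ = s/16`, `|l + m| < 1/16`: contradiction with the hypothesis for `k = -m`.
* `rest₂`: the same with `fi x = 1/2`.
* `thick`, `disj`: `κS₁_thick`, `κS₂_thick`, `κS_disj`.
-/

open scoped ContDiff Manifold Topology unitInterval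
open Set Filter
open Pool.Agent.CSG (stp)
open Pool.Agent.RSG (E3 E4 S2 S3 S4 ex cj c1 c2 ht fh pS3 pS4)
open Pool.Agent.RBM (ThickT OnT Box)
open Pool.Agent.LKF (OnF)
open Pool.Agent.PTH (SP ISP)
open Pool.Agent.KNH (circ)
open Pool.Agent.LKT (s1 s2)

namespace Pool.Agent.MMV

theorem fi_left {x : ℝ} (h : x ≤ -1 / 4) : fi x = 0 := by
  unfold fi
  rw [CSG.stp_zero (by norm_num) h, mul_zero]

theorem fi_right {x : ℝ} (h : 1 / 4 ≤ x) : fi x = 1 / 2 := by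
  unfold fi
  rw [CSG.stp_one (by norm_num) h, mul_one]

theorem fi_mem (x : ℝ) : 0 ≤ fi x ∧ fi x ≤ 1 / 2 := by
  have h1 := CSG.stp_nonneg (-1 / 4) (1 / 4) x
  have h2 := CSG.stp_le_one (-1 / 4) (1 / 4) x
  unfold fi
  exact ⟨by linarith, by linarith⟩

theorem fi_smooth : ContDiff ℝ ∞ fi := contDiff_const.mul (CSG.stp_smooth _ _)

/-- outside the middle the path is constant -/
theorem p_zero {p : ℝ → ℂ} (hp : Wd p) {x s : ℝ} (hs : |s| < 1) (hx : 1 / 4 ≤ |x|) : p (2 * (fi x + s / 16)) = 0 := by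
  have hs' := abs_lt.1 hs
  rcases le_total 0 x with h | h
  · rw [abs_of_nonneg h] at hx
    rw [fi_right hx]
    exact hp.zero _ (Or.inr (by linarith [hs'.1]))
  · rw [abs_of_nonpos h] at hx
    rw [fi_left (by linarith)]
    exact hp.zero _ (Or.inl (by linarith [hs'.2]))

/-- in the middle the positions are safe -/
theorem pos_mid {p : ℝ → ℂ} (hp : Wd p) {z : ℂ} (hz : ‖z‖ < 4) (hx : |z.re| ≤ 1 / 4) (τ : ℝ) : Sf (Wm z + p τ) := by
  refine Sf_near (hp.on τ) ?_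
  rw [show Wm z + p τ - (1 + p τ) = Wm z - 1 by ring]
  exact Wm_mid hz hx

theorem pos_re {p : ℝ → ℂ} (hp : Wd p) {z : ℂ} (hz : ‖z‖ < 4) {s : ℝ} (hs : |s| < 1) :
    0 < (Wm z + p (2 * (fi z.re + s / 16))).re := by
  rcases le_total |z.re| (1 / 4) with h | h
  · exact (pos_mid hp hz h _).1
  · rw [p_zero hp hs h, add_zero]
    exact Wm_re hz

theorem sst_box {p : ℝ → ℂ} (hp : Wd p) : Box ISP (bX p) 4 := by
  refine ⟨?_, ?_, ?_⟩
  · intro z s t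
    unfold bX
    rw [KNH.DicM_per]
  · intro z s t hz hs
    set θ := fi z.re + s / 16 with hθ
    -- the shear
    have h1 : IsLocalDiffeomorphAt 𝓘(ℝ, ℂ × ℝ × ℝ) (𝓘(ℝ, ℝ × ℂ).prod 𝓘(ℝ, ℝ)) ∞
        (fun q : ℂ × ℝ × ℝ => ((fi q.1.re + q.2.1 / 16, q.1), q.2.2)) (z, s, t) := by
      rw [← modelWithCornersSelf_prod, chartedSpaceSelf_prod]
      have hfi : ContDiff ℝ ∞ fun q : ℂ × ℝ × ℝ => fi q.1.re :=
        fi_smooth.comp (Complex.reCLM.contDiff.comp contDiff_fst)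
      have hfi' : ContDiff ℝ ∞ fun q : (ℝ × ℂ) × ℝ => fi q.1.2.re :=
        fi_smooth.comp (Complex.reCLM.contDiff.comp contDiff_fst.snd)
      refine CSG.ld_of_perm (f := (⟨fun q : ℂ × ℝ × ℝ => ((fi q.1.re + q.2.1 / 16, q.1), q.2.2),
        fun q : (ℝ × ℂ) × ℝ => (q.1.2, 16 * (q.1.1 - fi q.1.2.re), q.2), ?_, ?_⟩ : (ℂ × ℝ × ℝ) ≃ ((ℝ × ℂ) × ℝ)))
        ?_ ?_ (z, s, t)
      · rintro ⟨z, s, t⟩
        simp only [Prod.mk.injEq, true_and, and_true]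
        ring
      · rintro ⟨⟨θ, z⟩, t⟩
        simp only [Prod.mk.injEq, and_true]
        ring
      · exact ((hfi.add (contDiff_snd.fst.div_const _)).prodMk contDiff_fst).prodMk contDiff_snd.snd
      · exact contDiff_fst.snd.prodMk ((contDiff_const.mul (contDiff_fst.fst.sub hfi')).prodMk contDiff_snd)
    have h2 : IsLocalDiffeomorphAt 𝓘(ℝ, ℝ × ℂ) 𝓘(ℝ, ℝ × ℂ) ∞ (Prod.map (id : ℝ → ℝ) Wm) (θ, z) := by
      have h0 : IsLocalDiffeomorphAt 𝓘(ℝ, ℝ) 𝓘(ℝ, ℝ) ∞ (id : ℝ → ℝ) θ := CSG.ld_id θ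
      have h := RSG.ld_prodMap h0 (Wm_loc hz)
      rw [← modelWithCornersSelf_prod, chartedSpaceSelf_prod] at h
      exact h
    have h3 : IsLocalDiffeomorphAt 𝓘(ℝ, ℝ × ℂ) 𝓘(ℝ, ℝ × ℂ) ∞
        (fun q : ℝ × ℂ => (q.1, q.2 + p (2 * q.1))) (θ, Wm z) := by
      have hpp : ContDiff ℝ ∞ fun q : ℝ × ℂ => p (2 * q.1) := hp.smooth.comp (contDiff_const.mul contDiff_fst)
      refine CSG.ld_of_perm (f := (⟨fun q : ℝ × ℂ => (q.1, q.2 + p (2 * q.1)),
        fun q : ℝ × ℂ => (q.1, q.2 - p (2 * q.1)), ?_, ?_⟩ : (ℝ × ℂ) ≃ (ℝ × ℂ))) ?_ ?_ (θ, Wm z)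
      · rintro ⟨a, b⟩
        simp
      · rintro ⟨a, b⟩
        simp
      · exact contDiff_fst.prodMk (contDiff_snd.add hpp)
      · exact contDiff_fst.prodMk (contDiff_snd.sub hpp)
    have h4 : IsLocalDiffeomorphAt 𝓘(ℝ, ℝ × ℂ) (𝓡 3) ∞ (fun q : ℝ × ℂ => Rc q.1 q.2) (θ, Wm z + p (2 * θ)) :=
      Rc_loc (pos_re hp hz hs) θ
    have h5 : IsLocalDiffeomorphAt 𝓘(ℝ, ℝ × ℂ) (𝓡 3) ∞
        ((fun q : ℝ × ℂ => Rc q.1 q.2) ∘ ((fun q : ℝ × ℂ => (q.1, q.2 + p (2 * q.1))) ∘ (Prod.map (id : ℝ → ℝ) Wm)))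
        (θ, z) := by
      have h23 : IsLocalDiffeomorphAt 𝓘(ℝ, ℝ × ℂ) 𝓘(ℝ, ℝ × ℂ) ∞
          ((fun q : ℝ × ℂ => (q.1, q.2 + p (2 * q.1))) ∘ (Prod.map (id : ℝ → ℝ) Wm)) (θ, z) :=
        IsLocalDiffeomorphAt.comp (hf := h2) (hg := h3) ..
      exact IsLocalDiffeomorphAt.comp (hf := h23) (hg := h4) ..
    have h6 : IsLocalDiffeomorphAt (𝓘(ℝ, ℝ × ℂ).prod 𝓘(ℝ, ℝ)) ISP ∞
        (Prod.map ((fun q : ℝ × ℂ => Rc q.1 q.2) ∘ ((fun q : ℝ × ℂ => (q.1, q.2 + p (2 * q.1))) ∘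
          (Prod.map (id : ℝ → ℝ) Wm))) circ) ((θ, z), t) := RSG.ld_prodMap h5 (KNH.circ_ld t)
    exact IsLocalDiffeomorphAt.comp (hf := h1) (hg := h6) ..
  · intro z s t z' s' t' hz hs hz' hs' he
    unfold bX at he
    simp only [Prod.mk.injEq] at he
    obtain ⟨e1, e2⟩ := he
    obtain ⟨e3, m, hm⟩ := Rc_inj (pos_re hp hz hs) (pos_re hp hz' hs') e1
    have a := fi_mem z.re
    have a' := fi_mem z'.re
    have b := abs_lt.1 hs
    have b' := abs_lt.1 hs'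
    have hm0 : m = 0 := by
      have c1 : (m : ℝ) < 1 := by linarith [a.1, a'.2, b.1, b'.2]
      have c2 : (-1 : ℝ) < m := by linarith [a.2, a'.1, b.2, b'.1]
      have c3 : m < 1 := by exact_mod_cast c1
      have c4 : -1 < m := by exact_mod_cast c2
      omega
    rw [hm0, Int.cast_zero, add_zero] at hm
    rw [hm] at e3
    have e4 := Wm_inj hz hz' (add_right_cancel e3)
    refine ⟨e4, ?_, KNH.circ_eq.1 e2.symm⟩
    rw [e4] at hm
    linarith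

theorem sst_norm {v : ℂ} (hv : ‖v‖ < 1) : ‖v / 2‖ < 1 / 2 := by
  rw [norm_div, Complex.norm_ofNat]
  linarith

theorem sst_Ci {v : ℂ} (hv : ‖v‖ < 1) : 0 < (Ci (v / 2)).re := Ci_re (by linarith [sst_norm hv])

theorem sst_z₁ {v : ℂ} (hv : ‖v‖ < 1) : ‖-1 + v / 2‖ < 4 ∧ (-1 + v / 2).re ≤ -1 / 4 := by
  have h1 := sst_norm hv
  have h2 : ‖-1 + v / 2‖ ≤ ‖(-1 : ℂ)‖ + ‖v / 2‖ := norm_add_le _ _
  rw [norm_neg, norm_one] at h2
  have h3 : (-1 + v / 2).re = -1 + (v / 2).re := by simp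
  have h4 := abs_le.1 (Complex.abs_re_le_norm (v / 2))
  refine ⟨by linarith, ?_⟩
  rw [h3]
  linarith [h4.2]

theorem sst_z₂ {v : ℂ} (hv : ‖v‖ < 1) : ‖1 + v / 2‖ < 4 ∧ 1 / 4 ≤ (1 + v / 2).re := by
  have h1 := sst_norm hv
  have h2 : ‖1 + v / 2‖ ≤ ‖(1 : ℂ)‖ + ‖v / 2‖ := norm_add_le _ _
  rw [norm_one] at h2
  have h3 : (1 + v / 2).re = 1 + (v / 2).re := by simp
  have h4 := abs_le.1 (Complex.abs_re_le_norm (v / 2))
  refine ⟨by linarith, ?_⟩
  rw [h3]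
  linarith [h4.1]

theorem sst_abs₁ {x : ℝ} (h : x ≤ -1 / 4) : 1 / 4 ≤ |x| := by
  rw [abs_of_neg (by linarith)]
  linarith

theorem sst_abs₂ {x : ℝ} (h : 1 / 4 ≤ x) : 1 / 4 ≤ |x| := h.trans (le_abs_self x)

theorem sst_s {l : ℝ} (h : |l| < 1 / 16) : |l / (1 / 16)| < 1 := by
  rw [abs_div, abs_of_pos (show (0 : ℝ) < 1 / 16 by norm_num), div_lt_one (by norm_num)]
  exact h

theorem strip_p {p : ℝ → ℂ} (hp : Wd p) : Strip ISP κS₁ κS₂ (bX p) 0 (1 / 2) (1 / 16) := by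
  refine ⟨κS₁_thick, κS₂_thick, κS_disj, sst_box hp, by norm_num, ?_, ?_, ?_, ?_⟩
  · intro l v t hl hv
    obtain ⟨h1, h2⟩ := sst_z₁ hv
    rw [κS₁_eq (by linarith)]
    unfold bX
    simp only
    rw [p_zero hp (sst_s hl) (sst_abs₁ h2), add_zero, Wm_left hv, fi_left h2]
    congr 2
    ring
  · intro l v t hl hv
    obtain ⟨h1, h2⟩ := sst_z₂ hv
    rw [κS₂_rc (by linarith)]
    unfold bX
    simp only
    rw [p_zero hp (sst_s hl) (sst_abs₂ h2), add_zero, Wm_right hv, fi_right h2]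
    congr 2
    ring
  · intro l v t hv hl z s t' hz hs he
    rw [κS₁_eq (by linarith)] at he
    unfold bX at he
    simp only [Prod.mk.injEq] at he
    obtain ⟨e1, -⟩ := he
    have hc : 0 < (Ci (v / 2) / 32).re := by
      have := sst_Ci hv
      have h1 : (Ci (v / 2) / 32).re = (Ci (v / 2)).re / 32 := by
        simp
      rw [h1]
      positivity
    obtain ⟨e3, m, hm⟩ := Rc_inj hc (pos_re hp hz hs) e1
    rcases le_total |z.re| (1 / 4) with h | h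
    · have h1 := (pos_mid hp hz h (2 * (fi z.re + s / 16))).2.1
      rw [← e3, mul_div_cancel₀ _ (by norm_num), Cy_Ci (by linarith [sst_norm hv])] at h1
      linarith [sst_norm hv]
    · rw [p_zero hp hs h, add_zero, ← Wm_left hv] at e3
      have e4 := Wm_inj (sst_z₁ hv).1 hz e3
      have e5 : fi z.re = 0 := by rw [← e4]; exact fi_left (sst_z₁ hv).2
      have h1 := hl (-m)
      rw [e5] at hm
      push_cast at h1
      rw [show l - 0 - -(m : ℝ) = s / 16 by linarith, abs_div, abs_of_pos (show (0 : ℝ) < 16 by norm_num)] at h1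
      linarith
  · intro l v t hv hl z s t' hz hs he
    rw [κS₂_rc (by linarith)] at he
    unfold bX at he
    simp only [Prod.mk.injEq] at he
    obtain ⟨e1, -⟩ := he
    have hc : 0 < (32 * Ci (v / 2)).re := by
      have := sst_Ci hv
      have h1 : (32 * Ci (v / 2)).re = 32 * (Ci (v / 2)).re := by simp
      rw [h1]
      positivity
    obtain ⟨e3, m, hm⟩ := Rc_inj hc (pos_re hp hz hs) e1
    rcases le_total |z.re| (1 / 4) with h | h
    · have h1 := (pos_mid hp hz h (2 * (fi z.re + s / 16))).2.2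
      rw [← e3, mul_div_cancel_left₀ _ (by norm_num), Cy_Ci (by linarith [sst_norm hv])] at h1
      linarith [sst_norm hv]
    · rw [p_zero hp hs h, add_zero, ← Wm_right hv] at e3
      have e4 := Wm_inj (sst_z₂ hv).1 hz e3
      have e5 : fi z.re = 1 / 2 := by rw [← e4]; exact fi_right (sst_z₂ hv).2
      have h1 := hl (-m)
      rw [e5] at hm
      push_cast at h1
      rw [show l - 1 / 2 - -(m : ℝ) = s / 16 by linarith, abs_div, abs_of_pos (show (0 : ℝ) < 16 by norm_num)] at h1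
      linarith

end Pool.Agent.MMV
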