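import Pool.Agent.MMV.SDf
import Pool.Agent.LKT.UnA

/-!
# MMV/SWm: the planar embedding `Wm`   (difficulty 3)

* `kc`: write `τ = stp (1/2) (3/5)`.  `τ y` and `τ (-y)` are not both nonzero (one of `y, -y` is `≤ 1/2`).  For `|y| ≤ 1/2`: `kc y = y`.  Derivative: `kc' y = 1 - 49/50 (τ y + τ (-y)) + τ' y (3/5 - 49/50 y) + τ' (-y) (3/5 + 49/50 y)`;
  `τ' ≥ 0` (`CSG.stp_deriv_nonneg`) and `τ' y = 0` for `y > 3/5` (`τ` is constant there), so `kc' ≥ 1/50 > 0` everywhere, `kc` is strictly increasing.  For `0 ≤ y ≤ 5`: `kc y ≤ 3/5 + y/50` (convex combination of `y` and `3/5 + y/50`; if `τ y ≠ 1` then `y ≤ 3/5`), so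
  `|kc y| < 7/10` for `|y| < 5`.  `kc` is odd.
* `kU`: `(1 + kc a)/(1 - kc a)` is in `(3/17, 17/3)` for `|a| < 5`, increasing in `kc a`, derivative positive; `2/5 < kU a < 5/2` for `|a| < 5`.  `kM`: `1 ≤ kM a < 141/100` for `|a| < 5` (`kc² < 49/100`, `1/√(51/100) < 1.4004`), smooth.
* `kF` on `-4 < x < 4`: smooth; `kF' > 0`: with `A = kU (x+1)/32 < 5/64`, `B = 1 + x/2000`, `C = 32 kU (x-1) > 64/5`: `A < B < C`; `ta`, `tb` nondecreasing, `tb x ≠ 0` implies `ta x = 1`; `kF' = (1-ta) A' + (ta - tb) B' + tb C' + ta' (B - A) + tb' (C - B)`, all terms `≥ 0` and one of the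
  first three is positive.  So `kF` is strictly increasing on `(-4, 4)` (or: monotone by the same computation with `HasDerivAt`; `strictMonoOn_of_deriv_pos`).
* `km`: `0 < km x < 141/100` for `|x| < 4` (convex combination: `(ta - tb)/2000 ≥ 0`), smooth.
* `pq`: inverse `(‖w‖, im w / ‖w‖)` for `f > 0`, `|q| < 1`: `‖pq f q‖ = f`.
* `Wm_re`: `|km kc| ≤ 141/100 · 7/10 < 1`.  `Wm_inj`: norms: `kF x = kF x'`, so `x = x'`; then `km x kc y = km x kc y'`, `kc y = kc y'`, `y = y'`.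
* `Wm_loc`: composition of `z ↦ (x, y)` , `(x, y) ↦ (x, kc y)`, `(x, y') ↦ (x, km x · y')` (inverse explicit, `RSG.ld_two`), `(x, q) ↦ (kF x, q)`, `pq` (inverse explicit); the one dimensional maps `kc`, `kF` have positive derivative (`CSG.ld_of_fderiv`, `RSG.ld_prodMap` or `ld_of_fderiv` directly).
  Or: `CSG.ld_of_fderiv` for `(x, y) ↦ (kF x, km x · kc y)`: triangular derivative with the diagonal `kF'`, `km · kc'`.
* `Wm_left`: `z = -1 + v/2`, `a = re v / 2`, `x + 1 = a`, `|a| < 1/2`, `y = im v / 2`: `x < -1/2`, so `ta = tb = 0`, `kF x = √((1+a)/(1-a))/32`, `km x = 1/√(1-a²)`, `q = y/√(1-a²)`, `kF √(1-q²) = √((1+a)/(1-a)) √(1-a²-y²) / √(1-a²) / 32 = √(1-a²-y²)/(1-a)/32`, `kF q = y/(1-a)/32`;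
  `Ci (v/2) = ⟨√(1 - ‖v/2‖²)/(1 - a), y/(1-a)⟩`.  `Wm_right` similar: `ta = tb = 1`.
* `Wm_mid`: `ta = 1`, `tb = 0`: `kF = 1 + x/2000`, `q = kc y / 2000`, `|q| ≤ 7/20000`.
* `Wm_im`: `im Wm = kF km kc y`, `kF, km > 0`, sign of `kc y` = sign of `y`.  `Wm_real`: `Wm x = kF x` for real `x` (`kc 0 = 0`), `kF (-1) = 1/32`, `kF 1 = 32`, strictly increasing.
-/

open scoped ContDiff Manifold Topology unitInterval
open Set Filter
open Pool.Agent.CSG (stp)
open Pool.Agent.RSG (E3 E4 S2 S3 S4 ex cj c1 c2 ht fh pS3 pS4)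
open Pool.Agent.RBM (ThickT OnT Box)
open Pool.Agent.LKF (OnF)
open Pool.Agent.PTH (SP ISP)
open Pool.Agent.KNH (circ)
open Pool.Agent.LKT (s1 s2)

namespace Pool.Agent.MMV

/-! ## the clip -/

theorem swm_kc_small {y : ℝ} (h : |y| ≤ 1 / 2) : kc y = y := by
  have h1 := abs_le.1 h
  unfold kc
  rw [CSG.stp_zero (by norm_num) (by linarith [h1.2]), CSG.stp_zero (by norm_num) (by linarith [h1.1])]
  ring

theorem swm_kc_odd (y : ℝ) : kc (-y) = -kc y := by
  unfold kc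
  rw [neg_neg]
  ring

theorem swm_kc_nn {y : ℝ} (h : 0 ≤ y) :
    kc y = (1 - stp (1 / 2) (3 / 5) y) * y + stp (1 / 2) (3 / 5) y * (3 / 5 + y / 50) := by
  unfold kc
  rw [CSG.stp_zero (x := -y) (by norm_num) (by linarith)]
  ring

theorem swm_kc_smooth : ContDiff ℝ ∞ kc := by
  unfold kc
  have h1 := CSG.stp_smooth (1 / 2) (3 / 5)
  have h2 : ContDiff ℝ ∞ fun y : ℝ => stp (1 / 2) (3 / 5) (-y) := h1.comp contDiff_neg
  exact ((contDiff_id.sub ((contDiff_const.mul contDiff_id).mul (h1.add h2))).add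
    (contDiff_const.mul (h1.sub h2)))

theorem swm_stp_deriv (x : ℝ) (hx : 3 / 5 < x) : deriv (stp (1 / 2) (3 / 5)) x = 0 := by
  have h : stp (1 / 2) (3 / 5) =ᶠ[𝓝 x] fun _ => 1 := by
    filter_upwards [lt_mem_nhds hx] with y hy
    exact CSG.stp_one (by norm_num) hy.le
  rw [h.deriv_eq]
  simp

theorem swm_stp_diff (a b x : ℝ) : HasDerivAt (stp a b) (deriv (stp a b) x) x :=
  ((CSG.stp_smooth a b).differentiable (by simp)).differentiableAt.hasDerivAt

theorem swm_kc_hasDeriv (y : ℝ) : ∃ d : ℝ, 0 < d ∧ HasDerivAt kc d y := by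
  have h1 := swm_stp_diff (1 / 2) (3 / 5) y
  have h2 : HasDerivAt (fun y : ℝ => stp (1 / 2) (3 / 5) (-y)) (deriv (stp (1 / 2) (3 / 5)) (-y) * -1) y :=
    (swm_stp_diff (1 / 2) (3 / 5) (-y)).comp y (hasDerivAt_neg y)
  have h3 := ((hasDerivAt_id y).sub (((hasDerivAt_id y).const_mul (49 / 50)).mul (h1.add h2))).add
    ((h1.sub h2).const_mul (3 / 5))
  refine ⟨_, ?_, h3⟩
  have p1 := CSG.stp_deriv_nonneg (a := 1 / 2) (b := 3 / 5) (by norm_num) y
  have p2 := CSG.stp_deriv_nonneg (a := 1 / 2) (b := 3 / 5) (by norm_num) (-y)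
  have q1 := CSG.stp_nonneg (1 / 2) (3 / 5) y
  have q2 := CSG.stp_nonneg (1 / 2) (3 / 5) (-y)
  have r1 := CSG.stp_le_one (1 / 2) (3 / 5) y
  have r2 := CSG.stp_le_one (1 / 2) (3 / 5) (-y)
  have hsum : stp (1 / 2) (3 / 5) y + stp (1 / 2) (3 / 5) (-y) ≤ 1 := by
    rcases le_total 0 y with h | h
    · rw [CSG.stp_zero (x := -y) (by norm_num) (by linarith)]
      linarith
    · rw [CSG.stp_zero (x := y) (by norm_num) (by linarith)]
      linarith
  have e1 : 0 ≤ deriv (stp (1 / 2) (3 / 5)) y * (3 / 5 - 49 / 50 * y) := by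
    rcases le_or_gt y (3 / 5) with h | h
    · exact mul_nonneg p1 (by linarith)
    · rw [swm_stp_deriv y h, zero_mul]
  have e2 : 0 ≤ deriv (stp (1 / 2) (3 / 5)) (-y) * (3 / 5 + 49 / 50 * y) := by
    rcases le_or_gt (-y) (3 / 5) with h | h
    · exact mul_nonneg p2 (by linarith)
    · rw [swm_stp_deriv (-y) h, zero_mul]
  simp only [id_eq, Pi.add_apply]
  nlinarith

theorem swm_kc_mono : StrictMono kc := by
  apply strictMono_of_deriv_pos
  intro x
  obtain ⟨d, hd, h⟩ := swm_kc_hasDeriv x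
  rw [h.deriv]
  exact hd

theorem swm_kc_zero : kc 0 = 0 := swm_kc_small (by norm_num)

theorem swm_kc_lt {y : ℝ} (h : |y| < 5) : |kc y| < 7 / 10 := by
  have key : ∀ y : ℝ, 0 ≤ y → y < 5 → |kc y| < 7 / 10 := by
    intro y h0 h5
    rw [swm_kc_nn h0]
    have q1 := CSG.stp_nonneg (1 / 2) (3 / 5) y
    have r1 := CSG.stp_le_one (1 / 2) (3 / 5) y
    rw [abs_of_nonneg (add_nonneg (mul_nonneg (by linarith) h0) (mul_nonneg q1 (by linarith)))]
    rcases le_or_gt (3 / 5) y with h | h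
    · rw [CSG.stp_one (by norm_num) h]
      linarith
    · nlinarith
  rcases le_total 0 y with h0 | h0
  · exact key y h0 (abs_lt.1 h).2
  · have := key (-y) (by linarith) (by linarith [(abs_lt.1 h).1])
    rwa [swm_kc_odd, abs_neg] at this

theorem swm_q {a : ℝ} (h : |a| < 5) : 0 < 1 + kc a ∧ 0 < 1 - kc a ∧ 0 < 1 - kc a ^ 2 ∧ 51 / 100 < 1 - kc a ^ 2 := by
  have h1 := abs_lt.1 (swm_kc_lt h)
  refine ⟨by linarith [h1.1], by linarith [h1.2], by nlinarith [h1.1, h1.2], by nlinarith [h1.1, h1.2]⟩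

theorem swm_kU_bd {a : ℝ} (h : |a| < 5) : 2 / 5 < kU a ∧ kU a < 5 / 2 := by
  have h1 := abs_lt.1 (swm_kc_lt h)
  obtain ⟨h2, h3, -, -⟩ := swm_q h
  unfold kU
  constructor
  · apply Real.lt_sqrt_of_sq_lt
    rw [lt_div_iff₀ h3]
    nlinarith [h1.1, h1.2]
  · rw [Real.sqrt_lt' (by norm_num), div_lt_iff₀ h3]
    nlinarith [h1.1, h1.2]

theorem swm_kU_hasDeriv {a : ℝ} (h : |a| < 5) : ∃ d : ℝ, 0 < d ∧ HasDerivAt kU d a := by
  obtain ⟨d, hd, hk⟩ := swm_kc_hasDeriv a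
  obtain ⟨h2, h3, -, -⟩ := swm_q h
  have e1 := (hk.const_add 1).div (hk.const_sub 1) h3.ne'
  have h4 : (1 + kc a) / (1 - kc a) ≠ 0 := (div_pos h2 h3).ne'
  have e2 := e1.sqrt h4
  refine ⟨_, ?_, e2⟩
  have h5 : 0 < Real.sqrt ((1 + kc a) / (1 - kc a)) := Real.sqrt_pos.2 (div_pos h2 h3)
  have h6 : 0 < d * (1 - kc a) - (1 + kc a) * -d := by nlinarith
  positivity

theorem swm_kU_smooth {a : ℝ} (h : |a| < 5) : ContDiffAt ℝ ∞ kU a := by
  obtain ⟨h2, h3, -, -⟩ := swm_q h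
  have h4 : (1 + kc a) / (1 - kc a) ≠ 0 := (div_pos h2 h3).ne'
  exact ((contDiffAt_const.add swm_kc_smooth.contDiffAt).div (contDiffAt_const.sub swm_kc_smooth.contDiffAt) h3.ne').sqrt h4

theorem swm_kM_smooth {a : ℝ} (h : |a| < 5) : ContDiffAt ℝ ∞ kM a := by
  obtain ⟨-, -, h4, -⟩ := swm_q h
  exact contDiffAt_const.div ((contDiffAt_const.sub (swm_kc_smooth.contDiffAt.pow 2)).sqrt h4.ne')
    (Real.sqrt_pos.2 h4).ne'

theorem swm_kM_bd {a : ℝ} (h : |a| < 5) : 0 < kM a ∧ kM a < 141 / 100 := by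
  obtain ⟨-, -, h4, h5⟩ := swm_q h
  have h6 : 0 < Real.sqrt (1 - kc a ^ 2) := Real.sqrt_pos.2 h4
  unfold kM
  refine ⟨by positivity, ?_⟩
  rw [div_lt_iff₀ h6]
  have h7 : 100 / 141 < Real.sqrt (1 - kc a ^ 2) := by
    apply Real.lt_sqrt_of_sq_lt
    norm_num
    linarith
  linarith

/-! ## the weights -/

theorem swm_ta (x : ℝ) : 0 ≤ ta x ∧ ta x ≤ 1 := ⟨CSG.stp_nonneg _ _ _, CSG.stp_le_one _ _ _⟩
theorem swm_tb (x : ℝ) : 0 ≤ tb x ∧ tb x ≤ 1 := ⟨CSG.stp_nonneg _ _ _, CSG.stp_le_one _ _ _⟩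

theorem swm_tab (x : ℝ) : tb x ≤ ta x := by
  rcases le_total x (1 / 4) with h | h
  · unfold tb
    rw [CSG.stp_zero (by norm_num) h]
    exact (swm_ta x).1
  · have : ta x = 1 := CSG.stp_one (by norm_num) (by linarith)
    rw [this]
    exact (swm_tb x).2

theorem swm_shift {x : ℝ} (h : |x| < 4) : |x + 1| < 5 ∧ |x - 1| < 5 := by
  have h1 := abs_lt.1 h
  exact ⟨abs_lt.2 ⟨by linarith [h1.1], by linarith [h1.2]⟩, abs_lt.2 ⟨by linarith [h1.1], by linarith [h1.2]⟩⟩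

theorem swm_kF_pos {x : ℝ} (h : |x| < 4) : 0 < kF x := by
  have h1 := abs_lt.1 h
  obtain ⟨ha, hb⟩ := swm_shift h
  have A := (swm_kU_bd ha).1
  have C := (swm_kU_bd hb).1
  have a0 := swm_ta x
  have b0 := swm_tb x
  have ab := swm_tab x
  unfold kF
  have e1 : 0 ≤ (1 - ta x) * (kU (x + 1) / 32 - 1 / 100) := mul_nonneg (by linarith [a0.2]) (by linarith)
  have e2 : 0 ≤ (ta x - tb x) * (1 + x / 2000 - 1 / 100) := mul_nonneg (by linarith) (by linarith [h1.1])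
  have e3 : 0 ≤ tb x * (32 * kU (x - 1) - 1 / 100) := mul_nonneg b0.1 (by linarith)
  nlinarith

theorem swm_km_bd {x : ℝ} (h : |x| < 4) : 0 < km x ∧ km x < 141 / 100 := by
  obtain ⟨ha, hb⟩ := swm_shift h
  have A := swm_kM_bd ha
  have C := swm_kM_bd hb
  have a0 := swm_ta x
  have b0 := swm_tb x
  have ab := swm_tab x
  unfold km
  constructor
  · rcases a0.2.lt_or_eq with h1 | h1
    · have e1 : 0 < (1 - ta x) * kM (x + 1) := mul_pos (by linarith) A.1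
      have e3 : 0 ≤ tb x * kM (x - 1) := mul_nonneg b0.1 C.1.le
      linarith
    · rcases b0.2.lt_or_eq with h2 | h2
      · have e1 : 0 ≤ (1 - ta x) * kM (x + 1) := mul_nonneg (by linarith) A.1.le
        have e3 : 0 ≤ tb x * kM (x - 1) := mul_nonneg b0.1 C.1.le
        linarith
      · rw [h1, h2]
        simp only [sub_self, zero_mul, zero_div, zero_add, one_mul]
        exact C.1
  · have e1 : (1 - ta x) * kM (x + 1) ≤ (1 - ta x) * (141 / 100) := mul_le_mul_of_nonneg_left A.2.le (by linarith [a0.2])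
    have e3 : tb x * kM (x - 1) ≤ tb x * (141 / 100) := mul_le_mul_of_nonneg_left C.2.le b0.1
    rcases ab.lt_or_eq with h1 | h1
    · linarith
    · rcases a0.2.lt_or_eq with h2 | h2
      · have : (1 - ta x) * kM (x + 1) < (1 - ta x) * (141 / 100) := mul_lt_mul_of_pos_left A.2 (by linarith)
        linarith
      · rw [h1, h2]
        simp only [sub_self, zero_mul, zero_div, zero_add, one_mul]
        exact C.2

theorem swm_kF_smooth {x : ℝ} (h : |x| < 4) : ContDiffAt ℝ ∞ kF x := by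
  obtain ⟨ha, hb⟩ := swm_shift h
  have hA : ContDiffAt ℝ ∞ (fun x : ℝ => kU (x + 1)) x :=
    ContDiffAt.comp (g := kU) (f := fun x : ℝ => x + 1) x (swm_kU_smooth ha) (contDiffAt_id.add contDiffAt_const)
  have hC : ContDiffAt ℝ ∞ (fun x : ℝ => kU (x - 1)) x :=
    ContDiffAt.comp (g := kU) (f := fun x : ℝ => x - 1) x (swm_kU_smooth hb) (contDiffAt_id.sub contDiffAt_const)
  have ht : ContDiffAt ℝ ∞ ta x := (CSG.stp_smooth _ _).contDiffAt
  have hs : ContDiffAt ℝ ∞ tb x := (CSG.stp_smooth _ _).contDiffAt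
  exact (((contDiffAt_const.sub ht).mul (hA.div_const _)).add
    ((ht.sub hs).mul (contDiffAt_const.add (contDiffAt_id.div_const _)))).add
    (hs.mul (contDiffAt_const.mul hC))

theorem swm_km_smooth {x : ℝ} (h : |x| < 4) : ContDiffAt ℝ ∞ km x := by
  obtain ⟨ha, hb⟩ := swm_shift h
  have hA : ContDiffAt ℝ ∞ (fun x : ℝ => kM (x + 1)) x :=
    ContDiffAt.comp (g := kM) (f := fun x : ℝ => x + 1) x (swm_kM_smooth ha) (contDiffAt_id.add contDiffAt_const)
  have hC : ContDiffAt ℝ ∞ (fun x : ℝ => kM (x - 1)) x :=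
    ContDiffAt.comp (g := kM) (f := fun x : ℝ => x - 1) x (swm_kM_smooth hb) (contDiffAt_id.sub contDiffAt_const)
  have ht : ContDiffAt ℝ ∞ ta x := (CSG.stp_smooth _ _).contDiffAt
  have hs : ContDiffAt ℝ ∞ tb x := (CSG.stp_smooth _ _).contDiffAt
  exact (((contDiffAt_const.sub ht).mul hA).add ((ht.sub hs).div_const _)).add (hs.mul hC)

theorem swm_kF_hasDeriv {x : ℝ} (h : |x| < 4) : ∃ d : ℝ, 0 < d ∧ HasDerivAt kF d x := by
  have h1 := abs_lt.1 h
  obtain ⟨ha, hb⟩ := swm_shift h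
  obtain ⟨dA, hdA, hA⟩ := swm_kU_hasDeriv ha
  obtain ⟨dC, hdC, hC⟩ := swm_kU_hasDeriv hb
  have hA' : HasDerivAt (fun x : ℝ => kU (x + 1)) dA x := hA.comp_add_const x 1
  have hC' : HasDerivAt (fun x : ℝ => kU (x - 1)) dC x := hC.comp_sub_const x 1
  have ht : HasDerivAt ta (deriv ta x) x := swm_stp_diff _ _ _
  have hs : HasDerivAt tb (deriv tb x) x := swm_stp_diff _ _ _
  have hB : HasDerivAt (fun x : ℝ => 1 + x / 2000) (1 / 2000) x := ((hasDerivAt_id x).div_const 2000).const_add 1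
  have e := (((ht.const_sub 1).mul (hA'.div_const 32)).add ((ht.sub hs).mul hB)).add (hs.mul (hC'.const_mul 32))
  refine ⟨_, ?_, e⟩
  have pa : 0 ≤ deriv ta x := CSG.stp_deriv_nonneg (by norm_num) x
  have pb : 0 ≤ deriv tb x := CSG.stp_deriv_nonneg (by norm_num) x
  have A := (swm_kU_bd ha).2
  have C := (swm_kU_bd hb).1
  have a0 := swm_ta x
  have b0 := swm_tb x
  have ab := swm_tab x
  simp only [Pi.sub_apply]
  have f1 : 0 ≤ deriv ta x * ((1 + x / 2000) - kU (x + 1) / 32) := mul_nonneg pa (by linarith [h1.1])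
  have f2 : 0 ≤ deriv tb x * (32 * kU (x - 1) - (1 + x / 2000)) := mul_nonneg pb (by linarith [h1.2])
  have f3 : 0 < (1 - ta x) * (dA / 32) + (ta x - tb x) * (1 / 2000) + tb x * (32 * dC) := by
    rcases a0.2.lt_or_eq with h1 | h1
    · have g1 : 0 < (1 - ta x) * (dA / 32) := mul_pos (by linarith) (by linarith)
      have g3 : 0 ≤ tb x * (32 * dC) := mul_nonneg b0.1 (by linarith)
      linarith
    · have g1 : 0 ≤ (1 - ta x) * (dA / 32) := mul_nonneg (by linarith) (by linarith)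
      rcases b0.2.lt_or_eq with h2 | h2
      · have g3 : 0 ≤ tb x * (32 * dC) := mul_nonneg b0.1 (by linarith)
        linarith
      · rw [h1, h2]
        linarith
  nlinarith

theorem swm_kF_mono : StrictMonoOn kF (Ioo (-4) 4) := by
  have hab : ∀ x ∈ Ioo (-4 : ℝ) 4, |x| < 4 := fun x hx => abs_lt.2 ⟨hx.1, hx.2⟩
  apply strictMonoOn_of_deriv_pos (convex_Ioo _ _)
  · intro x hx
    exact (swm_kF_smooth (hab x hx)).continuousAt.continuousWithinAt
  · intro x hx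
    rw [interior_Ioo] at hx
    obtain ⟨d, hd, h⟩ := swm_kF_hasDeriv (hab x hx)
    rw [h.deriv]
    exact hd

/-! ## the embedding -/

theorem swm_re {z : ℂ} (h : ‖z‖ < 4) : |z.re| < 4 := (Complex.abs_re_le_norm z).trans_lt h
theorem swm_im {z : ℂ} (h : ‖z‖ < 4) : |z.im| < 5 := (Complex.abs_im_le_norm z).trans_lt (by linarith)

theorem swm_qlt {z : ℂ} (h : ‖z‖ < 4) : (km z.re * kc z.im) ^ 2 < 1 := by
  have h1 := swm_km_bd (swm_re h)
  have h2 := swm_kc_lt (swm_im h)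
  have h3 : |km z.re * kc z.im| < 1 := by
    rw [abs_mul, abs_of_pos h1.1]
    nlinarith [abs_nonneg (kc z.im), h1.1, h1.2]
  have := abs_lt.1 h3
  nlinarith [this.1, this.2]

theorem Wm_re {z : ℂ} (h : ‖z‖ < 4) : 0 < (Wm z).re := by
  change 0 < kF z.re * Real.sqrt (1 - (km z.re * kc z.im) ^ 2)
  exact mul_pos (swm_kF_pos (swm_re h)) (Real.sqrt_pos.2 (by linarith [swm_qlt h]))

theorem swm_sq {z : ℂ} (h : ‖z‖ < 4) : (Wm z).re ^ 2 + (Wm z).im ^ 2 = kF z.re ^ 2 := by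
  change (kF z.re * Real.sqrt (1 - (km z.re * kc z.im) ^ 2)) ^ 2 + (kF z.re * (km z.re * kc z.im)) ^ 2 = _
  rw [mul_pow, Real.sq_sqrt (by linarith [swm_qlt h])]
  ring

theorem swm_Wm_im (z : ℂ) : (Wm z).im = kF z.re * (km z.re * kc z.im) := rfl

theorem swm_smooth {z : ℂ} (h : ‖z‖ < 4) : ContDiffAt ℝ ∞ Wm z := by
  have hre : ContDiffAt ℝ ∞ (fun z : ℂ => z.re) z := Complex.reCLM.contDiff.contDiffAt
  have him : ContDiffAt ℝ ∞ (fun z : ℂ => z.im) z := Complex.imCLM.contDiff.contDiffAt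
  have h1 : ContDiffAt ℝ ∞ (fun z : ℂ => kF z.re) z := (swm_kF_smooth (swm_re h)).comp z hre
  have h2 : ContDiffAt ℝ ∞ (fun z : ℂ => km z.re) z := (swm_km_smooth (swm_re h)).comp z hre
  have h3 : ContDiffAt ℝ ∞ (fun z : ℂ => kc z.im) z := swm_kc_smooth.contDiffAt.comp z him
  have h4 : ContDiffAt ℝ ∞ (fun z : ℂ => kF z.re * Real.sqrt (1 - (km z.re * kc z.im) ^ 2)) z := by
    refine h1.mul (ContDiffAt.sqrt (contDiffAt_const.sub ((h2.mul h3).pow 2)) ?_)
    have := swm_qlt h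
    intro h0
    linarith
  have h5 : ContDiffAt ℝ ∞ (fun z : ℂ => kF z.re * (km z.re * kc z.im)) z := h1.mul (h2.mul h3)
  have h6 : Wm = fun z : ℂ => ((kF z.re * Real.sqrt (1 - (km z.re * kc z.im) ^ 2) : ℝ) : ℂ) +
      ((kF z.re * (km z.re * kc z.im) : ℝ) : ℂ) * Complex.I := by
    funext w
    apply Complex.ext <;> simp [Wm, pq]
  rw [h6]
  exact (Complex.ofRealCLM.contDiff.contDiffAt.comp z h4).add
    ((Complex.ofRealCLM.contDiff.contDiffAt.comp z h5).mul contDiffAt_const)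

theorem Wm_loc {z : ℂ} (h : ‖z‖ < 4) : IsLocalDiffeomorphAt 𝓘(ℝ, ℂ) 𝓘(ℝ, ℂ) ∞ Wm z := by
  have hop : ∀ᶠ w in 𝓝 z, ‖w‖ < 4 := (isOpen_lt continuous_norm continuous_const).mem_nhds h
  refine CSG.ld_of_fderiv (hop.mono fun w hw => swm_smooth hw) rfl fun v hv => ?_
  have hd : HasFDerivAt Wm (fderiv ℝ Wm z) z := ((swm_smooth h).differentiableAt (by simp)).hasFDerivAt
  -- the curve
  have hc : HasDerivAt (fun t : ℝ => z + (t : ℂ) * v) v 0 := by
    have h1 : HasDerivAt (fun t : ℝ => (t : ℂ)) 1 0 := Complex.ofRealCLM.hasDerivAt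
    simpa using (h1.mul_const v).const_add z
  have hc0 : z + ((0 : ℝ) : ℂ) * v = z := by simp
  have hcomp : HasDerivAt (fun t : ℝ => Wm (z + (t : ℂ) * v)) 0 0 := by
    have h1 : HasFDerivAt Wm (fderiv ℝ Wm z) (z + ((0 : ℝ) : ℂ) * v) := by rw [hc0]; exact hd
    have h2 := h1.comp_hasDerivAt (0 : ℝ) hc
    rw [hv] at h2
    exact h2
  have hφ : HasDerivAt (fun t : ℝ => (Wm (z + (t : ℂ) * v)).re) 0 0 := by
    have := (Complex.reCLM.hasFDerivAt (x := Wm (z + ((0 : ℝ) : ℂ) * v))).comp_hasDerivAt (0 : ℝ) hcomp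
    rw [map_zero] at this
    exact this
  have hψ : HasDerivAt (fun t : ℝ => (Wm (z + (t : ℂ) * v)).im) 0 0 := by
    have := (Complex.imCLM.hasFDerivAt (x := Wm (z + ((0 : ℝ) : ℂ) * v))).comp_hasDerivAt (0 : ℝ) hcomp
    rw [map_zero] at this
    exact this
  have hre : ∀ t : ℝ, (z + (t : ℂ) * v).re = z.re + t * v.re := fun t => by simp
  have him : ∀ t : ℝ, (z + (t : ℂ) * v).im = z.im + t * v.im := fun t => by simp
  obtain ⟨dF, hdF, hF⟩ := swm_kF_hasDeriv (swm_re h)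
  obtain ⟨dc, hdc, hk⟩ := swm_kc_hasDeriv z.im
  have hlin : ∀ a b : ℝ, HasDerivAt (fun t : ℝ => a + t * b) b 0 := fun a b => by
    simpa using ((hasDerivAt_id (0 : ℝ)).mul_const b).const_add a
  have hev : ∀ᶠ t : ℝ in 𝓝 0, ‖z + (t : ℂ) * v‖ < 4 := by
    have hcc : ContinuousAt (fun t : ℝ => z + (t : ℂ) * v) 0 := hc.continuousAt
    have h1 : ∀ᶠ w in 𝓝 (z + ((0 : ℝ) : ℂ) * v), ‖w‖ < 4 := by rw [hc0]; exact hop
    exact hcc.eventually h1
  have hvre : v.re = 0 := by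
    have e1 := (hφ.pow 2).add (hψ.pow 2)
    have e2 : HasDerivAt (fun t : ℝ => kF (z.re + t * v.re) ^ 2) (2 * kF z.re * (dF * v.re)) 0 := by
      have h1 : HasDerivAt kF dF (z.re + 0 * v.re) := by simpa using hF
      have h2 : HasDerivAt (fun t : ℝ => kF (z.re + t * v.re)) (dF * v.re) 0 :=
        HasDerivAt.comp (h₂ := kF) (h := fun t : ℝ => z.re + t * v.re) (0 : ℝ) h1 (hlin z.re v.re)
      have h3 : HasDerivAt (fun t : ℝ => kF (z.re + t * v.re) ^ 2)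
          (((2 : ℕ) : ℝ) * kF (z.re + 0 * v.re) ^ (2 - 1) * (dF * v.re)) 0 := h2.pow 2
      have h4 : ((2 : ℕ) : ℝ) * kF (z.re + 0 * v.re) ^ (2 - 1) * (dF * v.re) = 2 * kF z.re * (dF * v.re) := by
        simp
      rwa [h4] at h3
    have e3 : (fun t : ℝ => kF (z.re + t * v.re) ^ 2) =ᶠ[𝓝 0]
        ((fun t : ℝ => (Wm (z + (t : ℂ) * v)).re) ^ 2 + (fun t : ℝ => (Wm (z + (t : ℂ) * v)).im) ^ 2) := by
      filter_upwards [hev] with t ht
      have := swm_sq ht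
      rw [hre] at this
      simp only [Pi.add_apply, Pi.pow_apply]
      exact this.symm
    have e4 := (e1.congr_of_eventuallyEq e3).unique e2
    have e5 : 0 < 2 * kF z.re * dF := mul_pos (mul_pos two_pos (swm_kF_pos (swm_re h))) hdF
    have e6 : 2 * kF z.re * dF * v.re = 0 := by
      have : (2 * kF z.re * (dF * v.re)) = 0 := by rw [← e4]; simp
      linarith
    exact (mul_eq_zero.1 e6).resolve_left e5.ne'
  have hvim : v.im = 0 := by
    have e2 : HasDerivAt (fun t : ℝ => kF z.re * (km z.re * kc (z.im + t * v.im))) (kF z.re * (km z.re * (dc * v.im))) 0 := by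
      have h1 : HasDerivAt kc dc (z.im + 0 * v.im) := by simpa using hk
      have h2 : HasDerivAt (fun t : ℝ => kc (z.im + t * v.im)) (dc * v.im) 0 :=
        HasDerivAt.comp (h₂ := kc) (h := fun t : ℝ => z.im + t * v.im) (0 : ℝ) h1 (hlin z.im v.im)
      exact (h2.const_mul (km z.re)).const_mul (kF z.re)
    have e3 : (fun t : ℝ => kF z.re * (km z.re * kc (z.im + t * v.im))) = fun t : ℝ => (Wm (z + (t : ℂ) * v)).im := by
      funext t
      rw [swm_Wm_im, hre, him, hvre, mul_zero, add_zero]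
    rw [e3] at e2
    have e4 := hψ.unique e2
    have e5 : 0 < kF z.re * km z.re * dc :=
      mul_pos (mul_pos (swm_kF_pos (swm_re h)) (swm_km_bd (swm_re h)).1) hdc
    have e6 : kF z.re * km z.re * dc * v.im = 0 := by linarith
    exact (mul_eq_zero.1 e6).resolve_left e5.ne'
  exact Complex.ext hvre hvim

theorem Wm_inj {z z' : ℂ} (h : ‖z‖ < 4) (h' : ‖z'‖ < 4) (he : Wm z = Wm z') : z = z' := by
  have a := swm_re h
  have a' := swm_re h'
  have e1 := swm_sq h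
  rw [he, swm_sq h'] at e1
  have p := swm_kF_pos a
  have p' := swm_kF_pos a'
  have e2 : kF z.re = kF z'.re := by nlinarith
  have e3 : z.re = z'.re := swm_kF_mono.injOn (abs_lt.1 a) (abs_lt.1 a') e2
  have e4 := congrArg Complex.im he
  rw [swm_Wm_im, swm_Wm_im, ← e3] at e4
  have e5 := mul_left_cancel₀ (swm_km_bd a).1.ne' (mul_left_cancel₀ p.ne' e4)
  exact Complex.ext e3 (swm_kc_mono.injective e5)

theorem swm_model {a b c : ℝ} (h : a ^ 2 + b ^ 2 < 1 / 4) :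
    pq (kU a * c) (kM a * kc b) = (c : ℂ) * ⟨Real.sqrt (1 - (a ^ 2 + b ^ 2)) / (1 - a), b / (1 - a)⟩ := by
  have ha : |a| ≤ 1 / 2 := abs_le.2 ⟨by nlinarith [sq_nonneg b], by nlinarith [sq_nonneg b]⟩
  have hb : |b| ≤ 1 / 2 := abs_le.2 ⟨by nlinarith [sq_nonneg a], by nlinarith [sq_nonneg a]⟩
  have ha' := abs_le.1 ha
  unfold kU kM
  rw [swm_kc_small ha, swm_kc_small hb]
  have h1 : 0 < 1 - a := by linarith [ha'.2]
  have hs : 0 < 1 - a ^ 2 := by nlinarith [ha'.1, ha'.2]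
  set s := Real.sqrt (1 - a ^ 2) with hsd
  have hs0 : 0 < s := Real.sqrt_pos.2 hs
  have hss : s ^ 2 = 1 - a ^ 2 := Real.sq_sqrt hs.le
  have e1 : Real.sqrt ((1 + a) / (1 - a)) = s / (1 - a) := by
    rw [Real.sqrt_eq_iff_mul_self_eq (div_nonneg (by linarith [ha'.1]) h1.le) (div_nonneg hs0.le h1.le)]
    field_simp
    nlinarith
  have e2 : Real.sqrt (1 - (1 / s * b) ^ 2) = Real.sqrt (1 - (a ^ 2 + b ^ 2)) / s := by
    have : 1 - (1 / s * b) ^ 2 = (1 - (a ^ 2 + b ^ 2)) / s ^ 2 := by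
      field_simp
      rw [hss]
      ring
    rw [this, Real.sqrt_div (by linarith), Real.sqrt_sq hs0.le]
  rw [e1]
  unfold pq
  rw [e2]
  apply Complex.ext
  · simp only [Complex.mul_re, Complex.ofReal_re, Complex.ofReal_im, zero_mul, sub_zero]
    field_simp
  · simp only [Complex.mul_im, Complex.ofReal_re, Complex.ofReal_im, zero_mul, add_zero]
    field_simp

theorem swm_half {v : ℂ} (hv : ‖v‖ < 1) : (v.re / 2) ^ 2 + (v.im / 2) ^ 2 < 1 / 4 ∧ |v.re / 2| < 1 / 2 := by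
  have h1 : ‖v‖ ^ 2 = v.re ^ 2 + v.im ^ 2 := by
    rw [← Complex.normSq_eq_norm_sq, Complex.normSq_apply]; ring
  have h2 : ‖v‖ ^ 2 < 1 := by nlinarith [norm_nonneg v]
  refine ⟨by nlinarith, ?_⟩
  have h3 := (Complex.abs_re_le_norm v).trans_lt hv
  rw [abs_div, abs_two]
  linarith

theorem swm_Ci (v : ℂ) : Ci (v / 2) = ⟨Real.sqrt (1 - ((v.re / 2) ^ 2 + (v.im / 2) ^ 2)) / (1 - v.re / 2), (v.im / 2) / (1 - v.re / 2)⟩ := by
  have h1 : ‖v / 2‖ ^ 2 = (v.re / 2) ^ 2 + (v.im / 2) ^ 2 := by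
    rw [← Complex.normSq_eq_norm_sq, Complex.normSq_apply]
    simp
    ring
  unfold Ci
  rw [h1]
  simp

theorem Wm_left {v : ℂ} (hv : ‖v‖ < 1) : Wm (-1 + v / 2) = Ci (v / 2) / 32 := by
  obtain ⟨h1, h2⟩ := swm_half hv
  have h2' := abs_lt.1 h2
  have hre : (-1 + v / 2 : ℂ).re = -1 + v.re / 2 := by simp
  have him : (-1 + v / 2 : ℂ).im = v.im / 2 := by simp
  have ta0 : ta (-1 + v.re / 2) = 0 := CSG.stp_zero (by norm_num) (by linarith [h2'.2])
  have tb0 : tb (-1 + v.re / 2) = 0 := CSG.stp_zero (by norm_num) (by linarith [h2'.2])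
  have e1 : kF (-1 + v.re / 2) = kU (v.re / 2) * (1 / 32) := by
    unfold kF
    rw [ta0, tb0, show -1 + v.re / 2 + 1 = v.re / 2 by ring]
    ring
  have e2 : km (-1 + v.re / 2) = kM (v.re / 2) := by
    unfold km
    rw [ta0, tb0, show -1 + v.re / 2 + 1 = v.re / 2 by ring]
    ring
  unfold Wm
  rw [hre, him, e1, e2, swm_model h1, swm_Ci]
  push_cast
  ring

theorem Wm_right {v : ℂ} (hv : ‖v‖ < 1) : Wm (1 + v / 2) = 32 * Ci (v / 2) := by
  obtain ⟨h1, h2⟩ := swm_half hv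
  have h2' := abs_lt.1 h2
  have hre : (1 + v / 2 : ℂ).re = 1 + v.re / 2 := by simp
  have him : (1 + v / 2 : ℂ).im = v.im / 2 := by simp
  have ta0 : ta (1 + v.re / 2) = 1 := CSG.stp_one (by norm_num) (by linarith [h2'.1])
  have tb0 : tb (1 + v.re / 2) = 1 := CSG.stp_one (by norm_num) (by linarith [h2'.1])
  have e1 : kF (1 + v.re / 2) = kU (v.re / 2) * 32 := by
    unfold kF
    rw [ta0, tb0, show 1 + v.re / 2 - 1 = v.re / 2 by ring]
    ring
  have e2 : km (1 + v.re / 2) = kM (v.re / 2) := by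
    unfold km
    rw [ta0, tb0, show 1 + v.re / 2 - 1 = v.re / 2 by ring]
    ring
  unfold Wm
  rw [hre, him, e1, e2, swm_model h1, swm_Ci]
  push_cast
  ring

theorem Wm_mid {z : ℂ} (h : ‖z‖ < 4) (h1 : |z.re| ≤ 1 / 4) : ‖Wm z - 1‖ ≤ 1 / 1000 := by
  have hx := abs_le.1 h1
  have ta0 : ta z.re = 1 := CSG.stp_one (by norm_num) (by linarith [hx.1])
  have tb0 : tb z.re = 0 := CSG.stp_zero (by norm_num) (by linarith [hx.2])
  have e1 : kF z.re = 1 + z.re / 2000 := by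
    unfold kF
    rw [ta0, tb0]
    ring
  have e2 : km z.re = 1 / 2000 := by
    unfold km
    rw [ta0, tb0]
    ring
  have hk := abs_lt.1 (swm_kc_lt (swm_im h))
  set q := km z.re * kc z.im with hq
  have hq1 : q = kc z.im / 2000 := by rw [hq, e2]; ring
  have hq2 : |q| ≤ 7 / 20000 := by
    rw [hq1]
    exact abs_le.2 ⟨by linarith [hk.1], by linarith [hk.2]⟩
  have hq3 : q ^ 2 ≤ 1 / 1000000 := by
    have := abs_le.1 hq2
    nlinarith [this.1, this.2]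
  set s := Real.sqrt (1 - q ^ 2) with hs
  have hs0 : 0 ≤ s := Real.sqrt_nonneg _
  have hs1 : s ≤ 1 := by
    rw [hs]
    apply Real.sqrt_le_one.2
    nlinarith [sq_nonneg q]
  have hs2 : 1 - q ^ 2 ≤ s := by
    rw [hs]
    apply Real.le_sqrt_of_sq_le
    nlinarith [sq_nonneg q]
  have hre : (Wm z - 1).re = (1 + z.re / 2000) * s - 1 := by
    change kF z.re * s - 1 = _
    rw [e1]
  have him : (Wm z - 1).im = (1 + z.re / 2000) * q := by
    change kF z.re * q - 0 = _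
    rw [e1, sub_zero]
  have h3 := Complex.norm_le_abs_re_add_abs_im (Wm z - 1)
  rw [hre, him] at h3
  have h4 : |(1 + z.re / 2000) * s - 1| ≤ 1 / 5000 := by
    rw [abs_le]
    constructor <;> nlinarith [hx.1, hx.2]
  have h5 : |(1 + z.re / 2000) * q| ≤ 4 / 10000 := by
    rw [abs_mul]
    have : |1 + z.re / 2000| ≤ 1 + 1 / 8000 := abs_le.2 ⟨by linarith [hx.1], by linarith [hx.2]⟩
    nlinarith [abs_nonneg q, abs_nonneg (1 + z.re / 2000)]
  linarith

theorem Wm_im {z : ℂ} (h : ‖z‖ < 4) :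
    (0 < z.im → 0 < (Wm z).im) ∧ (z.im < 0 → (Wm z).im < 0) ∧ (z.im = 0 → (Wm z).im = 0) := by
  have p := mul_pos (swm_kF_pos (swm_re h)) (swm_km_bd (swm_re h)).1
  rw [swm_Wm_im, ← mul_assoc]
  refine ⟨fun h0 => ?_, fun h0 => ?_, fun h0 => ?_⟩
  · have := swm_kc_mono h0
    rw [swm_kc_zero] at this
    exact mul_pos p this
  · have := swm_kc_mono h0
    rw [swm_kc_zero] at this
    exact mul_neg_of_pos_of_neg p this
  · rw [h0, swm_kc_zero, mul_zero]

theorem swm_real (x : ℝ) : (Wm x).re = kF x := by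
  change kF x * Real.sqrt (1 - (km x * kc 0) ^ 2) = kF x
  rw [swm_kc_zero]
  simp

theorem Wm_real {x : ℝ} : (-4 < x → x < -1 → (Wm x).re < 1 / 32) ∧ (1 < x → x < 4 → 32 < (Wm x).re) := by
  have u0 : kU 0 = 1 := by
    unfold kU
    rw [swm_kc_zero]
    simp
  rw [swm_real]
  constructor
  · intro h1 h2
    have e := swm_kF_mono (show x ∈ Ioo (-4 : ℝ) 4 from ⟨h1, by linarith⟩) (show (-1 : ℝ) ∈ Ioo (-4 : ℝ) 4 by norm_num) h2
    have e1 : kF (-1) = 1 / 32 := by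
      have ta0 : ta (-1) = 0 := CSG.stp_zero (by norm_num) (by norm_num)
      have tb0 : tb (-1) = 0 := CSG.stp_zero (by norm_num) (by norm_num)
      unfold kF
      rw [ta0, tb0, show (-1 : ℝ) + 1 = 0 by ring, u0]
      ring
    rwa [e1] at e
  · intro h1 h2
    have e := swm_kF_mono (show (1 : ℝ) ∈ Ioo (-4 : ℝ) 4 by norm_num) (show x ∈ Ioo (-4 : ℝ) 4 from ⟨by linarith, h2⟩) h1
    have e1 : kF 1 = 32 := by
      have ta0 : ta 1 = 1 := CSG.stp_one (by norm_num) (by norm_num)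
      have tb0 : tb 1 = 1 := CSG.stp_one (by norm_num) (by norm_num)
      unfold kF
      rw [ta0, tb0, show (1 : ℝ) - 1 = 0 by ring, u0]
      ring
    rwa [e1] at e

end Pool.Agent.MMV
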