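import Pool.Agent.MMV.TDef
import Pool.Agent.RSG.SphB
import Pool.Agent.RSG.LDc
import Pool.Agent.LKT.TwK

/-!
# MMV/TCp
: the cap chart of the twin   (difficulty 4)

`‖c‖ < 1`, `cos (2πt) < 0`.  `E = cE < 0`, `F = cF`, `S = cS = √(1 - F²)`: `E² + F² = 1 - |c|²`, `S² - E² = |c|²`, `0 ≤ S`, `S - E > 0`, `1 + S > 0`.
* the three arguments of `pS4` have square sum `|c|²/(2(S-E)) + (S-E)/2 + F²/(1+S) = (S+E)/2 + (S-E)/2 + (1-S) = 1` (`F² = 1 - S² = (1-S)(1+S)`), so `pS4` does not change them (`RSG.SphA`, `RSG.SphB`: see how `LKT/TwZ` computes `c1 (ZQ q)` etc).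
* `fh`: real part `|c1|² - |c2|² = (S+E)/2 - (S-E)/2 = E`; imaginary part `ht √(2 - ht²) = (F/√(1+S)) √(1+S) = F` (`2 - ht² = 2 - (1 - S) = 1 + S`); so `fh = √(1-|c|²) ex t` (`RSG.ex_re`, `RSG.ex_im`), not zero.
* `2 |c1| |c2| = 2 · |c|/√(2(S-E)) · √((S-E)/2) = |c|`.
* `CapS_ld` (`RSG.ld_two`): inverse `z ↦ (2 ‖c2 z‖ c1 z, ν₀ - (arg (c2 z / (‖c2 z‖ ex (1/2-ν₀))))/2π, t₀ + arg (fh z / (‖fh z‖ ex t₀))/2π)` near `z₀ = CapS (c₀, ν₀, t₀)`: smooth where `c2 z ≠ 0`, `fh z ≠ 0` and the two quotients are in the slit plane (they are `1` at `z₀`); `g (f q) = q` near `q₀`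
  by the formulas for `c1`, `c2`, `fh`; `f (g z) = z` near `z₀`: `z` is determined by `c1 z`, `c2 z`, `ht z`: with `(c, ν, t) = g z`: `|c| = 2 |c1 z| |c2 z|`, `1 - |c|² = |fh z|²`, so `E + i F = |fh z| ex t = fh z`, `E = |c1|² - |c2|²`, `F = ht √(2 - ht²)`, `S = √(1-F²) = 1 - ht²`
  (`1 - F² = (1 - ht²)²`), `S = |c1|² + |c2|²` (`RSG.S4_sq`), `(S - E)/2 = |c2|²`, `F/√(1+S) = ht`.  `RSG.S4_ext`-like lemma: see `LKT/TwZ`, `LKT/TwD`.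
* `CapS_inj0`: `fh` determines `t` modulo `1`.
-/

open scoped ContDiff Manifold Topology
open Set Filter
open Complex (I)
open Pool.Agent.RSG (E3 E4 S2 S3 S4 ex cj c1 c2 ht fh pS3 pS4)
open Pool.Agent.RBM (ThickT OnT Box)
open Pool.Agent.LKF (OnF)
open Pool.Agent.PTH (SP ISP)
open Pool.Agent.KNH (circ)
open Pool.Agent.LKT (s1 s2)

namespace Pool.Agent.MMV

theorem tcp_w {c : ℂ} (hc : ‖c‖ < 1) : 0 < 1 - ‖c‖ ^ 2 := by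
  nlinarith [norm_nonneg c]

theorem tcp_E {c : ℂ} {t : ℝ} (hc : ‖c‖ < 1) (ht0 : Real.cos (2 * Real.pi * t) < 0) : cE c t < 0 := by
  unfold cE
  exact mul_neg_of_pos_of_neg (Real.sqrt_pos.2 (tcp_w hc)) ht0

theorem tcp_EF {c : ℂ} (t : ℝ) (hc : ‖c‖ < 1) : cE c t ^ 2 + cF c t ^ 2 = 1 - ‖c‖ ^ 2 := by
  unfold cE cF
  rw [mul_pow, mul_pow, Real.sq_sqrt (tcp_w hc).le]
  linear_combination (1 - ‖c‖ ^ 2) * Real.cos_sq_add_sin_sq (2 * Real.pi * t)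

theorem tcp_F1 {c : ℂ} {t : ℝ} (hc : ‖c‖ < 1) (ht0 : Real.cos (2 * Real.pi * t) < 0) : 0 < 1 - cF c t ^ 2 := by
  have h1 := tcp_EF t hc
  have h2 := tcp_E hc ht0
  nlinarith [sq_nonneg ‖c‖, mul_pos_of_neg_of_neg h2 h2]

theorem tcp_S2 {c : ℂ} {t : ℝ} (hc : ‖c‖ < 1) (ht0 : Real.cos (2 * Real.pi * t) < 0) :
    cS c t ^ 2 = 1 - cF c t ^ 2 := by
  unfold cS
  exact Real.sq_sqrt (tcp_F1 hc ht0).le

theorem tcp_S {c : ℂ} {t : ℝ} (hc : ‖c‖ < 1) (ht0 : Real.cos (2 * Real.pi * t) < 0) : 0 < cS c t := by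
  unfold cS
  exact Real.sqrt_pos.2 (tcp_F1 hc ht0)

theorem tcp_d {c : ℂ} {t : ℝ} (hc : ‖c‖ < 1) (ht0 : Real.cos (2 * Real.pi * t) < 0) : 0 < cS c t - cE c t := by
  have h1 := tcp_E hc ht0
  have h2 := tcp_S hc ht0
  linarith

theorem tcp_r {c : ℂ} {t : ℝ} (hc : ‖c‖ < 1) (ht0 : Real.cos (2 * Real.pi * t) < 0) :
    0 < Real.sqrt (2 * (cS c t - cE c t)) := by
  have := tcp_d hc ht0
  exact Real.sqrt_pos.2 (by linarith)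

/-- the three coordinates -/
theorem tcp_c {c : ℂ} (ν : ℝ) {t : ℝ} (hc : ‖c‖ < 1) (ht0 : Real.cos (2 * Real.pi * t) < 0) :
    c1 (CapS (c, ν, t)) = (1 / Real.sqrt (2 * (cS c t - cE c t)) : ℝ) * c ∧
      c2 (CapS (c, ν, t)) = (Real.sqrt ((cS c t - cE c t) / 2) : ℝ) * ex (1 / 2 - ν) ∧
      ht (CapS (c, ν, t)) = cF c t / Real.sqrt (1 + cS c t) := by
  have hd := tcp_d hc ht0
  have hS := tcp_S hc ht0
  have hS2 := tcp_S2 hc ht0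
  have hEF := tcp_EF t hc
  unfold CapS
  apply RSG.pS4_c
  dsimp only
  rw [norm_mul, norm_mul, RSG.ex_norm, mul_one, Complex.norm_real, Complex.norm_real, Real.norm_eq_abs,
    Real.norm_eq_abs, sq_abs, mul_pow, sq_abs, div_pow, div_pow, Real.sq_sqrt (by positivity),
    Real.sq_sqrt (by positivity), Real.sq_sqrt (by positivity)]
  have h1 : 1 ^ 2 / (2 * (cS c t - cE c t)) * ‖c‖ ^ 2 = (cS c t + cE c t) / 2 := by
    rw [div_mul_eq_mul_div, div_eq_iff (by positivity)]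
    nlinarith
  have h2 : cF c t ^ 2 / (1 + cS c t) = 1 - cS c t := by
    rw [div_eq_iff (by positivity)]
    nlinarith
  rw [h1, h2]
  ring

theorem tcp_two {c : ℂ} {t : ℝ} (hc : ‖c‖ < 1) (ht0 : Real.cos (2 * Real.pi * t) < 0) :
    2 * Real.sqrt ((cS c t - cE c t) / 2) = Real.sqrt (2 * (cS c t - cE c t)) := by
  have hd := tcp_d hc ht0
  have e : 2 * (cS c t - cE c t) = 2 ^ 2 * ((cS c t - cE c t) / 2) := by ring
  rw [e, Real.sqrt_mul (by norm_num), Real.sqrt_sq (by norm_num)]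

theorem tcp_n2 {c : ℂ} (ν : ℝ) {t : ℝ} (hc : ‖c‖ < 1) (ht0 : Real.cos (2 * Real.pi * t) < 0) :
    2 * ‖c2 (CapS (c, ν, t))‖ = Real.sqrt (2 * (cS c t - cE c t)) := by
  rw [(tcp_c ν hc ht0).2.1, norm_mul, RSG.ex_norm, mul_one, Complex.norm_real, Real.norm_eq_abs,
    abs_of_nonneg (Real.sqrt_nonneg _), tcp_two hc ht0]

theorem tcp_c2 {c : ℂ} (ν : ℝ) {t : ℝ} (hc : ‖c‖ < 1) (ht0 : Real.cos (2 * Real.pi * t) < 0) :
    c2 (CapS (c, ν, t)) ≠ 0 := by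
  intro h0
  have h1 := tcp_n2 ν hc ht0
  have h2 := tcp_r hc ht0
  rw [h0, norm_zero, mul_zero] at h1
  exact h2.ne h1

theorem tcp_back {c : ℂ} (ν : ℝ) {t : ℝ} (hc : ‖c‖ < 1) (ht0 : Real.cos (2 * Real.pi * t) < 0) :
    ((2 * ‖c2 (CapS (c, ν, t))‖ : ℝ) : ℂ) * c1 (CapS (c, ν, t)) = c := by
  have h2 := tcp_r hc ht0
  rw [tcp_n2 ν hc ht0, (tcp_c ν hc ht0).1, ← mul_assoc, ← Complex.ofReal_mul, mul_one_div, div_self h2.ne',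
    Complex.ofReal_one, one_mul]

theorem tcp_fh {c : ℂ} (ν : ℝ) {t : ℝ} (hc : ‖c‖ < 1) (ht0 : Real.cos (2 * Real.pi * t) < 0) :
    fh (CapS (c, ν, t)) = (Real.sqrt (1 - ‖c‖ ^ 2) : ℝ) * ex t := by
  obtain ⟨e1, e2, e3⟩ := tcp_c ν hc ht0
  have hd := tcp_d hc ht0
  have hS := tcp_S hc ht0
  have hS2 := tcp_S2 hc ht0
  have hEF := tcp_EF t hc
  have n1 : ‖c1 (CapS (c, ν, t))‖ ^ 2 = (cS c t + cE c t) / 2 := by
    rw [e1, norm_mul, Complex.norm_real, Real.norm_eq_abs, mul_pow, sq_abs, div_pow, Real.sq_sqrt (by positivity)]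
    rw [div_mul_eq_mul_div, div_eq_iff (by positivity)]
    nlinarith
  have n2 : ‖c2 (CapS (c, ν, t))‖ ^ 2 = (cS c t - cE c t) / 2 := by
    rw [e2, norm_mul, RSG.ex_norm, mul_one, Complex.norm_real, Real.norm_eq_abs, sq_abs, Real.sq_sqrt (by positivity)]
  have n3 : 2 - ht (CapS (c, ν, t)) ^ 2 = 1 + cS c t := by
    have h := RSG.S4_sq (CapS (c, ν, t))
    linarith
  unfold fh
  rw [n1, n2, n3, e3, div_mul_cancel₀ _ (Real.sqrt_pos.2 (by positivity)).ne']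
  apply Complex.ext
  · rw [Complex.re_ofReal_mul, RSG.ex_re]
    show (cS c t + cE c t) / 2 - (cS c t - cE c t) / 2 = cE c t
    ring
  · rw [Complex.im_ofReal_mul, RSG.ex_im]
    rfl

theorem CapS_facts {c : ℂ} {ν t : ℝ} (hc : ‖c‖ < 1) (ht0 : Real.cos (2 * Real.pi * t) < 0) :
    0 < cS c t - cE c t ∧ c1 (CapS (c, ν, t)) = (1 / Real.sqrt (2 * (cS c t - cE c t)) : ℝ) * c ∧
      c2 (CapS (c, ν, t)) = (Real.sqrt ((cS c t - cE c t) / 2) : ℝ) * ex (1 / 2 - ν) ∧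
      fh (CapS (c, ν, t)) = (Real.sqrt (1 - ‖c‖ ^ 2) : ℝ) * ex t ∧
      2 * ‖c1 (CapS (c, ν, t))‖ * ‖c2 (CapS (c, ν, t))‖ = ‖c‖ := by
  refine ⟨tcp_d hc ht0, (tcp_c ν hc ht0).1, (tcp_c ν hc ht0).2.1, tcp_fh ν hc ht0, ?_⟩
  have h := congrArg norm (tcp_back ν hc ht0)
  rw [norm_mul, Complex.norm_real, Real.norm_eq_abs, abs_of_nonneg (by positivity)] at h
  linarith

theorem CapS_fh {c : ℂ} {ν t : ℝ} (hc : ‖c‖ < 1) (ht0 : Real.cos (2 * Real.pi * t) < 0) : fh (CapS (c, ν, t)) ≠ 0 := by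
  rw [tcp_fh ν hc ht0]
  refine mul_ne_zero ?_ (RSG.ex_ne _)
  exact_mod_cast (Real.sqrt_pos.2 (tcp_w hc)).ne'

theorem CapS_per (c : ℂ) (ν t : ℝ) (k : ℤ) : CapS (c, ν, t + k) = CapS (c, ν, t) := by
  have h1 : Real.cos (2 * Real.pi * (t + k)) = Real.cos (2 * Real.pi * t) := by
    rw [← RSG.ex_re, ← RSG.ex_re, RSG.ex_add_int]
  have h2 : Real.sin (2 * Real.pi * (t + k)) = Real.sin (2 * Real.pi * t) := by
    rw [← RSG.ex_im, ← RSG.ex_im, RSG.ex_add_int]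
  have hE : cE c (t + k) = cE c t := by unfold cE; rw [h1]
  have hF : cF c (t + k) = cF c t := by unfold cF; rw [h2]
  have hS : cS c (t + k) = cS c t := by unfold cS; rw [hF]
  unfold CapS
  dsimp only
  rw [hE, hF, hS]

theorem CapS_inj0 {t t' : ℝ} (h : Real.cos (2 * Real.pi * t) < 0) (h' : Real.cos (2 * Real.pi * t') < 0)
    (he : CapS (0, 0, t) = CapS (0, 0, t')) : ∃ k : ℤ, t' = t + k := by
  have h0 : ‖(0 : ℂ)‖ < 1 := by rw [norm_zero]; exact one_pos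
  have h1 := tcp_fh 0 h0 h
  rw [he, tcp_fh 0 h0 h'] at h1
  have h2 : ((Real.sqrt (1 - ‖(0 : ℂ)‖ ^ 2) : ℝ) : ℂ) ≠ 0 := by
    exact_mod_cast (Real.sqrt_pos.2 (tcp_w h0)).ne'
  exact RSG.ex_eq_iff.1 (mul_left_cancel₀ h2 h1).symm

/-- a point of the twin with given coordinates -/
theorem tcp_of {z : S4} (h2 : c2 z ≠ 0) {ν t : ℝ} (hν : c2 z = (‖c2 z‖ : ℝ) * ex (1 / 2 - ν))
    (hl : fh z = (‖fh z‖ : ℝ) * ex t) : CapS ((2 * ‖c2 z‖ : ℝ) * c1 z, ν, t) = z := by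
  have hn : 0 < ‖c2 z‖ := norm_pos_iff.2 h2
  have hS4 := RSG.S4_sq z
  have hsq := RSG.fh_sq z
  set c : ℂ := (2 * ‖c2 z‖ : ℝ) * c1 z with hcdef
  have hcn : ‖c‖ ^ 2 = (2 * ‖c1 z‖ * ‖c2 z‖) ^ 2 := by
    rw [hcdef, norm_mul, Complex.norm_real, Real.norm_eq_abs, abs_of_nonneg (by positivity)]
    ring
  have hw : Real.sqrt (1 - ‖c‖ ^ 2) = ‖fh z‖ := by
    rw [hcn, ← hsq, add_sub_cancel_right, Real.sqrt_sq (norm_nonneg _)]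
  have hE : cE c t = ‖c1 z‖ ^ 2 - ‖c2 z‖ ^ 2 := by
    have h := congrArg Complex.re hl
    rw [Complex.re_ofReal_mul, RSG.ex_re] at h
    unfold cE
    rw [hw, ← h]
    rfl
  have hp : 0 ≤ 2 - ht z ^ 2 := by nlinarith [sq_nonneg ‖c1 z‖, sq_nonneg ‖c2 z‖]
  have hp' : 0 < 2 - ht z ^ 2 := by nlinarith [sq_nonneg ‖c1 z‖, sq_nonneg ‖c2 z‖]
  have hF : cF c t = ht z * Real.sqrt (2 - ht z ^ 2) := by
    have h := congrArg Complex.im hl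
    rw [Complex.im_ofReal_mul, RSG.ex_im] at h
    unfold cF
    rw [hw, ← h]
    rfl
  have hS : cS c t = ‖c1 z‖ ^ 2 + ‖c2 z‖ ^ 2 := by
    unfold cS
    rw [hF, mul_pow, Real.sq_sqrt hp]
    have e : 1 - ht z ^ 2 * (2 - ht z ^ 2) = (‖c1 z‖ ^ 2 + ‖c2 z‖ ^ 2) ^ 2 := by
      have : ‖c1 z‖ ^ 2 + ‖c2 z‖ ^ 2 = 1 - ht z ^ 2 := by linarith
      rw [this]
      ring
    rw [e, Real.sqrt_sq (by positivity)]
  have e1 : Real.sqrt (2 * (cS c t - cE c t)) = 2 * ‖c2 z‖ := by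
    rw [hS, hE]
    have : 2 * (‖c1 z‖ ^ 2 + ‖c2 z‖ ^ 2 - (‖c1 z‖ ^ 2 - ‖c2 z‖ ^ 2)) = (2 * ‖c2 z‖) ^ 2 := by ring
    rw [this, Real.sqrt_sq (by positivity)]
  have e2 : Real.sqrt ((cS c t - cE c t) / 2) = ‖c2 z‖ := by
    rw [hS, hE]
    have : (‖c1 z‖ ^ 2 + ‖c2 z‖ ^ 2 - (‖c1 z‖ ^ 2 - ‖c2 z‖ ^ 2)) / 2 = ‖c2 z‖ ^ 2 := by ring
    rw [this, Real.sqrt_sq (by positivity)]
  have e3 : 1 + cS c t = 2 - ht z ^ 2 := by
    rw [hS]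
    linarith
  unfold CapS
  dsimp only
  rw [e1, e2, e3, hF, ← hν, mul_div_cancel_right₀ _ (Real.sqrt_pos.2 hp').ne']
  have e5 : ((1 / (2 * ‖c2 z‖) : ℝ) : ℂ) * c = c1 z := by
    rw [hcdef, ← mul_assoc, ← Complex.ofReal_mul, one_div, inv_mul_cancel₀ (by positivity),
      Complex.ofReal_one, one_mul]
  rw [e5]
  exact RSG.pS4_self z

/-! smoothness -/

theorem tcp_open : IsOpen {q : ℂ × ℝ × ℝ | ‖q.1‖ < 1 ∧ Real.cos (2 * Real.pi * q.2.2) < 0} := by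
  have h1 : IsOpen {q : ℂ × ℝ × ℝ | ‖q.1‖ < 1} := isOpen_lt (by fun_prop) continuous_const
  have h2 : IsOpen {q : ℂ × ℝ × ℝ | Real.cos (2 * Real.pi * q.2.2) < 0} := isOpen_lt (by fun_prop) continuous_const
  exact h1.inter h2

theorem tcp_smooth {q : ℂ × ℝ × ℝ} (hc : ‖q.1‖ < 1) (ht0 : Real.cos (2 * Real.pi * q.2.2) < 0) :
    ContMDiffAt 𝓘(ℝ, ℂ × ℝ × ℝ) (𝓡 4) ∞ CapS q := by
  have hw : ContDiffAt ℝ ∞ (fun q : ℂ × ℝ × ℝ => Real.sqrt (1 - ‖q.1‖ ^ 2)) q := by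
    have h3 : ContDiffAt ℝ ∞ (fun c : ℂ => Real.sqrt (1 - ‖c‖ ^ 2)) q.1 :=
      (contDiffAt_const.sub (contDiff_norm_sq ℝ).contDiffAt).sqrt (tcp_w hc).ne'
    exact ContDiffAt.comp q (g := fun c : ℂ => Real.sqrt (1 - ‖c‖ ^ 2)) h3 contDiffAt_fst
  have hcos : ContDiffAt ℝ ∞ (fun q : ℂ × ℝ × ℝ => Real.cos (2 * Real.pi * q.2.2)) q := by fun_prop
  have hsin : ContDiffAt ℝ ∞ (fun q : ℂ × ℝ × ℝ => Real.sin (2 * Real.pi * q.2.2)) q := by fun_prop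
  have hE : ContDiffAt ℝ ∞ (fun q : ℂ × ℝ × ℝ => cE q.1 q.2.2) q := hw.mul hcos
  have hF : ContDiffAt ℝ ∞ (fun q : ℂ × ℝ × ℝ => cF q.1 q.2.2) q := hw.mul hsin
  have hS : ContDiffAt ℝ ∞ (fun q : ℂ × ℝ × ℝ => cS q.1 q.2.2) q := by
    refine ContDiffAt.sqrt (contDiffAt_const.sub (hF.pow 2)) ?_
    exact (tcp_F1 hc ht0).ne'
  have hd := tcp_d hc ht0
  have hr := tcp_r hc ht0
  have hSp := tcp_S hc ht0
  have h1 : ContDiffAt ℝ ∞ (fun q : ℂ × ℝ × ℝ => Real.sqrt (2 * (cS q.1 q.2.2 - cE q.1 q.2.2))) q := by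
    refine ContDiffAt.sqrt (contDiffAt_const.mul (hS.sub hE)) ?_
    exact (mul_pos two_pos hd).ne'
  have h2 : ContDiffAt ℝ ∞ (fun q : ℂ × ℝ × ℝ => Real.sqrt ((cS q.1 q.2.2 - cE q.1 q.2.2) / 2)) q := by
    refine ContDiffAt.sqrt ((hS.sub hE).div_const 2) ?_
    exact (half_pos hd).ne'
  have h3 : ContDiffAt ℝ ∞ (fun q : ℂ × ℝ × ℝ => Real.sqrt (1 + cS q.1 q.2.2)) q := by
    refine ContDiffAt.sqrt (contDiffAt_const.add hS) ?_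
    exact (add_pos one_pos hSp).ne'
  have h4 : ContDiffAt ℝ ∞ (fun q : ℂ × ℝ × ℝ => cF q.1 q.2.2 / Real.sqrt (1 + cS q.1 q.2.2)) q :=
    hF.div h3 (Real.sqrt_pos.2 (add_pos one_pos hSp)).ne'
  have h5 : ContDiffAt ℝ ∞ (fun q : ℂ × ℝ × ℝ => 1 / Real.sqrt (2 * (cS q.1 q.2.2 - cE q.1 q.2.2))) q :=
    contDiffAt_const.div h1 hr.ne'
  have hex : ContDiffAt ℝ ∞ (fun q : ℂ × ℝ × ℝ => ex (1 / 2 - q.2.1)) q :=
    (RSG.ex_smooth.contDiffAt).comp q (by fun_prop)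
  have ha : ContDiffAt ℝ ∞ (fun q : ℂ × ℝ × ℝ =>
      ((1 / Real.sqrt (2 * (cS q.1 q.2.2 - cE q.1 q.2.2)) : ℝ) : ℂ) * q.1) q :=
    ((Complex.ofRealCLM.contDiff.contDiffAt).comp q h5).mul contDiffAt_fst
  have hb : ContDiffAt ℝ ∞ (fun q : ℂ × ℝ × ℝ =>
      ((Real.sqrt ((cS q.1 q.2.2 - cE q.1 q.2.2) / 2) : ℝ) : ℂ) * ex (1 / 2 - q.2.1)) q :=
    ((Complex.ofRealCLM.contDiff.contDiffAt).comp q h2).mul hex
  refine RSG.pS4_smooth ha.contMDiffAt hb.contMDiffAt h4.contMDiffAt ?_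
  have h6 : 0 < ‖((Real.sqrt ((cS q.1 q.2.2 - cE q.1 q.2.2) / 2) : ℝ) : ℂ) * ex (1 / 2 - q.2.1)‖ := by
    rw [norm_mul, RSG.ex_norm, mul_one, Complex.norm_real, Real.norm_eq_abs]
    exact abs_pos.2 (Real.sqrt_pos.2 (half_pos hd)).ne'
  positivity

theorem tcp_n2s {z : S4} (h2 : c2 z ≠ 0) : ContMDiffAt (𝓡 4) 𝓘(ℝ, ℂ) ∞ (fun z : S4 => ((2 * ‖c2 z‖ : ℝ) : ℂ) * c1 z) z := by
  have h3 : ContMDiffAt (𝓡 4) 𝓘(ℝ, ℝ) ∞ (fun z : S4 => ‖c2 z‖) z :=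
    ((contDiffAt_norm ℝ h2).contMDiffAt).comp z (RSG.c2_smooth z)
  have h4 : ContDiff ℝ ∞ (fun p : ℝ × ℂ => ((2 * p.1 : ℝ) : ℂ) * p.2) :=
    (Complex.ofRealCLM.contDiff.comp (contDiff_const.mul contDiff_fst)).mul contDiff_snd
  exact (h4.contMDiff _).comp z (h3.prodMk_space (RSG.c1_smooth z))

theorem CapS_ld {c : ℂ} {ν t : ℝ} (hc : ‖c‖ < 1) (ht0 : Real.cos (2 * Real.pi * t) < 0) :
    IsLocalDiffeomorphAt 𝓘(ℝ, ℂ × ℝ × ℝ) (𝓡 4) ∞ CapS (c, ν, t) := by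
  have hD : ∀ᶠ y : ℂ × ℝ × ℝ in 𝓝 (c, ν, t), ‖y.1‖ < 1 ∧ Real.cos (2 * Real.pi * y.2.2) < 0 :=
    tcp_open.mem_nhds (show (c, ν, t) ∈ {q : ℂ × ℝ × ℝ | ‖q.1‖ < 1 ∧ Real.cos (2 * Real.pi * q.2.2) < 0} from ⟨hc, ht0⟩)
  have hc2 : ContinuousAt c2 (CapS (c, ν, t)) := RSG.c2_smooth.continuous.continuousAt
  have hfh : ContinuousAt fh (CapS (c, ν, t)) := RSG.fh_smooth.continuous.continuousAt
  have ha : ∀ᶠ z in 𝓝 (CapS (c, ν, t)), fh z ≠ 0 := hfh.eventually_ne (CapS_fh hc ht0)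
  have hb : ∀ᶠ z in 𝓝 (CapS (c, ν, t)), c2 z ≠ 0 := hc2.eventually_ne (tcp_c2 ν hc ht0)
  refine RSG.ld_two (g := fun z => (((2 * ‖c2 z‖ : ℝ) : ℂ) * c1 z, 1 / 2 - LKT.lf (1 / 2 - ν) (c2 z), LKT.lf t (fh z)))
    ?_ ?_ ?_ ?_
  · filter_upwards [hD] with y hy using tcp_smooth hy.1 hy.2
  · have hs1 : ∀ᶠ z in 𝓝 (CapS (c, ν, t)), fh z * ex (-t) ∈ Complex.slitPlane := by
      apply hfh.eventually (p := fun e => e * ex (-t) ∈ Complex.slitPlane)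
      refine LKT.lf_near (CapS_fh hc ht0) ?_
      rw [tcp_fh ν hc ht0, norm_mul, RSG.ex_norm, mul_one, Complex.norm_real, Real.norm_eq_abs,
        abs_of_nonneg (Real.sqrt_nonneg _)]
    have hs2 : ∀ᶠ z in 𝓝 (CapS (c, ν, t)), c2 z * ex (-(1 / 2 - ν)) ∈ Complex.slitPlane := by
      apply hc2.eventually (p := fun e => e * ex (-(1 / 2 - ν)) ∈ Complex.slitPlane)
      refine LKT.lf_near (tcp_c2 ν hc ht0) ?_
      rw [(tcp_c ν hc ht0).2.1, norm_mul, RSG.ex_norm, mul_one, Complex.norm_real, Real.norm_eq_abs,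
        abs_of_nonneg (Real.sqrt_nonneg _)]
    filter_upwards [ha, hb, hs1, hs2] with z h1 h2 h3 h4
    have k1 : ContMDiffAt (𝓡 4) 𝓘(ℝ, ℝ) ∞ (fun z => LKT.lf t (fh z)) z :=
      ContMDiffAt.comp z (g := LKT.lf t) ((LKT.lf_smooth h3).contMDiffAt) (RSG.fh_smooth z)
    have k2 : ContMDiffAt (𝓡 4) 𝓘(ℝ, ℝ) ∞ (fun z => 1 / 2 - LKT.lf (1 / 2 - ν) (c2 z)) z :=
      ContMDiffAt.comp z (g := fun e => 1 / 2 - LKT.lf (1 / 2 - ν) e)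
        ((contDiffAt_const.sub (LKT.lf_smooth h4)).contMDiffAt) (RSG.c2_smooth z)
    exact (tcp_n2s h2).prodMk_space (k2.prodMk_space k1)
  · have hl : ∀ᶠ y : ℂ × ℝ × ℝ in 𝓝 (c, ν, t), |(1 / 2 - y.2.1) - (1 / 2 - ν)| < 1 / 2 := by
      have : ContinuousAt (fun y : ℂ × ℝ × ℝ => |(1 / 2 - y.2.1) - (1 / 2 - ν)|) (c, ν, t) := by fun_prop
      apply this.eventually_lt_const
      simp
    have hu : ∀ᶠ y : ℂ × ℝ × ℝ in 𝓝 (c, ν, t), |y.2.2 - t| < 1 / 2 := by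
      have : ContinuousAt (fun y : ℂ × ℝ × ℝ => |y.2.2 - t|) (c, ν, t) := by fun_prop
      apply this.eventually_lt_const
      simp
    filter_upwards [hD, hl, hu] with y hy h1 h2
    obtain ⟨c', ν', t'⟩ := y
    have hd := tcp_d hy.1 hy.2
    have e1 : LKT.lf (1 / 2 - ν) (c2 (CapS (c', ν', t'))) = 1 / 2 - ν' := by
      rw [(tcp_c ν' hy.1 hy.2).2.1, LKT.lf_mul (Real.sqrt_pos.2 (half_pos hd)), LKT.lf_ex h1]
    have e2 : LKT.lf t (fh (CapS (c', ν', t'))) = t' := by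
      rw [tcp_fh ν' hy.1 hy.2, LKT.lf_mul (Real.sqrt_pos.2 (tcp_w hy.1)), LKT.lf_ex h2]
    show (((2 * ‖c2 (CapS (c', ν', t'))‖ : ℝ) : ℂ) * c1 (CapS (c', ν', t')), 1 / 2 - LKT.lf (1 / 2 - ν) (c2 (CapS (c', ν', t'))),
      LKT.lf t (fh (CapS (c', ν', t')))) = (c', ν', t')
    rw [tcp_back ν' hy.1 hy.2, e1, e2, sub_sub_cancel]
  · filter_upwards [ha, hb] with z h1 h2
    have n1 : ((‖fh z‖ : ℝ) : ℂ) ≠ 0 := by exact_mod_cast norm_ne_zero_iff.2 h1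
    have n2 : ((‖c2 z‖ : ℝ) : ℂ) ≠ 0 := by exact_mod_cast norm_ne_zero_iff.2 h2
    apply tcp_of h2
    · rw [sub_sub_cancel, LKT.ex_lf h2]
      field_simp
    · rw [LKT.ex_lf h1]
      field_simp

end Pool.Agent.MMV
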