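import Pool.Agent.MMV.Defs
import Pool.Agent.CSG.FunBasic

/-!
# MMV/TDef: block I (torus move), definitions

`Nf`: the structure `FT` for two tori (slopes in normal form: the dual column of each torus is the reflected first column of the other one) and the twin of the strip.
The disc `EEt`: `p` is the parameter of the disc; `y = (5 / (8 |p|)) ex m` is a coordinate on the sphere (`y = 0`: first torus, `y = ∞`: second torus, `y = -1`: centre of the cap in the twin).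
-/

open scoped ContDiff Manifold Topology
open Set Filter
open Complex (I)
open Pool.Agent.RSG (E3 E4 S2 S3 S4 ex cj c1 c2 ht fh pS3 pS4)
open Pool.Agent.RBM (ThickT OnT Box)
open Pool.Agent.LKF (OnF)
open Pool.Agent.PTH (SP ISP)
open Pool.Agent.KNH (circ)
open Pool.Agent.LKT (s1 s2)

namespace Pool.Agent.MMV

open Pool.Agent.CSG (stp)
open Pool.Agent.RBM (frc)

/-- `arg / 2π` -/
noncomputable def an (p : ℂ) : ℝ := Complex.arg p / (2 * Real.pi)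

/-! ## planar map -/

/-- step: `1` for `ρ ≤ 4`, `0` for `ρ ≥ 14` -/
noncomputable def hst (ρ : ℝ) : ℝ := 1 - stp 4 14 ρ

/-- `w ↦ -1 + 2 / (w + h |w|)` -/
noncomputable def Zw (w : ℂ) : ℂ := -1 + 2 / (w + (hst ‖w‖ : ℝ))

open Classical in
/-- position in the plane of the box of the point `y` of the sphere: `-1 + 2 y` near `0`, `1 - 2 / y` near infinity, `(y - 1) / (y + 1)` for `1/4 ≤ |y| ≤ 4` -/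
noncomputable def Zy (y : ℂ) : ℂ := if ‖y‖ ≤ 1 then Zw y⁻¹ else -Zw y

/-- coordinate near `y = -1`: `1 / conj Z` -/
noncomputable def cy (y : ℂ) : ℂ := (starRingEnd ℂ) ((y + 1) / (y - 1))

/-! ## the push -/

/-- `1/10 + x/2` for `x ≤ 1/5`, `x` for `x ≥ 6/25` -/
noncomputable def fN (x : ℝ) : ℝ := (1 - stp (1 / 5) (6 / 25) x) * (1 / 10 + x / 2) + stp (1 / 5) (6 / 25) x * x

/-- square of the distance to `(0, 0)` -/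
noncomputable def N2 (c : ℂ) (t : ℝ) : ℝ := ‖c‖ ^ 2 + frc t ^ 2

noncomputable def sgm (c : ℂ) (t : ℝ) : ℝ := Real.sqrt (fN (N2 c t) / N2 c t)

/-- radial push off `(0, ℤ)` -/
noncomputable def pu (q : ℂ × ℝ) : ℂ × ℝ := ((sgm q.1 q.2 : ℝ) * q.1, q.2 + (sgm q.1 q.2 - 1) * frc q.2)

/-! ## position in the box -/

/-- the point `(z, s)` of the box: `(Z, ν / η)` for `|Z| ≤ 3/2`, in the coordinates of the thick torus `κγ` for `|Z| ≥ 7/4` -/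
noncomputable def Pos (η : ℝ) (q : ℂ × ℝ) : ℂ × ℝ :=
  (((1 - stp (3 / 2) (7 / 4) ‖q.1‖) + stp (3 / 2) (7 / 4) ‖q.1‖ * ((5 / 2 - Real.cos (2 * Real.pi * q.2) / (2 * ‖q.1‖)) / ‖q.1‖) : ℝ) * q.1,
    (1 - stp (3 / 2) (7 / 4) ‖q.1‖) * (q.2 / η) + stp (3 / 2) (7 / 4) ‖q.1‖ * (Real.sin (2 * Real.pi * q.2) / (2 * ‖q.1‖)))

/-! ## the cap in the twin -/

/-- `E + i F = √(1 - |c|²) ex t` -/
noncomputable def cE (c : ℂ) (t : ℝ) : ℝ := Real.sqrt (1 - ‖c‖ ^ 2) * Real.cos (2 * Real.pi * t)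
noncomputable def cF (c : ℂ) (t : ℝ) : ℝ := Real.sqrt (1 - ‖c‖ ^ 2) * Real.sin (2 * Real.pi * t)
noncomputable def cS (c : ℂ) (t : ℝ) : ℝ := Real.sqrt (1 - cF c t ^ 2)

/-- the point of the twin with coordinates `c` (near the sphere `c1 = 0`), `ν` and the time `t`, `1/4 < t < 3/4` (modulo 1) -/
noncomputable def CapS (q : ℂ × ℝ × ℝ) : S4 :=
  pS4 ((1 / Real.sqrt (2 * (cS q.1 q.2.2 - cE q.1 q.2.2)) : ℝ) * q.1)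
    ((Real.sqrt ((cS q.1 q.2.2 - cE q.1 q.2.2) / 2) : ℝ) * ex (1 / 2 - q.2.1))
    (cF q.1 q.2.2 / Real.sqrt (1 + cS q.1 q.2.2))

section defs
variable {E : Type*} [NormedAddCommGroup E] [NormedSpace ℝ E] {H : Type*} [TopologicalSpace H]
  (J : ModelWithCorners ℝ E H)
  {P : Type*} [TopologicalSpace P] [ChartedSpace H P]

/-- `p` is off the three tori -/
def Off3 (κ₁ κ₂ : ℝ × ℂ × ℝ → P) (b : ℂ × ℝ × ℝ → P) (p : P) : Prop := ¬ OnT κ₁ p ∧ ¬ OnT κ₂ p ∧ ¬ OnT (κγ b) p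

/-- the structure `FT` for two tori and the twin of the strip, slopes in normal form -/
structure Nf (κ₁ κ₂ : ℝ × ℂ × ℝ → P) (b : ℂ × ℝ × ℝ → P) (a₁ c₁' a₂ c₂' : ℤ) (X : Type*) [TopologicalSpace X]
    [ChartedSpace E4 X] where
  A : P → X
  F₁ : ℝ × ℝ × ℂ → X
  F₂ : ℝ × ℝ × ℂ → X
  Q : S4 → X
  A_loc : ∀ p, Off3 κ₁ κ₂ b p → IsLocalDiffeomorphAt J (𝓡 4) ∞ A p
  A_inj : ∀ p p', Off3 κ₁ κ₂ b p → Off3 κ₁ κ₂ b p' → A p = A p' → p = p'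
  per₁ : ∀ (l s : ℝ) (ξ : ℂ), ‖ξ‖ < 1 → F₁ (l + 1, s, ξ) = F₁ (l, s, ξ) ∧ F₁ (l, s + 1, ξ) = F₁ (l, s, ξ)
  per₂ : ∀ (l s : ℝ) (ξ : ℂ), ‖ξ‖ < 1 → F₂ (l + 1, s, ξ) = F₂ (l, s, ξ) ∧ F₂ (l, s + 1, ξ) = F₂ (l, s, ξ)
  loc₁ : ∀ (l s : ℝ) (ξ : ℂ), ‖ξ‖ < 1 → IsLocalDiffeomorphAt 𝓘(ℝ, ℝ × ℝ × ℂ) (𝓡 4) ∞ F₁ (l, s, ξ)
  loc₂ : ∀ (l s : ℝ) (ξ : ℂ), ‖ξ‖ < 1 → IsLocalDiffeomorphAt 𝓘(ℝ, ℝ × ℝ × ℂ) (𝓡 4) ∞ F₂ (l, s, ξ)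
  inj₁ : ∀ (l s : ℝ) (ξ : ℂ) (l' s' : ℝ) (ξ' : ℂ), ‖ξ‖ < 1 → ‖ξ'‖ < 1 → F₁ (l, s, ξ) = F₁ (l', s', ξ') →
    ξ = ξ' ∧ (∃ m : ℤ, l' = l + m) ∧ ∃ m : ℤ, s' = s + m
  inj₂ : ∀ (l s : ℝ) (ξ : ℂ) (l' s' : ℝ) (ξ' : ℂ), ‖ξ‖ < 1 → ‖ξ'‖ < 1 → F₂ (l, s, ξ) = F₂ (l', s', ξ') →
    ξ = ξ' ∧ (∃ m : ℤ, l' = l + m) ∧ ∃ m : ℤ, s' = s + m
  ne₁₂ : ∀ (l s : ℝ) (ξ : ℂ) (l' s' : ℝ) (ξ' : ℂ), ‖ξ‖ < 1 → ‖ξ'‖ < 1 → F₁ (l, s, ξ) ≠ F₂ (l', s', ξ')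
  glue₁ : ∀ l s r φ : ℝ, 0 < r → r < 1 → F₁ (l, s, r * ex φ) = A (κ₁ (l, r * ex (a₁ * φ - a₂ * s), c₁' * φ + c₂' * s))
  glue₂ : ∀ l s r φ : ℝ, 0 < r → r < 1 → F₂ (l, s, r * ex φ) = A (κ₂ (l, r * ex (a₂ * φ - a₁ * s), c₂' * φ + c₁' * s))
  Q_loc : ∀ z, fh z ≠ 0 → IsLocalDiffeomorphAt (𝓡 4) (𝓡 4) ∞ Q z
  Q_inj : ∀ z z', fh z ≠ 0 → fh z' ≠ 0 → Q z = Q z' → z = z'
  glueQ : ∀ (z : S4) (l m u : ℝ), fh z ≠ 0 → c1 z ≠ 0 → c2 z ≠ 0 →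
    c1 z = ‖c1 z‖ * ex u → c2 z = ‖c2 z‖ * ex m → fh z = ‖fh z‖ * ex l →
    Q z = A (κγ b (l, (2 * ‖c1 z‖ * ‖c2 z‖ : ℝ) * ex m, u))
  disj₁ : ∀ (l s : ℝ) (p : P), Off3 κ₁ κ₂ b p → F₁ (l, s, 0) ≠ A p
  disj₂ : ∀ (l s : ℝ) (p : P), Off3 κ₁ κ₂ b p → F₂ (l, s, 0) ≠ A p
  disjQ : ∀ (z : S4) (p : P), fh z ≠ 0 → c1 z = 0 ∨ c2 z = 0 → Off3 κ₁ κ₂ b p → Q z ≠ A p
  disjQ₁ : ∀ (l s : ℝ) (z : S4), fh z ≠ 0 → F₁ (l, s, 0) ≠ Q z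
  disjQ₂ : ∀ (l s : ℝ) (z : S4), fh z ≠ 0 → F₂ (l, s, 0) ≠ Q z
  cover : ∀ q, (∃ p, Off3 κ₁ κ₂ b p ∧ q = A p) ∨ (∃ l s, q = F₁ (l, s, 0)) ∨ (∃ l s, q = F₂ (l, s, 0)) ∨
    ∃ z, fh z ≠ 0 ∧ (c1 z = 0 ∨ c2 z = 0) ∧ q = Q z

end defs

section maps
variable {E : Type*} [NormedAddCommGroup E] [NormedSpace ℝ E] {H : Type*} [TopologicalSpace H]
  {J : ModelWithCorners ℝ E H}
  {P : Type*} [TopologicalSpace P] [ChartedSpace H P]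
  {X : Type*} [TopologicalSpace X] [ChartedSpace E4 X] {κ₁ κ₂ : ℝ × ℂ × ℝ → P} {b : ℂ × ℝ × ℝ → P}
  {a₁ c₁' a₂ c₂' : ℤ}

open Classical in
/-- the point with cap coordinates `(c, ν, t)` -/
noncomputable def Kq (D : Nf J κ₁ κ₂ b a₁ c₁' a₂ c₂' X) (q : ℂ × ℝ × ℝ) : X :=
  if q.1 = 0 then D.Q (CapS q) else D.A (κγ b (q.2.2, (‖q.1‖ : ℝ) * ex (1 / 2 - q.2.1), an q.1))

open Classical in
/-- the point with sphere coordinate `y`, thickness coordinate `ν`, time `t` (before the push) -/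
noncomputable def Gy (D : Nf J κ₁ κ₂ b a₁ c₁' a₂ c₂' X) (η : ℝ) (q : ℂ × ℝ × ℝ) : X :=
  if 2 * ‖q.1 + 1‖ < ‖q.1 - 1‖ then Kq D ((pu (cy q.1, q.2.2)).1, q.2.1, (pu (cy q.1, q.2.2)).2)
  else D.A (b ((Pos η (Zy q.1, q.2.1)).1, (Pos η (Zy q.1, q.2.1)).2, q.2.2))

/-- shift: `1/4` for `r ≤ 1`, `0` for `r ≥ 2` -/
noncomputable def sh0 (r : ℝ) : ℝ := 1 / 4 * (1 - stp 1 2 r)

/-- the angles `(m, t) = s (a₁, c₁) + w (-a₂, c₂)` -/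
def mA (a₁ a₂ : ℤ) (s w : ℝ) : ℝ := a₁ * s - a₂ * w
def tA (c₁' c₂' : ℤ) (s w : ℝ) : ℝ := c₁' * s + c₂' * w

/-- the shift of the second torus -/
noncomputable def sh2 (a₁ c₁' a₂ c₂' : ℤ) : ℝ := 1 / 4 - (a₁ * c₂' + c₁' * a₂ : ℤ) * c₂' / 2

open Classical in
/-- the thick disc -/
noncomputable def EEt (D : Nf J κ₁ κ₂ b a₁ c₁' a₂ c₂' X) (l₁ l₂ η : ℝ) (q : ℂ × ℂ) : X :=
  if 9 ≤ ‖q.1‖ then D.F₁ (l₁ + q.2.im, an q.1, (5 / (2 * ‖q.1‖) : ℝ) * ex (-q.2.re))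
  else if q.1 = 0 then D.F₂ (l₂ + q.2.im, -q.2.re + sh2 a₁ c₁' a₂ c₂', 0)
  else Gy D η ((5 / (8 * ‖q.1‖) : ℝ) * ex (mA a₁ a₂ (-q.2.re + sh0 ‖q.1‖) (an q.1)), q.2.im,
    tA c₁' c₂' (-q.2.re + sh0 ‖q.1‖) (an q.1))

open Classical in
/-- the chart of the first torus (cut off at `|ζ| = 1`) -/
noncomputable def Tht (D : Nf J κ₁ κ₂ b a₁ c₁' a₂ c₂' X) (l₁ : ℝ) (q : ℝ × ℝ × ℂ) : X :=
  D.F₁ (l₁ + q.1, q.2.1, if ‖q.2.2‖ < 1 then q.2.2 / 2 else 0)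

end maps

end Pool.Agent.MMV
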