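import Pool.Agent.MMV.TGy

/-!
# MMV/TGi
: injectivity of `Gy` for `ν = 0`   (difficulty 3)

For an admissible `(y, t)` (`y ≠ 0`, `y ≠ -1` or `t` not an integer) put, if `2|y+1| < |y-1|` (cap case): `(c, t') = pu (cy y, t)`, `|c| < 1/2` (`pu_lt`): if `c ≠ 0`: `Gy D η (y, 0, t) = D.A (b (q, 0, t'))`, `q = (5/2 - |c|/2) ex (an c)` (unfold `Kq`, `κγ`: `|c| ex (1/2)` has real part `-|c|`,
imaginary part `0`), `9/4 < |q| < 5/2`; if `c = 0`: `D.Q (CapS (0, 0, t'))`, `cos (2πt') < 0` (`pu_zero`, `pu_cos`), and `c1 = 0` for this point.  Otherwise (outer case): `D.A (b (q, 0, t))`, `q = (Pos η (Zy y, 0)).1`, `|Zy y| ≤ 2` (`Zy_out`), `|q| ≤ 9/4`, `q ≠ ±1`.  All the points `b (q, 0, t)` are off the tori (`off_box`).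
* `Gy_inj`: both outer: `D.A_inj`, `hS.box.inj` (`Pos_inj`, `Zy_inj`; `y ≠ -1` in the outer case).  Both cap, `c, c' ≠ 0`: same `q`, so `|c| = |c'|` and `c = c'` (`RSG.ex_polar`, `RSG.ex_arg`), times equal modulo `1`: `pu_inj`, then `cy y = cy y'`, `y = y'` (`(y+1)/(y-1)` is injective off `1`).
  Outer / cap with `c ≠ 0`: `|q| ≤ 9/4 < |q'|`.  `c = 0` against `D.A`: `D.disjQ` (`CapS_facts`: `c1 = 0`).  Both `c = c' = 0`: `y = y' = -1`, `D.Q_inj`, `CapS_inj0`, so the pushed times agree modulo `1`, `pu_inj`.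
* `Gy_ne₂`: `D.disj₂`, `D.disjQ₂`.
* `Gy_ne₁`: `ξ = 0`: `D.disj₁`, `D.disjQ₁`.  `ξ ≠ 0`: `ξ = |ξ| ex (an ξ)`, `D.glue₁`: `D.F₁ (l, s, ξ) = D.A (κ₁ (l, v, t''))`, `|v| = |ξ| ≤ 1/4`, off the tori (`off_κ₁`).  Against `D.Q`: `D.disjQ`.  Against `D.A (b (q, 0, t'))`: `D.A_inj`, `hit₁`: `q = -1 + v/2`, `|q + 1| ≤ 1/8`;
  outer case: `Zy_dist₁`, `Pos_dist`; cap case `|q| > 9/4`.
-/

open scoped ContDiff Manifold Topology
open Set Filter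
open Complex (I)
open Pool.Agent.RSG (E3 E4 S2 S3 S4 ex cj c1 c2 ht fh pS3 pS4)
open Pool.Agent.RBM (ThickT OnT Box)
open Pool.Agent.LKF (OnF)
open Pool.Agent.PTH (SP ISP)
open Pool.Agent.KNH (circ)
open Pool.Agent.LKT (s1 s2)

namespace Pool.Agent.MMV

theorem tgi_N2 {y : ℂ} {t : ℝ} (hc : 2 * ‖y + 1‖ < ‖y - 1‖) (h : y ≠ -1 ∨ ∀ k : ℤ, t ≠ k) : 0 < N2 (cy y) t := by
  refine N2_pos ?_
  by_cases h1 : y = -1
  · right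
    rcases h with h | h
    · exact absurd h1 h
    · exact h
  · left
    exact fun h2 => h1 ((cy_eq hc).2.1.1 h2)

theorem tgi_polar (c : ℂ) : (‖c‖ : ℂ) * ex (an c) = c := Pool.Agent.RSG.ex_arg

theorem tgi_q {c : ℂ} (hc : ‖c‖ < 1 / 2) : ‖(((5 / 2 - ‖c‖ / 2 : ℝ) : ℂ) * ex (an c))‖ = 5 / 2 - ‖c‖ / 2 := by
  rw [norm_mul, Pool.Agent.RSG.ex_norm, mul_one, Complex.norm_real, Real.norm_eq_abs, abs_of_pos (by linarith)]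

theorem tgi_κγ {P : Type*} (b : ℂ × ℝ × ℝ → P) (c : ℂ) (t u : ℝ) :
    κγ b (t, (‖c‖ : ℝ) * ex (1 / 2 - 0), u) = b (((5 / 2 - ‖c‖ / 2 : ℝ) : ℂ) * ex u, 0, t) := by
  unfold κγ
  rw [sub_zero, Pool.Agent.RSG.ex_half]
  have h1 : (((‖c‖ : ℝ) : ℂ) * -1).re = -‖c‖ := by
    rw [mul_neg_one, Complex.neg_re, Complex.ofReal_re]
  have h2 : (((‖c‖ : ℝ) : ℂ) * -1).im = 0 := by
    rw [mul_neg_one, Complex.neg_im, Complex.ofReal_im, neg_zero]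
  show b (((5 / 2 + (((‖c‖ : ℝ) : ℂ) * -1).re / 2 : ℝ) : ℂ) * ex u, (((‖c‖ : ℝ) : ℂ) * -1).im / 2, t) = _
  rw [h1, h2, zero_div, show (5 / 2 + -‖c‖ / 2 : ℝ) = 5 / 2 - ‖c‖ / 2 by ring]

section
variable {E : Type*} [NormedAddCommGroup E] [NormedSpace ℝ E] {H : Type*} [TopologicalSpace H]
  {J : ModelWithCorners ℝ E H} {P : Type*} [TopologicalSpace P] [ChartedSpace H P]
  {X : Type*} [TopologicalSpace X] [ChartedSpace E4 X] {κ₁ κ₂ : ℝ × ℂ × ℝ → P} {b : ℂ × ℝ × ℝ → P} {l₁ l₂ η : ℝ}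
  {a₁ c₁' a₂ c₂' : ℤ}

/-- the three kinds of points -/
theorem tgi_cls (D : Nf J κ₁ κ₂ b a₁ c₁' a₂ c₂' X) {y : ℂ} {t : ℝ} (hy : y ≠ 0)
    (h : y ≠ -1 ∨ ∀ k : ℤ, t ≠ k) :
    (∃ (q : ℂ) (τ : ℝ), Gy D η (y, 0, t) = D.A (b (q, 0, τ)) ∧ ‖q‖ < 5 / 2 ∧ q ≠ -1 ∧ q ≠ 1 ∧
      ((q = (Pos η (Zy y, 0)).1 ∧ ‖q‖ ≤ 9 / 4 ∧ τ = t ∧ y ≠ -1) ∨
        (9 / 4 < ‖q‖ ∧ 2 * ‖y + 1‖ < ‖y - 1‖ ∧ (pu (cy y, t)).1 ≠ 0 ∧ ‖(pu (cy y, t)).1‖ < 1 / 2 ∧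
          q = ((5 / 2 - ‖(pu (cy y, t)).1‖ / 2 : ℝ) : ℂ) * ex (an (pu (cy y, t)).1) ∧ τ = (pu (cy y, t)).2))) ∨
    (2 * ‖y + 1‖ < ‖y - 1‖ ∧ y = -1 ∧ (pu (cy y, t)).1 = 0 ∧ Real.cos (2 * Real.pi * (pu (cy y, t)).2) < 0 ∧
      Gy D η (y, 0, t) = D.Q (CapS (0, 0, (pu (cy y, t)).2))) := by
  classical
  by_cases hc : 2 * ‖y + 1‖ < ‖y - 1‖
  · have hN := tgi_N2 hc h
    have hlt := pu_lt hN (cy_eq hc).1
    by_cases h0 : (pu (cy y, t)).1 = 0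
    · right
      have h1 : cy y = 0 := (pu_zero hN).1 h0
      have h2 : y = -1 := (cy_eq hc).2.1.1 h1
      refine ⟨hc, h2, h0, ?_, ?_⟩
      · rw [h1] at hN ⊢
        exact pu_cos hN
      · unfold Gy
        simp only
        rw [if_pos hc]
        unfold Kq
        simp only
        rw [if_pos h0, h0]
    · left
      have hq := tgi_q hlt
      have hpos : 0 < ‖(pu (cy y, t)).1‖ := norm_pos_iff.2 h0
      refine ⟨((5 / 2 - ‖(pu (cy y, t)).1‖ / 2 : ℝ) : ℂ) * ex (an (pu (cy y, t)).1), (pu (cy y, t)).2, ?_, ?_, ?_, ?_,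
        Or.inr ⟨?_, hc, h0, hlt, rfl, rfl⟩⟩
      · unfold Gy
        simp only
        rw [if_pos hc]
        unfold Kq
        simp only
        rw [if_neg h0, tgi_κγ]
      · rw [hq]
        linarith
      · intro h1
        rw [h1, norm_neg, norm_one] at hq
        linarith
      · intro h1
        rw [h1, norm_one] at hq
        linarith
      · rw [hq]
        linarith
  · left
    have hout : ‖y - 1‖ ≤ 2 * ‖y + 1‖ := not_lt.1 hc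
    have hy1 : y ≠ -1 := by
      rintro rfl
      rw [neg_add_cancel, norm_zero, mul_zero] at hout
      have h1 := norm_le_zero_iff.1 hout
      norm_num at h1
    have hZ := Zy_out hy hout
    have hZn := Zy_ne hy hy1
    have hP := Pos_ne (η := η) hZn.1 hZn.2
    have hPn := Pos_norm η (Zy y)
    refine ⟨(Pos η (Zy y, 0)).1, t, ?_, hPn.1, hP.1, hP.2, Or.inl ⟨rfl, hPn.2 hZ, rfl, hy1⟩⟩
    unfold Gy
    simp only
    rw [if_neg hc, Pos_zero]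

theorem tgi_off (hS : Strip J κ₁ κ₂ b l₁ l₂ η) {q : ℂ} (τ : ℝ) (h1 : ‖q‖ < 5 / 2) (h2 : q ≠ -1) (h3 : q ≠ 1) :
    Off3 κ₁ κ₂ b (b (q, 0, τ)) :=
  off_box hS τ (by linarith) (by rw [abs_zero]; exact one_pos) h2 h3 (Or.inl h1.ne)

theorem tgi_cap {τ : ℝ} (h : Real.cos (2 * Real.pi * τ) < 0) :
    fh (CapS (0, 0, τ)) ≠ 0 ∧ c1 (CapS (0, 0, τ)) = 0 := by
  have h0 : ‖(0 : ℂ)‖ < 1 := by
    rw [norm_zero]
    exact one_pos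
  refine ⟨CapS_fh h0 h, ?_⟩
  rw [(CapS_facts (ν := 0) h0 h).2.1, mul_zero]

theorem tgi_ne (hS : Strip J κ₁ κ₂ b l₁ l₂ η) (D : Nf J κ₁ κ₂ b a₁ c₁' a₂ c₂' X) {q : ℂ} {τ τ' : ℝ}
    (h1 : ‖q‖ < 5 / 2) (h2 : q ≠ -1) (h3 : q ≠ 1) (h : Real.cos (2 * Real.pi * τ') < 0)
    (he : D.A (b (q, 0, τ)) = D.Q (CapS (0, 0, τ'))) : False :=
  D.disjQ _ _ (tgi_cap h).1 (Or.inl (tgi_cap h).2) (tgi_off hS τ h1 h2 h3) he.symm

theorem tgi_cy {y y' : ℂ} (h : 2 * ‖y + 1‖ < ‖y - 1‖) (h' : 2 * ‖y' + 1‖ < ‖y' - 1‖) (he : cy y = cy y') : y = y' := by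
  have k : ∀ {z : ℂ}, 2 * ‖z + 1‖ < ‖z - 1‖ → z - 1 ≠ 0 := by
    intro z hz h0
    rw [h0, norm_zero] at hz
    linarith [norm_nonneg (z + 1)]
  have h1 := k h
  have h2 := k h'
  unfold cy at he
  have h3 : (y + 1) / (y - 1) = (y' + 1) / (y' - 1) := (starRingEnd ℂ).injective he
  rw [div_eq_div_iff h1 h2] at h3
  linear_combination (-1 / 2 : ℂ) * h3

end

section
variable {E : Type*} [NormedAddCommGroup E] [NormedSpace ℝ E] {H : Type*} [TopologicalSpace H]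
  {J : ModelWithCorners ℝ E H} {P : Type*} [TopologicalSpace P] [ChartedSpace H P]
  {X : Type*} [TopologicalSpace X] [ChartedSpace E4 X] {κ₁ κ₂ : ℝ × ℂ × ℝ → P} {b : ℂ × ℝ × ℝ → P} {l₁ l₂ η : ℝ}
  {a₁ c₁' a₂ c₂' : ℤ}

theorem Gy_inj (hS : Strip J κ₁ κ₂ b l₁ l₂ η) (D : Nf J κ₁ κ₂ b a₁ c₁' a₂ c₂' X) {y y' : ℂ} {t t' : ℝ} (hy : y ≠ 0)
    (hy' : y' ≠ 0) (h : y ≠ -1 ∨ ∀ k : ℤ, t ≠ k) (h' : y' ≠ -1 ∨ ∀ k : ℤ, t' ≠ k)
    (he : Gy D η (y, 0, t) = Gy D η (y', 0, t')) : y = y' ∧ ∃ k : ℤ, t' = t + k := by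
  rcases tgi_cls (η := η) D hy h with ⟨q, τ, e1, q1, q2, q3, q4⟩ | ⟨c1', c2', c3', c4', c5'⟩ <;>
    rcases tgi_cls (η := η) D hy' h' with ⟨q', τ', e1', q1', q2', q3', q4'⟩ | ⟨d1, d2, d3, d4, d5⟩
  · rw [e1, e1'] at he
    have hb := D.A_inj _ _ (tgi_off hS τ q1 q2 q3) (tgi_off hS τ' q1' q2' q3') he
    obtain ⟨hq, _, m, hm⟩ := hS.box.inj _ _ _ _ _ _ (by linarith) (by rw [abs_zero]; exact one_pos) (by linarith)
      (by rw [abs_zero]; exact one_pos) hb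
    rcases q4 with ⟨r1, r2, r3, r4⟩ | ⟨r1, r2, r3, r4, r5, r6⟩ <;>
      rcases q4' with ⟨s1, s2, s3, s4⟩ | ⟨s1, s2, s3, s4, s5, s6⟩
    · rw [r1, s1] at hq
      refine ⟨Zy_inj hy hy' r4 s4 (Pos_inj hq), m, ?_⟩
      rw [← r3, ← s3]
      exact hm
    · rw [hq] at r2
      linarith
    · rw [hq] at r1
      linarith
    · have hn : ‖(pu (cy y, t)).1‖ = ‖(pu (cy y', t')).1‖ := by
        have n1 := tgi_q r4
        have n2 := tgi_q s4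
        rw [← r5, hq, s5, n2] at n1
        linarith
      have hpu : (pu (cy y, t)).1 = (pu (cy y', t')).1 := by
        rw [r5, s5, hn] at hq
        have h5 : ((5 / 2 - ‖(pu (cy y', t')).1‖ / 2 : ℝ) : ℂ) ≠ 0 := by
          have : (5 / 2 - ‖(pu (cy y', t')).1‖ / 2 : ℝ) ≠ 0 := by linarith
          exact_mod_cast this
        have h6 := mul_left_cancel₀ h5 hq
        rw [← tgi_polar (pu (cy y, t)).1, ← tgi_polar (pu (cy y', t')).1, hn, h6]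
      obtain ⟨k1, k2⟩ := pu_inj (tgi_N2 r2 h) (tgi_N2 s2 h') hpu ⟨m, by rw [← r6, ← s6]; exact hm⟩
      exact ⟨tgi_cy r2 s2 k1, k2⟩
  · rw [e1, d5] at he
    exact absurd he fun he => tgi_ne hS D q1 q2 q3 d4 he
  · rw [c5', e1'] at he
    exact absurd he.symm fun he => tgi_ne hS D q1' q2' q3' c4' he
  · rw [c5', d5] at he
    have h1 := D.Q_inj _ _ (tgi_cap c4').1 (tgi_cap d4).1 he
    obtain ⟨k1, k2⟩ := pu_inj (tgi_N2 c1' h) (tgi_N2 d1 h') (c3'.trans d3.symm) (CapS_inj0 c4' d4 h1)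
    exact ⟨tgi_cy c1' d1 k1, k2⟩

theorem Gy_ne₂ (hS : Strip J κ₁ κ₂ b l₁ l₂ η) (D : Nf J κ₁ κ₂ b a₁ c₁' a₂ c₂' X) {y : ℂ} {t : ℝ} (hy : y ≠ 0)
    (h : y ≠ -1 ∨ ∀ k : ℤ, t ≠ k) (l s : ℝ) : Gy D η (y, 0, t) ≠ D.F₂ (l, s, 0) := by
  rcases tgi_cls (η := η) D hy h with ⟨q, τ, e1, q1, q2, q3, _⟩ | ⟨_, _, _, d4, d5⟩
  · rw [e1]
    exact (D.disj₂ l s _ (tgi_off hS τ q1 q2 q3)).symm
  · rw [d5]
    exact (D.disjQ₂ l s _ (tgi_cap d4).1).symm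

theorem Gy_ne₁ (hS : Strip J κ₁ κ₂ b l₁ l₂ η) (D : Nf J κ₁ κ₂ b a₁ c₁' a₂ c₂' X) {y : ℂ} {t : ℝ} (hy : 5 / 72 < ‖y‖)
    (h : y ≠ -1 ∨ ∀ k : ℤ, t ≠ k) (l s : ℝ) {ξ : ℂ} (hξ : ‖ξ‖ ≤ 1 / 4) : Gy D η (y, 0, t) ≠ D.F₁ (l, s, ξ) := by
  have hy0 : y ≠ 0 := by
    rintro rfl
    rw [norm_zero] at hy
    linarith
  rcases tgi_cls (η := η) D hy0 h with ⟨q, τ, e1, q1, q2, q3, q4⟩ | ⟨_, _, _, d4, d5⟩
  · rw [e1]
    by_cases h0 : ξ = 0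
    · rw [h0]
      exact (D.disj₁ l s _ (tgi_off hS τ q1 q2 q3)).symm
    · have hpos : 0 < ‖ξ‖ := norm_pos_iff.2 h0
      rw [← tgi_polar ξ, D.glue₁ l s ‖ξ‖ (an ξ) hpos (by linarith)]
      intro he
      have hv : ‖((‖ξ‖ : ℂ) * ex (a₁ * an ξ - a₂ * s))‖ = ‖ξ‖ := by
        rw [norm_mul, Pool.Agent.RSG.ex_norm, mul_one, Complex.norm_real, norm_norm]
      have hv1 : ‖((‖ξ‖ : ℂ) * ex (a₁ * an ξ - a₂ * s))‖ < 1 := by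
        rw [hv]
        linarith
      have hv0 : ((‖ξ‖ : ℂ) * ex (a₁ * an ξ - a₂ * s)) ≠ 0 := by
        intro h1
        rw [h1, norm_zero] at hv
        linarith
      have hb := D.A_inj _ _ (tgi_off hS τ q1 q2 q3) (off_κ₁ hS l _ hv1 hv0) he
      obtain ⟨hq, _, _⟩ := hit₁ hS hv1 (by linarith) (by rw [abs_zero]; exact one_pos) hb.symm
      have hq1 : ‖q + 1‖ ≤ 1 / 8 := by
        rw [hq]
        have h2 : -1 + ((‖ξ‖ : ℂ) * ex (a₁ * an ξ - a₂ * s)) / 2 + 1 = ((‖ξ‖ : ℂ) * ex (a₁ * an ξ - a₂ * s)) / 2 := by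
          ring
        rw [h2, norm_div, hv, Complex.norm_ofNat]
        linarith
      rcases q4 with ⟨r1, r2, r3, r4⟩ | ⟨r1, _⟩
      · have h3 := Pos_dist (η := η) (Zy_dist₁ r4 hy)
        rw [← r1] at h3
        linarith
      · have h3 : ‖q‖ ≤ ‖q + 1‖ + 1 := by
          have h4 := norm_sub_le (q + 1) 1
          rw [add_sub_cancel_right, norm_one] at h4
          exact h4
        linarith
  · rw [d5]
    by_cases h0 : ξ = 0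
    · rw [h0]
      exact (D.disjQ₁ l s _ (tgi_cap d4).1).symm
    · have hpos : 0 < ‖ξ‖ := norm_pos_iff.2 h0
      rw [← tgi_polar ξ, D.glue₁ l s ‖ξ‖ (an ξ) hpos (by linarith)]
      have hv : ‖((‖ξ‖ : ℂ) * ex (a₁ * an ξ - a₂ * s))‖ = ‖ξ‖ := by
        rw [norm_mul, Pool.Agent.RSG.ex_norm, mul_one, Complex.norm_real, norm_norm]
      have hv1 : ‖((‖ξ‖ : ℂ) * ex (a₁ * an ξ - a₂ * s))‖ < 1 := by
        rw [hv]
        linarith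
      have hv0 : ((‖ξ‖ : ℂ) * ex (a₁ * an ξ - a₂ * s)) ≠ 0 := by
        intro h1
        rw [h1, norm_zero] at hv
        linarith
      exact D.disjQ _ _ (tgi_cap d4).1 (Or.inl (tgi_cap d4).2) (off_κ₁ hS l _ hv1 hv0)

end

end Pool.Agent.MMV
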