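import Pool.Agent.MMV.TEl
import Pool.Agent.MMV.TGi
import Pool.Agent.RSG.TwD

/-!
# MMV/TEi
: the hypotheses of the even twist   (difficulty 3)

`Tht D l₁ (y, φ, ζ) = D.F₁ (l₁ + y, φ, ζ/2)`, `EEt`.
* `loc`, `per1`, `per2`, `inj`: `D.loc₁` composed with the affine isomorphism, `D.per₁`, `D.inj₁` (`‖ζ/2‖ < 1`).
* `E_loc`: `EEt_loc`.
* `E_far`: `9 ≤ ‖p‖`: definition of `EEt` with `ν = ⟨-s, y⟩`: `D.F₁ (l₁ + y, an p, (5/(2‖p‖)) ex s)`, and `farT` is `Tht (y, arg p/2π, (5/‖p‖) ex s)`; `(5/‖p‖) ex s / 2 = (5/(2‖p‖)) ex s`.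
* `E_inj`: `p, p' ≠ 0`: `EEt_gy` with `ν = 0` for both, `Gy_inj` (`adm`): `y = y'` gives `‖p‖ = ‖p'‖ =: r` and `mA a₁ a₂ (sh0 r) (an p') = mA a₁ a₂ (sh0 r) (an p) + k` (`RSG.ex_polar`), and `tA .. (an p') = tA .. (an p) + k'`; with `Δ = an p' - an p`: `-a₂ Δ = k`, `c₂ Δ = k'`, so `δ Δ = a₁ c₂ Δ + c₁ a₂ Δ = a₁ k' - c₁ k ∈ ℤ`, `Δ ∈ ℤ`
  and `p = r ex (an p) = p'` (`RSG.ex_arg`).  `p = 0 ≠ p'` (or conversely): `EEt (0, 0) = D.F₂ (l₂ + 0, .., 0)` against `EEt_gy`: `Gy_ne₂`.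
* `E_sep`: `‖p‖ ≤ 9`, `‖ζ‖ ≤ 1/2`: `p = 0`: `D.ne₁₂`.  `‖p‖ = 9`: definition, `D.inj₁`: `5/18 = ‖ζ/2‖ ≤ 1/4`.  `0 < ‖p‖ < 9`: `EEt_gy`, `Gy_ne₁` (`‖y‖ = 5/(8‖p‖) > 5/72`).
-/

open scoped ContDiff Manifold Topology
open Set Filter
open Complex (I)
open Pool.Agent.RSG (E3 E4 S2 S3 S4 ex cj c1 c2 ht fh pS3 pS4)
open Pool.Agent.RBM (ThickT OnT Box)
open Pool.Agent.LKF (OnF)
open Pool.Agent.PTH (SP ISP)
open Pool.Agent.KNH (circ)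
open Pool.Agent.LKT (s1 s2)

namespace Pool.Agent.MMV

section
variable {E : Type*} [NormedAddCommGroup E] [NormedSpace ℝ E] {H : Type*} [TopologicalSpace H]
  {J : ModelWithCorners ℝ E H} {P : Type*} [TopologicalSpace P] [ChartedSpace H P]
  {X : Type*} [TopologicalSpace X] [ChartedSpace E4 X] {κ₁ κ₂ : ℝ × ℂ × ℝ → P} {b : ℂ × ℝ × ℝ → P} {l₁ l₂ η : ℝ}
  {a₁ c₁' a₂ c₂' : ℤ}

theorem tht_eq (D : Nf J κ₁ κ₂ b a₁ c₁' a₂ c₂' X) (l₁ y φ : ℝ) {ζ : ℂ} (h : ‖ζ‖ < 1) :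
    Tht D l₁ (y, φ, ζ) = D.F₁ (l₁ + y, φ, ζ / 2) := by
  unfold Tht
  simp only
  rw [if_pos h]

theorem tei_half {ζ : ℂ} (h : ‖ζ‖ < 1) : ‖ζ / 2‖ < 1 := by
  rw [norm_div, Complex.norm_ofNat]
  linarith

theorem tei_cut (D : Nf J κ₁ κ₂ b a₁ c₁' a₂ c₂' X) (l₁ : ℝ) (ζ : ℂ) : ∃ w : ℂ, ‖w‖ < 1 ∧
    ∀ y φ : ℝ, Tht D l₁ (y, φ, ζ) = D.F₁ (l₁ + y, φ, w) := by
  by_cases h : ‖ζ‖ < 1
  · exact ⟨ζ / 2, tei_half h, fun y φ => tht_eq D l₁ y φ h⟩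
  · refine ⟨0, by rw [norm_zero]; exact one_pos, fun y φ => ?_⟩
    unfold Tht
    simp only
    rw [if_neg h]

/-- the affine map -/
noncomputable def tei_h (l₁ : ℝ) : (ℝ × ℝ × ℂ) ≃ (ℝ × ℝ × ℂ) where
  toFun q := (l₁ + q.1, q.2.1, q.2.2 / 2)
  invFun q := (q.1 - l₁, q.2.1, 2 * q.2.2)
  left_inv := by
    rintro ⟨a, b, c⟩
    refine Prod.ext ?_ (Prod.ext rfl ?_)
    · show l₁ + a - l₁ = a
      ring
    · show 2 * (c / 2) = c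
      ring
  right_inv := by
    rintro ⟨a, b, c⟩
    refine Prod.ext ?_ (Prod.ext rfl ?_)
    · show l₁ + (a - l₁) = a
      ring
    · show 2 * c / 2 = c
      ring

theorem tei_loc (D : Nf J κ₁ κ₂ b a₁ c₁' a₂ c₂' X) (l₁ y φ : ℝ) {ζ : ℂ} (h : ‖ζ‖ < 1) :
    IsLocalDiffeomorphAt 𝓘(ℝ, ℝ × ℝ × ℂ) (𝓡 4) ∞ (Tht D l₁) (y, φ, ζ) := by
  have h1 : IsLocalDiffeomorphAt 𝓘(ℝ, ℝ × ℝ × ℂ) 𝓘(ℝ, ℝ × ℝ × ℂ) ∞ (tei_h l₁) (y, φ, ζ) := by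
    refine Pool.Agent.CSG.ld_of_perm ?_ ?_ _
    · show ContDiff ℝ ∞ fun q : ℝ × ℝ × ℂ => (l₁ + q.1, q.2.1, q.2.2 / 2)
      fun_prop
    · show ContDiff ℝ ∞ fun q : ℝ × ℝ × ℂ => (q.1 - l₁, q.2.1, 2 * q.2.2)
      fun_prop
  have h2 : IsLocalDiffeomorphAt 𝓘(ℝ, ℝ × ℝ × ℂ) (𝓡 4) ∞ D.F₁ (tei_h l₁ (y, φ, ζ)) :=
    D.loc₁ (l₁ + y) φ (ζ / 2) (tei_half h)
  have h3 : IsLocalDiffeomorphAt 𝓘(ℝ, ℝ × ℝ × ℂ) (𝓡 4) ∞ (D.F₁ ∘ tei_h l₁) (y, φ, ζ) :=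
    IsLocalDiffeomorphAt.comp (hf := h1) (hg := h2) ..
  refine Pool.Agent.CSG.ld_congr h3 ?_
  have h4 : ∀ᶠ q : ℝ × ℝ × ℂ in 𝓝 (y, φ, ζ), ‖q.2.2‖ < 1 :=
    (continuous_norm.comp (continuous_snd.comp continuous_snd)).continuousAt.eventually_lt continuousAt_const h
  filter_upwards [h4] with q hq
  exact tht_eq D l₁ q.1 q.2.1 hq

theorem tei_norm {p : ℂ} (h0 : p ≠ 0) (m : ℝ) : ‖((5 / (8 * ‖p‖) : ℝ) * ex m : ℂ)‖ = 5 / (8 * ‖p‖) := by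
  have hp : 0 < ‖p‖ := norm_pos_iff.2 h0
  rw [norm_mul, Pool.Agent.RSG.ex_norm, mul_one, Complex.norm_real, Real.norm_eq_abs, abs_of_pos (by positivity)]

theorem tei_ne {p : ℂ} (h0 : p ≠ 0) (m : ℝ) : ((5 / (8 * ‖p‖) : ℝ) * ex m : ℂ) ≠ 0 := by
  have hp : 0 < ‖p‖ := norm_pos_iff.2 h0
  intro h
  have h1 := tei_norm h0 m
  rw [h, norm_zero] at h1
  have h2 : 0 < 5 / (8 * ‖p‖) := by positivity
  linarith

theorem tei_gy (hS : Strip J κ₁ κ₂ b l₁ l₂ η) (D : Nf J κ₁ κ₂ b a₁ c₁' a₂ c₂' X) {p : ℂ} (h0 : p ≠ 0)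
    (hp : ‖p‖ ≤ 12) : EEt D l₁ l₂ η (p, 0) =
      Gy D η ((5 / (8 * ‖p‖) : ℝ) * ex (mA a₁ a₂ (sh0 ‖p‖) (an p)), 0, tA c₁' c₂' (sh0 ‖p‖) (an p)) := by
  have h1 := EEt_gy hS D (p := p) (ν := 0) h0 hp (by rw [Complex.zero_im, abs_zero]; exact hS.pos)
  rw [h1, Complex.zero_im, Complex.zero_re, neg_zero, zero_add]

theorem tei_zero (D : Nf J κ₁ κ₂ b a₁ c₁' a₂ c₂' X) (l₁ l₂ η : ℝ) : ∃ l s : ℝ,
    EEt D l₁ l₂ η (0, 0) = D.F₂ (l, s, 0) := by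
  refine ⟨l₂ + (0 : ℂ).im, -(0 : ℂ).re + sh2 a₁ c₁' a₂ c₂', ?_⟩
  unfold EEt
  simp only
  rw [if_neg (by rw [norm_zero]; norm_num), if_pos trivial]

theorem tht_hyp (hS : Strip J κ₁ κ₂ b l₁ l₂ η) (D : Nf J κ₁ κ₂ b a₁ c₁' a₂ c₂' X)
    (hd : a₁ * c₂' + c₁' * a₂ = 1 ∨ a₁ * c₂' + c₁' * a₂ = -1) :
    Pool.Agent.RSG.TwHyp (Tht D l₁) (EEt D l₁ l₂ η) := by
  refine ⟨?_, ?_, ?_, ?_, ?_, ?_, ?_, ?_⟩
  · intro y φ ζ h
    exact tei_loc D l₁ y φ (by linarith)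
  · intro y φ ζ
    obtain ⟨w, hw, hw2⟩ := tei_cut D l₁ ζ
    rw [hw2, hw2, show l₁ + (y + 1) = l₁ + y + 1 by ring]
    exact (D.per₁ (l₁ + y) φ w hw).1
  · intro y φ ζ
    obtain ⟨w, hw, hw2⟩ := tei_cut D l₁ ζ
    rw [hw2, hw2]
    exact (D.per₁ (l₁ + y) φ w hw).2
  · intro y φ ζ y' φ' ζ' h h' he
    rw [tht_eq D l₁ y φ (by linarith), tht_eq D l₁ y' φ' (by linarith)] at he
    obtain ⟨k1, ⟨m, hm⟩, k3⟩ := D.inj₁ _ _ _ _ _ _ (tei_half (by linarith)) (tei_half (by linarith)) he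
    refine ⟨?_, ⟨m, by linarith⟩, k3⟩
    have h2 : (2 : ℂ) ≠ 0 := two_ne_zero
    exact (div_left_inj' h2).1 k1
  · intro p hp
    exact EEt_loc hS D hd hp
  · intro p p' hp hp' he
    by_cases h0 : p = 0
    · by_cases h0' : p' = 0
      · rw [h0, h0']
      · exfalso
        obtain ⟨l, s, h1⟩ := tei_zero D l₁ l₂ η
        rw [h0, h1, tei_gy hS D h0' (by linarith)] at he
        exact Gy_ne₂ hS D (tei_ne h0' _) (adm hd h0') l s he.symm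
    · by_cases h0' : p' = 0
      · exfalso
        obtain ⟨l, s, h1⟩ := tei_zero D l₁ l₂ η
        rw [h0', h1, tei_gy hS D h0 (by linarith)] at he
        exact Gy_ne₂ hS D (tei_ne h0 _) (adm hd h0) l s he
      · have hn : 0 < ‖p‖ := norm_pos_iff.2 h0
        have hn' : 0 < ‖p'‖ := norm_pos_iff.2 h0'
        rw [tei_gy hS D h0 (by linarith), tei_gy hS D h0' (by linarith)] at he
        obtain ⟨hy, k, hk⟩ := Gy_inj hS D (tei_ne h0 _) (tei_ne h0' _) (adm hd h0) (adm hd h0') he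
        obtain ⟨hr, m, hm⟩ := Pool.Agent.RSG.ex_polar (by positivity) (by positivity) hy
        have hnn : ‖p‖ = ‖p'‖ := by
          rw [div_eq_div_iff (by positivity) (by positivity)] at hr
          linarith
        rw [hnn] at hk hm
        unfold tA at hk
        unfold mA at hm
        have e1 : -(a₂ : ℝ) * (an p' - an p) = m := by linarith
        have e2 : (c₂' : ℝ) * (an p' - an p) = k := by linarith
        have e3 : ((a₁ * c₂' + c₁' * a₂ : ℤ) : ℝ) * (an p' - an p) = ((a₁ * k - c₁' * m : ℤ) : ℝ) := by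
          push_cast
          rw [← e1, ← e2]
          ring
        have e4 : ∃ j : ℤ, an p' = an p + j := by
          rcases hd with hd | hd
          · refine ⟨a₁ * k - c₁' * m, ?_⟩
            rw [hd] at e3
            push_cast at e3 ⊢
            linarith
          · refine ⟨-(a₁ * k - c₁' * m), ?_⟩
            rw [hd] at e3
            push_cast at e3 ⊢
            linarith
        have e5 := Pool.Agent.RSG.ex_eq_iff.2 e4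
        rw [← tgi_polar p, ← tgi_polar p', hnn, e5]
  · intro p s y h9 h11 hs hy
    have hn : 0 < ‖p‖ := by linarith
    have hlt : ‖((5 / ‖p‖ : ℝ) * ex s : ℂ)‖ < 1 := by
      rw [norm_mul, Pool.Agent.RSG.ex_norm, mul_one, Complex.norm_real, Real.norm_eq_abs, abs_of_pos (by positivity),
        div_lt_one hn]
      linarith
    unfold Pool.Agent.RSG.farT
    simp only
    rw [tht_eq D l₁ _ _ hlt]
    unfold EEt
    simp only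
    rw [if_pos h9, neg_neg]
    have h1 : ((5 / (2 * ‖p‖) : ℝ) : ℂ) * ex s = ((5 / ‖p‖ : ℝ) : ℂ) * ex s / 2 := by
      push_cast
      field_simp
    rw [h1]
    rfl
  · intro p y φ ζ h9 hζ
    rw [tht_eq D l₁ y φ (by linarith)]
    have hζ2 : ‖ζ / 2‖ ≤ 1 / 4 := by
      rw [norm_div, Complex.norm_ofNat]
      linarith
    by_cases h0 : p = 0
    · obtain ⟨l, s, h1⟩ := tei_zero D l₁ l₂ η
      rw [h0, h1]
      exact (D.ne₁₂ _ _ _ _ _ _ (by linarith) (by rw [norm_zero]; exact one_pos)).symm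
    · have hn : 0 < ‖p‖ := norm_pos_iff.2 h0
      rcases h9.eq_or_lt with h1 | h1
      · intro he
        unfold EEt at he
        simp only at he
        rw [if_pos h1.ge, h1] at he
        have hlt : ‖((5 / (2 * 9) : ℝ) * ex (-(0 : ℂ).re) : ℂ)‖ = 5 / 18 := by
          rw [norm_mul, Pool.Agent.RSG.ex_norm, mul_one, Complex.norm_real, Real.norm_eq_abs,
            abs_of_pos (by norm_num)]
          norm_num
        obtain ⟨k1, _, _⟩ := D.inj₁ _ _ _ _ _ _ (by rw [hlt]; norm_num) (by linarith) he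
        rw [← k1, hlt] at hζ2
        linarith
      · rw [tei_gy hS D h0 (by linarith)]
        refine Gy_ne₁ hS D ?_ (adm hd h0) _ _ hζ2
        rw [tei_norm h0, lt_div_iff₀ (by positivity)]
        linarith

end

end Pool.Agent.MMV
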