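import Pool.Agent.MMV.TFa

/-!
# MMV/TEl
: the disc is immersed   (difficulty 4)

* `adm`: if `y = (5/(8‖p‖)) ex m = -1` then `‖p‖ = 5/8`, `sh0 ‖p‖ = 1/4`, `m = a₁/4 - a₂ w = 1/2 + k`, `w = an p`; if moreover `t = c₁/4 + c₂ w = k'`: `c₂ m + a₂ t = (a₁ c₂ + c₁ a₂)/4 = c₂/2 + c₂ k + a₂ k'`, so `±1 = 2 c₂ + 4 (..)`: parity.
* `EEt_loc`: `η > 0`, so near `(p, 0)` one has `|ν.im| < η`.
  `p = 0`: `EEt_two` near the point: `F₂ ∘` an affine isomorphism (`ℂ × ℂ → ℝ × ℝ × ℂ`), `D.loc₂`.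
  `44/5 < ‖p‖ ≤ 10`: `EEt_one` near the point; put `α p' = an p₀ + arg (p'/p₀)/2π` (smooth near `p₀`), `α p' - an p' ∈ ℤ` (both have `‖p'‖ ex (..) = p'`, `RSG.ex_eq_iff`), `D.per₁`: `EEt = D.F₁ ∘ g`, `g (p', ν) = (l₁ + ν.im, α p', (5/(2‖p'‖)) ex (-ν.re))`; `g` is a local diffeomorphism: local inverse `(l, s, ξ) ↦ ((5/(2‖ξ‖)) ex s, ⟨- (arg ξ)/2π, l - l₁⟩)`
  near `(l₁, an p₀, 5/(2‖p₀‖))` (`RSG.ld_two` or `RSG.ld_left`), `D.loc₁` (`‖ξ‖ < 1`).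
  `0 < ‖p‖ ≤ 44/5 + 1/10`: `EEt_gy` near the point, `EEt = Gy D η ∘ Φ`, `Φ (p', ν) = ((5/(8‖p'‖)) ex (a₁ S - a₂ α), ν.im, c₁ S + c₂ α)`, `S = -ν.re + sh0 ‖p'‖`, `α = α p'` (the difference `α - an p'` is an integer `k`: `ex (.. - a₂ k) = ex (..)`, `Gy_per` with the integer `c₂ k`).
  `Φ` is a local diffeomorphism at `(p, 0)`: smooth left inverse near the point (`RSG.ld_left`, equal dimensions): from `(y, ν', t)`: `r = 5/(8‖y‖)`, `m = m₀ + arg (y/y₀)/2π` (`m₀ = a₁ S₀ - a₂ α₀`), `S = δ (c₂ m + a₂ t)`, `α = δ (a₁ t - c₁ m)` (`δ = a₁ c₂ + c₁ a₂ = ±1`), `p' = r ex α`, `ν = ⟨sh0 r - S, ν'⟩`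
  (near the point `arg` of `ex (m - m₀)` is `2π (m - m₀)` as `m - m₀` is small).  `Gy_ld` with `adm`.
-/

open scoped ContDiff Manifold Topology
open Set Filter
open Complex (I)
open Pool.Agent.RSG (E3 E4 S2 S3 S4 ex cj c1 c2 ht fh pS3 pS4)
open Pool.Agent.RBM (ThickT OnT Box)
open Pool.Agent.LKF (OnF)
open Pool.Agent.PTH (SP ISP)
open Pool.Agent.KNH (circ)
open Pool.Agent.LKT (s1 s2)

namespace Pool.Agent.MMV

section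
variable {E : Type*} [NormedAddCommGroup E] [NormedSpace ℝ E] {H : Type*} [TopologicalSpace H]
  {J : ModelWithCorners ℝ E H} {P : Type*} [TopologicalSpace P] [ChartedSpace H P]
  {X : Type*} [TopologicalSpace X] [ChartedSpace E4 X] {κ₁ κ₂ : ℝ × ℂ × ℝ → P} {b : ℂ × ℝ × ℝ → P} {l₁ l₂ η : ℝ}
  {a₁ c₁' a₂ c₂' : ℤ}

theorem tel_sh0_smooth : ContDiff ℝ ∞ sh0 := by
  unfold sh0
  exact contDiff_const.mul (contDiff_const.sub (Pool.Agent.CSG.stp_smooth 1 2))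

theorem tel_sh0_one {r : ℝ} (h : r ≤ 1) : sh0 r = 1 / 4 := by
  unfold sh0
  rw [Pool.Agent.CSG.stp_zero (by norm_num) h]
  ring

/-- the branch of `arg / 2π` at `1` -/
noncomputable def tel_lg (z : ℂ) : ℝ := (Complex.log z).im / (2 * Real.pi)

theorem tel_lg_smooth {z : ℂ} (hz : z ∈ Complex.slitPlane) : ContDiffAt ℝ ∞ tel_lg z := by
  unfold tel_lg
  have h1 : ContDiffAt ℝ ∞ Complex.log z := (Complex.contDiffAt_log hz).restrict_scalars ℝ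
  have h2 : ContDiffAt ℝ ∞ (fun w => (Complex.log w).im) z :=
    (Complex.imCLM.contDiff.contDiffAt).comp z h1
  exact h2.div_const _

theorem tel_lg_eq (z : ℂ) : (‖z‖ : ℂ) * ex (tel_lg z) = z := by
  unfold tel_lg
  rw [Complex.log_im]
  exact Pool.Agent.RSG.ex_arg

theorem tel_lg_val {r x : ℝ} (hr : 0 < r) (h : |x| < 1 / 2) : tel_lg ((r : ℂ) * ex x) = x := by
  unfold tel_lg
  obtain ⟨h1, h2⟩ := abs_lt.mp h
  rw [Pool.Agent.RSG.ex_log hr h1 h2]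
  field_simp

/-- the angle of `p'` near `p` -/
noncomputable def tel_al (p p' : ℂ) : ℝ := an p + tel_lg (p' / p)

theorem tel_al_self {p : ℂ} (hp : p ≠ 0) : tel_al p p = an p := by
  unfold tel_al tel_lg
  rw [div_self hp, Complex.log_one]
  simp

theorem tel_al_ex {p p' : ℂ} (hp : p ≠ 0) : (‖p'‖ : ℂ) * ex (tel_al p p') = p' := by
  unfold tel_al
  rw [Pool.Agent.RSG.ex_add]
  have h1 : (‖p‖ : ℂ) * ex (an p) = p := Pool.Agent.RSG.ex_arg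
  have h2 := tel_lg_eq (p' / p)
  have h3 : (‖p‖ : ℂ) ≠ 0 := by exact_mod_cast (norm_ne_zero_iff.mpr hp)
  have h4 : (‖p' / p‖ : ℂ) = (‖p'‖ : ℂ) / (‖p‖ : ℂ) := by rw [norm_div, Complex.ofReal_div]
  rw [h4] at h2
  have h5 : (‖p'‖ : ℂ) * ex (tel_lg (p' / p)) = (p' / p) * ‖p‖ := by
    have h6 := congrArg (fun x => x * (‖p‖ : ℂ)) h2
    rw [← h6]
    field_simp
  calc (‖p'‖ : ℂ) * (ex (an p) * ex (tel_lg (p' / p)))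
      = ex (an p) * ((‖p'‖ : ℂ) * ex (tel_lg (p' / p))) := by ring
    _ = (p' / p) * ((‖p‖ : ℂ) * ex (an p)) := by rw [h5]; ring
    _ = p' := by rw [h1]; field_simp

theorem tel_al_int {p p' : ℂ} (hp : p ≠ 0) (hp' : p' ≠ 0) : ∃ k : ℤ, tel_al p p' = an p' + k := by
  have h1 := tel_al_ex (p' := p') hp
  have h2 : (‖p'‖ : ℂ) * ex (an p') = p' := Pool.Agent.RSG.ex_arg
  have h3 : (‖p'‖ : ℂ) ≠ 0 := by exact_mod_cast (norm_ne_zero_iff.mpr hp')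
  have h4 : ex (an p') = ex (tel_al p p') := mul_left_cancel₀ h3 (h2.trans h1.symm)
  exact Pool.Agent.RSG.ex_eq_iff.mp h4

/-- the angle `m` -/
noncomputable def tel_m (a₁ a₂ : ℤ) (p : ℂ) (q : ℂ × ℂ) : ℝ := mA a₁ a₂ (-q.2.re + sh0 ‖q.1‖) (tel_al p q.1)

/-- the time -/
noncomputable def tel_t (c₁' c₂' : ℤ) (p : ℂ) (q : ℂ × ℂ) : ℝ := tA c₁' c₂' (-q.2.re + sh0 ‖q.1‖) (tel_al p q.1)

/-- the coordinates of the disc -/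
noncomputable def tel_Phi (a₁ c₁' a₂ c₂' : ℤ) (p : ℂ) (q : ℂ × ℂ) : ℂ × ℝ × ℝ :=
  ((5 / (8 * ‖q.1‖) : ℝ) * ex (tel_m a₁ a₂ p q), q.2.im, tel_t c₁' c₂' p q)

/-- its inverse -/
noncomputable def tel_Psi (a₁ c₁' a₂ c₂' : ℤ) (m₀ : ℝ) (y₀ : ℂ) (w : ℂ × ℝ × ℝ) : ℂ × ℂ :=
  ((5 / (8 * ‖w.1‖) : ℝ) * ex ((a₁ * c₂' + c₁' * a₂ : ℤ) * (a₁ * w.2.2 - c₁' * (m₀ + tel_lg (w.1 / y₀)))),
    ((sh0 (5 / (8 * ‖w.1‖)) - (a₁ * c₂' + c₁' * a₂ : ℤ) * (c₂' * (m₀ + tel_lg (w.1 / y₀)) + a₂ * w.2.2) : ℝ) : ℂ) +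
      (w.2.1 : ℂ) * I)

theorem tel_al_smooth {p p' : ℂ} (h : p' / p ∈ Complex.slitPlane) : ContDiffAt ℝ ∞ (tel_al p) p' := by
  unfold tel_al
  refine contDiffAt_const.add ?_
  have h1 : ContDiffAt ℝ ∞ (fun z : ℂ => z / p) p' := contDiffAt_id.div_const p
  exact ContDiffAt.comp p' (tel_lg_smooth h) h1

theorem tel_ne {p p' : ℂ} (h : p' / p ∈ Complex.slitPlane) : p' ≠ 0 := by
  rintro rfl
  rw [zero_div] at h
  exact Complex.zero_notMem_slitPlane h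

theorem tel_S_smooth {q : ℂ × ℂ} (h : q.1 ≠ 0) : ContDiffAt ℝ ∞ (fun q : ℂ × ℂ => -q.2.re + sh0 ‖q.1‖) q := by
  have h1 : ContDiffAt ℝ ∞ (fun q : ℂ × ℂ => q.2.re) q :=
    (Complex.reCLM.contDiff.comp contDiff_snd).contDiffAt
  have h2 : ContDiffAt ℝ ∞ (fun q : ℂ × ℂ => ‖q.1‖) q :=
    ContDiffAt.comp q (contDiffAt_norm ℝ h) contDiffAt_fst
  exact h1.neg.add (tel_sh0_smooth.contDiffAt.comp q h2)

theorem tel_al_smooth' {p : ℂ} {q : ℂ × ℂ} (h : q.1 / p ∈ Complex.slitPlane) :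
    ContDiffAt ℝ ∞ (fun q : ℂ × ℂ => tel_al p q.1) q := by
  show ContDiffAt ℝ ∞ (tel_al p ∘ Prod.fst) q
  exact ContDiffAt.comp q (tel_al_smooth h) contDiffAt_fst

theorem tel_m_smooth (a₁ a₂ : ℤ) {p : ℂ} {q : ℂ × ℂ} (h : q.1 / p ∈ Complex.slitPlane) :
    ContDiffAt ℝ ∞ (tel_m a₁ a₂ p) q := by
  unfold tel_m mA
  exact (contDiffAt_const.mul (tel_S_smooth (tel_ne h))).sub (contDiffAt_const.mul (tel_al_smooth' h))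

theorem tel_t_smooth (c₁' c₂' : ℤ) {p : ℂ} {q : ℂ × ℂ} (h : q.1 / p ∈ Complex.slitPlane) :
    ContDiffAt ℝ ∞ (tel_t c₁' c₂' p) q := by
  unfold tel_t tA
  exact (contDiffAt_const.mul (tel_S_smooth (tel_ne h))).add (contDiffAt_const.mul (tel_al_smooth' h))

theorem tel_Phi_smooth (a₁ c₁' a₂ c₂' : ℤ) {p : ℂ} {q : ℂ × ℂ} (h : q.1 / p ∈ Complex.slitPlane) :
    ContDiffAt ℝ ∞ (tel_Phi a₁ c₁' a₂ c₂' p) q := by
  unfold tel_Phi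
  have hq : q.1 ≠ 0 := tel_ne h
  have h2 : ContDiffAt ℝ ∞ (fun q : ℂ × ℂ => ‖q.1‖) q :=
    ContDiffAt.comp q (contDiffAt_norm ℝ hq) contDiffAt_fst
  have h3 : ContDiffAt ℝ ∞ (fun q : ℂ × ℂ => (5 / (8 * ‖q.1‖) : ℝ)) q :=
    contDiffAt_const.div (contDiffAt_const.mul h2) (by
      have := norm_pos_iff.mpr hq
      positivity)
  have h4 : ContDiffAt ℝ ∞ (fun q : ℂ × ℂ => (((5 / (8 * ‖q.1‖) : ℝ)) : ℂ)) q :=
    (Complex.ofRealCLM.contDiff.contDiffAt).comp q h3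
  have h5 : ContDiffAt ℝ ∞ (fun q : ℂ × ℂ => ex (tel_m a₁ a₂ p q)) q :=
    (Pool.Agent.RSG.ex_smooth.contDiffAt).comp q (tel_m_smooth a₁ a₂ h)
  have h6 : ContDiffAt ℝ ∞ (fun q : ℂ × ℂ => q.2.im) q :=
    (Complex.imCLM.contDiff.comp contDiff_snd).contDiffAt
  exact (h4.mul h5).prodMk (h6.prodMk (tel_t_smooth c₁' c₂' h))

theorem tel_Psi_diff (a₁ c₁' a₂ c₂' : ℤ) (m₀ : ℝ) {y₀ : ℂ} (hy : y₀ ≠ 0) (n t : ℝ) :
    DifferentiableAt ℝ (tel_Psi a₁ c₁' a₂ c₂' m₀ y₀) (y₀, n, t) := by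
  have e1 : ContDiffAt ℝ ∞ (fun w : ℂ × ℝ × ℝ => ‖w.1‖) (y₀, n, t) :=
    ContDiffAt.comp (y₀, n, t) (contDiffAt_norm ℝ hy) contDiffAt_fst
  have e2 : ContDiffAt ℝ ∞ (fun w : ℂ × ℝ × ℝ => (5 / (8 * ‖w.1‖) : ℝ)) (y₀, n, t) :=
    contDiffAt_const.div (contDiffAt_const.mul e1) (by
      have := norm_pos_iff.mpr hy
      positivity)
  have e3 : ContDiffAt ℝ ∞ (fun w : ℂ × ℝ × ℝ => tel_lg (w.1 / y₀)) (y₀, n, t) := by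
    have h1 : ContDiffAt ℝ ∞ (fun w : ℂ × ℝ × ℝ => w.1 / y₀) (y₀, n, t) := contDiffAt_fst.div_const y₀
    refine ContDiffAt.comp (y₀, n, t) (tel_lg_smooth ?_) h1
    simp only
    rw [div_self hy]
    exact Complex.one_mem_slitPlane
  have e4 : ContDiffAt ℝ ∞ (fun w : ℂ × ℝ × ℝ => w.2.2) (y₀, n, t) := (contDiff_snd.comp contDiff_snd).contDiffAt
  have e5 : ContDiffAt ℝ ∞ (fun w : ℂ × ℝ × ℝ => w.2.1) (y₀, n, t) := (contDiff_fst.comp contDiff_snd).contDiffAt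
  have e6 : ContDiffAt ℝ ∞ (fun w : ℂ × ℝ × ℝ => m₀ + tel_lg (w.1 / y₀)) (y₀, n, t) := contDiffAt_const.add e3
  have e7 : ContDiffAt ℝ ∞ (fun w : ℂ × ℝ × ℝ => (((5 / (8 * ‖w.1‖) : ℝ)) : ℂ)) (y₀, n, t) :=
    (Complex.ofRealCLM.contDiff.contDiffAt).comp (y₀, n, t) e2
  have e8 : ContDiffAt ℝ ∞ (fun w : ℂ × ℝ × ℝ => ((a₁ * c₂' + c₁' * a₂ : ℤ) : ℝ) *
      (a₁ * w.2.2 - c₁' * (m₀ + tel_lg (w.1 / y₀)))) (y₀, n, t) :=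
    contDiffAt_const.mul ((contDiffAt_const.mul e4).sub (contDiffAt_const.mul e6))
  have e9 : ContDiffAt ℝ ∞ (fun w : ℂ × ℝ × ℝ => ex (((a₁ * c₂' + c₁' * a₂ : ℤ) : ℝ) *
      (a₁ * w.2.2 - c₁' * (m₀ + tel_lg (w.1 / y₀))))) (y₀, n, t) :=
    (Pool.Agent.RSG.ex_smooth.contDiffAt).comp (y₀, n, t) e8
  have e10 : ContDiffAt ℝ ∞ (fun w : ℂ × ℝ × ℝ => (sh0 (5 / (8 * ‖w.1‖)) - ((a₁ * c₂' + c₁' * a₂ : ℤ) : ℝ) *
      (c₂' * (m₀ + tel_lg (w.1 / y₀)) + a₂ * w.2.2) : ℝ)) (y₀, n, t) :=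
    (tel_sh0_smooth.contDiffAt.comp (y₀, n, t) e2).sub
      (contDiffAt_const.mul ((contDiffAt_const.mul e6).add (contDiffAt_const.mul e4)))
  have e11 : ContDiffAt ℝ ∞ (fun w : ℂ × ℝ × ℝ => ((sh0 (5 / (8 * ‖w.1‖)) - ((a₁ * c₂' + c₁' * a₂ : ℤ) : ℝ) *
      (c₂' * (m₀ + tel_lg (w.1 / y₀)) + a₂ * w.2.2) : ℝ) : ℂ)) (y₀, n, t) :=
    (Complex.ofRealCLM.contDiff.contDiffAt).comp (y₀, n, t) e10
  have e12 : ContDiffAt ℝ ∞ (fun w : ℂ × ℝ × ℝ => (w.2.1 : ℂ)) (y₀, n, t) :=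
    (Complex.ofRealCLM.contDiff.contDiffAt).comp (y₀, n, t) e5
  have h : ContDiffAt ℝ ∞ (tel_Psi a₁ c₁' a₂ c₂' m₀ y₀) (y₀, n, t) := by
    unfold tel_Psi
    exact (e7.mul e9).prodMk (e11.add (e12.mul contDiffAt_const))
  exact h.differentiableAt (by simp)

theorem tel_Psi_Phi (hd : a₁ * c₂' + c₁' * a₂ = 1 ∨ a₁ * c₂' + c₁' * a₂ = -1) {p : ℂ} (h0 : p ≠ 0) {q : ℂ × ℂ}
    (hq : q.1 ≠ 0) (hm : |tel_m a₁ a₂ p q - tel_m a₁ a₂ p (p, 0)| < 1 / 2) :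
    tel_Psi a₁ c₁' a₂ c₂' (tel_m a₁ a₂ p (p, 0)) (tel_Phi a₁ c₁' a₂ c₂' p (p, 0)).1 (tel_Phi a₁ c₁' a₂ c₂' p q) = q := by
  have hp0 : 0 < ‖p‖ := norm_pos_iff.mpr h0
  have hq0 : 0 < ‖q.1‖ := norm_pos_iff.mpr hq
  have hy : ‖(tel_Phi a₁ c₁' a₂ c₂' p q).1‖ = 5 / (8 * ‖q.1‖) := by
    unfold tel_Phi
    simp only
    rw [norm_mul, Pool.Agent.RSG.ex_norm, mul_one, Complex.norm_real, Real.norm_of_nonneg (by positivity)]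
  have hr : 5 / (8 * ‖(tel_Phi a₁ c₁' a₂ c₂' p q).1‖) = ‖q.1‖ := by
    rw [hy]
    field_simp
  have hlg : tel_lg ((tel_Phi a₁ c₁' a₂ c₂' p q).1 / (tel_Phi a₁ c₁' a₂ c₂' p (p, 0)).1) =
      tel_m a₁ a₂ p q - tel_m a₁ a₂ p (p, 0) := by
    have e : (tel_Phi a₁ c₁' a₂ c₂' p q).1 / (tel_Phi a₁ c₁' a₂ c₂' p (p, 0)).1 =
        ((‖p‖ / ‖q.1‖ : ℝ) : ℂ) * ex (tel_m a₁ a₂ p q - tel_m a₁ a₂ p (p, 0)) := by
      have hex : ex (tel_m a₁ a₂ p q) =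
          ex (tel_m a₁ a₂ p q - tel_m a₁ a₂ p (p, 0)) * ex (tel_m a₁ a₂ p (p, 0)) := by
        rw [← Pool.Agent.RSG.ex_add, sub_add_cancel]
      have hne := Pool.Agent.RSG.ex_ne (tel_m a₁ a₂ p (p, 0))
      have hpc : (‖p‖ : ℂ) ≠ 0 := by exact_mod_cast hp0.ne'
      have hqc : (‖q.1‖ : ℂ) ≠ 0 := by exact_mod_cast hq0.ne'
      unfold tel_Phi
      simp only
      rw [hex]
      push_cast
      field_simp
    rw [e]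
    exact tel_lg_val (div_pos hp0 hq0) hm
  have hδ : ((a₁ * c₂' + c₁' * a₂ : ℤ) : ℝ) * ((a₁ * c₂' + c₁' * a₂ : ℤ) : ℝ) = 1 := by
    rcases hd with h | h <;> rw [h] <;> norm_num
  have hδ' : ((a₁ : ℝ) * c₂' + c₁' * a₂) * ((a₁ : ℝ) * c₂' + c₁' * a₂) = 1 := by
    push_cast at hδ
    exact hδ
  unfold tel_Psi
  rw [hlg, hr]
  have hm2 : tel_m a₁ a₂ p (p, 0) + (tel_m a₁ a₂ p q - tel_m a₁ a₂ p (p, 0)) = tel_m a₁ a₂ p q := by ring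
  rw [hm2]
  have h21 : (tel_Phi a₁ c₁' a₂ c₂' p q).2.1 = q.2.im := rfl
  have h22 : (tel_Phi a₁ c₁' a₂ c₂' p q).2.2 = tel_t c₁' c₂' p q := rfl
  rw [h21, h22]
  have hal : ((a₁ * c₂' + c₁' * a₂ : ℤ) : ℝ) * (a₁ * tel_t c₁' c₂' p q - c₁' * tel_m a₁ a₂ p q) = tel_al p q.1 := by
    unfold tel_t tel_m tA mA
    push_cast
    linear_combination (tel_al p q.1) * hδ'
  have hS : ((a₁ * c₂' + c₁' * a₂ : ℤ) : ℝ) * (c₂' * tel_m a₁ a₂ p q + a₂ * tel_t c₁' c₂' p q) =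
      -q.2.re + sh0 ‖q.1‖ := by
    unfold tel_t tel_m tA mA
    push_cast
    linear_combination (-q.2.re + sh0 ‖q.1‖) * hδ'
  rw [hal, hS]
  refine Prod.ext ?_ ?_
  · exact tel_al_ex h0
  · simp only
    apply Complex.ext
    · simp
    · simp

theorem tel_Phi_loc (hd : a₁ * c₂' + c₁' * a₂ = 1 ∨ a₁ * c₂' + c₁' * a₂ = -1) {p : ℂ} (h0 : p ≠ 0) :
    IsLocalDiffeomorphAt 𝓘(ℝ, ℂ × ℂ) 𝓘(ℝ, ℂ × ℝ × ℝ) ∞ (tel_Phi a₁ c₁' a₂ c₂' p) (p, 0) := by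
  have hsl : ∀ᶠ q : ℂ × ℂ in 𝓝 (p, 0), q.1 / p ∈ Complex.slitPlane := by
    have hc : ContinuousAt (fun q : ℂ × ℂ => q.1 / p) (p, 0) := by fun_prop
    refine hc.eventually (Complex.isOpen_slitPlane.mem_nhds ?_)
    simp only
    rw [div_self h0]
    exact Complex.one_mem_slitPlane
  have hsl0 : (p, (0 : ℂ)).1 / p ∈ Complex.slitPlane := hsl.self_of_nhds
  have hmc : ∀ᶠ q : ℂ × ℂ in 𝓝 (p, 0), |tel_m a₁ a₂ p q - tel_m a₁ a₂ p (p, 0)| < 1 / 2 := by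
    have hc : ContinuousAt (fun q => |tel_m a₁ a₂ p q - tel_m a₁ a₂ p (p, 0)|) (p, (0 : ℂ)) :=
      ((tel_m_smooth a₁ a₂ hsl0).continuousAt.sub continuousAt_const).abs
    refine hc.eventually_lt continuousAt_const ?_
    simp
  refine Pool.Agent.RSG.ld_left (g := tel_Psi a₁ c₁' a₂ c₂' (tel_m a₁ a₂ p (p, 0)) (tel_Phi a₁ c₁' a₂ c₂' p (p, 0)).1)
    ?_ ?_ ?_ ?_
  · filter_upwards [hsl] with q hq
    exact tel_Phi_smooth a₁ c₁' a₂ c₂' hq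
  · simp [Complex.finrank_real_complex]
  · have hy : (tel_Phi a₁ c₁' a₂ c₂' p (p, 0)).1 ≠ 0 := by
      unfold tel_Phi
      refine mul_ne_zero ?_ (Pool.Agent.RSG.ex_ne _)
      have := norm_pos_iff.mpr h0
      have h5 : (5 / (8 * ‖p‖) : ℝ) ≠ 0 := by positivity
      exact_mod_cast h5
    exact tel_Psi_diff a₁ c₁' a₂ c₂' _ hy _ _
  · filter_upwards [hsl, hmc] with q hq hm
    exact tel_Psi_Phi hd h0 (tel_ne hq) hm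

theorem tel_F2 (a₁ c₁' a₂ c₂' : ℤ) (l₂ : ℝ) (c : ℂ) (hc : c ≠ 0) :
    IsLocalDiffeomorphAt 𝓘(ℝ, ℂ × ℂ) 𝓘(ℝ, ℝ × ℝ × ℂ) ∞
      (fun q : ℂ × ℂ => (l₂ + q.2.im, -q.2.re + sh2 a₁ c₁' a₂ c₂', (32 / 5 : ℝ) * q.1 * c)) (0, 0) := by
  refine Pool.Agent.RSG.ld_left (g := fun w : ℝ × ℝ × ℂ => ((5 / 32 : ℝ) * w.2.2 * c⁻¹,
    ((sh2 a₁ c₁' a₂ c₂' - w.2.1 : ℝ) : ℂ) + ((w.1 - l₂ : ℝ) : ℂ) * I)) ?_ ?_ ?_ ?_
  · refine Filter.Eventually.of_forall fun q => ?_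
    have h1 : ContDiff ℝ ∞ (fun q : ℂ × ℂ => q.2.re) := Complex.reCLM.contDiff.comp contDiff_snd
    have h2 : ContDiff ℝ ∞ (fun q : ℂ × ℂ => q.2.im) := Complex.imCLM.contDiff.comp contDiff_snd
    exact ((contDiff_const.add h2).prodMk ((h1.neg.add contDiff_const).prodMk
      ((contDiff_const.mul contDiff_fst).mul contDiff_const))).contDiffAt
  · simp [Complex.finrank_real_complex]
  · have h1' : Differentiable ℝ (fun w : ℝ × ℝ × ℂ => sh2 a₁ c₁' a₂ c₂' - w.2.1) := by fun_prop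
    have h2' : Differentiable ℝ (fun w : ℝ × ℝ × ℂ => w.1 - l₂) := by fun_prop
    have h1 : Differentiable ℝ (fun w : ℝ × ℝ × ℂ => (((sh2 a₁ c₁' a₂ c₂' - w.2.1 : ℝ)) : ℂ)) :=
      Complex.ofRealCLM.differentiable.comp h1'
    have h2 : Differentiable ℝ (fun w : ℝ × ℝ × ℂ => (((w.1 - l₂ : ℝ)) : ℂ)) :=
      Complex.ofRealCLM.differentiable.comp h2'
    have h3 : Differentiable ℝ (fun w : ℝ × ℝ × ℂ => ((5 / 32 : ℝ) : ℂ) * w.2.2 * c⁻¹) := by fun_prop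
    exact (h3.prodMk (h1.add (h2.mul_const I))) _
  · refine Filter.Eventually.of_forall fun q => ?_
    refine Prod.ext ?_ ?_
    · simp only
      push_cast
      field_simp
    · apply Complex.ext
      · simp
      · simp

theorem adm (hd : a₁ * c₂' + c₁' * a₂ = 1 ∨ a₁ * c₂' + c₁' * a₂ = -1) {p : ℂ} (h0 : p ≠ 0) :
    ((5 / (8 * ‖p‖) : ℝ) * ex (mA a₁ a₂ (sh0 ‖p‖) (an p)) : ℂ) ≠ -1 ∨ ∀ k : ℤ, tA c₁' c₂' (sh0 ‖p‖) (an p) ≠ k := by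
  by_contra hcon
  push Not at hcon
  obtain ⟨h1, k, hk⟩ := hcon
  have hp0 : 0 < ‖p‖ := norm_pos_iff.mpr h0
  have h2 : (((5 / (8 * ‖p‖) : ℝ)) : ℂ) * ex (mA a₁ a₂ (sh0 ‖p‖) (an p)) = ((1 : ℝ) : ℂ) * ex (1 / 2) := by
    rw [h1, Pool.Agent.RSG.ex_half]
    simp
  obtain ⟨h3, n, hn⟩ := Pool.Agent.RSG.ex_polar (by positivity) one_pos h2
  have h4 : ‖p‖ = 5 / 8 := by
    field_simp at h3
    linarith
  have h5 : sh0 ‖p‖ = 1 / 4 := tel_sh0_one (by rw [h4]; norm_num)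
  rw [h5] at hk hn
  unfold tA at hk
  unfold mA at hn
  have h6 : ((a₁ * c₂' + c₁' * a₂ : ℤ) : ℝ) = ((2 * c₂' - 4 * (c₂' * n) + 4 * (a₂ * k) : ℤ) : ℝ) := by
    push_cast
    linear_combination (-4 * c₂' : ℝ) * hn + (4 * a₂ : ℝ) * hk
  have h7 : a₁ * c₂' + c₁' * a₂ = 2 * c₂' - 4 * (c₂' * n) + 4 * (a₂ * k) := by exact_mod_cast h6
  rw [h7] at hd
  omega

theorem EEt_loc (hS : Strip J κ₁ κ₂ b l₁ l₂ η) (D : Nf J κ₁ κ₂ b a₁ c₁' a₂ c₂' X)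
    (hd : a₁ * c₂' + c₁' * a₂ = 1 ∨ a₁ * c₂' + c₁' * a₂ = -1) {p : ℂ} (hp : ‖p‖ ≤ 10) :
    IsLocalDiffeomorphAt 𝓘(ℝ, ℂ × ℂ) (𝓡 4) ∞ (EEt D l₁ l₂ η) (p, 0) := by
  have hη := hS.pos
  have hν : ∀ᶠ q : ℂ × ℂ in 𝓝 (p, 0), |q.2.im| < η := by
    have hc : ContinuousAt (fun q : ℂ × ℂ => |q.2.im|) (p, 0) :=
      (Complex.continuous_im.comp continuous_snd).abs.continuousAt
    refine hc.eventually_lt continuousAt_const ?_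
    simpa using hη
  by_cases h0 : p = 0
  · subst h0
    have hn : ∀ᶠ q : ℂ × ℂ in 𝓝 (0, 0), ‖q.1‖ ≤ 1 / 24 := by
      have hc : ContinuousAt (fun q : ℂ × ℂ => ‖q.1‖) (0, 0) := continuous_fst.norm.continuousAt
      refine (hc.eventually_lt continuousAt_const ?_).mono fun q h => le_of_lt h
      simp
    have hne := Pool.Agent.RSG.ex_ne (((a₁ * c₂' + c₁' * a₂ : ℤ) : ℝ) * c₁' / 2)
    have h1 := tel_F2 a₁ c₁' a₂ c₂' l₂ _ hne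
    have h2 := D.loc₂ (l₂ + (0 : ℂ).im) (-(0 : ℂ).re + sh2 a₁ c₁' a₂ c₂') (((32 / 5 : ℝ) : ℂ) * 0 *
      ex (((a₁ * c₂' + c₁' * a₂ : ℤ) : ℝ) * c₁' / 2)) (by simp)
    have h3 := IsLocalDiffeomorphAt.comp (hf := h1) (hg := h2)
    refine Pool.Agent.CSG.ld_congr h3 ?_
    filter_upwards [hn, hν] with q hq hq2
    exact EEt_two hS D hd hq hq2
  · have hn : ∀ᶠ q : ℂ × ℂ in 𝓝 (p, 0), ‖q.1‖ ≤ 12 := by
      have hc : ContinuousAt (fun q : ℂ × ℂ => ‖q.1‖) (p, 0) := continuous_fst.norm.continuousAt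
      refine (hc.eventually_lt continuousAt_const ?_).mono fun q h => le_of_lt h
      simp only
      linarith
    have hne : ∀ᶠ q : ℂ × ℂ in 𝓝 (p, 0), q.1 ≠ 0 :=
      (continuous_fst.continuousAt (x := ((p, 0) : ℂ × ℂ))).eventually_ne h0
    have h1 := tel_Phi_loc (a₁ := a₁) (c₁' := c₁') (a₂ := a₂) (c₂' := c₂') hd h0
    have hPhi : tel_Phi a₁ c₁' a₂ c₂' p (p, 0) =
        ((5 / (8 * ‖p‖) : ℝ) * ex (mA a₁ a₂ (sh0 ‖p‖) (an p)), 0, tA c₁' c₂' (sh0 ‖p‖) (an p)) := by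
      unfold tel_Phi tel_m tel_t
      simp only
      rw [tel_al_self h0]
      simp
    have hy : (((5 / (8 * ‖p‖) : ℝ)) : ℂ) * ex (mA a₁ a₂ (sh0 ‖p‖) (an p)) ≠ 0 := by
      refine mul_ne_zero ?_ (Pool.Agent.RSG.ex_ne _)
      have := norm_pos_iff.mpr h0
      have h5 : (5 / (8 * ‖p‖) : ℝ) ≠ 0 := by positivity
      exact_mod_cast h5
    have h2 := Gy_ld hS D hy (adm hd h0)
    rw [← hPhi] at h2
    have h3 := IsLocalDiffeomorphAt.comp (hf := h1) (hg := h2)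
    refine Pool.Agent.CSG.ld_congr h3 ?_
    filter_upwards [hn, hν, hne] with q hq hq2 hq0
    obtain ⟨k, hk⟩ := tel_al_int (p := p) h0 hq0
    have e := EEt_gy hS D (p := q.1) (ν := q.2) hq0 hq hq2
    have e2 : ex (tel_m a₁ a₂ p q) = ex (mA a₁ a₂ (-q.2.re + sh0 ‖q.1‖) (an q.1)) := by
      rw [Pool.Agent.RSG.ex_eq_iff]
      refine ⟨a₂ * k, ?_⟩
      unfold tel_m mA
      rw [hk]
      push_cast
      ring
    have e3 : tel_t c₁' c₂' p q = tA c₁' c₂' (-q.2.re + sh0 ‖q.1‖) (an q.1) + ((c₂' * k : ℤ) : ℝ) := by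
      unfold tel_t tA
      rw [hk]
      push_cast
      ring
    show EEt D l₁ l₂ η (q.1, q.2) = Gy D η (tel_Phi a₁ c₁' a₂ c₂' p q)
    rw [e]
    unfold tel_Phi
    rw [e2, e3, Gy_per hS D]

end

end Pool.Agent.MMV
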