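import Pool.Agent.MMV.TGy

/-!
# MMV/TFa
: the disc near its boundary and near its centre   (difficulty 4)

* `EEt_gy`: for `0 < ‖p‖ ≤ 12`, `|ν.im| < η` one has the formula with `Gy`: for `‖p‖ < 9` it is the definition.  For `9 ≤ ‖p‖ ≤ 12`: see `EEt_one`: the computation shows `Gy (..) = D.F₁ (..)`, which is the definition of `EEt`.
* `gy_one`: `44/5 ≤ ‖p‖ ≤ 12`: `sh0 ‖p‖ = 0` (`‖p‖ ≥ 2`), `y = (5/(8‖p‖)) ex m`, `m = a₁ (-ν.re) - a₂ an p`, `‖y‖ ≤ 5/(8·44/5) = 25/352 ≤ 1/14`: `Zy y = -1 + 2 y` (`Zy_near`), `‖Zy y‖ ≤ 3/2`: `Gy_in`: `D.A (b (-1 + 2 y, ν.im/η, t))`, `t = c₁ (-ν.re) + c₂ an p`.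
  `hS.strand₁` with `l = ν.im`, `v = 4 y = (5/(2‖p‖)) ex m`, `‖v‖ < 1`: `= D.A (κ₁ (l₁ + ν.im, v, t))`; `D.glue₁` with `r = 5/(2‖p‖)`, `φ = -ν.re`, `s = an p`: `= D.F₁ (l₁ + ν.im, an p, r ex (-ν.re))`.
* `EEt_two`: `p = 0`: definition.  `0 < ‖p‖ ≤ 1/24`: `sh0 ‖p‖ = 1/4` (`‖p‖ ≤ 1`), `m = a₁ (-ν.re + 1/4) - a₂ an p`, `t = c₁ (-ν.re + 1/4) + c₂ an p`, `‖y‖ = 5/(8‖p‖) ≥ 15`, `Zy y = 1 - 2/y = 1 + (16‖p‖/5) ex (1/2 - m)` (`2/y = (16‖p‖/5) ex (-m)`, `RSG.ex_half`), `‖Zy y‖ ≤ 3/2`: `Gy_in`;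
  `hS.strand₂` with `l = ν.im`, `v₂ = (32‖p‖/5) ex (1/2 - m)`, `‖v₂‖ < 1`.  With `δ = a₁ c₂ + c₁ a₂ = ±1`, `φ = an p + δ c₁/2`, `s = -ν.re + 1/4 - δ c₂/2` (`= -ν.re + sh2`), `r = 32‖p‖/5`: `a₂ φ - a₁ s = a₂ an p + a₁ ν.re - a₁/4 + δ (a₂ c₁ + a₁ c₂)/2 = 1/2 - m` (`δ² = 1`),
  `c₂ φ + c₁ s = c₂ an p - c₁ ν.re + c₁/4 = t`: `D.glue₂`.  `r ex φ = (32/5) p ex (δ c₁/2)` (`RSG.ex_arg`, `RSG.ex_add`).
-/

open scoped ContDiff Manifold Topology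
open Set Filter
open Complex (I)
open Pool.Agent.RSG (E3 E4 S2 S3 S4 ex cj c1 c2 ht fh pS3 pS4)
open Pool.Agent.RBM (ThickT OnT Box)
open Pool.Agent.LKF (OnF)
open Pool.Agent.PTH (SP ISP)
open Pool.Agent.KNH (circ)
open Pool.Agent.LKT (s1 s2)

namespace Pool.Agent.MMV

section
variable {E : Type*} [NormedAddCommGroup E] [NormedSpace ℝ E] {H : Type*} [TopologicalSpace H]
  {J : ModelWithCorners ℝ E H} {P : Type*} [TopologicalSpace P] [ChartedSpace H P]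
  {X : Type*} [TopologicalSpace X] [ChartedSpace E4 X] {κ₁ κ₂ : ℝ × ℂ × ℝ → P} {b : ℂ × ℝ × ℝ → P} {l₁ l₂ η : ℝ}
  {a₁ c₁' a₂ c₂' : ℤ}

theorem tfa_sh0_far {r : ℝ} (h : 2 ≤ r) : sh0 r = 0 := by
  unfold sh0
  rw [Pool.Agent.CSG.stp_one (by norm_num) h]
  ring

theorem tfa_sh0_near {r : ℝ} (h : r ≤ 1) : sh0 r = 1 / 4 := by
  unfold sh0
  rw [Pool.Agent.CSG.stp_zero (by norm_num) h]
  ring

theorem tfa_norm {r m : ℝ} (h : 0 ≤ r) : ‖(r : ℂ) * ex m‖ = r := by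
  rw [norm_mul, Pool.Agent.RSG.ex_norm, mul_one, Complex.norm_real, Real.norm_of_nonneg h]

/-- the computation near the first torus -/
theorem tfa_one (hS : Strip J κ₁ κ₂ b l₁ l₂ η) (D : Nf J κ₁ κ₂ b a₁ c₁' a₂ c₂' X) {p ν : ℂ} (hp : 44 / 5 ≤ ‖p‖)
    (hν : |ν.im| < η) :
    Gy D η ((5 / (8 * ‖p‖) : ℝ) * ex (mA a₁ a₂ (-ν.re + sh0 ‖p‖) (an p)), ν.im, tA c₁' c₂' (-ν.re + sh0 ‖p‖) (an p)) =
      D.F₁ (l₁ + ν.im, an p, (5 / (2 * ‖p‖) : ℝ) * ex (-ν.re)) := by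
  have hpos : 0 < ‖p‖ := by linarith
  rw [tfa_sh0_far (by linarith), add_zero]
  obtain ⟨m, hm⟩ : ∃ m, m = mA a₁ a₂ (-ν.re) (an p) := ⟨_, rfl⟩
  obtain ⟨y, hy⟩ : ∃ y : ℂ, y = ((5 / (8 * ‖p‖) : ℝ) : ℂ) * ex m := ⟨_, rfl⟩
  have hr0 : 0 < 5 / (8 * ‖p‖) := by positivity
  have hyn : ‖y‖ = 5 / (8 * ‖p‖) := by rw [hy]; exact tfa_norm hr0.le
  have hyle : ‖y‖ ≤ 1 / 14 := by
    rw [hyn, div_le_div_iff₀ (by positivity) (by norm_num)]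
    linarith
  have hy0 : y ≠ 0 := by
    intro h
    rw [h, norm_zero] at hyn
    linarith
  have hy1 : y ≠ -1 := by
    intro h
    rw [h, norm_neg, norm_one] at hyle
    norm_num at hyle
  have hZ := Zy_near hy0 hyle
  have hZn : ‖Zy y‖ ≤ 3 / 2 := by
    rw [hZ]
    calc ‖(-1 : ℂ) + 2 * y‖ ≤ ‖(-1 : ℂ)‖ + ‖2 * y‖ := norm_add_le _ _
      _ = 1 + 2 * ‖y‖ := by rw [norm_neg, norm_one, norm_mul]; norm_num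
      _ ≤ 3 / 2 := by linarith
  rw [← hm, ← hy, Gy_in D hy1 hZn, hZ]
  have h4 : ‖4 * y‖ < 1 := by
    rw [norm_mul]
    have : ‖(4 : ℂ)‖ = 4 := by norm_num
    rw [this]
    linarith
  have hst := hS.strand₁ ν.im (4 * y) (tA c₁' c₂' (-ν.re) (an p)) hν h4
  have e1 : (-1 : ℂ) + 4 * y / 2 = -1 + 2 * y := by ring
  rw [e1] at hst
  rw [← hst]
  have hr1 : 0 < 5 / (2 * ‖p‖) := by positivity
  have hr2 : 5 / (2 * ‖p‖) < 1 := by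
    rw [div_lt_one (by positivity)]
    linarith
  have hg := D.glue₁ (l₁ + ν.im) (an p) (5 / (2 * ‖p‖)) (-ν.re) hr1 hr2
  rw [hg]
  have e2 : ((5 / (2 * ‖p‖) : ℝ) : ℂ) * ex (a₁ * (-ν.re) - a₂ * an p) = 4 * y := by
    rw [hy, hm]
    unfold mA
    have hpc : (‖p‖ : ℂ) ≠ 0 := by exact_mod_cast hpos.ne'
    push_cast
    field_simp
    ring
  rw [e2]
  rfl

/-- the formula with `Gy` -/
theorem EEt_gy (hS : Strip J κ₁ κ₂ b l₁ l₂ η) (D : Nf J κ₁ κ₂ b a₁ c₁' a₂ c₂' X) {p ν : ℂ} (h0 : p ≠ 0) (hp : ‖p‖ ≤ 12)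
    (hν : |ν.im| < η) : EEt D l₁ l₂ η (p, ν) =
      Gy D η ((5 / (8 * ‖p‖) : ℝ) * ex (mA a₁ a₂ (-ν.re + sh0 ‖p‖) (an p)), ν.im, tA c₁' c₂' (-ν.re + sh0 ‖p‖) (an p)) := by
  by_cases h9 : 9 ≤ ‖p‖
  · rw [tfa_one hS D (by linarith) hν]
    unfold EEt
    simp only
    rw [if_pos h9]
  · unfold EEt
    simp only
    rw [if_neg h9, if_neg h0]

/-- near the first torus -/
theorem EEt_one (hS : Strip J κ₁ κ₂ b l₁ l₂ η) (D : Nf J κ₁ κ₂ b a₁ c₁' a₂ c₂' X) {p ν : ℂ} (hp : 44 / 5 ≤ ‖p‖)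
    (hp' : ‖p‖ ≤ 12) (hν : |ν.im| < η) :
    EEt D l₁ l₂ η (p, ν) = D.F₁ (l₁ + ν.im, an p, (5 / (2 * ‖p‖) : ℝ) * ex (-ν.re)) := by
  have h0 : p ≠ 0 := by
    intro h
    rw [h, norm_zero] at hp
    norm_num at hp
  rw [EEt_gy hS D h0 hp' hν]
  exact tfa_one hS D hp hν

/-- near the second torus -/
theorem EEt_two (hS : Strip J κ₁ κ₂ b l₁ l₂ η) (D : Nf J κ₁ κ₂ b a₁ c₁' a₂ c₂' X)
    (hd : a₁ * c₂' + c₁' * a₂ = 1 ∨ a₁ * c₂' + c₁' * a₂ = -1) {p ν : ℂ} (hp : ‖p‖ ≤ 1 / 24) (hν : |ν.im| < η) :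
    EEt D l₁ l₂ η (p, ν) = D.F₂ (l₂ + ν.im, -ν.re + sh2 a₁ c₁' a₂ c₂',
      (32 / 5 : ℝ) * p * ex ((a₁ * c₂' + c₁' * a₂ : ℤ) * c₁' / 2)) := by
  by_cases h0 : p = 0
  · subst h0
    unfold EEt
    simp only
    rw [if_neg (by rw [norm_zero]; norm_num), if_pos trivial, mul_zero, zero_mul]
  have hpos : 0 < ‖p‖ := norm_pos_iff.2 h0
  rw [EEt_gy hS D h0 (by linarith) hν, tfa_sh0_near (by linarith)]
  obtain ⟨m, hm⟩ : ∃ m, m = mA a₁ a₂ (-ν.re + 1 / 4) (an p) := ⟨_, rfl⟩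
  obtain ⟨y, hy⟩ : ∃ y : ℂ, y = ((5 / (8 * ‖p‖) : ℝ) : ℂ) * ex m := ⟨_, rfl⟩
  have hr0 : 0 < 5 / (8 * ‖p‖) := by positivity
  have hyn : ‖y‖ = 5 / (8 * ‖p‖) := by rw [hy]; exact tfa_norm hr0.le
  have hyge : 14 ≤ ‖y‖ := by
    rw [hyn, le_div_iff₀ (by positivity)]
    linarith
  have hy1 : y ≠ -1 := by
    intro h
    rw [h, norm_neg, norm_one] at hyge
    norm_num at hyge
  have hZ := Zy_far hyge
  have hpc : (‖p‖ : ℂ) ≠ 0 := by exact_mod_cast hpos.ne'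
  obtain ⟨v, hv⟩ : ∃ v : ℂ, v = ((32 * ‖p‖ / 5 : ℝ) : ℂ) * ex (1 / 2 - m) := ⟨_, rfl⟩
  have hex : ex (1 / 2 - m) = -(ex m)⁻¹ := by
    have h1 : ex (1 / 2 - m) * ex m = -1 := by
      rw [← Pool.Agent.RSG.ex_add, sub_add_cancel, Pool.Agent.RSG.ex_half]
    have h2 := Pool.Agent.RSG.ex_ne m
    rw [eq_neg_iff_add_eq_zero, ← mul_left_inj' h2, add_mul, h1, inv_mul_cancel₀ h2]
    ring
  have hyv : 1 - 2 / y = 1 + v / 2 := by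
    rw [hy, hv, hex]
    have h2 := Pool.Agent.RSG.ex_ne m
    push_cast
    field_simp
    ring
  have hvn : ‖v‖ = 32 * ‖p‖ / 5 := by rw [hv]; exact tfa_norm (by positivity)
  have hv1 : ‖v‖ < 1 := by rw [hvn]; linarith
  have hZn : ‖Zy y‖ ≤ 3 / 2 := by
    rw [hZ, hyv]
    calc ‖(1 : ℂ) + v / 2‖ ≤ ‖(1 : ℂ)‖ + ‖v / 2‖ := norm_add_le _ _
      _ = 1 + ‖v‖ / 2 := by rw [norm_one, norm_div]; norm_num
      _ ≤ 3 / 2 := by linarith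
  rw [← hm, ← hy, Gy_in D hy1 hZn, hZ, hyv]
  rw [← hS.strand₂ ν.im v _ hν hv1]
  obtain ⟨δ, hδ⟩ : ∃ δ : ℤ, δ = a₁ * c₂' + c₁' * a₂ := ⟨_, rfl⟩
  have hδ2 : (δ : ℝ) * δ = 1 := by
    rw [← hδ] at hd
    rcases hd with h | h <;> rw [h] <;> norm_num
  have hδr : (δ : ℝ) = a₁ * c₂' + c₁' * a₂ := by rw [hδ]; push_cast; ring
  have hr1 : 0 < 32 * ‖p‖ / 5 := by positivity
  have hr2 : 32 * ‖p‖ / 5 < 1 := by linarith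
  have hg := D.glue₂ (l₂ + ν.im) (-ν.re + sh2 a₁ c₁' a₂ c₂') (32 * ‖p‖ / 5) (an p + δ * c₁' / 2) hr1 hr2
  have e1 : (a₂ : ℝ) * (an p + δ * c₁' / 2) - a₁ * (-ν.re + sh2 a₁ c₁' a₂ c₂') = 1 / 2 - m := by
    rw [hm]
    unfold mA sh2
    rw [← hδ]
    have : (δ : ℝ) * (a₁ * c₂' + c₁' * a₂) = 1 := by rw [← hδr]; exact hδ2
    linear_combination this / 2
  have e2 : (c₂' : ℝ) * (an p + δ * c₁' / 2) + c₁' * (-ν.re + sh2 a₁ c₁' a₂ c₂') = tA c₁' c₂' (-ν.re + 1 / 4) (an p) := by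
    unfold tA sh2
    rw [← hδ]
    ring
  have e3 : ((32 * ‖p‖ / 5 : ℝ) : ℂ) * ex (an p + δ * c₁' / 2) =
      (32 / 5 : ℝ) * p * ex ((a₁ * c₂' + c₁' * a₂ : ℤ) * c₁' / 2) := by
    rw [Pool.Agent.RSG.ex_add, ← hδ]
    have h1 : (‖p‖ : ℂ) * ex (an p) = p := Pool.Agent.RSG.ex_arg
    rw [show ((32 * ‖p‖ / 5 : ℝ) : ℂ) * (ex (an p) * ex ((δ : ℝ) * c₁' / 2)) =
      ((32 / 5 : ℝ) : ℂ) * ((‖p‖ : ℂ) * ex (an p)) * ex ((δ : ℝ) * c₁' / 2) by push_cast; ring, h1]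
  rw [e1, e2, e3, ← hv] at hg
  exact hg.symm

end

end Pool.Agent.MMV
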