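import Pool.Agent.MMV.TGa

/-!
# MMV/TFt
: the new structure   (difficulty 4)

From `D`, `Γ`, `ρ` (`tm_gamma` with `e`): `A' = Γ ∘ D.A`, `F₂' = Γ ∘ D.F₂`, `Q' = Γ ∘ D.Q`, `F₁' (l, s, ξ) = D.F₁ (l, s, ξ)` if `‖ξ‖ < ρ`, `Γ (D.F₁ (l, s + 2 e an ξ, ξ))` otherwise; for `0 < ‖ξ‖ < ρ` the two formulas agree (`ξ = ‖ξ‖ ex (an ξ)`).
* the points `D.A p` (`p` off the tori), `D.F₂ (..)`, `D.Q z` and `D.F₁ (l, s, ξ)`, `ξ ≠ 0`, are not in `Tor = {D.F₁ (l, s, 0)}` (`disj₁`, `ne₁₂`, `disjQ₁`, `inj₁`), so `Γ` is a local diffeomorphism there: `A_loc`, `F_loc`, `Q_loc`.  For `F₁'` at `ξ ≠ 0`: near the point `F₁' = Γ ∘ D.F₁ ∘ (l, s, ξ) ↦ (l, s + 2 e α ξ, ξ)`, `α` a smooth branch of `an` (period `1` in `s`).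
* `glueF` for the first torus: `F₁' (l, s, r ex φ) = Γ (D.F₁ (l, s + 2 e φ, r ex φ)) = Γ (D.A (κ₁ (l, r ex (a₁ φ - a₂ (s + 2 e φ)), c₁ φ + c₂ (s + 2 e φ))))`: slopes `(a₁ - 2 e a₂, -a₂; c₁ + 2 e c₂, c₂)` (`an (r ex φ) - φ ∈ ℤ`, period `1`).  Second torus, twin: apply `Γ` to `D.glue₂`, `D.glueQ`.
* injectivity and disjointness: `Γ` is a bijection, and `F₁' (l, s, ξ) = Γ (D.F₁ (l, s + 2 e an ξ, ξ))` for all `ξ` (`an 0 = 0`, `Γ` fixes `Tor`): so `F₁' = F₁' ∘ ..` reduces to `D.inj₁`.  `cover`: apply `D.cover` to `Γ⁻¹ q`.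
* `Fin 2` families: `![κ₁, κ₂] 0 = κ₁` etc. (`Fin.forall_fin_two`, `fin_cases`); `¬ OnF ![κ₁, κ₂] p ∧ ¬ OnF ![κγ b] p ↔ Off3 κ₁ κ₂ b p` (`off3_iff`).
-/

open scoped ContDiff Manifold Topology
open Set Filter
open Complex (I)
open Pool.Agent.RSG (E3 E4 S2 S3 S4 ex cj c1 c2 ht fh pS3 pS4)
open Pool.Agent.RBM (ThickT OnT Box)
open Pool.Agent.LKF (OnF)
open Pool.Agent.PTH (SP ISP)
open Pool.Agent.KNH (circ)
open Pool.Agent.LKT (s1 s2)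

namespace Pool.Agent.MMV

section
variable {E : Type*} [NormedAddCommGroup E] [NormedSpace ℝ E] {H : Type*} [TopologicalSpace H]
  {J : ModelWithCorners ℝ E H} {P : Type*} [TopologicalSpace P] [ChartedSpace H P]
  {X : Type*} [TopologicalSpace X] [ChartedSpace E4 X] {κ₁ κ₂ : ℝ × ℂ × ℝ → P} {b : ℂ × ℝ × ℝ → P} {l₁ l₂ η : ℝ}
  {a₁ c₁' a₂ c₂' : ℤ}

theorem off3_iff (p : P) : (¬ OnF ![κ₁, κ₂] p ∧ ¬ OnF ![κγ b] p) ↔ Off3 κ₁ κ₂ b p := by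
  constructor
  · rintro ⟨h1, h2⟩
    exact ⟨fun h => h1 ⟨0, h⟩, fun h => h1 ⟨1, h⟩, fun h => h2 ⟨0, h⟩⟩
  · rintro ⟨h1, h2, h3⟩
    refine ⟨?_, ?_⟩
    · rintro ⟨i, hi⟩
      rcases (show i = 0 ∨ i = 1 by fin_cases i; exacts [Or.inl rfl, Or.inr rfl]) with rfl | rfl
      · exact h1 hi
      · exact h2 hi
    · rintro ⟨i, hi⟩
      rcases (show i = 0 from Subsingleton.elim _ _) with rfl
      exact h3 hi

theorem tft_f2 : ∀ i : Fin 2, i = 0 ∨ i = 1 := by decide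

theorem tft_f1 : ∀ i : Fin 1, i = 0 := by decide

theorem tft_per (D : Nf J κ₁ κ₂ b a₁ c₁' a₂ c₂' X) (l s : ℝ) {ξ : ℂ} (hξ : ‖ξ‖ < 1) (k : ℤ) :
    D.F₁ (l, s + k, ξ) = D.F₁ (l, s, ξ) := by
  induction k using Int.induction_on with
  | zero => simp
  | succ i ih =>
    have h := (D.per₁ l (s + (i : ℤ)) ξ hξ).2
    rw [← ih, ← h]
    congr 3
    push_cast
    ring
  | pred i ih =>
    have h := (D.per₁ l (s + ((-(i : ℤ) - 1 : ℤ) : ℝ)) ξ hξ).2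
    rw [← ih, ← h]
    congr 3
    push_cast
    ring

theorem tft_an (ξ : ℂ) : ξ = (‖ξ‖ : ℂ) * ex (an ξ) := RSG.ex_arg.symm

theorem tft_an_zero : an 0 = 0 := by
  unfold an
  simp

/-- smooth branch of the argument -/
noncomputable def tft_al (ξ₀ ξ : ℂ) : ℝ :=
  an ξ₀ + (Complex.log (ξ * (starRingEnd ℂ) (ex (an ξ₀)))).im / (2 * Real.pi)

theorem tft_al_smooth {ξ₀ : ℂ} (h0 : ξ₀ ≠ 0) : ∀ᶠ ξ in 𝓝 ξ₀, ContDiffAt ℝ ∞ (tft_al ξ₀) ξ := by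
  have hc : ContinuousAt (fun ξ : ℂ => ξ * (starRingEnd ℂ) (ex (an ξ₀))) ξ₀ :=
    (continuous_id.mul continuous_const).continuousAt
  have hv : ξ₀ * (starRingEnd ℂ) (ex (an ξ₀)) = (‖ξ₀‖ : ℂ) := by
    have h := tft_an ξ₀
    calc ξ₀ * (starRingEnd ℂ) (ex (an ξ₀)) = ((‖ξ₀‖ : ℂ) * ex (an ξ₀)) * (starRingEnd ℂ) (ex (an ξ₀)) := by
          rw [← h]
      _ = (‖ξ₀‖ : ℂ) * (ex (an ξ₀) * (starRingEnd ℂ) (ex (an ξ₀))) := by ring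
      _ = (‖ξ₀‖ : ℂ) := by rw [RSG.ex_mul_conj, mul_one]
  have hsl : ξ₀ * (starRingEnd ℂ) (ex (an ξ₀)) ∈ Complex.slitPlane := by
    rw [hv]
    left
    rw [Complex.ofReal_re]
    exact norm_pos_iff.2 h0
  have hev := hc.eventually (Complex.isOpen_slitPlane.mem_nhds hsl)
  filter_upwards [hev] with ξ hξ
  have h1 : ContDiffAt ℝ ∞ Complex.log (ξ * (starRingEnd ℂ) (ex (an ξ₀))) :=
    (Complex.contDiffAt_log hξ).restrict_scalars ℝ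
  have h2 : ContDiffAt ℝ ∞ (fun ξ : ℂ => ξ * (starRingEnd ℂ) (ex (an ξ₀))) ξ :=
    (contDiff_id.mul contDiff_const).contDiffAt
  have h3 : ContDiffAt ℝ ∞ (fun ξ : ℂ => Complex.log (ξ * (starRingEnd ℂ) (ex (an ξ₀)))) ξ :=
    ContDiffAt.comp (g := Complex.log) ξ h1 h2
  have h4 : ContDiffAt ℝ ∞ (fun ξ : ℂ => (Complex.log (ξ * (starRingEnd ℂ) (ex (an ξ₀)))).im) ξ :=
    ContDiffAt.comp (g := Complex.imCLM) ξ Complex.imCLM.contDiff.contDiffAt h3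
  exact contDiffAt_const.add (h4.div_const _)

theorem tft_al_eq (ξ₀ ξ : ℂ) : ξ = (‖ξ‖ : ℂ) * ex (tft_al ξ₀ ξ) := by
  obtain ⟨w, hw⟩ : ∃ w, w = ξ * (starRingEnd ℂ) (ex (an ξ₀)) := ⟨_, rfl⟩
  have h1 : ξ = w * ex (an ξ₀) := by
    rw [hw, mul_assoc, mul_comm ((starRingEnd ℂ) (ex (an ξ₀))), RSG.ex_mul_conj, mul_one]
  have h2 : ‖w‖ = ‖ξ‖ := by
    rw [hw, norm_mul, RCLike.norm_conj, RSG.ex_norm, mul_one]
  have h3 : w = (‖w‖ : ℂ) * ex (an w) := tft_an w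
  have h4 : tft_al ξ₀ ξ = an w + an ξ₀ := by
    unfold tft_al
    rw [← hw, Complex.log_im]
    unfold an
    ring
  rw [h4, RSG.ex_add, ← mul_assoc, ← h2, ← h3]
  exact h1

theorem tft_shift_ld {ξ₀ : ℂ} (h0 : ξ₀ ≠ 0) (c : ℝ) (l s : ℝ) :
    IsLocalDiffeomorphAt 𝓘(ℝ, ℝ × ℝ × ℂ) 𝓘(ℝ, ℝ × ℝ × ℂ) ∞
      (fun q : ℝ × ℝ × ℂ => (q.1, q.2.1 + c * tft_al ξ₀ q.2.2, q.2.2)) (l, s, ξ₀) := by
  have key : ∀ c s' : ℝ, ∀ᶠ q in 𝓝 ((l, s', ξ₀) : ℝ × ℝ × ℂ), ContMDiffAt 𝓘(ℝ, ℝ × ℝ × ℂ)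
      𝓘(ℝ, ℝ × ℝ × ℂ) ∞ (fun q : ℝ × ℝ × ℂ => (q.1, q.2.1 + c * tft_al ξ₀ q.2.2, q.2.2)) q := by
    intro c s'
    have hc : ContinuousAt (fun q : ℝ × ℝ × ℂ => q.2.2) (l, s', ξ₀) :=
      (continuous_snd.comp continuous_snd).continuousAt
    filter_upwards [hc.eventually (tft_al_smooth h0)] with q hq
    rw [contMDiffAt_iff_contDiffAt]
    have h1 : ContDiffAt ℝ ∞ (fun q : ℝ × ℝ × ℂ => q.2.2) q :=
      (contDiff_snd.comp contDiff_snd).contDiffAt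
    have h2 : ContDiffAt ℝ ∞ (fun q : ℝ × ℝ × ℂ => tft_al ξ₀ q.2.2) q :=
      ContDiffAt.comp (g := tft_al ξ₀) (f := fun q : ℝ × ℝ × ℂ => q.2.2) q hq h1
    have h3 : ContDiffAt ℝ ∞ (fun q : ℝ × ℝ × ℂ => q.2.1) q :=
      (contDiff_fst.comp contDiff_snd).contDiffAt
    exact contDiff_fst.contDiffAt.prodMk ((h3.add (contDiffAt_const.mul h2)).prodMk h1)
  refine RSG.ld_two (g := fun q : ℝ × ℝ × ℂ => (q.1, q.2.1 + (-c) * tft_al ξ₀ q.2.2, q.2.2))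
    (key c s) (key (-c) _) (Filter.Eventually.of_forall ?_) (Filter.Eventually.of_forall ?_)
  · rintro ⟨l', s', ξ'⟩
    refine Prod.ext rfl (Prod.ext ?_ rfl)
    change s' + c * tft_al ξ₀ ξ' + (-c) * tft_al ξ₀ ξ' = s'
    ring
  · rintro ⟨l', s', ξ'⟩
    refine Prod.ext rfl (Prod.ext ?_ rfl)
    change s' + (-c) * tft_al ξ₀ ξ' + c * tft_al ξ₀ ξ' = s'
    ring

theorem nf_step [T2Space X] (hS : Strip J κ₁ κ₂ b l₁ l₂ η) (D : Nf J κ₁ κ₂ b a₁ c₁' a₂ c₂' X)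
    (hd : a₁ * c₂' + c₁' * a₂ = 1 ∨ a₁ * c₂' + c₁' * a₂ = -1) {e : ℤ} (he : e = 1 ∨ e = -1) :
    Nonempty (FT J ![κ₁, κ₂] ![⟨a₁ - 2 * e * a₂, -a₂, c₁' + 2 * e * c₂', c₂'⟩, ⟨a₂, -a₁, c₂', c₁'⟩] ![κγ b] X) := by
  obtain ⟨Γ, ρ, hρ0, hρ1, Gloc, Gpol, Gtor⟩ := tm_gamma hS D hd he
  obtain ⟨F₁', hF⟩ : ∃ F₁' : ℝ × ℝ × ℂ → X,
      F₁' = fun q => Γ (D.F₁ (q.1, q.2.1 + 2 * e * an q.2.2, q.2.2)) := ⟨_, rfl⟩
  have hF' : ∀ (l s : ℝ) (ξ : ℂ), F₁' (l, s, ξ) = Γ (D.F₁ (l, s + 2 * e * an ξ, ξ)) := by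
    intro l s ξ
    rw [hF]
  -- near the torus
  have hin : ∀ (l s : ℝ) (ξ : ℂ), ‖ξ‖ < ρ → F₁' (l, s, ξ) = D.F₁ (l, s, ξ) := by
    intro l s ξ hξ
    rw [hF']
    by_cases h0 : ξ = 0
    · subst h0
      rw [Gtor, tft_an_zero, mul_zero, add_zero]
    · have h1 := Gpol l (s + 2 * e * an ξ) ‖ξ‖ (an ξ) (norm_pos_iff.2 h0) hξ
      rw [← tft_an ξ, add_sub_cancel_right] at h1
      exact h1
  -- off the torus
  have hout : ∀ (l s : ℝ) (ξ : ℂ) (φ : ℝ), ξ ≠ 0 → ‖ξ‖ < 1 → ξ = (‖ξ‖ : ℂ) * ex φ →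
      F₁' (l, s, ξ) = Γ (D.F₁ (l, s + 2 * e * φ, ξ)) := by
    intro l s ξ φ h0 hξ hφ
    rw [hF']
    have hn : 0 < ‖ξ‖ := norm_pos_iff.2 h0
    obtain ⟨_, m, hm⟩ := RSG.ex_polar hn hn ((tft_an ξ).symm.trans hφ)
    have h1 := tft_per D l (s + 2 * e * an ξ) hξ (2 * e * m)
    rw [← h1, hm]
    congr 4
    push_cast
    ring
  have hloc1 : ∀ (l s : ℝ) (ξ : ℂ), ‖ξ‖ < 1 → IsLocalDiffeomorphAt 𝓘(ℝ, ℝ × ℝ × ℂ) (𝓡 4) ∞ F₁' (l, s, ξ) := by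
    intro l s ξ hξ
    by_cases hr : ‖ξ‖ < ρ
    · refine CSG.ld_congr (D.loc₁ l s ξ hξ) ?_
      have hc : ContinuousAt (fun q : ℝ × ℝ × ℂ => ‖q.2.2‖) (l, s, ξ) :=
        (continuous_norm.comp (continuous_snd.comp continuous_snd)).continuousAt
      filter_upwards [hc.eventually (gt_mem_nhds hr)] with q hq
      exact hin q.1 q.2.1 q.2.2 hq
    · have h0 : ξ ≠ 0 := by
        rintro rfl
        rw [norm_zero] at hr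
        exact hr hρ0
      have h1 := tft_shift_ld h0 (2 * e) l s
      have h2 : IsLocalDiffeomorphAt 𝓘(ℝ, ℝ × ℝ × ℂ) (𝓡 4) ∞ D.F₁
          ((fun q : ℝ × ℝ × ℂ => (q.1, q.2.1 + (2 * e) * tft_al ξ q.2.2, q.2.2)) (l, s, ξ)) :=
        D.loc₁ _ _ _ hξ
      have h3 := IsLocalDiffeomorphAt.comp (𝓡 4) X h1 h2
      have h4 : IsLocalDiffeomorphAt (𝓡 4) (𝓡 4) ∞ Γ
          ((D.F₁ ∘ fun q : ℝ × ℝ × ℂ => (q.1, q.2.1 + (2 * e) * tft_al ξ q.2.2, q.2.2)) (l, s, ξ)) := by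
        apply Gloc
        intro l' s' he'
        exact h0 (D.inj₁ _ _ _ _ _ _ hξ (by rw [norm_zero]; exact one_pos) he').1
      have h5 := IsLocalDiffeomorphAt.comp (𝓡 4) X h3 h4
      refine CSG.ld_congr h5 ?_
      have hc : ContinuousAt (fun q : ℝ × ℝ × ℂ => ‖q.2.2‖) (l, s, ξ) :=
        (continuous_norm.comp (continuous_snd.comp continuous_snd)).continuousAt
      have hc2 : ContinuousAt (fun q : ℝ × ℝ × ℂ => q.2.2) (l, s, ξ) :=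
        (continuous_snd.comp continuous_snd).continuousAt
      filter_upwards [hc.eventually (gt_mem_nhds hξ), hc2.eventually (isOpen_ne.mem_nhds h0)] with q hq hq2
      exact hout q.1 q.2.1 q.2.2 _ hq2 hq (tft_al_eq ξ q.2.2)
  have hz : ‖(0 : ℂ)‖ < 1 := by
    rw [norm_zero]
    exact one_pos
  have hF0 : ∀ l s : ℝ, F₁' (l, s, 0) = Γ (D.F₁ (l, s, 0)) := by
    intro l s
    rw [hF', tft_an_zero, mul_zero, add_zero]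
  refine ⟨{ A := fun p => Γ (D.A p), F := ![F₁', fun q => Γ (D.F₂ q)], Q := fun _ z => Γ (D.Q z), A_loc := ?_,
            A_inj := ?_, F_per1 := ?_, F_per2 := ?_, F_loc := ?_, F_inj := ?_, glueF := ?_, Q_loc := ?_,
            Q_inj := ?_, glueQ := ?_, disjF := ?_, disjQ := ?_, disjFQ := ?_, cover := ?_ }⟩
  · intro p h1 h2
    have hp := (off3_iff p).1 ⟨h1, h2⟩
    have h3 : IsLocalDiffeomorphAt (𝓡 4) (𝓡 4) ∞ Γ (D.A p) := Gloc _ fun l s e' => D.disj₁ l s p hp e'.symm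
    exact IsLocalDiffeomorphAt.comp (𝓡 4) X (D.A_loc p hp) h3
  · intro p p' h1 h2 h1' h2' e'
    exact D.A_inj p p' ((off3_iff p).1 ⟨h1, h2⟩) ((off3_iff p').1 ⟨h1', h2'⟩) (Γ.injective e')
  · intro i l s ξ hξ
    rcases tft_f2 i with rfl | rfl
    · change F₁' (l + 1, s, ξ) = F₁' (l, s, ξ)
      rw [hF', hF', (D.per₁ l _ ξ hξ).1]
    · change Γ (D.F₂ (l + 1, s, ξ)) = Γ (D.F₂ (l, s, ξ))
      rw [(D.per₂ l s ξ hξ).1]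
  · intro i l s ξ hξ
    rcases tft_f2 i with rfl | rfl
    · change F₁' (l, s + 1, ξ) = F₁' (l, s, ξ)
      rw [hF', hF', ← (D.per₁ l (s + 2 * e * an ξ) ξ hξ).2]
      congr 4
      ring
    · change Γ (D.F₂ (l, s + 1, ξ)) = Γ (D.F₂ (l, s, ξ))
      rw [(D.per₂ l s ξ hξ).2]
  · intro i l s ξ hξ
    rcases tft_f2 i with rfl | rfl
    · exact hloc1 l s ξ hξ
    · have h3 : IsLocalDiffeomorphAt (𝓡 4) (𝓡 4) ∞ Γ (D.F₂ (l, s, ξ)) :=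
        Gloc _ fun l' s' e' => D.ne₁₂ l' s' 0 l s ξ hz hξ e'.symm
      exact IsLocalDiffeomorphAt.comp (𝓡 4) X (D.loc₂ l s ξ hξ) h3
  · intro i l s ξ i' l' s' ξ' hξ hξ' e'
    rcases tft_f2 i with rfl | rfl
    · rcases tft_f2 i' with rfl | rfl
      · have e2 : F₁' (l, s, ξ) = F₁' (l', s', ξ') := e'
        rw [hF', hF'] at e2
        obtain ⟨h1, h2, m, h3⟩ := D.inj₁ _ _ _ _ _ _ hξ hξ' (Γ.injective e2)
        refine ⟨rfl, h1, h2, m, ?_⟩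
        rw [← h1] at h3
        linarith
      · have e2 : F₁' (l, s, ξ) = Γ (D.F₂ (l', s', ξ')) := e'
        rw [hF'] at e2
        exact absurd (Γ.injective e2) (D.ne₁₂ _ _ _ _ _ _ hξ hξ')
    · rcases tft_f2 i' with rfl | rfl
      · have e2 : Γ (D.F₂ (l, s, ξ)) = F₁' (l', s', ξ') := e'
        rw [hF'] at e2
        exact absurd (Γ.injective e2).symm (D.ne₁₂ _ _ _ _ _ _ hξ' hξ)
      · have e2 : Γ (D.F₂ (l, s, ξ)) = Γ (D.F₂ (l', s', ξ')) := e'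
        obtain ⟨h1, h2, h3⟩ := D.inj₂ _ _ _ _ _ _ hξ hξ' (Γ.injective e2)
        exact ⟨rfl, h1, h2, h3⟩
  · intro i l s r φ hr hr'
    rcases tft_f2 i with rfl | rfl
    · have hn : ‖(r : ℂ) * ex φ‖ = r := by
        rw [norm_mul, RSG.ex_norm, mul_one, Complex.norm_of_nonneg hr.le]
      have h0 : (r : ℂ) * ex φ ≠ 0 := by
        intro h
        rw [h, norm_zero] at hn
        exact hr.ne hn
      have h1 := hout l s ((r : ℂ) * ex φ) φ h0 (by rw [hn]; exact hr') (by rw [hn])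
      change F₁' (l, s, (r : ℂ) * ex φ) = Γ (D.A (κ₁ (l, r * ex (((a₁ - 2 * e * a₂ : ℤ) : ℝ) * φ +
        ((-a₂ : ℤ) : ℝ) * s), ((c₁' + 2 * e * c₂' : ℤ) : ℝ) * φ + (c₂' : ℝ) * s)))
      rw [h1, D.glue₁ l (s + 2 * e * φ) r φ hr hr']
      have e1 : (a₁ : ℝ) * φ - a₂ * (s + 2 * e * φ) = ((a₁ - 2 * e * a₂ : ℤ) : ℝ) * φ +
          ((-a₂ : ℤ) : ℝ) * s := by
        push_cast
        ring
      have e2 : (c₁' : ℝ) * φ + c₂' * (s + 2 * e * φ) = ((c₁' + 2 * e * c₂' : ℤ) : ℝ) * φ +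
          (c₂' : ℝ) * s := by
        push_cast
        ring
      rw [e1, e2]
    · change Γ (D.F₂ (l, s, (r : ℂ) * ex φ)) = Γ (D.A (κ₂ (l, r * ex ((a₂ : ℝ) * φ +
        ((-a₁ : ℤ) : ℝ) * s), (c₂' : ℝ) * φ + (c₁' : ℝ) * s)))
      rw [D.glue₂ l s r φ hr hr']
      have e1 : (a₂ : ℝ) * φ - a₁ * s = (a₂ : ℝ) * φ + ((-a₁ : ℤ) : ℝ) * s := by
        push_cast
        ring
      rw [e1]
  · intro i z hz'
    have h3 : IsLocalDiffeomorphAt (𝓡 4) (𝓡 4) ∞ Γ (D.Q z) :=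
      Gloc _ fun l' s' e' => D.disjQ₁ l' s' z hz' e'.symm
    exact IsLocalDiffeomorphAt.comp (𝓡 4) X (D.Q_loc z hz') h3
  · intro i z i' z' h1 h2 e'
    exact ⟨Subsingleton.elim _ _, D.Q_inj z z' h1 h2 (Γ.injective e')⟩
  · intro i z l m u h1 h2 h3 h4 h5 h6
    rcases tft_f1 i with rfl
    exact congrArg Γ (D.glueQ z l m u h1 h2 h3 h4 h5 h6)
  · intro i l s p h1 h2 e'
    have hp := (off3_iff p).1 ⟨h1, h2⟩
    rcases tft_f2 i with rfl | rfl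
    · have e2 : F₁' (l, s, 0) = Γ (D.A p) := e'
      rw [hF0] at e2
      exact D.disj₁ l s p hp (Γ.injective e2)
    · have e2 : Γ (D.F₂ (l, s, 0)) = Γ (D.A p) := e'
      exact D.disj₂ l s p hp (Γ.injective e2)
  · intro i z p h1 h2 h3 h4 e'
    exact D.disjQ z p h1 h2 ((off3_iff p).1 ⟨h3, h4⟩) (Γ.injective e')
  · intro i l s i' z h1 e'
    rcases tft_f2 i with rfl | rfl
    · have e2 : F₁' (l, s, 0) = Γ (D.Q z) := e'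
      rw [hF0] at e2
      exact D.disjQ₁ l s z h1 (Γ.injective e2)
    · have e2 : Γ (D.F₂ (l, s, 0)) = Γ (D.Q z) := e'
      exact D.disjQ₂ l s z h1 (Γ.injective e2)
  · intro q
    have hq : Γ (Γ.symm q) = q := Γ.apply_symm_apply q
    rcases D.cover (Γ.symm q) with ⟨p, hp, e'⟩ | ⟨l, s, e'⟩ | ⟨l, s, e'⟩ | ⟨z, h1, h2, e'⟩
    · have h := (off3_iff p).2 hp
      exact Or.inl ⟨p, h.1, h.2, by rw [← e', hq]⟩
    · refine Or.inr (Or.inl ⟨0, l, s, ?_⟩)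
      change q = F₁' (l, s, 0)
      rw [hF0, ← e', hq]
    · refine Or.inr (Or.inl ⟨1, l, s, ?_⟩)
      change q = Γ (D.F₂ (l, s, 0))
      rw [← e', hq]
    · refine Or.inr (Or.inr ⟨0, z, h1, h2, ?_⟩)
      rw [← e', hq]

end

end Pool.Agent.MMV
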