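import Pool.Agent.MMV.TEi
import Pool.Agent.RSG.TwG

/-!
# MMV/TGa
: the diffeomorphism   (difficulty 3)

`RSG.even_twist (tht_hyp hS D hd)` gives `Γ₀`, `ρ₀`: local diffeomorphism off `TorT (Tht D l₁) = {D.F₁ (l, s, 0)}`, the identity on it, `Γ₀ (Tht (y, φ, r ex s)) = Tht (y, φ - 2 s, r ex s)` for `0 < r < ρ₀`.  For `e = 1`: `Γ = Γ₀`, `ρ = ρ₀/2`: `D.F₁ (l, s, r ex φ) = Tht (l - l₁, s, 2 r ex φ)`.
For `e = -1`: `Γ = Γ₀⁻¹`: `Γ₀ (D.F₁ (l, s + 2φ, r ex φ)) = D.F₁ (l, s, r ex φ)`.  `Γ₀⁻¹` is a local diffeomorphism at `x ∉ Tor`: `x = Γ₀ y`, `y ∉ Tor` (otherwise `x = y`), `CSG.ld_of_comp_left` applied to `Γ₀⁻¹ ∘ Γ₀ = id` (or the local inverse theorem in CSG/LDa).  `Γ` maps the complement of `Tor` to itself.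
-/

open scoped ContDiff Manifold Topology
open Set Filter
open Complex (I)
open Pool.Agent.RSG (E3 E4 S2 S3 S4 ex cj c1 c2 ht fh pS3 pS4)
open Pool.Agent.RBM (ThickT OnT Box)
open Pool.Agent.LKF (OnF)
open Pool.Agent.PTH (SP ISP)
open Pool.Agent.KNH (circ)
open Pool.Agent.LKT (s1 s2)

namespace Pool.Agent.MMV

section
variable {E : Type*} [NormedAddCommGroup E] [NormedSpace ℝ E] {H : Type*} [TopologicalSpace H]
  {J : ModelWithCorners ℝ E H} {P : Type*} [TopologicalSpace P] [ChartedSpace H P]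
  {X : Type*} [TopologicalSpace X] [ChartedSpace E4 X] {κ₁ κ₂ : ℝ × ℂ × ℝ → P} {b : ℂ × ℝ × ℝ → P} {l₁ l₂ η : ℝ}
  {a₁ c₁' a₂ c₂' : ℤ}

theorem tm_gamma [T2Space X] (hS : Strip J κ₁ κ₂ b l₁ l₂ η) (D : Nf J κ₁ κ₂ b a₁ c₁' a₂ c₂' X)
    (hd : a₁ * c₂' + c₁' * a₂ = 1 ∨ a₁ * c₂' + c₁' * a₂ = -1) {e : ℤ} (he : e = 1 ∨ e = -1) :
    ∃ (Γ : Equiv.Perm X) (ρ : ℝ), 0 < ρ ∧ ρ < 1 ∧
      (∀ x, (∀ l s, x ≠ D.F₁ (l, s, 0)) → IsLocalDiffeomorphAt (𝓡 4) (𝓡 4) ∞ Γ x) ∧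
      (∀ l s r φ : ℝ, 0 < r → r < ρ → Γ (D.F₁ (l, s, r * ex φ)) = D.F₁ (l, s - 2 * e * φ, r * ex φ)) ∧
      ∀ l s : ℝ, Γ (D.F₁ (l, s, 0)) = D.F₁ (l, s, 0) := by
  obtain ⟨Γ₀, ρ₀, h0, h1, hloc, hmap, hid⟩ := RSG.even_twist (tht_hyp hS D hd)
  have hT : ∀ (l s : ℝ) (ζ : ℂ), ‖2 * ζ‖ < 1 → D.F₁ (l, s, ζ) = Tht D l₁ (l - l₁, s, 2 * ζ) := by
    intro l s ζ h
    have e1 : l₁ + (l - l₁) = l := by ring
    have e2 : 2 * ζ / 2 = ζ := by ring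
    unfold Tht
    simp only [h, if_true, e1, e2]
  have hfix : ∀ l s : ℝ, Γ₀ (D.F₁ (l, s, 0)) = D.F₁ (l, s, 0) := by
    intro l s
    apply hid
    refine ⟨l - l₁, s, ?_⟩
    rw [hT _ _ _ (by simp), mul_zero]
  have hloc' : ∀ x, (∀ l s, x ≠ D.F₁ (l, s, 0)) → IsLocalDiffeomorphAt (𝓡 4) (𝓡 4) ∞ Γ₀ x := by
    intro x hx
    apply hloc
    rintro ⟨y, φ, hy⟩
    apply hx (l₁ + y) φ
    rw [hy]
    unfold Tht
    simp
  have hmap' : ∀ l s r φ : ℝ, 0 < r → r < ρ₀ / 2 → Γ₀ (D.F₁ (l, s, r * ex φ)) = D.F₁ (l, s - 2 * φ, r * ex φ) := by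
    intro l s r φ hr hr'
    have h2 := hmap (l - l₁) s φ (2 * r) (by linarith) (by linarith)
    have e : ((2 * r : ℝ) : ℂ) * ex φ = 2 * ((r : ℂ) * ex φ) := by
      push_cast
      ring
    have hn : ‖2 * ((r : ℂ) * ex φ)‖ < 1 := by
      rw [← e, norm_mul, RSG.ex_norm, mul_one, Complex.norm_real, Real.norm_of_nonneg (by linarith)]
      linarith
    rw [e, ← hT _ _ _ hn, ← hT _ _ _ hn] at h2
    exact h2
  rcases he with rfl | rfl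
  · refine ⟨Γ₀, ρ₀ / 2, by linarith, by linarith, hloc', ?_, hfix⟩
    intro l s r φ hr hr'
    rw [hmap' l s r φ hr hr']
    congr 3
    push_cast
    ring
  · refine ⟨Γ₀.symm, ρ₀ / 2, by linarith, by linarith, ?_, ?_, ?_⟩
    · intro x hx
      have hy : ∀ l s, Γ₀.symm x ≠ D.F₁ (l, s, 0) := by
        intro l s he
        apply hx l s
        rw [← hfix l s, ← he, Equiv.apply_symm_apply]
      have h2 := hloc' _ hy
      have h3 : IsLocalDiffeomorphAt (𝓡 4) (𝓡 4) ∞ (Γ₀.symm ∘ Γ₀) (Γ₀.symm x) := by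
        have e : (Γ₀.symm ∘ Γ₀ : X → X) = id := by
          funext z
          exact Γ₀.symm_apply_apply z
        rw [e]
        exact CSG.ld_id _
      have h4 := CSG.ld_of_comp_left h3 h2
      rwa [Equiv.apply_symm_apply] at h4
    · intro l s r φ hr hr'
      rw [Equiv.symm_apply_eq, hmap' _ _ r φ hr hr']
      congr 3
      push_cast
      ring
    · intro l s
      rw [Equiv.symm_apply_eq, hfix]

end

end Pool.Agent.MMV
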