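import Pool.Agent.MMV.TDef
import Pool.Agent.TS.StepLip

/-!
# MMV/TPl
: the planar map `Zy`   (difficulty 3)

Steps: `hst x = 1 - stp 4 14 x`, `CSG.stp_zero`, `CSG.stp_one`, `CSG.stp_nonneg`, `CSG.stp_le_one`, `TS.stp_lip` (constant `8/10`).
For `|y| ≤ 1`, `y ≠ 0`, put `w = 1/y`, `|w| ≥ 1`: `Zy y = Zw w = -1 + 2/(w + h)`, `h = hst |w| ∈ [0, 1]`.  For `|y| > 1`: `Zy y = -Zw y`.
* `Zy_near`: `|w| ≥ 14`, `h = 0`.  `Zy_far`: same with `w = y`.  `Zy_mid`: `1 ≤ |w| ≤ 4` resp. `1 < |y| ≤ 4`, `h = 1`: `-1 + 2/(w + 1) = (1 - w)/(1 + w) = (y - 1)/(y + 1)`, `-(-1 + 2/(y+1)) = (y - 1)/(y + 1)` (`y ≠ -1`).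
* for `|w| > 1` or (`|w| = 1`, `w ≠ -1`): `w + h ≠ 0` (`|w| > 4` or `h = 1`).  `Re (Zw w) ≤ 0` for `|w| ≥ 1`, `w ≠ -1`, with `< 0` if `|w| > 1`: for `|w| ≤ 4`, `Re ((1-w)/(1+w)) = (1 - |w|²)/|1+w|²`; for `|w| > 4`: `|Zw w + 1| ≤ 2/(|w| - 1) < 2/3`.
* `Zy_inj`: if both `|y|, |y'| ≤ 1`: `w + hst |w| = w' + hst |w'|`, so `|w - w'| = |hst |w| - hst |w'|| ≤ (4/5) ||w| - |w'|| ≤ (4/5) |w - w'|`, `w = w'`; same if both are `> 1`; if `|y| ≤ 1 < |y'|`: `Re (Zy y) ≤ 0 < Re (Zy y')`.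
* `Zy_ld`: for `|y| < 1/2`, `Zy = Zw ∘ inv` near `y`; for `1/4 < |y| < 4` it is `(y - 1)/(y + 1)` near `y`; for `|y| > 2` it is `-Zw`.  `w ↦ w + hst |w|` is a local diffeomorphism at `w ≠ 0` (`CSG.ld_of_fderiv`: it is smooth near `w`;
  the derivative `L` satisfies `|L v| ≥ |v| - (4/5) |v|` because of the Lipschitz bound: `‖f (w + v) - f w‖ ≥ (1/5) ‖v‖` for all `v`; so `L v = 0 → v = 0`: `HasFDerivAt` and a limit along `s v`, `s → 0`), `u ↦ -1 + 2/u` and `inv` are holomorphic local diffeomorphisms off `0`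
  (smooth inverses: `RSG.ld_two`, or `CSG.ld_of_fderiv`).
* `Zy_dist₁`: `|y| ≤ 1`: `|Zy y + 1| = 2/|w + h| ≥ 2/(72/5 + 1)  > 1/8` (`|w| < 72/5`); `1 < |y|` and `|y| ≤ 4`: `Zy y + 1 = 2y/(y+1)`, norm `≥ 2|y|/(|y|+1) ≥ 1`; `|y| > 4`: `|Zy y - 1| ≤ 2/3`.
* `Zy_ne`: `Zy y ≠ -1`: `2/(w+h) ≠ 0`, resp. real part `> 0`; `Zy y ≠ 1`: real part `≤ 0`, resp. `2/(y + h) ≠ 0`.
* `cap_reg`: `2 (|y| - 1) ≤ 2 |y+1| < |y-1| ≤ |y| + 1` and `2 (1 - |y|) < 1 + |y|`.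
* `Zy_out`: if `1/4 ≤ |y| ≤ 4` by `Zy_mid`; otherwise `|Zy y| ≤ 1 + 2/3`.
-/

open scoped ContDiff Manifold Topology
open Set Filter
open Complex (I)
open Pool.Agent.RSG (E3 E4 S2 S3 S4 ex cj c1 c2 ht fh pS3 pS4)
open Pool.Agent.RBM (ThickT OnT Box)
open Pool.Agent.LKF (OnF)
open Pool.Agent.PTH (SP ISP)
open Pool.Agent.KNH (circ)
open Pool.Agent.LKT (s1 s2)

namespace Pool.Agent.MMV

open Pool.Agent.CSG (stp)

theorem hst_one {x : ℝ} (h : x ≤ 4) : hst x = 1 := by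
  unfold hst
  rw [CSG.stp_zero (by norm_num) h, sub_zero]

theorem hst_zero {x : ℝ} (h : 14 ≤ x) : hst x = 0 := by
  unfold hst
  rw [CSG.stp_one (by norm_num) h, sub_self]

theorem hst_mem (x : ℝ) : 0 ≤ hst x ∧ hst x ≤ 1 := by
  have h1 := CSG.stp_nonneg 4 14 x
  have h2 := CSG.stp_le_one 4 14 x
  unfold hst
  constructor <;> linarith

theorem hst_lip (x y : ℝ) : |hst x - hst y| ≤ 4 / 5 * |x - y| := by
  have h := TS.stp_lip (a := 4) (b := 14) (by norm_num) x y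
  have e : hst x - hst y = -(stp 4 14 x - stp 4 14 y) := by
    unfold hst
    ring
  rw [e, abs_neg]
  calc _ ≤ _ := h
    _ = _ := by norm_num

private theorem tpl_one_le_inv {y : ℂ} (hy : y ≠ 0) (h : ‖y‖ ≤ 1) : 1 ≤ ‖y⁻¹‖ := by
  rw [norm_inv]
  exact (one_le_inv₀ (norm_pos_iff.2 hy)).2 h

private theorem tpl_inv_ne {y : ℂ} (h : y ≠ -1) : y⁻¹ ≠ -1 := by
  intro h1
  apply h
  rw [← inv_inv y, h1]
  norm_num

theorem Zy_near {y : ℂ} (hy : y ≠ 0) (h : ‖y‖ ≤ 1 / 14) : Zy y = -1 + 2 * y := by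
  have h1 : 14 ≤ ‖y⁻¹‖ := by
    rw [norm_inv]
    have hp := norm_pos_iff.2 hy
    rw [le_inv_comm₀ (by norm_num) hp]
    linarith
  rw [Zy, if_pos (by linarith), Zw, hst_zero h1]
  simp

theorem Zy_far {y : ℂ} (h : 14 ≤ ‖y‖) : Zy y = 1 - 2 / y := by
  rw [Zy, if_neg (by linarith), Zw, hst_zero h]
  simp
  ring

theorem Zy_mid {y : ℂ} (h1 : 1 / 4 ≤ ‖y‖) (h2 : ‖y‖ ≤ 4) (h : y ≠ -1) : Zy y = (y - 1) / (y + 1) := by
  have hy : y ≠ 0 := by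
    rintro rfl
    norm_num at h1
  have hy1 : y + 1 ≠ 0 := fun h0 => h (eq_neg_of_add_eq_zero_left h0)
  rcases le_or_gt ‖y‖ 1 with hc | hc
  · have h3 : ‖y⁻¹‖ ≤ 4 := by
      rw [norm_inv]
      rw [inv_le_comm₀ (norm_pos_iff.2 hy) (by norm_num)]
      linarith
    rw [Zy, if_pos hc, Zw, hst_one h3]
    have e : y⁻¹ + ((1 : ℝ) : ℂ) = (y + 1) / y := by
      push_cast
      field_simp
      ring
    rw [e]
    field_simp
    ring
  · rw [Zy, if_neg (by linarith), Zw, hst_one h2]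
    have e : (y - 1) / (y + 1) = 1 - 2 / (y + 1) := by
      rw [eq_sub_iff_add_eq, ← add_div, div_eq_one_iff_eq hy1]
      ring
    rw [e]
    push_cast
    ring

private theorem tpl_add_ne {w : ℂ} (h1 : 1 ≤ ‖w‖) (h : w ≠ -1) : w + (hst ‖w‖ : ℝ) ≠ 0 := by
  intro h0
  rcases le_or_gt ‖w‖ 4 with hc | hc
  · rw [hst_one hc] at h0
    apply h
    push_cast at h0
    exact eq_neg_of_add_eq_zero_left h0
  · have h2 : w = -(hst ‖w‖ : ℝ) := eq_neg_of_add_eq_zero_left h0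
    have h3 : ‖w‖ = |hst ‖w‖| := by
      conv_lhs => rw [h2, norm_neg, Complex.norm_real]
      rfl
    obtain ⟨h4, h5⟩ := hst_mem ‖w‖
    rw [abs_of_nonneg h4] at h3
    linarith

private theorem tpl_re {w : ℂ} : (Zw w).re = -1 + 2 * (w.re + hst ‖w‖) / Complex.normSq (w + (hst ‖w‖ : ℝ)) := by
  unfold Zw
  rw [Complex.add_re, Complex.neg_re, Complex.one_re, Complex.div_re]
  simp

private theorem tpl_normSq {w : ℂ} : Complex.normSq (w + (hst ‖w‖ : ℝ)) = ‖w‖ ^ 2 + 2 * hst ‖w‖ * w.re + hst ‖w‖ ^ 2 := by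
  rw [Complex.sq_norm, Complex.normSq_apply, Complex.normSq_apply]
  simp
  ring

private theorem tpl_re_nonpos {w : ℂ} (h1 : 1 ≤ ‖w‖) (h : w ≠ -1) : (Zw w).re ≤ 0 := by
  rw [tpl_re]
  have hpos : 0 < Complex.normSq (w + (hst ‖w‖ : ℝ)) := Complex.normSq_pos.2 (tpl_add_ne h1 h)
  have hle : 2 * (w.re + hst ‖w‖) ≤ Complex.normSq (w + (hst ‖w‖ : ℝ)) := by
    rw [tpl_normSq]
    rcases le_or_gt ‖w‖ 4 with hc | hc
    · rw [hst_one hc]
      nlinarith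
    · obtain ⟨h4, h5⟩ := hst_mem ‖w‖
      have h6 := Complex.re_le_norm w
      nlinarith [mul_nonneg (sub_nonneg.2 h5) (sub_nonneg.2 h6), mul_nonneg h4 (norm_nonneg w)]
  have := (div_le_one hpos).2 hle
  linarith

private theorem tpl_re_neg {w : ℂ} (h1 : 1 < ‖w‖) : (Zw w).re < 0 := by
  have h : w ≠ -1 := by
    rintro rfl
    simp at h1
  rw [tpl_re]
  have hpos : 0 < Complex.normSq (w + (hst ‖w‖ : ℝ)) := Complex.normSq_pos.2 (tpl_add_ne h1.le h)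
  have hle : 2 * (w.re + hst ‖w‖) < Complex.normSq (w + (hst ‖w‖ : ℝ)) := by
    rw [tpl_normSq]
    rcases le_or_gt ‖w‖ 4 with hc | hc
    · rw [hst_one hc]
      nlinarith
    · obtain ⟨h4, h5⟩ := hst_mem ‖w‖
      have h6 := Complex.re_le_norm w
      nlinarith [mul_nonneg (sub_nonneg.2 h5) (sub_nonneg.2 h6), mul_nonneg h4 (norm_nonneg w)]
  have := (div_lt_one hpos).2 hle
  linarith

private theorem tpl_inj {w w' : ℂ} (he : Zw w = Zw w') : w = w' := by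
  unfold Zw at he
  have h1 : 2 / (w + (hst ‖w‖ : ℝ)) = 2 / (w' + (hst ‖w'‖ : ℝ)) := add_left_cancel he
  rw [div_eq_mul_inv, div_eq_mul_inv] at h1
  have h2 := inv_injective (mul_left_cancel₀ two_ne_zero h1)
  have h3 : w - w' = ((hst ‖w'‖ - hst ‖w‖ : ℝ) : ℂ) := by
    push_cast
    linear_combination h2
  have h4 : ‖w - w'‖ = |hst ‖w'‖ - hst ‖w‖| := by
    rw [h3, Complex.norm_real]
    rfl
  have h5 := hst_lip ‖w'‖ ‖w‖
  have h6 := abs_norm_sub_norm_le w' w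
  rw [norm_sub_rev] at h6
  have h7 : ‖w - w'‖ ≤ 0 := by
    have := norm_nonneg (w - w')
    nlinarith
  exact sub_eq_zero.1 (norm_le_zero_iff.1 h7)

theorem Zy_inj {y y' : ℂ} (hy : y ≠ 0) (hy' : y' ≠ 0) (h : y ≠ -1) (h' : y' ≠ -1) (he : Zy y = Zy y') : y = y' := by
  unfold Zy at he
  rcases le_or_gt ‖y‖ 1 with hc | hc <;> rcases le_or_gt ‖y'‖ 1 with hc' | hc'
  · rw [if_pos hc, if_pos hc'] at he
    exact inv_injective (tpl_inj he)
  · rw [if_pos hc, if_neg (not_le.2 hc')] at he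
    have h1 := tpl_re_nonpos (tpl_one_le_inv hy hc) (tpl_inv_ne h)
    have h2 := tpl_re_neg hc'
    rw [he, Complex.neg_re] at h1
    linarith
  · rw [if_neg (not_le.2 hc), if_pos hc'] at he
    have h1 := tpl_re_nonpos (tpl_one_le_inv hy' hc') (tpl_inv_ne h')
    have h2 := tpl_re_neg hc
    rw [← he, Complex.neg_re] at h1
    linarith
  · rw [if_neg (not_le.2 hc), if_neg (not_le.2 hc')] at he
    exact tpl_inj (neg_injective he)

private theorem tpl_ld_hol {f : ℂ → ℂ} {x f' : ℂ} (hf : ∀ᶠ y in 𝓝 x, ContDiffAt ℝ ∞ f y) (h : HasDerivAt f f' x)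
    (h0 : f' ≠ 0) : IsLocalDiffeomorphAt 𝓘(ℝ, ℂ) 𝓘(ℝ, ℂ) ∞ f x := by
  apply CSG.ld_of_fderiv hf rfl
  intro v hv
  rw [(h.hasFDerivAt.restrictScalars ℝ).fderiv] at hv
  simpa [h0] using hv

private theorem tpl_ld_g {u : ℂ} (hu : u ≠ 0) :
    IsLocalDiffeomorphAt 𝓘(ℝ, ℂ) 𝓘(ℝ, ℂ) ∞ (fun u : ℂ => -1 + 2 / u) u := by
  have hd : HasDerivAt (fun u : ℂ => -1 + 2 / u) (2 * (-(u ^ 2)⁻¹)) u := by
    have h1 := ((hasDerivAt_inv hu).const_mul 2).const_add (-1)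
    simpa [div_eq_mul_inv] using h1
  apply tpl_ld_hol _ hd
  · simp [hu]
  · filter_upwards [isOpen_ne.mem_nhds hu] with z hz
    simp only [div_eq_mul_inv]
    exact contDiffAt_const.add (contDiffAt_const.mul (contDiffAt_inv ℝ hz))

private theorem tpl_ld_inv {u : ℂ} (hu : u ≠ 0) :
    IsLocalDiffeomorphAt 𝓘(ℝ, ℂ) 𝓘(ℝ, ℂ) ∞ (fun u : ℂ => u⁻¹) u := by
  apply tpl_ld_hol _ (hasDerivAt_inv hu)
  · simp [hu]
  · filter_upwards [isOpen_ne.mem_nhds hu] with z hz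
    exact contDiffAt_inv ℝ hz

private theorem tpl_ld_neg {u : ℂ} :
    IsLocalDiffeomorphAt 𝓘(ℝ, ℂ) 𝓘(ℝ, ℂ) ∞ (fun u : ℂ => -u) u := by
  apply tpl_ld_hol _ (hasDerivAt_neg u)
  · norm_num
  · exact Eventually.of_forall fun z => contDiffAt_id.neg

private theorem tpl_ld_f {w : ℂ} (hw : w ≠ 0) :
    IsLocalDiffeomorphAt 𝓘(ℝ, ℂ) 𝓘(ℝ, ℂ) ∞ (fun w : ℂ => w + (hst ‖w‖ : ℝ)) w := by
  have hs : ContDiff ℝ ∞ hst := contDiff_const.sub (CSG.stp_smooth 4 14)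
  have hk : ∀ z : ℂ, z ≠ 0 → ContDiffAt ℝ ∞ (fun w : ℂ => hst ‖w‖) z := fun z hz =>
    hs.contDiffAt.comp z (contDiffAt_norm ℝ hz)
  have hlip : LipschitzWith (4 / 5) (fun w : ℂ => hst ‖w‖) := by
    apply LipschitzWith.of_dist_le_mul
    intro x y
    rw [Real.dist_eq, dist_eq_norm]
    have h1 := hst_lip ‖x‖ ‖y‖
    have h2 := abs_norm_sub_norm_le x y
    push_cast
    linarith
  have hder := norm_fderiv_le_of_lipschitz ℝ hlip (x₀ := w)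
  have hdk : DifferentiableAt ℝ (fun w : ℂ => hst ‖w‖) w := (hk w hw).differentiableAt (by simp)
  apply CSG.ld_of_fderiv _ rfl
  · intro v hv
    have hf : HasFDerivAt (fun w : ℂ => w + (hst ‖w‖ : ℝ))
        (ContinuousLinearMap.id ℝ ℂ + Complex.ofRealCLM.comp (fderiv ℝ (fun w : ℂ => hst ‖w‖) w)) w :=
      (hasFDerivAt_id w).add (Complex.ofRealCLM.hasFDerivAt.comp w hdk.hasFDerivAt)
    rw [hf.fderiv] at hv
    have h1 : v = -((fderiv ℝ (fun w : ℂ => hst ‖w‖) w v : ℝ) : ℂ) := by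
      apply eq_neg_of_add_eq_zero_left
      simpa using hv
    have h2 : ‖v‖ = ‖fderiv ℝ (fun w : ℂ => hst ‖w‖) w v‖ := by
      conv_lhs => rw [h1, norm_neg, Complex.norm_real]
    have h3 := (fderiv ℝ (fun w : ℂ => hst ‖w‖) w).le_opNorm v
    have h4 : ‖fderiv ℝ (fun w : ℂ => hst ‖w‖) w‖ * ‖v‖ ≤ 4 / 5 * ‖v‖ := by
      apply mul_le_mul_of_nonneg_right _ (norm_nonneg v)
      calc _ ≤ _ := hder
        _ = _ := by push_cast; norm_num
    have h5 : ‖v‖ ≤ 0 := by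
      have := norm_nonneg v
      linarith
    exact norm_le_zero_iff.1 h5
  · filter_upwards [isOpen_ne.mem_nhds hw] with z hz
    exact contDiffAt_id.add (Complex.ofRealCLM.contDiff.contDiffAt.comp z (hk z hz))

private theorem tpl_ld_Zw {w : ℂ} (hw : 1 < ‖w‖) : IsLocalDiffeomorphAt 𝓘(ℝ, ℂ) 𝓘(ℝ, ℂ) ∞ Zw w := by
  have h0 : w ≠ 0 := by
    rintro rfl
    simp at hw
    linarith
  have h1 : w ≠ -1 := by
    rintro rfl
    simp at hw
  exact (tpl_ld_f h0).comp _ _ (tpl_ld_g (tpl_add_ne hw.le h1))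

theorem Zy_ld {y : ℂ} (hy : y ≠ 0) (h : y ≠ -1) : IsLocalDiffeomorphAt 𝓘(ℝ, ℂ) 𝓘(ℝ, ℂ) ∞ Zy y := by
  have hcn : Continuous fun z : ℂ => ‖z‖ := continuous_norm
  rcases lt_or_ge ‖y‖ (1 / 2) with hc | hc
  · have hinv : 1 < ‖y⁻¹‖ := by
      rw [norm_inv]
      exact (one_lt_inv₀ (norm_pos_iff.2 hy)).2 (by linarith)
    have h1 : IsLocalDiffeomorphAt 𝓘(ℝ, ℂ) 𝓘(ℝ, ℂ) ∞ (Zw ∘ fun u : ℂ => u⁻¹) y :=
      (tpl_ld_inv hy).comp _ _ (tpl_ld_Zw hinv)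
    apply CSG.ld_congr h1
    filter_upwards [(isOpen_lt hcn continuous_const).mem_nhds hc] with z hz
    have hz' : ‖z‖ < 1 / 2 := hz
    rw [Zy, if_pos (by linarith)]
    rfl
  · rcases lt_or_ge ‖y‖ 3 with hc' | hc'
    · have hy1 : y + 1 ≠ 0 := fun h0 => h (eq_neg_of_add_eq_zero_left h0)
      have hd : HasDerivAt (fun z : ℂ => (z - 1) / (z + 1)) (2 / (y + 1) ^ 2) y := by
        have h2 := (((hasDerivAt_id y).sub_const 1)).div ((hasDerivAt_id y).add_const 1) hy1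
        have e : (1 * (id y + 1) - (id y - 1) * 1) / (id y + 1) ^ 2 = 2 / (y + 1) ^ 2 := by
          simp only [id]
          congr 1
          ring
        rw [← e]
        exact h2
      have h1 : IsLocalDiffeomorphAt 𝓘(ℝ, ℂ) 𝓘(ℝ, ℂ) ∞ (fun z : ℂ => (z - 1) / (z + 1)) y := by
        apply tpl_ld_hol _ hd
        · exact div_ne_zero two_ne_zero (pow_ne_zero _ hy1)
        · filter_upwards [isOpen_ne.mem_nhds h] with z hz
          have hz1 : z + 1 ≠ 0 := fun h0 => hz (eq_neg_of_add_eq_zero_left h0)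
          simp only [div_eq_mul_inv]
          exact (contDiffAt_id.sub contDiffAt_const).mul ((contDiffAt_id.add contDiffAt_const).inv hz1)
      apply CSG.ld_congr h1
      filter_upwards [(isOpen_lt hcn continuous_const).mem_nhds (show ‖y‖ < 4 by linarith),
        (isOpen_lt continuous_const hcn).mem_nhds (show 1 / 4 < ‖y‖ by linarith), isOpen_ne.mem_nhds h] with z hz hz' hz1
      exact Zy_mid (le_of_lt hz') (le_of_lt hz) hz1
    · have h1 : IsLocalDiffeomorphAt 𝓘(ℝ, ℂ) 𝓘(ℝ, ℂ) ∞ ((fun u : ℂ => -u) ∘ Zw) y :=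
        (tpl_ld_Zw (by linarith)).comp _ _ tpl_ld_neg
      apply CSG.ld_congr h1
      filter_upwards [(isOpen_lt continuous_const hcn).mem_nhds (show 1 < ‖y‖ by linarith)] with z hz
      have hz' : 1 < ‖z‖ := hz
      rw [Zy, if_neg (by linarith)]
      rfl

private theorem tpl_re_pos {y : ℂ} (hy : 1 < ‖y‖) : 0 < (Zy y).re := by
  have := tpl_re_neg hy
  rw [Zy, if_neg (by linarith), Complex.neg_re]
  linarith

theorem Zy_dist₁ {y : ℂ} (h : y ≠ -1) (hy : 5 / 72 < ‖y‖) : 1 / 8 < ‖Zy y + 1‖ := by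
  have hy0 : y ≠ 0 := by
    rintro rfl
    norm_num at hy
  rcases le_or_gt ‖y‖ 1 with hc | hc
  · have h1 : ‖y⁻¹‖ < 72 / 5 := by
      rw [norm_inv, inv_lt_comm₀ (norm_pos_iff.2 hy0) (by norm_num)]
      linarith
    have h2 := tpl_add_ne (tpl_one_le_inv hy0 hc) (tpl_inv_ne h)
    rw [Zy, if_pos hc, Zw]
    have e : -1 + 2 / (y⁻¹ + ((hst ‖y⁻¹‖ : ℝ) : ℂ)) + 1 = 2 / (y⁻¹ + ((hst ‖y⁻¹‖ : ℝ) : ℂ)) := by ring
    rw [e, norm_div, Complex.norm_two, lt_div_iff₀ (norm_pos_iff.2 h2)]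
    have h3 := norm_add_le y⁻¹ ((hst ‖y⁻¹‖ : ℝ) : ℂ)
    rw [Complex.norm_real, Real.norm_of_nonneg (hst_mem _).1] at h3
    have h4 := (hst_mem ‖y⁻¹‖).2
    linarith
  · have h1 := tpl_re_pos hc
    have h2 := Complex.re_le_norm (Zy y + 1)
    rw [Complex.add_re, Complex.one_re] at h2
    linarith

theorem Zy_ne {y : ℂ} (hy : y ≠ 0) (h : y ≠ -1) : Zy y ≠ -1 ∧ Zy y ≠ 1 := by
  rcases le_or_gt ‖y‖ 1 with hc | hc
  · have h2 := tpl_add_ne (tpl_one_le_inv hy hc) (tpl_inv_ne h)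
    have h3 := tpl_re_nonpos (tpl_one_le_inv hy hc) (tpl_inv_ne h)
    rw [Zy, if_pos hc]
    constructor
    · intro he
      rw [Zw] at he
      have h4 : 2 / (y⁻¹ + ((hst ‖y⁻¹‖ : ℝ) : ℂ)) = 0 := by linear_combination he
      rw [div_eq_zero_iff] at h4
      rcases h4 with h4 | h4
      · norm_num at h4
      · exact h2 h4
    · intro he
      rw [he, Complex.one_re] at h3
      linarith
  · have h3 := tpl_re_pos hc
    have h2 := tpl_add_ne hc.le h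
    constructor
    · intro he
      rw [he, Complex.neg_re, Complex.one_re] at h3
      linarith
    · intro he
      rw [Zy, if_neg (by linarith), Zw] at he
      have h4 : 2 / (y + ((hst ‖y‖ : ℝ) : ℂ)) = 0 := by linear_combination -he
      rw [div_eq_zero_iff] at h4
      rcases h4 with h4 | h4
      · norm_num at h4
      · exact h2 h4

theorem cap_reg {y : ℂ} (h : 2 * ‖y + 1‖ < ‖y - 1‖) : 1 / 3 < ‖y‖ ∧ ‖y‖ < 3 := by
  have h1 := norm_sub_le y 1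
  have h2 := norm_sub_norm_le y (-1)
  have h3 := norm_sub_norm_le (-1) y
  rw [sub_neg_eq_add, norm_neg, norm_one] at h2
  have e : (-1 : ℂ) - y = -(y + 1) := by ring
  rw [e, norm_neg, norm_neg, norm_one] at h3
  rw [norm_one] at h1
  constructor <;> linarith

private theorem tpl_Zw_le {w : ℂ} (hw : 4 < ‖w‖) : ‖Zw w‖ ≤ 2 := by
  obtain ⟨h4, h5⟩ := hst_mem ‖w‖
  have h1 : 3 < ‖w + ((hst ‖w‖ : ℝ) : ℂ)‖ := by
    have h2 := norm_sub_norm_le w (-((hst ‖w‖ : ℝ) : ℂ))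
    rw [sub_neg_eq_add, norm_neg, Complex.norm_real, Real.norm_of_nonneg h4] at h2
    linarith
  unfold Zw
  calc ‖-1 + 2 / (w + ((hst ‖w‖ : ℝ) : ℂ))‖ ≤ ‖(-1 : ℂ)‖ + ‖2 / (w + ((hst ‖w‖ : ℝ) : ℂ))‖ := norm_add_le _ _
    _ ≤ 1 + 1 := by
      rw [norm_neg, norm_one, norm_div, Complex.norm_two]
      have : 2 / ‖w + ((hst ‖w‖ : ℝ) : ℂ)‖ ≤ 1 := by
        rw [div_le_one (by linarith)]
        linarith
      linarith
    _ = 2 := by norm_num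

theorem Zy_out {y : ℂ} (hy : y ≠ 0) (h : ‖y - 1‖ ≤ 2 * ‖y + 1‖) : ‖Zy y‖ ≤ 2 := by
  have h1 : y ≠ -1 := by
    rintro rfl
    norm_num at h
  have hy1 : y + 1 ≠ 0 := fun h0 => h1 (eq_neg_of_add_eq_zero_left h0)
  rcases lt_or_ge ‖y‖ (1 / 4) with hc | hc
  · rw [Zy, if_pos (by linarith)]
    apply tpl_Zw_le
    rw [norm_inv, lt_inv_comm₀ (by norm_num) (norm_pos_iff.2 hy)]
    linarith
  · rcases le_or_gt ‖y‖ 4 with hc' | hc'
    · rw [Zy_mid hc hc' h1, norm_div, div_le_iff₀ (norm_pos_iff.2 hy1)]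
      exact h
    · rw [Zy, if_neg (by linarith), norm_neg]
      exact tpl_Zw_le hc'

end Pool.Agent.MMV
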