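import Pool.Agent.MMV.TDef
import Pool.Agent.TS.StepLip
import Pool.Agent.RBM.Frc

/-!
# MMV/TPu
: the push   (difficulty 4)

`x = N2 c t = |c|² + (frc t)²`, `fN x = (1-χ)(1/10 + x/2) + χ x`, `χ = stp (1/5) (6/25) x`.
* `fN_lb`: `χ = 0` for `x ≤ 1/5`: `1/10 + x/2 ≥ 1/10`; for `x ≥ 1/5` both terms are `≥ 1/5`.
* `fN_mono`: strictly increasing: `fN x = x + (1 - χ x) (1/10 - x/2)`.  For `x < x'`: on `x' ≤ 1/5` it is `1/10 + x/2`; on `[1/5, ∞)`: with `A = 1/10 + x/2 ≤ x`, `A' = 1/10 + x'/2 ≤ x'`, `χ ≤ χ'`: `fN x ≤ (1-χ) A' + χ x' ` ... precisely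
  `fN x' - fN x = (1-χ')(A' - A) + χ'(x' - x) + (χ' - χ)(x - A) > 0`.
* `fN_lt`: for `x < 6/25`: both terms are `≤ 6/25`, one of them strictly with positive weight.
* `sgm² N2 = fN (N2)` for `N2 > 0`, `sgm ≥ 0`, `sgm > 0`.
* `pu_id`: `χ = 1`, `fN x = x`, `sgm = 1`.
* in the push region `x < 6/25` one has `|frc t| < 49/100`, `|sgm frc t| ≤ √(fN x) < 49/100`, so with `t = k + frc t`: `frc (t + (sgm - 1) frc t) = sgm frc t` (see RBM/Frc for `frc`).  Hence `pu_N2` (for `x ≥ 6/25` by `pu_id`).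
* `pu_inj`: from the hypotheses `N2` of the images are equal (the second coordinates differ by an integer, `frc` is `1`-periodic), so `fN x = fN x'`, `x = x'` (`fN_mono`), same `sgm`, so `c = c'` and, if `x ≥ 6/25`, `t' = t + k`; if `x < 6/25`: `frc` of the second coordinates: `sgm frc t = sgm frc t'`, `frc t = frc t'`.
* `pu_ld`: at a point with `6/25 < x` or ... the map is the identity near the point if `x > 6/25`; if `x < 1/4` then `|frc t| < 1/2`, `frc t' = t' - k` near `t`, so `pu (c', t') = v₀ + g (|q|²) q`, `q = (c', t' - k)`, `g x = √(fN x / x)`, on the Euclidean space `ℂ × ℝ`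
  (norm `|c|² + τ²`), a radial map `q ↦ g(|q|²) q` with `(s g(s²))' > 0`: the derivative at `q` in the direction `v` is `g v + 2 g' ⟨q, v⟩ q`; if it vanishes then (pairing with `q`) `(g + 2 g' |q|²) ⟨q, v⟩ = 0` and `g + 2 x g' = (fN)'(x) / (g)`: indeed `x g² = fN x` gives `g² + 2 x g g' = fN'`;
  `fN' > 0` (`fN' = (1-χ)/2 + χ + χ' (x/2 - 1/10)`, for `x ≥ 1/5` the last term is `≥ 0`, for `x < 1/5` `χ' = 0`; `CSG.stp_deriv_nonneg`).  `CSG.ld_of_fderiv`.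
* `pu_zero`, `pu_lt`: `|sgm c|² ≤ sgm² x = fN x < 6/25` if `x < 6/25`.
* `pu_cos`: `c = 0`: `(frc t')² = N2 ≥ 1/10 > 1/16`, so `|frc t'| ∈ (1/4, 1/2]`, `cos (2π t') = cos (2π frc t') < 0`.
-/

open scoped ContDiff Manifold Topology
open Set Filter
open Complex (I)
open Pool.Agent.RSG (E3 E4 S2 S3 S4 ex cj c1 c2 ht fh pS3 pS4)
open Pool.Agent.RBM (ThickT OnT Box)
open Pool.Agent.LKF (OnF)
open Pool.Agent.PTH (SP ISP)
open Pool.Agent.KNH (circ)
open Pool.Agent.LKT (s1 s2)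

namespace Pool.Agent.MMV

open Pool.Agent.CSG (stp)
open Pool.Agent.RBM (frc)

theorem tpu_stp_deriv (x : ℝ) : 0 ≤ deriv (stp (1 / 5) (6 / 25)) x * (x / 2 - 1 / 10) := by
  rcases lt_or_ge x (1 / 5) with h | h
  · have h1 : stp (1 / 5) (6 / 25) =ᶠ[𝓝 x] fun _ => (0 : ℝ) := by
      filter_upwards [Iio_mem_nhds h] with y hy
      exact Pool.Agent.CSG.stp_zero (by norm_num) (le_of_lt hy)
    rw [h1.deriv_eq]
    simp
  · exact mul_nonneg (Pool.Agent.CSG.stp_deriv_nonneg (by norm_num) x) (by linarith)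

theorem tpu_fN_smooth : ContDiff ℝ ∞ fN := by
  have h := Pool.Agent.CSG.stp_smooth (1 / 5) (6 / 25)
  unfold fN
  exact ((contDiff_const.sub h).mul (contDiff_const.add (contDiff_id.div_const _))).add (h.mul contDiff_id)

theorem tpu_fN_deriv (x : ℝ) : 0 < deriv fN x := by
  have hs : DifferentiableAt ℝ (stp (1 / 5) (6 / 25)) x :=
    (Pool.Agent.CSG.stp_smooth (1 / 5) (6 / 25)).differentiable (by simp) x
  have h1 := hs.hasDerivAt
  have h2 : HasDerivAt fN ((0 - deriv (stp (1 / 5) (6 / 25)) x) * (1 / 10 + x / 2) +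
      (1 - stp (1 / 5) (6 / 25) x) * (1 / 2) + (deriv (stp (1 / 5) (6 / 25)) x * x +
        stp (1 / 5) (6 / 25) x * 1)) x := by
    have e1 : HasDerivAt (fun y : ℝ => 1 / 10 + y / 2) (1 / 2) x :=
      ((hasDerivAt_id x).div_const 2).const_add (1 / 10)
    exact (((hasDerivAt_const x (1 : ℝ)).sub h1).mul e1).add (h1.mul (hasDerivAt_id x))
  rw [h2.deriv]
  have h3 := tpu_stp_deriv x
  have h4 := Pool.Agent.CSG.stp_nonneg (1 / 5) (6 / 25) x
  have h5 := Pool.Agent.CSG.stp_le_one (1 / 5) (6 / 25) x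
  nlinarith

theorem fN_lb {x : ℝ} (h : 0 ≤ x) : 1 / 10 ≤ fN x := by
  have h4 := Pool.Agent.CSG.stp_nonneg (1 / 5) (6 / 25) x
  have h5 := Pool.Agent.CSG.stp_le_one (1 / 5) (6 / 25) x
  unfold fN
  rcases le_or_gt x (1 / 5) with hx | hx
  · rw [Pool.Agent.CSG.stp_zero (by norm_num) hx]
    linarith
  · nlinarith

theorem fN_mono : StrictMono fN := by
  exact strictMono_of_deriv_pos tpu_fN_deriv

theorem fN_lt {x : ℝ} (h : x < 6 / 25) : fN x < 6 / 25 := by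
  have h4 := Pool.Agent.CSG.stp_nonneg (1 / 5) (6 / 25) x
  have h5 : stp (1 / 5) (6 / 25) x < 1 := Pool.Agent.CSG.stp_lt_one (by norm_num) h
  unfold fN
  nlinarith

theorem N2_pos {c : ℂ} {t : ℝ} (h : c ≠ 0 ∨ ∀ k : ℤ, t ≠ k) : 0 < N2 c t := by
  unfold N2
  rcases h with h | h
  · have h1 : 0 < ‖c‖ := norm_pos_iff.mpr h
    have h2 : 0 < ‖c‖ ^ 2 := by positivity
    have h3 := sq_nonneg (frc t)
    linarith
  · have h1 : frc t ≠ 0 := by
      intro h0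
      obtain ⟨m, hm⟩ := Pool.Agent.RBM.frc_eq t
      apply h m
      linarith
    have h2 : 0 < frc t ^ 2 := by positivity
    have h3 := sq_nonneg ‖c‖
    linarith

theorem sgm_pos {c : ℂ} {t : ℝ} (h : 0 < N2 c t) : 0 < sgm c t ∧ sgm c t ^ 2 * N2 c t = fN (N2 c t) := by
  have h1 : 0 < fN (N2 c t) := by
    have := fN_lb h.le
    linarith
  have h2 : 0 < fN (N2 c t) / N2 c t := div_pos h1 h
  unfold sgm
  refine ⟨Real.sqrt_pos.mpr h2, ?_⟩
  rw [Real.sq_sqrt h2.le]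
  field_simp

theorem pu_id {c : ℂ} {t : ℝ} (h : 6 / 25 ≤ N2 c t) : pu (c, t) = (c, t) := by
  have h1 : 0 < N2 c t := by linarith
  have h2 : fN (N2 c t) = N2 c t := by
    unfold fN
    rw [Pool.Agent.CSG.stp_one (by norm_num) h]
    ring
  have h3 : sgm c t = 1 := by
    unfold sgm
    rw [h2, div_self h1.ne', Real.sqrt_one]
  unfold pu
  simp only [h3]
  simp

theorem pu_per (c : ℂ) (t : ℝ) (k : ℤ) : pu (c, t + k) = ((pu (c, t)).1, (pu (c, t)).2 + k) := by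
  have h1 : N2 c (t + k) = N2 c t := by
    unfold N2
    rw [Pool.Agent.RBM.frc_add_int]
  have h2 : sgm c (t + k) = sgm c t := by
    unfold sgm
    rw [h1]
  unfold pu
  simp only [h2, Pool.Agent.RBM.frc_add_int]
  ext <;> simp
  ring

theorem tpu_frc {c : ℂ} {t : ℝ} (h : 0 < N2 c t) (h' : N2 c t < 6 / 25) :
    frc (pu (c, t)).2 = sgm c t * frc t := by
  obtain ⟨h1, h2⟩ := sgm_pos h
  have h3 := fN_lt h'
  have h4 : (sgm c t * frc t) ^ 2 < 6 / 25 := by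
    have h5 : (sgm c t * frc t) ^ 2 ≤ sgm c t ^ 2 * N2 c t := by
      unfold N2
      have := mul_nonneg (sq_nonneg (sgm c t)) (sq_nonneg ‖c‖)
      nlinarith
    linarith
  have h6 : |sgm c t * frc t| < 1 / 2 := by
    rw [← sq_lt_sq₀ (abs_nonneg _) (by norm_num), sq_abs]
    linarith
  obtain ⟨m, hm⟩ := Pool.Agent.RBM.frc_eq t
  have h7 : (pu (c, t)).2 - m = sgm c t * frc t := by
    unfold pu
    show t + (sgm c t - 1) * frc t - m = _
    have : t = m + frc t := by linarith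
    calc t + (sgm c t - 1) * frc t - m = (t - m - frc t) + sgm c t * frc t := by ring
      _ = sgm c t * frc t := by rw [hm]; ring
  rw [Pool.Agent.RBM.frc_of (m := m) (by rw [h7]; exact h6), h7]

theorem tpu_fst (c : ℂ) (t : ℝ) : ‖(pu (c, t)).1‖ ^ 2 = sgm c t ^ 2 * ‖c‖ ^ 2 := by
  unfold pu
  show ‖((sgm c t : ℝ) : ℂ) * c‖ ^ 2 = _
  rw [norm_mul, mul_pow, Complex.norm_real, Real.norm_eq_abs, sq_abs]

theorem pu_N2 {c : ℂ} {t : ℝ} (h : 0 < N2 c t) : N2 (pu (c, t)).1 (pu (c, t)).2 = fN (N2 c t) := by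
  rcases lt_or_ge (N2 c t) (6 / 25) with h' | h'
  · have h1 := tpu_frc h h'
    have h2 := tpu_fst c t
    have e : N2 (pu (c, t)).1 (pu (c, t)).2 = ‖(pu (c, t)).1‖ ^ 2 + frc (pu (c, t)).2 ^ 2 := rfl
    rw [e, h1, h2, ← (sgm_pos h).2]
    unfold N2
    ring
  · rw [pu_id h']
    unfold fN
    rw [Pool.Agent.CSG.stp_one (by norm_num) h']
    ring

theorem pu_inj {c c' : ℂ} {t t' : ℝ} (h : 0 < N2 c t) (h' : 0 < N2 c' t') (he : (pu (c, t)).1 = (pu (c', t')).1)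
    (hk : ∃ k : ℤ, (pu (c', t')).2 = (pu (c, t)).2 + k) : c = c' ∧ ∃ k : ℤ, t' = t + k := by
  obtain ⟨k, hk⟩ := hk
  have e1 := pu_N2 h
  have e2 := pu_N2 h'
  have e3 : N2 (pu (c', t')).1 (pu (c', t')).2 = N2 (pu (c, t)).1 (pu (c, t)).2 := by
    rw [← he, hk]
    unfold N2
    rw [Pool.Agent.RBM.frc_add_int]
  have e4 : N2 c' t' = N2 c t := by
    apply fN_mono.injective
    rw [← e1, ← e2, e3]
  have e5 : sgm c' t' = sgm c t := by
    unfold sgm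
    rw [e4]
  have hs := (sgm_pos h).1
  refine ⟨?_, ?_⟩
  · have e6 : ((sgm c t : ℝ) : ℂ) * c = ((sgm c' t' : ℝ) : ℂ) * c' := he
    rw [e5] at e6
    have hs' : ((sgm c t : ℝ) : ℂ) ≠ 0 := by exact_mod_cast hs.ne'
    exact mul_left_cancel₀ hs' e6
  · rcases lt_or_ge (N2 c t) (6 / 25) with h1 | h1
    · have f1 := tpu_frc h h1
      have f2 := tpu_frc h' (by rw [e4]; exact h1)
      rw [hk, Pool.Agent.RBM.frc_add_int, f1, e5] at f2
      exact Pool.Agent.RBM.frc_inj (mul_left_cancel₀ hs.ne' f2)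
    · rw [pu_id h1, pu_id (by rw [e4]; exact h1)] at hk
      exact ⟨k, hk⟩

/-- local form of the square of the distance -/
noncomputable def tpu_n (k : ℝ) (q : ℂ × ℝ) : ℝ := ‖q.1‖ ^ 2 + (q.2 - k) ^ 2

/-- radial factor -/
noncomputable def tpu_S (x : ℝ) : ℝ := Real.sqrt (fN x / x)

/-- local form of the push -/
noncomputable def tpu_g (k : ℝ) (q : ℂ × ℝ) : ℂ × ℝ :=
  (tpu_S (tpu_n k q) • q.1, q.2 + (tpu_S (tpu_n k q) - 1) * (q.2 - k))

theorem tpu_n_smooth (k : ℝ) : ContDiff ℝ ∞ (tpu_n k) := by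
  unfold tpu_n
  exact (contDiff_fst.norm_sq ℝ).add ((contDiff_snd.sub contDiff_const).pow 2)

theorem tpu_S_smooth {x : ℝ} (hx : 0 < x) : ContDiffAt ℝ ∞ tpu_S x := by
  have h1 : 0 < fN x := by
    have := fN_lb hx.le
    linarith
  unfold tpu_S
  exact (tpu_fN_smooth.contDiffAt.div contDiffAt_id hx.ne').sqrt (div_pos h1 hx).ne'

theorem tpu_S_pos {x : ℝ} (hx : 0 < x) : 0 < tpu_S x ∧ tpu_S x ^ 2 * x = fN x := by
  have h1 : 0 < fN x := by
    have := fN_lb hx.le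
    linarith
  have h2 : 0 < fN x / x := div_pos h1 hx
  unfold tpu_S
  refine ⟨Real.sqrt_pos.mpr h2, ?_⟩
  rw [Real.sq_sqrt h2.le]
  field_simp

theorem tpu_g_smooth (k : ℝ) {q : ℂ × ℝ} (hq : 0 < tpu_n k q) : ContDiffAt ℝ ∞ (tpu_g k) q := by
  have h1 : ContDiffAt ℝ ∞ (fun q : ℂ × ℝ => tpu_S (tpu_n k q)) q :=
    (tpu_S_smooth hq).comp q (tpu_n_smooth k).contDiffAt
  unfold tpu_g
  exact (h1.smul contDiffAt_fst).prodMk
    (contDiffAt_snd.add ((h1.sub contDiffAt_const).mul (contDiffAt_snd.sub contDiffAt_const)))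

theorem tpu_g_n (k : ℝ) {q : ℂ × ℝ} (hq : 0 < tpu_n k q) : tpu_n k (tpu_g k q) = fN (tpu_n k q) := by
  rw [← (tpu_S_pos hq).2]
  have e : tpu_n k (tpu_g k q) = ‖tpu_S (tpu_n k q) • q.1‖ ^ 2 +
      (q.2 + (tpu_S (tpu_n k q) - 1) * (q.2 - k) - k) ^ 2 := rfl
  rw [e, norm_smul, Real.norm_eq_abs, mul_pow, sq_abs]
  generalize hS : tpu_S (tpu_n k q) = S
  unfold tpu_n
  ring

theorem tpu_g_ld (k : ℝ) {q : ℂ × ℝ} (hq : 0 < tpu_n k q) :
    IsLocalDiffeomorphAt 𝓘(ℝ, ℂ × ℝ) 𝓘(ℝ, ℂ × ℝ) ∞ (tpu_g k) q := by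
  have hopen : ∀ᶠ y in 𝓝 q, 0 < tpu_n k y :=
    (tpu_n_smooth k).continuous.continuousAt.eventually (Ioi_mem_nhds hq)
  refine Pool.Agent.CSG.ld_of_fderiv (hopen.mono (fun y hy => tpu_g_smooth k hy)) rfl ?_
  intro v hv
  have hn : HasFDerivAt (tpu_n k) (fderiv ℝ (tpu_n k) q) q :=
    ((tpu_n_smooth k).differentiable (by simp) q).hasFDerivAt
  have hg : HasFDerivAt (tpu_g k) (fderiv ℝ (tpu_g k) q) q :=
    ((tpu_g_smooth k hq).differentiableAt (by simp)).hasFDerivAt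
  have hS : HasDerivAt tpu_S (deriv tpu_S (tpu_n k q)) (tpu_n k q) :=
    ((tpu_S_smooth hq).differentiableAt (by simp)).hasDerivAt
  have hSn : HasFDerivAt (fun q : ℂ × ℝ => tpu_S (tpu_n k q))
      (deriv tpu_S (tpu_n k q) • fderiv ℝ (tpu_n k) q) q := hS.comp_hasFDerivAt q hn
  have hfN : HasDerivAt fN (deriv fN (tpu_n k q)) (tpu_n k q) :=
    (tpu_fN_smooth.differentiable (by simp) _).hasDerivAt
  have hfn : HasFDerivAt (fun q : ℂ × ℝ => fN (tpu_n k q))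
      (deriv fN (tpu_n k q) • fderiv ℝ (tpu_n k) q) q := hfN.comp_hasFDerivAt q hn
  have hng : HasFDerivAt (fun q : ℂ × ℝ => tpu_n k (tpu_g k q))
      ((fderiv ℝ (tpu_n k) (tpu_g k q)).comp (fderiv ℝ (tpu_g k) q)) q := by
    have h1 : HasFDerivAt (tpu_n k) (fderiv ℝ (tpu_n k) (tpu_g k q)) (tpu_g k q) :=
      ((tpu_n_smooth k).differentiable (by simp) _).hasFDerivAt
    exact h1.comp q hg
  have heq : (fun q : ℂ × ℝ => tpu_n k (tpu_g k q)) =ᶠ[𝓝 q] fun q => fN (tpu_n k q) :=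
    hopen.mono (fun y hy => tpu_g_n k hy)
  have hu := hng.unique (hfn.congr_of_eventuallyEq heq)
  have hd : fderiv ℝ (tpu_n k) q v = 0 := by
    have h1 := congrArg (fun L : (ℂ × ℝ) →L[ℝ] ℝ => L v) hu
    have h2 : fderiv ℝ (tpu_n k) (tpu_g k q) (fderiv ℝ (tpu_g k) q v) =
      deriv fN (tpu_n k q) * fderiv ℝ (tpu_n k) q v := h1
    rw [hv, map_zero] at h2
    have h3 := tpu_fN_deriv (tpu_n k q)
    rcases mul_eq_zero.mp h2.symm with h4 | h4
    · exact absurd h4 h3.ne'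
    · exact h4
  have hg' : HasFDerivAt (tpu_g k) ((tpu_S (tpu_n k q) • ContinuousLinearMap.fst ℝ ℂ ℝ +
      (deriv tpu_S (tpu_n k q) • fderiv ℝ (tpu_n k) q).smulRight q.1).prod
      (ContinuousLinearMap.snd ℝ ℂ ℝ + ((tpu_S (tpu_n k q) - 1) • ContinuousLinearMap.snd ℝ ℂ ℝ +
        (q.2 - k) • (deriv tpu_S (tpu_n k q) • fderiv ℝ (tpu_n k) q)))) q := by
    have h1 : HasFDerivAt (fun q : ℂ × ℝ => tpu_S (tpu_n k q) • q.1)
        (tpu_S (tpu_n k q) • ContinuousLinearMap.fst ℝ ℂ ℝ +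
          (deriv tpu_S (tpu_n k q) • fderiv ℝ (tpu_n k) q).smulRight q.1) q := hSn.smul hasFDerivAt_fst
    have h2 : HasFDerivAt (fun q : ℂ × ℝ => q.2 + (tpu_S (tpu_n k q) - 1) * (q.2 - k))
        (ContinuousLinearMap.snd ℝ ℂ ℝ + ((tpu_S (tpu_n k q) - 1) • ContinuousLinearMap.snd ℝ ℂ ℝ +
        (q.2 - k) • (deriv tpu_S (tpu_n k q) • fderiv ℝ (tpu_n k) q))) q :=
      hasFDerivAt_snd.add ((hSn.sub_const 1).mul (hasFDerivAt_snd.sub_const k))
    exact h1.prodMk h2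
  rw [hg'.fderiv] at hv
  have hv1 : tpu_S (tpu_n k q) • v.1 + (deriv tpu_S (tpu_n k q) * fderiv ℝ (tpu_n k) q v) • q.1 = 0 :=
    congrArg Prod.fst hv
  have hv2 : v.2 + ((tpu_S (tpu_n k q) - 1) * v.2 + (q.2 - k) *
      (deriv tpu_S (tpu_n k q) * fderiv ℝ (tpu_n k) q v)) = 0 := congrArg Prod.snd hv
  have hSp := (tpu_S_pos hq).1
  rw [hd, mul_zero] at hv1 hv2
  rw [zero_smul, add_zero] at hv1
  have w1 : v.1 = 0 := (smul_eq_zero.mp hv1).resolve_left hSp.ne'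
  have w2 : v.2 = 0 := by
    have : tpu_S (tpu_n k q) * v.2 = 0 := by linarith
    exact (mul_eq_zero.mp this).resolve_left hSp.ne'
  exact Prod.ext w1 w2

theorem pu_ld {c : ℂ} {t : ℝ} (h : 0 < N2 c t) : IsLocalDiffeomorphAt 𝓘(ℝ, ℂ × ℝ) 𝓘(ℝ, ℂ × ℝ) ∞ pu (c, t) := by
  have hcont : Continuous fun q : ℂ × ℝ => N2 q.1 q.2 := by
    have h1 : Continuous fun q : ℂ × ℝ => ‖q.1‖ ^ 2 + |frc q.2| ^ 2 :=
      (continuous_fst.norm.pow 2).add ((Pool.Agent.RBM.frc_abs_cont.comp continuous_snd).pow 2)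
    have h2 : (fun q : ℂ × ℝ => ‖q.1‖ ^ 2 + |frc q.2| ^ 2) = fun q : ℂ × ℝ => N2 q.1 q.2 := by
      funext q
      rw [sq_abs]
      rfl
    rwa [h2] at h1
  rcases lt_or_ge (N2 c t) (1 / 4) with h' | h'
  · have hf : |frc t| < 1 / 2 := by
      rw [← sq_lt_sq₀ (abs_nonneg _) (by norm_num), sq_abs]
      unfold N2 at h'
      have := sq_nonneg ‖c‖
      linarith
    have hn : 0 < tpu_n (round t) (c, t) := h
    refine Pool.Agent.CSG.ld_congr (tpu_g_ld (round t) hn) ?_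
    have h1 : ∀ᶠ q : ℂ × ℝ in 𝓝 (c, t), frc q.2 = q.2 - round t :=
      (continuous_snd.continuousAt (x := ((c, t) : ℂ × ℝ))).eventually (Pool.Agent.RBM.frc_ev hf)
    filter_upwards [h1] with q hq
    have e1 : N2 q.1 q.2 = tpu_n (round t) q := by
      unfold N2 tpu_n
      rw [hq]
    unfold pu tpu_g sgm
    rw [e1, hq]
    rfl
  · have h1 : ∀ᶠ q : ℂ × ℝ in 𝓝 (c, t), 6 / 25 < N2 q.1 q.2 := by
      apply hcont.continuousAt.eventually (Ioi_mem_nhds _)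
      show 6 / 25 < N2 c t
      linarith
    refine Pool.Agent.CSG.ld_congr (Pool.Agent.CSG.ld_id (I := 𝓘(ℝ, ℂ × ℝ)) (n := ∞) ((c, t) : ℂ × ℝ)) ?_
    filter_upwards [h1] with q hq
    exact pu_id hq.le

theorem pu_zero {c : ℂ} {t : ℝ} (h : 0 < N2 c t) : (pu (c, t)).1 = 0 ↔ c = 0 := by
  have hs := (sgm_pos h).1
  have hs' : ((sgm c t : ℝ) : ℂ) ≠ 0 := by exact_mod_cast hs.ne'
  show ((sgm c t : ℝ) : ℂ) * c = 0 ↔ c = 0
  rw [mul_eq_zero]
  exact ⟨fun h => h.resolve_left hs', Or.inr⟩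

theorem pu_lt {c : ℂ} {t : ℝ} (h : 0 < N2 c t) (hc : ‖c‖ < 1 / 2) : ‖(pu (c, t)).1‖ < 1 / 2 := by
  rcases lt_or_ge (N2 c t) (6 / 25) with h' | h'
  · have h1 := tpu_fst c t
    have h2 := fN_lt h'
    have h3 := (sgm_pos h).2
    have h4 : sgm c t ^ 2 * ‖c‖ ^ 2 ≤ sgm c t ^ 2 * N2 c t := by
      apply mul_le_mul_of_nonneg_left _ (sq_nonneg _)
      unfold N2
      have := sq_nonneg (frc t)
      linarith
    rw [← sq_lt_sq₀ (norm_nonneg _) (by norm_num)]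
    linarith
  · rw [pu_id h']
    exact hc

theorem pu_cos {t : ℝ} (h : 0 < N2 0 t) : Real.cos (2 * Real.pi * (pu (0, t)).2) < 0 := by
  have h1 := pu_N2 h
  have h2 : (pu (0, t)).1 = 0 := (pu_zero h).mpr rfl
  have h3 := fN_lb h.le
  rw [h2] at h1
  have h4 : N2 0 (pu (0, t)).2 = frc (pu (0, t)).2 ^ 2 := by
    unfold N2
    rw [norm_zero]
    ring
  rw [h4] at h1
  generalize (pu (0, t)).2 = s at h1
  obtain ⟨m, hm⟩ := Pool.Agent.RBM.frc_eq s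
  have h5 : 1 / 4 < |frc s| := by
    rw [← sq_lt_sq₀ (by norm_num) (abs_nonneg _), sq_abs]
    linarith
  have h6 := Pool.Agent.RBM.frc_abs s
  have e1 : Real.cos (2 * Real.pi * s) = Real.cos (2 * Real.pi * |frc s|) := by
    have e2 : 2 * Real.pi * s = 2 * Real.pi * frc s + m * (2 * Real.pi) := by
      rw [hm]
      ring
    rw [e2, Real.cos_add_int_mul_two_pi]
    rcases abs_choice (frc s) with h7 | h7
    · rw [h7]
    · rw [h7, mul_neg, Real.cos_neg]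
  rw [e1]
  have hpi := Real.pi_pos
  apply Real.cos_neg_of_pi_div_two_lt_of_lt
  · nlinarith
  · nlinarith

end Pool.Agent.MMV
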