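import Pool.Agent.MMV.TKq
import Pool.Agent.MMV.TPl
import Pool.Agent.MMV.TPu

/-!
# MMV/TGy
: the map `Gy`   (difficulty 4)

* `cy y = conj ((y+1)/(y-1))`; for `2 |y+1| < |y-1|`: `|cy y| < 1/2`, `y ≠ 1`, `Zy y = (y-1)/(y+1)` for `y ≠ -1` (`cap_reg`, `Zy_mid`), `cy y = conj ((Zy y)⁻¹)`.
* `Gy_pos`: if `2|y+1| ≥ |y-1|` by definition.  Otherwise `49/100 ≤ |cy y| < 1/2`, so `N2 (cy y) t ≥ (49/100)² > 6/25`, `pu_id`: `Gy = Kq D (cy y, ν, t)`, `cy y ≠ 0`, `|Zy y| = 1/|cy y| ≥ 2 ≥ 7/4`: `Pos_out`.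
* `Gy_in`: `‖Zy y‖ ≤ 3/2` and `y ≠ -1`: then `49 |y-1| ≤ 100 |y+1|` (if `1/4 ≤ |y| ≤ 4` then `|y-1| = |Zy y| |y+1| ≤ 3/2 |y+1|`; otherwise `|y-1| ≤ |y|+1`, `|y+1| ≥ ||y|-1|`, `(|y|+1)/||y|-1| ≤ 5/3`): `Gy_pos`, `Pos_in`.
* `Gy_per`: `pu_per`, `Kq_per`; `hS.box.per`.
* `Gy_ld`: (a) `2|y+1| < |y-1|` (open condition): `Gy D η = Kq D ∘ h` near the point, `h (y, ν, t) = ((pu (cy y, t)).1, ν, (pu (cy y, t)).2)`: `cy` is a local diffeomorphism at `y ≠ 1` (`cy` is the conjugate of a Moebius map, derivative `-2/(y-1)²`), `pu_ld` with `N2_pos` (`cy y ≠ 0` if `y ≠ -1`), products with the identity of `ν`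
  (`RSG.ld_prodMap`, linear permutations of the factors); `Kq_ld`: `‖(pu ..).1‖ < 1/2` (`pu_lt`); if `(pu ..).1 = 0` then `cy y = 0` (`pu_zero`), `y = -1`, so `t` is not an integer, `pu_cos`.
  (b) `49 |y-1| < 100 |y+1|` (open condition, `y ≠ -1`): `Gy_pos` near the point; `Zy_ld`, `Pos_ld`, `hS.box.loc` (`Pos_norm`, `Pos_zero`), `D.A_loc` with `off_box` (`Zy_ne`, `Pos_ne`, `‖Pos‖ < 5/2`).  One of (a), (b) holds (if `100|y+1| ≤ 49|y-1|` then `2 |y+1| < |y-1|`, as `|y-1| > 0` there).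
-/

open scoped ContDiff Manifold Topology
open Set Filter
open Complex (I)
open Pool.Agent.RSG (E3 E4 S2 S3 S4 ex cj c1 c2 ht fh pS3 pS4)
open Pool.Agent.RBM (ThickT OnT Box)
open Pool.Agent.LKF (OnF)
open Pool.Agent.PTH (SP ISP)
open Pool.Agent.KNH (circ)
open Pool.Agent.LKT (s1 s2)

namespace Pool.Agent.MMV

section
variable {E : Type*} [NormedAddCommGroup E] [NormedSpace ℝ E] {H : Type*} [TopologicalSpace H]
  {J : ModelWithCorners ℝ E H} {P : Type*} [TopologicalSpace P] [ChartedSpace H P]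
  {X : Type*} [TopologicalSpace X] [ChartedSpace E4 X] {κ₁ κ₂ : ℝ × ℂ × ℝ → P} {b : ℂ × ℝ × ℝ → P} {l₁ l₂ η : ℝ}
  {a₁ c₁' a₂ c₂' : ℤ}

private theorem tgy_ne {y : ℂ} (h : 2 * ‖y + 1‖ < ‖y - 1‖) : y - 1 ≠ 0 := by
  intro e
  rw [e, norm_zero] at h
  have := norm_nonneg (y + 1)
  linarith

private theorem tgy_cyn (y : ℂ) : ‖cy y‖ = ‖y + 1‖ / ‖y - 1‖ := by
  unfold cy
  rw [RCLike.norm_conj, norm_div]

theorem cy_eq {y : ℂ} (h : 2 * ‖y + 1‖ < ‖y - 1‖) : ‖cy y‖ < 1 / 2 ∧ (cy y = 0 ↔ y = -1) ∧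
    (y ≠ -1 → cy y = (starRingEnd ℂ) (Zy y)⁻¹) := by
  have h1 := tgy_ne h
  have h2 : 0 < ‖y - 1‖ := norm_pos_iff.2 h1
  refine ⟨?_, ?_, ?_⟩
  · rw [tgy_cyn, div_lt_iff₀ h2]
    linarith
  · unfold cy
    rw [map_eq_zero, div_eq_zero_iff]
    constructor
    · rintro (e | e)
      · exact eq_neg_of_add_eq_zero_left e
      · exact absurd e h1
    · intro e
      left
      rw [e]
      ring
  · intro hy
    obtain ⟨h3, h4⟩ := cap_reg h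
    rw [Zy_mid (by linarith) (by linarith) hy, inv_div]
    rfl

private theorem tgy_neg1 : ((-1 : ℂ) - 1) ≠ 0 := by
  norm_num

private theorem tgy_Gy (D : Nf J κ₁ κ₂ b a₁ c₁' a₂ c₂' X) {y : ℂ} {ν t : ℝ} (h : ¬ 2 * ‖y + 1‖ < ‖y - 1‖) :
    Gy D η (y, ν, t) = D.A (b ((Pos η (Zy y, ν)).1, (Pos η (Zy y, ν)).2, t)) := if_neg h

private theorem tgy_Gy' (D : Nf J κ₁ κ₂ b a₁ c₁' a₂ c₂' X) {y : ℂ} {ν t : ℝ} (h : 2 * ‖y + 1‖ < ‖y - 1‖) :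
    Gy D η (y, ν, t) = Kq D ((pu (cy y, t)).1, ν, (pu (cy y, t)).2) := if_pos h

theorem Gy_pos (D : Nf J κ₁ κ₂ b a₁ c₁' a₂ c₂' X) {y : ℂ} {ν t : ℝ} (h : 49 * ‖y - 1‖ ≤ 100 * ‖y + 1‖) :
    Gy D η (y, ν, t) = D.A (b ((Pos η (Zy y, ν)).1, (Pos η (Zy y, ν)).2, t)) := by
  by_cases hc : 2 * ‖y + 1‖ < ‖y - 1‖
  · have h1 := tgy_ne hc
    have h2 : 0 < ‖y - 1‖ := norm_pos_iff.2 h1
    obtain ⟨h3, h4, h5⟩ := cy_eq hc
    have h6 : 49 / 100 ≤ ‖cy y‖ := by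
      rw [tgy_cyn, le_div_iff₀ h2]
      linarith
    have h7 : 6 / 25 ≤ N2 (cy y) t := by
      unfold N2
      have h8 : (49 / 100 : ℝ) ^ 2 ≤ ‖cy y‖ ^ 2 := pow_le_pow_left₀ (by norm_num) h6 2
      have h9 := sq_nonneg (RBM.frc t)
      norm_num at h8
      linarith
    have h8 : cy y ≠ 0 := by
      intro e
      rw [e, norm_zero] at h6
      norm_num at h6
    have h9 : y ≠ -1 := fun e => h8 (h4.2 e)
    have h10 := h5 h9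
    have h11 : 7 / 4 ≤ ‖Zy y‖ := by
      have h12 : ‖cy y‖ = ‖Zy y‖⁻¹ := by
        rw [h10, RCLike.norm_conj, norm_inv]
      have h13 : ‖Zy y‖ ≠ 0 := by
        intro e
        rw [e, inv_zero] at h12
        exact h8 (norm_eq_zero.1 h12)
      have h14 : 0 < ‖Zy y‖ := lt_of_le_of_ne (norm_nonneg _) (Ne.symm h13)
      rw [h12] at h3
      have h15 : ‖Zy y‖⁻¹ * ‖Zy y‖ = 1 := inv_mul_cancel₀ h13
      nlinarith
    rw [tgy_Gy' D hc, pu_id h7, Pos_out b ν t h11 h10]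
    exact if_neg h8
  · exact tgy_Gy D hc

theorem Gy_in (D : Nf J κ₁ κ₂ b a₁ c₁' a₂ c₂' X) {y : ℂ} {ν t : ℝ} (hy : y ≠ -1) (h : ‖Zy y‖ ≤ 3 / 2) :
    Gy D η (y, ν, t) = D.A (b (Zy y, ν / η, t)) := by
  have hp : 49 * ‖y - 1‖ ≤ 100 * ‖y + 1‖ := by
    have n1 : ‖y - 1‖ ≤ ‖y‖ + 1 := by
      have := norm_sub_le y 1
      rwa [norm_one] at this
    have n2 : ‖y‖ ≤ ‖y + 1‖ + 1 := by
      have := norm_sub_le (y + 1) 1
      rwa [norm_one, add_sub_cancel_right] at this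
    have n3 : 1 ≤ ‖y + 1‖ + ‖y‖ := by
      have := norm_sub_le (y + 1) y
      rwa [add_sub_cancel_left, norm_one] at this
    rcases lt_or_ge ‖y‖ (1 / 4) with h1 | h1
    · linarith
    · rcases lt_or_ge 4 ‖y‖ with h2 | h2
      · linarith
      · have h3 := Zy_mid h1 h2 hy
        have h4 : y + 1 ≠ 0 := fun e => hy (eq_neg_of_add_eq_zero_left e)
        have h5 : 0 < ‖y + 1‖ := norm_pos_iff.2 h4
        rw [h3, norm_div, div_le_iff₀ h5] at h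
        linarith
  rw [Gy_pos D hp, Pos_in h]

theorem Gy_per (hS : Strip J κ₁ κ₂ b l₁ l₂ η) (D : Nf J κ₁ κ₂ b a₁ c₁' a₂ c₂' X) (y : ℂ) (ν t : ℝ) (k : ℤ) :
    Gy D η (y, ν, t + k) = Gy D η (y, ν, t) := by
  by_cases hc : 2 * ‖y + 1‖ < ‖y - 1‖
  · rw [tgy_Gy' D hc, tgy_Gy' D hc, pu_per, Kq_per hS]
  · rw [tgy_Gy D hc, tgy_Gy D hc]
    congr 1
    have h1 : Function.Periodic (fun x : ℝ => b ((Pos η (Zy y, ν)).1, (Pos η (Zy y, ν)).2, x)) 1 :=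
      fun x => hS.box.per _ _ x
    have h2 := h1.int_mul k t
    rw [mul_one] at h2
    exact h2

/-- permutation of the factors -/
private def tgy_sig : ℂ × ℝ × ℝ ≃ (ℂ × ℝ) × ℝ where
  toFun := fun q => ((q.1, q.2.2), q.2.1)
  invFun := fun q => (q.1.1, q.2, q.1.2)
  left_inv := fun _ => rfl
  right_inv := fun _ => rfl

private theorem tgy_sig1 : ContDiff ℝ ∞ tgy_sig :=
  (contDiff_fst.prodMk contDiff_snd.snd).prodMk contDiff_snd.fst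

private theorem tgy_sig2 : ContDiff ℝ ∞ tgy_sig.symm :=
  contDiff_fst.fst.prodMk (contDiff_snd.prodMk contDiff_fst.snd)

private theorem tgy_prod {V V' W W' : Type*} [NormedAddCommGroup V] [NormedSpace ℝ V] [NormedAddCommGroup V']
    [NormedSpace ℝ V'] [NormedAddCommGroup W] [NormedSpace ℝ W] [NormedAddCommGroup W'] [NormedSpace ℝ W']
    {f : V → V'} {g : W → W'} {x : V} {y : W}
    (hf : IsLocalDiffeomorphAt 𝓘(ℝ, V) 𝓘(ℝ, V') ∞ f x) (hg : IsLocalDiffeomorphAt 𝓘(ℝ, W) 𝓘(ℝ, W') ∞ g y) :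
    IsLocalDiffeomorphAt 𝓘(ℝ, V × W) 𝓘(ℝ, V' × W') ∞ (Prod.map f g) (x, y) := by
  have h := RSG.ld_prodMap hf hg
  rw [← modelWithCornersSelf_prod, ← modelWithCornersSelf_prod, chartedSpaceSelf_prod, chartedSpaceSelf_prod] at h
  exact h

private theorem tgy_mob {y : ℂ} (hy : y ≠ 1) : ContDiffAt ℝ ∞ (fun z : ℂ => (z + 1) / (z - 1)) y := by
  have h1 : ContDiffAt ℝ ∞ (fun z : ℂ => z + 1) y := contDiffAt_id.add contDiffAt_const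
  have h2 : ContDiffAt ℝ ∞ (fun z : ℂ => z - 1) y := contDiffAt_id.sub contDiffAt_const
  have h4 : ContDiffAt ℝ ∞ (fun z : ℂ => (z - 1)⁻¹) y := h2.inv (sub_ne_zero.2 hy)
  have h3 : ContDiffAt ℝ ∞ (fun z : ℂ => (z + 1) * (z - 1)⁻¹) y := h1.mul h4
  exact h3.congr_of_eventuallyEq (Eventually.of_forall fun z => div_eq_mul_inv _ _)

private theorem tgy_mm {y : ℂ} (hy : y ≠ 1) : (y + 1) / (y - 1) ≠ 1 ∧
    ((y + 1) / (y - 1) + 1) / ((y + 1) / (y - 1) - 1) = y := by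
  have h1 : y - 1 ≠ 0 := sub_ne_zero.2 hy
  have h2 : (y + 1) / (y - 1) - 1 = 2 / (y - 1) := by
    field_simp
    ring
  have h3 : (y + 1) / (y - 1) + 1 = 2 * y / (y - 1) := by
    field_simp
    ring
  constructor
  · intro e
    rw [e, sub_self] at h2
    have h4 : (2 : ℂ) / (y - 1) ≠ 0 := div_ne_zero two_ne_zero h1
    exact h4 h2.symm
  · rw [h2, h3]
    field_simp

private theorem tgy_cy_ld {y : ℂ} (hy : y ≠ 1) : IsLocalDiffeomorphAt 𝓘(ℝ, ℂ) 𝓘(ℝ, ℂ) ∞ cy y := by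
  have hcs : ∀ z : ℂ, z ≠ 1 → ContDiffAt ℝ ∞ cy z := by
    intro z hz
    exact Complex.conjCLE.contDiff.contDiffAt.comp z (tgy_mob hz)
  have hgs : ∀ z : ℂ, z ≠ 1 → ContDiffAt ℝ ∞ (fun c : ℂ => ((starRingEnd ℂ) c + 1) / ((starRingEnd ℂ) c - 1)) z := by
    intro z hz
    have h1 : (starRingEnd ℂ) z ≠ 1 := by
      intro e
      apply hz
      have h2 := congrArg (starRingEnd ℂ) e
      rwa [Complex.conj_conj, map_one] at h2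
    exact ContDiffAt.comp z (g := fun w : ℂ => (w + 1) / (w - 1)) (f := fun c : ℂ => (starRingEnd ℂ) c)
      (tgy_mob h1) Complex.conjCLE.contDiff.contDiffAt
  have hcy : ∀ z : ℂ, z ≠ 1 → cy z ≠ 1 := by
    intro z hz e
    have h2 := congrArg (starRingEnd ℂ) e
    unfold cy at h2
    rw [Complex.conj_conj, map_one] at h2
    exact (tgy_mm hz).1 h2
  refine RSG.ld_two (g := fun c : ℂ => ((starRingEnd ℂ) c + 1) / ((starRingEnd ℂ) c - 1)) ?_ ?_ ?_ ?_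
  · filter_upwards [isOpen_ne.mem_nhds hy] with z hz
    exact (hcs z hz).contMDiffAt
  · filter_upwards [isOpen_ne.mem_nhds (hcy y hy)] with z hz
    exact (hgs z hz).contMDiffAt
  · filter_upwards [isOpen_ne.mem_nhds hy] with z hz
    unfold cy
    rw [Complex.conj_conj]
    exact (tgy_mm hz).2
  · filter_upwards [isOpen_ne.mem_nhds (hcy y hy)] with z hz
    unfold cy
    have h1 : (starRingEnd ℂ) z ≠ 1 := by
      intro e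
      apply hz
      have h2 := congrArg (starRingEnd ℂ) e
      rwa [Complex.conj_conj, map_one] at h2
    rw [(tgy_mm h1).2, Complex.conj_conj]

theorem Gy_ld (hS : Strip J κ₁ κ₂ b l₁ l₂ η) (D : Nf J κ₁ κ₂ b a₁ c₁' a₂ c₂' X) {y : ℂ} {t : ℝ} (hy : y ≠ 0)
    (h : y ≠ -1 ∨ ∀ k : ℤ, t ≠ k) :
    IsLocalDiffeomorphAt 𝓘(ℝ, ℂ × ℝ × ℝ) (𝓡 4) ∞ (Gy D η) (y, 0, t) := by
  by_cases hc : 2 * ‖y + 1‖ < ‖y - 1‖
  · -- the cap
    have hne : y ≠ 1 := sub_ne_zero.1 (tgy_ne hc)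
    obtain ⟨h3, h4, h5⟩ := cy_eq hc
    have hN : 0 < N2 (cy y) t := by
      refine N2_pos ?_
      rcases h with h | h
      · exact Or.inl (fun e => h (h4.1 e))
      · exact Or.inr h
    have hlt := pu_lt hN h3
    have hK : IsLocalDiffeomorphAt 𝓘(ℝ, ℂ × ℝ × ℝ) (𝓡 4) ∞ (Kq D) ((pu (cy y, t)).1, 0, (pu (cy y, t)).2) := by
      refine Kq_ld hS D (by linarith) ?_
      by_cases e : (pu (cy y, t)).1 = 0
      · right
        have e2 := (pu_zero hN).1 e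
        rw [e2] at hN ⊢
        exact pu_cos hN
      · exact Or.inl e
    have g1 : IsLocalDiffeomorphAt 𝓘(ℝ, ℂ × ℝ × ℝ) 𝓘(ℝ, (ℂ × ℝ) × ℝ) ∞ tgy_sig (y, 0, t) :=
      CSG.ld_of_perm tgy_sig1 tgy_sig2 _
    have g2 : IsLocalDiffeomorphAt 𝓘(ℝ, (ℂ × ℝ) × ℝ) 𝓘(ℝ, (ℂ × ℝ) × ℝ) ∞
        (Prod.map (Prod.map cy (id : ℝ → ℝ)) (id : ℝ → ℝ)) ((y, t), 0) :=
      tgy_prod (tgy_prod (tgy_cy_ld hne) (CSG.ld_id t)) (CSG.ld_id 0)
    have g3 : IsLocalDiffeomorphAt 𝓘(ℝ, (ℂ × ℝ) × ℝ) 𝓘(ℝ, (ℂ × ℝ) × ℝ) ∞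
        (Prod.map pu (id : ℝ → ℝ)) ((cy y, t), 0) :=
      tgy_prod (pu_ld hN) (CSG.ld_id 0)
    have g4 : IsLocalDiffeomorphAt 𝓘(ℝ, (ℂ × ℝ) × ℝ) 𝓘(ℝ, ℂ × ℝ × ℝ) ∞ tgy_sig.symm (pu (cy y, t), 0) :=
      CSG.ld_of_perm tgy_sig2 tgy_sig1 _
    have k1 := IsLocalDiffeomorphAt.comp (hf := g1)
      (g := Prod.map (Prod.map cy (id : ℝ → ℝ)) (id : ℝ → ℝ)) (hg := g2)
    have k2 := IsLocalDiffeomorphAt.comp (hf := k1) (g := Prod.map pu (id : ℝ → ℝ)) (hg := g3)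
    have k3 := IsLocalDiffeomorphAt.comp (hf := k2) (g := tgy_sig.symm) (hg := g4)
    have k4 := IsLocalDiffeomorphAt.comp (hf := k3) (g := Kq D) (hg := hK)
    refine CSG.ld_congr k4 ?_
    have hop : ∀ᶠ q : ℂ × ℝ × ℝ in 𝓝 (y, 0, t), 2 * ‖q.1 + 1‖ < ‖q.1 - 1‖ := by
      have c1 : Continuous (fun q : ℂ × ℝ × ℝ => 2 * ‖q.1 + 1‖) := by fun_prop
      have c2 : Continuous (fun q : ℂ × ℝ × ℝ => ‖q.1 - 1‖) := by fun_prop
      exact (isOpen_lt c1 c2).mem_nhds hc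
    filter_upwards [hop] with q hq
    exact tgy_Gy' D hq
  · have hle : ‖y - 1‖ ≤ 2 * ‖y + 1‖ := not_lt.1 hc
    have hpos : 0 < ‖y + 1‖ := by
      rcases (norm_nonneg (y + 1)).eq_or_lt with e | e
      · exfalso
        rw [← e] at hle
        have e1 : y + 1 = 0 := norm_eq_zero.1 e.symm
        have e2 : y - 1 = 0 := norm_eq_zero.1 (le_antisymm (by linarith) (norm_nonneg _))
        have e3 : (2 : ℂ) = 0 := by
          have : (2 : ℂ) = (y + 1) - (y - 1) := by ring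
          rw [this, e1, e2, sub_zero]
        exact two_ne_zero e3
      · exact e
    have hy1 : y ≠ -1 := by
      intro e
      rw [e] at hpos
      simp at hpos
    have hlt : 49 * ‖y - 1‖ < 100 * ‖y + 1‖ := by linarith
    have hZ := Zy_ne hy hy1
    have hPn := (Pos_norm η (Zy y)).1
    have hP0 := Pos_zero η (Zy y)
    have hPne := Pos_ne (η := η) hZ.1 hZ.2
    have hb : IsLocalDiffeomorphAt 𝓘(ℝ, ℂ × ℝ × ℝ) J ∞ b ((Pos η (Zy y, 0)).1, (Pos η (Zy y, 0)).2, t) :=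
      hS.box.loc _ _ _ (by linarith) (by rw [hP0]; simp)
    have hA : IsLocalDiffeomorphAt J (𝓡 4) ∞ D.A (b ((Pos η (Zy y, 0)).1, (Pos η (Zy y, 0)).2, t)) :=
      D.A_loc _ (off_box hS t (by linarith) (by rw [hP0]; simp) hPne.1 hPne.2 (Or.inl hPn.ne))
    have g1 : IsLocalDiffeomorphAt 𝓘(ℝ, ℂ × ℝ × ℝ) 𝓘(ℝ, (ℂ × ℝ) × ℝ) ∞ (Equiv.prodAssoc ℂ ℝ ℝ).symm (y, 0, t) := by
      refine CSG.ld_of_perm (f := (Equiv.prodAssoc ℂ ℝ ℝ).symm) ?_ ?_ (y, 0, t)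
      · exact (contDiff_fst.prodMk contDiff_snd.fst).prodMk contDiff_snd.snd
      · exact contDiff_fst.fst.prodMk (contDiff_fst.snd.prodMk contDiff_snd)
    have g2 : IsLocalDiffeomorphAt 𝓘(ℝ, (ℂ × ℝ) × ℝ) 𝓘(ℝ, (ℂ × ℝ) × ℝ) ∞
        (Prod.map (Prod.map Zy (id : ℝ → ℝ)) (id : ℝ → ℝ)) ((y, 0), t) :=
      tgy_prod (tgy_prod (Zy_ld hy hy1) (CSG.ld_id 0)) (CSG.ld_id t)
    have g3 : IsLocalDiffeomorphAt 𝓘(ℝ, (ℂ × ℝ) × ℝ) 𝓘(ℝ, (ℂ × ℝ) × ℝ) ∞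
        (Prod.map (Pos η) (id : ℝ → ℝ)) ((Zy y, 0), t) :=
      tgy_prod (Pos_ld hS.pos (Zy y)) (CSG.ld_id t)
    have g4 : IsLocalDiffeomorphAt 𝓘(ℝ, (ℂ × ℝ) × ℝ) 𝓘(ℝ, ℂ × ℝ × ℝ) ∞ (Equiv.prodAssoc ℂ ℝ ℝ)
        (Pos η (Zy y, 0), t) := by
      refine CSG.ld_of_perm (f := (Equiv.prodAssoc ℂ ℝ ℝ)) ?_ ?_ (Pos η (Zy y, 0), t)
      · exact contDiff_fst.fst.prodMk (contDiff_fst.snd.prodMk contDiff_snd)
      · exact (contDiff_fst.prodMk contDiff_snd.fst).prodMk contDiff_snd.snd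
    have k1 := IsLocalDiffeomorphAt.comp (hf := g1)
      (g := Prod.map (Prod.map Zy (id : ℝ → ℝ)) (id : ℝ → ℝ)) (hg := g2)
    have k2 := IsLocalDiffeomorphAt.comp (hf := k1) (g := Prod.map (Pos η) (id : ℝ → ℝ)) (hg := g3)
    have k3 := IsLocalDiffeomorphAt.comp (hf := k2) (g := (Equiv.prodAssoc ℂ ℝ ℝ)) (hg := g4)
    have k4 := IsLocalDiffeomorphAt.comp (hf := k3) (g := b) (hg := hb)
    have k5 := IsLocalDiffeomorphAt.comp (hf := k4) (g := D.A) (hg := hA)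
    refine CSG.ld_congr k5 ?_
    have hop : ∀ᶠ q : ℂ × ℝ × ℝ in 𝓝 (y, 0, t), 49 * ‖q.1 - 1‖ < 100 * ‖q.1 + 1‖ := by
      have c1 : Continuous (fun q : ℂ × ℝ × ℝ => 49 * ‖q.1 - 1‖) := by fun_prop
      have c2 : Continuous (fun q : ℂ × ℝ × ℝ => 100 * ‖q.1 + 1‖) := by fun_prop
      exact (isOpen_lt c1 c2).mem_nhds hlt
    filter_upwards [hop] with q hq
    exact Gy_pos D (le_of_lt hq)

end

end Pool.Agent.MMV
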