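import Pool.Agent.MMV.TDef

/-!
# MMV/TOf
: points off the three tori   (difficulty 3)

Let `hS : Strip J κ₁ κ₂ b l₁ l₂ η`.
* `hit₁`: `κ₁ (l, v, t) = b (z, s, t')`, `‖v‖ < 1`, `‖z‖ < 4`, `|s| < 1`: if there is an integer `k` with `|l - l₁ - k| < η` then `κ₁ (l, v, t) = κ₁ (l₁ + (l - l₁ - k), v, t)` (`perl` iterated, induction over integers) `= b (-1 + v/2, (l-l₁-k)/η, t)` (`strand₁`), and `box.inj` gives `z = -1 + v/2`, `s = (l - l₁ - k)/η`, `t' = t + m`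
  (norm `< 3/2 < 4`, `|(l-l₁-k)/η| < 1`); otherwise `rest₁` is a contradiction.  `hit₂` the same.
* `off_box`: `b (z, s, t) = κ₁ (l, 0, t')` gives `z = -1` (`hit₁`), `κ₂`: `z = 1`, `κγ b (l, 0, u) = b ((5/2) ex u, 0, l)`: `box.inj` gives `‖z‖ = 5/2`, `s = 0`.
* `off_κ₁`: `v ≠ 0`: `κ₁ (l, v, t) = κ₁ (l', 0, t')` contradicts `thick₁.inj`; `= κ₂ (l', 0, t')` contradicts `disj`; `= κγ b (l', 0, u) = b ((5/2) ex u, 0, l')`: `hit₁` gives `(5/2) ex u = -1 + v/2`, norms `5/2 < 3/2`.  Same for `off_κ₂`.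
* `off_κγ`: `κγ b (l, v, u) = b (z, s, l)` with `‖z‖ = 5/2 + Re v/2 ∈ (2, 3)`, `|s| < 1/2`, and `‖z‖ = 5/2`, `s = 0` only for `v = 0`: `off_box`.
-/

open scoped ContDiff Manifold Topology
open Set Filter
open Complex (I)
open Pool.Agent.RSG (E3 E4 S2 S3 S4 ex cj c1 c2 ht fh pS3 pS4)
open Pool.Agent.RBM (ThickT OnT Box)
open Pool.Agent.LKF (OnF)
open Pool.Agent.PTH (SP ISP)
open Pool.Agent.KNH (circ)
open Pool.Agent.LKT (s1 s2)

namespace Pool.Agent.MMV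

section
variable {E : Type*} [NormedAddCommGroup E] [NormedSpace ℝ E] {H : Type*} [TopologicalSpace H]
  {J : ModelWithCorners ℝ E H} {P : Type*} [TopologicalSpace P] [ChartedSpace H P]
  {κ₁ κ₂ : ℝ × ℂ × ℝ → P} {b : ℂ × ℝ × ℝ → P} {l₁ l₂ η : ℝ}

omit [TopologicalSpace P] in
private theorem tof_per {κ : ℝ × ℂ × ℝ → P} (h : ∀ (l : ℝ) (v : ℂ) (t : ℝ), κ (l + 1, v, t) = κ (l, v, t))
    (l : ℝ) (v : ℂ) (t : ℝ) (k : ℤ) : κ (l + k, v, t) = κ (l, v, t) := by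
  have h1 : Function.Periodic (fun x : ℝ => κ (x, v, t)) 1 := fun x => h x v t
  have h2 := h1.int_mul k l
  rw [mul_one] at h2
  exact h2

private theorem tof_norm1 {v : ℂ} (hv : ‖v‖ < 1) : ‖(-1 : ℂ) + v / 2‖ < 3 / 2 := by
  calc ‖(-1 : ℂ) + v / 2‖ ≤ ‖(-1 : ℂ)‖ + ‖v / 2‖ := norm_add_le _ _
    _ = 1 + ‖v‖ / 2 := by
      rw [norm_neg, norm_one, norm_div]
      simp
    _ < 3 / 2 := by linarith

private theorem tof_norm2 {v : ℂ} (hv : ‖v‖ < 1) : ‖(1 : ℂ) + v / 2‖ < 3 / 2 := by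
  calc ‖(1 : ℂ) + v / 2‖ ≤ ‖(1 : ℂ)‖ + ‖v / 2‖ := norm_add_le _ _
    _ = 1 + ‖v‖ / 2 := by
      rw [norm_one, norm_div]
      simp
    _ < 3 / 2 := by linarith

private theorem tof_div {x η : ℝ} (hη : 0 < η) (h : |x| < η) : |x / η| < 1 := by
  rw [abs_div, abs_of_pos hη, div_lt_one hη]
  exact h

theorem hit₁ (hS : Strip J κ₁ κ₂ b l₁ l₂ η) {l t s t' : ℝ} {v z : ℂ} (hv : ‖v‖ < 1) (hz : ‖z‖ < 4) (hs : |s| < 1)
    (he : κ₁ (l, v, t) = b (z, s, t')) : z = -1 + v / 2 ∧ (∃ k : ℤ, s = (l - l₁ - k) / η) ∧ ∃ m : ℤ, t' = t + m := by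
  by_cases hk : ∃ k : ℤ, |l - l₁ - k| < η
  · obtain ⟨k, hk⟩ := hk
    have h1 : κ₁ (l, v, t) = κ₁ (l₁ + (l - l₁ - k), v, t) := by
      have h2 := tof_per hS.thick₁.perl (l₁ + (l - l₁ - k)) v t k
      rw [← h2]
      congr 2
      ring
    have h2 := hS.strand₁ (l - l₁ - k) v t hk hv
    have hn := tof_norm1 hv
    obtain ⟨e1, e2, e3⟩ := hS.box.inj _ _ _ _ _ _ (by linarith) (tof_div hS.pos hk) hz hs
      (h2.symm.trans (h1.symm.trans he))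
    exact ⟨e1.symm, ⟨k, e2.symm⟩, e3⟩
  · push Not at hk
    exact absurd he (hS.rest₁ l v t hv hk z s t' hz hs)

theorem hit₂ (hS : Strip J κ₁ κ₂ b l₁ l₂ η) {l t s t' : ℝ} {v z : ℂ} (hv : ‖v‖ < 1) (hz : ‖z‖ < 4) (hs : |s| < 1)
    (he : κ₂ (l, v, t) = b (z, s, t')) : z = 1 + v / 2 ∧ (∃ k : ℤ, s = (l - l₂ - k) / η) ∧ ∃ m : ℤ, t' = t + m := by
  by_cases hk : ∃ k : ℤ, |l - l₂ - k| < η
  · obtain ⟨k, hk⟩ := hk
    have h1 : κ₂ (l, v, t) = κ₂ (l₂ + (l - l₂ - k), v, t) := by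
      have h2 := tof_per hS.thick₂.perl (l₂ + (l - l₂ - k)) v t k
      rw [← h2]
      congr 2
      ring
    have h2 := hS.strand₂ (l - l₂ - k) v t hk hv
    have hn := tof_norm2 hv
    obtain ⟨e1, e2, e3⟩ := hS.box.inj _ _ _ _ _ _ (by linarith) (tof_div hS.pos hk) hz hs
      (h2.symm.trans (h1.symm.trans he))
    exact ⟨e1.symm, ⟨k, e2.symm⟩, e3⟩
  · push Not at hk
    exact absurd he (hS.rest₂ l v t hv hk z s t' hz hs)

omit [TopologicalSpace P] in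
private theorem tof_gam (l : ℝ) (u : ℝ) : κγ b (l, 0, u) = b (((5 / 2 : ℝ) : ℂ) * ex u, 0, l) := by
  unfold κγ
  simp

private theorem tof_gnorm (u : ℝ) : ‖((5 / 2 : ℝ) : ℂ) * ex u‖ = 5 / 2 := by
  rw [norm_mul, RSG.ex_norm, mul_one, Complex.norm_real, Real.norm_eq_abs]
  norm_num

theorem off_box (hS : Strip J κ₁ κ₂ b l₁ l₂ η) {z : ℂ} {s : ℝ} (t : ℝ) (hz : ‖z‖ < 4) (hs : |s| < 1) (h1 : z ≠ -1)
    (h2 : z ≠ 1) (h3 : ‖z‖ ≠ 5 / 2 ∨ s ≠ 0) : Off3 κ₁ κ₂ b (b (z, s, t)) := by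
  refine ⟨?_, ?_, ?_⟩
  · rintro ⟨l, t', he⟩
    have h := (hit₁ hS (v := 0) (by simp) hz hs he.symm).1
    apply h1
    rw [h]
    simp
  · rintro ⟨l, t', he⟩
    have h := (hit₂ hS (v := 0) (by simp) hz hs he.symm).1
    apply h2
    rw [h]
    simp
  · rintro ⟨l, u, he⟩
    rw [tof_gam] at he
    obtain ⟨e1, e2, _⟩ := hS.box.inj _ _ _ _ _ _ hz hs (by rw [tof_gnorm]; norm_num) (by simp) he
    rcases h3 with h | h
    · apply h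
      rw [e1, tof_gnorm]
    · exact h e2

theorem off_κ₁ (hS : Strip J κ₁ κ₂ b l₁ l₂ η) (l : ℝ) {v : ℂ} (t : ℝ) (hv : ‖v‖ < 1) (h0 : v ≠ 0) :
    Off3 κ₁ κ₂ b (κ₁ (l, v, t)) := by
  refine ⟨?_, ?_, ?_⟩
  · rintro ⟨l', t', he⟩
    exact h0 (hS.thick₁.inj _ _ _ _ _ _ hv (by simp) he).1
  · rintro ⟨l', t', he⟩
    exact hS.disj _ _ _ _ _ _ hv (by simp) he
  · rintro ⟨l', u, he⟩
    rw [tof_gam] at he
    have h := (hit₁ hS hv (by rw [tof_gnorm]; norm_num) (by simp) he).1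
    have h1 := tof_gnorm u
    rw [h] at h1
    have h2 := tof_norm1 hv
    linarith

theorem off_κ₂ (hS : Strip J κ₁ κ₂ b l₁ l₂ η) (l : ℝ) {v : ℂ} (t : ℝ) (hv : ‖v‖ < 1) (h0 : v ≠ 0) :
    Off3 κ₁ κ₂ b (κ₂ (l, v, t)) := by
  refine ⟨?_, ?_, ?_⟩
  · rintro ⟨l', t', he⟩
    exact hS.disj _ _ _ _ _ _ (by simp) hv he.symm
  · rintro ⟨l', t', he⟩
    exact h0 (hS.thick₂.inj _ _ _ _ _ _ hv (by simp) he).1
  · rintro ⟨l', u, he⟩
    rw [tof_gam] at he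
    have h := (hit₂ hS hv (by rw [tof_gnorm]; norm_num) (by simp) he).1
    have h1 := tof_gnorm u
    rw [h] at h1
    have h2 := tof_norm2 hv
    linarith

theorem off_κγ (hS : Strip J κ₁ κ₂ b l₁ l₂ η) (l : ℝ) {v : ℂ} (u : ℝ) (hv : ‖v‖ < 1) (h0 : v ≠ 0) :
    Off3 κ₁ κ₂ b (κγ b (l, v, u)) := by
  have hre := Complex.abs_re_le_norm v
  have him := Complex.abs_im_le_norm v
  have hre' := abs_lt.1 (lt_of_le_of_lt hre hv)
  have him' := abs_lt.1 (lt_of_le_of_lt him hv)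
  have hn : ‖((5 / 2 + v.re / 2 : ℝ) : ℂ) * ex u‖ = 5 / 2 + v.re / 2 := by
    rw [norm_mul, RSG.ex_norm, mul_one, Complex.norm_real, Real.norm_eq_abs, abs_of_pos (by linarith)]
  unfold κγ
  refine off_box hS l (by rw [hn]; linarith) (abs_lt.2 ⟨by show -1 < v.im / 2; linarith, by show v.im / 2 < 1; linarith⟩) ?_ ?_ ?_
  · intro e
    rw [e, norm_neg, norm_one] at hn
    linarith
  · intro e
    rw [e, norm_one] at hn
    linarith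
  · by_cases hi : v.im = 0
    · left
      show ‖((5 / 2 + v.re / 2 : ℝ) : ℂ) * ex u‖ ≠ 5 / 2
      rw [hn]
      intro e
      apply h0
      apply Complex.ext
      · show v.re = 0
        linarith
      · exact hi
    · right
      show v.im / 2 ≠ 0
      intro e
      apply hi
      linarith

end

end Pool.Agent.MMV
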