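import Pool.Agent.MMV.TPo
import Pool.Agent.MMV.TCp
import Pool.Agent.MMV.TOf
import Pool.Agent.RBM.TorP

/-!
# MMV/TKq
: the map `Kq`   (difficulty 4)

`Kq D (c, ν, t)`, `‖c‖ < 1`: `D.Q (CapS (0, ν, t))` for `c = 0`, `D.A (κγ b (t, |c| ex (1/2 - ν), an c))` for `c ≠ 0`.
* `Kq_cap`: for `cos (2πt) < 0` and `c ≠ 0`: `D.glueQ (CapS (c, ν, t)) t (1/2 - ν) (an c)` with `CapS_facts`: `c1 = (positive) c = |c1| ex (an c)` (`RSG.ex_arg`), `c2 = |c2| ex (1/2 - ν)`, `fh = |fh| ex t`, `2 |c1| |c2| = |c|`.  For `c = 0` by definition.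
* `Kq_per`: `c ≠ 0`: `κγ b (t + 1, ..) = κγ b (t, ..)` (`hS.box.per`), induction over integers; `c = 0`: `CapS_per`.
* `Kq_ld`: if `cos (2πt) < 0`: near `(c, ν, t)` (open conditions `‖c‖ < 1`, `cos < 0`) `Kq D = D.Q ∘ CapS`, `CapS_ld`, `D.Q_loc` (`CapS_fh`).  If `c ≠ 0`: near the point `Kq D = D.A ∘ b ∘ g`, `g (c, ν, t) = ((5/2 - |c| cos(2πν)/2) c/|c|, |c| sin(2πν)/2, t)` (`c/|c| = ex (an c)`, `RSG.ex_arg`;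
  `|c| ex (1/2 - ν)` has real part `-|c| cos (2πν)` and imaginary part `|c| sin (2πν)`): `g` is a local diffeomorphism at points with `0 < |c| < 1`: `(ρ cos(2πν), ρ sin(2πν)) ↔ (ρ, ν)` polar coordinates: derivative: if `dg = 0` then `dt = 0`; with `c = ρ e`, the first component has radial part `d(ρ cos (2πν)) = 0` and
  the second `d(ρ sin (2πν)) = 0`, so `dρ = 0`, `dν = 0`, and the tangential part `(5/2 - ..) de = 0`, so `dc = 0` (`CSG.ld_of_fderiv`), or by explicit local inverse.  `hS.box.loc` (`‖z‖ < 3`, `|s| < 1/2`), `D.A_loc` with `off_κγ` (`v = |c| ex (1/2 - ν) ≠ 0`).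
-/

open scoped ContDiff Manifold Topology
open Set Filter
open Complex (I)
open Pool.Agent.RSG (E3 E4 S2 S3 S4 ex cj c1 c2 ht fh pS3 pS4)
open Pool.Agent.RBM (ThickT OnT Box)
open Pool.Agent.LKF (OnF)
open Pool.Agent.PTH (SP ISP)
open Pool.Agent.KNH (circ)
open Pool.Agent.LKT (s1 s2)

namespace Pool.Agent.MMV

/-- the coordinates of the box in terms of the cap coordinates -/
noncomputable def tkq_g (q : ℂ × ℝ × ℝ) : ℂ × ℝ × ℝ :=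
  (((5 / 2 + ((‖q.1‖ : ℝ) * ex (1 / 2 - q.2.1)).re / 2) / ‖q.1‖ : ℝ) * q.1, ((‖q.1‖ : ℝ) * ex (1 / 2 - q.2.1)).im / 2,
    q.2.2)

/-- the inverse of `tkq_g` near a point -/
noncomputable def tkq_h (m₀ : ℝ) (q : ℂ × ℝ × ℝ) : ℂ × ℝ × ℝ :=
  ((‖(⟨2 * ‖q.1‖ - 5, 2 * q.2.1⟩ : ℂ)‖ / ‖q.1‖ : ℝ) * q.1, 1 / 2 - LKT.lf m₀ ⟨2 * ‖q.1‖ - 5, 2 * q.2.1⟩, q.2.2)

theorem tkq_v {c : ℂ} (x : ℝ) (hc : ‖c‖ < 1) : |((‖c‖ : ℝ) * ex x).re| < 1 ∧ |((‖c‖ : ℝ) * ex x).im| < 1 := by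
  have h : ‖((‖c‖ : ℝ) : ℂ) * ex x‖ = ‖c‖ := by
    rw [norm_mul, RSG.ex_norm, mul_one, Complex.norm_real, norm_norm]
  have h1 := Complex.abs_re_le_norm (((‖c‖ : ℝ) : ℂ) * ex x)
  have h2 := Complex.abs_im_le_norm (((‖c‖ : ℝ) : ℂ) * ex x)
  rw [h] at h1 h2
  exact ⟨by linarith, by linarith⟩

theorem tkq_gn {c : ℂ} (ν t : ℝ) (hc : ‖c‖ < 1) (h0 : c ≠ 0) :
    ‖(tkq_g (c, ν, t)).1‖ = 5 / 2 + ((‖c‖ : ℝ) * ex (1 / 2 - ν)).re / 2 := by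
  have h1 := abs_lt.1 (tkq_v (1 / 2 - ν) hc).1
  have h2 : 0 < ‖c‖ := norm_pos_iff.2 h0
  unfold tkq_g
  dsimp only
  rw [norm_mul, Complex.norm_real, Real.norm_eq_abs, abs_of_pos, div_mul_cancel₀ _ h2.ne']
  exact div_pos (by linarith) h2

theorem tkq_gv {c : ℂ} (ν t : ℝ) (hc : ‖c‖ < 1) (h0 : c ≠ 0) :
    (⟨2 * ‖(tkq_g (c, ν, t)).1‖ - 5, 2 * (tkq_g (c, ν, t)).2.1⟩ : ℂ) = (‖c‖ : ℝ) * ex (1 / 2 - ν) := by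
  apply Complex.ext
  · show 2 * ‖(tkq_g (c, ν, t)).1‖ - 5 = _
    rw [tkq_gn ν t hc h0]
    ring
  · show 2 * (((‖c‖ : ℝ) * ex (1 / 2 - ν)).im / 2) = _
    ring

theorem tkq_nv {c : ℂ} (x : ℝ) : ‖((‖c‖ : ℝ) : ℂ) * ex x‖ = ‖c‖ := by
  rw [norm_mul, RSG.ex_norm, mul_one, Complex.norm_real, norm_norm]

theorem tkq_hg {c : ℂ} {m₀ ν : ℝ} (t : ℝ) (hc : ‖c‖ < 1) (h0 : c ≠ 0) (hm : |(1 / 2 - ν) - m₀| < 1 / 2) :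
    tkq_h m₀ (tkq_g (c, ν, t)) = (c, ν, t) := by
  have h1 := abs_lt.1 (tkq_v (1 / 2 - ν) hc).1
  have h2 : 0 < ‖c‖ := norm_pos_iff.2 h0
  have h3 : 0 < 5 / 2 + ((‖c‖ : ℝ) * ex (1 / 2 - ν)).re / 2 := by linarith
  unfold tkq_h
  rw [tkq_gv ν t hc h0, tkq_gn ν t hc h0, tkq_nv, LKT.lf_mul h2, LKT.lf_ex hm, sub_sub_cancel]
  refine Prod.ext ?_ rfl
  show ((‖c‖ / (5 / 2 + ((‖c‖ : ℝ) * ex (1 / 2 - ν)).re / 2) : ℝ) : ℂ) *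
    (((5 / 2 + ((‖c‖ : ℝ) * ex (1 / 2 - ν)).re / 2) / ‖c‖ : ℝ) * c) = c
  rw [← mul_assoc, ← Complex.ofReal_mul, div_mul_div_cancel₀ h3.ne', div_self h2.ne', Complex.ofReal_one, one_mul]

theorem tkq_gh {w : ℂ} {m₀ s : ℝ} (t : ℝ) (hw : w ≠ 0) (hv : (⟨2 * ‖w‖ - 5, 2 * s⟩ : ℂ) ≠ 0) :
    tkq_g (tkq_h m₀ (w, s, t)) = (w, s, t) := by
  have h2 : 0 < ‖w‖ := norm_pos_iff.2 hw
  set v : ℂ := ⟨2 * ‖w‖ - 5, 2 * s⟩ with hvd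
  have h3 : 0 < ‖v‖ := norm_pos_iff.2 hv
  have h4 : ‖((‖v‖ / ‖w‖ : ℝ) : ℂ) * w‖ = ‖v‖ := by
    rw [norm_mul, Complex.norm_real, Real.norm_eq_abs, abs_of_pos (div_pos h3 h2), div_mul_cancel₀ _ h2.ne']
  have h5 : ((‖v‖ : ℝ) : ℂ) * ex (1 / 2 - (1 / 2 - LKT.lf m₀ v)) = v := by
    have : ((‖v‖ : ℝ) : ℂ) ≠ 0 := by exact_mod_cast h3.ne'
    rw [sub_sub_cancel, LKT.ex_lf hv]
    field_simp
  have hh : tkq_h m₀ (w, s, t) = (((‖v‖ / ‖w‖ : ℝ) : ℂ) * w, 1 / 2 - LKT.lf m₀ v, t) := rfl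
  rw [hh]
  unfold tkq_g
  dsimp only
  rw [h4, h5]
  have e1 : 5 / 2 + v.re / 2 = ‖w‖ := by
    show 5 / 2 + (2 * ‖w‖ - 5) / 2 = ‖w‖
    ring
  have e2 : v.im / 2 = s := by
    show 2 * s / 2 = s
    ring
  rw [e1, e2, ← mul_assoc, ← Complex.ofReal_mul, div_mul_div_cancel₀ h3.ne', div_self h2.ne', Complex.ofReal_one, one_mul]

theorem tkq_gs {q : ℂ × ℝ × ℝ} (h0 : q.1 ≠ 0) : ContDiffAt ℝ ∞ tkq_g q := by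
  have hn : ContDiffAt ℝ ∞ (fun q : ℂ × ℝ × ℝ => ‖q.1‖) q := contDiffAt_fst.norm ℝ h0
  have hex : ContDiffAt ℝ ∞ (fun q : ℂ × ℝ × ℝ => ex (1 / 2 - q.2.1)) q :=
    (RSG.ex_smooth.contDiffAt).comp q (by fun_prop)
  have hv : ContDiffAt ℝ ∞ (fun q : ℂ × ℝ × ℝ => ((‖q.1‖ : ℝ) : ℂ) * ex (1 / 2 - q.2.1)) q :=
    ((Complex.ofRealCLM.contDiff.contDiffAt).comp q hn).mul hex
  have hre : ContDiffAt ℝ ∞ (fun q : ℂ × ℝ × ℝ => (((‖q.1‖ : ℝ) : ℂ) * ex (1 / 2 - q.2.1)).re) q :=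
    (Complex.reCLM.contDiff.contDiffAt).comp q hv
  have him : ContDiffAt ℝ ∞ (fun q : ℂ × ℝ × ℝ => (((‖q.1‖ : ℝ) : ℂ) * ex (1 / 2 - q.2.1)).im) q :=
    (Complex.imCLM.contDiff.contDiffAt).comp q hv
  have h1 : ContDiffAt ℝ ∞ (fun q : ℂ × ℝ × ℝ =>
      (5 / 2 + (((‖q.1‖ : ℝ) : ℂ) * ex (1 / 2 - q.2.1)).re / 2) / ‖q.1‖) q :=
    (contDiffAt_const.add (hre.div_const 2)).div hn (norm_ne_zero_iff.2 h0)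
  have h2 : ContDiffAt ℝ ∞ (fun q : ℂ × ℝ × ℝ =>
      ((((5 / 2 + (((‖q.1‖ : ℝ) : ℂ) * ex (1 / 2 - q.2.1)).re / 2) / ‖q.1‖ : ℝ) : ℂ) * q.1)) q :=
    ((Complex.ofRealCLM.contDiff.contDiffAt).comp q h1).mul contDiffAt_fst
  exact h2.prodMk ((him.div_const 2).prodMk (by fun_prop))

theorem tkq_mk {q : ℂ × ℝ × ℝ} (h0 : q.1 ≠ 0) :
    ContDiffAt ℝ ∞ (fun q : ℂ × ℝ × ℝ => (⟨2 * ‖q.1‖ - 5, 2 * q.2.1⟩ : ℂ)) q := by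
  have hn : ContDiffAt ℝ ∞ (fun q : ℂ × ℝ × ℝ => ‖q.1‖) q := contDiffAt_fst.norm ℝ h0
  have h1 : ContDiff ℝ ∞ fun z : ℝ × ℝ => (⟨z.1, z.2⟩ : ℂ) := Complex.equivRealProdCLM.symm.contDiff
  have h2 : ContDiffAt ℝ ∞ (fun q : ℂ × ℝ × ℝ => ((2 * ‖q.1‖ - 5, 2 * q.2.1) : ℝ × ℝ)) q :=
    ((contDiffAt_const.mul hn).sub contDiffAt_const).prodMk (by fun_prop)
  exact h1.contDiffAt.comp q h2

theorem tkq_hs {m₀ : ℝ} {q : ℂ × ℝ × ℝ} (h0 : q.1 ≠ 0) (hv : (⟨2 * ‖q.1‖ - 5, 2 * q.2.1⟩ : ℂ) ≠ 0)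
    (hl : (⟨2 * ‖q.1‖ - 5, 2 * q.2.1⟩ : ℂ) * ex (-m₀) ∈ Complex.slitPlane) : ContDiffAt ℝ ∞ (tkq_h m₀) q := by
  have hn : ContDiffAt ℝ ∞ (fun q : ℂ × ℝ × ℝ => ‖q.1‖) q := contDiffAt_fst.norm ℝ h0
  have hm := tkq_mk h0
  have h1 : ContDiffAt ℝ ∞ (fun q : ℂ × ℝ × ℝ => ‖(⟨2 * ‖q.1‖ - 5, 2 * q.2.1⟩ : ℂ)‖) q := hm.norm ℝ hv
  have h2 : ContDiffAt ℝ ∞ (fun q : ℂ × ℝ × ℝ => ‖(⟨2 * ‖q.1‖ - 5, 2 * q.2.1⟩ : ℂ)‖ / ‖q.1‖) q :=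
    h1.div hn (norm_ne_zero_iff.2 h0)
  have h3 : ContDiffAt ℝ ∞ (fun q : ℂ × ℝ × ℝ =>
      (((‖(⟨2 * ‖q.1‖ - 5, 2 * q.2.1⟩ : ℂ)‖ / ‖q.1‖ : ℝ) : ℂ) * q.1)) q :=
    ((Complex.ofRealCLM.contDiff.contDiffAt).comp q h2).mul contDiffAt_fst
  have h4 : ContDiffAt ℝ ∞ (fun q : ℂ × ℝ × ℝ => LKT.lf m₀ ⟨2 * ‖q.1‖ - 5, 2 * q.2.1⟩) q :=
    ContDiffAt.comp q (g := LKT.lf m₀) (LKT.lf_smooth hl) hm
  exact h3.prodMk ((contDiffAt_const.sub h4).prodMk (by fun_prop))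

theorem tkq_ld {c : ℂ} (ν t : ℝ) (hc : ‖c‖ < 1) (h0 : c ≠ 0) :
    IsLocalDiffeomorphAt 𝓘(ℝ, ℂ × ℝ × ℝ) 𝓘(ℝ, ℂ × ℝ × ℝ) ∞ tkq_g (c, ν, t) := by
  have h1 := abs_lt.1 (tkq_v (1 / 2 - ν) hc).1
  have hn : 0 < ‖c‖ := norm_pos_iff.2 h0
  have hw0 : (tkq_g (c, ν, t)).1 ≠ 0 := by
    intro h
    have h2 := tkq_gn ν t hc h0
    rw [h, norm_zero] at h2
    linarith
  have hgv := tkq_gv ν t hc h0
  have hv0 : (⟨2 * ‖(tkq_g (c, ν, t)).1‖ - 5, 2 * (tkq_g (c, ν, t)).2.1⟩ : ℂ) ≠ 0 := by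
    rw [hgv]
    exact mul_ne_zero (by exact_mod_cast hn.ne') (RSG.ex_ne _)
  have hcv : ContinuousAt (fun q : ℂ × ℝ × ℝ => (⟨2 * ‖q.1‖ - 5, 2 * q.2.1⟩ : ℂ)) (tkq_g (c, ν, t)) :=
    (tkq_mk hw0).continuousAt
  have ha : ∀ᶠ q : ℂ × ℝ × ℝ in 𝓝 (tkq_g (c, ν, t)), q.1 ≠ 0 :=
    continuousAt_fst.eventually_ne hw0
  have hb : ∀ᶠ q : ℂ × ℝ × ℝ in 𝓝 (tkq_g (c, ν, t)), (⟨2 * ‖q.1‖ - 5, 2 * q.2.1⟩ : ℂ) ≠ 0 :=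
    hcv.eventually_ne hv0
  refine RSG.ld_two (g := tkq_h (1 / 2 - ν)) ?_ ?_ ?_ ?_
  · have : ∀ᶠ q : ℂ × ℝ × ℝ in 𝓝 (c, ν, t), q.1 ≠ 0 := continuousAt_fst.eventually_ne h0
    filter_upwards [this] with q hq
    exact (tkq_gs hq).contMDiffAt
  · have hs : ∀ᶠ q : ℂ × ℝ × ℝ in 𝓝 (tkq_g (c, ν, t)),
        (⟨2 * ‖q.1‖ - 5, 2 * q.2.1⟩ : ℂ) * ex (-(1 / 2 - ν)) ∈ Complex.slitPlane := by
      apply hcv.eventually (p := fun e => e * ex (-(1 / 2 - ν)) ∈ Complex.slitPlane)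
      refine LKT.lf_near hv0 ?_
      show (⟨2 * ‖(tkq_g (c, ν, t)).1‖ - 5, 2 * (tkq_g (c, ν, t)).2.1⟩ : ℂ) =
        ((‖(⟨2 * ‖(tkq_g (c, ν, t)).1‖ - 5, 2 * (tkq_g (c, ν, t)).2.1⟩ : ℂ)‖ : ℝ) : ℂ) * ex (1 / 2 - ν)
      rw [hgv, tkq_nv]
    filter_upwards [ha, hb, hs] with q h1 h2 h3
    exact (tkq_hs h1 h2 h3).contMDiffAt
  · have hD : ∀ᶠ y : ℂ × ℝ × ℝ in 𝓝 (c, ν, t), ‖y.1‖ < 1 := by
      have : ContinuousAt (fun y : ℂ × ℝ × ℝ => ‖y.1‖) (c, ν, t) := by fun_prop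
      exact this.eventually_lt_const hc
    have hN : ∀ᶠ q : ℂ × ℝ × ℝ in 𝓝 (c, ν, t), q.1 ≠ 0 := continuousAt_fst.eventually_ne h0
    have hl : ∀ᶠ y : ℂ × ℝ × ℝ in 𝓝 (c, ν, t), |(1 / 2 - y.2.1) - (1 / 2 - ν)| < 1 / 2 := by
      have : ContinuousAt (fun y : ℂ × ℝ × ℝ => |(1 / 2 - y.2.1) - (1 / 2 - ν)|) (c, ν, t) := by fun_prop
      apply this.eventually_lt_const
      simp
    filter_upwards [hD, hN, hl] with y h1 h2 h3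
    exact tkq_hg y.2.2 h1 h2 h3
  · filter_upwards [ha, hb] with q h1 h2
    exact tkq_gh q.2.2 h1 h2

section
variable {E : Type*} [NormedAddCommGroup E] [NormedSpace ℝ E] {H : Type*} [TopologicalSpace H]
  {J : ModelWithCorners ℝ E H} {P : Type*} [TopologicalSpace P] [ChartedSpace H P]
  {X : Type*} [TopologicalSpace X] [ChartedSpace E4 X] {κ₁ κ₂ : ℝ × ℂ × ℝ → P} {b : ℂ × ℝ × ℝ → P} {l₁ l₂ η : ℝ}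
  {a₁ c₁' a₂ c₂' : ℤ}

omit [TopologicalSpace P] [ChartedSpace H P] in
theorem tkq_κ (b : ℂ × ℝ × ℝ → P) {c : ℂ} (ν t : ℝ) (h0 : c ≠ 0) :
    κγ b (t, (‖c‖ : ℝ) * ex (1 / 2 - ν), an c) = b (tkq_g (c, ν, t)) := by
  have h1 : ex (an c) = c / ‖c‖ := LKT.ex_an h0
  unfold κγ tkq_g
  dsimp only
  rw [h1]
  congr 2
  rw [Complex.ofReal_div]
  ring

theorem Kq_cap (D : Nf J κ₁ κ₂ b a₁ c₁' a₂ c₂' X) {c : ℂ} {ν t : ℝ} (hc : ‖c‖ < 1) (ht0 : Real.cos (2 * Real.pi * t) < 0) :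
    Kq D (c, ν, t) = D.Q (CapS (c, ν, t)) := by
  unfold Kq
  by_cases h0 : c = 0
  · subst h0
    exact if_pos rfl
  · refine (if_neg h0).trans ?_
    obtain ⟨hd, e1, e2, e3, e4⟩ := CapS_facts (ν := ν) hc ht0
    have hn : 0 < ‖c‖ := norm_pos_iff.2 h0
    have hr : 0 < 1 / Real.sqrt (2 * (cS c t - cE c t)) := one_div_pos.2 (Real.sqrt_pos.2 (by linarith))
    have hr2 : 0 < Real.sqrt ((cS c t - cE c t) / 2) := Real.sqrt_pos.2 (by linarith)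
    have hg := D.glueQ (CapS (c, ν, t)) t (1 / 2 - ν) (an c) (CapS_fh hc ht0) ?_ ?_ ?_ ?_ ?_
    · rw [hg, e4]
    · rw [e1]
      exact mul_ne_zero (by exact_mod_cast hr.ne') h0
    · rw [e2]
      exact mul_ne_zero (by exact_mod_cast hr2.ne') (RSG.ex_ne _)
    · rw [e1, norm_mul, Complex.norm_real, Real.norm_eq_abs, abs_of_pos hr, Complex.ofReal_mul, mul_assoc]
      congr 1
      exact RSG.ex_arg.symm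
    · rw [e2, norm_mul, RSG.ex_norm, mul_one, Complex.norm_real, Real.norm_eq_abs, abs_of_pos hr2]
    · rw [e3, norm_mul, RSG.ex_norm, mul_one, Complex.norm_real, Real.norm_eq_abs, abs_of_nonneg (Real.sqrt_nonneg _)]

theorem Kq_per (hS : Strip J κ₁ κ₂ b l₁ l₂ η) (D : Nf J κ₁ κ₂ b a₁ c₁' a₂ c₂' X) (c : ℂ) (ν t : ℝ) (k : ℤ) :
    Kq D (c, ν, t + k) = Kq D (c, ν, t) := by
  unfold Kq
  by_cases h0 : c = 0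
  · rw [if_pos h0, if_pos h0, CapS_per]
  · rw [if_neg h0, if_neg h0]
    congr 1
    unfold κγ
    exact RBM.box_int hS.box _ _ t k

theorem Kq_ld (hS : Strip J κ₁ κ₂ b l₁ l₂ η) (D : Nf J κ₁ κ₂ b a₁ c₁' a₂ c₂' X) {c : ℂ} {ν t : ℝ} (hc : ‖c‖ < 1)
    (h : c ≠ 0 ∨ Real.cos (2 * Real.pi * t) < 0) :
    IsLocalDiffeomorphAt 𝓘(ℝ, ℂ × ℝ × ℝ) (𝓡 4) ∞ (Kq D) (c, ν, t) := by
  by_cases ht0 : Real.cos (2 * Real.pi * t) < 0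
  · have h1 : IsLocalDiffeomorphAt 𝓘(ℝ, ℂ × ℝ × ℝ) (𝓡 4) ∞ (D.Q ∘ CapS) (c, ν, t) :=
      IsLocalDiffeomorphAt.comp (hf := CapS_ld hc ht0) (hg := D.Q_loc _ (CapS_fh hc ht0)) ..
    refine CSG.ld_congr h1 ?_
    have hD : ∀ᶠ y : ℂ × ℝ × ℝ in 𝓝 (c, ν, t), ‖y.1‖ < 1 ∧ Real.cos (2 * Real.pi * y.2.2) < 0 :=
      tcp_open.mem_nhds
        (show (c, ν, t) ∈ {q : ℂ × ℝ × ℝ | ‖q.1‖ < 1 ∧ Real.cos (2 * Real.pi * q.2.2) < 0} from ⟨hc, ht0⟩)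
    filter_upwards [hD] with y hy
    exact Kq_cap D hy.1 hy.2
  · have h0 : c ≠ 0 := h.resolve_right ht0
    have hn : 0 < ‖c‖ := norm_pos_iff.2 h0
    have hv : ‖((‖c‖ : ℝ) : ℂ) * ex (1 / 2 - ν)‖ < 1 := by rw [tkq_nv]; exact hc
    have hv0 : ((‖c‖ : ℝ) : ℂ) * ex (1 / 2 - ν) ≠ 0 := mul_ne_zero (by exact_mod_cast hn.ne') (RSG.ex_ne _)
    have h1 := abs_lt.1 (tkq_v (1 / 2 - ν) hc).1
    have h2 := abs_lt.1 (tkq_v (1 / 2 - ν) hc).2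
    have hoff := off_κγ hS t (an c) hv hv0
    rw [tkq_κ b ν t h0] at hoff
    have l1 := tkq_ld ν t hc h0
    have l2 : IsLocalDiffeomorphAt 𝓘(ℝ, ℂ × ℝ × ℝ) J ∞ b (tkq_g (c, ν, t)) := by
      refine hS.box.loc _ _ _ ?_ ?_
      · have h3 := tkq_gn ν t hc h0
        have h4 : ‖(tkq_g (c, ν, t)).1‖ < 4 := by
          rw [h3]
          linarith
        exact h4
      · rw [abs_lt]
        constructor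
        · show -1 < ((‖c‖ : ℝ) * ex (1 / 2 - ν)).im / 2
          linarith
        · show ((‖c‖ : ℝ) * ex (1 / 2 - ν)).im / 2 < 1
          linarith
    have l3 := D.A_loc _ hoff
    have l4 : IsLocalDiffeomorphAt 𝓘(ℝ, ℂ × ℝ × ℝ) (𝓡 4) ∞ (D.A ∘ (b ∘ tkq_g)) (c, ν, t) :=
      IsLocalDiffeomorphAt.comp (hf := IsLocalDiffeomorphAt.comp (hf := l1) (hg := l2) ..) (hg := l3) ..
    refine CSG.ld_congr l4 ?_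
    have hN : ∀ᶠ q : ℂ × ℝ × ℝ in 𝓝 (c, ν, t), q.1 ≠ 0 := continuousAt_fst.eventually_ne h0
    filter_upwards [hN] with y hy
    obtain ⟨c', ν', t'⟩ := y
    show Kq D (c', ν', t') = D.A (b (tkq_g (c', ν', t')))
    rw [← tkq_κ b ν' t' hy]
    unfold Kq
    exact if_neg hy

end

end Pool.Agent.MMV
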