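import Pool.Agent.MMV.TFt

/-!
# MMV/TNf
: from `FT` to `Nf`   (difficulty 2)

Field by field, `off3_iff`; `F₁ = D.F 0`, `F₂ = D.F 1`, `Q = D.Q 0`; the slopes are `(M 0).a = a₁`, `(M 0).b = -a₂`, ... (`glueF 0`, `push_cast`, `ring_nf` in the arguments).
-/

open scoped ContDiff Manifold Topology
open Set Filter
open Complex (I)
open Pool.Agent.RSG (E3 E4 S2 S3 S4 ex cj c1 c2 ht fh pS3 pS4)
open Pool.Agent.RBM (ThickT OnT Box)
open Pool.Agent.LKF (OnF)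
open Pool.Agent.PTH (SP ISP)
open Pool.Agent.KNH (circ)
open Pool.Agent.LKT (s1 s2)

namespace Pool.Agent.MMV

section
variable {E : Type*} [NormedAddCommGroup E] [NormedSpace ℝ E] {H : Type*} [TopologicalSpace H]
  {J : ModelWithCorners ℝ E H} {P : Type*} [TopologicalSpace P] [ChartedSpace H P]
  {X : Type*} [TopologicalSpace X] [ChartedSpace E4 X] {κ₁ κ₂ : ℝ × ℂ × ℝ → P} {b : ℂ × ℝ × ℝ → P} {l₁ l₂ η : ℝ}
  {a₁ c₁' a₂ c₂' : ℤ}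

theorem nf_of_ft (D : FT J ![κ₁, κ₂] ![⟨a₁, -a₂, c₁', c₂'⟩, ⟨a₂, -a₁, c₂', c₁'⟩] ![κγ b] X) :
    Nonempty (Nf J κ₁ κ₂ b a₁ c₁' a₂ c₂' X) := by
  refine ⟨{ A := D.A, F₁ := D.F 0, F₂ := D.F 1, Q := D.Q 0, A_loc := ?_, A_inj := ?_, per₁ := ?_,
            per₂ := ?_, loc₁ := ?_, loc₂ := ?_, inj₁ := ?_, inj₂ := ?_, ne₁₂ := ?_, glue₁ := ?_,
            glue₂ := ?_, Q_loc := ?_, Q_inj := ?_, glueQ := ?_, disj₁ := ?_, disj₂ := ?_,
            disjQ := ?_, disjQ₁ := ?_, disjQ₂ := ?_, cover := ?_ }⟩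
  · intro p hp
    have h := (off3_iff p).2 hp
    exact D.A_loc p h.1 h.2
  · intro p p' hp hp' e
    have h := (off3_iff p).2 hp
    have h' := (off3_iff p').2 hp'
    exact D.A_inj p p' h.1 h.2 h'.1 h'.2 e
  · intro l s ξ hξ
    exact ⟨D.F_per1 0 l s ξ hξ, D.F_per2 0 l s ξ hξ⟩
  · intro l s ξ hξ
    exact ⟨D.F_per1 1 l s ξ hξ, D.F_per2 1 l s ξ hξ⟩
  · intro l s ξ hξ
    exact D.F_loc 0 l s ξ hξ
  · intro l s ξ hξ
    exact D.F_loc 1 l s ξ hξ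
  · intro l s ξ l' s' ξ' hξ hξ' e
    exact (D.F_inj 0 l s ξ 0 l' s' ξ' hξ hξ' e).2
  · intro l s ξ l' s' ξ' hξ hξ' e
    exact (D.F_inj 1 l s ξ 1 l' s' ξ' hξ hξ' e).2
  · intro l s ξ l' s' ξ' hξ hξ' e
    have h := (D.F_inj 0 l s ξ 1 l' s' ξ' hξ hξ' e).1
    exact absurd h (by decide)
  · intro l s r φ hr hr'
    have h := D.glueF 0 l s r φ hr hr'
    rw [h]
    have e : (a₁ : ℝ) * φ + ((-a₂ : ℤ) : ℝ) * s = a₁ * φ - a₂ * s := by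
      push_cast
      ring
    change D.A (κ₁ (l, r * ex ((a₁ : ℝ) * φ + ((-a₂ : ℤ) : ℝ) * s), (c₁' : ℝ) * φ + (c₂' : ℝ) * s)) = _
    rw [e]
  · intro l s r φ hr hr'
    have h := D.glueF 1 l s r φ hr hr'
    rw [h]
    have e : (a₂ : ℝ) * φ + ((-a₁ : ℤ) : ℝ) * s = a₂ * φ - a₁ * s := by
      push_cast
      ring
    change D.A (κ₂ (l, r * ex ((a₂ : ℝ) * φ + ((-a₁ : ℤ) : ℝ) * s), (c₂' : ℝ) * φ + (c₁' : ℝ) * s)) = _
    rw [e]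
  · intro z hz
    exact D.Q_loc 0 z hz
  · intro z z' hz hz' e
    exact (D.Q_inj 0 z 0 z' hz hz' e).2
  · intro z l m u h1 h2 h3 h4 h5 h6
    exact D.glueQ 0 z l m u h1 h2 h3 h4 h5 h6
  · intro l s p hp
    have h := (off3_iff p).2 hp
    exact D.disjF 0 l s p h.1 h.2
  · intro l s p hp
    have h := (off3_iff p).2 hp
    exact D.disjF 1 l s p h.1 h.2
  · intro z p hz hc hp
    have h := (off3_iff p).2 hp
    exact D.disjQ 0 z p hz hc h.1 h.2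
  · intro l s z hz
    exact D.disjFQ 0 l s 0 z hz
  · intro l s z hz
    exact D.disjFQ 1 l s 0 z hz
  · intro q
    rcases D.cover q with ⟨p, h1, h2, e⟩ | ⟨i, l, s, e⟩ | ⟨i, z, hz, hc, e⟩
    · exact Or.inl ⟨p, (off3_iff p).1 ⟨h1, h2⟩, e⟩
    · rcases (show i = 0 ∨ i = 1 by fin_cases i; exacts [Or.inl rfl, Or.inr rfl]) with rfl | rfl
      · exact Or.inr (Or.inl ⟨l, s, e⟩)
      · exact Or.inr (Or.inr (Or.inl ⟨l, s, e⟩))
    · rcases (show i = 0 from Subsingleton.elim _ _) with rfl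
      exact Or.inr (Or.inr (Or.inr ⟨z, hz, hc, e⟩))

end

end Pool.Agent.MMV
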