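import Pool.Agent.MMV.TDef

/-!
# MMV/TPo
: the position map `Pos`   (difficulty 4)

`Pos η (Z, ν) = (g₁(|Z|, ν) Z, g₂(|Z|, ν))`, `χ = stp (3/2) (7/4) ρ`, `g₁ = (1-χ) + χ (5/2 - cos(2πν)/(2ρ))/ρ`, `g₂ = (1-χ) ν/η + χ sin(2πν)/(2ρ)`.
* `Pos_in`: `χ = 0`.  `Pos_out`: `χ = 1`; with `c = conj (Z⁻¹)`: `|c| = 1/|Z|`, `Z = |Z| ex (an c)` (`RSG.ex_arg`: `c = |c| ex (an c)` and `Z = 1/conj c`), `v = |c| ex (1/2 - ν)` has `v.re = -|c| cos (2πν)`, `v.im = |c| sin (2πν)` (`RSG.ex_re`, `RSG.ex_im`).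
* `R(ρ) = ρ g₁(ρ, 0) = (1-χ) ρ + χ (5/2 - 1/(2ρ))`: on `[3/2, 7/4]`: `5/2 - 1/(2ρ) ≥ ρ` and both are `≥ 3/2`; strictly increasing in `ρ` (`R(ρ') - R(ρ) = (1-χ')(ρ'-ρ) + χ'(g' - g) + (χ'-χ)(g - ρ)` with `g = 5/2 - 1/(2ρ)`, for `ρ < ρ'`, `g - ρ ≥ 0` on `ρ ≤ 7/4`; if `ρ > 7/4`, `χ = χ' = 1`;
  if `ρ' ≤ 3/2` trivial; if `ρ < 3/2 ≤ ρ'` compare with `R(3/2) = 3/2`).  `Pos_inj`: norms give `R(|Z|) = R(|Z'|)`, `|Z| = |Z'|`, and `g₁ > 0` is the same.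
* `Pos_norm`: `R(ρ) < 5/2` for all `ρ` (convex combination of numbers `< 5/2`), `R(ρ) ≤ 9/4` for `ρ ≤ 2` (monotone, `R(2) = 9/4`).
* `Pos_dist`: if `|Z| ≤ 3/2` it is `Z`; otherwise `|Pos| = R(|Z|) ≥ 3/2`, `|Pos + 1| ≥ 1/2`.  `Pos_ne`: same (`Pos.1 = ±1 ↔ Z = ±1`).
* `Pos_ld` at `(Z, 0)`: for `|Z| < 3/2` the map is `(Z, ν/η)` near the point.  For `|Z| ≥ 3/2 > 0`: smooth near the point; derivative at `(Z, 0)`: `∂_ν g₁ = 0` (the derivative of the cosine at `0`), `g₂(ρ, 0) = 0` for all `ρ` so `∂_ρ g₂ = 0`, `∂_ν g₂ = (1-χ)/η + χ π/ρ > 0`.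
  If `(dZ, dν)` is in the kernel: `dν = 0`, and then `g₁ dZ + (∂_ρ g₁ ⟨Z, dZ⟩/ρ) Z = 0`: pairing with `Z`: `(g₁ + ρ ∂_ρ g₁) ⟨Z, dZ⟩ = 0`, `g₁ + ρ ∂_ρ g₁ = R'(ρ) > 0` (`R' = (1-χ) + χ/(2ρ²) + χ' (g - ρ)`, `χ' ≥ 0` by `CSG.stp_deriv_nonneg`, `χ' = 0` for `ρ > 7/4`), so `⟨Z, dZ⟩ = 0`, `dZ = 0`.
  (`CSG.ld_of_fderiv`; a clean way: compose with polar coordinates `(ρ, θ, ν) ↦ (ρ ex θ, ν)`, which are a local diffeomorphism, `CSG.ld_of_comp_left`.)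
-/

open scoped ContDiff Manifold Topology
open Set Filter
open Complex (I)
open Pool.Agent.RSG (E3 E4 S2 S3 S4 ex cj c1 c2 ht fh pS3 pS4)
open Pool.Agent.RBM (ThickT OnT Box)
open Pool.Agent.LKF (OnF)
open Pool.Agent.PTH (SP ISP)
open Pool.Agent.KNH (circ)
open Pool.Agent.LKT (s1 s2)

namespace Pool.Agent.MMV

open Pool.Agent.CSG (stp)

/-- radial factor -/
noncomputable def tpo_T (ρ ν : ℝ) : ℝ := (1 - stp (3 / 2) (7 / 4) ρ) +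
  stp (3 / 2) (7 / 4) ρ * ((5 / 2 - Real.cos (2 * Real.pi * ν) / (2 * ρ)) / ρ)

/-- second coordinate -/
noncomputable def tpo_H (η ρ ν : ℝ) : ℝ := (1 - stp (3 / 2) (7 / 4) ρ) * (ν / η) +
  stp (3 / 2) (7 / 4) ρ * (Real.sin (2 * Real.pi * ν) / (2 * ρ))

/-- radius of the image -/
noncomputable def tpo_R (ρ : ℝ) : ℝ := (1 - stp (3 / 2) (7 / 4) ρ) * ρ +
  stp (3 / 2) (7 / 4) ρ * (5 / 2 - 1 / (2 * ρ))

theorem tpo_eq (η : ℝ) (q : ℂ × ℝ) : Pos η q = (tpo_T ‖q.1‖ q.2 • q.1, tpo_H η ‖q.1‖ q.2) := by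
  unfold Pos tpo_T tpo_H
  rw [Complex.real_smul]

theorem tpo_R_eq {ρ : ℝ} (hρ : 0 < ρ) : tpo_T ρ 0 * ρ = tpo_R ρ := by
  unfold tpo_T tpo_R
  rw [mul_zero, Real.cos_zero]
  field_simp

theorem tpo_R_zero : tpo_R 0 = 0 := by
  unfold tpo_R
  rw [Pool.Agent.CSG.stp_zero (by norm_num) (by norm_num)]
  ring

theorem tpo_R_low {ρ : ℝ} (h : ρ ≤ 3 / 2) : tpo_R ρ = ρ := by
  unfold tpo_R
  rw [Pool.Agent.CSG.stp_zero (by norm_num) h]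
  ring

theorem tpo_R_pos {ρ : ℝ} (hρ : 0 < ρ) : 0 < tpo_R ρ := by
  rcases le_or_gt ρ (3 / 2) with h | h
  · rw [tpo_R_low h]
    exact hρ
  · have h4 := Pool.Agent.CSG.stp_nonneg (3 / 2) (7 / 4) ρ
    have h5 := Pool.Agent.CSG.stp_le_one (3 / 2) (7 / 4) ρ
    have h6 : 1 / (2 * ρ) < 1 := by
      rw [div_lt_one (by linarith)]
      linarith
    unfold tpo_R
    nlinarith

theorem tpo_T_pos {ρ : ℝ} (hρ : 0 < ρ) : 0 < tpo_T ρ 0 := by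
  have h1 := tpo_R_pos hρ
  rw [← tpo_R_eq hρ] at h1
  exact pos_of_mul_pos_left h1 hρ.le

theorem tpo_R_smooth {ρ : ℝ} (hρ : 0 < ρ) : ContDiffAt ℝ ∞ tpo_R ρ := by
  have h := (Pool.Agent.CSG.stp_smooth (3 / 2) (7 / 4)).contDiffAt (x := ρ)
  have h1 : ContDiffAt ℝ ∞ (fun x : ℝ => 5 / 2 - 1 / (2 * x)) ρ :=
    contDiffAt_const.sub (contDiffAt_const.div (contDiffAt_const.mul contDiffAt_id) (by
      have : (2 : ℝ) * ρ ≠ 0 := by positivity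
      exact this))
  unfold tpo_R
  exact ((contDiffAt_const.sub h).mul contDiffAt_id).add (h.mul h1)

theorem tpo_stp_deriv {ρ : ℝ} (hρ : 0 < ρ) :
    0 ≤ deriv (stp (3 / 2) (7 / 4)) ρ * (5 / 2 - 1 / (2 * ρ) - ρ) := by
  rcases lt_or_ge ρ (3 / 2) with h | h
  · have h1 : stp (3 / 2) (7 / 4) =ᶠ[𝓝 ρ] fun _ => (0 : ℝ) := by
      filter_upwards [Iio_mem_nhds h] with y hy
      exact Pool.Agent.CSG.stp_zero (by norm_num) (le_of_lt hy)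
    rw [h1.deriv_eq]
    simp
  · rcases lt_or_ge (7 / 4) ρ with h' | h'
    · have h1 : stp (3 / 2) (7 / 4) =ᶠ[𝓝 ρ] fun _ => (1 : ℝ) := by
        filter_upwards [Ioi_mem_nhds h'] with y hy
        exact Pool.Agent.CSG.stp_one (by norm_num) (le_of_lt hy)
      rw [h1.deriv_eq]
      simp
    · have h6 : 1 / (2 * ρ) ≤ 1 / 3 := by
        rw [div_le_div_iff₀ (by linarith) (by norm_num)]
        linarith
      exact mul_nonneg (Pool.Agent.CSG.stp_deriv_nonneg (by norm_num) ρ) (by linarith)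

theorem tpo_R_deriv {ρ : ℝ} (hρ : 0 < ρ) : 0 < deriv tpo_R ρ := by
  have hs : DifferentiableAt ℝ (stp (3 / 2) (7 / 4)) ρ :=
    (Pool.Agent.CSG.stp_smooth (3 / 2) (7 / 4)).differentiable (by simp) ρ
  have h1 := hs.hasDerivAt
  have e1 : HasDerivAt (fun x : ℝ => 5 / 2 - 1 / (2 * x)) (1 / (2 * ρ ^ 2)) ρ := by
    have e2 : HasDerivAt (fun x : ℝ => 5 / 2 - (1 / 2) * x⁻¹) (0 - (1 / 2) * (-(ρ ^ 2)⁻¹)) ρ :=
      (hasDerivAt_const ρ (5 / 2 : ℝ)).sub ((hasDerivAt_inv hρ.ne').const_mul (1 / 2))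
    have e3 : (fun x : ℝ => 5 / 2 - 1 / (2 * x)) = fun x : ℝ => 5 / 2 - (1 / 2) * x⁻¹ := by
      funext x
      rw [one_div, mul_inv, one_div]
    rw [e3]
    convert e2 using 1
    field_simp
    ring
  have h2 : HasDerivAt tpo_R ((0 - deriv (stp (3 / 2) (7 / 4)) ρ) * ρ +
      (1 - stp (3 / 2) (7 / 4) ρ) * 1 + (deriv (stp (3 / 2) (7 / 4)) ρ * (5 / 2 - 1 / (2 * ρ)) +
        stp (3 / 2) (7 / 4) ρ * (1 / (2 * ρ ^ 2)))) ρ := by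
    exact (((hasDerivAt_const ρ (1 : ℝ)).sub h1).mul (hasDerivAt_id ρ)).add (h1.mul e1)
  rw [h2.deriv]
  have h3 := tpo_stp_deriv hρ
  have h4 := Pool.Agent.CSG.stp_nonneg (3 / 2) (7 / 4) ρ
  have h5 := Pool.Agent.CSG.stp_le_one (3 / 2) (7 / 4) ρ
  have h6 : 0 < 1 / (2 * ρ ^ 2) := by positivity
  rcases h5.lt_or_eq with h7 | h7
  · have h8 : 0 ≤ stp (3 / 2) (7 / 4) ρ * (1 / (2 * ρ ^ 2)) := mul_nonneg h4 h6.le
    nlinarith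
  · rw [h7] at *
    nlinarith

theorem tpo_R_mono : StrictMonoOn tpo_R (Ioi 0) := by
  apply strictMonoOn_of_deriv_pos (convex_Ioi 0)
  · intro x hx
    exact (tpo_R_smooth hx).continuousAt.continuousWithinAt
  · intro x hx
    rw [interior_Ioi] at hx
    exact tpo_R_deriv hx

theorem tpo_R_le {ρ ρ' : ℝ} (h : 0 < ρ) (h' : ρ ≤ ρ') : tpo_R ρ ≤ tpo_R ρ' := by
  rcases h'.lt_or_eq with h1 | h1
  · exact (tpo_R_mono h (mem_Ioi.mpr (h.trans h1)) h1).le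
  · rw [h1]

theorem tpo_norm (η : ℝ) (Z : ℂ) : ‖(Pos η (Z, 0)).1‖ = tpo_R ‖Z‖ := by
  rw [tpo_eq]
  show ‖tpo_T ‖Z‖ 0 • Z‖ = _
  rcases eq_or_ne Z 0 with rfl | hZ
  · rw [norm_zero, tpo_R_zero, smul_zero, norm_zero]
  · have h : 0 < ‖Z‖ := norm_pos_iff.mpr hZ
    rw [norm_smul, Real.norm_of_nonneg (tpo_T_pos h).le, tpo_R_eq h]

theorem Pos_in {η ν : ℝ} {Z : ℂ} (h : ‖Z‖ ≤ 3 / 2) : Pos η (Z, ν) = (Z, ν / η) := by
  unfold Pos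
  simp only [Pool.Agent.CSG.stp_zero (a := 3 / 2) (b := 7 / 4) (by norm_num) h]
  simp

theorem Pos_out {P : Type*} (b : ℂ × ℝ × ℝ → P) {η : ℝ} (ν t : ℝ) {Z c : ℂ} (h : 7 / 4 ≤ ‖Z‖) (hc : c = (starRingEnd ℂ) Z⁻¹) :
    b ((Pos η (Z, ν)).1, (Pos η (Z, ν)).2, t) = κγ b (t, (‖c‖ : ℝ) * ex (1 / 2 - ν), an c) := by
  have hZ : 0 < ‖Z‖ := by linarith
  have hZ0 : Z ≠ 0 := norm_pos_iff.mp hZ
  have hcn : ‖c‖ = ‖Z‖⁻¹ := by
    rw [hc, RCLike.norm_conj, norm_inv]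
  have hχ : stp (3 / 2) (7 / 4) ‖Z‖ = 1 := Pool.Agent.CSG.stp_one (by norm_num) h
  have hre : (ex (1 / 2 - ν)).re = - Real.cos (2 * Real.pi * ν) := by
    rw [Pool.Agent.RSG.ex_re, show 2 * Real.pi * (1 / 2 - ν) = Real.pi - 2 * Real.pi * ν by ring,
      Real.cos_pi_sub]
  have him : (ex (1 / 2 - ν)).im = Real.sin (2 * Real.pi * ν) := by
    rw [Pool.Agent.RSG.ex_im, show 2 * Real.pi * (1 / 2 - ν) = Real.pi - 2 * Real.pi * ν by ring,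
      Real.sin_pi_sub]
  have hex : ex (an c) = (‖Z‖⁻¹ : ℝ) * Z := by
    have h1 : (‖c‖ : ℂ) * ex (an c) = c := Pool.Agent.RSG.ex_arg
    have h2 : c = ((‖Z‖⁻¹ ^ 2 : ℝ) : ℂ) * Z := by
      rw [hc, map_inv₀]
      have h3 : (starRingEnd ℂ) Z ≠ 0 := by
        rw [Ne, map_eq_zero]
        exact hZ0
      rw [inv_eq_iff_eq_inv, mul_inv]
      have h4 : Z * (starRingEnd ℂ) Z = ((‖Z‖ ^ 2 : ℝ) : ℂ) := by
        rw [Complex.mul_conj, Complex.normSq_eq_norm_sq]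
      rw [← Complex.ofReal_inv, ← inv_pow, inv_inv, ← h4]
      field_simp
    rw [hcn] at h1
    have h5 : ((‖Z‖⁻¹ : ℝ) : ℂ) ≠ 0 := by
      exact_mod_cast (inv_pos.mpr hZ).ne'
    apply mul_left_cancel₀ h5
    rw [h1, h2]
    push_cast
    ring
  have e1 : (Pos η (Z, ν)).1 = (((5 / 2 + (((‖c‖ : ℝ) : ℂ) * ex (1 / 2 - ν)).re / 2 : ℝ)) : ℂ) * ex (an c) := by
    rw [tpo_eq]
    show tpo_T ‖Z‖ ν • Z = _
    unfold tpo_T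
    rw [hχ, hex, Complex.real_smul, Complex.re_ofReal_mul, hre, hcn, ← mul_assoc, ← Complex.ofReal_mul]
    congr 2
    field_simp
    ring
  have e2 : (Pos η (Z, ν)).2 = (((‖c‖ : ℝ) : ℂ) * ex (1 / 2 - ν)).im / 2 := by
    rw [tpo_eq]
    show tpo_H η ‖Z‖ ν = _
    unfold tpo_H
    rw [hχ, Complex.im_ofReal_mul, him, hcn]
    field_simp
    ring
  rw [e1, e2]
  rfl

theorem Pos_zero (η : ℝ) (Z : ℂ) : (Pos η (Z, 0)).2 = 0 := by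
  rw [tpo_eq]
  show tpo_H η ‖Z‖ 0 = 0
  unfold tpo_H
  rw [mul_zero, Real.sin_zero]
  simp

theorem Pos_norm (η : ℝ) (Z : ℂ) : ‖(Pos η (Z, 0)).1‖ < 5 / 2 ∧ (‖Z‖ ≤ 2 → ‖(Pos η (Z, 0)).1‖ ≤ 9 / 4) := by
  rw [tpo_norm]
  constructor
  · rcases le_or_gt ‖Z‖ (3 / 2) with h | h
    · rw [tpo_R_low h]
      linarith
    · have h4 := Pool.Agent.CSG.stp_nonneg (3 / 2) (7 / 4) ‖Z‖
      have h5 := Pool.Agent.CSG.stp_le_one (3 / 2) (7 / 4) ‖Z‖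
      have h6 : 0 < 1 / (2 * ‖Z‖) := by positivity
      unfold tpo_R
      rcases le_or_gt (7 / 4) ‖Z‖ with h' | h'
      · rw [Pool.Agent.CSG.stp_one (by norm_num) h']
        linarith
      · have h7 : stp (3 / 2) (7 / 4) ‖Z‖ < 1 := Pool.Agent.CSG.stp_lt_one (by norm_num) h'
        have h8 : 0 ≤ (1 - stp (3 / 2) (7 / 4) ‖Z‖) * (7 / 4 - ‖Z‖) := mul_nonneg (by linarith) (by linarith)
        have h9 := mul_nonneg h4 h6.le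
        nlinarith
  · intro h
    rcases eq_or_ne Z 0 with rfl | hZ
    · rw [norm_zero, tpo_R_zero]
      norm_num
    · have h0 : 0 < ‖Z‖ := norm_pos_iff.mpr hZ
      have h1 := tpo_R_le h0 h
      have h2 : tpo_R 2 = 9 / 4 := by
        unfold tpo_R
        rw [Pool.Agent.CSG.stp_one (by norm_num) (by norm_num)]
        norm_num
      linarith

theorem Pos_inj {η : ℝ} {Z Z' : ℂ} (he : (Pos η (Z, 0)).1 = (Pos η (Z', 0)).1) : Z = Z' := by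
  have hn : tpo_R ‖Z‖ = tpo_R ‖Z'‖ := by
    rw [← tpo_norm η Z, ← tpo_norm η Z', he]
  rcases eq_or_ne Z 0 with rfl | hZ
  · rw [norm_zero, tpo_R_zero] at hn
    by_contra h
    have h1 : 0 < ‖Z'‖ := norm_pos_iff.mpr (fun h' => h h'.symm)
    have := tpo_R_pos h1
    linarith
  · have h0 : 0 < ‖Z‖ := norm_pos_iff.mpr hZ
    have h1 : 0 < ‖Z'‖ := by
      rcases (norm_nonneg Z').lt_or_eq with h | h
      · exact h
      · rw [← h, tpo_R_zero] at hn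
        have := tpo_R_pos h0
        linarith
    have h2 : ‖Z‖ = ‖Z'‖ := tpo_R_mono.injOn h0 h1 hn
    rw [tpo_eq, tpo_eq] at he
    have h3 : tpo_T ‖Z‖ 0 • Z = tpo_T ‖Z'‖ 0 • Z' := he
    rw [← h2] at h3
    exact smul_right_injective ℂ (tpo_T_pos h0).ne' h3

theorem Pos_dist {η : ℝ} {Z : ℂ} (h : 1 / 8 < ‖Z + 1‖) : 1 / 8 < ‖(Pos η (Z, 0)).1 + 1‖ := by
  rcases le_or_gt ‖Z‖ (3 / 2) with h1 | h1
  · rw [Pos_in h1]
    exact h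
  · have h2 : 3 / 2 ≤ ‖(Pos η (Z, 0)).1‖ := by
      rw [tpo_norm]
      have h3 := tpo_R_le (ρ := 3 / 2) (by norm_num) h1.le
      rw [tpo_R_low le_rfl] at h3
      exact h3
    have h4 : ‖(Pos η (Z, 0)).1‖ ≤ ‖(Pos η (Z, 0)).1 + 1‖ + ‖(1 : ℂ)‖ := by
      have := norm_sub_le ((Pos η (Z, 0)).1 + 1) 1
      rwa [add_sub_cancel_right] at this
    rw [norm_one] at h4
    linarith

theorem Pos_ne {η : ℝ} {Z : ℂ} (h : Z ≠ -1) (h' : Z ≠ 1) : (Pos η (Z, 0)).1 ≠ -1 ∧ (Pos η (Z, 0)).1 ≠ 1 := by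
  rcases le_or_gt ‖Z‖ (3 / 2) with h1 | h1
  · rw [Pos_in h1]
    exact ⟨h, h'⟩
  · have h2 : 3 / 2 ≤ ‖(Pos η (Z, 0)).1‖ := by
      rw [tpo_norm]
      have h3 := tpo_R_le (ρ := 3 / 2) (by norm_num) h1.le
      rw [tpo_R_low le_rfl] at h3
      exact h3
    constructor
    · intro h4
      rw [h4, norm_neg, norm_one] at h2
      linarith
    · intro h4
      rw [h4, norm_one] at h2
      linarith

theorem tpo_smooth (η : ℝ) {q : ℂ × ℝ} (hq : q.1 ≠ 0) : ContDiffAt ℝ ∞ (Pos η) q := by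
  have hn : ContDiffAt ℝ ∞ (fun q : ℂ × ℝ => ‖q.1‖) q := contDiffAt_fst.norm ℝ hq
  have hn0 : ‖q.1‖ ≠ 0 := norm_ne_zero_iff.mpr hq
  have hn1 : 2 * ‖q.1‖ ≠ 0 := mul_ne_zero two_ne_zero hn0
  have hχ : ContDiffAt ℝ ∞ (fun q : ℂ × ℝ => stp (3 / 2) (7 / 4) ‖q.1‖) q :=
    (Pool.Agent.CSG.stp_smooth (3 / 2) (7 / 4)).contDiffAt.comp q hn
  have hcos : ContDiffAt ℝ ∞ (fun q : ℂ × ℝ => Real.cos (2 * Real.pi * q.2)) q :=
    (Real.contDiff_cos.comp (contDiff_const.mul contDiff_snd)).contDiffAt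
  have hsin : ContDiffAt ℝ ∞ (fun q : ℂ × ℝ => Real.sin (2 * Real.pi * q.2)) q :=
    (Real.contDiff_sin.comp (contDiff_const.mul contDiff_snd)).contDiffAt
  have h1 : ContDiffAt ℝ ∞ (fun q : ℂ × ℝ => tpo_T ‖q.1‖ q.2) q := by
    unfold tpo_T
    exact (contDiffAt_const.sub hχ).add (hχ.mul ((contDiffAt_const.sub
      (hcos.div (contDiffAt_const.mul hn) hn1)).div hn hn0))
  have h2 : ContDiffAt ℝ ∞ (fun q : ℂ × ℝ => tpo_H η ‖q.1‖ q.2) q := by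
    unfold tpo_H
    exact ((contDiffAt_const.sub hχ).mul (contDiffAt_snd.div_const η)).add
      (hχ.mul (hsin.div (contDiffAt_const.mul hn) hn1))
  have h3 : Pos η = fun q : ℂ × ℝ => (tpo_T ‖q.1‖ q.2 • q.1, tpo_H η ‖q.1‖ q.2) := by
    funext q
    exact tpo_eq η q
  rw [h3]
  exact (h1.smul contDiffAt_fst).prodMk h2

theorem tpo_T_smooth {ρ : ℝ} (hρ : 0 < ρ) : ContDiffAt ℝ ∞ (fun x => tpo_T x 0) ρ := by
  have hχ := (Pool.Agent.CSG.stp_smooth (3 / 2) (7 / 4)).contDiffAt (x := ρ)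
  have hn1 : 2 * ρ ≠ 0 := by positivity
  unfold tpo_T
  exact (contDiffAt_const.sub hχ).add (hχ.mul ((contDiffAt_const.sub
      (contDiffAt_const.div (contDiffAt_const.mul contDiffAt_id) hn1)).div contDiffAt_id hρ.ne'))

theorem tpo_H_deriv {η : ℝ} (hη : 0 < η) {Z : ℂ} (hZ : Z ≠ 0) :
    ∃ κ : ℝ, 0 < κ ∧ HasFDerivAt (fun q : ℂ × ℝ => tpo_H η ‖q.1‖ q.2) (κ • ContinuousLinearMap.snd ℝ ℂ ℝ) (Z, 0) := by
  have hρ : 0 < ‖Z‖ := norm_pos_iff.mpr hZ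
  have hn : ContDiffAt ℝ ∞ (fun q : ℂ × ℝ => ‖q.1‖) ((Z, 0) : ℂ × ℝ) := contDiffAt_fst.norm ℝ hZ
  have hχ : ContDiffAt ℝ ∞ (fun q : ℂ × ℝ => stp (3 / 2) (7 / 4) ‖q.1‖) ((Z, 0) : ℂ × ℝ) :=
    (Pool.Agent.CSG.stp_smooth (3 / 2) (7 / 4)).contDiffAt.comp _ hn
  have hA : ContDiffAt ℝ ∞ (fun q : ℂ × ℝ => (1 - stp (3 / 2) (7 / 4) ‖q.1‖) / η) ((Z, 0) : ℂ × ℝ) :=
    (contDiffAt_const.sub hχ).div_const η
  have hB : ContDiffAt ℝ ∞ (fun q : ℂ × ℝ => stp (3 / 2) (7 / 4) ‖q.1‖ / (2 * ‖q.1‖)) ((Z, 0) : ℂ × ℝ) :=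
    hχ.div (contDiffAt_const.mul hn) (mul_ne_zero two_ne_zero hρ.ne')
  have hA' := (hA.differentiableAt (by simp)).hasFDerivAt
  have hB' := (hB.differentiableAt (by simp)).hasFDerivAt
  have hsnd : HasFDerivAt (fun q : ℂ × ℝ => q.2) (ContinuousLinearMap.snd ℝ ℂ ℝ) ((Z, 0) : ℂ × ℝ) := hasFDerivAt_snd
  have hsin : HasFDerivAt (fun q : ℂ × ℝ => Real.sin (2 * Real.pi * q.2))
      ((Real.cos (2 * Real.pi * ((Z, 0) : ℂ × ℝ).2)) • ((2 * Real.pi) • ContinuousLinearMap.snd ℝ ℂ ℝ)) ((Z, 0) : ℂ × ℝ) := by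
    have h1 : HasFDerivAt (fun q : ℂ × ℝ => 2 * Real.pi * q.2) ((2 * Real.pi) • ContinuousLinearMap.snd ℝ ℂ ℝ)
      ((Z, 0) : ℂ × ℝ) := hsnd.const_mul (2 * Real.pi)
    exact h1.sin
  have hsum := (hA'.mul hsnd).add (hB'.mul hsin)
  have hfun : (fun q : ℂ × ℝ => tpo_H η ‖q.1‖ q.2) = fun q : ℂ × ℝ => (1 - stp (3 / 2) (7 / 4) ‖q.1‖) / η * q.2 +
      stp (3 / 2) (7 / 4) ‖q.1‖ / (2 * ‖q.1‖) * Real.sin (2 * Real.pi * q.2) := by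
    funext q
    unfold tpo_H
    ring
  refine ⟨(1 - stp (3 / 2) (7 / 4) ‖Z‖) / η + stp (3 / 2) (7 / 4) ‖Z‖ / (2 * ‖Z‖) * (2 * Real.pi), ?_, ?_⟩
  · have h4 := Pool.Agent.CSG.stp_nonneg (3 / 2) (7 / 4) ‖Z‖
    have h5 := Pool.Agent.CSG.stp_le_one (3 / 2) (7 / 4) ‖Z‖
    have hpi := Real.pi_pos
    rcases h5.lt_or_eq with h7 | h7
    · have h8 : 0 < (1 - stp (3 / 2) (7 / 4) ‖Z‖) / η := div_pos (by linarith) hη
      have h9 : 0 ≤ stp (3 / 2) (7 / 4) ‖Z‖ / (2 * ‖Z‖) * (2 * Real.pi) := by positivity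
      linarith
    · rw [h7]
      have : 0 < 1 / (2 * ‖Z‖) * (2 * Real.pi) := by positivity
      simpa using this
  · rw [hfun]
    refine hsum.congr_fderiv ?_
    ext v
    · simp
    · simp

theorem Pos_ld {η : ℝ} (hη : 0 < η) (Z : ℂ) : IsLocalDiffeomorphAt 𝓘(ℝ, ℂ × ℝ) 𝓘(ℝ, ℂ × ℝ) ∞ (Pos η) (Z, 0) := by
  rcases lt_or_ge ‖Z‖ (3 / 2) with hZ | hZ
  · have hld : IsLocalDiffeomorphAt 𝓘(ℝ, ℂ × ℝ) 𝓘(ℝ, ℂ × ℝ) ∞ (fun q : ℂ × ℝ => (q.1, q.2 / η)) (Z, 0) := by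
      refine Pool.Agent.CSG.ld_of_fderiv (Filter.Eventually.of_forall fun y =>
        (contDiff_fst.prodMk (contDiff_snd.div_const η)).contDiffAt) rfl ?_
      intro v hv
      have h1 : HasFDerivAt (fun q : ℂ × ℝ => (q.1, q.2 / η))
          ((ContinuousLinearMap.fst ℝ ℂ ℝ).prod ((η⁻¹ : ℝ) • ContinuousLinearMap.snd ℝ ℂ ℝ)) ((Z, 0) : ℂ × ℝ) := by
        have h2 : HasFDerivAt (fun q : ℂ × ℝ => η⁻¹ * q.2) ((η⁻¹ : ℝ) • ContinuousLinearMap.snd ℝ ℂ ℝ)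
            ((Z, 0) : ℂ × ℝ) := hasFDerivAt_snd.const_mul η⁻¹
        have h3 : (fun q : ℂ × ℝ => η⁻¹ * q.2) = fun q : ℂ × ℝ => q.2 / η := by
          funext q
          rw [div_eq_inv_mul]
        rw [h3] at h2
        exact hasFDerivAt_fst.prodMk h2
      rw [h1.fderiv] at hv
      have e1 : v.1 = 0 := congrArg Prod.fst hv
      have e2 : η⁻¹ * v.2 = 0 := congrArg Prod.snd hv
      exact Prod.ext e1 ((mul_eq_zero.mp e2).resolve_left (inv_pos.mpr hη).ne')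
    refine Pool.Agent.CSG.ld_congr hld ?_
    have h1 : ∀ᶠ q : ℂ × ℝ in 𝓝 (Z, 0), ‖q.1‖ < 3 / 2 :=
      (continuous_fst.norm).continuousAt.eventually (Iio_mem_nhds hZ)
    filter_upwards [h1] with q hq
    exact Pos_in hq.le
  · have hρ : 0 < ‖Z‖ := by linarith
    have hZ0 : Z ≠ 0 := norm_pos_iff.mp hρ
    have hopen : ∀ᶠ q : ℂ × ℝ in 𝓝 (Z, 0), q.1 ≠ 0 :=
      (continuous_fst.continuousAt (x := ((Z, 0) : ℂ × ℝ))).eventually (isOpen_ne.mem_nhds hZ0)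
    refine Pool.Agent.CSG.ld_of_fderiv (hopen.mono (fun y hy => tpo_smooth η hy)) rfl ?_
    rintro ⟨w, τ⟩ hv
    have hL : HasFDerivAt (Pos η) (fderiv ℝ (Pos η) (Z, 0)) (Z, 0) :=
      ((tpo_smooth η (q := (Z, 0)) hZ0).differentiableAt (by simp)).hasFDerivAt
    obtain ⟨κ, hκ, hH⟩ := tpo_H_deriv hη hZ0
    have hH' : HasFDerivAt (fun q : ℂ × ℝ => tpo_H η ‖q.1‖ q.2)
        ((ContinuousLinearMap.snd ℝ ℂ ℝ).comp (fderiv ℝ (Pos η) (Z, 0))) (Z, 0) := by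
      have h1 := (ContinuousLinearMap.snd ℝ ℂ ℝ).hasFDerivAt.comp ((Z, 0) : ℂ × ℝ) hL
      have h2 : ((ContinuousLinearMap.snd ℝ ℂ ℝ) ∘ Pos η) = fun q : ℂ × ℝ => tpo_H η ‖q.1‖ q.2 := by
        funext q
        show (Pos η q).2 = _
        rw [tpo_eq]
      rwa [h2] at h1
    have hτ : τ = 0 := by
      have h1 := congrArg (fun L : (ℂ × ℝ) →L[ℝ] ℝ => L (w, τ)) (hH.unique hH')
      have h2 : κ * τ = (fderiv ℝ (Pos η) (Z, 0) (w, τ)).2 := h1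
      rw [hv] at h2
      exact (mul_eq_zero.mp h2).resolve_left hκ.ne'
    subst hτ
    have hp : HasFDerivAt (fun z : ℂ => tpo_T ‖z‖ 0 • z)
        (((ContinuousLinearMap.fst ℝ ℂ ℝ).comp (fderiv ℝ (Pos η) (Z, 0))).comp (ContinuousLinearMap.inl ℝ ℂ ℝ)) Z := by
      have h0 : HasFDerivAt (fun z : ℂ => (z, (0 : ℝ))) (ContinuousLinearMap.inl ℝ ℂ ℝ) Z := hasFDerivAt_prodMk_left Z 0
      have h1 := (ContinuousLinearMap.fst ℝ ℂ ℝ).hasFDerivAt.comp ((Z, 0) : ℂ × ℝ) hL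
      have h2 := HasFDerivAt.comp (g := (ContinuousLinearMap.fst ℝ ℂ ℝ) ∘ Pos η) Z h1 h0
      have h3 : (((ContinuousLinearMap.fst ℝ ℂ ℝ) ∘ Pos η) ∘ fun z : ℂ => (z, (0 : ℝ))) =
          fun z : ℂ => tpo_T ‖z‖ 0 • z := by
        funext z
        show (Pos η (z, 0)).1 = _
        rw [tpo_eq]
      rwa [h3] at h2
    have hn : HasFDerivAt (fun z : ℂ => ‖z‖) (fderiv ℝ (fun z : ℂ => ‖z‖) Z) Z :=
      ((contDiffAt_norm ℝ hZ0 (n := ∞)).differentiableAt (by simp)).hasFDerivAt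
    have hT : HasDerivAt (fun x => tpo_T x 0) (deriv (fun x => tpo_T x 0) ‖Z‖) ‖Z‖ :=
      ((tpo_T_smooth hρ).differentiableAt (by simp)).hasDerivAt
    have hTn : HasFDerivAt (fun z : ℂ => tpo_T ‖z‖ 0)
        (deriv (fun x => tpo_T x 0) ‖Z‖ • fderiv ℝ (fun z : ℂ => ‖z‖) Z) Z := by
      have := hT.comp_hasFDerivAt Z hn
      exact this
    have hp' : HasFDerivAt (fun z : ℂ => tpo_T ‖z‖ 0 • z) (tpo_T ‖Z‖ 0 • ContinuousLinearMap.id ℝ ℂ +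
        (deriv (fun x => tpo_T x 0) ‖Z‖ • fderiv ℝ (fun z : ℂ => ‖z‖) Z).smulRight Z) Z :=
      hTn.smul (hasFDerivAt_id Z)
    have hu := hp.unique hp'
    have hw0 : tpo_T ‖Z‖ 0 • w + (deriv (fun x => tpo_T x 0) ‖Z‖ * fderiv ℝ (fun z : ℂ => ‖z‖) Z w) • Z = 0 := by
      have h1 := congrArg (fun L : ℂ →L[ℝ] ℂ => L w) hu
      have h2 : (fderiv ℝ (Pos η) (Z, 0) (w, 0)).1 = tpo_T ‖Z‖ 0 • w +
        (deriv (fun x => tpo_T x 0) ‖Z‖ * fderiv ℝ (fun z : ℂ => ‖z‖) Z w) • Z := h1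
      rw [hv] at h2
      exact h2.symm
    have hR : HasDerivAt tpo_R (deriv tpo_R ‖Z‖) ‖Z‖ := ((tpo_R_smooth hρ).differentiableAt (by simp)).hasDerivAt
    have hRn : HasFDerivAt (fun z : ℂ => tpo_R ‖z‖) (deriv tpo_R ‖Z‖ • fderiv ℝ (fun z : ℂ => ‖z‖) Z) Z := by
      have := hR.comp_hasFDerivAt Z hn
      exact this
    have hpZ : tpo_T ‖Z‖ 0 • Z ≠ 0 := smul_ne_zero (tpo_T_pos hρ).ne' hZ0
    have hnp : HasFDerivAt (fun z : ℂ => ‖z‖) (fderiv ℝ (fun z : ℂ => ‖z‖) (tpo_T ‖Z‖ 0 • Z)) (tpo_T ‖Z‖ 0 • Z) :=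
      ((contDiffAt_norm ℝ hpZ (n := ∞)).differentiableAt (by simp)).hasFDerivAt
    have hcomp := HasFDerivAt.comp (g := fun z : ℂ => ‖z‖) (f := fun z : ℂ => tpo_T ‖z‖ 0 • z) Z hnp hp
    have hfun : ((fun z : ℂ => ‖z‖) ∘ fun z : ℂ => tpo_T ‖z‖ 0 • z) = fun z : ℂ => tpo_R ‖z‖ := by
      funext z
      show ‖tpo_T ‖z‖ 0 • z‖ = _
      have h1 := tpo_norm η z
      rw [tpo_eq] at h1
      exact h1
    rw [hfun] at hcomp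
    have hd : fderiv ℝ (fun z : ℂ => ‖z‖) Z w = 0 := by
      have h1 := congrArg (fun L : ℂ →L[ℝ] ℝ => L w) (hRn.unique hcomp)
      have h2 : deriv tpo_R ‖Z‖ * fderiv ℝ (fun z : ℂ => ‖z‖) Z w =
        fderiv ℝ (fun z : ℂ => ‖z‖) (tpo_T ‖Z‖ 0 • Z) (fderiv ℝ (Pos η) (Z, 0) (w, 0)).1 := h1
      rw [hv] at h2
      have h3 : deriv tpo_R ‖Z‖ * fderiv ℝ (fun z : ℂ => ‖z‖) Z w = 0 := by
        rw [h2]
        exact map_zero _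
      exact (mul_eq_zero.mp h3).resolve_left (tpo_R_deriv hρ).ne'
    rw [hd, mul_zero, zero_smul, add_zero] at hw0
    have hw : w = 0 := (smul_eq_zero.mp hw0).resolve_left (tpo_T_pos hρ).ne'
    rw [hw]
    rfl

end Pool.Agent.MMV
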