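import Pool.Agent.MMV.TDef
import Pool.Agent.RSG.SphB
import Pool.Agent.RSG.LDc
import Pool.Agent.RSG.ExM
import Pool.Agent.CSG.LDb

/-!
# MMV/TSa
: rotating the box by half a turn, 1: the structure `FT`   (difficulty 3)

`b' (z, s, t) = b (-z, s, t)`, `κ⁻ (l, v, t) = κ (l, -v, t)`.
* `ft_swap`: reindex: `A` the same, `F := ![D.F 1, D.F 0]`, conditions `¬ OnF ![κ₂, κ₁] p ↔ ¬ OnF ![κ₁, κ₂] p`.
* `ft_neg`: `OnF` is the same for `κ⁻` (the tori are the same sets).  For each `i` choose reals `φ₀ i`, `s₀ i` with `a φ₀ + b s₀ = 1/2`, `c φ₀ + d s₀ = 0` (`M i` invertible: `δ = det = ±1`, `φ₀ = δ d/2`, `s₀ = -δ c/2`): `F' i (l, s, ξ) = D.F i (l, s + s₀, ξ ex φ₀)`: `glueF`: `= D.A (κ i (l, r ex (a φ + b s + 1/2), c φ + d s))`, and `ex (x + 1/2) = - ex x`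
  (`RSG.ex_half`).  `F_loc`: affine diffeomorphism.  `F_inj`: cancel `ex φ₀`.
* `ft_rot`: `κγ b' (l, v, u) = κγ b (l, v, u + 1/2)`: same torus; `Q' z = D.Q (nz z)`, `nz z = (-c1 z, c2 z, ht z)` (a diffeomorphism of `S4`, an involution: e.g. restriction of a linear isometry; `c1 (nz z) = - c1 z`, `c2`, `ht`, `fh` the same); `glueQ`: `c1 z = |c1 z| ex u` gives `c1 (nz z) = |..| ex (u + 1/2)`.
-/

open scoped ContDiff Manifold Topology
open Set Filter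
open Complex (I)
open Pool.Agent.RSG (E3 E4 S2 S3 S4 ex cj c1 c2 ht fh pS3 pS4)
open Pool.Agent.RBM (ThickT OnT Box)
open Pool.Agent.LKF (OnF)
open Pool.Agent.PTH (SP ISP)
open Pool.Agent.KNH (circ)
open Pool.Agent.LKT (s1 s2)

namespace Pool.Agent.MMV

/-! ### auxiliary maps -/

theorem tsa_exh (x : ℝ) : ex (x + 1 / 2) = -ex x := by
  rw [RSG.ex_add, RSG.ex_half, mul_neg, mul_one]

/-- translation in the second circle and rotation of the disc -/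
noncomputable def tsa_e (s₀ φ₀ : ℝ) : ℝ × ℝ × ℂ ≃ ℝ × ℝ × ℂ where
  toFun q := (q.1, q.2.1 + s₀, q.2.2 * ex φ₀)
  invFun q := (q.1, q.2.1 - s₀, q.2.2 * ex (-φ₀))
  left_inv q := by
    obtain ⟨l, s, ξ⟩ := q
    show (l, s + s₀ - s₀, ξ * ex φ₀ * ex (-φ₀)) = (l, s, ξ)
    rw [add_sub_cancel_right, mul_assoc, ← RSG.ex_add, add_neg_cancel, RSG.ex_zero, mul_one]
  right_inv q := by
    obtain ⟨l, s, ξ⟩ := q
    show (l, s - s₀ + s₀, ξ * ex (-φ₀) * ex φ₀) = (l, s, ξ)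
    rw [sub_add_cancel, mul_assoc, ← RSG.ex_add, neg_add_cancel, RSG.ex_zero, mul_one]

theorem tsa_e_apply (s₀ φ₀ l s : ℝ) (ξ : ℂ) : tsa_e s₀ φ₀ (l, s, ξ) = (l, s + s₀, ξ * ex φ₀) := rfl

theorem tsa_ld (s₀ φ₀ : ℝ) (q : ℝ × ℝ × ℂ) :
    IsLocalDiffeomorphAt 𝓘(ℝ, ℝ × ℝ × ℂ) 𝓘(ℝ, ℝ × ℝ × ℂ) ∞ (tsa_e s₀ φ₀) q := by
  apply CSG.ld_of_perm
  · show ContDiff ℝ ∞ fun q : ℝ × ℝ × ℂ => (q.1, q.2.1 + s₀, q.2.2 * ex φ₀)
    exact contDiff_fst.prodMk ((contDiff_snd.fst.add contDiff_const).prodMk (contDiff_snd.snd.mul contDiff_const))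
  · show ContDiff ℝ ∞ fun q : ℝ × ℝ × ℂ => (q.1, q.2.1 - s₀, q.2.2 * ex (-φ₀))
    exact contDiff_fst.prodMk ((contDiff_snd.fst.sub contDiff_const).prodMk (contDiff_snd.snd.mul contDiff_const))

/-- `c1 ↦ - c1` -/
noncomputable def tsa_n (z : S4) : S4 := pS4 (-c1 z) (c2 z) (ht z)

theorem tsa_sq (z : S4) : ‖-c1 z‖ ^ 2 + ‖c2 z‖ ^ 2 + ht z ^ 2 = 1 := by
  rw [norm_neg]
  exact RSG.S4_sq z

theorem tsa_c1 (z : S4) : c1 (tsa_n z) = -c1 z := (RSG.pS4_c (tsa_sq z)).1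

theorem tsa_c2 (z : S4) : c2 (tsa_n z) = c2 z := (RSG.pS4_c (tsa_sq z)).2.1

theorem tsa_ht (z : S4) : ht (tsa_n z) = ht z := (RSG.pS4_c (tsa_sq z)).2.2

theorem tsa_fh (z : S4) : fh (tsa_n z) = fh z := by
  unfold fh
  rw [tsa_c1, tsa_c2, tsa_ht, norm_neg]

theorem tsa_nn (z : S4) : tsa_n (tsa_n z) = z := by
  apply RSG.S4_ext
  · rw [tsa_c1, tsa_c1, neg_neg]
  · rw [tsa_c2, tsa_c2]
  · rw [tsa_ht, tsa_ht]

theorem tsa_sm (z : S4) : ContMDiffAt (𝓡 4) (𝓡 4) ∞ tsa_n z := by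
  apply RSG.pS4_smooth
  · exact (RSG.c1_smooth z).neg
  · exact RSG.c2_smooth z
  · exact RSG.ht_smooth z
  · rw [tsa_sq]
    exact one_pos

theorem tsa_nld (z : S4) : IsLocalDiffeomorphAt (𝓡 4) (𝓡 4) ∞ tsa_n z :=
  RSG.ld_two (g := tsa_n) (Eventually.of_forall tsa_sm) (Eventually.of_forall tsa_sm)
    (Eventually.of_forall tsa_nn) (Eventually.of_forall tsa_nn)

section
variable {E : Type*} [NormedAddCommGroup E] [NormedSpace ℝ E] {H : Type*} [TopologicalSpace H]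
  {J : ModelWithCorners ℝ E H} {P : Type*} [TopologicalSpace P] [ChartedSpace H P]
  {X : Type*} [TopologicalSpace X] [ChartedSpace E4 X] {κ₁ κ₂ : ℝ × ℂ × ℝ → P} {b : ℂ × ℝ × ℝ → P} {l₁ l₂ η : ℝ}
  {a₁ c₁' a₂ c₂' : ℤ}

/-- `v ↦ -v` -/
def ngκ (κ : ℝ × ℂ × ℝ → P) (q : ℝ × ℂ × ℝ) : P := κ (q.1, -q.2.1, q.2.2)

/-- the box rotated by half a turn -/
def ngb (b : ℂ × ℝ × ℝ → P) (q : ℂ × ℝ × ℝ) : P := b (-q.1, q.2.1, q.2.2)

omit [TopologicalSpace P] in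
theorem tsa_onF {ι : Type*} {κ : ι → ℝ × ℂ × ℝ → P} (p : P) : OnF (fun i => ngκ (κ i)) p ↔ OnF κ p := by
  constructor
  · rintro ⟨i, l, t, h⟩
    refine ⟨i, l, t, ?_⟩
    rw [h]
    show κ i (l, -0, t) = κ i (l, 0, t)
    rw [neg_zero]
  · rintro ⟨i, l, t, h⟩
    refine ⟨i, l, t, ?_⟩
    rw [h]
    show κ i (l, 0, t) = κ i (l, -0, t)
    rw [neg_zero]

omit [TopologicalSpace P] in
theorem tsa_onC {ι ι₂ : Type*} {κ : ι → ℝ × ℂ × ℝ → P} (e : ι₂ ≃ ι) (p : P) :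
    OnF (fun i => κ (e i)) p ↔ OnF κ p := by
  constructor
  · rintro ⟨i, h⟩
    exact ⟨e i, h⟩
  · rintro ⟨i, h⟩
    refine ⟨e.symm i, ?_⟩
    show OnT (κ (e (e.symm i))) p
    rw [Equiv.apply_symm_apply]
    exact h

omit [TopologicalSpace P] in
theorem tsa_onR {ι : Type*} {κ κ₂ : ι → ℝ × ℂ × ℝ → P}
    (h : ∀ i l v u, κ₂ i (l, v, u) = κ i (l, v, u + 1 / 2)) (p : P) : OnF κ₂ p ↔ OnF κ p := by
  constructor
  · rintro ⟨i, l, t, hp⟩
    exact ⟨i, l, t + 1 / 2, by rw [hp, h]⟩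
  · rintro ⟨i, l, t, hp⟩
    exact ⟨i, l, t - 1 / 2, by rw [hp, h, sub_add_cancel]⟩

/-- reindexing -/
theorem tsa_reindex {ι ι₂ ι' : Type*} {κ : ι → ℝ × ℂ × ℝ → P} {M : ι → Sl} {κ' : ι' → ℝ × ℂ × ℝ → P}
    (e : ι₂ ≃ ι) (D : FT J κ M κ' X) : Nonempty (FT J (fun i => κ (e i)) (fun i => M (e i)) κ' X) :=
  ⟨{
    A := D.A
    F := fun i => D.F (e i)
    Q := D.Q
    A_loc := fun p h h' => D.A_loc p ((tsa_onC e p).not.1 h) h'
    A_inj := fun p p' h h' k k' hp =>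
      D.A_inj p p' ((tsa_onC e p).not.1 h) h' ((tsa_onC e p').not.1 k) k' hp
    F_per1 := fun i => D.F_per1 (e i)
    F_per2 := fun i => D.F_per2 (e i)
    F_loc := fun i => D.F_loc (e i)
    F_inj := by
      intro i l s ξ i' l' s' ξ' hξ hξ' he
      obtain ⟨h1, h2, h3, h4⟩ := D.F_inj _ l s ξ _ l' s' ξ' hξ hξ' he
      exact ⟨e.injective h1, h2, h3, h4⟩
    glueF := fun i => D.glueF (e i)
    Q_loc := D.Q_loc
    Q_inj := D.Q_inj
    glueQ := D.glueQ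
    disjF := fun i l s p h h' => D.disjF (e i) l s p ((tsa_onC e p).not.1 h) h'
    disjQ := fun i z p hz h0 h h' => D.disjQ i z p hz h0 ((tsa_onC e p).not.1 h) h'
    disjFQ := fun i => D.disjFQ (e i)
    cover := by
      intro q
      rcases D.cover q with ⟨p, h, h', hq⟩ | ⟨i, l, s, hq⟩ | h
      · exact Or.inl ⟨p, (tsa_onC e p).not.2 h, h', hq⟩
      · refine Or.inr (Or.inl ⟨e.symm i, l, s, ?_⟩)
        rw [Equiv.apply_symm_apply]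
        exact hq
      · exact Or.inr (Or.inr h) }⟩

theorem tsa_neg {ι ι' : Type*} {κ : ι → ℝ × ℂ × ℝ → P} {M : ι → Sl} {κ' : ι' → ℝ × ℂ × ℝ → P}
    (hM : ∀ i, (M i).Uni) (D : FT J κ M κ' X) : Nonempty (FT J (fun i => ngκ (κ i)) M κ' X) := by
  have hex : ∀ i, ∃ φ₀ s₀ : ℝ, (M i).a * φ₀ + (M i).b * s₀ = 1 / 2 ∧ (M i).c * φ₀ + (M i).d * s₀ = 0 := by
    intro i
    rcases hM i with h | h
    · have h' : ((M i).a : ℝ) * (M i).d - (M i).b * (M i).c = 1 := by exact_mod_cast h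
      exact ⟨(M i).d / 2, -(M i).c / 2, by linarith, by ring⟩
    · have h' : ((M i).a : ℝ) * (M i).d - (M i).b * (M i).c = -1 := by exact_mod_cast h
      exact ⟨-(M i).d / 2, (M i).c / 2, by linarith, by ring⟩
  choose φ₀ s₀ h1 h2 using hex
  have hn : ∀ (i : ι) (ξ : ℂ), ‖ξ‖ < 1 → ‖ξ * ex (φ₀ i)‖ < 1 := by
    intro i ξ hξ
    rw [norm_mul, RSG.ex_norm, mul_one]
    exact hξ
  exact ⟨{
    A := D.A
    F := fun i q => D.F i (tsa_e (s₀ i) (φ₀ i) q)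
    Q := D.Q
    A_loc := fun p h h' => D.A_loc p ((tsa_onF p).not.1 h) h'
    A_inj := fun p p' h h' k k' hp =>
      D.A_inj p p' ((tsa_onF p).not.1 h) h' ((tsa_onF p').not.1 k) k' hp
    F_per1 := by
      intro i l s ξ hξ
      simp only [tsa_e_apply]
      exact D.F_per1 i l _ _ (hn i ξ hξ)
    F_per2 := by
      intro i l s ξ hξ
      simp only [tsa_e_apply]
      rw [add_right_comm]
      exact D.F_per2 i l _ _ (hn i ξ hξ)
    F_loc := by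
      intro i l s ξ hξ
      have h3 := D.F_loc i l (s + s₀ i) (ξ * ex (φ₀ i)) (hn i ξ hξ)
      have h4 : IsLocalDiffeomorphAt 𝓘(ℝ, ℝ × ℝ × ℂ) (𝓡 4) ∞ (D.F i ∘ (tsa_e (s₀ i) (φ₀ i))) (l, s, ξ) :=
        IsLocalDiffeomorphAt.comp (hf := tsa_ld (s₀ i) (φ₀ i) (l, s, ξ)) (hg := h3) ..
      exact h4
    F_inj := by
      intro i l s ξ i' l' s' ξ' hξ hξ' he
      simp only [tsa_e_apply] at he
      obtain ⟨h3, h4, h5, m, hm⟩ := D.F_inj i l _ _ i' l' _ _ (hn i ξ hξ) (hn i' ξ' hξ') he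
      subst h3
      exact ⟨rfl, mul_right_cancel₀ (RSG.ex_ne _) h4, h5, m, by linarith⟩
    glueF := by
      intro i l s r φ hr hr1
      simp only [tsa_e_apply]
      have h3 : (r : ℂ) * ex φ * ex (φ₀ i) = r * ex (φ + φ₀ i) := by rw [mul_assoc, ← RSG.ex_add]
      rw [h3, D.glueF i l _ r _ hr hr1]
      have h4 : ((M i).a : ℝ) * (φ + φ₀ i) + (M i).b * (s + s₀ i) = (M i).a * φ + (M i).b * s + 1 / 2 := by
        linarith [h1 i]
      have h5 : ((M i).c : ℝ) * (φ + φ₀ i) + (M i).d * (s + s₀ i) = (M i).c * φ + (M i).d * s := by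
        linarith [h2 i]
      rw [h4, h5, tsa_exh, mul_neg]
      rfl
    Q_loc := D.Q_loc
    Q_inj := D.Q_inj
    glueQ := D.glueQ
    disjF := by
      intro i l s p hp hp'
      simp only [tsa_e_apply, zero_mul]
      exact D.disjF i l _ p ((tsa_onF p).not.1 hp) hp'
    disjQ := fun i z p hz h0 h h' => D.disjQ i z p hz h0 ((tsa_onF p).not.1 h) h'
    disjFQ := by
      intro i l s i' z hz
      simp only [tsa_e_apply, zero_mul]
      exact D.disjFQ i l _ i' z hz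
    cover := by
      intro q
      rcases D.cover q with ⟨p, h, h', hq⟩ | ⟨i, l, s, hq⟩ | h
      · exact Or.inl ⟨p, (tsa_onF p).not.2 h, h', hq⟩
      · refine Or.inr (Or.inl ⟨i, l, s - s₀ i, ?_⟩)
        simp only [tsa_e_apply, zero_mul, sub_add_cancel]
        exact hq
      · exact Or.inr (Or.inr h) }⟩

theorem tsa_rot {ι ι' : Type*} {κ : ι → ℝ × ℂ × ℝ → P} {M : ι → Sl} {κ' κ'' : ι' → ℝ × ℂ × ℝ → P}
    (h : ∀ i l v u, κ'' i (l, v, u) = κ' i (l, v, u + 1 / 2)) (D : FT J κ M κ' X) :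
    Nonempty (FT J κ M κ'' X) :=
  ⟨{
    A := D.A
    F := D.F
    Q := fun i z => D.Q i (tsa_n z)
    A_loc := fun p h1 h2 => D.A_loc p h1 ((tsa_onR h p).not.1 h2)
    A_inj := fun p p' h1 h2 k1 k2 hp =>
      D.A_inj p p' h1 ((tsa_onR h p).not.1 h2) k1 ((tsa_onR h p').not.1 k2) hp
    F_per1 := D.F_per1
    F_per2 := D.F_per2
    F_loc := D.F_loc
    F_inj := D.F_inj
    glueF := D.glueF
    Q_loc := by
      intro i z hz
      have h1 := D.Q_loc i (tsa_n z) (by rw [tsa_fh]; exact hz)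
      have h2 : IsLocalDiffeomorphAt (𝓡 4) (𝓡 4) ∞ (D.Q i ∘ tsa_n) z :=
        IsLocalDiffeomorphAt.comp (hf := tsa_nld z) (hg := h1) ..
      exact h2
    Q_inj := by
      intro i z i' z' hz hz' he
      obtain ⟨h1, h2⟩ := D.Q_inj i (tsa_n z) i' (tsa_n z') (by rw [tsa_fh]; exact hz)
        (by rw [tsa_fh]; exact hz') he
      refine ⟨h1, ?_⟩
      rw [← tsa_nn z, h2, tsa_nn]
    glueQ := by
      intro i z l m u hz h1 h2 hu hm hl
      have h3 := D.glueQ i (tsa_n z) l m (u + 1 / 2) (by rw [tsa_fh]; exact hz)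
        (by rw [tsa_c1]; exact neg_ne_zero.2 h1) (by rw [tsa_c2]; exact h2)
        (by rw [tsa_c1, norm_neg, tsa_exh, mul_neg, ← hu]) (by rw [tsa_c2]; exact hm)
        (by rw [tsa_fh]; exact hl)
      rw [tsa_c1, tsa_c2, norm_neg] at h3
      rw [h]
      exact h3
    disjF := fun i l s p h1 h2 => D.disjF i l s p h1 ((tsa_onR h p).not.1 h2)
    disjQ := by
      intro i z p hz h0 h1 h2
      refine D.disjQ i (tsa_n z) p (by rw [tsa_fh]; exact hz) ?_ h1 ((tsa_onR h p).not.1 h2)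
      rw [tsa_c1, tsa_c2, neg_eq_zero]
      exact h0
    disjFQ := by
      intro i l s i' z hz
      exact D.disjFQ i l s i' (tsa_n z) (by rw [tsa_fh]; exact hz)
    cover := by
      intro q
      rcases D.cover q with ⟨p, h1, h2, hq⟩ | h1 | ⟨i, z, hz, h0, hq⟩
      · exact Or.inl ⟨p, h1, (tsa_onR h p).not.2 h2, hq⟩
      · exact Or.inr (Or.inl h1)
      · refine Or.inr (Or.inr ⟨i, tsa_n z, by rw [tsa_fh]; exact hz, ?_, ?_⟩)
        · rw [tsa_c1, tsa_c2, neg_eq_zero]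
          exact h0
        · rw [tsa_nn]
          exact hq }⟩

theorem ft_swap {M₁ M₂ : Sl} {ι' : Type*} {κ' : ι' → ℝ × ℂ × ℝ → P} (D : FT J ![κ₁, κ₂] ![M₁, M₂] κ' X) :
    Nonempty (FT J ![κ₂, κ₁] ![M₂, M₁] κ' X) := by
  have h1 : (fun i => (![κ₁, κ₂] : Fin 2 → _) (Equiv.swap 0 1 i)) = ![κ₂, κ₁] := by
    funext i
    fin_cases i <;> rfl
  have h2 : (fun i => (![M₁, M₂] : Fin 2 → _) (Equiv.swap 0 1 i)) = ![M₂, M₁] := by
    funext i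
    fin_cases i <;> rfl
  have h := tsa_reindex (Equiv.swap (0 : Fin 2) 1) D
  rw [h1, h2] at h
  exact h

theorem ft_neg {M₁ M₂ : Sl} (h₁ : M₁.Uni) (h₂ : M₂.Uni) {ι' : Type*} {κ' : ι' → ℝ × ℂ × ℝ → P}
    (D : FT J ![κ₁, κ₂] ![M₁, M₂] κ' X) : Nonempty (FT J ![ngκ κ₁, ngκ κ₂] ![M₁, M₂] κ' X) := by
  have h1 : (fun i => ngκ ((![κ₁, κ₂] : Fin 2 → _) i)) = ![ngκ κ₁, ngκ κ₂] := by
    funext i
    fin_cases i <;> rfl
  have h := tsa_neg (by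
    rw [Fin.forall_fin_two]
    exact ⟨h₁, h₂⟩) D
  rw [h1] at h
  exact h

theorem ft_rot {ι : Type*} {κ : ι → ℝ × ℂ × ℝ → P} {M : ι → Sl} (D : FT J κ M ![κγ b] X) :
    Nonempty (FT J κ M ![κγ (ngb b)] X) := by
  refine tsa_rot ?_ D
  intro i l v u
  rw [Subsingleton.elim i 0]
  show b (-((((5 / 2 + v.re / 2 : ℝ) : ℂ)) * ex u), v.im / 2, l) =
    b ((((5 / 2 + v.re / 2 : ℝ) : ℂ)) * ex (u + 1 / 2), v.im / 2, l)
  rw [tsa_exh, mul_neg]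

end

end Pool.Agent.MMV
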