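import Pool.Agent.MMV.Defs

/-!
# MMV/VAc
: the base pairs are AC-trivial   (difficulty 3)

`h : a d + b c = ±1`, `g` in the subgroup generated by `x` and `y`, `|b| ≤ 1` or `|d| ≤ 1`.  Use `ACP.quot₁`, `ACP.quot₂`, `ACP.swap`, `ACP.inv₁`, `ACP.inv₂`, `ACP.conj₁`, `ACP.conj₂`.
* `b = 0`: `a d = ±1`, `d = ±1`, `a = ±1`: the first relator is `y^(-d) = y^(∓1)`; modulo `y` the second is `x^a` (`g y^c g⁻¹ = 1`): `(y^(∓1), x^(±1)) ~ (y, x) ~ (x, y)`.
* `d = 0`: `b c = ±1`: first relator `x^(±1)`; modulo `x` the second is `g y^c g⁻¹ = g y^(±1) g⁻¹`, conjugate to `y^(±1)` (`ACP.conj₂` with `g⁻¹`).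
* `b = ε = ±1`: modulo the first relator `x^ε = y^d`, `x = y^(ε d)`, so the image of `g` commutes with that of `y` (every element of the closure is mapped to a power of `Y`: `Subgroup.closure_induction`) and the second relator is `y^(ε d a + c)`, `ε d a + c = ε (a d + ε c) = ε (a d + b c) = ±1`: `~ (x^ε y^(-d), y^(±1))`; modulo `y`:
  the first is `x^ε`; `~ (x, y)`.
* `d = ε = ±1`: modulo the first relator `y^ε = x^b`, `y = x^(ε b)`: the second relator is `x^(a + ε b c)`, `a + ε b c = ε (ε a + b c) = ε (a d + b c) = ±1`: `~ (x^b y^(-ε), x^(±1))`, modulo `x`: `y^(-ε)`: `~ (y, x) ~ (x, y)`.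
-/

open scoped ContDiff Manifold Topology
open Set Filter
open Complex (I)
open Pool.Agent.RSG (E3 E4 S2 S3 S4 ex cj c1 c2 ht fh pS3 pS4)
open Pool.Agent.RBM (ThickT OnT Box)
open Pool.Agent.LKF (OnF)
open Pool.Agent.PTH (SP ISP)
open Pool.Agent.KNH (circ)
open Pool.Agent.LKT (s1 s2)

namespace Pool.Agent.MMV

theorem vac_e1 {Γ : Type} [Group Γ] (u v : Γ) {e : ℤ} (he : e = 1 ∨ e = -1) :
    ACP.ACEquiv (u ^ e, v) (u, v) := by
  rcases he with rfl | rfl
  · rw [zpow_one]
    exact ACP.ACEquiv.refl _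
  · rw [zpow_neg_one]
    exact (ACP.inv₁ u v).symm

theorem vac_e2 {Γ : Type} [Group Γ] (u v : Γ) {e : ℤ} (he : e = 1 ∨ e = -1) :
    ACP.ACEquiv (u, v ^ e) (u, v) := by
  rcases he with rfl | rfl
  · rw [zpow_one]
    exact ACP.ACEquiv.refl _
  · rw [zpow_neg_one]
    exact (ACP.inv₂ u v).symm

/-- if the images of `x`, `y` are powers of `z`, so is the image of an element of the subgroup generated by `x`, `y` -/
theorem vac_cl {Γ : Type} [Group Γ] {H : Type} [Group H] (f : Γ →* H) {x y g : Γ} {z : H}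
    (hg : g ∈ Subgroup.closure {x, y}) (hx : f x ∈ Subgroup.zpowers z) (hy : f y ∈ Subgroup.zpowers z) :
    ∃ k : ℤ, f g = z ^ k := by
  have h1 : Subgroup.closure {x, y} ≤ (Subgroup.zpowers z).comap f := by
    rw [Subgroup.closure_le]
    rintro w (rfl | hw)
    · exact hx
    · rw [Set.mem_singleton_iff] at hw
      rw [hw]
      exact hy
  obtain ⟨k, hk⟩ := Subgroup.mem_zpowers_iff.1 (h1 hg)
  exact ⟨k, hk.symm⟩

theorem vac_unit {e : ℤ} (h : |e| ≤ 1) : e = 0 ∨ e = 1 ∨ e = -1 := by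
  rw [abs_le] at h
  omega

theorem vac_root {H : Type} [Group H] {u v : H} {e k : ℤ} (he : e = 1 ∨ e = -1) (h : u ^ e = v ^ k) :
    u = v ^ (e * k) := by
  rcases he with rfl | rfl
  · rw [zpow_one] at h
    rw [h, one_mul]
  · rw [zpow_neg_one] at h
    rw [neg_one_mul, zpow_neg, ← h, inv_inv]

theorem vac_comb {H : Type} [Group H] (z : H) (p q k : ℤ) : z ^ p * z ^ k * z ^ q * (z ^ k)⁻¹ = z ^ (p + q) := by
  rw [← zpow_neg, ← zpow_add, ← zpow_add, ← zpow_add]
  congr 1
  ring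

theorem ac_base {Γ : Type} [Group Γ] (x y : Γ) {a b c d : ℤ} (h : a * d + b * c = 1 ∨ a * d + b * c = -1)
    (hb : |b| ≤ 1 ∨ |d| ≤ 1) {g : Γ} (hg : g ∈ Subgroup.closure {x, y}) :
    ACP.ACEquiv (x ^ b * y ^ (-d), x ^ a * g * y ^ c * g⁻¹) (x, y) := by
  have hcases : b = 0 ∨ d = 0 ∨ (b = 1 ∨ b = -1) ∨ (d = 1 ∨ d = -1) := by
    rcases hb with hb | hd
    · rcases vac_unit hb with h1 | h1
      · exact Or.inl h1
      · exact Or.inr (Or.inr (Or.inl h1))
    · rcases vac_unit hd with h1 | h1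
      · exact Or.inr (Or.inl h1)
      · exact Or.inr (Or.inr (Or.inr h1))
  rcases hcases with hb0 | hd0 | hb1 | hd1
  · -- `b = 0`
    subst hb0
    rw [zero_mul, add_zero] at h
    have hu : a * d = 1 ∨ a * d = -1 := h
    have hd : d = 1 ∨ d = -1 := by
      rcases hu with h1 | h1
      · exact Int.isUnit_iff.1 (IsUnit.of_mul_eq_one a (by rw [mul_comm]; exact h1))
      · exact Int.isUnit_iff.1 (IsUnit.of_mul_eq_one (-a) (by rw [mul_neg, mul_comm, h1]; norm_num))
    have ha : a = 1 ∨ a = -1 := by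
      rcases hu with h1 | h1
      · exact Int.isUnit_iff.1 (IsUnit.of_mul_eq_one d h1)
      · exact Int.isUnit_iff.1 (IsUnit.of_mul_eq_one (-d) (by rw [mul_neg, h1]; norm_num))
    have hd' : -d = 1 ∨ -d = -1 := by omega
    rw [zpow_zero, one_mul]
    have e1 : ACP.ACEquiv (y ^ (-d), x ^ a * g * y ^ c * g⁻¹) (y ^ (-d), x ^ a) := by
      apply ACP.quot₂
      intro H _ f hf
      have hy : f y = 1 := by
        rw [map_zpow] at hf
        have := vac_root (v := (1 : H)) (k := 1) hd' (by rw [hf, zpow_one])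
        rwa [one_zpow] at this
      simp only [map_mul, map_zpow, map_inv, hy, one_zpow, mul_one, mul_inv_cancel_right]
    exact e1.trans ((vac_e1 _ _ hd').trans ((vac_e2 _ _ ha).trans (ACP.swap _ _)))
  · -- `d = 0`
    subst hd0
    rw [mul_zero, zero_add] at h
    have hb' : b = 1 ∨ b = -1 := by
      rcases h with h1 | h1
      · exact Int.isUnit_iff.1 (IsUnit.of_mul_eq_one c h1)
      · exact Int.isUnit_iff.1 (IsUnit.of_mul_eq_one (-c) (by rw [mul_neg, h1]; norm_num))
    have hc' : c = 1 ∨ c = -1 := by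
      rcases h with h1 | h1
      · exact Int.isUnit_iff.1 (IsUnit.of_mul_eq_one b (by rw [mul_comm]; exact h1))
      · exact Int.isUnit_iff.1 (IsUnit.of_mul_eq_one (-b) (by rw [mul_neg, mul_comm, h1]; norm_num))
    rw [neg_zero, zpow_zero, mul_one]
    have e1 : ACP.ACEquiv (x ^ b, x ^ a * g * y ^ c * g⁻¹) (x ^ b, g * y ^ c * g⁻¹) := by
      apply ACP.quot₂
      intro H _ f hf
      have hx : f x = 1 := by
        rw [map_zpow] at hf
        have := vac_root (v := (1 : H)) (k := 1) hb' (by rw [hf, zpow_one])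
        rwa [one_zpow] at this
      simp only [map_mul, map_zpow, map_inv, hx, one_zpow, one_mul]
    have e2 : ACP.ACEquiv (x ^ b, g * y ^ c * g⁻¹) (x ^ b, y ^ c) := by
      have := ACP.conj₂ (x ^ b) (g * y ^ c * g⁻¹) g⁻¹
      have h3 : g⁻¹ * (g * y ^ c * g⁻¹) * g⁻¹⁻¹ = y ^ c := by group
      rwa [h3] at this
    exact e1.trans (e2.trans ((vac_e1 _ _ hb').trans (vac_e2 _ _ hc')))
  · -- `b = ±1`
    have he : b * d * a + c = 1 ∨ b * d * a + c = -1 := by
      have h2 : b * d * a + c = b * (a * d + b * c) := by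
        rcases hb1 with rfl | rfl <;> ring
      rw [h2]
      rcases hb1 with rfl | rfl <;> rcases h with h1 | h1 <;> rw [h1] <;> norm_num
    have e1 : ACP.ACEquiv (x ^ b * y ^ (-d), x ^ a * g * y ^ c * g⁻¹) (x ^ b * y ^ (-d), y ^ (b * d * a + c)) := by
      apply ACP.quot₂
      intro H _ f hf
      have hx : f x = f y ^ (b * d) := by
        refine vac_root hb1 ?_
        rw [map_mul, map_zpow, map_zpow, zpow_neg] at hf
        exact mul_inv_eq_one.1 hf
      obtain ⟨k, hk⟩ := vac_cl f (z := f y) hg (by rw [hx]; exact Subgroup.mem_zpowers_iff.2 ⟨_, rfl⟩)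
        (Subgroup.mem_zpowers _)
      rw [map_mul, map_mul, map_mul, map_inv, map_zpow, map_zpow, map_zpow, hk, hx, ← zpow_mul]
      exact vac_comb _ _ _ _
    have e2 : ACP.ACEquiv (x ^ b * y ^ (-d), y) (x ^ b, y) := by
      apply ACP.quot₁
      intro H _ f hf
      rw [map_mul, map_zpow, map_zpow, hf, one_zpow, mul_one]
    exact e1.trans ((vac_e2 _ _ he).trans (e2.trans (vac_e1 _ _ hb1)))
  · -- `d = ±1`
    have he : a + d * b * c = 1 ∨ a + d * b * c = -1 := by
      have h2 : a + d * b * c = d * (a * d + b * c) := by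
        rcases hd1 with rfl | rfl <;> ring
      rw [h2]
      rcases hd1 with rfl | rfl <;> rcases h with h1 | h1 <;> rw [h1] <;> norm_num
    have hd' : -d = 1 ∨ -d = -1 := by omega
    have e1 : ACP.ACEquiv (x ^ b * y ^ (-d), x ^ a * g * y ^ c * g⁻¹) (x ^ b * y ^ (-d), x ^ (a + d * b * c)) := by
      apply ACP.quot₂
      intro H _ f hf
      have hy : f y = f x ^ (d * b) := by
        refine vac_root hd1 ?_
        rw [map_mul, map_zpow, map_zpow, zpow_neg] at hf
        exact (mul_inv_eq_one.1 hf).symm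
      obtain ⟨k, hk⟩ := vac_cl f (z := f x) hg (Subgroup.mem_zpowers _)
        (by rw [hy]; exact Subgroup.mem_zpowers_iff.2 ⟨_, rfl⟩)
      rw [map_mul, map_mul, map_mul, map_inv, map_zpow, map_zpow, map_zpow, hk, hy, ← zpow_mul]
      exact vac_comb _ _ _ _
    have e2 : ACP.ACEquiv (x ^ b * y ^ (-d), x) (y ^ (-d), x) := by
      apply ACP.quot₁
      intro H _ f hf
      rw [map_mul, map_zpow, map_zpow, hf, one_zpow, one_mul]
    exact e1.trans ((vac_e2 _ _ he).trans (e2.trans ((vac_e1 _ _ hd').trans (ACP.swap _ _))))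

end Pool.Agent.MMV
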