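import Pool.Agent.MMV.Defs

/-!
# MMV/VAl
: algebra modulo `x^b = y^d`   (difficulty 3)

`ACP.quot₂`: it is enough that the second relators have the same image under every homomorphism `f` with `f (x^b y^(-d)) = 1`.  Put `X = f x`, `Y = f y`, `z = X^b = Y^d`: `z` commutes with `X` and with `Y`.
Let `ε = a d + b c = ±1`.  `X = (X^a)^(ε d) z^(ε c)` (`X^(ε (a d + b c)) = X`), `Y = (Y^c)^(ε b) z^(ε a)`.  Put `G' = FreeGroup.lift ![(FreeGroup.of 0)^(ε d), (FreeGroup.of 1)^(ε b)] G`.  Then for every `G` there is `n : ℤ` with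
`lift ![X, Y] G = lift ![X^a, Y^c] G' * z^n` (induction on `G`: `FreeGroup.induction_on`; `z` commutes with everything in sight) and so `lift ![X,Y] G * Y^c * (lift ![X,Y] G)⁻¹ = lift ![X^a,Y^c] G' * Y^c * (lift ![X^a,Y^c] G')⁻¹` (`z` commutes with `Y`).
`f (lift ![x, y] G) = lift ![f x, f y] G` (`FreeGroup.lift` is unique: `MonoidHom.comp`, `FreeGroup.ext_hom` or `map_lift`).
-/

open scoped ContDiff Manifold Topology
open Set Filter
open Complex (I)
open Pool.Agent.RSG (E3 E4 S2 S3 S4 ex cj c1 c2 ht fh pS3 pS4)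
open Pool.Agent.RBM (ThickT OnT Box)
open Pool.Agent.LKF (OnF)
open Pool.Agent.PTH (SP ISP)
open Pool.Agent.KNH (circ)
open Pool.Agent.LKT (s1 s2)

namespace Pool.Agent.MMV

theorem VAl_map {Γ H : Type} [Group Γ] [Group H] (f : Γ →* H) (x y : Γ) (G : FreeGroup (Fin 2)) :
    f (FreeGroup.lift ![x, y] G) = FreeGroup.lift ![f x, f y] G := by
  have h : f.comp (FreeGroup.lift ![x, y]) = FreeGroup.lift ![f x, f y] := by
    ext i
    fin_cases i <;> simp
  rw [← h]
  rfl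

theorem VAl_comm {H : Type} [Group H] {A B z : H} (hA : Commute z A) (hB : Commute z B) (G : FreeGroup (Fin 2)) :
    Commute z (FreeGroup.lift ![A, B] G) := by
  induction G using FreeGroup.induction_on with
  | C1 => simp
  | of i => fin_cases i <;> simp [hA, hB]
  | inv_of i _ => fin_cases i <;> simp [hA, hB]
  | mul u v hu hv =>
    rw [map_mul]
    exact hu.mul_right hv

theorem VAl_word {H : Type} [Group H] {A B z : H} (hA : Commute z A) (hB : Commute z B) (p q : ℤ) (G : FreeGroup (Fin 2)) :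
    ∃ n : ℤ, FreeGroup.lift ![A * z ^ p, B * z ^ q] G = FreeGroup.lift ![A, B] G * z ^ n := by
  induction G using FreeGroup.induction_on with
  | C1 => exact ⟨0, by simp⟩
  | of i =>
    fin_cases i
    · exact ⟨p, by simp⟩
    · exact ⟨q, by simp⟩
  | inv_of i _ =>
    fin_cases i
    · refine ⟨-p, ?_⟩
      have h := (hA.inv_right.zpow_left (-p)).eq
      simpa using h
    · refine ⟨-q, ?_⟩
      have h := (hB.inv_right.zpow_left (-q)).eq
      simpa using h
  | mul u v hu hv =>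
    obtain ⟨m, hm⟩ := hu
    obtain ⟨n, hn⟩ := hv
    refine ⟨m + n, ?_⟩
    rw [map_mul, map_mul, hm, hn, zpow_add]
    have h := ((VAl_comm hA hB v).zpow_left m).eq
    calc FreeGroup.lift ![A, B] u * z ^ m * (FreeGroup.lift ![A, B] v * z ^ n)
        = FreeGroup.lift ![A, B] u * (z ^ m * FreeGroup.lift ![A, B] v) * z ^ n := by simp only [mul_assoc]
      _ = FreeGroup.lift ![A, B] u * FreeGroup.lift ![A, B] v * (z ^ m * z ^ n) := by
          rw [h]
          simp only [mul_assoc]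

theorem alg_word {Γ : Type} [Group Γ] (x y : Γ) {a b c d : ℤ} (h : a * d + b * c = 1 ∨ a * d + b * c = -1)
    (G : FreeGroup (Fin 2)) : ∃ G' : FreeGroup (Fin 2),
      ACP.ACEquiv (x ^ b * y ^ (-d), x ^ a * FreeGroup.lift ![x ^ a, y ^ c] G' * y ^ c * (FreeGroup.lift ![x ^ a, y ^ c] G')⁻¹)
        (x ^ b * y ^ (-d), x ^ a * FreeGroup.lift ![x, y] G * y ^ c * (FreeGroup.lift ![x, y] G)⁻¹) := by
  obtain ⟨e, he⟩ : ∃ e : ℤ, e * (a * d + b * c) = 1 := by
    rcases h with h | h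
    · exact ⟨1, by rw [h]; norm_num⟩
    · exact ⟨-1, by rw [h]; norm_num⟩
  refine ⟨FreeGroup.lift ![FreeGroup.of 0 ^ (e * d), FreeGroup.of 1 ^ (e * b)] G, ?_⟩
  apply ACP.quot₂
  intro H _ f hf
  have hz : f x ^ b = f y ^ d := by
    have h1 : f x ^ b * (f y ^ d)⁻¹ = 1 := by
      simpa using hf
    exact mul_inv_eq_one.1 h1
  have hzX : Commute (f x ^ b) (f x) := (Commute.refl (f x)).zpow_left b
  have hzY : Commute (f x ^ b) (f y) := by
    rw [hz]
    exact (Commute.refl (f y)).zpow_left d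
  have e1 : f x = (f x ^ a) ^ (e * d) * (f x ^ b) ^ (e * c) := by
    rw [← zpow_mul, ← zpow_mul, ← zpow_add]
    have : a * (e * d) + b * (e * c) = 1 := by rw [← he]; ring
    rw [this, zpow_one]
  have e2 : f y = (f y ^ c) ^ (e * b) * (f x ^ b) ^ (e * a) := by
    rw [hz, ← zpow_mul, ← zpow_mul, ← zpow_add]
    have : c * (e * b) + d * (e * a) = 1 := by rw [← he]; ring
    rw [this, zpow_one]
  obtain ⟨n, hn⟩ := VAl_word (A := (f x ^ a) ^ (e * d)) (B := (f y ^ c) ^ (e * b)) (z := f x ^ b)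
    ((hzX.zpow_right a).zpow_right _) ((hzY.zpow_right c).zpow_right _) (e * c) (e * a) G
  rw [← e1, ← e2] at hn
  have hL : FreeGroup.lift ![f x ^ a, f y ^ c] (FreeGroup.lift ![FreeGroup.of 0 ^ (e * d), FreeGroup.of 1 ^ (e * b)] G) =
      FreeGroup.lift ![(f x ^ a) ^ (e * d), (f y ^ c) ^ (e * b)] G := by
    rw [VAl_map]
    simp
  have hc : Commute ((f x ^ b) ^ n) (f y ^ c) := (hzY.zpow_right c).zpow_left n
  simp only [map_mul, map_zpow, map_inv, VAl_map] at hL ⊢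
  rw [hL, hn]
  generalize FreeGroup.lift ![(f x ^ a) ^ (e * d), (f y ^ c) ^ (e * b)] G = L
  rw [mul_inv_rev]
  calc f x ^ a * L * f y ^ c * L⁻¹ = f x ^ a * L * (f y ^ c * ((f x ^ b) ^ n * ((f x ^ b) ^ n)⁻¹)) * L⁻¹ := by simp
    _ = f x ^ a * L * (f y ^ c * (f x ^ b) ^ n) * ((f x ^ b) ^ n)⁻¹ * L⁻¹ := by simp only [mul_assoc]
    _ = f x ^ a * L * ((f x ^ b) ^ n * f y ^ c) * ((f x ^ b) ^ n)⁻¹ * L⁻¹ := by rw [hc.eq]
    _ = f x ^ a * (L * (f x ^ b) ^ n) * f y ^ c * (((f x ^ b) ^ n)⁻¹ * L⁻¹) := by simp only [mul_assoc]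

end Pool.Agent.MMV
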