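import Pool.Agent.MMV.Defs

/-!
# MMV/VGn
: the loops of `Gens` and the cores   (difficulty 3)

`D.S : Surg ![k₁, k₂] ε S4`, `S.Q 0 (z, v) = stdS (-1/2) z v`, `S.Q 1 (z, v) = stdS (1/2) z v`, `glue`: `S.Q 0 (r ex l, v) = S.A (k₁ (l, r v))` for `0 < r < ε`.  `e₁ = (1, 0, 0)`.
* `gens_cls₁`: `γ` the path of `BCls q lam₁ x`.  `Cls q (core k₁) x`: by free homotopy: `ACB.cls_..` lemmas (see ACB/ClA, ClF, ClU: transport of `Cls` along a free homotopy `FHom univ`; if there is only the converse direction use a path: `Cls q lam₁ x` with the constant path and the homotopy of closed curves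
  gives `Cls q (core k₁) x` with the track path).  The homotopy: for `ρ ∈ (0, 1/2]` the curve `t ↦ P_ρ t`, the point of `M` off `k₁`, `k₂` with `S.A (P_ρ t) = sd (-1/2 + ρ ex t)` (`S.cover`, `A_inj`: for `u ≠ ±1/2` the point `sd u` is not `Q i (0, v)`; continuity: `S.A` is an injective local diffeomorphism off the circles, so its inverse is continuous); for `ρ < ε`:
  `P_ρ t = k₁ (t, ρ e₁)` (as `stdS (-1/2) (ρ ex t) e₁ = sd (-1/2 + ρ ex t)`), which extends continuously to `ρ = 0`: `core k₁`.  For `ρ = 1/2` it is `lam₁`.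
* `gens_cls₂`: `sd (1/2 - 1/2 ex t)`: `1/2 - ρ ex t = 1/2 + ρ ex (t + 1/2)`: for small `ρ` the curve is `k₂ (t + 1/2, ρ e₁)`, then rotate the parameter (`Cls` of `t ↦ core k₂ (t + 1/2)` and of `core k₂` are the same up to conjugation: again a free homotopy).
* `gens_exist`: `q` = the point over `sd 0`, `lam₁ t`, `lam₂ t` the points over `sd (..)` (`‖-1/2 + 1/2 ex t‖ ≤ 1`, `≠ ±1/2`: `|(-1/2 + 1/2 ex t) + 1/2| = 1/2`, and it is `1/2` only if `ex t = 2`); continuity as above, so `BCls` holds for suitable `x`, `y` (`lam₁ 1 = lam₁ 0` by `A_inj`).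
-/

open scoped ContDiff Manifold Topology
open Set Filter
open Complex (I)
open Pool.Agent.RSG (E3 E4 S2 S3 S4 ex cj c1 c2 ht fh pS3 pS4)
open Pool.Agent.RBM (ThickT OnT Box)
open Pool.Agent.LKF (OnF)
open Pool.Agent.PTH (SP ISP)
open Pool.Agent.KNH (circ)
open Pool.Agent.LKT (s1 s2)

namespace Pool.Agent.MMV

section
variable {M : Type} [TopologicalSpace M] [ChartedSpace E4 M] {κ : Fin 2 → ℝ × E3 → M} {ε : ℝ}

/-- the vector `e₁` -/
noncomputable def vgn_e : ACB.S2 := ⟨EuclideanSpace.single 0 1, by simp⟩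

theorem vgn_e0 : vgn_e.1 0 = 1 := by simp [vgn_e]

theorem vgn_e1 : vgn_e.1 1 = 0 := by simp [vgn_e]

theorem vgn_e2 : vgn_e.1 2 = 0 := by simp [vgn_e]

theorem vgn_norm (v : ACB.S2) : ‖v.1‖ = 1 := mem_sphere_zero_iff_norm.mp v.2

theorem vgn_kcont (T : ACB.Tubes κ ε) (i : Fin 2) {l : ℝ} {v : E3} (hv : ‖v‖ < ε) : ContinuousAt (κ i) (l, v) :=
  ((T.thick i).loc l v hv).contMDiffAt.continuousAt

/-- the complement of the circles is open -/
theorem vgn_off (S : ACB.Surg κ ε ACB.S4) (T : ACB.Tubes κ ε) {p : M} (hp : ACB.Off κ p) :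
    ∀ᶠ p' in 𝓝 p, ACB.Off κ p' := by
  have hε := (T.thick 0).pos
  have key : ∀ i : Fin 2, ∀ᶠ p' in 𝓝 p, ∀ l : ℝ, p' ≠ κ i (l, 0) := by
    intro i
    have hne : S.A p ≠ S.Q i (0, vgn_e) := (S.disj i vgn_e p hp).symm
    obtain ⟨W, W', hW, hW', h1, h2, hd⟩ := t2_separation hne
    have hA : ∀ᶠ p' in 𝓝 p, S.A p' ∈ W :=
      (S.A_loc p hp).contMDiffAt.continuousAt.eventually (hW.mem_nhds h1)
    have hQ : ContinuousAt (S.Q i) (0, vgn_e) :=
      (S.Q_loc i 0 vgn_e (by rw [norm_zero]; exact hε)).contMDiffAt.continuousAt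
    filter_upwards [hA.eventually_nhds] with p' hp' l hl
    have hc1 : Tendsto (fun r : ℝ => κ i (l, r • vgn_e.1)) (𝓝 0) (𝓝 p') := by
      have h3 : ContinuousAt (κ i) (l, (0 : ℝ) • vgn_e.1) := vgn_kcont T i (by rw [zero_smul, norm_zero]; exact hε)
      have h4 : ContinuousAt (fun r : ℝ => κ i (l, r • vgn_e.1)) 0 := by
        refine ContinuousAt.comp (g := κ i) (f := fun r : ℝ => (l, r • vgn_e.1)) h3 ?_
        exact (continuous_const.prodMk (continuous_id.smul continuous_const)).continuousAt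
      have h5 := h4.tendsto
      rw [zero_smul, ← hl] at h5
      exact h5
    have hc2 : Tendsto (fun r : ℝ => S.Q i ((r : ℂ) * ACB.ex l, vgn_e)) (𝓝 0) (𝓝 (S.Q i (0, vgn_e))) := by
      have h4 : ContinuousAt (fun r : ℝ => S.Q i ((r : ℂ) * ACB.ex l, vgn_e)) 0 := by
        refine ContinuousAt.comp (g := S.Q i) (f := fun r : ℝ => ((r : ℂ) * ACB.ex l, vgn_e)) ?_ ?_
        · simpa using hQ
        · exact ((Complex.continuous_ofReal.mul continuous_const).prodMk continuous_const).continuousAt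
      have h5 := h4.tendsto
      simpa using h5
    have e1 := (hc1.eventually hp').filter_mono (nhdsWithin_le_nhds (s := Ioi 0))
    have e2 := (hc2.eventually (hW'.mem_nhds h2)).filter_mono (nhdsWithin_le_nhds (s := Ioi 0))
    have e3 : ∀ᶠ r : ℝ in 𝓝[>] 0, r ∈ Ioo 0 ε := Ioo_mem_nhdsGT hε
    obtain ⟨r, h6, h7, h8⟩ := (e1.and (e2.and e3)).exists
    rw [S.glue i l r vgn_e h8.1 h8.2] at h7
    exact Set.disjoint_left.mp hd h6 h7
  exact Filter.eventually_all.mpr key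

open Classical in
/-- the inverse of `S.A` -/
noncomputable def vgn_B (S : ACB.Surg κ ε ACB.S4) (x : ACB.S4) : M :=
  if h : ∃ p, ACB.Off κ p ∧ S.A p = x then h.choose else κ 0 (0, 0)

theorem vgn_B_eq (S : ACB.Surg κ ε ACB.S4) {p : M} (hp : ACB.Off κ p) : vgn_B S (S.A p) = p := by
  unfold vgn_B
  have h : ∃ p', ACB.Off κ p' ∧ S.A p' = S.A p := ⟨p, hp, rfl⟩
  rw [dif_pos h]
  exact S.A_inj _ _ h.choose_spec.1 hp h.choose_spec.2

theorem vgn_B_cont (S : ACB.Surg κ ε ACB.S4) (T : ACB.Tubes κ ε) {p : M} (hp : ACB.Off κ p) :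
    ContinuousAt (vgn_B S) (S.A p) := by
  intro U hU
  rw [vgn_B_eq S hp] at hU
  have h1 : U ∩ {p' | ACB.Off κ p'} ∈ 𝓝 p := Filter.inter_mem hU (vgn_off S T hp)
  have h2 := Pool.Agent.CSG.ld_image_nhds (S.A_loc p hp) h1
  rw [Filter.mem_map]
  refine Filter.mem_of_superset h2 ?_
  rintro _ ⟨p', ⟨hpU, hpo⟩, rfl⟩
  show vgn_B S (S.A p') ∈ U
  rw [vgn_B_eq S hpo]
  exact hpU

theorem vgn_sd_norm (u : ℂ) : ‖sd u‖ = max 1 ‖u‖ := by
  have h1 : ‖sd u‖ ^ 2 = (max 1 ‖u‖) ^ 2 := by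
    rw [EuclideanSpace.norm_sq_eq]
    simp only [sd, Fin.sum_univ_five, Real.norm_eq_abs, sq_abs]
    have h2 : u.re ^ 2 + u.im ^ 2 = ‖u‖ ^ 2 := by
      rw [← Complex.normSq_eq_norm_sq, Complex.normSq_apply]
      ring
    have h3 : Real.sqrt (1 - ‖u‖ ^ 2) ^ 2 = (max 1 ‖u‖) ^ 2 - ‖u‖ ^ 2 := by
      rcases le_or_gt ‖u‖ 1 with h | h
      · rw [max_eq_left h, Real.sq_sqrt (by nlinarith [norm_nonneg u])]
        ring
      · rw [max_eq_right h.le, Real.sqrt_eq_zero_of_nonpos (by nlinarith)]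
        ring
    simp
    linarith
  have h2 : 0 ≤ max 1 ‖u‖ := le_trans zero_le_one (le_max_left _ _)
  exact (sq_eq_sq₀ (norm_nonneg _) h2).mp h1

/-- the point of the sphere -/
noncomputable def vgn_pt (u : ℂ) : ACB.S4 :=
  ⟨(max 1 ‖u‖)⁻¹ • sd u, by
    have h2 : 0 < max 1 ‖u‖ := lt_of_lt_of_le zero_lt_one (le_max_left _ _)
    rw [mem_sphere_zero_iff_norm, norm_smul, vgn_sd_norm, norm_inv, Real.norm_of_nonneg h2.le]
    exact inv_mul_cancel₀ h2.ne'⟩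

theorem vgn_pt_eq {u : ℂ} (h : ‖u‖ ≤ 1) : (vgn_pt u).1 = sd u := by
  show (max 1 ‖u‖)⁻¹ • sd u = sd u
  rw [max_eq_left h, inv_one, one_smul]

theorem vgn_sd_cont : Continuous sd := by
  unfold sd
  refine (PiLp.continuous_toLp 2 _).comp ?_
  refine continuous_pi fun i => ?_
  fin_cases i
  · exact Complex.continuous_re
  · exact Complex.continuous_im
  · exact (continuous_const.sub (continuous_norm.pow 2)).sqrt
  · exact continuous_const
  · exact continuous_const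

theorem vgn_pt_cont : Continuous vgn_pt := by
  unfold vgn_pt
  refine Continuous.subtype_mk ?_ _
  have h3 : Continuous (fun u : ℂ => (max 1 ‖u‖)⁻¹) := by
    refine Continuous.inv₀ (continuous_const.max continuous_norm) ?_
    intro u
    have h2 : 0 < max 1 ‖u‖ := lt_of_lt_of_le zero_lt_one (le_max_left _ _)
    exact h2.ne'
  exact h3.smul vgn_sd_cont

theorem vgn_std (a : ℝ) (z : ℂ) : ACB.stdS a z vgn_e = sd ((a : ℂ) + z) := by
  unfold ACB.stdS sd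
  rw [vgn_e0, vgn_e1, vgn_e2]
  simp

theorem vgn_rng (S : ACB.Surg κ ε ACB.S4) (T : ACB.Tubes κ ε) {cen : Fin 2 → ℝ}
    (hstd : ∀ (i : Fin 2) (z : ℂ) (v : ACB.S2), ‖z‖ < ε → (S.Q i (z, v)).1 = ACB.stdS (cen i) z v) {u : ℂ}
    (hu : ‖u‖ ≤ 1) (hne : ∀ i, u ≠ cen i) : ∃ p, ACB.Off κ p ∧ S.A p = vgn_pt u := by
  rcases S.cover (vgn_pt u) with ⟨p, h1, h2⟩ | ⟨i, v, h⟩
  · exact ⟨p, h1, h2.symm⟩
  · exfalso
    apply hne i
    have h1 : sd u = ACB.stdS (cen i) 0 v := by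
      rw [← vgn_pt_eq hu, h]
      exact hstd i 0 v (by rw [norm_zero]; exact (T.thick 0).pos)
    have h2 : u.re = cen i := by
      have := congrArg (fun x : ACB.E5 => x 0) h1
      simpa [sd, ACB.stdS] using this
    have h3 : u.im = 0 := by
      have := congrArg (fun x : ACB.E5 => x 1) h1
      simpa [sd, ACB.stdS] using this
    apply Complex.ext
    · rw [h2, Complex.ofReal_re]
    · rw [h3, Complex.ofReal_im]

theorem vgn_tube (S : ACB.Surg κ ε ACB.S4) (T : ACB.Tubes κ ε) {cen : Fin 2 → ℝ}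
    (hstd : ∀ (i : Fin 2) (z : ℂ) (v : ACB.S2), ‖z‖ < ε → (S.Q i (z, v)).1 = ACB.stdS (cen i) z v) (i : Fin 2)
    (l : ℝ) {r : ℝ} (h0 : 0 < r) (hr : r < ε) (hu : ‖((cen i : ℝ) : ℂ) + r * ex l‖ ≤ 1) :
    ACB.Off κ (κ i (l, r • vgn_e.1)) ∧ S.A (κ i (l, r • vgn_e.1)) = vgn_pt (((cen i : ℝ) : ℂ) + r * ex l) := by
  have hn : ‖r • vgn_e.1‖ = r := by rw [norm_smul, vgn_norm, mul_one, Real.norm_of_nonneg h0.le]
  constructor
  · intro j l' he
    by_cases hij : i = j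
    · subst hij
      have h1 := ((T.thick i).inj l (r • vgn_e.1) l' 0 (by rw [hn]; exact hr) (by rw [norm_zero]; exact h0.trans hr) he).1
      rw [h1, norm_zero] at hn
      exact h0.ne hn
    · exact T.disj i j hij l (r • vgn_e.1) l' 0 (by rw [hn]; exact hr) (by rw [norm_zero]; exact h0.trans hr) he
  · rw [← S.glue i l r vgn_e h0 hr]
    apply Subtype.ext
    have hz : ‖(r : ℂ) * ACB.ex l‖ < ε := by
      have h1 : ‖(r : ℂ) * ex l‖ = r := by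
        rw [norm_mul, Pool.Agent.RSG.ex_norm, mul_one, Complex.norm_real, Real.norm_of_nonneg h0.le]
      have h2 : ‖(r : ℂ) * ACB.ex l‖ = r := h1
      rw [h2]
      exact hr
    rw [hstd i _ vgn_e hz, vgn_std, vgn_pt_eq hu]
    rfl

theorem vgn_u_norm {a : ℝ} (ha : |a| = 1 / 2) {r : ℝ} (h0 : 0 ≤ r) (hr : r ≤ 1 / 2) (t : ℝ) :
    ‖((a : ℝ) : ℂ) + r * ex t‖ ≤ 1 := by
  refine (norm_add_le _ _).trans ?_
  rw [Complex.norm_real, norm_mul, Pool.Agent.RSG.ex_norm, Complex.norm_real, Real.norm_eq_abs, ha,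
    Real.norm_of_nonneg h0]
  linarith

theorem vgn_u_ne {a b : ℝ} (hab : a = b ∨ |a - b| = 1) {r : ℝ} (h0 : 0 < r) (hr : r ≤ 1 / 2) (t : ℝ) :
    ((a : ℝ) : ℂ) + r * ex t ≠ ((b : ℝ) : ℂ) := by
  intro h
  have h1 : (r : ℂ) * ex t = ((b - a : ℝ) : ℂ) := by
    rw [Complex.ofReal_sub, ← h]
    ring
  have h2 := congrArg (fun z : ℂ => ‖z‖) h1
  rw [norm_mul, Pool.Agent.RSG.ex_norm, Complex.norm_real, Complex.norm_real, Real.norm_of_nonneg h0.le, mul_one,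
    Real.norm_eq_abs] at h2
  rcases hab with h3 | h3
  · rw [h3, sub_self, abs_zero] at h2
    exact h0.ne' h2
  · rw [abs_sub_comm, h3] at h2
    linarith

/-- the point over `cen i + r ex t` -/
theorem vgn_pos (S : ACB.Surg κ ε ACB.S4) (T : ACB.Tubes κ ε) {cen : Fin 2 → ℝ} (hcen : ∀ i, |cen i| = 1 / 2)
    (hcc : ∀ i j, cen i = cen j ∨ |cen i - cen j| = 1)
    (hstd : ∀ (i : Fin 2) (z : ℂ) (v : ACB.S2), ‖z‖ < ε → (S.Q i (z, v)).1 = ACB.stdS (cen i) z v) (i : Fin 2)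
    {r : ℝ} (h0 : 0 < r) (hr : r ≤ 1 / 2) (t : ℝ) :
    ∃ p, ACB.Off κ p ∧ S.A p = vgn_pt (((cen i : ℝ) : ℂ) + r * ex t) :=
  vgn_rng S T hstd (vgn_u_norm (hcen i) h0.le hr t) fun j => vgn_u_ne (hcc i j) h0 hr t

open Classical in
/-- the homotopy -/
noncomputable def vgn_H (S : ACB.Surg κ ε ACB.S4) (a : ℝ) (i : Fin 2) (θ₀ : ℝ) (s t : ℝ) : M :=
  if (1 - s) / 2 < ε then κ i (t + θ₀ * (1 - s), ((1 - s) / 2) • vgn_e.1)
  else vgn_B S (vgn_pt ((a : ℂ) + (((1 - s) / 2 : ℝ) : ℂ) * ex (t + θ₀ * (1 - s))))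

theorem vgn_fhom (S : ACB.Surg κ ε ACB.S4) (T : ACB.Tubes κ ε) (hε : ε ≤ 1 / 4) {cen : Fin 2 → ℝ}
    (hcen : ∀ i, |cen i| = 1 / 2) (hcc : ∀ i j, cen i = cen j ∨ |cen i - cen j| = 1)
    (hstd : ∀ (i : Fin 2) (z : ℂ) (v : ACB.S2), ‖z‖ < ε → (S.Q i (z, v)).1 = ACB.stdS (cen i) z v) (i : Fin 2)
    (θ₀ : ℝ) {lam : ℝ → M} (hoff : ∀ t, ACB.Off κ (lam t))
    (hlam : ∀ t, S.A (lam t) = vgn_pt (((cen i : ℝ) : ℂ) + ((1 / 2 : ℝ) : ℂ) * ex (t + θ₀))) :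
    ACB.FHom univ lam (ACB.core (κ i)) := by
  have hε0 := (T.thick 0).pos
  have hk : ∀ {s : ℝ}, |(1 - s) / 2| < ε → ‖((1 - s) / 2) • vgn_e.1‖ < ε := by
    intro s hs
    rw [norm_smul, vgn_norm, mul_one, Real.norm_eq_abs]
    exact hs
  refine ACB.FHom.mk' (vgn_H S (cen i) i θ₀) ?_ ?_ ?_ ?_ fun _ _ _ => mem_univ _
  · rintro ⟨s, t⟩ ⟨⟨hs0, hs1⟩, _⟩
    simp only at hs0 hs1
    apply ContinuousAt.continuousWithinAt
    rcases lt_or_ge ((1 - s) / 2) ε with h | h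
    · have hs : |(1 - s) / 2| < ε := by
        rw [abs_of_nonneg (by linarith)]
        exact h
      have hev : ∀ᶠ x : ℝ × ℝ in 𝓝 (s, t), (1 - x.1) / 2 < ε := by
        have hc : ContinuousAt (fun x : ℝ × ℝ => (1 - x.1) / 2) (s, t) := by fun_prop
        exact hc.eventually_lt continuousAt_const h
      have hcont : ContinuousAt (fun x : ℝ × ℝ => κ i (x.2 + θ₀ * (1 - x.1), ((1 - x.1) / 2) • vgn_e.1)) (s, t) := by
        refine ContinuousAt.comp (g := κ i)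
          (f := fun x : ℝ × ℝ => (x.2 + θ₀ * (1 - x.1), ((1 - x.1) / 2) • vgn_e.1)) (vgn_kcont T i (hk hs)) ?_
        fun_prop
      refine hcont.congr ?_
      filter_upwards [hev] with x hx
      unfold vgn_H
      rw [if_pos hx]
    · have hpos : 0 < (1 - s) / 2 := by linarith
      have hle : (1 - s) / 2 ≤ 1 / 2 := by linarith
      obtain ⟨p, hp, hpe⟩ := vgn_pos S T hcen hcc hstd i hpos hle (t + θ₀ * (1 - s))
      have hB := vgn_B_cont S T hp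
      rw [hpe] at hB
      have hev : ∀ᶠ x : ℝ × ℝ in 𝓝 (s, t), 0 < (1 - x.1) / 2 := by
        have hc : ContinuousAt (fun x : ℝ × ℝ => (1 - x.1) / 2) (s, t) := by fun_prop
        exact continuousAt_const.eventually_lt hc hpos
      have hcont : ContinuousAt (fun x : ℝ × ℝ => vgn_B S (vgn_pt (((cen i : ℝ) : ℂ) +
          (((1 - x.1) / 2 : ℝ) : ℂ) * ex (x.2 + θ₀ * (1 - x.1))))) (s, t) := by
        refine ContinuousAt.comp (g := vgn_B S) (f := fun x : ℝ × ℝ => vgn_pt (((cen i : ℝ) : ℂ) +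
          (((1 - x.1) / 2 : ℝ) : ℂ) * ex (x.2 + θ₀ * (1 - x.1)))) hB ?_
        refine (vgn_pt_cont.comp ?_).continuousAt
        refine continuous_const.add ((Complex.continuous_ofReal.comp ?_).mul
          (Pool.Agent.RSG.ex_smooth.continuous.comp ?_))
        · fun_prop
        · fun_prop
      refine hcont.congr ?_
      filter_upwards [hev] with x hx
      unfold vgn_H
      split_ifs with hlt
      · obtain ⟨h1, h2⟩ := vgn_tube S T hstd i (x.2 + θ₀ * (1 - x.1)) hx hlt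
          (vgn_u_norm (hcen i) hx.le (by linarith) _)
        rw [← h2, vgn_B_eq S h1]
      · rfl
  · intro s hs t
    unfold vgn_H
    have e : t + 1 + θ₀ * (1 - s) = t + θ₀ * (1 - s) + 1 := by ring
    rw [e]
    split_ifs with hlt
    · exact (T.thick i).per _ _ (hk (by
        rw [abs_of_nonneg (by linarith [hs.2])]
        exact hlt))
    · have e2 := Pool.Agent.RSG.ex_add_int (t + θ₀ * (1 - s)) 1
      rw [Int.cast_one] at e2
      rw [e2]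
  · funext t
    unfold vgn_H
    rw [if_neg (by linarith)]
    have h1 := hlam t
    have e : t + θ₀ * (1 - 0) = t + θ₀ := by ring
    rw [e, sub_zero, ← h1, vgn_B_eq S (hoff t)]
  · funext t
    unfold vgn_H ACB.core
    rw [if_pos (by rw [sub_self, zero_div]; exact hε0), sub_self, zero_div, zero_smul, mul_zero, add_zero]

end

theorem vgn_cls {M : Type} [TopologicalSpace M] {q : M} {lam : ℝ → M} (h0 : lam 0 = q)
    {x : FundamentalGroup M q} (hx : BCls q lam x) : ACB.Cls q lam x := by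
  subst h0
  obtain ⟨γ, h1, h2⟩ := hx
  refine ⟨Path.refl _, γ, h1, ?_⟩
  rw [← h2]
  have h3 : Path.Homotopic (((Path.refl (lam 0)).trans γ).trans (Path.refl (lam 0)).symm) γ := by
    rw [Path.refl_symm]
    exact ⟨(Path.Homotopy.transRefl _).trans (Path.Homotopy.reflTrans γ)⟩
  rw [Quotient.sound h3]

theorem vgn_bcls {M : Type} [TopologicalSpace M] {q : M} {lam : ℝ → M} (hc : Continuous lam) (h0 : lam 0 = q)
    (h1 : lam 1 = q) : ∃ x : FundamentalGroup M q, BCls q lam x := by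
  have h : ∃ γ : Path q q, ∀ t : unitInterval, γ t = lam t :=
    ⟨⟨⟨fun t : unitInterval => lam t, hc.comp continuous_subtype_val⟩, h0, h1⟩, fun _ => rfl⟩
  obtain ⟨γ, hγ⟩ := h
  exact ⟨_, γ, hγ, rfl⟩

theorem vgn_cen (i : Fin 2) : |(![-1 / 2, 1 / 2] : Fin 2 → ℝ) i| = 1 / 2 := by
  fin_cases i
  · show |(-1 / 2 : ℝ)| = 1 / 2
    rw [abs_of_neg (by norm_num)]
    norm_num
  · show |(1 / 2 : ℝ)| = 1 / 2
    rw [abs_of_pos (by norm_num)]

theorem vgn_cc (i j : Fin 2) : (![-1 / 2, 1 / 2] : Fin 2 → ℝ) i = (![-1 / 2, 1 / 2] : Fin 2 → ℝ) j ∨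
    |(![-1 / 2, 1 / 2] : Fin 2 → ℝ) i - (![-1 / 2, 1 / 2] : Fin 2 → ℝ) j| = 1 := by
  fin_cases i <;> fin_cases j
  · exact Or.inl rfl
  · right
    show |(-1 / 2 : ℝ) - 1 / 2| = 1
    rw [abs_of_neg (by norm_num)]
    norm_num
  · right
    show |(1 / 2 : ℝ) - -1 / 2| = 1
    rw [abs_of_pos (by norm_num)]
    norm_num
  · exact Or.inl rfl

theorem vgn_dstd {M : Type} [TopologicalSpace M] [ChartedSpace E4 M] {k₁ k₂ : ℝ × E3 → M} {ε : ℝ}
    (D : ACB.Dbl (-1 / 2) (1 / 2) k₁ k₂ ε) (i : Fin 2) (z : ℂ) (v : ACB.S2) (hz : ‖z‖ < ε) :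
    (D.S.Q i (z, v)).1 = ACB.stdS ((![-1 / 2, 1 / 2] : Fin 2 → ℝ) i) z v := by
  fin_cases i
  · exact D.std₁ z v hz
  · exact D.std₂ z v hz

theorem vgn_u1 (t : ℝ) : (((![-1 / 2, 1 / 2] : Fin 2 → ℝ) 0 : ℝ) : ℂ) + ((1 / 2 : ℝ) : ℂ) * ex (t + 0) =
    -1 / 2 + 1 / 2 * ex t := by
  show (((-1 / 2 : ℝ)) : ℂ) + ((1 / 2 : ℝ) : ℂ) * ex (t + 0) = -1 / 2 + 1 / 2 * ex t
  rw [add_zero]
  push_cast
  ring

theorem vgn_u2 (t : ℝ) : (((![-1 / 2, 1 / 2] : Fin 2 → ℝ) 1 : ℝ) : ℂ) + ((1 / 2 : ℝ) : ℂ) * ex (t + 1 / 2) =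
    1 / 2 - 1 / 2 * ex t := by
  show (((1 / 2 : ℝ)) : ℂ) + ((1 / 2 : ℝ) : ℂ) * ex (t + 1 / 2) = 1 / 2 - 1 / 2 * ex t
  rw [Pool.Agent.RSG.ex_add, Pool.Agent.RSG.ex_half]
  push_cast
  ring

theorem gens_exist {M : Type} [TopologicalSpace M] [ChartedSpace E4 M] {k₁ k₂ : ℝ × E3 → M} {ε : ℝ}
    (D : ACB.Dbl (-1 / 2) (1 / 2) k₁ k₂ ε) :
    ∃ (q : M) (lam₁ lam₂ : ℝ → M), Gens D q lam₁ lam₂ ∧ ∃ x y : FundamentalGroup M q, BCls q lam₁ x ∧ BCls q lam₂ y := by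
  have hpos : ∀ (i : Fin 2) (t : ℝ), ∃ p, ACB.Off ![k₁, k₂] p ∧
      D.S.A p = vgn_pt ((((![-1 / 2, 1 / 2] : Fin 2 → ℝ) i : ℝ) : ℂ) + ((1 / 2 : ℝ) : ℂ) * ex t) := fun i t =>
    vgn_pos D.S D.tub vgn_cen vgn_cc (vgn_dstd D) i (by norm_num) le_rfl t
  have hlam : ∀ (i : Fin 2) (θ₀ : ℝ), ∃ lam : ℝ → M, Continuous lam ∧ (∀ t, ACB.Off ![k₁, k₂] (lam t)) ∧
      ∀ t, D.S.A (lam t) = vgn_pt ((((![-1 / 2, 1 / 2] : Fin 2 → ℝ) i : ℝ) : ℂ) + ((1 / 2 : ℝ) : ℂ) * ex (t + θ₀)) := by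
    intro i θ₀
    refine ⟨fun t => vgn_B D.S (vgn_pt ((((![-1 / 2, 1 / 2] : Fin 2 → ℝ) i : ℝ) : ℂ) +
      ((1 / 2 : ℝ) : ℂ) * ex (t + θ₀))), ?_, ?_, ?_⟩
    · rw [continuous_iff_continuousAt]
      intro t
      obtain ⟨p, hp, hpe⟩ := hpos i (t + θ₀)
      have hB := vgn_B_cont D.S D.tub hp
      rw [hpe] at hB
      refine ContinuousAt.comp (g := vgn_B D.S) (f := fun t : ℝ =>
        vgn_pt ((((![-1 / 2, 1 / 2] : Fin 2 → ℝ) i : ℝ) : ℂ) + ((1 / 2 : ℝ) : ℂ) * ex (t + θ₀))) hB ?_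
      refine (vgn_pt_cont.comp ?_).continuousAt
      exact continuous_const.add (continuous_const.mul
        (Pool.Agent.RSG.ex_smooth.continuous.comp (continuous_id.add continuous_const)))
    · intro t
      obtain ⟨p, hp, hpe⟩ := hpos i (t + θ₀)
      simp only
      rw [← hpe, vgn_B_eq D.S hp]
      exact hp
    · intro t
      obtain ⟨p, hp, hpe⟩ := hpos i (t + θ₀)
      simp only
      rw [← hpe, vgn_B_eq D.S hp]
  obtain ⟨lam₁, hc1, ho1, he1⟩ := hlam 0 0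
  obtain ⟨lam₂, hc2, ho2, he2⟩ := hlam 1 (1 / 2)
  simp only [vgn_u1] at he1
  simp only [vgn_u2] at he2
  have hn1 : ∀ t, ‖(-1 / 2 + 1 / 2 * ex t : ℂ)‖ ≤ 1 := by
    intro t
    rw [← vgn_u1]
    exact vgn_u_norm (vgn_cen 0) (by norm_num) le_rfl _
  have hn2 : ∀ t, ‖(1 / 2 - 1 / 2 * ex t : ℂ)‖ ≤ 1 := by
    intro t
    rw [← vgn_u2]
    exact vgn_u_norm (vgn_cen 1) (by norm_num) le_rfl _
  have hx0 : ex 0 = 1 := Pool.Agent.RSG.ex_zero
  have hx1 : ex 1 = 1 := by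
    have := Pool.Agent.RSG.ex_int 1
    rwa [Int.cast_one] at this
  have b1 : lam₁ 1 = lam₁ 0 := D.S.A_inj _ _ (ho1 1) (ho1 0) (by rw [he1, he1, hx0, hx1])
  have b2 : lam₂ 0 = lam₁ 0 := D.S.A_inj _ _ (ho2 0) (ho1 0) (by
    rw [he1, he2, hx0]
    norm_num)
  have b3 : lam₂ 1 = lam₁ 0 := D.S.A_inj _ _ (ho2 1) (ho1 0) (by
    rw [he1, he2, hx0, hx1]
    norm_num)
  refine ⟨lam₁ 0, lam₁, lam₂, ⟨ho1, ho2, ?_, ?_, rfl, b2⟩, ?_⟩
  · intro t
    rw [he1, vgn_pt_eq (hn1 t)]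
  · intro t
    rw [he2, vgn_pt_eq (hn2 t)]
  · obtain ⟨x, hx⟩ := vgn_bcls hc1 rfl b1
    obtain ⟨y, hy⟩ := vgn_bcls hc2 b2 b3
    exact ⟨x, y, hx, hy⟩

theorem gens_cls₁ {M : Type} [TopologicalSpace M] [ChartedSpace E4 M] {k₁ k₂ : ℝ × E3 → M} {ε : ℝ}
    (D : ACB.Dbl (-1 / 2) (1 / 2) k₁ k₂ ε) {q : M} {lam₁ lam₂ : ℝ → M} (hG : Gens D q lam₁ lam₂)
    {x : FundamentalGroup M q} (hx : BCls q lam₁ x) : ACB.Cls q (ACB.core k₁) x := by
  have h := vgn_fhom D.S D.tub D.small vgn_cen vgn_cc (vgn_dstd D) 0 0 hG.off₁ (fun t => by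
    apply Subtype.ext
    rw [hG.eq₁ t, vgn_pt_eq (vgn_u_norm (vgn_cen 0) (by norm_num) le_rfl _), vgn_u1])
  exact ACB.cls_fhom h (vgn_cls hG.base₁ hx)

theorem gens_cls₂ {M : Type} [TopologicalSpace M] [ChartedSpace E4 M] {k₁ k₂ : ℝ × E3 → M} {ε : ℝ}
    (D : ACB.Dbl (-1 / 2) (1 / 2) k₁ k₂ ε) {q : M} {lam₁ lam₂ : ℝ → M} (hG : Gens D q lam₁ lam₂)
    {y : FundamentalGroup M q} (hy : BCls q lam₂ y) : ACB.Cls q (ACB.core k₂) y := by
  have h := vgn_fhom D.S D.tub D.small vgn_cen vgn_cc (vgn_dstd D) 1 (1 / 2) hG.off₂ (fun t => by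
    apply Subtype.ext
    rw [hG.eq₂ t, vgn_pt_eq (vgn_u_norm (vgn_cen 1) (by norm_num) le_rfl _), vgn_u2])
  exact ACB.cls_fhom h (vgn_cls hG.base₂ hy)

end Pool.Agent.MMV
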