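import Pool.Agent.MMV.TM
import Pool.Agent.MMV.ExF
import Pool.Agent.MMV.VAc
import Pool.Agent.MMV.VGn

/-!
# MMV/VCh
: Euclid   (difficulty 3)

Strong induction on `|M₁.a| + |M₂.a|` (natural numbers `natAbs`).  `hr : M₁.a M₂.c + M₁.c M₂.a = ±1`, so `M₁.a`, `M₂.a` are coprime.
* Base: `|M₁.a| ≤ 1` or `|M₂.a| ≤ 1`.  Choose `N₁`, `N₂` with the same first columns and determinant `1` (negate the dual column if the determinant is `-1`); `ft_dual`.  `ex_ft` for `N₁`, `N₂` gives `X₁` with `FT` and `Two q r₁ r₂ X₁`; with `b = M₁.a`, `a = -M₁.c`, `d = M₂.a`, `c = -M₂.c` (`a d + b c = ∓1`) and `g = FreeGroup.lift ![x^a, y^c] G ∈ Subgroup.closure {x, y}`: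
  `ac_base`, `ACB.double_ac D (gens_cls₁ ..) (gens_cls₂ ..)`: `X₁ ≃ S4`.  `ft_uniq (strip_sys hS)`: `X ≃ X₁` (`SP` is Hausdorff).  Compose.
* Step: `|M₁.a| ≥ 2`, `|M₂.a| ≥ 2`; `|M₁.a| ≠ |M₂.a|` (coprime).  If `|M₂.a| < |M₁.a|`: there is `k` with `|M₁.a - 2 k M₂.a| ≤ |M₂.a|` (rounding of `M₁.a/(2 M₂.a)`), `tm₁`; the new pair satisfies `M₁'.a M₂.c + M₁'.c M₂.a = M₁.a M₂.c + M₁.c M₂.a`.  Otherwise `tm₂`.
-/

open scoped ContDiff Manifold Topology
open Set Filter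
open Complex (I)
open Pool.Agent.RSG (E3 E4 S2 S3 S4 ex cj c1 c2 ht fh pS3 pS4)
open Pool.Agent.RBM (ThickT OnT Box)
open Pool.Agent.LKF (OnF)
open Pool.Agent.PTH (SP ISP)
open Pool.Agent.KNH (circ)
open Pool.Agent.LKT (s1 s2)

namespace Pool.Agent.MMV

theorem vch_norm (M : Sl) (h : M.Uni) : ∃ N : Sl, N.Uni ∧ N.a = M.a ∧ N.c = M.c ∧ N.a * N.d - N.b * N.c = 1 := by
  rcases h with h | h
  · exact ⟨M, Or.inl h, rfl, rfl, h⟩
  · have h' : M.a * (-M.d) - (-M.b) * M.c = 1 := by linarith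
    exact ⟨⟨M.a, -M.b, M.c, -M.d⟩, Or.inl h', rfl, rfl, h'⟩

theorem vch_round (a : ℤ) {b : ℤ} (hb : b ≠ 0) : ∃ k : ℤ, |a - 2 * k * b| ≤ |b| := by
  have hb0 : 0 < |b| := abs_pos.mpr hb
  have key : ∃ k : ℤ, |a - 2 * k * (|b|)| ≤ |b| := by
    have h1 := Int.emod_add_mul_ediv a (2 * |b|)
    have h2 := Int.emod_nonneg a (show 2 * |b| ≠ 0 by omega)
    have h3 := Int.emod_lt_of_pos a (show 0 < 2 * |b| by omega)
    generalize a % (2 * |b|) = r at h1 h2 h3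
    generalize a / (2 * |b|) = q at h1
    rcases le_or_gt r |b| with h | h
    · refine ⟨q, ?_⟩
      have : a - 2 * q * |b| = r := by linarith
      rw [this, abs_of_nonneg h2]
      exact h
    · refine ⟨q + 1, ?_⟩
      have : a - 2 * (q + 1) * |b| = r - 2 * |b| := by linarith
      rw [this, abs_le]
      constructor <;> linarith
  obtain ⟨k, hk⟩ := key
  rcases abs_choice b with h | h
  · refine ⟨k, ?_⟩
    have e : a - 2 * k * b = a - 2 * k * |b| := by rw [h]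
    rw [e]
    exact hk
  · refine ⟨-k, ?_⟩
    have e : a - 2 * (-k) * b = a - 2 * k * |b| := by rw [h]; ring
    rw [e]
    exact hk

theorem vch_ne {a b c d : ℤ} (hr : a * d + c * b = 1 ∨ a * d + c * b = -1) (hb : 1 < |b|) : |a| ≠ |b| := by
  intro h
  have h1 : b ∣ a := (abs_dvd_abs b a).mp (by rw [h])
  have h2 : b ∣ a * d + c * b := dvd_add (Dvd.dvd.mul_right h1 d) (Dvd.intro_left c rfl)
  have h3 : b ∣ 1 := by
    rcases hr with h' | h'
    · rwa [h'] at h2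
    · rw [h'] at h2
      exact (dvd_neg.mp h2)
  have h4 := Int.le_of_dvd one_pos ((abs_dvd b 1).mpr h3)
  omega

theorem vch_mem {Γ : Type} [Group Γ] (x y : Γ) (a c : ℤ) (G : FreeGroup (Fin 2)) :
    FreeGroup.lift ![x ^ a, y ^ c] G ∈ Subgroup.closure {x, y} := by
  have h1 : (FreeGroup.lift ![x ^ a, y ^ c]).range ≤ Subgroup.closure {x, y} := by
    apply FreeGroup.range_lift_le
    rintro _ ⟨i, rfl⟩
    fin_cases i
    · have h : x ∈ Subgroup.closure {x, y} := Subgroup.mem_closure_of_mem (Set.mem_insert x {y})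
      exact (Subgroup.closure {x, y}).zpow_mem h a
    · have h : y ∈ Subgroup.closure {x, y} :=
        Subgroup.mem_closure_of_mem (Set.mem_insert_of_mem x (Set.mem_singleton y))
      exact (Subgroup.closure {x, y}).zpow_mem h c
  exact h1 ⟨G, rfl⟩

theorem chain {M : Type} [TopologicalSpace M] [ChartedSpace E4 M] [T2Space M] [IsManifold (𝓡 4) ∞ M]
    {k₁ k₂ : ℝ × E3 → M} {ε : ℝ} (D : ACB.Dbl (-1 / 2) (1 / 2) k₁ k₂ ε) {q : M} {lam₁ lam₂ : ℝ → M}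
    (hG : Gens D q lam₁ lam₂) {x y : FundamentalGroup M q} (hx : BCls q lam₁ x) (hy : BCls q lam₂ y)
    {G : FreeGroup (Fin 2)} {b : ℂ × ℝ × ℝ → SP} {l₁ l₂ η : ℝ} (hS : Strip ISP κS₁ κS₂ b l₁ l₂ η)
    (ht : ∀ (z : ℂ) (s t : ℝ), ‖z‖ < 4 → |s| < 1 → (b (z, s, t)).2 = circ t)
    (hj : ∀ (N : Type) [TopologicalSpace N] (j : SP → N) (q : N),
        (∀ w : S3, ¬ OnF ![κS₁, κS₂] (w, circ (1 / 2)) → ContinuousAt j (w, circ (1 / 2))) → j p₀ = q →
        ∀ g₁ g₂ : FundamentalGroup N q, BCls q (fun τ => j (zl₁ τ)) g₁ → BCls q (fun τ => j (zl₂ τ)) g₂ →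
          ACB.Cls q (fun u => j (κγ b (1 / 2, 0, u)))
            (g₁ * FreeGroup.lift ![g₁, g₂] G * g₂ * (FreeGroup.lift ![g₁, g₂] G)⁻¹))
    (n : ℕ) : ∀ {M₁ M₂ : Sl}, M₁.a.natAbs + M₂.a.natAbs = n → M₁.Uni → M₂.Uni →
      (M₁.a * M₂.c + M₁.c * M₂.a = 1 ∨ M₁.a * M₂.c + M₁.c * M₂.a = -1) →
      ∀ (X : Type) [TopologicalSpace X] [ChartedSpace E4 X] [T2Space X],
        FT ISP ![κS₁, κS₂] ![M₁, M₂] ![κγ b] X → Nonempty (X ≃ₘ⟮𝓡 4, 𝓡 4⟯ S4) := by
  induction n using Nat.strong_induction_on with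
  | _ n ih =>
  intro M₁ M₂ hn h₁ h₂ hr X _ _ _ D'
  by_cases hbase : |M₁.a| ≤ 1 ∨ |M₂.a| ≤ 1
  · obtain ⟨N₁, hu1, ha1, hc1, hN1⟩ := vch_norm M₁ h₁
    obtain ⟨N₂, hu2, ha2, hc2, hN2⟩ := vch_norm M₂ h₂
    have hd : Nonempty (FT ISP ![κS₁, κS₂] ![N₁, N₂] ![κγ b] X) := by
      refine ft_dual D' ?_ ?_ ?_ ?_
      · intro i
        fin_cases i
        · exact h₁
        · exact h₂
      · intro i
        fin_cases i
        · exact hu1
        · exact hu2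
      · intro i
        fin_cases i
        · exact ha1
        · exact ha2
      · intro i
        fin_cases i
        · exact hc1
        · exact hc2
    obtain ⟨D''⟩ := hd
    obtain ⟨X₁, _, _, _, ⟨D₁⟩, hT⟩ := ex_ft D hG hx hy hN1 hN2 (G := G) hS ht hj
    have hac := ac_base x y (a := -N₁.c) (b := N₁.a) (c := -N₂.c) (d := N₂.a) (by
      rw [ha1, ha2, hc1, hc2]
      rcases hr with h | h
      · right
        linarith
      · left
        linarith) (by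
      rw [ha1, ha2]
      exact hbase) (vch_mem x y (-N₁.c) (-N₂.c) G)
    have h1 : Nonempty (X₁ ≃ₘ⟮𝓡 4, 𝓡 4⟯ S4) :=
      ACB.double_ac D (gens_cls₁ D hG hx) (gens_cls₂ D hG hy) hac hT
    obtain ⟨e1⟩ := h1
    obtain ⟨e2⟩ := ft_uniq (strip_sys hS) D'' D₁
    exact ⟨e2.trans e1⟩
  · push Not at hbase
    obtain ⟨hb1, hb2⟩ := hbase
    have hne : |M₁.a| ≠ |M₂.a| := vch_ne hr hb2
    have e1 : ((M₁.a.natAbs : ℕ) : ℤ) = |M₁.a| := Int.natCast_natAbs _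
    have e2 : ((M₂.a.natAbs : ℕ) : ℤ) = |M₂.a| := Int.natCast_natAbs _
    rcases lt_or_gt_of_ne hne with h | h
    · obtain ⟨k, hk⟩ := vch_round M₂.a (b := M₁.a) (by
        intro h0
        rw [h0] at hb1
        simp at hb1)
      obtain ⟨M₂', hu, ha, hc, ⟨D''⟩⟩ := tm₂ hS D' h₁ h₂ hr k
      have e3 : ((M₂'.a.natAbs : ℕ) : ℤ) = |M₂'.a| := Int.natCast_natAbs _
      rw [ha] at e3
      have hlt : M₁.a.natAbs + M₂'.a.natAbs < n := by omega
      refine ih _ hlt (M₁ := M₁) (M₂ := M₂') rfl h₁ hu ?_ X D''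
      have : M₁.a * M₂'.c + M₁.c * M₂'.a = M₁.a * M₂.c + M₁.c * M₂.a + 2 * k * (M₁.a * M₁.a - M₁.c * M₁.a) -
          2 * k * (M₁.a * M₁.a - M₁.a * M₁.c) := by
        rw [ha, hc]
        ring
      rw [this]
      rcases hr with h' | h'
      · left
        rw [h']
        ring
      · right
        rw [h']
        ring
    · obtain ⟨k, hk⟩ := vch_round M₁.a (b := M₂.a) (by
        intro h0
        rw [h0] at hb2
        simp at hb2)
      obtain ⟨M₁', hu, ha, hc, ⟨D''⟩⟩ := tm₁ hS D' h₁ h₂ hr k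
      have e3 : ((M₁'.a.natAbs : ℕ) : ℤ) = |M₁'.a| := Int.natCast_natAbs _
      rw [ha] at e3
      have hlt : M₁'.a.natAbs + M₂.a.natAbs < n := by omega
      refine ih _ hlt (M₁ := M₁') (M₂ := M₂) rfl hu h₂ ?_ X D''
      have : M₁'.a * M₂.c + M₁'.c * M₂.a = M₁.a * M₂.c + M₁.c * M₂.a := by
        rw [ha, hc]
        ring
      rw [this]
      exact hr

end Pool.Agent.MMV
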