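import Pool.Agent.MMV.VCh
import Pool.Agent.MMV.VAl

/-!
# MMV/VMl
: the theorem for the double   (difficulty 2)

`a d + b c = ±1`: `a`, `b` coprime and `c`, `d` coprime: `M₁ = ⟨b, β, -a, δ⟩` with `b δ + β a = 1`, `M₂ = ⟨d, β', -c, δ'⟩` with `d δ' + β' c = 1` (`Int.isCoprime_iff_gcd_eq_one`, or directly from `h`: for `ε = a d + b c`: `M₁ = ⟨b, ε d, -a, ε c⟩`: `b ε c + ε d a = ε² = 1`; `M₂ = ⟨d, ε b, -c, ε a⟩`: `d ε a + ε b c = 1`).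
`alg_word` gives `G'`; `strip_word G'` the box `b`; `ex_ft` the manifold `X₀` with `FT` and `Two q (x^b y^(-d)) (x^a lift ![x^a, y^c] G' y^c (..)⁻¹) X₀` (`-(-a) = a`); `chain` with `M₁.a M₂.c + M₁.c M₂.a = -(b c + a d)`: `X₀ ≃ S4`; `ACB.isSurg_diffeo_X` transports `Two` to `S4`; `ACB.two_ac` with the equivalence of `alg_word`.
-/

open scoped ContDiff Manifold Topology
open Set Filter
open Complex (I)
open Pool.Agent.RSG (E3 E4 S2 S3 S4 ex cj c1 c2 ht fh pS3 pS4)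
open Pool.Agent.RBM (ThickT OnT Box)
open Pool.Agent.LKF (OnF)
open Pool.Agent.PTH (SP ISP)
open Pool.Agent.KNH (circ)
open Pool.Agent.LKT (s1 s2)

namespace Pool.Agent.MMV

theorem mlevel {M : Type} [TopologicalSpace M] [ChartedSpace E4 M] [T2Space M] [IsManifold (𝓡 4) ∞ M]
    {k₁ k₂ : ℝ × E3 → M} {ε : ℝ} (D : ACB.Dbl (-1 / 2) (1 / 2) k₁ k₂ ε) {q : M} {lam₁ lam₂ : ℝ → M}
    (hG : Gens D q lam₁ lam₂) {x y : FundamentalGroup M q} (hx : BCls q lam₁ x) (hy : BCls q lam₂ y)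
    {a b c d : ℤ} (h : a * d + b * c = 1 ∨ a * d + b * c = -1) (G : FreeGroup (Fin 2)) :
    ACB.Two q (x ^ b * y ^ (-d)) (x ^ a * FreeGroup.lift ![x, y] G * y ^ c * (FreeGroup.lift ![x, y] G)⁻¹) S4 := by
  obtain ⟨ε', hε, he⟩ : ∃ ε' : ℤ, a * d + b * c = ε' ∧ ε' * ε' = 1 := by
    rcases h with h | h
    · exact ⟨1, h, by norm_num⟩
    · exact ⟨-1, h, by norm_num⟩
  obtain ⟨G', hG'⟩ := alg_word x y h G
  obtain ⟨bb, l₁, l₂, η, hS, ht, hj⟩ := strip_word G'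
  have h₁ : (⟨b, ε' * d, -a, ε' * c⟩ : Sl).a * (⟨b, ε' * d, -a, ε' * c⟩ : Sl).d
      - (⟨b, ε' * d, -a, ε' * c⟩ : Sl).b * (⟨b, ε' * d, -a, ε' * c⟩ : Sl).c = 1 := by
    change b * (ε' * c) - (ε' * d) * (-a) = 1
    rw [← he]
    nth_rewrite 4 [← hε]
    ring
  have h₂ : (⟨d, ε' * b, -c, ε' * a⟩ : Sl).a * (⟨d, ε' * b, -c, ε' * a⟩ : Sl).d
      - (⟨d, ε' * b, -c, ε' * a⟩ : Sl).b * (⟨d, ε' * b, -c, ε' * a⟩ : Sl).c = 1 := by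
    change d * (ε' * a) - (ε' * b) * (-c) = 1
    rw [← he]
    nth_rewrite 4 [← hε]
    ring
  obtain ⟨X₀, tX, cX, t2, ⟨hFT⟩, hTwo⟩ := ex_ft D hG hx hy h₁ h₂ hS ht hj
  have hr : (⟨b, ε' * d, -a, ε' * c⟩ : Sl).a * (⟨d, ε' * b, -c, ε' * a⟩ : Sl).c
      + (⟨b, ε' * d, -a, ε' * c⟩ : Sl).c * (⟨d, ε' * b, -c, ε' * a⟩ : Sl).a = 1 ∨
      (⟨b, ε' * d, -a, ε' * c⟩ : Sl).a * (⟨d, ε' * b, -c, ε' * a⟩ : Sl).c
      + (⟨b, ε' * d, -a, ε' * c⟩ : Sl).c * (⟨d, ε' * b, -c, ε' * a⟩ : Sl).a = -1 := by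
    change b * (-c) + (-a) * d = 1 ∨ b * (-c) + (-a) * d = -1
    rcases h with h | h
    · exact Or.inr (by linarith)
    · exact Or.inl (by linarith)
  obtain ⟨Φ⟩ := chain D hG hx hy hS ht hj _ rfl (Or.inl h₁) (Or.inl h₂) hr X₀ hFT
  obtain ⟨κ₁, κ₂, hs, hc1, hc2⟩ := hTwo
  have hTwo' : ACB.Two q (x ^ b * y ^ (-d)) (x ^ a * FreeGroup.lift ![x ^ a, y ^ c] G' * y ^ c *
      (FreeGroup.lift ![x ^ a, y ^ c] G')⁻¹) S4 := by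
    refine ⟨κ₁, κ₂, ACB.isSurg_diffeo_X hs Φ, hc1, ?_⟩
    have e1 : -(-a) = a := neg_neg a
    have e2 : -(-c) = c := neg_neg c
    change ACB.Cls q (ACB.core κ₂) (x ^ (-(-a)) * FreeGroup.lift ![x ^ (-(-a)), y ^ (-(-c))] G' * y ^ (-(-c)) *
      (FreeGroup.lift ![x ^ (-(-a)), y ^ (-(-c))] G')⁻¹) at hc2
    rw [e1, e2] at hc2
    exact hc2
  exact ACB.two_ac hG' hTwo'

end Pool.Agent.MMV
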